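import Mathlib

set_option autoImplicit false

namespace Pool.Agent.H16.AMD
open Classical Relation

structure Aut (Q A : Type) where
  L : Q → Q × Bool → Prop
  R : Q → Q × Bool → Prop
  U : Q → A → Q × Bool → Prop
  M : Q → A → Q × Bool → Prop

variable {Q A : Type}

def Step (D : Aut Q A) (w : List A) (x y : Q × ℕ × ℕ) : Prop :=
  (x.2.1 = 0 ∧ D.L x.1 (y.1, true) ∧ y.2.1 = 1 ∧ y.2.2 = x.2.2) ∨
  (x.2.1 = w.length + 1 ∧ D.R x.1 (y.1, false) ∧ y.2.1 = w.length ∧ y.2.2 = x.2.2) ∨
  (∃ a : A, 1 ≤ x.2.1 ∧ w[x.2.1 - 1]? = some a ∧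
    ∃ b : Bool, (if x.2.1 ≤ x.2.2 then D.M x.1 a (y.1, b) else D.U x.1 a (y.1, b)) ∧
      y.2.1 = (if b then x.2.1 + 1 else x.2.1 - 1) ∧ y.2.2 = max x.2.2 x.2.1)

def Fin' (D : Aut Q A) (F : Q → Prop) (w : List A) (c : Q × ℕ × ℕ) : Prop :=
  ∃ q : Q, ∃ i j : ℕ, ReflTransGen (Step D w) c (q, i, j) ∧ i = w.length + 1 ∧
    ∃ q', F q' ∧ D.R q (q', true)

structure Det (D : Aut Q A) : Prop where
  L : ∀ q x y, D.L q x → D.L q y → x = y
  R : ∀ q x y, D.R q x → D.R q y → x = y
  U : ∀ q a x y, D.U q a x → D.U q a y → x = y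
  M : ∀ q a x y, D.M q a x → D.M q a y → x = y

theorem step_mono {D : Aut Q A} {w : List A} {x y : Q × ℕ × ℕ} (h : Step D w x y) :
    x.2.2 ≤ y.2.2 := by
  rcases h with h | h | ⟨a, _, _, b, _, _, h⟩ <;> omega

theorem rtg_mono {D : Aut Q A} {w : List A} {x y : Q × ℕ × ℕ}
    (h : ReflTransGen (Step D w) x y) : x.2.2 ≤ y.2.2 := by
  induction h with
  | refl => exact le_rfl
  | tail _ h ih => exact ih.trans (step_mono h)

theorem step_uniq {D : Aut Q A} (hD : Det D) (w : List A) :
    Relator.RightUnique (Step D w) := by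
  rintro ⟨q, i, j⟩ ⟨q1, i1, j1⟩ ⟨q2, i2, j2⟩ h1 h2
  have hl : ∀ a, w[i - 1]? = some a → i - 1 < w.length := fun a h => by
    by_contra hc
    rw [List.getElem?_eq_none (by omega)] at h
    cases h
  rcases h1 with ⟨a1, a2, a3, a4⟩ | ⟨a1, a2, a3, a4⟩ | ⟨a, a1, a2, b, a3, a4, a5⟩ <;>
  rcases h2 with ⟨b1, b2, b3, b4⟩ | ⟨b1, b2, b3, b4⟩ | ⟨a', b1, b2, b', b3, b4, b5⟩ <;>
  simp only at *
  · have := hD.L _ _ _ a2 b2
    simp_all
  · omega
  · omega
  · omega
  · have := hD.R _ _ _ a2 b2
    simp_all
  · have := hl _ b2; omega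
  · omega
  · have := hl _ a2; omega
  · rw [a2] at b2
    cases b2
    have : (q1, b) = (q2, b') := by
      split_ifs at a3 b3
      · exact hD.M _ _ _ _ a3 b3
      · exact hD.U _ _ _ _ a3 b3
    cases this
    simp_all

theorem step_inv {D : Aut Q A} {w : List A} {x y : Q × ℕ × ℕ} (h : Step D w x y)
    (hx : x.2.1 ≤ x.2.2 + 1) : y.2.1 ≤ y.2.2 + 1 := by
  rcases h with h | h | ⟨a, _, _, b, _, h1, h⟩
  · omega
  · omega
  · split_ifs at h1 <;> omega

theorem rtg_inv {D : Aut Q A} {w : List A} {x y : Q × ℕ × ℕ}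
    (h : ReflTransGen (Step D w) x y) (hx : x.2.1 ≤ x.2.2 + 1) : y.2.1 ≤ y.2.2 + 1 := by
  induction h with
  | refl => exact hx
  | tail _ h ih => exact step_inv h ih

theorem front_uniq {D : Aut Q A} (hD : Det D) (w : List A) (c : Q × ℕ × ℕ) (L : ℕ)
    (hL : L < w.length) (p p' : Q) (h : ReflTransGen (Step D w) c (p, L + 1, L))
    (h' : ReflTransGen (Step D w) c (p', L + 1, L)) : p = p' := by
  have key : ∀ p p' : Q, ReflTransGen (Step D w) (p, L + 1, L) (p', L + 1, L) → p = p' := by
    intro p p' h
    rcases h.cases_head with h | ⟨c, h1, h2⟩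
    · cases h; rfl
    · have := rtg_mono h2
      rcases h1 with h | h | ⟨a, _, _, b, _, _, h⟩ <;> simp only at * <;> omega
  rcases ReflTransGen.total_of_right_unique (step_uniq hD w) h h' with h | h
  · exact key _ _ h
  · exact (key _ _ h).symm

theorem pass {D : Aut Q A} {w : List A} (p0 : Q) (L : ℕ) {y : Q × ℕ × ℕ}
    (h : ReflTransGen (Step D w) (p0, 1, 0) y) (hy : L < y.2.2 ∨ (y.2.1 = L + 1 ∧ y.2.2 = L)) :
    ∃ p, ReflTransGen (Step D w) (p0, 1, 0) (p, L + 1, L) ∧
      ReflTransGen (Step D w) (p, L + 1, L) y := by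
  induction h with
  | refl =>
    simp only at hy
    have : L = 0 := by omega
    subst this
    exact ⟨p0, .refl, .refl⟩
  | @tail c1 c h1 h2 ih =>
    rcases hy with hy | ⟨hy, hy'⟩
    · have hi := rtg_inv h1 (by simp)
      have : L < c1.2.2 ∨ (c1.2.1 = L + 1 ∧ c1.2.2 = L) := by
        rcases h2 with h | h | ⟨a, _, _, b, _, _, h⟩ <;> omega
      obtain ⟨p, h3, h4⟩ := ih this
      exact ⟨p, h3, h4.tail h2⟩
    · obtain ⟨q, i, j⟩ := c
      simp only at hy hy'
      subst hy hy'
      exact ⟨q, h1.tail h2, .refl⟩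

theorem pre_indep {D : Aut Q A} {w w' : List A} (L : ℕ) (hl : w.length = w'.length)
    (he : ∀ i < L, w[i]? = w'[i]?) {x y : Q × ℕ × ℕ}
    (h : ReflTransGen (Step D w) x y) (hy : y.2.2 ≤ L) : ReflTransGen (Step D w') x y := by
  induction h with
  | refl => exact .refl
  | @tail c1 c h1 h2 ih =>
    refine (ih ((step_mono h2).trans hy)).tail ?_
    rcases h2 with h | h | ⟨a, h3, h4, b, h5, h6, h7⟩
    · exact Or.inl h
    · exact Or.inr (Or.inl (hl ▸ h))
    · exact Or.inr (Or.inr ⟨a, h3, by rw [← he _ (by omega)]; exact h4, b, h5, h6, h7⟩)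

def Seg (D : Aut Q A) (W : List A) (x y : Q × ℕ) : Prop :=
  ∃ a : A, 1 ≤ x.2 ∧ W[x.2 - 1]? = some a ∧
    ∃ b : Bool, D.M x.1 a (y.1, b) ∧ y.2 = (if b then x.2 + 1 else x.2 - 1)

def Tab (D : Aut Q A) (W : List A) (x y : Q × Bool) : Prop :=
  ReflTransGen (Seg D W) (x.1, if x.2 then W.length else 1) (y.1, if y.2 then W.length + 1 else 0)

theorem seg_lift {D : Aut Q A} (α W β : List A) (j : ℕ) (hj : α.length + W.length ≤ j)
    {x y : Q × ℕ} (h : ReflTransGen (Seg D W) x y) :
    ReflTransGen (Step D (α ++ W ++ β)) (x.1, α.length + x.2, j) (y.1, α.length + y.2, j) := by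
  induction h with
  | refl => exact .refl
  | @tail c1 c h1 h2 ih =>
    refine ih.tail ?_
    obtain ⟨a, h3, h4, b, h5, h6⟩ := h2
    have hl : c1.2 - 1 < W.length := by
      by_contra hc
      rw [List.getElem?_eq_none (by omega)] at h4
      cases h4
    refine Or.inr (Or.inr ⟨a, by simp only; omega, ?_, b, ?_, ?_, ?_⟩)
    · simp only
      rw [List.getElem?_append_left (by simp; omega), List.getElem?_append_right (by omega),
        ← h4]
      congr 1; omega
    · simp only
      rw [if_pos (by omega)]; exact h5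
    · simp only
      split_ifs at h6 ⊢ <;> omega
    · simp only
      omega

theorem swap {D : Aut Q A} (α W W' β : List A) (hl : W.length = W'.length)
    (hT : Tab D W = Tab D W') {x y : Q × ℕ × ℕ}
    (hx : α.length + W.length < x.2.1) (hx' : α.length + W.length ≤ x.2.2)
    (h : ReflTransGen (Step D (α ++ W ++ β)) x y) :
    ((y.2.1 ≤ α.length ∨ α.length + W.length < y.2.1) →
      ReflTransGen (Step D (α ++ W' ++ β)) x y) ∧
    (α.length < y.2.1 → y.2.1 ≤ α.length + W.length → ∃ (p : Q) (s : Bool),
      ReflTransGen (Step D (α ++ W' ++ β)) x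
        (p, α.length + (if s then W.length else 1), y.2.2) ∧
      ReflTransGen (Seg D W) (p, if s then W.length else 1) (y.1, y.2.1 - α.length)) := by
  induction h with
  | refl => exact ⟨fun _ => .refl, fun _ _ => by omega⟩
  | @tail c1 c h1 h2 ih =>
    have hm := rtg_mono h1
    obtain ⟨q1, i1, j1⟩ := c1
    obtain ⟨q, i, j⟩ := c
    simp only at *
    by_cases ho : i1 ≤ α.length ∨ α.length + W.length < i1
    · have h3 : Step D (α ++ W' ++ β) (q1, i1, j1) (q, i, j) := by
        rcases h2 with h | h | ⟨a, h3, h4, b, h5, h6, h7⟩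
        · exact Or.inl h
        · refine Or.inr (Or.inl ?_)
          simp only [List.length_append, hl] at h ⊢
          exact h
        · refine Or.inr (Or.inr ⟨a, h3, ?_, b, h5, h6, h7⟩)
          simp only at h3 h4 ⊢
          rcases ho with ho | ho
          · rw [List.append_assoc, List.getElem?_append_left (by omega)] at h4 ⊢
            exact h4
          · rw [List.getElem?_append_right (by simp; omega)] at h4 ⊢
            simp only [List.length_append, hl] at h4 ⊢
            exact h4
      have h4 := (ih.1 ho).tail h3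
      refine ⟨fun _ => h4, fun h5 h6 => ?_⟩
      have h7 : i = i1 + 1 ∨ i + 1 = i1 := by
        rcases h2 with h | h | ⟨a, h3, h4, b, h5, h6, h7⟩
        · simp only at h; omega
        · simp only at h; omega
        · simp only at h3 h6; split_ifs at h6 <;> omega
      rcases h7 with h7 | h7
      · refine ⟨q, false, ?_, ?_⟩
        · have : α.length + (if false = true then W.length else 1) = i := by simp; omega
          rw [this]; exact h4
        · have : (if false = true then W.length else 1) = i - α.length := by simp; omega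
          rw [this]
      · refine ⟨q, true, ?_, ?_⟩
        · have : α.length + (if true = true then W.length else 1) = i := by simp; omega
          rw [this]; exact h4
        · have : (if true = true then W.length else 1) = i - α.length := by simp; omega
          rw [this]
    · obtain ⟨p, s, h3, h4⟩ := ih.2 (by omega) (by omega)
      have h5 : j = j1 ∧ (i = i1 + 1 ∨ i + 1 = i1) ∧
          Seg D W (q1, i1 - α.length) (q, i - α.length) := by
        rcases h2 with h | h | ⟨a, h3, h4, b, h5, h6, h7⟩
        · simp only at h; omega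
        · simp only [List.length_append] at h; omega
        · simp only at h3 h4 h5 h6 h7
          refine ⟨by omega, by split_ifs at h6 <;> omega, a, by simp only; omega, ?_, b, ?_, ?_⟩
          · rw [List.getElem?_append_left (by simp; omega),
              List.getElem?_append_right (by omega)] at h4
            rw [← h4]
            congr 1
            simp only; omega
          · rw [if_pos (by omega)] at h5; exact h5
          · simp only
            split_ifs at h6 ⊢ <;> omega
      obtain ⟨rfl, h6, h7⟩ := h5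
      have h8 := h4.tail h7
      refine ⟨fun h9 => ?_, fun _ _ => ⟨p, s, h3, h8⟩⟩
      have h10 : ∃ s' : Bool, i - α.length = (if s' then W.length + 1 else 0) ∧ α.length ≤ i := by
        rcases h9 with h9 | h9
        · exact ⟨false, by simp; omega, by omega⟩
        · exact ⟨true, by simp; omega, by omega⟩
      obtain ⟨s', h10, h11⟩ := h10
      rw [h10] at h8
      have h12 : Tab D W (p, s) (q, s') := h8
      rw [hT] at h12
      have h13 := seg_lift α W' β j (by omega) h12
      simp only [← hl, ← h10] at h13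
      have e : α.length + (i - α.length) = i := by omega
      rw [e] at h13
      exact h3.trans h13

theorem swap_fin {D : Aut Q A} {F : Q → Prop} (α W W' β : List A) (hl : W.length = W'.length)
    (hT : Tab D W = Tab D W') {x : Q × ℕ × ℕ}
    (hx : α.length + W.length < x.2.1) (hx' : α.length + W.length ≤ x.2.2)
    (h : Fin' D F (α ++ W ++ β) x) : Fin' D F (α ++ W' ++ β) x := by
  obtain ⟨q, i, j, h1, h2, h3⟩ := h
  refine ⟨q, i, j, (swap α W W' β hl hT hx hx' h1).1 ?_, ?_, h3⟩
  · right; simp only [List.length_append] at h2 ⊢; omega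
  · simp only [List.length_append, hl] at h2 ⊢; exact h2

theorem swap_many {D : Aut Q A} {F : Q → Prop} {I : Type} (W W' : I → List A) (c : I → A)
    (hl : ∀ r, (W r).length = (W' r).length) (hT : ∀ r, Tab D (W r) = Tab D (W' r))
    {x : Q × ℕ × ℕ} : ∀ (l : List I) (α β : List A),
    α.length + (l.flatMap fun r => W r ++ [c r]).length < x.2.1 →
    α.length + (l.flatMap fun r => W r ++ [c r]).length ≤ x.2.2 →
    Fin' D F (α ++ (l.flatMap fun r => W r ++ [c r]) ++ β) x →
    Fin' D F (α ++ (l.flatMap fun r => W' r ++ [c r]) ++ β) x := by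
  intro l
  induction l with
  | nil => intro α β _ _ h; exact h
  | cons r l ih =>
    intro α β h1 h2 h
    simp only [List.flatMap_cons, List.length_append, List.length_singleton] at h1 h2 h ⊢
    have h3 := ih (α ++ (W r ++ [c r])) β (by simp only [List.length_append, List.length_singleton]; omega)
      (by simp only [List.length_append, List.length_singleton]; omega)
      (by simpa only [List.append_assoc] using h)
    have h4 := swap_fin (F := F) α (W r) (W' r)
      ([c r] ++ (l.flatMap fun r => W' r ++ [c r]) ++ β) (hl r) (hT r) (x := x) (by omega) (by omega)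
      (by simpa only [List.append_assoc] using h3)
    simpa only [List.append_assoc] using h4

end Pool.Agent.H16.AMD
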