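import Pool.Agent.H16.AMD1

set_option autoImplicit false

namespace Pool.Agent.H16.AMD
open Classical Relation

inductive Lt (t : ℕ)
  | X (x : Fin t → Bool) | st (b : Bool) | bit (l : Fin t) (b : Bool) | en
  | cl (r : Fin t) | fin (r : Fin t)
  deriving Fintype

inductive Qs (t : ℕ)
  | idle | ret | mat | acc | chk (l : Fin t) (b : Bool) | fnd (r : Fin t)

variable {t : ℕ}

inductive U0 : Qs t → Lt t → Qs t → Prop
  | idle (a) : U0 .idle a .idle
  | st : U0 .idle (.st true) .ret
  | en : U0 .ret .en .mat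
  | mat (a) : (∀ r, a ≠ .cl r) → U0 .mat a .mat
  | cl (r) : U0 .mat (.cl r) (.fnd r)
  | fnd (r a) : U0 (.fnd r) a (.fnd r)
  | fin (r) : U0 (.fnd r) (.fin r) .acc

def MM (t : ℕ) : Aut (Qs t) (Lt t) where
  L := fun _ _ => False
  R := fun q y => q = .acc ∧ y = (.acc, true)
  U := fun q a y => (y.2 = true ∧ U0 q a y.1) ∨
    (y.2 = false ∧ q = .ret ∧ ∃ l b, a = .bit l b ∧ y.1 = .chk l b)
  M := fun q a y => (q = .ret ∧ y = (.ret, true)) ∨
    ∃ l b, q = .chk l b ∧ ((∃ x, a = .X x ∧ x l = b ∧ y = (.ret, true)) ∨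
      ((∀ x, a ≠ .X x) ∧ y = (q, false)))

def nx (x : Fin t → Bool) (q : Qs t) (a : Lt t) (q' : Qs t) : Prop :=
  U0 q a q' ∨ (q = .ret ∧ q' = .ret ∧ ∃ l, a = .bit l (x l))

def P (x : Fin t → Bool) : Qs t → List (Lt t) → Qs t → Prop
  | q, [], q' => q = q'
  | q, a :: w, q' => ∃ q1, nx x q a q1 ∧ P x q1 w q'

theorem P_append (x : Fin t → Bool) (u v : List (Lt t)) : ∀ q q',
    P x q (u ++ v) q' ↔ ∃ q1, P x q u q1 ∧ P x q1 v q' := by
  induction u with
  | nil => intro q q'; simp [P]
  | cons a u ih =>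
    intro q q'
    simp only [List.cons_append, P, ih]
    constructor
    · rintro ⟨q1, h1, q2, h2, h3⟩; exact ⟨q2, ⟨q1, h1, h2⟩, h3⟩
    · rintro ⟨q2, ⟨q1, h1, h2⟩, h3⟩; exact ⟨q1, h1, q2, h2, h3⟩

theorem P_take (x : Fin t → Bool) (w : List (Lt t)) (j : ℕ) (a : Lt t) (h : w[j]? = some a)
    (q q' : Qs t) : P x q (w.take (j + 1)) q' ↔ ∃ q1, P x q (w.take j) q1 ∧ nx x q1 a q' := by
  rw [List.take_add_one, h, P_append]
  simp [P]

def Inv (x : Fin t → Bool) (w : List (Lt t)) (c : Qs t × ℕ × ℕ) : Prop :=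
  c.2.1 ≤ c.2.2 + 1 ∧
  ((∃ l b j, c.1 = .chk l b ∧ c.2.2 = j + 1 ∧ P x .idle (w.take j) .ret ∧ w[j]? = some (.bit l b)) ∨
   (P x .idle (w.take c.2.2) c.1 ∧ (c.1 ≠ .ret → c.2.1 = c.2.2 + 1) ∧ ∀ l b, c.1 ≠ .chk l b))

theorem U0_nochk {q q' : Qs t} {a : Lt t} (h : U0 q a q') (l : Fin t) (b : Bool) :
    q' ≠ .chk l b ∧ q ≠ .chk l b := by
  cases h <;> simp

theorem inv_step (x : Fin t → Bool) (w : List (Lt t)) (hw : ∀ y, Lt.X y ∈ w → y = x)
    {c c' : Qs t × ℕ × ℕ} (h : Step (MM t) w c c') (hc : Inv x w c) : Inv x w c' := by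
  refine ⟨step_inv h hc.1, ?_⟩
  obtain ⟨q, i, j⟩ := c
  obtain ⟨q', i', j'⟩ := c'
  obtain ⟨h0, hc⟩ := hc
  simp only at *
  rcases h with ⟨_, h, _⟩ | ⟨_, h, _⟩ | ⟨a, h1, h2, b, h3, h4, h5⟩
  · exact h.elim
  · simp [MM] at h
  · simp only at h1 h2 h3 h4 h5
    split_ifs at h3 with hij
    · have e : j' = j := by omega
      subst e
      rcases h3 with ⟨rfl, h3⟩ | ⟨l, b', rfl, ⟨y, rfl, h6, h3⟩ | ⟨h6, h3⟩⟩
      · cases h3
        rcases hc with ⟨l, b, j, h, _⟩ | hc
        · cases h
        · exact Or.inr ⟨hc.1, by simp, by simp⟩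
      · cases h3
        rcases hc with ⟨l', b, j, h, rfl, h7, h8⟩ | hc
        · cases h
          have := hw y (List.mem_of_getElem? h2)
          subst this
          refine Or.inr ⟨(P_take _ _ _ _ h8 _ _).2 ⟨_, h7, Or.inr ⟨rfl, rfl, l, by rw [h6]⟩⟩,
            by simp, by simp⟩
        · exact (hc.2.2 _ _ rfl).elim
      · cases h3
        rcases hc with hc | hc
        · exact Or.inl hc
        · exact (hc.2.2 _ _ rfl).elim
    · have e : i = j + 1 := by omega
      subst e
      have e : j' = j + 1 := by omega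
      subst e
      simp only [Nat.add_sub_cancel] at h2 h4
      rcases h3 with ⟨h3, h6⟩ | ⟨h3, rfl, l, b', rfl, h6⟩
      · simp only at h3 h6
        subst h3
        rcases hc with ⟨l, b, j, rfl, _⟩ | hc
        · exact ((U0_nochk h6 _ _).2 rfl).elim
        · exact Or.inr ⟨(P_take _ _ _ _ h2 _ _).2 ⟨_, hc.1, Or.inl h6⟩, fun _ => by simpa using h4,
            fun l b => (U0_nochk h6 _ _).1⟩
      · rcases hc with ⟨l, b, j, h, _⟩ | hc
        · cases h
        · exact Or.inl ⟨l, b', j, h6, rfl, hc.1, h2⟩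

theorem sound (x : Fin t → Bool) (w : List (Lt t)) (hw : ∀ y, Lt.X y ∈ w → y = x)
    (h : Fin' (MM t) (· = .acc) w (.idle, 1, 0)) : P x .idle w .acc := by
  obtain ⟨q, i, j, h1, h2, q', h3, h4, h5⟩ := h
  have key : ∀ c, ReflTransGen (Step (MM t) w) (.idle, 1, 0) c → Inv x w c := by
    intro c hc
    induction hc with
    | refl => exact ⟨by simp, Or.inr ⟨rfl, by simp, by simp⟩⟩
    | tail _ h ih => exact inv_step x w hw h ih
  subst h4
  obtain ⟨_, ⟨l, b, j, h, _⟩ | ⟨h6, h7, _⟩⟩ := key _ h1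
  · cases h
  · simp only at h6 h7
    have := h7 (by simp)
    have e : j = w.length := by omega
    rw [e, List.take_length] at h6
    exact h6

theorem complete (x : Fin t → Bool) (w : List (Lt t)) (hw : ∀ y, Lt.X y ∉ w)
    (h : P x .idle (.X x :: w) .acc) : Fin' (MM t) (· = .acc) (.X x :: w) (.idle, 1, 0) := by
  set w' := Lt.X x :: w with hw'
  have hget : ∀ i, i < w'.length → ∃ a, w'[i]? = some a := fun i hi =>
    ⟨_, List.getElem?_eq_getElem hi⟩
  have left : ∀ l j, j ≤ w'.length → ∀ i, i + 1 ≤ j → ReflTransGen (Step (MM t) w')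
      (.chk l (x l), i + 1, j) (.ret, 2, j) := by
    intro l j hj i
    induction i with
    | zero =>
      intro hi
      refine .single (Or.inr (Or.inr ⟨.X x, le_rfl, rfl, true, ?_, rfl, ?_⟩))
      · rw [if_pos hi]
        exact Or.inr ⟨l, _, rfl, Or.inl ⟨x, rfl, rfl, rfl⟩⟩
      · simp only; omega
    | succ i ih =>
      intro hi
      obtain ⟨a, ha⟩ := hget (i + 1) (by omega)
      refine ReflTransGen.head (Or.inr (Or.inr ⟨a, by simp, ha, false, ?_, rfl, ?_⟩))
        (ih (by omega))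
      · rw [if_pos hi]
        refine Or.inr ⟨l, _, rfl, Or.inr ⟨?_, rfl⟩⟩
        rintro y rfl
        exact hw y (List.mem_of_getElem? (l := w) (i := i) ha)
      · simp only; omega
  have right : ∀ j, j ≤ w'.length → ∀ d i, i + d = j → ReflTransGen (Step (MM t) w')
      (.ret, i + 1, j) (.ret, j + 1, j) := by
    intro j hj d
    induction d with
    | zero => rintro i rfl; exact .refl
    | succ d ih =>
      intro i hi
      obtain ⟨a, ha⟩ := hget i (by omega)
      refine ReflTransGen.head (Or.inr (Or.inr ⟨a, by simp, ha, true, ?_, rfl, ?_⟩))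
        (ih (i + 1) (by omega))
      · rw [if_pos (by simp only; omega)]
        exact Or.inl ⟨rfl, rfl⟩
      · simp only; omega
  have key : ∀ j, j ≤ w'.length → ∀ q, P x .idle (w'.take j) q →
      ReflTransGen (Step (MM t) w') (.idle, 1, 0) (q, j + 1, j) := by
    intro j
    induction j with
    | zero => intro _ q hq; cases hq; exact .refl
    | succ j ih =>
      intro hj q hq
      obtain ⟨a, ha⟩ := hget j (by omega)
      obtain ⟨q1, h1, h2⟩ := (P_take _ _ _ _ ha _ _).1 hq
      refine (ih (by omega) _ h1).trans ?_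
      rcases h2 with h2 | ⟨rfl, rfl, l, rfl⟩
      · refine .single (Or.inr (Or.inr ⟨a, by simp, ha, true, ?_, rfl, ?_⟩))
        · rw [if_neg (by simp)]
          exact Or.inl ⟨rfl, h2⟩
        · simp
      · cases j with
        | zero => cases ha
        | succ j =>
          refine ReflTransGen.head (Or.inr (Or.inr ⟨_, by simp, ha, false, ?_, rfl, ?_⟩))
            ((left l _ hj j (by omega)).trans (right _ hj (j + 1) 1 (by omega)))
          · rw [if_neg (by simp)]
            exact Or.inr ⟨rfl, rfl, l, _, rfl, rfl⟩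
          · simp
  exact ⟨.acc, _, _, key _ le_rfl _ (by rw [List.take_length]; exact h), rfl, .acc, rfl, rfl, rfl⟩

def bits (y : Fin t → Bool) (l : List (Fin t)) : List (Lt t) := l.map fun i => .bit i (y i)

def blk (b : Bool) (y : Fin t → Bool) : List (Lt t) :=
  .st b :: (bits y (List.finRange t) ++ [.en])

noncomputable def WW (C : Finset (Fin t → Bool)) : List (Lt t) :=
  (Finset.univ : Finset (Fin t → Bool)).toList.flatMap fun y => blk (decide (y ∈ C)) y

def Plain (a : Lt t) : Prop := (∃ b, a = .st b) ∨ (∃ l b, a = .bit l b) ∨ a = .en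

theorem blk_plain (b : Bool) (y : Fin t → Bool) : ∀ a ∈ blk b y, Plain a := by
  intro a ha
  simp only [blk, bits, List.mem_cons, List.mem_append, List.mem_map, List.not_mem_nil,
    or_false] at ha
  rcases ha with rfl | ⟨i, _, rfl⟩ | rfl
  · exact Or.inl ⟨_, rfl⟩
  · exact Or.inr (Or.inl ⟨_, _, rfl⟩)
  · exact Or.inr (Or.inr rfl)

theorem WW_plain (C : Finset (Fin t → Bool)) : ∀ a ∈ WW C, Plain a := by
  intro a ha
  obtain ⟨y, _, h⟩ := List.mem_flatMap.1 ha
  exact blk_plain _ _ a h

theorem WW_len (C C' : Finset (Fin t → Bool)) : (WW C).length = (WW C').length := by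
  simp [WW, List.length_flatMap, blk, bits]

theorem P_idle (x : Fin t → Bool) (w : List (Lt t)) : P x .idle w .idle := by
  induction w with
  | nil => rfl
  | cons a w ih => exact ⟨_, Or.inl (.idle a), ih⟩

theorem P_fnd (x : Fin t → Bool) (r : Fin t) (w : List (Lt t)) : P x (.fnd r) w (.fnd r) := by
  induction w with
  | nil => rfl
  | cons a w ih => exact ⟨_, Or.inl (.fnd r a), ih⟩

theorem P_mat (x : Fin t → Bool) (w : List (Lt t)) (hw : ∀ a ∈ w, Plain a) (q : Qs t) :
    P x .mat w q ↔ q = .mat := by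
  induction w with
  | nil => exact eq_comm
  | cons a w ih =>
    have ha := hw a (by simp)
    have ih := ih fun b hb => hw b (by simp [hb])
    constructor
    · rintro ⟨q1, h1 | h1, h2⟩
      · cases h1 with
        | mat => exact ih.1 h2
        | cl => simp [Plain] at ha
      · simp at h1
    · intro h
      refine ⟨_, Or.inl (.mat a ?_), ih.2 h⟩
      rintro r rfl
      simp [Plain] at ha

theorem P_fnd' (x : Fin t → Bool) (r : Fin t) (w : List (Lt t)) (hw : ∀ r, Lt.fin r ∉ w)
    (q : Qs t) (h : P x (.fnd r) w q) : q = .fnd r := by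
  induction w with
  | nil => exact h.symm
  | cons a w ih =>
    obtain ⟨q1, h1 | h1, h2⟩ := h
    · cases h1 with
      | fnd => exact ih (fun r hr => hw r (by simp [hr])) h2
      | fin => exact (hw r (by simp)).elim
    · simp at h1

theorem P_ret_bits (x y : Fin t → Bool) (l : List (Fin t)) (q : Qs t) :
    P x .ret (bits y l) q ↔ q = .ret ∧ ∀ i ∈ l, y i = x i := by
  induction l with
  | nil => simp [bits, P, eq_comm]
  | cons i l ih =>
    constructor
    · rintro ⟨q1, h1 | ⟨_, rfl, l', h1⟩, h2⟩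
      · cases h1
      · obtain ⟨h3, h4⟩ := ih.1 h2
        refine ⟨h3, fun j hj => ?_⟩
        rcases List.mem_cons.1 hj with rfl | hj
        · simp only [Lt.bit.injEq] at h1
          rw [h1.2, h1.1]
        · exact h4 j hj
    · rintro ⟨h1, h2⟩
      exact ⟨_, Or.inr ⟨rfl, rfl, i, by simp only [h2 i (by simp)]⟩,
        ih.2 ⟨h1, fun j hj => h2 j (by simp [hj])⟩⟩

theorem P_idle_nost (x : Fin t → Bool) (w : List (Lt t)) (hw : Lt.st true ∉ w) (q : Qs t)
    (h : P x .idle w q) : q = .idle := by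
  induction w with
  | nil => exact h.symm
  | cons a w ih =>
    obtain ⟨q1, h1 | h1, h2⟩ := h
    · cases h1 with
      | idle => exact ih (fun hr => hw (by simp [hr])) h2
      | st => exact (hw (by simp)).elim
    · simp at h1

theorem P_blk (x y : Fin t → Bool) (b : Bool) (q : Qs t) (h : P x .idle (blk b y) q) :
    q = .idle ∨ (q = .mat ∧ b = true ∧ y = x) := by
  obtain ⟨q1, h1 | h1, h2⟩ := h
  · cases h1 with
    | idle => exact Or.inl (P_idle_nost x _ (by simp [bits]) q h2)
    | st =>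
      obtain ⟨q2, h3, q3, h4, h5⟩ := (P_append _ _ _ _ _).1 h2
      obtain ⟨rfl, h6⟩ := (P_ret_bits _ _ _ _).1 h3
      rcases h4 with h4 | h4
      · cases h4
        exact Or.inr ⟨h5.symm, rfl, funext fun i => h6 i (by simp)⟩
      · simp at h4
  · simp at h1

theorem P_blk' (x : Fin t → Bool) : P x .idle (blk true x) .mat :=
  ⟨_, Or.inl .st, (P_append _ _ _ _ _).2 ⟨_, (P_ret_bits _ _ _ _).2 ⟨rfl, fun _ _ => rfl⟩,
    _, Or.inl .en, rfl⟩⟩

theorem P_WW (x : Fin t → Bool) (C : Finset (Fin t → Bool)) (q : Qs t)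
    (h : P x .idle (WW C) q) : q = .idle ∨ (q = .mat ∧ x ∈ C) := by
  unfold WW at h
  generalize (Finset.univ : Finset (Fin t → Bool)).toList = l at h
  induction l with
  | nil => exact Or.inl h.symm
  | cons y l ih =>
    rw [List.flatMap_cons, P_append] at h
    obtain ⟨q1, h1, h2⟩ := h
    rcases P_blk _ _ _ _ h1 with rfl | ⟨rfl, h3, rfl⟩
    · exact ih h2
    · refine Or.inr ⟨(P_mat _ _ ?_ _).1 h2, by simpa using h3⟩
      intro a ha
      obtain ⟨y, _, h⟩ := List.mem_flatMap.1 ha
      exact blk_plain _ _ a h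

theorem P_WW' (x : Fin t → Bool) (C : Finset (Fin t → Bool)) (h : x ∈ C) :
    P x .idle (WW C) .mat := by
  obtain ⟨l1, l2, e⟩ := List.append_of_mem (Finset.mem_toList.2 (Finset.mem_univ x))
  unfold WW
  rw [e, List.flatMap_append, List.flatMap_cons, P_append]
  refine ⟨_, P_idle _ _, (P_append _ _ _ _ _).2 ⟨.mat, ?_, (P_mat _ _ ?_ _).2 rfl⟩⟩
  · rw [decide_eq_true h]; exact P_blk' x
  · intro a ha
    obtain ⟨y, _, h⟩ := List.mem_flatMap.1 ha
    exact blk_plain _ _ a h

noncomputable def body (C : Fin t → Finset (Fin t → Bool)) (l : List (Fin t)) : List (Lt t) :=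
  l.flatMap fun r => WW (C r) ++ [.cl r]

theorem body_mem (C : Fin t → Finset (Fin t → Bool)) (l : List (Fin t)) :
    ∀ a ∈ body C l, Plain a ∨ ∃ r, a = .cl r := by
  intro a ha
  obtain ⟨r, _, h⟩ := List.mem_flatMap.1 ha
  rcases List.mem_append.1 h with h | h
  · exact Or.inl (WW_plain _ a h)
  · exact Or.inr ⟨r, by simpa using h⟩

theorem P_body (x : Fin t → Bool) (C : Fin t → Finset (Fin t → Bool)) (l : List (Fin t))
    (q : Qs t) (h : P x .idle (body C l) q) : q = .idle ∨ ∃ r, q = .fnd r ∧ x ∈ C r := by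
  induction l with
  | nil => exact Or.inl h.symm
  | cons r l ih =>
    unfold body at h
    rw [List.flatMap_cons, P_append] at h
    obtain ⟨q1, h1, h2⟩ := h
    rw [P_append] at h1
    obtain ⟨q2, h3, q3, h4, rfl⟩ := h1
    rcases P_WW _ _ _ h3 with rfl | ⟨rfl, h5⟩
    · rcases h4 with h4 | h4
      · cases h4
        exact ih h2
      · simp at h4
    · rcases h4 with h4 | h4
      · cases h4 with
        | mat _ h => exact (h r rfl).elim
        | cl =>
          refine Or.inr ⟨r, P_fnd' _ _ _ ?_ _ h2, h5⟩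
          intro r' hr'
          have := body_mem C l _ hr'
          simp [Plain] at this
      · simp at h4

theorem P_body' (x : Fin t → Bool) (C : Fin t → Finset (Fin t → Bool)) (r : Fin t)
    (h : x ∈ C r) : P x .idle (body C (List.finRange t)) (.fnd r) := by
  obtain ⟨l1, l2, e⟩ := List.append_of_mem (List.mem_finRange r)
  unfold body
  rw [e, List.flatMap_append, List.flatMap_cons, P_append]
  refine ⟨_, P_idle _ _, (P_append _ _ _ _ _).2 ⟨.fnd r, ?_, P_fnd _ _ _⟩⟩
  exact (P_append _ _ _ _ _).2 ⟨_, P_WW' _ _ h, _, Or.inl (.cl r), rfl⟩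

theorem MM_acc (x : Fin t → Bool) (C : Fin t → Finset (Fin t → Bool)) (r : Fin t) :
    Fin' (MM t) (· = .acc) ([.X x] ++ body C (List.finRange t) ++ [.fin r]) (.idle, 1, 0) ↔
      x ∈ C r := by
  constructor
  · intro h
    have := sound x _ (by
      intro y hy
      simp only [List.mem_append, List.mem_singleton] at hy
      rcases hy with (hy | hy) | hy
      · cases hy; rfl
      · have := body_mem C _ _ hy
        simp [Plain] at this
      · cases hy) h
    rw [P_append] at this
    obtain ⟨q1, h1, q2, h2, rfl⟩ := this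
    rw [P_append] at h1
    obtain ⟨q3, h3, h4⟩ := h1
    have := P_idle_nost _ _ (by simp) _ h3
    subst this
    rcases P_body _ _ _ _ h4 with rfl | ⟨r', rfl, h5⟩
    · rcases h2 with h2 | h2
      · cases h2
      · simp at h2
    · rcases h2 with h2 | h2
      · cases h2; exact h5
      · simp at h2
  · intro h
    refine complete x (body C (List.finRange t) ++ [.fin r]) ?_ ⟨_, Or.inl (.idle _), ?_⟩
    · intro y hy
      simp only [List.mem_append, List.mem_singleton] at hy
      rcases hy with hy | hy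
      · have := body_mem C _ _ hy
        simp [Plain] at this
      · cases hy
    · exact (P_append _ _ _ _ _).2 ⟨_, P_body' _ _ _ h, _, Or.inl (.fin r), rfl⟩

end Pool.Agent.H16.AMD
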