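import Pool.Agent.H16.AMD2

set_option autoImplicit false

namespace Pool.Agent.H16.AMD
open Classical Relation

theorem lower (t : ℕ) {Q : Type} [Fintype Q] (D : Aut Q (Lt t)) (hD : Det D) (G : Q → Prop)
    (pI : Q) (h : ∀ w, Fin' (MM t) (· = .acc) w (.idle, 1, 0) ↔ Fin' D G w (pI, 1, 0)) :
    2 ^ t ≤ 4 * (Fintype.card Q) ^ 2 := by
  by_contra hc
  have hm : 0 < Fintype.card Q := Fintype.card_pos_iff.2 ⟨pI⟩
  obtain ⟨A, B, hAB, hT⟩ := Fintype.exists_ne_map_eq_of_card_lt
    (fun C : Finset (Fin t → Bool) => fun z : (Q × Bool) × (Q × Bool) => Tab D (WW C) z.1 z.2)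
    (by
      simp only [Fintype.card_fun, Fintype.card_prop, Fintype.card_prod, Fintype.card_bool,
        Fintype.card_finset, Fintype.card_fin]
      apply Nat.pow_lt_pow_right (by norm_num)
      nlinarith)
  have hT' : Tab D (WW A) = Tab D (WW B) := by
    funext a b; exact congrFun hT (a, b)
  clear hT
  wlog hx : ∃ x, x ∈ A ∧ x ∉ B generalizing A B
  · refine this B A hAB.symm hT'.symm ?_
    by_contra h2
    push Not at hx h2
    exact hAB (Finset.Subset.antisymm hx h2)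
  obtain ⟨x, hxA, hxB⟩ := hx
  let C : Finset (Fin t) → Fin t → Finset (Fin t → Bool) := fun S r => if r ∈ S then A else B
  let u : Finset (Fin t) → List (Lt t) := fun S => [.X x] ++ body (C S) (List.finRange t)
  have hlen : ∀ S S', (u S).length = (u S').length := by
    intro S S'
    simp only [u, body, List.length_append, List.length_flatMap]
    congr 3
    funext r
    rw [WW_len (C S r) (C S' r)]
  let L := (u ∅).length
  have hpre : ∀ S a b p, ReflTransGen (Step D (u S ++ [a])) (pI, 1, 0) (p, L + 1, L) →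
      ReflTransGen (Step D (u S ++ [b])) (pI, 1, 0) (p, L + 1, L) := by
    intro S a b p hp
    refine pre_indep L (by simp) (fun i hi => ?_) hp le_rfl
    have := hlen S ∅
    have hi' : i < (u S).length := by omega
    rw [List.getElem?_append_left hi', List.getElem?_append_left hi']
  let fr : Finset (Fin t) → Option Q := fun S =>
    if hp : ∃ p, ReflTransGen (Step D (u S ++ [.en])) (pI, 1, 0) (p, L + 1, L)
    then some hp.choose else none
  have hfr : ∀ S p, fr S = some p ↔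
      ReflTransGen (Step D (u S ++ [.en])) (pI, 1, 0) (p, L + 1, L) := by
    intro S p
    simp only [fr]
    split_ifs with hp
    · constructor
      · intro e; cases e; exact hp.choose_spec
      · intro e
        rw [front_uniq hD _ _ L (by have := hlen S ∅; simp; omega) _ _ hp.choose_spec e]
    · simp only [false_iff]
      exact fun e => hp ⟨p, e⟩
  have hacc : ∀ S r, Fin' D G (u S ++ [.fin r]) (pI, 1, 0) ↔ r ∈ S := by
    intro S r
    rw [← h, MM_acc]
    simp only [C]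
    split_ifs with hr <;> simp [*]
  have hsub : ∀ S S', fr S = fr S' → S ⊆ S' := by
    intro S S' e r hr
    obtain ⟨q, i, j, h1, h2, h3⟩ := (hacc S r).2 hr
    have h4 := rtg_inv h1 (by simp)
    have h5 := hlen S ∅
    obtain ⟨p, h6, h7⟩ := pass pI L h1 (by left; simp at h2 h4 ⊢; omega)
    have h8 := hpre _ _ (.fin r) _ ((hfr S' p).1 (e ▸ (hfr S p).2 (hpre _ _ _ _ h6)))
    have h9 : Fin' D G (u S ++ [.fin r]) (p, L + 1, L) := ⟨q, i, j, h7, h2, h3⟩
    have h10 : Fin' D G (u S' ++ [.fin r]) (p, L + 1, L) := by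
      refine swap_many (fun r => WW (C S r)) (fun r => WW (C S' r)) Lt.cl
        (fun r => WW_len _ _) (fun r => ?_) _ [.X x] _ ?_ ?_ h9
      · simp only [C]
        split_ifs <;> simp only [hT']
      · simp only [u, body, List.length_append] at h5 ⊢
        simp only [L, u, body, List.length_append]
        omega
      · simp only [u, body, List.length_append] at h5 ⊢
        simp only [L, u, body, List.length_append]
        omega
    obtain ⟨q', i', j', h11, h12, h13⟩ := h10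
    exact (hacc S' r).1 ⟨q', i', j', h8.trans h11, h12, h13⟩
  have hinj : Function.Injective fr := fun S S' e =>
    Finset.Subset.antisymm (hsub _ _ e) (hsub _ _ e.symm)
  have := Fintype.card_le_of_injective _ hinj
  simp only [Fintype.card_finset, Fintype.card_fin, Fintype.card_option] at this
  nlinarith

variable {Q Q' A A' : Type}

def Aut.comap (D : Aut Q A') (f : A → A') : Aut Q A :=
  ⟨D.L, D.R, fun q a => D.U q (f a), fun q a => D.M q (f a)⟩

theorem step_comap (D : Aut Q A') (f : A → A') (w : List A) :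
    Step (D.comap f) w = Step D (w.map f) := by
  funext x y
  simp only [Step, Aut.comap, List.length_map, List.getElem?_map, Option.map_eq_some_iff]
  apply propext
  refine or_congr Iff.rfl (or_congr Iff.rfl ⟨?_, ?_⟩)
  · rintro ⟨a, h1, h2, h3⟩; exact ⟨f a, h1, ⟨a, h2, rfl⟩, h3⟩
  · rintro ⟨_, h1, ⟨a, h2, rfl⟩, h3⟩; exact ⟨a, h1, h2, h3⟩

theorem fin_comap (D : Aut Q A') (f : A → A') (F : Q → Prop) (w : List A) (c : Q × ℕ × ℕ) :
    Fin' (D.comap f) F w c ↔ Fin' D F (w.map f) c := by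
  simp only [Fin', step_comap, List.length_map]
  rfl

def pu (e : Q → Q') (r : Q → Q × Bool → Prop) (p : Q') (y : Q' × Bool) : Prop :=
  ∃ q q', p = e q ∧ y.1 = e q' ∧ r q (q', y.2)

def Aut.push (D : Aut Q A) (e : Q → Q') : Aut Q' A :=
  ⟨pu e D.L, pu e D.R, fun p a => pu e (fun q => D.U q a) p, fun p a => pu e (fun q => D.M q a) p⟩

theorem fin_push (D : Aut Q A) (e : Q → Q') (he : Function.Injective e) (f : Q) (w : List A)
    (q0 : Q) : Fin' (D.push e) (· = e f) w (e q0, 1, 0) ↔ Fin' D (· = f) w (q0, 1, 0) := by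
  constructor
  · rintro ⟨p, i, j, h1, h2, _, rfl, q, q', rfl, h3, h4⟩
    have key : ∀ c, ReflTransGen (Step (D.push e) w) (e q0, 1, 0) c →
        ∃ q, c.1 = e q ∧ ReflTransGen (Step D w) (q0, 1, 0) (q, c.2) := by
      intro c hc
      induction hc with
      | refl => exact ⟨q0, rfl, .refl⟩
      | @tail c1 c _ h ih =>
        obtain ⟨q1, e1, ih⟩ := ih
        rcases h with ⟨a1, ⟨q2, q3, e2, e3, a2⟩, a3⟩ | ⟨a1, ⟨q2, q3, e2, e3, a2⟩, a3⟩ |
          ⟨a, a1, a2, b, a3, a4⟩
        · obtain rfl := he (e1.symm.trans e2)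
          exact ⟨q3, e3, ih.tail (Or.inl ⟨a1, a2, a3⟩)⟩
        · obtain rfl := he (e1.symm.trans e2)
          exact ⟨q3, e3, ih.tail (Or.inr (Or.inl ⟨a1, a2, a3⟩))⟩
        · split_ifs at a3 with hh
          · obtain ⟨q2, q3, e2, e3, a5⟩ := a3
            obtain rfl := he (e1.symm.trans e2)
            exact ⟨q3, e3, ih.tail (Or.inr (Or.inr ⟨a, a1, a2, b, by rw [if_pos hh]; exact a5, a4⟩))⟩
          · obtain ⟨q2, q3, e2, e3, a5⟩ := a3
            obtain rfl := he (e1.symm.trans e2)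
            exact ⟨q3, e3, ih.tail (Or.inr (Or.inr ⟨a, a1, a2, b, by rw [if_neg hh]; exact a5, a4⟩))⟩
    obtain ⟨q1, e1, h5⟩ := key _ h1
    obtain rfl := he e1
    obtain rfl := he h3
    exact ⟨q, i, j, h5, h2, f, rfl, h4⟩
  · rintro ⟨q, i, j, h1, h2, _, rfl, h3⟩
    refine ⟨e q, i, j, ?_, h2, _, rfl, q, _, rfl, rfl, h3⟩
    refine ReflTransGen.lift (fun c : Q × ℕ × ℕ => (e c.1, c.2)) ?_ _ _ h1
    rintro c1 c (⟨a1, a2, a3⟩ | ⟨a1, a2, a3⟩ | ⟨a, a1, a2, b, a3, a4⟩)
    · exact Or.inl ⟨a1, ⟨_, _, rfl, rfl, a2⟩, a3⟩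
    · exact Or.inr (Or.inl ⟨a1, ⟨_, _, rfl, rfl, a2⟩, a3⟩)
    · refine Or.inr (Or.inr ⟨a, a1, a2, b, ?_, a4⟩)
      split_ifs at a3 ⊢ with hh
      · exact ⟨_, _, rfl, rfl, a3⟩
      · exact ⟨_, _, rfl, rfl, a3⟩

def code {t : ℕ} : Qs t → ℕ
  | .idle => 0
  | .ret => 1
  | .mat => 2
  | .acc => 3
  | .chk l b => 4 + 3 * l + (if b then 1 else 0)
  | .fnd r => 4 + 3 * r + 2

theorem code_lt {t : ℕ} (q : Qs t) : code q < 4 + 3 * t := by
  cases q with
  | chk l b => have := l.2; simp only [code]; split_ifs <;> omega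
  | fnd r => have := r.2; simp only [code]; omega
  | _ => simp only [code]; omega

theorem code_inj {t : ℕ} : Function.Injective (code (t := t)) := by
  intro a b h
  cases a <;> cases b <;> simp only [code] at h <;> try rfl
  all_goals try (split_ifs at h <;> omega)
  all_goals try omega
  · rename_i l b l' b'
    cases b <;> cases b' <;> simp at h <;> first | omega | (congr 1; ext; omega)
  · congr 1; ext; omega

def ofF {m k : ℕ} (eL eR : Fin m → Finset (Fin m × Bool))
    (eU eM : Fin m → Fin k → Finset (Fin m × Bool)) : Aut (Fin m) (Fin k) :=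
  ⟨fun p y => y ∈ eL p, fun p y => y ∈ eR p, fun p a y => y ∈ eU p a, fun p a y => y ∈ eM p a⟩

theorem step_ofF {m k : ℕ} (eL eR : Fin m → Finset (Fin m × Bool))
    (eU eM : Fin m → Fin k → Finset (Fin m × Bool)) (w : List (Fin k)) :
    (fun x y : Fin m × ℕ × ℕ =>
      (x.2.1 = 0 ∧ (y.1, true) ∈ eL x.1 ∧ y.2.1 = 1 ∧ y.2.2 = x.2.2) ∨
      (x.2.1 = w.length + 1 ∧ (y.1, false) ∈ eR x.1 ∧
        y.2.1 = w.length ∧ y.2.2 = x.2.2) ∨
      (∃ a : Fin k, 1 ≤ x.2.1 ∧ w[x.2.1 - 1]? = some a ∧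
        ∃ b : Bool,
          (y.1, b) ∈ (if x.2.1 ≤ x.2.2 then eM x.1 a else eU x.1 a) ∧
          y.2.1 = (if b then x.2.1 + 1 else x.2.1 - 1) ∧
          y.2.2 = max x.2.2 x.2.1)) = Step (ofF eL eR eU eM) w := by
  funext x y
  simp only [Step, ofF]
  by_cases h : x.2.1 ≤ x.2.2 <;> simp only [h, if_true, if_false]

theorem exists_hard (n : ℕ) (hn : 4 ≤ n) : ∃ k : ℕ,
    ∃ δL δR : Fin n → Finset (Fin n × Bool), ∃ δU δM : Fin n → Fin k → Finset (Fin n × Bool),
    ∃ qI : Fin n, ∃ F : Finset (Fin n), ∀ m : ℕ, ∀ D : Aut (Fin m) (Fin k), Det D →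
      ∀ pI : Fin m, ∀ G : Fin m → Prop,
      (∀ w, Fin' (ofF δL δR δU δM) (· ∈ F) w (qI, 1, 0) ↔ Fin' D G w (pI, 1, 0)) →
      2 ^ ((n - 4) / 3) ≤ 4 * m ^ 2 := by
  set t := (n - 4) / 3 with ht
  let e : Qs t → Fin n := fun q => ⟨code q, by have := code_lt q; omega⟩
  have he : Function.Injective e := fun a b h => code_inj (congrArg Fin.val h)
  let g := Fintype.equivFin (Lt t)
  let M := ((MM t).push e).comap g.symm
  refine ⟨_, fun p => Finset.univ.filter (M.L p), fun p => Finset.univ.filter (M.R p),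
    fun p a => Finset.univ.filter (M.U p a), fun p a => Finset.univ.filter (M.M p a),
    e .idle, {e .acc}, fun m D hD pI G h => ?_⟩
  have e1 : ofF (fun p => Finset.univ.filter (M.L p)) (fun p => Finset.univ.filter (M.R p))
      (fun p a => Finset.univ.filter (M.U p a)) (fun p a => Finset.univ.filter (M.M p a)) = M := by
    simp only [ofF, Finset.mem_filter, Finset.mem_univ, true_and]
  rw [e1] at h
  simp only [Finset.mem_singleton] at h
  have := lower t (D.comap g) ⟨hD.L, hD.R, fun q a => hD.U q _, fun q a => hD.M q _⟩ G pI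
    (fun w => by
      rw [fin_comap, ← h, fin_comap, fin_push _ _ he, List.map_map]
      simp)
  simpa using this

theorem final (n m : ℕ) (hn : 24 ≤ n) (h : 2 ^ ((n - 4) / 3) ≤ 4 * m ^ 2) :
    (2 : ℝ) ^ ((1 / 12 : ℝ) * (n : ℝ)) ≤ (m : ℝ) := by
  obtain ⟨s, hs⟩ : ∃ s, (n - 4) / 3 = s + 2 := ⟨(n - 4) / 3 - 2, by omega⟩
  rw [hs, pow_add] at h
  have h1 : 2 ^ s ≤ m ^ 2 := by omega
  have h2 : n ≤ 6 * s := by omega
  have h3 : ((2 : ℝ) ^ ((1 / 12 : ℝ) * (n : ℝ))) ^ 2 ≤ (m : ℝ) ^ 2 := by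
    rw [← Real.rpow_natCast, ← Real.rpow_mul (by norm_num)]
    calc (2 : ℝ) ^ ((1 / 12 : ℝ) * (n : ℝ) * ((2 : ℕ) : ℝ)) ≤ (2 : ℝ) ^ ((s : ℕ) : ℝ) := by
          apply Real.rpow_le_rpow_of_exponent_le (by norm_num)
          have : (n : ℝ) ≤ 6 * s := by exact_mod_cast h2
          push_cast
          linarith
      _ = ((2 ^ s : ℕ) : ℝ) := by rw [Real.rpow_natCast]; norm_num
      _ ≤ _ := by exact_mod_cast h1
  exact le_of_sq_le_sq h3 (by positivity)

end Pool.Agent.H16.AMD
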