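import Mathlib

set_option autoImplicit false

namespace Pool.Agent.H16.AperyPow

open Finset

def T (m k : ℕ) : ℕ := 1433374042128770176128225118598616307853776856015157504137187455088934290747494854086502911077132301839656352869815009592304157137794636750359859273000118419001557494723878360748175369231291479201801432485537584610359652954499967210321758812873212093872746493977888466032026595314197445788598732265726935133332671363358762240177447301464558130379944889502091304950632518519956531099503456007615968353911299835514480004322260584546381850007959889365184655907582852239084929749535153286429184053822773578566615219856880431440350022013156110454156894173481798768045051972399026441888618773610203430034322146249672566023918363649850336079334564797525369027799581047448932779294440429560278166417762359807053599359345784903454538743749208907066604491226487773163543603632926829393979883222819925372012321283590643070520897495409358958110370884497790402149834655737273767841800179667607206832147522565981922484709353864284595558383418460293487171799561813580624165255680831921324033 / 1024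 ^ (18 * m + k) % 1024

def L (i m : ℕ) : ℕ := 310660949717072098302092430351247921238876234588540847381235362159289692071519384119832804669693316138087169794535091011595928326139716617531185284718487705485906 / 1024 ^ (18 * i + m) % 1024

def F (i r : ℕ) : ℕ := ∑ m ∈ range 18, L i m * ∑ k ∈ range 18, T m k ^ r

theorem hT : ∀ m < 18, ∀ k < 18, m.choose k * (m + k).choose k % 729 = T m k := by
  simp only [Nat.choose_eq_descFactorial_div_factorial]
  decide +kernel

theorem hL : ∀ i < 3, ∀ k < 18, (∑ m ∈ range 18, L i m * T m k ^ 2) % 729 = 0 := by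
  decide +kernel

theorem hP : ∀ x < 1024, x ^ 492 % 729 = x ^ 6 % 729 := by decide +kernel

theorem hF : ∀ r < 492, 3 ≤ r → ∃ i < 3, F i r % 729 ≠ 0 := by decide +kernel

theorem per (i r : ℕ) (hr : 6 ≤ r) : F i (r + 486) ≡ F i r [MOD 729] := by
  obtain ⟨t, rfl⟩ : ∃ t, r = 6 + t := ⟨r - 6, by omega⟩
  unfold F
  refine Nat.ModEq.sum fun m _ => Nat.ModEq.mul_left _ (Nat.ModEq.sum fun k _ => ?_)
  rw [show 6 + t + 486 = 492 + t by ring, pow_add, pow_add]
  exact Nat.ModEq.mul_right _ (hP _ (Nat.mod_lt _ (by norm_num)))

theorem hF' (r : ℕ) (hr : 3 ≤ r) : ∃ i < 3, F i r % 729 ≠ 0 := by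
  induction r using Nat.strong_induction_on with
  | _ r ih =>
    by_cases h : r < 492
    · exact hF r h hr
    · obtain ⟨i, hi, h2⟩ := ih (r - 486) (by omega) (by omega)
      refine ⟨i, hi, ?_⟩
      have := per i (r - 486) (by omega)
      rw [show r - 486 + 486 = r by omega] at this
      rwa [this]

theorem main (r : ℕ) (hr : 3 ≤ r) (z : ℕ → ℤ)
    (h : ∀ m < 18, (∑ k ∈ range (m + 1), ((m.choose k : ℤ) ^ r * ((m + k).choose k : ℤ) ^ r)) =
      ∑ k ∈ range (m + 1), ((m.choose k : ℤ) ^ 2 * ((m + k).choose k : ℤ) ^ 2 * z k)) : False := by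
  obtain ⟨i, hi, h2⟩ := hF' r hr
  apply h2
  have ext : ∀ m < 18, ∀ (e : ℕ) (w : ℕ → ZMod 729), 0 < e →
      ∑ k ∈ range (m + 1), ((m.choose k : ZMod 729) ^ e * ((m + k).choose k : ZMod 729) ^ e * w k) =
        ∑ k ∈ range 18, (T m k : ZMod 729) ^ e * w k := by
    intro m hm e w he
    rw [sum_subset (s₂ := range 18) (by intro k hk; simp at hk ⊢; omega)]
    · refine sum_congr rfl fun k hk => ?_
      rw [← hT m hm k (mem_range.mp hk), ZMod.natCast_mod]
      push_cast; rw [mul_pow]
    · intro k _ hk
      rw [Nat.choose_eq_zero_of_lt (by simp at hk; omega)]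
      simp [he.ne']
  have h3 : ∀ m < 18, ∑ k ∈ range 18, (T m k : ZMod 729) ^ r =
      ∑ k ∈ range 18, (T m k : ZMod 729) ^ 2 * (z k : ZMod 729) := by
    intro m hm
    have := congrArg (Int.cast : ℤ → ZMod 729) (h m hm)
    push_cast at this
    rw [← ext m hm 2 _ (by norm_num), ← this]
    have e := ext m hm r (fun _ => 1) (by omega)
    simp only [mul_one] at e
    exact e.symm
  have h4 : ((F i r : ℕ) : ZMod 729) = 0 := by
    unfold F
    push_cast
    rw [sum_congr rfl fun m hm => by rw [h3 m (mem_range.mp hm), mul_sum], sum_comm]
    refine sum_eq_zero fun k hk => ?_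
    have := (ZMod.natCast_eq_zero_iff _ 729).mpr (Nat.dvd_of_mod_eq_zero (hL i hi k (mem_range.mp hk)))
    push_cast at this
    simp only [← mul_assoc]
    rw [← sum_mul, this, zero_mul]
  exact Nat.mod_eq_zero_of_dvd ((ZMod.natCast_eq_zero_iff _ 729).mp h4)

end Pool.Agent.H16.AperyPow
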