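import Mathlib

set_option autoImplicit false

namespace Pool.Agent.H16.AutFO
open Classical

variable {α : Type}

abbrev St (α : Type) := ℕ → Option α

def cons {ι : Type} (c : ι → Option α) (s : ι → St α) : ι → St α :=
  fun i k => match k with
    | 0 => c i
    | k + 1 => s i k

@[simp] theorem cons_zero {ι : Type} (c : ι → Option α) (s : ι → St α) (i : ι) :
    cons c s i 0 = c i := rfl
@[simp] theorem cons_succ {ι : Type} (c : ι → Option α) (s : ι → St α) (i : ι) (k : ℕ) :
    cons c s i (k + 1) = s i k := rfl

theorem eq_cons {ι : Type} (t : ι → St α) :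
    t = cons (fun i => t i 0) (fun i k => t i (k + 1)) := by
  funext i k; cases k <;> rfl

def FS {ι : Type} (P : (ι → St α) → Prop) : Prop :=
  ∃ (Q : Type) (_ : Finite Q) (δ : Q → (ι → Option α) → Q) (sem : Q → (ι → St α) → Prop) (q0 : Q),
    (∀ s, P s ↔ sem q0 s) ∧ ∀ q c s, sem q (cons c s) ↔ sem (δ q c) s

theorem FS.of_set {ι : Type} {P : (ι → St α) → Prop} (S : Set ((ι → St α) → Prop))
    (hS : S.Finite) (hP : P ∈ S) (hc : ∀ R ∈ S, ∀ c, (fun s => R (cons c s)) ∈ S) : FS P := by
  refine ⟨S, hS.to_subtype, fun R c => ⟨fun s => R.1 (cons c s), hc R.1 R.2 c⟩, fun R => R.1,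
    ⟨P, hP⟩, fun s => Iff.rfl, fun q c s => Iff.rfl⟩

theorem FS.congr {ι : Type} {P R : (ι → St α) → Prop} (h : FS P) (e : ∀ s, R s ↔ P s) : FS R := by
  have : R = P := funext fun s => propext (e s)
  rw [this]; exact h

theorem FS.const {ι : Type} (p : Prop) : FS (fun _ : ι → St α => p) :=
  ⟨Unit, inferInstance, fun _ _ => (), fun _ _ => p, (), fun _ => Iff.rfl, fun _ _ _ => Iff.rfl⟩

theorem FS.not {ι : Type} {P : (ι → St α) → Prop} (h : FS P) : FS (fun s => ¬ P s) := by
  obtain ⟨Q, hQ, δ, sem, q0, h0, h1⟩ := h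
  exact ⟨Q, hQ, δ, fun q s => ¬ sem q s, q0, fun s => not_congr (h0 s),
    fun q c s => not_congr (h1 q c s)⟩

theorem FS.and {ι : Type} {P R : (ι → St α) → Prop} (h : FS P) (h' : FS R) :
    FS (fun s => P s ∧ R s) := by
  obtain ⟨Q, hQ, δ, sem, q0, h0, h1⟩ := h
  obtain ⟨Q', hQ', δ', sem', q0', h0', h1'⟩ := h'
  exact ⟨Q × Q', inferInstance, fun q c => (δ q.1 c, δ' q.2 c), fun q s => sem q.1 s ∧ sem' q.2 s,
    (q0, q0'), fun s => and_congr (h0 s) (h0' s), fun q c s => and_congr (h1 _ c s) (h1' _ c s)⟩

theorem FS.ren {ι κ : Type} {P : (κ → St α) → Prop} (h : FS P) (f : κ → ι) :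
    FS (fun s : ι → St α => P (fun j => s (f j))) := by
  obtain ⟨Q, hQ, δ, sem, q0, h0, h1⟩ := h
  exact ⟨Q, hQ, fun q c => δ q (fun j => c (f j)), fun q s => sem q (fun j => s (f j)), q0,
    fun s => h0 _, fun q c s => h1 q (fun j => c (f j)) (fun j => s (f j))⟩

theorem elim_cons {ι κ : Type} (c : ι → Option α) (a : κ → Option α) (s : ι → St α)
    (t : κ → St α) : Sum.elim (cons c s) (cons a t) = cons (Sum.elim c a) (Sum.elim s t) := by
  funext i k; cases i <;> cases k <;> rfl

theorem FS.ex {ι κ : Type} {P : (ι ⊕ κ → St α) → Prop} (h : FS P) :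
    FS (fun s : ι → St α => ∃ t : κ → St α, P (Sum.elim s t)) := by
  obtain ⟨Q, hQ, δ, sem, q0, h0, h1⟩ := h
  refine ⟨Set Q, inferInstance, fun S c => {q' | ∃ q ∈ S, ∃ a : κ → Option α, q' = δ q (Sum.elim c a)},
    fun S s => ∃ q ∈ S, ∃ t : κ → St α, sem q (Sum.elim s t), {q0}, fun s => ?_, fun S c s => ?_⟩
  · simp [h0]
  · constructor
    · rintro ⟨q, hq, t, ht⟩
      rw [eq_cons t, elim_cons, h1] at ht
      exact ⟨_, ⟨q, hq, _, rfl⟩, _, ht⟩
    · rintro ⟨_, ⟨q, hq, a, rfl⟩, t, ht⟩
      rw [← h1, ← elim_cons] at ht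
      exact ⟨q, hq, _, ht⟩

theorem FS.all_fin {ι T : Type} [Finite T] {P : T → (ι → St α) → Prop} (h : ∀ τ, FS (P τ)) :
    FS (fun s => ∀ τ, P τ s) := by
  have := Fintype.ofFinite T
  have key : ∀ S : Finset T, FS (fun s => ∀ τ ∈ S, P τ s) := by
    intro S
    induction S using Finset.induction_on with
    | empty => exact (FS.const True).congr (by simp)
    | insert a S _ ih => exact ((h a).and ih).congr (by simp)
  exact (key Finset.univ).congr (by simp)

def enc (w : List α) : St α := fun k => w[k]?

theorem enc_inj {w v : List α} (h : enc w = enc v) : w = v :=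
  List.ext_getElem? fun k => congrFun h k

theorem FS.eq {ι : Type} (i j : ι) : FS (fun s : ι → St α => s i = s j) := by
  refine FS.of_set {fun s => s i = s j, fun _ => False} (by simp) (by simp) ?_
  intro R hR c
  simp only [Set.mem_insert_iff, Set.mem_singleton_iff] at hR ⊢
  rcases hR with rfl | rfl
  · by_cases h : c i = c j
    · left; funext s; apply propext; constructor
      · intro e; funext k; exact congrFun e (k + 1)
      · intro e; funext k; cases k with
        | zero => exact h
        | succ k => exact congrFun e k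
    · right; funext s; apply propext; constructor
      · intro e; exact h (congrFun e 0)
      · exact False.elim
  · right; rfl

theorem cons_eq_enc {ι : Type} (c : ι → Option α) (s : ι → St α) (i : ι) (w : List α) :
    cons c s i = enc w ↔ c i = w.head? ∧ s i = enc w.tail := by
  constructor
  · intro e
    refine ⟨?_, ?_⟩
    · have := congrFun e 0
      cases w <;> simpa [enc] using this
    · funext k
      have := congrFun e (k + 1)
      cases w <;> simpa [enc] using this
  · rintro ⟨h1, h2⟩
    funext k
    cases k with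
    | zero => cases w <;> simpa [enc] using h1
    | succ k =>
      have := congrFun h2 k
      cases w <;> simpa [enc] using this

theorem FS.lit {ι : Type} (i : ι) (w : List α) : FS (fun s : ι → St α => s i = enc w) := by
  refine FS.of_set (insert (fun _ => False)
    ((fun v : List α => fun s : ι → St α => s i = enc v) '' {v | v ∈ w.tails})) ?_ ?_ ?_
  · exact ((List.finite_toSet _).image _).insert _
  · exact Or.inr ⟨w, by simp, rfl⟩
  · rintro R (rfl | ⟨v, hv, rfl⟩) c
    · exact Or.inl rfl
    · by_cases h : c i = v.head?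
      · refine Or.inr ⟨v.tail, ?_, ?_⟩
        · simp only [Set.mem_ofPred_eq, List.mem_tails] at hv ⊢
          exact (List.tail_suffix v).trans hv
        · funext s; simp [cons_eq_enc, h]
      · left; funext s; simp [cons_eq_enc, h]

theorem FS.wf {ι : Type} (i : ι) : FS (fun s : ι → St α => ∃ w, s i = enc w) := by
  refine FS.of_set {fun s => ∃ w, s i = enc w, fun s => s i = enc [], fun _ => False}
    (by simp) (by simp) ?_
  intro R hR c
  simp only [Set.mem_insert_iff, Set.mem_singleton_iff] at hR ⊢
  rcases hR with rfl | rfl | rfl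
  · cases h : c i with
    | none =>
      right; left; funext s; apply propext; constructor
      · rintro ⟨w, e⟩
        rw [cons_eq_enc, h] at e
        cases w with
        | nil => exact e.2
        | cons a w => simp at e
      · intro e; exact ⟨[], (cons_eq_enc _ _ _ _).2 ⟨h, e⟩⟩
    | some a =>
      left; funext s; apply propext; constructor
      · rintro ⟨w, e⟩
        rw [cons_eq_enc] at e
        exact ⟨_, e.2⟩
      · rintro ⟨w, e⟩; exact ⟨a :: w, (cons_eq_enc _ _ _ _).2 ⟨h, e⟩⟩
  · cases h : c i with
    | none => right; left; funext s; simp [cons_eq_enc, h]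
    | some a => right; right; funext s; simp [cons_eq_enc, h]
  · right; right; rfl

def run {Q : Type} {n : ℕ} (step : Q → (Fin n → Option α) → Q) (start : Q)
    (w : Fin n → List α) : Q :=
  List.foldl step start
    ((List.range (Finset.univ.sup fun j => (w j).length)).map fun i j => (w j)[i]?)

theorem FS.aut {Q : Type} [Finite Q] {n : ℕ} (step : Q → (Fin n → Option α) → Q) (start : Q)
    (φ : Q → Prop) : ∃ P : (Fin n → St α) → Prop, FS P ∧
      ∀ w, φ (run step start w) ↔ P (fun j => enc (w j)) := by
  let sem : Q × Prop → (Fin n → St α) → Prop := fun q s =>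
    ((∀ i k, s i k = none) ∧ q.2) ∨ ∃ m, (∃ i, s i m ≠ none) ∧ (∀ i k, m < k → s i k = none) ∧
      φ (List.foldl step q.1 ((List.range (m + 1)).map fun k i => s i k))
  refine ⟨sem (start, φ start), ⟨Q × Prop, inferInstance,
    fun q c => (step q.1 c, if ∀ i, c i = none then q.2 else φ (step q.1 c)), sem, _,
    fun _ => Iff.rfl, ?_⟩, ?_⟩
  · rintro ⟨q, b⟩ c s
    have hr : ∀ m, ((List.range (m + 1)).map fun k i => cons c s i k) =
        c :: (List.range m).map fun k i => s i k := by
      intro m
      rw [List.range_succ_eq_map]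
      simp [Function.comp_def]
    simp only [sem, hr, List.foldl_cons]
    constructor
    · rintro (⟨h1, h2⟩ | ⟨m, ⟨i, hi⟩, h2, h3⟩)
      · left
        refine ⟨fun i k => h1 i (k + 1), ?_⟩
        rw [if_pos (show ∀ i, c i = none from fun i => h1 i 0)]; exact h2
      · cases m with
        | zero =>
          left
          refine ⟨fun i k => h2 i (k + 1) (by omega), ?_⟩
          rw [if_neg (fun h => hi (h i))]
          simpa using h3
        | succ m =>
          right
          exact ⟨m, ⟨i, hi⟩, fun i k hk => h2 i (k + 1) (by omega), h3⟩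
    · rintro (⟨h1, h2⟩ | ⟨m, ⟨i, hi⟩, h2, h3⟩)
      · by_cases hc : ∀ i, c i = none
        · left
          rw [if_pos hc] at h2
          refine ⟨fun i k => ?_, h2⟩
          cases k with
          | zero => exact hc i
          | succ k => exact h1 i k
        · right
          rw [if_neg hc] at h2
          push Not at hc
          refine ⟨0, hc, fun i k hk => ?_, by simpa using h2⟩
          cases k with
          | zero => omega
          | succ k => exact h1 i k
      · right
        refine ⟨m + 1, ⟨i, hi⟩, fun i k hk => ?_, h3⟩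
        cases k with
        | zero => omega
        | succ k => exact h2 i k (by omega)
  · intro w
    have hle : ∀ j, (w j).length ≤ Finset.univ.sup fun j => (w j).length :=
      fun j => Finset.le_sup (f := fun j => (w j).length) (Finset.mem_univ j)
    simp only [sem, run, enc]
    generalize hL : (Finset.univ.sup fun j => (w j).length) = L at hle ⊢
    constructor
    · intro h
      cases L with
      | zero =>
        left
        refine ⟨fun i k => ?_, by simpa using h⟩
        have := hle i
        exact List.getElem?_eq_none (by omega)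
      | succ L =>
        right
        refine ⟨L, ?_, fun i k hk => ?_, h⟩
        · by_contra hc
          push Not at hc
          have : (Finset.univ.sup fun j => (w j).length) ≤ L :=
            Finset.sup_le fun j _ => List.getElem?_eq_none_iff.1 (hc j)
          omega
        · have := hle i
          exact List.getElem?_eq_none (by omega)
    · rintro (⟨h1, h2⟩ | ⟨m, ⟨i, hi⟩, h2, h3⟩)
      · have : (Finset.univ.sup fun j => (w j).length) ≤ 0 :=
          Finset.sup_le fun j _ => List.getElem?_eq_none_iff.1 (h1 j 0)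
        have : L = 0 := by omega
        subst this
        simpa using h2
      · have h4 : (Finset.univ.sup fun j => (w j).length) ≤ m + 1 :=
          Finset.sup_le fun j _ => List.getElem?_eq_none_iff.1 (h2 j (m + 1) (by omega))
        have h5 : ¬ (w i).length ≤ m := fun h => hi (List.getElem?_eq_none h)
        have := hle i
        have : L = m + 1 := by omega
        subst this
        exact h3

def Df {ι : Type} (P : (ι → List α) → Prop) : Prop :=
  ∃ P' : (ι → St α) → Prop, FS P' ∧ ∀ w, P w ↔ P' (fun i => enc (w i))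

theorem Df.congr {ι : Type} {P R : (ι → List α) → Prop} (h : Df P) (e : ∀ s, R s ↔ P s) :
    Df R := by
  have : R = P := funext fun s => propext (e s)
  rw [this]; exact h

theorem Df.const {ι : Type} (p : Prop) : Df (fun _ : ι → List α => p) :=
  ⟨_, FS.const p, fun _ => Iff.rfl⟩

theorem Df.not {ι : Type} {P : (ι → List α) → Prop} (h : Df P) : Df (fun s => ¬ P s) := by
  obtain ⟨P', h1, h2⟩ := h
  exact ⟨_, h1.not, fun w => not_congr (h2 w)⟩

theorem Df.and {ι : Type} {P R : (ι → List α) → Prop} (h : Df P) (h' : Df R) :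
    Df (fun s => P s ∧ R s) := by
  obtain ⟨P', h1, h2⟩ := h
  obtain ⟨R', h1', h2'⟩ := h'
  exact ⟨_, h1.and h1', fun w => and_congr (h2 w) (h2' w)⟩

theorem Df.imp {ι : Type} {P R : (ι → List α) → Prop} (h : Df P) (h' : Df R) :
    Df (fun s => P s → R s) :=
  (h.and h'.not).not.congr (fun s => by tauto)

theorem Df.ren {ι κ : Type} {P : (κ → List α) → Prop} (h : Df P) (f : κ → ι) :
    Df (fun s : ι → List α => P (fun j => s (f j))) := by
  obtain ⟨P', h1, h2⟩ := h
  exact ⟨_, h1.ren f, fun w => h2 _⟩

theorem Df.all_fin {ι T : Type} [Finite T] {P : T → (ι → List α) → Prop} (h : ∀ τ, Df (P τ)) :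
    Df (fun s => ∀ τ, P τ s) := by
  choose P' h1 h2 using h
  exact ⟨_, FS.all_fin h1, fun w => forall_congr' fun τ => h2 τ w⟩

theorem Df.ex_fin {ι T : Type} [Finite T] {P : T → (ι → List α) → Prop} (h : ∀ τ, Df (P τ)) :
    Df (fun s => ∃ τ, P τ s) :=
  (Df.all_fin fun τ => (h τ).not).not.congr (fun s => by simp)

theorem Df.ex {ι κ : Type} [Finite κ] {P : (ι ⊕ κ → List α) → Prop} (h : Df P) :
    Df (fun s : ι → List α => ∃ t : κ → List α, P (Sum.elim s t)) := by
  obtain ⟨P', h1, h2⟩ := h
  have he : ∀ (w : ι → List α) (t : κ → List α), (fun i => enc (Sum.elim w t i)) =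
      Sum.elim (fun i => enc (w i)) (fun j => enc (t j)) := by
    intro w t; funext i; cases i <;> rfl
  refine ⟨_, ((FS.all_fin fun j : κ => FS.wf (Sum.inr j)).and h1).ex, fun w => ?_⟩
  constructor
  · rintro ⟨t, ht⟩
    rw [h2, he] at ht
    exact ⟨_, fun j => ⟨t j, rfl⟩, ht⟩
  · rintro ⟨t, h3, h4⟩
    choose v hv using h3
    refine ⟨v, ?_⟩
    rw [h2, he]
    have : t = fun j => enc (v j) := funext hv
    rw [← this]; exact h4

theorem Df.all {ι κ : Type} [Finite κ] {P : (ι ⊕ κ → List α) → Prop} (h : Df P) :
    Df (fun s : ι → List α => ∀ t : κ → List α, P (Sum.elim s t)) :=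
  h.not.ex.not.congr (fun s => by simp)

theorem Df.eq {ι : Type} (i j : ι) : Df (fun s : ι → List α => s i = s j) :=
  ⟨_, FS.eq i j, fun _ => ⟨fun h => by simp only [h], enc_inj⟩⟩

theorem Df.lit {ι : Type} (i : ι) (w : List α) : Df (fun s : ι → List α => s i = w) :=
  ⟨_, FS.lit i w, fun _ => ⟨fun h => by simp only [h], enc_inj⟩⟩

theorem Df.aut {Q : Type} [Finite Q] {n : ℕ} (step : Q → (Fin n → Option α) → Q) (start : Q)
    (φ : Q → Prop) : Df (fun w => φ (run step start w)) :=
  FS.aut step start φ

theorem Df.dfa {A : Language α} (h : Df (fun s : Unit → List α => s () ∈ A)) :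
    ∃ (k : ℕ) (M : DFA α (Fin k)), M.accepts = A := by
  obtain ⟨P', ⟨Q, hQ, δ, sem, q0, h0, h1⟩, h2⟩ := h
  obtain ⟨k, ⟨e⟩⟩ := Finite.exists_equiv_fin Q
  refine ⟨k, ⟨fun q a => e (δ (e.symm q) fun _ => some a), e q0,
    {q | sem (e.symm q) fun _ => enc []}⟩, ?_⟩
  have key : ∀ (w : List α) (q : Fin k), sem (e.symm q) (fun _ => enc w) ↔
      sem (e.symm (List.foldl (fun q a => e (δ (e.symm q) fun _ => some a)) q w))
        (fun _ => enc []) := by
    intro w
    induction w with
    | nil => intro q; rfl
    | cons a w ih =>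
      intro q
      rw [List.foldl_cons, ← ih, Equiv.symm_apply_apply, ← h1]
      have : (fun _ : Unit => enc (a :: w)) = cons (fun _ => some a) (fun _ => enc w) := by
        funext i k; cases k <;> simp [enc]
      rw [this]
  ext w
  have := key w (e q0)
  rw [Equiv.symm_apply_apply, ← h0, ← h2 (fun _ => w)] at this
  exact this.symm

end Pool.Agent.H16.AutFO
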