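import Mathlib

namespace H16.AvgRare

open Finset

theorem main (V : Type) [Fintype V] [DecidableEq V] (C : Finset (Finset V))
    (R : Set (Finset V × V)) (hroot : ∀ p ∈ R, p.2 ∉ p.1)
    (hone : ∀ p ∈ R, ∀ q ∈ R, p.2 = q.2 → p = q)
    (hC : ∀ F, F ∈ C ↔ ∀ p ∈ R, p.1 ⊆ F → p.2 ∈ F) (h0 : ∅ ∈ C) :
    2 * ∑ F ∈ C, F.card ≤ C.card * Fintype.card V := by
  classical
  -- stems are nonempty
  have hne : ∀ p ∈ R, p.1.Nonempty := by
    intro p hp
    rw [Finset.nonempty_iff_ne_empty]
    intro h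
    have := (hC ∅).1 h0 p hp (by rw [h])
    simp at this
  -- a choice in the stem of each root
  have hch : ∀ x : V, ∃ y : V, ∀ p ∈ R, p.2 = x → y ∈ p.1 := by
    intro x
    by_cases h : ∃ p ∈ R, p.2 = x
    · obtain ⟨p, hp, hx⟩ := h
      obtain ⟨y, hy⟩ := hne p hp
      refine ⟨y, fun q hq hqx => ?_⟩
      have := hone q hq p hp (by rw [hqx, hx])
      rw [this]; exact hy
    · exact ⟨x, fun p hp hx => absurd ⟨p, hp, hx⟩ h⟩
  choose f hf using hch
  set W : Finset (Finset V × V) :=
    univ.filter (fun s => s.2 ∉ s.1 ∧ ∀ p ∈ R, p.2 ≠ s.2 → p.1 ⊆ s.1 → p.2 ∈ s.1) with hW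
  set Bad : Finset (Finset V × V) := W.filter (fun s => s.1 ∉ C) with hBad
  set Good : Finset (Finset V × V) := W.filter (fun s => s.1 ∈ C) with hGood
  set Src : Finset (Finset V × V) := W.filter (fun s => insert s.2 s.1 ∈ C) with hSrc
  set Rest : Finset (Finset V × V) := W.filter (fun s => insert s.2 s.1 ∉ C) with hRest
  have e1 : Good.card + Bad.card = W.card := Finset.card_filter_add_card_filter_not _
  have e2 : Src.card + Rest.card = W.card := Finset.card_filter_add_card_filter_not _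
  -- the violated rule of a bad state
  have hbad : ∀ s ∈ Bad, ∃ p ∈ R, p.2 = s.2 ∧ p.1 ⊆ s.1 := by
    intro s hs
    rw [hBad, mem_filter, hW, mem_filter] at hs
    obtain ⟨⟨-, h1, h2⟩, h3⟩ := hs
    rw [hC] at h3
    push Not at h3
    obtain ⟨p, hp, hps, hpn⟩ := h3
    refine ⟨p, hp, ?_, hps⟩
    by_contra hx
    exact hpn (h2 p hp hx hps)
  have e3 : Bad.card ≤ Rest.card := by
    apply Finset.card_le_card_of_injOn (fun s => (s.1.erase (f s.2), f s.2))
    · intro s hs
      have hs' : s ∈ Bad := hs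
      obtain ⟨p, hp, hp2, hps⟩ := hbad s hs'
      have hfm : f s.2 ∈ s.1 := hps (hf s.2 p hp hp2)
      rw [hBad, mem_filter, hW, mem_filter] at hs'
      obtain ⟨⟨-, h1, h2⟩, h3⟩ := hs'
      show (s.1.erase (f s.2), f s.2) ∈ Rest
      rw [hRest, mem_filter, hW, mem_filter]
      refine ⟨⟨mem_univ _, by simp, ?_⟩, ?_⟩
      · intro q hq hq2 hqs
        simp only at hq2 hqs ⊢
        by_cases hx : q.2 = s.2
        · have := hqs (hf s.2 q hq hx)
          simp at this
        · exact mem_erase.2 ⟨hq2, h2 q hq hx (hqs.trans (erase_subset _ _))⟩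
      · simp only
        rw [insert_erase hfm]; exact h3
    · intro s hs t ht hst
      have hs' : s ∈ Bad := hs
      have ht' : t ∈ Bad := ht
      obtain ⟨p, hp, hp2, hps⟩ := hbad s hs'
      obtain ⟨q, hq, hq2, hqs⟩ := hbad t ht'
      have hfs : f s.2 ∈ s.1 := hps (hf s.2 p hp hp2)
      have hft : f t.2 ∈ t.1 := hqs (hf t.2 q hq hq2)
      simp only [Prod.mk.injEq] at hst
      obtain ⟨h1, h2⟩ := hst
      have h3 : s.1 = t.1 := by
        rw [← insert_erase hfs, ← insert_erase hft, h1, h2]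
      rw [hBad, mem_filter, hW, mem_filter] at hs' ht'
      have h4 : s.2 = t.2 := by
        by_contra hx
        have := ht'.1.2.2 p hp (by rw [hp2]; exact hx) (by rw [← h3]; exact hps)
        rw [hp2, ← h3] at this
        exact hs'.1.2.1 this
      exact Prod.ext h3 h4
  -- counting sources
  have e4 : ∑ F ∈ C, F.card ≤ Src.card := by
    rw [← Finset.card_sigma]
    apply Finset.card_le_card_of_injOn (fun s => (s.1.erase s.2, s.2))
    · intro s hs
      have hs' : s ∈ C.sigma (fun F => F) := hs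
      rw [mem_sigma] at hs'
      show (s.1.erase s.2, s.2) ∈ Src
      rw [hSrc, mem_filter, hW, mem_filter]
      refine ⟨⟨mem_univ _, by simp, ?_⟩, ?_⟩
      · intro q hq hq2 hqs
        simp only at hq2 hqs ⊢
        exact mem_erase.2 ⟨hq2, (hC _).1 hs'.1 q hq (hqs.trans (erase_subset _ _))⟩
      · simp only
        rw [insert_erase hs'.2]; exact hs'.1
    · intro s hs t ht hst
      have hs' : s ∈ C.sigma (fun F => F) := hs
      have ht' : t ∈ C.sigma (fun F => F) := ht
      rw [mem_sigma] at hs' ht'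
      simp only [Prod.mk.injEq] at hst
      obtain ⟨h1, h2⟩ := hst
      have h3 : s.1 = t.1 := by
        rw [← insert_erase hs'.2, ← insert_erase ht'.2, h1, h2]
      obtain ⟨a, b⟩ := s
      obtain ⟨c, d⟩ := t
      simp only at h2 h3
      subst h2 h3
      rfl
  have e5 : Good.card ≤ ∑ F ∈ C, Fᶜ.card := by
    rw [← Finset.card_sigma]
    apply Finset.card_le_card_of_injOn (fun s => (⟨s.1, s.2⟩ : Σ _ : Finset V, V))
    · intro s hs
      have hs' : s ∈ Good := hs
      rw [hGood, mem_filter, hW, mem_filter] at hs'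
      show (⟨s.1, s.2⟩ : Σ _ : Finset V, V) ∈ C.sigma (fun F => Fᶜ)
      rw [mem_sigma]
      exact ⟨hs'.2, mem_compl.2 hs'.1.2.1⟩
    · intro s _ t _ hst
      simp only [Sigma.mk.injEq, heq_eq_eq] at hst
      exact Prod.ext hst.1 hst.2
  have e6 : ∑ F ∈ C, F.card + ∑ F ∈ C, Fᶜ.card = C.card * Fintype.card V := by
    rw [← Finset.sum_add_distrib]
    rw [Finset.sum_congr rfl (fun F _ => Finset.card_add_card_compl F)]
    simp
  omega

end H16.AvgRare
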