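import Mathlib

set_option autoImplicit false

namespace Pool.Agent.H16.BTen

/-- Real tensors of order `k + 1` and dimension `n`. -/
abbrev Tensor (k n : ℕ) := (Fin (k + 1) → Fin n) → ℝ

variable {k n : ℕ}

def Symm (A : Tensor k n) : Prop := ∀ (σ : Equiv.Perm (Fin (k + 1))) (f : Fin (k + 1) → Fin n), A (f ∘ σ) = A f

/-- The `i`-th row sum. -/
def rowSum (A : Tensor k n) (i : Fin n) : ℝ := ∑ j : Fin k → Fin n, A (Fin.cons i j)

def B0 (A : Tensor k n) : Prop := ∀ i, 0 ≤ rowSum A i ∧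
  ∀ j : Fin k → Fin n, j ≠ (fun _ => i) → A (Fin.cons i j) ≤ rowSum A i / (n : ℝ) ^ k

/-- `l` is an H-eigenvalue: it has a real eigenvector. -/
def HEig (A : Tensor k n) (l : ℝ) : Prop := ∃ x : Fin n → ℝ, x ≠ 0 ∧
  ∀ i, ∑ j : Fin k → Fin n, A (Fin.cons i j) * ∏ t, x (j t) = l * x i ^ k

end Pool.Agent.H16.BTen
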