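import Mathlib
import Pool.Agent.H16.BTenDefs

set_option autoImplicit false

namespace Pool.Agent.H16.BTen
open Finset

def A (f : Fin 3 → Fin 2) : ℝ :=
  if (f 0).val + (f 1).val + (f 2).val = 0 then 10 else if (f 0).val + (f 1).val + (f 2).val = 1 then -1
  else if (f 0).val + (f 1).val + (f 2).val = 2 then 1 else 3

theorem s2 (g : (Fin 2 → Fin 2) → ℝ) : ∑ j, g j = g ![0, 0] + g ![0, 1] + (g ![1, 0] + g ![1, 1]) := by
  rw [← (piFinTwoEquiv fun _ => Fin 2).symm.sum_comp, Fintype.sum_prod_type]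
  simp only [Fin.sum_univ_two]
  rfl

theorem ev (i : Fin 2) (j : Fin 2 → Fin 2) : A (Fin.cons i j) = A ![i, j 0, j 1] := rfl

theorem q1 : Symm (k := 2) A ∧ B0 (k := 2) A ∧ ∀ l, ¬ HEig (k := 2) A l := by
  refine ⟨fun σ f => ?_, fun i => ?_, ?_⟩
  · have : ∑ t : Fin 3, (f (σ t)).val = ∑ t : Fin 3, (f t).val := Equiv.sum_comp σ fun t => (f t).val
    simp only [Fin.sum_univ_three] at this
    simp only [A, Function.comp, this]
  · have h : rowSum (k := 2) A i = if i = 0 then 9 else 4 := by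
      rw [rowSum, s2]; fin_cases i <;> simp [ev, A] <;> norm_num
    rw [h]
    refine ⟨by split_ifs <;> norm_num, fun j hj => ?_⟩
    have : ¬ (j 0 = i ∧ j 1 = i) := fun e => hj (by ext t; fin_cases t <;> simp [e.1, e.2])
    rw [ev]
    generalize j 0 = a at *
    generalize j 1 = b at *
    fin_cases i <;> fin_cases a <;> fin_cases b <;> simp_all [A] <;> norm_num
  · rintro l ⟨x, hx, h⟩
    have h0 := h 0
    have h1 := h 1
    rw [s2] at h0 h1
    simp [ev, A] at h0 h1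
    have e : (x 1 ^ 2 - x 0 * x 1) ^ 2 + (x 0 ^ 2 - x 0 * x 1) ^ 2 + 5 * (x 0 * x 1) ^ 2 = 0 := by
      linear_combination x 1 ^ 2 * h0 - x 0 ^ 2 * h1
    have a : x 0 * x 1 = 0 := by nlinarith [sq_nonneg (x 1 ^ 2 - x 0 * x 1), sq_nonneg (x 0 ^ 2 - x 0 * x 1)]
    rw [a] at e
    have b : x 0 ^ 2 = 0 := by nlinarith [sq_nonneg (x 1 ^ 2), sq_nonneg (x 0 ^ 2)]
    have c : x 1 ^ 2 = 0 := by nlinarith [sq_nonneg (x 1 ^ 2), sq_nonneg (x 0 ^ 2)]
    exact hx (by ext t; fin_cases t <;> simp_all)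

theorem q2 {k n : ℕ} (hk : Even k) (B : Tensor k n) (hB : B0 B) (l : ℝ) (h : HEig B l) : 0 ≤ l := by
  obtain ⟨x, hx, h⟩ := h
  obtain ⟨i0, hi0⟩ := Function.ne_iff.1 hx
  obtain ⟨i, -, hi⟩ := exists_max_image univ (fun i => |x i|) ⟨i0, mem_univ _⟩
  have p : 0 < |x i| := (abs_pos.2 hi0).trans_le (hi _ (mem_univ _))
  have hn : (0 : ℝ) < n ^ k := by have := i.pos; positivity
  set b := rowSum B i / (n : ℝ) ^ k with hb
  have b0 : 0 ≤ b := div_nonneg (hB i).1 hn.le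
  have e : ∑ j : Fin k → Fin n, B (Fin.cons i j) * ∏ t, x (j t) =
      ∑ j : Fin k → Fin n, (b - B (Fin.cons i j)) * (x i ^ k - ∏ t, x (j t)) + b * (∑ a, x a) ^ k := by
    have : (∑ a, x a) ^ k = ∑ j : Fin k → Fin n, ∏ t, x (j t) := by
      rw [← Fintype.piFinset_univ, ← prod_univ_sum]; simp
    have z : ∑ j : Fin k → Fin n, (b - B (Fin.cons i j)) * x i ^ k = 0 := by
      rw [← sum_mul, sum_sub_distrib, ← rowSum]
      simp [hb, mul_div_cancel₀ _ hn.ne']
    rw [this, mul_sum, ← sub_zero (∑ j : Fin k → Fin n, (b - _) * (_ - _)), ← z, ← sum_sub_distrib,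
      ← sum_add_distrib]
    exact sum_congr rfl fun _ _ => by ring
  have : 0 ≤ l * x i ^ k := by
    rw [← h i, e]
    refine add_nonneg (sum_nonneg fun j _ => ?_) (mul_nonneg b0 (hk.pow_nonneg _))
    by_cases c : j = fun _ => i
    · simp [c]
    · refine mul_nonneg (sub_nonneg.2 ((hB i).2 j c)) (sub_nonneg.2 ((le_abs_self _).trans ?_))
      rw [abs_prod, ← hk.pow_abs]
      simpa using prod_le_prod (s := univ) (fun t _ => abs_nonneg (x (j t))) fun t _ => hi (j t) (mem_univ _)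
  exact nonneg_of_mul_nonneg_left this (by rw [← hk.pow_abs]; positivity)

end Pool.Agent.H16.BTen
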