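import Mathlib

set_option autoImplicit false

namespace Pool.Agent.H16.Br

open Filter Topology

variable {A : Type}

/-- the block `u i, ..., u (i+n-1)` -/
def block (u : ℕ → A) (i n : ℕ) : List A := (List.range n).map (fun j => u (i + j))

/-- `w` is a factor of the infinite word `u` -/
def Factor (u : ℕ → A) (w : List A) : Prop := ∃ i, block u i w.length = w

def Recurrent (u : ℕ → A) : Prop :=
  ∀ w, Factor u w → {i | block u i w.length = w}.Infinite

def ClosedRev (u : ℕ → A) : Prop := ∀ w, Factor u w → Factor u w.reverse

/-- factor complexity -/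
noncomputable def cx (u : ℕ → A) (n : ℕ) : ℕ := {w | Factor u w ∧ w.length = n}.ncard

/-- palindromic complexity -/
noncomputable def pal (u : ℕ → A) (n : ℕ) : ℕ :=
  {w | Factor u w ∧ w.length = n ∧ w.reverse = w}.ncard

noncomputable def T (u : ℕ → A) (n : ℕ) : ℤ :=
  (cx u (n + 1) : ℤ) - cx u n + 2 - pal u (n + 1) - pal u n

/-- defect of a finite word -/
noncomputable def defectFin (w : List A) : ℤ :=
  (w.length : ℤ) + 1 - ({v | v <:+: w ∧ v.reverse = v}.ncard : ℤ)

/-- defect of an infinite word: supremum over its prefixes -/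
noncomputable def defect (u : ℕ → A) : EReal := ⨆ n, ((defectFin (block u 0 n) : ℝ) : EReal)

/-- the partial sums of `T` converge in the extended reals to twice the defect -/
def BrlekReutenauer (u : ℕ → A) : Prop :=
  Tendsto (fun N => (((∑ n ∈ Finset.range N, T u n : ℤ) : ℝ) : EReal)) atTop (𝓝 (2 * defect u))

end Pool.Agent.H16.Br
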