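import Mathlib
import Pool.Agent.H16.BrDefs

set_option autoImplicit false

namespace Pool.Agent.H16.Br

open Filter Topology

abbrev L3 : Type := List (Fin 3)

def bb (n : ℕ) : L3 := List.replicate n 0

def Dg (g : ℕ) : ℕ → L3
  | 0 => bb g
  | r + 1 => bb (g + r + 1) ++ ([1] ++ Dg g r)

def U : ℕ → L3
  | 0 => [1, 2]
  | k + 1 => U k ++ Dg (2 * ((U k).length + 100)) ((U k).length + 100) ++ U k

def mm (k : ℕ) : ℕ := (U k).length + 100

lemma U_succ (k : ℕ) : U (k + 1) = U k ++ Dg (2 * mm k) (mm k) ++ U k := rfl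

@[simp] lemma bb_len (n : ℕ) : (bb n).length = n := by simp [bb]

lemma bb_add (a b : ℕ) : bb (a + b) = bb a ++ bb b := by simp [bb]

lemma Dg_len (g r : ℕ) : (r + 1) * g ≤ (Dg g r).length ∧ (Dg g r).length ≤ (r + 1) * (g + r + 1) := by
  induction r with
  | zero => simp [Dg]
  | succ r ih => simp only [Dg, List.length_append, bb_len, List.length_singleton]; constructor <;> nlinarith [ih.1, ih.2]

lemma U_len (k : ℕ) : k < (U k).length := by
  induction k with
  | zero => simp [U]
  | succ k ih => rw [U_succ]; simp only [List.length_append]; omega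

lemma U_pre {k j : ℕ} (h : k ≤ j) : U k <+: U j := by
  induction j, h using Nat.le_induction with
  | base => exact List.prefix_refl _
  | succ j _ ih => exact ih.trans ⟨Dg (2 * mm j) (mm j) ++ U j, by rw [U_succ, List.append_assoc]⟩

def u (n : ℕ) : Fin 3 := (U n).getD n 0

lemma u_get (j x : ℕ) (h : x < (U j).length) : u x = (U j)[x] := by
  have h1 := U_len x
  rw [u, List.getD_eq_getElem _ _ h1]
  rcases le_total x j with e | e
  · exact (U_pre e).getElem h1
  · exact ((U_pre e).getElem h).symm

lemma occ {s w t : L3} {j : ℕ} (h : s ++ w ++ t = U j) : block u s.length w.length = w := by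
  apply List.ext_getElem
  · simp [block]
  · intro i h1 h2
    have hl : s.length + i < (U j).length := by rw [← h]; simp; omega
    simp only [block, List.getElem_map, List.getElem_range]
    rw [u_get j _ hl]
    simp only [← h]
    rw [List.getElem_append_left (by simp; omega), List.getElem_append_right (by omega)]
    simp

lemma factor_iff (w : L3) : Factor u w ↔ ∃ j, w <:+: U j := by
  constructor
  · rintro ⟨i, hi⟩
    refine ⟨i + w.length, ?_⟩
    have hl := U_len (i + w.length)
    have : w = ((U (i + w.length)).drop i).take w.length := by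
      apply List.ext_getElem
      · simp; omega
      · intro x h1 h2
        have : w[x] = (block u i w.length)[x]'(by rw [hi]; exact h1) := by simp only [hi]
        rw [this]
        simp only [block, List.getElem_map, List.getElem_range, List.getElem_take,
          List.getElem_drop]
        exact u_get _ _ (by omega)
    rw [this]
    nth_rewrite 2 [← this]
    exact (List.take_prefix _ _).isInfix.trans (List.drop_suffix _ _).isInfix
  · rintro ⟨j, s, t, h⟩
    exact ⟨_, occ h⟩

lemma recur : Recurrent u := by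
  intro w hw
  obtain ⟨k, s, t, h⟩ := (factor_iff w).mp hw
  apply Set.infinite_of_forall_exists_gt
  intro n
  obtain ⟨t', ht⟩ := U_pre (show k ≤ k + n by omega)
  have : (U (k + n) ++ Dg (2 * mm (k + n)) (mm (k + n)) ++ s) ++ w ++ (t ++ t') = U (k + n + 1) := by
    have e : U (k + n) = s ++ w ++ (t ++ t') := by rw [← ht, ← h]; simp
    rw [U_succ]
    generalize U (k + n) ++ Dg (2 * mm (k + n)) (mm (k + n)) = Z
    rw [e]; simp
  refine ⟨_, occ this, ?_⟩
  have := U_len (k + n)
  simp only [List.length_append]; omega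

lemma split {P S w : L3} {n : ℕ} (hn : w.length ≤ n) (h : w <:+: P ++ bb n ++ S) :
    w <:+: P ++ bb w.length ∨ w <:+: bb w.length ++ S := by
  obtain ⟨s, t, h⟩ := h
  obtain ⟨e, rfl⟩ := Nat.exists_eq_add_of_le hn
  by_cases h1 : s.length ≤ P.length
  · left
    have a : s ++ w <+: P ++ bb (w.length + e) ++ S := ⟨t, h⟩
    have b : P ++ bb w.length <+: P ++ bb (w.length + e) ++ S :=
      ⟨bb e ++ S, by rw [bb_add]; simp⟩
    exact (List.suffix_append s w).isInfix.trans
      (List.prefix_of_prefix_length_le a b (by simp; omega)).isInfix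
  by_cases h2 : t.length ≤ S.length
  · right
    have a : w ++ t <:+ P ++ bb (w.length + e) ++ S := ⟨s, by rw [← h]; simp⟩
    have b : bb w.length ++ S <:+ P ++ bb (w.length + e) ++ S :=
      ⟨P ++ bb e, by rw [add_comm, bb_add]; simp⟩
    exact (List.prefix_append w t).isInfix.trans
      (List.suffix_of_suffix_length_le a b (by simp; omega)).isInfix
  · right
    have a : P <+: s := List.prefix_of_prefix_length_le (l₃ := s ++ w ++ t)
      ⟨bb (w.length + e) ++ S, by rw [h]; simp⟩ ⟨w ++ t, by simp⟩ (by omega)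
    have b : S <:+ t := List.suffix_of_suffix_length_le (l₃ := s ++ w ++ t)
      ⟨P ++ bb (w.length + e), by rw [h]⟩ ⟨s ++ w, rfl⟩ (by omega)
    obtain ⟨s', rfl⟩ := a
    obtain ⟨t', rfl⟩ := b
    have : s' ++ w ++ t' = bb (w.length + e) := by
      have h' : P ++ (s' ++ w ++ t') ++ S = P ++ bb (w.length + e) ++ S := by rw [← h]; simp
      exact List.append_cancel_left (List.append_cancel_right h')
    have hw : w = bb w.length := by
      rw [bb, List.eq_replicate_iff]
      refine ⟨rfl, fun x hx => ?_⟩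
      have : x ∈ bb (w.length + e) := by rw [← this]; simp [hx]
      exact List.eq_of_mem_replicate this
    exact ⟨[], S, by rw [← hw]; simp⟩

def G (N : ℕ) (Q : L3 → Prop) (X : L3) : Prop :=
  ∀ w, w.length = N → w <:+: bb N ++ X ++ bb N → Q w

lemma G_join {N n : ℕ} {Q : L3 → Prop} {X Y : L3} (hX : G N Q X) (hY : G N Q Y) (hn : N ≤ n) :
    G N Q (X ++ bb n ++ Y) := by
  intro w hw h
  subst hw
  have : w <:+: (bb w.length ++ X) ++ bb n ++ (Y ++ bb w.length) := by simpa using h
  rcases split hn this with h | h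
  · exact hX w rfl h
  · exact hY w rfl (by simpa using h)

lemma G_D {N g : ℕ} {Q : L3 → Prop} (h1 : G N Q [1]) (hg : N ≤ g) {Y : L3} (hY : G N Q Y) (r : ℕ) :
    ∀ X, G N Q X → G N Q (X ++ Dg g r ++ Y) := by
  induction r with
  | zero => intro X hX; exact G_join hX hY hg
  | succ r ih =>
    intro X hX
    have := G_join hX (ih [1] h1) (show N ≤ g + r + 1 by omega)
    simpa [Dg] using this

lemma window (k N : ℕ) (hN : N ≤ 2 * mm k) (w : L3) (hw : Factor u w) (hl : w.length = N) :
    w <:+: bb N ++ U k ++ bb N ∨ w <:+: bb N ++ [1] ++ bb N := by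
  obtain ⟨j, hj⟩ := (factor_iff w).mp hw
  have key : ∀ j, k ≤ j →
      G N (fun w => w <:+: bb N ++ U k ++ bb N ∨ w <:+: bb N ++ [1] ++ bb N) (U j) := by
    intro j h
    induction j, h using Nat.le_induction with
    | base => intro w _ h; exact Or.inl h
    | succ j hj ih =>
      have : mm k ≤ mm j := by have := (U_pre hj).length_le; unfold mm; omega
      rw [U_succ]
      exact G_D (fun w _ h => Or.inr h) (by omega) ih _ _ ih
  refine key (j + k) (by omega) w hl ?_
  exact (hj.trans (U_pre (by omega)).isInfix).trans (List.infix_append _ _ _)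

lemma not_closed : ¬ ClosedRev u := by
  intro h
  have h1 : Factor u [1, 2] := (factor_iff _).mpr ⟨0, List.infix_refl _⟩
  have := window 0 2 (by unfold mm; omega) _ (h _ h1) rfl
  revert this; decide

lemma infix_card (X : L3) (N : ℕ) : ∃ F : Finset L3, F.card ≤ X.length + 1 ∧
    ∀ w, w.length = N → w <:+: X → w ∈ F := by
  refine ⟨(Finset.range (X.length + 1)).image (fun i => (X.drop i).take N),
    Finset.card_image_le.trans (by simp), ?_⟩
  rintro w rfl ⟨s, t, rfl⟩
  exact Finset.mem_image.mpr ⟨s.length, by simp, by simp⟩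

lemma cx_le (k N : ℕ) (hN : N ≤ 2 * mm k) : cx u N ≤ (U k).length + 4 * N + 3 := by
  obtain ⟨F1, c1, h1⟩ := infix_card (bb N ++ U k ++ bb N) N
  obtain ⟨F2, c2, h2⟩ := infix_card (bb N ++ [1] ++ bb N) N
  have : cx u N ≤ (F1 ∪ F2).card := by
    rw [← Set.ncard_coe_finset]
    apply Set.ncard_le_ncard _ (Finset.finite_toSet _)
    rintro w ⟨hw, hl⟩
    rcases window k N hN w hw hl with h | h
    · simp [h1 w hl h]
    · simp [h2 w hl h]
  have := Finset.card_union_le F1 F2
  simp only [List.length_append, bb_len, List.length_singleton] at c1 c2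
  omega

def pw (s i : ℕ) : L3 := bb s ++ [1] ++ bb i ++ [1] ++ bb s

lemma pw_rev (s i : ℕ) : (pw s i).reverse = pw s i := by simp [pw, bb]

lemma pw_len (s i : ℕ) : (pw s i).length = 2 * s + i + 2 := by simp [pw]; omega

lemma pw_inj {s i s' i' : ℕ} (h : pw s i = pw s' i') : s = s' ∧ i = i' := by
  have h1 := congrArg List.length h
  have h2 := congrArg (List.idxOf 1) h
  rw [pw_len, pw_len] at h1
  simp [pw, bb, List.idxOf_append] at h2
  omega

lemma Dg_pre (g r s : ℕ) (h : s ≤ g) : bb s <+: Dg g r := by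
  obtain ⟨e, rfl⟩ := Nat.exists_eq_add_of_le h
  cases r with
  | zero => exact ⟨bb e, by rw [Dg, bb_add]⟩
  | succ r => exact ⟨bb (e + r + 1) ++ ([1] ++ Dg (s + e) r), by
      rw [Dg, show s + e + r + 1 = s + (e + r + 1) by omega, bb_add s]; simp⟩

lemma pw_infix (g s t e : ℕ) (h : s ≤ g) : pw s (g + t + 1) <:+: Dg g (t + 2 + e) := by
  induction e with
  | zero =>
    obtain ⟨z, hz⟩ := Dg_pre g t s h
    obtain ⟨e, rfl⟩ := Nat.exists_eq_add_of_le h
    refine ⟨bb (e + t + 2), z, ?_⟩
    change _ = bb (s + e + (t + 1) + 1) ++ ([1] ++ (bb (s + e + t + 1) ++ ([1] ++ Dg (s + e) t)))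
    rw [← hz, show s + e + (t + 1) + 1 = (e + t + 2) + s by omega, bb_add (e + t + 2)]
    simp [pw]
  | succ e ih =>
    refine ih.trans ?_
    exact ⟨bb (g + (t + 2 + e) + 1) ++ [1], [], by
      rw [show t + 2 + (e + 1) = (t + 2 + e) + 1 by omega, Dg]; simp⟩

lemma pw_factor (k s t : ℕ) (hs : s ≤ 2 * mm k) (ht : t + 2 ≤ mm k) :
    Factor u (pw s (2 * mm k + t + 1)) := by
  obtain ⟨e, he⟩ := Nat.exists_eq_add_of_le ht
  have := pw_infix (2 * mm k) s t e hs
  rw [← he] at this
  exact (factor_iff _).mpr ⟨k + 1, this.trans (by rw [U_succ]; exact List.infix_append _ _ _)⟩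

lemma pal_inf : {w | Factor u w ∧ w.reverse = w}.Infinite := by
  apply Set.Infinite.of_image List.length
  apply Set.infinite_of_forall_exists_gt
  intro n
  refine ⟨_, ⟨_, ⟨pw_factor n 0 0 (by omega) (by unfold mm; omega), pw_rev _ _⟩, rfl⟩, ?_⟩
  have := U_len n
  rw [pw_len]; unfold mm; omega

lemma pal_sum (F : Finset L3) (hF : ∀ w ∈ F, Factor u w ∧ w.reverse = w) (N c : ℕ)
    (hl : ∀ w ∈ F, c ≤ w.length ∧ w.length < N + c) :
    F.card ≤ ∑ n ∈ Finset.range N, pal u (n + c) := by
  rw [Finset.card_eq_sum_card_fiberwise (f := fun w : L3 => w.length - c) (t := Finset.range N)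
    (fun w hw => by have := hl w hw; simp; omega)]
  refine Finset.sum_le_sum fun n _ => ?_
  rw [← Set.ncard_coe_finset]
  apply Set.ncard_le_ncard
  · intro w hw
    simp only [Finset.coe_filter, Set.mem_setOf_eq] at hw
    have := hl w hw.1
    exact ⟨(hF w hw.1).1, by omega, (hF w hw.1).2⟩
  · exact (List.finite_length_eq (Fin 3) (n + c)).subset (fun w hw => hw.2.1)

lemma sum_le (k : ℕ) : ∑ n ∈ Finset.range (7 * mm k), T u n ≤ -(mm k : ℤ) := by
  set m := mm k with hm
  have m100 : 100 ≤ m := by rw [hm]; unfold mm; omega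
  let F : Finset L3 := (Finset.range (2 * m) ×ˢ Finset.range (m - 1)).image
    (fun p => pw p.1 (2 * m + p.2 + 1))
  have hc : F.card = 2 * m * (m - 1) := by
    rw [Finset.card_image_of_injOn]
    · simp
    · intro p _ q _ h
      have := pw_inj h
      exact Prod.ext this.1 (by omega)
  have hF : ∀ w ∈ F, (Factor u w ∧ w.reverse = w) ∧ 1 ≤ w.length ∧ w.length < 7 * m := by
    intro w hw
    obtain ⟨p, hp, rfl⟩ := Finset.mem_image.mp hw
    simp only [Finset.mem_product, Finset.mem_range] at hp
    refine ⟨⟨pw_factor k _ _ (by omega) (by omega), pw_rev _ _⟩, ?_⟩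
    rw [pw_len]; omega
  have p0 := pal_sum F (fun w h => (hF w h).1) (7 * m) 0 (fun w h => by have := hF w h; omega)
  have p1 := pal_sum F (fun w h => (hF w h).1) (7 * m) 1 (fun w h => by have := hF w h; omega)
  have tel : ∀ N, ∑ n ∈ Finset.range N, T u n = (cx u N : ℤ) - cx u 0 + 2 * N -
      ((∑ n ∈ Finset.range N, pal u (n + 1) : ℕ) : ℤ) -
      ((∑ n ∈ Finset.range N, pal u (n + 0) : ℕ) : ℤ) := by
    intro N
    induction N with
    | zero => simp
    | succ N ih => rw [Finset.sum_range_succ, Finset.sum_range_succ, Finset.sum_range_succ, ih, T]; push_cast; ring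
  have hl : (U (k + 1)).length = 2 * (U k).length + (Dg (2 * m) m).length := by
    rw [U_succ, ← hm]; simp only [List.length_append]; omega
  have d := Dg_len (2 * m) m
  have hU : (U k).length ≤ m := by rw [hm]; unfold mm; omega
  have c := cx_le (k + 1) (7 * m) (by unfold mm; nlinarith [d.1])
  rw [tel]
  obtain ⟨r, hr⟩ : ∃ r, m = r + 1 := ⟨m - 1, by omega⟩
  rw [hc, show m - 1 = r by omega] at p0 p1
  have : cx u (7 * m) + 2 * (7 * m) + m ≤ 2 * (2 * m * r) := by
    have d2 := d.2
    rw [hl] at c
    nlinarith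
  have z : (0 : ℤ) ≤ cx u 0 := Int.natCast_nonneg _
  zify at this p0 p1
  push_cast at *
  linarith

theorem unb (K : ℤ) : ∃ᶠ N in atTop, ∑ n ∈ Finset.range N, T u n < K := by
  rw [frequently_atTop]
  intro a
  refine ⟨7 * mm (a + K.natAbs), ?_, ?_⟩
  · have := U_len (a + K.natAbs); unfold mm; omega
  · have h := sum_le (a + K.natAbs)
    have := U_len (a + K.natAbs)
    have : a + K.natAbs < mm (a + K.natAbs) := by unfold mm; omega
    omega

theorem not_br : ¬ BrlekReutenauer u := by
  intro h
  have h0 : (0 : EReal) ≤ defect u := by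
    refine le_trans ?_ (le_iSup _ 0)
    have : {v : L3 | v = [] ∧ v.reverse = v} = {[]} := by
      ext v; simp; rintro rfl; rfl
    simp [defectFin, block, this]
  have h1 : (((-1 : ℤ) : ℝ) : EReal) < 2 * defect u :=
    lt_of_lt_of_le (by exact_mod_cast (by norm_num : (-1 : ℤ) < 0)) (mul_nonneg (by norm_num) h0)
  obtain ⟨N, hN1, hN2⟩ := ((unb (-1)).and_eventually (h.eventually (lt_mem_nhds h1))).exists
  have : (-1 : ℤ) < ∑ n ∈ Finset.range N, T u n := by exact_mod_cast hN2
  omega

end Pool.Agent.H16.Br
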