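import Mathlib

set_option autoImplicit false

namespace Pool.Agent.H16.CFG

/-- The context-free grammar with nonterminals in `ℕ`, start symbol `0`, given by a finite list of rules. -/
abbrev gram {T : Type} [DecidableEq T] (R : List (ℕ × List (T ⊕ ℕ))) : ContextFreeGrammar T :=
  ⟨ℕ, 0, (R.map fun r => ⟨r.1, r.2.map (Sum.elim Symbol.terminal Symbol.nonterminal)⟩).toFinset⟩

variable {T : Type} (R : List (ℕ × List (T ⊕ ℕ)))

inductive Gn : List (T ⊕ ℕ) → List T → Prop
  | nil : Gn [] []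
  | t (a : T) {s : List (T ⊕ ℕ)} {w : List T} : Gn s w → Gn (.inl a :: s) (a :: w)
  | n {A : ℕ} {o s : List (T ⊕ ℕ)} {u w : List T} : (A, o) ∈ R → Gn o u → Gn s w → Gn (.inr A :: s) (u ++ w)

variable {R}

theorem Gn.app {s s' : List (T ⊕ ℕ)} {w w' : List T} (h : Gn R s w) (h' : Gn R s' w') : Gn R (s ++ s') (w ++ w') := by
  induction h with
  | nil => exact h'
  | t a _ ih => exact ih.t a
  | n h1 h2 _ _ ih => exact List.append_assoc _ _ _ ▸ .n h1 h2 ih

theorem Gn.split {s s' : List (T ⊕ ℕ)} {w : List T} (h : Gn R (s ++ s') w) :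
    ∃ u v, w = u ++ v ∧ Gn R s u ∧ Gn R s' v := by
  induction s generalizing w with
  | nil => exact ⟨[], w, rfl, .nil, h⟩
  | cons x s ih =>
    cases h with
    | t a h =>
      obtain ⟨u, v, rfl, h1, h2⟩ := ih h
      exact ⟨a :: u, v, rfl, h1.t a, h2⟩
    | n h0 h' h =>
      obtain ⟨u, v, rfl, h1, h2⟩ := ih h
      exact ⟨_, v, (List.append_assoc ..).symm, .n h0 h' h1, h2⟩

theorem Gn.one {A : ℕ} {o : List (T ⊕ ℕ)} {u : List T} (h : (A, o) ∈ R) (h' : Gn R o u) : Gn R [.inr A] u := by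
  simpa using Gn.n h h' .nil

theorem mem_lang [DecidableEq T] (w : List T) : w ∈ (gram R).language ↔ Gn R [.inr 0] w := by
  constructor
  · intro h
    have : ∀ s, (gram R).Derives s (w.map Symbol.terminal) → ∀ s', s = s'.map (Sum.elim Symbol.terminal
        Symbol.nonterminal) → Gn R s' w := fun s h => by
      induction h using Relation.ReflTransGen.head_induction_on with
      | refl =>
        intro s' e
        clear h
        induction w generalizing s' with
        | nil => exact (List.map_eq_nil_iff.mp e.symm) ▸ .nil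
        | cons a w ih =>
          rcases s' with _ | ⟨b | b, s'⟩ <;> simp at e
          exact e.1 ▸ (ih s' e.2).t a
      | head e _ ih =>
        rintro s' rfl
        obtain ⟨r, hr, e⟩ := e
        obtain ⟨⟨A, o⟩, hr', rfl⟩ := List.mem_map.mp (List.mem_toFinset.mp hr)
        obtain ⟨p0, q0, e1, rfl⟩ := e.exists_parts
        obtain ⟨p', q, rfl, e2, rfl⟩ := List.map_eq_append_iff.mp e1
        obtain ⟨p, x, rfl, rfl, e3⟩ := List.map_eq_append_iff.mp e2
        clear e e1 e2
        obtain rfl : x = [.inr A] := by rcases x with _ | ⟨b | b, _ | _⟩ <;> simp_all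
        obtain ⟨_, v, rfl, h1, h2⟩ := (ih (p ++ o ++ q) (by simp)).split
        obtain ⟨u, u', rfl, h1, h3⟩ := h1.split
        exact (h1.app (.one hr' h3)).app h2
    exact this _ h _ rfl
  · intro h
    have : ∀ s w, Gn R s w → (gram R).Derives (s.map (Sum.elim Symbol.terminal Symbol.nonterminal))
        (w.map Symbol.terminal) := fun s w h => by
      induction h with
      | nil => rfl
      | t a _ ih => exact ih.append_left [_]
      | @n A o s u w h1 _ _ i1 i2 =>
        refine ContextFreeGrammar.Produces.trans_derives ⟨⟨A, o.map (Sum.elim Symbol.terminal Symbol.nonterminal)⟩,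
          List.mem_toFinset.mpr (List.mem_map.mpr ⟨_, h1, rfl⟩), .head _⟩ ?_
        rw [List.map_append]
        exact (i1.append_right _).trans (i2.append_left _)
    exact this _ _ h

/-- Relational semantics of sentential forms. -/
def Cmp {σ : Type} (ρ : T ⊕ ℕ → σ → σ → Prop) : List (T ⊕ ℕ) → σ → σ → Prop
  | [], a, b => a = b
  | x :: s, a, b => ∃ m, ρ x a m ∧ Cmp ρ s m b

variable {σ : Type} {ρ : T ⊕ ℕ → σ → σ → Prop}

theorem cmp_app {s s' : List (T ⊕ ℕ)} {a b : σ} : Cmp ρ (s ++ s') a b ↔ ∃ m, Cmp ρ s a m ∧ Cmp ρ s' m b := by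
  induction s generalizing a with
  | nil => simp [Cmp]
  | cons x s ih =>
    simp only [List.cons_append, Cmp, ih]
    exact ⟨fun ⟨m, h, m', h1, h2⟩ => ⟨m', ⟨m, h, h1⟩, h2⟩, fun ⟨m', ⟨m, h, h1⟩, h2⟩ => ⟨m, h, m', h1, h2⟩⟩

theorem Gn.sound (hR : ∀ r ∈ R, ∀ a b, Cmp ρ r.2 a b → ρ (.inr r.1) a b) {s : List (T ⊕ ℕ)} {w : List T}
    (h : Gn R s w) (a b : σ) (e : Cmp ρ (w.map .inl) a b) : Cmp ρ s a b := by
  induction h generalizing a b with
  | nil => exact e
  | t x _ ih => exact let ⟨m, h1, h2⟩ := e; ⟨m, h1, ih _ _ h2⟩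
  | n h1 _ _ i1 i2 =>
    rw [List.map_append, cmp_app] at e
    exact let ⟨m, h2, h3⟩ := e; ⟨m, hR _ h1 _ _ (i1 _ _ h2), i2 _ _ h3⟩

end Pool.Agent.H16.CFG
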