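import Mathlib

set_option autoImplicit false

namespace Pool.Agent.H16.CFG2

/-- The context-free grammar with start symbol `S`, given by a finite list of rules. -/
abbrev gram {T N : Type} [DecidableEq T] [DecidableEq N] (R : List (N × List (T ⊕ N))) (S : N) : ContextFreeGrammar T :=
  ⟨N, S, (R.map fun r => ⟨r.1, r.2.map (Sum.elim Symbol.terminal Symbol.nonterminal)⟩).toFinset⟩

variable {T N : Type} (R : List (N × List (T ⊕ N)))

inductive Gn : List (T ⊕ N) → List T → Prop
  | nil : Gn [] []
  | t (a : T) {s : List (T ⊕ N)} {w : List T} : Gn s w → Gn (.inl a :: s) (a :: w)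
  | n {A : N} {o s : List (T ⊕ N)} {u w : List T} : (A, o) ∈ R → Gn o u → Gn s w → Gn (.inr A :: s) (u ++ w)

variable {R}

theorem Gn.app {s s' : List (T ⊕ N)} {w w' : List T} (h : Gn R s w) (h' : Gn R s' w') : Gn R (s ++ s') (w ++ w') := by
  induction h with
  | nil => exact h'
  | t a _ ih => exact ih.t a
  | n h1 h2 _ _ ih => exact List.append_assoc _ _ _ ▸ .n h1 h2 ih

theorem Gn.split {s s' : List (T ⊕ N)} {w : List T} (h : Gn R (s ++ s') w) :
    ∃ u v, w = u ++ v ∧ Gn R s u ∧ Gn R s' v := by
  induction s generalizing w with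
  | nil => exact ⟨[], w, rfl, .nil, h⟩
  | cons x s ih =>
    cases h with
    | t a h =>
      obtain ⟨u, v, rfl, h1, h2⟩ := ih h
      exact ⟨a :: u, v, rfl, h1.t a, h2⟩
    | n h0 h' h =>
      obtain ⟨u, v, rfl, h1, h2⟩ := ih h
      exact ⟨_, v, (List.append_assoc ..).symm, .n h0 h' h1, h2⟩

theorem Gn.one {A : N} {o : List (T ⊕ N)} {u : List T} (h : (A, o) ∈ R) (h' : Gn R o u) : Gn R [.inr A] u := by
  simpa using Gn.n h h' .nil

theorem mem_lang [DecidableEq T] [DecidableEq N] (S : N) (w : List T) : w ∈ (gram R S).language ↔ Gn R [.inr S] w := by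
  constructor
  · intro h
    have : ∀ s, (gram R S).Derives s (w.map Symbol.terminal) → ∀ s', s = s'.map (Sum.elim Symbol.terminal
        Symbol.nonterminal) → Gn R s' w := fun s h => by
      induction h using Relation.ReflTransGen.head_induction_on with
      | refl =>
        intro s' e
        clear h
        induction w generalizing s' with
        | nil => exact (List.map_eq_nil_iff.mp e.symm) ▸ .nil
        | cons a w ih =>
          rcases s' with _ | ⟨b | b, s'⟩ <;> simp at e
          exact e.1 ▸ (ih s' e.2).t a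
      | head e _ ih =>
        rintro s' rfl
        obtain ⟨r, hr, e⟩ := e
        obtain ⟨⟨A, o⟩, hr', rfl⟩ := List.mem_map.mp (List.mem_toFinset.mp hr)
        obtain ⟨p0, q0, e1, rfl⟩ := e.exists_parts
        obtain ⟨p', q, rfl, e2, rfl⟩ := List.map_eq_append_iff.mp e1
        obtain ⟨p, x, rfl, rfl, e3⟩ := List.map_eq_append_iff.mp e2
        clear e e1 e2
        obtain rfl : x = [.inr A] := by rcases x with _ | ⟨b | b, _ | _⟩ <;> simp_all
        obtain ⟨_, v, rfl, h1, h2⟩ := (ih (p ++ o ++ q) (by simp)).split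
        obtain ⟨u, u', rfl, h1, h3⟩ := h1.split
        exact (h1.app (.one hr' h3)).app h2
    exact this _ h _ rfl
  · intro h
    have : ∀ s w, Gn R s w → (gram R S).Derives (s.map (Sum.elim Symbol.terminal Symbol.nonterminal))
        (w.map Symbol.terminal) := fun s w h => by
      induction h with
      | nil => rfl
      | t a _ ih => exact ih.append_left [_]
      | @n A o s u w h1 _ _ i1 i2 =>
        refine ContextFreeGrammar.Produces.trans_derives ⟨⟨A, o.map (Sum.elim Symbol.terminal Symbol.nonterminal)⟩,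
          List.mem_toFinset.mpr (List.mem_map.mpr ⟨_, h1, rfl⟩), .head _⟩ ?_
        rw [List.map_append]
        exact (i1.append_right _).trans (i2.append_left _)
    exact this _ _ h

/-- Word semantics of sentential forms. -/
def Sem (P : N → List T → Prop) : List (T ⊕ N) → List T → Prop
  | [], w => w = []
  | .inl a :: s, w => ∃ v, w = a :: v ∧ Sem P s v
  | .inr A :: s, w => ∃ u v, w = u ++ v ∧ P A u ∧ Sem P s v

theorem Gn.sem {P : N → List T → Prop} (hP : ∀ r ∈ R, ∀ w, Sem P r.2 w → P r.1 w) {s : List (T ⊕ N)} {w : List T}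
    (h : Gn R s w) : Sem P s w := by
  induction h with
  | nil => rfl
  | t a _ ih => exact ⟨_, rfl, ih⟩
  | n h1 _ _ i1 i2 => exact ⟨_, _, rfl, hP _ h1 _ i1, i2⟩

theorem Gn.sem1 {P : N → List T → Prop} (hP : ∀ r ∈ R, ∀ w, Sem P r.2 w → P r.1 w) {A : N} {w : List T}
    (h : Gn R [.inr A] w) : P A w := by
  obtain ⟨u, _, rfl, h', rfl⟩ := h.sem hP
  simpa using h'

end Pool.Agent.H16.CFG2
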