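import Pool.Agent.H16.CapDefs

set_option autoImplicit false

namespace Pool.Agent.H16.Cap
open Finset

variable {t : ℕ}

def U (u : Fin t → Bool) (n : ℕ) : Bool := if h : n < t then u ⟨n, h⟩ else false

def df (u v : Fin t → Bool) (n : ℕ) : Option Bool := if U u n = U v n then none else some (U u n)

theorem diff_eq (u v : Fin t → Bool) : diff u v = (List.range t).map (df u v) := by
  apply List.ext_getElem (by simp [diff])
  intro i h1 h2
  have : i < t := by simpa using h2
  simp [diff, df, U, this]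

theorem ext_U {u v : Fin t → Bool} (h : ∀ n < t, U u n = U v n) : u = v := by
  funext i
  simpa [U] using h i i.2

theorem occ (l : ℕ) (h f : ℕ → Option Bool) :
    (List.range l).map h <:+: (List.range t).map f ↔
      ∃ s, s + l ≤ t ∧ ∀ i < l, h i = f (s + i) := by
  constructor
  · rintro ⟨a, b, e⟩
    have e1 := congrArg List.length e
    simp only [List.length_append, List.length_map, List.length_range] at e1
    refine ⟨a.length, by omega, fun i hi => ?_⟩
    have e2 := congrArg (·[a.length + i]?) e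
    simp only [List.append_assoc] at e2
    rw [List.getElem?_append_right (by omega), List.getElem?_append_left (by simpa using hi)] at e2
    simpa [hi, show a.length + i < t by omega] using e2
  · rintro ⟨s, h1, h2⟩
    obtain ⟨c, rfl⟩ := Nat.exists_eq_add_of_le h1
    refine ⟨(List.range s).map f, ((List.range c).map (s + l + ·)).map f, ?_⟩
    rw [List.range_add, List.range_add, List.map_append, List.map_append]
    congr 2
    rw [List.map_map]
    exact List.map_congr_left fun i hi => h2 i (List.mem_range.1 hi)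

def p1 (g : ℕ) : Pat := (List.range (2 * g + 1)).map fun i => if i = g then some true else none
def p2 (d : ℕ) (y : Bool) : Pat :=
  (List.range (d + 1)).map fun i => if i = 0 then some true else if i = d then some y else none
def p3 (d e : ℕ) : Pat := (List.range (d + e + 1)).map fun i =>
  if i = 0 then some true else if i = d then some false else if i = d + e then some true else none

/-- the forbidden set -/
def DD (g : ℕ) (al : ℕ → Bool) : List Pat :=
  p1 g :: (List.range g).flatMap fun d => p2 (d + 1) true ::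
    ((if al (d + 1) then [] else [p2 (d + 1) false]) ++ (List.range g).map fun e => p3 (d + 1) (e + 1))

theorem mem_DD {g : ℕ} {al : ℕ → Bool} {x : Pat} : x ∈ DD g al ↔ x = p1 g ∨
    ∃ d, 0 < d ∧ d ≤ g ∧ (x = p2 d true ∨ (al d = false ∧ x = p2 d false) ∨
      ∃ e, 0 < e ∧ e ≤ g ∧ x = p3 d e) := by
  simp only [DD, List.mem_cons, List.mem_flatMap, List.mem_range, List.mem_append, List.mem_map]
  refine or_congr Iff.rfl ⟨?_, ?_⟩
  · rintro ⟨d, hd, h | h | ⟨e, he, h⟩⟩
    · exact ⟨d + 1, by omega, hd, Or.inl h⟩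
    · cases h' : al (d + 1) <;> simp [h'] at h
      exact ⟨d + 1, by omega, hd, Or.inr (Or.inl ⟨h', h⟩)⟩
    · exact ⟨d + 1, by omega, hd, Or.inr (Or.inr ⟨e + 1, by omega, he, h.symm⟩)⟩
  · rintro ⟨d, h0, hd, h⟩
    obtain ⟨d, rfl⟩ : ∃ d', d = d' + 1 := ⟨d - 1, by omega⟩
    refine ⟨d, hd, ?_⟩
    rcases h with h | ⟨h', h⟩ | ⟨e, h1, he, h⟩
    · exact Or.inl h
    · exact Or.inr (Or.inl (by simp [h', h]))
    · obtain ⟨e, rfl⟩ : ∃ e', e = e' + 1 := ⟨e - 1, by omega⟩
      exact Or.inr (Or.inr ⟨e, he, h.symm⟩)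

variable {g : ℕ} {al : ℕ → Bool}

theorem star0 {u v : Fin t → Bool} (h1 : ∀ d ∈ DD g al, ¬ d <:+: diff u v)
    (h2 : ∀ d ∈ DD g al, ¬ d <:+: diff v u) {p : ℕ} (hg : g ≤ p) (ht : p + g < t)
    (hu : U u p = true) (hv : U v p = false) (hl : ∀ n < p, U u n = U v n) :
    ∃ q, p < q ∧ q ≤ p + g ∧ al (q - p) = true ∧ U u q = false ∧ U v q = true ∧
      ∀ n ≤ p + g, n ≠ p → n ≠ q → U u n = U v n := by
  classical
  rw [diff_eq] at h1 h2
  have hp : df u v p = some true := by simp [df, hu, hv]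
  have ex : ∃ q, p < q ∧ q ≤ p + g ∧ U u q ≠ U v q := by
    by_contra! h
    refine h1 _ (mem_DD.2 (Or.inl rfl)) ((occ _ _ _).2 ⟨p - g, by omega, fun i hi => ?_⟩)
    split_ifs with e
    · rw [← hp]; congr 1; omega
    · rcases lt_or_gt_of_ne e with e | e
      · simp [df, hl (p - g + i) (by omega)]
      · simp [df, h (p - g + i) (by omega) (by omega)]
  obtain ⟨q, ⟨q1, q2, q3⟩, q4⟩ : ∃ q, (p < q ∧ q ≤ p + g ∧ U u q ≠ U v q) ∧
      ∀ n, p < n → n < q → U u n = U v n := ⟨Nat.find ex, Nat.find_spec ex, fun n h h' => by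
    have := (Nat.find_spec ex).2.1
    by_contra e
    exact Nat.find_min ex h' ⟨h, by omega, e⟩⟩
  have o2 : p2 (q - p) (U u q) <:+: (List.range t).map (df u v) :=
    (occ _ _ _).2 ⟨p, by omega, fun i hi => by
      split_ifs with e e'
      · rw [e, ← hp]; rfl
      · rw [show p + i = q by omega]; simp [df, q3]
      · simp [df, q4 (p + i) (by omega) (by omega)]⟩
  have q5 : U u q = false := by
    by_contra e
    rw [Bool.not_eq_false] at e
    exact h1 _ (mem_DD.2 (Or.inr ⟨q - p, by omega, by omega, Or.inl (by rw [e])⟩)) o2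
  have q6 : U v q = true := by simpa [q5] using q3
  refine ⟨q, q1, q2, ?_, q5, q6, ?_⟩
  · by_contra e
    rw [Bool.not_eq_true] at e
    exact h1 _ (mem_DD.2 (Or.inr ⟨q - p, by omega, by omega, Or.inr (Or.inl ⟨e, by rw [q5]⟩)⟩)) o2
  by_contra! h
  have ex : ∃ r, q < r ∧ r ≤ p + g ∧ U u r ≠ U v r := by
    obtain ⟨n, a, b, c, d⟩ := h
    refine ⟨n, ?_, a, d⟩
    by_contra e
    rcases lt_or_gt_of_ne b with b | b
    · exact d (hl n b)
    · exact d (q4 n b (by omega))
  obtain ⟨r, ⟨r1, r2, r3⟩, r4⟩ : ∃ r, (q < r ∧ r ≤ p + g ∧ U u r ≠ U v r) ∧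
      ∀ n, q < n → n < r → U u n = U v n := ⟨Nat.find ex, Nat.find_spec ex, fun n h h' => by
    have := (Nat.find_spec ex).2.1
    by_contra e
    exact Nat.find_min ex h' ⟨h, by omega, e⟩⟩
  cases e : U u r
  · have r5 : U v r = true := by simpa [e] using r3
    refine h2 _ (mem_DD.2 (Or.inr ⟨r - q, by omega, by omega, Or.inl rfl⟩))
      ((occ _ _ _).2 ⟨q, by omega, fun i hi => ?_⟩)
    split_ifs with e1 e2
    · simp [df, e1, q5, q6]
    · rw [show q + i = r by omega]; simp [df, e, r5]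
    · simp [df, r4 (q + i) (by omega) (by omega)]
  · have r5 : U v r = false := by simpa [e] using r3
    refine h1 _ (mem_DD.2 (Or.inr ⟨q - p, by omega, by omega, Or.inr (Or.inr
      ⟨r - q, by omega, by omega, rfl⟩)⟩)) ((occ _ _ _).2 ⟨p, by omega, fun i hi => ?_⟩)
    split_ifs with e1 e2 e3
    · rw [e1, ← hp]; rfl
    · rw [show p + i = q by omega]; simp [df, q5, q6]
    · rw [show p + i = r by omega]; simp [df, e, r5]
    · rcases lt_or_gt_of_ne e2 with e2 | e2
      · simp [df, q4 (p + i) (by omega) (by omega)]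
      · simp [df, r4 (p + i) (by omega) (by omega)]

theorem star {W : Finset (Fin t → Bool)} (hW : Avoids (DD g al) W) {u v : Fin t → Bool}
    (hu : u ∈ W) (hv : v ∈ W) {p : ℕ} (hg : g ≤ p) (ht : p + g < t)
    (hp : U u p ≠ U v p) (hl : ∀ n < p, U u n = U v n) :
    ∃ q, p < q ∧ q ≤ p + g ∧ al (q - p) = true ∧ U u q ≠ U u p ∧ U u q ≠ U v q ∧
      ∀ n ≤ p + g, n ≠ p → n ≠ q → U u n = U v n := by
  have ne : u ≠ v := fun e => hp (by rw [e])
  cases e : U u p
  · obtain ⟨q, a, b, c, d, f, h⟩ := star0 (hW v hv u hu ne.symm) (hW u hu v hv ne) hg ht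
      (by simpa [e] using hp) e fun n h => (hl n h).symm
    exact ⟨q, a, b, c, by simp [f], by simp [d, f], fun n x y z => (h n x y z).symm⟩
  · obtain ⟨q, a, b, c, d, f, h⟩ := star0 (hW u hu v hv ne) (hW v hv u hu ne.symm) hg ht
      e (by simpa [e] using hp) hl
    exact ⟨q, a, b, c, by simp [d], by simp [d, f], h⟩

theorem Avoids.sub {D : List Pat} {W W' : Finset (Fin t → Bool)} (h : Avoids D W) (s : W' ⊆ W) :
    Avoids D W' := fun u hu v hv => h u (s hu) v (s hv)

theorem card_pow (W : Finset (Fin t → Bool)) (s c : ℕ) (h : t ≤ s + c)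
    (hs : ∀ u ∈ W, ∀ v ∈ W, ∀ n < s, U u n = U v n) : #W ≤ 2 ^ c := by
  have := card_le_card_of_injOn (s := W) (t := univ) (fun u (i : Fin c) => U u (s + i))
    (fun _ _ => mem_univ _) fun u hu v hv e => ext_U fun n hn => by
      by_cases h' : n < s
      · exact hs u hu v hv n h'
      · have := congrFun e ⟨n - s, by omega⟩
        simpa [show s + (n - s) = n by omega] using this
  simpa using this

theorem b3' {a b c : Bool} (h1 : a ≠ c) (h2 : b ≠ c) : a = b := by
  revert a b c; decide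

theorem split {W : Finset (Fin t → Bool)} (hW : Avoids (DD g al) W) {p : ℕ} (hg : g ≤ p)
    (ht : p + 2 * g < t) (hl : ∀ u ∈ W, ∀ v ∈ W, ∀ n < p, U u n = U v n)
    (hp : ∃ u ∈ W, ∃ v ∈ W, U u p ≠ U v p) : ∃ φ : (Fin t → Bool) → ℕ,
      (∀ u ∈ W, ∀ v ∈ W, φ u = φ v → ∀ n ≤ p + g, U u n = U v n) ∧
      ∀ u ∈ W, ∀ v ∈ W, φ u < φ v → al (φ v - φ u) = true := by
  classical
  have hq := fun u (hu : u ∈ W) v (hv : v ∈ W) (h : U u p ≠ U v p) =>
    star hW hu hv hg (by omega) h (hl u hu v hv)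
  obtain ⟨c, hc, hc'⟩ : ∃ c ∈ W, ∀ w ∈ W, U w p = U c p → ∀ n ≤ p + g, U w n = U c n := by
    by_contra! h
    obtain ⟨u, hu, v, hv, huv⟩ := hp
    obtain ⟨u', hu', a1, n, a2, a3⟩ := h u hu
    obtain ⟨v', hv', b1, m, b2, b3⟩ := h v hv
    obtain ⟨q1, -, c1, -, c2, c3, c4⟩ := hq u hu v hv huv
    obtain ⟨q2, -, d1, -, d2, d3, d4⟩ := hq u' hu' v hv (by rwa [a1])
    obtain ⟨q3, -, e1, -, e2, e3, e4⟩ := hq u hu v' hv' (by rwa [b1])
    obtain ⟨q4, -, f1, -, f2, f3, f4⟩ := hq u' hu' v' hv' (by rwa [a1, b1])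
    clear hq h hl
    have k0 : q1 ≠ p := fun e => c2 (by rw [e])
    have k1 : q1 ≠ q2 := by
      rintro rfl
      by_cases e : n = q1
      · exact a3 (e ▸ b3' d3 c3)
      · have k : n ≠ p := fun e => a3 (e ▸ a1)
        exact a3 ((d4 n a2 k e).trans (c4 n a2 k e).symm)
    have k2 : q1 ≠ q3 := by
      rintro rfl
      by_cases e : m = q1
      · exact b3 (e ▸ b3' e3.symm c3.symm)
      · have k : m ≠ p := fun e => b3 (e ▸ b1)
        exact b3 ((e4 m b2 k e).symm.trans (c4 m b2 k e))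
    have l1 := d4 q1 c1 k0 k1
    have l2 := e4 q1 c1 k0 k2
    by_cases e : q1 = q4
    · subst e
      exact c3 ((b3' c2 (a1 ▸ f2)).trans l1)
    · exact c3 (l2.trans ((f4 q1 c1 k0 e).symm.trans l1))
  choose! q q1 q2 q3 q4 q5 q6 using hq c hc
  refine ⟨fun w => if U c p = U w p then p else q w, ?_, ?_⟩
  · intro u hu v hv e n hn
    simp only at e
    split_ifs at e with e1 e2 e2
    · rw [hc' u hu e1.symm n hn, hc' v hv e2.symm n hn]
    · have := q1 v hv e2; omega
    · have := q1 u hu e1; omega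
    · by_cases k1 : n = p
      · exact k1 ▸ b3' (Ne.symm e1) (Ne.symm e2)
      by_cases k2 : n = q u
      · exact k2 ▸ b3' (q5 u hu e1).symm (e ▸ (q5 v hv e2).symm)
      · exact (q6 u hu e1 n hn k1 k2).symm.trans (q6 v hv e2 n hn k1 (e ▸ k2))
  · intro u hu v hv e
    simp only at e ⊢
    split_ifs at e ⊢ with e1 e2 e2
    · omega
    · have := q1 u hu e2; omega
    · exact q3 v hv e1
    · have a1 := q1 u hu e2
      have a2 := q2 v hv e1
      obtain ⟨r, r1, r2, r3, -, r5, r6⟩ := star hW hu hv (p := q u) (by omega) (by omega)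
        (q6 v hv e1 (q u) (by omega) (by omega) (by omega) ▸ (q5 u hu e2).symm)
        (fun n hn => by
          by_cases k1 : n = p
          · exact k1 ▸ b3' (Ne.symm e2) (Ne.symm e1)
          · exact (q6 u hu e2 n (by omega) k1 (by omega)).symm.trans
              (q6 v hv e1 n (by omega) k1 (by omega)))
      have : q v = r := by
        by_contra k
        exact q5 v hv e1 ((q6 u hu e2 (q v) a2 (by omega) (by omega)).trans
          (r6 (q v) (by omega) (by omega) k))
      rwa [this]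

theorem upper (β : ℕ) (hβ1 : 1 ≤ β)
    (hβ : ∀ P : Finset ℕ, (∀ x ∈ P, ∀ y ∈ P, x < y → al (y - x) = true) → #P ≤ β) (m : ℕ) :
    ∀ (W : Finset (Fin t → Bool)) (s : ℕ), Avoids (DD g al) W → g ≤ s → t ≤ s + m * g + 2 * g →
      (∀ u ∈ W, ∀ v ∈ W, ∀ n < s, U u n = U v n) → #W ≤ β ^ m * 2 ^ (2 * g) := by
  classical
  induction m with
  | zero => exact fun W s _ _ h hs => by simpa using card_pow W s _ (by omega) hs
  | succ m ih =>
    intro W s hW hg ht hs
    have easy : ∀ p, t ≤ p + 2 * g → (∀ u ∈ W, ∀ v ∈ W, ∀ n < p, U u n = U v n) →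
        #W ≤ β ^ (m + 1) * 2 ^ (2 * g) := fun p h h' =>
      (card_pow W p _ h h').trans (Nat.le_mul_of_pos_left _ (by positivity))
    by_cases ex : ∃ p, ∃ u ∈ W, ∃ v ∈ W, U u p ≠ U v p
    swap
    · push Not at ex
      exact easy t (by omega) fun u hu v hv n _ => ex n u hu v hv
    have h1 : ∀ u ∈ W, ∀ v ∈ W, ∀ n < Nat.find ex, U u n = U v n := fun u hu v hv n hn => by
      by_contra e
      exact Nat.find_min ex hn ⟨u, hu, v, hv, e⟩
    have h2 : s ≤ Nat.find ex := by
      obtain ⟨u, hu, v, hv, e⟩ := Nat.find_spec ex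
      by_contra h
      exact e (hs u hu v hv _ (by omega))
    by_cases h3 : t ≤ Nat.find ex + 2 * g
    · exact easy _ h3 h1
    obtain ⟨φ, a, b⟩ := split hW (hg.trans h2) (by omega) h1 (Nat.find_spec ex)
    have h4 := card_le_mul_card_image (f := φ) W (β ^ m * 2 ^ (2 * g)) fun x _ =>
      ih _ (Nat.find ex + g) (hW.sub (filter_subset _ _)) (by omega)
        (by rw [Nat.succ_mul] at ht; omega) fun u hu v hv n hn =>
          a u (mem_filter.1 hu).1 v (mem_filter.1 hv).1
            ((mem_filter.1 hu).2.trans (mem_filter.1 hv).2.symm) n hn.le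
    have h5 := hβ (W.image φ) fun x hx y hy hxy => by
      obtain ⟨u, hu, rfl⟩ := mem_image.1 hx
      obtain ⟨v, hv, rfl⟩ := mem_image.1 hy
      exact b u hu v hv hxy
    calc #W ≤ β ^ m * 2 ^ (2 * g) * β := h4.trans (Nat.mul_le_mul_left _ h5)
      _ = _ := by ring

theorem upper' (β : ℕ) (hβ1 : 1 ≤ β) (hg : 0 < g)
    (hβ : ∀ P : Finset ℕ, (∀ x ∈ P, ∀ y ∈ P, x < y → al (y - x) = true) → #P ≤ β)
    (W : Finset (Fin t → Bool)) (hW : Avoids (DD g al) W) : #W ≤ β ^ (t / g) * 2 ^ (3 * g) := by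
  classical
  have h4 := card_le_mul_card_image (f := fun u (i : Fin g) => U u i) W (β ^ (t / g) * 2 ^ (2 * g))
    fun x _ => upper β hβ1 hβ (t / g) _ g (hW.sub (filter_subset _ _)) le_rfl
      (by have := Nat.lt_div_mul_add (a := t) hg; omega) fun u hu v hv n hn =>
        congrFun ((mem_filter.1 hu).2.trans (mem_filter.1 hv).2.symm) ⟨n, hn⟩
  have h5 : #(W.image fun u (i : Fin g) => U u i) ≤ 2 ^ g :=
    (card_le_univ _).trans (by simp)
  calc #W ≤ β ^ (t / g) * 2 ^ (2 * g) * 2 ^ g := h4.trans (Nat.mul_le_mul_left _ h5)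
    _ = _ := by ring

end Pool.Agent.H16.Cap
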