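import Pool.Agent.H16.Cap1

set_option autoImplicit false

namespace Pool.Agent.H16.Cap
open Finset Filter

variable {g L : ℕ} {al : ℕ → Bool}

theorem same_block {B p q : ℕ} (hB : B = g + L) (h1 : p ≤ q) (h2 : q ≤ p + g) (h3 : p % B < L) :
    p / B = q / B := by
  have a := Nat.div_add_mod p B
  have b := Nat.div_add_mod q B
  have c := Nat.div_le_div_right (c := B) h1
  by_contra e
  have := Nat.mul_le_mul_left B (show p / B + 1 ≤ q / B by omega)
  rw [Nat.mul_succ] at this
  omega

theorem bddA (D : List Pat) (t : ℕ) :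
    BddAbove {n | ∃ W : Finset (Fin t → Bool), Avoids D W ∧ W.card = n} :=
  ⟨2 ^ t, by rintro n ⟨W, -, rfl⟩; exact (card_le_univ _).trans (by simp)⟩

theorem delta_spec (D : List Pat) (t : ℕ) :
    ∃ W : Finset (Fin t → Bool), Avoids D W ∧ W.card = delta D t :=
  Nat.sSup_mem (s := {n | ∃ W : Finset (Fin t → Bool), Avoids D W ∧ W.card = n})
    ⟨0, ∅, by simp [Avoids], rfl⟩ (bddA D t)

theorem lower (hL : L ≤ g) (P : Finset ℕ) (h1 : ∀ x ∈ P, x < L)
    (h2 : ∀ x ∈ P, ∀ y ∈ P, x < y → al (y - x) = true) (m : ℕ) :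
    #P ^ m ≤ delta (DD g al) (m * (g + L)) := by
  classical
  obtain ⟨B, hB⟩ : ∃ B, B = g + L := ⟨_, rfl⟩
  rw [← hB]
  let E : (Fin m → ℕ) → ℕ → ℕ := fun F j => if h : j < m then F ⟨j, h⟩ else 0
  let w : (Fin m → ℕ) → Fin (m * B) → Bool := fun F n => decide (n.val % B = E F (n.val / B))
  have hU : ∀ F n, n < m * B → U (w F) n = decide (n % B = E F (n / B)) := fun F n h => by
    simp [U, h, w]
  have hE : ∀ F ∈ Fintype.piFinset (fun _ : Fin m => P), ∀ j < m, E F j ∈ P := fun F hF j h => by
    simp only [E, dif_pos h]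
    exact Fintype.mem_piFinset.1 hF _
  have dm : ∀ j x, x < L → (B * j + x) / B = j ∧ (B * j + x) % B = x := fun j x h =>
    ⟨by rw [Nat.mul_add_div (by omega), Nat.div_eq_of_lt (by omega)]; rfl,
      by rw [Nat.mul_add_mod, Nat.mod_eq_of_lt (by omega)]⟩
  refine le_csSup (bddA _ _) ⟨(Fintype.piFinset fun _ : Fin m => P).image w, ?_, ?_⟩
  · intro u hu v hv _ d hd
    obtain ⟨F, hF, rfl⟩ := mem_image.1 hu
    obtain ⟨G, hG, rfl⟩ := mem_image.1 hv
    rw [diff_eq]
    have k : ∀ n < m * B, ∀ b, some b = df (w F) (w G) n → n / B < m ∧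
        E F (n / B) ≠ E G (n / B) ∧ n % B = if b then E F (n / B) else E G (n / B) := by
      intro n hn b h
      refine ⟨Nat.div_lt_of_lt_mul (by rwa [mul_comm]), ?_⟩
      simp only [df, hU _ n hn] at h
      split_ifs at h with e
      cases b <;> simp at h e ⊢ <;> grind
    intro hocc
    rcases mem_DD.1 hd with rfl | ⟨d, d0, d1, rfl | ⟨d2, rfl⟩ | ⟨e, e0, e1, rfl⟩⟩ <;>
      obtain ⟨s, s1, s2⟩ := (occ _ _ _).1 hocc
    · obtain ⟨a, b, c⟩ := k (s + g) (by omega) true (by simpa using s2 g (by omega))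
      have x1 := h1 _ (hE F hF _ a)
      have x2 := h1 _ (hE G hG _ a)
      have x3 := Nat.div_add_mod (s + g) B
      simp only [if_true] at c
      obtain ⟨y1, y2⟩ := dm ((s + g) / B) _ x2
      have := s2 (B * ((s + g) / B) + E G ((s + g) / B) - s) (by omega)
      rw [if_neg (by omega), show s + (B * ((s + g) / B) + E G ((s + g) / B) - s) =
        B * ((s + g) / B) + E G ((s + g) / B) by omega, df, hU _ _ (by omega), hU _ _ (by omega),
        y1, y2] at this
      simp [b.symm] at this
    · obtain ⟨a, b, c⟩ := k s (by omega) true (by simpa using s2 0 (by omega))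
      obtain ⟨a', b', c'⟩ := k (s + d) (by omega) true (by simpa [d0.ne'] using s2 d (by omega))
      simp only [if_true] at c c'
      have x1 := h1 _ (hE F hF _ a)
      have := same_block hB (Nat.le_add_right s d) (by omega) (by omega)
      have x3 := Nat.div_add_mod s B
      have x4 := Nat.div_add_mod (s + d) B
      rw [← this] at c' x4
      omega
    · obtain ⟨a, b, c⟩ := k s (by omega) true (by simpa using s2 0 (by omega))
      obtain ⟨a', b', c'⟩ := k (s + d) (by omega) false (by simpa [d0.ne'] using s2 d (by omega))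
      simp only [if_true, Bool.false_eq_true, if_false] at c c'
      have x1 := h1 _ (hE F hF _ a)
      have := same_block hB (Nat.le_add_right s d) (by omega) (by omega)
      have x3 := Nat.div_add_mod s B
      have x4 := Nat.div_add_mod (s + d) B
      rw [← this] at c' x4
      have x5 := h2 _ (hE F hF _ a) _ (hE G hG _ a) (by omega)
      rw [show E G (s / B) - E F (s / B) = d by omega, d2] at x5
      exact absurd x5 (by simp)
    · obtain ⟨a, b, c⟩ := k s (by omega) true (by simpa using s2 0 (by omega))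
      obtain ⟨a', b', c'⟩ := k (s + d) (by omega) false (by simpa [d0.ne'] using s2 d (by omega))
      obtain ⟨a'', b'', c''⟩ := k (s + (d + e)) (by omega) true
        (by simpa [d0.ne', e0.ne'] using s2 (d + e) (by omega))
      simp only [if_true, Bool.false_eq_true, if_false] at c c' c''
      have x1 := h1 _ (hE F hF _ a)
      have x2 := h1 _ (hE G hG _ a')
      have z1 := same_block hB (Nat.le_add_right s d) (by omega) (by omega)
      have z2 := same_block (p := s + d) (q := s + (d + e)) hB (by omega) (by omega) (by omega)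
      have x3 := Nat.div_add_mod s B
      have x4 := Nat.div_add_mod (s + (d + e)) B
      rw [← z2, ← z1] at c'' x4
      omega
  · rw [card_image_of_injOn, Fintype.card_piFinset_const]
    intro F hF G hG e
    funext j
    have x1 := h1 _ (hE F hF _ j.2)
    obtain ⟨y1, y2⟩ := dm j _ x1
    have : B * j + E F j < m * B := by
      have := Nat.mul_le_mul_left B (show j.val + 1 ≤ m from j.2)
      rw [Nat.mul_succ, mul_comm B m] at this
      omega
    have h := congrArg (U · (B * j + E F j)) e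
    simp only [hU _ _ this, y1, y2] at h
    simpa [E] using h

theorem logb_le {x : ℕ} {y : ℝ} (hy : 1 ≤ y) (h : (x : ℝ) ≤ y) : Real.logb 2 x ≤ Real.logb 2 y := by
  rcases Nat.eq_zero_or_pos x with rfl | hx
  · simpa using Real.logb_nonneg one_lt_two hy
  · exact Real.logb_le_logb_of_le one_lt_two (by exact_mod_cast hx) h

theorem u_bdd (D : List Pat) (t : ℕ) :
    0 ≤ Real.logb 2 (delta D t) / t ∧ Real.logb 2 (delta D t) / t ≤ 1 := by
  constructor
  · exact div_nonneg (div_nonneg (Real.log_natCast_nonneg _) (Real.log_nonneg one_le_two))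
      (Nat.cast_nonneg _)
  · obtain ⟨W, -, h⟩ := delta_spec D t
    have h1 : delta D t ≤ 2 ^ t := h ▸ (card_le_univ _).trans (by simp)
    have h2 := logb_le (x := delta D t) (y := 2 ^ t) (one_le_pow₀ one_le_two) (by exact_mod_cast h1)
    rw [Real.logb_pow, Real.logb_self_eq_one one_lt_two, mul_one] at h2
    exact div_le_one_of_le₀ h2 (Nat.cast_nonneg _)

theorem cap_ge (D : List Pat) (s B : ℕ) (hB : 0 < B) (h : ∀ m, (2 ^ s) ^ m ≤ delta D (m * B)) :
    (s : ℝ) / B ≤ cap D := by
  refine le_limsup_of_frequently_le (frequently_atTop.2 fun T => ⟨(T + 1) * B, by nlinarith, ?_⟩)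
    (isBoundedUnder_of ⟨1, fun t => (u_bdd D t).2⟩)
  have h1 : Real.logb 2 ((2 ^ s) ^ (T + 1) : ℕ) ≤ Real.logb 2 (delta D ((T + 1) * B)) :=
    Real.logb_le_logb_of_le one_lt_two (by positivity) (by exact_mod_cast h (T + 1))
  push_cast at h1 ⊢
  rw [Real.logb_pow, Real.logb_pow, Real.logb_self_eq_one one_lt_two] at h1
  have hB' : (0 : ℝ) < B := by exact_mod_cast hB
  rw [div_le_div_iff₀ hB' (by positivity)]
  push_cast at h1
  nlinarith

theorem cap_le (D : List Pat) (β g : ℕ) (hβ : 1 ≤ β) (hg : 0 < g)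
    (h : ∀ t, delta D t ≤ β ^ (t / g) * 2 ^ (3 * g)) : cap D ≤ Real.logb 2 β / g := by
  have hβ' : (1 : ℝ) ≤ β := by exact_mod_cast hβ
  have hg' : (0 : ℝ) < g := by exact_mod_cast hg
  have h0 : Tendsto (fun t : ℕ => Real.logb 2 β / g + (3 * g : ℝ) / t) atTop
      (nhds (Real.logb 2 β / g)) := by
    simpa using (tendsto_const_div_atTop_nhds_zero_nat (3 * g : ℝ)).const_add (Real.logb 2 β / g)
  rw [← h0.limsup_eq]
  refine limsup_le_limsup ((eventually_gt_atTop 0).mono fun t ht => ?_)
    (isCoboundedUnder_le_of_le atTop fun t => (u_bdd D t).1) h0.isBoundedUnder_le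
  have ht' : (0 : ℝ) < t := by exact_mod_cast ht
  have h1 := logb_le (x := delta D t) (y := β ^ (t / g) * 2 ^ (3 * g))
    (one_le_mul_of_one_le_of_one_le (one_le_pow₀ hβ') (one_le_pow₀ one_le_two))
    (by exact_mod_cast h t)
  rw [Real.logb_mul (by positivity) (by positivity), Real.logb_pow, Real.logb_pow,
    Real.logb_self_eq_one one_lt_two] at h1
  have h2 : ((t / g : ℕ) : ℝ) ≤ t / g := Nat.cast_div_le
  have h3 := Real.logb_nonneg one_lt_two hβ'
  show _ / _ ≤ _
  rw [div_le_iff₀ ht', add_mul, div_mul_cancel₀ _ ht'.ne']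
  push_cast at h1
  have := mul_le_mul_of_nonneg_right h2 h3
  have e : Real.logb 2 β / g * t = t / g * Real.logb 2 β := by ring
  linarith

theorem gap (s L K : ℕ) (hK : K + 1 = 2 ^ s) (h1 : 1 ≤ K) :
    Real.logb 2 K / ((K + 1) * (s * L + 1) : ℕ) < (s : ℝ) / ((K + 1) * (s * L + 1) + L : ℕ) := by
  have hK' : (1 : ℝ) ≤ K := by exact_mod_cast h1
  have e : (K : ℝ) + 1 = 2 ^ s := by exact_mod_cast hK
  have l2 : 0 < Real.log 2 := Real.log_pos one_lt_two
  have l3 : Real.log 2 < 1 := by have := Real.log_two_lt_d9; linarith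
  have a1 : Real.log K ≤ s * Real.log 2 - 1 / (K + 1) := by
    have := Real.log_le_sub_one_of_pos (x := (K : ℝ) / (K + 1)) (by positivity)
    rw [Real.log_div (by positivity) (by positivity), e, Real.log_pow, ← e] at this
    have e2 : (K : ℝ) / (K + 1) - 1 = -(1 / (K + 1)) := by field_simp; ring
    linarith
  push_cast
  rw [div_lt_div_iff₀ (by positivity) (by positivity), Real.logb, div_mul_eq_mul_div,
    div_lt_iff₀ l2]
  have a2 := mul_le_mul_of_nonneg_right a1
    (show (0 : ℝ) ≤ (K + 1) * (s * L + 1) + L by positivity)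
  have e3 : 1 / ((K : ℝ) + 1) * ((K + 1) * (s * L + 1) + L) = s * L + 1 + L / (K + 1) := by
    field_simp
  have a3 : (0 : ℝ) ≤ L / (K + 1) := by positivity
  have a4 : (s : ℝ) * L * Real.log 2 ≤ s * L := mul_le_of_le_one_right (by positivity) l3.le
  rw [sub_mul, e3] at a2
  nlinarith

end Pool.Agent.H16.Cap
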