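import Pool.Agent.H16.Cap2
import Pool.Agent.H25.CBase

set_option autoImplicit false

namespace Pool.Agent.H16.Cap
open Finset Pool.Agent.H11.PT Pool.Agent.H25.CB

def ru (N i : ℕ) : ℕ := i + (3 * N * N + 1) * (i * i + (3 * N * N + 1) * (i * i * i))

theorem dig {Q x y x' y' : ℕ} (h : x + Q * y = x' + Q * y') (h1 : x < Q) (h2 : x' < Q) :
    x = x' ∧ y = y' := by
  have a := congrArg (· % Q) h
  simp only [Nat.add_mul_mod_self_left, Nat.mod_eq_of_lt h1, Nat.mod_eq_of_lt h2] at a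
  subst a
  exact ⟨rfl, Nat.eq_of_mul_eq_mul_left (by omega) (Nat.add_left_cancel h)⟩

theorem ru_lt (N : ℕ) {i j : ℕ} (h : i < j) : ru N i < ru N j := by
  unfold ru
  have := h.le
  gcongr

theorem two {a b d e : ℤ} (h1 : a + b = d + e) (h2 : a * a + b * b = d * d + e * e) :
    a = d ∨ a = e := by
  have : (a - d) * (a - e) = 0 := by
    obtain rfl : e = a + b - d := by omega
    linarith
  rcases mul_eq_zero.1 this with h | h <;> omega

theorem chain {N i j k l m n : ℕ} (h1 : i < j) (h2 : k < l) (h3 : m < n) (hj : j < N) (hl : l < N)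
    (hn : n < N) (h : ru N j + ru N l + ru N m = ru N i + ru N k + ru N n) :
    (j = k ∧ m = i ∧ n = l) ∨ (j = n ∧ l = i ∧ m = k) := by
  have b1 : ∀ x < N, x ≤ N * N ∧ x * x ≤ N * N := fun x hx => by constructor <;> nlinarith
  have := b1 i (by omega); have := b1 j hj; have := b1 k (by omega); have := b1 l hl
  have := b1 m (by omega); have := b1 n hn
  have e : 3 * N * N = 3 * (N * N) := by ring
  obtain ⟨s1, s2⟩ := dig (Q := 3 * N * N + 1) (x := j + l + m) (x' := i + k + n)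
    (y := j * j + l * l + m * m + (3 * N * N + 1) * (j * j * j + l * l * l + m * m * m))
    (y' := i * i + k * k + n * n + (3 * N * N + 1) * (i * i * i + k * k * k + n * n * n))
    (by unfold ru at h; linarith) (by omega) (by omega)
  obtain ⟨s2, s3⟩ := dig s2 (by omega) (by omega)
  zify at s1 s2 s3
  have : ((j : ℤ) - i) * ((j - k) * (j - n)) = 0 := by
    have e : (n : ℤ) = j + l + m - i - k := by omega
    rw [e] at s2 s3 ⊢
    have : 6 * (((j : ℤ) - i) * ((j - k) * (j - (j + l + m - i - k)))) = 0 := by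
      linear_combination -(l + m : ℤ) * 3 * s2 + 2 * s3
    omega
  rcases mul_eq_zero.1 this with h | h
  · omega
  rcases mul_eq_zero.1 h with h | h
  · obtain rfl : j = k := by omega
    have := two (a := l) (b := m) (d := i) (e := n) (by omega) (by omega)
    omega
  · obtain rfl : j = n := by omega
    have := two (a := l) (b := m) (d := i) (e := k) (by omega) (by omega)
    omega

def alw (N : ℕ) (E : List (ℕ × ℕ)) (d : ℕ) : Bool :=
  (List.range N).any fun i => (List.range N).any fun j =>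
    decide (i < j ∧ ¬ (i, j) ∈ E ∧ ru N i + d = ru N j)

theorem alw_iff {N : ℕ} {E : List (ℕ × ℕ)} {d : ℕ} : alw N E d = true ↔
    ∃ i j, j < N ∧ i < j ∧ (i, j) ∉ E ∧ ru N i + d = ru N j := by
  simp only [alw, List.any_eq_true, List.mem_range, decide_eq_true_eq]
  exact ⟨fun ⟨i, _, j, h⟩ => ⟨i, j, h⟩, fun ⟨i, j, h⟩ => ⟨i, by omega, j, h⟩⟩

theorem extract {N : ℕ} {E : List (ℕ × ℕ)} (hE : ∀ e ∈ E, e.1 < e.2) (P : Finset ℕ) (h2 : 2 ≤ #P)
    (hP : ∀ x ∈ P, ∀ y ∈ P, x < y → alw N E (y - x) = true) :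
    ∃ I : Finset ℕ, (∀ v ∈ I, v < N) ∧ #P ≤ #I ∧ ∀ e ∈ E, ¬ (e.1 ∈ I ∧ e.2 ∈ I) := by
  have hne : P.Nonempty := card_pos.1 (by omega)
  let p := P.min' hne
  have hp : ∀ x ∈ P.erase p, x ∈ P ∧ p < x := fun x hx =>
    ⟨mem_of_mem_erase hx, lt_of_le_of_ne (P.min'_le x (mem_of_mem_erase hx)) (ne_of_mem_erase hx).symm⟩
  have hc : #(P.erase p) + 1 = #P := card_erase_add_one (P.min'_mem hne)
  choose! i j a1 a2 a3 a4 using fun x hx => alw_iff.1 (hP p (P.min'_mem hne) x (hp x hx).1 (hp x hx).2)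
  let NA : ℕ → ℕ → Prop := fun u v => u ≠ v ∧ (u, v) ∉ E ∧ (v, u) ∉ E
  have na : ∀ u v, u < v → (u, v) ∉ E → NA u v ∧ NA v u := fun u v h h' =>
    have : (v, u) ∉ E := fun e => by have := hE _ e; simp only at this; omega
    ⟨⟨h.ne, h', this⟩, h.ne', this, h'⟩
  have key : ∀ x ∈ P.erase p, ∀ y ∈ P.erase p, x ≠ y →
      (i x = i y ∧ NA (j x) (j y)) ∨ (j x = j y ∧ NA (i x) (i y)) := by
    have : ∀ x ∈ P.erase p, ∀ y ∈ P.erase p, x < y → (i x = i y ∧ NA (j x) (j y) ∧ NA (j y) (j x)) ∨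
        (j x = j y ∧ NA (i y) (i x) ∧ NA (i x) (i y)) := by
      intro x hx y hy h
      obtain ⟨k, l, b1, b2, b3, b4⟩ := alw_iff.1 (hP x (hp x hx).1 y (hp y hy).1 h)
      have := a4 x hx; have := a4 y hy; have := (hp x hx).2
      rcases chain (a2 x hx) b2 (a2 y hy) (a1 x hx) b1 (a1 y hy) (by omega) with
        ⟨c1, c2, c3⟩ | ⟨c1, c2, c3⟩
      · exact Or.inl ⟨c2.symm, by rw [c1, c3]; exact na _ _ b2 b3⟩
      · exact Or.inr ⟨c1, by rw [c3, ← c2]; exact na _ _ b2 b3⟩
    intro x hx y hy h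
    rcases lt_or_gt_of_ne h with h | h
    · exact (this x hx y hy h).imp (fun h => ⟨h.1, h.2.1⟩) fun h => ⟨h.1, h.2.2⟩
    · exact (this y hy x hx h).imp (fun h => ⟨h.1.symm, h.2.2⟩) fun h => ⟨h.1.symm, h.2.1⟩
  have fin : ∀ (c : ℕ) (h : ℕ → ℕ), c < N → (∀ x ∈ P.erase p, h x < N ∧ NA c (h x)) →
      (∀ x ∈ P.erase p, ∀ y ∈ P.erase p, x ≠ y → NA (h x) (h y)) →
      ∃ I : Finset ℕ, (∀ v ∈ I, v < N) ∧ #P ≤ #I ∧ ∀ e ∈ E, ¬ (e.1 ∈ I ∧ e.2 ∈ I) := by
    intro c h c1 c2 c3
    refine ⟨insert c ((P.erase p).image h), ?_, ?_, ?_⟩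
    · simp only [mem_insert, mem_image]
      rintro v (rfl | ⟨x, hx, rfl⟩)
      · exact c1
      · exact (c2 x hx).1
    · rw [card_insert_of_notMem, card_image_of_injOn, hc]
      · intro x hx y hy e
        by_contra e'
        exact (c3 x hx y hy e').1 e
      · simp only [mem_image]
        rintro ⟨x, hx, e⟩
        exact (c2 x hx).2.1 e.symm
    · rintro ⟨u, v⟩ he
      have := hE _ he
      simp only [mem_insert, mem_image] at this ⊢
      rintro ⟨rfl | ⟨x, hx, rfl⟩, rfl | ⟨y, hy, rfl⟩⟩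
      · omega
      · exact (c2 y hy).2.2.1 he
      · exact (c2 x hx).2.2.2 he
      · exact (c3 x hx y hy fun e => by rw [e] at this; omega).2.1 he
  obtain ⟨x0, h0⟩ : (P.erase p).Nonempty := card_pos.1 (by omega)
  by_cases h : ∀ x ∈ P.erase p, i x = i x0
  · refine fin (i x0) j ((a2 x0 h0).trans (a1 x0 h0))
      (fun x hx => ⟨a1 x hx, h x hx ▸ (na _ _ (a2 x hx) (a3 x hx)).1⟩) fun x hx y hy e => ?_
    rcases key x hx y hy e with k | k
    · exact k.2
    · exact absurd ((h x hx).trans (h y hy).symm) k.2.1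
  · push Not at h
    obtain ⟨y0, h1, h3⟩ := h
    have h4 : j y0 = j x0 := ((key y0 h1 x0 h0 fun e => h3 (by rw [e])).resolve_left
      fun k => h3 k.1).1
    have h : ∀ x ∈ P.erase p, j x = j x0 := fun x hx => by
      by_contra e
      have e1 := ((key x hx x0 h0 fun e' => e (by rw [e'])).resolve_right fun k => e k.1).1
      have e2 := ((key x hx y0 h1 fun e' => e (by rw [e', h4])).resolve_right
        fun k => e (k.1.trans h4)).1
      exact h3 (e2.symm.trans e1)
    refine fin (j x0) i (a1 x0 h0) (fun x hx => ⟨(a2 x hx).trans (a1 x hx),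
      h x hx ▸ (na _ _ (a2 x hx) (a3 x hx)).2⟩) fun x hx y hy e => ?_
    rcases key x hx y hy e with k | k
    · exact absurd ((h x hx).trans (h y hy).symm) k.2.1
    · exact k.2

def pw (k : ℕ) : ℕ × ℕ := (fun p : ℕ × ℕ => if p.2 < k then (p.1 + 1, p.2 + p.2) else p)^[k] (0, 1)

theorem pw_spec (k : ℕ) : (pw k).2 = 2 ^ (pw k).1 ∧ k ≤ (pw k).2 := by
  have : ∀ n, let q := (fun p : ℕ × ℕ => if p.2 < k then (p.1 + 1, p.2 + p.2) else p)^[n] (0, 1)
      q.2 = 2 ^ q.1 ∧ (k ≤ q.2 ∨ n < q.2) := by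
    intro n
    induction n with
    | zero => simp
    | succ n ih =>
      simp only [Function.iterate_succ_apply'] at ih ⊢
      split_ifs with h
      · simp only [pow_succ]; omega
      · omega
  have := this k
  unfold pw
  simp only at this
  omega

@[fun_prop] theorem pw_pt {α : Type} [Enc α] {f : α → ℕ} (hf : PT f) : PT fun x => pw (f x) :=
  PT.iterate_add (g := fun x (p : ℕ × ℕ) => if p.2 < f x then (p.1 + 1, p.2 + p.2) else p)
    hf (by fun_prop) (by fun_prop) f 2 hf fun x c => by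
      obtain ⟨a, b⟩ := c
      split_ifs <;> simp at * <;> omega

@[fun_prop] theorem toBits_pt {α : Type} [Enc α] {f : α → ℕ} (hf : PT f) :
    PT fun x => toBits (f x) := hf.toBits

abbrev I3 := ℕ × List (ℕ × ℕ) × ℕ

def NN (y : I3) : ℕ := y.1 + ((pw (y.2.2 + 2)).2 - y.2.2)
def GG (y : I3) : ℕ := (pw (y.2.2 + 2)).2 * ((pw (y.2.2 + 2)).1 * ru (NN y) (NN y) + 1)

def red (y : I3) : List Pat × List Bool × List Bool :=
  (DD (GG y) (alw (NN y) y.2.1), toBits (pw (y.2.2 + 2)).1, toBits (GG y + ru (NN y) (NN y)))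

theorem red_pt : PT red := by
  have h1 : PT NN := by unfold NN; fun_prop
  have h2 : PT GG := by unfold GG ru; fun_prop
  unfold red DD p1 p2 p3 alw ru
  fun_prop

theorem hard : HardFor InNP (fun y : List Pat × List Bool × List Bool => y.1 ≠ [] ∧ 0 < bin y.2.2)
    fun y => (bin y.2.1 : ℝ) / bin y.2.2 ≤ cap y.1 := by
  refine hard_IS.red red red_pt fun y hy => ?_
  obtain ⟨n, E, k⟩ := y
  obtain ⟨h1, h2⟩ := pw_spec (k + 2)
  simp only [red, bin, ofDigits_toBits, IS, GG, NN]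
  generalize (pw (k + 2)).1 = s at *
  generalize (pw (k + 2)).2 = K at *
  obtain ⟨K, rfl⟩ : ∃ K', K = K' + 1 := ⟨K - 1, by omega⟩
  obtain ⟨N, hN⟩ : ∃ N, N = n + (K + 1 - k) := ⟨_, rfl⟩
  rw [← hN]
  have hs : 1 ≤ s := by
    rcases s with _ | s
    · omega
    · omega
  have hg : 0 < (K + 1) * (s * ru N N + 1) := by positivity
  refine ⟨⟨by simp [DD], by omega⟩, ?_, ?_⟩
  · rintro ⟨I, a1, a2, a3⟩
    have inj : Function.Injective (ru N) := (strictMono_nat_of_lt_succ fun n =>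
      ru_lt N n.lt_succ_self).injective
    have b1 : ∀ v ∈ I ∪ Ico n N, v < N := fun v hv => by
      rcases mem_union.1 hv with h | h
      · have := a1 v h; omega
      · exact (mem_Ico.1 h).2
    have b2 : K + 1 ≤ #((I ∪ Ico n N).image (ru N)) := by
      rw [card_image_of_injective _ inj, card_union_of_disjoint, Nat.card_Ico]
      · omega
      · exact disjoint_left.2 fun v h h' => by have := a1 v h; have := (mem_Ico.1 h').1; omega
    refine cap_ge _ _ _ (by omega) fun m => le_trans (Nat.pow_le_pow_left (h1 ▸ b2) m)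
      (lower (by nlinarith [Nat.le_mul_of_pos_left (ru N N) hs]) _ ?_ ?_ m)
    · intro x hx
      obtain ⟨v, hv, rfl⟩ := mem_image.1 hx
      exact ru_lt N (b1 v hv)
    · intro x hx y hy' h
      obtain ⟨u, hu, rfl⟩ := mem_image.1 hx
      obtain ⟨v, hv, rfl⟩ := mem_image.1 hy'
      refine alw_iff.2 ⟨u, v, b1 v hv, ?_, fun e => ?_, by omega⟩
      · by_contra e
        rcases (not_lt.1 e).eq_or_lt with e | e
        · rw [e] at h; omega
        · have := ru_lt N e; omega
      · have := hy.2 _ e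
        simp only [mem_union, mem_Ico] at this hu hv
        exact a3 _ e ⟨hu.resolve_right (by omega), hv.resolve_right (by omega)⟩
  · intro h
    by_contra hn
    have := cap_le (DD ((K + 1) * (s * ru N N + 1)) (alw N E)) K _ (by omega) hg fun t => by
      obtain ⟨W, hW, e⟩ := delta_spec (DD ((K + 1) * (s * ru N N + 1)) (alw N E)) t
      refine e ▸ upper' K (by omega) hg (fun P hP => ?_) W hW
      by_contra h3
      obtain ⟨I, a1, a2, a3⟩ := extract (fun e he => (hy.2 e he).1) P (by omega) hP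
      refine hn ⟨{v ∈ I | v < n}, fun v hv => (mem_filter.1 hv).2, ?_, fun e he h =>
        a3 e he ⟨(mem_filter.1 h.1).1, (mem_filter.1 h.2).1⟩⟩
      have c1 := card_filter_add_card_filter_not (s := I) (fun v => v < n)
      have c2 : #{v ∈ I | ¬ v < n} ≤ #(Ico n N) := card_le_card fun v hv =>
        mem_Ico.2 ⟨not_lt.1 (mem_filter.1 hv).2, a1 v (mem_filter.1 hv).1⟩
      rw [Nat.card_Ico] at c2
      omega
    exact absurd (h.trans this) (not_le.2 (gap s _ K h1 (by omega)))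

end Pool.Agent.H16.Cap
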