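import Pool.Agent.H11.GDefs

set_option autoImplicit false

namespace Pool.Agent.H16.Cap

/-- Letters of difference patterns: `none` is `0`, `some true` is `+`, `some false` is `-`. -/
abbrev Pat := List (Option Bool)

/-- The coordinatewise difference `u - v` of two binary words. -/
def diff {t : ℕ} (u v : Fin t → Bool) : Pat :=
  List.ofFn fun i => if u i = v i then none else some (u i)

/-- No pattern of `D` is a factor of a difference of two distinct words of `W`. -/
def Avoids {t : ℕ} (D : List Pat) (W : Finset (Fin t → Bool)) : Prop :=
  ∀ u ∈ W, ∀ v ∈ W, u ≠ v → ∀ d ∈ D, ¬ d <:+: diff u v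

/-- The largest size of a set of binary words of length `t` that avoids `D`. -/
noncomputable def delta (D : List Pat) (t : ℕ) : ℕ :=
  sSup {n | ∃ W : Finset (Fin t → Bool), Avoids D W ∧ W.card = n}

/-- The capacity of `D`. -/
noncomputable def cap (D : List Pat) : ℝ :=
  Filter.limsup (fun t : ℕ => Real.logb 2 (delta D t) / t) Filter.atTop

end Pool.Agent.H16.Cap
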