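import Pool.Agent.H16.AutFO

set_option autoImplicit false

namespace Pool.Agent.H16.CardFA
open Classical Pool.Agent.H16.AutFO

section Ladder
variable {X : Type}

def LR : ℕ → Set X → Set (Set X) → Prop
  | 0, _, F => F.Nonempty
  | d + 1, N, F => ∃ x ∈ N, LR d N {B | B ∈ F ∧ x ∈ B} ∧ LR d N {B | B ∈ F ∧ x ∉ B}

theorem LR.mono {d : ℕ} : ∀ {N N' : Set X} {F F' : Set (Set X)}, LR d N F → N ⊆ N' → F ⊆ F' →
    LR d N' F' := by
  induction d with
  | zero => intro N N' F F' h _ hF; exact Set.Nonempty.mono hF h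
  | succ d ih =>
    rintro N N' F F' ⟨x, hx, h1, h2⟩ hN hF
    exact ⟨x, hN hx, ih h1 hN fun B hB => ⟨hF hB.1, hB.2⟩, ih h2 hN fun B hB => ⟨hF hB.1, hB.2⟩⟩

theorem LR.nonempty {d : ℕ} : ∀ {N : Set X} {F : Set (Set X)}, LR d N F → F.Nonempty := by
  induction d with
  | zero => intro N F h; exact h
  | succ d ih =>
    rintro N F ⟨x, _, h1, _⟩
    obtain ⟨B, hB⟩ := ih h1
    exact ⟨B, hB.1⟩

theorem LR.ramsey (N1 N2 : Set X) : ∀ (d p q : ℕ) (F : Set (Set X)), d = p + q →
    LR d (N1 ∪ N2) F → LR p N1 F ∨ LR q N2 F := by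
  intro d
  induction d with
  | zero =>
    intro p q F e h
    have : p = 0 := by omega
    subst this
    exact Or.inl h
  | succ d ih =>
    intro p q F e h
    cases p with
    | zero => exact Or.inl h.nonempty
    | succ p =>
      cases q with
      | zero => exact Or.inr h.nonempty
      | succ q =>
        obtain ⟨x, hx, h1, h2⟩ := h
        rcases hx with hx | hx
        · rcases ih p (q + 1) _ (by omega) h1 with h3 | h3
          · rcases ih p (q + 1) _ (by omega) h2 with h4 | h4
            · exact Or.inl ⟨x, hx, h3, h4⟩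
            · exact Or.inr (h4.mono subset_rfl fun B hB => hB.1)
          · exact Or.inr (h3.mono subset_rfl fun B hB => hB.1)
        · rcases ih (p + 1) q _ (by omega) h1 with h3 | h3
          · exact Or.inl (h3.mono subset_rfl fun B hB => hB.1)
          · rcases ih (p + 1) q _ (by omega) h2 with h4 | h4
            · exact Or.inl (h4.mono subset_rfl fun B hB => hB.1)
            · exact Or.inr ⟨x, hx, h3, h4⟩

def ht : ℕ → ℕ
  | 0 => 0
  | m + 1 => (ht m + 1) + (ht m + 1)

theorem ladder : ∀ (m : ℕ) (N : Set X) (F : Set (Set X)), LR (ht m) N F →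
    ∃ S : Finset X, S.card = m ∧ (∀ x ∈ S, x ∈ N) ∧
      ∀ j ≤ m, ∃ B ∈ F, (S.filter (· ∈ B)).card = j := by
  intro m
  induction m with
  | zero =>
    intro N F h
    obtain ⟨B, hB⟩ := h.nonempty
    exact ⟨∅, rfl, by simp, fun j hj => ⟨B, hB, by simp; omega⟩⟩
  | succ m ih =>
    intro N F h
    obtain ⟨H, hH⟩ := h.nonempty
    have h' : LR (ht (m + 1)) ((N ∩ H) ∪ (N \ H)) F := by
      rw [Set.inter_union_sdiff]; exact h
    rcases LR.ramsey _ _ _ _ _ F rfl h' with ⟨x, hx, _, h2⟩ | ⟨x, hx, h1, _⟩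
    · obtain ⟨S, hS, hN, hB⟩ := ih _ _ h2
      have hxS : x ∉ S := by
        intro hxS
        obtain ⟨B, hB1, hB2⟩ := hB m le_rfl
        have : S.filter (· ∈ B) = S :=
          Finset.eq_of_subset_of_card_le (Finset.filter_subset _ _) (by omega)
        rw [← this] at hxS
        exact hB1.2 (Finset.mem_filter.1 hxS).2
      refine ⟨insert x S, by rw [Finset.card_insert_of_notMem hxS, hS], ?_, fun j hj => ?_⟩
      · intro y hy
        rcases Finset.mem_insert.1 hy with rfl | hy
        · exact hx.1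
        · exact (hN y hy).1
      · by_cases hj' : j ≤ m
        · obtain ⟨B, hB1, hB2⟩ := hB j hj'
          refine ⟨B, hB1.1, ?_⟩
          rw [Finset.filter_insert, if_neg hB1.2, hB2]
        · refine ⟨H, hH, ?_⟩
          rw [Finset.filter_true_of_mem, Finset.card_insert_of_notMem hxS]
          · omega
          · intro y hy
            rcases Finset.mem_insert.1 hy with rfl | hy
            · exact hx.2
            · exact (hN y hy).2
    · obtain ⟨S, hS, hN, hB⟩ := ih _ _ h1
      have hxS : x ∉ S := by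
        intro hxS
        obtain ⟨B, hB1, hB2⟩ := hB 0 (Nat.zero_le _)
        rw [Finset.card_eq_zero, Finset.filter_eq_empty_iff] at hB2
        exact hB2 hxS hB1.2
      refine ⟨insert x S, by rw [Finset.card_insert_of_notMem hxS, hS], ?_, fun j hj => ?_⟩
      · intro y hy
        rcases Finset.mem_insert.1 hy with rfl | hy
        · exact hx.1
        · exact (hN y hy).1
      · cases j with
        | succ j =>
          obtain ⟨B, hB1, hB2⟩ := hB j (by omega)
          refine ⟨B, hB1.1, ?_⟩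
          rw [Finset.filter_insert, if_pos hB1.2, Finset.card_insert_of_notMem, hB2]
          intro h3
          exact hxS (Finset.mem_filter.1 h3).1
        | zero =>
          refine ⟨H, hH, ?_⟩
          rw [Finset.card_eq_zero, Finset.filter_eq_empty_iff]
          intro y hy
          rcases Finset.mem_insert.1 hy with rfl | hy
          · exact hx.2
          · exact (hN y hy).2

end Ladder

variable {α : Type} {n : ℕ}

def Fam (O : (Fin n → List α) → ℕ → Prop) (D : Set (List α)) : Set (Set (List α)) :=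
  {B | ∀ w : Fin n → List α, Function.Injective w → (∀ j, w j ∈ D) →
    O w (Finset.univ.filter fun j => w j ∈ B).card}

def G (O : (Fin n → List α) → ℕ → Prop) (K : ℕ) {ι : Type} (x : ι → List α) (t : ι → Prop) :
    Prop :=
  ∀ y : Fin K → List α, ∃ B ∈ Fam O (Set.range y), ∀ i, x i ∈ B ↔ t i

def R (O : (Fin n → List α) → ℕ → Prop) (K : ℕ) :
    ℕ → ∀ ι : Type, (ι → List α) → (ι → Prop) → Prop
  | 0, _, x, t => G O K x t
  | d + 1, ι, x, t => ∃ w : Unit → List α,
      R O K d (ι ⊕ Unit) (Sum.elim x w) (Sum.elim t fun _ => True) ∧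
      R O K d (ι ⊕ Unit) (Sum.elim x w) (Sum.elim t fun _ => False)

theorem G_df {O : (Fin n → List α) → ℕ → Prop} (hO : ∀ c, Df (fun w => O w c)) (K : ℕ)
    {ι : Type} [Finite ι] (t : ι → Prop) : Df (fun x => G O K x t) := by
  have key : Df (fun z : ι ⊕ Fin K → List α => ∃ u : ι ⊕ Fin K → Prop,
      (∀ a b, z a = z b → (u a ↔ u b)) ∧ (∀ i, u (Sum.inl i) ↔ t i) ∧
      ∀ f : Fin n → Fin K, (∀ j j', z (Sum.inr (f j)) = z (Sum.inr (f j')) → j = j') →
        O (fun j => z (Sum.inr (f j))) (Finset.univ.filter fun j => u (Sum.inr (f j))).card) := by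
    refine Df.ex_fin fun u => Df.and ?_ (Df.and (Df.const _) ?_)
    · exact Df.all_fin fun a => Df.all_fin fun b => (Df.eq a b).imp (Df.const _)
    · refine Df.all_fin fun f => Df.imp ?_ ?_
      · exact Df.all_fin fun a => Df.all_fin fun b => (Df.eq _ _).imp (Df.const _)
      · exact (hO _).ren fun j => Sum.inr (f j)
  refine key.all.congr fun x => forall_congr' fun y => ?_
  constructor
  · rintro ⟨B, hB, hx⟩
    refine ⟨fun a => Sum.elim x y a ∈ B, fun a b h => by simp only [h], hx, fun f hf => ?_⟩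
    exact hB (fun j => y (f j)) hf fun j => ⟨_, rfl⟩
  · rintro ⟨u, h1, h2, h3⟩
    have hu : ∀ a, Sum.elim x y a ∈ {v | ∃ b, Sum.elim x y b = v ∧ u b} ↔ u a :=
      fun a => ⟨fun ⟨b, hb, hb'⟩ => (h1 b a hb).1 hb', fun h => ⟨a, rfl, h⟩⟩
    refine ⟨{v | ∃ b, Sum.elim x y b = v ∧ u b}, fun w hw hD => ?_,
      fun i => (hu (Sum.inl i)).trans (h2 i)⟩
    choose f hf using hD
    have e : w = fun j => y (f j) := funext fun j => (hf j).symm
    subst e
    have := h3 f hw
    have e2 : (Finset.univ.filter fun j => y (f j) ∈ {v | ∃ b, Sum.elim x y b = v ∧ u b}) =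
        Finset.univ.filter fun j => u (Sum.inr (f j)) :=
      Finset.filter_congr fun j _ => hu (Sum.inr (f j))
    show O _ (Finset.univ.filter fun j => y (f j) ∈ {v | ∃ b, Sum.elim x y b = v ∧ u b}).card
    rw [e2]
    exact this

theorem R_df {O : (Fin n → List α) → ℕ → Prop} (hO : ∀ c, Df (fun w => O w c)) (K : ℕ) :
    ∀ (d : ℕ) (ι : Type) [Finite ι] (t : ι → Prop), Df (fun x => R O K d ι x t) := by
  intro d
  induction d with
  | zero => intro ι _ t; exact G_df hO K t
  | succ d ih => intro ι _ t; exact ((ih (ι ⊕ Unit) _).and (ih (ι ⊕ Unit) _)).ex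

theorem R_LR (O : (Fin n → List α) → ℕ → Prop) (K : ℕ) :
    ∀ (d : ℕ) (ι : Type) (x : ι → List α) (t : ι → Prop), R O K d ι x t →
      ∃ D : Finset (List α), D.card + 1 ≤ 2 ^ d ∧ ∀ y : Fin K → List α,
        (∀ v ∈ D, v ∈ Set.range y) →
        LR d (Set.range y) {B | B ∈ Fam O (Set.range y) ∧ ∀ i, x i ∈ B ↔ t i} := by
  intro d
  induction d with
  | zero => intro ι x t h; exact ⟨∅, by simp, fun y _ => h y⟩
  | succ d ih =>
    rintro ι x t ⟨w, h1, h2⟩
    obtain ⟨D1, c1, k1⟩ := ih _ _ _ h1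
    obtain ⟨D2, c2, k2⟩ := ih _ _ _ h2
    refine ⟨insert (w ()) (D1 ∪ D2), ?_, fun y hy => ⟨w (), hy _ (by simp), ?_, ?_⟩⟩
    · have := Finset.card_insert_le (w ()) (D1 ∪ D2)
      have := Finset.card_union_le D1 D2
      rw [pow_succ]; omega
    · refine (k1 y fun v hv => hy v (by simp [hv])).mono subset_rfl fun B hB => ?_
      exact ⟨⟨hB.1, fun i => hB.2 (Sum.inl i)⟩, (hB.2 (Sum.inr ())).2 trivial⟩
    · refine (k2 y fun v hv => hy v (by simp [hv])).mono subset_rfl fun B hB => ?_
      exact ⟨⟨hB.1, fun i => hB.2 (Sum.inl i)⟩, (hB.2 (Sum.inr ())).1⟩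

theorem not_R {O : (Fin n → List α) → ℕ → Prop} (hO : ∀ w, ∃ j ≤ n, ¬ O w j)
    (ι : Type) (x : ι → List α) (t : ι → Prop) : ¬ R O (2 ^ ht n) (ht n) ι x t := by
  intro h
  obtain ⟨D, c, k⟩ := R_LR O _ _ _ _ _ h
  have := k (fun a => D.toList.getD a []) (by
    intro v hv
    obtain ⟨i, hi, e⟩ := List.getElem_of_mem (Finset.mem_toList.2 hv)
    have hi' := hi
    rw [Finset.length_toList] at hi'
    exact ⟨⟨i, by omega⟩, by simp [List.getD, List.getElem?_eq_getElem hi, e]⟩)
  obtain ⟨S, hS, hN, hB⟩ := ladder _ _ _ this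
  let e : Fin n ≃ S := (Finset.equivFinOfCardEq hS).symm
  have hinj : Function.Injective fun j => (e j).1 := Subtype.val_injective.comp e.injective
  obtain ⟨j, hj, hj'⟩ := hO fun j => (e j).1
  obtain ⟨B, hB1, hB2⟩ := hB j hj
  have := hB1.1 _ hinj fun j => hN _ (e j).2
  apply hj'
  convert this using 1
  rw [← hB2]
  symm
  refine Finset.card_bij (fun j _ => (e j).1) ?_ ?_ ?_
  · intro a ha
    exact Finset.mem_filter.2 ⟨(e a).2, (Finset.mem_filter.1 ha).2⟩
  · intro a _ b _ hab
    exact hinj hab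
  · intro v hv
    obtain ⟨h1, h2⟩ := Finset.mem_filter.1 hv
    exact ⟨e.symm ⟨v, h1⟩, by simp [h2], by simp⟩

theorem main {O : (Fin n → List α) → ℕ → Prop} (hD : ∀ c, Df (fun w => O w c))
    (hO : ∀ w, ∃ j ≤ n, ¬ O w j) (A : Set (List α)) (hA : A ∈ Fam O Set.univ) :
    Df (fun s : Unit → List α => s () ∈ A) := by
  have hex : ∃ e, ∃ (ι : Type) (_ : Finite ι) (x : ι → List α),
      ¬ R O (2 ^ ht n) e ι x (fun i => x i ∈ A) :=
    ⟨ht n, Empty, inferInstance, Empty.elim, not_R hO _ _ _⟩
  have h1 := Nat.find_spec hex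
  have h2 := fun m => Nat.find_min hex (m := m)
  generalize Nat.find hex = e at h1 h2
  obtain ⟨ι, hι, x, hx⟩ := h1
  cases e with
  | zero =>
    exact (hx fun y => ⟨A, fun w hw _ => hA w hw fun _ => trivial, fun i => Iff.rfl⟩).elim
  | succ d =>
    have h3 : ∀ w : Unit → List α, R O (2 ^ ht n) d (ι ⊕ Unit) (Sum.elim x w)
        (fun i => Sum.elim x w i ∈ A) := by
      intro w
      by_contra hc
      exact h2 d (by omega) ⟨_, inferInstance, _, hc⟩
    have h4 : ∀ w : Unit → List α, w () ∈ A ↔ R O (2 ^ ht n) d (ι ⊕ Unit) (Sum.elim x w)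
        (Sum.elim (fun i => x i ∈ A) fun _ => True) := by
      intro w
      constructor
      · intro hw
        convert h3 w using 1
        funext i
        cases i with
        | inl i => rfl
        | inr i => exact propext ⟨fun _ => hw, fun _ => trivial⟩
      · intro h
        by_contra hw
        refine hx ⟨w, h, ?_⟩
        convert h3 w using 1
        funext i
        cases i with
        | inl i => rfl
        | inr i => exact propext ⟨False.elim, hw⟩
    have h5 := (R_df hD (2 ^ ht n) d (ι ⊕ Unit) (Sum.elim (fun i => x i ∈ A) fun _ => True)).ren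
      (Sum.swap : ι ⊕ Unit → Unit ⊕ ι)
    have h6 := ((Df.all_fin fun i : ι => Df.lit (Sum.inr i : Unit ⊕ ι) (x i)).and h5).ex
    refine h6.congr fun s => ?_
    rw [h4]
    have e : ∀ t : ι → List α, (fun j => Sum.elim s t (Sum.swap j)) = Sum.elim t s := by
      intro t; funext j; cases j <;> rfl
    constructor
    · intro h
      exact ⟨x, fun _ => rfl, by rw [e]; exact h⟩
    · rintro ⟨t, h7, h8⟩
      have : t = x := funext h7
      subst this
      rw [e] at h8; exact h8

theorem card_thm (A : Language α) (k : ℕ) (step : Fin k → (Fin n → Option α) → Fin k)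
    (start : Fin k) (out : Fin k → Finset ℕ) (h1 : ∀ q, (out q).card ≤ n)
    (h2 : ∀ w : Fin n → List α,
      ({x : List α | ∃ j, w j = x ∧ x ∈ A}).ncard ∈ out (run step start w)) :
    ∃ (k : ℕ) (M : DFA α (Fin k)), M.accepts = A := by
  refine Df.dfa (main (O := fun w c => c ∈ out (run step start w))
    (fun c => Df.aut step start fun q => c ∈ out q) (fun w => ?_) A ?_)
  · by_contra hc
    push Not at hc
    have : Finset.range (n + 1) ⊆ out (run step start w) := fun j hj =>
      hc j (by have := Finset.mem_range.1 hj; omega)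
    have := Finset.card_le_card this
    have := h1 (run step start w)
    simp at *
    omega
  · intro w hw _
    convert h2 w using 1
    rw [← Finset.card_image_of_injective _ hw, ← Set.ncard_coe_finset]
    congr 1
    ext v
    simp only [Finset.coe_image, Finset.coe_filter, Finset.mem_univ, true_and, Set.mem_image,
      Set.mem_ofPred_eq]
    constructor
    · rintro ⟨j, hj, rfl⟩; exact ⟨j, rfl, hj⟩
    · rintro ⟨j, rfl, hj⟩; exact ⟨j, hj, rfl⟩

end Pool.Agent.H16.CardFA
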