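import Mathlib

set_option autoImplicit false

namespace Pool.Agent.H16.Cea

/-- A signature: the function symbols are the numbers `f` with `sym f = true` (a decidable set),
with computable arity `ar f`. -/
structure Sig where
  sym : ℕ → Bool
  ar : ℕ → ℕ
  sym_c : Computable sym
  ar_c : Computable ar

/-- Terms of the signature over the variables `X`. -/
inductive Tm (σ : Sig) (X : Type) : Type
  | var : X → Tm σ X
  | app : (f : ℕ) → σ.sym f = true → (Fin (σ.ar f) → Tm σ X) → Tm σ X

/-- The standard numerical coding of terms, given a numbering `g` of the variables. -/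
def Tm.code {σ : Sig} {X : Type} (g : X → ℕ) : Tm σ X → ℕ
  | .var x => Nat.pair 0 (g x)
  | .app f _ ts => Nat.pair (f + 1) (Encodable.encode (List.ofFn fun j => (ts j).code g))

/-- Substitution of terms for variables. -/
def Tm.subst {σ : Sig} {X Y : Type} (θ : X → Tm σ Y) : Tm σ X → Tm σ Y
  | .var x => θ x
  | .app f h ts => .app f h fun j => (ts j).subst θ

/-- Value of a term in an algebra with operations `ops` under the assignment `v`. -/
def Tm.eval {σ : Sig} {X A : Type} (ops : ∀ f, σ.sym f = true → (Fin (σ.ar f) → A) → A)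
    (v : X → A) : Tm σ X → A
  | .var x => v x
  | .app f h ts => ops f h fun j => (ts j).eval ops v

/-- A set of equational laws. -/
abbrev Laws (σ : Sig) : Type := Set (Tm σ ℕ × Tm σ ℕ)

/-- The set of laws is computably enumerable. -/
def LawsCE {σ : Sig} (L : Laws σ) : Prop :=
  REPred fun m : ℕ => ∃ p ∈ L, m = Nat.pair (p.1.code id) (p.2.code id)

/-- The variety defined by the laws contains an algebra with at least two elements. -/
def NontrivialVar {σ : Sig} (L : Laws σ) : Prop :=
  ∃ (A : Type) (ops : ∀ f, σ.sym f = true → (Fin (σ.ar f) → A) → A), Nontrivial A ∧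
    ∀ p ∈ L, ∀ v : ℕ → A, p.1.eval ops v = p.2.eval ops v

/-- The `e`-th c.e. set. -/
def W (e : ℕ) : Set ℕ := {m | ((Denumerable.ofNat Nat.Partrec.Code e).eval m).Dom}

/-- The least congruence on the terms in `n` generators that contains the pairs coded in `A`
and all instances of the laws. -/
inductive Cong {σ : Sig} (L : Laws σ) {n : ℕ} (A : Set ℕ) : Tm σ (Fin n) → Tm σ (Fin n) → Prop
  | base (s t : Tm σ (Fin n)) : Nat.pair (s.code Fin.val) (t.code Fin.val) ∈ A → Cong L A s t
  | law (l r : Tm σ ℕ) (θ : ℕ → Tm σ (Fin n)) : (l, r) ∈ L → Cong L A (l.subst θ) (r.subst θ)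
  | refl (s : Tm σ (Fin n)) : Cong L A s s
  | symm (s t : Tm σ (Fin n)) : Cong L A s t → Cong L A t s
  | trans (s t u : Tm σ (Fin n)) : Cong L A s t → Cong L A t u → Cong L A s u
  | app (f : ℕ) (h : σ.sym f = true) (ts us : Fin (σ.ar f) → Tm σ (Fin n)) :
      (∀ j, Cong L A (ts j) (us j)) → Cong L A (.app f h ts) (.app f h us)

/-- The carrier of the `n`-generated c.e. algebra with index `e`. -/
abbrev Alg {σ : Sig} (L : Laws σ) (n e : ℕ) : Type := Quot (Cong L (n := n) (W e))

/-- The algebras with indices `e` and `i` are isomorphic: a bijection of the quotients that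
commutes with every operation. -/
def Iso {σ : Sig} (L : Laws σ) (n : ℕ) (e i : ℕ) : Prop :=
  ∃ φ : Alg L n e ≃ Alg L n i, ∀ (f : ℕ) (h : σ.sym f = true)
    (ts us : Fin (σ.ar f) → Tm σ (Fin n)), (∀ j, φ (Quot.mk _ (ts j)) = Quot.mk _ (us j)) →
      φ (Quot.mk _ (.app f h ts)) = Quot.mk _ (.app f h us)

/-- An equivalence relation on the algebra with index `e` compatible with every operation. -/
def IsCong {σ : Sig} (L : Laws σ) (n e : ℕ) (c : Setoid (Alg L n e)) : Prop :=
  ∀ (f : ℕ) (h : σ.sym f = true) (ts us : Fin (σ.ar f) → Tm σ (Fin n)),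
    (∀ j, c (Quot.mk _ (ts j)) (Quot.mk _ (us j))) →
      c (Quot.mk _ (.app f h ts)) (Quot.mk _ (.app f h us))

/-- Every algebra of the class has the ascending chain condition on congruences. -/
def ACC {σ : Sig} (L : Laws σ) (n : ℕ) : Prop :=
  ∀ e, ¬ ∃ c : ℕ → Setoid (Alg L n e), (∀ k, IsCong L n e (c k)) ∧ StrictMono c

/-- Computable reducibility. -/
def Red (E F : ℕ → ℕ → Prop) : Prop :=
  ∃ h : ℕ → ℕ, Computable h ∧ ∀ x y, E x y ↔ F (h x) (h y)

/-- Sigma-0-3 binary relations. -/
def Sigma3 (E : ℕ → ℕ → Prop) : Prop :=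
  ∃ R : (ℕ × ℕ) × ℕ × ℕ × ℕ → Prop, ComputablePred R ∧
    ∀ x y, E x y ↔ ∃ a, ∀ b, ∃ c, R ((x, y), a, b, c)

/-- Sigma-0-3-complete equivalence relations. -/
def S3Complete (E : ℕ → ℕ → Prop) : Prop :=
  Equivalence E ∧ Sigma3 E ∧ ∀ F, Equivalence F → Sigma3 F → Red F E

end Pool.Agent.H16.Cea
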