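import Mathlib
import Pool.Agent.H16.CeaDefs
import Pool.Agent.H23.RE

set_option autoImplicit false

namespace Pool.Agent.H16.Cea
open Pool.Agent.H23.RE Pool.Agent.H23.CTools Nat.Partrec

theorem re_eq {α : Type} [Primcodable α] {f g : α → ℕ} (hf : Primrec f) (hg : Primrec g) :
    REPred fun a => f a = g a :=
  (re_prim (f := fun a => f a == g a) (by fun_prop)).of_eq fun a => by simp

theorem re_lt {α : Type} [Primcodable α] {f g : α → ℕ} (hf : Primrec f) (hg : Primrec g) :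
    REPred fun a => f a < g a :=
  (re_prim (f := fun a => Nat.blt (f a) (g a)) (by fun_prop)).of_eq fun a => by simp

theorem re_W : REPred fun x : ℕ × ℕ => x.2 ∈ W x.1 := by
  have : Partrec fun x : ℕ × ℕ => (Denumerable.ofNat Code x.1).eval x.2 :=
    Code.eval_part.comp ((Primrec.ofNat Code).comp Primrec.fst).to_comp Computable.snd
  exact this.dom_re

theorem smn {p : ℕ → ℕ → Prop} (hp : REPred fun x : ℕ × ℕ => p x.1 x.2) :
    ∃ h : ℕ → ℕ, Primrec h ∧ ∀ e m, m ∈ W (h e) ↔ p e m := by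
  obtain ⟨c, hc⟩ := Code.exists_code.1 hp
  refine ⟨fun e => Encodable.encode (Code.curry c e),
    Primrec.encode.comp (Code.primrec₂_curry.comp (Primrec.const c) Primrec.id), fun e m => ?_⟩
  simp only [W, Set.mem_setOf_eq, Denumerable.ofNat_encode, Code.eval_curry, hc]
  have : (Encodable.decode (Nat.pair e m) : Option (ℕ × ℕ)) = some (e, m) := by simp
  rw [this]
  simp [Part.assert]

theorem ex_index {p : ℕ → Prop} (hp : REPred p) : ∃ e, ∀ m, m ∈ W e ↔ p m := by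
  obtain ⟨h, -, h2⟩ := smn (p := fun _ m => p m) (re_comp' hp Prod.snd Primrec.snd)
  exact ⟨h 0, h2 0⟩

theorem rtg_iff (R : ℕ → ℕ → Prop) (a b : ℕ) : Relation.ReflTransGen R a b ↔
    ∃ l : List ℕ, (∀ i < l.length, R ((a :: l).getD i 0) (l.getD i 0)) ∧
      (a :: l).getD l.length 0 = b := by
  constructor
  · intro h
    induction h using Relation.ReflTransGen.head_induction_on with
    | refl => exact ⟨[], by simp, by simp⟩
    | head h1 _ ih =>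
      obtain ⟨l, h2, h3⟩ := ih
      refine ⟨_ :: l, fun i hi => ?_, by simpa using h3⟩
      cases i with
      | zero => simpa using h1
      | succ i => simpa using h2 i (by simpa using hi)
  · rintro ⟨l, h2, h3⟩
    induction l generalizing a with
    | nil => simp at h3; subst h3; exact .refl
    | cons c l ih =>
      refine .head (by simpa using h2 0 (by simp)) (ih c (fun i hi => ?_) (by simpa using h3))
      simpa using h2 (i + 1) (by simpa using hi)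

theorem re_rtg {R : ℕ → ℕ → ℕ → Prop} (hR : REPred fun x : ℕ × ℕ × ℕ => R x.1 x.2.1 x.2.2) :
    REPred fun x : ℕ × ℕ × ℕ => Relation.ReflTransGen (R x.1) x.2.1 x.2.2 := by
  refine REPred.of_eq (re_ex (p := fun (x : ℕ × ℕ × ℕ) (l : List ℕ) =>
    (∀ i < l.length, R x.1 ((x.2.1 :: l).getD i 0) (l.getD i 0)) ∧
      (x.2.1 :: l).getD l.length 0 = x.2.2) (re_and ?_ ?_)) fun x => (rtg_iff _ _ _).symm
  · refine re_ball (p := fun (y : (ℕ × ℕ × ℕ) × List ℕ) i =>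
      R y.1.1 ((y.1.2.1 :: y.2).getD i 0) (y.2.getD i 0)) ?_ (by fun_prop)
    exact re_comp' hR (fun z : ((ℕ × ℕ × ℕ) × List ℕ) × ℕ =>
      (z.1.1.1, (z.1.1.2.1 :: z.1.2).getD z.2 0, z.1.2.getD z.2 0)) (by fun_prop)
  · exact re_eq (by fun_prop) (by fun_prop)

/-- exists-forall-r.e. predicates. -/
def S3 {α : Type} [Primcodable α] (P : α → Prop) : Prop :=
  ∃ M : α × ℕ × ℕ → Prop, REPred M ∧ ∀ x, P x ↔ ∃ a, ∀ b, M (x, a, b)

section
variable {α β : Type} [Primcodable α] [Primcodable β]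

theorem S3.of_eq {P Q : α → Prop} (h : S3 P) (H : ∀ x, P x ↔ Q x) : S3 Q := by
  obtain ⟨M, h1, h2⟩ := h
  exact ⟨M, h1, fun x => (H x).symm.trans (h2 x)⟩

theorem S3.of_pi {M : α → ℕ → Prop} (h : REPred fun x : α × ℕ => M x.1 x.2) :
    S3 fun x => ∀ b, M x b :=
  ⟨fun y => M y.1 y.2.2, re_comp' h (fun y : α × ℕ × ℕ => (y.1, y.2.2)) (by fun_prop),
    fun x => by simp⟩

theorem S3.of_re {P : α → Prop} (h : REPred P) : S3 P :=
  (S3.of_pi (M := fun x _ => P x) (re_comp' h Prod.fst Primrec.fst)).of_eq fun x => by simp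

theorem S3.of_core {P : α → Prop} (h : REPred P) : S3 fun x => ¬ P x := by
  obtain ⟨R, h1, -, h3⟩ := re_stage h
  refine (S3.of_pi (M := fun x b => (!R b x) = true) (re_prim ?_)).of_eq fun x => by simp [h3]
  exact Primrec.not.comp (h1.comp (Primrec.snd.pair Primrec.fst))

theorem S3.comp {P : β → Prop} (h : S3 P) (g : α → β) (hg : Primrec g) : S3 fun x => P (g x) := by
  obtain ⟨M, h1, h2⟩ := h
  exact ⟨fun y => M (g y.1, y.2), re_comp' h1 (fun y : α × ℕ × ℕ => (g y.1, y.2)) (by fun_prop),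
    fun x => h2 _⟩

theorem S3.and {P Q : α → Prop} (h : S3 P) (k : S3 Q) : S3 fun x => P x ∧ Q x := by
  obtain ⟨M, h1, h2⟩ := h
  obtain ⟨N, k1, k2⟩ := k
  refine ⟨fun y => M (y.1, y.2.1.unpair.1, y.2.2) ∧ N (y.1, y.2.1.unpair.2, y.2.2),
    re_and (re_comp' h1 (fun y : α × ℕ × ℕ => (y.1, y.2.1.unpair.1, y.2.2)) (by fun_prop))
      (re_comp' k1 (fun y : α × ℕ × ℕ => (y.1, y.2.1.unpair.2, y.2.2)) (by fun_prop)),
    fun x => ?_⟩
  beta_reduce
  rw [h2, k2]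
  constructor
  · rintro ⟨⟨a, ha⟩, ⟨c, hc⟩⟩
    exact ⟨Nat.pair a c, fun b => by simpa using ⟨ha b, hc b⟩⟩
  · rintro ⟨a, ha⟩
    exact ⟨⟨a.unpair.1, fun b => (ha b).1⟩, ⟨a.unpair.2, fun b => (ha b).2⟩⟩

theorem S3.or {P Q : α → Prop} (h : S3 P) (k : S3 Q) : S3 fun x => P x ∨ Q x := by
  obtain ⟨M, h1, h2⟩ := h
  obtain ⟨N, k1, k2⟩ := k
  refine ⟨fun y => (y.2.1.unpair.1 = 0 ∧ M (y.1, y.2.1.unpair.2, y.2.2)) ∨
      (y.2.1.unpair.1 = 1 ∧ N (y.1, y.2.1.unpair.2, y.2.2)),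
    re_or (re_and (re_eq (by fun_prop) (by fun_prop))
      (re_comp' h1 (fun y : α × ℕ × ℕ => (y.1, y.2.1.unpair.2, y.2.2)) (by fun_prop)))
      (re_and (re_eq (by fun_prop) (by fun_prop))
      (re_comp' k1 (fun y : α × ℕ × ℕ => (y.1, y.2.1.unpair.2, y.2.2)) (by fun_prop))),
    fun x => ?_⟩
  beta_reduce
  rw [h2, k2]
  constructor
  · rintro (⟨a, ha⟩ | ⟨a, ha⟩)
    · exact ⟨Nat.pair 0 a, fun b => by simpa using ha b⟩
    · exact ⟨Nat.pair 1 a, fun b => by simpa using ha b⟩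
  · rintro ⟨a, ha⟩
    by_cases h0 : a.unpair.1 = 0
    · exact Or.inl ⟨a.unpair.2, fun b => ((ha b).resolve_right (by simp [h0])).2⟩
    · exact Or.inr ⟨a.unpair.2, fun b => ((ha b).resolve_left (by simp [h0])).2⟩

theorem S3.ex {P : α → ℕ → Prop} (h : S3 fun x : α × ℕ => P x.1 x.2) :
    S3 fun x => ∃ c, P x c := by
  obtain ⟨M, h1, h2⟩ := h
  refine ⟨fun y => M ((y.1, y.2.1.unpair.1), y.2.1.unpair.2, y.2.2),
    re_comp' h1 (fun y : α × ℕ × ℕ => ((y.1, y.2.1.unpair.1), y.2.1.unpair.2, y.2.2))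
      (by fun_prop), fun x => ?_⟩
  constructor
  · rintro ⟨c, hc⟩
    obtain ⟨a, ha⟩ := (h2 (x, c)).1 hc
    exact ⟨Nat.pair c a, fun b => by simpa using ha b⟩
  · rintro ⟨a, ha⟩
    exact ⟨a.unpair.1, (h2 (x, a.unpair.1)).2 ⟨a.unpair.2, ha⟩⟩
end

theorem S3.sigma3 {E : ℕ → ℕ → Prop} (h : S3 fun x : ℕ × ℕ => E x.1 x.2) : Sigma3 E := by
  obtain ⟨M, h1, h2⟩ := h
  obtain ⟨R, k1, -, k3⟩ := re_stage h1
  refine ⟨fun z => R z.2.2.2 (z.1, z.2.1, z.2.2.1) = true, ?_, fun x y => ?_⟩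
  · have : Primrec fun z : (ℕ × ℕ) × ℕ × ℕ × ℕ => R z.2.2.2 (z.1, z.2.1, z.2.2.1) :=
      k1.comp (g := fun z : (ℕ × ℕ) × ℕ × ℕ × ℕ => (z.2.2.2, (z.1, z.2.1, z.2.2.1))) (by fun_prop)
    exact ComputablePred.computable_iff.2 ⟨_, this.to_comp, rfl⟩
  · simpa only [k3] using h2 (x, y)

/-- `E` is equality of uniformly c.e. invariants. -/
def Inv (E : ℕ → ℕ → Prop) : Prop :=
  ∃ J : ℕ → ℕ → Prop, (REPred fun x : ℕ × ℕ => J x.1 x.2) ∧ ∀ e i, E e i ↔ ∀ k, J e k ↔ J i k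

theorem Inv.equiv {E : ℕ → ℕ → Prop} (h : Inv E) : Equivalence E := by
  obtain ⟨J, -, h⟩ := h
  exact ⟨fun x => (h x x).2 fun _ => Iff.rfl, fun h1 => (h _ _).2 fun k => ((h _ _).1 h1 k).symm,
    fun h1 h2 => (h _ _).2 fun k => ((h _ _).1 h1 k).trans ((h _ _).1 h2 k)⟩

theorem Inv.sigma3 {E : ℕ → ℕ → Prop} (h : Inv E) : Sigma3 E := by
  obtain ⟨J, hJ, h⟩ := h
  obtain ⟨R, k1, -, k3⟩ := re_stage hJ
  refine S3.sigma3 ((S3.of_pi (M := fun (x : ℕ × ℕ) b =>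
    (R b.unpair.2 (x.1, b.unpair.1) = true → J x.2 b.unpair.1) ∧
    (R b.unpair.2 (x.2, b.unpair.1) = true → J x.1 b.unpair.1)) (re_and ?_ ?_)).of_eq fun x => ?_)
  · exact re_imp (k1.comp (g := fun y : (ℕ × ℕ) × ℕ => (y.2.unpair.2, (y.1.1, y.2.unpair.1)))
      (by fun_prop)) (re_comp' hJ (fun y : (ℕ × ℕ) × ℕ => (y.1.2, y.2.unpair.1)) (by fun_prop))
  · exact re_imp (k1.comp (g := fun y : (ℕ × ℕ) × ℕ => (y.2.unpair.2, (y.1.2, y.2.unpair.1)))
      (by fun_prop)) (re_comp' hJ (fun y : (ℕ × ℕ) × ℕ => (y.1.1, y.2.unpair.1)) (by fun_prop))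
  · rw [h]
    constructor
    · intro H k
      constructor
      · intro hk
        obtain ⟨s, hs⟩ := (k3 (x.1, k)).1 hk
        simpa using (H (Nat.pair k s)).1 (by simpa using hs)
      · intro hk
        obtain ⟨s, hs⟩ := (k3 (x.2, k)).1 hk
        simpa using (H (Nat.pair k s)).2 (by simpa using hs)
    · intro H b
      exact ⟨fun hb => (H _).1 ((k3 (x.1, _)).2 ⟨_, hb⟩), fun hb => (H _).2 ((k3 (x.2, _)).2 ⟨_, hb⟩)⟩

theorem Inv.s3_not {E : ℕ → ℕ → Prop} (h : Inv E) : S3 fun x : ℕ × ℕ => ¬ E x.1 x.2 := by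
  obtain ⟨J, hJ, h⟩ := h
  have a1 := re_comp' hJ (fun y : (ℕ × ℕ) × ℕ => (y.1.1, y.2)) (by fun_prop)
  have a2 := re_comp' hJ (fun y : (ℕ × ℕ) × ℕ => (y.1.2, y.2)) (by fun_prop)
  refine (S3.ex (P := fun (x : ℕ × ℕ) k => (J x.1 k ∧ ¬ J x.2 k) ∨ (J x.2 k ∧ ¬ J x.1 k))
    (((S3.of_re a1).and (S3.of_core a2)).or ((S3.of_re a2).and (S3.of_core a1)))).of_eq fun x => ?_
  rw [h, not_forall]
  exact exists_congr fun k => by tauto

theorem re_graph : REPred fun x : ℕ × ℕ × ℕ => x.2.2 ∈ (Denumerable.ofNat Code x.1).eval x.2.1 := by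
  refine REPred.of_eq (re_ex (p := fun (x : ℕ × ℕ × ℕ) (s : ℕ) =>
    (Code.evaln s (Denumerable.ofNat Code x.1) x.2.1 == some x.2.2) = true)
    (re_prim (by fun_prop))) fun x => ?_
  rw [Code.evaln_complete]
  simp

theorem Inv.not_univ {E : ℕ → ℕ → Prop} (h : Inv E) :
    ∃ F, Equivalence F ∧ Sigma3 F ∧ ¬ Red F E := by
  let S : ℕ → Prop := fun x => x = 0 ∨ ∃ u, ∃ v, (u ∈ (Denumerable.ofNat Code (x - 1)).eval x ∧
    v ∈ (Denumerable.ofNat Code (x - 1)).eval 0) ∧ ¬ E u v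
  have hS : S3 S := by
    refine (S3.of_re (re_eq Primrec.id (Primrec.const 0))).or (S3.ex (S3.ex
      (P := fun (y : ℕ × ℕ) v => (y.2 ∈ (Denumerable.ofNat Code (y.1 - 1)).eval y.1 ∧
        v ∈ (Denumerable.ofNat Code (y.1 - 1)).eval 0) ∧ ¬ E y.2 v) (S3.and (S3.of_re (re_and
      (re_comp' re_graph (fun z : (ℕ × ℕ) × ℕ => (z.1.1 - 1, z.1.1, z.1.2)) (by fun_prop))
      (re_comp' re_graph (fun z : (ℕ × ℕ) × ℕ => (z.1.1 - 1, 0, z.2)) (by fun_prop))))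
      (h.s3_not.comp (fun z : (ℕ × ℕ) × ℕ => (z.1.2, z.2)) (by fun_prop)))))
  refine ⟨fun x y => x = y ∨ (S x ∧ S y), ⟨fun x => Or.inl rfl, fun h => by tauto, ?_⟩,
    S3.sigma3 ((S3.of_re (re_eq Primrec.fst Primrec.snd)).or
      ((hS.comp Prod.fst Primrec.fst).and (hS.comp Prod.snd Primrec.snd))), ?_⟩
  · rintro x y z (rfl | h1) (rfl | h2) <;> tauto
  · rintro ⟨f, hf, H⟩
    obtain ⟨c, hc⟩ := Code.exists_code.1 (Partrec.nat_iff.1 hf.partrec)
    have H1 := H (Encodable.encode c + 1) 0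
    have hS0 : S 0 := Or.inl rfl
    have : S (Encodable.encode c + 1) ↔ ¬ E (f (Encodable.encode c + 1)) (f 0) := by
      simp [S, hc]
    simp only [Nat.add_one_ne_zero, false_or, hS0, and_true, this] at H1
    tauto

theorem Red.trans {E F G : ℕ → ℕ → Prop} (h : Red E F) (k : Red F G) : Red E G := by
  obtain ⟨f, h1, h2⟩ := h
  obtain ⟨g, k1, k2⟩ := k
  exact ⟨g ∘ f, k1.comp h1, fun x y => (h2 x y).trans (k2 _ _)⟩

theorem mono {E F : ℕ → ℕ → Prop} (hE : ∀ x y, W x = W y → E x y) {h : ℕ → ℕ} (hh : Computable h)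
    (H : ∀ x y, E x y → F (h x) (h y)) {Φ : ℕ → Prop} (hΦ : REPred Φ)
    (hinv : ∀ x y, F x y → (Φ x ↔ Φ y)) {a b : ℕ} (hab : W a ⊆ W b) (ha : Φ (h a)) : Φ (h b) := by
  by_contra hb
  obtain ⟨g, hg, g2⟩ := smn (p := fun c m => m ∈ W a ∨ (0 ∈ W c ∧ m ∈ W b))
    (re_or (re_comp' re_W (fun x : ℕ × ℕ => (a, x.2)) (by fun_prop))
      (re_and (re_comp' re_W (fun x : ℕ × ℕ => (x.1, 0)) (by fun_prop))
        (re_comp' re_W (fun x : ℕ × ℕ => (b, x.2)) (by fun_prop))))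
  apply ComputablePred.halting_problem_not_re 0
  refine (re_comp hΦ (g := fun c : Code => h (g (Encodable.encode c)))
    (hh.comp (hg.comp Primrec.encode).to_comp)).of_eq fun c => ?_
  have e0 : 0 ∈ W (Encodable.encode c) ↔ (c.eval 0).Dom := by simp [W]
  by_cases hc : (c.eval 0).Dom
  · have : W (g (Encodable.encode c)) = W b := by
      ext m; rw [g2, e0]; exact ⟨fun h => h.elim (fun h => hab h) (·.2), fun h => Or.inr ⟨hc, h⟩⟩
    rw [hinv _ _ (H _ _ (hE _ _ this))]; tauto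
  · have : W (g (Encodable.encode c)) = W a := by
      ext m; rw [g2, e0]; tauto
    rw [hinv _ _ (H _ _ (hE _ _ this))]; tauto

end Pool.Agent.H16.Cea
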