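import Mathlib
import Pool.Agent.H16.Cea1

set_option autoImplicit false

namespace Pool.Agent.H16.Cea
open Pool.Agent.H23.RE Pool.Agent.H23.CTools

/-- Signature of constants only. -/
def cs (p : ℕ → Bool) (hp : Primrec p) : Sig := ⟨p, fun _ => 0, hp.to_comp, Computable.const 0⟩

section
variable {p : ℕ → Bool} {hp : Primrec p} {n : ℕ}

def cst (f : ℕ) (h : p f = true) : Tm (cs p hp) (Fin n) := .app f h Fin.elim0

theorem app_eq (f : ℕ) (h : (cs p hp).sym f = true) (ts : Fin ((cs p hp).ar f) → Tm (cs p hp) (Fin n)) :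
    Tm.app f h ts = cst f h := by
  unfold cst; congr 1; funext j; exact j.elim0

theorem tm_cases (t : Tm (cs p hp) (Fin n)) : (∃ i, t = .var i) ∨ ∃ f h, t = cst f h := by
  cases t with
  | var i => exact Or.inl ⟨i, rfl⟩
  | app f h ts => exact Or.inr ⟨f, h, app_eq f h ts⟩

@[simp] theorem code_var (i : Fin n) :
    (Tm.var i : Tm (cs p hp) (Fin n)).code Fin.val = Nat.pair 0 i := rfl

@[simp] theorem code_cst (f : ℕ) (h : p f = true) :
    (cst f h : Tm (cs p hp) (Fin n)).code Fin.val = Nat.pair (f + 1) 0 := rfl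

theorem code_inj {s t : Tm (cs p hp) (Fin n)} (h : s.code Fin.val = t.code Fin.val) : s = t := by
  rcases tm_cases s with ⟨i, rfl⟩ | ⟨f, hf, rfl⟩ <;> rcases tm_cases t with ⟨j, rfl⟩ | ⟨g, hg, rfl⟩ <;>
    simp [Nat.pair_eq_pair, Fin.val_inj] at h
  · rw [h]
  · subst h; rfl

def V (p : ℕ → Bool) (n m : ℕ) : Bool :=
  (m.unpair.1 == 0 && Nat.blt m.unpair.2 n) ||
    (Nat.blt 0 m.unpair.1 && (p (m.unpair.1 - 1) && m.unpair.2 == 0))

theorem V_iff (m : ℕ) : V p n m = true ↔ ∃ t : Tm (cs p hp) (Fin n), t.code Fin.val = m := by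
  constructor
  · intro h
    simp only [V, Bool.or_eq_true, Bool.and_eq_true, beq_iff_eq, Nat.blt_eq] at h
    rcases h with ⟨h1, h2⟩ | ⟨h1, h2, h3⟩
    · exact ⟨.var ⟨_, h2⟩, by simp [← h1]⟩
    · refine ⟨cst _ h2, ?_⟩
      rw [code_cst, Nat.sub_add_cancel h1, ← h3, Nat.pair_unpair]
  · rintro ⟨t, rfl⟩
    rcases tm_cases t with ⟨j, rfl⟩ | ⟨g, hg, rfl⟩ <;> simp [V, *]

def Ed (p : ℕ → Bool) (n e a b : ℕ) : Prop :=
  (V p n a = true ∧ V p n b = true) ∧ (Nat.pair a b ∈ W e ∨ Nat.pair b a ∈ W e)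

def C (p : ℕ → Bool) (n e a b : ℕ) : Prop := Relation.ReflTransGen (Ed p n e) a b

theorem C_symm {e a b : ℕ} (h : C p n e a b) : C p n e b a := by
  induction h with
  | refl => exact .refl
  | tail _ h2 ih => exact .head ⟨h2.1.symm, h2.2.symm⟩ ih

theorem re_C (hp : Primrec p) (n : ℕ) : REPred fun x : ℕ × ℕ × ℕ => C p n x.1 x.2.1 x.2.2 := by
  refine re_rtg (R := Ed p n) (re_and (re_and (re_prim ?_) (re_prim ?_)) (re_or ?_ ?_))
  · unfold V; fun_prop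
  · unfold V; fun_prop
  · exact re_comp' re_W (fun x : ℕ × ℕ × ℕ => (x.1, Nat.pair x.2.1 x.2.2)) (by fun_prop)
  · exact re_comp' re_W (fun x : ℕ × ℕ × ℕ => (x.1, Nat.pair x.2.2 x.2.1)) (by fun_prop)

theorem cong_iff (e : ℕ) (s t : Tm (cs p hp) (Fin n)) :
    Cong ∅ (W e) s t ↔ C p n e (s.code Fin.val) (t.code Fin.val) := by
  constructor
  · intro h
    induction h with
    | base s t h => exact .single ⟨⟨(V_iff _).2 ⟨s, rfl⟩, (V_iff _).2 ⟨t, rfl⟩⟩, Or.inl h⟩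
    | law l r θ h => exact h.elim
    | refl s => exact .refl
    | symm s t _ ih =>
      exact C_symm ih
    | trans s t u _ _ h1 h2 => exact h1.trans h2
    | app f h ts us _ _ => rw [app_eq, app_eq]; exact .refl
  · intro h
    generalize hb : t.code Fin.val = b at h
    induction h generalizing t with
    | refl => rw [code_inj hb]; exact .refl _
    | tail _ h2 ih =>
      obtain ⟨u, hu⟩ := (V_iff (hp := hp) _).1 h2.1.1
      refine .trans _ u _ (ih u hu) ?_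
      rcases h2.2 with h | h
      · exact .base _ _ (by rw [hu, hb]; exact h)
      · exact .symm _ _ (.base _ _ (by rw [hu, hb]; exact h))

end

theorem mk_eq {σ : Sig} {L : Laws σ} {n : ℕ} {A : Set ℕ} {s t : Tm σ (Fin n)} :
    Quot.mk (Cong L A) s = Quot.mk _ t ↔ Cong L A s t := by
  rw [Quot.eq]
  exact Equivalence.eqvGen_iff ⟨.refl, fun h => .symm _ _ h, fun h k => .trans _ _ _ h k⟩

theorem glue {K A B : Type} (u : K → A) (v : K → B) (h : ∀ k k', u k = u k' ↔ v k = v k')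
    (e : ((Set.range u)ᶜ : Set A) ≃ ((Set.range v)ᶜ : Set B)) :
    ∃ φ : A ≃ B, ∀ k, φ (u k) = v k := by
  classical
  let g : Set.range u → Set.range v := fun a => ⟨v a.2.choose, _, rfl⟩
  have hg : ∀ k, g ⟨u k, k, rfl⟩ = ⟨v k, k, rfl⟩ := fun k =>
    Subtype.ext ((h _ _).1 (Exists.choose_spec (⟨k, rfl⟩ : u k ∈ Set.range u)))
  have hb : Function.Bijective g := by
    constructor
    · rintro ⟨_, k, rfl⟩ ⟨_, k', rfl⟩ H
      rw [hg, hg] at H
      exact Subtype.ext ((h _ _).2 (congrArg Subtype.val H))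
    · rintro ⟨_, k, rfl⟩
      exact ⟨_, hg k⟩
  refine ⟨(Equiv.Set.sumCompl (Set.range u)).symm.trans
    (((Equiv.ofBijective g hb).sumCongr e).trans (Equiv.Set.sumCompl (Set.range v))), fun k => ?_⟩
  have : (Equiv.Set.sumCompl (Set.range u)).symm (u k) = Sum.inl ⟨u k, k, rfl⟩ :=
    Equiv.Set.sumCompl_symm_apply_of_mem (show u k ∈ Set.range u from ⟨k, rfl⟩)
  simp [this, hg]

section
variable {p : ℕ → Bool} (hp : Primrec p) (n : ℕ)

def uc (e : ℕ) : {f // p f = true} → Alg (σ := cs p hp) ∅ n e := fun f => Quot.mk _ (cst f.1 f.2)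

def Xs (e : ℕ) : Set (Alg (σ := cs p hp) ∅ n e) := (Set.range (uc hp n e))ᶜ

theorem Xs_sub (e : ℕ) : Xs hp n e ⊆ Set.range fun i : Fin n => Quot.mk _ (.var i) := by
  rintro ⟨t⟩ ht
  rcases tm_cases t with ⟨j, rfl⟩ | ⟨g, hg, rfl⟩
  · exact ⟨j, rfl⟩
  · exact (ht ⟨⟨g, hg⟩, rfl⟩).elim

theorem Xs_fin (e : ℕ) : (Xs hp n e).Finite := (Set.finite_range _).subset (Xs_sub hp n e)

theorem iso_iff (e i : ℕ) : Iso (σ := cs p hp) ∅ n e i ↔
    (∀ f g, uc hp n e f = uc hp n e g ↔ uc hp n i f = uc hp n i g) ∧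
      (Xs hp n e).ncard = (Xs hp n i).ncard := by
  constructor
  · rintro ⟨φ, h⟩
    have h1 : ∀ f, φ (uc hp n e f) = uc hp n i f := fun f =>
      h f.1 f.2 Fin.elim0 Fin.elim0 fun j => j.elim0
    refine ⟨fun f g => by rw [← h1, ← h1, φ.apply_eq_iff_eq], ?_⟩
    rw [← Set.ncard_image_of_injective _ φ.injective]
    congr 1
    unfold Xs
    rw [Set.image_compl_eq φ.bijective, ← Set.range_comp]
    congr 2
    exact funext h1
  · rintro ⟨h1, h2⟩
    have f1 := (Xs_fin hp n e).to_subtype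
    have f2 := (Xs_fin hp n i).to_subtype
    obtain ⟨ε⟩ : Nonempty (Xs hp n e ≃ Xs hp n i) := Finite.card_eq.1 h2
    obtain ⟨φ, hφ⟩ := glue _ _ h1 ε
    refine ⟨φ, fun f h ts us _ => ?_⟩
    rw [app_eq, app_eq]
    exact hφ ⟨f, h⟩

theorem ncard_le_iff (e k : ℕ) : (Xs hp n e).ncard ≤ k ↔ ∃ l : List ℕ, l.length ≤ k ∧ ∀ i < n,
    (∃ f, p f = true ∧ C p n e (Nat.pair 0 i) (Nat.pair (f + 1) 0)) ∨
      ∃ j, (l.any (· == j) = true ∧ j < n) ∧ C p n e (Nat.pair 0 i) (Nat.pair 0 j) := by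
  classical
  constructor
  · intro h
    choose r hr using fun t : Xs hp n e => Xs_sub hp n e t.2
    have := (Xs_fin hp n e).fintype
    refine ⟨(Finset.univ : Finset (Xs hp n e)).toList.map fun t => (r t : ℕ), ?_, fun i hi => ?_⟩
    · simpa [← Nat.card_eq_fintype_card] using h
    · by_cases hx : Quot.mk _ (.var ⟨i, hi⟩) ∈ Xs hp n e
      · refine Or.inr ⟨r ⟨_, hx⟩, ⟨by simp, (r _).2⟩, ?_⟩
        exact (cong_iff (hp := hp) e (.var ⟨i, hi⟩) (.var _)).1 (mk_eq.1 (hr ⟨_, hx⟩).symm)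
      · obtain ⟨f, hf⟩ := not_not.1 hx
        exact Or.inl ⟨f.1, f.2, (cong_iff (hp := hp) e (.var ⟨i, hi⟩) (cst f.1 f.2)).1
          (mk_eq.1 hf.symm)⟩
  · rintro ⟨l, h1, h2⟩
    rcases Nat.eq_zero_or_pos n with rfl | hn
    · have : Xs hp 0 e = ∅ := Set.eq_empty_of_subset_empty (by simpa using Xs_sub hp 0 e)
      simp [this]
    have : Xs hp n e ⊆ (fun j : ℕ => (Quot.mk _ (.var ⟨j % n, Nat.mod_lt _ hn⟩) :
        Alg (σ := cs p hp) ∅ n e)) '' (l.toFinset : Set ℕ) := by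
      intro t ht
      obtain ⟨i, rfl⟩ := Xs_sub hp n e ht
      rcases h2 i i.2 with ⟨f, hf, H⟩ | ⟨j, ⟨hj, hjn⟩, H⟩
      · exact (ht ⟨⟨f, hf⟩, (mk_eq.2 ((cong_iff (hp := hp) e (.var i) (cst f hf)).2 H)).symm⟩).elim
      · refine ⟨j, by simpa using hj, ?_⟩
        have := (mk_eq.2 ((cong_iff (hp := hp) e (.var i) (.var ⟨j, hjn⟩)).2 H)).symm
        simpa [Nat.mod_eq_of_lt hjn] using this
    refine (Set.ncard_le_ncard this (Set.toFinite _)).trans
      ((Set.ncard_image_le (Set.toFinite _)).trans ?_)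
    rw [Set.ncard_coe_finset]
    exact (List.toFinset_card_le l).trans h1

theorem re_ncard : REPred fun x : ℕ × ℕ => (Xs hp n x.1).ncard ≤ x.2 := by
  refine REPred.of_eq (re_ex (p := fun (x : ℕ × ℕ) (l : List ℕ) => l.length < x.2 + 1 ∧ ∀ i < n,
    (∃ f, p f = true ∧ C p n x.1 (Nat.pair 0 i) (Nat.pair (f + 1) 0)) ∨
      ∃ j, (l.any (· == j) = true ∧ j < n) ∧ C p n x.1 (Nat.pair 0 i) (Nat.pair 0 j))
    (re_and (re_lt (by fun_prop) (by fun_prop)) (re_ball (p := fun (y : (ℕ × ℕ) × List ℕ) i =>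
      (∃ f, p f = true ∧ C p n y.1.1 (Nat.pair 0 i) (Nat.pair (f + 1) 0)) ∨
      ∃ j, (y.2.any (· == j) = true ∧ j < n) ∧ C p n y.1.1 (Nat.pair 0 i) (Nat.pair 0 j))
      (re_or (re_ex (re_and (re_prim (by fun_prop)) ?_)) (re_ex (re_and (re_and
        (re_prim (by fun_prop)) (re_lt (by fun_prop) (by fun_prop))) ?_))) (by fun_prop))))
    fun x => by simp only [ncard_le_iff, Nat.lt_succ_iff]
  · exact re_comp' (re_C hp n) (fun z : (((ℕ × ℕ) × List ℕ) × ℕ) × ℕ =>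
      (z.1.1.1.1, Nat.pair 0 z.1.2, Nat.pair (z.2 + 1) 0)) (by fun_prop)
  · exact re_comp' (re_C hp n) (fun z : (((ℕ × ℕ) × List ℕ) × ℕ) × ℕ =>
      (z.1.1.1.1, Nat.pair 0 z.1.2, Nat.pair 0 z.2)) (by fun_prop)

theorem uc_eq (e : ℕ) (f g : {f // p f = true}) :
    uc hp n e f = uc hp n e g ↔ C p n e (Nat.pair (f + 1) 0) (Nat.pair (g + 1) 0) :=
  mk_eq.trans (cong_iff e _ _)

theorem inv_iso : Inv (Iso (σ := cs p hp) ∅ n) := by
  refine ⟨fun e k => (k.unpair.1 = 0 ∧ (Xs hp n e).ncard ≤ k.unpair.2) ∨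
    (0 < k.unpair.1 ∧ (p (k.unpair.1 - 1) = true ∧ p k.unpair.2 = true) ∧
      C p n e (Nat.pair k.unpair.1 0) (Nat.pair (k.unpair.2 + 1) 0)),
    re_or (re_and (re_eq (by fun_prop) (by fun_prop))
      (re_comp' (re_ncard hp n) (fun x : ℕ × ℕ => (x.1, x.2.unpair.2)) (by fun_prop)))
      (re_and (re_lt (by fun_prop) (by fun_prop)) (re_and (re_and (re_prim (by fun_prop))
        (re_prim (by fun_prop))) (re_comp' (re_C hp n) (fun x : ℕ × ℕ =>
        (x.1, Nat.pair x.2.unpair.1 0, Nat.pair (x.2.unpair.2 + 1) 0)) (by fun_prop)))),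
    fun e i => ?_⟩
  rw [iso_iff]
  constructor
  · rintro ⟨h1, h2⟩ k
    beta_reduce
    rw [h2]
    refine or_congr Iff.rfl (and_congr_right fun h0 => and_congr_right fun h3 => ?_)
    have := h1 ⟨_, h3.1⟩ ⟨_, h3.2⟩
    rwa [uc_eq, uc_eq, Nat.sub_add_cancel h0] at this
  · intro H
    refine ⟨fun f g => ?_, le_antisymm ?_ ?_⟩
    · rw [uc_eq, uc_eq]
      simpa [f.2, g.2] using H (Nat.pair (f + 1) g)
    · simpa using H (Nat.pair 0 (Xs hp n i).ncard)
    · simpa using H (Nat.pair 0 (Xs hp n e).ncard)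

theorem iso_of_W (e i : ℕ) (h : W e = W i) : Iso (σ := cs p hp) ∅ n e i := by
  unfold Iso Alg
  rw [h]
  exact ⟨Equiv.refl _, fun f h ts us _ => by rw [app_eq, app_eq]; rfl⟩

end

end Pool.Agent.H16.Cea
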