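import Mathlib
import Pool.Agent.H16.Cea2

set_option autoImplicit false

namespace Pool.Agent.H16.Cea
open Pool.Agent.H23.RE Pool.Agent.H23.CTools

section
variable {p : ℕ → Bool} {hp : Primrec p} {n : ℕ}

theorem cong_val {A : Set ℕ} {β : Type} (val : Tm (cs p hp) (Fin n) → β)
    (hA : ∀ s t, Nat.pair (s.code Fin.val) (t.code Fin.val) ∈ A → val s = val t)
    {s t : Tm (cs p hp) (Fin n)} (h : Cong ∅ A s t) : val s = val t := by
  induction h with
  | base s t h => exact hA s t h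
  | law l r θ h => exact h.elim
  | refl s => rfl
  | symm s t _ ih => exact ih.symm
  | trans s t u _ _ h1 h2 => exact h1.trans h2
  | app f h ts us _ _ => rw [app_eq, app_eq]
end

/-- Infinitely many constants. -/
def sInf' : Sig := cs (fun _ => true) (Primrec.const true)

theorem red_inf {E : ℕ → ℕ → Prop} (hE : Inv E) (m : ℕ) : Red E (Iso (σ := sInf') ∅ m) := by
  classical
  obtain ⟨J, hJ, H⟩ := hE
  obtain ⟨h, h1, h2⟩ := smn (p := fun e x => ∃ k, J e k ∧
      x = Nat.pair (Nat.pair (2 * k + 1) 0) (Nat.pair (2 * k + 1 + 1) 0))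
    (re_ex (re_and (re_comp' hJ (fun y : (ℕ × ℕ) × ℕ => (y.1.1, y.2)) (by fun_prop))
      (re_eq (by fun_prop) (by fun_prop))))
  have key : ∀ e k, J e k ↔ uc (Primrec.const true) m (h e) ⟨2 * k, rfl⟩ =
      uc (Primrec.const true) m (h e) ⟨2 * k + 1, rfl⟩ := by
    intro e k
    constructor
    · intro hk
      exact mk_eq.2 (.base _ _ ((h2 _ _).2 ⟨k, hk, rfl⟩))
    · intro hk
      let g : ℕ → ℕ := fun c => if J e ((c - 1) / 2) then 2 * ((c - 1) / 2) + 1 else c
      have := cong_val (fun t => g (t.code Fin.val).unpair.1) (fun s t hst => by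
        obtain ⟨j, hj, e1⟩ := (h2 _ _).1 hst
        rw [Nat.pair_eq_pair] at e1
        have a1 : (2 * j + 1 - 1) / 2 = j := by omega
        have a2 : (2 * j + 1 + 1 - 1) / 2 = j := by omega
        simp only [e1.1, e1.2, Nat.unpair_pair, g, a1, a2, hj, if_true]) (mk_eq.1 hk)
      have a1 : (2 * k + 1 - 1) / 2 = k := by omega
      have a2 : (2 * k + 1 + 1 - 1) / 2 = k := by omega
      simp only [code_cst, Nat.unpair_pair, g, a1, a2] at this
      by_contra hn
      simp [hn] at this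
  refine ⟨h, h1.to_comp, fun x y => ⟨fun hxy => iso_of_W _ _ _ _ ?_, fun hxy => ?_⟩⟩
  · ext z
    rw [h2, h2]
    simp only [(H x y).1 hxy]
  · refine (H x y).2 fun k => ?_
    rw [key, key]
    exact ((iso_iff _ _ _ _).1 hxy).1 _ _

theorem not_acc (m : ℕ) : ¬ ACC (σ := sInf') ∅ m := by
  intro H
  obtain ⟨e, he⟩ := ex_index (p := fun _ => (0 : ℕ) = 1) (re_eq (by fun_prop) (by fun_prop))
  have hv : ∀ k : ℕ, ∀ s t : Tm sInf' (Fin m), Cong ∅ (W e) s t →
      (s.code Fin.val).unpair.1 - k = (t.code Fin.val).unpair.1 - k := fun k s t h =>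
    cong_val (fun t => (t.code Fin.val).unpair.1 - k) (fun s t h => by simp [he] at h) h
  refine H e ⟨fun k => Setoid.ker (Quot.lift _ (hv (k + 1))), fun k f h ts us _ => ?_,
    strictMono_nat_of_lt_succ fun k => lt_of_le_of_ne ?_ fun h => ?_⟩
  · have : ts = us := funext fun j => j.elim0
    rw [this]
  · rintro ⟨s⟩ ⟨t⟩ h
    have h1 : (s.code Fin.val).unpair.1 - (k + 1) = (t.code Fin.val).unpair.1 - (k + 1) := h
    show (s.code Fin.val).unpair.1 - (k + 1 + 1) = (t.code Fin.val).unpair.1 - (k + 1 + 1)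
    omega
  · have h1 : (Setoid.ker (Quot.lift _ (hv (k + 1 + 1)))) (Quot.mk _ (cst (k + 1) rfl))
        (Quot.mk _ (cst 0 rfl)) := by
      show (Nat.pair (k + 1 + 1) 0).unpair.1 - (k + 1 + 1) = (Nat.pair (0 + 1) 0).unpair.1 - (k + 1 + 1)
      simp
    beta_reduce at h
    rw [← h] at h1
    have h2 : (Nat.pair (k + 1 + 1) 0).unpair.1 - (k + 1) = (Nat.pair (0 + 1) 0).unpair.1 - (k + 1) :=
      h1
    simp at h2

theorem lawsCE_empty (σ : Sig) : LawsCE (σ := σ) ∅ :=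
  (re_eq (f := fun _ : ℕ => 0) (g := fun _ => 1) (by fun_prop) (by fun_prop)).of_eq fun m => by simp

theorem nontriv_empty (σ : Sig) : NontrivialVar (σ := σ) ∅ :=
  ⟨Bool, fun _ _ _ => true, inferInstance, fun _ h => h.elim⟩

theorem inv_inf (m : ℕ) : Inv (Iso (σ := sInf') ∅ m) := inv_iso _ m

theorem not_complete (m : ℕ) : ¬ S3Complete (Iso (σ := sInf') ∅ m) := by
  rintro ⟨-, -, h⟩
  obtain ⟨F, h1, h2, h3⟩ := (inv_inf m).not_univ
  exact h3 (h F h1 h2)

theorem below (m : ℕ) (E : ℕ → ℕ → Prop) (hE : S3Complete E) :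
    Red (Iso (σ := sInf') ∅ m) E ∧ ¬ Red E (Iso (σ := sInf') ∅ m) := by
  refine ⟨hE.2.2 _ (inv_inf m).equiv (inv_inf m).sigma3, fun h => ?_⟩
  obtain ⟨F, h1, h2, h3⟩ := (inv_inf m).not_univ
  exact h3 ((hE.2.2 F h1 h2).trans h)

section
variable {p : ℕ → Bool} (hp : Primrec p) (n : ℕ)

/-- An index whose congruence is the kernel of a primitive recursive function of codes. -/
theorem ex_ker (val : ℕ → ℕ) (hv : Primrec val) : ∃ e, (∀ m, m ∈ W e ↔
    val m.unpair.1 = val m.unpair.2) ∧ ∀ s t : Tm (cs p hp) (Fin n),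
      Cong ∅ (W e) s t ↔ val (s.code Fin.val) = val (t.code Fin.val) := by
  obtain ⟨e, he⟩ := ex_index (p := fun m => val m.unpair.1 = val m.unpair.2)
    (re_eq (by fun_prop) (by fun_prop))
  exact ⟨e, he, fun s t => ⟨cong_val (fun t => val (t.code Fin.val))
    (fun s t h => by simpa using (he _).1 h), fun h => .base _ _ ((he _).2 (by simpa using h))⟩⟩

theorem ncard_le_n (e : ℕ) : (Xs hp n e).ncard ≤ n := by
  refine (Set.ncard_le_ncard (Xs_sub hp n e) (Set.finite_range _)).trans ?_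
  rw [← Set.image_univ]
  refine (Set.ncard_image_le (Set.toFinite _)).trans ?_
  simp [Set.ncard_univ]
end

theorem p3 : Primrec fun f : ℕ => Nat.blt f 3 := by fun_prop
theorem p0 : Primrec fun _ : ℕ => false := Primrec.const _

/-- Three constants. -/
def sThree : Sig := cs (fun f => Nat.blt f 3) p3
/-- The empty signature. -/
def sNone : Sig := cs (fun _ => false) p0

theorem isoQ (n e i : ℕ) : Iso (σ := sNone) ∅ n e i ↔ (Xs p0 n e).ncard = (Xs p0 n i).ncard := by
  refine (iso_iff p0 n e i).trans (and_iff_right fun f => ?_)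
  exact absurd f.2 (by simp)

def T (e a b : ℕ) : Prop := C (fun f => Nat.blt f 3) 1 e (Nat.pair a 0) (Nat.pair b 0)

def D (e : ℕ) : Prop := (Xs p3 1 e).ncard ≤ 0

theorem T_symm {e a b : ℕ} (h : T e a b) : T e b a := C_symm h
theorem T_trans {e a b c : ℕ} (h : T e a b) (k : T e b c) : T e a c := h.trans k
theorem T_refl (e a : ℕ) : T e a a := .refl

theorem isoP (e i : ℕ) : Iso (σ := sThree) ∅ 1 e i ↔ (T e 1 2 ↔ T i 1 2) ∧ (T e 1 3 ↔ T i 1 3) ∧
    (T e 2 3 ↔ T i 2 3) ∧ (D e ↔ D i) := by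
  refine (iso_iff p3 1 e i).trans ?_
  simp only [uc_eq]
  have a1 := ncard_le_n p3 1 e
  have a2 := ncard_le_n p3 1 i
  constructor
  · rintro ⟨h1, h2⟩
    exact ⟨h1 ⟨0, rfl⟩ ⟨1, rfl⟩, h1 ⟨0, rfl⟩ ⟨2, rfl⟩, h1 ⟨1, rfl⟩ ⟨2, rfl⟩, by rw [D, D, h2]⟩
  · rintro ⟨h1, h2, h3, h4⟩
    refine ⟨fun ⟨f, hf⟩ ⟨g, hg⟩ => ?_, by unfold D at h4; omega⟩
    simp only [Nat.blt_eq] at hf hg
    have sw : ∀ a b, (T e a b ↔ T i a b) → (T e b a ↔ T i b a) := fun a b h =>
      ⟨fun k => T_symm (h.1 (T_symm k)), fun k => T_symm (h.2 (T_symm k))⟩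
    have rf : ∀ a, (T e a a ↔ T i a a) := fun a => ⟨fun _ => T_refl _ _, fun _ => T_refl _ _⟩
    change T e (f + 1) (g + 1) ↔ T i (f + 1) (g + 1)
    interval_cases f <;> interval_cases g <;>
      first | exact rf _ | assumption | (apply sw; assumption)

theorem D_iff (e : ℕ) : D e ↔ ∃ f < 3, C (fun f => Nat.blt f 3) 1 e (Nat.pair 0 0)
    (Nat.pair (f + 1) 0) := by
  rw [D, ncard_le_iff]
  constructor
  · rintro ⟨l, h1, h2⟩
    have : l = [] := List.length_eq_zero_iff.1 (by omega)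
    subst this
    simpa using h2 0 (by omega)
  · rintro ⟨f, h1, h2⟩
    refine ⟨[], le_rfl, fun i hi => Or.inl ⟨f, by simpa using h1, ?_⟩⟩
    obtain rfl : i = 0 := by omega
    exact h2

def tab : Fin 7 → List ℕ :=
  ![[0, 1, 2, 3], [0, 1, 1, 3], [0, 1, 2, 1], [0, 1, 2, 2], [0, 1, 1, 1], [1, 1, 2, 3], [1, 1, 1, 1]]

theorem notPQ : ¬ Red (Iso (σ := sThree) ∅ 1) (Iso (σ := sNone) ∅ 5) := by
  rintro ⟨h, -, H⟩
  choose a ha using fun j : Fin 7 => ex_ker p3 1 (fun m => (tab j).getD m.unpair.1 0) (by fun_prop)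
  have hT : ∀ j f g, f < 3 → g < 3 → (T (a j) (f + 1) (g + 1) ↔
      (tab j).getD (f + 1) 0 = (tab j).getD (g + 1) 0) := fun j f g hf hg => by
    have := (cong_iff (hp := p3) (n := 1) (a j) (cst f (by simpa)) (cst g (by simpa))).symm.trans
      ((ha j).2 _ _)
    simpa [T] using this
  have hD : ∀ j, D (a j) ↔ ∃ f < 3, (tab j).getD 0 0 = (tab j).getD (f + 1) 0 := fun j => by
    rw [D_iff]
    refine exists_congr fun f => and_congr_right fun hf => ?_
    have := (cong_iff (hp := p3) (n := 1) (a j) (.var 0) (cst f (by simpa))).symm.trans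
      ((ha j).2 _ _)
    simpa using this
  obtain ⟨i, j, hij, e⟩ := Fintype.exists_ne_map_eq_of_card_lt
    (fun j : Fin 7 => (⟨(Xs p0 5 (h (a j))).ncard, Nat.lt_succ_of_le (ncard_le_n p0 5 _)⟩ : Fin 6))
    (by simp)
  have := (isoP _ _).1 ((H _ _).2 ((isoQ 5 _ _).2 (congrArg Fin.val e)))
  rw [hT i 0 1 (by omega) (by omega), hT j 0 1 (by omega) (by omega),
    hT i 0 2 (by omega) (by omega), hT j 0 2 (by omega) (by omega),
    hT i 1 2 (by omega) (by omega), hT j 1 2 (by omega) (by omega), hD, hD] at this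
  clear e
  revert i j
  decide

open Classical in
noncomputable def rk (e : ℕ) : ℕ :=
  (if T e 1 2 ∧ T e 1 3 then 2 else if T e 1 2 ∨ T e 1 3 ∨ T e 2 3 then 1 else 0) +
    if D e then 1 else 0

theorem rk_le (e : ℕ) : rk e ≤ 3 := by unfold rk; split_ifs <;> omega

theorem rk_lt (e i : ℕ) (h1 : T e 1 2 → T i 1 2) (h2 : T e 1 3 → T i 1 3) (h3 : T e 2 3 → T i 2 3)
    (h4 : D e → D i) (hn : ¬ Iso (σ := sThree) ∅ 1 e i) : rk e < rk i := by
  rw [isoP] at hn
  have t1 : ∀ x, T x 1 2 → T x 1 3 → T x 2 3 := fun x a b => T_trans (T_symm a) b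
  have t2 : ∀ x, T x 1 2 → T x 2 3 → T x 1 3 := fun x a b => T_trans a b
  have t3 : ∀ x, T x 1 3 → T x 2 3 → T x 1 2 := fun x a b => T_trans a (T_symm b)
  have := t1 e; have := t2 e; have := t3 e; have := t1 i; have := t2 i; have := t3 i
  unfold rk
  by_cases a1 : T e 1 2 <;> by_cases a2 : T e 1 3 <;> by_cases a3 : T e 2 3 <;> by_cases a4 : D e <;>
    by_cases b1 : T i 1 2 <;> by_cases b2 : T i 1 3 <;> by_cases b3 : T i 2 3 <;>
    by_cases b4 : D i <;> simp_all

theorem notQP : ¬ Red (Iso (σ := sNone) ∅ 5) (Iso (σ := sThree) ∅ 1) := by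
  rintro ⟨h, hh, H⟩
  choose a ha using fun k : ℕ => ex_ker p0 5 (fun m => m.unpair.2 - k) (by fun_prop)
  have hc : ∀ k, (Xs p0 5 (a k)).ncard = (Finset.univ.image fun i : Fin 5 => i.val - k).card := by
    intro k
    let g : Alg (σ := cs _ p0) ∅ 5 (a k) → ℕ :=
      Quot.lift (fun t => (t.code Fin.val).unpair.2 - k) fun s t h => ((ha k).2 s t).1 h
    have hg : Function.Injective g := by
      rintro ⟨s⟩ ⟨t⟩ h
      exact mk_eq.2 (((ha k).2 s t).2 h)
    rw [← Set.ncard_image_of_injective _ hg, ← Set.ncard_coe_finset]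
    congr 1
    ext x
    simp only [Set.mem_image, Finset.coe_image, Finset.coe_univ, Set.image_univ, Set.mem_range]
    constructor
    · rintro ⟨t, ht, rfl⟩
      obtain ⟨i, rfl⟩ := Xs_sub p0 5 _ ht
      exact ⟨i, by simp [g]⟩
    · rintro ⟨i, rfl⟩
      exact ⟨Quot.mk _ (.var i), fun ⟨f, _⟩ => absurd f.2 (by simp), by simp [g]⟩
  have step : ∀ k < 4, rk (h (a k)) < rk (h (a (k + 1))) := by
    intro k hk
    have hs : W (a k) ⊆ W (a (k + 1)) := fun m hm => by
      rw [(ha _).1] at hm ⊢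
      omega
    have M := fun Φ hΦ hinv => mono (E := Iso (σ := sNone) ∅ 5) (F := Iso (σ := sThree) ∅ 1)
      (iso_of_W p0 5) hh (fun x y => (H x y).1) (Φ := Φ) hΦ hinv hs
    have R : ∀ b c, REPred fun e => T e b c := fun b c =>
      re_comp' (re_C p3 1) (fun e : ℕ => (e, Nat.pair b 0, Nat.pair c 0)) (by fun_prop)
    refine rk_lt _ _ (M _ (R 1 2) fun x y h => ((isoP x y).1 h).1)
      (M _ (R 1 3) fun x y h => ((isoP x y).1 h).2.1)
      (M _ (R 2 3) fun x y h => ((isoP x y).1 h).2.2.1)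
      (M D (re_comp' (re_ncard p3 1) (fun e : ℕ => (e, 0)) (by fun_prop))
        fun x y h => ((isoP x y).1 h).2.2.2) fun hi => ?_
    have := (isoQ 5 _ _).1 ((H _ _).2 hi)
    rw [hc, hc] at this
    revert this
    interval_cases k <;> decide
  have := step 0 (by omega); have := step 1 (by omega); have := step 2 (by omega)
  have := step 3 (by omega); have := rk_le (h (a (3 + 1)))
  norm_num at *
  omega

end Pool.Agent.H16.Cea
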