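import Mathlib

set_option autoImplicit false

namespace Pool.Agent.H16.Chap
open Finset Polynomial

theorem sum_zmod {p : ℕ} [NeZero p] {M : Type*} [AddCommMonoid M] (f : ZMod p → M) :
    ∑ a, f a = ∑ j ∈ range p, f j := by
  refine sum_nbij' ZMod.val Nat.cast (fun a _ => mem_range.mpr (ZMod.val_lt a)) (fun _ _ => mem_univ _)
    (fun a _ => ZMod.natCast_zmod_val a) (fun j hj => ZMod.val_cast_of_lt (mem_range.mp hj))
    (fun a _ => by rw [ZMod.natCast_zmod_val])

variable {p : ℕ} [Fact p.Prime] {K : Type*} [Field K]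

noncomputable def ch (p : ℕ) [Fact p.Prime] (K : Type*) [Field K] : MulChar (ZMod p) K :=
  (quadraticChar (ZMod p)).ringHomComp (Int.castRingHom K)

theorem ch_int (a : ℤ) : ch p K a = (legendreSym p a : K) := rfl

theorem ch_cases {b : ZMod p} (hb : b ≠ 0) : ch p K b = 1 ∨ ch p K b = -1 := by
  rcases quadraticChar_dichotomy hb with h | h <;> simp [ch, h]

theorem ch_zero : ch p K 0 = 0 := by simp [ch]

theorem ch_neg_one (h3 : p % 4 = 3) : ch p K (-1) = -1 := by
  have := ch_int (p := p) (K := K) (-1)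
  rw [legendreSym.at_neg_one (by omega), ZMod.χ₄_nat_three_mod_four h3] at this
  simpa using this

theorem tau_sq (h3 : p % 4 = 3) (h2 : (2 : K) ≠ 0) {ψ : AddChar (ZMod p) K} (hψ : ψ.IsPrimitive) :
    gaussSum (ch p K) ψ ^ 2 = -p := by
  rw [gaussSum_sq (χ := ch p K) _ ((quadraticChar_isQuadratic _).comp _) hψ, ch_neg_one h3]
  · simp
  · intro h
    have := ch_neg_one (K := K) h3
    rw [h, MulChar.one_apply isUnit_one.neg] at this
    exact h2 (by linear_combination this)

noncomputable def G (ψ : AddChar (ZMod p) K) : K[X] :=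
  ∏ b ∈ univ.erase (0 : ZMod p), (1 - C (ch p K b * ψ (-b)) * X)

theorem G_deg (ψ : AddChar (ZMod p) K) : (G ψ).natDegree ≤ p - 1 := by
  refine (natDegree_prod_le _ _).trans ((sum_le_card_nsmul _ _ 1 fun b _ => ?_).trans ?_)
  · compute_degree
  · simp

theorem G_root (ψ : AddChar (ZMod p) K) {b : ZMod p} (hb : b ≠ 0) :
    (G ψ).eval (ch p K b * ψ b) = 0 := by
  rw [G, eval_prod]
  refine prod_eq_zero (mem_erase.mpr ⟨hb, mem_univ _⟩) ?_
  have h : ψ (-b) * ψ b = 1 := by rw [← AddChar.map_add_eq_mul]; simp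
  rcases ch_cases (K := K) hb with h1 | h1 <;> simp [h1, h]

theorem root_inj (h3 : p % 4 = 3) {ψ : AddChar (ZMod p) K} (hψ : ψ.IsPrimitive) :
    Function.Injective fun b : ZMod p => ch p K b * ψ b := by
  have hp : ∀ b : ZMod p, ψ b ^ p = 1 := fun b => by
    rw [← AddChar.map_nsmul_eq_pow]; simp
  have hne : ∀ b : ZMod p, ψ b ≠ 0 := fun b h => by
    have := hp b
    rw [h, zero_pow (by omega)] at this
    exact zero_ne_one this
  have hc : ∀ b : ZMod p, ch p K b ^ p = ch p K b := fun b => by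
    have ho : Odd p := Nat.odd_iff.mpr (by omega)
    by_cases hb : b = 0
    · rw [hb, ch_zero, zero_pow (by omega)]
    · rcases ch_cases (K := K) hb with h | h <;> simp [h, ho.neg_one_pow]
  intro a b h
  simp only at h
  have h1 : ch p K a = ch p K b := by
    have := congrArg (· ^ p) h
    simpa only [mul_pow, hp, hc, mul_one] using this
  have h0 : ∀ c : ZMod p, ch p K c = 0 → c = 0 := fun c hc => by
    by_contra h
    rcases ch_cases (K := K) h with e | e <;> simp [e] at hc
  by_cases hb : b = 0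
  · rw [hb, ch_zero] at h1
    rw [hb, h0 a h1]
  · rw [h1] at h
    have h4 := mul_left_cancel₀ (fun e => hb (h0 b e)) h
    have h5 : ψ (a - b) = 1 := by
      rw [AddChar.map_sub_eq_div, h4, div_self (hne b)]
    exact sub_eq_zero.mp ((hψ.zmod_char_eq_one_iff p _).mp h5)

theorem fourier (ψ : AddChar (ZMod p) K) (m : ℕ) (x : ℕ → K) {a : ZMod p} (ha : a ≠ 0) :
    ∑ j : ZMod p, (∑ k ∈ range m, ch p K (j - k) * x k) * ψ (a * j) =
      ch p K a * gaussSum (ch p K) ψ * ∑ k ∈ range m, x k * ψ (a * k) := by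
  simp_rw [sum_mul, mul_sum]
  rw [sum_comm]
  refine sum_congr rfl fun k _ => ?_
  have h1 := gaussSum_mulShift (ch p K) ψ (Units.mk0 a ha)
  have h2 : ch p K a * ch p K a = 1 := by rcases ch_cases (K := K) ha with h | h <;> simp [h]
  rw [← h1, Units.val_mk0, ← mul_assoc (ch p K a) (ch p K a), h2, one_mul, gaussSum, ← mul_assoc,
    sum_mul, sum_mul]
  refine (Fintype.sum_equiv (Equiv.subRight (k : ZMod p)) _ _ fun j => ?_)
  simp only [Equiv.subRight_apply, AddChar.mulShift_apply]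
  rw [show a * j = a * (j - k) + a * k by ring, AddChar.map_add_eq_mul]
  ring

/-- the main polynomial attached to a vector killed by the leading minor of order `m` -/
noncomputable def F (ψ : AddChar (ZMod p) K) (m d : ℕ) (x : ℕ → K) : K[X] :=
  ∑ i ∈ range (p - m), C (∑ k ∈ range m, ch p K ((m + i : ℕ) - k) * x k) * X ^ (2 * i) -
    C (ch p K 2 * gaussSum (ch p K) ψ) * ∑ k ∈ range m, C (x k) * X ^ (2 * k + d)

theorem F_root (ψ : AddChar (ZMod p) K) (m e : ℕ) (hm : p = 2 * m + (2 * e + 1)) (x : ℕ → K)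
    (hx : ∀ j < m, ∑ k ∈ range m, ch p K ((j : ℕ) - k) * x k = 0) {b : ZMod p} (hb : b ≠ 0)
    (h3 : p % 4 = 3) : (F ψ m (2 * e + 1) x).eval (ch p K b * ψ b) = 0 := by
  have h2 : (2 : ZMod p) ≠ 0 := by
    intro h
    have := (ZMod.natCast_eq_zero_iff 2 p).mp (by exact_mod_cast h)
    have := Nat.le_of_dvd (by norm_num) this
    omega
  have h1 := fourier ψ m x (mul_ne_zero h2 hb)
  rw [sum_zmod, show range p = range (m + (p - m)) by congr 1; omega, sum_range_add, sum_eq_zero fun j hj => by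
    rw [hx j (mem_range.mp hj), zero_mul], zero_add] at h1
  have hs : ch p K b ^ 2 = 1 := by rcases ch_cases (K := K) hb with h | h <;> simp [h]
  have hp0 : (2 * m + (2 * e + 1) : ZMod p) = 0 := by
    have : ((2 * m + (2 * e + 1) : ℕ) : ZMod p) = 0 := by rw [← hm]; simp
    exact_mod_cast this
  have h4 := congrArg (· * ψ b ^ (2 * e + 1)) h1
  simp only [sum_mul, mul_assoc _ (∑ k ∈ range m, _)] at h4
  simp only [F, eval_sub, eval_finsetSum, eval_mul, eval_C, eval_pow, eval_X]
  rw [sub_eq_zero]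
  convert h4 using 1
  · refine sum_congr rfl fun i _ => ?_
    rw [← sum_mul, ← sum_mul, mul_assoc, mul_pow, pow_mul, hs, one_pow, one_mul, ← AddChar.map_nsmul_eq_pow,
      ← AddChar.map_nsmul_eq_pow, ← AddChar.map_add_eq_mul]
    congr 2
    simp only [nsmul_eq_mul]
    push_cast
    linear_combination (-b) * hp0
  · rw [map_mul, mul_right_comm (ch p K 2) (ch p K b), mul_assoc _ (ch p K b),
      mul_sum _ _ (ch p K b)]
    congr 1
    refine sum_congr rfl fun k _ => ?_
    rw [mul_pow, show 2 * k + (2 * e + 1) = 2 * (k + e) + 1 by ring, pow_succ, pow_mul, hs, one_pow,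
      one_mul, mul_assoc (x k), ← AddChar.map_nsmul_eq_pow, ← AddChar.map_nsmul_eq_pow,
      ← AddChar.map_add_eq_mul, mul_left_comm]
    congr 3
    simp only [nsmul_eq_mul]
    push_cast
    ring

theorem F_deg (ψ : AddChar (ZMod p) K) (m e : ℕ) (hm : p = 2 * m + (2 * e + 1)) (x : ℕ → K) :
    (F ψ m (2 * e + 1) x).natDegree ≤ 2 * m + 4 * e := by
  refine (natDegree_sub_le _ _).trans (max_le ?_ ?_)
  · refine natDegree_sum_le_of_forall_le _ _ fun i hi => (natDegree_C_mul_X_pow_le _ _).trans ?_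
    have := mem_range.mp hi
    omega
  · refine (natDegree_C_mul_le _ _).trans (natDegree_sum_le_of_forall_le _ _ fun i hi =>
      (natDegree_C_mul_X_pow_le _ _).trans ?_)
    have := mem_range.mp hi
    omega

theorem F_odd (ψ : AddChar (ZMod p) K) (m e : ℕ) (x : ℕ → K) (k : ℕ) :
    (F ψ m (2 * e + 1) x).coeff (2 * k + 1) =
      if e ≤ k ∧ k < m + e then -(ch p K 2 * gaussSum (ch p K) ψ * x (k - e)) else 0 := by
  simp only [F, coeff_sub, finsetSum_coeff, coeff_C_mul, coeff_X_pow]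
  rw [sum_eq_zero fun i _ => by rw [if_neg (by omega), mul_zero], zero_sub]
  split_ifs with h
  · rw [sum_eq_single (k - e) (fun i _ hi => by rw [if_neg (by omega), mul_zero])
      (fun h' => absurd (mem_range.mpr (by omega)) h'), if_pos (by omega), mul_one]
  · rw [sum_eq_zero fun i hi => by
      have := mem_range.mp hi
      rw [if_neg (by omega), mul_zero], mul_zero, neg_zero]

theorem prod_coeff {ι : Type*} (s : Finset ι) (c : ι → K) :
    (∏ b ∈ s, (1 - C (c b) * X)).coeff 0 = 1 ∧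
      (∏ b ∈ s, (1 - C (c b) * X)).coeff 1 = -∑ b ∈ s, c b := by
  classical
  induction s using Finset.induction_on with
  | empty => simp [coeff_one]
  | insert a s ha ih =>
    rw [prod_insert ha, sum_insert ha, sub_mul, one_mul, mul_assoc]
    simp [coeff_X_mul, ih.1, ih.2]
    ring

theorem G_zero (ψ : AddChar (ZMod p) K) : (G ψ).coeff 0 = 1 := (prod_coeff _ _).1

theorem G_one (h3 : p % 4 = 3) (ψ : AddChar (ZMod p) K) : (G ψ).coeff 1 = gaussSum (ch p K) ψ := by
  rw [G, (prod_coeff _ _).2, sum_erase _ (by rw [ch_zero, zero_mul]), gaussSum, ← sum_neg_distrib]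
  refine Fintype.sum_equiv (Equiv.neg _) _ _ fun b => ?_
  rw [Equiv.neg_apply, show ch p K (-b) = ch p K (-1) * ch p K b by rw [← map_mul, neg_one_mul],
    ch_neg_one h3]
  ring

theorem F_eq (h3 : p % 4 = 3) {ψ : AddChar (ZMod p) K} (hψ : ψ.IsPrimitive)
    (n : ℕ) (hn : p = 2 * n + 1) (x : ℕ → K)
    (hx : ∀ j < n, ∑ k ∈ range n, ch p K ((j : ℕ) - k) * x k = 0) :
    F ψ n 1 x = C ((F ψ n 1 x).coeff 0) * G ψ := by
  rw [← sub_eq_zero]
  refine eq_zero_of_natDegree_lt_card_of_eval_eq_zero _ (root_inj h3 hψ) (fun b => ?_) ?_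
  · by_cases hb : b = 0
    · simp [hb, ch_zero, ← coeff_zero_eq_eval_zero, G_zero]
    · have := F_root ψ n 0 (by omega) x hx hb h3
      simp only [mul_zero, zero_add] at this
      simp [this, G_root ψ hb]
  · have h1 := F_deg ψ n 0 (by omega) x
    have h4 := (natDegree_C_mul_le ((F ψ n 1 x).coeff 0) (G ψ)).trans (G_deg ψ)
    simp only [mul_zero, zero_add] at h1
    refine (natDegree_sub_le _ _).trans_lt ?_
    rw [ZMod.card]
    omega

theorem ker_coeff (h3 : p % 4 = 3) (h2 : (2 : K) ≠ 0) (hp : (p : K) ≠ 0) {ψ : AddChar (ZMod p) K}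
    (hψ : ψ.IsPrimitive) (n : ℕ) (hn : p = 2 * n + 1) (x : ℕ → K)
    (hx : ∀ j < n, ∑ k ∈ range n, ch p K ((j : ℕ) - k) * x k = 0) (k : ℕ) (hk : k < n) :
    gaussSum (ch p K) ψ ≠ 0 ∧ (F ψ n 1 x).coeff 0 = -(ch p K 2 * x 0) ∧
      gaussSum (ch p K) ψ * x k = x 0 * (G ψ).coeff (2 * k + 1) := by
  have ht : gaussSum (ch p K) ψ ≠ 0 := fun h => by
    have := tau_sq h3 h2 hψ
    rw [h] at this
    exact hp (by linear_combination this)
  have hc : ch p K 2 ≠ 0 := by
    have h2 : (2 : ZMod p) ≠ 0 := by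
      intro h
      have := (ZMod.natCast_eq_zero_iff 2 p).mp (by exact_mod_cast h)
      have := Nat.le_of_dvd (by norm_num) this
      omega
    rcases ch_cases (K := K) h2 with h | h <;> simp [h]
  have h := fun k => congrArg (coeff · (2 * k + 1)) (F_eq h3 hψ n hn x hx)
  have hF := F_odd ψ n 0 x
  simp only [mul_zero, zero_add, Nat.zero_le, true_and, add_zero, Nat.sub_zero] at hF
  simp only [hF, coeff_C_mul] at h
  have h0 := h 0
  have hk' := h k
  rw [if_pos (by omega), mul_zero, zero_add, G_one h3] at h0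
  rw [if_pos hk] at hk'
  have h5 : (F ψ n 1 x).coeff 0 = -(ch p K 2 * x 0) :=
    mul_right_cancel₀ ht (by linear_combination -h0)
  refine ⟨ht, h5, mul_left_cancel₀ hc ?_⟩
  rw [h5] at hk'
  linear_combination -hk'

end Pool.Agent.H16.Chap
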