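import Mathlib
import Pool.Agent.H16.Chap1

set_option autoImplicit false

namespace Pool.Agent.H16.Chap
open Finset Polynomial

variable {p : ℕ} [Fact p.Prime]

def Ker (p : ℕ) [Fact p.Prime] {R : Type*} [CommRing R] (n : ℕ) (x : ℕ → R) : Prop :=
  ∀ j < n, ∑ k ∈ range n, (legendreSym p ((j : ℤ) - k) : R) * x k = 0

def M (p : ℕ) [Fact p.Prime] (m : ℕ) : Matrix (Fin m) (Fin m) ℤ :=
  Matrix.of fun j k => legendreSym p (((j : ℕ) : ℤ) - ((k : ℕ) : ℤ))

theorem skew (h3 : p % 4 = 3) (a b : ℤ) : legendreSym p (a - b) = -legendreSym p (b - a) := by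
  rw [← neg_sub b a, legendreSym.at_neg (by omega), ZMod.χ₄_nat_three_mod_four h3]
  ring

theorem ker_ch {K : Type*} [Field K] {n : ℕ} {x : ℕ → K} (h : Ker p n x) :
    ∀ j < n, ∑ k ∈ range n, ch p K ((j : ℕ) - k) * x k = 0 := by
  intro j hj
  rw [← h j hj]
  refine sum_congr rfl fun k _ => ?_
  rw [← ch_int]
  push_cast
  rfl

theorem ker_of_det {R : Type*} [CommRing R] [IsDomain R] (m : ℕ) (h : (((M p m).det : ℤ) : R) = 0) :
    ∃ x : ℕ → R, Ker p m x ∧ ∃ k < m, x k ≠ 0 := by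
  rw [show (((M p m).det : ℤ) : R) = ((Int.castRingHom R).mapMatrix (M p m)).det from
    (Int.castRingHom R).map_det _] at h
  obtain ⟨v, hv, h⟩ := Matrix.exists_mulVec_eq_zero_iff.mpr h
  refine ⟨fun k => if h : k < m then v ⟨k, h⟩ else 0, fun j hj => ?_, ?_⟩
  · refine Eq.trans ?_ (congrFun h ⟨j, hj⟩)
    rw [sum_range]
    simp [Matrix.mulVec, dotProduct, M]
  · obtain ⟨k, hk⟩ := Function.ne_iff.mp hv
    exact ⟨k, k.2, by simpa using hk⟩

theorem det_odd (h3 : p % 4 = 3) (m : ℕ) (hm : Odd m) : (M p m).det = 0 := by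
  have h : (M p m).transpose = -M p m := by
    ext j k
    simp only [M, Matrix.transpose_apply, Matrix.of_apply, Matrix.neg_apply]
    exact skew h3 _ _
  have := congrArg Matrix.det h
  rw [Matrix.det_transpose, Matrix.det_neg, Fintype.card_fin, hm.neg_one_pow] at this
  omega

theorem prim (h3 : p % 4 = 3) (m : ℕ) (hm : Odd m) :
    ∃ v : ℕ → ℤ, Ker p m v ∧ ∀ l : ℕ, l.Prime → ∃ k < m, ¬ (l : ℤ) ∣ v k := by
  obtain ⟨x, hx, k, hk, hk0⟩ := ker_of_det (p := p) (R := ℤ) m (by simpa using det_odd h3 m hm)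
  obtain ⟨g, h1, h2⟩ := extract_gcd (s := range m) x ⟨k, mem_range.mpr hk⟩
  have h0 : (range m).gcd x ≠ 0 := fun h => hk0 (by rw [h1 k (mem_range.mpr hk), h, zero_mul])
  refine ⟨g, fun j hj => mul_left_cancel₀ h0 ?_, fun l hl => ?_⟩
  · rw [mul_zero, ← hx j hj, mul_sum]
    exact sum_congr rfl fun i hi => by rw [h1 i hi]; ring
  · by_contra hc
    push Not at hc
    have : (l : ℤ) ∣ (range m).gcd g := Finset.dvd_gcd fun i hi => hc i (mem_range.mp hi)
    rw [h2] at this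
    exact hl.one_lt.ne' (by exact_mod_cast Int.eq_one_of_dvd_one (by positivity) this)

theorem ker_cast {R : Type*} [CommRing R] {m : ℕ} {v : ℕ → ℤ} (h : Ker p m v) :
    Ker p m fun k => (v k : R) := fun j hj => by
  have := congrArg (Int.cast (R := R)) (h j hj)
  simpa using this

theorem nonsing (h3 : p % 4 = 3) {R : Type*} [CommRing R] [IsDomain R] (m : ℕ) (v : ℕ → R)
    (hv : Ker p (m + 1) v) (h0 : v 0 ≠ 0)
    (hI : ∀ x : ℕ → R, Ker p (m + 1) x → x 0 = 0 → ∀ k < m + 1, x k = 0) :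
    (((M p m).det : ℤ) : R) ≠ 0 := by
  intro h
  obtain ⟨y, hy, k, hk, hk0⟩ := ker_of_det (p := p) m h
  let x : ℕ → R := fun k => Nat.casesOn k 0 y
  have h1 : ∀ j < m, ∑ k ∈ range (m + 1), (legendreSym p ((j + 1 : ℕ) - k) : R) * x k = 0 := by
    intro j hj
    rw [sum_range_succ', ← hy j hj]
    simp [x]
  have h2 : ∑ j ∈ range (m + 1), v j * ∑ k ∈ range (m + 1), (legendreSym p (j - k) : R) * x k = 0 := by
    simp_rw [mul_sum]
    rw [sum_comm]
    refine sum_eq_zero fun k hk => ?_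
    have := congrArg (· * (-x k)) (hv k (mem_range.mp hk))
    simp only [sum_mul, zero_mul] at this
    rw [← this]
    refine sum_congr rfl fun j _ => ?_
    rw [skew h3 j k]
    push_cast
    ring
  rw [sum_range_succ', sum_eq_zero fun j hj => by rw [h1 j (mem_range.mp hj), mul_zero], zero_add] at h2
  refine hk0 (hI x (fun j hj => ?_) rfl (k + 1) (by omega))
  rcases j with _ | j
  · exact (mul_eq_zero.mp h2).resolve_left h0
  · exact h1 j (by omega)

theorem inj_two {n : ℕ} (hn : p = 2 * n + 1) (x : ℕ → ZMod 2) (hx : Ker p n x) (h0 : x 0 = 0) :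
    ∀ k < n, x k = 0 := by
  have h : ∀ j < n, ∑ k ∈ range n, x k = x j := by
    intro j hj
    rw [← sub_eq_zero, ← hx j hj, ← sum_erase_eq_sub (mem_range.mpr hj),
      ← sum_erase (a := j) (f := fun k : ℕ => (legendreSym p ((j : ℤ) - k) : ZMod 2) * x k) _ (by simp)]
    refine sum_congr rfl fun k hk => ?_
    obtain ⟨h1, h2⟩ := mem_erase.mp hk
    have h2 := mem_range.mp h2
    have : (((j : ℤ) - k : ℤ) : ZMod p) ≠ 0 := by
      rw [Ne, ZMod.intCast_zmod_eq_zero_iff_dvd]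
      intro h
      have := Int.eq_zero_of_abs_lt_dvd h (by rw [abs_lt]; omega)
      omega
    rcases legendreSym.eq_one_or_neg_one p this with h | h <;> rw [h] <;> simp
  intro k hk
  rw [← h k hk, h 0 (by omega), h0]

theorem sum_p {n : ℕ} (hn : p = 2 * n + 1) (x : ℕ → ZMod p) (hx : Ker p n x)
    (h0 : ∑ k ∈ range n, x k = 0) : ∀ k < n, x k = 0 := by
  have hinj : ∀ m ≤ p, Function.Injective fun i : Fin m => ((i : ℕ) : ZMod p) := by
    intro m hm i j h
    have := (ZMod.natCast_eq_natCast_iff' _ _ _).mp h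
    rw [Nat.mod_eq_of_lt (by omega), Nat.mod_eq_of_lt (by omega)] at this
    exact Fin.ext this
  let P : (ZMod p)[X] := ∑ k ∈ range n, C (x k) * (X + C (-(k : ZMod p))) ^ n
  have hc : ∀ r, P.coeff r = (∑ k ∈ range n, x k * (-(k : ZMod p)) ^ (n - r)) * n.choose r := by
    intro r
    simp only [P, finsetSum_coeff, coeff_C_mul, coeff_X_add_C_pow, sum_mul, mul_assoc]
  intro k hk
  have hP : P = 0 := by
    refine eq_zero_of_natDegree_lt_card_of_eval_eq_zero P (hinj n (by omega)) (fun i => ?_) ?_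
    · rw [← hx i i.2]
      simp only [P, eval_finsetSum, eval_mul, eval_C, eval_pow, eval_add, eval_X]
      refine sum_congr rfl fun k _ => ?_
      rw [legendreSym.eq_pow, show p / 2 = n by omega]
      push_cast
      ring
    · rw [Fintype.card_fin]
      refine lt_of_le_of_lt (natDegree_le_iff_coeff_eq_zero.mpr fun r hr => ?_) (show n - 1 < n by omega)
      rw [hc]
      rcases Nat.lt_or_ge n r with h | h
      · simp [Nat.choose_eq_zero_of_lt h]
      · obtain rfl : r = n := by omega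
        simp [h0]
  have := Matrix.eq_zero_of_forall_pow_sum_mul_pow_eq_zero (v := fun i : Fin n => x i)
    (neg_injective.comp (hinj n (by omega))) fun i => by
      have h1 := hc (n - i)
      rw [hP, coeff_zero, show n - (n - i) = i by omega, sum_range] at h1
      refine (mul_eq_zero.mp h1.symm).resolve_right ?_
      rw [ZMod.natCast_eq_zero_iff]
      intro h
      have := (Nat.Prime.dvd_factorial Fact.out).mp
        (h.trans ⟨_, (Nat.choose_mul_factorial_mul_factorial (show n - i ≤ n by omega)).symm.trans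
          (mul_assoc _ _ _)⟩)
      omega
  exact congrFun this ⟨k, hk⟩

theorem G_int {K : Type*} [Field K] (ψ : AddChar (ZMod p) K) (k : ℕ) : IsIntegral ℤ ((G ψ).coeff k) := by
  have : G ψ ∈ lifts (algebraMap (integralClosure ℤ K) K) := by
    refine Subsemiring.prod_mem _ fun b _ => ?_
    have h1 : IsIntegral ℤ (ψ (-b)) := IsIntegral.of_pow (Fact.out : p.Prime).pos (by
      rw [← AddChar.map_nsmul_eq_pow]; simpa using isIntegral_one)
    have h2 : IsIntegral ℤ (ch p K b) := isIntegral_algebraMap (x := quadraticChar (ZMod p) b)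
    exact ⟨1 - C ⟨_, h2.mul h1⟩ * X, by simp⟩
  obtain ⟨a, ha⟩ := (lifts_iff_coeff_lifts _).mp this k
  exact ha ▸ a.2

theorem exists_char (l : ℕ) (F : Type) [Field F] [CharP F l] (h : l ≠ p) :
    ∃ (K : Type) (_ : Field K) (_ : CharP K l) (ψ : AddChar (ZMod p) K), ψ.IsPrimitive := by
  let ψ := AddChar.FiniteField.primitiveChar (ZMod p) F (by rwa [ringChar.eq F l, ZMod.ringChar_zmod_n])
  exact ⟨_, _, charP_of_injective_algebraMap (algebraMap F _).injective l, ψ.char, ψ.prim⟩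

theorem not_dvd_p (h3 : p % 4 = 3) {n : ℕ} (hn : p = 2 * n + 1) (v : ℕ → ℤ) (hv : Ker p n v)
    (h0 : (p : ℤ) ∣ v 0) (k : ℕ) (hk : k < n) : (p : ℤ) ∣ v k := by
  have hp : p.Prime := Fact.out
  obtain ⟨K, _, _, ψ, hψ⟩ := exists_char (p := p) 0 ℚ hp.ne_zero.symm
  have := CharP.charP_to_charZero K
  have hp0 : (p : K) ≠ 0 := by exact_mod_cast hp.ne_zero
  obtain ⟨-, -, h⟩ := ker_coeff h3 two_ne_zero hp0 hψ n hn _ (ker_ch (ker_cast hv)) k hk
  obtain ⟨m, hm⟩ := h0
  have h1 := tau_sq h3 two_ne_zero hψ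
  have h2 : algebraMap ℚ K ((v k : ℚ) ^ 2 / p) = -(m * (G ψ).coeff (2 * k + 1)) ^ 2 := by
    rw [hm] at h
    simp only [map_div₀, map_pow, map_intCast, map_natCast]
    rw [div_eq_iff hp0]
    push_cast at h
    refine mul_left_cancel₀ hp0 ?_
    linear_combination (v k : K) ^ 2 * h1 - (gaussSum (ch p K) ψ * v k + p * m * (G ψ).coeff (2 * k + 1)) * h
  have h4 : IsIntegral ℤ ((v k : ℚ) ^ 2 / p) := by
    rw [← isIntegral_algebraMap_iff (algebraMap ℚ K).injective, h2]
    exact (((isIntegral_algebraMap (x := m)).mul (G_int ψ _)).pow 2).neg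
  obtain ⟨z, hz⟩ := IsIntegrallyClosed.isIntegral_iff.mp h4
  refine (Nat.prime_iff_prime_int.mp hp).dvd_of_dvd_pow (n := 2) ⟨z, ?_⟩
  have hp1 : (p : ℚ) ≠ 0 := by exact_mod_cast hp.ne_zero
  rw [eq_div_iff hp1, eq_intCast] at hz
  exact_mod_cast (mul_comm _ _).trans hz |>.symm

theorem units (h3 : p % 4 = 3) {m : ℕ} (hn : p = 2 * (m + 1) + 1) (v : ℕ → ℤ) (hv : Ker p (m + 1) v)
    (hl : ∀ l : ℕ, l.Prime → ∃ k < m + 1, ¬ (l : ℤ) ∣ v k) (l : ℕ) (hl' : l.Prime) :
    ¬ (l : ℤ) ∣ v 0 ∧ ¬ (l : ℤ) ∣ (M p m).det := by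
  obtain ⟨k, hk, hk0⟩ := hl l hl'
  have key : ∀ (K : Type) [Field K] [CharP K l],
      (∀ x : ℕ → K, Ker p (m + 1) x → x 0 = 0 → ∀ k < m + 1, x k = 0) →
      ¬ (l : ℤ) ∣ v 0 ∧ ¬ (l : ℤ) ∣ (M p m).det := by
    intro K _ _ hI
    simp only [← CharP.intCast_eq_zero_iff K l] at hk0 ⊢
    have h0 : (v 0 : K) ≠ 0 := fun h => hk0 (hI _ (ker_cast hv) h k hk)
    exact ⟨h0, nonsing h3 m _ (ker_cast hv) h0 hI⟩
  have := Fact.mk hl'
  by_cases h2 : l = 2
  · subst h2
    exact key (ZMod 2) (inj_two hn)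
  by_cases hp : l = p
  · subst hp
    refine key (ZMod l) fun x hx h0 => ?_
    have h1 : (v 0 : ZMod l) ≠ 0 := fun h =>
      hk0 (not_dvd_p h3 hn v hv ((ZMod.intCast_zmod_eq_zero_iff_dvd _ _).mp h) k hk)
    have h4 := sum_p hn (fun k => (∑ i ∈ range (m + 1), (v i : ZMod l)) * x k -
      (∑ i ∈ range (m + 1), x i) * v k) (fun j hj => by
        simp only [mul_sub, sum_sub_distrib, mul_left_comm (legendreSym l _ : ZMod l), ← mul_sum]
        rw [hx j hj, ker_cast (R := ZMod l) hv j hj]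
        ring) (by simp only [sum_sub_distrib, ← mul_sum]; ring) 0 (by omega)
    simp only [h0, mul_zero, zero_sub, neg_eq_zero, mul_eq_zero, h1, or_false] at h4
    exact sum_p hn x hx h4
  · obtain ⟨K, _, _, ψ, hψ⟩ := exists_char (p := p) l (ZMod l) hp
    have h4 : (2 : K) ≠ 0 := fun h => h2 ((Nat.prime_dvd_prime_iff_eq hl' Nat.prime_two).mp
      ((CharP.cast_eq_zero_iff K l 2).mp (by exact_mod_cast h)))
    have h5 : (p : K) ≠ 0 := fun h => hp ((Nat.prime_dvd_prime_iff_eq hl' Fact.out).mp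
      ((CharP.cast_eq_zero_iff K l p).mp h))
    refine key K fun x hx h0 k hk => ?_
    obtain ⟨h6, -, h7⟩ := ker_coeff h3 h4 h5 hψ _ hn x (ker_ch hx) k hk
    rw [h0, zero_mul] at h7
    exact (mul_eq_zero.mp h7).resolve_left h6

theorem unit_of {z : ℤ} (h : ∀ l : ℕ, l.Prime → ¬ (l : ℤ) ∣ z) : z = 1 ∨ z = -1 := by
  refine Int.isUnit_iff.mp (Int.isUnit_iff_natAbs_eq.mpr ?_)
  by_contra h1
  obtain ⟨l, hl, h2⟩ := Nat.exists_prime_and_dvd h1
  exact h l hl (Int.natCast_dvd.mpr h2)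

theorem skew_det_nonneg {ι : Type} [Fintype ι] [DecidableEq ι] (A : Matrix ι ι ℝ)
    (hA : A.transpose = -A) : 0 ≤ A.det := by
  by_contra hc
  have hcont : Continuous fun s : ℝ => ((1 - s) • A + s • (1 : Matrix ι ι ℝ)).det := by fun_prop
  obtain ⟨s, hs, h⟩ := intermediate_value_Icc zero_le_one hcont.continuousOn
    (show (0 : ℝ) ∈ Set.Icc _ _ from ⟨by simpa using (not_le.mp hc).le, by simp⟩)
  have hs0 : s ≠ 0 := by rintro rfl; simp at h; simp [h] at hc
  obtain ⟨v, hv, h⟩ := Matrix.exists_mulVec_eq_zero_iff.mpr h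
  have h1 : v ⬝ᵥ A.mulVec v = 0 := by
    have := Matrix.dotProduct_mulVec v A v
    rw [← Matrix.mulVec_transpose, hA, Matrix.neg_mulVec, neg_dotProduct, dotProduct_comm _ v] at this
    linarith
  have h2 := congrArg (v ⬝ᵥ ·) h
  simp only [Matrix.add_mulVec, Matrix.smul_mulVec, Matrix.one_mulVec, dotProduct_add, dotProduct_smul,
    h1, smul_eq_mul, mul_zero, zero_add, dotProduct_zero, mul_eq_zero, hs0, false_or] at h2
  exact hv (dotProduct_self_eq_zero.mp h2)

theorem det_one (h3 : p % 4 = 3) {m : ℕ} (hn : p = 2 * (m + 1) + 1) : (M p m).det = 1 := by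
  obtain ⟨v, hv, hl⟩ := prim (p := p) h3 (m + 1) (Nat.odd_iff.mpr (by omega))
  refine (unit_of fun l h => (units h3 hn v hv hl l h).2).resolve_right fun h => ?_
  have := skew_det_nonneg ((Int.castRingHom ℝ).mapMatrix (M p m)) (by
    ext j k
    simp only [M, Matrix.transpose_apply, RingHom.mapMatrix_apply, Matrix.map_apply, Matrix.of_apply,
      Matrix.neg_apply, skew h3 (k : ℕ) (j : ℕ), map_neg])
  rw [← RingHom.map_det, h] at this
  norm_num at this

end Pool.Agent.H16.Chap
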