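import Mathlib
import Pool.Agent.H16.Chap2

set_option autoImplicit false

namespace Pool.Agent.H16.Chap
open Finset Polynomial

variable {p : ℕ} [Fact p.Prime] {K : Type*} [Field K]

theorem small_ne {a : ℕ} (h0 : 0 < a) (h : a < p) : (a : ZMod p) ≠ 0 := fun e =>
  absurd (Nat.le_of_dvd h0 ((ZMod.natCast_eq_zero_iff a p).mp e)) (by omega)

theorem F_eval (h3 : p % 4 = 3) (ψ : AddChar (ZMod p) K) (m e : ℕ) (hm : m ≤ p) (x : ℕ → K)
    (hx : ∀ j < m, ∑ k ∈ range m, ch p K ((j : ℕ) - k) * x k = 0) :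
    (F ψ m (2 * e + 1) x).eval 1 = -(ch p K 2 * gaussSum (ch p K) ψ * ∑ k ∈ range m, x k) ∧
    (F ψ m (2 * e + 1) x).eval (-1) = ch p K 2 * gaussSum (ch p K) ψ * ∑ k ∈ range m, x k := by
  have h0 : ∑ j : ZMod p, ∑ k ∈ range m, ch p K (j - k) * x k = 0 := by
    rw [sum_comm]
    refine sum_eq_zero fun k _ => ?_
    rw [← sum_mul, Fintype.sum_equiv (Equiv.subRight (k : ZMod p)) (fun i => ch p K (i - k)) (ch p K)
      fun _ => rfl]
    have := congrArg (Int.cast (R := K)) (quadraticChar_sum_zero (F := ZMod p)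
      (by rw [ZMod.ringChar_zmod_n]; omega))
    push_cast at this
    rw [show ∑ a, ch p K a = 0 from this, zero_mul]
  rw [sum_zmod, show range p = range (m + (p - m)) by congr 1; omega, sum_range_add,
    sum_eq_zero fun j hj => hx j (mem_range.mp hj), zero_add] at h0
  simp only [F, eval_sub, eval_finsetSum, eval_mul, eval_C, eval_pow, eval_X, one_pow, mul_one, h0,
    pow_add, pow_mul, neg_one_sq, pow_one, mul_neg, sum_neg_distrib]
  constructor <;> ring

theorem G_prod (h3 : p % 4 = 3) {ψ : AddChar (ZMod p) K} (hψ : ψ.IsPrimitive) :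
    (G ψ).eval 1 * (G ψ).eval (-1) = p := by
  have hp : p.Prime := Fact.out
  have h2 : (-2 : ZMod p) ≠ 0 := neg_ne_zero.mpr (by exact_mod_cast small_ne (p := p) two_pos (by omega))
  have h1 : IsPrimitiveRoot (ψ (-2)) (p - 1 + 1) := by
    rw [Nat.sub_add_cancel hp.one_le, IsPrimitiveRoot.iff_orderOf]
    exact orderOf_eq_prime (by rw [← AddChar.map_nsmul_eq_pow]; simp)
      fun h => h2 ((hψ.zmod_char_eq_one_iff p _).mp h)
  have h4 := h1.prod_one_sub_pow_eq_order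
  rw [← Nat.cast_succ, Nat.succ_eq_add_one, Nat.sub_add_cancel hp.one_le] at h4
  rw [← h4, G, eval_prod, eval_prod, ← prod_mul_distrib]
  symm
  refine prod_nbij' (fun k => ((k + 1 : ℕ) : ZMod p)) (fun b => b.val - 1) (fun k hk => ?_)
    (fun b hb => ?_) (fun k hk => ?_) (fun b hb => ?_) (fun k hk => ?_)
  · have := mem_range.mp hk
    exact mem_erase.mpr ⟨small_ne (by omega) (by omega), mem_univ _⟩
  · have := ZMod.val_lt b
    have := (ZMod.val_eq_zero b).not.mpr (mem_erase.mp hb).1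
    exact mem_range.mpr (by omega)
  · have := mem_range.mp hk
    rw [ZMod.val_cast_of_lt (by omega), Nat.add_sub_cancel]
  · have := (ZMod.val_eq_zero b).not.mpr (mem_erase.mp hb).1
    rw [Nat.sub_add_cancel (by omega), ZMod.natCast_zmod_val]
  · have := mem_range.mp hk
    have h5 : ψ (-2) ^ (k + 1) = ψ (-((k + 1 : ℕ) : ZMod p)) ^ 2 := by
      rw [← AddChar.map_nsmul_eq_pow, ← AddChar.map_nsmul_eq_pow]
      congr 1
      simp only [nsmul_eq_mul]
      push_cast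
      ring
    simp only [eval_sub, eval_one, eval_mul, eval_C, eval_X, h5]
    rcases ch_cases (K := K) (small_ne (p := p) (a := k + 1) (by omega) (by omega)) with h | h <;>
      rw [h] <;> ring

theorem ch_two_sq (h3 : p % 4 = 3) : ch p K 2 ^ 2 = 1 := by
  have h2 : (2 : ZMod p) ≠ 0 := by exact_mod_cast small_ne (p := p) two_pos (by omega)
  rcases ch_cases (K := K) h2 with h | h <;> simp [h]

theorem G_eval (h3 : p % 4 = 3) [CharZero K] {ψ : AddChar (ZMod p) K} (hψ : ψ.IsPrimitive) {n : ℕ}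
    (hn : p = 2 * n + 1) (v : ℕ → ℤ) (hv : Ker p n v) (h0 : v 0 ^ 2 = 1) :
    (G ψ).eval (-1) = -(G ψ).eval 1 ∧ (G ψ).eval 1 ^ 2 = -p ∧ (∑ k ∈ range n, v k) ^ 2 = 1 := by
  have hp0 : (p : K) ≠ 0 := by exact_mod_cast (Fact.out : p.Prime).ne_zero
  have hk := ker_ch (ker_cast (R := K) hv)
  obtain ⟨-, h1, -⟩ := ker_coeff h3 two_ne_zero hp0 hψ n hn _ hk 0 (by omega)
  have h2 := F_eq h3 hψ n hn _ hk
  obtain ⟨h4, h5⟩ := F_eval h3 ψ n 0 (by omega) _ hk
  simp only [mul_zero, zero_add] at h4 h5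
  rw [h2, h1, eval_mul, eval_C] at h4 h5
  have h6 := ch_two_sq (K := K) h3
  have h7 : (v 0 : K) ^ 2 = 1 := by exact_mod_cast h0
  have h8 := G_prod h3 hψ
  have h9 := tau_sq h3 two_ne_zero hψ
  have e1 : (G ψ).eval (-1) = -(G ψ).eval 1 := by
    linear_combination (-ch p K 2 * v 0) * (h4 + h5) -
      ((G ψ).eval (-1) + (G ψ).eval 1) * (v 0 ^ 2 * h6 + h7)
  have e2 : (G ψ).eval 1 ^ 2 = -p := by rw [e1] at h8; linear_combination -h8
  refine ⟨e1, e2, ?_⟩
  have e3 : (v 0 : K) * (G ψ).eval 1 = gaussSum (ch p K) ψ * ∑ k ∈ range n, (v k : K) := by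
    linear_combination (-ch p K 2) * h4 -
      (v 0 * (G ψ).eval 1 - gaussSum (ch p K) ψ * ∑ k ∈ range n, (v k : K)) * h6
  have e4 := congrArg (· ^ 2) e3
  simp only [mul_pow, h7, e2, h9] at e4
  have : (∑ k ∈ range n, (v k : K)) ^ 2 = 1 := mul_left_cancel₀ hp0 (by linear_combination e4)
  exact_mod_cast this

theorem good_ker (h3 : p % 4 = 3) {m : ℕ} (hn : p = 2 * (m + 1) + 1) :
    ∃ v : ℕ → ℤ, Ker p (m + 1) v ∧ v 0 = 1 ∧ (∑ k ∈ range (m + 1), v k) ^ 2 = 1 := by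
  obtain ⟨v, hv, hl⟩ := prim (p := p) h3 (m + 1) (Nat.odd_iff.mpr (by omega))
  have h0 : v 0 ^ 2 = 1 := by
    rcases unit_of fun l h => (units h3 hn v hv hl l h).1 with h | h <;> simp [h]
  obtain ⟨K, _, _, ψ, hψ⟩ := exists_char (p := p) 0 ℚ (Fact.out : p.Prime).ne_zero.symm
  have := CharP.charP_to_charZero K
  refine ⟨fun k => v 0 * v k, fun j hj => ?_, (sq _).symm.trans h0, ?_⟩
  · simp only [mul_left_comm _ (v 0), ← mul_sum]
    rw [hv j hj, mul_zero]
  · rw [← mul_sum, mul_pow, h0, (G_eval h3 hψ hn v hv h0).2.2, mul_one]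

theorem prod_coeff2 {ι : Type*} (s : Finset ι) (c : ι → K) :
    2 * (∏ b ∈ s, (1 - C (c b) * X)).coeff 2 = (∑ b ∈ s, c b) ^ 2 - ∑ b ∈ s, c b ^ 2 ∧
    6 * (∏ b ∈ s, (1 - C (c b) * X)).coeff 3 =
      -((∑ b ∈ s, c b) ^ 3 - 3 * (∑ b ∈ s, c b) * ∑ b ∈ s, c b ^ 2 + 2 * ∑ b ∈ s, c b ^ 3) := by
  classical
  induction s using Finset.induction_on with
  | empty => simp [coeff_one]
  | insert a s ha ih =>
    have h1 := (prod_coeff s c).2
    simp only [prod_insert ha, sum_insert ha, sub_mul, one_mul, mul_assoc, coeff_sub, coeff_C_mul]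
    rw [coeff_X_mul _ 1, coeff_X_mul _ 2]
    constructor
    · linear_combination ih.1 - 2 * c a * h1
    · linear_combination ih.2 - 3 * c a * ih.1

theorem G_low (h3 : p % 4 = 3) (h7 : 3 < p) (h2 : (2 : K) ≠ 0) {ψ : AddChar (ZMod p) K}
    (hψ : ψ.IsPrimitive) : 2 * (G ψ).coeff 2 = 1 - p ∧
      6 * (G ψ).coeff 3 = gaussSum (ch p K) ψ * (3 - p + 2 * ch p K 3) := by
  have e1 : ∑ b ∈ univ.erase (0 : ZMod p), ch p K b * ψ (-b) = -gaussSum (ch p K) ψ := by
    have := G_one h3 ψ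
    rw [G, (prod_coeff _ _).2] at this
    rw [← this, neg_neg]
  have e2 : ∑ b ∈ univ.erase (0 : ZMod p), (ch p K b * ψ (-b)) ^ 2 = -1 := by
    have h0 : (-2 : ZMod p) ≠ 0 :=
      neg_ne_zero.mpr (by exact_mod_cast small_ne (p := p) two_pos (by omega))
    have := AddChar.sum_mulShift (-2 : ZMod p) hψ
    rw [if_neg h0, ← add_sum_erase _ _ (mem_univ 0), zero_mul, AddChar.map_zero_eq_one] at this
    rw [← eq_neg_of_add_eq_zero_right (this.trans Nat.cast_zero)]
    refine sum_congr rfl fun b hb => ?_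
    rw [mul_pow, ← AddChar.map_nsmul_eq_pow, show 2 • -b = b * -2 by ring]
    rcases ch_cases (K := K) (mem_erase.mp hb).1 with h | h <;> simp [h]
  have e3 : ∑ b ∈ univ.erase (0 : ZMod p), (ch p K b * ψ (-b)) ^ 3 =
      -(ch p K 3 * gaussSum (ch p K) ψ) := by
    have h0 : (3 : ZMod p) ≠ 0 := by exact_mod_cast small_ne (p := p) three_pos (by omega)
    have h1 := gaussSum_mulShift (ch p K) ψ (Units.mk0 (-3) (neg_ne_zero.mpr h0))
    rw [Units.val_mk0, show ch p K (-3) = ch p K (-1) * ch p K 3 by rw [← map_mul, neg_one_mul],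
      ch_neg_one h3] at h1
    have h4 : ch p K 3 ^ 2 = 1 := by rcases ch_cases (K := K) h0 with h | h <;> simp [h]
    have h5 : ∑ b ∈ univ.erase (0 : ZMod p), (ch p K b * ψ (-b)) ^ 3 =
        gaussSum (ch p K) (ψ.mulShift (-3)) := by
      rw [gaussSum, ← sum_erase (a := 0) univ (by rw [ch_zero, zero_mul])]
      refine sum_congr rfl fun b hb => ?_
      rw [mul_pow, ← AddChar.map_nsmul_eq_pow, AddChar.mulShift_apply, show 3 • -b = -3 * b by ring]
      rcases ch_cases (K := K) (mem_erase.mp hb).1 with h | h <;> rw [h] <;> ring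
    rw [h5]
    linear_combination (-ch p K 3) * h1 - gaussSum (ch p K) (ψ.mulShift (-3)) * h4
  have h9 := tau_sq h3 h2 hψ
  obtain ⟨f2, f3⟩ := prod_coeff2 (univ.erase (0 : ZMod p)) fun b => ch p K b * ψ (-b)
  rw [e1, e2] at f2
  rw [e1, e2, e3] at f3
  exact ⟨by rw [G]; linear_combination f2 + h9,
    by rw [G]; linear_combination f3 + gaussSum (ch p K) ψ * h9⟩

theorem G_top (h3 : p % 4 = 3) {ψ : AddChar (ZMod p) K} (hψ : ψ.IsPrimitive) :
    (G ψ).coeff (p - 1) ≠ 0 ∧ (G ψ).coeff (p - 2) = -(gaussSum (ch p K) ψ * (G ψ).coeff (p - 1)) ∧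
      ∀ P : K[X], (∀ b, b ≠ 0 → P.eval (ch p K b * ψ b) = 0) → G ψ ∣ P := by
  have hs : ∀ b ∈ univ.erase (0 : ZMod p), ch p K b * ψ (-b) * (ch p K b * ψ b) = 1 := by
    intro b hb
    have h : ψ (-b) * ψ b = 1 := by rw [← AddChar.map_add_eq_mul]; simp
    rcases ch_cases (K := K) (mem_erase.mp hb).1 with h1 | h1 <;> simp [h1, h]
  have h1 : G ψ = C (∏ b ∈ univ.erase (0 : ZMod p), -(ch p K b * ψ (-b))) *
      ∏ b ∈ univ.erase (0 : ZMod p), (X - C (ch p K b * ψ b)) := by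
    rw [G, map_prod, ← prod_mul_distrib]
    refine prod_congr rfl fun b hb => ?_
    rw [mul_sub, ← C_mul, neg_mul, hs b hb]
    simp only [map_neg, map_one]
    ring
  have h2 : ∏ b ∈ univ.erase (0 : ZMod p), -(ch p K b * ψ (-b)) ≠ 0 :=
    prod_ne_zero_iff.mpr fun b hb => neg_ne_zero.mpr (left_ne_zero_of_mul_eq_one (hs b hb))
  have hc : #(univ.erase (0 : ZMod p)) = p - 1 := by simp
  have h4 : (∏ b ∈ univ.erase (0 : ZMod p), (X - C (ch p K b * ψ b))).coeff (p - 1) = 1 := by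
    rw [← hc, ← natDegree_finsetProd_X_sub_C_eq_card _ fun b => ch p K b * ψ b]
    exact (monic_prod_X_sub_C _ _).coeff_natDegree
  have h5 := prod_X_sub_C_coeff_card_pred (univ.erase (0 : ZMod p)) (fun b => ch p K b * ψ b)
    (by omega)
  rw [hc, sum_erase _ (by rw [ch_zero, zero_mul])] at h5
  refine ⟨by rw [h1, coeff_C_mul, h4, mul_one]; exact h2, ?_, fun P hP => ?_⟩
  · rw [h1, coeff_C_mul, coeff_C_mul, h4, show p - 2 = p - 1 - 1 from rfl, h5, gaussSum]
    ring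
  · rw [h1, C_mul_dvd h2]
    exact prod_dvd_of_coprime (fun a _ b _ h => pairwise_coprime_X_sub_C (root_inj h3 hψ) h)
      fun b hb => dvd_iff_isRoot.mpr (hP b (mem_erase.mp hb).1)

theorem sigma_sq (h3 : p % 4 = 3) {m : ℕ} (hn : p = 2 * m + 5) (z : ℕ → ℤ) (hz : Ker p m z)
    (h1 : ∑ k ∈ range m, legendreSym p ((m : ℤ) - k) * z k = 1) :
    (3 * ∑ k ∈ range m, z k) ^ 2 = (p - 3 + legendreSym p 3) ^ 2 := by
  obtain ⟨K, _, _, ψ, hψ⟩ := exists_char (p := p) 0 ℚ (Fact.out : p.Prime).ne_zero.symm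
  have := CharP.charP_to_charZero K
  have hp0 : (p : K) ≠ 0 := by exact_mod_cast (Fact.out : p.Prime).ne_zero
  obtain ⟨v, hv, hv0, -⟩ := good_ker (p := p) h3 (m := m + 1) (by omega)
  obtain ⟨g1, g2, -⟩ := G_eval h3 hψ (by omega) v hv (by simp [hv0])
  have hk := ker_ch (ker_cast (R := K) hz)
  obtain ⟨t1, t2, t3⟩ := G_top h3 hψ
  obtain ⟨q, hq⟩ := t3 _ fun b hb => F_root ψ m 2 (by omega) _ hk hb h3
  have hd : q.natDegree < 5 := by
    have e1 := F_deg ψ m 2 (by omega) fun k => (z k : K)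
    have e2 := le_natDegree_of_ne_zero t1
    by_cases h0 : q = 0
    · simp [h0]
    rw [hq, natDegree_mul (fun h => t1 (by simp [h])) h0] at e1
    omega
  rw [q.as_sum_range_C_mul_X_pow' hd] at hq
  simp only [sum_range_succ, range_zero, sum_empty, zero_add, mul_add, mul_left_comm (G ψ)] at hq
  have c0 : (F ψ m (2 * 2 + 1) fun k => (z k : K)).coeff 0 = 1 := by
    simp only [F, coeff_sub, finsetSum_coeff, coeff_C_mul, coeff_X_pow]
    rw [sum_eq_single 0 (fun i _ hi => by rw [if_neg (by omega), mul_zero])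
      (fun h => absurd (mem_range.mpr (by omega)) h)]
    have := congrArg (Int.cast (R := K)) h1
    push_cast at this
    simp only [← ch_int] at this
    simpa using this
  have c1 := F_odd ψ m 2 (fun k => (z k : K)) 0
  have c3 := F_odd ψ m 2 (fun k => (z k : K)) 1
  have c5 := F_odd ψ m 2 (fun k => (z k : K)) (m + 3)
  obtain ⟨v1, v2⟩ := F_eval h3 ψ m 2 (by omega) _ hk
  have hz0 : ∀ i, p ≤ i → (G ψ).coeff i = 0 := fun i hi =>
    coeff_eq_zero_of_natDegree_lt ((G_deg ψ).trans_lt (by omega))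
  rw [if_neg (by omega), hq] at c1 c3 c5
  rw [hq] at c0 v1 v2
  simp only [coeff_add, coeff_C_mul, coeff_mul_X_pow'] at c0 c1 c3 c5
  rw [if_pos (by omega), if_pos (by omega), if_pos (by omega), if_pos (by omega), if_pos (by omega),
    hz0 _ (by omega), hz0 _ (by omega), hz0 _ (by omega), show 2 * (m + 3) + 1 - 3 = p - 1 by omega,
    show 2 * (m + 3) + 1 - 4 = p - 2 by omega, t2] at c5
  norm_num [G_zero, G_one h3] at c0 c1 c3
  simp only [eval_add, eval_mul, eval_C, eval_pow, eval_X, g1] at v1 v2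
  obtain ⟨l2, l3⟩ := G_low h3 (by omega) two_ne_zero hψ
  have h9 := tau_sq h3 two_ne_zero hψ
  have h6 := ch_two_sq (K := K) h3
  have ht : gaussSum (ch p K) ψ ≠ 0 := fun h => hp0 (by rw [h] at h9; linear_combination h9)
  have hg : (G ψ).eval 1 ≠ 0 := fun h => hp0 (by rw [h] at g2; linear_combination g2)
  have a3 : q.coeff 3 = gaussSum (ch p K) ψ * q.coeff 4 :=
    mul_right_cancel₀ t1 (by linear_combination c5)
  have a13 : q.coeff 1 + q.coeff 3 = 0 :=
    mul_right_cancel₀ hg (by linear_combination (1 / 2) * (v1 + v2))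
  have a1 : q.coeff 1 = -gaussSum (ch p K) ψ := by rw [c0] at c1; linear_combination c1
  have a4 : q.coeff 4 = 1 := mul_left_cancel₀ ht (by linear_combination a13 - a3 - a1)
  have a2 : 3 * (2 + q.coeff 2) = -(p - 3 + ch p K 3) := by
    rw [c0, a1, a3, a4] at c3
    exact mul_left_cancel₀ ht (by
      linear_combination 3 * c3 - (1 / 2) * l3 + (3 / 2) * gaussSum (ch p K) ψ * l2)
  have a5 : ch p K 2 * gaussSum (ch p K) ψ * (3 * ∑ k ∈ range m, (z k : K)) =
      (G ψ).eval 1 * (p - 3 + ch p K 3) := by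
    rw [c0, a4] at v1 v2
    linear_combination (3 / 2) * (v1 - v2) - (G ψ).eval 1 * a2
  have a6 := congrArg (· ^ 2) a5
  rw [mul_pow, mul_pow, mul_pow ((G ψ).eval 1), h6, h9, g2, one_mul] at a6
  have a7 := mul_left_cancel₀ (neg_ne_zero.mpr hp0) a6
  rw [show ch p K 3 = (legendreSym p 3 : K) by rw [← ch_int]; norm_num] at a7
  exact_mod_cast a7

end Pool.Agent.H16.Chap
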