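import Mathlib
import Pool.Agent.H16.Chap3

set_option autoImplicit false

namespace Pool.Agent.H16.Chap
open Finset Matrix

variable {R : Type*} [CommRing R]

theorem det_UV {ι κ : Type} [Fintype ι] [DecidableEq ι] [Fintype κ] [DecidableEq κ] (B : Matrix ι ι R)
    (h : B.det = 1) (W : Matrix ι κ R) (V : Matrix κ ι R) : (B + B * W * V).det = (1 + V * W).det := by
  rw [← det_one_add_mul_comm, ← one_mul (det (1 + W * V)), ← h, ← det_mul, mul_add, mul_one,
    Matrix.mul_assoc]

theorem solve {ι : Type} [Fintype ι] [DecidableEq ι] (B : Matrix ι ι R) (h : B.det = 1) (b : ι → R) :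
    ∃ u : ι → R, ∀ j, ∑ k, B j k * u k = b j := by
  refine ⟨B.adjugate *ᵥ b, fun j => ?_⟩
  have : B *ᵥ (B.adjugate *ᵥ b) = b := by rw [mulVec_mulVec, mul_adjugate, h, one_smul, one_mulVec]
  exact congrFun this j

theorem skew_sum {ι : Type} [Fintype ι] (A : Matrix ι ι R) (hs : ∀ j k, A j k = -A k j) (a b : ι → R) :
    ∑ j, a j * ∑ k, A j k * b k = -∑ k, b k * ∑ j, A k j * a j := by
  simp_rw [mul_sum, ← sum_neg_distrib]
  rw [sum_comm]
  exact sum_congr rfl fun k _ => sum_congr rfl fun j _ => by rw [hs j k]; ring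

theorem genA {m : ℕ} (A : Matrix (Fin (m + 1)) (Fin (m + 1)) R) (hs : ∀ j k, A j k = -A k j)
    (h00 : A 0 0 = 0) (v : Fin (m + 1) → R) (hv : ∀ j, ∑ k, A j k * v k = 0) (hv0 : v 0 = 1)
    (hd : A.det = 0) (hd1 : (A.submatrix Fin.succ Fin.succ).det = 1) (x y z w : R) :
    (of fun j k => x + A j k + A j 0 * y + A k 0 * z + A j 0 * A k 0 * w).det = x * (∑ k, v k) ^ 2 := by
  let e : Fin (m + 1) → R := Pi.single 0 1
  let B := A.updateRow 0 (A 0 + e)
  have hB : B.det = 1 := by
    rw [det_updateRow_add, updateRow_eq_self, hd, zero_add, det_succ_row_zero, Fin.sum_univ_succ]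
    have : (A.updateRow 0 e).submatrix Fin.succ Fin.succ = A.submatrix Fin.succ Fin.succ := by
      ext j k
      simp
    simp [e, this, hd1]
  have hBe : ∀ j k, B j k = A j k + e j * e k := by
    intro j k
    by_cases h : j = 0 <;> simp [B, e, updateRow_apply, h]
  obtain ⟨u, hu⟩ := solve B hB 1
  have he : ∀ f : Fin (m + 1) → R, ∑ k, e k * f k = f 0 := fun f => by simp [e, Pi.single_apply]
  have he' : ∀ f : Fin (m + 1) → R, ∑ k, f k * e k = f 0 := fun f => by simp [e, Pi.single_apply]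
  simp only [hBe, add_mul, sum_add_distrib, mul_assoc, ← mul_sum, he, Pi.one_apply] at hu
  have h1 : u 0 = ∑ k, v k := by
    have h2 := skew_sum A hs v u
    simp only [hv, mul_zero, sum_const_zero, neg_zero, eq_sub_of_add_eq (hu _), mul_sub, mul_one,
      sum_sub_distrib, ← mul_assoc, ← sum_mul, he', hv0, one_mul] at h2
    linear_combination -h2
  have h2 : ∑ k, A k 0 * u k = ∑ k, v k - 1 := by
    have := hu 0
    simp only [hs 0, neg_mul, sum_neg_distrib, h1, e, Pi.single_eq_same] at this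
    linear_combination -this
  have h3 : ∑ k, A k 0 * v k = 0 := by simpa only [hs 0, neg_mul, sum_neg_distrib, neg_eq_zero] using hv 0
  let U : Matrix (Fin (m + 1)) (Fin 3) R := of fun j => ![1, A j 0, e j]
  let W : Matrix (Fin (m + 1)) (Fin 3) R := of fun j => ![u j, e j - v j, v j]
  have hW : B * W = U := by
    ext j i
    fin_cases i <;>
      simp [U, W, mul_apply, hBe, add_mul, mul_sub, sum_add_distrib, mul_assoc, ← mul_sum, he, he', hu, hv,
        hv0, e]
  have hT : Uᵀ * W = !![∑ k, u k, 1 - ∑ k, v k, ∑ k, v k; ∑ k, v k - 1, 0, 0; ∑ k, v k, 0, 1] := by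
    ext i j
    fin_cases i <;> fin_cases j <;>
      simp [U, W, mul_apply, mul_sub, he, he', h1, h2, h3, hv0, h00] <;> simp [e]
  have := det_UV B hB W (!![x, z, 0; y, w, 0; 0, 0, -1] * Uᵀ)
  rw [hW, Matrix.mul_assoc, hT] at this
  convert this using 2
  · ext j k
    simp [U, mul_apply, Fin.sum_univ_three, hBe, vecMul, dotProduct]
    ring
  · simp [det_fin_three, one_fin_three]
    ring

theorem genB {m : ℕ} (A : Matrix (Fin (m + 1)) (Fin (m + 1)) R) (hs : ∀ j k, A j k = -A k j)
    (h00 : A 0 0 = 0) (u : Fin (m + 1) → R) (hu : ∀ j, ∑ k, A j k * u k = 1) (hu0 : ∑ k, u k = 0)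
    (hd : A.det = 1) (x y z w : R) :
    (of fun j k => x + A j k + A j 0 * y + A k 0 * z + A j 0 * A k 0 * w).det =
      w * x + (1 + y) * (1 - z) := by
  let U : Matrix (Fin (m + 1)) (Fin 2) R := of fun j => ![1, A j 0]
  let W : Matrix (Fin (m + 1)) (Fin 2) R := of fun j => ![u j, (Pi.single 0 1 : Fin (m + 1) → R) j]
  have h2 : ∑ k, A k 0 * u k = -1 := by
    have := hu 0
    simp only [hs 0, neg_mul, sum_neg_distrib] at this
    linear_combination -this
  have hW : A * W = U := by
    ext j i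
    fin_cases i <;> simp [U, W, mul_apply, hu, Pi.single_apply]
  have hT : Uᵀ * W = !![0, 1; -1, 0] := by
    ext i j
    fin_cases i <;> fin_cases j <;> simp [U, W, mul_apply, hu0, h2, h00, Pi.single_apply]
  have := det_UV A hd W (!![x, z; y, w] * Uᵀ)
  rw [hW, Matrix.mul_assoc, hT] at this
  convert this using 2
  · ext j k
    simp [U, mul_apply, Fin.sum_univ_two, vecMul, dotProduct]
    ring
  · simp [det_fin_two, one_fin_two]
    ring

theorem genC {m : ℕ} (A : Matrix (Fin (m + 1)) (Fin (m + 1)) R) (hs : ∀ j k, A j k = -A k j)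
    (z : Fin (m + 1) → R) (hz : ∀ j, ∑ k, A j k * z k = (Pi.single (Fin.last m) 1 : Fin (m + 1) → R) j)
    (hz0 : z (Fin.last m) = 0) (hd : A.det = 1) (x : R) :
    (of fun j k : Fin m => x + A j.castSucc k.castSucc).det = x * (∑ k, z k) ^ 2 := by
  let e : Fin (m + 1) → R := Pi.single (Fin.last m) 1
  obtain ⟨u, hu⟩ := solve A hd 1
  have he : ∀ f : Fin (m + 1) → R, ∑ k, e k * f k = f (Fin.last m) := fun f => by simp [e, Pi.single_apply]
  have he' : ∀ f : Fin (m + 1) → R, ∑ k, f k * e k = f (Fin.last m) := fun f => by simp [e, Pi.single_apply]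
  have h1 : u (Fin.last m) = -∑ k, z k := by
    have h2 := skew_sum A hs u z
    simp only [hu, hz, Pi.one_apply, mul_one] at h2
    rw [← h2, he' u]
  let W : Matrix (Fin (m + 1)) (Fin 2) R := of fun j => ![u j, z j - e j]
  let V : Matrix (Fin 2) (Fin (m + 1)) R := of ![fun k => x * (1 - e k), e]
  have hW : A * W = of fun j => ![1, e j - A j (Fin.last m)] := by
    ext j i
    fin_cases i <;> simp [W, mul_apply, hu, hz, mul_sub, he', e]
  have hT : V * W = !![x * (∑ k, u k + ∑ k, z k), x * ∑ k, z k; -∑ k, z k, -1] := by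
    ext i j
    fin_cases i <;> fin_cases j <;>
      simp [V, W, mul_apply, mul_sub, sub_mul, mul_assoc, ← mul_sum, he, he', h1, hz0] <;> simp [e, mul_add]
  have := det_UV A hd W V
  rw [hW, hT, det_succ_column _ (Fin.last m), Fin.sum_univ_castSucc, sum_eq_zero fun i _ => by
    simp [V, e, mul_apply, Fin.sum_univ_two, (Fin.castSucc_lt_last i).ne]] at this
  convert this using 1
  · rw [zero_add]
    have h4 : (A + (of fun j => ![1, e j - A j (Fin.last m)]) * V) (Fin.last m) (Fin.last m) = 1 := by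
      simp [V, e, mul_apply, Fin.sum_univ_two]
    rw [h4, Even.neg_one_pow ⟨_, rfl⟩, one_mul, one_mul]
    congr 1
    ext j k
    simp [V, e, mul_apply, Fin.sum_univ_two, (Fin.castSucc_lt_last k).ne, add_comm]
  · simp [det_fin_two, one_fin_two]
    ring

variable {p : ℕ} [Fact p.Prime]

theorem M_skew (h3 : p % 4 = 3) (m : ℕ) (j k : Fin m) : M p m j k = -M p m k j := skew h3 _ _

theorem cast_det {m : ℕ} (A : Matrix (Fin m) (Fin m) ℤ) :
    (A.map (Int.cast : ℤ → R)).det = (A.det : R) := ((Int.castRingHom R).map_det A).symm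

theorem thmA (h3 : p % 4 = 3) {m : ℕ} (hn : p = 2 * (m + 1) + 1) (x y z w : R) :
    (of fun j k : Fin (m + 1) => x + (legendreSym p (((j : ℕ) : ℤ) - (k : ℕ)) : R) +
      (legendreSym p (j : ℕ) : R) * y + (legendreSym p (k : ℕ) : R) * z +
      (legendreSym p (((j : ℕ) : ℤ) * (k : ℕ)) : R) * w).det = x := by
  obtain ⟨v, hv, h0, h1⟩ := good_ker (p := p) h3 hn
  have := genA ((M p (m + 1)).map (Int.cast : ℤ → R)) (fun j k => by simp [M_skew h3 _ j k])
    (by simp [M]) (fun k => v k) (fun j => by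
      have := ker_cast (R := R) hv j j.2
      rwa [sum_range] at this) (by simp [h0])
    (by rw [cast_det, det_odd h3 _ (Nat.odd_iff.mpr (by omega)), Int.cast_zero]) (by
      rw [← Int.cast_one, ← det_one h3 hn, ← cast_det]
      congr 1
      ext j k
      simp [M]) x y z w
  rw [← sum_range fun k => (v k : R), ← Int.cast_sum, ← Int.cast_pow, h1, Int.cast_one, mul_one] at this
  simpa [M, legendreSym.mul] using this

theorem thmB (h3 : p % 4 = 3) {m : ℕ} (hn : p = 2 * (m + 1 + 1) + 1) (x y z w : R) :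
    (of fun j k : Fin (m + 1) => x + (legendreSym p (((j : ℕ) : ℤ) - (k : ℕ)) : R) +
      (legendreSym p (j : ℕ) : R) * y + (legendreSym p (k : ℕ) : R) * z +
      (legendreSym p (((j : ℕ) : ℤ) * (k : ℕ)) : R) * w).det = w * x + (1 + y) * (1 - z) := by
  obtain ⟨u, hu⟩ := solve _ (det_one h3 hn) 1
  have h0 := skew_sum _ (M_skew h3 (m + 1)) u u
  simp only [hu, Pi.one_apply, mul_one] at h0
  have := genB ((M p (m + 1)).map (Int.cast : ℤ → R)) (fun j k => by simp [M_skew h3 _ j k])
    (by simp [M]) (fun k => u k) (fun j => by simpa using congrArg (Int.cast (R := R)) (hu j))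
    (by rw [← Int.cast_sum, show ∑ k, u k = 0 by omega, Int.cast_zero])
    (by rw [cast_det, det_one h3 hn, Int.cast_one]) x y z w
  simpa [M, legendreSym.mul] using this

theorem thmC (h3 : p % 4 = 3) {m : ℕ} (hn : p = 2 * m + 5) (x : R) :
    (of fun j k : Fin m => x + (legendreSym p (((j : ℕ) : ℤ) - (k : ℕ)) : R)).det =
      (((p - 2) / 3 : ℕ) : R) ^ 2 * x := by
  have hd := det_one (p := p) h3 (m := m + 1) (by omega)
  obtain ⟨z, hz⟩ := solve _ hd (Pi.single (Fin.last m) 1)
  have h0 := skew_sum _ (M_skew h3 (m + 1)) z z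
  simp only [hz, Pi.single_apply, mul_ite, mul_one, mul_zero, sum_ite_eq', mem_univ, if_true] at h0
  have h1 : z (Fin.last m) = 0 := by omega
  have := genC ((M p (m + 1)).map (Int.cast : ℤ → R)) (fun j k => by simp [M_skew h3 _ j k])
    (fun k => z k) (fun j => by
      have := congrArg (Int.cast (R := R)) (hz j)
      by_cases h : j = Fin.last m <;> simpa [h] using this) (by simp [h1])
    (by rw [cast_det, hd, Int.cast_one]) x
  have h2 := sigma_sq h3 hn (fun k => if h : k < m then z (Fin.castSucc ⟨k, h⟩) else 0) (fun j hj => by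
    have := hz (Fin.castSucc ⟨j, hj⟩)
    rw [Fin.sum_univ_castSucc, h1, Pi.single_eq_of_ne (Fin.castSucc_lt_last _).ne] at this
    rw [sum_range]
    simpa [M] using this) (by
    have := hz (Fin.last m)
    rw [Fin.sum_univ_castSucc, h1, Pi.single_eq_same] at this
    rw [sum_range]
    simpa [M] using this)
  rw [sum_range] at h2
  simp only [Fin.is_lt, dite_true, Fin.eta] at h2
  have h4 : (p : ℤ) - 3 + legendreSym p 3 = 3 * ((p - 2) / 3 : ℕ) := by
    have h5 := legendreSym.quadratic_reciprocity_three_mod_four (p := 3) (q := p) (by norm_num) h3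
    have h6 : ¬ 3 ∣ p := fun h => by
      have := (Nat.prime_dvd_prime_iff_eq Nat.prime_three Fact.out).mp h
      omega
    rw [show ((3 : ℕ) : ℤ) = 3 from rfl] at h5
    rw [h5, legendreSym.mod]
    obtain h | h : p % 3 = 1 ∨ p % 3 = 2 := by omega
    · rw [show (p : ℤ) % (3 : ℕ) = 1 by omega, show legendreSym 3 1 = 1 by decide]; omega
    · rw [show (p : ℤ) % (3 : ℕ) = 2 by omega, show legendreSym 3 2 = -1 by decide]; omega
  rw [h4, mul_pow, mul_pow] at h2
  rw [← Int.cast_sum, ← Int.cast_pow, Fin.sum_univ_castSucc, h1, add_zero,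
    mul_left_cancel₀ (by norm_num) h2, mul_comm, Int.cast_pow, Int.cast_natCast] at this
  exact this

end Pool.Agent.H16.Chap
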