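import Mathlib

set_option autoImplicit false

namespace Pool.Agent.H16.Chomp

/-- The ideal reached after the first `n` moves `a 0, ..., a (n-1)` of a play. -/
def pos {R : Type} [CommRing R] (a : ℕ → R) (n : ℕ) : Ideal R :=
  Ideal.span {x | ∃ i < n, a i = x}

/-- Player B (second player) has a winning strategy in the Ideal Chomp Game on `R`.
Moves are numbered from `0`; A makes the even moves and B the odd moves.  A strategy maps the
list of all earlier moves to the next move.  For every play in which, as long as the ideal is
not yet `R`, A moves legally and B follows the strategy, all moves of B are legal and the ideal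
`R` is produced after finitely many moves by a move of A. -/
def BWins (R : Type) [CommRing R] : Prop :=
  ∃ s : List R → R, ∀ a : ℕ → R,
    (∀ i, Even i → pos a i ≠ ⊤ → a i ∉ pos a i) →
    (∀ i, Odd i → pos a i ≠ ⊤ → a i = s (List.ofFn (fun j : Fin i => a j))) →
    (∀ i, Odd i → pos a i ≠ ⊤ → a i ∉ pos a i) ∧
      ∃ n, Even n ∧ pos a n ≠ ⊤ ∧ pos a (n + 1) = ⊤

end Pool.Agent.H16.Chomp
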