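import Mathlib
import Pool.Agent.H16.ChompDefs

set_option autoImplicit false

namespace Pool.Agent.H16.Chomp

open Polynomial

def Star (R : Type) [CommRing R] : Prop :=
  ∀ a : R, a ≠ 0 → ¬ IsUnit a → ∃ b, b ∉ Ideal.span {a} ∧ (Ideal.span {a, b}).IsMaximal

lemma pos_mono {R : Type} [CommRing R] (a : ℕ → R) {m n : ℕ} (h : m ≤ n) : pos a m ≤ pos a n :=
  Ideal.span_mono (fun _ ⟨i, hi, e⟩ => ⟨i, by omega, e⟩)

lemma mem_pos {R : Type} [CommRing R] (a : ℕ → R) {i n : ℕ} (h : i < n) : a i ∈ pos a n :=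
  Ideal.subset_span ⟨i, h, rfl⟩

theorem bwins_of_star (R : Type) [CommRing R] [Nontrivial R] (h : Star R) : BWins R := by
  classical
  have h' : ∀ a : R, ∃ b, a ≠ 0 → ¬ IsUnit a →
      b ∉ Ideal.span {a} ∧ (Ideal.span {a, b}).IsMaximal := by
    intro a
    by_cases h1 : a ≠ 0 ∧ ¬ IsUnit a
    · obtain ⟨b, hb⟩ := h a h1.1 h1.2
      exact ⟨b, fun _ _ => hb⟩
    · exact ⟨0, fun x y => absurd ⟨x, y⟩ h1⟩
  choose f hf using h'
  refine ⟨fun l => f (l.headD 0), fun a hA hB => ?_⟩
  have p0 : pos a 0 = ⊥ := by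
    have : {x | ∃ i < 0, a i = x} = (∅ : Set R) := by ext x; simp
    rw [pos, this, Ideal.span_empty]
  have p1 : pos a 1 = Ideal.span {a 0} := by
    have : {x | ∃ i < 1, a i = x} = ({a 0} : Set R) := by
      ext x; simp [eq_comm]
    rw [pos, this]
  have p2 : pos a 2 = Ideal.span {a 0, a 1} := by
    have : {x | ∃ i < 2, a i = x} = ({a 0, a 1} : Set R) := by
      ext x
      constructor
      · rintro ⟨i, hi, rfl⟩
        interval_cases i <;> simp
      · rintro (rfl | rfl)
        · exact ⟨0, by omega, rfl⟩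
        · exact ⟨1, by omega, rfl⟩
    rw [pos, this]
  have n0 : pos a 0 ≠ ⊤ := by rw [p0]; exact bot_ne_top
  have a0 : a 0 ≠ 0 := by
    have := hA 0 (by simp) n0
    rw [p0] at this; simpa using this
  by_cases hu : IsUnit (a 0)
  · have t1 : pos a 1 = ⊤ := by rw [p1]; exact Ideal.span_singleton_eq_top.mpr hu
    refine ⟨fun i hi hne => ?_, 0, by simp, n0, t1⟩
    exfalso; apply hne
    have : 1 ≤ i := by obtain ⟨k, rfl⟩ := hi; omega
    exact top_le_iff.mp (t1 ▸ pos_mono a this)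
  · have n1 : pos a 1 ≠ ⊤ := by
      rw [p1]; exact fun e => hu (Ideal.span_singleton_eq_top.mp e)
    have a1 : a 1 = f (a 0) := by
      have := hB 1 (by simp) n1
      simpa using this
    obtain ⟨hb1, hb2⟩ := hf (a 0) a0 hu
    rw [← a1] at hb1 hb2
    rw [← p2] at hb2
    have a2 := hA 2 (by simp) hb2.ne_top
    have t3 : pos a 3 = ⊤ := by
      apply hb2.1.2
      refine lt_of_le_of_ne (pos_mono a (by omega)) (fun e => a2 ?_)
      rw [e]; exact mem_pos a (by omega)
    refine ⟨fun i hi hne => ?_, 2, by simp, hb2.ne_top, t3⟩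
    by_cases h1 : i = 1
    · subst h1; rw [p1]; exact hb1
    · exfalso; apply hne
      have : 3 ≤ i := by obtain ⟨k, rfl⟩ := hi; omega
      exact top_le_iff.mp (t3 ▸ pos_mono a this)

/-- a nonzero prime of a pullback not containing the conductor is maximal -/
lemma max_of {k : Type} [Field k] (S : Subring k[X]) (p : k[X])
    (hS : ∀ g, p * g ∈ S) (q : Ideal S) (hq : q.IsPrime) (h0 : q ≠ ⊥)
    (y : S) (hy : y ∉ q) (hyp : p ∣ y.1) : q.IsMaximal := by
  have hm : ∀ f : k[X], y.1 * f ∈ S := by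
    intro f; obtain ⟨z, hz⟩ := hyp; rw [hz, mul_assoc]; exact hS _
  let Q : Ideal k[X] :=
    { carrier := {f | (⟨y.1 * f, hm f⟩ : S) ∈ q}
      add_mem' := by
        intro a b ha hb
        have : (⟨y.1 * (a + b), hm _⟩ : S) = ⟨y.1 * a, hm a⟩ + ⟨y.1 * b, hm b⟩ := by
          ext1; simp [mul_add]
        simp only [Set.mem_setOf_eq] at *
        rw [this]; exact q.add_mem ha hb
      zero_mem' := by
        have : (⟨y.1 * 0, hm _⟩ : S) = 0 := by ext1; simp
        simp only [Set.mem_setOf_eq]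
        rw [this]; exact q.zero_mem
      smul_mem' := by
        intro c a ha
        simp only [Set.mem_setOf_eq, smul_eq_mul] at *
        have : y * (⟨y.1 * (c * a), hm _⟩ : S) = ⟨y.1 * c, hm c⟩ * ⟨y.1 * a, hm a⟩ := by
          ext1; simp; ring
        have h2 : y * (⟨y.1 * (c * a), hm _⟩ : S) ∈ q := by rw [this]; exact q.mul_mem_left _ ha
        exact (hq.mem_or_mem h2).resolve_left hy }
  have hQ : ∀ f, f ∈ Q ↔ (⟨y.1 * f, hm f⟩ : S) ∈ q := fun f => Iff.rfl
  have hQS : ∀ r : S, r.1 ∈ Q ↔ r ∈ q := by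
    intro r
    rw [hQ]
    have : (⟨y.1 * r.1, hm _⟩ : S) = y * r := rfl
    rw [this]
    exact ⟨fun h => (hq.mem_or_mem h).resolve_left hy, fun h => q.mul_mem_left _ h⟩
  have hQp : Q.IsPrime := by
    constructor
    · intro e
      have : (1 : S).1 ∈ Q := by rw [e]; trivial
      exact hq.ne_top ((Ideal.eq_top_iff_one _).mpr ((hQS 1).mp this))
    · intro a b hab
      rw [hQ] at hab
      have : y * (⟨y.1 * (a * b), hm _⟩ : S) = ⟨y.1 * a, hm a⟩ * ⟨y.1 * b, hm b⟩ := by
        ext1; simp; ring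
      have h2 := q.mul_mem_left y hab
      rw [this] at h2
      exact hq.mem_or_mem h2
  have hQ0 : Q ≠ ⊥ := by
    obtain ⟨a, ha, ha0⟩ := Submodule.exists_mem_ne_zero_of_ne_bot h0
    intro e
    have := (hQS a).mpr ha
    rw [e] at this
    exact ha0 (Subtype.ext (by simpa using this))
  have hQm : Q.IsMaximal := IsPrime.to_maximal_ideal hQ0
  rw [Ideal.isMaximal_iff]
  refine ⟨fun e => hq.ne_top ((Ideal.eq_top_iff_one _).mpr e), fun J r hJ hr hrJ => ?_⟩
  have h1 : (r * y).1 ∉ Q := by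
    rw [hQS]; intro h; rcases hq.mem_or_mem h with h | h
    · exact hr h
    · exact hy h
  obtain ⟨g, i, hi, e⟩ := hQm.exists_inv h1
  have hiS : i ∈ S := by
    have : i = 1 - r.1 * (y.1 * g) := by rw [← e]; simp; ring
    rw [this]; exact S.sub_mem S.one_mem (S.mul_mem r.2 (hm g))
  have hiq : (⟨i, hiS⟩ : S) ∈ q := (hQS ⟨i, hiS⟩).mp hi
  have : (1 : S) = r * ⟨y.1 * g, hm g⟩ + ⟨i, hiS⟩ := by
    ext1; rw [Subring.coe_one, ← e]; simp; ring
  rw [this]
  exact J.add_mem (J.mul_mem_right _ hrJ) (hJ hiq)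

theorem dim_pull {k T : Type} [Field k] [CommRing T] [IsDomain T] (S : Subring k[X]) (p : k[X])
    (hp : p ≠ 0) (hS : ∀ g, p * g ∈ S) (ψ : S →+* T) (hψ : Function.Surjective ψ)
    (hk : ∀ r : S, ψ r = 0 ↔ p ∣ r.1) (m : ℕ) (hT : ringKrullDim T = m) :
    ringKrullDim S = (m + 1 : ℕ) := by
  apply le_antisymm
  · rw [ringKrullDim, Order.krullDim]
    refine iSup_le fun l => ?_
    by_cases h1 : l.length ≤ 1
    · exact_mod_cast (by omega : l.length ≤ m + 1)
    · have hl : 2 ≤ l.length := by omega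
      have hne : ∀ i : Fin (l.length + 1), 1 ≤ i.val → (l i).asIdeal ≠ ⊥ := by
        intro i hi e
        have : l ⟨0, by omega⟩ < l i := l.strictMono (Fin.lt_def.mpr (by show 0 < i.val; omega))
        have h2 : (l ⟨0, by omega⟩).asIdeal < (l i).asIdeal := this
        rw [e] at h2; exact not_lt_bot h2
      have hker : RingHom.ker ψ ≤ (l ⟨1, by omega⟩).asIdeal := by
        intro y hy
        by_contra hy'
        have hmx := max_of S p hS _ (l ⟨1, by omega⟩).isPrime (hne _ le_rfl) y hy'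
          ((hk y).mp hy)
        have : l ⟨1, by omega⟩ < l ⟨2, by omega⟩ := l.strictMono (Fin.lt_def.mpr (by show 1 < 2; omega))
        have h2 : (l ⟨1, by omega⟩).asIdeal < (l ⟨2, by omega⟩).asIdeal := this
        exact (l ⟨2, by omega⟩).isPrime.ne_top (hmx.1.2 _ h2)
      have hb : ∀ i : Fin (l.length - 1 + 1), i.val + 1 < l.length + 1 := fun i => by omega
      have hker' : ∀ i : Fin (l.length - 1 + 1),
          RingHom.ker ψ ≤ (l ⟨i.val + 1, hb i⟩).asIdeal := by
        intro i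
        refine hker.trans ?_
        have : l ⟨1, by omega⟩ ≤ l ⟨i.val + 1, hb i⟩ :=
          l.strictMono.monotone (Fin.le_def.mpr (by show 1 ≤ i.val + 1; omega))
        exact this
      let l' : LTSeries (PrimeSpectrum T) := LTSeries.mk (l.length - 1)
        (fun i => ⟨((l ⟨i.val + 1, hb i⟩).asIdeal).map ψ,
          have := (l ⟨i.val + 1, hb i⟩).isPrime
          Ideal.map_isPrime_of_surjective hψ (hker' i)⟩) (by
          intro i j hij
          have h : l ⟨i.val + 1, hb i⟩ < l ⟨j.val + 1, hb j⟩ :=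
            l.strictMono (Fin.lt_def.mpr (by have := Fin.lt_def.mp hij; show i.val + 1 < j.val + 1; omega))
          have h2 : (l ⟨i.val + 1, hb i⟩).asIdeal < (l ⟨j.val + 1, hb j⟩).asIdeal := h
          change Ideal.map ψ _ < Ideal.map ψ _
          refine lt_of_le_of_ne (Ideal.map_mono h2.le) (fun e => h2.ne ?_)
          have := congrArg (Ideal.comap ψ) e
          rwa [Ideal.comap_map_of_surjective ψ hψ, Ideal.comap_map_of_surjective ψ hψ,
            ← RingHom.ker_eq_comap_bot, sup_eq_left.mpr (hker' i),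
            sup_eq_left.mpr (hker' j)] at this)
      have h3 := Order.LTSeries.length_le_krullDim l'
      have h4 : ((l.length - 1 : ℕ) : WithBot ℕ∞) ≤ m := by rw [← hT]; exact h3
      have h5 : l.length - 1 ≤ m := by exact_mod_cast h4
      exact_mod_cast (by omega : l.length ≤ m + 1)
  · have hr : (⟨p * 1, hS 1⟩ : S) ≠ 0 := fun e => hp (by simpa using congrArg Subtype.val e)
    have := ringKrullDim_succ_le_of_surjective ψ hψ (mem_nonZeroDivisors_of_ne_zero hr)
      ((hk _).mpr ⟨1, rfl⟩)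
    rw [hT] at this
    exact_mod_cast this

lemma exists_psi {k T : Type} [Field k] [CommRing T] (ι : T →+* k) (hι : Function.Injective ι)
    (S : Subring k[X]) (hS : ∀ f ∈ S, f.eval 0 ∈ ι.range) :
    ∃ ψ : S →+* T, ∀ r, ι (ψ r) = r.1.eval 0 := by
  let e : T ≃+* ι.range := RingEquiv.ofBijective ι.rangeRestrict
    ⟨fun a b h => hι (congrArg Subtype.val h), ι.rangeRestrict_surjective⟩
  let φ : S →+* ι.range :=
    ((evalRingHom (0 : k)).comp S.subtype).codRestrict ι.range (fun r => hS r.1 r.2)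
  refine ⟨e.symm.toRingHom.comp φ, fun r => ?_⟩
  have : (e (e.symm (φ r))).1 = (φ r).1 := by rw [e.apply_symm_apply]
  exact this

end Pool.Agent.H16.Chomp
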