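import Mathlib
import Pool.Agent.H16.Chomp1

set_option autoImplicit false

namespace Pool.Agent.H16.Chomp

open Polynomial

/-- domain of characteristic two whose only unit is one -/
def Good (T : Type) [CommRing T] : Prop := IsDomain T ∧ (2 : T) = 0 ∧ ∀ u : T, IsUnit u → u = 1

theorem step1 (T : Type) [CommRing T] (hT : Good T) (m : ℕ) (hm : ringKrullDim T = m) :
    ∃ (U : Type) (_ : CommRing U), Good U ∧ ringKrullDim U = (m + 1 : ℕ) ∧
      ∃ s : U, s ≠ 0 ∧ (Ideal.span {s}).IsMaximal := by
  obtain ⟨hd, h2, hu⟩ := hT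
  let k := FractionRing T
  let ι : T →+* k := algebraMap T k
  have hι : Function.Injective ι := IsFractionRing.injective T k
  let S : Subring k[X] := ι.range.comap (evalRingHom 0)
  have hS : ∀ f, f ∈ S ↔ f.eval 0 ∈ ι.range := fun f => Iff.rfl
  obtain ⟨ψ, hψ⟩ := exists_psi ι hι S (fun f hf => hf)
  have hX : ∀ g, X * g ∈ S := fun g => (hS _).mpr (by simp)
  have hsurj : Function.Surjective ψ := by
    intro t
    refine ⟨⟨C (ι t), (hS _).mpr (by simp)⟩, hι ?_⟩
    rw [hψ]; simp
  have hk : ∀ r : S, ψ r = 0 ↔ X ∣ r.1 := by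
    intro r
    rw [X_dvd_iff, coeff_zero_eq_eval_zero, ← hψ]
    exact ⟨fun h => by rw [h, map_zero], fun h => hι (by rw [h, map_zero])⟩
  refine ⟨S, inferInstance, ⟨inferInstance, ?_, ?_⟩,
    dim_pull S X X_ne_zero hX ψ hsurj hk m hm, ⟨1 - X, (hS _).mpr (by simp)⟩, ?_, ?_⟩
  · have h : (2 : k) = 0 := by rw [← map_ofNat ι 2, h2, map_zero]
    have h' : (2 : k[X]) = 0 := by rw [← map_ofNat C 2, h, map_zero]
    exact Subtype.ext h'
  · intro u hu'
    obtain ⟨c, _, hc⟩ := Polynomial.isUnit_iff.mp (hu'.map S.subtype)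
    have h1 := hu _ (hu'.map ψ)
    have h3 := hψ u
    have hc' : u.1 = C c := hc.symm
    rw [h1, map_one, hc', eval_C] at h3
    apply Subtype.ext
    rw [hc', ← h3]; simp
  · intro e
    have := congrArg (fun r : S => r.1.eval 0) e
    simp at this
  · let φ : S →+* k := (evalRingHom 1).comp S.subtype
    have hφ : Function.Surjective φ := fun c => ⟨⟨X * C c, hX _⟩, by simp [φ]⟩
    have := RingHom.ker_isMaximal_of_surjective φ hφ
    suffices hh : Ideal.span {(⟨1 - X, (hS _).mpr (by simp)⟩ : S)} = RingHom.ker φ by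
      rw [hh]; exact this
    apply le_antisymm
    · rw [Ideal.span_singleton_le_iff_mem, RingHom.mem_ker]; simp [φ]
    · intro r hr
      have h1 : r.1.IsRoot 1 := hr
      obtain ⟨g, hg⟩ := dvd_iff_isRoot.mpr h1
      have hgS : -g ∈ S := by
        rw [hS]
        have : (-g).eval 0 = r.1.eval 0 := by
          rw [hg, eval_neg, eval_mul, eval_sub, eval_X, eval_C]; ring
        rw [this]; exact r.2
      rw [Ideal.mem_span_singleton]
      refine ⟨⟨-g, hgS⟩, Subtype.ext ?_⟩
      change r.1 = (1 - X) * (-g)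
      rw [hg]; simp; ring

theorem step2 (T : Type) [CommRing T] (hT : Good T) (m : ℕ) (hm : ringKrullDim T = m)
    (s : T) (hs0 : s ≠ 0) (hs : (Ideal.span {s}).IsMaximal) :
    ∃ (R : Type) (_ : CommRing R), ringKrullDim R = (m + 1 : ℕ) ∧ BWins R := by
  classical
  obtain ⟨hd, h2, hu⟩ := hT
  let k := AlgebraicClosure (FractionRing T)
  let ι : T →+* k := (algebraMap (FractionRing T) k).comp (algebraMap T (FractionRing T))
  have hι : Function.Injective ι :=
    (algebraMap (FractionRing T) k).injective.comp (IsFractionRing.injective T _)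
  have k2 : (2 : k) = 0 := by rw [← map_ofNat ι 2, h2, map_zero]
  let S : Subring k[X] :=
    { carrier := {f | f.eval 0 ∈ ι.range ∧ f.eval 1 = (f.eval 0) ^ 2}
      mul_mem' := by
        rintro a b ⟨a1, a2⟩ ⟨b1, b2⟩
        exact ⟨by rw [eval_mul]; exact mul_mem a1 b1, by simp only [eval_mul, a2, b2]; ring⟩
      one_mem' := ⟨by simp, by simp⟩
      add_mem' := by
        rintro a b ⟨a1, a2⟩ ⟨b1, b2⟩
        refine ⟨by rw [eval_add]; exact add_mem a1 b1, ?_⟩
        simp only [eval_add, a2, b2]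
        linear_combination (-(a.eval 0 * b.eval 0)) * k2
      zero_mem' := ⟨by simp, by simp⟩
      neg_mem' := by
        rintro a ⟨a1, a2⟩
        refine ⟨by rw [eval_neg]; exact neg_mem a1, ?_⟩
        simp only [eval_neg, a2]
        linear_combination (-(a.eval 0) ^ 2) * k2 }
  have hS : ∀ f, f ∈ S ↔ f.eval 0 ∈ ι.range ∧ f.eval 1 = (f.eval 0) ^ 2 := fun f => Iff.rfl
  obtain ⟨ψ, hψ⟩ := exists_psi ι hι S (fun f hf => hf.1)
  let p : k[X] := X * (X - C 1)
  have hp0 : p ≠ 0 := mul_ne_zero X_ne_zero (X_sub_C_ne_zero 1)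
  have hP : ∀ g, p * g ∈ S := fun g => (hS _).mpr (by simp [p])
  have hlift : ∀ t, ∃ r : S, ψ r = t := by
    intro t
    refine ⟨⟨C (ι t) + C (ι t ^ 2 - ι t) * X, (hS _).mpr (by simp)⟩, hι ?_⟩
    rw [hψ]; simp
  have hpd : ∀ f : k[X], f.eval 0 = 0 → f.eval 1 = 0 → p ∣ f := by
    intro f h0 h1
    have c : IsCoprime (X : k[X]) (X - C 1) := ⟨1, -1, by simp⟩
    refine c.mul_dvd ?_ (dvd_iff_isRoot.mpr h1)
    rw [X_dvd_iff, coeff_zero_eq_eval_zero]; exact h0
  have hk : ∀ r : S, ψ r = 0 ↔ p ∣ r.1 := by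
    intro r
    constructor
    · intro h
      have h0 : r.1.eval 0 = 0 := by rw [← hψ, h, map_zero]
      exact hpd _ h0 (by rw [r.2.2, h0]; simp)
    · rintro ⟨g, hg⟩
      apply hι
      rw [hψ, hg]; simp [p]
  refine ⟨S, inferInstance, dim_pull S p hp0 hP ψ hlift hk m hm, bwins_of_star S ?_⟩
  -- combination lemma
  have comb : ∀ (a b : S) (d : k[X]), d ∈ Ideal.span {a.1, b.1} → ∀ r : S, p * d ∣ r.1 →
      r ∈ Ideal.span {a, b} := by
    intro a b d hd r ⟨g, hg⟩
    obtain ⟨u, v, e⟩ := Ideal.mem_span_pair.mp hd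
    refine Ideal.mem_span_pair.mpr ⟨⟨p * (g * u), hP _⟩, ⟨p * (g * v), hP _⟩, Subtype.ext ?_⟩
    change p * (g * u) * a.1 + p * (g * v) * b.1 = r.1
    rw [hg, ← e]; ring
  intro a ha0 hau
  have ha0' : a.1 ≠ 0 := fun e => ha0 (Subtype.ext e)
  by_cases hroot : ∃ α : k, α ≠ 0 ∧ α ≠ 1 ∧ a.1.eval α = 0
  · obtain ⟨α, h0, h1, hα⟩ := hroot
    have h1' : 1 - α ≠ 0 := sub_ne_zero.mpr (Ne.symm h1)
    let l : k[X] := C (-α⁻¹) + C ((1 - α)⁻¹ + α⁻¹) * X
    obtain ⟨c, hc⟩ := Infinite.exists_notMem_finset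
      (a.1.roots.toFinset.image (fun β => -(l.eval β) / p.eval β))
    let g : k[X] := l + C c * p
    have g0 : g.eval 0 = -α⁻¹ := by simp [g, l, p]
    have g1 : g.eval 1 = (1 - α)⁻¹ := by simp [g, l, p]
    have hcop : IsCoprime a.1 g := by
      rw [Polynomial.isCoprime_iff_aeval_ne_zero_of_isAlgClosed (k := k) k]
      intro β
      by_contra hh
      push Not at hh
      obtain ⟨e1, e2⟩ := hh
      rw [coe_aeval_eq_eval] at e1 e2
      by_cases hb0 : β = 0
      · rw [hb0, g0] at e2; exact h0 (by simpa using e2)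
      by_cases hb1 : β = 1
      · rw [hb1, g1] at e2; exact h1' (by simpa using e2)
      apply hc
      refine Finset.mem_image.mpr ⟨β, by simpa [ha0'] using e1, ?_⟩
      have hp : p.eval β ≠ 0 := by
        simp only [p, eval_mul, eval_X, eval_sub, eval_C]
        exact mul_ne_zero hb0 (sub_ne_zero.mpr hb1)
      have : l.eval β + c * p.eval β = 0 := by simpa [g] using e2
      rw [div_eq_iff hp]
      linear_combination -this
    have b0 : ((X - C α) * g).eval 0 = 1 := by
      rw [eval_mul, g0, eval_sub, eval_X, eval_C, zero_sub, neg_mul_neg]; exact mul_inv_cancel₀ h0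
    have b1 : ((X - C α) * g).eval 1 = 1 := by
      rw [eval_mul, g1, eval_sub, eval_X, eval_C]; exact mul_inv_cancel₀ h1'
    let b : S := ⟨(X - C α) * g, (hS _).mpr ⟨by rw [b0]; simp, by rw [b0, b1]; simp⟩⟩
    have hd : X - C α ∈ Ideal.span {a.1, b.1} := by
      obtain ⟨u, v, e⟩ := hcop
      refine Ideal.mem_span_pair.mpr ⟨u * (X - C α), v, ?_⟩
      change u * (X - C α) * a.1 + v * ((X - C α) * g) = _
      linear_combination (X - C α) * e
    have hpα : p.eval α ≠ 0 := by
      simp only [p, eval_mul, eval_X, eval_sub, eval_C]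
      exact mul_ne_zero h0 (sub_ne_zero.mpr h1)
    refine ⟨b, ?_, ?_⟩
    · intro hb
      obtain ⟨r, hr⟩ := Ideal.mem_span_singleton.mp hb
      have hr' : (X - C α) * g = a.1 * r.1 := congrArg Subtype.val hr
      have hψb : ψ b = 1 := hι (by rw [hψ, map_one]; exact b0)
      have ua : ψ a = 1 := hu _ (IsUnit.of_mul_eq_one (ψ r) (by rw [← map_mul, ← hr, hψb]))
      have a0 : a.1.eval 0 = 1 := by rw [← hψ, ua, map_one]
      have a1 : a.1.eval 1 = 1 := by rw [a.2.2, a0]; simp
      have hdv : a.1 ∣ X - C α := hcop.dvd_of_dvd_mul_right ⟨r.1, hr'⟩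
      obtain ⟨w, hw⟩ := dvd_iff_isRoot.mpr (show a.1.IsRoot α from hα)
      have hw' : (X - C α) * w ∣ (X - C α) * 1 := by rw [← hw, mul_one]; exact hdv
      have hwu : IsUnit w := isUnit_of_dvd_one ((mul_dvd_mul_iff_left (X_sub_C_ne_zero α)).mp hw')
      obtain ⟨e, _, he⟩ := Polynomial.isUnit_iff.mp hwu
      rw [hw, ← he] at a0 a1
      simp only [eval_mul, eval_sub, eval_X, eval_C] at a0 a1
      have : e = 0 := by linear_combination a1 - a0
      rw [this] at a0; simp at a0
    · let φ : S →+* k := (evalRingHom α).comp S.subtype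
      have hφ : Function.Surjective φ := fun c =>
        ⟨⟨p * C (c / p.eval α), hP _⟩, by
          change (p * C (c / p.eval α)).eval α = c
          rw [eval_mul, eval_C]; exact mul_div_cancel₀ c hpα⟩
      have := RingHom.ker_isMaximal_of_surjective φ hφ
      suffices hh : Ideal.span {a, b} = RingHom.ker φ by rw [hh]; exact this
      apply le_antisymm
      · rw [Ideal.span_le]
        rintro x (rfl | rfl)
        · exact hα
        · change ((X - C α) * g).eval α = 0
          simp
      · intro r hr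
        have h1 : r.1.eval α = 0 := hr
        have : r - r * b ∈ Ideal.span {a, b} := by
          apply comb a b _ hd
          have c : IsCoprime p (X - C α) := by
            rw [Polynomial.isCoprime_iff_aeval_ne_zero_of_isAlgClosed (k := k) k]
            intro β
            by_cases e : β = α
            · left; rw [e, coe_aeval_eq_eval]; exact hpα
            · right; simpa [sub_eq_zero] using e
          refine c.mul_dvd (hpd _ ?_ ?_) (dvd_iff_isRoot.mpr ?_)
          · change (r.1 - r.1 * ((X - C α) * g)).eval 0 = 0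
            rw [eval_sub, eval_mul, b0]; ring
          · change (r.1 - r.1 * ((X - C α) * g)).eval 1 = 0
            rw [eval_sub, eval_mul, b1]; ring
          · change (r.1 - r.1 * ((X - C α) * g)).eval α = 0
            rw [eval_sub, eval_mul, h1]; ring
        have h3 : r * b ∈ Ideal.span {a, b} :=
          Ideal.mul_mem_left _ _ (Ideal.subset_span (by simp))
        simpa using Ideal.add_mem _ this h3
  · push Not at hroot
    have hψa : ψ a = 0 := by
      by_contra hne
      have a0 : a.1.eval 0 ≠ 0 := by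
        rw [← hψ]; exact fun e => hne (hι (by rw [e, map_zero]))
      have a1 : a.1.eval 1 ≠ 0 := by rw [a.2.2]; exact pow_ne_zero _ a0
      have hdeg : a.1.degree = 0 := by
        by_contra hdg
        obtain ⟨β, hβ⟩ := IsAlgClosed.exists_root a.1 hdg
        by_cases e0 : β = 0
        · rw [e0] at hβ; exact a0 hβ
        by_cases e1 : β = 1
        · rw [e1] at hβ; exact a1 hβ
        exact hroot β e0 e1 hβ
      have hc := eq_C_of_degree_eq_zero hdeg
      have h3 := a.2.2
      rw [hc] at h3 a0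
      simp only [eval_C] at h3 a0
      have : a.1.coeff 0 = 1 := by
        have h4 : a.1.coeff 0 * (a.1.coeff 0 - 1) = 0 := by linear_combination -h3
        exact sub_eq_zero.mp ((mul_eq_zero.mp h4).resolve_left a0)
      apply hau
      have : a = 1 := Subtype.ext (by rw [hc, this]; simp)
      rw [this]; exact isUnit_one
    obtain ⟨b, hb⟩ := hlift s
    have b0 : b.1.eval 0 ≠ 0 := by
      rw [← hψ, hb]; exact fun e => hs0 (hι (by rw [e, map_zero]))
    have b1 : b.1.eval 1 ≠ 0 := by rw [b.2.2]; exact pow_ne_zero _ b0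
    have hcop : IsCoprime a.1 b.1 := by
      rw [Polynomial.isCoprime_iff_aeval_ne_zero_of_isAlgClosed (k := k) k]
      intro β
      rw [coe_aeval_eq_eval]
      by_cases e0 : β = 0
      · right; rw [e0]; exact b0
      by_cases e1 : β = 1
      · right; rw [e1]; exact b1
      left; exact hroot β e0 e1
    have hd : (1 : k[X]) ∈ Ideal.span {a.1, b.1} := by
      obtain ⟨u, v, e⟩ := hcop
      exact Ideal.mem_span_pair.mpr ⟨u, v, e⟩
    refine ⟨b, ?_, ?_⟩
    · intro h
      obtain ⟨r, hr⟩ := Ideal.mem_span_singleton.mp h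
      apply hs0
      rw [← hb, hr, map_mul, hψa, zero_mul]
    · have := Ideal.comap_isMaximal_of_surjective ψ hlift (K := Ideal.span {s})
      suffices hh : Ideal.span {a, b} = (Ideal.span {s}).comap ψ by rw [hh]; exact this
      apply le_antisymm
      · rw [Ideal.span_le]
        rintro x (rfl | rfl)
        · change ψ _ ∈ Ideal.span {s}
          rw [hψa]; exact Ideal.zero_mem _
        · change ψ _ ∈ Ideal.span {s}
          rw [hb]; exact Ideal.mem_span_singleton_self _
      · intro r hr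
        obtain ⟨t, ht⟩ := Ideal.mem_span_singleton.mp (Ideal.mem_comap.mp hr)
        obtain ⟨t', rfl⟩ := hlift t
        have : r - t' * b ∈ Ideal.span {a, b} := by
          apply comb a b 1 hd
          rw [mul_one, ← hk, map_sub, map_mul, ht, hb]; ring
        have h3 : t' * b ∈ Ideal.span {a, b} :=
          Ideal.mul_mem_left _ _ (Ideal.subset_span (by simp))
        simpa using Ideal.add_mem _ this h3

lemma good0 : Good (ZMod 2) ∧ ringKrullDim (ZMod 2) = (0 : ℕ) := by
  refine ⟨⟨inferInstance, rfl, fun u hu => ?_⟩, by simp [ringKrullDim_eq_zero_of_field]⟩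
  have := hu.ne_zero
  revert this; revert u; decide

theorem good_all (m : ℕ) : ∃ (U : Type) (_ : CommRing U), Good U ∧ ringKrullDim U = m := by
  induction m with
  | zero => exact ⟨ZMod 2, inferInstance, good0⟩
  | succ m ih =>
    obtain ⟨T, _, h1, h2⟩ := ih
    obtain ⟨U, _, h3, h4, _⟩ := step1 T h1 m h2
    exact ⟨U, inferInstance, h3, h4⟩

theorem ge_two (m : ℕ) :
    ∃ (R : Type) (_ : CommRing R), ringKrullDim R = (m + 2 : ℕ) ∧ BWins R := by
  obtain ⟨T, _, h1, h2⟩ := good_all m
  obtain ⟨U, _, h3, h4, s, h5, h6⟩ := step1 T h1 m h2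
  exact step2 U h3 (m + 1) h4 s h5 h6

theorem dim_zero : ∃ (R : Type) (_ : CommRing R), ringKrullDim R = (0 : ℕ) ∧ BWins R :=
  ⟨ZMod 2, inferInstance, good0.2, bwins_of_star _ (fun a h1 h2 => absurd h1.isUnit h2)⟩

end Pool.Agent.H16.Chomp
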