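import Mathlib
import Pool.Agent.H16.Chomp2

set_option autoImplicit false

namespace Pool.Agent.H16.Chomp

open NumberField

theorem dim_one_of (O : Type) [CommRing O] [IsDedekindDomain O] (x : O) (hx : Irreducible x)
    (hx' : ¬ Prime x) : ∃ (R : Type) (_ : CommRing R), ringKrullDim R = (1 : ℕ) ∧ BWins R := by
  let M : Submonoid O := Submonoid.closure {π | Prime π}
  have hM : M ≤ nonZeroDivisors O := by
    rw [Submonoid.closure_le]
    intro π hπ
    exact mem_nonZeroDivisors_of_ne_zero (Prime.ne_zero hπ)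
  let D := Localization M
  have hD : IsDomain D := IsLocalization.isDomain_localization hM
  have hDD : IsDedekindDomain D := IsLocalization.isDedekindDomain O hM D
  have inj : Function.Injective (algebraMap O D) := IsLocalization.injective D hM
  have key : ∀ a : O, (∀ π, Prime π → ¬ π ∣ a) → ∀ s ∈ M, ∀ y, a ∣ s * y → a ∣ y := by
    intro a ha s hs
    induction hs using Submonoid.closure_induction with
    | mem π hπ =>
      rintro y ⟨z, hz⟩
      have : π ∣ a * z := ⟨y, hz.symm⟩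
      obtain ⟨w, rfl⟩ := ((Prime.dvd_or_dvd hπ this).resolve_left (ha π hπ))
      refine ⟨w, mul_left_cancel₀ (Prime.ne_zero hπ) ?_⟩
      rw [hz]; ring
    | one => intro y h; simpa using h
    | mul s t _ _ hs ht => intro y h; exact ht y (hs _ (by rwa [← mul_assoc]))
  have key2 : ∀ a : O, (∀ π, Prime π → ¬ π ∣ a) → ∀ y,
      algebraMap O D a ∣ algebraMap O D y → a ∣ y := by
    intro a ha y ⟨z, hz⟩
    obtain ⟨⟨u, s⟩, e⟩ := IsLocalization.surj M z
    refine key a ha s s.2 y ⟨u, inj ?_⟩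
    simp only at e
    rw [map_mul, map_mul, hz, ← e]; ring
  have hnf : ¬ IsField D := by
    intro hf
    have hxx : ∀ π, Prime π → ¬ π ∣ x := fun π hπ h =>
      hx' ((hπ.irreducible.associated_of_dvd hx h).prime hπ)
    have h0 : algebraMap O D x ≠ 0 := fun e => hx.ne_zero (inj (by rw [e, map_zero]))
    obtain ⟨b, hb⟩ := hf.mul_inv_cancel h0
    exact hx.not_isUnit (isUnit_of_dvd_one (key2 x hxx 1 ⟨b, by rw [map_one, hb]⟩))
  have nop : ∀ a : O, a ≠ 0 → ¬ (Ideal.span {algebraMap O D a}).IsMaximal := by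
    intro a
    induction a using (wellFounded_dvdNotUnit (α := O)).induction with
    | _ a ih =>
      intro ha0 hmax
      by_cases hh : ∃ π, Prime π ∧ π ∣ a
      · obtain ⟨π, hπ, w, rfl⟩ := hh
        have hw : w ≠ 0 := right_ne_zero_of_mul ha0
        refine ih w ⟨hw, π, hπ.not_unit, mul_comm _ _⟩ hw ?_
        have hu : IsUnit (algebraMap O D π) :=
          IsLocalization.map_units D (⟨π, Submonoid.subset_closure hπ⟩ : M)
        rwa [map_mul, Ideal.span_singleton_mul_left_unit hu] at hmax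
      · push Not at hh
        have h0 : algebraMap O D a ≠ 0 := fun e => ha0 (inj (by rw [e, map_zero]))
        have hp : Prime (algebraMap O D a) := (Ideal.span_singleton_prime h0).mp hmax.isPrime
        refine hh a ⟨ha0, fun h => hp.not_unit (h.map _), fun u v h => ?_⟩ dvd_rfl
        have := hp.dvd_or_dvd (a := algebraMap O D u) (b := algebraMap O D v)
          (by rw [← map_mul]; exact map_dvd _ h)
        exact this.imp (key2 a hh u) (key2 a hh v)
  refine ⟨D, inferInstance, ?_, bwins_of_star D ?_⟩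
  · apply eq_of_le_of_not_lt ?_ fun h' ↦ hnf ?_
    · rw [← Ring.krullDimLE_iff]
      infer_instance
    · have h'' : ringKrullDim D ≤ 0 := Order.le_of_lt_succ h'
      rw [← Nat.cast_zero, ← Ring.krullDimLE_iff] at h''
      exact Ring.KrullDimLE.isField_of_isDomain
  · intro a ha0 hau
    obtain ⟨N, hN, haN⟩ := Ideal.exists_le_maximal (Ideal.span {a})
      (fun e => hau (Ideal.span_singleton_eq_top.mp e))
    obtain ⟨b, hb⟩ := IsDedekindDomain.exists_eq_span_pair
      (haN (Ideal.mem_span_singleton_self a)) ha0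
    refine ⟨b, fun h => ?_, hb ▸ hN⟩
    have e : N = Ideal.span {a} := by
      refine le_antisymm ?_ haN
      rw [hb, Ideal.span_le]
      rintro y (rfl | rfl)
      · exact Ideal.mem_span_singleton_self _
      · exact h
    obtain ⟨⟨u, s⟩, e2⟩ := IsLocalization.surj M a
    simp only at e2
    have hu : IsUnit (algebraMap O D s) := IsLocalization.map_units D s
    refine nop u (fun e3 => ?_) ?_
    · rw [e3, map_zero] at e2
      exact ha0 (hu.mul_left_eq_zero.mp e2)
    · rw [← e2, Ideal.span_singleton_mul_right_unit hu, ← e]; exact hN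

instance fact5 : Fact (∀ r : ℚ, r ^ 2 ≠ -5 + 0 * r) := ⟨fun r h => by nlinarith [sq_nonneg r]⟩

abbrev K5 : Type := QuadraticAlgebra ℚ (-5) 0

instance : NumberField K5 := ⟨⟩

lemma int_star {z : K5} (hz : IsIntegral ℤ z) : IsIntegral ℤ (star z) :=
  hz.map (starRingEnd K5).toIntAlgHom

lemma rat_int {q : ℚ} (h : IsIntegral ℤ (⟨q, 0⟩ : K5)) : ∃ n : ℤ, (n : ℚ) = q := by
  have e : (⟨q, 0⟩ : K5) = algebraMap ℚ K5 q := by rw [eq_ratCast]; rfl
  rw [e] at h
  have := (isIntegral_algebraMap_iff (algebraMap ℚ K5).injective).mp h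
  exact IsIntegrallyClosed.isIntegral_iff.mp this

lemma mul_star5 (z : K5) : z * star z = ⟨z.re ^ 2 + 5 * z.im ^ 2, 0⟩ := by
  ext <;> simp <;> ring

lemma int_norm {z : K5} (hz : IsIntegral ℤ z) : ∃ n : ℤ, (n : ℚ) = z.re ^ 2 + 5 * z.im ^ 2 := by
  apply rat_int
  rw [← mul_star5]; exact hz.mul (int_star hz)

lemma int_trace {z : K5} (hz : IsIntegral ℤ z) : ∃ n : ℤ, (n : ℚ) = 2 * z.re := by
  apply rat_int
  have : (⟨2 * z.re, 0⟩ : K5) = z + star z := by ext <;> simp; ring
  rw [this]; exact hz.add (int_star hz)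

def w5 : K5 := ⟨0, 1⟩

lemma int_w : IsIntegral ℤ w5 := by
  refine ⟨Polynomial.X ^ 2 + Polynomial.C 5, Polynomial.monic_X_pow_add_C _ (by norm_num), ?_⟩
  simp only [Polynomial.eval₂_add, Polynomial.eval₂_pow, Polynomial.eval₂_X, Polynomial.eval₂_C]
  have : (algebraMap ℤ K5) 5 = ⟨5, 0⟩ := rfl
  rw [this]
  ext <;> simp [w5, sq]

lemma norm_ne_two {z : K5} (hz : IsIntegral ℤ z) : z.re ^ 2 + 5 * z.im ^ 2 ≠ 2 := by
  intro h
  obtain ⟨m, hm⟩ := int_trace hz
  obtain ⟨n, hn⟩ := int_trace (hz.mul int_w)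
  have hn' : (n : ℚ) = -10 * z.im := by rw [hn]; simp [w5]; ring
  have : (5 * m ^ 2 + n ^ 2 : ℚ) = 40 := by rw [hm, hn']; linear_combination 20 * h
  have h2 : 5 * m ^ 2 + n ^ 2 = 40 := by exact_mod_cast this
  have b1 : -3 < m ∧ m < 3 := by constructor <;> nlinarith [sq_nonneg n]
  have b2 : -7 < n ∧ n < 7 := by constructor <;> nlinarith [sq_nonneg m]
  obtain ⟨b1, b1'⟩ := b1
  obtain ⟨b2, b2'⟩ := b2
  interval_cases m <;> interval_cases n <;> simp at h2

lemma unit_of {u : 𝓞 K5} (h : u.1.re ^ 2 + 5 * u.1.im ^ 2 = 1) : IsUnit u := by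
  refine IsUnit.of_mul_eq_one ⟨star u.1, int_star u.2⟩ (Subtype.ext ?_)
  change u.1 * star u.1 = 1
  rw [mul_star5, h]; rfl

lemma two_val : (2 : 𝓞 K5).1 = (⟨2, 0⟩ : K5) := by
  have : (2 : 𝓞 K5) = 1 + 1 := by norm_num
  rw [this]
  change (⟨1, 0⟩ : K5) + ⟨1, 0⟩ = _
  ext <;> simp; norm_num

lemma irr2 : Irreducible (2 : 𝓞 K5) := by
  constructor
  · intro h
    obtain ⟨v, hv⟩ := h.exists_right_inv
    have e : (2 : 𝓞 K5).1 * v.1 = 1 := congrArg Subtype.val hv
    rw [two_val] at e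
    have e1 := congrArg QuadraticAlgebra.re e
    have e2 := congrArg QuadraticAlgebra.im e
    have o1 : (1 : K5).re = 1 := rfl
    have o2 : (1 : K5).im = 0 := rfl
    rw [o1] at e1; rw [o2] at e2
    simp at e1 e2
    obtain ⟨n, hn⟩ := int_norm v.2
    have : (4 * n : ℚ) = 1 := by rw [hn, e2]; linear_combination (2 * v.1.re + 1) * e1
    have : 4 * n = 1 := by exact_mod_cast this
    omega
  · intro a b hab
    have e : (2 : 𝓞 K5).1 = a.1 * b.1 := congrArg Subtype.val hab
    rw [two_val] at e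
    have e1 := congrArg QuadraticAlgebra.re e
    have e2 := congrArg QuadraticAlgebra.im e
    simp at e1 e2
    obtain ⟨m, hm⟩ := int_norm a.2
    obtain ⟨n, hn⟩ := int_norm b.2
    have : (m * n : ℚ) = 4 := by
      rw [hm, hn]
      linear_combination -(2 + (a.1.re * b.1.re + -(5 * a.1.im * b.1.im))) * e1 -
        5 * (a.1.re * b.1.im + a.1.im * b.1.re) * e2
    have h4 : m * n = 4 := by exact_mod_cast this
    have m0 : 0 ≤ m := by
      have : (0 : ℚ) ≤ m := by rw [hm]; positivity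
      exact_mod_cast this
    have m2 : m ≠ 2 := fun e => norm_ne_two a.2 (by rw [← hm, e]; norm_num)
    have m4 : m ≤ 4 := Int.le_of_dvd (by norm_num) ⟨n, h4.symm⟩
    interval_cases m
    · simp at h4
    · left; exact unit_of (by rw [← hm]; norm_num)
    · exact absurd rfl m2
    · omega
    · right; exact unit_of (by rw [← hn, show n = 1 by omega]; norm_num)

lemma nprime2 : ¬ Prime (2 : 𝓞 K5) := by
  intro h
  let w : 𝓞 K5 := ⟨w5, int_w⟩
  have hw : (1 + w) * (1 - w) = 2 * 3 := by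
    have : w * w = -5 := by
      have : (-5 : 𝓞 K5) = -(1 + 1 + 1 + 1 + 1) := by norm_num
      rw [this]
      apply Subtype.ext
      change w5 * w5 = -((⟨1, 0⟩ : K5) + ⟨1, 0⟩ + ⟨1, 0⟩ + ⟨1, 0⟩ + ⟨1, 0⟩)
      ext <;> simp [w5]; norm_num
    linear_combination -this
  have hh : ∀ (v : 𝓞 K5) (z : K5), z.re = 1 → z.im ^ 2 = 1 → z ≠ (2 : 𝓞 K5).1 * v.1 := by
    intro v z h1 h2 e
    rw [two_val] at e
    have e1 := congrArg QuadraticAlgebra.re e
    have e2 := congrArg QuadraticAlgebra.im e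
    simp at e1 e2
    obtain ⟨n, hn⟩ := int_norm v.2
    rw [e1] at h1; rw [e2] at h2
    have : (4 * n : ℚ) = 6 := by
      rw [hn]; linear_combination (2 * v.1.re + 1) * h1 + 5 * h2
    have : 4 * n = 6 := by exact_mod_cast this
    omega
  rcases h.dvd_or_dvd (⟨3, hw⟩ : (2 : 𝓞 K5) ∣ (1 + w) * (1 - w)) with ⟨v, hv⟩ | ⟨v, hv⟩
  · exact hh v ((⟨1, 0⟩ : K5) + w5) (by simp [w5]) (by simp [w5]) (congrArg Subtype.val hv)
  · exact hh v ((⟨1, 0⟩ : K5) - w5) (by simp [w5]) (by simp [w5]) (congrArg Subtype.val hv)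

theorem main (n : ℕ) : ∃ (R : Type) (_ : CommRing R), ringKrullDim R = n ∧ BWins R := by
  match n with
  | 0 => exact dim_zero
  | 1 => exact dim_one_of (𝓞 K5) 2 irr2 nprime2
  | m + 2 => exact ge_two m

end Pool.Agent.H16.Chomp
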