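import Mathlib

set_option autoImplicit false

namespace Pool.Agent.H16.Contract

/-- A fast protocol for `N` parties: `P n d` is the holder of contract `n` on day `d`;
each `P n` is a permutation and contract `n` ends with its owner on day `N - 1`. -/
def Fast {N : ℕ} (P : Fin N → Equiv.Perm (Fin N)) : Prop :=
  ∀ n d : Fin N, (d : ℕ) = N - 1 → P n d = n

/-- The amount paid by party `i`: the number of pairs (day `d ≤ N - 2`, recipient `j`) such that
some contract is with `i` on day `d` and with `j` on day `d + 1`. -/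
noncomputable def cost {N : ℕ} (P : Fin N → Equiv.Perm (Fin N)) (i : Fin N) : ℕ :=
  Set.ncard {x : Fin N × Fin N | ∃ h : (x.1 : ℕ) + 1 < N, ∃ n,
    P n x.1 = i ∧ P n ⟨x.1 + 1, h⟩ = x.2}

variable (k : ℕ)

def pf (g r : Fin (k + 1)) (x : Fin (k + 1) × Fin (k + 1)) : Fin (k + 1) × Fin (k + 1) :=
  (g + x.1 + 1, if x.1 = Fin.last k then r + x.2 + 1 else x.2)

theorem pf_inj (g r : Fin (k + 1)) : Function.Injective (pf k g r) := by
  rintro ⟨a, b⟩ ⟨a', b'⟩ h
  simp only [pf, Prod.mk.injEq, add_left_inj, add_right_inj] at h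
  obtain ⟨rfl, h⟩ := h
  split_ifs at h
  · simp only [add_left_inj, add_right_inj] at h
    rw [h]
  · rw [h]

abbrev e : Fin (k + 1) × Fin (k + 1) ≃ Fin ((k + 1) * (k + 1)) := finProdFinEquiv

noncomputable def P0 (n : Fin ((k + 1) * (k + 1))) : Equiv.Perm (Fin ((k + 1) * (k + 1))) :=
  ((e k).symm.trans (Equiv.ofBijective _
    (Finite.injective_iff_bijective.1 (pf_inj k ((e k).symm n).1 ((e k).symm n).2)))).trans (e k)

theorem P0_apply (g r : Fin (k + 1)) (x : Fin (k + 1) × Fin (k + 1)) :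
    P0 k (e k (g, r)) (e k x) = e k (pf k g r x) := by
  simp [P0]

theorem e_val (a b : Fin (k + 1)) : (e k (a, b) : ℕ) = b + (k + 1) * a := rfl

theorem fast : Fast (P0 k) := by
  intro n d hd
  obtain ⟨⟨g, r⟩, rfl⟩ := (e k).surjective n
  have : d = e k (Fin.last k, Fin.last k) := by
    apply Fin.ext
    rw [hd, e_val]
    simp only [Fin.val_last]
    have : (k + 1) * (k + 1) = k + (k + 1) * k + 1 := by ring
    omega
  rw [this, P0_apply]
  simp [pf, add_assoc, Fin.last_add_one]

def nxt {N : ℕ} (d : Fin N) : Fin N := if h : (d : ℕ) + 1 < N then ⟨d + 1, h⟩ else d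

theorem cost_le (i : Fin ((k + 1) * (k + 1))) : cost (P0 k) i ≤ 3 * (k + 1) := by
  obtain ⟨⟨h, s⟩, rfl⟩ := (e k).surjective i
  let F : Fin 3 × Fin (k + 1) → Fin ((k + 1) * (k + 1)) × Fin ((k + 1) * (k + 1)) := fun y =>
    if y.1 = 0 then (e k (y.2, s), P0 k (e k (h - 1 - y.2, 0)) (nxt (e k (y.2, s))))
    else if y.1 = 1 then
      (e k (Fin.last k, y.2), P0 k (e k (h, s - 1 - y.2)) (nxt (e k (Fin.last k, y.2))))
    else (e k (Fin.last k - 1, s),
      P0 k (e k (h - 1 - (Fin.last k - 1), y.2)) (nxt (e k (Fin.last k - 1, s))))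
  have hsub : {x : Fin ((k + 1) * (k + 1)) × Fin ((k + 1) * (k + 1)) |
      ∃ hh : (x.1 : ℕ) + 1 < (k + 1) * (k + 1), ∃ n,
        P0 k n x.1 = e k (h, s) ∧ P0 k n ⟨x.1 + 1, hh⟩ = x.2} ⊆ Set.range F := by
    rintro ⟨d, j⟩ ⟨hh, n, h1, h2⟩
    obtain ⟨⟨g, r⟩, rfl⟩ := (e k).surjective n
    obtain ⟨⟨a, b⟩, rfl⟩ := (e k).surjective d
    simp only at hh h1 h2
    have hn : nxt (e k (a, b)) = ⟨e k (a, b) + 1, hh⟩ := by simp only [nxt, dif_pos hh]
    rw [← hn] at h2
    rw [P0_apply] at h1
    have h3 := (e k).injective h1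
    simp only [pf, Prod.mk.injEq] at h3
    obtain ⟨h3, h4⟩ := h3
    by_cases ha : a = Fin.last k
    · subst ha
      rw [if_pos rfl] at h4
      have hg : g = h := by rw [← h3, add_assoc, Fin.last_add_one, add_zero]
      have hr : r = s - 1 - b := by rw [← h4]; abel
      refine ⟨(1, b), ?_⟩
      simp only [F]
      rw [if_neg (by decide), if_pos trivial, ← hg, ← h2, hr, hg]
    · rw [if_neg ha] at h4
      subst h4
      have hg : g = h - 1 - a := by rw [← h3]; abel
      obtain ⟨⟨a', b'⟩, hd⟩ := (e k).surjective (nxt (e k (a, b)))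
      by_cases ha' : a' = Fin.last k
      · have hv : (b' : ℕ) + (k + 1) * a' = b + (k + 1) * a + 1 := by
          rw [← e_val, hd, hn, ← e_val]
        have h5 : a = Fin.last k - 1 := by
          rw [eq_sub_iff_add_eq]
          apply Fin.ext
          have h6 : (a : ℕ) < k := Fin.val_lt_last ha
          rw [Fin.val_add_one_of_lt (Fin.lt_last_iff_ne_last.2 ha), Fin.val_last]
          rw [ha', Fin.val_last] at hv
          have h7 := b.2
          have h8 : (k + 1) * k ≤ (k + 1) * (a + 1) := by nlinarith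
          have h9 := Nat.le_of_mul_le_mul_left h8 (Nat.succ_pos k)
          omega
        refine ⟨(2, r), ?_⟩
        simp only [F]
        rw [if_neg (by decide), if_neg (by decide), ← h5, ← hg, h2]
      · refine ⟨(0, a), ?_⟩
        simp only [F]
        rw [if_pos trivial, ← hg, ← h2, ← hd, P0_apply, P0_apply]
        simp [pf, ha']
  calc cost (P0 k) (e k (h, s)) ≤ (Set.range F).ncard := Set.ncard_le_ncard hsub
    _ ≤ (Set.univ : Set (Fin 3 × Fin (k + 1))).ncard := by
        rw [← Set.image_univ]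
        exact Set.ncard_image_le
    _ = 3 * (k + 1) := by simp [Set.ncard_univ]

end Pool.Agent.H16.Contract
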