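import Mathlib

set_option autoImplicit false

namespace Pool.Agent.H16.CovEnt

open MeasureTheory Filter
open scoped ENNReal

variable {Ω : Type} [MeasurableSpace Ω]

open Classical in
/-- `-log a` for `a ∈ [0,1]`, with `-log 0 = ∞` -/
noncomputable def nlog (a : ℝ≥0∞) : ℝ≥0∞ := if a = 0 then ∞ else ENNReal.ofReal (-Real.log a.toReal)

open Classical in
/-- `log N` for `N ≥ 1`, with `log ∞ = ∞` -/
noncomputable def plog (N : ℝ≥0∞) : ℝ≥0∞ := if N = ∞ then ∞ else ENNReal.ofReal (Real.log N.toReal)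

/-- `φ_π(a) = ∫ -log a dπ` for `a : Ω → [0,1]` -/
noncomputable def phi (π : Measure Ω) (a : Ω → ℝ≥0∞) : ℝ≥0∞ := ∫⁻ x, nlog (a x) ∂π

/-- least number of `l`-dimensional `I`-boxes whose union has measure at least `1 - lam` -/
noncomputable def nbox (I : Set (Set Ω)) (π : Measure Ω) (lam : ℝ) (l : ℕ) : ℝ≥0∞ :=
  ⨅ (n : ℕ) (B : Fin n → Fin l → I)
    (_ : ENNReal.ofReal (1 - lam) ≤
      Measure.pi (fun _ : Fin l => π) (⋃ j, Set.pi Set.univ (fun i => (B j i).1))), (n : ℝ≥0∞)

noncomputable def upperH (I : Set (Set Ω)) (π : Measure Ω) (lam : ℝ) : ℝ≥0∞ :=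
  limsup (fun l : ℕ => plog (nbox I π lam l) / l) atTop

noncomputable def lowerH (I : Set (Set Ω)) (π : Measure Ω) (lam : ℝ) : ℝ≥0∞ :=
  liminf (fun l : ℕ => plog (nbox I π lam l) / l) atTop

/-- infimum of `φ_π` over the functions `x ↦ β {J | x ∈ J}`, `β` a compatible probability
measure on some σ-algebra of subsets of `I` -/
noncomputable def fullH (I : Set (Set Ω)) (π : Measure Ω) : ℝ≥0∞ :=
  ⨅ (m : MeasurableSpace I) (β : @Measure I m) (_ : IsProbabilityMeasure β)
    (_ : NullMeasurableSet {z : I × Ω | z.2 ∈ z.1.1} (β.prod π)),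
    phi π (fun x => β {J | x ∈ J.1})

/-- infimum of `φ_π` over countable convex combinations of indicators of members of `I` -/
noncomputable def cntH (I : Set (Set Ω)) (π : Measure Ω) : ℝ≥0∞ :=
  ⨅ p : PMF I, phi π (fun x => ∑' J : I, p J * J.1.indicator 1 x)

end Pool.Agent.H16.CovEnt
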