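import Mathlib
import Pool.Agent.H16.CovEntDefs

set_option autoImplicit false

namespace Pool.Agent.H16.CovEnt

open MeasureTheory Filter Topology
open scoped ENNReal

variable {Ω : Type} [MeasurableSpace Ω] {I : Set (Set Ω)}

noncomputable def av (p : PMF I) (x : Ω) : ℝ≥0∞ := p.toOuterMeasure {J | x ∈ J.1}

omit [MeasurableSpace Ω] in
lemma av_eq (p : PMF I) (x : Ω) : av p x = ∑' J : I, p J * J.1.indicator 1 x := by
  rw [av, PMF.toOuterMeasure_apply]
  refine tsum_congr fun J => ?_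
  by_cases h : x ∈ J.1 <;> simp [Set.indicator, h]

omit [MeasurableSpace Ω] in
lemma av_le (p : PMF I) (x : Ω) : av p x ≤ 1 := by
  rw [av, PMF.toOuterMeasure_apply, ← p.tsum_coe]
  exact ENNReal.tsum_le_tsum fun J => Set.indicator_le_self _ _ J

lemma av_meas (hI : ∀ J ∈ I, MeasurableSet J) (p : PMF I) : Measurable (av p) := by
  have : av p = fun x => ∑' J : p.support, p J * J.1.1.indicator 1 x := by
    funext x
    rw [av_eq]
    refine (tsum_subtype_eq_of_support_subset (s := p.support)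
      (f := fun J : I => p J * J.1.indicator 1 x) ?_).symm
    intro J hJ h
    exact hJ (by simp [h])
  rw [this]
  have := p.support_countable.to_subtype
  exact Measurable.ennreal_tsum fun J =>
    (measurable_one.indicator (hI _ J.1.2)).const_mul _

noncomputable def ar (p : PMF I) (x : Ω) : ℝ := (av p x).toReal

omit [MeasurableSpace Ω] in
lemma ar_bd (p : PMF I) (x : Ω) : 0 ≤ ar p x ∧ ar p x ≤ 1 :=
  ⟨ENNReal.toReal_nonneg, ENNReal.toReal_le_of_le_ofReal zero_le_one (by simpa using av_le p x)⟩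

lemma ar_meas (hI : ∀ J ∈ I, MeasurableSet J) (p : PMF I) : Measurable (ar p) :=
  (av_meas hI p).ennreal_toReal

lemma bdd_int {α : Type} [MeasurableSpace α] (μ : Measure α) [IsFiniteMeasure μ] {f : α → ℝ}
    (hf : Measurable f) (C : ℝ) (h : ∀ x, |f x| ≤ C) : Integrable f μ :=
  Integrable.of_bound hf.aestronglyMeasurable C (Eventually.of_forall h)

omit [MeasurableSpace Ω] in
lemma mix (p : PMF I) (J : I) (θ : ℝ) (h0 : 0 ≤ θ) (h1 : θ ≤ 1) : ∃ p' : PMF I, ∀ x,
    ar p' x = ar p x + θ * (J.1.indicator 1 x - ar p x) := by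
  classical
  lift θ to NNReal using h0
  refine ⟨(PMF.bernoulli θ h1).bind (fun b => if b then PMF.pure J else p), fun x => ?_⟩
  have hav := (av_le p x).trans_lt ENNReal.one_lt_top
  rw [ar, ar, av, PMF.toOuterMeasure_bind_apply, tsum_fintype]
  simp only [Fintype.univ_bool, Finset.mem_singleton, Bool.true_eq_false, not_false_eq_true,
    Finset.sum_insert, Finset.sum_singleton, PMF.bernoulli_apply, cond_true, cond_false, if_true,
    Bool.false_eq_true, if_false, PMF.toOuterMeasure_pure_apply]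
  change (_ + _ * av p x).toReal = _
  rw [ENNReal.toReal_add (ENNReal.mul_ne_top ENNReal.coe_ne_top (by split_ifs <;> simp))
    (ENNReal.mul_ne_top ENNReal.coe_ne_top hav.ne), ENNReal.toReal_mul, ENNReal.toReal_mul,
    ENNReal.coe_toReal, ENNReal.coe_toReal, NNReal.coe_sub (by exact h1)]
  by_cases h : x ∈ J.1 <;> simp [Set.indicator, h] <;> ring

lemma log_ineq {u : ℝ} (h : |u| ≤ 1 / 2) : -Real.log (1 + u) ≤ -u + 2 * u ^ 2 := by
  obtain ⟨h1, h2⟩ := abs_le.mp h
  have hp : 0 < 1 + u := by linarith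
  have := Real.one_sub_inv_le_log_of_pos hp
  have e : (1 + u)⁻¹ ≤ 1 - u + 2 * u ^ 2 := by
    rw [inv_le_iff_one_le_mul₀ hp]; nlinarith [sq_nonneg u]
  linarith

lemma logb {τ y : ℝ} (h0 : 0 < τ) (h1 : τ ≤ 1) (y0 : 0 ≤ y) (y1 : y ≤ 1) :
    |-Real.log (τ + y)| ≤ 1 + τ⁻¹ := by
  have a := Real.log_le_sub_one_of_pos (show 0 < τ + y by linarith)
  have b := Real.one_sub_inv_le_log_of_pos (show 0 < τ + y by linarith)
  have c : (τ + y)⁻¹ ≤ τ⁻¹ := inv_anti₀ h0 (by linarith)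
  have d : 0 < τ⁻¹ := inv_pos.mpr h0
  rw [abs_le]; constructor <;> linarith

lemma invb {τ y : ℝ} (h0 : 0 < τ) (y0 : 0 ≤ y) : |(τ + y)⁻¹| ≤ τ⁻¹ := by
  rw [abs_of_pos (inv_pos.mpr (by linarith))]; exact inv_anti₀ h0 (by linarith)

/-- approximate optimality conditions -/
theorem kkt (hI : ∀ J ∈ I, MeasurableSet J) (π : Measure Ω) [IsProbabilityMeasure π]
    (J0 : I) (τ κ : ℝ) (h0 : 0 < τ) (h1 : τ ≤ 1) (hκ : 0 < κ) :
    ∃ p : PMF I, ∀ J : I, ∫ x, J.1.indicator (fun x => (τ + ar p x)⁻¹) x ∂π ≤ 1 + κ := by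
  let F : PMF I → ℝ := fun p => ∫ x, -Real.log (τ + ar p x) ∂π
  have mY : ∀ p : PMF I, Measurable (fun x => -Real.log (τ + ar p x)) := fun p =>
    ((ar_meas hI p).const_add τ).log.neg
  have iY : ∀ p : PMF I, Integrable (fun x => -Real.log (τ + ar p x)) π := fun p =>
    bdd_int π (mY p) _ (fun x => logb h0 h1 (ar_bd p x).1 (ar_bd p x).2)
  have hbd : BddBelow (Set.range F) := by
    refine ⟨-(1 + τ⁻¹), ?_⟩
    rintro _ ⟨p, rfl⟩
    have := integral_mono (integrable_const (-(1 + τ⁻¹))) (iY p)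
      (fun x => (abs_le.mp (logb h0 h1 (ar_bd p x).1 (ar_bd p x).2)).1)
    simpa using this
  obtain ⟨θ, θ0, θ1, θ2⟩ : ∃ θ : ℝ, 0 < θ ∧ θ ≤ τ / 2 ∧ θ ≤ κ * τ ^ 2 / 4 :=
    ⟨min (τ / 2) (κ * τ ^ 2 / 4), by positivity, min_le_left _ _, min_le_right _ _⟩
  have : Nonempty (PMF I) := ⟨PMF.pure J0⟩
  obtain ⟨p, hp⟩ := exists_lt_of_ciInf_lt (f := F)
    (lt_add_of_pos_right (iInf F) (show 0 < θ * κ / 2 by positivity))
  refine ⟨p, fun J => ?_⟩
  obtain ⟨p', hp'⟩ := mix p J θ θ0.le (by linarith)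
  have h2 : iInf F ≤ F p' := ciInf_le hbd p'
  have mi : Measurable (fun x => (τ + ar p x)⁻¹) := ((ar_meas hI p).const_add τ).inv
  have iJ : Integrable (J.1.indicator (fun x => (τ + ar p x)⁻¹)) π :=
    (bdd_int π mi _ (fun x => invb h0 (ar_bd p x).1)).indicator (hI _ J.2)
  have pt : ∀ x, -Real.log (τ + ar p' x) ≤ -Real.log (τ + ar p x) -
      θ * J.1.indicator (fun x => (τ + ar p x)⁻¹) x + (θ + θ * κ / 2) := by
    intro x
    obtain ⟨a0, a1⟩ := ar_bd p x
    have hb : 0 < τ + ar p x := by linarith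
    obtain ⟨s, hs, s0, s1⟩ : ∃ s : ℝ, J.1.indicator 1 x = s ∧ 0 ≤ s ∧ s ≤ 1 := by
      by_cases h : x ∈ J.1 <;> simp [Set.indicator, h]
    have hs' : J.1.indicator (fun x => (τ + ar p x)⁻¹) x = s * (τ + ar p x)⁻¹ := by
      rw [← hs]; by_cases h : x ∈ J.1 <;> simp [Set.indicator, h]
    rw [hp', hs, hs']
    generalize ar p x = a at *
    obtain ⟨r, hr⟩ : ∃ r, r = (τ + a)⁻¹ := ⟨_, rfl⟩
    have r0 : 0 < r := hr ▸ inv_pos.mpr hb
    have r1 : r * (τ + a) = 1 := hr ▸ inv_mul_cancel₀ hb.ne'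
    have r2 : r * τ ≤ 1 := by nlinarith
    rw [← hr]
    have e : τ + (a + θ * (s - a)) = (τ + a) * (1 + θ * (s - a) * r) := by
      linear_combination (-(θ * (s - a))) * r1
    have hu : |θ * (s - a) * r| ≤ θ * r := by
      rw [abs_le]; constructor <;> nlinarith [mul_pos θ0 r0]
    have hu2 : θ * r ≤ 1 / 2 := by nlinarith
    have l := log_ineq (hu.trans hu2)
    have hpos : 0 < 1 + θ * (s - a) * r := by linarith [(abs_le.mp (hu.trans hu2)).1]
    rw [e, Real.log_mul hb.ne' hpos.ne']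
    have q1 : (θ * (s - a) * r) ^ 2 ≤ (θ * r) ^ 2 := by
      rw [← sq_abs]; exact pow_le_pow_left₀ (abs_nonneg _) hu 2
    have q2 : θ * r ^ 2 ≤ κ / 4 := by
      have : θ * r ^ 2 ≤ κ * τ ^ 2 / 4 * r ^ 2 := by gcongr
      have h3 : (r * τ) ^ 2 ≤ 1 := by nlinarith [mul_pos r0 h0]
      nlinarith
    have q3 : a * r ≤ 1 := by nlinarith [mul_pos r0 h0]
    nlinarith
  have i1 : Integrable (fun x => -Real.log (τ + ar p x) -
      θ * J.1.indicator (fun x => (τ + ar p x)⁻¹) x) π := (iY p).sub (iJ.const_mul θ)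
  have i2 : Integrable (fun x => -Real.log (τ + ar p x) -
      θ * J.1.indicator (fun x => (τ + ar p x)⁻¹) x + (θ + θ * κ / 2)) π :=
    i1.add (integrable_const _)
  have := integral_mono (iY p') i2 pt
  rw [integral_add i1 (integrable_const _),
    integral_sub (iY p) (iJ.const_mul θ), integral_const_mul] at this
  simp only [integral_const, probReal_univ, smul_eq_mul, one_mul] at this
  change F p' ≤ F p - _ + _ at this
  have h3 : θ * ∫ x, J.1.indicator (fun x => (τ + ar p x)⁻¹) x ∂π ≤ θ * (1 + κ) := by linarith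
  exact le_of_mul_le_mul_left h3 θ0

end Pool.Agent.H16.CovEnt
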