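import Mathlib
import Pool.Agent.H16.CovEnt1

set_option autoImplicit false

namespace Pool.Agent.H16.CovEnt

open MeasureTheory Filter Topology
open scoped ENNReal

variable {Ω : Type} [MeasurableSpace Ω] {I : Set (Set Ω)}

/-- covering inequality -/
lemma cover_ineq (hI : ∀ J ∈ I, MeasurableSet J) (π : Measure Ω) [IsProbabilityMeasure π]
    (Y : Ω → ℝ) (mY : Measurable Y) (M : ℝ) (hM : ∀ x, |Y x| ≤ M) (K : ℝ)
    (hK : ∀ J : I, ∫ x, J.1.indicator (fun x => Real.exp (Y x)) x ∂π ≤ K)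
    (t g : ℝ) (ht : 0 ≤ t) (l n : ℕ) (B : Fin n → Fin l → I) :
    (Measure.pi (fun _ : Fin l => π)).real (⋃ j, Set.pi Set.univ (fun i => (B j i).1)) ≤
      n * (Real.exp (-g) * K) ^ l + (Real.exp (t * g) * ∫ x, Real.exp (-t * Y x) ∂π) ^ l := by
  classical
  set μ := Measure.pi (fun _ : Fin l => π) with hμ
  have mU : MeasurableSet (⋃ j, Set.pi Set.univ (fun i => (B j i).1)) :=
    MeasurableSet.iUnion fun j => MeasurableSet.univ_pi fun i => hI _ (B j i).2
  let f : I → Ω → ℝ := fun J x => Real.exp (-g) * J.1.indicator (fun x => Real.exp (Y x)) x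
  let k : Ω → ℝ := fun x => Real.exp (t * g) * Real.exp (-t * Y x)
  have mf : ∀ J, Measurable (f J) := fun J => (mY.exp.indicator (hI _ J.2)).const_mul _
  have mk : Measurable k := (mY.const_mul _).exp.const_mul _
  have f0 : ∀ J x, 0 ≤ f J x := fun J x =>
    mul_nonneg (Real.exp_pos _).le (Set.indicator_nonneg (fun _ _ => (Real.exp_pos _).le) _)
  have iF : ∀ J, Integrable (f J) π := fun J =>
    ((bdd_int π mY.exp (Real.exp M) (fun x => by
      rw [abs_of_pos (Real.exp_pos _)]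
      exact Real.exp_le_exp.mpr (abs_le.mp (hM x)).2)).indicator (hI _ J.2)).const_mul _
  have iK : Integrable k π :=
    (bdd_int π (mY.const_mul (-t)).exp (Real.exp (t * M)) (fun x => by
      rw [abs_of_pos (Real.exp_pos _)]
      exact Real.exp_le_exp.mpr (by nlinarith [(abs_le.mp (hM x)).1]))).const_mul _
  have i1 : ∀ j, Integrable (fun x : Fin l → Ω => ∏ i, f (B j i) (x i)) μ := fun j =>
    Integrable.fintype_prod (f := fun i => f (B j i)) (fun i => iF _)
  have i2 : Integrable (fun x : Fin l → Ω => ∏ i, k (x i)) μ :=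
    Integrable.fintype_prod (f := fun _ => k) (fun _ => iK)
  have i3 : Integrable (fun x : Fin l → Ω => ∑ j, ∏ i, f (B j i) (x i)) μ :=
    integrable_finset_sum _ (fun j _ => i1 j)
  have i4 : Integrable (fun x : Fin l → Ω => ∑ j, ∏ i, f (B j i) (x i) + ∏ i, k (x i)) μ :=
    i3.add i2
  have pt : ∀ x : Fin l → Ω, (⋃ j, Set.pi Set.univ (fun i => (B j i).1)).indicator
      (fun _ => (1 : ℝ)) x ≤ ∑ j, ∏ i, f (B j i) (x i) + ∏ i, k (x i) := by
    intro x
    have s0 : ∀ j, 0 ≤ ∏ i, f (B j i) (x i) := fun j => Finset.prod_nonneg fun i _ => f0 _ _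
    have k0 : ∏ i, k (x i) = Real.exp (-t * ∑ i, (Y (x i) - g)) := by
      rw [Finset.mul_sum, Real.exp_sum]
      refine Finset.prod_congr rfl fun i _ => ?_
      simp only [k]; rw [← Real.exp_add]; congr 1; ring
    by_cases hx : x ∈ ⋃ j, Set.pi Set.univ (fun i => (B j i).1)
    · rw [Set.indicator_of_mem hx]
      obtain ⟨j, hj⟩ := Set.mem_iUnion.mp hx
      have e : ∏ i, f (B j i) (x i) = Real.exp (∑ i, (Y (x i) - g)) := by
        rw [Real.exp_sum]
        refine Finset.prod_congr rfl fun i _ => ?_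
        simp only [f]
        rw [Set.indicator_of_mem (hj i trivial), ← Real.exp_add]; congr 1; ring
      have h1 := Finset.single_le_sum (f := fun j => ∏ i, f (B j i) (x i)) (fun j _ => s0 j)
        (Finset.mem_univ j)
      rw [k0]
      simp only [e] at h1
      generalize ∑ i, (Y (x i) - g) = S at *
      rcases le_total 0 S with h | h
      · have := Real.one_le_exp h
        have := Real.exp_pos (-t * S)
        linarith
      · have := Real.one_le_exp (show 0 ≤ -t * S by nlinarith)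
        have := Real.exp_pos S
        linarith
    · rw [Set.indicator_of_notMem hx, k0]
      exact add_nonneg (Finset.sum_nonneg fun j _ => s0 j) (Real.exp_pos _).le
  have := integral_mono ((integrable_const (1 : ℝ)).indicator mU) i4 pt
  rw [integral_indicator_const _ mU, integral_add i3 i2, integral_finset_sum _ (fun j _ => i1 j),
    smul_eq_mul, mul_one, hμ, integral_fintype_prod_eq_pow, Fintype.card_fin] at this
  refine this.trans (add_le_add ?_ ?_)
  · have : ∀ j, ∫ x : Fin l → Ω, ∏ i, f (B j i) (x i) ∂(Measure.pi (fun _ : Fin l => π)) ≤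
        (Real.exp (-g) * K) ^ l := by
      intro j
      rw [integral_fintype_prod_eq_prod (fun i => f (B j i))]
      refine (Finset.prod_le_prod (fun i _ => integral_nonneg (f0 _))
        (g := fun _ => Real.exp (-g) * K) fun i _ => ?_).trans (by simp)
      simp only [f]
      rw [integral_const_mul]
      exact mul_le_mul_of_nonneg_left (hK _) (Real.exp_pos _).le
    refine (Finset.sum_le_sum fun j _ => this j).trans (by simp)
  · simp only [k]; rw [integral_const_mul]

theorem conv (hI : ∀ J ∈ I, MeasurableSet J) (π : Measure Ω) [IsProbabilityMeasure π]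
    (Y : Ω → ℝ) (mY : Measurable Y) (M : ℝ) (hM : ∀ x, |Y x| ≤ M) (M0 : 0 < M) (κ : ℝ) (hκ : 0 < κ)
    (hK : ∀ J : I, ∫ x, J.1.indicator (fun x => Real.exp (Y x)) x ∂π ≤ 1 + κ)
    (lam h : ℝ) (hl : lam < 1)
    (hN : ∃ᶠ l : ℕ in atTop, ∃ (n : ℕ) (B : Fin n → Fin l → I), (n : ℝ) ≤ Real.exp (h * l) ∧
      1 - lam ≤ (Measure.pi (fun _ : Fin l => π)).real (⋃ j, Set.pi Set.univ (fun i => (B j i).1))) :
    ∫ x, Y x ∂π ≤ h + 3 * κ := by
  by_contra hc
  push Not at hc
  obtain ⟨t, t0, t1, t2⟩ : ∃ t : ℝ, 0 < t ∧ t ≤ M⁻¹ ∧ t ≤ κ / (2 * M ^ 2) :=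
    ⟨min M⁻¹ (κ / (2 * M ^ 2)), by positivity, min_le_left _ _, min_le_right _ _⟩
  have t1' : t * M ≤ 1 := by rwa [← le_div_iff₀ M0, one_div]
  have t2' : t * (2 * M ^ 2) ≤ κ := by rwa [← le_div_iff₀ (by positivity)]
  have iY : Integrable Y π := bdd_int π mY M hM
  set φ := ∫ x, Y x ∂π with hφ
  have hexp : ∫ x, Real.exp (-t * Y x) ∂π ≤ 1 - t * φ + t ^ 2 * M ^ 2 := by
    have i1 : Integrable (fun x => Real.exp (-t * Y x)) π :=
      bdd_int π (mY.const_mul (-t)).exp (Real.exp (t * M)) (fun x => by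
        rw [abs_of_pos (Real.exp_pos _)]
        exact Real.exp_le_exp.mpr (by nlinarith [(abs_le.mp (hM x)).1]))
    have i2 : Integrable (fun x => (1 + t ^ 2 * M ^ 2) - t * Y x) π :=
      (integrable_const _).sub (iY.const_mul t)
    have := integral_mono i1 i2 (fun x => by
      have a : |-t * Y x| ≤ t * M := by
        rw [abs_mul, abs_neg, abs_of_pos t0]; exact mul_le_mul_of_nonneg_left (hM x) t0.le
      have b := (abs_le.mp (Real.abs_exp_sub_one_sub_id_le (a.trans t1'))).2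
      have c : (-t * Y x) ^ 2 ≤ (t * M) ^ 2 := by
        rw [← sq_abs]; exact pow_le_pow_left₀ (abs_nonneg _) a 2
      change Real.exp (-t * Y x) ≤ _
      nlinarith)
    rw [integral_sub (integrable_const _) (iY.const_mul t), integral_const_mul] at this
    simp only [integral_const, probReal_univ, smul_eq_mul, one_mul] at this
    linarith
  have r2 : Real.exp (t * (φ - κ)) * ∫ x, Real.exp (-t * Y x) ∂π ≤ Real.exp (-(t * κ / 2)) := by
    have a : 1 - t * φ + t ^ 2 * M ^ 2 ≤ Real.exp (-t * φ + t ^ 2 * M ^ 2) := by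
      have := Real.add_one_le_exp (-t * φ + t ^ 2 * M ^ 2); linarith
    refine (mul_le_mul_of_nonneg_left (hexp.trans a) (Real.exp_pos _).le).trans ?_
    rw [← Real.exp_add]; apply Real.exp_le_exp.mpr; nlinarith
  have r1 : Real.exp h * (Real.exp (-(φ - κ)) * (1 + κ)) ≤ Real.exp (-κ) := by
    have a : 1 + κ ≤ Real.exp κ := by have := Real.add_one_le_exp κ; linarith
    calc _ ≤ Real.exp h * (Real.exp (-(φ - κ)) * Real.exp κ) := by gcongr
      _ ≤ _ := by rw [← Real.exp_add, ← Real.exp_add]; apply Real.exp_le_exp.mpr; linarith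
  have lim : Tendsto (fun l : ℕ => Real.exp (-κ) ^ l + Real.exp (-(t * κ / 2)) ^ l) atTop (𝓝 (0 + 0)) :=
    (tendsto_pow_atTop_nhds_zero_of_lt_one (Real.exp_pos _).le
      (Real.exp_lt_one_iff.mpr (by linarith))).add
    (tendsto_pow_atTop_nhds_zero_of_lt_one (Real.exp_pos _).le
      (Real.exp_lt_one_iff.mpr (by nlinarith [mul_pos t0 hκ])))
  obtain ⟨l, ⟨n, B, hn, hB⟩, hl2⟩ :=
    (hN.and_eventually (lim.eventually (gt_mem_nhds (show 0 + 0 < 1 - lam by linarith)))).exists
  have c := cover_ineq hI π Y mY M hM (1 + κ) hK t (φ - κ) t0.le l n B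
  have a1 : (n : ℝ) * (Real.exp (-(φ - κ)) * (1 + κ)) ^ l ≤ Real.exp (-κ) ^ l := by
    calc _ ≤ Real.exp h ^ l * (Real.exp (-(φ - κ)) * (1 + κ)) ^ l := by
          gcongr; rw [← Real.exp_nat_mul, mul_comm]; exact hn
      _ ≤ _ := by rw [← mul_pow]; gcongr
  have a2 : (Real.exp (t * (φ - κ)) * ∫ x, Real.exp (-t * Y x) ∂π) ^ l ≤
      Real.exp (-(t * κ / 2)) ^ l :=
    pow_le_pow_left₀ (mul_nonneg (Real.exp_pos _).le
      (integral_nonneg fun _ => (Real.exp_pos _).le)) r2 l
  linarith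

/-- good mixtures off small sets -/
theorem good (hI : ∀ J ∈ I, MeasurableSet J) (π : Measure Ω) [IsProbabilityMeasure π] (J0 : I)
    (lam h : ℝ) (hl : lam < 1) (h0 : 0 ≤ h)
    (hN : ∃ᶠ l : ℕ in atTop, ∃ (n : ℕ) (B : Fin n → Fin l → I), (n : ℝ) ≤ Real.exp (h * l) ∧
      1 - lam ≤ (Measure.pi (fun _ : Fin l => π)).real (⋃ j, Set.pi Set.univ (fun i => (B j i).1)))
    (ε e : ℝ) (hε : 0 < ε) (he : 0 < e) :
    ∃ (p : PMF I) (G : Set Ω), MeasurableSet G ∧ π Gᶜ ≤ ENNReal.ofReal e ∧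
      ∫⁻ x in G, nlog (av p x) ∂π ≤ ENNReal.ofReal (h + ε) := by
  obtain ⟨σ, s0, s1, s2, s3⟩ : ∃ σ : ℝ, 0 < σ ∧ σ ≤ 1 ∧ σ ≤ ε / 5 ∧
      σ ≤ Real.exp (-((h + 5) / e)) / 2 :=
    ⟨min 1 (min (ε / 5) (Real.exp (-((h + 5) / e)) / 2)), by positivity, min_le_left _ _,
      (min_le_right _ _).trans (min_le_left _ _), (min_le_right _ _).trans (min_le_right _ _)⟩
  have τ0 : 0 < σ ^ 2 := by positivity
  have τ1 : σ ^ 2 ≤ σ := by nlinarith
  obtain ⟨p, hp⟩ := kkt hI π J0 (σ ^ 2) σ τ0 (by linarith) s0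
  let Y : Ω → ℝ := fun x => -Real.log (σ ^ 2 + ar p x)
  have mY : Measurable Y := ((ar_meas hI p).const_add _).log.neg
  have bY : ∀ x, |Y x| ≤ 1 + (σ ^ 2)⁻¹ := fun x => logb τ0 (by linarith) (ar_bd p x).1 (ar_bd p x).2
  have iY : Integrable Y π := bdd_int π mY _ bY
  have hY := conv hI π Y mY _ bY (by positivity) σ s0 (fun J => by
    refine le_of_eq_of_le ?_ (hp J)
    have : (fun x => Real.exp (Y x)) = fun x => (σ ^ 2 + ar p x)⁻¹ := by
      funext x
      simp only [Y]
      rw [Real.exp_neg, Real.exp_log (by linarith [(ar_bd p x).1])]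
    rw [this]) lam h hl hN
  have Yl : ∀ x, 0 ≤ Y x + σ := by
    intro x
    have := Real.log_le_sub_one_of_pos (show 0 < σ ^ 2 + ar p x by linarith [(ar_bd p x).1])
    simp only [Y]; linarith [(ar_bd p x).2]
  have mG : MeasurableSet {x | σ ≤ ar p x} := measurableSet_le measurable_const (ar_meas hI p)
  have iZ : ∀ c : ℝ, Integrable (fun x => Y x + c) π := fun c => iY.add (integrable_const _)
  have eZ : ∀ c : ℝ, ∫ x, (Y x + c) ∂π = ∫ x, Y x ∂π + c := fun c => by
    rw [integral_add iY (integrable_const _)]; simp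
  refine ⟨p, {x | σ ≤ ar p x}, mG, ?_, ?_⟩
  · have mk := mul_meas_ge_le_integral_of_nonneg (μ := π) (f := fun x => Y x + σ)
      (Eventually.of_forall Yl) (iZ σ) ((h + 5) / e)
    rw [eZ] at mk
    have sub : {x | σ ≤ ar p x}ᶜ ⊆ {x | (h + 5) / e ≤ Y x + σ} := by
      intro x hx
      simp only [Set.mem_compl_iff, Set.mem_ofPred_eq, not_le] at hx
      have a : σ ^ 2 + ar p x ≤ Real.exp (-((h + 5) / e)) := by linarith
      have b := Real.log_le_log (by linarith [(ar_bd p x).1]) a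
      rw [Real.log_exp] at b
      change _ ≤ -Real.log (σ ^ 2 + ar p x) + σ
      linarith
    refine (measure_mono sub).trans ?_
    rw [← ofReal_measureReal]
    apply ENNReal.ofReal_le_ofReal
    have p5 : 0 < (h + 5) / e := by positivity
    have : (h + 5) / e * π.real {x | (h + 5) / e ≤ Y x + σ} ≤ (h + 5) / e * e := by
      rw [div_mul_cancel₀ _ he.ne']; linarith
    exact le_of_mul_le_mul_left this p5
  · calc ∫⁻ x in {x | σ ≤ ar p x}, nlog (av p x) ∂π
        ≤ ∫⁻ x in {x | σ ≤ ar p x}, ENNReal.ofReal (Y x + σ) ∂π := by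
          refine setLIntegral_mono' mG fun x hx => ?_
          have hx' : σ ≤ ar p x := hx
          have a0 : av p x ≠ 0 := fun e0 => by simp [ar, e0] at hx'; linarith
          rw [nlog, if_neg a0]
          apply ENNReal.ofReal_le_ofReal
          change -Real.log (ar p x) ≤ -Real.log (σ ^ 2 + ar p x) + σ
          have b : σ ^ 2 + ar p x ≤ ar p x * (1 + σ) := by nlinarith
          have c := Real.log_le_log (by linarith) b
          rw [Real.log_mul (by linarith) (by linarith)] at c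
          have d := Real.log_le_sub_one_of_pos (show 0 < 1 + σ by linarith)
          linarith
      _ ≤ ∫⁻ x, ENNReal.ofReal (Y x + σ) ∂π := setLIntegral_le_lintegral _ _
      _ = ENNReal.ofReal (∫ x, (Y x + σ) ∂π) :=
          (ofReal_integral_eq_lintegral_ofReal (iZ σ) (Eventually.of_forall Yl)).symm
      _ ≤ _ := by rw [eZ]; apply ENNReal.ofReal_le_ofReal; linarith

end Pool.Agent.H16.CovEnt
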