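import Mathlib
import Pool.Agent.H16.CovEnt2

set_option autoImplicit false

namespace Pool.Agent.H16.CovEnt

open MeasureTheory Filter Topology
open scoped ENNReal NNReal

variable {Ω : Type} [MeasurableSpace Ω] {I : Set (Set Ω)}

lemma nlog_le {w a b : ℝ≥0∞} (w1 : w ≤ 1) (a1 : a ≤ 1) (b1 : b ≤ 1) (h : w * a ≤ b) :
    nlog b ≤ nlog w + nlog a := by
  by_cases w0 : w = 0
  · simp [nlog, w0]
  by_cases a0 : a = 0
  · simp [nlog, a0]
  have b0 : b ≠ 0 := fun e => by
    rw [e, nonpos_iff_eq_zero, mul_eq_zero] at h; tauto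
  have wt := (w1.trans_lt ENNReal.one_lt_top).ne
  have at' := (a1.trans_lt ENNReal.one_lt_top).ne
  have bt := (b1.trans_lt ENNReal.one_lt_top).ne
  rw [nlog, nlog, nlog, if_neg w0, if_neg a0, if_neg b0]
  refine le_trans (ENNReal.ofReal_le_ofReal ?_) ENNReal.ofReal_add_le
  have h1 := ENNReal.toReal_mono bt h
  rw [ENNReal.toReal_mul] at h1
  have pw := ENNReal.toReal_pos w0 wt
  have pa := ENNReal.toReal_pos a0 at'
  have := Real.log_le_log (mul_pos pw pa) h1
  rw [Real.log_mul pw.ne' pa.ne'] at this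
  linarith

lemma nlog_ne_top {w : ℝ≥0∞} (h : w ≠ 0) : nlog w ≠ ∞ := by simp [nlog, h]

theorem layer (π : Measure Ω) [IsProbabilityMeasure π] (H : ℝ≥0∞) (hH : H ≠ ∞)
    (hg : ∀ e : ℝ, 0 < e → ∃ (p : PMF I) (G : Set Ω), MeasurableSet G ∧ π Gᶜ ≤ ENNReal.ofReal e ∧
      ∫⁻ x in G, nlog (av p x) ∂π ≤ H) (ε : ℝ) (hε : 0 < ε) :
    ∃ p : PMF I, ∫⁻ x, nlog (av p x) ∂π ≤ H + 3 * ENNReal.ofReal ε := by
  classical
  let r : ℝ≥0∞ := ENNReal.ofReal (Real.exp (-ε))
  have r0 : r ≠ 0 := by simp [r, Real.exp_pos]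
  have r1 : r < 1 := ENNReal.ofReal_lt_one.mpr (Real.exp_lt_one_iff.mpr (by linarith))
  have rt : r ≠ ∞ := ENNReal.ofReal_ne_top
  let w : ℕ → ℝ≥0∞ := fun j => r * (1 - r) ^ j
  have ws : ∑' j, w j = 1 := by
    simp only [w]
    rw [ENNReal.tsum_mul_left, ENNReal.tsum_geometric, ENNReal.sub_sub_cancel ENNReal.one_ne_top r1.le,
      ENNReal.mul_inv_cancel r0 rt]
  let q : PMF ℕ := ⟨w, ws ▸ ENNReal.summable.hasSum⟩
  have w0 : ∀ j, w j ≠ 0 := fun j => mul_ne_zero r0 (pow_ne_zero _ (tsub_pos_of_lt r1).ne')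
  have w1 : ∀ j, w j ≤ 1 := fun j => ws ▸ ENNReal.le_tsum j
  have c0 : nlog (w 0) = ENNReal.ofReal ε := by
    simp [w, nlog, r0, r, ENNReal.toReal_ofReal (Real.exp_pos _).le]
  obtain ⟨d, d0, ds⟩ := ENNReal.exists_pos_sum_of_countable
    (ε := ENNReal.ofReal ε) (by simpa using hε) ℕ
  have hch : ∀ j, ∃ (p : PMF I) (G : Set Ω), MeasurableSet G ∧
      (nlog (w (j + 1)) + 1) * π Gᶜ ≤ d j ∧ ∫⁻ x in G, nlog (av p x) ∂π ≤ H := by
    intro j
    have hc : nlog (w (j + 1)) + 1 ≠ ∞ := ENNReal.add_ne_top.mpr ⟨nlog_ne_top (w0 _), ENNReal.one_ne_top⟩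
    have hc0 : nlog (w (j + 1)) + 1 ≠ 0 := by simp
    obtain ⟨p, G, h1, h2, h3⟩ := hg ((d j : ℝ≥0∞) / (nlog (w (j + 1)) + 1)).toReal
      (ENNReal.toReal_pos (ENNReal.div_ne_zero.mpr ⟨by simpa using (d0 j).ne', hc⟩)
        (ENNReal.div_ne_top ENNReal.coe_ne_top hc0))
    refine ⟨p, G, h1, ?_, h3⟩
    rw [ENNReal.ofReal_toReal (ENNReal.div_ne_top ENNReal.coe_ne_top hc0)] at h2
    calc _ ≤ (nlog (w (j + 1)) + 1) * ((d j : ℝ≥0∞) / (nlog (w (j + 1)) + 1)) := by gcongr
      _ = _ := ENNReal.mul_div_cancel hc0 hc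
  choose p G mG hG1 hG2 using hch
  let F : ℕ → Set Ω := fun k => ⋂ m, ⋂ (_ : k ≤ m), G m
  have mF : ∀ k, MeasurableSet (F k) := fun k =>
    MeasurableSet.iInter fun m => MeasurableSet.iInter fun _ => mG m
  have memF : ∀ k x, x ∈ F k ↔ ∀ m, k ≤ m → x ∈ G m := fun k x => by simp [F]
  let L := disjointed F
  have mL : ∀ j, MeasurableSet (L j) := MeasurableSet.disjointed mF
  have dL : Pairwise (Function.onFun Disjoint L) := disjoint_disjointed F
  have LG : ∀ j k, j ≤ k → L j ⊆ G k := fun j k h x hx =>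
    (memF j x).mp (disjointed_subset F j hx) k h
  have LG' : ∀ j, L (j + 1) ⊆ (G j)ᶜ := by
    intro j x hx hxG
    have h1 : x ∈ F (j + 1) := disjointed_subset F _ hx
    have h2 : x ∈ F j := (memF j x).mpr fun m hm => by
      rcases hm.eq_or_lt with e | e
      · exact e ▸ hxG
      · exact (memF _ x).mp h1 m e
    have h3 : x ∈ ⋃ i, ⋃ (_ : i ≤ j), L i := by
      have : x ∈ partialSups F j := le_partialSups F j h2
      rw [← partialSups_disjointed, partialSups_eq_biSup] at this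
      simpa using this
    simp only [Set.mem_iUnion] at h3
    obtain ⟨i, hi, hxi⟩ := h3
    exact Set.disjoint_left.mp (dL (show i ≠ j + 1 by omega)) hxi hx
  have hae : ∀ᵐ x ∂π, x ∈ ⋃ j, L j := by
    have : ∑' i, π (G i)ᶜ ≠ ∞ := by
      refine ne_top_of_le_ne_top ds.ne_top (ENNReal.tsum_le_tsum fun i => le_trans ?_ (hG1 i))
      exact le_mul_of_one_le_left' le_add_self
    filter_upwards [ae_eventually_notMem this] with x hx
    rw [iUnion_disjointed]
    obtain ⟨k, hk⟩ := eventually_atTop.mp hx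
    exact Set.mem_iUnion.mpr ⟨k, (memF k x).mpr fun m hm => not_not.mp (hk m hm)⟩
  let cost : ℕ → ℕ → ℝ≥0∞ := fun j k => ∫⁻ x in L j, nlog (av (p k) x) ∂π
  have costH : ∀ j k, j ≤ k → cost j k ≤ H := fun j k h =>
    (lintegral_mono_set (LG j k h)).trans (hG2 k)
  let c : ℕ → ℝ≥0∞ := fun j => ⨅ k : ℕ, cost j (j + k)
  have hk : ∀ j, ∃ k, cost j (j + k) ≤ c j + d j := by
    intro j
    have ct : c j ≠ ∞ := ne_top_of_le_ne_top hH ((iInf_le _ 0).trans (costH _ _ (by omega)))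
    obtain ⟨k, hk⟩ := iInf_lt_iff.mp (ENNReal.lt_add_right ct (show (d j : ℝ≥0∞) ≠ 0 by simpa using (d0 j).ne'))
    exact ⟨k, hk.le⟩
  choose k hk using hk
  have cs : ∑' j, c j ≤ H := by
    refine ENNReal.tsum_le_of_sum_range_le fun n => ?_
    calc ∑ j ∈ Finset.range n, c j ≤ ∑ j ∈ Finset.range n, cost j n := by
          refine Finset.sum_le_sum fun j hj => (iInf_le _ (n - j)).trans (le_of_eq ?_)
          rw [show j + (n - j) = n by have := Finset.mem_range.mp hj; omega]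
      _ = ∫⁻ x in ⋃ j ∈ Finset.range n, L j, nlog (av (p n) x) ∂π :=
          (lintegral_biUnion_finset (fun i _ j _ h => dL h) (fun j _ => mL j) _).symm
      _ ≤ ∫⁻ x in G n, nlog (av (p n) x) ∂π := by
          refine lintegral_mono_set (Set.iUnion₂_subset fun j hj => LG j n ?_)
          have := Finset.mem_range.mp hj; omega
      _ ≤ H := hG2 n
  refine ⟨q.bind (fun j => p (j + k j)), ?_⟩
  have low : ∀ j x, w j * av (p (j + k j)) x ≤ av (q.bind (fun j => p (j + k j))) x := by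
    intro j x
    rw [av, av, PMF.toOuterMeasure_bind_apply]
    exact ENNReal.le_tsum (f := fun a => q a * (p (a + k a)).toOuterMeasure {J | x ∈ J.1}) j
  have each : ∀ j, ∫⁻ x in L j, nlog (av (q.bind (fun j => p (j + k j))) x) ∂π ≤
      nlog (w j) * π (L j) + (c j + d j) := by
    intro j
    calc _ ≤ ∫⁻ x in L j, (nlog (w j) + nlog (av (p (j + k j)) x)) ∂π :=
          lintegral_mono fun x => nlog_le (w1 j) (av_le _ _) (av_le _ _) (low j x)
      _ = nlog (w j) * π (L j) + cost j (j + k j) := by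
          rw [lintegral_add_left measurable_const, lintegral_const, Measure.restrict_apply_univ]
      _ ≤ _ := by gcongr; exact hk j
  have s1 : ∑' j, nlog (w j) * π (L j) ≤ ENNReal.ofReal ε + ENNReal.ofReal ε := by
    rw [tsum_eq_zero_add' ENNReal.summable]
    refine add_le_add ?_ (le_trans (ENNReal.tsum_le_tsum fun j => le_trans ?_ (hG1 j)) ds.le)
    · rw [c0]; exact mul_le_of_le_one_right' prob_le_one
    · exact mul_le_mul' le_self_add (measure_mono (LG' j))
  rw [← Measure.restrict_eq_self_of_ae_mem hae, lintegral_iUnion mL dL]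
  refine (ENNReal.tsum_le_tsum each).trans ?_
  rw [ENNReal.tsum_add, ENNReal.tsum_add]
  calc _ ≤ (ENNReal.ofReal ε + ENNReal.ofReal ε) + (H + ENNReal.ofReal ε) := by
        gcongr
    _ = _ := by ring

theorem cnt_le_lower (hI : ∀ J ∈ I, MeasurableSet J) (π : Measure Ω) [IsProbabilityMeasure π]
    (lam : ℝ) (hl : lam < 1) : cntH I π ≤ lowerH I π lam := by
  refine le_of_forall_gt_imp_ge_of_dense fun a ha => ?_
  by_cases at' : a = ∞
  · rw [at']; exact le_top
  have fr : ∃ᶠ l : ℕ in atTop, plog (nbox I π lam l) / l < a := frequently_lt_of_liminf_lt (h := ha)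
  have hN : ∃ᶠ l : ℕ in atTop, 1 ≤ l ∧ ∃ (n : ℕ) (B : Fin n → Fin l → I),
      (n : ℝ) ≤ Real.exp (a.toReal * l) ∧
      1 - lam ≤ (Measure.pi (fun _ : Fin l => π)).real
        (⋃ j, Set.pi Set.univ (fun i => (B j i).1)) := by
    refine (fr.and_eventually (eventually_ge_atTop 1)).mono fun l ⟨h1, h2⟩ => ⟨h2, ?_⟩
    have l0 : (l : ℝ≥0∞) ≠ 0 := by simp; omega
    rw [ENNReal.div_lt_iff (Or.inl l0) (Or.inl (by simp))] at h1
    have nt : nbox I π lam l ≠ ∞ := fun e => by simp [plog, e] at h1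
    rw [plog, if_neg nt] at h1
    have h3 : nbox I π lam l < ENNReal.ofReal (Real.exp (a.toReal * l)) := by
      rw [ENNReal.lt_ofReal_iff_toReal_lt nt]
      have h4 : a * l = ENNReal.ofReal (a.toReal * l) := by
        rw [ENNReal.ofReal_mul ENNReal.toReal_nonneg, ENNReal.ofReal_toReal at', ENNReal.ofReal_natCast]
      rw [h4, ENNReal.ofReal_lt_ofReal_iff'] at h1
      rcases (ENNReal.toReal_nonneg (a := nbox I π lam l)).eq_or_lt with e | e
      · rw [← e]; exact Real.exp_pos _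
      · exact (Real.log_lt_iff_lt_exp e).mp h1.1
    simp only [nbox, iInf_lt_iff] at h3
    obtain ⟨n, B, hB, hn⟩ := h3
    refine ⟨n, B, ?_, ?_⟩
    · rw [← ENNReal.ofReal_natCast, ENNReal.ofReal_lt_ofReal_iff'] at hn
      exact hn.1.le
    · exact (ENNReal.ofReal_le_iff_le_toReal (measure_ne_top _ _)).mp hB
  obtain ⟨l, l1, n, B, _, hB⟩ := hN.exists
  have J0 : Nonempty I := by
    cases n with
    | zero => simp at hB; linarith
    | succ n => exact ⟨B 0 ⟨0, l1⟩⟩
  obtain ⟨J0⟩ := J0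
  refine ENNReal.le_of_forall_pos_le_add fun ε hε _ => ?_
  have e4 : 0 < (ε : ℝ) / 4 := by positivity
  obtain ⟨p, hp⟩ := layer (I := I) π (ENNReal.ofReal (a.toReal + ε / 4)) ENNReal.ofReal_ne_top
    (fun e he => good hI π J0 lam a.toReal hl ENNReal.toReal_nonneg (hN.mono fun _ h => h.2)
      (ε / 4) e e4 he) (ε / 4) e4
  refine (iInf_le _ p).trans ?_
  simp only [phi, ← av_eq]
  refine hp.trans (le_of_eq ?_)
  rw [ENNReal.ofReal_add ENNReal.toReal_nonneg e4.le, ENNReal.ofReal_toReal at', add_assoc,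
    ← ENNReal.ofReal_ofNat 3, ← ENNReal.ofReal_mul (by norm_num),
    ← ENNReal.ofReal_add e4.le (by positivity)]
  congr 1
  rw [← ENNReal.ofReal_coe_nnreal]; congr 1; ring

theorem full_le_cnt (hI : ∀ J ∈ I, MeasurableSet J) (π : Measure Ω) [IsProbabilityMeasure π] :
    fullH I π ≤ cntH I π := by
  refine le_iInf fun p => ?_
  letI m : MeasurableSpace I := ⊤
  have hn : NullMeasurableSet {z : I × Ω | z.2 ∈ z.1.1} (p.toMeasure.prod π) := by
    have := p.support_countable.to_subtype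
    have m1 : MeasurableSet (⋃ J : p.support, ({J.1} : Set I) ×ˢ J.1.1) :=
      MeasurableSet.iUnion fun J => MeasurableSet.prod trivial (hI _ J.1.2)
    refine m1.nullMeasurableSet.congr ?_
    have z : (p.toMeasure.prod π) ((p.support)ᶜ ×ˢ Set.univ) = 0 := by
      rw [Measure.prod_prod, (p.toMeasure_apply_eq_zero_iff trivial).mpr disjoint_compl_right,
        zero_mul]
    have z' : ∀ᵐ y ∂(p.toMeasure.prod π), y ∉ (p.support)ᶜ ×ˢ (Set.univ : Set Ω) :=
      measure_eq_zero_iff_ae_notMem.mp z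
    filter_upwards [z'] with y hy
    have hy' : y.1 ∈ p.support := by simpa using hy
    apply propext
    constructor
    · intro h
      obtain ⟨J, h1, h2⟩ := Set.mem_iUnion.mp h
      have : y.1 = J.1 := h1
      change y.2 ∈ y.1.1
      rw [this]; exact h2
    · intro h
      exact Set.mem_iUnion.mpr ⟨⟨y.1, hy'⟩, rfl, h⟩
  refine (iInf_le_of_le m (iInf_le_of_le p.toMeasure (iInf_le_of_le
    (PMF.toMeasure.isProbabilityMeasure p)
    (iInf_le _ hn)))).trans (le_of_eq ?_)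
  congr 1
  funext x
  rw [← av_eq, av, p.toMeasure_apply_eq_toOuterMeasure_apply trivial]

end Pool.Agent.H16.CovEnt
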