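import Mathlib

set_option autoImplicit false

namespace Pool.Agent.H16.CubicFQ
open MvPolynomial

noncomputable def g (p q r s : ℝ) : MvPolynomial (Fin 2) ℝ :=
  C p * X 0 ^ 3 + C q * (X 0 ^ 2 * X 1) + C r * (X 0 * X 1 ^ 2) + C s * X 1 ^ 3

theorem g_hom (p q r s : ℝ) : (g p q r s).IsHomogeneous 3 := by
  have h0 := isHomogeneous_X ℝ (0 : Fin 2)
  have h1 := isHomogeneous_X ℝ (1 : Fin 2)
  exact ((((h0.pow 3).C_mul p).add (((h0.pow 2).mul h1).C_mul q)).add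
    ((h0.mul (h1.pow 2)).C_mul r)).add ((h1.pow 3).C_mul s)

theorem g_ne (p q r s p' q' r' s' c : ℝ) (h : p * s' ≠ s * p') : g p q r s ≠ c • g p' q' r' s' := by
  intro h0
  have h1 := congrArg (eval ![1, 0]) h0
  have h2 := congrArg (eval ![0, 1]) h0
  simp [g] at h1 h2
  apply h
  rw [h1, h2]; ring

theorem g_ne0 (p q r s : ℝ) (h : p ≠ 0) : g p q r s ≠ 0 := by
  have := g_ne p q r s 0 0 0 1 0 (by simpa using h)
  simpa using this

theorem ident (u : ℝ) (hu : u ^ 2 = 2) :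
    g u 1 (2 * u) (-1) ^ 4 + g (-1) (2 * u) 1 u ^ 4 = g u (-1) (2 * u) 1 ^ 4 + g 1 (2 * u) (-1) u ^ 4 := by
  have h : (C u : MvPolynomial (Fin 2) ℝ) ^ 2 = 2 := by
    rw [← map_pow, hu]; rfl
  have h2 : (C (2 : ℝ) : MvPolynomial (Fin 2) ℝ) = 2 := rfl
  simp only [g, map_mul, map_neg, map_one, h2]
  generalize (C u : MvPolynomial (Fin 2) ℝ) = k at *
  generalize (X 0 : MvPolynomial (Fin 2) ℝ) = s
  generalize (X 1 : MvPolynomial (Fin 2) ℝ) = t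
  linear_combination 8 * k * s * t * (s ^ 2 - t ^ 2) *
    (s ^ 2 * (s ^ 2 + 2 * t ^ 2) ^ 3 - t ^ 2 * (2 * s ^ 2 + t ^ 2) ^ 3) * h

end Pool.Agent.H16.CubicFQ
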