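import Pool.Agent.H16.DicXorDefs

set_option autoImplicit false

namespace Pool.Agent.H16.DicXor
open Finset

theorem sun {α β : Type} [DecidableEq α] [DecidableEq β] (K : ℕ) (N : β → Finset α) (r : ℕ) :
    ∀ (C : Finset α) (J : Finset β), (K + 2) ^ (r + 1) ≤ #J →
      (∀ j ∈ J, C ⊆ N j ∧ #(N j) ≤ #C + r) →
      ∃ D, C ⊆ D ∧ ∀ S : Finset α, #S ≤ K → ∀ i, ∃ j ≠ i, ∀ a ∈ S, a ∈ N j ↔ a ∈ D := by
  induction r with
  | zero =>
    intro C J h1 h2
    refine ⟨C, Subset.rfl, fun S _ i => ?_⟩
    obtain ⟨j, hj, e⟩ := exists_mem_ne (s := J) (by simp at h1; omega) i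
    exact ⟨j, e, fun a _ => by rw [eq_of_subset_of_card_le (h2 j hj).1 (h2 j hj).2]⟩
  | succ r ih =>
    intro C J h1 h2
    by_cases h : ∃ a ∉ C, (K + 2) ^ (r + 1) ≤ #{j ∈ J | a ∈ N j}
    · obtain ⟨a, ha, h⟩ := h
      obtain ⟨D, d1, d2⟩ := ih (insert a C) _ h fun j hj => by
        obtain ⟨b1, b2⟩ := mem_filter.1 hj
        exact ⟨insert_subset b2 (h2 j b1).1, by
          rw [card_insert_of_notMem ha]; have := (h2 j b1).2; omega⟩
      exact ⟨D, (subset_insert _ _).trans d1, d2⟩
    · push Not at h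
      refine ⟨C, Subset.rfl, fun S hS i => ?_⟩
      have c : #(insert i ((S \ C).biUnion fun a => {j ∈ J | a ∈ N j})) < #J := by
        have c1 := card_biUnion_le_card_mul (S \ C) (fun a => {j ∈ J | a ∈ N j}) _
          fun a ha => (h a (mem_sdiff.1 ha).2).le
        have c2 := Nat.mul_le_mul_right ((K + 2) ^ (r + 1)) ((card_le_card (sdiff_subset (t := C))).trans hS)
        have c3 : 0 < (K + 2) ^ (r + 1) := by positivity
        refine lt_of_le_of_lt (card_insert_le _ _) ?_
        rw [pow_succ _ (r + 1)] at h1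
        nlinarith
      obtain ⟨j, j1, j2⟩ := exists_mem_notMem_of_card_lt_card c
      simp only [mem_insert, mem_biUnion, mem_sdiff, mem_filter, not_or, not_exists, not_and] at j2
      exact ⟨j, j2.1, fun a ha => ⟨fun b => by_contra fun e => j2.2 a ⟨ha, e⟩ j1 b,
        fun b => (h2 j j1).1 b⟩⟩

theorem main (K L n : ℕ) (hn : (K + 2) ^ (L + 1) ≤ n + 1)
    (φ : (Fin (n + 1) → ZMod 2) ≃ (Fin (n + 1) → ZMod 2)) (h1 : ∀ x, par (φ x) = dic x)
    (h2 : Local K φ) (h3 : Lip L φ.symm) : False := by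
  let z := fun j => φ.symm (φ 0 + Pi.single j 1)
  let N := fun j => ({a | z j a ≠ 0} : Finset _)
  obtain ⟨D, d1, d2⟩ := sun K N L {0} univ (by simpa using hn) fun j _ => by
    constructor
    · have := h1 (z j)
      have h0 := h1 0
      simp only [z, par, dic, Equiv.apply_symm_apply, Pi.add_apply, sum_add_distrib, Pi.zero_apply] at this h0
      simp [N, z, ← this, h0]
    · have := h3 (φ 0 + Pi.single j 1) (φ 0)
      have e : hammingDist (φ 0 + Pi.single j 1) (φ 0) ≤ 1 := card_le_one.2 fun a ha b hb => by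
        simp [Pi.single_apply] at ha hb
        rw [ha, hb]
      have : (#(N j) : ℝ) ≤ L := by
        refine le_trans ?_ (this.trans (mul_le_of_le_one_right (by positivity) (by exact_mod_cast e)))
        simp [hammingDist, N, z]
      norm_cast at this
      omega
  have : φ (fun a => if a ∈ D then 1 else 0) = φ 0 := funext fun i => by
    obtain ⟨S, s1, s2⟩ := h2 i
    obtain ⟨j, j1, j2⟩ := d2 S s1 i
    rw [s2 _ (z j) fun a ha => by
      simp only [← j2 a ha, N, mem_filter, mem_univ, true_and]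
      generalize z j a = t
      revert t
      decide]
    simp [z, j1.symm]
  simpa [d1 (mem_singleton_self _)] using congrFun (φ.injective this) 0

end Pool.Agent.H16.DicXor
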