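import Mathlib

set_option autoImplicit false

namespace Pool.Agent.H16.DicXor

/-- the dictator function on `n + 1` bits: the first bit -/
def dic {n : ℕ} (x : Fin (n + 1) → ZMod 2) : ZMod 2 := x 0

/-- the parity function -/
def par {n : ℕ} (x : Fin n → ZMod 2) : ZMod 2 := ∑ i, x i

/-- every output bit is determined by at most `K` input bits -/
def Local {n : ℕ} (K : ℕ) (φ : (Fin n → ZMod 2) → Fin n → ZMod 2) : Prop :=
  ∀ i, ∃ S : Finset (Fin n), S.card ≤ K ∧ ∀ x y, (∀ j ∈ S, x j = y j) → φ x i = φ y i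

/-- `L`-Lipschitz for the Hamming distance -/
def Lip {n : ℕ} (L : ℝ) (ψ : (Fin n → ZMod 2) → Fin n → ZMod 2) : Prop :=
  ∀ x y, (hammingDist (ψ x) (ψ y) : ℝ) ≤ L * hammingDist x y

end Pool.Agent.H16.DicXor
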