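import Mathlib

set_option autoImplicit false

namespace Pool.Agent.H16.Disc

open Classical MeasureTheory

noncomputable def pt (m k : ℕ) (ab : Fin m × Fin m) : Fin 2 → ℝ :=
  ![((ab.1 : ℕ) : ℝ) / m, if (ab.1 : ℕ) + k < m then ((ab.2 : ℕ) : ℝ) / m else 0]

noncomputable def PP (m k : ℕ) : Fin (m * m) → Fin 2 → ℝ :=
  fun i => pt m k (finProdFinEquiv.symm i)

noncomputable def cnt (m : ℕ) (u v : ℝ) : ℝ :=
  ∑ a : Fin m, if u ≤ ((a : ℕ) : ℝ) / m ∧ ((a : ℕ) : ℝ) / m < v then 1 else 0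

theorem cnt_nonneg (m : ℕ) (u v : ℝ) : 0 ≤ cnt m u v :=
  Finset.sum_nonneg (fun _ _ => by split_ifs <;> norm_num)

theorem cnt_bound (m : ℕ) (hm : 0 < m) (u v : ℝ) (hu : 0 ≤ u) (huv : u ≤ v) (hv : v ≤ 1) :
    |cnt m u v - m * (v - u)| ≤ 1 := by
  have hmr : (0 : ℝ) < m := by exact_mod_cast hm
  have e1 : cnt m u v = ((Finset.Ico ⌈(m : ℝ) * u⌉₊ ⌈(m : ℝ) * v⌉₊).card : ℝ) := by
    unfold cnt
    rw [Fin.sum_univ_eq_sum_range
      (fun a : ℕ => if u ≤ (a : ℝ) / m ∧ (a : ℝ) / m < v then (1 : ℝ) else 0) m]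
    rw [Finset.sum_boole]
    congr 2
    ext a
    simp only [Finset.mem_filter, Finset.mem_range, Finset.mem_Ico, Nat.ceil_le, Nat.lt_ceil,
      le_div_iff₀ hmr, div_lt_iff₀ hmr]
    constructor
    · rintro ⟨_, h1, h2⟩
      exact ⟨by linarith, by linarith⟩
    · rintro ⟨h1, h2⟩
      refine ⟨?_, by linarith, by linarith⟩
      have : (a : ℝ) < m := by nlinarith
      exact_mod_cast this
  have hle : ⌈(m : ℝ) * u⌉₊ ≤ ⌈(m : ℝ) * v⌉₊ :=
    Nat.ceil_mono (mul_le_mul_of_nonneg_left huv hmr.le)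
  rw [e1, Nat.card_Ico, Nat.cast_sub hle]
  have h1 := Nat.le_ceil ((m : ℝ) * u)
  have h2 := Nat.le_ceil ((m : ℝ) * v)
  have h3 := Nat.ceil_lt_add_one (a := (m : ℝ) * u) (by positivity)
  have h4 := Nat.ceil_lt_add_one (a := (m : ℝ) * v) (mul_nonneg hmr.le (hu.trans huv))
  rw [abs_le]
  constructor <;> nlinarith

theorem PP_mem (m k : ℕ) (i : Fin (m * m)) (j : Fin 2) : 0 ≤ PP m k i j ∧ PP m k i j < 1 := by
  unfold PP pt
  set ab := finProdFinEquiv.symm i
  have hm : 0 < m := Nat.pos_of_ne_zero (by rintro rfl; exact ab.1.elim0)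
  have hmr : (0 : ℝ) < m := by exact_mod_cast hm
  have h1 : ((ab.1 : ℕ) : ℝ) < m := by exact_mod_cast ab.1.2
  have h2 : ((ab.2 : ℕ) : ℝ) < m := by exact_mod_cast ab.2.2
  fin_cases j
  · simp only [Fin.zero_eta, Matrix.cons_val_zero]
    exact ⟨by positivity, (div_lt_one hmr).2 h1⟩
  · simp only [Fin.mk_one, Matrix.cons_val_one, Matrix.cons_val_fin_one]
    split_ifs
    · exact ⟨by positivity, (div_lt_one hmr).2 h2⟩
    · norm_num

theorem sum_PP (m k : ℕ) (g : (Fin 2 → ℝ) → ℝ) :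
    ∑ i : Fin (m * m), g (PP m k i) = ∑ a : Fin m, ∑ b : Fin m, g (pt m k (a, b)) := by
  unfold PP
  rw [Equiv.sum_comp finProdFinEquiv.symm (fun ab => g (pt m k ab)), Fintype.sum_prod_type]

theorem strip_card (m k : ℕ) :
    (∑ a : Fin m, if m ≤ (a : ℕ) + k then (1 : ℝ) else 0) ≤ k := by
  rw [Fin.sum_univ_eq_sum_range (fun a : ℕ => if m ≤ a + k then (1 : ℝ) else 0) m]
  rw [Finset.sum_boole]
  have : ((Finset.range m).filter (fun a => m ≤ a + k)).card ≤ (Finset.Ico (m - k) m).card := by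
    apply Finset.card_le_card
    intro a ha
    simp only [Finset.mem_filter, Finset.mem_range, Finset.mem_Ico] at ha ⊢
    omega
  rw [Nat.card_Ico] at this
  have h2 : ((Finset.range m).filter (fun a => m ≤ a + k)).card ≤ k := by omega
  exact_mod_cast h2

theorem box_bound (m k : ℕ) (hm : 0 < m) (x y : Fin 2 → ℝ) (hx : 0 ≤ x) (hxy : x ≤ y)
    (hy : y ≤ 1) :
    |(∑ i : Fin (m * m), if ∀ j : Fin 2, x j ≤ PP m k i j ∧ PP m k i j < y j then (1 : ℝ) else 0)
      - ((m * m : ℕ) : ℝ) * ∏ j : Fin 2, (y j - x j)| ≤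
      (2 * m + 1) + if 1 - (k : ℝ) / m < y 0 then (k : ℝ) * m else 0 := by
  have hmr : (0 : ℝ) < m := by exact_mod_cast hm
  rw [sum_PP m k (fun q => if ∀ j : Fin 2, x j ≤ q j ∧ q j < y j then (1 : ℝ) else 0)]
  set A := ∑ a : Fin m, ∑ b : Fin m,
    if ∀ j : Fin 2, x j ≤ pt m k (a, b) j ∧ pt m k (a, b) j < y j then (1 : ℝ) else 0 with hA
  have h0 := cnt_bound m hm (x 0) (y 0) (hx 0) (hxy 0) (hy 0)
  have h1 := cnt_bound m hm (x 1) (y 1) (hx 1) (hxy 1) (hy 1)
  have hd : |A - cnt m (x 0) (y 0) * cnt m (x 1) (y 1)| ≤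
      if 1 - (k : ℝ) / m < y 0 then (k : ℝ) * m else 0 := by
    unfold cnt
    rw [Finset.sum_mul_sum, hA, ← Finset.sum_sub_distrib]
    refine (Finset.abs_sum_le_sum_abs _ _).trans ?_
    have : ∀ a : Fin m, |(∑ b : Fin m,
        if ∀ j : Fin 2, x j ≤ pt m k (a, b) j ∧ pt m k (a, b) j < y j then (1 : ℝ) else 0) -
        ∑ b : Fin m, (if x 0 ≤ ((a : ℕ) : ℝ) / m ∧ ((a : ℕ) : ℝ) / m < y 0 then (1 : ℝ) else 0) *
          (if x 1 ≤ ((b : ℕ) : ℝ) / m ∧ ((b : ℕ) : ℝ) / m < y 1 then (1 : ℝ) else 0)| ≤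
        (if 1 - (k : ℝ) / m < y 0 then (m : ℝ) else 0) *
          (if m ≤ (a : ℕ) + k then (1 : ℝ) else 0) := by
      intro a
      rw [← Finset.sum_sub_distrib]
      refine (Finset.abs_sum_le_sum_abs _ _).trans ?_
      have hb : ∀ b : Fin m, |(if ∀ j : Fin 2, x j ≤ pt m k (a, b) j ∧ pt m k (a, b) j < y j
          then (1 : ℝ) else 0) -
          (if x 0 ≤ ((a : ℕ) : ℝ) / m ∧ ((a : ℕ) : ℝ) / m < y 0 then (1 : ℝ) else 0) *
          (if x 1 ≤ ((b : ℕ) : ℝ) / m ∧ ((b : ℕ) : ℝ) / m < y 1 then (1 : ℝ) else 0)| ≤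
          (if 1 - (k : ℝ) / m < y 0 then (1 : ℝ) else 0) *
          (if m ≤ (a : ℕ) + k then (1 : ℝ) else 0) := by
        intro b
        simp only [Fin.forall_fin_two, pt, Matrix.cons_val_zero, Matrix.cons_val_one,
          Matrix.cons_val_fin_one]
        by_cases hak : (a : ℕ) + k < m
        · have hak' : ¬ m ≤ (a : ℕ) + k := by omega
          simp only [hak, if_true, hak', if_false, mul_zero]
          by_cases c0 : x 0 ≤ ((a : ℕ) : ℝ) / m ∧ ((a : ℕ) : ℝ) / m < y 0 <;>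
            by_cases c1 : x 1 ≤ ((b : ℕ) : ℝ) / m ∧ ((b : ℕ) : ℝ) / m < y 1 <;> simp [c0, c1]
        · have hak' : m ≤ (a : ℕ) + k := by omega
          simp only [hak, if_false, hak', if_true, mul_one]
          by_cases c0 : x 0 ≤ ((a : ℕ) : ℝ) / m ∧ ((a : ℕ) : ℝ) / m < y 0
          · have hlt : 1 - (k : ℝ) / m < y 0 := by
              refine lt_of_le_of_lt ?_ c0.2
              rw [le_div_iff₀ hmr, sub_mul, div_mul_cancel₀ _ hmr.ne']
              have : (m : ℝ) ≤ ((a : ℕ) : ℝ) + k := by exact_mod_cast hak'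
              linarith
            simp only [hlt, if_true]
            split_ifs <;> norm_num
          · simp only [c0, false_and, if_false, zero_mul, sub_zero, abs_zero]
            split_ifs <;> norm_num
      refine (Finset.sum_le_sum (fun b _ => hb b)).trans (le_of_eq ?_)
      rw [Finset.sum_const, Finset.card_univ, Fintype.card_fin, nsmul_eq_mul]
      split_ifs <;> simp
    refine (Finset.sum_le_sum (fun a _ => this a)).trans ?_
    rw [← Finset.mul_sum]
    have := strip_card m k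
    split_ifs
    · nlinarith
    · simp
  rw [Fin.prod_univ_two]
  push_cast
  set c0 := cnt m (x 0) (y 0)
  set c1 := cnt m (x 1) (y 1)
  set l0 := y 0 - x 0
  set l1 := y 1 - x 1
  have hl0 : 0 ≤ l0 := sub_nonneg.2 (hxy 0)
  have hl1 : 0 ≤ l1 := sub_nonneg.2 (hxy 1)
  have hl0' : l0 ≤ 1 := by have := hx 0; have := hy 0; simp only [Pi.zero_apply, Pi.one_apply] at *; linarith
  have hl1' : l1 ≤ 1 := by have := hx 1; have := hy 1; simp only [Pi.zero_apply, Pi.one_apply] at *; linarith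
  have hg : |c0 * c1 - m * m * (l0 * l1)| ≤ 2 * m + 1 := by
    have e : c0 * c1 - m * m * (l0 * l1) =
        (c0 - m * l0) * (c1 - m * l1) + (c0 - m * l0) * (m * l1) + (c1 - m * l1) * (m * l0) := by
      ring
    rw [e]
    have t1 : |(c0 - m * l0) * (c1 - m * l1)| ≤ 1 := by
      rw [abs_mul]; exact mul_le_one₀ h0 (abs_nonneg _) h1
    have t2 : |(c0 - m * l0) * (m * l1)| ≤ m := by
      rw [abs_mul, abs_of_nonneg (mul_nonneg hmr.le hl1)]
      have : (m : ℝ) * l1 ≤ m := by nlinarith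
      nlinarith [abs_nonneg (c0 - m * l0), mul_nonneg hmr.le hl1]
    have t3 : |(c1 - m * l1) * (m * l0)| ≤ m := by
      rw [abs_mul, abs_of_nonneg (mul_nonneg hmr.le hl0)]
      have : (m : ℝ) * l0 ≤ m := by nlinarith
      nlinarith [abs_nonneg (c1 - m * l1), mul_nonneg hmr.le hl0]
    have := abs_add_three ((c0 - m * l0) * (c1 - m * l1)) ((c0 - m * l0) * (m * l1))
      ((c1 - m * l1) * (m * l0))
    linarith
  have := abs_sub_le A (c0 * c1) (m * m * (l0 * l1))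
  linarith

theorem vol_cube : (volume (Set.Icc (0 : Fin 2 → ℝ) 1)).toReal = 1 := by
  rw [Real.volume_Icc_pi_toReal (by intro i; simp)]
  simp

theorem cube_fin : volume (Set.Icc (0 : Fin 2 → ℝ) 1) < ⊤ := by
  exact isCompact_Icc.measure_lt_top

theorem int_upper (f : (Fin 2 → ℝ) → ℝ) (c1 c2 η : ℝ) (hc2 : 0 ≤ c2) (hη : 0 ≤ η)
    (hf0 : ∀ t, 0 ≤ f t)
    (hf : ∀ t ∈ Set.Icc (0 : Fin 2 → ℝ) 1, f t ≤ c1 + if 1 - η < t 0 then c2 else 0) :
    ∫ t in Set.Icc (0 : Fin 2 → ℝ) 1, f t ≤ c1 + c2 * η := by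
  set S : Set (Fin 2 → ℝ) := Set.Icc ![1 - η, 0] 1 with hS
  have hSm : MeasurableSet S := measurableSet_Icc
  have : IsFiniteMeasure (volume.restrict (Set.Icc (0 : Fin 2 → ℝ) 1)) :=
    isFiniteMeasure_restrict.2 cube_fin.ne
  have hi1 : Integrable (fun _ : Fin 2 → ℝ => c1) (volume.restrict (Set.Icc (0 : Fin 2 → ℝ) 1)) :=
    integrable_const _
  have hi2 : Integrable (S.indicator (fun _ : Fin 2 → ℝ => c2))
      (volume.restrict (Set.Icc (0 : Fin 2 → ℝ) 1)) := (integrable_const _).indicator hSm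
  have hle : ∫ t in Set.Icc (0 : Fin 2 → ℝ) 1, f t ≤
      ∫ t in Set.Icc (0 : Fin 2 → ℝ) 1, (c1 + S.indicator (fun _ => c2) t) := by
    apply integral_mono_of_nonneg (Filter.Eventually.of_forall hf0) (hi1.add hi2)
    rw [Filter.EventuallyLE, ae_restrict_iff' measurableSet_Icc]
    refine Filter.Eventually.of_forall ?_
    intro t ht
    refine (hf t ht).trans ?_
    simp only [Pi.add_apply]
    split_ifs with h
    · rw [Set.indicator_of_mem]
      refine ⟨?_, ht.2⟩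
      intro j
      fin_cases j
      · simpa using h.le
      · simpa using ht.1 1
    · have : 0 ≤ S.indicator (fun _ : Fin 2 → ℝ => c2) t :=
        Set.indicator_nonneg (fun _ _ => hc2) _
      linarith
  refine hle.trans ?_
  rw [integral_add hi1 hi2, integral_indicator hSm, setIntegral_const, setIntegral_const]
  have v1 : volume.real (Set.Icc (0 : Fin 2 → ℝ) 1) = 1 := vol_cube
  have v2 : (volume.restrict (Set.Icc (0 : Fin 2 → ℝ) 1)).real S ≤ η := by
    have h1 : (volume.restrict (Set.Icc (0 : Fin 2 → ℝ) 1)) S ≤ volume S :=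
      Measure.restrict_apply_le _ _
    have h2 : (volume S).toReal = η := by
      rw [hS, Real.volume_Icc_pi_toReal]
      · simp [Fin.prod_univ_two]
      · intro j
        fin_cases j <;> simp [hη]
    have h3 : volume S ≠ ⊤ := isCompact_Icc.measure_lt_top.ne
    rw [← h2]
    exact ENNReal.toReal_mono h3 h1
  rw [v1, smul_eq_mul, smul_eq_mul]
  nlinarith

theorem set_lower (g : (Fin 2 → ℝ) → ℝ) (hg : IntegrableOn g (Set.Icc (0 : Fin 2 → ℝ) 1))
    (hg0 : ∀ t, 0 ≤ g t) (a b : Fin 2 → ℝ) (ha : 0 ≤ a) (hb : b ≤ 1) (c : ℝ)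
    (hc : ∀ t ∈ Set.Icc a b, c ≤ g t) :
    c * (volume (Set.Icc a b)).toReal ≤ ∫ t in Set.Icc (0 : Fin 2 → ℝ) 1, g t := by
  have hsub : Set.Icc a b ⊆ Set.Icc (0 : Fin 2 → ℝ) 1 := Set.Icc_subset_Icc ha hb
  have h1 : ∫ t in Set.Icc a b, g t ≤ ∫ t in Set.Icc (0 : Fin 2 → ℝ) 1, g t :=
    setIntegral_mono_set hg (Filter.Eventually.of_forall hg0) hsub.eventuallyLE
  refine le_trans ?_ h1
  have := setIntegral_ge_of_const_le (μ := volume) (c := c) (f := g) measurableSet_Icc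
    isCompact_Icc.measure_lt_top.ne hc (hg.mono_set hsub)
  rw [smul_eq_mul, mul_comm] at this
  exact this

theorem int_lower (f : (Fin 2 → ℝ) → (Fin 2 → ℝ) → ℝ) (hf : Measurable (Function.uncurry f))
    (B c : ℝ) (hf0 : ∀ x y, 0 ≤ f x y)
    (hB : ∀ x ∈ Set.Icc (0 : Fin 2 → ℝ) 1, ∀ y ∈ Set.Icc (0 : Fin 2 → ℝ) 1, f x y ≤ B)
    (hc : ∀ x ∈ Set.Icc (![1 / 4, 1 / 8] : Fin 2 → ℝ) ![1 / 2, 1 / 4],
      ∀ y ∈ Set.Icc (![0, 3 / 4] : Fin 2 → ℝ) ![1 / 8, 1], c ≤ f x y) :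
    c / 1024 ≤ ∫ x in Set.Icc (0 : Fin 2 → ℝ) 1, ∫ y in Set.Icc (0 : Fin 2 → ℝ) 1, f x y := by
  have : IsFiniteMeasure (volume.restrict (Set.Icc (0 : Fin 2 → ℝ) 1)) :=
    isFiniteMeasure_restrict.2 cube_fin.ne
  have hin : ∀ x ∈ Set.Icc (0 : Fin 2 → ℝ) 1,
      IntegrableOn (f x) (Set.Icc (0 : Fin 2 → ℝ) 1) := by
    intro x hx
    apply Measure.integrableOn_of_bounded (M := B) cube_fin.ne
      (hf.of_uncurry_left).aestronglyMeasurable
    rw [ae_restrict_iff' measurableSet_Icc]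
    refine Filter.Eventually.of_forall ?_
    intro y hy
    rw [Real.norm_eq_abs, abs_of_nonneg (hf0 x y)]
    exact hB x hx y hy
  have hout : IntegrableOn (fun x => ∫ y in Set.Icc (0 : Fin 2 → ℝ) 1, f x y)
      (Set.Icc (0 : Fin 2 → ℝ) 1) := by
    apply Measure.integrableOn_of_bounded (M := B) cube_fin.ne
      (hf.stronglyMeasurable.integral_prod_right).aestronglyMeasurable
    rw [ae_restrict_iff' measurableSet_Icc]
    refine Filter.Eventually.of_forall ?_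
    intro x hx
    rw [Real.norm_eq_abs, abs_of_nonneg (integral_nonneg (hf0 x))]
    have := int_upper (f x) B 0 0 le_rfl le_rfl (hf0 x) (fun y hy => by
      have := hB x hx y hy
      split_ifs <;> linarith)
    linarith
  have v1 : (volume (Set.Icc (![1 / 4, 1 / 8] : Fin 2 → ℝ) ![1 / 2, 1 / 4])).toReal = 1 / 32 := by
    rw [Real.volume_Icc_pi_toReal]
    · simp [Fin.prod_univ_two]; norm_num
    · intro j
      fin_cases j <;> simp <;> norm_num
  have v2 : (volume (Set.Icc (![0, 3 / 4] : Fin 2 → ℝ) ![1 / 8, 1])).toReal = 1 / 32 := by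
    rw [Real.volume_Icc_pi_toReal]
    · simp [Fin.prod_univ_two]; norm_num
    · intro j
      fin_cases j <;> simp <;> norm_num
  have a1 : (0 : Fin 2 → ℝ) ≤ ![1 / 4, 1 / 8] := by
    intro j; fin_cases j <;> simp
  have b1 : (![1 / 2, 1 / 4] : Fin 2 → ℝ) ≤ 1 := by
    intro j; fin_cases j <;> simp <;> norm_num
  have a2 : (0 : Fin 2 → ℝ) ≤ ![0, 3 / 4] := by
    intro j; fin_cases j <;> simp <;> norm_num
  have b2 : (![1 / 8, 1] : Fin 2 → ℝ) ≤ 1 := by
    intro j; fin_cases j <;> simp <;> norm_num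
  have := set_lower _ hout (fun x => integral_nonneg (hf0 x)) _ _ a1 b1 (c / 32) (by
    intro x hx
    have h := set_lower (f x) (hin x (Set.Icc_subset_Icc a1 b1 hx)) (hf0 x) _ _ a2 b2 c
      (hc x hx)
    rw [v2] at h
    linarith)
  rw [v1] at this
  linarith

def inI (a b t : ℝ) : Prop := (a ≤ b ∧ a ≤ t ∧ t < b) ∨ (b < a ∧ (t < b ∨ a ≤ t))

noncomputable def perF (N : ℕ) (P : Fin N → Fin 2 → ℝ) (x y : Fin 2 → ℝ) : ℝ :=
  |(∑ i : Fin N, if ∀ j : Fin 2, inI (x j) (y j) (P i j) then (1 : ℝ) else 0)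
    - (N : ℝ) * ∏ j : Fin 2, (if x j ≤ y j then y j - x j else 1 - x j + y j)|

theorem perF_meas (N : ℕ) (P : Fin N → Fin 2 → ℝ) : Measurable (Function.uncurry (perF N P)) := by
  have hx : ∀ j : Fin 2, Measurable (fun z : (Fin 2 → ℝ) × (Fin 2 → ℝ) => z.1 j) :=
    fun j => (measurable_pi_apply j).comp measurable_fst
  have hy : ∀ j : Fin 2, Measurable (fun z : (Fin 2 → ℝ) × (Fin 2 → ℝ) => z.2 j) :=
    fun j => (measurable_pi_apply j).comp measurable_snd
  have : Measurable (fun z : (Fin 2 → ℝ) × (Fin 2 → ℝ) => perF N P z.1 z.2) := by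
    unfold perF
    apply Measurable.abs
    apply Measurable.sub
    · apply Finset.measurable_sum
      intro i _
      apply Measurable.ite _ measurable_const measurable_const
      rw [Set.ofPred_forall]
      apply MeasurableSet.iInter
      intro j
      unfold inI
      exact ((measurableSet_le (hx j) (hy j)).inter
        ((measurableSet_le (hx j) measurable_const).inter
          (measurableSet_lt measurable_const (hy j)))).union
        ((measurableSet_lt (hy j) (hx j)).inter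
          ((measurableSet_lt measurable_const (hy j)).union
            (measurableSet_le (hx j) measurable_const)))
    · apply Measurable.const_mul
      apply Finset.measurable_prod
      intro j _
      exact Measurable.ite (measurableSet_le (hx j) (hy j)) ((hy j).sub (hx j))
        ((measurable_const.sub (hx j)).add (hy j))
  exact this

theorem perF_le (N : ℕ) (P : Fin N → Fin 2 → ℝ) (x : Fin 2 → ℝ)
    (hx : x ∈ Set.Icc (0 : Fin 2 → ℝ) 1) (y : Fin 2 → ℝ) (hy : y ∈ Set.Icc (0 : Fin 2 → ℝ) 1) :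
    perF N P x y ≤ N := by
  unfold perF
  have h1 : 0 ≤ (∑ i : Fin N, if ∀ j : Fin 2, inI (x j) (y j) (P i j) then (1 : ℝ) else 0) :=
    Finset.sum_nonneg (fun _ _ => by split_ifs <;> norm_num)
  have h2 : (∑ i : Fin N, if ∀ j : Fin 2, inI (x j) (y j) (P i j) then (1 : ℝ) else 0) ≤ N := by
    calc _ ≤ ∑ _i : Fin N, (1 : ℝ) := Finset.sum_le_sum (fun _ _ => by split_ifs <;> norm_num)
      _ = N := by simp
  have h3 : ∀ j : Fin 2, 0 ≤ (if x j ≤ y j then y j - x j else 1 - x j + y j) ∧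
      (if x j ≤ y j then y j - x j else 1 - x j + y j) ≤ 1 := by
    intro j
    have a1 : 0 ≤ x j := hx.1 j
    have a2 : x j ≤ 1 := hx.2 j
    have a3 : 0 ≤ y j := hy.1 j
    have a4 : y j ≤ 1 := hy.2 j
    split_ifs with h
    · constructor <;> linarith
    · push Not at h
      constructor <;> linarith
  have h4 : 0 ≤ ∏ j : Fin 2, (if x j ≤ y j then y j - x j else 1 - x j + y j) :=
    Finset.prod_nonneg (fun j _ => (h3 j).1)
  have h5 : ∏ j : Fin 2, (if x j ≤ y j then y j - x j else 1 - x j + y j) ≤ 1 :=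
    Finset.prod_le_one (fun j _ => (h3 j).1) (fun j _ => (h3 j).2)
  have hN : (0 : ℝ) ≤ N := by positivity
  rw [abs_le]
  constructor <;> nlinarith

theorem perF_ge (m k : ℕ) (hk : 2 ≤ k) (hm : 2 * k ≤ m) (x : Fin 2 → ℝ)
    (hx : x ∈ Set.Icc (![1 / 4, 1 / 8] : Fin 2 → ℝ) ![1 / 2, 1 / 4]) (y : Fin 2 → ℝ)
    (hy : y ∈ Set.Icc (![0, 3 / 4] : Fin 2 → ℝ) ![1 / 8, 1]) :
    ((k : ℝ) - 4) * m / 2 ≤ perF (m * m) (PP m k) x y := by
  have hm0 : 0 < m := by omega
  have hmr : (0 : ℝ) < m := by exact_mod_cast hm0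
  have hkr : (2 : ℝ) ≤ k := by exact_mod_cast hk
  have hmk : 2 * (k : ℝ) ≤ m := by exact_mod_cast hm
  have x0l : 1 / 4 ≤ x 0 := by simpa using hx.1 0
  have x0u : x 0 ≤ 1 / 2 := by simpa using hx.2 0
  have x1l : 1 / 8 ≤ x 1 := by simpa using hx.1 1
  have x1u : x 1 ≤ 1 / 4 := by simpa using hx.2 1
  have y0l : 0 ≤ y 0 := by simpa using hy.1 0
  have y0u : y 0 ≤ 1 / 8 := by simpa using hy.2 0
  have y1l : 3 / 4 ≤ y 1 := by simpa using hy.1 1
  have y1u : y 1 ≤ 1 := by simpa using hy.2 1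
  have hkm : (k : ℝ) / m ≤ 1 / 2 := by rw [div_le_iff₀ hmr]; linarith
  have hkm0 : 0 ≤ (k : ℝ) / m := by positivity
  unfold perF
  rw [sum_PP m k (fun q => if ∀ j : Fin 2, inI (x j) (y j) (q j) then (1 : ℝ) else 0)]
  have hA : (∑ a : Fin m, ∑ b : Fin m,
      if ∀ j : Fin 2, inI (x j) (y j) (pt m k (a, b) j) then (1 : ℝ) else 0) ≤
      (cnt m 0 (y 0) + cnt m (x 0) (1 - (k : ℝ) / m)) * cnt m (x 1) (y 1) := by
    unfold cnt
    rw [← Finset.sum_add_distrib, Finset.sum_mul_sum]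
    apply Finset.sum_le_sum
    intro a _
    apply Finset.sum_le_sum
    intro b _
    simp only [Fin.forall_fin_two, pt, Matrix.cons_val_zero, Matrix.cons_val_one,
      Matrix.cons_val_fin_one, inI]
    by_cases hc : ((x 0 ≤ y 0 ∧ x 0 ≤ ((a : ℕ) : ℝ) / m ∧ ((a : ℕ) : ℝ) / m < y 0) ∨
        (y 0 < x 0 ∧ (((a : ℕ) : ℝ) / m < y 0 ∨ x 0 ≤ ((a : ℕ) : ℝ) / m))) ∧
        ((x 1 ≤ y 1 ∧ x 1 ≤ (if (a : ℕ) + k < m then ((b : ℕ) : ℝ) / m else 0) ∧
          (if (a : ℕ) + k < m then ((b : ℕ) : ℝ) / m else 0) < y 1) ∨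
        (y 1 < x 1 ∧ ((if (a : ℕ) + k < m then ((b : ℕ) : ℝ) / m else 0) < y 1 ∨
          x 1 ≤ (if (a : ℕ) + k < m then ((b : ℕ) : ℝ) / m else 0))))
    · rw [if_pos hc]
      obtain ⟨h0, h1⟩ := hc
      rcases h1 with h1 | h1
      · by_cases hak : (a : ℕ) + k < m
        · simp only [hak, if_true] at h1
          rw [if_pos (show x 1 ≤ ((b : ℕ) : ℝ) / m ∧ ((b : ℕ) : ℝ) / m < y 1 from h1.2), mul_one]
          rcases h0 with h0 | h0
          · linarith [h0.1]
          · rcases h0.2 with h2 | h2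
            · rw [if_pos ⟨by positivity, h2⟩]
              split_ifs <;> norm_num
            · have : ((a : ℕ) : ℝ) / m < 1 - (k : ℝ) / m := by
                rw [div_lt_iff₀ hmr, sub_mul, div_mul_cancel₀ _ hmr.ne']
                have : ((a : ℕ) : ℝ) + k < m := by exact_mod_cast hak
                linarith
              rw [if_pos (show x 0 ≤ ((a : ℕ) : ℝ) / m ∧ ((a : ℕ) : ℝ) / m < 1 - (k : ℝ) / m from
                ⟨h2, this⟩)]
              split_ifs <;> norm_num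
        · simp only [hak, if_false] at h1
          linarith [h1.2.1]
      · linarith [h1.1]
    · rw [if_neg hc]
      apply mul_nonneg
      · apply add_nonneg <;> split_ifs <;> norm_num
      · split_ifs <;> norm_num
  have b0 := (abs_le.1 (cnt_bound m hm0 0 (y 0) le_rfl y0l (by linarith))).2
  have b1 := (abs_le.1 (cnt_bound m hm0 (x 0) (1 - (k : ℝ) / m) (by linarith) (by linarith)
    (by linarith))).2
  have b2 := (abs_le.1 (cnt_bound m hm0 (x 1) (y 1) (by linarith) (by linarith) y1u)).2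
  have e : (m : ℝ) * (1 - (k : ℝ) / m - x 0) = m - k - m * x 0 := by field_simp
  rw [e] at b1
  have n0 := cnt_nonneg m 0 (y 0)
  have n1 := cnt_nonneg m (x 0) (1 - (k : ℝ) / m)
  have n2 := cnt_nonneg m (x 1) (y 1)
  have hUV : (cnt m 0 (y 0) + cnt m (x 0) (1 - (k : ℝ) / m)) * cnt m (x 1) (y 1) ≤
      (m * (1 - x 0 + y 0) + 2 - k) * (m * (y 1 - x 1) + 1) := by
    apply mul_le_mul (by linarith) (by linarith) n2 (by linarith)
  rw [Fin.prod_univ_two, if_neg (by linarith : ¬ x 0 ≤ y 0), if_pos (by linarith : x 1 ≤ y 1)]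
  refine le_trans ?_ (neg_le_abs _)
  push_cast
  have t1 : (m : ℝ) * (1 - x 0 + y 0) ≤ m := by nlinarith
  have t2 : (m : ℝ) / 2 ≤ m * (y 1 - x 1) + 1 := by nlinarith
  have t3 : ((k : ℝ) - 2) * (m / 2) ≤ (k - 2) * (m * (y 1 - x 1) + 1) :=
    mul_le_mul_of_nonneg_left t2 (by linarith)
  nlinarith

theorem per_lower (m k : ℕ) (hk : 2 ≤ k) (hm : 2 * k ≤ m) :
    ((k : ℝ) - 4) * m / 2 / 1024 ≤ ∫ x in Set.Icc (0 : Fin 2 → ℝ) 1,
      ∫ y in Set.Icc (0 : Fin 2 → ℝ) 1, perF (m * m) (PP m k) x y :=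
  int_lower _ (perF_meas _ _) _ _ (fun _ _ => abs_nonneg _) (perF_le _ _)
    (fun x hx y hy => perF_ge m k hk hm x hx y hy)

theorem star_upper (m k : ℕ) (hm : 0 < m) :
    ∫ t in Set.Icc (0 : Fin 2 → ℝ) 1,
      |(∑ i : Fin (m * m), if ∀ j : Fin 2, PP m k i j < t j then (1 : ℝ) else 0)
        - ((m * m : ℕ) : ℝ) * ∏ j : Fin 2, t j| ≤ 2 * m + 1 + k * k := by
  have hmr : (0 : ℝ) < m := by exact_mod_cast hm
  have := int_upper (fun t => |(∑ i : Fin (m * m),
      if ∀ j : Fin 2, PP m k i j < t j then (1 : ℝ) else 0)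
        - ((m * m : ℕ) : ℝ) * ∏ j : Fin 2, t j|) (2 * m + 1) (k * m) (k / m) (by positivity)
      (by positivity) (fun _ => abs_nonneg _) (by
    intro t ht
    have h := box_bound m k hm 0 t le_rfl ht.1 ht.2
    simp only [Pi.zero_apply, sub_zero, (PP_mem m k _ _).1, true_and] at h
    exact h)
  have e : (k : ℝ) * m * (k / m) = k * k := by field_simp
  rw [e] at this
  exact this

theorem extr_upper (m k : ℕ) (hm : 0 < m) :
    ∫ x in Set.Icc (0 : Fin 2 → ℝ) 1, ∫ y in Set.Icc (0 : Fin 2 → ℝ) 1,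
      (if x ≤ y then
      |(∑ i : Fin (m * m), if ∀ j : Fin 2, x j ≤ PP m k i j ∧ PP m k i j < y j then (1 : ℝ) else 0)
        - ((m * m : ℕ) : ℝ) * ∏ j : Fin 2, (y j - x j)| else 0) ≤ 2 * m + 1 + k * k := by
  have hmr : (0 : ℝ) < m := by exact_mod_cast hm
  have e : (k : ℝ) * m * (k / m) = k * k := by field_simp
  have := int_upper (fun x => ∫ y in Set.Icc (0 : Fin 2 → ℝ) 1,
      (if x ≤ y then
      |(∑ i : Fin (m * m), if ∀ j : Fin 2, x j ≤ PP m k i j ∧ PP m k i j < y j then (1 : ℝ) else 0)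
        - ((m * m : ℕ) : ℝ) * ∏ j : Fin 2, (y j - x j)| else 0)) (2 * m + 1 + k * k) 0 0 le_rfl
      le_rfl (fun x => integral_nonneg (fun y => by
        simp only [Pi.zero_apply]
        split_ifs
        · exact abs_nonneg _
        · exact le_rfl)) (by
    intro x hx
    have h := int_upper (fun y => (if x ≤ y then
      |(∑ i : Fin (m * m), if ∀ j : Fin 2, x j ≤ PP m k i j ∧ PP m k i j < y j then (1 : ℝ) else 0)
        - ((m * m : ℕ) : ℝ) * ∏ j : Fin 2, (y j - x j)| else 0)) (2 * m + 1) (k * m) (k / m)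
      (by positivity) (by positivity) (fun y => by
        split_ifs
        · exact abs_nonneg _
        · exact le_rfl) (by
      intro y hy
      by_cases hxy : x ≤ y
      · rw [if_pos hxy]
        exact box_bound m k hm x y hx.1 hxy hy.2
      · rw [if_neg hxy]
        split_ifs <;> positivity)
    rw [e] at h
    simp only [ite_self, add_zero]
    exact h)
  simpa using this

theorem final_contra (C : ℝ) (hC : 0 < C) :
    ∃ k : ℕ, 2 ≤ k ∧ C * (2 * ((k * k : ℕ) : ℝ) + 1 + k * k) <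
      ((k : ℝ) - 4) * ((k * k : ℕ) : ℝ) / 2 / 1024 := by
  obtain ⟨k, hk⟩ := exists_nat_gt (8192 * C + 4)
  have h4 : (4 : ℝ) < k := by linarith
  have h4' : 4 < k := by exact_mod_cast h4
  refine ⟨k, by omega, ?_⟩
  push_cast
  have h1 : (1 : ℝ) ≤ k * k := by nlinarith
  have h2 : C * (2 * ((k : ℝ) * k) + 1 + k * k) ≤ C * (4 * (k * k)) :=
    mul_le_mul_of_nonneg_left (by linarith) hC.le
  have h3 : 8192 * C * ((k : ℝ) * k) < (k - 4) * (k * k) :=
    mul_lt_mul_of_pos_right (by linarith) (by linarith)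
  linarith

end Pool.Agent.H16.Disc
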