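import Mathlib

set_option autoImplicit false

namespace Pool.Agent.H16

open Finset

theorem divisor_bound (δ : ℝ) (hδ : 0 < δ) :
    ∃ C : ℝ, 0 < C ∧ ∀ m : ℕ, m ≠ 0 → ((m.divisors.card : ℕ) : ℝ) ≤ C * (m : ℝ) ^ δ := by
  have hr : (1 : ℝ) < (2 : ℝ) ^ δ := Real.one_lt_rpow (by norm_num) hδ
  set r : ℝ := (2 : ℝ) ^ δ with hrdef
  set K : ℝ := 1 + 1 / (r - 1) with hK
  have hr1 : 0 < r - 1 := by linarith
  have hK1 : 1 ≤ K := by
    have : 0 < 1 / (r - 1) := by positivity
    linarith
  obtain ⟨B, hB⟩ : ∃ B : ℕ, (2 : ℝ) ^ (1 / δ) ≤ B := exists_nat_ge _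
  refine ⟨K ^ B, by positivity, ?_⟩
  intro m hm
  have hfac : ∀ p ∈ m.primeFactors, ((m.factorization p + 1 : ℕ) : ℝ) ≤
      (if p < B then K else 1) * (((p ^ m.factorization p : ℕ) : ℝ)) ^ δ := by
    intro p hp
    have hp2 : 2 ≤ p := (Nat.prime_of_mem_primeFactors hp).two_le
    set a := m.factorization p
    have hpow : (((p ^ a : ℕ) : ℝ)) ^ δ = ((p : ℝ) ^ δ) ^ a := by
      push_cast
      rw [← Real.rpow_natCast, ← Real.rpow_mul (by positivity), mul_comm,
        Real.rpow_mul (by positivity), Real.rpow_natCast]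
    rw [hpow]
    split_ifs with h
    · have h1 : r ≤ (p : ℝ) ^ δ :=
        Real.rpow_le_rpow (by norm_num) (by exact_mod_cast hp2) hδ.le
      have h2 : r ^ a ≤ ((p : ℝ) ^ δ) ^ a := pow_le_pow_left₀ (by linarith) h1 a
      have h3 : 1 + (a : ℝ) * (r - 1) ≤ r ^ a := by
        have := one_add_mul_le_pow (a := r - 1) (by linarith) a
        simpa using this
      have h4 : ((a + 1 : ℕ) : ℝ) ≤ K * (1 + (a : ℝ) * (r - 1)) := by
        have e : K * (1 + (a : ℝ) * (r - 1)) = 1 + a * (r - 1) + 1 / (r - 1) + a := by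
          rw [hK]; field_simp; ring
        rw [e]; push_cast
        have : 0 < 1 / (r - 1) := by positivity
        have : 0 ≤ (a : ℝ) * (r - 1) := by positivity
        linarith
      calc ((a + 1 : ℕ) : ℝ) ≤ K * (1 + (a : ℝ) * (r - 1)) := h4
        _ ≤ K * ((p : ℝ) ^ δ) ^ a := by
          apply mul_le_mul_of_nonneg_left (h3.trans h2) (by linarith)
    · push Not at h
      have h1 : (2 : ℝ) ≤ (p : ℝ) ^ δ := by
        have h0 : (2 : ℝ) ^ (1 / δ) ≤ p := hB.trans (by exact_mod_cast h)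
        have := Real.rpow_le_rpow (by positivity) h0 hδ.le
        rwa [← Real.rpow_mul (by norm_num), one_div_mul_cancel hδ.ne', Real.rpow_one] at this
      have h2 : (2 : ℝ) ^ a ≤ ((p : ℝ) ^ δ) ^ a := pow_le_pow_left₀ (by norm_num) h1 a
      have h3 : ((a + 1 : ℕ) : ℝ) ≤ (2 : ℝ) ^ a := by
        have : a + 1 ≤ 2 ^ a := Nat.lt_two_pow_self
        exact_mod_cast this
      linarith
  rw [Nat.card_divisors hm]
  push_cast
  have hm' : (m : ℝ) ^ δ = ∏ p ∈ m.primeFactors, (((p ^ m.factorization p : ℕ) : ℝ)) ^ δ := by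
    rw [Real.finsetProd_rpow _ _ (fun _ _ => by positivity)]
    congr 1
    rw [← Nat.cast_prod]
    congr 1
    conv_lhs => rw [← Nat.prod_factorization_pow_eq_self hm]
    rfl
  rw [hm']
  calc ∏ p ∈ m.primeFactors, ((m.factorization p : ℝ) + 1)
      ≤ ∏ p ∈ m.primeFactors,
        ((if p < B then K else 1) * (((p ^ m.factorization p : ℕ) : ℝ)) ^ δ) := by
        apply Finset.prod_le_prod (fun _ _ => by positivity)
        intro p hp
        have := hfac p hp
        push_cast at this ⊢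
        exact this
    _ = (∏ p ∈ m.primeFactors, (if p < B then K else 1)) *
        ∏ p ∈ m.primeFactors, (((p ^ m.factorization p : ℕ) : ℝ)) ^ δ := Finset.prod_mul_distrib
    _ ≤ _ := by
        apply mul_le_mul_of_nonneg_right _ (Finset.prod_nonneg (fun _ _ => by positivity))
        rw [Finset.prod_ite, Finset.prod_const, Finset.prod_const_one, mul_one]
        apply pow_le_pow_right₀ hK1
        calc _ ≤ (Finset.range B).card := by
              apply Finset.card_le_card
              intro p hp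
              simp only [Finset.mem_filter] at hp
              exact Finset.mem_range.2 hp.2
          _ = B := Finset.card_range B

theorem multiset_weight_bound (σ : ℝ) (hσ : 1 < σ) :
    ∃ C : ℝ, ∀ F : Finset (Multiset ℕ), (∀ Y ∈ F, ∀ x ∈ Y, 2 ≤ x) →
      ∑ Y ∈ F, ((Y.prod : ℕ) : ℝ) ^ (-σ) ≤ C := by
  have hs : Summable (fun n : ℕ => (n : ℝ) ^ (-σ)) := Real.summable_nat_rpow.2 (by linarith)
  refine ⟨Real.exp (2 * ∑' n : ℕ, (n : ℝ) ^ (-σ)), ?_⟩
  intro F hF
  classical
  set T : Finset ℕ := F.biUnion (fun Y => Y.toFinset) with hT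
  set J : ℕ := F.sup (fun Y => Multiset.card Y) with hJ
  set w : ℕ → ℝ := fun d => (d : ℝ) ^ (-σ) with hw
  have hw0 : ∀ d, 0 ≤ w d := fun d => by simp only [hw]; positivity
  have hT2 : ∀ d ∈ T, 2 ≤ d := by
    intro d hd
    simp only [hT, Finset.mem_biUnion, Multiset.mem_toFinset] at hd
    obtain ⟨Y, hY, hd⟩ := hd
    exact hF Y hY d hd
  have hwh : ∀ d ∈ T, w d ≤ 1 / 2 := by
    intro d hd
    have h2 : (2 : ℝ) ≤ d := by exact_mod_cast hT2 d hd
    calc w d ≤ (d : ℝ) ^ (-1 : ℝ) :=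
          Real.rpow_le_rpow_of_exponent_le (by linarith) (by linarith)
      _ = 1 / d := by rw [Real.rpow_neg_one]; simp
      _ ≤ 1 / 2 := one_div_le_one_div_of_le (by norm_num) h2
  let φ : Multiset ℕ → (T → ℕ) := fun Y d => Y.count d.1
  have hsub : ∀ Y ∈ F, Y.toFinset ⊆ T := fun Y hY => Finset.subset_biUnion_of_mem _ hY
  have hinj : Set.InjOn φ F := by
    intro Y hY Z hZ h
    ext a
    by_cases ha : a ∈ T
    · exact congrFun h ⟨a, ha⟩
    · have h1 : a ∉ Y := fun h' => ha (hsub Y hY (Multiset.mem_toFinset.2 h'))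
      have h2 : a ∉ Z := fun h' => ha (hsub Z hZ (Multiset.mem_toFinset.2 h'))
      rw [Multiset.count_eq_zero.2 h1, Multiset.count_eq_zero.2 h2]
  have hval : ∀ Y ∈ F, ((Y.prod : ℕ) : ℝ) ^ (-σ) = ∏ d : T, w d.1 ^ (φ Y d) := by
    intro Y hY
    have e1 : Y.prod = ∏ d ∈ T, d ^ Y.count d := by
      rw [Finset.prod_multiset_count]
      apply Finset.prod_subset (hsub Y hY)
      intro x _ hx
      rw [Multiset.count_eq_zero.2 (fun h => hx (Multiset.mem_toFinset.2 h)), pow_zero]
    rw [e1]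
    push_cast
    rw [← Real.finsetProd_rpow _ _ (fun _ _ => by positivity)]
    rw [← Finset.prod_coe_sort T]
    apply Finset.prod_congr rfl
    intro d _
    simp only [hw, φ]
    rw [← Real.rpow_natCast, ← Real.rpow_mul (by positivity), mul_comm,
      Real.rpow_mul (by positivity), Real.rpow_natCast]
  calc ∑ Y ∈ F, ((Y.prod : ℕ) : ℝ) ^ (-σ) = ∑ Y ∈ F, ∏ d : T, w d.1 ^ (φ Y d) :=
        Finset.sum_congr rfl hval
    _ = ∑ g ∈ F.image φ, ∏ d : T, w d.1 ^ (g d) := by
        rw [Finset.sum_image hinj]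
    _ ≤ ∑ g ∈ Fintype.piFinset (fun _ : T => Finset.range (J + 1)), ∏ d : T, w d.1 ^ (g d) := by
        apply Finset.sum_le_sum_of_subset_of_nonneg
        · intro g hg
          obtain ⟨Y, hY, rfl⟩ := Finset.mem_image.1 hg
          rw [Fintype.mem_piFinset]
          intro d
          rw [Finset.mem_range, Nat.lt_succ_iff]
          exact (Multiset.count_le_card _ _).trans
            (Finset.le_sup (f := fun Y : Multiset ℕ => Multiset.card Y) hY)
        · intro g _ _
          exact Finset.prod_nonneg (fun d _ => pow_nonneg (hw0 _) _)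
    _ = ∏ d : T, ∑ j ∈ Finset.range (J + 1), w d.1 ^ j :=
        (Finset.prod_univ_sum (fun _ : T => Finset.range (J + 1)) (fun d j => w d.1 ^ j)).symm
    _ ≤ ∏ d : T, Real.exp (2 * w d.1) := by
        apply Finset.prod_le_prod
        · intro d _
          exact Finset.sum_nonneg (fun j _ => pow_nonneg (hw0 _) _)
        · intro d _
          have h1 := hwh d.1 d.2
          have h0 := hw0 d.1
          have h2 : (∑ j ∈ Finset.range (J + 1), w d.1 ^ j) * (1 - w d.1) ≤ 1 := by
            rw [geom_sum_mul_neg]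
            have : 0 ≤ w d.1 ^ (J + 1) := pow_nonneg h0 _
            linarith
          have h3 : 2 * w d.1 + 1 ≤ Real.exp (2 * w d.1) := Real.add_one_le_exp _
          have h4 : 1 ≤ (2 * w d.1 + 1) * (1 - w d.1) := by nlinarith
          have h5 : (∑ j ∈ Finset.range (J + 1), w d.1 ^ j) ≤ 2 * w d.1 + 1 :=
            le_of_mul_le_mul_right (h2.trans h4) (by linarith)
          linarith
    _ = Real.exp (2 * ∑ d ∈ T, w d) := by
        rw [← Real.exp_sum, Finset.mul_sum, Finset.sum_coe_sort T (fun d => 2 * w d)]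
    _ ≤ _ := by
        apply Real.exp_le_exp.2
        apply mul_le_mul_of_nonneg_left _ (by norm_num)
        exact hs.sum_le_tsum T (fun d _ => hw0 d)

end Pool.Agent.H16
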