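import Mathlib

set_option autoImplicit false

namespace Pool.Agent.H16.EDP

/-- S is bad: some unimodular sequence has bounded sums along d * k, k in S, k ≤ n. -/
def BadSet (S : Set ℕ) : Prop :=
  ∃ a : ℕ → ℂ, (∀ m : ℕ, 1 ≤ m → ‖a m‖ = 1) ∧ ∃ C : ℝ, ∀ d n : ℕ, 1 ≤ d → 1 ≤ n →
    ‖∑ k ∈ Finset.Icc 1 n, S.indicator (fun k => a (d * k)) k‖ ≤ C

end Pool.Agent.H16.EDP
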