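import Mathlib
import Pool.Agent.H16.EDPDefs

set_option autoImplicit false

namespace Pool.Agent.H16.EDP

open Finset

theorem enum_sum (s : ℕ → ℕ) (hs : StrictMono s) (h0 : 1 ≤ s 0) (g : ℕ → ℂ) (n : ℕ) :
    ∃ J : ℕ, ∑ k ∈ Icc 1 n, (Set.range s).indicator g k = ∑ j ∈ range J, g (s j) := by
  classical
  have hex : ∃ j, n < s j := ⟨n + 1, lt_of_lt_of_le (Nat.lt_succ_self n) (hs.id_le (n + 1))⟩
  refine ⟨Nat.find hex, ?_⟩
  rw [← Finset.sum_image (s := range (Nat.find hex)) (g := s) (f := g)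
    (fun a _ b _ h => hs.injective h)]
  symm
  rw [← Finset.sum_subset (s₁ := (range (Nat.find hex)).image s) (s₂ := Icc 1 n)]
  · apply Finset.sum_congr rfl
    intro k hk
    obtain ⟨j, _, rfl⟩ := Finset.mem_image.1 hk
    rw [Set.indicator_of_mem (Set.mem_range_self j)]
  · intro k hk
    obtain ⟨j, hj, rfl⟩ := Finset.mem_image.1 hk
    have h1 := Nat.find_min hex (Finset.mem_range.1 hj)
    have h2 : s 0 ≤ s j := hs.monotone (Nat.zero_le j)
    rw [Finset.mem_Icc]
    omega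
  · intro k hk hk'
    apply Set.indicator_of_notMem
    rintro ⟨j, rfl⟩
    apply hk'
    apply Finset.mem_image_of_mem
    rw [Finset.mem_range]
    by_contra hcon
    push Not at hcon
    have h1 := hs.monotone hcon
    have h2 := Nat.find_spec hex
    have h3 := (Finset.mem_Icc.1 hk).2
    omega

theorem block_bound (u : ℕ → ℂ) (L : ℕ) (hL : 0 < L) (hu : ∀ j, ‖u j‖ ≤ 1)
    (hb : ∀ i, ∑ r ∈ range L, u (L * i + r) = 0) (J : ℕ) : ‖∑ j ∈ range J, u j‖ ≤ L - 1 := by
  have h1 : ∀ i, ∑ j ∈ range (L * i), u j = 0 := by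
    intro i
    induction i with
    | zero => simp
    | succ i ih => rw [Nat.mul_succ, Finset.sum_range_add, ih, hb, add_zero]
  rw [← Nat.div_add_mod J L, Finset.sum_range_add, h1, zero_add]
  refine (norm_sum_le _ _).trans ?_
  refine (Finset.sum_le_card_nsmul _ _ 1 (fun j _ => hu _)).trans ?_
  rw [Finset.card_range, nsmul_eq_mul, mul_one]
  have : J % L + 1 ≤ L := Nat.mod_lt _ hL
  have h2 : ((J % L : ℕ) : ℝ) + 1 ≤ L := by exact_mod_cast this
  linarith

theorem bad_of_mul (s : ℕ → ℕ) (hs : StrictMono s) (h0 : 1 ≤ s 0) (a : ℕ → ℂ)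
    (ha : ∀ m, 1 ≤ m → ‖a m‖ = 1) (hmul : ∀ m n, 1 ≤ m → 1 ≤ n → a (m * n) = a m * a n)
    (C : ℝ) (hC : ∀ J, ‖∑ j ∈ range J, a (s j)‖ ≤ C) : BadSet (Set.range s) := by
  refine ⟨a, ha, C, ?_⟩
  intro d n hd _
  obtain ⟨J, hJ⟩ := enum_sum s hs h0 (fun k => a (d * k)) n
  rw [hJ]
  have : ∑ j ∈ range J, a (d * s j) = a d * ∑ j ∈ range J, a (s j) := by
    rw [Finset.mul_sum]
    apply Finset.sum_congr rfl
    intro j _
    exact hmul _ _ hd (h0.trans (hs.monotone (Nat.zero_le j)))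
  rw [this, norm_mul, ha d hd, one_mul]
  exact hC J

def oddPart (n : ℕ) : ℕ := n / 2 ^ n.factorization 2

theorem oddPart_mul (m n : ℕ) : oddPart (m * n) = oddPart m * oddPart n :=
  Nat.ordCompl_mul m n 2

theorem oddPart_odd (n : ℕ) (h : n % 2 = 1) : oddPart n = n := by
  unfold oddPart
  rw [Nat.factorization_eq_zero_of_not_dvd (by omega)]
  simp

theorem oddPart_two : oddPart 2 = 1 := by
  unfold oddPart
  rw [Nat.Prime.factorization_self Nat.prime_two]
  norm_num

theorem oddPart_two_mul (n : ℕ) : oddPart (2 * n) = oddPart n := by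
  rw [oddPart_mul, oddPart_two, one_mul]

theorem oddPart_mod (n : ℕ) (h : 1 ≤ n) : oddPart n % 2 = 1 := by
  have := Nat.not_dvd_ordCompl Nat.prime_two (show n ≠ 0 by omega)
  unfold oddPart
  omega

noncomputable def F4 (n : ℕ) : ℂ := ((ZMod.χ₄ (oddPart n : ZMod 4) : ℤ) : ℂ)

theorem F4_mul (m n : ℕ) : F4 (m * n) = F4 m * F4 n := by
  unfold F4
  rw [oddPart_mul, Nat.cast_mul, map_mul, Int.cast_mul]

theorem F4_pm (n : ℕ) (h : 1 ≤ n) : F4 n = 1 ∨ F4 n = -1 := by
  unfold F4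
  have := oddPart_mod n h
  rw [ZMod.χ₄_nat_eq_if_mod_four, if_neg (by omega)]
  split_ifs <;> simp

theorem F4_one (n : ℕ) (h : n % 4 = 1) : F4 n = 1 := by
  unfold F4
  rw [oddPart_odd n (by omega), ZMod.χ₄_nat_one_mod_four h]; simp

theorem F4_three (n : ℕ) (h : n % 4 = 3) : F4 n = -1 := by
  unfold F4
  rw [oddPart_odd n (by omega), ZMod.χ₄_nat_three_mod_four h]; simp

theorem F4_norm (n : ℕ) (h : 1 ≤ n) : ‖F4 n‖ = 1 := by
  rcases F4_pm n h with h | h <;> rw [h] <;> simp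

theorem F4_sq (n : ℕ) (h : 1 ≤ n) : F4 n * F4 n = 1 := by
  rcases F4_pm n h with h | h <;> rw [h] <;> simp

theorem F4_sum (J : ℕ) : ‖∑ j ∈ range J, F4 (j + 1) * F4 (j + 2)‖ ≤ 1 := by
  have := block_bound (fun j => F4 (j + 1) * F4 (j + 2)) 2 (by norm_num) (fun j => by
    rw [norm_mul, F4_norm _ (by omega), F4_norm _ (by omega)]; norm_num) (by
    intro i
    simp only [Finset.sum_range_succ, Finset.range_zero, Finset.sum_empty, zero_add, add_zero]
    rcases Nat.mod_two_eq_zero_or_one i with h | h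
    · rw [F4_one (2 * i + 1) (by omega), F4_three (2 * i + 1 + 2) (by omega)]
      ring_nf
    · rw [F4_three (2 * i + 1) (by omega), F4_one (2 * i + 1 + 2) (by omega)]
      ring_nf) J
  norm_num at this
  exact this

theorem corr_bound (d n : ℕ) (hd : 1 ≤ d) :
    ‖∑ k ∈ Icc 1 n, F4 (k * d) * F4 (k * d + d)‖ ≤ 1 := by
  have e : ∑ k ∈ Icc 1 n, F4 (k * d) * F4 (k * d + d) =
      ∑ j ∈ range n, F4 (j + 1) * F4 (j + 2) := by
    rw [Finset.range_eq_Ico, Finset.sum_Ico_add' (fun k => F4 k * F4 (k + 1)) 0 n 1]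
    apply Finset.sum_congr rfl
    intro k _
    rw [show k * d + d = (k + 1) * d by ring, F4_mul, F4_mul]
    have := F4_sq d hd
    linear_combination (F4 k * F4 (k + 1)) * this
  rw [e]
  exact F4_sum n

theorem corr_bound2 (d n : ℕ) (hd : 1 ≤ d) :
    ‖∑ k ∈ Icc 1 n, F4 (d * (k + 1)) * F4 (d * (k + 2))‖ ≤ 2 := by
  have e : ∑ k ∈ Icc 1 n, F4 (d * (k + 1)) * F4 (d * (k + 2)) =
      ∑ j ∈ range (n + 1), F4 (j + 1) * F4 (j + 2) - F4 1 * F4 2 := by
    rw [Finset.sum_range_succ', add_sub_cancel_right, Finset.range_eq_Ico,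
      Finset.sum_Ico_add' (fun k => F4 (k + 1) * F4 (k + 2)) 0 n 1]
    apply Finset.sum_congr rfl
    intro k _
    rw [F4_mul, F4_mul]
    have := F4_sq d hd
    linear_combination (F4 (k + 1) * F4 (k + 2)) * this
  rw [e]
  refine (norm_sub_le _ _).trans ?_
  rw [norm_mul, F4_norm 1 le_rfl, F4_norm 2 (by norm_num)]
  have := F4_sum (n + 1)
  linarith

noncomputable def F8 (n : ℕ) : ℂ := ((ZMod.χ₈' (oddPart n : ZMod 8) : ℤ) : ℂ)

theorem F8_mul (m n : ℕ) : F8 (m * n) = F8 m * F8 n := by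
  unfold F8
  rw [oddPart_mul, Nat.cast_mul, map_mul, Int.cast_mul]

theorem F8_norm (n : ℕ) (h : 1 ≤ n) : ‖F8 n‖ = 1 := by
  unfold F8
  have := oddPart_mod n h
  rw [ZMod.χ₈'_nat_eq_if_mod_eight, if_neg (by omega)]
  split_ifs <;> simp

theorem F8_pos (n : ℕ) (h : n % 8 = 1 ∨ n % 8 = 3) : F8 n = 1 := by
  unfold F8
  rw [oddPart_odd n (by omega), ZMod.χ₈'_nat_eq_if_mod_eight, if_neg (by omega), if_pos h]; simp

theorem F8_neg (n : ℕ) (h : n % 8 = 5 ∨ n % 8 = 7) : F8 n = -1 := by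
  unfold F8
  rw [oddPart_odd n (by omega), ZMod.χ₈'_nat_eq_if_mod_eight, if_neg (by omega),
    if_neg (by omega)]; simp

theorem F8_two (n m : ℕ) (h : n = 2 * m) : F8 n = F8 m := by
  unfold F8
  rw [h, oddPart_two_mul]

theorem bad_sq_sub_one : BadSet {k : ℕ | ∃ n : ℕ, 1 ≤ n ∧ (k : ℤ) = (n : ℤ) ^ 2 - 1 ∧ 1 ≤ k} := by
  have hS : {k : ℕ | ∃ n : ℕ, 1 ≤ n ∧ (k : ℤ) = (n : ℤ) ^ 2 - 1 ∧ 1 ≤ k} =
      Set.range (fun j : ℕ => (j + 1) * (j + 3)) := by
    ext k
    simp only [Set.mem_ofPred_eq, Set.mem_range]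
    constructor
    · rintro ⟨n, h1, h2, h3⟩
      have hn : 2 ≤ n := by
        by_contra hcon
        have : n = 1 := by omega
        subst this
        omega
      obtain ⟨j, rfl⟩ := Nat.exists_eq_add_of_le hn
      refine ⟨j, ?_⟩
      zify
      rw [h2]; push_cast; ring
    · rintro ⟨j, rfl⟩
      refine ⟨j + 2, by omega, by push_cast; ring, Nat.succ_le_of_lt (by positivity)⟩
  rw [hS]
  apply bad_of_mul _ _ (by norm_num) F8 F8_norm (fun m n _ _ => F8_mul m n) 15
  · intro J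
    have := block_bound (fun j => F8 ((j + 1) * (j + 3))) 16 (by norm_num)
      (fun j => (F8_norm _ (Nat.succ_le_of_lt (by positivity))).le) (by
      intro i
      simp only [F8_mul, Finset.sum_range_succ, Finset.range_zero, Finset.sum_empty, zero_add,
        add_assoc, Nat.reduceAdd]
      rw [F8_pos (16 * i + 1) (by omega), F8_pos (16 * i + 3) (by omega),
        F8_neg (16 * i + 5) (by omega), F8_neg (16 * i + 7) (by omega),
        F8_pos (16 * i + 9) (by omega), F8_pos (16 * i + 11) (by omega),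
        F8_neg (16 * i + 13) (by omega), F8_neg (16 * i + 15) (by omega),
        F8_pos (16 * i + 17) (by omega),
        F8_two (16 * i + 2) (8 * i + 1) (by omega), F8_pos (8 * i + 1) (by omega),
        F8_two (16 * i + 6) (8 * i + 3) (by omega), F8_pos (8 * i + 3) (by omega),
        F8_two (16 * i + 10) (8 * i + 5) (by omega), F8_neg (8 * i + 5) (by omega),
        F8_two (16 * i + 14) (8 * i + 7) (by omega), F8_neg (8 * i + 7) (by omega),
        F8_two (16 * i + 18) (8 * i + 9) (by omega), F8_pos (8 * i + 9) (by omega),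
        F8_two (16 * i + 4) (8 * i + 2) (by omega), F8_two (8 * i + 2) (4 * i + 1) (by omega),
        F8_two (16 * i + 12) (8 * i + 6) (by omega), F8_two (8 * i + 6) (4 * i + 3) (by omega)]
      rcases Nat.mod_two_eq_zero_or_one i with h | h
      · rw [F8_pos (4 * i + 1) (by omega), F8_pos (4 * i + 3) (by omega)]; ring
      · rw [F8_neg (4 * i + 1) (by omega), F8_neg (4 * i + 3) (by omega)]; ring) J
    norm_num at this
    exact this
  · apply strictMono_nat_of_lt_succ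
    intro j
    nlinarith

theorem bad_sq_add_one : BadSet {k : ℕ | ∃ n : ℕ, 1 ≤ n ∧ k = n ^ 2 + 1} := by
  have hS : {k : ℕ | ∃ n : ℕ, 1 ≤ n ∧ k = n ^ 2 + 1} =
      Set.range (fun j : ℕ => (j + 1) ^ 2 + 1) := by
    ext k
    simp only [Set.mem_ofPred_eq, Set.mem_range]
    constructor
    · rintro ⟨n, h1, rfl⟩
      exact ⟨n - 1, by rw [Nat.sub_add_cancel h1]⟩
    · rintro ⟨j, rfl⟩
      exact ⟨j + 1, by omega, rfl⟩
  rw [hS]
  have hmul : ∀ m n : ℕ, 1 ≤ m → 1 ≤ n → (-1 : ℂ) ^ (m * n).factorization 2 =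
      (-1 : ℂ) ^ m.factorization 2 * (-1 : ℂ) ^ n.factorization 2 := by
    intro m n hm hn
    rw [Nat.factorization_mul (by omega) (by omega), Finsupp.add_apply, pow_add]
  have hodd : ∀ m : ℕ, m % 2 = 1 → (-1 : ℂ) ^ m.factorization 2 = 1 := by
    intro m hm
    rw [Nat.factorization_eq_zero_of_not_dvd (by omega), pow_zero]
  apply bad_of_mul _ _ (by norm_num) (fun m => (-1 : ℂ) ^ m.factorization 2) (by simp) hmul 1
  · intro J
    have := block_bound (fun j => (-1 : ℂ) ^ ((j + 1) ^ 2 + 1).factorization 2) 2 (by norm_num)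
      (by simp) (by
      intro i
      simp only [Finset.sum_range_succ, Finset.range_zero, Finset.sum_empty, zero_add, add_zero]
      rw [show (2 * i + 1) ^ 2 + 1 = 2 * (2 * (i * i + i) + 1) by ring,
        show (2 * i + 1 + 1) ^ 2 + 1 = 2 * (2 * (i + 1) ^ 2) + 1 by ring,
        hmul _ _ (by norm_num) (by omega), hodd (2 * (i * i + i) + 1) (by omega),
        hodd (2 * (2 * (i + 1) ^ 2) + 1) (by omega),
        Nat.Prime.factorization_self Nat.prime_two]
      ring) J
    norm_num at this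
    exact this
  · apply strictMono_nat_of_lt_succ
    intro j
    have : (j + 1 + 1) ^ 2 = (j + 1) ^ 2 + 2 * j + 3 := by ring
    omega

theorem bad_two_pow_add_one : BadSet {k : ℕ | ∃ n : ℕ, 1 ≤ n ∧ k = 2 ^ n + 1} := by
  have hS : {k : ℕ | ∃ n : ℕ, 1 ≤ n ∧ k = 2 ^ n + 1} =
      Set.range (fun j : ℕ => 2 ^ (j + 1) + 1) := by
    ext k
    simp only [Set.mem_ofPred_eq, Set.mem_range]
    constructor
    · rintro ⟨n, h1, rfl⟩
      exact ⟨n - 1, by rw [Nat.sub_add_cancel h1]⟩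
    · rintro ⟨j, rfl⟩
      exact ⟨j + 1, by omega, rfl⟩
  rw [hS]
  set t : ℝ := Real.pi / Real.log 2 with ht
  have hl2 : 0 < Real.log 2 := Real.log_pos (by norm_num)
  have ht0 : 0 < t := div_pos Real.pi_pos hl2
  apply bad_of_mul _ _ (by norm_num)
    (fun m => Complex.exp (Complex.I * ((t * Real.log m : ℝ) : ℂ)))
    (fun m _ => by rw [mul_comm]; exact Complex.norm_exp_ofReal_mul_I _) _ (1 + 2 * t)
  · intro J
    have hterm : ∀ j : ℕ, ‖Complex.exp (Complex.I * ((t * Real.log ((2 ^ (j + 1) + 1 : ℕ) : ℝ) : ℝ) : ℂ))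
        - (-1) ^ (j + 1)‖ ≤ t * (1 / 2) ^ j := by
      intro j
      set x : ℝ := (1 / 2) ^ (j + 1) with hx
      have hx0 : 0 < x := by positivity
      have e1 : ((2 ^ (j + 1) + 1 : ℕ) : ℝ) = 2 ^ (j + 1) * (1 + x) := by
        push_cast
        rw [hx, mul_add, mul_one, ← mul_pow]; norm_num
      have e2 : t * Real.log ((2 ^ (j + 1) + 1 : ℕ) : ℝ) =
          ((j + 1 : ℕ) : ℝ) * Real.pi + t * Real.log (1 + x) := by
        rw [e1, Real.log_mul (by positivity) (by positivity), Real.log_pow, ht]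
        field_simp
      have e3 : Complex.exp (Complex.I * ((t * Real.log ((2 ^ (j + 1) + 1 : ℕ) : ℝ) : ℝ) : ℂ)) =
          (-1) ^ (j + 1) * Complex.exp (Complex.I * ((t * Real.log (1 + x) : ℝ) : ℂ)) := by
        rw [e2, Complex.ofReal_add, mul_add, Complex.exp_add, ← Complex.exp_pi_mul_I,
          ← Complex.exp_nat_mul]
        congr 2
        push_cast
        ring
      rw [e3, ← mul_sub_one, norm_mul, norm_pow, norm_neg, norm_one, one_pow, one_mul]
      refine (Real.norm_exp_I_mul_ofReal_sub_one_le).trans ?_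
      have h1 : 0 ≤ Real.log (1 + x) := Real.log_nonneg (by linarith)
      have h2 : Real.log (1 + x) ≤ x := by
        have := Real.log_le_sub_one_of_pos (show 0 < 1 + x by linarith)
        linarith
      rw [Real.norm_eq_abs, abs_of_nonneg (mul_nonneg ht0.le h1)]
      apply mul_le_mul_of_nonneg_left _ ht0.le
      have h3 : x ≤ (1 / 2) ^ j := by
        rw [hx, pow_succ]
        have : (0 : ℝ) < (1 / 2) ^ j := by positivity
        linarith
      linarith
    have h1 : ‖∑ j ∈ range J, (-1 : ℂ) ^ (j + 1)‖ ≤ 1 := by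
      have := block_bound (fun j => (-1 : ℂ) ^ (j + 1)) 2 (by norm_num) (by simp) (by
        intro i
        simp only [Finset.sum_range_succ, Finset.range_zero, Finset.sum_empty, zero_add, add_zero]
        ring) J
      norm_num at this
      exact this
    have h2 : ‖∑ j ∈ range J, (Complex.exp (Complex.I *
        ((t * Real.log ((2 ^ (j + 1) + 1 : ℕ) : ℝ) : ℝ) : ℂ)) - (-1) ^ (j + 1))‖ ≤ 2 * t := by
      refine (norm_sum_le _ _).trans ((Finset.sum_le_sum (fun j _ => hterm j)).trans ?_)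
      rw [← Finset.mul_sum]
      have := sum_geometric_two_le J
      nlinarith
    rw [Finset.sum_sub_distrib] at h2
    have h3 := norm_add_le (∑ j ∈ range J, (-1 : ℂ) ^ (j + 1)) (∑ j ∈ range J,
      Complex.exp (Complex.I * ((t * Real.log ((2 ^ (j + 1) + 1 : ℕ) : ℝ) : ℝ) : ℂ)) -
      ∑ j ∈ range J, (-1 : ℂ) ^ (j + 1))
    rw [add_sub_cancel] at h3
    linarith
  · apply strictMono_nat_of_lt_succ
    intro j
    have : 2 ^ (j + 1) < 2 ^ (j + 1 + 1) := Nat.pow_lt_pow_right (by norm_num) (by omega)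
    omega
  · intro m n hm hn
    have hm' : (m : ℝ) ≠ 0 := by positivity
    have hn' : (n : ℝ) ≠ 0 := by positivity
    rw [Nat.cast_mul, Real.log_mul hm' hn', ← Complex.exp_add]
    congr 1
    push_cast
    ring

end Pool.Agent.H16.EDP
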