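import Mathlib

set_option autoImplicit false

namespace Pool.Agent.H16.FinIdx

variable {T : Type} {G : ContextFreeGrammar T}

/-- Derivation forests whose nonterminal nodes carry levels, the children of a node having distinct levels bounded
by the level of the node. -/
inductive Dl (G : ContextFreeGrammar T) : List (Symbol T G.NT) → List T → List ℕ → Prop
  | nil : Dl G [] [] []
  | t (a : T) {s : List (Symbol T G.NT)} {w : List T} {l : List ℕ} : Dl G s w l → Dl G (.terminal a :: s) (a :: w) l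
  | n {r : ContextFreeRule T G.NT} {s : List (Symbol T G.NT)} {u w : List T} {l l' : List ℕ} (j : ℕ) : r ∈ G.rules →
      Dl G r.output u l' → l'.Nodup → (∀ i ∈ l', i ≤ j) → Dl G s w l →
      Dl G (.nonterminal r.input :: s) (u ++ w) (j :: l)

def isN {N : Type} : Symbol T N → Bool
  | .terminal _ => false
  | .nonterminal _ => true

theorem Dl.len {s : List (Symbol T G.NT)} {w : List T} {l : List ℕ} (h : Dl G s w l) : l.length = s.countP isN := by
  induction h <;> simp_all [isN]

theorem Dl.app {s s' : List (Symbol T G.NT)} {w w' : List T} {l l' : List ℕ} (h : Dl G s w l) (h' : Dl G s' w' l') :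
    Dl G (s ++ s') (w ++ w') (l ++ l') := by
  induction h with
  | nil => exact h'
  | t a _ ih => exact ih.t a
  | n j h1 h2 h3 h4 _ _ ih => exact List.append_assoc _ _ _ ▸ .n j h1 h2 h3 h4 ih

theorem Dl.split {s s' : List (Symbol T G.NT)} {w : List T} {l : List ℕ} (h : Dl G (s ++ s') w l) :
    ∃ u v l1 l2, w = u ++ v ∧ l = l1 ++ l2 ∧ Dl G s u l1 ∧ Dl G s' v l2 := by
  induction s generalizing w l with
  | nil => exact ⟨[], w, [], l, rfl, rfl, .nil, h⟩
  | cons x s ih =>
    generalize e : x :: s ++ s' = z at h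
    cases h with
    | nil => simp at e
    | t a h =>
      obtain ⟨rfl, rfl⟩ := List.cons.inj e
      obtain ⟨u, v, l1, l2, rfl, rfl, h1, h2⟩ := ih h
      exact ⟨a :: u, v, l1, l2, rfl, rfl, h1.t a, h2⟩
    | n j h0 h' a b h =>
      obtain ⟨rfl, rfl⟩ := List.cons.inj e
      obtain ⟨u, v, l1, l2, rfl, rfl, h1, h2⟩ := ih h
      exact ⟨_, v, j :: l1, l2, (List.append_assoc ..).symm, rfl, .n j h0 h' a b h1, h2⟩

theorem Dl.der {s : List (Symbol T G.NT)} {w : List T} {l : List ℕ} (h : Dl G s w l) :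
    G.Derives s (w.map .terminal) := by
  induction h with
  | nil => rfl
  | t a _ ih => exact ih.append_left [_]
  | @n r s u w l l' j h1 _ _ _ _ i1 i2 =>
    refine ContextFreeGrammar.Produces.trans_derives ⟨r, h1, .head _⟩ ?_
    rw [List.map_append]
    exact (i1.append_right _).trans (i2.append_left _)

theorem ncard_eq {N : Type} (v : List (Symbol T N)) :
    {i : Fin v.length | ∃ n : N, v.get i = Symbol.nonterminal n}.ncard = v.countP isN := by
  have : {i : Fin v.length | ∃ n : N, v.get i = Symbol.nonterminal n} =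
      (Finset.univ.filter fun i : Fin v.length => isN (v.get i)) := by
    ext i
    rcases e : v.get i with a | a <;> simp_all [isN]
  rw [this, Set.ncard_coe_finset, Finset.card_filter]
  simp only [List.get_eq_getElem]
  rw [Fin.sum_univ_fun_getElem v fun x => if isN x then 1 else 0]
  clear this
  induction v with
  | nil => rfl
  | cons x v ih => simp only [List.map_cons, List.sum_cons, List.countP_cons, ih]; omega

theorem lev (k : ℕ) {s : List (Symbol T G.NT)} {w : List T} (h : Relation.ReflTransGen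
    (fun u v : List (Symbol T G.NT) => G.Produces u v ∧ v.countP isN ≤ k) s (w.map .terminal))
    (hs : s.countP isN ≤ k + 1) : ∃ l, Dl G s w l ∧ l.Nodup ∧ ∀ j ∈ l, j ≤ k := by
  induction h using Relation.ReflTransGen.head_induction_on with
  | refl =>
    refine ⟨[], ?_, by simp, by simp⟩
    clear hs
    induction w with
    | nil => exact .nil
    | cons a w ih => exact ih.t a
  | head e _ ih =>
    obtain ⟨⟨r, hr, e⟩, hk⟩ := e
    obtain ⟨p, q, rfl, rfl⟩ := e.exists_parts
    obtain ⟨l, h, hn, hl⟩ := ih (by omega)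
    obtain ⟨_, v, _, l3, rfl, rfl, h12, h3⟩ := h.split
    obtain ⟨u, u', l1, l2, rfl, rfl, h1, h2⟩ := h12.split
    have : ∃ j ≤ k, j ∉ l1 ++ l3 ∧ ∀ i ∈ l2, i ≤ j := by
      by_cases h0 : l2 = []
      · subst h0
        by_contra hc
        push Not at hc
        have : Finset.range (k + 1) ⊆ (l1 ++ l3).toFinset := fun j hj => by
          by_contra h
          obtain ⟨i, hi, -⟩ := hc j (by simpa [Nat.lt_succ_iff] using hj) (by simpa using h)
          simp at hi
        have := (Finset.card_le_card this).trans (List.toFinset_card_le _)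
        have a := h1.len
        have b := h3.len
        simp [isN] at hs this
        omega
      · obtain ⟨j, hj, hm⟩ := l2.toFinset.exists_max_image id (by simpa using h0)
        refine ⟨j, hl j (by simp_all), ?_, by simpa using hm⟩
        simp only [List.mem_toFinset] at hj
        simp only [List.nodup_append, List.mem_append] at hn ⊢
        rintro (h | h)
        · exact hn.1.2.2 _ h _ hj rfl
        · exact hn.2.2 _ (.inr hj) _ h rfl
    obtain ⟨j, hj, hj', hm⟩ := this
    refine ⟨l1 ++ (j :: l3), ?_, ?_, ?_⟩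
    · simpa using h1.app (.n j hr h2 (hn.sublist (by simp)) hm h3)
    · rw [List.nodup_middle, List.nodup_cons]
      exact ⟨hj', hn.sublist (by simp)⟩
    · intro i hi
      simp only [List.mem_append, List.mem_cons] at hi hl
      grind

/-- Reading `w` from height `h` to height `h'`, all heights at most `n`, the letter `2` only at height `n`. -/
def good (n : ℕ) : ℕ → List (Fin 3) → ℕ → Prop
  | h, [], h' => h = h' ∧ h ≤ n
  | h, c :: w, h' => h ≤ n ∧ ∃ g, good n g w h' ∧ (c = 0 → g = h + 1) ∧ (c = 1 → h = g + 1) ∧ (c = 2 → h = n ∧ g = n)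

theorem good.le {n h h' : ℕ} {w : List (Fin 3)} (e : good n h w h') : h ≤ n ∧ h' ≤ n := by
  induction w generalizing h with
  | nil => exact ⟨e.2, e.1 ▸ e.2⟩
  | cons c w ih => exact ⟨e.1, let ⟨_, a, _⟩ := e.2; (ih a).2⟩

theorem good_app {n h h' : ℕ} {u v : List (Fin 3)} : good n h (u ++ v) h' ↔ ∃ m, good n h u m ∧ good n m v h' := by
  induction u generalizing h with
  | nil => exact ⟨fun e => ⟨h, ⟨rfl, e.le.1⟩, e⟩, fun ⟨m, a, b⟩ => a.1 ▸ b⟩
  | cons c u ih =>
    simp only [List.cons_append, good, ih]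
    exact ⟨fun ⟨a, g, ⟨m, b, c⟩, d⟩ => ⟨m, ⟨a, g, b, d⟩, c⟩, fun ⟨m, ⟨a, g, b, d⟩, c⟩ => ⟨a, g, ⟨m, b, c⟩, d⟩⟩

section
variable {G : ContextFreeGrammar (Fin 3)} {n : ℕ}

def Ctx (G : ContextFreeGrammar (Fin 3)) (n : ℕ) (s : List (Symbol (Fin 3) G.NT)) (h1 h2 : ℕ) : Prop :=
  ∃ u v h', good n 0 u h1 ∧ good n h2 v h' ∧ G.Derives [.nonterminal G.initial] (u.map .terminal ++ s ++ v.map .terminal)

def Node (G : ContextFreeGrammar (Fin 3)) (n : ℕ) (κ : G.NT × ℕ × ℕ) (z : List (Fin 3)) : Prop :=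
  G.Derives [.nonterminal κ.1] (z.map .terminal) ∧ good n κ.2.1 z κ.2.2 ∧ Ctx G n [.nonterminal κ.1] κ.2.1 κ.2.2

open Classical in
noncomputable def cnt (G : ContextFreeGrammar (Fin 3)) (n : ℕ) (κ : G.NT × ℕ × ℕ) : ℕ :=
  if h : ∃ z, Node G n κ z then h.choose.count 2 else 0

open Classical in
noncomputable def cls (G : ContextFreeGrammar (Fin 3)) (n : ℕ) : Finset (G.NT × ℕ × ℕ) :=
  G.rules.image (·.input) ×ˢ Finset.range (n + 1) ×ˢ Finset.range (n + 1)

noncomputable def rk (G : ContextFreeGrammar (Fin 3)) (n c : ℕ) : ℕ := ((cls G n).filter fun κ => cnt G n κ ≤ c).card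

theorem rk_le (c : ℕ) : rk G n c ≤ G.rules.card * (n + 1) ^ 2 := by
  classical
  refine (Finset.card_filter_le _ _).trans ?_
  simp only [cls, Finset.card_product, Finset.card_range, sq]
  exact Nat.mul_le_mul_right _ (by convert Finset.card_image_le)

variable (K : ∀ w ∈ G.language, ∀ h', good n 0 w h' → w.count 2 = 2 ^ n)
include K

theorem cnt_eq {κ : G.NT × ℕ × ℕ} {z : List (Fin 3)} (h : Node G n κ z) : cnt G n κ = z.count 2 := by
  have h' : ∃ z, Node G n κ z := ⟨z, h⟩
  obtain ⟨u, v, h0, a, b, c⟩ := h.2.2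
  have : ∀ y, Node G n κ y → (u ++ y ++ v).count 2 = 2 ^ n := fun y hy =>
    K _ (by
      rw [ContextFreeGrammar.mem_language_iff, List.map_append, List.map_append]
      exact c.trans ((hy.1.append_left _).append_right _)) h0
      (good_app.2 ⟨_, good_app.2 ⟨_, a, hy.2.1⟩, b⟩)
  have e1 := this _ h
  have e2 := this _ h'.choose_spec
  simp only [List.count_append] at e1 e2
  rw [cnt, dif_pos h']
  omega

theorem bound (c : ℕ) (hc : ∀ r ∈ G.rules, r.output.length ≤ c) (F : ℕ → ℕ) (hF : Monotone F)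
    (hF' : ∀ j, c * (1 + F j) * (G.rules.card * (n + 1) ^ 2) ≤ F (j + 1))
    {s : List (Symbol (Fin 3) G.NT)} {z : List (Fin 3)} {l : List ℕ} (h : Dl G s z l) :
    ∀ h1 h2, good n h1 z h2 → Ctx G n s h1 h2 → ∀ j, (∀ i ∈ l, i ≤ j) → l.Nodup →
      ∃ c' ≤ z.count 2, c' ≤ c * (1 + F j) * rk G n c' ∧ z.count 2 ≤ s.length * (1 + F j) + c' ∧ (j ∉ l → c' = 0) := by
  induction h with
  | nil => exact fun _ _ _ _ _ _ _ => ⟨0, by simp⟩
  | @t a s w l _ ih =>
    rintro h1 h2 hg ⟨u, v, h', a1, a2, a3⟩ j hj hn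
    obtain ⟨m, b1, b2⟩ := (good_app (u := [a])).1 hg
    obtain ⟨c', c1, c2, c3, c4⟩ := ih m h2 b2 ⟨u ++ [a], v, h', good_app.2 ⟨_, a1, b1⟩, a2, by simpa using a3⟩ j hj hn
    refine ⟨c', c1.trans (List.count_le_count_cons ..), c2, ?_, c4⟩
    have : (a :: w).count 2 ≤ w.count 2 + 1 := by rw [List.count_cons]; split_ifs <;> omega
    simp only [List.length_cons]
    nlinarith
  | @n r s y w l l' i hr d1 n1 n2 d2 i1 i2 =>
    rintro h1 h2 hg ⟨u, v, h', a1, a2, a3⟩ j hj hn
    obtain ⟨m, b1, b2⟩ := good_app.1 hg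
    have p : G.Produces [.nonterminal r.input] r.output := ⟨r, hr, by simpa using ContextFreeRule.Rewrites.head []⟩
    have dA := p.trans_derives d1.der
    have cA : G.Derives [.nonterminal G.initial] (u.map .terminal ++ [.nonterminal r.input] ++ (w ++ v).map .terminal) :=
      a3.trans (by
        have := ((d2.der.append_right (v.map .terminal)).append_left [.nonterminal r.input]).append_left (u.map .terminal)
        rw [List.map_append, List.append_assoc, List.append_assoc]
        exact this)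
    have gv := good_app.2 ⟨_, b2, a2⟩
    obtain ⟨c1, p1, p2, p3, -⟩ := i1 h1 m b1 ⟨u, w ++ v, h', a1, gv,
      cA.trans ((p.single.append_left _).append_right _)⟩ i n2 n1
    obtain ⟨c2, q1, q2, q3, q4⟩ := i2 m h2 b2 ⟨u ++ y, v, h', good_app.2 ⟨_, a1, b1⟩, a2, a3.trans (by
      simpa using (dA.append_left (u.map .terminal)).append_right (s ++ v.map .terminal))⟩ j
      (fun i hi => hj i (.tail _ hi)) hn.of_cons
    have e := cnt_eq K (κ := (r.input, h1, m)) ⟨dA, b1, u, w ++ v, h', a1, gv, cA⟩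
    have key : y.count 2 ≤ c * (1 + F i) * rk G n (y.count 2) := by
      rcases p1.eq_or_lt with h | h
      · exact h ▸ p2
      have : rk G n c1 < rk G n (y.count 2) := by
        refine Finset.card_lt_card ⟨fun κ hκ => ?_, fun hs => ?_⟩
        · simp only [Finset.mem_filter] at hκ ⊢
          exact ⟨hκ.1, hκ.2.trans p1⟩
        · have := hs (x := (r.input, h1, m)) (by
            simp only [Finset.mem_filter, cls, Finset.mem_product, Finset.mem_image, Finset.mem_range]
            exact ⟨⟨⟨r, hr, rfl⟩, Nat.lt_succ_of_le b1.le.1, Nat.lt_succ_of_le b1.le.2⟩, e.le⟩)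
          simp only [Finset.mem_filter] at this
          omega
      have := Nat.mul_le_mul_left (c * (1 + F i)) this
      have := Nat.mul_le_mul_right (1 + F i) (hc r hr)
      nlinarith
    simp only [List.count_append, List.length_cons, List.mem_cons, not_or]
    rcases (hj i (.head _)).eq_or_lt with rfl | hlt
    · obtain rfl := q4 (List.nodup_cons.1 hn).1
      exact ⟨_, by omega, key, by nlinarith, fun h => absurd rfl h.1⟩
    · have := key.trans ((Nat.mul_le_mul_left _ (rk_le _)).trans ((hF' i).trans (hF hlt)))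
      exact ⟨c2, by omega, q2, by nlinarith, fun h => q4 h.2⟩

end

theorem asym (C d : ℕ) : ∃ n, C * (n + 1) ^ d < 2 ^ n := by
  have h := (tendsto_pow_const_div_const_pow_of_one_lt d (show (1 : ℝ) < 2 by norm_num)).eventually
    (gt_mem_nhds (show (0 : ℝ) < 1 / (2 * C + 1) by positivity))
  obtain ⟨n, hn⟩ := Filter.eventually_atTop.1 h
  refine ⟨n, ?_⟩
  have := hn (n + 1) (by omega)
  rw [div_lt_div_iff₀ (by positivity) (by positivity), pow_succ] at this
  have h2 : (0 : ℝ) ≤ ((n + 1 : ℕ) : ℝ) ^ d := by positivity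
  have : (C : ℝ) * ((n + 1 : ℕ) : ℝ) ^ d < 2 ^ n := by nlinarith
  exact_mod_cast this

theorem noidx (G : ContextFreeGrammar (Fin 3)) (k : ℕ) (t : ℕ → List (Fin 3)) (ht : ∀ n, good n 0 (t n) 0)
    (K : ∀ n, ∀ w ∈ G.language, ∀ h', good n 0 w h' → w.count 2 = 2 ^ n)
    (h : ∀ n, Relation.ReflTransGen (fun u v : List (Symbol (Fin 3) G.NT) => G.Produces u v ∧ v.countP isN ≤ k)
      [.nonterminal G.initial] ((t n).map .terminal)) : False := by
  obtain ⟨c, hc⟩ : ∃ c, ∀ r ∈ G.rules, r.output.length ≤ c :=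
    ⟨G.rules.sup fun r => r.output.length, fun r hr => Finset.le_sup (f := fun r => r.output.length) hr⟩
  obtain ⟨n, hn⟩ := asym (3 * (2 * c * G.rules.card + 1) ^ (k + 1)) (2 * (k + 1))
  obtain ⟨l, h1, h2, h3⟩ := lev k (h n) (by simp [isN])
  set B := (2 * c * G.rules.card + 1) * (n + 1) ^ 2 with hB
  have B1 : 1 ≤ B := Nat.mul_pos (by omega) (by positivity)
  have hF : ∀ j, c * (1 + B ^ j) * (G.rules.card * (n + 1) ^ 2) ≤ B ^ (j + 1) := fun j => by
    have : 1 + B ^ j ≤ 2 * B ^ j := by have := Nat.one_le_pow j B B1; omega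
    calc _ ≤ c * (2 * B ^ j) * (G.rules.card * (n + 1) ^ 2) := by gcongr
      _ = B ^ j * ((2 * c * G.rules.card) * (n + 1) ^ 2) := by ring
      _ ≤ _ := by rw [pow_succ B, hB]; gcongr; omega
  obtain ⟨c', -, c2, c3, -⟩ := bound (K n) c hc (B ^ ·) (fun _ _ => Nat.pow_le_pow_right B1) hF h1 0 0 (ht n)
    ⟨[], [], 0, ⟨rfl, by omega⟩, ⟨rfl, by omega⟩, by simp; rfl⟩ k h3 h2
  rw [K n _ h1.der _ (ht n)] at c3
  have := c2.trans ((Nat.mul_le_mul_left _ (rk_le _)).trans (hF k))
  have := Nat.pow_le_pow_right B1 (Nat.le_add_right k 1)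
  have := Nat.one_le_pow (k + 1) B B1
  have : B ^ (k + 1) = (2 * c * G.rules.card + 1) ^ (k + 1) * (n + 1) ^ (2 * (k + 1)) := by
    rw [hB, mul_pow, ← pow_mul]
  simp only [List.length_singleton] at c3
  rw [mul_assoc] at hn
  omega

end Pool.Agent.H16.FinIdx
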