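import Pool.Agent.H16.CFG2
import Pool.Agent.H16.FinIdx

set_option autoImplicit false

namespace Pool.Agent.H16.EDTCF
open Pool.Agent.H16.CFG2 Pool.Agent.H16.FinIdx List

section
variable {T N : Type} [DecidableEq T] [DecidableEq N]

def tb (r : N × List (T ⊕ N)) (v : T ⊕ N) : List (T ⊕ N) := if v = .inr r.1 then r.2 else [v]

def run (sq : List (T ⊕ N → List (T ⊕ N))) (z : List (T ⊕ N)) : List (T ⊕ N) := sq.foldl (fun u h => u.flatMap h) z

omit [DecidableEq T] [DecidableEq N] in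
theorem run_eq (sq : List (T ⊕ N → List (T ⊕ N))) (z : List (T ⊕ N)) : run sq z = z.flatMap fun v => run sq [v] := by
  induction sq generalizing z with
  | nil => simp [run]
  | cons h sq ih =>
    show run sq (z.flatMap h) = z.flatMap fun v => run sq ([v].flatMap h)
    rw [ih, flatMap_assoc]
    simp only [flatMap_singleton, ← ih]

variable {R : List (N × List (T ⊕ N))}

theorem run_gn (sq : List (T ⊕ N → List (T ⊕ N))) (hs : ∀ h ∈ sq, h ∈ R.map tb) (z : List (T ⊕ N)) (w : List T)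
    (e : run sq z = w.map .inl) : Gn R z w := by
  induction sq generalizing z with
  | nil =>
    obtain rfl : z = w.map .inl := e
    induction w with
    | nil => exact .nil
    | cons a w ih => exact ih.t a
  | cons h sq ih =>
    obtain ⟨r, hr, rfl⟩ := mem_map.1 (hs h (.head _))
    have := ih (fun h hh => hs h (.tail _ hh)) (z.flatMap (tb r)) e
    clear e ih
    induction z generalizing w with
    | nil => exact this
    | cons v z ih =>
      obtain ⟨a, b, rfl, h1, h2⟩ := (flatMap_cons ▸ this).split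
      refine Gn.app (s := [v]) ?_ (ih _ h2)
      unfold tb at h1
      split_ifs at h1 with hv
      exacts [hv ▸ .one hr h1, h1]

def Env (R : List (N × List (T ⊕ N))) (σ : N → List (T ⊕ N)) : Prop :=
  ∃ sq, (∀ h ∈ sq, h ∈ R.map tb) ∧ (∀ a, run sq [.inl a] = [.inl a]) ∧ ∀ A, run sq [.inr A] = σ A

theorem env0 : Env R fun A => [.inr A] := ⟨[], by simp, fun _ => rfl, fun _ => rfl⟩

def ex (σ : N → List (T ⊕ N)) : T ⊕ N → List (T ⊕ N)
  | .inl a => [.inl a]
  | .inr A => σ A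

theorem Env.step {σ : N → List (T ⊕ N)} (h : Env R σ) {A : N} {o : List (T ⊕ N)} (hr : (A, o) ∈ R) :
    Env R (Function.update σ A (o.flatMap (ex σ))) := by
  obtain ⟨sq, h1, h2, h3⟩ := h
  refine ⟨tb (A, o) :: sq, forall_mem_cons.2 ⟨mem_map_of_mem hr, h1⟩, fun a => ?_, fun B => ?_⟩
  · show run sq ([Sum.inl a].flatMap _) = _
    simp [tb, h2]
  · show run sq ([Sum.inr B].flatMap _) = _
    by_cases e : B = A
    · subst e
      simp only [flatMap_singleton, tb, if_true, Function.update_self]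
      rw [run_eq]
      congr 1
      funext v
      rcases v with a | a <;> simp [h2, h3, ex]
    · simp [tb, e, h3]

theorem Env.word {σ : N → List (T ⊕ N)} (h : Env R σ) {A : N} (h0 : (A, []) ∈ R) (u : List T)
    (hu : ∀ c ∈ u, (A, [.inl c, .inr A]) ∈ R) : Env R (Function.update σ A (u.map .inl)) := by
  induction u with
  | nil => exact h.step h0
  | cons c u ih => simpa [ex] using (ih fun c hc => hu c (.tail _ hc)).step (hu c (.head _))

end

def R : List (Fin 7 × List (Fin 3 ⊕ Fin 7)) :=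
  [(0, [.inr 1]), (0, [.inr 2, .inl 2, .inr 4, .inl 2, .inr 3]), (1, [.inl 2]), (1, [.inl 0, .inr 1, .inr 1, .inl 1]),
   (2, []), (2, [.inl 0, .inr 2]), (2, [.inl 1, .inr 2]), (2, [.inl 2, .inr 2]),
   (3, []), (3, [.inl 0, .inr 3]), (3, [.inl 1, .inr 3]), (3, [.inl 2, .inr 3]),
   (4, [.inl 1, .inr 4, .inl 0]), (4, [.inl 1, .inr 5]), (4, [.inl 0, .inr 6]),
   (5, []), (5, [.inl 1, .inr 5]), (6, []), (6, [.inl 0, .inr 6])]

def t : ℕ → List (Fin 3)
  | 0 => [2]
  | n + 1 => 0 :: (t n ++ t n ++ [1])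

def Y (w : List (Fin 3)) : Prop := ∃ i j, i ≠ j ∧ w = replicate i 1 ++ replicate j 0
def E (w : List (Fin 3)) : Prop := ∃ u v y, Y y ∧ w = u ++ 2 :: (y ++ 2 :: v)
def L (w : List (Fin 3)) : Prop := (∃ m, w = t m) ∨ E w

theorem E.ext {w : List (Fin 3)} (h : E w) (p q : List (Fin 3)) : E (p ++ w ++ q) :=
  let ⟨u, v, y, a, b⟩ := h; ⟨p ++ u, v ++ q, y, a, by simp [b]⟩

theorem t_l (m : ℕ) : ∃ v, t m = replicate m 0 ++ 2 :: v := by
  induction m with
  | zero => exact ⟨[], rfl⟩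
  | succ m ih => obtain ⟨v, e⟩ := ih; exact ⟨v ++ t m ++ [1], by rw [t]; nth_rw 1 [e]; simp [replicate_succ]⟩

theorem t_r (m : ℕ) : ∃ u, t m = u ++ 2 :: replicate m 1 := by
  induction m with
  | zero => exact ⟨[], rfl⟩
  | succ m ih => obtain ⟨v, e⟩ := ih; exact ⟨0 :: (t m ++ v), by rw [t]; nth_rw 2 [e]; simp [replicate_succ']⟩

def P : Fin 7 → List (Fin 3) → Prop :=
  ![L, L, fun _ => True, fun _ => True, Y, fun w => ∃ i, w = replicate i 1, fun w => ∃ i, w = replicate i 0]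

theorem hP : ∀ r ∈ R, ∀ w, Sem P r.2 w → P r.1 w := by
  simp only [R, forall_mem_cons, not_mem_nil, IsEmpty.forall_iff, implies_true, and_true, Sem]
  refine ⟨?_, ?_, ?_, ?_, fun _ _ => trivial, fun _ _ => trivial, fun _ _ => trivial, fun _ _ => trivial,
    fun _ _ => trivial, fun _ _ => trivial, fun _ _ => trivial, fun _ _ => trivial, ?_, ?_, ?_, ?_, ?_, ?_, ?_⟩
  · rintro _ ⟨u, _, rfl, h, rfl⟩; rw [append_nil]; exact h
  · rintro _ ⟨u, _, rfl, -, _, rfl, y, _, rfl, h, _, rfl, v, _, rfl, -, rfl⟩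
    exact .inr ⟨u, _, y, h, rfl⟩
  · rintro _ ⟨_, rfl, rfl⟩; exact .inl ⟨0, rfl⟩
  · rintro _ ⟨_, rfl, u, _, rfl, hu, v, _, rfl, hv, _, rfl, rfl⟩
    rcases hu with ⟨i, rfl⟩ | hu
    · rcases hv with ⟨j, rfl⟩ | hv
      · by_cases e : i = j
        · exact .inl ⟨i + 1, by simp [t, e]⟩
        · obtain ⟨u, e1⟩ := t_r i
          obtain ⟨v, e2⟩ := t_l j
          exact .inr ⟨0 :: u, v ++ [1], _, ⟨i, j, e, rfl⟩, by simp [e1, e2]⟩
      · exact .inr (by simpa using hv.ext (0 :: t i) [1])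
    · exact .inr (by simpa using hu.ext [0] (v ++ [1]))
  · rintro _ ⟨_, rfl, _, _, rfl, ⟨i, j, e, rfl⟩, _, rfl, rfl⟩
    exact ⟨i + 1, j + 1, by omega, by rw [replicate_succ, replicate_succ']; simp⟩
  · rintro _ ⟨_, rfl, _, _, rfl, ⟨i, rfl⟩, rfl⟩
    exact ⟨i + 1, 0, by omega, by simp [replicate_succ]⟩
  · rintro _ ⟨_, rfl, _, _, rfl, ⟨i, rfl⟩, rfl⟩
    exact ⟨0, i + 1, by omega, by simp [replicate_succ]⟩
  · rintro _ rfl; exact ⟨0, rfl⟩
  · rintro _ ⟨_, rfl, _, _, rfl, ⟨i, rfl⟩, rfl⟩; exact ⟨i + 1, by simp [replicate_succ]⟩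
  · rintro _ rfl; exact ⟨0, rfl⟩
  · rintro _ ⟨_, rfl, _, _, rfl, ⟨i, rfl⟩, rfl⟩; exact ⟨i + 1, by simp [replicate_succ]⟩

theorem envY {y : List (Fin 3)} (h : Y y) : ∃ σ, Env R σ ∧ σ 4 = y.map .inl := by
  obtain ⟨i, j, e, rfl⟩ := h
  induction i generalizing j with
  | zero =>
    obtain ⟨j, rfl⟩ := Nat.exists_eq_succ_of_ne_zero e.symm
    refine ⟨_, ((env0 (R := R)).word (A := 6) (by simp [R]) (replicate j 0) fun c hc => ?_).step (A := 4)
      (o := [.inl 0, .inr 6]) (by simp [R]), by simp [replicate_succ, ex]⟩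
    rw [eq_of_mem_replicate hc]; simp [R]
  | succ i ih =>
    rcases j with _ | j
    · refine ⟨_, ((env0 (R := R)).word (A := 5) (by simp [R]) (replicate i 1) fun c hc => ?_).step (A := 4)
        (o := [.inl 1, .inr 5]) (by simp [R]), by simp [replicate_succ, ex]⟩
      rw [eq_of_mem_replicate hc]; simp [R]
    · obtain ⟨σ, h1, h2⟩ := ih j (by omega)
      refine ⟨_, h1.step (A := 4) (o := [.inl 1, .inr 4, .inl 0]) (by simp [R]), ?_⟩
      rw [replicate_succ, replicate_succ']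
      simp [h2, ex]

theorem envT (m : ℕ) : ∃ σ, Env R σ ∧ σ 1 = (t m).map .inl := by
  induction m with
  | zero => exact ⟨_, (env0 (R := R)).step (A := 1) (o := [.inl 2]) (by simp [R]), by simp [t, ex]⟩
  | succ m ih =>
    obtain ⟨σ, h1, h2⟩ := ih
    exact ⟨_, h1.step (A := 1) (o := [.inl 0, .inr 1, .inr 1, .inl 1]) (by simp [R]), by simp [t, h2, ex]⟩

theorem envL {w : List (Fin 3)} (h : L w) : ∃ σ, Env R σ ∧ σ 0 = w.map .inl := by
  rcases h with ⟨m, rfl⟩ | ⟨u, v, y, h, rfl⟩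
  · obtain ⟨σ, h1, h2⟩ := envT m
    exact ⟨_, h1.step (A := 0) (o := [.inr 1]) (by simp [R]), by simp [h2, ex]⟩
  · obtain ⟨σ, h1, h2⟩ := envY h
    refine ⟨_, ((h1.word (A := 2) (by simp [R]) u fun c _ => by fin_cases c <;> simp [R]).word (A := 3) (by simp [R]) v
      fun c _ => by fin_cases c <;> simp [R]).step (A := 0) (o := [.inr 2, .inl 2, .inr 4, .inl 2, .inr 3]) (by simp [R]), ?_⟩
    simp [h2, ex]

theorem edt (w : List (Fin 3)) : w ∈ (gram R 0).language ↔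
    ∃ sq, (∀ h ∈ sq, h ∈ R.map tb) ∧ run sq [.inr 0] = w.map .inl := by
  rw [mem_lang]
  refine ⟨fun h => ?_, fun ⟨sq, h1, h2⟩ => run_gn sq h1 _ _ h2⟩
  obtain ⟨σ, ⟨sq, h1, -, h2⟩, h3⟩ := envL (h.sem1 hP)
  exact ⟨sq, h1, h3 ▸ h2 0⟩

theorem t_mem (m : ℕ) : t m ∈ (gram R 0).language := by
  obtain ⟨σ, ⟨sq, h1, -, h2⟩, h3⟩ := envL (.inl ⟨m, rfl⟩)
  exact (edt _).2 ⟨sq, h1, h3 ▸ h2 0⟩

theorem good_t (n m : ℕ) : ∀ h, h + m = n → good n h (t m) h := by
  induction m with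
  | zero => rintro h rfl; simp [t, good]
  | succ m ih =>
    intro h e
    have := ih (h + 1) (by omega)
    refine ⟨by omega, h + 1, good_app.2 ⟨_, good_app.2 ⟨_, this, this⟩, ?_⟩, by simp⟩
    simp [good]; omega

theorem good_a {n h h' : ℕ} (i : ℕ) (e : good n h (replicate i 0) h') : h' = h + i := by
  induction i generalizing h with
  | zero => exact e.1.symm
  | succ i ih => obtain ⟨-, g, a, b, -⟩ := e; have := ih a; have := b rfl; omega

theorem good_b {n h h' : ℕ} (i : ℕ) (e : good n h (replicate i 1) h') : h = h' + i := by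
  induction i generalizing h with
  | zero => exact e.1
  | succ i ih => obtain ⟨-, g, a, -, b, -⟩ := e; have := ih a; have := b rfl; omega

theorem cnt_t (m : ℕ) : (t m).count 2 = 2 ^ m := by
  induction m with
  | zero => rfl
  | succ m ih => simp [t, ih]; ring

theorem K (n : ℕ) : ∀ w ∈ (gram R 0).language, ∀ h', good n 0 w h' → w.count 2 = 2 ^ n := by
  intro w hw h' hg
  rcases ((mem_lang 0 w).1 hw).sem1 hP with ⟨m, rfl⟩ | ⟨u, v, _, ⟨i, j, e, rfl⟩, rfl⟩
  · obtain ⟨v, e⟩ := t_l m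
    obtain ⟨g, a, -, _, -, -, -, b⟩ := good_app.1 (e ▸ hg)
    have := good_a _ a
    have := b rfl
    rw [cnt_t]; congr 1; omega
  · obtain ⟨g, -, -, _, a, -, -, b⟩ := good_app.1 hg
    obtain ⟨_, a, -, _, -, -, -, c⟩ := good_app.1 a
    obtain ⟨_, a1, a2⟩ := good_app.1 a
    have := good_a _ a2
    have := good_b _ a1
    have := b rfl
    have := c rfl
    omega

end Pool.Agent.H16.EDTCF
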