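import Pool.Agent.H16.EPathDefs
import Pool.Agent.H25.CBase

set_option autoImplicit false

namespace Pool.Agent.H16.EPath
open Pool.Agent.H11.PT Pool.Agent.H25.CB

theorem transfer (E : List ℕ) (S : List (List ℕ)) (ε : ℕ → Sym2 ℕ) (hS : ∀ s ∈ S, ∀ e ∈ s, e ∈ E)
    (h1 : Set.InjOn ε {e | e ∈ E}) (h2 : ∀ e ∈ E, ¬ (ε e).IsDiag)
    (h3 : ∀ s ∈ S, ∃ v : List ℕ, v.Nodup ∧ v.length = s.length + 1 ∧
      s.map ε = List.zipWith (fun a b => s(a, b)) v v.tail) : Real E S := by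
  choose! v v1 v2 v3 using h3
  obtain ⟨N, hN⟩ := ((E.toFinset.biUnion fun e => (ε e).toFinset) ∪
    S.toFinset.biUnion fun s => (v s).toFinset).finite_toSet.bddAbove
  have a1 : ∀ e ∈ E, ∀ x ∈ ε e, x ≤ N := fun e he x hx => hN (by simp; exact Or.inl ⟨e, he, hx⟩)
  have a2 : ∀ s ∈ S, ∀ x ∈ v s, x ≤ N := fun e he x hx => hN (by simp; exact Or.inr ⟨e, he, hx⟩)
  let f : ℕ → Fin (N + 1) := Fin.ofNat (N + 1)
  have hf : ∀ x ≤ N, (f x).val = x := fun x hx => Nat.mod_eq_of_lt (by omega)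
  have a3 : ∀ e ∈ E, ((ε e).map f).map Fin.val = ε e := fun e he => by
    rw [Sym2.map_map, Sym2.map_congr (f := Fin.val ∘ f) (g := id) fun x hx => hf x (a1 e he x hx), Sym2.map_id, id]
  refine ⟨N + 1, SimpleGraph.fromEdgeSet ((fun e => (ε e).map f) '' {e | e ∈ E}),
    fun e => (ε e).map f, ?_, fun s hs => ⟨(v s).map f, ?_, by simpa using v2 s hs, ?_⟩⟩
  · rw [SimpleGraph.edgeSet_fromEdgeSet, sdiff_eq_left.2]
    · refine Set.InjOn.bijOn_image fun a ha b hb e => h1 ha hb ?_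
      rw [← a3 a ha, ← a3 b hb]
      exact congrArg _ e
    · rw [Set.disjoint_left]
      rintro _ ⟨e, he, rfl⟩ h
      exact h2 e he (a3 e he ▸ Sym2.IsDiag.map h)
  · exact (v1 s hs).map_on fun x hx y hy e => by rw [← hf x (a2 s hs x hx), e, hf y (a2 s hs y hy)]
  · rw [← List.map_tail, List.zipWith_map]
    have := congrArg (List.map (Sym2.map f)) (v3 s hs)
    rw [List.map_map, List.map_zipWith] at this
    exact this

def sq (L : List (ℕ × ℕ)) (M : List (ℕ × ℕ × ℕ)) : List (List ℕ) :=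
  L.map (fun p => [3 * p.1 + 2, 3 * p.1 + 1, 3 * Nat.pair p.1 p.2, 3 * p.2 + 1, 3 * p.2 + 2]) ++
    M.map fun p => [3 * p.1 + 2, 3 * p.1 + 1, 3 * Nat.pair p.2.1 p.2.2]

def Sol {V : Type} (L : List (ℕ × ℕ)) (M : List (ℕ × ℕ × ℕ)) (ρ : ℕ → V) : Prop :=
  (∀ p ∈ L, ∀ q ∈ L, s(ρ p.1, ρ p.2) = s(ρ q.1, ρ q.2) → p = q) ∧
    ∀ p ∈ M, ρ p.1 = ρ p.2.1 ∨ ρ p.1 = ρ p.2.2

theorem back (L : List (ℕ × ℕ)) (M : List (ℕ × ℕ × ℕ)) (hM : ∀ p ∈ M, p.2 ∈ L)
    (h : Real (sq L M).flatten (sq L M)) : ∃ (N : ℕ) (ρ : ℕ → Option (Fin N)), Sol L M ρ := by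
  classical
  obtain ⟨N, G, ε, h1, h2⟩ := h
  let ρ : ℕ → Option (Fin N) := fun a =>
    if h : ∃ v ∈ ε (3 * a + 1), v ∉ ε (3 * a + 2) then some h.choose else none
  have k : ∀ a p q r, ε (3 * a + 2) = s(p, q) → ε (3 * a + 1) = s(q, r) → r ≠ p → r ≠ q →
      ρ a = some r := fun a p q r e1 e2 n1 n2 => by
    have h : ∃ v ∈ ε (3 * a + 1), v ∉ ε (3 * a + 2) := ⟨r, by simp [e2], by simp [e1, n1, n2]⟩
    have := h.choose_spec
    simp only [ρ, dif_pos h]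
    generalize h.choose = x at this
    simp only [e1, e2, Sym2.mem_iff] at this
    grind
  have k2 : ∀ p ∈ L, (ε (3 * Nat.pair p.1 p.2)).map some = s(ρ p.1, ρ p.2) := fun p hp => by
    obtain ⟨v, v1, v2, v3⟩ := h2 _ (List.mem_append_left _ (List.mem_map_of_mem hp))
    match v, v2 with
    | [a, b, c, d, e, f], _ =>
      simp at v1 v3
      rw [k p.1 a b c (by grind) (by grind) (by grind) (by grind),
        k p.2 f e d (by rw [Sym2.eq_swap]; grind) (by rw [Sym2.eq_swap]; grind) (by grind) (by grind),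
        v3.2.2.1]
      rfl
  refine ⟨N, ρ, fun p hp q hq e => ?_, fun p hp => ?_⟩
  · have m : ∀ p ∈ L, 3 * Nat.pair p.1 p.2 ∈ (sq L M).flatten := fun p hp =>
      List.mem_flatten.2 ⟨_, List.mem_append_left _ (List.mem_map_of_mem hp), by simp⟩
    rw [← k2 p hp, ← k2 q hq] at e
    have := h1.injOn (m p hp) (m q hq) (Sym2.map.injective (Option.some_injective _) e)
    exact Prod.ext_iff.2 (Nat.pair_eq_pair.1 (by omega))
  · obtain ⟨v, v1, v2, v3⟩ := h2 _ (List.mem_append_right _ (List.mem_map_of_mem hp))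
    match v, v2 with
    | [a, b, c, d], _ =>
      simp at v1 v3
      have := k2 _ (hM p hp)
      rw [k p.1 a b c (by grind) (by grind) (by grind) (by grind), ← Sym2.mem_iff, ← this, v3.2.2]
      simp

theorem fwd (L : List (ℕ × ℕ)) (M : List (ℕ × ℕ × ℕ)) (hM : ∀ p ∈ M, p.2 ∈ L) (ρ : ℕ → ℕ)
    (h0 : ∀ p ∈ L, p.1 ≠ p.2 ∧ ρ p.1 ≠ ρ p.2) (h : Sol L M ρ) :
    Real (sq L M).flatten (sq L M) := by
  let ε : ℕ → Sym2 ℕ := fun l => if l % 3 = 0 then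
    s(3 * ρ (l / 3).unpair.1, 3 * ρ (l / 3).unpair.2) else if l % 3 = 1 then s(l, 3 * ρ (l / 3))
    else s(l, l - 1)
  have e0 : ∀ a b, ε (3 * Nat.pair a b) = s(3 * ρ a, 3 * ρ b) := fun a b => by simp [ε]
  have e1 : ∀ a, ε (3 * a + 1) = s(3 * a + 1, 3 * ρ a) := fun a => by
    simp [ε, show (3 * a + 1) / 3 = a by omega]
  have e2 : ∀ a, ε (3 * a + 2) = s(3 * a + 2, 3 * a + 1) := fun a => by simp [ε]
  have m : ∀ l ∈ (sq L M).flatten, (∃ p ∈ L, l = 3 * Nat.pair p.1 p.2) ∨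
      ∃ a, l = 3 * a + 1 ∨ l = 3 * a + 2 := fun l hl => by
    simp only [sq, List.mem_flatten, List.mem_append, List.mem_map] at hl
    obtain ⟨_, ⟨p, hp, rfl⟩ | ⟨p, hp, rfl⟩, hl⟩ := hl <;> simp at hl
    · obtain rfl | rfl | rfl | rfl | rfl := hl
      exacts [.inr ⟨_, .inr rfl⟩, .inr ⟨_, .inl rfl⟩, .inl ⟨p, hp, rfl⟩, .inr ⟨_, .inl rfl⟩,
        .inr ⟨_, .inr rfl⟩]
    · obtain rfl | rfl | rfl := hl
      exacts [.inr ⟨_, .inr rfl⟩, .inr ⟨_, .inl rfl⟩, .inl ⟨_, hM p hp, rfl⟩]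
  refine transfer _ _ ε (fun s hs e he => List.mem_flatten.2 ⟨s, hs, he⟩) ?_ ?_ ?_
  · intro a ha b hb e
    rcases m a ha with ⟨p, hp, rfl⟩ | ⟨a, rfl | rfl⟩ <;>
      rcases m b hb with ⟨q, hq, rfl⟩ | ⟨b, rfl | rfl⟩ <;>
      simp only [e0, e1, e2, Sym2.eq_iff] at e
    · rw [h.1 p hp q hq (by rw [Sym2.eq_iff]; omega)]
    all_goals omega
  · intro a ha
    rcases m a ha with ⟨p, hp, rfl⟩ | ⟨a, rfl | rfl⟩ <;> simp only [e0, e1, e2, Sym2.mk_isDiag_iff]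
    · have := h0 p hp; omega
    all_goals omega
  · simp only [sq, List.mem_append, List.mem_map]
    rintro _ (⟨p, hp, rfl⟩ | ⟨p, hp, rfl⟩)
    · have := h0 p hp
      exact ⟨[3 * p.1 + 2, 3 * p.1 + 1, 3 * ρ p.1, 3 * ρ p.2, 3 * p.2 + 1, 3 * p.2 + 2],
        by simp; omega, rfl, by simp [e0, e1, e2]⟩
    · have := h0 _ (hM p hp)
      rcases h.2 p hp with e | e
      · exact ⟨[3 * p.1 + 2, 3 * p.1 + 1, 3 * ρ p.1, 3 * ρ p.2.2],
          by simp; omega, rfl, by simp [e0, e1, e2, e]⟩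
      · exact ⟨[3 * p.1 + 2, 3 * p.1 + 1, 3 * ρ p.1, 3 * ρ p.2.1],
          by simp; omega, rfl, by simp [e0, e1, e2, e]⟩

def cf (φ : F3) (a b : ℕ) : Prop := (lit φ (3 * (a / 5) + a % 5)).1 = (lit φ (3 * (b / 5) + b % 5)).1 ∧
  ¬ (lit φ (3 * (a / 5) + a % 5)).2 = (lit φ (3 * (b / 5) + b % 5)).2

def A (φ : F3) (a b : ℕ) : Prop :=
  (a / 5 = b / 5 ∧ ((a % 5 = 0 ∧ b % 5 = 1) ∨ (a % 5 = 3 ∧ b % 5 = 2))) ∨
    (a / 5 < b / 5 ∧ ((a % 5 = 4 ∧ b % 5 = 4) ∨ (a % 5 < 3 ∧ b % 5 < 3 ∧ cf φ a b)))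

instance (φ : F3) (a b : ℕ) : Decidable (A φ a b) := by unfold A cf; infer_instance

def LL (φ : F3) : List (ℕ × ℕ) :=
  (List.range (5 * φ.length) ×ˢ List.range (5 * φ.length)).filter fun p => decide (A φ p.1 p.2)

def MM (φ : F3) : List (ℕ × ℕ × ℕ) := (List.range φ.length).flatMap fun j =>
  [(5 * j + 3, 5 * j, 5 * j + 1), (5 * j + 4, 5 * j + 3, 5 * j + 2)]

theorem hard : HardFor InNP (fun y : List ℕ × List (List ℕ) => ∀ s ∈ y.2, s ≠ [] ∧ ∀ e ∈ s, e ∈ y.1)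
    fun y => Real y.1 y.2 := by
  refine hard_SAT3.hardFor.red (fun φ => ((sq (LL φ) (MM φ)).flatten, sq (LL φ) (MM φ)))
    (by unfold sq LL MM A cf; fun_prop) fun φ _ => ?_
  have hL : ∀ p, p ∈ LL φ ↔ (p.1 < 5 * φ.length ∧ p.2 < 5 * φ.length) ∧ A φ p.1 p.2 :=
    fun ⟨a, b⟩ => by simp [LL]
  have hM : ∀ p, p ∈ MM φ ↔ ∃ j < φ.length,
      p = (5 * j + 3, 5 * j, 5 * j + 1) ∨ p = (5 * j + 4, 5 * j + 3, 5 * j + 2) := fun p => by
    simp [MM]
  have hML : ∀ p ∈ MM φ, p.2 ∈ LL φ := fun p hp => by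
    obtain ⟨j, hj, rfl | rfl⟩ := (hM p).1 hp <;>
      exact (hL _).2 ⟨by simp only; omega, Or.inl (by simp only; omega)⟩
  refine ⟨fun s hs => ⟨?_, fun e he => List.mem_flatten.2 ⟨s, hs, he⟩⟩, ?_⟩
  · simp only [sq, List.mem_append, List.mem_map] at hs
    obtain ⟨p, -, rfl⟩ | ⟨p, -, rfl⟩ := hs <;> simp
  rw [sat_iff]
  constructor
  · rintro ⟨σ, h⟩
    choose! i i1 i2 using h
    obtain ⟨ρ, hρ⟩ : ∃ ρ : ℕ → ℕ, ∀ x, (x % 5 < 3 → ρ x = x) ∧
        (x % 5 = 3 → ρ x = 5 * (x / 5) + min (i (x / 5)) 1) ∧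
        (x % 5 = 4 → ρ x = 5 * (x / 5) + i (x / 5)) :=
      ⟨fun x => if x % 5 < 3 then x else if x % 5 = 3 then 5 * (x / 5) + min (i (x / 5)) 1
        else 5 * (x / 5) + i (x / 5), fun x => by beta_reduce; split_ifs <;> omega⟩
    have nc : ∀ a b, a < 5 * φ.length → b < 5 * φ.length → cf φ a b → a % 5 = i (a / 5) →
        b % 5 = i (b / 5) → False := fun a b ha hb c e1 e2 => by
      unfold cf at c
      rw [e1, e2, ← i2 _ (by omega), ← i2 _ (by omega)] at c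
      exact c.2 (by rw [c.1])
    have T : ∀ a b, (a, b) ∈ LL φ → ∃ j k, (a = 5 * j ∧ b = 5 * j + 1 ∧ ρ a = a ∧ ρ b = b) ∨
        (a = 5 * j + 3 ∧ b = 5 * j + 2 ∧ 5 * j ≤ ρ a ∧ ρ a ≤ 5 * j + 1 ∧ ρ b = b) ∨
        (j < k ∧ i j < 3 ∧ i k < 3 ∧ a = 5 * j + 4 ∧ b = 5 * k + 4 ∧ ρ a = 5 * j + i j ∧
          ρ b = 5 * k + i k) ∨
        (j < k ∧ 5 * j ≤ a ∧ a < 5 * j + 3 ∧ 5 * k ≤ b ∧ b < 5 * k + 3 ∧ ρ a = a ∧ ρ b = b ∧
          ¬ (a = 5 * j + i j ∧ b = 5 * k + i k)) := fun a b hp => by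
      obtain ⟨⟨b1, b2⟩, b3⟩ := (hL _).1 hp
      refine ⟨a / 5, b / 5, ?_⟩
      obtain ⟨b3, b4 | b4⟩ | ⟨b3, b4 | ⟨b4, b5, b6⟩⟩ := b3 <;> simp only at *
      · exact .inl ⟨by omega, by omega, (hρ a).1 (by omega), (hρ b).1 (by omega)⟩
      · have := (hρ a).2.1 b4.1
        exact .inr (.inl ⟨by omega, by omega, by omega, by omega, (hρ b).1 (by omega)⟩)
      · exact .inr (.inr (.inl ⟨b3, i1 _ (by omega), i1 _ (by omega), by omega, by omega,
          (hρ a).2.2 b4.1, (hρ b).2.2 b4.2⟩))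
      · exact .inr (.inr (.inr ⟨b3, by omega, by omega, by omega, by omega, (hρ a).1 b4,
          (hρ b).1 b5, fun h => nc a b b1 b2 b6 (by omega) (by omega)⟩))
    refine fwd _ _ hML ρ (fun ⟨a, b⟩ hp => ?_) ⟨fun ⟨a, b⟩ hp ⟨c, d⟩ hq e => ?_, fun p hp => ?_⟩
    · obtain ⟨j, k, h⟩ := T a b hp
      simp only
      omega
    · obtain ⟨j, k, h⟩ := T a b hp
      obtain ⟨j', k', h'⟩ := T c d hq
      have g1 : j = j' → i j = i j' := fun e => by rw [e]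
      have g2 : k = k' → i k = i k' := fun e => by rw [e]
      simp only [Sym2.eq_iff, Prod.mk.injEq] at e ⊢
      clear hp hq T nc hρ i1 i2 hML hM hL
      rcases h with h | h | h | h <;> rcases h' with h' | h' | h' | h' <;> omega
    · obtain ⟨j, hj, rfl | rfl⟩ := (hM p).1 hp
      · have := hρ (5 * j + 3); have := hρ (5 * j); have := hρ (5 * j + 1)
        simp only
        omega
      · have := hρ (5 * j + 3); have := hρ (5 * j + 4); have := hρ (5 * j + 2)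
        have := i1 j hj
        simp only [show (5 * j + 3) / 5 = j by omega, show (5 * j + 4) / 5 = j by omega] at *
        omega
  · intro h
    obtain ⟨N, ρ, h1, h2⟩ := back _ _ hML h
    have : ∀ j < φ.length, ∃ i < 3, ρ (5 * j + 4) = ρ (5 * j + i) := fun j hj => by
      rcases h2 _ ((hM _).2 ⟨j, hj, Or.inr rfl⟩) with e | e
      · rcases h2 _ ((hM _).2 ⟨j, hj, Or.inl rfl⟩) with e' | e'
        · exact ⟨0, by omega, e.trans e'⟩
        · exact ⟨1, by omega, e.trans e'⟩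
      · exact ⟨2, by omega, e⟩
    choose! i i1 i2 using this
    have k : ∀ j < φ.length, ∀ j' < φ.length, j < j' → (lit φ (3 * j + i j)).1 =
        (lit φ (3 * j' + i j')).1 → (lit φ (3 * j + i j)).2 = (lit φ (3 * j' + i j')).2 := by
      intro j hj j' hj' hl e
      by_contra e'
      have := i1 j hj; have := i1 j' hj'
      have := h1 (5 * j + 4, 5 * j' + 4) ((hL _).2 ⟨by simp only; omega, Or.inr (by simp only; omega)⟩)
        (5 * j + i j, 5 * j' + i j') ((hL _).2 ⟨by simp only; omega, Or.inr ⟨by simp only; omega,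
          Or.inr ⟨by simp only; omega, by simp only; omega, by
            simp only [cf, show (5 * j + i j) / 5 = j by omega, show (5 * j + i j) % 5 = i j by omega,
              show (5 * j' + i j') / 5 = j' by omega, show (5 * j' + i j') % 5 = i j' by omega]
            exact ⟨e, e'⟩⟩⟩⟩) (by simp only [i2 j hj, i2 j' hj'])
      simp only [Prod.mk.injEq] at this
      omega
    refine ⟨fun v => decide (∃ j < φ.length, lit φ (3 * j + i j) = (v, true)), fun j hj =>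
      ⟨i j, i1 j hj, ?_⟩⟩
    cases e : (lit φ (3 * j + i j)).2
    · refine decide_eq_false fun ⟨j', hj', e'⟩ => ?_
      rcases lt_trichotomy j j' with h | h | h
      · simpa [e, e'] using k j hj j' hj' h
      · rw [h, e'] at e; simp at e
      · simpa [e, e'] using k j' hj' j hj h
    · exact decide_eq_true ⟨j, hj, Prod.ext rfl e⟩

end Pool.Agent.H16.EPath
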