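import Pool.Agent.H11.GDefs

set_option autoImplicit false

namespace Pool.Agent.H16.EPath

/-- The instance with edge set `E` and sequences `S` has a realisation. -/
def Real (E : List ℕ) (S : List (List ℕ)) : Prop :=
  ∃ (N : ℕ) (G : SimpleGraph (Fin N)) (ε : ℕ → Sym2 (Fin N)),
    Set.BijOn ε {e | e ∈ E} G.edgeSet ∧
      ∀ s ∈ S, ∃ v : List (Fin N), v.Nodup ∧ v.length = s.length + 1 ∧
        s.map ε = List.zipWith (fun a b => s(a, b)) v v.tail

end Pool.Agent.H16.EPath
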