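import Mathlib

set_option autoImplicit false

namespace Pool.Agent.H16.Edit

variable {α : Type}

/-- One insertion, deletion or substitution of a character. -/
def Step (u v : List α) : Prop :=
  ∃ (p q : List α) (a b : α), (u = p ++ q ∧ v = p ++ a :: q) ∨ (u = p ++ a :: q ∧ v = p ++ q) ∨
    (u = p ++ a :: q ∧ v = p ++ b :: q)

/-- `v` is obtained from `u` by exactly `k` single-character operations. -/
inductive Path : ℕ → List α → List α → Prop
  | refl (u : List α) : Path 0 u u
  | step {k : ℕ} {u v w : List α} : Step u v → Path k v w → Path (k + 1) u w

/-- The edit distance. -/
noncomputable def edit (u v : List α) : ℕ := sInf {k | Path k u v}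

/-- `B` is `(d, r)`-guaranteed among the strings of length `n`. -/
def Guaranteed (n d r : ℕ) (B : Set (List α)) : Prop :=
  ∀ s t : List α, s.length = n → t.length = n → edit s t ≤ d →
    ∃ v ∈ B, v.length = n ∧ edit s v ≤ r ∧ edit t v ≤ r

def lev : List Bool → List Bool → ℕ
  | [], v => v.length
  | a :: u, [] => u.length + 1
  | a :: u, b :: v =>
    min (min (lev u (b :: v) + 1) (lev (a :: u) v + 1)) (lev u v + if a = b then 0 else 1)

theorem lev_nil (u : List Bool) : lev u [] = u.length := by cases u <;> simp [lev]

theorem Step.cons {u v : List α} (c : α) (h : Step u v) : Step (c :: u) (c :: v) := by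
  obtain ⟨p, q, a, b, h⟩ := h
  exact ⟨c :: p, q, a, b, by simpa using h⟩

theorem Path.cons {k : ℕ} {u v : List α} (c : α) (h : Path k u v) : Path k (c :: u) (c :: v) := by
  induction h with
  | refl u => exact .refl _
  | step h _ ih => exact .step (h.cons c) ih

theorem path_lev (u v : List Bool) : Path (lev u v) u v := by
  induction u generalizing v with
  | nil =>
    induction v with
    | nil => simpa [lev] using Path.refl _
    | cons b v ih =>
      simp only [lev, List.length_cons] at ih ⊢
      exact .step ⟨[], [], b, b, Or.inl ⟨rfl, rfl⟩⟩ (ih.cons b)
  | cons a u ih =>
    induction v with
    | nil =>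
      have := ih []
      rw [lev_nil] at this
      simp only [lev]
      exact .step ⟨[], u, a, a, Or.inr (Or.inl ⟨rfl, rfl⟩)⟩ this
    | cons b v ih2 =>
      have h1 : Path (lev u (b :: v) + 1) (a :: u) (b :: v) :=
        .step ⟨[], u, a, a, Or.inr (Or.inl ⟨rfl, rfl⟩)⟩ (ih _)
      have h2 : Path (lev (a :: u) v + 1) (a :: u) (b :: v) :=
        .step ⟨[], a :: u, b, b, Or.inl ⟨rfl, rfl⟩⟩ (ih2.cons b)
      have h3 : Path (lev u v + if a = b then 0 else 1) (a :: u) (b :: v) := by
        split_ifs with h
        · subst h
          exact (ih v).cons a
        · exact .step ⟨[], u, a, b, Or.inr (Or.inr ⟨rfl, rfl⟩)⟩ ((ih v).cons b)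
      rw [lev]
      rcases min_choice (min (lev u (b :: v) + 1) (lev (a :: u) v + 1))
        (lev u v + if a = b then 0 else 1) with h | h <;> rw [h]
      · rcases min_choice (lev u (b :: v) + 1) (lev (a :: u) v + 1) with h | h <;> rw [h] <;>
          assumption
      · exact h3

theorem l1 (a : Bool) (q w : List Bool) : lev (a :: q) w ≤ lev q w + 1 := by
  cases w with
  | nil => simp [lev_nil]
  | cons b v => rw [lev]; omega

theorem l1' (b : Bool) (q v : List Bool) : lev q (b :: v) ≤ lev q v + 1 := by
  cases q with
  | nil => simp [lev]
  | cons a u => rw [lev]; omega

theorem l2 (a : Bool) (q w : List Bool) : lev q w ≤ lev (a :: q) w + 1 := by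
  induction w with
  | nil => simp only [lev_nil, List.length_cons]; omega
  | cons b v ih =>
    have := l1' b q v
    rw [lev]
    omega

theorem l2' (b : Bool) (q v : List Bool) : lev q v ≤ lev q (b :: v) + 1 := by
  induction q with
  | nil => simp only [lev, List.length_cons]; omega
  | cons a u ih =>
    have := l1 a u v
    rw [lev]
    omega

theorem l3 (a c : Bool) (q w : List Bool) : lev (a :: q) w ≤ lev (c :: q) w + 1 := by
  induction w with
  | nil => simp [lev_nil]
  | cons b v ih =>
    rw [lev, lev]
    split_ifs <;> omega

theorem l4 (c : Bool) (x y : List Bool) (h : ∀ w, lev x w ≤ lev y w + 1) (w : List Bool) :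
    lev (c :: x) w ≤ lev (c :: y) w + 1 := by
  induction w with
  | nil => simpa [lev_nil] using h []
  | cons b v ih =>
    have := h (b :: v)
    have := h v
    rw [lev, lev]
    omega

theorem l5 (p x y : List Bool) (h : ∀ w, lev x w ≤ lev y w + 1) (w : List Bool) :
    lev (p ++ x) w ≤ lev (p ++ y) w + 1 := by
  induction p generalizing w with
  | nil => exact h w
  | cons c p ih => exact l4 c _ _ ih w

theorem lev_self (u : List Bool) : lev u u = 0 := by
  induction u with
  | nil => simp [lev]
  | cons a u ih => rw [lev, ih]; simp

theorem lev_le {k : ℕ} {u w : List Bool} (h : Path k u w) : lev u w ≤ k := by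
  induction h with
  | refl u => rw [lev_self]
  | step h _ ih =>
    obtain ⟨p, q, a, b, ⟨rfl, rfl⟩ | ⟨rfl, rfl⟩ | ⟨rfl, rfl⟩⟩ := h
    · exact (l5 p _ _ (l2 a q) _).trans (by omega)
    · exact (l5 p _ _ (l1 a q) _).trans (by omega)
    · exact (l5 p _ _ (l3 a b q) _).trans (by omega)

theorem edit_eq (u v : List Bool) : edit u v = lev u v :=
  le_antisymm (Nat.sInf_le (path_lev u v)) (le_csInf ⟨_, path_lev u v⟩ fun _ h => lev_le h)

def go (f : List Bool → List Bool → Bool) (k : ℕ) : List Bool → List Bool → Bool
  | [], v => Nat.ble v.length k
  | _ :: u, [] => Nat.ble (u.length + 1) k
  | a :: u, b :: v => bif a == b then go f k u v else f u (b :: v) || f (a :: u) v || f u v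

def le : ℕ → List Bool → List Bool → Bool
  | 0 => go (fun _ _ => false) 0
  | k + 1 => go (le k) (k + 1)

theorem go_iff (f : List Bool → List Bool → Bool) (k : ℕ)
    (hf : ∀ u v, f u v = true ↔ lev u v + 1 ≤ k) (u v : List Bool) :
    go f k u v = true ↔ lev u v ≤ k := by
  induction u generalizing v with
  | nil => simp [go, lev]
  | cons a u ih =>
    cases v with
    | nil => simp [go, lev]
    | cons b v =>
      have h1 := l2 a u v
      have h2 := l2' b u v
      by_cases h : a = b
      · subst h
        simp only [go, beq_self_eq_true, cond_true, ih, lev, if_true]
        omega
      · have : (a == b) = false := by simpa using h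
        simp only [go, this, cond_false, Bool.or_eq_true, hf, lev, if_neg h]
        omega

theorem le_iff (k : ℕ) : ∀ u v, le k u v = true ↔ lev u v ≤ k := by
  induction k with
  | zero => exact go_iff _ 0 (by simp)
  | succ k ih => exact go_iff _ _ fun u v => by rw [ih]; omega

def allW : ℕ → List (List Bool)
  | 0 => [[]]
  | n + 1 => (allW n).flatMap fun u => [false :: u, true :: u]

theorem mem_allW (u : List Bool) : u ∈ allW u.length := by
  induction u with
  | nil => simp [allW]
  | cons a u ih =>
    simp only [List.length_cons, allW, List.mem_flatMap]
    exact ⟨u, ih, by cases a <;> simp⟩

def s0 : List Bool := [false, false, true, true, false, false, true, true]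

def t0 : List Bool := [true, true, false, false, true, true, false, false]

def BL : List (List Bool) :=
  [[true, false, false, false, false, false, false, false],
   [false, true, false, false, false, false, false, false],
   [true, true, false, false, false, false, false, false],
   [true, true, true, false, false, false, false, false],
   [true, true, false, true, false, false, false, false],
   [true, true, false, false, true, false, false, false],
   [true, true, true, false, true, false, false, false],
   [true, true, true, true, true, false, false, false],
   [true, false, false, false, false, true, false, false],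
   [true, true, false, false, false, true, false, false],
   [true, true, false, true, false, true, false, false],
   [true, true, true, true, false, true, false, false],
   [true, true, true, false, true, true, false, false],
   [true, true, false, true, true, true, false, false],
   [true, false, true, true, true, true, false, false],
   [false, true, true, true, true, true, false, false],
   [true, true, true, true, true, true, false, false],
   [false, false, false, false, false, false, true, false],
   [true, true, false, false, false, false, true, false],
   [true, false, false, false, true, true, true, false],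
   [true, true, false, true, true, true, true, false],
   [false, false, true, true, true, true, true, false],
   [true, true, true, true, true, true, true, false],
   [false, false, false, false, false, false, false, true],
   [true, true, false, false, false, false, false, true],
   [false, false, true, false, false, false, false, true],
   [false, true, true, true, false, false, false, true],
   [false, false, true, true, true, true, false, true],
   [true, true, true, true, true, true, false, true],
   [false, false, false, false, false, false, true, true],
   [true, false, false, false, false, false, true, true],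
   [false, true, false, false, false, false, true, true],
   [false, false, true, false, false, false, true, true],
   [false, false, false, true, false, false, true, true],
   [false, false, false, false, true, false, true, true],
   [false, false, true, false, true, false, true, true],
   [false, false, true, true, true, false, true, true],
   [false, true, true, true, true, false, true, true],
   [false, false, false, false, false, true, true, true],
   [false, false, false, true, false, true, true, true],
   [false, false, true, true, false, true, true, true],
   [false, false, true, false, true, true, true, true],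
   [false, false, false, true, true, true, true, true],
   [false, false, true, true, true, true, true, true],
   [true, false, true, true, true, true, true, true],
   [false, true, true, true, true, true, true, true]]

def mask (a : List Bool) : List (List Bool) → ℕ
  | [] => 0
  | v :: L => Nat.bit (le 3 a v) (mask a L)

theorem mask_and (a b : List Bool) (L : List (List Bool)) (h : mask a L &&& mask b L ≠ 0) :
    ∃ v ∈ L, lev a v ≤ 3 ∧ lev b v ≤ 3 := by
  induction L with
  | nil => simp [mask] at h
  | cons v L ih =>
    simp only [mask, Nat.land_bit, ne_eq, Nat.bit_eq_zero_iff, not_and_or] at h
    rcases h with h | h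
    · obtain ⟨w, hw, h1⟩ := ih h
      exact ⟨w, List.mem_cons_of_mem _ hw, h1⟩
    · simp only [Bool.not_eq_false, Bool.and_eq_true, le_iff] at h
      exact ⟨v, List.mem_cons_self, h⟩

def masks : List ℕ :=
  [308759888703, 1670252415, 3884320639, 3246800895, 41465283455,
   7575330815, 6568714239, 117776383, 563286770999, 14017785855,
   15158652927, 118833151, 1181361555675, 117800959, 137556778750,
   356908799, 60709012327, 26869659647, 28043556863, 18694143,
   2332412794363, 34478063615, 171916525310, 356908799, 4492781871539,
   102334455, 137540795638, 357957375, 9036848294080, 17661382753529,
   35391006702842, 137779870972, 858499450631, 295305117503, 298559913791,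
   18694015, 3638015745851, 51216255, 117833598, 356909055,
   6382500376371, 584151039863, 584217395062, 290848767, 10548676787520,
   18692107796473, 36490518331130, 137779871740, 7439028777763, 1931111,
   1701734, 291373055, 12747633456448, 19791619948537, 38620823158522,
   274333692, 16011776091392, 22059362680753, 41988078042802, 274333684,
   69475868735616, 26526195776960, 61710567341248, 52776968257272, 892875964679,
   308760412991, 308827521855, 3877504895, 3710426415899, 42531161983,
   178895849342, 7604674559, 6459138900275, 600810850167, 737225869174,
   11833589759, 10699537514496, 18774383557625, 36505282599642, 137780133628,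
   7558650528547, 613662197607, 754339153766, 20424048639, 12915674056000,
   19916845383673, 38747256585978, 172140396284, 17309393092864, 23219809451953,
   43149598588082, 137713549044, 69540024871040, 26629274991808, 61813646556352,
   52983126949112, 8589442679555, 858475333383, 892851848966, 282417053503,
   13056334233856, 21216072990521, 39013410848298, 137780608892, 17454348240128,
   26176894435121, 43978460167698, 721829068660, 70364591478784, 28278475324736,
   63462913989696, 54082504359640, 17385628762368, 25034433131297, 43729352061474,
   274560868, 70227152531456, 30271340148032, 65593151190080, 56075369709288,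
   70222857560064, 34703746393344, 70059917173760, 59374038810288, 70059917164544,
   69475801626752, 69475801102464, 61710366538944, 892942287111, 308759888703,
   308826997567, 3884320639, 3710575312923, 42539026303, 179977978494,
   7910727423, 6459354120243, 600884774263, 738323727478, 16500670207,
   10701691289600, 18777052047609, 36505603328218, 137825221884, 7558798639907,
   613703092071, 755503597414, 29385572351, 12917894415680, 19928103288825,
   38756166196474, 172184960764, 17313793966336, 23224490948529, 43154212451506,
   137792716532, 69540329349248, 26629301730496, 61813674866880, 52983208475896,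
   8589591053059, 892875966215, 892943075078, 299969036095, 13056407109888,
   21233773862713, 39031044087338, 137825165180, 17454454146304, 26250228559665,
   43978846154258, 721908219764, 70364963063808, 28278569139520, 63462942301248,
   54082720104152, 17454387036416, 25112028672801, 43944419308066, 287127396,
   70364895956992, 30477525808448, 65661966611520, 56213023882984, 70360567963648,
   34875540858112, 70059980088320, 59580211658416, 70060013633536, 69475868735616,
   69475868211328, 61710567341248, 8658176311299, 892875964679, 1030382027014,
   308827521855, 13193711845376, 21302627664665, 39032252137994, 179969458780,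
   17591758356480, 26250362880305, 43980054462482, 738282702452, 70368452804608,
   28294808338432, 63478240903168, 54098691098840, 17591691772160, 26250329326369,
   43979987353634, 755395987044, 70368385695744, 30510945928256, 65694445077568,
   56340665081064, 70368352665600, 34909095198720, 70092460130304, 60742939458736,
   70090345152512, 69541366360192, 69542439078016, 61813644458176, 17385533341952,
   26181609849601, 43773829448194, 849885267716, 70230947266560, 30579665404160,
   65969189289984, 56495284427272, 70230913712128, 35046534153472, 70367338562560,
   61481674358288, 70365223059456, 70348753623040, 70349892917248, 63428417887232,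
   70230913712128, 35042239185152, 70367271452672, 60218953970208, 70365157523456,
   70357343563776, 70358416797696, 65043259011136, 70360829001728, 70361638526976,
   70362711777280, 70025557402624, 70364858204160, 70059917164544, 70059983732736,
   69475801102464]

theorem c1 : (allW 8).map (fun a => mask a BL) = masks := by decide +kernel

theorem c2 : (((allW 8).zip masks).all fun x => ((allW 8).zip masks).all fun y =>
    !(Nat.beq (x.2 &&& y.2) 0) || !(le 3 x.1 y.1)) = true := by decide +kernel

theorem c3 : ∀ v ∈ BL, v.length = 8 ∧ (le 4 s0 v = false ∨ le 4 t0 v = false) := by
  decide +kernel

theorem c4 : le 4 s0 t0 = true := by decide +kernel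

theorem g3 : Guaranteed 8 3 3 {v | v ∈ BL} := by
  intro s t hs ht h
  have hm : ∀ a : List Bool, a.length = 8 → (a, mask a BL) ∈ (allW 8).zip masks := by
    intro a ha
    rw [← c1, List.zip_map_right, List.zip_eq_zipWith, List.zipWith_self]
    simp only [List.map_map, List.mem_map]
    exact ⟨a, ha ▸ mem_allW a, rfl⟩
  have := List.all_eq_true.1 (List.all_eq_true.1 c2 _ (hm s hs)) _ (hm t ht)
  rw [edit_eq, ← le_iff] at h
  simp only [h, Bool.not_true, Bool.or_false, Bool.not_eq_true'] at this
  obtain ⟨v, hv, h1, h2⟩ := mask_and s t BL (Nat.ne_of_beq_eq_false this)
  exact ⟨v, hv, (c3 v hv).1, by rwa [edit_eq], by rwa [edit_eq]⟩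

theorem g4 : ¬ Guaranteed 8 4 4 {v | v ∈ BL} := by
  intro h
  obtain ⟨v, hv, -, h1, h2⟩ := h s0 t0 rfl rfl (by rw [edit_eq, ← le_iff]; exact c4)
  rw [edit_eq, ← le_iff] at h1 h2
  rcases (c3 v hv).2 with h | h
  · simp [h1] at h
  · simp [h2] at h

end Pool.Agent.H16.Edit
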