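import Mathlib

set_option autoImplicit false

namespace Pool.Agent.H16.Elated

theorem hensel {R : Type} [CommRing R] (q c s : R) (hc : IsCoprime q (2 * c)) (h : q ∣ s ^ 2 + c)
    (k : ℕ) : ∃ s', q ^ (k + 1) ∣ s' ^ 2 + c := by
  induction k with
  | zero => exact ⟨s, by simpa using h⟩
  | succ k ih =>
    obtain ⟨s, τ, hτ⟩ := ih
    obtain ⟨u, v, huv⟩ := hc
    refine ⟨s + q ^ (k + 1) * (τ * v * s), u * τ + 2 * q ^ k * τ ^ 2 * v + q ^ k * (τ * v * s) ^ 2, ?_⟩
    linear_combination (1 + 2 * q ^ (k + 1) * τ * v) * hτ - q ^ (k + 1) * τ * huv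

theorem exists_int (π : GaussianInt) (h : IsCoprime π (star π)) (k : ℕ) (z : GaussianInt) :
    ∃ n : ℕ, π ^ k ∣ z - n := by
  obtain ⟨α, β, hab⟩ := h.pow (m := k) (n := k)
  have h1 : π ^ k ∣ z - ((2 * (z * β * star π ^ k).re : ℤ) : GaussianInt) := by
    have : ((2 * (z * β * star π ^ k).re : ℤ) : GaussianInt) =
        z * β * star π ^ k + star (z * β * star π ^ k) := by
      generalize z * β * star π ^ k = w
      ext <;> simp [two_mul]
    rw [this]
    refine ⟨z * α - star z * star β, ?_⟩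
    simp only [star_mul, star_pow, star_star]
    linear_combination -z * hab
  generalize 2 * (z * β * star π ^ k).re = m at h1
  have hπ : π ≠ 0 ∨ π = 0 := by tauto
  rcases hπ with hπ | rfl
  · have hn : 0 < (π ^ k).norm := GaussianInt.norm_pos.mpr (pow_ne_zero _ hπ)
    obtain ⟨n, hn'⟩ := Int.eq_ofNat_of_zero_le (Int.emod_nonneg m hn.ne')
    refine ⟨n, ?_⟩
    have h2 : π ^ k ∣ (((π ^ k).norm : ℤ) : GaussianInt) := ⟨_, Zsqrtd.norm_eq_mul_conj _⟩
    have h3 : (m : GaussianInt) = n + ((π ^ k).norm : ℤ) * ((m / (π ^ k).norm : ℤ) : GaussianInt) := by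
      have := Int.emod_add_mul_ediv m (π ^ k).norm
      rw [hn'] at this
      exact_mod_cast congrArg (Int.cast : ℤ → GaussianInt) this.symm
    have : z - n = (z - m) + ((π ^ k).norm : ℤ) * ((m / (π ^ k).norm : ℤ) : GaussianInt) := by
      rw [h3]; ring
    rw [this]
    exact h1.add (h2.mul_right _)
  · simp only [star_zero] at h
    exact absurd h not_isCoprime_zero_zero

theorem exists_r (m M : ℕ) : ∃ r : ℕ,
    (⟨(1145970 * m + 1) ^ 2 + 1070, 2 * (1145970 * m + 1)⟩ : GaussianInt) ^ (M + 1) ∣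
      ⟨68 * r ^ 2 + 34 * r + 19, 272 * r ^ 2 + 68 * r + 67⟩ := by
  set a : ℤ := 1145970 * m + 1 with ha
  set π : GaussianInt := ⟨a ^ 2 + 1070, 2 * a⟩ with hπ
  have hq : π ∣ (((a ^ 2 + 1070) ^ 2 + (2 * a) ^ 2 : ℤ) : GaussianInt) :=
    ⟨star π, by ext <;> simp [hπ, sq] <;> ring⟩
  have lift : ∀ c : ℤ, IsCoprime ((a ^ 2 + 1070) ^ 2 + (2 * a) ^ 2) c → IsCoprime π (c : GaussianInt) :=
    fun c hc => (hc.map (Int.castRingHom GaussianInt)).of_isCoprime_of_dvd_left hq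
  have c1 : IsCoprime ((a ^ 2 + 1070) ^ 2 + (2 * a) ^ 2) 2142 := by
    have : (a ^ 2 + 1070) ^ 2 + (2 * a) ^ 2 = 1147045 + 2142 * (535 * m * (a + 1) * (a ^ 2 + 2145)) := by
      rw [ha]; ring
    rw [this]
    exact IsCoprime.add_mul_left_left (by norm_num) _
  have c2 : IsCoprime ((a ^ 2 + 1070) ^ 2 + (2 * a) ^ 2) a := by
    have : (a ^ 2 + 1070) ^ 2 + (2 * a) ^ 2 = 1070 ^ 2 + a * (a ^ 3 + 2144 * a) := by ring
    rw [this]
    refine IsCoprime.add_mul_left_left (IsCoprime.pow_left ⟨-1071 * (m : ℤ), 1, by rw [ha]; ring⟩) _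
  have c3 : IsCoprime ((a ^ 2 + 1070) ^ 2 + (2 * a) ^ 2) 68 :=
    (c1.pow_right (n := 2)).of_isCoprime_of_dvd_right (by norm_num)
  have c4 : IsCoprime ((a ^ 2 + 1070) ^ 2 + (2 * a) ^ 2) (4 * a) :=
    (c3.of_isCoprime_of_dvd_right (by norm_num)).mul_right c2
  have c5 : IsCoprime π (star π) := by
    have h1 : IsCoprime π (((4 * a : ℤ) : GaussianInt) * ⟨0, -1⟩) :=
      (lift _ c4).mul_right ⟨0, ⟨0, 1⟩, by ext <;> simp⟩
    have : star π = ((4 * a : ℤ) : GaussianInt) * ⟨0, -1⟩ + π * 1 := by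
      ext <;> simp [hπ]
      ring
    rw [this]
    exact h1.add_mul_left_right _
  obtain ⟨s, hs⟩ := hensel π 1071 ⟨a, 1⟩ (by have := lift _ c1; norm_num at this ⊢; exact this)
    ⟨1, by ext <;> simp [hπ, sq] <;> ring⟩ M
  have c6 : IsCoprime (π ^ (M + 1)) 68 := by
    have := (lift _ c3).pow_left (m := M + 1)
    simpa using this
  obtain ⟨u, v, huv⟩ := c6
  obtain ⟨r, t, ht⟩ := exists_int π c5 (M + 1) ((s - ⟨9, -2⟩) * v)
  refine ⟨r, IsCoprime.dvd_of_dvd_mul_left ⟨u, v, huv⟩ ?_⟩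
  have e1 : (68 : GaussianInt) * ⟨68 * r ^ 2 + 34 * r + 19, 272 * r ^ 2 + 68 * r + 67⟩ =
      ⟨1, 4⟩ * ((68 * r + ⟨9, -2⟩) ^ 2 + 1071) := by
    ext <;> simp [sq] <;> ring
  have e2 : (68 * r + ⟨9, -2⟩ : GaussianInt) = s + π ^ (M + 1) * (-68 * t - u * (s - ⟨9, -2⟩)) := by
    linear_combination -68 * ht + (s - ⟨9, -2⟩) * huv
  rw [e1, e2]
  refine Dvd.dvd.mul_left ?_ _
  generalize -68 * t - u * (s - ⟨9, -2⟩) = w
  have : (s + π ^ (M + 1) * w) ^ 2 + 1071 = s ^ 2 + 1071 + π ^ (M + 1) * (2 * s * w + π ^ (M + 1) * w ^ 2) := by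
    ring
  rw [this]
  exact hs.add (dvd_mul_right _ _)

theorem rot (a b M U V g h : ℤ) (hM : 0 < M) (ha : 16 * M ≤ a) (hb : 17 ≤ b) (hU : 0 < U) (hV : 0 < V)
    (hU2 : 2 * U ≤ 5 * b) (hV2 : V ≤ 4 * b) (hN : U ^ 2 + V ^ 2 = 17 * b ^ 2 - 63)
    (e1 : U = g * (a ^ 2 + 1070) - h * (2 * a)) (e2 : V = g * (2 * a) + h * (a ^ 2 + 1070)) :
    0 < g ∧ 0 ≤ h ∧ M * (4 * a * h) ≤ b ∧ 4 * a * g < V := by
  have hUV : U ≤ V := by nlinarith
  obtain ⟨p, hp⟩ : ∃ p, p = a ^ 2 + 1070 := ⟨_, rfl⟩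
  have hp1 : 6 * a < p := by nlinarith
  have hp2 : a ^ 2 ≤ p := by omega
  rw [← hp] at e1 e2
  have ha0 : 0 < a := by omega
  have hp0 : 0 < p := by omega
  have hq : 0 < p ^ 2 + 4 * a ^ 2 := by positivity
  have f1 : g * (p ^ 2 + 4 * a ^ 2) = U * p + V * (2 * a) := by rw [e1, e2]; ring
  have f2 : h * (p ^ 2 + 4 * a ^ 2) = V * p - U * (2 * a) := by rw [e1, e2]; ring
  have g0 : 0 < g := by
    have : 0 < U * p + V * (2 * a) := by positivity
    rw [← f1] at this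
    exact (mul_pos_iff_of_pos_right hq).mp this
  have h0 : 0 ≤ h := by
    have : 0 ≤ V * p - U * (2 * a) := by nlinarith
    rw [← f2] at this
    exact nonneg_of_mul_nonneg_left this hq
  refine ⟨g0, h0, ?_, ?_⟩
  · have h1 : h * p ≤ V := by rw [e2]; nlinarith
    have h2 : 16 * M * (a * h) ≤ a * (a * h) := mul_le_mul_of_nonneg_right ha (by positivity)
    nlinarith
  · have h1 : (V - 4 * a * g) * (p ^ 2 + 4 * a ^ 2) = V * (p ^ 2 - 4 * a ^ 2) - 4 * a * p * U := by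
      linear_combination -4 * a * f1
    have h2 : 4 * a * p * U ≤ 4 * a * p * V := mul_le_mul_of_nonneg_left hUV (by positivity)
    have h3 : 0 < V * (p ^ 2 - 4 * a ^ 2 - 4 * a * p) := mul_pos hV (by nlinarith)
    have h4 : 0 < (V - 4 * a * g) * (p ^ 2 + 4 * a ^ 2) := by rw [h1]; linarith
    have := (mul_pos_iff_of_pos_right hq).mp h4
    linarith

theorem many (M : ℕ) (hM : 0 < M) : ∃ b : ℤ, 17 ≤ b ∧ ∃ S : Finset (ℤ × ℤ), S.card = M + 1 ∧
    ∀ e ∈ S, 0 ≤ e.1 ∧ e.1 < b ∧ 0 ≤ e.2 ∧ e.2 < b ∧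
      2 * (e.2 ^ 2 + e.1 ^ 2 + 2 ^ 2) = e.2 + b * (e.1 + b * 2) := by
  obtain ⟨r', hr⟩ := exists_r M M
  have hr0 : (0 : ℤ) ≤ r' := Int.natCast_nonneg r'
  generalize (r' : ℤ) = r at hr hr0
  set a : ℤ := 1145970 * M + 1 with ha
  set π : GaussianInt := ⟨a ^ 2 + 1070, 2 * a⟩ with hπ
  obtain ⟨b, hb⟩ : ∃ b : ℤ, b = 68 * r ^ 2 + 18 * r + 17 := ⟨_, rfl⟩
  have hb17 : 17 ≤ b := by nlinarith
  have hM' : (0 : ℤ) < M := by exact_mod_cast hM
  refine ⟨b, hb17, ?_⟩
  have key : ∀ j ≤ M, ∃ (S : Finset (ℤ × ℤ)) (y z : ℤ), S.card = j + 1 ∧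
      (∀ e ∈ S, z ≤ e.2 ∧ 0 ≤ e.1 ∧ e.1 < b ∧ 0 ≤ e.2 ∧ e.2 < b ∧
        2 * (e.2 ^ 2 + e.1 ^ 2 + 2 ^ 2) = e.2 + b * (e.1 + b * 2)) ∧
      (y, z) ∈ S ∧ 0 < 4 * y - b ∧ 0 < z ∧ 2 * M * (4 * y - b) ≤ (3 * M + 2 * j) * b ∧
      π ^ (M + 1 - j) ∣ ⟨4 * y - b, 4 * z - 1⟩ := by
    intro j
    induction j with
    | zero =>
      intro _
      have hr1 : (1 : ℤ) ≤ r := by
        by_contra hc
        have h0 : (r : ℤ) = 0 := by omega
        rw [h0] at hr
        obtain ⟨σ, hσ⟩ := (dvd_pow_self π (Nat.succ_ne_zero M)).trans hr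
        have h1 := congrArg Zsqrtd.norm hσ
        rw [Zsqrtd.norm_mul] at h1
        have h2 : 0 ≤ σ.norm := GaussianInt.norm_nonneg σ
        have h3 : π.norm = (a ^ 2 + 1070) ^ 2 + (2 * a) ^ 2 := by simp [hπ, Zsqrtd.norm]; ring
        have h4 : 4850 < π.norm := by rw [h3]; nlinarith [sq_nonneg a, sq_nonneg (a ^ 2)]
        have h5 : π.norm * σ.norm = 4850 := by rw [← h1]; simp [Zsqrtd.norm]
        rcases h2.eq_or_lt with h6 | h6
        · rw [← h6] at h5; simp at h5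
        · have h7 : π.norm * 1 ≤ π.norm * σ.norm := mul_le_mul_of_nonneg_left h6 (by omega)
          omega
      refine ⟨{(34 * r ^ 2 + 13 * r + 9, 68 * r ^ 2 + 17 * r + 17)}, 34 * r ^ 2 + 13 * r + 9,
        68 * r ^ 2 + 17 * r + 17, by simp, ?_, by simp, by nlinarith, by positivity, ?_, ?_⟩
      · intro e he
        rw [Finset.mem_singleton] at he
        subst he
        refine ⟨le_rfl, by positivity, by simp only; nlinarith, by positivity, by simp only; nlinarith, ?_⟩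
        simp only
        rw [hb]; ring
      · have : 2 * (4 * (34 * (r : ℤ) ^ 2 + 13 * r + 9) - b) ≤ 3 * b := by nlinarith
        push_cast
        nlinarith
      · rw [Nat.sub_zero]
        convert hr using 2
        · rw [hb]; ring
        · ring
    | succ j ih =>
      intro hj
      obtain ⟨S, y, z, hS, hG, hm, hy, hz, hw, σ, hσ⟩ := ih (by omega)
      obtain ⟨-, g1, g2, g3, g4, g5⟩ := hG _ hm
      simp only at g1 g2 g3 g4 g5
      have hj' : (j : ℤ) + 1 ≤ M := by exact_mod_cast hj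
      rw [show M + 1 - j = (M + 1 - (j + 1)) + 1 by omega, pow_succ, mul_assoc, mul_comm π σ,
        ← mul_assoc] at hσ
      have hdv : π ^ (M + 1 - (j + 1)) ∣ π ^ (M + 1 - (j + 1)) * σ := dvd_mul_right _ _
      generalize π ^ (M + 1 - (j + 1)) * σ = τ at hσ hdv
      obtain ⟨g, h⟩ := τ
      have e1 : 4 * y - b = g * (a ^ 2 + 1070) - h * (2 * a) := by
        have := congrArg Zsqrtd.re hσ
        simp [hπ] at this
        linarith
      have e2 : 4 * z - 1 = g * (2 * a) + h * (a ^ 2 + 1070) := by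
        have := congrArg Zsqrtd.im hσ
        simpa [hπ] using this
      have hU2 : 2 * (4 * y - b) ≤ 5 * b := by
        have : M * (2 * (4 * y - b)) ≤ M * (5 * b) := by nlinarith
        exact le_of_mul_le_mul_left this hM'
      obtain ⟨r1, r2, r3, r4⟩ := rot a b M _ _ g h hM' (by omega) hb17 hy (by omega) hU2 (by omega)
        (by linear_combination 8 * g5) e1 e2
      have ha0 : 0 < a := by omega
      have p1 : 0 < a * g := by positivity
      have p2 : 0 ≤ a * h := by positivity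
      have hw' : 2 * M * (4 * (y + a * h) - b) ≤ (3 * M + 2 * ((j + 1 : ℕ) : ℤ)) * b := by
        push_cast; nlinarith
      have hU3 : 2 * (4 * (y + a * h) - b) ≤ 5 * b := by
        have : M * (2 * (4 * (y + a * h) - b)) ≤ M * (5 * b) := by push_cast at hw'; nlinarith
        exact le_of_mul_le_mul_left this hM'
      refine ⟨insert (y + a * h, z - a * g) S, y + a * h, z - a * g, ?_, ?_, Finset.mem_insert_self _ _,
        by linarith, by linarith, hw', ?_⟩
      · rw [Finset.card_insert_of_notMem, hS]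
        intro hc
        have := (hG _ hc).1
        simp only at this
        linarith
      · intro e he
        rcases Finset.mem_insert.mp he with rfl | he
        · refine ⟨le_rfl, by simp only; linarith, by simp only; linarith, by simp only; linarith,
            by simp only; linarith, ?_⟩
          simp only
          linear_combination g5 + a * h * e1 - a * g * e2
        · exact ⟨by linarith [(hG e he).1], (hG e he).2⟩
      · have : (⟨4 * (y + a * h) - b, 4 * (z - a * g) - 1⟩ : GaussianInt) = ⟨g, h⟩ * star π := by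
          ext <;> simp [hπ]
          · linarith
          · linarith
        rw [this]
        exact hdv.mul_right _
  obtain ⟨S, y, z, hS, hG, -⟩ := key M le_rfl
  exact ⟨S, hS, fun e he => (hG e he).2⟩

end Pool.Agent.H16.Elated
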