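import Mathlib
import Pool.Agent.H16.DivBound

set_option autoImplicit false

namespace Pool.Agent.H16

open Finset

def elM (Y : Multiset ℕ) : ℕ := Y.prod + Y.sum - Multiset.card Y - 1

def elRec (Y : Multiset ℕ) (e : ℕ) : Multiset ℕ :=
  ((Y.prod - elM Y / e) * (e - 1)) ::ₘ
    (Y + Multiset.replicate (Y.prod - elM Y / e - 1 - Multiset.card Y) 1)

theorem el_sum_le (Y : Multiset ℕ) (h : ∀ x ∈ Y, 2 ≤ x) :
    Y.sum + 1 ≤ Y.prod + Multiset.card Y := by
  induction Y using Multiset.induction_on with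
  | empty => simp
  | cons a t ih =>
    have ha : 2 ≤ a := h a (Multiset.mem_cons_self _ _)
    have ih' := ih (fun x hx => h x (Multiset.mem_cons_of_mem hx))
    have hp : 1 ≤ t.prod := Multiset.one_le_prod_of_one_le
      (fun x hx => le_trans (by norm_num) (h x (Multiset.mem_cons_of_mem hx)))
    simp only [Multiset.sum_cons, Multiset.prod_cons, Multiset.card_cons]
    nlinarith

theorem el_sum_le2 (Y : Multiset ℕ) (h : ∀ x ∈ Y, 2 ≤ x) (h2 : 2 ≤ Multiset.card Y) :
    2 * Y.sum ≤ Y.prod + 2 * Multiset.card Y := by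
  induction Y using Multiset.induction_on with
  | empty => simp at h2
  | cons a t _ =>
    have ha : 2 ≤ a := h a (Multiset.mem_cons_self _ _)
    have ht : ∀ x ∈ t, 2 ≤ x := fun x hx => h x (Multiset.mem_cons_of_mem hx)
    have ih' := el_sum_le t ht
    have hp : 2 ≤ t.prod := by
      have hc : 0 < Multiset.card t := by simp at h2; omega
      obtain ⟨b, hb⟩ := Multiset.card_pos_iff_exists_mem.1 hc
      have h1 : b ∣ t.prod := Multiset.dvd_prod hb
      have h3 : 0 < t.prod := Multiset.one_le_prod_of_one_le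
        (fun x hx => le_trans (by norm_num) (ht x hx))
      exact (ht b hb).trans (Nat.le_of_dvd h3 h1)
    simp only [Multiset.sum_cons, Multiset.prod_cons, Multiset.card_cons]
    obtain ⟨a', rfl⟩ := Nat.exists_eq_add_of_le ha
    obtain ⟨b', hb'⟩ := Nat.exists_eq_add_of_le hp
    rw [hb'] at ih' ⊢
    nlinarith [Nat.zero_le (a' * b')]

theorem el_key (p : ℕ) (hp : p.Prime) (s : Multiset ℕ) (hc : Multiset.card s = p)
    (hpos : ∀ x ∈ s, 0 < x) (he : s.prod = p * s.sum) :
    ∃ Y : Multiset ℕ, ∃ e : ℕ, (∀ x ∈ Y, 2 ≤ x) ∧ e ∈ (elM Y).divisors ∧ Y.prod ≤ 4 * p ∧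
      elM Y ≤ 2 * Y.prod ∧ elRec Y e = s := by
  classical
  have hdvd : p ∣ s.prod := ⟨_, he⟩
  obtain ⟨x, hx, y, rfl⟩ := hp.prime.exists_mem_multiset_dvd hdvd
  obtain ⟨t, rfl⟩ := Multiset.exists_cons_of_mem hx
  have hp2 := hp.two_le
  have hy : 0 < y := Nat.pos_of_mul_pos_left (hpos _ hx) 
  have ht : ∀ x ∈ t, 0 < x := fun x hx => hpos x (Multiset.mem_cons_of_mem hx)
  set Y := t.filter (fun x => 2 ≤ x) with hY
  set O := t.filter (fun x => ¬ 2 ≤ x) with hO
  have htYO : Y + O = t := Multiset.filter_add_not _ _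
  have hO1 : O = Multiset.replicate (Multiset.card O) 1 := by
    rw [Multiset.eq_replicate]
    refine ⟨rfl, ?_⟩
    intro b hb
    rw [hO, Multiset.mem_filter] at hb
    have := ht b hb.1
    omega
  set j := Multiset.card O with hj
  have hY2 : ∀ x ∈ Y, 2 ≤ x := fun x hx => (Multiset.mem_filter.1 hx).2
  rw [← htYO, hO1] at hc he
  simp only [Multiset.card_cons, Multiset.card_add, Multiset.card_replicate, Multiset.prod_cons,
    Multiset.prod_add, Multiset.prod_replicate, one_pow, mul_one, Multiset.sum_cons,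
    Multiset.sum_add, Multiset.sum_replicate, smul_eq_mul] at hc he
  set P := Y.prod with hP
  set S := Y.sum with hS
  set k := Multiset.card Y with hk
  have he2 : y * P = p * y + (S + j) := by
    have : p * (y * P) = p * (p * y + (S + j)) := by rw [← he]; ring
    exact Nat.eq_of_mul_eq_mul_left hp.pos this
  have hkS : k ≤ S := by
    have := Multiset.card_nsmul_le_sum (s := Y) (a := 1)
      (fun x hx => le_trans (by norm_num) (hY2 x hx))
    simpa using this
  have hPp : p < P := by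
    by_contra hcon
    push Not at hcon
    have : y * P ≤ y * p := Nat.mul_le_mul_left _ hcon
    have h3 : p * y = y * p := Nat.mul_comm _ _
    omega
  obtain ⟨d, hd⟩ := Nat.exists_eq_add_of_lt hPp
  have hM : elM Y = (y + 1) * (d + 1) := by
    unfold elM
    rw [← hP, ← hS, ← hk]
    have h1 : y * P = p * y + y * (d + 1) := by rw [hd]; ring
    have h2 : (y + 1) * (d + 1) = y * (d + 1) + d + 1 := by ring
    omega
  have hle := el_sum_le Y hY2
  rw [← hP, ← hS, ← hk] at hle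
  have hM' : elM Y + k + 1 = P + S := by
    unfold elM
    rw [← hP, ← hS, ← hk]; omega
  refine ⟨Y, y + 1, hY2, ?_, ?_, ?_, ?_⟩
  · rw [hM]
    exact Nat.mem_divisors.2 ⟨Dvd.intro _ rfl, by positivity⟩
  · rw [← hP]
    rcases Nat.lt_or_ge y 2 with hy2 | hy2
    · have hy1 : y = 1 := by omega
      subst hy1
      rcases Nat.lt_or_ge k 2 with hk2 | hk2
      · have hk01 : k = 0 ∨ k = 1 := by omega
        rcases hk01 with h0 | h1
        · have : Y = 0 := Multiset.card_eq_zero.1 h0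
          have : P = 1 := by rw [hP, this]; simp
          omega
        · obtain ⟨a, ha⟩ := Multiset.card_eq_one.1 h1
          have e1 : P = a := by rw [hP, ha]; simp
          have e2 : S = a := by rw [hS, ha]; simp
          omega
      · have := el_sum_le2 Y hY2 hk2
        rw [← hP, ← hS, ← hk] at this
        omega
    · have : 3 * (d + 1) ≤ (y + 1) * (d + 1) := Nat.mul_le_mul_right _ (by omega)
      omega
  · rw [← hP]; omega
  · unfold elRec
    rw [← hP, ← hk, hM, Nat.mul_div_cancel_left _ (Nat.succ_pos y)]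
    have e1 : P - (d + 1) = p := by omega
    have e2 : p - 1 - k = j := by omega
    rw [e1, e2, Nat.add_sub_cancel, ← hO1, htYO]

theorem el_sum_bound (ε : ℝ) (hε : 0 < ε) :
    ∃ C : ℝ, ∀ T : Finset (Multiset ℕ),
      (∀ s ∈ T, (Multiset.card s).Prime ∧ (∀ x ∈ s, 0 < x) ∧
        s.prod = Multiset.card s * s.sum) →
      ∑ s ∈ T, ((Multiset.card s : ℕ) : ℝ) ^ (-(1 + ε)) ≤ C := by
  classical
  obtain ⟨C1, hC1, hdiv⟩ := divisor_bound (ε / 2) (by linarith)
  obtain ⟨C2, hC2⟩ := multiset_weight_bound (1 + ε / 2) (by linarith)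
  refine ⟨C1 * 2 ^ (ε / 2) * 4 ^ (1 + ε) * C2, ?_⟩
  intro T hT
  have hex : ∀ s : Multiset ℕ, ∃ Y : Multiset ℕ, ∃ e : ℕ, s ∈ T →
      ((∀ x ∈ Y, 2 ≤ x) ∧ e ∈ (elM Y).divisors ∧ Y.prod ≤ 4 * Multiset.card s ∧
      elM Y ≤ 2 * Y.prod ∧ elRec Y e = s) := by
    intro s
    by_cases hs : s ∈ T
    · obtain ⟨h1, h2, h3⟩ := hT s hs
      obtain ⟨Y, e, h⟩ := el_key _ h1 s rfl h2 h3
      exact ⟨Y, e, fun _ => h⟩
    · exact ⟨0, 0, fun h => absurd h hs⟩
  choose fY fe hf using hex
  rw [← Finset.sum_fiberwise_of_maps_to (s := T) (t := T.image fY) (g := fY)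
    (fun s hs => Finset.mem_image_of_mem _ hs)]
  have hF : ∀ Y ∈ T.image fY, ∀ x ∈ Y, 2 ≤ x := by
    intro Y hY
    obtain ⟨s, hs, rfl⟩ := Finset.mem_image.1 hY
    exact (hf s hs).1
  have hmain : ∀ Y ∈ T.image fY,
      ∑ s ∈ T with fY s = Y, ((Multiset.card s : ℕ) : ℝ) ^ (-(1 + ε)) ≤
        C1 * 2 ^ (ε / 2) * 4 ^ (1 + ε) * ((Y.prod : ℕ) : ℝ) ^ (-(1 + ε / 2)) := by
    intro Y hY
    have hP : 0 < Y.prod := Multiset.one_le_prod_of_one_le
        (fun x hx => le_trans (by norm_num) (hF Y hY x hx))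
    have hPr : (0 : ℝ) < (Y.prod : ℕ) := by exact_mod_cast hP
    obtain ⟨s0, hs0, hs0Y⟩ := Finset.mem_image.1 hY
    have hM0 : elM Y ≠ 0 := by
      have := (hf s0 hs0).2.1
      rw [hs0Y] at this
      exact (Nat.mem_divisors.1 this).2
    have hM2 : elM Y ≤ 2 * Y.prod := by
      have := (hf s0 hs0).2.2.2.1
      rwa [hs0Y] at this
    have hcard : (T.filter (fun s => fY s = Y)).card ≤ (elM Y).divisors.card := by
      apply Finset.card_le_card_of_injOn fe
      · intro s hs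
        have hs' := Finset.mem_filter.1 hs
        have := (hf s hs'.1).2.1
        rw [hs'.2] at this
        exact this
      · intro s hs s' hs' h
        have h1 := Finset.mem_filter.1 hs
        have h2 := Finset.mem_filter.1 hs'
        rw [← (hf s h1.1).2.2.2.2, ← (hf s' h2.1).2.2.2.2, h1.2, h2.2, h]
    have hterm : ∀ s ∈ T.filter (fun s => fY s = Y),
        ((Multiset.card s : ℕ) : ℝ) ^ (-(1 + ε)) ≤
          4 ^ (1 + ε) * ((Y.prod : ℕ) : ℝ) ^ (-(1 + ε)) := by
      intro s hs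
      have h1 := Finset.mem_filter.1 hs
      have h2 := (hf s h1.1).2.2.1
      rw [h1.2] at h2
      have h3 : ((Y.prod : ℕ) : ℝ) / 4 ≤ (Multiset.card s : ℕ) := by
        rw [div_le_iff₀ (by norm_num)]
        have : ((Y.prod : ℕ) : ℝ) ≤ ((4 * Multiset.card s : ℕ) : ℝ) := by exact_mod_cast h2
        push_cast at this ⊢
        linarith
      have h4 := Real.rpow_le_rpow_of_nonpos (by positivity) h3 (z := -(1 + ε)) (by linarith)
      refine h4.trans (le_of_eq ?_)
      rw [Real.div_rpow hPr.le (by norm_num), Real.rpow_neg (x := 4) (by norm_num)]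
      field_simp
    have hd := hdiv _ hM0
    have hd2 : ((elM Y : ℕ) : ℝ) ^ (ε / 2) ≤ 2 ^ (ε / 2) * ((Y.prod : ℕ) : ℝ) ^ (ε / 2) := by
      rw [← Real.mul_rpow (by norm_num) hPr.le]
      apply Real.rpow_le_rpow (by positivity) _ (by linarith)
      exact_mod_cast hM2
    calc _ ≤ (T.filter (fun s => fY s = Y)).card •
          ((4 : ℝ) ^ (1 + ε) * ((Y.prod : ℕ) : ℝ) ^ (-(1 + ε))) :=
          Finset.sum_le_card_nsmul _ _ _ hterm
      _ = ((T.filter (fun s => fY s = Y)).card : ℝ) *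
          ((4 : ℝ) ^ (1 + ε) * ((Y.prod : ℕ) : ℝ) ^ (-(1 + ε))) := by rw [nsmul_eq_mul]
      _ ≤ (C1 * (2 ^ (ε / 2) * ((Y.prod : ℕ) : ℝ) ^ (ε / 2))) *
          ((4 : ℝ) ^ (1 + ε) * ((Y.prod : ℕ) : ℝ) ^ (-(1 + ε))) := by
          apply mul_le_mul_of_nonneg_right _ (by positivity)
          calc ((T.filter (fun s => fY s = Y)).card : ℝ) ≤ ((elM Y).divisors.card : ℕ) := by
                exact_mod_cast hcard
            _ ≤ _ := hd
            _ ≤ _ := mul_le_mul_of_nonneg_left hd2 hC1.le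
      _ = C1 * 2 ^ (ε / 2) * 4 ^ (1 + ε) *
          (((Y.prod : ℕ) : ℝ) ^ (ε / 2) * ((Y.prod : ℕ) : ℝ) ^ (-(1 + ε))) := by ring
      _ = _ := by
          rw [← Real.rpow_add hPr]
          congr 2
          ring
  calc _ ≤ ∑ Y ∈ T.image fY,
        C1 * 2 ^ (ε / 2) * 4 ^ (1 + ε) * ((Y.prod : ℕ) : ℝ) ^ (-(1 + ε / 2)) :=
        Finset.sum_le_sum hmain
    _ = C1 * 2 ^ (ε / 2) * 4 ^ (1 + ε) *
        ∑ Y ∈ T.image fY, ((Y.prod : ℕ) : ℝ) ^ (-(1 + ε / 2)) := by rw [Finset.mul_sum]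
    _ ≤ _ := mul_le_mul_of_nonneg_left (hC2 _ hF) (by positivity)

theorem erdos_last_equation :
    ¬ (∃ ε : ℝ, 0 < ε ∧ ∃ N : ℕ, ∀ n : ℕ, N ≤ n →
      (n : ℝ) ^ ε <
        (({s : Multiset ℕ | Multiset.card s = n ∧ (∀ x ∈ s, 0 < x) ∧
            s.prod = n * s.sum}.ncard : ℕ) : ℝ)) := by
  classical
  rintro ⟨ε, hε, N, hN⟩
  obtain ⟨C, hC⟩ := el_sum_bound ε hε
  apply not_summable_one_div_on_primes
  rw [← summable_nat_add_iff N]
  apply summable_of_sum_le (c := C)
  · intro n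
    apply Set.indicator_nonneg
    intro a _
    positivity
  intro u
  let Sol : ℕ → Set (Multiset ℕ) := fun n =>
    {s : Multiset ℕ | Multiset.card s = n ∧ (∀ x ∈ s, 0 < x) ∧ s.prod = n * s.sum}
  have hfin : ∀ n : ℕ, (Sol (n + N)).Finite := by
    intro n
    apply Set.finite_of_ncard_ne_zero
    intro h0
    have h1 := hN (n + N) (by omega)
    have h2 : (0 : ℝ) ≤ ((n + N : ℕ) : ℝ) ^ ε := by positivity
    have h3 : ((Sol (n + N)).ncard : ℝ) = 0 := by exact_mod_cast h0
    have h4 : ((n + N : ℕ) : ℝ) ^ ε < ((Sol (n + N)).ncard : ℝ) := h1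
    linarith
  let Q := u.filter (fun n => (n + N).Prime)
  let T := Q.biUnion (fun n => (hfin n).toFinset)
  have hT : ∀ s ∈ T, (Multiset.card s).Prime ∧ (∀ x ∈ s, 0 < x) ∧
      s.prod = Multiset.card s * s.sum := by
    intro s hs
    obtain ⟨n, hn, hs⟩ := Finset.mem_biUnion.1 hs
    rw [Set.Finite.mem_toFinset] at hs
    obtain ⟨h1, h2, h3⟩ := hs
    rw [h1]
    exact ⟨(Finset.mem_filter.1 hn).2, h2, h3⟩
  refine le_trans ?_ (hC T hT)
  rw [Finset.sum_biUnion]
  · calc ∑ n ∈ u, Set.indicator {p : ℕ | p.Prime} (fun n : ℕ => (1 : ℝ) / n) (n + N)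
        = ∑ n ∈ Q, (1 : ℝ) / ((n + N : ℕ) : ℝ) := by
          rw [Finset.sum_filter]
          apply Finset.sum_congr rfl
          intro n _
          simp only [Set.indicator, Set.mem_ofPred_eq]
      _ ≤ _ := by
          apply Finset.sum_le_sum
          intro n hn
          have hp := (Finset.mem_filter.1 hn).2
          have hpos : (0 : ℝ) < ((n + N : ℕ) : ℝ) := by exact_mod_cast hp.pos
          have e1 : ∑ s ∈ (hfin n).toFinset, ((Multiset.card s : ℕ) : ℝ) ^ (-(1 + ε)) =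
              ((Sol (n + N)).ncard : ℝ) * ((n + N : ℕ) : ℝ) ^ (-(1 + ε)) := by
            rw [Set.ncard_eq_toFinset_card _ (hfin n), ← nsmul_eq_mul, ← Finset.sum_const]
            apply Finset.sum_congr rfl
            intro s hs
            rw [Set.Finite.mem_toFinset] at hs
            rw [hs.1]
          rw [e1]
          have h4 : ((n + N : ℕ) : ℝ) ^ ε < ((Sol (n + N)).ncard : ℝ) := hN (n + N) (by omega)
          calc (1 : ℝ) / ((n + N : ℕ) : ℝ)
              = ((n + N : ℕ) : ℝ) ^ ε * ((n + N : ℕ) : ℝ) ^ (-(1 + ε)) := by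
                rw [← Real.rpow_add hpos, show ε + -(1 + ε) = -1 by ring, Real.rpow_neg_one]
                simp
            _ ≤ _ := mul_le_mul_of_nonneg_right h4.le (by positivity)
  · intro a _ b _ hab
    rw [Function.onFun, Finset.disjoint_left]
    intro s h1 h2
    rw [Set.Finite.mem_toFinset] at h1 h2
    apply hab
    have := h1.1.symm.trans h2.1
    omega

end Pool.Agent.H16
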