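import Mathlib

set_option autoImplicit false

namespace Pool.Agent.H16.FNoeth

variable {S : Type} [Semigroup S]

/-- An equivalence relation compatible with right multiplication. -/
def RightCong (r : Setoid S) : Prop := ∀ a b s : S, r a b → r (a * s) (b * s)

/-- `r` is the smallest right congruence containing some finite set of pairs. -/
def FinGen (r : Setoid S) : Prop :=
  ∃ X : Set (S × S), X.Finite ∧ (∀ p ∈ X, r p.1 p.2) ∧
    ∀ r' : Setoid S, RightCong r' → (∀ p ∈ X, r' p.1 p.2) → ∀ a b, r a b → r' a b

/-- Every right congruence of finite index is finitely generated. -/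
def FNoetherian (S : Type) [Semigroup S] : Prop :=
  ∀ r : Setoid S, RightCong r → Finite (Quotient r) → FinGen r

/-- Every element lies in a subsemigroup that is a group. -/
def CompletelyRegular (S : Type) [Semigroup S] : Prop :=
  ∀ x : S, ∃ H : Subsemigroup S, x ∈ H ∧ ∃ e ∈ H, ∀ a ∈ H,
    e * a = a ∧ a * e = a ∧ ∃ b ∈ H, a * b = e ∧ b * a = e

/-- Generated, as a semigroup, by a finite subset. -/
def FG (S : Type) [Semigroup S] : Prop :=
  ∃ A : Set S, A.Finite ∧ Subsemigroup.closure A = ⊤

end Pool.Agent.H16.FNoeth
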