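import Mathlib
import Pool.Agent.H16.FNoethDefs

set_option autoImplicit false

namespace Pool.Agent.H16.FNoeth

abbrev G := ℤ →₀ ℤ

noncomputable def c (n : ℤ) : G := Finsupp.single n 1

inductive T
  | g (a : ℤ)
  | j (i : ℤ) (w : G) (v : ℤ)

open T

noncomputable def mul : T → T → T
  | g a, g b => g (a + b)
  | g a, j i w v => j (a + i) w v
  | j i w v, g b => j i w (v + b)
  | j i w v, j k u m => j i (w + c (v + k) + u) m

noncomputable instance : Semigroup T where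
  mul := mul
  mul_assoc x y z := by
    show mul (mul x y) z = mul x (mul y z)
    cases x <;> cases y <;> cases z <;> simp [mul, add_assoc]

theorem gg (a b : ℤ) : g a * g b = g (a + b) := rfl
theorem gj (a i v : ℤ) (w : G) : g a * j i w v = j (a + i) w v := rfl
theorem jg (b i v : ℤ) (w : G) : j i w v * g b = j i w (v + b) := rfl
theorem jj (i v k m : ℤ) (w u : G) : j i w v * j k u m = j i (w + c (v + k) + u) m := rfl

theorem cr : CompletelyRegular T := by
  rintro (a | ⟨i, w, v⟩)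
  · refine ⟨⟨Set.range g, ?_⟩, ⟨a, rfl⟩, g 0, ⟨0, rfl⟩, ?_⟩
    · rintro _ _ ⟨a, rfl⟩ ⟨b, rfl⟩; exact ⟨_, rfl⟩
    · rintro _ ⟨a, rfl⟩
      exact ⟨by simp [gg], by simp [gg], g (-a), ⟨_, rfl⟩, by simp [gg], by simp [gg]⟩
  · refine ⟨⟨Set.range (j i · v), ?_⟩, ⟨w, rfl⟩, j i (-c (v + i)) v, ⟨_, rfl⟩, ?_⟩
    · rintro _ _ ⟨a, rfl⟩ ⟨b, rfl⟩; exact ⟨_, rfl⟩
    · rintro _ ⟨a, rfl⟩
      refine ⟨by simp [jj], by simp [jj], j i (-a - c (v + i) - c (v + i)) v, ⟨_, rfl⟩, ?_, ?_⟩ <;>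
        rw [jj] <;> congr 1 <;> abel

def wt : T → G
  | g _ => 0
  | j _ w _ => w

theorem nfg : ¬ FG T := by
  rintro ⟨A, hA, h⟩
  obtain ⟨n, hn⟩ := (hA.biUnion fun x _ => (wt x).support.finite_toSet).exists_notMem
  have : Subsemigroup.closure A ≤ ⟨{x | 0 ≤ wt x n}, ?_⟩ := Subsemigroup.closure_le.2 fun x hx => by
    have : wt x n = 0 := by
      by_contra e
      exact hn (Set.mem_biUnion hx (by simpa using e))
    exact this.ge
  · have := this (h ▸ Subsemigroup.mem_top (j 0 (-c n) 0))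
    simp [wt, c] at this
  · rintro (a | ⟨i, w, v⟩) (b | ⟨k, u, m⟩) h1 h2 <;> simp_all [gg, gj, jg, jj, wt]
    have : 0 ≤ c (v + k) n := by simp only [c, Finsupp.single_apply]; split_ifs <;> norm_num
    omega

theorem per {α : Type} (r : Setoid α) (f : ℤ → α) (N : ℤ) (h : ∀ a, r (f a) (f (a + N))) (a q : ℤ) :
    r (f a) (f (a - q * N)) := by
  have : Function.Periodic (fun a => Quotient.mk r (f a)) N := fun a => (Quotient.sound (h a)).symm
  exact Quotient.exact (this.sub_int_mul_eq (x := a) q).symm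

theorem per' {α : Type} (r : Setoid α) (f : ℤ → α) (N : ℤ) (h : ∀ a, r (f a) (f (a + N))) (a : ℤ) :
    r (f a) (f (a % N)) := by
  rw [Int.emod_def, mul_comm]; exact per r f N h a _

theorem pig {α : Type} (r : Setoid α) [Finite (Quotient r)] (f : ℤ → α)
    (h : ∀ a b d, r (f a) (f b) → r (f (a + d)) (f (b + d))) :
    r (f 0) (f (Nat.card (Quotient r)).factorial) := by
  have := Fintype.ofFinite (Quotient r)
  have k : ∀ a b : Fin (Nat.card (Quotient r) + 1), a < b → r (f a) (f b) →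
      r (f 0) (f (Nat.card (Quotient r)).factorial) := fun a b hab e => by
    obtain ⟨q, hq⟩ := Nat.dvd_factorial (Nat.sub_pos_of_lt hab) (n := Nat.card (Quotient r)) (by omega)
    have := per r f ((b - a : ℕ) : ℤ) (fun x => by
      have := h _ _ (x - a) e
      rwa [show (a : ℤ) + (x - a) = x by ring, show (b : ℤ) + (x - a) = x + ((b - a : ℕ) : ℤ) by
        rw [Nat.cast_sub hab.le]; ring] at this) 0 (-q)
    rwa [show (0 : ℤ) - -q * ((b - a : ℕ) : ℤ) = (Nat.card (Quotient r)).factorial by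
      rw [hq]; push_cast; ring] at this
  obtain ⟨a, b, hab, e⟩ := Fintype.exists_ne_map_eq_of_card_lt
    (fun a : Fin (Nat.card (Quotient r) + 1) => Quotient.mk r (f a)) (by simp)
  rcases lt_or_gt_of_ne hab with h | h
  · exact k a b h (Quotient.exact e)
  · exact k b a h (Quotient.exact e.symm)

noncomputable def H (N : ℤ) : AddSubgroup G :=
  AddSubgroup.closure ({x | ∃ k, x = c (k + N) - c k} ∪ {x | ∃ k ∈ Set.Ico 0 N, x = N • c k})

theorem hfin (N : ℕ) (hN : 0 < N) : Finite (G ⧸ H N) := by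
  have e : ∀ k, (c k : G ⧸ H N) = c (k % N) := fun k =>
    per' ⊥ (fun k => (c k : G ⧸ H N)) N (fun a => QuotientAddGroup.eq.2
      (AddSubgroup.subset_closure (Or.inl ⟨a, by abel⟩))) k
  have m : ∀ k : ℤ, k % N ∈ Set.Ico (0 : ℤ) N := fun k =>
    ⟨Int.emod_nonneg _ (by omega), Int.emod_lt_of_pos _ (by omega)⟩
  have ind : ∀ K : AddSubgroup (G ⧸ H N), (∀ k ∈ Set.Ico (0 : ℤ) N, (c k : G ⧸ H N) ∈ K) → K = ⊤ := by
    intro K hK
    rw [eq_top_iff]
    rintro x -
    obtain ⟨w, rfl⟩ := QuotientAddGroup.mk_surjective x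
    induction w using Finsupp.induction_linear with
    | zero => exact K.zero_mem
    | add a b ha hb => exact K.add_mem ha hb
    | single k n =>
      rw [show Finsupp.single k n = n • c k by simp [c], QuotientAddGroup.mk_zsmul, e]
      exact K.zsmul_mem (hK _ (m k)) _
  have : AddGroup.FG (G ⧸ H N) := AddGroup.fg_iff.2 ⟨(fun k => (c k : G ⧸ H N)) '' Set.Ico (0 : ℤ) N,
    ind _ fun k hk => AddSubgroup.subset_closure ⟨k, hk, rfl⟩, (Set.finite_Ico _ _).image _⟩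
  refine AddCommGroup.finite_of_fg_torsion _ fun x => ?_
  have := ind (AddCommGroup.torsion _) fun k hk => isOfFinAddOrder_iff_nsmul_eq_zero.2 ⟨N, hN, by
    rw [← QuotientAddGroup.mk_nsmul, QuotientAddGroup.eq_zero_iff]
    exact AddSubgroup.subset_closure (Or.inr ⟨k, hk, by simp⟩)⟩
  exact (this ▸ AddSubgroup.mem_top x : x ∈ AddCommGroup.torsion _)

theorem fn : FNoetherian T := by
  intro r hr hf
  obtain ⟨N, hN, p⟩ : ∃ N : ℕ, 0 < N ∧ ∀ f : ℤ → T,
      (∀ a b d, r (f a) (f b) → r (f (a + d)) (f (b + d))) → r (f 0) (f N) :=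
    ⟨_, Nat.factorial_pos _, pig r⟩
  have := hfin N hN
  let W : Set G := insert 0 (Set.range (Quotient.out : G ⧸ H N → G))
  have hW : W.Finite := (Set.finite_range _).insert 0
  have hI := Set.finite_Ico (0 : ℤ) N
  have m : ∀ k : ℤ, k % N ∈ Set.Ico (0 : ℤ) N := fun k =>
    ⟨Int.emod_nonneg _ (by omega), Int.emod_lt_of_pos _ (by omega)⟩
  let R : Set T := g '' Set.Icc (0 : ℤ) N ∪ (fun x : ℤ × G × ℤ => j x.1 x.2.1 x.2.2) ''
    (Set.Ico (0 : ℤ) N ×ˢ (W ∪ (fun k => (N : ℤ) • c k) '' Set.Ico (0 : ℤ) N) ×ˢ Set.Icc (0 : ℤ) N)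
  have hR : R.Finite := ((Set.finite_Icc _ _).image _).union
    ((hI.prod ((hW.union (hI.image _)).prod (Set.finite_Icc _ _))).image _)
  refine ⟨R ×ˢ R ∩ {x | r x.1 x.2}, (hR.prod hR).inter_of_left _, fun _ h => h.2, fun r' hr' hX => ?_⟩
  have key : ∀ x, ∃ y ∈ R, (r ⊓ r') x y := by
    have hs : RightCong (r ⊓ r') := fun a b s h => ⟨hr a b s h.1, hr' a b s h.2⟩
    have hx : ∀ a ∈ R, ∀ b ∈ R, r a b → (r ⊓ r') a b := fun a ha b hb h => ⟨h, hX (a, b) ⟨⟨ha, hb⟩, h⟩⟩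
    generalize r ⊓ r' = s at hs hx
    have z : (0 : ℤ) ∈ Set.Icc (0 : ℤ) N := by simp
    have z' : (N : ℤ) ∈ Set.Icc (0 : ℤ) N := by simp
    have h1 : s (g 0) (g N) := hx _ (Or.inl ⟨_, z, rfl⟩) _ (Or.inl ⟨_, z', rfl⟩)
      (p g fun a b d h => hr _ _ (g d) h)
    have h2 : ∀ i ∈ Set.Ico (0 : ℤ) N, ∀ w ∈ W, s (j i w 0) (j i w N) := fun i hi w hw =>
      hx _ (Or.inr ⟨(i, w, 0), ⟨hi, Or.inl hw, z⟩, rfl⟩) _ (Or.inr ⟨(i, w, N), ⟨hi, Or.inl hw, z'⟩, rfl⟩)
        (p (j i w) fun a b d h => hr _ _ (g d) h)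
    have h3 : ∀ i ∈ Set.Ico (0 : ℤ) N, ∀ k ∈ Set.Ico (0 : ℤ) N, s (j i 0 0) (j i ((N : ℤ) • c k) 0) :=
      fun i hi k hk => hx _ (Or.inr ⟨(i, 0, 0), ⟨hi, Or.inl (Or.inl rfl), z⟩, rfl⟩) _
        (Or.inr ⟨(i, _, 0), ⟨hi, Or.inr ⟨k, hk, rfl⟩, z⟩, rfl⟩) (by
          simpa using p (fun a => j i (a • c k) 0) fun a b d h => by
            simpa [jj, add_smul] using hr _ _ (j 0 (d • c k - c 0) 0) h)
    rintro (a | ⟨i, w, v⟩)
    · exact ⟨_, Or.inl ⟨_, Set.Ico_subset_Icc_self (m a), rfl⟩, per' s g N (fun a => by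
        simpa [gg, add_comm] using hs _ _ (g a) h1) a⟩
    · have a1 := per' s (j · w v) N (fun a => by
        simpa [gj, add_comm] using hs _ _ (j a w v) h1) i
      have hi := m i
      generalize i % N = i' at a1 hi
      have a2 : ∀ x ∈ H N, ∀ u, s (j i' u v) (j i' (u + x) v) := by
        intro x hx
        induction hx using AddSubgroup.closure_induction with
        | mem x hx =>
          intro u
          rcases hx with ⟨k, rfl⟩ | ⟨k, hk, rfl⟩
          · have := hs _ _ (j k (u - c k) v) (h2 i' hi 0 (Or.inl rfl))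
            simp only [jj, zero_add, add_sub_cancel, add_comm (N : ℤ)] at this
            convert this using 2
            abel
          · simpa [jj, add_comm] using hs _ _ (j 0 (u - c 0) v) (h3 i' hi k hk)
        | zero => intro u; rw [add_zero]
        | add x y _ _ hx hy => intro u; rw [← add_assoc]; exact s.trans (hx u) (hy _)
        | neg x _ hx => intro u; simpa using s.symm (hx (u + -x))
      obtain ⟨x, hx⟩ := QuotientAddGroup.mk_out_eq_mul (H N) w
      have hw : w + x ∈ W := Or.inr ⟨_, hx⟩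
      have a3 := per' s (j i' (w + x)) N (fun a => by
        simpa [jg, add_comm] using hs _ _ (g a) (h2 i' hi _ hw)) v
      exact ⟨_, Or.inr ⟨(i', w + x, v % N), ⟨hi, Or.inl hw, Set.Ico_subset_Icc_self (m v)⟩, rfl⟩,
        s.trans a1 (s.trans (a2 x x.2 w) a3)⟩
  intro a b h
  obtain ⟨x, hx, e⟩ := key a
  obtain ⟨y, hy, e'⟩ := key b
  exact r'.trans e.2 (r'.trans (hX (x, y) ⟨⟨hx, hy⟩, r.trans (r.symm e.1) (r.trans h e'.1)⟩) (r'.symm e'.2))

theorem main : ∃ (S : Type) (_ : Semigroup S), FNoetherian S ∧ CompletelyRegular S ∧ ¬ FG S :=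
  ⟨T, inferInstance, fn, cr, nfg⟩

end Pool.Agent.H16.FNoeth
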