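import Mathlib

set_option autoImplicit false

namespace Pool.Agent.H16.FermatK

def pm (a N : ℕ) : ℕ → ℕ → ℕ
  | 0, e => a ^ e % N
  | f + 1, e => if e = 0 then 1 % N else (pm a N f (e / 2)) ^ 2 * a ^ (e % 2) % N

theorem pm_eq (a N f : ℕ) : ∀ e, pm a N f e = a ^ e % N := by
  induction f with
  | zero => intro e; rfl
  | succ f ih =>
    intro e
    unfold pm
    split_ifs with h
    · rw [h, pow_zero]
    · rw [ih]
      conv_rhs => rw [← Nat.div_add_mod' e 2, pow_add, pow_mul]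
      exact ((Nat.mod_modEq _ _).pow 2).mul_right _

theorem proth (k n a : ℕ) (hk0 : 0 < k) (hk : k < 2 ^ (n + 1))
    (h : a ^ (k * 2 ^ n) % (k * 2 ^ (n + 1) + 1) = k * 2 ^ (n + 1)) :
    Nat.Prime (k * 2 ^ (n + 1) + 1) := by
  set N := k * 2 ^ (n + 1) + 1 with hN
  have h2 : 0 < k * 2 ^ (n + 1) := by positivity
  by_contra hc
  have hq : (N.minFac).Prime := Nat.minFac_prime (by omega)
  have hd : N.minFac ∣ N := Nat.minFac_dvd N
  have hsq := Nat.minFac_sq_le_self (by omega : 0 < N) hc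
  set q := N.minFac
  have : Fact q.Prime := ⟨hq⟩
  have h0 : ((N : ℕ) : ZMod q) = 0 := (ZMod.natCast_eq_zero_iff _ _).mpr hd
  have h1 : ((a : ZMod q) ^ k) ^ 2 ^ n = -1 := by
    have e := Nat.mod_add_div (a ^ (k * 2 ^ n)) N
    rw [h] at e
    have e2 := congrArg (Nat.cast : ℕ → ZMod q) e
    rw [Nat.cast_add, Nat.cast_mul N, h0, zero_mul, add_zero, Nat.cast_pow] at e2
    rw [← pow_mul, ← e2]
    rw [hN, Nat.cast_add, Nat.cast_one] at h0
    exact eq_neg_of_add_eq_zero_left h0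
  have hq2 : q ≠ 2 := by
    intro h3
    rw [h3, hN, pow_succ, ← mul_assoc] at hd
    omega
  have : Fact (2 < q) := ⟨lt_of_le_of_ne hq.two_le hq2.symm⟩
  have h3 : orderOf ((a : ZMod q) ^ k) = 2 ^ (n + 1) :=
    orderOf_eq_prime_pow (by rw [h1]; exact ZMod.neg_one_ne_one) (by rw [pow_succ, pow_mul, h1]; simp)
  have h4 : (a : ZMod q) ^ k ≠ 0 := by
    intro h5
    rw [h5, zero_pow (by positivity)] at h1
    simp at h1
  have h5 := ZMod.orderOf_dvd_card_sub_one h4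
  rw [h3] at h5
  have h6 := Nat.le_of_dvd (by have := hq.two_le; omega) h5
  have h7 : 2 ^ (n + 1) + 1 ≤ q := by have := hq.two_le; omega
  nlinarith

theorem uniq (p : ℕ) (hp : p.Prime) (b x y : ℤ) (h1 : (p : ℤ) = 1 + 3 * b ^ 2)
    (h2 : (p : ℤ) = x ^ 2 + 3 * y ^ 2) : y = b ∨ y = -b := by
  have hp' : Prime (p : ℤ) := Nat.prime_iff_prime_int.mp hp
  have hp0 : (0 : ℤ) < p := by exact_mod_cast hp.pos
  have key : ∀ y : ℤ, (p : ℤ) = x ^ 2 + 3 * y ^ 2 → (p : ℤ) ∣ y - b * x → y ^ 2 = b ^ 2 := by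
    intro y h2 ⟨c, hc⟩
    have e : (p : ℤ) ^ 2 = (x + 3 * b * y) ^ 2 + 3 * (y - b * x) ^ 2 := by
      rw [sq, h1]; nth_rewrite 1 [← h1]; rw [h2]; ring
    rw [hc] at e
    have hc0 : c = 0 := by
      by_contra h0
      have : 1 ≤ c ^ 2 := by
        have := sq_pos_of_ne_zero h0
        omega
      nlinarith [sq_nonneg (x + 3 * b * y), mul_pos hp0 hp0]
    have hy : y = b * x := by rw [hc0] at hc; linarith
    have : (p : ℤ) * (x ^ 2 - 1) = 0 := by
      have : (p : ℤ) = x ^ 2 * p := by nth_rewrite 2 [h1]; rw [h2, hy]; ring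
      linarith
    have h3 : x ^ 2 = 1 := by
      rcases mul_eq_zero.mp this with h | h
      · omega
      · linarith
    rw [hy, mul_pow, h3, mul_one]
  have hd : (p : ℤ) ∣ (y - b * x) * (-y - b * x) := ⟨b ^ 2 - y ^ 2, by
    linear_combination y ^ 2 * h1 - b ^ 2 * h2⟩
  rcases hp'.dvd_or_dvd hd with h | h
  · exact sq_eq_sq_iff_eq_or_eq_neg.mp (key y h2 h)
  · have := key (-y) (by rw [h2]; ring) h
    exact sq_eq_sq_iff_eq_or_eq_neg.mp (by rw [← this]; ring)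

theorem cubic (p : ℕ) (hp : p.Prime) (h3 : 3 ∣ p - 1) (e : ℕ)
    (h : (2 : ZMod p) ^ 2 ^ e = 1) : ∃ x y : ℤ, (p : ℤ) = x ^ 2 + 3 * (3 * y) ^ 2 := by
  have : Fact p.Prime := ⟨hp⟩
  obtain ⟨w, hw⟩ : ∃ w : ℂ, IsPrimitiveRoot w 3 := ⟨_, Complex.isPrimitiveRoot_exp 3 (by norm_num)⟩
  have hw1 : w ^ 2 + w + 1 = 0 := by
    have := hw.geom_sum_eq_zero (by norm_num)
    simp [Finset.sum_range_succ] at this
    linear_combination this
  have h3' : 3 ∣ Fintype.card (ZMod p) - 1 := by rwa [ZMod.card]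
  obtain ⟨χ, hχ⟩ := MulChar.exists_mulChar_orderOf (ZMod p) h3' hw
  have hχ3 : χ ^ 3 = 1 := by rw [← hχ]; exact pow_orderOf_eq_one χ
  have hχ1 : χ ≠ 1 := by rintro rfl; simp at hχ
  have hχ2 : χ * χ ≠ 1 := by
    intro h0
    have : orderOf χ ∣ 2 := orderOf_dvd_of_pow_eq_one (by rw [sq, h0])
    rw [hχ] at this
    omega
  have adj : ∀ z ∈ Algebra.adjoin ℤ {w}, ∃ a b : ℤ, z = a + b * w := by
    intro z hz
    induction hz using Algebra.adjoin_induction with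
    | mem x hx => exact ⟨0, 1, by simpa using hx⟩
    | algebraMap r => exact ⟨r, 0, by simp⟩
    | add x y _ _ hx hy =>
      obtain ⟨a, b, rfl⟩ := hx
      obtain ⟨c, d, rfl⟩ := hy
      exact ⟨a + c, b + d, by push_cast; ring⟩
    | mul x y _ _ hx hy =>
      obtain ⟨a, b, rfl⟩ := hx
      obtain ⟨c, d, rfl⟩ := hy
      exact ⟨a * c - b * d, a * d + b * c - b * d, by push_cast; linear_combination b * d * hw1⟩
  obtain ⟨z, hz, hJ⟩ := exists_jacobiSum_eq_neg_one_add (by norm_num) hχ3 hχ3 h3' hw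
  obtain ⟨c, d, rfl⟩ := adj z hz
  have hJ' : jacobiSum χ χ = ((3 * d - 1 : ℤ) : ℂ) + ((3 * (d - c) : ℤ) : ℂ) * w := by
    rw [hJ]; push_cast; linear_combination (c + d * w - 3 * d) * hw1
  have h20 : (2 : ZMod p) ≠ 0 := by
    intro h0
    rw [h0, zero_pow (by positivity)] at h
    exact zero_ne_one h
  have hχtwo : χ 2 = 1 := by
    have a1 : χ 2 ^ 2 ^ e = 1 := by rw [← map_pow, h, map_one]
    have a2 : χ 2 ^ 3 = 1 := by
      rw [← MulChar.pow_apply' χ (by norm_num), hχ3, MulChar.one_apply h20.isUnit]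
    have a3 := pow_gcd_eq_one.mpr ⟨a1, a2⟩
    rwa [Nat.Coprime.gcd_eq_one (Nat.Coprime.pow_left _ (by norm_num)), pow_one] at a3
  have hhalf : χ 2⁻¹ = 1 := by
    have : χ 2⁻¹ * χ 2 = 1 := by rw [← map_mul, inv_mul_cancel₀ h20, map_one]
    rwa [hχtwo, mul_one] at this
  -- the sum modulo 2
  let H : AddSubgroup ℂ :=
    { carrier := {z | ∃ a b : ℤ, z = 2 * (a + b * w)}
      add_mem' := by
        rintro _ _ ⟨a, b, rfl⟩ ⟨c, d, rfl⟩
        exact ⟨a + c, b + d, by push_cast; ring⟩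
      zero_mem' := ⟨0, 0, by simp⟩
      neg_mem' := by
        rintro _ ⟨a, b, rfl⟩
        exact ⟨-a, -b, by push_cast; ring⟩ }
  have hmem : ∑ x ∈ Finset.univ.erase (2⁻¹ : ZMod p), χ x * χ (1 - x) ∈ H := by
    rw [← QuotientAddGroup.eq_zero_iff, ← QuotientAddGroup.mk'_apply, map_sum]
    refine Finset.sum_involution (fun x _ => 1 - x) ?_ ?_ ?_ ?_
    · intro x _
      rw [← map_add, QuotientAddGroup.mk'_apply, QuotientAddGroup.eq_zero_iff]
      obtain ⟨a, b, hab⟩ := adj _ (Subalgebra.mul_mem _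
        (MulChar.apply_mem_algebraAdjoin_of_pow_eq_one hχ3 hw x)
        (MulChar.apply_mem_algebraAdjoin_of_pow_eq_one hχ3 hw (1 - x)))
      exact ⟨a, b, by rw [← hab, sub_sub_cancel]; ring⟩
    · intro x hx _ h0
      apply (Finset.mem_erase.mp hx).1
      field_simp
      linear_combination -h0
    · intro x hx
      refine Finset.mem_erase.mpr ⟨fun h0 => (Finset.mem_erase.mp hx).1 ?_, Finset.mem_univ _⟩
      field_simp at h0 ⊢
      linear_combination -h0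
    · intro x _
      exact sub_sub_cancel _ _
  obtain ⟨a, b, hab⟩ := hmem
  have hJ2 : jacobiSum χ χ = 1 + 2 * (a + b * w) := by
    rw [← hab, jacobiSum, ← Finset.add_sum_erase _ _ (Finset.mem_univ (2⁻¹ : ZMod p))]
    have : (1 : ZMod p) - 2⁻¹ = 2⁻¹ := by field_simp; norm_num
    rw [this, hhalf, mul_one]
  have hpar : 3 * (d - c) = 2 * b := by
    have e1 : ((3 * d - 1 - 1 - 2 * a : ℤ) : ℂ) + ((3 * (d - c) - 2 * b : ℤ) : ℂ) * w = 0 := by
      rw [hJ2] at hJ'; push_cast at hJ' ⊢; linear_combination -hJ'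
    generalize 3 * d - 1 - 1 - 2 * a = u at e1
    obtain ⟨v, hv⟩ : ∃ v, v = 3 * (d - c) - 2 * b := ⟨_, rfl⟩
    rw [← hv] at e1
    have e2 : ((u ^ 2 - u * v + v ^ 2 : ℤ) : ℂ) = 0 := by
      push_cast; linear_combination (u - v - v * w) * e1 + v ^ 2 * hw1
    have e3 : u ^ 2 - u * v + v ^ 2 = 0 := by exact_mod_cast e2
    have : v = 0 := by nlinarith [sq_nonneg (2 * u - v), sq_nonneg v]
    omega
  have hcard := jacobiSum_mul_jacobiSum_inv (F := ZMod p) (F' := ℂ)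
    (by rw [ZMod.ringChar_zmod_n, ringChar.eq_zero]; exact hp.ne_zero.symm) hχ1 hχ1 hχ2
  have hconj : jacobiSum χ⁻¹ χ⁻¹ = starRingEnd ℂ (jacobiSum χ χ) := by
    rw [← jacobiSum_ringHomComp, ← MulChar.star_eq_inv]; rfl
  have hwc : starRingEnd ℂ w = -1 - w := by
    have n1 : ‖w‖ = 1 := hw.norm'_eq_one (by norm_num)
    have n2 : w * starRingEnd ℂ w = 1 := by
      rw [Complex.mul_conj, Complex.normSq_eq_norm_sq, n1]; simp
    have hw0 : w ≠ 0 := hw.ne_zero (by norm_num)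
    apply mul_left_cancel₀ hw0
    linear_combination n2 + hw1
  rw [hconj, hJ', ZMod.card] at hcard
  simp only [map_add, map_mul, map_intCast, hwc] at hcard
  obtain ⟨y, hy⟩ : ∃ y, d - c = 2 * y := ⟨(d - c) / 2, by omega⟩
  refine ⟨3 * d - 1 - 3 * y, y, ?_⟩
  rw [hy] at hcard
  have : ((p : ℤ) : ℂ) = (((3 * d - 1 - 3 * y) ^ 2 + 3 * (3 * y) ^ 2 : ℤ) : ℂ) := by
    push_cast at hcard ⊢
    linear_combination -hcard - 36 * y ^ 2 * hw1
  exact_mod_cast this

theorem primeK : Nat.Prime (4463529072281177764134243219140506893685665760891410172347 * 2 ^ (215 + 1) + 1) :=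
  proth _ 215 5 (by norm_num) (by norm_num) (by rw [← pm_eq 5 _ 500]; decide +kernel)

theorem cover (j : ℕ) : ∃ d, 1 < d ∧ d < 4463529072281177764134243219140506893685665760891410172347 ∧ d ∣ 4463529072281177764134243219140506893685665760891410172347 * 2 ^ (2 * j + 1) + 1 := by
  have key : ∀ r < 120, ∃ d ∈ [5, 7, 241, 97, 673, 11, 31, 151, 1321, 61681, 4562284561],
      2 ^ 240 % d = 1 ∧ 1 < d ∧ d < 4463529072281177764134243219140506893685665760891410172347 ∧ (4463529072281177764134243219140506893685665760891410172347 * 2 ^ (2 * r + 1) + 1) % d = 0 := by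
    decide +kernel
  obtain ⟨d, -, h1, h2, h3, h4⟩ := key (j % 120) (Nat.mod_lt _ (by norm_num))
  refine ⟨d, h2, h3, ?_⟩
  have e : 2 * j + 1 = 240 * (j / 120) + (2 * (j % 120) + 1) := by omega
  have h5 : 2 ^ 240 ≡ 1 [MOD d] := by rw [Nat.ModEq, h1, Nat.mod_eq_of_lt h2]
  have h6 : 2 ^ (2 * j + 1) ≡ 2 ^ (2 * (j % 120) + 1) [MOD d] := by
    rw [e, pow_add, pow_mul]
    simpa using (h5.pow (j / 120)).mul_right (2 ^ (2 * (j % 120) + 1))
  exact (Nat.modEq_zero_iff_dvd).mp (((h6.mul_left _).add_right 1).trans h4)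

end Pool.Agent.H16.FermatK
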