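import Mathlib

set_option autoImplicit false

namespace Pool.Agent.H16.GForm
open List

/-- A context-free grammar: nonterminal alphabet `N`, terminal alphabet `T`, productions `P`, start letter `S`.
In right-hand sides `inl a` is the terminal `a` and `inr A` is the nonterminal `A`. -/
structure Gr where
  N : Finset ℕ
  T : Finset ℕ
  P : Finset (ℕ × List (ℕ ⊕ ℕ))
  S : ℕ

/-- The start letter and the productions are over the alphabets, and there is no empty right-hand side. -/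
def Gr.WF (G : Gr) : Prop :=
  G.S ∈ G.N ∧ ∀ p ∈ G.P, p.1 ∈ G.N ∧ p.2 ≠ [] ∧ (∀ a, .inl a ∈ p.2 → a ∈ G.T) ∧ ∀ A, .inr A ∈ p.2 → A ∈ G.N

/-- One derivation step. -/
def Gr.Step (G : Gr) (u v : List (ℕ ⊕ ℕ)) : Prop :=
  ∃ p ∈ G.P, ∃ x y, u = x ++ [.inr p.1] ++ y ∧ v = x ++ p.2 ++ y

/-- The generated language. -/
def Gr.lang (G : Gr) : Set (List ℕ) := {w | Relation.ReflTransGen G.Step [.inr G.S] (w.map .inl)}

/-- `G'` is an interpretation of `G`. -/
def Interp (G' G : Gr) : Prop :=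
  ∃ σT σN : ℕ → Finset ℕ,
    (∀ x ∈ G.T, (σT x).Nonempty) ∧ (∀ x ∈ G.N, (σN x).Nonempty) ∧
    (∀ x ∈ G.T, ∀ y ∈ G.T, x ≠ y → Disjoint (σT x) (σT y)) ∧ (∀ x ∈ G.N, ∀ y ∈ G.N, x ≠ y → Disjoint (σN x) (σN y)) ∧
    G'.T = G.T.biUnion σT ∧ G'.N = G.N.biUnion σN ∧ G'.S ∈ σN G.S ∧
    ∀ p' ∈ G'.P, ∃ p ∈ G.P, p'.1 ∈ σN p.1 ∧
      Forall₂ (Sum.LiftRel (fun a' a => a' ∈ σT a) fun A' A => A' ∈ σN A) p'.2 p.2

/-- The grammatical family of `G`. -/
def Gr.fam (G : Gr) : Set (Set (List ℕ)) := {L | ∃ G', Interp G' G ∧ L = G'.lang}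

open Classical in
/-- The `a`-restriction: delete every production containing a terminal other than `a`. -/
noncomputable def Gr.restrict (G : Gr) (a : ℕ) : Gr :=
  ⟨G.N, G.T, G.P.filter fun p => ∀ b, .inl b ∈ p.2 → b = a, G.S⟩

section
variable {N N' : Type}

inductive Gn (R : Set (N × List (ℕ ⊕ N))) : List (ℕ ⊕ N) → List ℕ → Prop
  | nil : Gn R [] []
  | t (a : ℕ) {s : List (ℕ ⊕ N)} {w : List ℕ} : Gn R s w → Gn R (.inl a :: s) (a :: w)
  | n {A : N} {o s : List (ℕ ⊕ N)} {u w : List ℕ} : (A, o) ∈ R → Gn R o u → Gn R s w → Gn R (.inr A :: s) (u ++ w)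

variable {R : Set (N × List (ℕ ⊕ N))}

theorem Gn.app {s s' : List (ℕ ⊕ N)} {w w' : List ℕ} (h : Gn R s w) (h' : Gn R s' w') : Gn R (s ++ s') (w ++ w') := by
  induction h with
  | nil => exact h'
  | t a _ ih => exact ih.t a
  | n h1 h2 _ _ ih => exact append_assoc _ _ _ ▸ .n h1 h2 ih

theorem Gn.split {s s' : List (ℕ ⊕ N)} {w : List ℕ} (h : Gn R (s ++ s') w) :
    ∃ u v, w = u ++ v ∧ Gn R s u ∧ Gn R s' v := by
  induction s generalizing w with
  | nil => exact ⟨[], w, rfl, .nil, h⟩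
  | cons x s ih =>
    cases h with
    | t a h =>
      obtain ⟨u, v, rfl, h1, h2⟩ := ih h
      exact ⟨a :: u, v, rfl, h1.t a, h2⟩
    | n h0 h' h =>
      obtain ⟨u, v, rfl, h1, h2⟩ := ih h
      exact ⟨_, v, (append_assoc ..).symm, .n h0 h' h1, h2⟩

theorem Gn.one {A : N} {o : List (ℕ ⊕ N)} {u : List ℕ} (h : (A, o) ∈ R) (h' : Gn R o u) : Gn R [.inr A] u := by
  simpa using Gn.n h h' .nil

theorem gn_one {A : N} {u : List ℕ} : Gn R [.inr A] u ↔ ∃ o, (A, o) ∈ R ∧ Gn R o u := by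
  refine ⟨fun h => ?_, fun ⟨o, a, b⟩ => .one a b⟩
  cases h with
  | n a b c => cases c; exact ⟨_, a, by simpa using b⟩

theorem Gn.map {R' : Set (N' × List (ℕ ⊕ N'))} (g : N → N') (hg : ∀ r ∈ R, (g r.1, r.2.map (Sum.map id g)) ∈ R')
    {s : List (ℕ ⊕ N)} {w : List ℕ} (h : Gn R s w) : Gn R' (s.map (Sum.map id g)) w := by
  induction h with
  | nil => exact .nil
  | t a _ ih => exact ih.t a
  | n h1 _ _ i1 i2 => exact .n (hg _ h1) i1 i2

theorem Gn.mem {s : List (ℕ ⊕ N)} {w : List ℕ} (h : Gn R s w) {c : ℕ} (hc : .inl c ∈ s) : c ∈ w := by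
  induction h <;> simp_all; tauto

theorem Gn.mem' {s : List (ℕ ⊕ N)} {w : List ℕ} (h : Gn R s w) {c : ℕ} (hc : c ∈ w) :
    .inl c ∈ s ∨ ∃ r ∈ R, .inl c ∈ r.2 := by
  induction h with
  | nil => simp at hc
  | t a _ ih => simp only [mem_cons, Sum.inl.injEq] at hc ⊢; tauto
  | n h1 _ _ i1 i2 =>
    rcases mem_append.1 hc with h | h
    · exact .inr ((i1 h).elim (fun h => ⟨_, h1, h⟩) id)
    · exact (i2 h).imp_left (.tail _)

theorem gn_filter (κ : ℕ → Prop) {A : N} {w : List ℕ} :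
    Gn {r ∈ R | ∀ c, .inl c ∈ r.2 → κ c} [.inr A] w ↔ Gn R [.inr A] w ∧ ∀ c ∈ w, κ c := by
  refine ⟨fun h => ⟨by simpa using h.map (R' := R) id fun r hr => by simpa using hr.1, fun c hc => ?_⟩, And.rec fun h h' => ?_⟩
  · rcases h.mem' hc with h | ⟨r, hr, h⟩
    · simp at h
    · exact hr.2 c h
  · generalize [Sum.inr A] = s at h
    induction h with
    | nil => exact .nil
    | t a _ ih => exact (ih fun c hc => h' c (.tail _ hc)).t a
    | n h1 h2 _ i1 i2 =>
      exact .n ⟨h1, fun c hc => h' c (mem_append_left _ (h2.mem hc))⟩ (i1 fun c hc => h' c (mem_append_left _ hc))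
        (i2 fun c hc => h' c (mem_append_right _ hc))

end

theorem lang_eq (G : Gr) : G.lang = {w | Gn (G.P : Set _) [.inr G.S] w} := by
  ext w
  simp only [Gr.lang, Set.mem_ofPred_eq]
  generalize [Sum.inr G.S] = s
  refine ⟨fun h => ?_, fun h => ?_⟩
  · induction h using Relation.ReflTransGen.head_induction_on with
    | refl =>
      induction w with
      | nil => exact .nil
      | cons a w ih => exact ih.t a
    | head e _ ih =>
      obtain ⟨p, hp, x, y, rfl, rfl⟩ := e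
      obtain ⟨_, v, rfl, h1, h2⟩ := ih.split
      obtain ⟨u, u', rfl, h1, h3⟩ := h1.split
      exact (h1.app (.one hp h3)).app h2
  · have ctx : ∀ x y {u v}, Relation.ReflTransGen G.Step u v → Relation.ReflTransGen G.Step (x ++ u ++ y) (x ++ v ++ y) :=
      fun x y u v h => by
        induction h with
        | refl => rfl
        | tail _ e ih =>
          obtain ⟨p, hp, a, b, e1, e2⟩ := e
          exact ih.tail ⟨p, hp, x ++ a, b ++ y, by simp [e1], by simp [e2]⟩
    induction h with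
    | nil => rfl
    | t a _ ih => simpa using ctx [.inl a] [] ih
    | @n A o s u w h1 _ _ i1 i2 =>
      refine .head ⟨_, h1, [], s, rfl, rfl⟩ ((ctx [] s i1).trans ?_)
      simpa using ctx (u.map .inl) [] i2

/-- Abstract interpretations with terminal map `τ`. -/
def AF (P : Finset (ℕ × List (ℕ ⊕ ℕ))) (S : ℕ) (τ : ℕ → ℕ) (L : Set (List ℕ)) : Prop :=
  ∃ (N : Type) (_ : Countable N) (R : Set (N × List (ℕ ⊕ N))) (S' : N) (ν : N → ℕ), R.Finite ∧ ν S' = S ∧
    (∀ r ∈ R, (ν r.1, r.2.map (Sum.map τ ν)) ∈ P) ∧ L = {w | Gn R [.inr S'] w}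

theorem fin_term {N : Type} {R : Set (N × List (ℕ ⊕ N))} (hR : R.Finite) : {c | ∃ r ∈ R, .inl c ∈ r.2}.Finite :=
  (hR.biUnion fun r _ => (r.2.finite_toSet.preimage Sum.inl_injective.injOn)).subset fun _ ⟨_, a, b⟩ =>
    Set.mem_biUnion a b

theorem fin_nt {N : Type} {R : Set (N × List (ℕ ⊕ N))} (hR : R.Finite) : {c | ∃ r ∈ R, .inr c ∈ r.2}.Finite :=
  (hR.biUnion fun r _ => (r.2.finite_toSet.preimage Sum.inr_injective.injOn)).subset fun _ ⟨_, a, b⟩ =>
    Set.mem_biUnion a b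

theorem inv_of (A : Finset ℕ) (σ : ℕ → Finset ℕ) (h : ∀ x ∈ A, ∀ y ∈ A, x ≠ y → Disjoint (σ x) (σ y)) :
    ∃ ν : ℕ → ℕ, ∀ x ∈ A, ∀ y ∈ σ x, ν y = x := by
  classical
  refine ⟨fun y => if h : ∃ x ∈ A, y ∈ σ x then h.choose else 0, fun x hx y hy => ?_⟩
  have e : ∃ x ∈ A, y ∈ σ x := ⟨x, hx, hy⟩
  simp only [dif_pos e]
  by_contra hne
  exact Finset.disjoint_left.1 (h _ e.choose_spec.1 _ hx hne) e.choose_spec.2 hy

theorem fam_iff (G : Gr) (hG : G.WF) (L : Set (List ℕ)) : L ∈ G.fam ↔ ∃ τ, AF G.P G.S τ L := by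
  classical
  constructor
  · rintro ⟨G', ⟨σT, σN, -, -, dT, dN, -, -, hS, hP⟩, rfl⟩
    obtain ⟨τ, hτ⟩ := inv_of _ _ dT
    obtain ⟨ν, hν⟩ := inv_of _ _ dN
    refine ⟨τ, ℕ, inferInstance, G'.P, G'.S, ν, G'.P.finite_toSet, hν _ hG.1 _ hS, fun r hr => ?_, lang_eq _⟩
    obtain ⟨⟨A, o⟩, hp, h1, h2⟩ := hP r hr
    obtain ⟨a1, -, a2, a3⟩ := hG.2 _ hp
    convert hp
    · exact hν _ a1 _ h1
    · simp only at h2 a2 a3
      generalize r.2 = o' at h2
      clear hp h1 a1
      induction h2 with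
      | nil => rfl
      | cons h _ ih =>
        rw [map_cons, ih (fun a ha => a2 a (.tail _ ha)) fun a ha => a3 a (.tail _ ha)]
        cases h with
        | inl h => simp [hτ _ (a2 _ (.head _)) _ h]
        | inr h => simp [hν _ (a3 _ (.head _)) _ h]
  · rintro ⟨τ, N, _, R, S', ν, hR, hS, hP, rfl⟩
    obtain ⟨f, hf⟩ := exists_injective_nat N
    obtain ⟨M, hM⟩ := (fin_term hR).bddAbove
    have : Nonempty N := ⟨S'⟩
    let U : Finset N := insert S' ((hR.image Prod.fst).toFinset ∪ (fin_nt hR).toFinset)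
    let g : N → ℕ := fun A => 2 * f A
    have hg : Function.Injective g := fun a b e => hf (by simp only [g] at e; omega)
    let σT : ℕ → Finset ℕ := fun x => insert (M + 1 + x) ((Finset.range (M + 1)).filter (τ · = x))
    let σN : ℕ → Finset ℕ := fun x => insert (2 * x + 1) ((U.filter (ν · = x)).image g)
    refine ⟨⟨G.N.biUnion σN, G.T.biUnion σT, hR.toFinset.image fun r => (g r.1, r.2.map (Sum.map id g)), g S'⟩,
      ⟨σT, σN, fun _ _ => Finset.insert_nonempty _ _, fun _ _ => Finset.insert_nonempty _ _, fun x _ y _ e => ?_,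
        fun x _ y _ e => ?_, rfl, rfl, Finset.mem_insert_of_mem (Finset.mem_image_of_mem _
          (Finset.mem_filter.2 ⟨Finset.mem_insert_self _ _, hS⟩)), fun p' hp' => ?_⟩, ?_⟩
    · simp only [σT, Finset.disjoint_left, Finset.mem_insert, Finset.mem_filter, Finset.mem_range]
      omega
    · simp only [σN, Finset.disjoint_left, Finset.mem_insert, Finset.mem_image, Finset.mem_filter]
      rintro _ (rfl | ⟨a, ⟨-, rfl⟩, rfl⟩) (h | ⟨b, ⟨-, rfl⟩, h⟩)
      · omega
      · simp only [g] at h; omega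
      · simp only [g] at h; omega
      · exact e (by rw [hg h])
    · obtain ⟨r, hr, rfl⟩ := Finset.mem_image.1 hp'
      rw [Set.Finite.mem_toFinset] at hr
      refine ⟨_, hP r hr, ?_, ?_⟩
      · simp only [σN, U, Finset.mem_insert, Finset.mem_image, Finset.mem_filter, Finset.mem_union,
          Set.Finite.mem_toFinset]
        exact .inr ⟨r.1, ⟨.inr (.inl ⟨r, hr, rfl⟩), rfl⟩, rfl⟩
      · simp only [forall₂_map_left_iff, forall₂_map_right_iff, forall₂_same]
        rintro (a | a) ha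
        · exact .inl (by simp [σT, Nat.lt_succ_of_le (hM ⟨r, hr, ha⟩)])
        · refine .inr ?_
          simp only [σN, U, Finset.mem_insert, Finset.mem_image, Finset.mem_filter, Finset.mem_union,
            Set.Finite.mem_toFinset]
          exact .inr ⟨a, ⟨.inr (.inr ⟨r, hr, ha⟩), rfl⟩, rfl⟩
    · rw [lang_eq]
      ext w
      refine ⟨fun h => h.map g fun r hr => by simpa using ⟨r.1, r.2, hr, rfl, rfl⟩, fun h => ?_⟩
      have hi := Function.leftInverse_invFun hg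
      have := h.map (R' := R) (Function.invFun g) fun p hp => by
        obtain ⟨r, hr, rfl⟩ := Finset.mem_image.1 hp
        rw [Set.Finite.mem_toFinset] at hr
        have e : Sum.map id (Function.invFun g) ∘ Sum.map (id : ℕ → ℕ) g = id := by
          funext x; rcases x with x | x <;> simp [hi _]
        simpa [e, hi r.1] using hr
      simpa [hi S'] using this

end Pool.Agent.H16.GForm
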