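import Pool.Agent.H16.GForm

set_option autoImplicit false

namespace Pool.Agent.H16.GForm
open List

variable {P : Finset (ℕ × List (ℕ ⊕ ℕ))} {S b : ℕ}

theorem AF.empty (τ : ℕ → ℕ) : AF P S τ ∅ :=
  ⟨ℕ, inferInstance, ∅, S, id, Set.finite_empty, rfl, by simp, by ext w; simp [gn_one]⟩

theorem AF.union {τ : ℕ → ℕ} {L L' : Set (List ℕ)} (h : AF P S τ L) (h' : AF P S τ L') : AF P S τ (L ∪ L') := by
  obtain ⟨N, _, R, S1, ν, hR, hS, hP, rfl⟩ := h
  obtain ⟨N', _, R', S2, ν', hR', hS', hP', rfl⟩ := h'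
  let f : N → Option (N ⊕ N') := fun A => some (.inl A)
  let f' : N' → Option (N ⊕ N') := fun A => some (.inr A)
  let R1 := (fun r : N × List (ℕ ⊕ N) => (f r.1, r.2.map (Sum.map id f))) '' R
  let R2 := (fun r : N' × List (ℕ ⊕ N') => (f' r.1, r.2.map (Sum.map id f'))) '' R'
  let R3 := (fun r : N × List (ℕ ⊕ N) => ((none : Option (N ⊕ N')), r.2.map (Sum.map id f))) '' {r ∈ R | r.1 = S1}
  let R4 := (fun r : N' × List (ℕ ⊕ N') => ((none : Option (N ⊕ N')), r.2.map (Sum.map id f'))) '' {r ∈ R' | r.1 = S2}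
  have k1 : ∀ s w, Gn (R1 ∪ R2 ∪ R3 ∪ R4) s w → (∀ o, s = map (Sum.map id f) o → Gn R o w) ∧
      ∀ o, s = map (Sum.map id f') o → Gn R' o w := by
    intro s w h
    induction h with
    | nil => constructor <;> (intro o e; obtain rfl := map_eq_nil_iff.1 e.symm; exact .nil)
    | t a _ ih =>
      constructor <;> rintro (_ | ⟨x | x, o⟩) e <;> simp at e
      exacts [e.1 ▸ (ih.1 o e.2).t a, e.1 ▸ (ih.2 o e.2).t a]
    | n h1 _ _ i1 i2 =>
      constructor <;> rintro (_ | ⟨x | x, o⟩) e <;> simp at e <;> obtain ⟨rfl, rfl⟩ := e <;>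
        rcases h1 with ((⟨r, hr, e⟩ | ⟨r, hr, e⟩) | ⟨r, hr, e⟩) | ⟨r, hr, e⟩ <;> simp [f, f'] at e
      · exact .n (e.1 ▸ hr) (i1.1 r.2 e.2.symm) (i2.1 o rfl)
      · exact .n (e.1 ▸ hr) (i1.2 r.2 e.2.symm) (i2.2 o rfl)
  refine ⟨Option (N ⊕ N'), inferInstance, R1 ∪ R2 ∪ R3 ∪ R4, none, fun x => x.elim S (Sum.elim ν ν'),
    (((hR.image _).union (hR'.image _)).union ((hR.sep _).image _)).union ((hR'.sep _).image _), rfl, ?_, ?_⟩
  · rintro _ (((⟨r, hr, rfl⟩ | ⟨r, hr, rfl⟩) | ⟨r, hr, rfl⟩) | ⟨r, hr, rfl⟩) <;>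
      simp only [map_map, Sum.map_comp_map]
    exacts [hP r hr, hP' r hr, hS ▸ hr.2 ▸ hP r hr.1, hS' ▸ hr.2 ▸ hP' r hr.1]
  · ext w
    simp only [Set.mem_union, Set.mem_ofPred_eq, gn_one]
    constructor
    · rintro (⟨o, h1, h2⟩ | ⟨o, h1, h2⟩)
      · exact ⟨_, .inl (.inr ⟨_, ⟨h1, rfl⟩, rfl⟩), h2.map f fun r hr => .inl (.inl (.inl ⟨r, hr, rfl⟩))⟩
      · exact ⟨_, .inr ⟨_, ⟨h1, rfl⟩, rfl⟩, h2.map f' fun r hr => .inl (.inl (.inr ⟨r, hr, rfl⟩))⟩
    · rintro ⟨o, ((⟨r, hr, e⟩ | ⟨r, hr, e⟩) | ⟨r, hr, e⟩) | ⟨r, hr, e⟩, h2⟩ <;> simp [f, f'] at e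
      · exact .inl ⟨r.2, hr.2 ▸ hr.1, (k1 _ _ h2).1 _ e.symm⟩
      · exact .inr ⟨r.2, hr.2 ▸ hr.1, (k1 _ _ h2).2 _ e.symm⟩

theorem AF.biUnion {ι : Type} {τ : ℕ → ℕ} {s : Set ι} (hs : s.Finite) {L : ι → Set (List ℕ)}
    (h : ∀ i ∈ s, AF P S τ (L i)) : AF P S τ (⋃ i ∈ s, L i) := by
  induction s, hs using Set.Finite.induction_on with
  | empty => simpa using AF.empty τ
  | insert _ _ ih =>
    rw [Set.biUnion_insert]
    exact (h _ (.inl rfl)).union (ih fun i hi => h i (.inr hi))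

section
variable {Q N : Type} (D : Q → ℕ → ℕ → Q → Prop) (Qs : Set Q)

inductive Run : Q → List ℕ → List ℕ → Q → Prop
  | nil (p : Q) : Run p [] [] p
  | cons {p m q : Q} {a a' : ℕ} {w w' : List ℕ} : D p a a' m → Run m w w' q → Run p (a :: w) (a' :: w') q

inductive Ann : Q → List (ℕ ⊕ N) → List (ℕ ⊕ Q × N × Q) → Q → Prop
  | nil (p : Q) : Ann p [] [] p
  | t {p m q : Q} {a a' : ℕ} {s : List (ℕ ⊕ N)} {s' : List (ℕ ⊕ Q × N × Q)} :
      D p a a' m → Ann m s s' q → Ann p (.inl a :: s) (.inl a' :: s') q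
  | n {p m q : Q} {A : N} {s : List (ℕ ⊕ N)} {s' : List (ℕ ⊕ Q × N × Q)} :
      m ∈ Qs → Ann m s s' q → Ann p (.inr A :: s) (.inr (p, A, m) :: s') q

variable {D Qs}

theorem Run.app {p m q : Q} {u u' v v' : List ℕ} (h : Run D p u u' m) (h' : Run D m v v' q) :
    Run D p (u ++ v) (u' ++ v') q := by
  induction h with
  | nil => exact h'
  | cons a _ ih => exact .cons a (ih h')

theorem Run.split {p q : Q} {u v w' : List ℕ} (h : Run D p (u ++ v) w' q) :
    ∃ m u' v', w' = u' ++ v' ∧ Run D p u u' m ∧ Run D m v v' q := by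
  induction u generalizing p w' with
  | nil => exact ⟨p, [], w', rfl, .nil p, h⟩
  | cons a u ih =>
    cases h with
    | cons d h => exact let ⟨m, u', v', e, h1, h2⟩ := ih h; ⟨m, _ :: u', v', e ▸ rfl, .cons d h1, h2⟩

theorem Run.mem (hc : ∀ p a a' m, D p a a' m → p ∈ Qs → m ∈ Qs) {p q : Q} {u u' : List ℕ} (h : Run D p u u' q)
    (hp : p ∈ Qs) : q ∈ Qs := by
  induction h with
  | nil => exact hp
  | cons d _ ih => exact ih (hc _ _ _ _ d hp)

theorem Ann.fin (hQ : Qs.Finite) (hD : ∀ p a, {x : ℕ × Q | D p a x.1 x.2}.Finite) (s : List (ℕ ⊕ N)) (p q : Q) :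
    {s' | Ann D Qs p s s' q}.Finite := by
  induction s generalizing p with
  | nil => exact (Set.finite_singleton []).subset fun s' h => by cases h; rfl
  | cons x s ih =>
    rcases x with a | A
    · refine ((hD p a).biUnion fun x _ => (ih x.2).image (.inl x.1 :: ·)).subset fun s' h => ?_
      cases h with
      | t d h => exact Set.mem_biUnion (x := (_, _)) d ⟨_, h, rfl⟩
    · refine (hQ.biUnion fun m _ => (ih m).image (.inr (p, A, m) :: ·)).subset fun s' h => ?_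
      cases h with
      | n d h => exact Set.mem_biUnion d ⟨_, h, rfl⟩

theorem Ann.proj {ν : N → ℕ} {p q : Q} {s : List (ℕ ⊕ N)} {s' : List (ℕ ⊕ Q × N × Q)} (h : Ann D Qs p s s' q) :
    s'.map (Sum.map (fun _ => b) fun x => ν x.2.1) = s.map (Sum.map (fun _ => b) ν) := by
  induction h <;> simp_all

theorem AF.trans [Countable Q] (hQ : Qs.Finite) (hD : ∀ p a, {x : ℕ × Q | D p a x.1 x.2}.Finite)
    (hc : ∀ p a a' m, D p a a' m → p ∈ Qs → m ∈ Qs) {p0 q0 : Q} (hp : p0 ∈ Qs) {L : Set (List ℕ)}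
    (h : AF P S (fun _ => b) L) : AF P S (fun _ => b) {w' | ∃ w ∈ L, Run D p0 w w' q0} := by
  obtain ⟨N, _, R, S1, ν, hR, hS, hP, rfl⟩ := h
  let R2 : Set ((Q × N × Q) × List (ℕ ⊕ Q × N × Q)) :=
    ⋃ p ∈ Qs, ⋃ q ∈ Qs, ⋃ r ∈ R, (fun s' => ((p, r.1, q), s')) '' {s' | Ann D Qs p r.2 s' q}
  have m2 : ∀ p A q s', ((p, A, q), s') ∈ R2 ↔ p ∈ Qs ∧ q ∈ Qs ∧ ∃ s, (A, s) ∈ R ∧ Ann D Qs p s s' q := by
    intro p A q s'
    simp only [R2, Set.mem_iUnion, Set.mem_image, Set.mem_ofPred_eq, Prod.mk.injEq]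
    exact ⟨fun ⟨_, a, _, b, r, c, _, d, ⟨e1, e2, e3⟩, e4⟩ => by subst e1 e2 e3 e4; exact ⟨a, b, r.2, c, d⟩,
      fun ⟨a, b, s, c, d⟩ => ⟨p, a, q, b, _, c, s', d, ⟨rfl, rfl, rfl⟩, rfl⟩⟩
  have k1 : ∀ s' w', Gn R2 s' w' → ∀ p s q, Ann D Qs p s s' q → ∃ w, Gn R s w ∧ Run D p w w' q := by
    intro s' w' h
    induction h with
    | nil => intro p s q h; cases h; exact ⟨[], .nil, .nil _⟩
    | t a _ ih =>
      intro p s q h
      cases h with
      | t d h => exact let ⟨w, h1, h2⟩ := ih _ _ _ h; ⟨_, h1.t _, .cons d h2⟩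
    | n h1 _ _ i1 i2 =>
      intro p s q h
      cases h with
      | n d h =>
        obtain ⟨-, -, o, h3, h4⟩ := (m2 ..).1 h1
        obtain ⟨u, a1, a2⟩ := i1 _ _ _ h4
        obtain ⟨w, b1, b2⟩ := i2 _ _ _ h
        exact ⟨_, .n h3 a1 b1, a2.app b2⟩
  have k2 : ∀ s w, Gn R s w → ∀ p w' q, p ∈ Qs → Run D p w w' q → ∃ s', Ann D Qs p s s' q ∧ Gn R2 s' w' := by
    intro s w h
    induction h with
    | nil => intro p w' q _ h; cases h; exact ⟨[], .nil _, .nil⟩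
    | t a _ ih =>
      intro p w' q hp h
      cases h with
      | cons d h => exact let ⟨_, h1, h2⟩ := ih _ _ _ (hc _ _ _ _ d hp) h; ⟨_, .t d h1, h2.t _⟩
    | n h1 _ _ i1 i2 =>
      intro p w' q hp h
      obtain ⟨m, u', v', rfl, r1, r2⟩ := h.split
      have hm := r1.mem hc hp
      obtain ⟨o', a1, a2⟩ := i1 _ _ _ hp r1
      obtain ⟨s', b1, b2⟩ := i2 _ _ _ hm r2
      exact ⟨_, .n hm b1, .n ((m2 ..).2 ⟨hp, hm, _, h1, a1⟩) a2 b2⟩
  refine ⟨Q × N × Q, inferInstance, R2, (p0, S1, q0), fun x => ν x.2.1, hQ.biUnion fun p _ => hQ.biUnion fun q _ =>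
    hR.biUnion fun r _ => (Ann.fin hQ hD _ _ _).image _, hS, ?_, ?_⟩
  · rintro ⟨⟨p, A, q⟩, s'⟩ hr
    obtain ⟨-, -, s, h1, h2⟩ := (m2 ..).1 hr
    simp only [h2.proj]
    exact hP _ h1
  · ext w'
    simp only [Set.mem_ofPred_eq, gn_one]
    constructor
    · rintro ⟨w, ⟨o, h1, h2⟩, h3⟩
      obtain ⟨s', a, c⟩ := k2 _ _ h2 _ _ _ hp h3
      exact ⟨s', (m2 ..).2 ⟨hp, h3.mem hc hp, o, h1, a⟩, c⟩
    · rintro ⟨s', h1, h2⟩
      obtain ⟨-, -, o, a, c⟩ := (m2 ..).1 h1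
      obtain ⟨w, d, e⟩ := k1 _ _ h2 _ _ _ c
      exact ⟨w, ⟨o, a, d⟩, e⟩

end

/-- Replace the initial part `u` by `u'` and relabel the rest along `ρ`. -/
def Op (u u' : List ℕ) (ρ : ℕ → ℕ → Prop) (L : Set (List ℕ)) : Set (List ℕ) :=
  {w' | ∃ v v', u ++ v ∈ L ∧ w' = u' ++ v' ∧ Forall₂ ρ v v'}

theorem AF.op {u u' : List ℕ} (hl : u.length = u'.length) {ρ : ℕ → ℕ → Prop} (hρ : ∀ a, {a' | ρ a a'}.Finite)
    {L : Set (List ℕ)} (h : AF P S (fun _ => b) L) : AF P S (fun _ => b) (Op u u' ρ L) := by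
  let D : List (ℕ × ℕ) → ℕ → ℕ → List (ℕ × ℕ) → Prop := fun p a a' q => p = (a, a') :: q ∨ (p = [] ∧ q = [] ∧ ρ a a')
  have k0 : ∀ w w', Run D [] w w' [] ↔ Forall₂ ρ w w' := fun w w' => by
    refine ⟨fun h => ?_, fun h => ?_⟩
    · induction w generalizing w' with
      | nil => cases h; exact .nil
      | cons a w ih =>
        cases h with
        | cons d h =>
          obtain d | ⟨-, rfl, d⟩ := d
          · simp at d
          · exact .cons d (ih _ h)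
    · induction h with
      | nil => exact .nil _
      | cons d _ ih => exact .cons (.inr ⟨rfl, rfl, d⟩) ih
  have k : ∀ z w w', Run D z w w' [] ↔ ∃ v v', w = z.map Prod.fst ++ v ∧ w' = z.map Prod.snd ++ v' ∧ Forall₂ ρ v v' := by
    intro z
    induction z with
    | nil => simp [k0]
    | cons x z ih =>
      intro w w'
      constructor
      · intro h
        cases h with
        | cons d h =>
          obtain d | ⟨d, -⟩ := d
          · obtain ⟨rfl, rfl⟩ := cons.inj d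
            obtain ⟨v, v', rfl, rfl, e⟩ := (ih _ _).1 h
            exact ⟨v, v', rfl, rfl, e⟩
          · simp at d
      · rintro ⟨v, v', rfl, rfl, e⟩
        exact .cons (.inl rfl) ((ih _ _).2 ⟨v, v', rfl, rfl, e⟩)
  have := AF.trans (D := D) (Qs := {q | q <:+ u.zip u'}) (p0 := u.zip u') (q0 := [])
    ((u.zip u').tails.finite_toSet.subset fun q hq => (mem_tails _ _).2 hq) (fun p a => ?_) ?_ (suffix_refl _) h
  · convert this using 1
    ext w'
    simp only [Op, Set.mem_ofPred_eq, k, map_fst_zip hl.le, map_snd_zip hl.ge]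
    exact ⟨fun ⟨v, v', a, c, d⟩ => ⟨_, a, v, v', rfl, c, d⟩, fun ⟨_, a, v, v', e, c, d⟩ => ⟨v, v', e ▸ a, c, d⟩⟩
  · refine ((Set.finite_singleton ((p.headD (0, 0)).2, p.tail)).union (((hρ a).image fun a' => (a', [])))).subset ?_
    rintro ⟨a', q⟩ (rfl | ⟨-, rfl, d⟩)
    exacts [.inl rfl, .inr ⟨a', d, rfl⟩]
  · rintro _ a a' m (rfl | ⟨-, rfl, -⟩) hp
    exacts [(suffix_cons _ _).trans hp, nil_suffix]

theorem hd_inj {α : Type} {p q p' q' : α} (h : p ≠ q) (h' : p' ≠ q') {s s' : List α} : ∀ i j : ℕ,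
    replicate i p ++ p :: q :: s = replicate j p' ++ p' :: q' :: s' → i = j ∧ p :: q :: s = p' :: q' :: s'
  | 0, 0, e => ⟨rfl, e⟩
  | 0, j + 1, e => by rcases j with _ | j <;> simp_all [replicate_succ]
  | i + 1, 0, e => by rcases i with _ | i <;> simp [replicate_succ] at e <;> grind
  | i + 1, j + 1, e => by
    simp only [replicate_succ, cons_append, cons.injEq] at e
    have := hd_inj h h' i j e.2
    exact ⟨by omega, this.2⟩

theorem piece {L : Set (List ℕ)} (hL : ¬ AF P S (fun _ => b) L) {m : ℕ} (hm : ∀ w ∈ L, ∀ c ∈ w, c < m) (h : ℕ) :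
    ∃ u, ¬ AF P S (fun _ => b) (Op u u (fun a a' => u.length = h ∧ a = a') L) := by
  by_contra hc
  push Not at hc
  have hf : {u : List ℕ | u.length ≤ h ∧ ∀ c ∈ u, c < m}.Finite := by
    refine ((finite_length_le (Fin m) h).image (map Fin.val)).subset fun u ⟨h1, h2⟩ => ?_
    exact ⟨u.attach.map fun c => ⟨c.1, h2 _ c.2⟩, by simpa using h1, by simp [Function.comp_def]⟩
  refine hL ?_
  convert AF.biUnion hf fun u _ => hc u
  ext w
  simp only [Set.mem_iUnion, Op, Set.mem_ofPred_eq]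
  constructor
  · intro hw
    refine ⟨w.take h, ⟨by simp, fun c hc => hm w hw c (mem_of_mem_take hc)⟩, w.drop h, w.drop h, by simpa, by simp, ?_⟩
    rw [forall₂_same]
    intro c hc
    have := length_pos_of_mem hc
    simp at this ⊢
    omega
  · rintro ⟨u, -, v, v', a, rfl, e⟩
    obtain rfl : v = v' := forall₂_eq_eq_eq ▸ e.imp fun _ _ h => h.2
    exact a

theorem AF.bdd {τ : ℕ → ℕ} {L : Set (List ℕ)} (h : AF P S τ L) : ∃ m, ∀ w ∈ L, ∀ c ∈ w, c < m := by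
  obtain ⟨N, _, R, S1, ν, hR, -, -, rfl⟩ := h
  obtain ⟨M, hM⟩ := (fin_term hR).bddAbove
  exact ⟨M + 1, fun w hw c hc => Nat.lt_succ_of_le (hM ((Gn.mem' hw hc).resolve_left (by simp)))⟩

theorem AF.color {τ : ℕ → ℕ} {L : Set (List ℕ)} (h : AF P S τ L) (κ : ℕ → Prop)
    (hκ : ∀ c, κ c → ∀ p ∈ P, .inl (τ c) ∈ p.2 → τ c = b) : AF P S (fun _ => b) {w ∈ L | ∀ c ∈ w, κ c} := by
  obtain ⟨N, _, R, S1, ν, hR, hS, hP, rfl⟩ := h
  refine ⟨N, inferInstance, {r ∈ R | ∀ c, .inl c ∈ r.2 → κ c}, S1, ν, hR.sep _, hS, fun r hr => ?_, ?_⟩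
  · convert hP r hr.1 using 2
    refine map_congr_left ?_
    rintro (c | c) hc
    · exact congrArg Sum.inl (hκ c (hr.2 c hc) _ (hP r hr.1) (mem_map_of_mem (f := Sum.map τ ν) hc)).symm
    · rfl
  · ext w
    simp [gn_filter]

theorem core {T : Finset ℕ} (hT : T.Nonempty) (hP : ∀ p ∈ P, ∀ a, .inl a ∈ p.2 → a ∈ T)
    {P0 : Finset (ℕ × List (ℕ ⊕ ℕ))} {S0 a0 : ℕ} (h : ∀ L, AF P0 S0 (fun _ => a0) L → ∃ τ, AF P S τ L) :
    ∃ b ∈ T, ∀ L, AF P0 S0 (fun _ => a0) L → AF P S (fun _ => b) L := by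
  classical
  by_contra hc
  push Not at hc
  choose! L hL hL' using hc
  choose! m0 hm0 using fun b hb => (hL b hb).bdd
  obtain ⟨k, hk⟩ : ∃ k, ∀ b ∈ T, ∀ w ∈ L b, ∀ c ∈ w, c < k + 2 :=
    ⟨T.sup m0, fun b hb w hw c hc => by have := hm0 b hb w hw c hc; have := Finset.le_sup (f := m0) hb; omega⟩
  choose! u hu using fun b hb => piece (hL' b hb) (hk b hb) (b + (k + 2))
  let M := T.card * (k + 2) + 1
  let hd : ℕ → (Fin (k + 2) → ℕ) → List ℕ := fun b x =>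
    if (u b).length = b + (k + 2) then replicate b (x 0) ++ ofFn x else replicate (u b).length (x 0)
  have hdl : ∀ b x, (u b).length = (hd b x).length := fun b x => by
    simp only [hd]; split_ifs with e <;> simp [e]
  let ρ : ℕ → (Fin (k + 2) → ℕ) → ℕ → ℕ → Prop := fun b x a a' =>
    (u b).length = b + (k + 2) ∧ ∃ j : Fin (k + 2), a = j ∧ a' = x j
  let X : Set (ℕ × (Fin (k + 2) → ℕ)) := (T : Set ℕ) ×ˢ {x | x.Injective ∧ ∀ j, x j < M}
  have hX : X.Finite := T.finite_toSet.prod ((Set.Finite.pi' fun _ => Set.finite_lt_nat M).subset fun x hx => hx.2)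
  obtain ⟨τ, hU⟩ := h _ (AF.biUnion hX (L := fun z => Op (u z.1) (hd z.1 z.2) (ρ z.1 z.2) (L z.1)) fun z hz =>
    (hL _ hz.1).op (hdl ..) fun a => (Set.finite_range z.2).subset (by rintro _ ⟨_, j, _, e⟩; exact ⟨j, e.symm⟩))
  obtain ⟨b0, hb0⟩ := hT
  obtain ⟨b, hb, hcard⟩ := Finset.exists_lt_card_fiber_of_mul_lt_card_of_maps_to (s := Finset.range M) (t := T)
    (f := fun c => if τ c ∈ T then τ c else b0) (n := k + 2) (fun c _ => by split_ifs <;> assumption) (by simp [M])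
  obtain ⟨x, hx, hx'⟩ : ∃ x : Fin (k + 2) → ℕ, x.Injective ∧ ∀ j, x j < M ∧ (if τ (x j) ∈ T then τ (x j) else b0) = b := by
    obtain ⟨s, hs, e⟩ := Finset.exists_subset_card_eq hcard.le
    exact ⟨s.orderEmbOfFin e, (s.orderEmbOfFin e).injective, fun j => by
      simpa using hs (s.orderEmbOfFin_mem e j)⟩
  have hU' := (hU.color (b := b) (· ∈ Set.range x) (by
    rintro _ ⟨j, rfl⟩ p hp e
    simpa [hP p hp _ e] using (hx' j).2)).op (hdl b x).symm (ρ := fun a' a => ρ b x a a')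
      fun a => (Set.finite_range fun j : Fin (k + 2) => j.1).subset fun _ ⟨_, j, e, _⟩ => ⟨j, e.symm⟩
  refine hu b hb ?_
  have hne : (Op (u b) (u b) (fun a a' => (u b).length = b + (k + 2) ∧ a = a') (L b)).Nonempty :=
    Set.nonempty_iff_ne_empty.2 fun e => hu b hb (e ▸ AF.empty _)
  convert hU' using 1
  ext w
  simp only [Op, Set.mem_ofPred_eq, Set.mem_iUnion]
  constructor
  · rintro ⟨v, v', a, rfl, e⟩
    have e' := e
    obtain rfl : v = v' := forall₂_eq_eq_eq ▸ e.imp fun _ _ h => h.2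
    have hv : ∀ c ∈ v, c < k + 2 := fun c hc => hk b hb _ a c (mem_append_right _ hc)
    have : Forall₂ (ρ b x) v (v.attach.map fun c => x ⟨c.1, hv _ c.2⟩) := by
      conv => lhs; rw [← attach_map_subtype_val v]
      rw [forall₂_map_left_iff, forall₂_map_right_iff, forall₂_same]
      exact fun c _ => ⟨(forall₂_same.1 e' _ c.2).1, _, rfl, rfl⟩
    refine ⟨_, v, ⟨⟨(b, x), ⟨hb, hx, fun j => (hx' j).1⟩, v, _, a, rfl, this⟩, fun c hc => ?_⟩, rfl, this.flip⟩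
    simp only [hd] at hc
    split_ifs at hc <;> simp only [mem_append, mem_replicate, mem_ofFn, mem_map] at hc <;> grind
  · rintro ⟨t, v, ⟨⟨⟨c, y⟩, ⟨hc, hy, -⟩, v1, t1, a1, e, r1⟩, -⟩, rfl, r⟩
    by_cases hl : (u b).length = b + (k + 2)
    · have n1 : x 0 ≠ x (Fin.succ 0) := fun e => by simpa using hx e
      have n2 : y 0 ≠ y (Fin.succ 0) := fun e => by simpa using hy e
      simp only [hd, if_pos hl] at e
      split_ifs at e with hl'
      · have e' := e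
        simp only [ofFn_succ, append_assoc, cons_append] at e'
        obtain ⟨rfl, -⟩ := hd_inj n1 n2 _ _ e'
        obtain ⟨e1, rfl⟩ := append_inj e (by simp)
        obtain rfl : x = y := ofFn_injective (append_inj e1 (by simp)).2
        refine ⟨v1, v, a1, rfl, ?_⟩
        clear a1 e e'
        induction r1 generalizing v with
        | nil => cases r; exact .nil
        | cons d _ ih =>
          cases r with
          | cons d' r =>
            obtain ⟨-, j, rfl, rfl⟩ := d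
            obtain ⟨-, j', rfl, e⟩ := d'
            exact .cons ⟨hl, by rw [hx e]⟩ (ih _ r)
      · obtain rfl : t1 = [] := by
          cases r1 with
          | nil => rfl
          | cons d => exact absurd d.1 hl'
        have m1 : ∀ j, x j ∈ replicate (u c).length (y 0) ++ [] := fun j => e ▸ by simp [-ofFn_succ]
        simp only [append_nil, mem_replicate] at m1
        exact absurd ((m1 _).2.trans (m1 _).2.symm) n1
    · obtain rfl : v = [] := by
        cases r with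
        | nil => rfl
        | cons d => exact absurd d.1 hl
      obtain ⟨_, v, v', a, -, e⟩ := hne
      cases e with
      | nil => exact ⟨[], [], a, rfl, .nil⟩
      | cons d => exact absurd d.1 hl

theorem main (G H : Gr) (hG : G.WF) (hH : H.WF) (h1 : G.T.card = 1) (h2 : H.T.Nonempty) (e : H.fam = G.fam) :
    ∃ a ∈ H.T, (H.restrict a).fam = G.fam := by
  classical
  obtain ⟨a0, ha⟩ := Finset.card_eq_one.1 h1
  obtain ⟨b, hb, h⟩ := core (P := H.P) (S := H.S) h2 (fun p hp => (hH.2 p hp).2.2.1) (P0 := G.P) (S0 := G.S) (a0 := a0)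
    fun L hL => (fam_iff H hH L).1 (e ▸ (fam_iff G hG L).2 ⟨_, hL⟩)
  have hw : (H.restrict b).WF := ⟨hH.1, fun p hp => hH.2 p (Finset.mem_filter.1 hp).1⟩
  refine ⟨b, hb, Set.ext fun L => ⟨fun hL => e ▸ ?_, fun hL => ?_⟩⟩
  · obtain ⟨τ, N, _, R, S', ν, a, c, d, f⟩ := (fam_iff _ hw L).1 hL
    exact (fam_iff H hH L).2 ⟨τ, N, inferInstance, R, S', ν, a, c, fun r hr => (Finset.mem_filter.1 (d r hr)).1, f⟩
  · obtain ⟨τ, hL⟩ := (fam_iff G hG L).1 hL
    have := hL.color (b := a0) (fun _ => True) fun c _ p hp h => by simpa [ha] using (hG.2 p hp).2.2.1 _ h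
    obtain ⟨N, _, R, S', ν, a, c, d, f⟩ := h _ (by simpa using this)
    refine (fam_iff _ hw L).2 ⟨fun _ => b, N, inferInstance, R, S', ν, a, c, fun r hr => ?_, f⟩
    refine Finset.mem_filter.2 ⟨d r hr, fun c hc => ?_⟩
    obtain ⟨x | x, -, e⟩ := mem_map.1 hc <;> simp_all

end Pool.Agent.H16.GForm
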