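import Mathlib

set_option autoImplicit false

namespace Pool.Agent.H16.Gram

/-- Largest length of a weakly increasing subsequence of `w` with letters in `[p, q]`. -/
noncomputable def ell {n : ℕ} (p q : Fin n) (w : List (Fin n)) : ℕ :=
  sSup {k | ∃ s : List (Fin n), s.Sublist w ∧ s.Pairwise (· ≤ ·) ∧ (∀ a ∈ s, p ≤ a ∧ a ≤ q) ∧ s.length = k}

/-- The congruence defining the grammic monoid of rank `n`. -/
def Eqv {n : ℕ} (u v : List (Fin n)) : Prop := ∀ p q : Fin n, p ≤ q → ell p q u = ell p q v

/-- The identity `u = v` holds in the grammic monoid of rank `n`. -/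
def HoldsG (n : ℕ) (u v : List ℕ) : Prop := ∀ φ : ℕ → List (Fin n), Eqv (u.flatMap φ) (v.flatMap φ)

/-- The identity `u = v` holds in the monoid `F`. -/
def Holds (F : Type) [Monoid F] (u v : List ℕ) : Prop := ∀ φ : ℕ → F, (u.map φ).prod = (v.map φ).prod

end Pool.Agent.H16.Gram
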