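import Mathlib
import Pool.Agent.H16.GramDefs

set_option autoImplicit false

namespace Pool.Agent.H16.Gram
open List

theorem main (F : Type) [Monoid F] [Finite F] : ∃ u v : List ℕ, u ≠ [] ∧ v ≠ [] ∧ u.Perm v ∧
    Holds F u v ∧ ¬ HoldsG 2 u v := by
  obtain ⟨a, b, hab, e⟩ : ∃ a b : ℕ, a < b ∧ ∀ x : F, x ^ a = x ^ b := by
    obtain ⟨a, b, h, e⟩ := Finite.exists_ne_map_eq_of_infinite fun (n : ℕ) (x : F) => x ^ n
    rcases lt_or_gt_of_ne h with h | h
    exacts [⟨a, b, h, congrFun e⟩, ⟨b, a, h, congrFun e.symm⟩]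
  refine ⟨replicate b 0 ++ [1] ++ replicate a 0, replicate a 0 ++ [1] ++ replicate b 0, by simp, by simp,
    perm_iff_count.2 fun x => by simp [count_replicate, count_cons]; split_ifs <;> omega,
    fun φ => by simp [e], fun h => ?_⟩
  have := h (fun n => if n = 0 then [0] else replicate (a + 1) 1) 0 1 (by decide)
  have f : ∀ k, flatMap (fun n => if n = 0 then [(0 : Fin 2)] else replicate (a + 1) 1) (replicate k 0) =
      replicate k 0 := fun k => by induction k <;> simp_all [replicate_succ]
  simp only [flatMap_append, f, flatMap_singleton, if_neg one_ne_zero] at this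
  have h1 : b + (a + 1) ≤ ell (0 : Fin 2) 1 (replicate b 0 ++ replicate (a + 1) 1 ++ replicate a 0) :=
    le_csSup ⟨_, by rintro _ ⟨s, h, -, -, rfl⟩; exact h.length_le⟩
      ⟨_, sublist_append_left _ _, by
        simp only [pairwise_append, pairwise_replicate, mem_replicate]; grind, by simp [Fin.le_def],
        by simp⟩
  rw [this] at h1
  refine absurd h1 (not_le.2 (Nat.lt_succ_of_le (csSup_le' ?_)))
  rintro _ ⟨s, h, p, -, rfl⟩
  obtain ⟨s, s3, rfl, h, h3⟩ := sublist_append_iff.1 h
  obtain ⟨s1, s2, rfl, h1, h2⟩ := sublist_append_iff.1 h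
  have l1 := h1.length_le
  have l2 := h2.length_le
  have l3 := h3.length_le
  simp only [length_append, length_replicate] at *
  rcases s2 with _ | ⟨x, s2⟩
  · simp; omega
  rcases s3 with _ | ⟨y, s3⟩
  · simp at l2 ⊢; omega
  have := (pairwise_append.1 p).2.2 x (by simp) y (by simp)
  rw [eq_of_mem_replicate (h2.subset (mem_cons_self ..)),
    eq_of_mem_replicate (h3.subset (mem_cons_self ..))] at this
  exact absurd this (by decide)

end Pool.Agent.H16.Gram
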