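import Mathlib

set_option autoImplicit false

namespace Pool.Agent.H16.Grd

/-- `q` covers `p` in the order `r`. -/
def Cov {n : ℕ} (r : Fin n → Fin n → Prop) (p q : Fin n) : Prop :=
  (r p q ∧ p ≠ q) ∧ ¬ ∃ z, (r p z ∧ p ≠ z) ∧ (r z q ∧ z ≠ q)

/-- The order `r` is graded with exactly `k` grade levels: some order-preserving map `g` to the
positive integers raises by one along covers, takes the value `1` in every component of the
comparability graph, and has exactly `k` values. -/
def GradedK {n : ℕ} (r : Fin n → Fin n → Prop) (k : ℕ) : Prop :=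
  ∃ g : Fin n → ℕ, (∀ p, 1 ≤ g p) ∧ (∀ p q, r p q → g p ≤ g q) ∧
    (∀ p q, Cov r p q → g q = g p + 1) ∧ (∀ p, ∃ b, Relation.EqvGen r p b ∧ g b = 1) ∧
    (Set.range g).ncard = k

/-- Number of partial orders on an `n`-element labelled set that are graded with `k` levels. -/
noncomputable def a (k n : ℕ) : ℕ :=
  Nat.card {r : Fin n → Fin n → Prop // IsPartialOrder (Fin n) r ∧ GradedK r k}

end Pool.Agent.H16.Grd
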