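import Mathlib
import Pool.Agent.H16.GrdDefs

set_option autoImplicit false

namespace Pool.Agent.H16.Grd
open Finset Relation

section
variable {n : ℕ} (D : Fin n → Finset (Fin n)) (l : Fin n → ℕ)

def rel : Fin n → Fin n → Prop := ReflTransGen fun x y => x ∈ D y

variable (h1 : ∀ x y, x ∈ D y → l y = l x + 1)
include h1

theorem rel_lt {x y : Fin n} (h : rel D x y) : x = y ∨ l x < l y := by
  induction h with
  | refl => exact Or.inl rfl
  | tail _ h2 ih =>
    have := h1 _ _ h2
    rcases ih with rfl | ih <;> right <;> omega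

theorem rel_po : IsPartialOrder (Fin n) (rel D) where
  refl _ := ReflTransGen.refl
  trans _ _ _ := ReflTransGen.trans
  antisymm x y h k := by
    rcases rel_lt D l h1 h with e | e
    · exact e
    · rcases rel_lt D l h1 k with e' | e'
      · exact e'.symm
      · omega

theorem cov_iff (x y : Fin n) : Cov (rel D) x y ↔ x ∈ D y := by
  constructor
  · rintro ⟨⟨h, hne⟩, hz⟩
    rcases h.cases_tail with e | ⟨z, h2, h3⟩
    · exact absurd e.symm hne
    · by_cases e : x = z
      · exact e ▸ h3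
      · exact absurd ⟨z, ⟨h2, e⟩, .single h3, fun e' => by have := h1 _ _ h3; subst e'; omega⟩ hz
  · intro h
    have := h1 _ _ h
    refine ⟨⟨.single h, fun e => by subst e; omega⟩, ?_⟩
    rintro ⟨z, ⟨a1, a2⟩, a3, a4⟩
    have := (rel_lt D l h1 a1).resolve_left a2
    have := (rel_lt D l h1 a3).resolve_left a4
    omega

theorem graded (h2 : ∀ x, 1 ≤ l x) (h3 : ∀ x, l x ≠ 1 → (D x).Nonempty) :
    GradedK (rel D) (Set.range l).ncard := by
  refine ⟨l, h2, fun p q h => ?_, fun p q h => h1 _ _ ((cov_iff D l h1 p q).1 h), fun p => ?_, rfl⟩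
  · rcases rel_lt D l h1 h with rfl | e <;> omega
  · induction hp : l p using Nat.strong_induction_on generalizing p with
    | _ m ih =>
      by_cases e : l p = 1
      · exact ⟨p, .refl _, e⟩
      · obtain ⟨x, hx⟩ := h3 p e
        obtain ⟨b, b1, b2⟩ := ih (l x) (by have := h1 _ _ hx; omega) x rfl
        exact ⟨b, .trans _ _ _ (.symm _ _ (.rel _ _ (.single hx))) b1, b2⟩
end

section
variable {n : ℕ} (t : Fin n) (B A : Finset (Fin n))

def lev (x : Fin n) : ℕ := if x = t then 4 else if x ∈ B then 2 else if x ∈ A then 1 else 3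

def fam (x : Fin n) : Finset (Finset (Fin n)) :=
  if x = t then (((univ.erase t) \ B) \ A).powerset.erase ∅ else
    if x ∈ B then A.powerset.erase ∅ else if x ∈ A then {∅} else B.powerset.erase ∅

variable {t B A}

theorem fam_lev (hB : B ⊆ univ.erase t) (hA : A ⊆ (univ.erase t) \ B) {D : Fin n → Finset (Fin n)}
    (hD : ∀ x, D x ∈ fam t B A x) :
    (∀ x y, x ∈ D y → lev t B A y = lev t B A x + 1) ∧ (∀ x, lev t B A x ≠ 1 ↔ (D x).Nonempty) := by
  constructor
  · intro x y h
    have := hD y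
    unfold fam at this
    unfold lev
    split_ifs at this with a1 a2 a3
    · have := mem_powerset.1 (mem_erase.1 this).2 h
      simp at this; simp [*]
    · have := hA (mem_powerset.1 (mem_erase.1 this).2 h)
      have h' := mem_powerset.1 (mem_erase.1 ‹D y ∈ _›).2 h
      simp at this; simp [*]
    · simp at this; simp [this] at h
    · have h' := mem_powerset.1 (mem_erase.1 this).2 h
      have := hB h'
      simp at this; simp [*]
  · intro x
    have := hD x
    unfold fam at this
    unfold lev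
    rw [nonempty_iff_ne_empty]
    split_ifs at this ⊢ <;> simp at this <;> simp [this]

theorem card_fam (s : ℕ) (hB : B ⊆ univ.erase t) (hA : A ⊆ (univ.erase t) \ B)
    (cB : B.card = 3 * s) (cA : A.card = s) (hn : n = 6 * s + 1) :
    (Fintype.piFinset (fam t B A)).card =
      (2 ^ (2 * s) - 1) * ((2 ^ (3 * s) - 1) ^ (2 * s) * (2 ^ s - 1) ^ (3 * s)) := by
  have cC : (((univ.erase t) \ B) \ A).card = 2 * s := by
    rw [card_sdiff_of_subset hA, card_sdiff_of_subset hB, card_erase_of_mem (mem_univ _)]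
    simp [cA, cB]; omega
  rw [Fintype.card_piFinset, ← mul_prod_erase _ _ (mem_univ t), ← prod_sdiff hB, ← prod_sdiff hA]
  have e1 : (fam t B A t).card = 2 ^ (2 * s) - 1 := by
    rw [fam, if_pos rfl, card_erase_of_mem (empty_mem_powerset _), card_powerset, cC]
  have e2 : ∏ x ∈ ((univ.erase t) \ B) \ A, (fam t B A x).card = (2 ^ (3 * s) - 1) ^ (2 * s) := by
    rw [← cC, ← prod_const]
    refine prod_congr rfl fun x hx => ?_
    simp only [mem_sdiff, mem_erase] at hx
    rw [fam, if_neg hx.1.1.1, if_neg hx.1.2, if_neg hx.2,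
      card_erase_of_mem (empty_mem_powerset _), card_powerset, cB]
  have e3 : ∏ x ∈ A, (fam t B A x).card = 1 := by
    refine prod_eq_one fun x hx => ?_
    have := hA hx
    simp only [mem_sdiff, mem_erase] at this
    rw [fam, if_neg this.1.1, if_neg this.2, if_pos hx, card_singleton]
  have e4 : ∏ x ∈ B, (fam t B A x).card = (2 ^ s - 1) ^ (3 * s) := by
    rw [← cB, ← prod_const]
    refine prod_congr rfl fun x hx => ?_
    have := hB hx
    simp only [mem_erase] at this
    rw [fam, if_neg this.1, if_pos hx, card_erase_of_mem (empty_mem_powerset _), card_powerset, cA]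
  rw [e1, e2, e3, e4, mul_one]
end

theorem a_lb (s : ℕ) (hs : 1 ≤ s) : (6 * s).choose (3 * s) * ((3 * s).choose s *
    ((2 ^ (2 * s) - 1) * ((2 ^ (3 * s) - 1) ^ (2 * s) * (2 ^ s - 1) ^ (3 * s)))) ≤
      a 4 (6 * s + 1) := by
  classical
  let t : Fin (6 * s + 1) := 0
  let S := (powersetCard (3 * s) (univ.erase t)).sigma fun B =>
    (powersetCard s ((univ.erase t) \ B)).sigma fun A => Fintype.piFinset (fam t B A)
  have hS : S.card = (6 * s).choose (3 * s) * ((3 * s).choose s *
      ((2 ^ (2 * s) - 1) * ((2 ^ (3 * s) - 1) ^ (2 * s) * (2 ^ s - 1) ^ (3 * s)))) := by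
    have c0 : (univ.erase t).card = 6 * s := by simp
    rw [card_sigma, sum_congr rfl (g := fun _ => (3 * s).choose s *
      ((2 ^ (2 * s) - 1) * ((2 ^ (3 * s) - 1) ^ (2 * s) * (2 ^ s - 1) ^ (3 * s)))), sum_const,
      card_powersetCard, c0, smul_eq_mul]
    intro B hB
    rw [mem_powersetCard] at hB
    rw [card_sigma, sum_congr rfl fun A hA => card_fam s hB.1 (mem_powersetCard.1 hA).1 hB.2
      (mem_powersetCard.1 hA).2 rfl, sum_const, card_powersetCard, card_sdiff_of_subset hB.1, c0,
      hB.2, smul_eq_mul, show 6 * s - 3 * s = 3 * s by omega]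
  have key : ∀ z ∈ S, z.1 ⊆ univ.erase t ∧ z.2.1 ⊆ (univ.erase t) \ z.1 ∧ z.1.card = 3 * s ∧
      z.2.1.card = s ∧ ∀ x, z.2.2 x ∈ fam t z.1 z.2.1 x := fun z hz => by
    simp only [S, mem_sigma, mem_powersetCard, Fintype.mem_piFinset] at hz
    tauto
  rw [← hS, a, Nat.card_eq_fintype_card, Fintype.card_subtype]
  refine card_le_card_of_injOn (fun z => rel z.2.2) (fun z hz => ?_) ?_
  · obtain ⟨k1, k2, k3, k4, k5⟩ := key z hz
    obtain ⟨f1, f2⟩ := fam_lev k1 k2 k5
    simp only [coe_filter, mem_univ, true_and, Set.mem_setOf_eq]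
    refine ⟨rel_po _ _ f1, ?_⟩
    have := graded _ _ f1 (fun x => by unfold lev; split_ifs <;> omega) fun x => (f2 x).1
    have e : Set.range (lev t z.1 z.2.1) = ({1, 2, 3, 4} : Finset ℕ) := by
      ext m
      simp only [Set.mem_range, coe_insert, coe_singleton, Set.mem_insert_iff,
        Set.mem_singleton_iff]
      constructor
      · rintro ⟨x, rfl⟩; unfold lev; split_ifs <;> simp
      · have h4 : lev t z.1 z.2.1 t = 4 := by simp [lev]
        obtain ⟨x3, hx3⟩ := (f2 t).1 (by omega)
        have h3 := f1 _ _ hx3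
        obtain ⟨x2, hx2⟩ := (f2 x3).1 (by omega)
        have h2 := f1 _ _ hx2
        obtain ⟨x1, hx1⟩ := (f2 x2).1 (by omega)
        have h1 := f1 _ _ hx1
        rintro (rfl | rfl | rfl | rfl)
        exacts [⟨x1, by omega⟩, ⟨x2, by omega⟩, ⟨x3, by omega⟩, ⟨t, h4⟩]
    rw [e, Set.ncard_coe_finset] at this
    exact this
  · rintro ⟨B, A, D⟩ hz ⟨B', A', D'⟩ hz' h
    obtain ⟨k1, k2, -, -, k5⟩ := key _ hz
    obtain ⟨f1, f2⟩ := fam_lev k1 k2 k5
    obtain ⟨k1', k2', -, -, k5'⟩ := key _ hz'
    obtain ⟨f1', f2'⟩ := fam_lev k1' k2' k5'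
    dsimp only at *
    have eD : D = D' := by
      funext y; ext x
      rw [← cov_iff D _ f1, ← cov_iff D' _ f1', h]
    subst eD
    have el : ∀ m x, lev t B A x = m → lev t B' A' x = m := by
      intro m
      induction m using Nat.strong_induction_on with
      | _ m ih =>
        intro x hx
        by_cases e : lev t B A x = 1
        · have := (f2 x).not.1 (by simpa using e)
          have := (f2' x).not.2 this
          omega
        · obtain ⟨y, hy⟩ := (f2 x).1 e
          have a1 := f1 _ _ hy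
          have a2 := f1' _ _ hy
          have := ih _ (by omega) y rfl
          omega
    have hB : ∀ {B A : Finset (Fin (6 * s + 1))}, B ⊆ univ.erase t → ∀ x,
        x ∈ B ↔ lev t B A x = 2 := fun {B A} k x => by
      unfold lev
      split_ifs with a1 a2 a3
      · simpa [a1] using fun h => by simpa using k h
      all_goals simp [*]
    have hA : ∀ {B A : Finset (Fin (6 * s + 1))}, A ⊆ (univ.erase t) \ B → ∀ x,
        x ∈ A ↔ lev t B A x = 1 := fun {B A} k x => by
      unfold lev
      split_ifs with a1 a2 a3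
      · simpa [a1] using fun h => by simpa using k h
      · simpa using fun h => (mem_sdiff.1 (k h)).2 a2
      all_goals simp [*]
    have e1 : B = B' := by
      ext x; rw [hB (A := A) k1, hB (A := A') k1', el _ x rfl]
    have e2 : A = A' := by
      ext x; rw [hA k2, hA k2', el _ x rfl]
    subst e1 e2
    rfl

theorem choose3 (s : ℕ) : 6 ^ s ≤ 3 * (3 * s).choose s := by
  induction s with
  | zero => simp
  | succ s ih =>
    by_cases h : s < 4
    · interval_cases s <;> decide
    have h1 := Nat.choose_mul_succ_eq (3 * s) s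
    have h2 := Nat.choose_mul_succ_eq (3 * s + 1) s
    have h3 := Nat.add_one_mul_choose_eq (3 * s + 1 + 1) s
    rw [show 3 * s + 1 - s = 2 * s + 1 by omega] at h1
    rw [show 3 * s + 1 + 1 - s = 2 * s + 2 by omega] at h2
    rw [show 3 * (s + 1) = 3 * s + 1 + 1 + 1 by ring, pow_succ]
    have h4 : (3 * s + 1 + 1 + 1).choose (s + 1) = 3 * (3 * s + 1 + 1).choose s :=
      Nat.eq_of_mul_eq_mul_right (Nat.succ_pos s) (by rw [Nat.succ_eq_add_one, ← h3]; ring)
    rw [h4]
    generalize (3 * s).choose s = x at *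
    generalize (3 * s + 1).choose s = y at *
    generalize (3 * s + 1 + 1).choose s = z at *
    have h5 : x * ((3 * s + 1) * (3 * s + 2)) = z * ((2 * s + 1) * (2 * s + 2)) := by
      calc _ = x * (3 * s + 1) * (3 * s + 1 + 1) := by ring
        _ = y * (3 * s + 1 + 1) * (2 * s + 1) := by rw [h1]; ring
        _ = _ := by rw [h2]; ring
    have h6 : 2 * x ≤ z := by
      refine Nat.le_of_mul_le_mul_right ?_ (show 0 < (2 * s + 1) * (2 * s + 2) by positivity)
      rw [← h5]
      have : 2 * ((2 * s + 1) * (2 * s + 2)) ≤ (3 * s + 1) * (3 * s + 2) := by nlinarith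
      nlinarith
    omega

theorem bern (u v : ℕ) (h : 2 * v ≤ 2 ^ u) : (2 : ℝ) ^ (u * v) / 2 ≤ ((2 ^ u - 1 : ℕ) : ℝ) ^ v := by
  have h0 : (1 : ℝ) ≤ 2 ^ u := one_le_pow₀ one_le_two
  have h1 : (2 * v : ℝ) ≤ 2 ^ u := by exact_mod_cast h
  rw [Nat.cast_sub Nat.one_le_two_pow]
  push_cast
  have e : (2 : ℝ) ^ u - 1 = 2 ^ u * (1 + -(1 / 2 ^ u)) := by field_simp; ring
  have h2 : (1 : ℝ) / 2 ^ u ≤ 1 := by rw [div_le_one (by positivity)]; exact h0
  have h3 := one_add_mul_le_pow (a := -(1 / 2 ^ u : ℝ)) (by linarith) v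
  have h4 : (v : ℝ) * (1 / 2 ^ u) ≤ 1 / 2 := by
    rw [mul_one_div, div_le_iff₀ (by positivity)]; linarith
  rw [e, mul_pow, ← pow_mul, div_eq_mul_inv]
  gcongr
  linarith

theorem a_lb' (s : ℕ) (hs : 5 ≤ s) :
    (2 : ℝ) ^ (9 * s ^ 2 + 8 * s) * 6 ^ s / (72 * s) ≤ a 4 (6 * s + 1) := by
  have p1 : 6 * s ≤ 2 ^ s := by
    induction s, hs using Nat.le_induction with
    | base => norm_num
    | succ s _ ih => rw [pow_succ]; omega
  have p2 : 2 ^ s ≤ 2 ^ (3 * s) := Nat.pow_le_pow_right (by omega) (by omega)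
  have p3 : 2 ^ s ≤ 2 ^ (2 * s) := Nat.pow_le_pow_right (by omega) (by omega)
  have b1 := bern (2 * s) 1 (by omega)
  have b2 := bern (3 * s) (2 * s) (by omega)
  have b3 := bern s (3 * s) (by omega)
  have c1 : (6 : ℝ) ^ s / 3 ≤ (3 * s).choose s := by
    rw [div_le_iff₀' (by norm_num)]; exact_mod_cast choose3 s
  have hs' : (0 : ℝ) < s := by exact_mod_cast (show 0 < s by omega)
  have c2 : (4 : ℝ) ^ (3 * s) / (3 * s) ≤ (6 * s).choose (3 * s) := by
    have := (Nat.four_pow_lt_mul_centralBinom (3 * s) (by omega)).le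
    rw [Nat.centralBinom, show 2 * (3 * s) = 6 * s by ring] at this
    rw [div_le_iff₀' (by positivity)]; exact_mod_cast this
  have := a_lb s (by omega)
  rw [pow_one] at b1
  refine le_trans ?_ (Nat.cast_le.2 this)
  rw [Nat.cast_mul, Nat.cast_mul, Nat.cast_mul, Nat.cast_mul, Nat.cast_pow, Nat.cast_pow]
  refine le_trans (le_of_eq ?_) (mul_le_mul c2 (mul_le_mul c1 (mul_le_mul b1 (mul_le_mul b2 b3
    (by positivity) (by positivity)) (by positivity) (by positivity)) (by positivity)
    (by positivity)) (by positivity) (by positivity))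
  rw [show (4 : ℝ) = 2 ^ 2 by norm_num, ← pow_mul]
  field_simp
  ring

open Filter in
theorem main : ¬ ∃ C : ℝ, ∀ᶠ n : ℕ in atTop,
    |Real.logb 2 (a 4 n) - (n : ℝ) ^ 2 / 4 - 5 / 4 * n| ≤ C * Real.log n := by
  rintro ⟨C, hC⟩
  obtain ⟨N, hN⟩ := eventually_atTop.1 hC
  have l2 : 0 < Real.log 2 := Real.log_pos one_lt_two
  set δ := Real.log 6 - 5 / 2 * Real.log 2 with hδ
  have hδ0 : 0 < δ := by
    have : Real.log (2 ^ 5) < Real.log (6 ^ 2) := Real.log_lt_log (by norm_num) (by norm_num)
    rw [Real.log_pow, Real.log_pow] at this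
    push_cast at this; linarith
  set K := |C| * Real.log 2 + 1 with hK
  have hK0 : 0 < K := by positivity
  have h1 := (Real.isLittleO_log_id_atTop.comp_tendsto (tendsto_natCast_atTop_atTop (R := ℝ))).bound
    (show 0 < δ / (14 * K) by positivity)
  obtain ⟨M, hM⟩ := eventually_atTop.1 h1
  obtain ⟨s, s1, s2⟩ : ∃ s : ℕ, N + M + 5 ≤ s ∧ (Real.log 12 + 3 / 2 * Real.log 2) * 2 / δ < s := by
    obtain ⟨s, hs⟩ := exists_nat_gt ((Real.log 12 + 3 / 2 * Real.log 2) * 2 / δ)
    exact ⟨s + (N + M + 5), by omega, hs.trans_le (by push_cast; have : (0 : ℝ) ≤ N + M + 5 := (by positivity); linarith)⟩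
  have hs' : (1 : ℝ) ≤ s := by exact_mod_cast (show 1 ≤ s by omega)
  have h2 := (abs_le.1 (hN (6 * s + 1) (by omega))).2
  have h3 := hM (6 * s + 1) (by omega)
  have h4 := Real.log_le_log (by positivity) (a_lb' s (by omega))
  rw [Real.log_div (by positivity) (by positivity), Real.log_mul (by positivity) (by positivity),
    Real.log_pow, Real.log_pow] at h4
  have h5 : Real.log (72 * s) ≤ Real.log 12 + Real.log (6 * s + 1) := by
    rw [← Real.log_mul (by norm_num) (by positivity)]
    exact Real.log_le_log (by positivity) (by linarith)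
  simp only [Function.comp, id, Real.norm_eq_abs] at h3
  push_cast at h2 h3 h4
  set L := Real.log (6 * s + 1) with hL
  have hL0 : 0 ≤ L := Real.log_nonneg (by linarith)
  rw [abs_of_nonneg hL0, abs_of_nonneg (by positivity)] at h3
  rw [Real.logb, sub_sub, sub_le_iff_le_add, div_le_iff₀ l2] at h2
  have h6 : C * L * Real.log 2 ≤ |C| * L * Real.log 2 := by gcongr; exact le_abs_self C
  have h7 : K * L ≤ δ * s / 2 := by
    calc K * L ≤ K * (δ / (14 * K) * (7 * s)) := by
          gcongr; exact h3.trans (by gcongr; linarith)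
      _ = _ := by field_simp; ring
  rw [div_lt_iff₀ hδ0] at s2
  nlinarith

end Pool.Agent.H16.Grd
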