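import Mathlib

set_option autoImplicit false

namespace Pool.Agent.H16.HN
open MvPolynomial

variable {n : ℕ}

noncomputable def Hes (P : MvPolynomial (Fin n) ℂ) : Matrix (Fin n) (Fin n) (MvPolynomial (Fin n) ℂ) :=
  Matrix.of fun i j => pderiv i (pderiv j P)

/-- `z + ∇P` is the two-sided inverse of `z - ∇P`. -/
def SelfInv (P : MvPolynomial (Fin n) ℂ) : Prop :=
  (∀ i, aeval (fun j => X j + pderiv j P) (X i - pderiv i P) = X i) ∧
    ∀ i, aeval (fun j => X j - pderiv j P) (X i + pderiv i P) = X i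

/-- The linear form `⟨α, z⟩`. -/
noncomputable def lin (α : Fin n → ℂ) : MvPolynomial (Fin n) ℂ := ∑ i, C (α i) * X i

end Pool.Agent.H16.HN
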