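import Mathlib
import Pool.Agent.H16.HNDefs

set_option autoImplicit false

namespace Pool.Agent.H16.HN
open MvPolynomial Matrix

abbrev R := MvPolynomial (Fin 6) ℂ

noncomputable def j : R := C Complex.I

theorem jj : j ^ 2 = -1 := by rw [j, ← C_pow, Complex.I_sq]; simp

noncomputable def t : R := X 4 + j * X 5
noncomputable def f : R := X 2 + j * X 3 - (X 0 + j * X 1) * t
noncomputable def g : R := X 0 - j * X 1 + t * (X 2 - j * X 3)
noncomputable def h : R := (X 2 - j * X 3) * f - (X 0 + j * X 1) * g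
noncomputable def P : R := f * g

theorem dj (i : Fin 6) : pderiv i j = 0 := pderiv_C

theorem dP (i : Fin 6) : pderiv i P =
    ![f - t * g, -j * (f + t * g), g + t * f, j * (g - t * f), h, j * h] i := by
  fin_cases i <;> simp [P, f, g, h, t, dj, pderiv_X, Pi.single_apply] <;> ring

theorem sh (e : R) (φ : R →ₐ[ℂ] R) (hφ : ∀ i, φ (X i) = X i + e * pderiv i P) (i : Fin 6) :
    φ (pderiv i P) = pderiv i P := by
  have hj : φ j = j := φ.commutes Complex.I
  have q := jj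
  have a : φ t = t := by simp [t, hφ, dP, hj]; grind
  have b : φ f = f := by rw [f]; simp [hφ, dP, hj, a]; grind
  have c : φ g = g := by rw [g]; simp [hφ, dP, hj, a]; grind
  have d : φ h = h := by rw [h]; simp [hφ, dP, hj, b, c]; grind
  fin_cases i <;> simp [dP, hj, a, b, c, d]

theorem si : SelfInv P :=
  ⟨fun i => by rw [map_sub, sh 1 _ (by simp), aeval_X]; ring,
    fun i => by rw [map_add, sh (-1) _ (by simp [sub_eq_add_neg]), aeval_X]; ring⟩

noncomputable def B : Matrix (Fin 6) (Fin 6) R :=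
  !![1, j, 0, 0, 0, 0; 1, -j, 0, 0, 0, 0; 0, 0, 1, j, 0, 0; 0, 0, 1, -j, 0, 0; 0, 0, 0, 0, 1, j;
    0, 0, 0, 0, 1, -j]

noncomputable def S : Matrix (Fin 6) (Fin 6) R :=
  !![0, 2, 0, 0, 0, 0; 2, 0, 0, 0, 0, 0; 0, 0, 0, 2, 0, 0; 0, 0, 2, 0, 0, 0; 0, 0, 0, 0, 0, 2;
    0, 0, 0, 0, 2, 0]

noncomputable def K (x y u v s : R) : Matrix (Fin 6) (Fin 6) R :=
  !![0, -s, 0, -s * s, -y - 2 * s * v, 0; -s, 0, 1, 0, -x, 0; 0, 1, 0, s, v, 0;
    -s * s, 0, s, 0, u - 2 * x * s, 0; -y - 2 * s * v, -x, v, u - 2 * x * s, -2 * x * v, 0;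
    0, 0, 0, 0, 0, 0]

theorem e1 : B * Bᵀ = S := by
  have q := jj
  ext1 a b
  fin_cases a <;> fin_cases b <;> simp [B, S, mul_apply, Fin.sum_univ_succ] <;> grind

theorem e2 : Hes P = Bᵀ * K (X 0 + j * X 1) (X 0 - j * X 1) (X 2 + j * X 3) (X 2 - j * X 3) t * B := by
  ext1 a b
  rw [Hes, of_apply, dP]
  fin_cases a <;> fin_cases b <;>
    simp [B, K, mul_apply, Fin.sum_univ_succ, f, g, h, t, dj, pderiv_X, Pi.single_apply] <;> ring

theorem e3 (x y u v s : R) :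
    K x y u v s * S * K x y u v s * S * K x y u v s * S * K x y u v s = 0 := by
  simp only [K, S, cons_mul, vecMul_cons, head_cons, tail_cons, smul_cons, smul_empty, empty_mul,
    empty_vecMul, add_cons, smul_eq_mul, empty_add_empty, Equiv.symm_apply_apply]
  ext1 a b
  fin_cases a <;> fin_cases b <;> simp <;> ring

theorem nilp : IsNilpotent (Hes P) := by
  refine ⟨4, ?_⟩
  have := congrArg (fun M => Bᵀ * M * B) (e3 (X 0 + j * X 1) (X 0 - j * X 1) (X 2 + j * X 3) (X 2 - j * X 3) t)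
  simp only [← e1] at this
  rw [e2]
  simpa only [pow_succ, pow_zero, one_mul, Matrix.mul_assoc, Matrix.zero_mul, Matrix.mul_zero] using this

def Ag (N : ℕ) (Q Q' : R) : Prop := ∀ d : Fin 6 →₀ ℕ, d.degree ≤ N → coeff d Q = coeff d Q'

theorem Ag.d {N : ℕ} {Q Q' : R} (h : Ag (N + 1) Q Q') (i : Fin 6) : Ag N (pderiv i Q) (pderiv i Q') :=
  fun d hd => by rw [coeff_pderiv, coeff_pderiv, h _ (by simpa using hd)]

noncomputable def g0 (Q : R) : Fin 6 → ℂ := fun i => constantCoeff (pderiv i Q)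

theorem Ag.g0 {N : ℕ} {Q Q' : R} (h : Ag (N + 1) Q Q') : g0 Q = g0 Q' :=
  funext fun i => h.d i 0 (by simp)

theorem dl (α : Fin 6 → ℂ) (i : Fin 6) : pderiv i (lin α) = C (α i) := by
  simp [lin, pderiv_X, Pi.single_apply]

theorem adj {Ξ : Set (Fin 6 → ℂ)} {Q : R} (hQ : Q ∈ Algebra.adjoin ℂ (lin '' Ξ)) :
    (∀ i, pderiv i Q ∈ Algebra.adjoin ℂ (lin '' Ξ)) ∧ g0 Q ∈ Submodule.span ℂ Ξ := by
  induction hQ using Algebra.adjoin_induction with
  | mem x hx =>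
    obtain ⟨α, h, rfl⟩ := hx
    exact ⟨fun i => dl α i ▸ Subalgebra.algebraMap_mem _ _,
      Submodule.subset_span ((show g0 (lin α) = α by ext i; simp [g0, dl]).symm ▸ h)⟩
  | algebraMap r =>
    exact ⟨fun i => by simp, (show g0 (algebraMap ℂ R r) = 0 by ext i; simp [g0]).symm ▸ zero_mem _⟩
  | add x y _ _ hx hy =>
    exact ⟨fun i => map_add (pderiv i) x y ▸ add_mem (hx.1 i) (hy.1 i),
      (show g0 (x + y) = g0 x + g0 y by ext i; simp [g0]).symm ▸ add_mem hx.2 hy.2⟩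
  | mul x y h1 h2 hx hy =>
    exact ⟨fun i => pderiv_mul (i := i) (f := x) (g := y) ▸ add_mem (mul_mem (hx.1 i) h2) (mul_mem h1 (hy.1 i)),
      (show g0 (x * y) = constantCoeff x • g0 y + constantCoeff y • g0 x by ext i; simp [g0]).symm ▸
        add_mem (Submodule.smul_mem _ _ hy.2) (Submodule.smul_mem _ _ hx.2)⟩

theorem notin (Ξ : Set (Fin 6 → ℂ)) (h : ∀ α ∈ Ξ, ∀ β ∈ Ξ, α ⬝ᵥ β = 0) (Q : R)
    (hQ : Q ∈ Algebra.adjoin ℂ (lin '' Ξ)) : ¬ Ag 3 Q P := by
  intro a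
  have o : ∀ α ∈ Submodule.span ℂ Ξ, ∀ β ∈ Submodule.span ℂ Ξ, α ⬝ᵥ β = 0 := fun α hα β hβ => by
    induction hα, hβ using Submodule.span_induction₂ <;> simp_all
  have := o _ (adj ((adj hQ).1 2)).2 _ (adj ((adj ((adj hQ).1 0)).1 4)).2
  rw [(a.d 2).g0, ((a.d 0).d 4).g0, dP, dP] at this
  simp [g0, dotProduct, Fin.sum_univ_succ, f, g, t, pderiv_X, j] at this
  norm_num at this

theorem ord : ∀ d : Fin 6 →₀ ℕ, d.degree < 2 → coeff d P = 0 := by
  have a : ∀ Q : R, constantCoeff Q = 0 → Q ∈ idealOfVars (Fin 6) ℂ := fun Q h => by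
    rw [← pow_one (idealOfVars _ _), mem_pow_idealOfVars_iff']
    intro d hd
    rwa [(Finsupp.degree_eq_zero_iff d).1 (by omega)]
  intro d hd
  have : P ∈ idealOfVars (Fin 6) ℂ ^ 2 := by
    rw [pow_two]
    exact Ideal.mul_mem_mul (a f (by simp [f, t])) (a g (by simp [g, t]))
  exact (mem_pow_idealOfVars_iff' _ _).1 this d hd

end Pool.Agent.H16.HN
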