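import Mathlib

set_option autoImplicit false

namespace Pool.Agent.H16.HankelDS

open Polynomial

noncomputable def S (n : ℕ) : ℤ[X] := ∑ j ∈ Finset.range n, if Nat.testBit n j then X ^ j else 0

def vl : List ℤ := [-3, 2, 1, 0, -1, 1, 1, 0, 0, 0, 0, 0, 0, 0, 0, 0, -3, 2, 1, 0, -1, 1, 1, 0, 0, 0, 0, 0, 0, 0, 0, 0, 8, -5, -2, 0, 2, -2, -2, 0, 2, -1, 0, 0, 0, 0, 0, 0, -3, 2, 1, 0, -1, 1, 1]

def v (i : Fin 55) : ℤ := vl.getD i 0

def s0 (n : ℕ) : ℤ := ∑ j ∈ Finset.range n, if Nat.testBit n j then (-1) ^ j else 0

def s1 (n : ℕ) : ℤ := ∑ j ∈ Finset.range n, if Nat.testBit n j then (j : ℤ) * (-1) ^ (j - 1) else 0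

theorem eval_S (n : ℕ) : (S n).eval (-1) = s0 n := by
  unfold S s0
  rw [eval_finsetSum]
  refine Finset.sum_congr rfl fun j _ => ?_
  split_ifs <;> simp

theorem eval_dS (n : ℕ) : (derivative (S n)).eval (-1) = s1 n := by
  unfold S s1
  rw [derivative_sum, eval_finsetSum]
  refine Finset.sum_congr rfl fun j _ => ?_
  split_ifs <;> simp [derivative_X_pow]

def t0 (n : ℕ) : ℤ := ((2504733849134187423627630898665761187988396965855835668253649987855988789317543423356303305645421586459482273655785998852959402747173091043617649102181469884300014332370820490150111050678538841749600 / 64 ^ n % 64 : ℕ) : ℤ) - 32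

def t1 (n : ℕ) : ℤ := ((2430057255984210478400236267988597790026758914103902855362071003834924276166203684134821546191304145794015789878099443779216415100362803814915691616910483275618781528394390108169776443979240736954400 / 64 ^ n % 64 : ℕ) : ℤ) - 32

theorem ht0 : ∀ n < 110, s0 n = t0 n := by decide +kernel

theorem ht1 : ∀ n < 110, s1 n = t1 n := by decide +kernel

theorem h0' : ∀ i : Fin 55, ∑ j : Fin 55, v j * t0 (i + j) = 0 := by decide +kernel

theorem h1' : ∑ i : Fin 55, v i * ∑ j : Fin 55, v j * t1 (i + j) = 0 := by decide +kernel

theorem h0 : ∀ i : Fin 55, ∑ j : Fin 55, v j * s0 (i + j) = 0 := by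
  intro i
  rw [← h0' i]
  exact Finset.sum_congr rfl fun j _ => by rw [ht0 _ (by omega)]

theorem h1 : ∑ i : Fin 55, v i * ∑ j : Fin 55, v j * s1 (i + j) = 0 := by
  rw [← h1']
  refine Finset.sum_congr rfl fun i _ => ?_
  congr 1
  exact Finset.sum_congr rfl fun j _ => by rw [ht1 _ (by omega)]

noncomputable def M : Matrix (Fin 55) (Fin 55) ℤ[X] := Matrix.of fun i j => S (i + j)

theorem gen {n : Type} [Fintype n] [DecidableEq n] (M : Matrix n n ℤ[X])
    (hs : ∀ i j, M i j = M j i) (v : n → ℤ) (a : n) (hv : v a = 1)
    (h0 : ∀ i, ∑ j, v j * (M i j).eval (-1) = 0)
    (h1 : ∑ i, v i * ∑ j, v j * (derivative (M i j)).eval (-1) = 0) :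
    (X - C (-1)) ^ 2 ∣ M.det := by
  set d : ℤ[X] := X - C (-1) with hd
  have hw : ∀ i, d ∣ ∑ j, (v j) • M i j := by
    intro i
    rw [hd, dvd_iff_isRoot, IsRoot.def, eval_finsetSum]
    simpa using h0 i
  choose q hq using hw
  have e1 : M.det = d * (M.updateCol a q).det := by
    have := Matrix.det_updateCol_sum M a (fun j => C (v j))
    rw [hv] at this
    rw [← Matrix.det_updateCol_smul]
    simp only [map_one, one_smul] at this
    rw [← this]
    congr 2
    funext k
    simp only [Pi.smul_apply, smul_eq_mul, ← hq k]
    refine Finset.sum_congr rfl fun j _ => ?_
    simp
  have hg : d ∣ ∑ i, (v i) • q i := by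
    have hf : d * ∑ i, (v i) • q i = ∑ i, (v i) • ∑ j, (v j) • M i j := by
      rw [Finset.mul_sum]
      refine Finset.sum_congr rfl fun i _ => ?_
      rw [hq i]; simp only [zsmul_eq_mul]; ring
    have h2 := congrArg (fun f => (derivative f).eval (-1)) hf
    simp only [derivative_mul, eval_add, eval_mul, hd, derivative_sub, derivative_X,
      derivative_C, sub_zero, one_mul, eval_sub, eval_X, eval_C, sub_self, zero_mul,
      add_zero] at h2
    rw [hd, dvd_iff_isRoot, IsRoot.def, h2]
    simp only [derivative_sum, derivative_smul, eval_finsetSum, eval_smul, smul_eq_mul]
    exact h1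
  have hr : ∀ k, d ∣ (∑ i, (C (v i)) • (M.updateCol a q) i) k := by
    intro k
    by_cases hk : k = a
    · subst hk
      simpa [Finset.sum_apply] using hg
    · have : (∑ i, (C (v i)) • (M.updateCol a q) i) k = d * q k := by
        rw [← hq k]
        simp [Finset.sum_apply, Matrix.updateCol_ne hk, hs k]
      rw [this]; exact Dvd.intro _ rfl
  choose r hr using hr
  have e2 : (M.updateCol a q).det = d * ((M.updateCol a q).updateRow a r).det := by
    have := Matrix.det_updateRow_sum (M.updateCol a q) a (fun j => C (v j))
    rw [hv] at this
    rw [← Matrix.det_updateRow_smul]
    simp only [map_one, one_smul] at this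
    rw [← this]
    congr 2
    funext k
    rw [hr k]; simp
  exact ⟨_, by rw [e1, e2, ← mul_assoc, sq]⟩

theorem dvd_det : (X - C (-1)) ^ 2 ∣ M.det := by
  refine gen M (fun i j => ?_) v 54 (by decide +kernel) (fun i => ?_) ?_
  · simp only [M, Matrix.of_apply, add_comm]
  · simp only [M, Matrix.of_apply, eval_S]; exact h0 i
  · simp only [M, Matrix.of_apply, eval_dS]; exact h1

def bB : ℕ := 10175678900797925167819832017605707331640977263551154813005108046428941689351376492995098716100634054589619756021361680797004081450463440513277499785837483463421404722394135903967813183368655203819477009650674364646939340515247224601326925545702041929835721898489668175951684053585517420590080104657873752072330894983563940468063442826196837701829307625532900055913404265042296089285368851817169844404198609313199670262269084283219029161594121751086842197935364415390258480333754845207898030655876368105076367607679026942277525938746136537851451654395179903076486608992235846074073459396343882693325508509901356191634521240798164814065852557430889069986005732240232652186422778922890594746597503999041896589422355943726157608885945008469101331845535281951994624442571626327529167539592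84193203737743845518890898384892289762259996132724289702173220280126941268095133378236614591856737177549429622942532674911438137684305467670116204191446430908688525213120571009394297763514967446735310941004841146843017524694997482856815914840032370757900529735867074584982274057707847283319358597701848154323132138752435121955189668424974113293899923736016541975000719604754534118745532527466880602642869721177667422663943344912618827875548559234221387529164337905050003481678627125814055660644437038504172269756077318109318946755990344280780515894495678620791329323655248378657274561268613644382221120424306327163233513675981608195308765720832041773715851974207901462936157228525379756437867619008399285953956867821396891047014023073106101696434073971239239152680208712251629798596882325246721762321561810396502565876303810655623217678449615417475604738873830920264650922516533609476511996602551265167397205019473520990934768580342996886097942351162093036078200428918575119424578268082882461230366659900907483040069637289567841247977858203645276680154253601512104260912989975141498359192455529110024032178231328577903455551362132363499002904424404137747517162097665419666401784343971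4033527623845122795099053262746400895021805893513292088953258036725747369508296865097703944114392818766662322636225323786142482404672835016105190517383791455875408966335117395758296168136867655433151830940605734310183497224873679248195706228871163868569599589245268443240034192301662085113562219065991336696048446672502649307735896679451872837860973142006513569717663617489016902297516617419241736903609824171264577903631281828683689727951561058461261834488014380900879991457362353421130175880350738419278085230205539216413950820900768566220854264640621771845679527825181247914238870353122190817164840281571288083269596354065940577368809861027581292899693959183554894447382999097764846725645513475996502296920141130825299092706146532926858717436300491548459608097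

def bT : ℕ := 139131780716892694020963222526563887982953873857735658275525165908954064567693332528515730616423496

def tab (n : ℕ) : ℕ := bT / 8 ^ n % 8

def inv (i j : Fin 55) : ℕ := bB / 8 ^ (i.val * 55 + j.val) % 8

theorem htab : ∀ n < 110, ((∑ j ∈ Finset.range n, if Nat.testBit n j then 1 ^ j else 0 : ℕ)) % 5 = tab n := by
  decide +kernel

theorem hinv : ∀ i j : Fin 55, (∑ k : Fin 55, tab (i + k) * inv k j) % 5 = if i = j then 1 else 0 := by
  decide +kernel

theorem det_ne : M.det ≠ 0 := by
  intro h
  have : Fact (Nat.Prime 5) := ⟨by norm_num⟩
  let φ : ℤ[X] →+* ZMod 5 := eval₂RingHom (Int.castRingHom _) 1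
  have h2 : (φ.mapMatrix M).det = 0 := by rw [← RingHom.map_det, h, map_zero]
  have hS : ∀ n < 110, φ (S n) = (tab n : ZMod 5) := by
    intro n hn
    rw [← htab n hn, ZMod.natCast_mod]
    simp only [S, map_sum, Nat.cast_sum]
    refine Finset.sum_congr rfl fun j _ => ?_
    split_ifs <;> simp [φ]
  have h3 : φ.mapMatrix M * Matrix.of (fun i j => (inv i j : ZMod 5)) = 1 := by
    ext i j
    have := congrArg (Nat.cast : ℕ → ZMod 5) (hinv i j)
    rw [ZMod.natCast_mod] at this
    simp only [Matrix.mul_apply, RingHom.mapMatrix_apply, Matrix.map_apply, M, Matrix.of_apply,
      Matrix.one_apply]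
    push_cast at this
    rw [← this]
    refine Finset.sum_congr rfl fun k _ => ?_
    rw [hS _ (by omega)]
  exact Matrix.det_ne_zero_of_right_inverse h3 h2

end Pool.Agent.H16.HankelDS
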