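import Mathlib

set_option autoImplicit false

namespace Pool.Agent.H16.HarbK

open Nat

noncomputable def V (n : ℕ) : ℕ := padicValNat 2 n !

theorem V_two_mul (n : ℕ) : V (2 * n) = V n + n := by
  unfold V; exact padicValNat_factorial_mul n

theorem V_pow_mul (t n : ℕ) : V (2 ^ t * n) + n = V n + 2 ^ t * n := by
  induction t with
  | zero => simp
  | succ t ih => rw [pow_succ', mul_assoc, V_two_mul]; omega

theorem V_choose (j r : ℕ) : V (j + r) = padicValNat 2 ((j + r).choose j) + V j + V r := by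
  unfold V
  have h := Nat.add_choose_mul_factorial_mul_factorial r j
  rw [add_comm r j] at h
  rw [← h, padicValNat.mul, padicValNat.mul]
  · ring
  · exact (Nat.choose_pos (by omega)).ne'
  · exact factorial_ne_zero _
  · exact mul_ne_zero (Nat.choose_pos (by omega)).ne' (factorial_ne_zero _)
  · exact factorial_ne_zero _

theorem V_succ (r : ℕ) : V (r + 1) = padicValNat 2 (r + 1) + V r := by
  unfold V
  rw [factorial_succ, padicValNat.mul (by omega) (factorial_ne_zero _)]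

theorem V_le (j : ℕ) : V j ≤ j := padicValNat_factorial_le 2 j

theorem two_part (t M N j r b : ℕ) (ht : 3 ≤ t) (hN : N = j + r) (hb : 2 ^ b ∣ N) (hN0 : 0 < N)
    (he : 2 ^ t * N = 2 ^ M + 1 + r) : b + 1 ≤ padicValNat 2 ((2 * j + 2 * r).choose (2 * j)) := by
  have h1 := V_pow_mul t N
  have h2 := V_choose (2 ^ M) (r + 1)
  have h3 := V_pow_mul M 1
  have h4 := V_succ r
  have h5 := V_choose (2 * j) (2 * r)
  have h6 := V_le j
  have hV1 : V 1 = 0 := by simp [V]
  rw [← mul_add, V_two_mul, V_two_mul, V_two_mul, ← hN] at h5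
  rw [mul_one, hV1] at h3
  have h7 : 2 ^ M + (r + 1) = 2 ^ t * N := by omega
  rw [h7] at h2
  have hM : t + b ≤ M := by
    by_contra hc
    have h8 : 2 ^ (M + 1) ≤ 2 ^ (t + b) := Nat.pow_le_pow_right (by norm_num) (by omega)
    have h9 : 2 ^ b ≤ N := Nat.le_of_dvd hN0 hb
    have h10 : 2 ^ (t + b) ≤ 2 ^ t * N := by rw [pow_add]; exact Nat.mul_le_mul_left _ h9
    have h11 : 8 ≤ 2 ^ t := by
      calc 8 = 2 ^ 3 := by norm_num
        _ ≤ 2 ^ t := Nat.pow_le_pow_right (by norm_num) ht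
    have h12 : 8 * N ≤ 2 ^ t * N := Nat.mul_le_mul_right _ h11
    rw [pow_succ] at h8
    omega
  have hd : 2 ^ (t + b) ∣ r + 1 := by
    have h8 : 2 ^ (t + b) ∣ 2 ^ t * N := by rw [pow_add]; exact Nat.mul_dvd_mul_left _ hb
    rw [← h7] at h8
    exact (Nat.dvd_add_right (Nat.pow_dvd_pow 2 hM)).mp h8
  have hv : t + b ≤ padicValNat 2 (r + 1) := (padicValNat_dvd_iff_le (by omega)).mp hd
  rw [← mul_add, ← hN]
  omega

theorem main (t M n : ℕ) (ht : 3 ≤ t) (hq : (2 ^ M + 1).Prime)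
    (h1 : 2 * (2 ^ M + 1) ≤ 2 ^ t * n) (h2 : (2 ^ t - 1) * n ≤ 2 * (2 ^ M + 1)) :
    n ∣ n.choose (2 * (2 ^ M + 1) - (2 ^ t - 1) * n) := by
  have h11 : 8 ≤ 2 ^ t := by
    calc 8 = 2 ^ 3 := by norm_num
      _ ≤ 2 ^ t := Nat.pow_le_pow_right (by norm_num) ht
  obtain ⟨c, hc⟩ : ∃ c, 2 ^ t = c + 1 := ⟨2 ^ t - 1, by omega⟩
  have hc' : 2 ^ t - 1 = c := by omega
  rw [hc'] at h2 ⊢
  obtain ⟨j, hj⟩ : ∃ j, 2 * (2 ^ M + 1) = c * n + j := ⟨_, (Nat.add_sub_cancel' h2).symm⟩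
  have hj' : 2 * (2 ^ M + 1) - c * n = j := by omega
  rw [hj']
  have hn0 : 0 < n := by
    rcases Nat.eq_zero_or_pos n with rfl | h
    · simp at h1
    · exact h
  have hjn : j ≤ n := by rw [hc] at h1; nlinarith
  have hnq : n < 2 ^ M + 1 := by nlinarith
  obtain ⟨a, m, hm, hn⟩ := Nat.exists_eq_two_pow_mul_odd hn0.ne'
  have hmn : m ∣ n := hn ▸ Dvd.intro_left _ rfl
  have hcop : Nat.Coprime (2 ^ a) m := Nat.Coprime.pow_left _ (Nat.coprime_two_left.mpr hm)
  have hodd : m ∣ n.choose j := by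
    have hmj : Nat.Coprime m j := by
      have e1 : Nat.Coprime m (2 * (2 ^ M + 1)) := by
        refine Nat.Coprime.mul_right (Nat.coprime_two_right.mpr hm) ?_
        refine ((Nat.Prime.coprime_iff_not_dvd hq).mpr fun h => ?_).symm
        have := Nat.le_of_dvd hn0 (h.trans hmn)
        omega
      rw [hj] at e1
      obtain ⟨w, hw⟩ := hmn
      rw [hw, show c * (m * w) + j = j + m * (c * w) by ring, Nat.coprime_add_mul_left_right] at e1
      exact e1
    rcases Nat.eq_zero_or_pos j with rfl | hj0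
    · rw [Nat.coprime_zero_right] at hmj; simp [hmj]
    · obtain ⟨n', rfl⟩ : ∃ n', n = n' + 1 := ⟨n - 1, by omega⟩
      obtain ⟨j', rfl⟩ : ∃ j', j = j' + 1 := ⟨j - 1, by omega⟩
      refine hmj.dvd_of_dvd_mul_right ?_
      rw [← Nat.add_one_mul_choose_eq]
      exact Dvd.dvd.mul_right hmn _
  have htwo : 2 ^ a ∣ n.choose j := by
    rcases Nat.eq_zero_or_pos a with rfl | ha
    · simp
    obtain ⟨b, rfl⟩ : ∃ b, a = b + 1 := ⟨a - 1, by omega⟩
    set N := 2 ^ b * m with hN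
    have hn2 : n = 2 * N := by rw [hn, hN]; ring
    have hcN : c * n = 2 * (c * N) := by rw [hn2]; ring
    obtain ⟨j', hj2⟩ : ∃ j', j = 2 * j' := ⟨2 ^ M + 1 - c * N, by omega⟩
    obtain ⟨r, hr⟩ : ∃ r, N = j' + r := ⟨N - j', by omega⟩
    have := two_part t M N j' r b ht hr (Dvd.intro _ rfl) (by omega)
      (by rw [hc, add_mul, one_mul]; omega)
    rw [hn2, hj2, hr, mul_add]
    exact (padicValNat_dvd_iff_le (Nat.choose_pos (by omega)).ne').mpr this
  have := Nat.Coprime.mul_dvd_of_dvd_of_dvd hcop htwo hodd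
  rwa [← hn] at this

end Pool.Agent.H16.HarbK
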