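import Mathlib

set_option autoImplicit false

namespace Pool.Agent.H16.Hop

/-- configurations of `N` pieces in `ℝ^d` -/
abbrev Config (N d : ℕ) : Type := Fin N → EuclideanSpace ℝ (Fin d)

/-- one legal jump: piece `i` moves to its mirror image through piece `j ≠ i` -/
def Jump {N d : ℕ} (P Q : Config N d) : Prop :=
  ∃ i j : Fin N, i ≠ j ∧ Q = Function.update P i ((2 : ℝ) • P j - P i)

/-- `Reach k P Q`: a sequence of exactly `k` legal jumps takes `P` to `Q` -/
inductive Reach {N d : ℕ} : ℕ → Config N d → Config N d → Prop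
  | refl (P : Config N d) : Reach 0 P P
  | step {k : ℕ} {P Q Q' : Config N d} : Reach k P Q → Jump Q Q' → Reach (k + 1) P Q'

/-- `Q` is similar to `P` but larger (as multisets of positions) -/
def Larger {N d : ℕ} (P Q : Config N d) : Prop :=
  ∃ (l : ℝ) (R : EuclideanSpace ℝ (Fin d) ≃ₗᵢ[ℝ] EuclideanSpace ℝ (Fin d))
    (t : EuclideanSpace ℝ (Fin d)), 1 < l ∧
    Finset.univ.val.map Q = Finset.univ.val.map (fun i => l • R (P i) + t)

/-- lengths of jump sequences that enlarge `P` -/
def lengths {N d : ℕ} (P : Config N d) : Set ℕ := {k | ∃ Q, Reach k P Q ∧ Larger P Q}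

def Enlargeable {N d : ℕ} (P : Config N d) : Prop := (lengths P).Nonempty

/-- least number of jumps needed -/
noncomputable def J {N d : ℕ} (P : Config N d) : ℕ := sInf (lengths P)

end Pool.Agent.H16.Hop
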