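import Mathlib
import Pool.Agent.H16.HopDefs

set_option autoImplicit false

namespace Pool.Agent.H16.Hop

variable {N d : ℕ}

lemma Reach.trans {k l : ℕ} {P Q S : Config N d} (h1 : Reach k P Q) (h2 : Reach l Q S) :
    Reach (k + l) P S := by
  induction h2 with
  | refl => exact h1
  | step _ hj ih => exact Reach.step (ih h1) hj

lemma jump_symm {P Q : Config N d} (h : Jump P Q) : Jump Q P := by
  obtain ⟨i, j, hij, rfl⟩ := h
  refine ⟨i, j, hij, ?_⟩
  simp [Function.update_of_ne hij.symm]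

lemma jump_sub (G : AddSubgroup (EuclideanSpace ℝ (Fin d))) {P Q : Config N d} (h : Jump P Q)
    (hP : ∀ a b, P a - P b ∈ G) : ∀ a b, Q a - Q b ∈ G := by
  obtain ⟨i, j, hij, rfl⟩ := h
  have key : ∀ a, Function.update P i ((2 : ℝ) • P j - P i) a - P j ∈ G := by
    intro a
    by_cases ha : a = i
    · subst ha
      rw [Function.update_self]
      have : (2 : ℝ) • P j - P a - P j = P j - P a := by rw [two_smul]; abel
      rw [this]; exact hP _ _
    · rw [Function.update_of_ne ha]; exact hP _ _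
  intro a b
  have := G.sub_mem (key a) (key b)
  rwa [sub_sub_sub_cancel_right] at this

lemma reach_sub (G : AddSubgroup (EuclideanSpace ℝ (Fin d))) {k : ℕ} {P Q : Config N d}
    (h : Reach k P Q) : (∀ a b, P a - P b ∈ G) ↔ ∀ a b, Q a - Q b ∈ G := by
  induction h with
  | refl => rfl
  | step _ hj ih => exact ih.trans ⟨jump_sub G hj, jump_sub G (jump_symm hj)⟩

lemma reach_diam {k : ℕ} {P Q : Config N d} (h : Reach k P Q) (D : ℝ)
    (hP : ∀ a b, ‖P a - P b‖ ≤ D) : ∀ a b, ‖Q a - Q b‖ ≤ 2 ^ k * D := by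
  induction h with
  | refl => simpa using hP
  | @step k P Q Q' _ hj ih =>
    obtain ⟨i, j, hij, rfl⟩ := hj
    have ih := ih hP
    have key : ∀ a, ‖Function.update Q i ((2 : ℝ) • Q j - Q i) a - Q j‖ ≤ 2 ^ k * D := by
      intro a
      by_cases ha : a = i
      · subst ha
        rw [Function.update_self]
        have : (2 : ℝ) • Q j - Q a - Q j = Q j - Q a := by rw [two_smul]; abel
        rw [this]; exact ih _ _
      · rw [Function.update_of_ne ha]; exact ih _ _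
    intro a b
    have := norm_sub_le (Function.update Q i ((2 : ℝ) • Q j - Q i) a - Q j)
      (Function.update Q i ((2 : ℝ) • Q j - Q i) b - Q j)
    rw [sub_sub_sub_cancel_right] at this
    have h1 := key a
    have h2 := key b
    rw [pow_succ]; linarith

abbrev V : Type := EuclideanSpace ℝ (Fin 1)

lemma mvb (a b : V) (m : ℕ) : ∃ k, Reach k (![0, a, b] : Config 3 1) ![0, a, b + (2 * m : ℝ) • a] := by
  induction m with
  | zero => exact ⟨0, by simpa using Reach.refl _⟩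
  | succ m ih =>
    obtain ⟨k, hk⟩ := ih
    refine ⟨k + 1 + 1, Reach.step (Reach.step (Q' := ![0, a, -(b + (2 * m : ℝ) • a)]) hk
      ⟨2, 0, by decide, ?_⟩) ⟨2, 1, by decide, ?_⟩⟩
    · funext i; fin_cases i <;> simp
    · funext i; fin_cases i <;> simp
      module

lemma mva (a b : V) (m : ℕ) : ∃ k, Reach k (![0, a, b] : Config 3 1) ![0, a + (2 * m : ℝ) • b, b] := by
  induction m with
  | zero => exact ⟨0, by simpa using Reach.refl _⟩
  | succ m ih =>
    obtain ⟨k, hk⟩ := ih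
    refine ⟨k + 1 + 1, Reach.step (Reach.step (Q' := ![0, -(a + (2 * m : ℝ) • b), b]) hk
      ⟨1, 0, by decide, ?_⟩) ⟨1, 2, by decide, ?_⟩⟩
    · funext i; fin_cases i <;> simp
    · funext i; fin_cases i <;> simp
      module

lemma unit_big (D : ℤ) (θ l : ℝ) (hθ : θ ^ 2 = D) (hi : Irrational θ) (h1 : 1 ≤ θ) (hl : 1 < l)
    (a b c e : ℤ) (ha : l = a + b * θ) (hc : l * (c + e * θ) = 1) : θ ≤ l := by
  have h0 : ((a * e + b * c : ℤ) : ℝ) * θ = ((1 - a * c - D * b * e : ℤ) : ℝ) := by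
    push_cast; rw [← hθ]; rw [ha] at hc; linear_combination hc
  have z1 : a * e + b * c = 0 := by
    by_contra hne
    have := hi.intCast_mul hne
    rw [h0] at this
    exact Int.not_irrational _ this
  have z2 : a * c + D * b * e = 1 := by
    rw [z1] at h0
    have : ((1 - a * c - D * b * e : ℤ) : ℝ) = 0 := by rw [← h0]; simp
    have : 1 - a * c - D * b * e = 0 := by exact_mod_cast this
    linarith
  have n1 : (a ^ 2 - D * b ^ 2) * (c ^ 2 - D * e ^ 2) = 1 := by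
    linear_combination (a * c + D * b * e + 1) * z2 - D * (a * e + b * c) * z1
  have n2 : a ^ 2 - D * b ^ 2 = 1 ∨ a ^ 2 - D * b ^ 2 = -1 := Int.eq_one_or_neg_one_of_mul_eq_one n1
  have n3 : l * (a - b * θ) = 1 ∨ l * (a - b * θ) = -1 := by
    have : l * (a - b * θ) = ((a ^ 2 - D * b ^ 2 : ℤ) : ℝ) := by
      push_cast; rw [← hθ, ha]; ring
    rw [this]; exact_mod_cast n2
  have n4 : -1 < a - b * θ ∧ a - b * θ < 1 := by
    rcases n3 with h | h <;> constructor <;> nlinarith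
  have b0 : 0 < b := by
    have : (0 : ℝ) < b * θ := by linarith [n4.2]
    have : (0 : ℝ) < b := by nlinarith
    exact_mod_cast this
  have b1 : (1 : ℝ) ≤ b := by exact_mod_cast b0
  nlinarith [n4.1]

def grp (θ : ℝ) (v : V) : AddSubgroup V where
  carrier := {x | ∃ a b : ℤ, x = (a + b * θ) • v}
  add_mem' := by
    rintro _ _ ⟨a, b, rfl⟩ ⟨c, e, rfl⟩
    exact ⟨a + c, b + e, by push_cast; module⟩
  zero_mem' := ⟨0, 0, by simp⟩
  neg_mem' := by
    rintro _ ⟨a, b, rfl⟩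
    exact ⟨-a, -b, by push_cast; module⟩

lemma grp_base (θ : ℝ) (v : V) (i : Fin 3) : (![0, v, θ • v] : Config 3 1) i ∈ grp θ v := by
  fin_cases i
  · exact ⟨0, 0, by simp⟩
  · exact ⟨1, 0, by simp⟩
  · exact ⟨0, 1, by simp⟩

theorem lower (D : ℤ) (θ : ℝ) (hθ : θ ^ 2 = D) (hi : Irrational θ) (h1 : 1 ≤ θ) (v : V)
    (hv : ‖v‖ = 1) (k : ℕ) (hk : k ∈ lengths (![0, v, θ • v] : Config 3 1)) : θ ≤ 2 ^ k := by
  obtain ⟨Q, hR, l, R, t, hl, hm⟩ := hk
  set P : Config 3 1 := ![0, v, θ • v] with hP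
  have m1 : ∀ i, ∃ j, Q j = l • R (P i) + t := by
    intro i
    have : l • R (P i) + t ∈ Finset.univ.val.map Q := by
      rw [hm]; exact Multiset.mem_map.mpr ⟨i, Finset.mem_univ_val i, rfl⟩
    obtain ⟨j, _, e⟩ := Multiset.mem_map.mp this
    exact ⟨j, e⟩
  have m2 : ∀ j, ∃ i, Q j = l • R (P i) + t := by
    intro j
    have : Q j ∈ Finset.univ.val.map (fun i => l • R (P i) + t) := by
      rw [← hm]; exact Multiset.mem_map.mpr ⟨j, Finset.mem_univ_val j, rfl⟩
    obtain ⟨i, _, e⟩ := Multiset.mem_map.mp this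
    exact ⟨i, e.symm⟩
  obtain ⟨j0, e0⟩ := m1 0
  obtain ⟨j1, e1⟩ := m1 1
  obtain ⟨j2, e2⟩ := m1 2
  have l0 : 0 < l := by linarith
  have p0 : P 0 = 0 := rfl
  have p1 : P 1 = v := rfl
  have p2 : P 2 = θ • v := rfl
  have hA := (reach_sub (grp θ v) hR).mp
    (fun a b => (grp θ v).sub_mem (grp_base θ v a) (grp_base θ v b)) j1 j0
  obtain ⟨a, b, hab⟩ := hA
  have hA' : l = |(a : ℝ) + b * θ| := by
    have := congrArg norm hab
    rw [e1, e0, p0, p1] at this
    simpa [norm_smul, hv, abs_of_pos l0] using this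
  have hQ : ∀ j, Q j - t ∈ grp θ (l • R v) := by
    intro j
    obtain ⟨i, hi⟩ := m2 j
    obtain ⟨c, e, hc⟩ := grp_base θ v i
    refine ⟨c, e, ?_⟩
    rw [hi, hP, hc, map_smul]; module
  have hC := (reach_sub (grp θ (l • R v)) hR).mpr (fun a b => by
    have := (grp θ (l • R v)).sub_mem (hQ a) (hQ b)
    rwa [sub_sub_sub_cancel_right] at this) 1 0
  obtain ⟨c, e, hce⟩ := hC
  have hC' : l * |(c : ℝ) + e * θ| = 1 := by
    have := congrArg norm hce
    rw [p0, p1, sub_zero, norm_smul, norm_smul, R.norm_map, hv, Real.norm_eq_abs,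
      Real.norm_eq_abs, abs_of_pos l0] at this
    linarith
  have big : θ ≤ l := by
    obtain ⟨a', b', h'⟩ : ∃ a' b' : ℤ, l = a' + b' * θ := by
      rcases abs_choice ((a : ℝ) + b * θ) with h | h
      · exact ⟨a, b, by rw [hA', h]⟩
      · exact ⟨-a, -b, by rw [hA', h]; push_cast; ring⟩
    obtain ⟨c', e', h''⟩ : ∃ c' e' : ℤ, l * (c' + e' * θ) = 1 := by
      rcases abs_choice ((c : ℝ) + e * θ) with h | h
      · exact ⟨c, e, by rw [← hC', h]⟩
      · exact ⟨-c, -e, by rw [← hC', h]; push_cast; ring⟩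
    exact unit_big D θ l hθ hi h1 hl a' b' c' e' h' h''
  have hD : ∀ a b, ‖P a - P b‖ ≤ θ := by
    have hc : ∀ a, ∃ x : ℝ, 0 ≤ x ∧ x ≤ θ ∧ P a = x • v := by
      intro a; fin_cases a
      · exact ⟨0, le_rfl, by linarith, by simp [hP]⟩
      · exact ⟨1, by linarith, h1, by simp [hP]⟩
      · exact ⟨θ, by linarith, le_rfl, by simp [hP]⟩
    intro a b
    obtain ⟨x, x0, x1, hx⟩ := hc a
    obtain ⟨y, y0, y1, hy⟩ := hc b
    rw [hx, hy, ← sub_smul, norm_smul, hv, mul_one, Real.norm_eq_abs, abs_le]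
    constructor <;> linarith
  have hB := reach_diam hR θ hD j2 j0
  rw [e2, e0, p0, p2] at hB
  have θ0 : 0 < θ := by linarith
  have : l * θ ≤ 2 ^ k * θ := by
    simpa [norm_smul, hv, abs_of_pos l0, abs_of_pos θ0] using hB
  nlinarith

theorem enl (m : ℕ) (hm : 1 ≤ m) (θ : ℝ) (h0 : 0 ≤ θ) (hθ : θ ^ 2 = (2 * m) ^ 2 + 1) (v : V) :
    Enlargeable (![0, v, θ • v] : Config 3 1) := by
  obtain ⟨k1, h1⟩ := mvb v (θ • v) m
  obtain ⟨k2, h2⟩ := mva v (θ • v + (2 * m : ℝ) • v) (2 * m)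
  obtain ⟨k3, h3⟩ := mvb (v + (2 * (2 * m : ℕ) : ℝ) • (θ • v + (2 * m : ℝ) • v))
    (θ • v + (2 * m : ℝ) • v) m
  refine ⟨_, _, (h1.trans h2).trans h3, 1 + 4 * m * (θ + 2 * m), LinearIsometryEquiv.refl _ _, 0,
    ?_, ?_⟩
  · have : (1 : ℝ) ≤ m := by exact_mod_cast hm
    nlinarith [mul_nonneg (by linarith : (0 : ℝ) ≤ m) h0]
  · congr 1
    funext i; fin_cases i
    · simp
    · simp; module
    · simp
      match_scalars
      linear_combination (-4 * m : ℝ) * hθ

theorem main (B : ℕ) : ∃ P : Config 3 1, Enlargeable P ∧ B < J P := by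
  let m : ℕ := 2 ^ B
  have hm : 1 ≤ m := Nat.one_le_two_pow
  let θ : ℝ := Real.sqrt (((2 * m) ^ 2 + 1 : ℕ) : ℝ)
  have hθ : θ ^ 2 = (((2 * m) ^ 2 + 1 : ℕ) : ℝ) := Real.sq_sqrt (by positivity)
  have h0 : 0 ≤ θ := Real.sqrt_nonneg _
  have hi : Irrational θ := by
    rw [irrational_sqrt_natCast_iff]
    rintro ⟨r, hr⟩
    have : 2 * m < r := by nlinarith
    nlinarith
  have hθ' : θ ^ 2 = (2 * m) ^ 2 + 1 := by rw [hθ]; push_cast; ring
  have m1 : (1 : ℝ) ≤ m := by exact_mod_cast hm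
  have hb : (m : ℝ) < θ := by nlinarith
  let v : V := EuclideanSpace.single 0 1
  have hv : ‖v‖ = 1 := by simp [v]
  have he := enl m hm θ h0 hθ' v
  refine ⟨_, he, ?_⟩
  have := lower ((2 * m) ^ 2 + 1) θ (by rw [hθ']; push_cast; ring) hi (by linarith) v hv _
    (Nat.sInf_mem he)
  have h2 : (2 : ℝ) ^ B < 2 ^ (J (![0, v, θ • v] : Config 3 1)) := by
    have : (m : ℝ) = 2 ^ B := by simp [m]
    unfold J; linarith
  exact (pow_lt_pow_iff_right₀ (by norm_num)).mp h2

end Pool.Agent.H16.Hop
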