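import Mathlib

set_option autoImplicit false

namespace Pool.Agent.H16.HypBal

/-- Lorentz form on `ℝ^(n+1)` -/
def lor {n : ℕ} (x y : Fin (n + 1) → ℝ) : ℝ := -(x 0 * y 0) + ∑ i : Fin n, x i.succ * y i.succ

/-- hyperbolic `n`-space, hyperboloid model -/
def H (n : ℕ) : Type := {x : Fin (n + 1) → ℝ // lor x x = -1 ∧ 0 < x 0}

/-- hyperbolic distance -/
noncomputable def rho {n : ℕ} (P Q : H n) : ℝ := Real.arcosh (-lor P.1 Q.1)

/-- unit tangent vector at `P` of the geodesic `s ↦ cosh s • P + sinh s • u` from `P` to `Q` -/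
noncomputable def dir {n : ℕ} (P Q : H n) : Fin (n + 1) → ℝ :=
  (Real.sinh (rho P Q))⁻¹ • (Q.1 - Real.cosh (rho P Q) • P.1)

/-- every ball contains only finitely many points of `C` -/
def Discrete {n : ℕ} (C : Set (H n)) : Prop := ∀ (P : H n) (R : ℝ), {Q | Q ∈ C ∧ rho P Q ≤ R}.Finite

def Balanced {n : ℕ} (C : Set (H n)) : Prop :=
  ∀ P ∈ C, ∀ d : ℝ, 0 < d → ∑ᶠ Q ∈ {Q | Q ∈ C ∧ rho P Q = d}, dir P Q = 0

/-- for every point of `C` some isometry of `H n` preserving `C` fixes exactly that point -/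
def GroupBalanced {n : ℕ} (C : Set (H n)) : Prop :=
  ∀ P ∈ C, ∃ g : H n ≃ H n, (∀ x y, rho (g x) (g y) = rho x y) ∧ g '' C = C ∧
    {x | g x = x} = {P}

end Pool.Agent.H16.HypBal
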