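import Mathlib
import Pool.Agent.H16.HypBalDefs

set_option autoImplicit false

namespace Pool.Agent.H16.HypBal

abbrev V : Type := Fin 4 → ℝ

lemma lor3 (x y : V) : lor x y = -(x 0 * y 0) + (x 1 * y 1 + x 2 * y 2 + x 3 * y 3) := by
  simp [lor, Fin.sum_univ_three]

lemma hq (P : H 3) : P.1 0 ^ 2 = 1 + (P.1 1 ^ 2 + P.1 2 ^ 2 + P.1 3 ^ 2) := by
  have := P.2.1; rw [lor3] at this; linarith

lemma cs (P Q : H 3) : (P.1 1 * Q.1 1 + P.1 2 * Q.1 2 + P.1 3 * Q.1 3) ^ 2 ≤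
    (P.1 0 ^ 2 - 1) * (Q.1 0 ^ 2 - 1) := by
  rw [hq P, hq Q]
  nlinarith [sq_nonneg (P.1 1 * Q.1 2 - P.1 2 * Q.1 1), sq_nonneg (P.1 1 * Q.1 3 - P.1 3 * Q.1 1),
    sq_nonneg (P.1 2 * Q.1 3 - P.1 3 * Q.1 2)]

lemma one_le0 (P : H 3) : 1 ≤ P.1 0 := by
  have := hq P; have := P.2.2; nlinarith [sq_nonneg (P.1 1), sq_nonneg (P.1 2), sq_nonneg (P.1 3)]

lemma one_le (P Q : H 3) : 1 ≤ -lor P.1 Q.1 := by
  rw [lor3]
  have h := cs P Q
  have a := one_le0 P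
  have b := one_le0 Q
  have h2 : (P.1 1 * Q.1 1 + P.1 2 * Q.1 2 + P.1 3 * Q.1 3) ^ 2 ≤ (P.1 0 * Q.1 0 - 1) ^ 2 := by
    nlinarith [sq_nonneg (P.1 0 - Q.1 0)]
  have := (abs_le_of_sq_le_sq' h2 (by nlinarith)).2
  linarith

lemma eq_of_lor (P Q : H 3) (h : lor P.1 Q.1 = -1) : P = Q := by
  rw [lor3] at h
  have c := cs P Q
  have e : P.1 1 * Q.1 1 + P.1 2 * Q.1 2 + P.1 3 * Q.1 3 = P.1 0 * Q.1 0 - 1 := by linarith
  rw [e] at c
  have h0 : P.1 0 = Q.1 0 := by nlinarith [sq_nonneg (P.1 0 - Q.1 0)]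
  have p := hq P
  have q := hq Q
  have s : (P.1 1 - Q.1 1) ^ 2 + (P.1 2 - Q.1 2) ^ 2 + (P.1 3 - Q.1 3) ^ 2 = 0 := by
    rw [h0] at e p; nlinarith
  apply Subtype.ext
  funext i
  fin_cases i
  · exact h0
  · change P.1 1 = Q.1 1
    nlinarith [sq_nonneg (P.1 1 - Q.1 1), sq_nonneg (P.1 2 - Q.1 2), sq_nonneg (P.1 3 - Q.1 3)]
  · change P.1 2 = Q.1 2
    nlinarith [sq_nonneg (P.1 1 - Q.1 1), sq_nonneg (P.1 2 - Q.1 2), sq_nonneg (P.1 3 - Q.1 3)]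
  · change P.1 3 = Q.1 3
    nlinarith [sq_nonneg (P.1 1 - Q.1 1), sq_nonneg (P.1 2 - Q.1 2), sq_nonneg (P.1 3 - Q.1 3)]

def mat : Fin 3 → Matrix (Fin 4) (Fin 4) ℝ :=
  ![!![1, 0, 0, 0; 0, 0, 1, 0; 0, 1, 0, 0; 0, 0, 0, -1],
    !![1, 0, 0, 0; 0, -1, 0, 0; 0, 0, -1, 0; 0, 0, 0, 1],
    !![21, -2, -20, -6; 2, -1, -2, 0; 20, -2, -19, -6; 6, 0, -6, -1]]

noncomputable def A (i : Fin 3) : V →ₗ[ℝ] V := (mat i).mulVecLin

lemma A0 (x : V) : A 0 x = ![x 0, x 2, x 1, -x 3] := by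
  funext j; fin_cases j <;> simp [A, mat, Matrix.mulVec, dotProduct, Fin.sum_univ_four]
lemma A1 (x : V) : A 1 x = ![x 0, -x 1, -x 2, x 3] := by
  funext j; fin_cases j <;> simp [A, mat, Matrix.mulVec, dotProduct, Fin.sum_univ_four]
lemma A2 (x : V) : A 2 x = ![21 * x 0 - 2 * x 1 - 20 * x 2 - 6 * x 3, 2 * x 0 - x 1 - 2 * x 2,
    20 * x 0 - 2 * x 1 - 19 * x 2 - 6 * x 3, 6 * x 0 - 6 * x 2 - x 3] := by
  funext j; fin_cases j <;> simp [A, mat, Matrix.mulVec, dotProduct, Fin.sum_univ_four] <;> ring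

lemma cases3 (i : Fin 3) : i = 0 ∨ i = 1 ∨ i = 2 := by revert i; decide

lemma A_lor (i : Fin 3) (x y : V) : lor (A i x) (A i y) = lor x y := by
  rcases cases3 i with rfl | rfl | rfl
  · simp [A0, lor3]; ring
  · simp [A1, lor3]
  · simp [A2, lor3]; ring

lemma A_inv (i : Fin 3) (x : V) : A i (A i x) = x := by
  rcases cases3 i with rfl | rfl | rfl
  · rw [A0, A0]; funext j; fin_cases j <;> simp
  · rw [A1, A1]; funext j; fin_cases j <;> simp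
  · rw [A2, A2]; funext j; fin_cases j <;> simp <;> ring

def mk (a b c d : ℝ) (h : a ^ 2 = 1 + (b ^ 2 + c ^ 2 + d ^ 2)) (h0 : 0 < a) : H 3 :=
  ⟨![a, b, c, d], by rw [lor3]; simp; linarith, h0⟩

def e0 : H 3 := mk 1 0 0 0 (by norm_num) (by norm_num)
def Q1 : H 3 := mk 21 2 20 6 (by norm_num) (by norm_num)
def Q2 : H 3 := mk 21 20 2 (-6) (by norm_num) (by norm_num)
def Q3 : H 3 := mk 21 (-2) (-20) 6 (by norm_num) (by norm_num)
def Q4 : H 3 := mk 21 (-20) (-2) (-6) (by norm_num) (by norm_num)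

noncomputable def gam (i : Fin 3) (P : H 3) : H 3 := ⟨A i P.1, by rw [A_lor]; exact P.2.1, by
  rcases cases3 i with rfl | rfl | rfl
  · rw [A0]; exact P.2.2
  · rw [A1]; exact P.2.2
  · rw [A2]
    have := one_le Q1 P
    rw [lor3] at this
    simp [Q1, mk] at this ⊢
    linarith⟩

lemma gam_inv (i : Fin 3) (P : H 3) : gam i (gam i P) = P := Subtype.ext (A_inv i P.1)

lemma gam_rho (i : Fin 3) (P Q : H 3) : rho (gam i P) (gam i Q) = rho P Q := by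
  unfold rho; rw [← A_lor i P.1 Q.1]; rfl

inductive InC : H 3 → Prop
  | base : InC e0
  | step (i : Fin 3) (P : H 3) : InC P → InC (gam i P)

def C : Set (H 3) := {P | InC P}

def L : List (ℤ × ℤ × ℤ × ℤ) :=
  [(1, 0, 0, 0), (1, 12, 12, 0), (5, 6, 18, 0), (5, 18, 6, 0), (13, 6, 6, 0), (13, 18, 18, 0),
   (17, 0, 12, 0), (17, 12, 0, 0), (21, 2, 20, 6), (21, 4, 22, 18), (21, 8, 14, 18),
   (21, 10, 16, 6), (21, 14, 8, 6), (21, 16, 10, 18), (21, 20, 2, 18), (21, 22, 4, 6)]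

lemma L_closed : ∀ p ∈ L, (p.1, p.2.2.1, p.2.1, (-p.2.2.2) % 24) ∈ L ∧
    (p.1, (-p.2.1) % 24, (-p.2.2.1) % 24, p.2.2.2) ∈ L ∧
    ((21 * p.1 - 2 * p.2.1 - 20 * p.2.2.1 - 6 * p.2.2.2) % 24, (2 * p.1 - p.2.1 - 2 * p.2.2.1) % 24,
      (20 * p.1 - 2 * p.2.1 - 19 * p.2.2.1 - 6 * p.2.2.2) % 24,
      (6 * p.1 - 6 * p.2.2.1 - p.2.2.2) % 24) ∈ L := by
  decide +kernel

lemma int_of {P : H 3} (h : InC P) : ∃ a b c d : ℤ, P.1 = ![(a : ℝ), b, c, d] ∧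
    (a % 24, b % 24, c % 24, d % 24) ∈ L := by
  induction h with
  | base => exact ⟨1, 0, 0, 0, by simp [e0, mk], by decide +kernel⟩
  | step i P _ ih =>
    obtain ⟨a, b, c, d, e, hl⟩ := ih
    obtain ⟨l0, l1, l2⟩ := L_closed _ hl
    have ng : ∀ x : ℤ, (-x) % 24 = (-(x % 24)) % 24 := fun x => by omega
    rcases cases3 i with rfl | rfl | rfl
    · exact ⟨a, c, b, -d, by change A 0 P.1 = _; rw [A0, e]; simp, by rw [ng d]; exact l0⟩
    · exact ⟨a, -b, -c, d, by change A 1 P.1 = _; rw [A1, e]; simp, by rw [ng b, ng c]; exact l1⟩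
    · refine ⟨21 * a - 2 * b - 20 * c - 6 * d, 2 * a - b - 2 * c, 20 * a - 2 * b - 19 * c - 6 * d,
        6 * a - 6 * c - d, by change A 2 P.1 = _; rw [A2, e]; simp, ?_⟩
      have m1 : (21 * a - 2 * b - 20 * c - 6 * d) % 24 =
          (21 * (a % 24) - 2 * (b % 24) - 20 * (c % 24) - 6 * (d % 24)) % 24 := by omega
      have m2 : (2 * a - b - 2 * c) % 24 = (2 * (a % 24) - (b % 24) - 2 * (c % 24)) % 24 := by omega
      have m3 : (20 * a - 2 * b - 19 * c - 6 * d) % 24 =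
          (20 * (a % 24) - 2 * (b % 24) - 19 * (c % 24) - 6 * (d % 24)) % 24 := by omega
      have m4 : (6 * a - 6 * c - d) % 24 = (6 * (a % 24) - 6 * (c % 24) - (d % 24)) % 24 := by omega
      rw [m1, m2, m3, m4]; exact l2

theorem discrete : Discrete C := by
  intro P R
  obtain ⟨M, hM⟩ := exists_nat_ge (2 * P.1 0 * Real.cosh R)
  have : Set.Finite ((fun z : ℤ × ℤ × ℤ × ℤ => (![(z.1 : ℝ), z.2.1, z.2.2.1, z.2.2.2] : V)) ''
      (Set.Icc (-M : ℤ) M ×ˢ Set.Icc (-M : ℤ) M ×ˢ Set.Icc (-M : ℤ) M ×ˢ Set.Icc (-M : ℤ) M)) :=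
    Set.Finite.image _ ((Set.finite_Icc _ _).prod ((Set.finite_Icc _ _).prod
      ((Set.finite_Icc _ _).prod (Set.finite_Icc _ _))))
  refine (this.preimage (f := Subtype.val) Subtype.val_injective.injOn).subset ?_
  rintro Q ⟨hQ, hR⟩
  obtain ⟨a, b, c, d, e, _⟩ := int_of hQ
  have h1 := one_le P Q
  have h2 : -lor P.1 Q.1 ≤ Real.cosh R := by
    rw [← Real.cosh_arcosh h1, Real.cosh_le_cosh, abs_of_nonneg (Real.arcosh_nonneg h1)]
    exact hR.trans (le_abs_self _)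
  have c1 := cs P Q
  have p := one_le0 P
  have q := one_le0 Q
  rw [lor3] at h1 h2
  have hb : Q.1 0 ≤ M := by
    refine le_trans ?_ hM
    generalize P.1 1 * Q.1 1 + P.1 2 * Q.1 2 + P.1 3 * Q.1 3 = s at *
    have a1 : Q.1 0 ^ 2 ≤ (P.1 0 * Q.1 0 - s) * (P.1 0 * Q.1 0 + s) := by nlinarith
    have a2 : (P.1 0 * Q.1 0 - s) * (P.1 0 * Q.1 0 + s) ≤ (P.1 0 * Q.1 0 - s) * (2 * P.1 0 * Q.1 0) :=
      mul_le_mul_of_nonneg_left (by linarith) (by linarith)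
    have a3 : (P.1 0 * Q.1 0 - s) * (2 * P.1 0 * Q.1 0) ≤ Real.cosh R * (2 * P.1 0 * Q.1 0) :=
      mul_le_mul_of_nonneg_right (by linarith) (by positivity)
    have a4 : Q.1 0 * Q.1 0 ≤ (2 * P.1 0 * Real.cosh R) * Q.1 0 := by nlinarith
    exact le_of_mul_le_mul_right a4 (by linarith)
  have hh := hq Q
  rw [e] at hb hh q
  simp at hb hh q
  have hb' : a ≤ M := by exact_mod_cast hb
  have hh' : a ^ 2 = 1 + (b ^ 2 + c ^ 2 + d ^ 2) := by exact_mod_cast hh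
  have q' : 1 ≤ a := by exact_mod_cast q
  have bd : ∀ x : ℤ, x ^ 2 ≤ a ^ 2 → x ∈ Set.Icc (-M : ℤ) M := fun x hx => by
    have := abs_le_of_sq_le_sq' hx (by omega)
    constructor <;> omega
  exact ⟨(a, b, c, d), ⟨bd a le_rfl, bd b (by nlinarith [sq_nonneg c, sq_nonneg d]),
    bd c (by nlinarith [sq_nonneg b, sq_nonneg d]), bd d (by nlinarith [sq_nonneg c, sq_nonneg b])⟩,
    e.symm⟩

noncomputable def sg (P : H 3) (d : ℝ) : V := ∑ᶠ Q ∈ {Q | Q ∈ C ∧ rho P Q = d}, dir P Q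

lemma fin_shell (P : H 3) (d : ℝ) : {Q | Q ∈ C ∧ rho P Q = d}.Finite :=
  (discrete P d).subset (fun _ h => ⟨h.1, h.2.le⟩)

lemma sg_gam (i : Fin 3) (P : H 3) (d : ℝ) : sg (gam i P) d = A i (sg P d) := by
  have := AddMonoidHom.map_finsum_mem (dir P) (A i).toAddMonoidHom (fin_shell P d)
  rw [sg, sg]
  refine Eq.trans ?_ this.symm
  symm
  apply finsum_mem_eq_of_bijOn (gam i)
  · refine ⟨fun Q h => ⟨InC.step i Q h.1, by rw [gam_rho]; exact h.2⟩,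
      fun a _ b _ h => by rw [← gam_inv i a, h, gam_inv], fun Q h => ⟨gam i Q, ⟨InC.step i Q h.1, ?_⟩, gam_inv i Q⟩⟩
    rw [← gam_rho i, gam_inv]; exact h.2
  · intro Q _
    simp only [dir, gam_rho, LinearMap.toAddMonoidHom_coe, map_smul, map_sub]
    rfl

lemma lor_e0 (Q : H 3) : -lor e0.1 Q.1 = Q.1 0 := by rw [lor3]; simp [e0, mk]

lemma sg_e0 (d : ℝ) : sg e0 d = 0 := by
  have g0 : gam 0 e0 = e0 := Subtype.ext (by change A 0 _ = _; rw [A0]; simp [e0, mk])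
  have g1 : gam 1 e0 = e0 := Subtype.ext (by change A 1 _ = _; rw [A1]; simp [e0, mk])
  have h0 := sg_gam 0 e0 d
  have h1 := sg_gam 1 e0 d
  rw [g0, A0] at h0
  rw [g1, A1] at h1
  have z : sg e0 d 0 = 0 := by
    have := AddMonoidHom.map_finsum_mem (dir e0) (Pi.evalAddMonoidHom (fun _ : Fin 4 => ℝ) 0)
      (fin_shell e0 d)
    refine this.trans (finsum_mem_of_eqOn_zero fun Q _ => ?_)
    have : Real.cosh (rho e0 Q) = Q.1 0 := by
      rw [rho, Real.cosh_arcosh (one_le _ _), lor_e0]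
    change (Real.sinh (rho e0 Q))⁻¹ * (Q.1 0 - Real.cosh (rho e0 Q) * 1) = 0
    rw [this]; ring
  have a1 := congrFun h1 1
  have a2 := congrFun h1 2
  have a3 := congrFun h0 3
  simp at a1 a2 a3
  funext j
  fin_cases j
  · exact z
  · change sg e0 d 1 = 0
    linarith
  · change sg e0 d 2 = 0
    linarith
  · change sg e0 d 3 = 0
    linarith

theorem balanced : Balanced C := by
  intro P hP d _
  change sg P d = 0
  induction hP with
  | base => exact sg_e0 d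
  | step i P _ ih => rw [sg_gam, ih, map_zero]

lemma shell_fin : ∀ p ∈ L, p.1 = 21 → ∀ b ∈ [p.2.1, p.2.1 - 24], ∀ c ∈ [p.2.2.1, p.2.2.1 - 24],
    ∀ d ∈ [p.2.2.2, p.2.2.2 - 24], b ^ 2 + c ^ 2 + d ^ 2 = 440 →
    (b, c, d) ∈ [((2 : ℤ), (20 : ℤ), (6 : ℤ)), (20, 2, -6), (-2, -20, 6), (-20, -2, -6)] := by
  decide +kernel

lemma shell {P : H 3} (h : InC P) (h0 : P.1 0 = 21) : P = Q1 ∨ P = Q2 ∨ P = Q3 ∨ P = Q4 := by
  obtain ⟨a, b, c, d, e, hl⟩ := int_of h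
  have hh := hq P
  rw [e] at hh h0
  simp at hh h0
  have ha : a = 21 := by exact_mod_cast h0
  subst ha
  have hh' : (21 : ℤ) ^ 2 = 1 + (b ^ 2 + c ^ 2 + d ^ 2) := by exact_mod_cast hh
  have bd : ∀ x : ℤ, x ^ 2 ≤ 440 → x ∈ [x % 24, x % 24 - 24] := fun x hx => by
    have h1 : -21 < x := by nlinarith
    have h2 : x < 21 := by nlinarith
    simp only [List.mem_cons, List.not_mem_nil, or_false]
    omega
  have := shell_fin _ hl rfl b (bd b (by nlinarith [sq_nonneg c, sq_nonneg d]))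
    c (bd c (by nlinarith [sq_nonneg b, sq_nonneg d])) d (bd d (by nlinarith [sq_nonneg c, sq_nonneg b]))
    (by linarith)
  simp only [List.mem_cons, Prod.mk.injEq, List.not_mem_nil, or_false] at this
  rcases this with h | h | h | h <;> obtain ⟨rfl, rfl, rfl⟩ := h
  · left; apply Subtype.ext; rw [e]; simp [Q1, mk]
  · right; left; apply Subtype.ext; rw [e]; simp [Q2, mk]
  · right; right; left; apply Subtype.ext; rw [e]; simp [Q3, mk]
  · right; right; right; apply Subtype.ext; rw [e]; simp [Q4, mk]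

lemma mid (g : H 3 → H 3) (hg : ∀ x y, lor (g x).1 (g y).1 = lor x.1 y.1) (P Q : H 3)
    (h1 : g P = Q) (h2 : g Q = P) : ∃ M : H 3, g M = M ∧ ∃ c : ℝ, c • M.1 = P.1 + Q.1 := by
  have hl := one_le P Q
  have hpos : 0 < 2 - 2 * lor P.1 Q.1 := by linarith
  obtain ⟨c, hc0, hc⟩ : ∃ c : ℝ, 0 < c ∧ c ^ 2 = 2 - 2 * lor P.1 Q.1 :=
    ⟨Real.sqrt _, Real.sqrt_pos.mpr hpos, Real.sq_sqrt hpos.le⟩
  have lin : ∀ x : V, lor x (c⁻¹ • (P.1 + Q.1)) = c⁻¹ * (lor x P.1 + lor x Q.1) := by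
    intro x; simp only [lor3, Pi.smul_apply, Pi.add_apply, smul_eq_mul]; ring
  have sym : ∀ x y : V, lor x y = lor y x := by intro x y; simp only [lor3]; ring
  let M : H 3 := ⟨c⁻¹ • (P.1 + Q.1), by
    rw [lin, sym _ P.1, sym _ Q.1, lin, lin, P.2.1, Q.2.1, sym Q.1 P.1]
    field_simp; linarith, by
    have := P.2.2; have := Q.2.2
    simp only [Pi.smul_apply, Pi.add_apply, smul_eq_mul]; positivity⟩
  refine ⟨M, eq_of_lor _ _ ?_, c, ?_⟩
  · have a := hg M P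
    have b := hg M Q
    rw [h1] at a; rw [h2] at b
    have := M.2.1
    change lor (g M).1 (c⁻¹ • (P.1 + Q.1)) = -1
    change lor M.1 (c⁻¹ • (P.1 + Q.1)) = -1 at this
    rw [lin] at this ⊢
    rw [a, b, add_comm]; exact this
  · change c • c⁻¹ • (P.1 + Q.1) = _
    rw [smul_inv_smul₀ hc0.ne']

theorem not_gb : ¬ GroupBalanced C := by
  intro h
  obtain ⟨g, hr, hC, hf⟩ := h e0 InC.base
  have fx : ∀ x, g x = x ↔ x = e0 := fun x => by
    have : x ∈ {x | g x = x} ↔ x ∈ ({e0} : Set (H 3)) := by rw [hf]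
    exact this
  have hg : ∀ x y, lor (g x).1 (g y).1 = lor x.1 y.1 := fun x y =>
    neg_injective (Real.arcosh_injOn (one_le _ _) (one_le _ _) (hr x y))
  have sh : ∀ P, InC P → P.1 0 = 21 → g P = Q1 ∨ g P = Q2 ∨ g P = Q3 ∨ g P = Q4 := by
    intro P hP h0
    have : g P ∈ C := hC ▸ Set.mem_image_of_mem g hP
    refine shell this ?_
    rw [← lor_e0, ← (fx e0).mpr rfl, hg, lor_e0, h0]
  have c1 : InC Q1 := by
    have : Q1 = gam 2 e0 := Subtype.ext (by change _ = A 2 _; rw [A2]; simp [e0, Q1, mk])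
    rw [this]; exact InC.step _ _ InC.base
  have c2 : InC Q2 := by
    have : Q2 = gam 0 Q1 := Subtype.ext (by change _ = A 0 _; rw [A0]; simp [Q2, Q1, mk])
    rw [this]; exact InC.step _ _ c1
  have c3 : InC Q3 := by
    have : Q3 = gam 1 Q1 := Subtype.ext (by change _ = A 1 _; rw [A1]; simp [Q3, Q1, mk])
    rw [this]; exact InC.step _ _ c1
  have c4 : InC Q4 := by
    have : Q4 = gam 1 Q2 := Subtype.ext (by change _ = A 1 _; rw [A1]; simp [Q4, Q2, mk])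
    rw [this]; exact InC.step _ _ c2
  have fin : ∀ Q : H 3, InC Q → Q.1 0 = 21 → g Q1 = Q → g Q = Q1 := by
    intro Q hQ h0 e
    have k := hg Q1 Q
    rw [e] at k
    rcases sh Q1 c1 rfl with a | a | a | a <;> rw [e] at a <;> subst a
    · exact e
    all_goals
      rcases sh _ hQ h0 with b | b | b | b <;> first
        | exact b
        | (exfalso; rw [b, lor3, lor3] at k; simp [Q1, Q2, Q3, Q4, mk] at k; try norm_num at k)
  have hin : InC (g Q1) := by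
    have : g Q1 ∈ C := hC ▸ Set.mem_image_of_mem g c1
    exact this
  have h21 : (g Q1).1 0 = 21 := by rcases sh Q1 c1 rfl with a | a | a | a <;> rw [a] <;> rfl
  obtain ⟨M, hM, c, hc⟩ := mid g hg Q1 (g Q1) rfl (fin _ hin h21 rfl)
  rw [(fx M).mp hM] at hc
  have k1 := congrFun hc 1
  have k3 := congrFun hc 3
  rcases sh Q1 c1 rfl with a | a | a | a <;> rw [a] at k1 k3 <;>
    (simp [e0, Q1, Q2, Q3, Q4, mk] at k1 k3 <;> linarith)

end Pool.Agent.H16.HypBal
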