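import Mathlib

set_option autoImplicit false

namespace Pool.Agent.H16.IZ

/-- Terms of type `(2,0)` in countably many variables. -/
inductive Tm
  | var (n : ℕ)
  | zero
  | imp (a b : Tm)

/-- Algebras of type `(2,0)`. -/
structure Alg where
  A : Type
  f : A → A → A
  o : A

def Tm.eval (B : Alg) (ρ : ℕ → B.A) : Tm → B.A
  | var n => ρ n
  | zero => B.o
  | imp a b => B.f (a.eval B ρ) (b.eval B ρ)

def Sat (B : Alg) (e : Tm × Tm) : Prop := ∀ ρ, e.1.eval B ρ = e.2.eval B ρ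

/-- All algebras satisfying the identities in `S`. -/
def Mod (S : Set (Tm × Tm)) : Set Alg := {B | ∀ e ∈ S, Sat B e}

/-- All identities satisfied by the class `K`. -/
def Idn (K : Set Alg) : Set (Tm × Tm) := {e | ∀ B ∈ K, Sat B e}

def Tm.n (a : Tm) : Tm := a.imp zero

open Tm in
/-- Implication zroupoids. -/
def IZ : Set Alg := Mod {(((var 0).imp (var 1)).imp (var 2),
  (((var 2).n.imp (var 0)).imp ((var 1).imp (var 2)).n).n), (zero.n.n, zero)}

/-- Varieties (equational classes) of implication zroupoids. -/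
def Var := {X : Set Alg // (∃ S, X = Mod S) ∧ X ⊆ IZ}

theorem mod_idn_le {K : Set Alg} {S : Set (Tm × Tm)} (h : K ⊆ Mod S) : Mod (Idn K) ⊆ Mod S :=
  fun _ hB e he => hB e fun _ hC => h hC e he

/-- Order: inclusion; meet: intersection; join: the variety generated by the union. -/
instance : Lattice Var :=
  { Subtype.partialOrder _ with
    inf := fun X Y => ⟨X.1 ∩ Y.1, by
      obtain ⟨S, hS⟩ := X.2.1
      obtain ⟨T, hT⟩ := Y.2.1
      exact ⟨S ∪ T, by rw [hS, hT]; ext; simp [Mod, or_imp, forall_and]⟩, fun _ h => X.2.2 h.1⟩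
    sup := fun X Y => ⟨Mod (Idn (X.1 ∪ Y.1)), ⟨_, rfl⟩, mod_idn_le (Set.union_subset X.2.2 Y.2.2)⟩
    inf_le_left := fun _ _ _ h => h.1
    inf_le_right := fun _ _ _ h => h.2
    le_inf := fun _ _ _ h1 h2 _ h => ⟨h1 h, h2 h⟩
    le_sup_left := fun _ _ B h _ he => he B (Or.inl h)
    le_sup_right := fun _ _ B h _ he => he B (Or.inr h)
    sup_le := fun X Y Z h1 h2 => by
      obtain ⟨S, hS⟩ := Z.2.1
      show Mod (Idn (X.1 ∪ Y.1)) ⊆ Z.1
      rw [hS]
      exact mod_idn_le (hS ▸ Set.union_subset h1 h2) }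

/-- The variety defined by `x → y ≈ 0`. -/
def ZM : Var := ⟨Mod {((Tm.var 0).imp (Tm.var 1), Tm.zero)}, ⟨_, rfl⟩, fun B h => by
  have h : ∀ x y, B.f x y = B.o := fun x y => h _ rfl fun n => if n = 0 then x else y
  rintro _ (rfl | rfl) ρ <;> simp [Tm.eval, Tm.n, h]⟩

end Pool.Agent.H16.IZ
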