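import Mathlib

set_option autoImplicit false

namespace Pool.Agent.H16.IZ

theorem key {A : Type} (f : A → A → A) (o : A)
    (h1 : ∀ x y z, f (f x y) z = f (f (f (f z o) x) (f (f y z) o)) o) (h2 : f (f o o) o = o) (a b c : A) :
    f (f (f (f a b) c) o) o = f (f a b) c := by
  have l0 : ∀ x0 x1 x2 : A, (f (f (f (f x0 o) x1) (f (f x2 x0) o)) o) = (f (f x1 x2) x0) := fun x0 x1 x2 =>
    (h1 x1 x2 x0).symm
  have l1 : ∀ x0 : A, (f (f (f (f o o) x0) o) o) = (f (f x0 o) o) := fun x0 =>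
    (Eq.trans (congrArg (fun h => (f (f (f (f o o) x0) h) o)) (h2).symm) (l0 o x0 o))
  have l2 : ∀ x0 x1 : A, (f (f x0 (f (f (f o o) x1) o)) o) = (f (f x0 (f x1 o)) o) := fun x0 x1 =>
    (Eq.trans (l0 o x0 (f (f (f o o) x1) o)).symm (Eq.trans (congrArg (fun h => (f (f (f (f o o) x0) (f h o))
      o)) (l1 x1)) (l0 o x0 (f x1 o))))
  have l3 : ∀ x0 x1 x2 : A, (f (f x0 x1) (f (f (f o o) x2) o)) = (f (f x0 x1) (f x2 o)) := fun x0 x1 x2 =>
    (Eq.trans (l0 (f (f (f o o) x2) o) x0 x1).symm (Eq.trans (congrArg (fun h => (f (f (f (f (f (f (f o o)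
      x2) o) o) x0) h) o)) (l2 x1 x2)) (Eq.trans (congrArg (fun h => (f (f (f h x0) (f (f x1 (f x2 o)) o)) o))
      (l1 x2)) (l0 (f x2 o) x0 x1))))
  have l4 : ∀ x0 x1 x2 : A, (f (f (f (f (f o o) x0) o) x1) x2) = (f (f (f x0 o) x1) x2) := fun x0 x1 x2 =>
    (Eq.trans (l0 x2 (f (f (f o o) x0) o) x1).symm (Eq.trans (congrArg (fun h => (f (f h (f (f x1 x2) o)) o))
      (l3 x2 o x0)) (l0 x2 (f x0 o) x1)))
  have l5 : ∀ x0 x1 : A, (f (f x0 (f (f o o) x1)) o) = (f (f x0 x1) o) := fun x0 x1 =>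
    (Eq.trans (l0 o x0 (f (f o o) x1)).symm (Eq.trans (congrArg (fun h => (f (f (f (f o o) x0) h) o)) (l1
      x1)) (l0 o x0 x1)))
  have l6 : ∀ x0 x1 x2 : A, (f (f x0 x1) (f (f o o) x2)) = (f (f x0 x1) x2) := fun x0 x1 x2 =>
    (Eq.trans (l0 (f (f o o) x2) x0 x1).symm (Eq.trans (congrArg (fun h => (f h o)) (l4 x2 x0 (f (f x1 (f (f
      o o) x2)) o))) (Eq.trans (congrArg (fun h => (f (f (f (f x2 o) x0) h) o)) (l5 x1 x2)) (l0 x2 x0 x1))))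
  have l7 : ∀ x0 x1 x2 : A, (f (f (f (f o o) x0) x1) x2) = (f (f x0 x1) x2) := fun x0 x1 x2 =>
    (Eq.trans (l0 x2 (f (f o o) x0) x1).symm (Eq.trans (congrArg (fun h => (f (f h (f (f x1 x2) o)) o)) (l6
      x2 o x0)) (l0 x2 x0 x1)))
  have l8 : ∀ x0 x1 : A, (f (f x0 (f (f x1 o) o)) o) = (f (f x0 x1) o) := fun x0 x1 =>
    (Eq.trans (l7 x0 (f (f x1 o) o) o).symm (l0 o x0 x1))
  have l9 : ∀ x0 x1 : A, (f (f (f (f x0 o) o) o) x1) = (f (f x0 o) x1) := fun x0 x1 =>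
    (Eq.trans (l7 (f (f x0 o) o) o x1).symm (Eq.trans (congrArg (fun h => (f h x1)) (l8 (f o o) x0)) (l7 x0 o
      x1)))
  have l10 : ∀ x0 x1 x2 : A, (f (f x0 x1) (f (f x2 o) o)) = (f (f x0 x1) x2) := fun x0 x1 x2 =>
    (Eq.trans (l0 (f (f x2 o) o) x0 x1).symm (Eq.trans (congrArg (fun h => (f (f h (f (f x1 (f (f x2 o) o))
      o)) o)) (l9 x2 x0)) (Eq.trans (congrArg (fun h => (f (f (f (f x2 o) x0) h) o)) (l8 x1 x2)) (l0 x2 x0
      x1))))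
  have l11 : ∀ x0 x1 : A, (f (f (f (f x0 o) x1) (f x0 o)) o) = (f (f x1 (f o o)) x0) := fun x0 x1 =>
    (Eq.trans (l2 (f (f x0 o) x1) x0).symm (l0 x0 x1 (f o o)))
  have l12 : ∀ x0 : A, (f (f o (f o o)) (f x0 o)) = (f (f (f x0 o) x0) o) := fun x0 =>
    (Eq.trans (l11 (f x0 o) o).symm (Eq.trans (congrArg (fun h => (f h o)) (l9 x0 (f (f x0 o) o))) (l8 (f x0
      o) x0)))
  have l13 : ∀ x0 : A, (f o (f (f x0 o) o)) = (f o x0) := fun x0 =>
    (Eq.trans (congrArg (fun h => (f h (f (f x0 o) o))) (h2).symm) (Eq.trans (l10 (f o o) o x0) (congrArg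
      (fun h => (f h x0)) (h2))))
  have l14 : ∀ x0 : A, (f (f x0 (f o o)) (f o o)) = (f (f (f o x0) o) o) := fun x0 =>
    (Eq.trans (l11 (f o o) x0).symm (Eq.trans (congrArg (fun h => (f (f (f h x0) (f (f o o) o)) o)) (h2))
      (congrArg (fun h => (f (f (f o x0) h) o)) (h2))))
  have l15 : ∀ x0 x1 : A, (f o (f (f (f o o) x0) x1)) = (f o (f x0 x1)) := fun x0 x1 =>
    (Eq.trans (l13 (f (f (f o o) x0) x1)).symm (Eq.trans (congrArg (fun h => (f o (f h o))) (l7 x0 x1 o))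
      (l13 (f x0 x1))))
  have l16 : ∀ x0 : A, (f o (f (f o o) x0)) = (f o x0) := fun x0 =>
    (Eq.trans (congrArg (fun h => (f h (f (f o o) x0))) (h2).symm) (Eq.trans (l6 (f o o) o x0) (congrArg (fun
      h => (f h x0)) (h2))))
  have l17 : (f o (f o (f o o))) = (f o (f o o)) := (Eq.trans (l13 (f o (f o o))).symm (Eq.trans (congrArg
      (fun h => (f o h)) (l14 (f o o)).symm) (Eq.trans (l15 (f o o) (f o o)) (l16 (f o o)))))
  have l18 : (f (f (f o (f o o)) o) o) = (f (f o o) (f o o)) := (Eq.trans (congrArg (fun h => (f (f h o)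
      o)) (l17).symm) (Eq.trans (l14 (f o (f o o))).symm (Eq.trans (congrArg (fun h => (f h (f o o))) (l12 o))
      (congrArg (fun h => (f (f h o) (f o o))) (h2)))))
  have l19 : ∀ x0 : A, (f (f x0 (f (f o (f o o)) o)) o) = (f (f x0 o) o) := fun x0 =>
    (Eq.trans (l0 o x0 (f (f o (f o o)) o)).symm (Eq.trans (congrArg (fun h => (f (f (f (f o o) x0) (f h o))
      o)) (l18)) (Eq.trans (congrArg (fun h => (f h o)) (l3 (f o o) x0 (f o o))) (Eq.trans (congrArg (fun h =>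
      (f (f (f (f o o) x0) h) o)) (h2)) (l7 x0 o o)))))
  have l20 : ∀ x0 : A, (f (f (f o x0) o) o) = (f (f x0 o) (f o o)) := fun x0 =>
    (Eq.trans (congrArg (fun h => (f (f (f h x0) o) o)) (h2).symm) (Eq.trans (l19 (f (f (f o o) o) x0)).symm
      (l0 (f o o) x0 o)))
  have l21 : ∀ x0 x1 x2 : A, (f (f (f (f x0 o) o) x1) x2) = (f (f x0 x1) x2) := fun x0 x1 x2 =>
    (Eq.trans (l0 x2 (f (f x0 o) o) x1).symm (Eq.trans (congrArg (fun h => (f (f h (f (f x1 x2) o)) o)) (l10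
      x2 o x0)) (l0 x2 x0 x1)))
  have l22 : ∀ x0 : A, (f (f x0 (f x0 o)) o) = (f (f o (f o o)) x0) := fun x0 =>
    (Eq.trans (l21 x0 (f x0 o) o).symm (l11 x0 o))
  have l23 : ∀ x0 : A, (f (f x0 (f o (f o o))) o) = (f (f x0 (f o o)) o) := fun x0 =>
    (Eq.trans (l0 o x0 (f o (f o o))).symm (Eq.trans (congrArg (fun h => (f (f (f (f o o) x0) h) o)) (l18))
      (Eq.trans (congrArg (fun h => (f h o)) (l6 (f o o) x0 (f o o))) (l7 x0 (f o o) o))))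
  have l24 : ∀ x0 x1 : A, (f (f x0 (f (f x1 x0) o)) o) = (f (f o x1) x0) := fun x0 x1 =>
    (Eq.trans (l21 x0 (f (f x1 x0) o) o).symm (l0 x0 o x1))
  have l25 : (f (f o o) (f o o)) = (f o o) := (Eq.trans (l24 (f o o) o).symm (Eq.trans (l7 (f o o) (f (f o
      (f o o)) o) o).symm (Eq.trans (congrArg (fun h => (f (f h (f (f o (f o o)) o)) o)) (l18).symm) (Eq.trans
      (l12 (f (f o (f o o)) o)).symm (Eq.trans (congrArg (fun h => (f (f o (f o o)) h)) (l18)) (Eq.trans (l6 o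
      (f o o) (f o o)) (Eq.trans (l12 o) (congrArg (fun h => (f h o)) (h2)))))))))
  have l26 : ∀ x0 : A, (f (f (f o (f o o)) o) x0) = (f o x0) := fun x0 =>
    (Eq.trans (l7 (f o (f o o)) o x0).symm (Eq.trans (congrArg (fun h => (f h x0)) (l23 (f o o))) (Eq.trans
      (congrArg (fun h => (f (f h o) x0)) (l25)) (congrArg (fun h => (f h x0)) (h2)))))
  have l27 : (f o (f o o)) = (f o o) := (Eq.trans (congrArg (fun h => (f h (f o o))) (h2).symm) (Eq.trans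
      (l20 (f o o)).symm (Eq.trans (congrArg (fun h => (f h o)) (l22 o)) (l26 o))))
  have l28 : ∀ x0 : A, (f (f (f x0 o) x0) o) = (f (f o o) (f x0 o)) := fun x0 =>
    (Eq.trans (l12 x0).symm (congrArg (fun h => (f h (f x0 o))) (l27)))
  have l29 : ∀ x0 x1 x2 : A, (f (f x0 x1) (f (f x2 o) x2)) = (f (f x0 x1) x2) := fun x0 x1 x2 =>
    (Eq.trans (l10 x0 x1 (f (f x2 o) x2)).symm (Eq.trans (congrArg (fun h => (f (f x0 x1) (f h o))) (l28 x2))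
      (Eq.trans (l3 x0 x1 (f x2 o)) (l10 x0 x1 x2))))
  have l30 : ∀ x0 : A, (f (f x0 (f x0 o)) o) = (f (f o o) x0) := fun x0 =>
    (Eq.trans (l22 x0) (congrArg (fun h => (f h x0)) (l27)))
  have l31 : ∀ x0 : A, (f o (f x0 (f x0 o))) = (f o (f x0 o)) := fun x0 =>
    (Eq.trans (l13 (f x0 (f x0 o))).symm (Eq.trans (congrArg (fun h => (f o (f h o))) (l30 x0)) (l15 x0 o)))
  have l32 : ∀ x0 : A, (f o (f (f x0 o) x0)) = (f o x0) := fun x0 =>
    (Eq.trans (congrArg (fun h => (f o h)) (l10 x0 o x0).symm) (Eq.trans (l31 (f x0 o)) (l13 x0)))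
  have l33 : ∀ x0 : A, (f (f o o) (f (f x0 o) x0)) = (f (f x0 o) x0) := fun x0 =>
    (Eq.trans (l24 (f (f x0 o) x0) o).symm (Eq.trans (congrArg (fun h => (f (f (f (f x0 o) x0) (f h o)) o))
      (l32 x0)) (l0 x0 x0 o)))
  have l34 : ∀ x0 : A, (f (f o o) x0) = (f (f x0 o) x0) := fun x0 =>
    (Eq.trans (l29 o o x0).symm (l33 x0))
  have l35 : ∀ x0 x1 : A, (f (f x0 x1) x0) = (f (f o x1) x0) := fun x0 x1 =>
    (Eq.trans (l0 x0 x0 x1).symm (Eq.trans (congrArg (fun h => (f (f h (f (f x1 x0) o)) o)) (l34 x0).symm)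
      (Eq.trans (l7 x0 (f (f x1 x0) o) o) (l24 x0 x1))))
  have l36 : ∀ x0 x1 x2 : A, (f (f (f x0 x1) x0) x2) = (f (f (f o x1) x0) x2) := fun x0 x1 x2 =>
    (Eq.trans (l6 (f x0 x1) x0 x2).symm (Eq.trans (congrArg (fun h => (f h (f (f o o) x2))) (l35 x0 x1)) (l6
      (f o x1) x0 x2)))
  have l37 : ∀ x0 x1 : A, (f (f (f x0 x1) x0) o) = (f (f x1 x0) (f x0 o)) := fun x0 x1 =>
    (Eq.trans (congrArg (fun h => (f h o)) (l21 x0 x1 x0).symm) (Eq.trans (congrArg (fun h => (f h o)) (l6 (f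
      (f x0 o) o) x1 x0).symm) (Eq.trans (congrArg (fun h => (f (f (f (f (f x0 o) o) x1) h) o)) (l30 x0).symm)
      (l0 (f x0 o) x1 x0))))
  have l38 : ∀ x0 x1 : A, (f (f x0 (f (f x1 o) x1)) o) = (f (f x0 x1) o) := fun x0 x1 =>
    (Eq.trans (l0 o x0 (f (f x1 o) x1)).symm (Eq.trans (congrArg (fun h => (f (f (f (f o o) x0) (f h o)) o))
      (l28 x1)) (Eq.trans (congrArg (fun h => (f h o)) (l3 (f o o) x0 (f x1 o))) (Eq.trans (congrArg (fun h =>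
      (f h o)) (l10 (f o o) x0 x1)) (l7 x0 x1 o)))))
  have l39 : ∀ x0 x1 : A, (f (f (f o x0) (f x0 o)) x1) = (f (f x0 o) x1) := fun x0 x1 =>
    (Eq.trans (congrArg (fun h => (f h x1)) (l37 x0 o).symm) (Eq.trans (l7 (f (f x0 o) x0) o x1).symm
      (Eq.trans (congrArg (fun h => (f h x1)) (l38 (f o o) x0)) (l7 x0 o x1))))
  have l40 : ∀ x0 x1 : A, (f (f x0 (f x0 o)) x1) = (f (f x0 o) x1) := fun x0 x1 =>
    (Eq.trans (l7 x0 (f x0 o) x1).symm (Eq.trans (congrArg (fun h => (f (f h (f x0 o)) x1)) (l34 x0))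
      (Eq.trans (l36 (f x0 o) x0 x1) (l39 x0 x1))))
  have l41 : ∀ x0 : A, (f (f x0 o) o) = (f (f o o) x0) := fun x0 =>
    (Eq.trans (l40 x0 o).symm (l30 x0))
  have l42 : ∀ x0 x1 : A, (f (f x0 (f o o)) (f x1 o)) = (f (f (f x1 x0) x1) o) := fun x0 x1 =>
    (Eq.trans (l11 (f x1 o) x0).symm (Eq.trans (congrArg (fun h => (f h o)) (l21 x1 x0 (f (f x1 o) o)))
      (congrArg (fun h => (f h o)) (l10 x1 x0 x1))))
  have l43 : ∀ x0 x1 : A, (f (f x0 (f x1 o)) x1) = (f (f x0 (f o o)) x1) := fun x0 x1 =>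
    (Eq.trans (l0 x1 x0 (f x1 o)).symm (Eq.trans (congrArg (fun h => (f (f (f (f x1 o) x0) h) o)) (l28 x1))
      (Eq.trans (congrArg (fun h => (f h o)) (l6 (f x1 o) x0 (f x1 o))) (Eq.trans (l42 x0 (f x1 o)).symm (l10
      x0 (f o o) x1)))))
  have l44 : ∀ x0 x1 : A, (f (f (f x0 x1) x0) x1) = (f (f (f o o) x0) x1) := fun x0 x1 =>
    (Eq.trans (l21 (f x0 x1) x0 x1).symm (Eq.trans (l0 x1 (f (f (f x0 x1) o) o) x0).symm (Eq.trans (congrArg
      (fun h => (f h o)) (l43 (f x1 o) (f (f x0 x1) o))) (l0 x1 (f o o) x0))))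
  have l45 : ∀ x0 x1 : A, (f (f (f o o) x0) x1) = (f (f (f o x1) x0) x1) := fun x0 x1 =>
    (Eq.trans (l44 x0 x1).symm (congrArg (fun h => (f h x1)) (l35 x0 x1)))
  have l46 : ∀ x0 x1 : A, (f (f (f o x0) (f x1 o)) o) = (f (f x0 (f o o)) x1) := fun x0 x1 =>
    (Eq.trans (congrArg (fun h => (f h o)) (l35 (f x1 o) x0).symm) (Eq.trans (congrArg (fun h => (f h o)) (l6
      (f x1 o) x0 (f x1 o)).symm) (Eq.trans (congrArg (fun h => (f (f (f (f x1 o) x0) h) o)) (l41 (f x1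
      o)).symm) (Eq.trans (congrArg (fun h => (f (f (f (f x1 o) x0) (f h o)) o)) (l41 x1)) (l0 x1 x0 (f o
      o))))))
  have l47 : ∀ x0 x1 : A, (f (f x0 x1) (f o x0)) = (f (f o x1) (f o x0)) := fun x0 x1 =>
    (Eq.trans (l0 (f o x0) x0 x1).symm (Eq.trans (congrArg (fun h => (f (f h (f (f x1 (f o x0)) o)) o)) (l44
      o x0)) (Eq.trans (congrArg (fun h => (f (f (f h x0) (f (f x1 (f o x0)) o)) o)) (h2)) (l24 (f o x0) x1))))
  have l48 : ∀ x0 : A, (f (f o o) (f o x0)) = (f (f x0 o) (f o o)) := fun x0 =>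
    (Eq.trans (l41 (f o x0)).symm (l37 o x0))
  have l49 : ∀ x0 : A, (f (f o o) (f (f x0 o) (f o o))) = (f o x0) := fun x0 =>
    (Eq.trans (congrArg (fun h => (f (f o o) h)) (l20 x0).symm) (Eq.trans (l28 (f (f o x0) o)).symm (Eq.trans
      (congrArg (fun h => (f (f h (f (f o x0) o)) o)) (l20 x0)) (Eq.trans (l0 x0 (f o o) o) (congrArg (fun h =>
      (f h x0)) (h2))))))
  have l50 : ∀ x0 : A, (f (f o o) (f o x0)) = (f o x0) := fun x0 =>
    (Eq.trans (l6 o o (f o x0)).symm (Eq.trans (congrArg (fun h => (f (f o o) h)) (l48 x0)) (l49 x0)))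
  have l51 : ∀ x0 : A, (f (f x0 o) (f o x0)) = (f o x0) := fun x0 =>
    (Eq.trans (l47 x0 o) (l50 x0))
  have l52 : ∀ x0 x1 : A, (f (f x0 (f o (f x0 o))) x1) = (f (f o (f x0 o)) x1) := fun x0 x1 =>
    (Eq.trans (l21 x0 (f o (f x0 o)) x1).symm (congrArg (fun h => (f h x1)) (l51 (f x0 o))))
  have l53 : ∀ x0 x1 : A, (f (f x0 (f o o)) (f x1 x0)) = (f (f (f o x0) x1) x0) := fun x0 x1 =>
    (Eq.trans (l46 x0 (f x1 x0)).symm (Eq.trans (congrArg (fun h => (f (f h (f (f x1 x0) o)) o)) (l13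
      x0).symm) (Eq.trans (congrArg (fun h => (f h o)) (l52 (f x0 o) (f (f x1 x0) o)).symm) (Eq.trans (l0 x0 (f
      o (f (f x0 o) o)) x1) (congrArg (fun h => (f (f h x1) x0)) (l13 x0))))))
  have l54 : ∀ x0 : A, (f (f x0 o) (f o o)) = (f o x0) := fun x0 =>
    (Eq.trans (l48 x0).symm (l50 x0))
  have l55 : ∀ x0 x1 : A, (f (f x0 (f o o)) x1) = (f (f o (f x0 o)) x1) := fun x0 x1 =>
    (Eq.trans (l21 x0 (f o o) x1).symm (congrArg (fun h => (f h x1)) (l54 (f x0 o))))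
  have l56 : ∀ x0 x1 x2 : A, (f (f x0 (f (f x1 o) o)) x2) = (f (f x0 x1) x2) := fun x0 x1 x2 =>
    (Eq.trans (l7 x0 (f (f x1 o) o) x2).symm (Eq.trans (congrArg (fun h => (f h x2)) (l10 (f o o) x0 x1)) (l7
      x0 x1 x2)))
  have l57 : ∀ x0 : A, (f (f x0 (f x0 (f x0 o))) o) = (f (f o (f o o)) x0) := fun x0 =>
    (Eq.trans (l56 x0 (f x0 (f x0 o)) o).symm (Eq.trans (congrArg (fun h => (f (f x0 (f h o)) o)) (l22 x0))
      (Eq.trans (l24 x0 (f o (f o o))) (congrArg (fun h => (f h x0)) (l17)))))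
  have l58 : ∀ x0 : A, (f (f x0 (f x0 (f x0 o))) o) = (f (f o o) x0) := fun x0 =>
    (Eq.trans (l57 x0) (congrArg (fun h => (f h x0)) (l27)))
  have l59 : ∀ x0 : A, (f o (f x0 (f x0 (f x0 o)))) = (f o (f x0 o)) := fun x0 =>
    (Eq.trans (l15 x0 (f x0 (f x0 o))).symm (Eq.trans (congrArg (fun h => (f o (f h (f x0 (f x0 o))))) (l30
      x0).symm) (Eq.trans (l32 (f x0 (f x0 o))) (l31 x0))))
  have l60 : ∀ x0 : A, (f (f o x0) (f o o)) = (f o (f x0 o)) := fun x0 =>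
    (Eq.trans (l35 (f o o) x0).symm (Eq.trans (congrArg (fun h => (f h (f o o))) (l58 x0).symm) (Eq.trans
      (l54 (f x0 (f x0 (f x0 o)))) (l59 x0))))
  have l61 : ∀ x0 x1 x2 : A, (f (f x0 (f (f o o) x1)) x2) = (f (f x0 x1) x2) := fun x0 x1 x2 =>
    (Eq.trans (l0 x2 x0 (f (f o o) x1)).symm (Eq.trans (congrArg (fun h => (f (f (f (f x2 o) x0) h) o)) (l7
      x1 x2 o)) (l0 x2 x0 x1)))
  have l62 : ∀ x0 : A, (f (f o (f x0 o)) x0) = (f (f o o) x0) := fun x0 =>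
    (Eq.trans (l24 x0 (f x0 o)).symm (Eq.trans (congrArg (fun h => (f (f x0 h) o)) (l28 x0)) (Eq.trans (l61
      x0 (f x0 o) o) (l30 x0))))
  have l63 : ∀ x0 : A, (f (f o o) (f x0 o)) = (f (f o x0) (f x0 o)) := fun x0 =>
    (Eq.trans (l3 o o x0).symm (Eq.trans (l62 (f (f (f o o) x0) o)).symm (Eq.trans (l3 o (f (f (f (f o o) x0)
      o) o) x0) (Eq.trans (congrArg (fun h => (f (f o h) (f x0 o))) (l7 x0 o o)) (congrArg (fun h => (f h (f x0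
      o))) (l13 x0))))))
  have l64 : ∀ x0 x1 : A, (f (f (f o o) (f x0 o)) x1) = (f (f x0 o) x1) := fun x0 x1 =>
    (Eq.trans (congrArg (fun h => (f h x1)) (l63 x0)) (l39 x0 x1))
  have l65 : ∀ x0 : A, (f o (f (f o x0) o)) = (f o (f x0 o)) := fun x0 =>
    (Eq.trans (l60 (f o x0)).symm (Eq.trans (l24 (f o o) (f o x0)).symm (Eq.trans (congrArg (fun h => (f (f
      (f o o) (f h o)) o)) (l60 x0)) (Eq.trans (l64 (f o (f x0 o)) o) (Eq.trans (l37 o (f x0 o)) (l54 (f x0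
      o)))))))
  have l66 : ∀ x0 : A, (f o (f o x0)) = (f o x0) := fun x0 =>
    (Eq.trans (congrArg (fun h => (f o h)) (l54 x0).symm) (Eq.trans (congrArg (fun h => (f o h)) (l37 o
      x0).symm) (Eq.trans (l60 (f (f o x0) o)).symm (Eq.trans (congrArg (fun h => (f h (f o o))) (l65 x0))
      (Eq.trans (l60 (f x0 o)) (l13 x0))))))
  have l67 : ∀ x0 x1 x2 : A, (f (f x0 (f x1 x2)) x1) = (f (f x0 (f o x2)) x1) := fun x0 x1 x2 =>
    (Eq.trans (l0 x1 x0 (f x1 x2)).symm (Eq.trans (congrArg (fun h => (f (f (f (f x1 o) x0) (f h o)) o)) (l35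
      x1 x2)) (l0 x1 x0 (f o x2))))
  have l68 : ∀ x0 x1 x2 : A, (f (f x0 (f x1 (f (f o o) x2))) o) = (f (f x0 (f x1 x2)) o) := fun x0 x1 x2 =>
    (Eq.trans (l0 o x0 (f x1 (f (f o o) x2))).symm (Eq.trans (congrArg (fun h => (f (f (f (f o o) x0) (f h
      o)) o)) (l5 x1 x2)) (l0 o x0 (f x1 x2))))
  have l69 : ∀ x0 x1 x2 x3 : A, (f (f x0 x1) (f x2 (f (f o o) x3))) = (f (f x0 x1) (f x2 x3)) := fun x0 x1
      x2 x3 =>
    (Eq.trans (l0 (f x2 (f (f o o) x3)) x0 x1).symm (Eq.trans (congrArg (fun h => (f (f (f (f (f x2 (f (f o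
      o) x3)) o) x0) h) o)) (l68 x1 x2 x3)) (Eq.trans (congrArg (fun h => (f (f (f h x0) (f (f x1 (f x2 x3))
      o)) o)) (l5 x2 x3)) (l0 (f x2 x3) x0 x1))))
  have l70 : ∀ x0 x1 : A, (f o (f x0 (f (f o o) x1))) = (f o (f x0 x1)) := fun x0 x1 =>
    (Eq.trans (congrArg (fun h => (f h (f x0 (f (f o o) x1)))) (h2).symm) (Eq.trans (l69 (f o o) o x0 x1)
      (congrArg (fun h => (f h (f x0 x1))) (h2))))
  have l71 : ∀ x0 x1 : A, (f o (f (f x0 x1) x0)) = (f o (f (f o x1) x0)) := fun x0 x1 =>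
    (Eq.trans (congrArg (fun h => (f o h)) (l7 x0 x1 x0).symm) (Eq.trans (l70 (f (f (f o o) x0) x1) x0).symm
      (Eq.trans (congrArg (fun h => (f o h)) (l35 (f (f o o) x0) x1)) (congrArg (fun h => (f o h)) (l6 o x1
      x0)))))
  have l72 : ∀ x0 : A, (f o (f (f x0 o) (f o o))) = (f o (f o x0)) := fun x0 =>
    (Eq.trans (congrArg (fun h => (f o h)) (l20 x0).symm) (l13 (f o x0)))
  have l73 : ∀ x0 x1 : A, (f o (f (f (f x0 o) o) x1)) = (f o (f x0 x1)) := fun x0 x1 =>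
    (Eq.trans (l13 (f (f (f x0 o) o) x1)).symm (Eq.trans (congrArg (fun h => (f o (f h o))) (l21 x0 x1 o))
      (l13 (f x0 x1))))
  have l74 : ∀ x0 : A, (f o (f o (f x0 o))) = (f o (f x0 (f o o))) := fun x0 =>
    (Eq.trans (l72 (f x0 o)).symm (l73 x0 (f o o)))
  have l75 : ∀ x0 : A, (f o (f (f x0 (f o o)) o)) = (f o x0) := fun x0 =>
    (Eq.trans (l65 (f x0 (f o o))).symm (Eq.trans (congrArg (fun h => (f o (f h o))) (l74 x0).symm) (Eq.trans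
      (l65 (f o (f x0 o))) (Eq.trans (l65 (f x0 o)) (l13 x0)))))
  have l76 : ∀ x0 x1 : A, (f o (f x0 (f o x1))) = (f o (f x0 x1)) := fun x0 x1 =>
    (Eq.trans (l75 (f x0 (f o x1))).symm (Eq.trans (congrArg (fun h => (f o (f h o))) (l67 x0 (f o o)
      x1).symm) (Eq.trans (l75 (f x0 (f (f o o) x1))) (l70 x0 x1))))
  have l77 : ∀ x0 x1 : A, (f (f o (f x0 x1)) x0) = (f (f o x1) x0) := fun x0 x1 =>
    (Eq.trans (l67 o x0 x1) (congrArg (fun h => (f h x0)) (l66 x1)))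
  have l78 : ∀ x0 x1 : A, (f o (f (f (f x0 x1) x0) x1)) = (f o (f x0 x1)) := fun x0 x1 =>
    (Eq.trans (congrArg (fun h => (f o (f h x1))) (l61 x0 x1 x0).symm) (Eq.trans (l70 (f (f x0 (f (f o o)
      x1)) x0) x1).symm (Eq.trans (congrArg (fun h => (f o h)) (l44 x0 (f (f o o) x1))) (Eq.trans (congrArg
      (fun h => (f o h)) (l6 (f o o) x0 x1)) (l15 x0 x1)))))
  have l79 : ∀ x0 x1 : A, (f o (f (f (f o x0) x1) x0)) = (f o (f x1 x0)) := fun x0 x1 =>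
    (Eq.trans (congrArg (fun h => (f o (f h x0))) (l35 x1 x0).symm) (l78 x1 x0))
  have l80 : ∀ x0 x1 : A, (f o (f (f o x0) x1)) = (f o (f x0 x1)) := fun x0 x1 =>
    (Eq.trans (l76 (f o x0) x1).symm (Eq.trans (congrArg (fun h => (f o h)) (l35 (f o x1) x0).symm) (Eq.trans
      (congrArg (fun h => (f o (f h (f o x1)))) (l77 x0 x1).symm) (Eq.trans (congrArg (fun h => (f o (f h (f o
      x1)))) (l67 o x0 x1)) (Eq.trans (l79 (f o x1) x0) (l76 x0 x1))))))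
  have l81 : ∀ x0 x1 : A, (f o (f (f x0 x1) x0)) = (f o (f x1 x0)) := fun x0 x1 =>
    (Eq.trans (l71 x0 x1) (l80 x1 x0))
  have l82 : ∀ x0 x1 : A, (f o (f (f x0 x1) (f x1 o))) = (f o (f (f x0 x1) o)) := fun x0 x1 =>
    (Eq.trans (congrArg (fun h => (f o h)) (l37 x1 x0).symm) (Eq.trans (l60 (f (f x1 x0) x1)).symm (Eq.trans
      (congrArg (fun h => (f h (f o o))) (l81 x1 x0)) (l60 (f x0 x1)))))
  have l83 : ∀ x0 x1 : A, (f (f o (f x0 o)) (f x1 x0)) = (f (f o o) (f x1 x0)) := fun x0 x1 =>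
    (Eq.trans (congrArg (fun h => (f h (f x1 x0))) (l66 (f x0 o)).symm) (Eq.trans (l67 o (f x1 x0) (f x0
      o)).symm (Eq.trans (congrArg (fun h => (f h (f x1 x0))) (l82 x1 x0)) (Eq.trans (l43 o (f x1 x0))
      (congrArg (fun h => (f h (f x1 x0))) (l66 o))))))
  have l84 : ∀ x0 x1 : A, (f (f (f o x0) x1) x0) = (f (f o o) (f x1 x0)) := fun x0 x1 =>
    (Eq.trans (l53 x0 x1).symm (Eq.trans (l55 x0 (f x1 x0)) (l83 x0 x1)))
  have l85 : ∀ x0 x1 : A, (f (f (f o o) x0) x1) = (f (f o o) (f x0 x1)) := fun x0 x1 =>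
    (Eq.trans (l45 x0 x1) (l84 x1 x0))
  have l86 : ∀ x0 x1 x2 : A, (f (f (f (f x0 x1) x0) x1) x2) = (f (f x0 x1) x2) := fun x0 x1 x2 =>
    (Eq.trans (l6 (f (f x0 x1) x0) x1 x2).symm (Eq.trans (congrArg (fun h => (f h (f (f o o) x2))) (l44 x0
      x1)) (Eq.trans (l6 (f (f o o) x0) x1 x2) (l7 x0 x1 x2))))
  have l87 : ∀ x0 x1 x2 : A, (f (f (f (f o x0) x1) x0) x2) = (f (f x1 x0) x2) := fun x0 x1 x2 =>
    (Eq.trans (congrArg (fun h => (f (f h x0) x2)) (l35 x1 x0).symm) (l86 x1 x0 x2))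
  have l88 : ∀ x0 x1 x2 : A, (f (f o o) (f (f x0 x1) x2)) = (f (f x0 x1) x2) := fun x0 x1 x2 =>
    (Eq.trans (l85 (f x0 x1) x2).symm (Eq.trans (congrArg (fun h => (f h x2)) (l84 x1 x0).symm) (l87 x1 x0
      x2)))
  exact (Eq.trans (l41 (f (f a b) c)) (l88 a b c))

end Pool.Agent.H16.IZ
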