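import Mathlib
import Pool.Agent.H16.IZDefs
import Pool.Agent.H16.IZKey

set_option autoImplicit false

namespace Pool.Agent.H16.IZ
open Tm

theorem zm {B : Alg} : B ∈ ZM.1 ↔ ∀ x y, B.f x y = B.o :=
  ⟨fun h x y => h _ rfl fun n => if n = 0 then x else y, by rintro h _ rfl ρ; exact h _ _⟩

def r (B : Alg) (x : B.A) : B.A := B.f (B.f x B.o) B.o

theorem r0 {B : Alg} (h : B ∈ IZ) : r B B.o = B.o := h _ (Or.inr rfl) fun _ => B.o

theorem k3 {B : Alg} (h : B ∈ IZ) (a b c : B.A) : r B (B.f (B.f a b) c) = B.f (B.f a b) c :=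
  key B.f B.o (fun x y z => h _ (Or.inl rfl) fun n => if n = 0 then x else if n = 1 then y else z)
    (r0 h) a b c

theorem nv {t : Tm} (h : ∀ n, t ≠ var n) {B : Alg} (hB : B ∈ ZM.1) (ρ : ℕ → B.A) : t.eval B ρ = B.o := by
  cases t with
  | var n => exact absurd rfl (h n)
  | zero => rfl
  | imp a b => exact zm.1 hB _ _

theorem f0 {B : Alg} (h : B ∈ IZ) (n : ℕ) (t : Tm) (ht : t ≠ var n) (e : Sat B (var n, t)) (b : B.A) :
    r B b = b := by
  cases t with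
  | var m =>
    have := e fun k => if k = n then b else B.o
    have hm : m ≠ n := fun c => ht (c ▸ rfl)
    simp only [eval, if_true, if_neg hm] at this
    rw [this, r0 h]
  | zero => rw [show b = B.o from e fun _ => b, r0 h]
  | imp u v =>
    have a : ∀ b : B.A, ∃ c d, b = B.f c d := fun b => ⟨_, _, e fun _ => b⟩
    obtain ⟨c, d, rfl⟩ := a b
    obtain ⟨c, d', rfl⟩ := a c
    exact k3 h _ _ _

theorem f1 {X : Var} (h : ¬ ZM ≤ X) {B : Alg} (hB : B ∈ X.1) (b : B.A) : r B b = b := by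
  obtain ⟨S, hS⟩ := X.2.1
  by_contra c
  refine h fun C hC => ?_
  show C ∈ X.1
  rw [hS]
  rintro ⟨p, q⟩ he ρ
  have e : Sat B (p, q) := (hS ▸ hB : B ∈ Mod S) _ he
  by_cases e0 : p = q
  · rw [e0]
  · exact (nv (by rintro n rfl; exact c (f0 (X.2.2 hB) n q (Ne.symm e0) e b)) hC ρ).trans
      (nv (by rintro n rfl; exact c (f0 (X.2.2 hB) n p e0 (fun ρ => (e ρ).symm) b)) hC ρ).symm

theorem f2 {X Y : Var} (hX : ¬ ZM ≤ X) (hY : ¬ ZM ≤ Y) {B : Alg} (hB : B ∈ (X ⊔ Y).1) (b : B.A) :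
    r B b = b :=
  hB ((var 0).n.n, var 0) (by rintro C (h | h) ρ; exacts [f1 hX h _, f1 hY h _]) fun _ => b

theorem zero_dist {X Y : Var} (hX : ¬ ZM ≤ X) (hY : ¬ ZM ≤ Y) : ¬ ZM ≤ X ⊔ Y := fun h =>
  absurd (f2 hX hY (B := ⟨Bool, fun _ _ => false, false⟩) (h (zm.2 fun _ _ => rfl)) true) (by simp [r])

def sg : Tm → Tm
  | var n => (var n).n.n
  | zero => zero
  | imp a b => imp (sg a) (sg b)

theorem sge (B : Alg) (ρ : ℕ → B.A) (t : Tm) : (sg t).eval B ρ = t.eval B fun n => r B (ρ n) := by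
  induction t <;> simp_all [sg, eval, Tm.n, r]

theorem l1 {X : Var} {B : Alg} (hB : B ∈ (ZM ⊔ X).1) {e : Tm × Tm} (he : ∀ C ∈ X.1, Sat C e)
    (ρ : ℕ → B.A) (h : ∀ n, r B (ρ n) = ρ n) : e.1.eval B ρ = e.2.eval B ρ := by
  have s : ∀ t n, sg t ≠ var n := fun t n => by cases t <;> simp [sg, Tm.n]
  have := hB (sg e.1, sg e.2) (by
    rintro C (h | h) ρ
    · exact (nv (s _) h ρ).trans (nv (s _) h ρ).symm
    · simp only [sge]; exact he C h _) ρ
  simpa only [sge, h] using this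

theorem dist (X Y : Var) (hY : ¬ ZM ≤ Y) : (ZM ⊔ X) ⊓ (ZM ⊔ Y) ≤ ZM ⊔ X ⊓ Y := by
  rintro B ⟨h1, h2⟩ ⟨p, q⟩ he ρ
  have hI := (ZM ⊔ X).2.2 h1
  have a : ∀ b c, r B (B.f b c) = B.f b c := fun b c =>
    h2 (((var 0).imp (var 1)).n.n, (var 0).imp (var 1)) (by
      rintro C (h | h) ρ
      · exact (zm.1 h _ _).trans (zm.1 h _ _).symm
      · exact f1 hY h _) fun n => if n = 0 then b else c
  have a' : ∀ b c, B.f (r B b) (r B c) = B.f b c := fun b c =>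
    h2 ((var 0).n.n.imp (var 1).n.n, (var 0).imp (var 1)) (by
      rintro C (h | h) ρ
      · exact (zm.1 h _ _).trans (zm.1 h _ _).symm
      · exact congrArg₂ C.f (f1 hY h _) (f1 hY h _)) fun n => if n = 0 then b else c
  let Q : Alg := ⟨{b // r B b = b}, fun b c => ⟨B.f b c, a _ _⟩, ⟨B.o, r0 hI⟩⟩
  have v : ∀ (σ : ℕ → Q.A) (t : Tm), (t.eval Q σ).1 = t.eval B fun n => (σ n).1 := fun σ t => by
    induction t <;> simp_all [eval, Q]
  have m : ∀ Z : Var, B ∈ (ZM ⊔ Z).1 → Q ∈ Z.1 := fun Z hZ => by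
    obtain ⟨S, hS⟩ := Z.2.1
    rw [hS]
    exact fun e he σ => Subtype.ext (by
      rw [v, v]; exact l1 hZ (fun C hC => (hS ▸ hC : C ∈ Mod S) e he) _ fun n => (σ n).2)
  have w : ∀ t : Tm, t.eval B (fun n => r B (ρ n)) = r B (t.eval B ρ) := fun t => by
    induction t <;> simp_all [eval, r0]
  have w' : ∀ t : Tm, (∀ n, t ≠ var n) → r B (t.eval B ρ) = t.eval B ρ := fun t h => by
    cases t with
    | var n => exact absurd rfl (h n)
    | zero => exact r0 hI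
    | imp u v => exact a _ _
  have z : ∀ n t, t ≠ var n → ¬ ∀ C ∈ ZM.1, Sat C (var n, t) := fun n t h c =>
    absurd (f0 (ZM.2.2 (zm.2 fun _ _ => rfl)) n t h
      (c ⟨Bool, fun _ _ => false, false⟩ (zm.2 fun _ _ => rfl)) true) (by simp [r])
  by_cases e0 : p = q
  · rw [e0]
  have := congrArg Subtype.val (he Q (Or.inr ⟨m X h1, m Y h2⟩) fun n => ⟨r B (ρ n), a _ _⟩)
  rwa [v, v, w, w, w' p (by rintro n rfl; exact z n q (Ne.symm e0) fun C h => he C (Or.inl h)),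
    w' q (by rintro n rfl; exact z n p e0 fun C h ρ => (he C (Or.inl h) ρ).symm)] at this

theorem hD (X Y : Var) : ZM ⊔ X ⊓ Y = (ZM ⊔ X) ⊓ (ZM ⊔ Y) := by
  refine le_antisymm sup_inf_le ?_
  by_cases hY : ZM ≤ Y
  · by_cases hX : ZM ≤ X
    · rw [sup_eq_right.2 hX, sup_eq_right.2 hY]; exact le_sup_right
    · rw [inf_comm, inf_comm X]; exact dist Y X hX
  · exact dist X Y hY

theorem hC (X Y : Var) : ZM ⊓ (X ⊔ Y) = ZM ⊓ X ⊔ ZM ⊓ Y := by
  refine le_antisymm ?_ le_inf_sup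
  by_cases hX : ZM ≤ X
  · exact inf_le_left.trans ((le_inf le_rfl hX).trans le_sup_left)
  by_cases hY : ZM ≤ Y
  · exact inf_le_left.trans ((le_inf le_rfl hY).trans le_sup_right)
  rintro B ⟨h1, h2⟩ e _ ρ
  have : ∀ b, b = B.o := fun b => (f2 hX hY h2 b).symm.trans (zm.1 h1 _ _)
  exact (this _).trans (this _).symm

theorem hK (X Y : Var) (h1 : ZM ⊓ X = ZM ⊓ Y) (h2 : ZM ⊔ X = ZM ⊔ Y) : X ≤ Y := by
  by_cases hX : ZM ≤ X
  · rw [← sup_eq_right.2 hX, h2]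
    exact sup_le ((le_inf le_rfl hX).trans (h1.le.trans inf_le_right)) le_rfl
  · intro B hB
    obtain ⟨S, hS⟩ := Y.2.1
    show B ∈ Y.1
    rw [hS]
    exact fun e he ρ => l1 (h2.le (le_sup_right (a := ZM) hB)) (fun C hC => (hS ▸ hC : C ∈ Mod S) e he) ρ
      fun _ => f1 hX hB _

theorem five {L : Type*} [Lattice L] (g : L → L) (g1 : ∀ x y, g (x ⊓ y) = g x ⊓ g y)
    (g2 : ∀ x y, g (x ⊔ y) = g x ⊔ g y) (a y z : L) (h : ∀ x, g a ≤ g x) :
    ∀ u ∈ latticeClosure {a, y, z}, ∀ v ∈ latticeClosure {a, y, z}, ∀ w ∈ latticeClosure {a, y, z},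
      g (u ⊓ (v ⊔ w)) = g (u ⊓ v ⊔ u ⊓ w) := by
  let S : Set L := {g a, g y ⊓ g z, g y, g z, g y ⊔ g z}
  have hy := h y
  have hz := h z
  have c : latticeClosure {a, y, z} ⊆ g ⁻¹' S := by
    refine latticeClosure_min (by rintro _ (rfl | rfl | rfl) <;> simp [S]) ⟨?_, ?_⟩ <;>
      intro u hu v hv <;> simp only [Set.mem_preimage, g1, g2, S, Set.mem_insert_iff,
        Set.mem_singleton_iff] at * <;> rcases hu with hu | hu | hu | hu | hu <;>
      rcases hv with hv | hv | hv | hv | hv <;> rw [hu, hv] <;>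
      simp [hy, hz, sup_comm (g z), inf_comm (g z), le_sup_of_le_left]
  intro u hu v hv w hw
  rw [g1, g2, g2, g1, g1]
  rcases c hu with hu | hu | hu | hu | hu <;> rcases c hv with hv | hv | hv | hv | hv <;>
    rcases c hw with hw | hw | hw | hw | hw <;> rw [hu, hv, hw] <;>
    simp [hy, hz, sup_comm (g z), inf_comm (g z), le_sup_of_le_left, le_sup_of_le_right,
      inf_le_of_left_le, inf_le_of_right_le]

theorem neutral (Y Z : Var) : ∀ u ∈ latticeClosure {ZM, Y, Z}, ∀ v ∈ latticeClosure {ZM, Y, Z},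
    ∀ w ∈ latticeClosure {ZM, Y, Z}, u ⊓ (v ⊔ w) = u ⊓ v ⊔ u ⊓ w := by
  intro u hu v hv w hw
  refine le_antisymm (hK _ _ (le_antisymm ?_ (inf_le_inf_left _ le_inf_sup)) (five (ZM ⊔ ·) hD
    (fun x y => sup_sup_distrib_left _ _ _) ZM Y Z (fun x => by simp) u hu v hv w hw)) le_inf_sup
  by_cases h : ZM ≤ u
  · rw [hC, ← inf_assoc, ← inf_assoc, ← inf_assoc, inf_eq_left.2 h, hC]
  · rintro B ⟨h1, h2, -⟩
    refine ⟨h1, fun e _ ρ => ?_⟩
    have : ∀ b, b = B.o := fun b => (f1 h h2 b).symm.trans (zm.1 h1 _ _)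
    exact (this _).trans (this _).symm

end Pool.Agent.H16.IZ
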