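import Mathlib

set_option autoImplicit false

namespace Pool.Agent.H16.IZ

/-- Lattice terms in countably many variables. -/
inductive LT
  | var (n : ℕ)
  | inf (a b : LT)
  | sup (a b : LT)

def LT.eval {L : Type*} [Lattice L] (v : ℕ → L) : LT → L
  | var n => v n
  | inf a b => a.eval v ⊓ b.eval v
  | sup a b => a.eval v ⊔ b.eval v

end Pool.Agent.H16.IZ
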