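import Mathlib
import Pool.Agent.H16.IZDefs
import Pool.Agent.H16.IZLatDefs

set_option autoImplicit false

namespace Pool.Agent.H16.IZ
open Tm

universe u
variable {M : Type u} [Lattice M] [OrderTop M]

structure Sp (M : Type u) [Lattice M] [OrderTop M] where
  X : Type
  fin : Finite X
  d : X → X → M
  rf : ∀ x, d x x = ⊤
  sy : ∀ x y, d x y = d y x
  tr : ∀ x y z, d x y ⊓ d y z ≤ d x z

def R (S : Sp M) (v : ℕ → M) : LT → S.X → S.X → Prop
  | .var n => fun s t => v n ≤ S.d s t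
  | .sup p q => fun s t => R S v p s t ∧ R S v q s t
  | .inf p q => fun s t => ∃ a b c, R S v p s a ∧ R S v q a b ∧ R S v p b c ∧ R S v q c t

def Iso {S T : Sp M} (i : S.X → T.X) : Prop := ∀ x y, T.d (i x) (i y) = S.d x y

theorem Iso.mono {S T : Sp M} {i : S.X → T.X} (h : Iso i) {v : ℕ → M} {p : LT} {s t : S.X}
    (r : R S v p s t) : R T v p (i s) (i t) := by
  induction p generalizing s t with
  | var n => exact le_of_le_of_eq r (h s t).symm
  | sup p q hp hq => exact ⟨hp r.1, hq r.2⟩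
  | inf p q hp hq =>
    obtain ⟨a, b, c, h1, h2, h3, h4⟩ := r
    exact ⟨_, _, _, hp h1, hq h2, hp h3, hq h4⟩

def Sp.add (S : Sp M) (g : S.X → M) (h1 : ∀ x y, g x ⊓ g y ≤ S.d x y)
    (h2 : ∀ x y, S.d x y ⊓ g y ≤ g x) : Sp M where
  X := Option S.X
  fin := have := S.fin; inferInstance
  d := fun x y => match x, y with
    | none, none => ⊤
    | none, some y => g y
    | some x, none => g x
    | some x, some y => S.d x y
  rf := by rintro (_ | x) <;> simp [S.rf]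
  sy := by rintro (_ | x) (_ | y) <;> simp [S.sy]
  tr := by
    rintro (_ | x) (_ | y) (_ | z) <;> simp only [le_top, inf_le_left, inf_le_right, h1, h2, S.tr]
    rw [inf_comm, S.sy]; exact h2 _ _

def Sp.near (S : Sp M) (s : S.X) (a : M) : Sp M :=
  S.add (fun w => S.d w s ⊓ a)
    (fun x y => (inf_le_inf inf_le_left (inf_le_left.trans (S.sy y s).le)).trans (S.tr _ _ _))
    fun x y => by rw [← inf_assoc]; exact inf_le_inf_right _ (S.tr _ _ _)

theorem three (S : Sp M) (s t : S.X) (a b : M) (h : a ⊓ b ≤ S.d s t) : ∃ (T : Sp M) (i : S.X → T.X)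
    (x y z : T.X), Iso i ∧ a ≤ T.d (i s) x ∧ b ≤ T.d x y ∧ a ≤ T.d y z ∧ b ≤ T.d z (i t) := by
  have T : ∀ c x y z, c ≤ S.d x y → c ≤ S.d y z → c ≤ S.d x z := fun c x y z h1 h2 =>
    (le_inf h1 h2).trans (S.tr _ _ _)
  have Y : ∀ c x y, c ≤ S.d x y → c ≤ S.d y x := fun c x y h => h.trans (S.sy _ _).le
  have H : ∀ c, c ≤ a → c ≤ b → c ≤ S.d s t := fun c h1 h2 => (le_inf h1 h2).trans h
  refine ⟨((S.near s a).near (some t) b).add (fun w => match w with
    | none => a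
    | some none => b
    | some (some w) => S.d w s ⊓ a ⊓ b) ?_ ?_, fun w => some (some (some w)), some (some none), none,
    some none, fun _ _ => rfl, ?_, le_rfl, le_rfl, ?_⟩
  · rintro (_ | _ | x) (_ | _ | y) <;> refine le_of_forall_le fun c hc => ?_ <;>
      simp only [Sp.near, Sp.add, le_top, le_inf_iff] at hc ⊢ <;> grind
  · rintro (_ | _ | x) (_ | _ | y) <;> refine le_of_forall_le fun c hc => ?_ <;>
      simp only [Sp.near, Sp.add, le_top, le_inf_iff] at hc ⊢ <;> grind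
  · simp [Sp.near, Sp.add, S.rf]
  · simp [Sp.near, Sp.add, S.rf]

theorem ext (v : ℕ → M) (p : LT) : ∀ (S : Sp M) (s t : S.X), p.eval v ≤ S.d s t →
    ∃ (T : Sp M) (i : S.X → T.X), Iso i ∧ R T v p (i s) (i t) := by
  induction p with
  | var n => exact fun S s t h => ⟨S, id, fun _ _ => rfl, h⟩
  | sup p q hp hq =>
    intro S s t h
    obtain ⟨T, i, hi, h1⟩ := hp S s t (le_sup_left.trans h)
    obtain ⟨U, j, hj, h2⟩ := hq T (i s) (i t) ((le_sup_right.trans h).trans (hi _ _).ge)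
    exact ⟨U, j ∘ i, fun _ _ => (hj _ _).trans (hi _ _), hj.mono h1, h2⟩
  | inf p q hp hq =>
    intro S s t h
    obtain ⟨T, i, x, y, z, hi, a, b, c, d⟩ := three S s t _ _ h
    obtain ⟨T1, i1, e1, r1⟩ := hp T _ _ a
    obtain ⟨T2, i2, e2, r2⟩ := hq T1 _ _ (b.trans (e1 _ _).ge)
    obtain ⟨T3, i3, e3, r3⟩ := hp T2 _ _ ((c.trans (e1 _ _).ge).trans (e2 _ _).ge)
    obtain ⟨T4, i4, e4, r4⟩ := hq T3 _ _ (((d.trans (e1 _ _).ge).trans (e2 _ _).ge).trans (e3 _ _).ge)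
    exact ⟨T4, i4 ∘ i3 ∘ i2 ∘ i1 ∘ i, fun _ _ => (e4 _ _).trans ((e3 _ _).trans ((e2 _ _).trans
      ((e1 _ _).trans (hi _ _)))), _, _, _, e4.mono (e3.mono (e2.mono r1)), e4.mono (e3.mono r2),
      e4.mono r3, r4⟩

inductive E
  | z
  | X (j : ℕ)
  | Y (i j : ℕ)

def fE (n : ℕ) : E → E → E
  | .X 0, .X j => .X (j + 1)
  | .X 0, .Y i j => if i + j < n + 2 then .Y (i + 1) j else .z
  | .Y 0 0, .X j => .Y 0 (j + 1)
  | _, _ => .z

def B0 (n : ℕ) : Alg := ⟨E, fE n, .z⟩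

theorem fz (n : ℕ) (a : E) : fE n a .z = .z := by unfold fE; split <;> simp_all

theorem ff (n : ℕ) (a b c : E) : fE n (fE n a b) c = .z := by
  rcases a with _ | ⟨_ | _⟩ | ⟨_ | _, _ | _⟩ <;> cases b <;>
    first | rfl | (show fE n (ite _ _ _) c = _; split_ifs <;> rfl)

def pw : ℕ → Tm → Tm
  | 0, t => t
  | k + 1, t => (var 0).imp (pw k t)

def wd (n s : ℕ) : Tm := pw (s + 2) ((var 1).imp (pw (n - s - 1) (var 0)))

theorem pe {n : ℕ} {ρ : ℕ → E} (h : ρ 0 = .X 0) (t : Tm) (k : ℕ) :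
    (t.eval (B0 n) ρ = .z → (pw k t).eval (B0 n) ρ = .z) ∧
    (∀ j, t.eval (B0 n) ρ = .X j → (pw k t).eval (B0 n) ρ = .X (j + k)) ∧
    ∀ j, t.eval (B0 n) ρ = .Y 0 j → j + k ≤ n + 2 → (pw k t).eval (B0 n) ρ = .Y k j := by
  induction k with
  | zero => exact ⟨id, fun _ h => h, fun _ h _ => h⟩
  | succ k ih =>
    refine ⟨fun e => ?_, fun j e => ?_, fun j e l => ?_⟩ <;> simp only [pw, eval, h]
    · rw [ih.1 e]; rfl
    · rw [ih.2.1 j e]; rfl
    · rw [ih.2.2 j e (by omega)]; exact if_pos (by omega)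

theorem we (n : ℕ) (ρ : ℕ → E) : (∃ c, ∀ s < n, (wd n s).eval (B0 n) ρ = c) ∨
    ∀ s < n, (wd n s).eval (B0 n) ρ = .Y (s + 2) (n - s) := by
  by_cases h : ρ 0 = .X 0
  · have a := fun s => (pe (n := n) h (var 0) (n - s - 1)).2.1 0 h
    by_cases h1 : ρ 1 = .X 0
    · refine Or.inl ⟨.X (n + 2), fun s l => ?_⟩
      rw [wd, (pe h _ _).2.1 (n - s) (by simp only [eval, h1, a]; exact congrArg E.X (by omega))]
      exact congrArg E.X (by omega)
    by_cases h2 : ρ 1 = .Y 0 0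
    · exact Or.inr fun s l => (pe h _ _).2.2 _
        (by simp only [eval, h2, a]; exact congrArg (E.Y 0) (by omega)) (by omega)
    · refine Or.inl ⟨.z, fun s l => (pe h _ _).1 ?_⟩
      simp only [eval, a]
      generalize ρ 1 = b at *
      rcases b with _ | ⟨_ | _⟩ | ⟨_ | _, _ | _⟩ <;> first | rfl | contradiction
  · refine Or.inl ⟨.z, fun s l => ?_⟩
    simp only [wd, pw, eval]
    generalize eval (B0 n) ρ (pw s _) = b
    generalize ρ 0 = a at *
    rcases a with _ | ⟨_ | _⟩ | ⟨_ | _, _ | _⟩ <;> cases b <;> first | rfl | contradiction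

theorem we1 (n s : ℕ) (l : s < n) :
    (wd n s).eval (B0 n) (fun k => if k = 0 then .X 0 else .Y 0 0) = .Y (s + 2) (n - s) :=
  (pe (n := n) (ρ := fun k => if k = 0 then .X 0 else .Y 0 0) rfl _ _).2.2 (n - s)
    ((congrArg (fE n (.Y 0 0)) ((pe (n := n) (ρ := fun k => if k = 0 then .X 0 else .Y 0 0) rfl (var 0)
      (n - s - 1)).2.1 0 rfl)).trans (congrArg (E.Y 0) (by omega))) (by omega)

section
variable (S : Sp M) {n : ℕ} (e : S.X ≃ Fin n)

def W (s : S.X) : E := .Y (e s + 2) (n - e s)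

theorem wi {s t : S.X} (h : W S e s = W S e t) : s = t :=
  e.injective (Fin.ext (by have := (E.Y.inj h).1; omega))

def th (c : M) : Setoid E where
  r a b := a = b ∨ ∃ s t, c ≤ S.d s t ∧ a = W S e s ∧ b = W S e t
  iseqv := ⟨fun _ => Or.inl rfl, by
    rintro a b (rfl | ⟨s, t, h, rfl, rfl⟩)
    exacts [Or.inl rfl, Or.inr ⟨t, s, h.trans (S.sy _ _).le, rfl, rfl⟩], by
    rintro a b d (rfl | ⟨s, t, h, rfl, rfl⟩) h'
    · exact h'
    rcases h' with rfl | ⟨s', t', h', e', rfl⟩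
    · exact Or.inr ⟨s, t, h, rfl, rfl⟩
    · cases wi S e e'
      exact Or.inr ⟨s, t', (le_inf h h').trans (S.tr _ _ _), rfl, rfl⟩⟩

theorem thd {c : M} {s t : S.X} (h : th S e c (W S e s) (W S e t)) : c ≤ S.d s t := by
  rcases h with h | ⟨s', t', h, a, b⟩
  · rw [wi S e h, S.rf]; exact le_top
  · rwa [wi S e a, wi S e b]

theorem fw (a : E) (s : S.X) : fE n a (W S e s) = .z := by
  have := (e s).2
  rcases a with _ | ⟨_ | _⟩ | ⟨_ | _, _ | _⟩ <;> first | rfl | exact if_neg (by omega)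

def Q (c : M) : Alg := ⟨Quotient (th S e c), Quotient.map₂ (fE n) (by
  rintro a a' (rfl | ⟨s, t, h, rfl, rfl⟩) b b' (rfl | ⟨s', t', h', rfl, rfl⟩) <;> refine Or.inl ?_ <;>
    first | rfl | rw [fw, fw]), ⟦.z⟧⟩

theorem qs (c : M) (x : Tm × Tm) : Sat (Q S e c) x ↔
    ∀ ρ, th S e c (x.1.eval (B0 n) ρ) (x.2.eval (B0 n) ρ) := by
  have a : ∀ (ρ : ℕ → E) (t : Tm), t.eval (Q S e c) (fun k => ⟦ρ k⟧) = ⟦t.eval (B0 n) ρ⟧ := fun ρ t => by
    induction t with
    | var => rfl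
    | zero => rfl
    | imp a b ha hb => simp only [eval, ha, hb]; rfl
  refine ⟨fun h ρ => Quotient.exact ((a ρ _).symm.trans ((h _).trans (a ρ _))), fun h ρ => ?_⟩
  rw [show ρ = fun k => ⟦(ρ k).out⟧ from funext fun k => (Quotient.out_eq _).symm]
  exact (a _ _).trans ((Quotient.sound (h _)).trans (a _ _).symm)

def V (c : M) : Var := ⟨Mod (Idn {Q S e c}), ⟨_, rfl⟩, mod_idn_le (by
  rintro _ rfl _ (rfl | rfl) <;> refine (qs S e c _).2 fun ρ => Or.inl ?_
  · exact (ff _ _ _ _).trans (fz _ _).symm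
  · rfl)⟩

theorem up {c c' : M} (h : c ≤ c') (X : Var) (hX : Q S e c' ∈ X.1) : Q S e c ∈ X.1 := by
  obtain ⟨T, hT⟩ := X.2.1
  rw [hT] at hX ⊢
  exact fun x hx => (qs S e c x).2 fun ρ => ((qs S e c' x).1 (hX x hx) ρ).imp_right
    fun ⟨s, t, a, b⟩ => ⟨s, t, h.trans a, b⟩

theorem two (v : ℕ → M) (q : LT) : Q S e (q.eval v) ∈ (q.eval fun k => V S e (v k)).1 := by
  induction q with
  | var k => exact fun x hx => hx _ rfl
  | inf p q hp hq => exact ⟨up S e inf_le_left _ hp, up S e inf_le_right _ hq⟩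
  | sup p q hp hq =>
    refine fun x hx => (qs S e _ x).2 fun ρ => ?_
    have b := (qs S e _ x).1 (hx _ (Or.inr hq)) ρ
    rcases (qs S e _ x).1 (hx _ (Or.inl hp)) ρ with a | ⟨s, t, h, a, a'⟩
    · exact Or.inl a
    · rw [a, a'] at b
      exact Or.inr ⟨s, t, sup_le h (thd S e b), a, a'⟩

theorem one (v : ℕ → M) (p : LT) {s t : S.X} (h : R S v p s t) :
    ∀ B ∈ (p.eval fun k => V S e (v k)).1, Sat B (wd n (e s), wd n (e t)) := by
  induction p generalizing s t with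
  | var k =>
    refine fun B hB => hB _ ?_
    rintro _ rfl
    refine (qs S e _ _).2 fun ρ => ?_
    rcases we n ρ with ⟨c, a⟩ | a <;> rw [a _ (e s).2, a _ (e t).2]
    exact Or.inr ⟨s, t, h, rfl, rfl⟩
  | inf p q hp hq =>
    obtain ⟨a, b, c, h1, h2, h3, h4⟩ := h
    exact fun B hB ρ => (hp h1 B hB.1 ρ).trans ((hq h2 B hB.2 ρ).trans ((hp h3 B hB.1 ρ).trans
      (hq h4 B hB.2 ρ)))
  | sup p q hp hq =>
    refine fun B hB => hB _ ?_
    rintro C (hC | hC)
    exacts [hp h.1 C hC, hq h.2 C hC]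

end

theorem le_top' (p q : LT) (h : ∀ v : ℕ → Var, p.eval v = q.eval v) (v : ℕ → M) :
    q.eval v ≤ p.eval v := by
  obtain ⟨T, i, hi, r⟩ := ext v p (Sp.near ⟨PUnit, inferInstance, fun _ _ => ⊤, fun _ => rfl, fun _ _ => rfl,
    fun _ _ _ => le_top⟩ () (p.eval v)) (some ()) none (by simp [Sp.near, Sp.add])
  have := T.fin
  obtain ⟨n, ⟨e⟩⟩ := Finite.exists_equiv_fin T.X
  have a := (qs T e _ _).1 (one T e v p r _ (h _ ▸ two T e v q)) fun k => if k = 0 then .X 0 else .Y 0 0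
  rw [we1 _ _ (e _).2, we1 _ _ (e _).2] at a
  simpa [Sp.near, Sp.add] using (thd T e a).trans (hi _ _).le

theorem nolaw (p q : LT) (h : ∀ v : ℕ → Var, p.eval v = q.eval v) (L : Type u) [Lattice L] (v : ℕ → L) :
    p.eval v = q.eval v := by
  have a : ∀ t : LT, t.eval (fun k => (v k : WithTop L)) = (t.eval v : L) := fun t => by
    induction t <;> simp_all [LT.eval]
  have := (le_top' q p (fun v => (h v).symm) fun k => (v k : WithTop L)).antisymm (le_top' p q h _)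
  rwa [a, a, WithTop.coe_inj] at this

end Pool.Agent.H16.IZ
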