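import Mathlib
import Pool.Agent.H16.IZDefs

set_option autoImplicit false

namespace Pool.Agent.H16.IZ

/-- The variety generated by one implication zroupoid. -/
def gen (B : Alg) (h : B ∈ IZ) : Var := ⟨Mod (Idn {B}), ⟨_, rfl⟩, mod_idn_le (Set.singleton_subset_iff.2 h)⟩

/-- Generated by the two-element semilattice, with the constant interpreted as `1`. -/
def SL : Var := gen ⟨Bool, and, true⟩ (by rintro _ (rfl | rfl) ρ <;> simp [Tm.eval, Tm.n]; grind)

/-- Generated by the two-element Boolean algebra with `x → y = ¬x ∨ y` and constant `0`. -/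
def BA : Var := gen ⟨Bool, fun x y => !x || y, false⟩
  (by rintro _ (rfl | rfl) ρ <;> simp [Tm.eval, Tm.n]; grind)

/-- Any sublattice generated by `a` and two more elements is distributive. -/
def Neutral {L : Type*} [Lattice L] (a : L) : Prop := ∀ y z : L,
  ∀ u ∈ latticeClosure {a, y, z}, ∀ v ∈ latticeClosure {a, y, z}, ∀ w ∈ latticeClosure {a, y, z},
    u ⊓ (v ⊔ w) = u ⊓ v ⊔ u ⊓ w

end Pool.Agent.H16.IZ
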