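import Mathlib
import Pool.Agent.H16.IZ
import Pool.Agent.H16.IZNDefs

set_option autoImplicit false

namespace Pool.Agent.H16.IZ
open Tm

theorem nil (B : Alg) (h : ∀ x y z, B.f (B.f x y) z = B.o) : B ∈ IZ := by
  rintro _ (rfl | rfl) ρ <;> simp [eval, Tm.n, h]

theorem hsp {A B C : Alg} {hA : A ∈ IZ} {hB : B ∈ IZ} (D : A.A → B.A → Prop) (π : A.A → B.A → C.A)
    (l : C.A → A.A × B.A) (h0 : D A.o B.o ∧ π A.o B.o = C.o)
    (hl : ∀ c, D (l c).1 (l c).2 ∧ π (l c).1 (l c).2 = c)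
    (hf : ∀ a b a' b', D a b → D a' b' →
      D (A.f a a') (B.f b b') ∧ π (A.f a a') (B.f b b') = C.f (π a b) (π a' b')) :
    C ∈ (gen A hA ⊔ gen B hB).1 := by
  intro e he ρ
  have a : ∀ t : Tm, D (t.eval A fun n => (l (ρ n)).1) (t.eval B fun n => (l (ρ n)).2) ∧
      π (t.eval A fun n => (l (ρ n)).1) (t.eval B fun n => (l (ρ n)).2) = t.eval C ρ := fun t => by
    induction t with
    | var n => exact hl _
    | zero => exact h0
    | imp p q hp hq => exact ⟨(hf _ _ _ _ hp.1 hq.1).1, by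
        simp only [eval]; rw [← hp.2, ← hq.2]; exact (hf _ _ _ _ hp.1 hq.1).2⟩
  rw [← (a _).2, ← (a _).2, he A (Or.inl fun x hx => hx _ rfl), he B (Or.inr fun x hx => hx _ rfl)]

theorem g2 {A : Alg} {hA : A ∈ IZ} {B : Alg} (h : B ∈ (gen A hA).1) (p q : Tm) (e : Sat A (p, q))
    (x y : B.A) : p.eval B (fun n => if n = 0 then x else y) = q.eval B fun n => if n = 0 then x else y :=
  h (p, q) (by rintro _ rfl; exact e) _

def AX : Alg := ⟨Fin 3, fun x _ => if x = 1 then 2 else 0, 0⟩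
def AY : Alg := ⟨Fin 3, fun x y => if x = 1 ∧ y ≠ 1 then 2 else 0, 0⟩
def AB : Alg := ⟨Fin 4, fun x y => if x = 1 ∧ 2 ≤ y then 3 else if 2 ≤ x ∨ 2 ≤ y then 2 else 0, 0⟩
def p1 (b : Bool) (a : Fin 3) : Fin 4 := if b then (if a = 1 then 1 else 0) else if a = 2 then 3 else 2
def l0 (c : Fin 4) : Bool × Fin 3 := ![(true, 0), (true, 1), (false, 0), (false, 2)] c

theorem nSL : ¬ Neutral SL := by
  intro h
  let X := gen AX (nil _ (by unfold AX; decide))
  let Y := gen AY (nil _ (by unfold AY; decide))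
  have m : ∀ a ∈ ({SL, X, Y} : Set Var), a ∈ latticeClosure {SL, X, Y} := fun a h => subset_latticeClosure h
  have s := isSublattice_latticeClosure.supClosed (m SL (by simp)) (m X (by simp))
  have e := h X Y _ s _ (m SL (by simp)) _ (m Y (by simp))
  have e' := h X Y _ (m Y (by simp)) _ (m SL (by simp)) _ (m X (by simp))
  rw [inf_comm _ Y, e'] at e
  have b : AB ∈ ((SL ⊔ X) ⊓ (SL ⊔ Y)).1 :=
    ⟨hsp (fun b (a : Fin 3) => b = true ∨ a ≠ 1) p1 l0 (by unfold AX AB; decide) (by unfold AB; decide)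
      (by unfold AX AB; decide), hsp (fun b (a : Fin 3) => b = true ∨ a ≠ 1) p1 l0 (by unfold AY AB; decide)
      (by unfold AB; decide) (by unfold AY AB; decide)⟩
  have c : (SL ⊔ X) ⊓ (SL ⊔ Y) ≤ SL ⊔ Y ⊓ X :=
    e.le.trans (sup_le (inf_le_right.trans le_sup_left) (sup_le_sup_right inf_le_right _))
  have := c b (((var 0).imp (var 1)).n.n, (var 0).imp (var 1)) (by
    rintro C (hC | ⟨h1, h2⟩) ρ
    · exact g2 hC (var 0).n.n (var 0) (fun ρ => by simp [eval, Tm.n]) _ C.o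
    · have z : C.f (ρ 0) (ρ 1) = C.o :=
        (g2 h2 ((var 0).imp (var 1)) ((var 0).imp (var 0)) (fun ρ => rfl) (ρ 0) (ρ 1)).trans
          (g2 h1 ((var 0).imp (var 0)) zero (fun ρ => by simp [eval, AY]) (ρ 0) (ρ 1))
      simp only [eval, Tm.n, z]
      exact r0 (X.2.2 h2)) fun n => if n = 0 then (1 : Fin 4) else (2 : Fin 4)
  revert this
  simp only [eval, Tm.n, AB]
  decide

def CX : Alg := ⟨Fin 3, fun x y => if x = 1 ∧ y = 1 then 2 else 0, 0⟩
def CB : Alg := ⟨Fin 4, fun x y => if x = 1 ∧ y = 2 then 3 else 0, 0⟩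
def p2 (b : Bool) (a : Fin 3) : Fin 4 := if a = 1 then (if b then 1 else 2) else if a = 2 ∧ !b then 3 else 0
def l2 (c : Fin 4) : Bool × Fin 3 := ![(true, 0), (true, 1), (false, 1), (false, 2)] c

theorem nBA : ¬ Neutral BA := by
  intro h
  let X := gen CX (nil _ (by unfold CX; decide))
  let Y := gen CB (nil _ (by unfold CB; decide))
  have m : ∀ a ∈ ({BA, X, Y} : Set Var), a ∈ latticeClosure {BA, X, Y} := fun a h => subset_latticeClosure h
  have e := h X Y _ (m Y (by simp)) _ (m BA (by simp)) _ (m X (by simp))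
  have b : CB ∈ (Y ⊓ (BA ⊔ X)).1 := ⟨fun x hx => hx _ rfl, hsp (fun _ _ => True) p2 l2
    (by unfold CX CB; decide) (by unfold CB; decide) (by unfold CX CB; decide)⟩
  have := e.le b ((var 0).imp (var 1), (var 1).imp (var 0)) (by
    rintro C (⟨h1, h2⟩ | ⟨h1, h2⟩) ρ
    · have z : ∀ x, x = C.o := fun x =>
        (g2 h2 (var 0) (var 0).n.n (fun ρ => by simp [eval, Tm.n]) x x).trans
          (g2 h1 (var 0).n.n zero (fun ρ => by simp [eval, Tm.n, CB]) x x)
      exact (z _).trans (z _).symm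
    · exact g2 h2 ((var 0).imp (var 1)) ((var 1).imp (var 0)) (fun ρ => by simp [eval, CX, and_comm])
        (ρ 0) (ρ 1)) fun n => if n = 0 then (1 : Fin 4) else (2 : Fin 4)
  revert this
  simp only [eval, CB]
  decide

end Pool.Agent.H16.IZ
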