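import Pool.Agent.H16.ImpDefs

set_option autoImplicit false

namespace Pool.Agent.H16.Imp
open Finset

variable {V : Type} [Fintype V] [DecidableEq V]

theorem bdd (H : SimpleGraph V) : BddBelow {s | ∃ y : Finset V → ℝ, (∀ I, 0 ≤ y I) ∧
    (∀ I, y I ≠ 0 → H.IsIndepSet (I : Set V)) ∧
    (∀ v, 1 ≤ ∑ I with v ∈ I, y I) ∧ s = ∑ I, y I} :=
  ⟨0, by rintro s ⟨y, h, -, -, rfl⟩; exact sum_nonneg fun I _ => h I⟩

theorem chiF_le (H : SimpleGraph V) {Γ : Type} [Fintype Γ] (J : Γ → Finset V) (b : ℕ)
    (hb : 0 < b) (h1 : ∀ c, H.IsIndepSet (J c : Set V))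
    (h2 : ∀ v, b ≤ #{c | v ∈ J c}) : chiF H ≤ (Fintype.card Γ : ℝ) / b := by
  have hb' : (0 : ℝ) < b := by exact_mod_cast hb
  refine csInf_le (bdd H) ⟨fun I => (#{c | J c = I} : ℝ) / b, fun I => by positivity, ?_, ?_, ?_⟩
  · intro I hI
    have : #{c | J c = I} ≠ 0 := fun e => hI (by simp [e])
    obtain ⟨c, hc⟩ := card_ne_zero.1 this
    exact (mem_filter.1 hc).2 ▸ h1 c
  · intro v
    rw [← sum_div, le_div_iff₀ hb', one_mul, ← Nat.cast_sum, sum_card_fiberwise_eq_card_filter]
    have := h2 v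
    simp only [mem_filter, mem_univ, true_and]
    exact_mod_cast this
  · rw [← sum_div, ← Nat.cast_sum, sum_card_fiberwise_eq_card_filter]
    simp

theorem le_chiF (H : SimpleGraph V) (a : ℕ) (h : ∀ I : Finset V, H.IsIndepSet (I : Set V) → #I ≤ a) :
    (Fintype.card V : ℝ) ≤ a * chiF H := by
  rcases Nat.eq_zero_or_pos a with rfl | ha
  · have : IsEmpty V := ⟨fun v => by simpa using h {v} (by simp)⟩
    simp
  have ha' : (0 : ℝ) < a := by exact_mod_cast ha
  rw [← div_le_iff₀' ha']
  refine le_csInf ⟨_, fun I => if #I = 1 then 1 else 0, fun I => by positivity, ?_, ?_, rfl⟩ ?_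
  · intro I hI
    obtain ⟨v, rfl⟩ := card_eq_one.1 (by by_contra e; simp [e] at hI : #I = 1)
    simp
  · intro v
    refine le_trans ?_ (single_le_sum (a := {v}) (fun I _ => by positivity) (by simp))
    simp
  · rintro s ⟨y, h0, h1, h2, rfl⟩
    rw [div_le_iff₀ ha', sum_mul]
    calc (Fintype.card V : ℝ) = ∑ _v : V, (1 : ℝ) := by simp
      _ ≤ ∑ v : V, ∑ I with v ∈ I, y I := sum_le_sum fun v _ => h2 v
      _ = ∑ I, y I * #I := by
        simp only [sum_filter]
        rw [sum_comm]
        refine sum_congr rfl fun I _ => ?_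
        simp [mul_comm]
      _ ≤ _ := sum_le_sum fun I _ => by
        by_cases e : y I = 0
        · simp [e]
        · exact mul_le_mul_of_nonneg_left (by exact_mod_cast h I (h1 I e)) (h0 I)

theorem clq (G : SimpleGraph V) (x : V → ℕ) (s : Finset V) (hs : G.IsClique (s : Set V)) :
    ∑ v ∈ s, x v ≤ (rep G x).cliqueNum := by
  have := SimpleGraph.IsClique.card_le_cliqueNum (G := rep G x)
    (t := s.sigma fun _ => univ) (tc := by
      intro a ha b hb hab
      refine ⟨hab, ?_⟩
      by_cases e : a.1 = b.1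
      · exact Or.inl e
      · exact Or.inr (hs (by simpa using ha) (by simpa using hb) e))
  simpa using this

theorem imp_of_col (G : SimpleGraph V) (c : V → Fin 3) (hc : ∀ u v, G.Adj u v → c u ≠ c v) :
    ImpLE G (3 / 2) := by
  intro x hx
  set W := (rep G x).cliqueNum with hW
  have h1 : ∀ v, x v ≤ W := fun v => by simpa using clq G x {v} (by simp)
  have h2 : ∀ u v, G.Adj u v → x u + x v ≤ W := fun u v h => by
    have := clq G x {u, v} (by simpa using fun _ => h)
    rwa [sum_pair h.ne] at this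
  have hW0 : 0 < W := by
    obtain ⟨v, hv⟩ := Function.ne_iff.1 hx
    exact (Nat.pos_of_ne_zero hv).trans_le (h1 v)
  let f : (Σ v, Fin (x v)) → ℕ → Fin 3 × Fin W := fun a e =>
    if h : 2 * a.2.val + e < W then (c a.1, ⟨_, h⟩)
    else (c a.1 + 1, ⟨2 * W - 1 - (2 * a.2.val + e), by omega⟩)
  have k3 : ∀ i : Fin 3, i ≠ i + 1 := by decide
  have key : ∀ a b e e', e < 2 → e' < 2 → f a e = f b e' → a.1 = b.1 ∨ G.Adj a.1 b.1 →
      a = b ∧ e = e' := by
    rintro ⟨u, i⟩ ⟨v, j⟩ e e' he he' h hab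
    have hi := i.2
    have hj := j.2
    rcases hab with hab | hab
    · simp only at hab
      subst hab
      have := h1 u
      have : i.val = j.val ∧ e = e' := by
        simp only [f] at h
        split_ifs at h <;> simp only [Prod.mk.injEq, Fin.mk.injEq] at h
        · omega
        · exact absurd h.1 (k3 _)
        · exact absurd h.1.symm (k3 _)
        · omega
      exact ⟨by rw [Fin.ext this.1], this.2⟩
    · have := h2 _ _ hab
      have h4 := hc _ _ hab
      simp only [f] at h this h4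
      split_ifs at h <;> simp only [Prod.mk.injEq, Fin.mk.injEq] at h
      · exact absurd h.1 h4
      · omega
      · omega
      · exact absurd (add_right_cancel h.1) h4
  have := chiF_le (rep G x) (fun γ : Fin 3 × Fin W => ({a | f a 0 = γ ∨ f a 1 = γ} : Finset _)) 2
    two_pos (fun γ a ha b hb hab h => by
      simp only [coe_filter, mem_univ, true_and, Set.mem_ofPred_eq] at ha hb
      rcases ha with ha | ha <;> rcases hb with hb | hb <;>
        exact hab (key a b _ _ (by omega) (by omega) (ha.trans hb.symm) h.2).1)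
    (fun a => by
      have e : f a 0 ≠ f a 1 := fun e => by
        have := (key a a 0 1 (by omega) (by omega) e (Or.inl rfl)).2
        omega
      refine le_trans (card_pair e).ge (card_le_card fun γ => ?_)
      simp only [mem_insert, mem_singleton, mem_filter, mem_univ, true_and]
      exact fun h => h.imp Eq.symm Eq.symm)
  have hW' : (0 : ℝ) < W := by exact_mod_cast hW0
  rw [div_le_iff₀ hW']
  simp only [Fintype.card_prod, Fintype.card_fin] at this
  push_cast at this
  linarith

theorem not_imp (G : SimpleGraph V) (a : ℕ) (h3 : ∀ u v w, G.Adj u v → G.Adj v w → ¬ G.Adj u w)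
    (h : ∀ I : Finset V, G.IsIndepSet (I : Set V) → #I ≤ a) (hn : 3 * a < Fintype.card V) :
    ¬ ImpLE G (3 / 2) := by
  intro hG
  have hne : Nonempty V := Fintype.card_pos_iff.1 (by omega)
  obtain ⟨v⟩ := hne
  have inj : ∀ p q : (Σ _ : V, Fin 1), p.1 = q.1 → p = q := by
    rintro ⟨p, i⟩ ⟨q, j⟩ e
    simp only at e
    subst e
    rw [Subsingleton.elim i j]
  have adj : ∀ p q, (rep G fun _ => 1).Adj p q → G.Adj p.1 q.1 := fun p q e =>
    e.2.resolve_left fun e' => e.1 (inj _ _ e')
  have h1 := hG (fun _ => 1) (fun e => by simpa using congrFun e v)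
  have h2 : 1 ≤ (rep G fun _ => 1).cliqueNum := by simpa using clq G (fun _ => 1) {v} (by simp)
  have h4 : (rep G fun _ => 1).cliqueNum ≤ 2 := by
    obtain ⟨s, hs⟩ := (rep G fun _ => 1).exists_isNClique_cliqueNum
    by_contra h5
    obtain ⟨p, q, r, hp, hq, hr, e1, e2, e3⟩ := two_lt_card_iff.1 (hs.2 ▸ not_le.1 h5)
    exact h3 _ _ _ (adj _ _ (hs.1 hp hq e1)) (adj _ _ (hs.1 hq hr e3)) (adj _ _ (hs.1 hp hr e2))
  have h5 := le_chiF (rep G fun _ => 1) a fun I hI => by
    rw [← card_image_of_injective I inj]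
    refine h _ fun p hp q hq hpq e => ?_
    simp only [coe_image, Set.mem_image, mem_coe] at hp hq
    obtain ⟨p, hp, rfl⟩ := hp
    obtain ⟨q, hq, rfl⟩ := hq
    exact hI hp hq (fun e' => hpq (by rw [e'])) ⟨fun e' => hpq (by rw [e']), Or.inr e⟩
  have h6 : (0 : ℝ) < (rep G fun _ => 1).cliqueNum := by exact_mod_cast h2
  have h7 : ((rep G fun _ => 1).cliqueNum : ℝ) ≤ 2 := by exact_mod_cast h4
  rw [div_le_iff₀ h6] at h1
  simp only [Fintype.card_sigma, Fintype.card_fin, sum_const, card_univ, smul_eq_mul, mul_one] at h5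
  have h8 : (3 * a : ℝ) < Fintype.card V := by exact_mod_cast hn
  have h9 : (0 : ℝ) ≤ a := by positivity
  nlinarith

end Pool.Agent.H16.Imp
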