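import Pool.Agent.H16.Imp1
import Pool.Agent.Lead.Nae

set_option autoImplicit false

namespace Pool.Agent.H16.Imp
open Finset Pool.Agent.H11.PT Pool.Agent.Lead.Nae

def TE : List (ℕ × ℕ) := [(0, 4), (0, 7), (0, 14), (1, 3), (1, 6), (1, 9), (1, 11), (2, 9),
  (2, 10), (2, 12), (2, 13), (3, 7), (3, 8), (3, 10), (3, 13), (4, 5), (4, 8), (4, 9), (4, 11),
  (5, 6), (5, 7), (5, 13), (6, 8), (6, 10), (7, 9), (7, 12), (8, 12), (9, 14), (10, 11), (10, 14),
  (11, 12), (11, 13), (12, 14), (13, 14)]

def chk (l : List Bool) : Bool :=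
  TE.any (fun e => l.getD e.1 false && l.getD e.2 false) ||
    decide ((l.map Bool.toNat).sum ≤ (if l.getD 0 false || l.getD 1 false || l.getD 2 false then 5
      else 4))

set_option synthInstance.maxSize 2000 in
theorem chk_all : ∀ a b c d e f g h i j k l m n o : Bool,
    chk [a, b, c, d, e, f, g, h, i, j, k, l, m, n, o] = true := by decide +kernel

theorem gadget (p : ℕ → Bool) (h : ∀ e ∈ TE, ¬ (p e.1 = true ∧ p e.2 = true)) :
    ∑ r ∈ range 15, (p r).toNat ≤ if p 0 || p 1 || p 2 then 5 else 4 := by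
  have h1 := chk_all (p 0) (p 1) (p 2) (p 3) (p 4) (p 5) (p 6) (p 7) (p 8) (p 9) (p 10) (p 11)
    (p 12) (p 13) (p 14)
  have e : [p 0, p 1, p 2, p 3, p 4, p 5, p 6, p 7, p 8, p 9, p 10, p 11, p 12, p 13, p 14] =
    (List.range 15).map p := rfl
  have hT : ∀ e ∈ TE, e.1 < 15 ∧ e.2 < 15 := by decide
  have g : ∀ r < 15, ((List.range 15).map p).getD r false = p r := fun r hr => by
    simp [List.getD_eq_getElem?_getD, hr]
  rw [e, chk, g 0 (by omega), g 1 (by omega), g 2 (by omega), Bool.or_eq_true] at h1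
  rcases h1 with h1 | h1
  · obtain ⟨x, hx, h2⟩ := List.any_eq_true.1 h1
    rw [g _ (hT x hx).1, g _ (hT x hx).2, Bool.and_eq_true] at h2
    exact absurd h2 (h x hx)
  · rw [List.map_map] at h1
    exact of_decide_eq_true h1

abbrev F := List (ℕ × ℕ × ℕ)

def M (φ : F) : ℕ := (φ.map fun c => c.1 + c.2.1 + c.2.2 + 1).sum + 1

def var (φ : F) (j k : ℕ) : ℕ :=
  if k = 0 then (φ.getD j (0, 0, 0)).1 else if k = 1 then (φ.getD j (0, 0, 0)).2.1
  else (φ.getD j (0, 0, 0)).2.2

def A (φ : F) (u v : ℕ) : Prop :=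
  (u / 15 = v / 15 ∧ (u % 15, v % 15) ∈ TE) ∨ (u = 45 * M φ ∧ v % 45 = 0) ∨
    (u / 45 < φ.length ∧ 15 ≤ u % 45 ∧ u % 15 < 3 ∧ v = 45 * var φ (u / 45) (u % 15) + u % 45 / 15)

instance (φ : F) (u v : ℕ) : Decidable (A φ u v) := by unfold A; infer_instance

def red (φ : F) : ℕ × List (ℕ × ℕ) :=
  (45 * M φ + 1, (List.range (45 * M φ + 1) ×ˢ List.range (45 * M φ + 1)).filter fun p =>
    decide ((p.1 / 15 = p.2 / 15 ∧ (p.1 % 15, p.2 % 15) ∈ TE) ∨ (p.1 = 45 * M φ ∧ p.2 % 45 = 0) ∨
    (p.1 / 45 < φ.length ∧ 15 ≤ p.1 % 45 ∧ p.1 % 15 < 3 ∧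
      p.2 = 45 * var φ (p.1 / 45) (p.1 % 15) + p.1 % 45 / 15)))

theorem red_pt : PT red := by unfold red M var; fun_prop

theorem adj_iff (φ : F) (u v : Fin (red φ).1) :
    (gr (red φ).1 (red φ).2).Adj u v ↔ u.val ≠ v.val ∧ (A φ u v ∨ A φ v u) := by
  have hu : u.val < 45 * M φ + 1 := u.2
  have hv : v.val < 45 * M φ + 1 := v.2
  simp only [gr, SimpleGraph.fromRel_adj, red, List.mem_filter, List.mem_product, List.mem_range,
    decide_eq_true_eq, A, hu, hv, true_and, Ne]
  exact and_congr_left' (not_congr Fin.ext_iff)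

theorem len_lt (φ : F) : φ.length < M φ := by
  unfold M
  induction φ with
  | nil => simp
  | cons c φ ih => simp only [List.length_cons, List.map_cons, List.sum_cons]; omega

theorem var_lt (φ : F) (j k : ℕ) (h : j < φ.length) : var φ j k < M φ := by
  have : φ[j].1 + φ[j].2.1 + φ[j].2.2 + 1 ≤ (φ.map fun c => c.1 + c.2.1 + c.2.2 + 1).sum :=
    List.single_le_sum (by simp) _ (List.mem_map_of_mem (List.getElem_mem h))
  simp only [var, M, List.getD_eq_getElem _ _ h]
  split_ifs <;> omega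

def RA (r s : ℕ) : Bool :=
  (r < 45 && s < 45 && r / 15 == s / 15 && TE.contains (r % 15, s % 15)) || (r == 45 && s == 0) ||
    (15 ≤ r && r < 45 && r % 15 < 3 && s == r / 15)

theorem RA_free : ∀ r < 46, ∀ s < 46, (RA r s || RA s r) = true → ∀ t < 46,
    (RA s t || RA t s) = true → (RA r t || RA t r) = false := by decide +kernel

def ρ (φ : F) (v : ℕ) : ℕ := if v = 45 * M φ then 45 else v % 45

theorem A_RA (φ : F) (u v : ℕ) (hu : u < 45 * M φ + 1) (hv : v < 45 * M φ + 1) (huv : u ≠ v)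
    (h : A φ u v) : RA (ρ φ u) (ρ φ v) = true := by
  have := len_lt φ
  simp only [RA, ρ, Bool.or_eq_true, Bool.and_eq_true, decide_eq_true_eq, beq_iff_eq,
    List.contains_iff_mem]
  rcases h with ⟨h1, h2⟩ | ⟨h1, h2⟩ | ⟨h1, h2, h3, h4⟩
  · rw [if_neg (by omega), if_neg (by omega), Nat.mod_mod_of_dvd _ (by norm_num),
      Nat.mod_mod_of_dvd _ (by norm_num)]
    exact Or.inl (Or.inl ⟨by omega, h2⟩)
  · rw [if_pos h1, if_neg (by omega)]
    exact Or.inl (Or.inr ⟨rfl, h2⟩)
  · rw [if_neg (by omega), if_neg (by omega)]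
    exact Or.inr (by omega)

def perms : List (List (Fin 3)) := [[0, 1, 2], [0, 2, 1], [1, 0, 2], [1, 2, 0], [2, 0, 1], [2, 1, 0]]

def lc (t : ℕ) (b : Bool) : Fin 3 := if (t = 1) = b then 1 else 2

def col (d : Bool × Bool × Bool) (r : ℕ) : Fin 3 :=
  (if r < 15 then [0, lc 1 d.1, lc 2 d.1] else
    (perms.find? fun π => π.getD 0 0 != lc (r / 15) d.1 && π.getD 1 0 != lc (r / 15) d.2.1 &&
      π.getD 2 0 != lc (r / 15) d.2.2).getD [0, 1, 2]).getD (r % 3) 0

theorem col1 : ∀ d, ∀ t < 3, ∀ e ∈ TE, col d (15 * t + e.1) ≠ col d (15 * t + e.2) := by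
  decide +kernel

theorem col2 : ∀ a b c : Bool, ¬ (a = b ∧ b = c) → ∀ r < 45, 15 ≤ r → r % 15 < 3 → ∀ e : Bool,
    e = (if r % 15 = 0 then a else if r % 15 = 1 then b else c) →
      col (a, b, c) r ≠ col (e, e, e) (r / 15) := by
  decide +kernel

theorem sum_blocks (f : ℕ → ℕ) (m : ℕ) :
    ∑ v ∈ range (15 * m), f v = ∑ g ∈ range m, ∑ r ∈ range 15, f (15 * g + r) := by
  induction m with
  | zero => simp
  | succ m ih => rw [Nat.mul_succ, sum_range_add, ih, sum_range_succ _ m]

theorem hard : Hard fun y : ℕ × List (ℕ × ℕ) => ImpLE (gr y.1 y.2) (3 / 2) := by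
  refine hard_NAE.red red red_pt fun φ => ⟨?_, ?_⟩
  · rintro ⟨σ, hσ⟩
    let d : ℕ → Bool × Bool × Bool := fun v => if v % 45 < 15 then (σ (v / 45), σ (v / 45), σ (v / 45))
      else (σ (var φ (v / 45) 0), σ (var φ (v / 45) 1), σ (var φ (v / 45) 2))
    let c : ℕ → Fin 3 := fun v => if v = 45 * M φ then 1 else col (d v) (v % 45)
    have key : ∀ u v, u < 45 * M φ + 1 → v < 45 * M φ + 1 → u ≠ v → A φ u v → c u ≠ c v := by
      intro u v hu hv huv h
      have := len_lt φ
      simp only [c]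
      rcases h with ⟨h1, h2⟩ | ⟨h1, h2⟩ | ⟨h1, h2, h3, h4⟩
      · rw [if_neg (by omega), if_neg (by omega)]
        have e : d v = d u := by
          simp only [d]
          rw [show v / 45 = u / 45 by omega]
          exact if_congr (by omega) rfl rfl
        have := col1 (d u) (u % 45 / 15) (by omega) _ h2
        simp only at this
        rw [show 15 * (u % 45 / 15) + u % 15 = u % 45 by omega,
          show 15 * (u % 45 / 15) + v % 15 = v % 45 by omega] at this
        rwa [e]
      · rw [if_pos h1, if_neg (by omega), h2]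
        simp [col]
      · rw [if_neg (by omega), if_neg (by omega)]
        have e1 : v / 45 = var φ (u / 45) (u % 15) := by omega
        have e2 : v % 45 = u % 45 / 15 := by omega
        simp only [d]
        rw [if_neg (by omega), if_pos (by omega), e1, e2]
        refine col2 _ _ _ ?_ _ (by omega) h2 (by omega) _ ?_
        · have := hσ _ (List.getElem_mem h1)
          simpa [var, h1] using this
        · rw [Nat.mod_mod_of_dvd _ (by norm_num)]
          obtain h | h | h : u % 15 = 0 ∨ u % 15 = 1 ∨ u % 15 = 2 := by omega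
          all_goals simp [h]
    refine imp_of_col _ (fun v => c v.val) fun u v h => ?_
    obtain ⟨h1, h2 | h2⟩ := (adj_iff φ u v).1 h
    · exact key _ _ u.2 v.2 h1 h2
    · exact (key _ _ v.2 u.2 h1.symm h2).symm
  · intro hG
    by_contra hn
    refine not_imp _ (15 * M φ) ?_ ?_ (by simp [red]; omega) hG
    · intro u v w h1 h2 h3
      have lt : ∀ v, ρ φ v < 46 := fun v => by unfold ρ; split_ifs <;> omega
      have k : ∀ u v, (gr (red φ).1 (red φ).2).Adj u v →
          (RA (ρ φ u) (ρ φ v) || RA (ρ φ v) (ρ φ u)) = true := fun u v h => by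
        obtain ⟨h1, h2 | h2⟩ := (adj_iff φ u v).1 h
        · simp [A_RA φ _ _ u.2 v.2 h1 h2]
        · simp [A_RA φ _ _ v.2 u.2 h1.symm h2]
      have := RA_free _ (lt _) _ (lt _) (k _ _ h1) _ (lt _) (k _ _ h2)
      rw [k _ _ h3] at this
      exact absurd this (by simp)
    · intro I hI
      let p : ℕ → Bool := fun v => decide (v ∈ I.map Fin.valEmbedding)
      have hp : ∀ u v, u ≠ v → A φ u v → ¬ (p u = true ∧ p v = true) := by
        rintro u v huv h ⟨hu, hv⟩
        simp only [p, decide_eq_true_eq, mem_map, Fin.valEmbedding_apply] at hu hv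
        obtain ⟨u, hu, rfl⟩ := hu
        obtain ⟨v, hv, rfl⟩ := hv
        exact hI hu hv (fun e => huv (by rw [e])) ((adj_iff φ u v).2 ⟨huv, Or.inl h⟩)
      have hc : #I = ∑ v ∈ range (45 * M φ + 1), (p v).toNat := by
        rw [← card_map Fin.valEmbedding]
        have : I.map Fin.valEmbedding = {v ∈ range (45 * M φ + 1) | p v = true} := by
          ext v
          simp only [p, decide_eq_true_eq, mem_filter, mem_range, iff_and_self, mem_map]
          rintro ⟨u, -, rfl⟩
          exact u.2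
        rw [this, card_filter]
        exact sum_congr rfl fun v _ => by cases p v <;> rfl
      have hT : ∀ e ∈ TE, e.1 < e.2 ∧ e.2 < 15 := by decide
      have hg := fun g => gadget (fun r => p (15 * g + r)) fun e he =>
        hp _ _ (by have := hT e he; omega) (Or.inl ⟨by have := hT e he; omega, by
          have := hT e he
          rwa [show (15 * g + e.1) % 15 = e.1 by omega, show (15 * g + e.2) % 15 = e.2 by omega]⟩)
      have hg5 : ∀ g, ∑ r ∈ range 15, (p (15 * g + r)).toNat ≤ 5 := fun g =>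
        (hg g).trans (by split_ifs <;> omega)
      rw [hc, sum_range_succ, show 45 * M φ = 15 * (3 * M φ) by omega, sum_blocks]
      have h5 : ∑ _g ∈ range (3 * M φ), 5 = 15 * M φ := by simp; omega
      cases hu : p (15 * (3 * M φ))
      · exact h5 ▸ (sum_le_sum fun g _ => hg5 g : _ ≤ ∑ _g ∈ range (3 * M φ), 5)
      refine h5 ▸ sum_lt_sum (fun g _ => hg5 g) ?_
      by_contra h6
      have h7 : ∀ g < 3 * M φ, ∃ k < 3, p (15 * g + k) = true := fun g h => by
        have h8 := hg g
        split_ifs at h8 with h9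
        · simp only [Bool.or_eq_true] at h9
          rcases h9 with (h9 | h9) | h9 <;> exact ⟨_, by omega, h9⟩
        · exact absurd ⟨g, mem_range.2 h, by omega⟩ h6
      refine hn ⟨fun i => p (45 * i + 1), fun c hc => ?_⟩
      obtain ⟨j, hj, rfl⟩ := List.getElem_of_mem hc
      have := len_lt φ
      have h8 : ∀ t, 0 < t → t < 3 → ∃ k < 3, p (45 * var φ j k + t) = false := fun t h h' => by
        obtain ⟨k, hk, e⟩ := h7 (3 * j + t) (by omega)
        refine ⟨k, hk, ?_⟩
        have e1 : (15 * (3 * j + t) + k) / 45 = j := by omega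
        have e2 : (15 * (3 * j + t) + k) % 15 = k := by omega
        have e3 : 15 * (3 * j + t) + k ≠ 45 * var φ j k + t := fun e3 => by
          clear e1 e2
          obtain rfl | rfl : t = 1 ∨ t = 2 := by omega
          all_goals omega
        simpa [e] using hp (15 * (3 * j + t) + k) (45 * var φ j k + t) e3
          (Or.inr (Or.inr ⟨by omega, by omega, by omega, by rw [e1, e2]; omega⟩))
      obtain ⟨k, hk, e1⟩ := h8 1 (by omega) (by omega)
      obtain ⟨l, hl, e2⟩ := h8 2 (by omega) (by omega)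
      have e3 : p (45 * var φ j l + 1) = true := by
        have h9 := var_lt φ j l hj
        obtain ⟨m, hm, e⟩ := h7 (3 * var φ j l) (by omega)
        rw [show 15 * (3 * var φ j l) = 45 * var φ j l by omega] at e
        obtain rfl | rfl | rfl : m = 0 ∨ m = 1 ∨ m = 2 := by omega
        · exact absurd ⟨hu, e⟩ (hp _ _ (by omega) (Or.inr (Or.inl (by omega))))
        · exact e
        · rw [e] at e2
          exact absurd e2 (by simp)
      rintro ⟨q1, q2⟩
      have q : ∀ k, p (45 * var φ j k + 1) = p (45 * φ[j].1 + 1) := fun k => by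
        simp only [var, List.getD_eq_getElem _ _ hj]
        split_ifs
        · rfl
        · exact q1.symm
        · exact (q1.trans q2).symm
      rw [q] at e1 e3
      rw [e1] at e3
      exact absurd e3 (by simp)

end Pool.Agent.H16.Imp
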