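import Pool.Agent.H11.GDefs

set_option autoImplicit false

namespace Pool.Agent.H16.Imp
open Pool.Agent.H11.PT

/-- The replicated graph: node `v` becomes a clique of `x v` nodes. -/
def rep {V : Type} (G : SimpleGraph V) (x : V → ℕ) : SimpleGraph (Σ v, Fin (x v)) where
  Adj a b := a ≠ b ∧ (a.1 = b.1 ∨ G.Adj a.1 b.1)
  symm := ⟨fun _ _ h => ⟨h.1.symm, h.2.imp Eq.symm G.adj_symm⟩⟩
  loopless := ⟨fun _ h => h.1 rfl⟩

/-- The fractional chromatic number: least total weight of a fractional cover by stable sets. -/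
noncomputable def chiF {V : Type} [Fintype V] [DecidableEq V] (H : SimpleGraph V) : ℝ :=
  sInf {s | ∃ y : Finset V → ℝ, (∀ I, 0 ≤ y I) ∧ (∀ I, y I ≠ 0 → H.IsIndepSet (I : Set V)) ∧
    (∀ v, 1 ≤ ∑ I with v ∈ I, y I) ∧ s = ∑ I, y I}

/-- The imperfection ratio of `G` is at most `t`. -/
def ImpLE {V : Type} [Fintype V] [DecidableEq V] (G : SimpleGraph V) (t : ℝ) : Prop :=
  ∀ x : V → ℕ, x ≠ 0 → chiF (rep G x) / ((rep G x).cliqueNum : ℝ) ≤ t

end Pool.Agent.H16.Imp
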