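import Mathlib

set_option autoImplicit false

namespace Pool.Agent.H16.InqBQ

/-- A signature: predicate and function symbols with arities; `rigid` marks rigid symbols. -/
structure Sig where
  P : Type
  F : Type
  pa : P → ℕ
  fa : F → ℕ
  rigid : F → Prop

inductive Term (σ : Sig) : Type
  | var (x : ℕ) : Term σ
  | app (f : σ.F) (a : Fin (σ.fa f) → Term σ) : Term σ

inductive Form (σ : Sig) : Type
  | pred (p : σ.P) (a : Fin (σ.pa p) → Term σ) : Form σ
  | eq (t t' : Term σ) : Form σ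
  | bot : Form σ
  | and (φ ψ : Form σ) : Form σ
  | ior (φ ψ : Form σ) : Form σ
  | imp (φ ψ : Form σ) : Form σ
  | all (x : ℕ) (φ : Form σ) : Form σ
  | iex (x : ℕ) (φ : Form σ) : Form σ

structure Model (σ : Sig) where
  W : Type
  D : Type
  neW : Nonempty W
  neD : Nonempty D
  IP : W → (p : σ.P) → (Fin (σ.pa p) → D) → Prop
  IF : W → (f : σ.F) → (Fin (σ.fa f) → D) → D
  rig : ∀ f, σ.rigid f → ∀ w w', IF w f = IF w' f
  sim : W → D → D → Prop
  eqv : ∀ w, Equivalence (sim w)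
  cP : ∀ w p a b, (∀ i, sim w (a i) (b i)) → (IP w p a ↔ IP w p b)
  cF : ∀ w f a b, (∀ i, sim w (a i) (b i)) → sim w (IF w f a) (IF w f b)

variable {σ : Sig}

def Model.val (M : Model σ) (w : M.W) (g : ℕ → M.D) : Term σ → M.D
  | .var x => g x
  | .app f a => M.IF w f fun i => M.val w g (a i)

def Model.Sup (M : Model σ) : Form σ → Set M.W → (ℕ → M.D) → Prop
  | .pred p a, s, g => ∀ w ∈ s, M.IP w p fun i => M.val w g (a i)
  | .eq t t', s, g => ∀ w ∈ s, M.sim w (M.val w g t) (M.val w g t')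
  | .bot, s, _ => s = ∅
  | .and φ ψ, s, g => M.Sup φ s g ∧ M.Sup ψ s g
  | .ior φ ψ, s, g => M.Sup φ s g ∨ M.Sup ψ s g
  | .imp φ ψ, s, g => ∀ t ⊆ s, M.Sup φ t g → M.Sup ψ t g
  | .all x φ, s, g => ∀ d, M.Sup φ s (Function.update g x d)
  | .iex x φ, s, g => ∃ d, M.Sup φ s (Function.update g x d)

inductive Fn
  | z | s | p | c | d
  deriving DecidableEq, Fintype

def ar : Fn → ℕ
  | .s => 1
  | .p => 1
  | _ => 0

abbrev S0 : Sig := ⟨Empty, Fn, Empty.elim, ar, fun f => f = .z ∨ f = .s ∨ f = .p⟩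

def tz : Term S0 := .app .z Fin.elim0
def tc : Term S0 := .app .c Fin.elim0
def td : Term S0 := .app .d Fin.elim0
def ts (t : Term S0) : Term S0 := .app .s fun _ => t
def tp (t : Term S0) : Term S0 := .app .p fun _ => t
def ng (φ : Form S0) : Form S0 := .imp φ .bot

def Rig : Form S0 := .all 0 (.all 1 (.ior (.eq (.var 0) (.var 1)) (ng (.eq (.var 0) (.var 1)))))
def Inj : Form S0 := .all 0 (.all 1 (.imp (.eq (tp (ts (.var 0))) (tp (ts (.var 1))))
  (.eq (tp (.var 0)) (tp (.var 1)))))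
def Nz : Form S0 := .all 0 (ng (.eq (tp (ts (.var 0))) (tp tz)))
def Fu : Form S0 := .all 0 (.iex 1 (.imp (.eq (tp tc) (.var 0)) (.eq td (.var 1))))
def Ns : Form S0 := .iex 1 (ng (.eq td (.var 1)))
def Nf : Form S0 := .iex 0 (.iex 1 (ng (.and (.eq tc (.var 0)) (.eq td (.var 1)))))
def chi : Form S0 := .imp (.and (.and Rig (.and Inj Nz)) (.imp Fu Ns)) Nf

theorem all_sub {W : Type} (s : Set W) (A B : W → Prop) :
    (∀ t ⊆ s, (∀ w ∈ t, A w) → ∀ w ∈ t, B w) ↔ ∀ w ∈ s, A w → B w :=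
  ⟨fun h w hw ha => h {w} (by simpa) (by simpa) w rfl, fun h _ ht ha w hw => h w (ht hw) (ha w hw)⟩

theorem all_emp {W : Type} (s : Set W) (A : W → Prop) :
    (∀ t ⊆ s, (∀ w ∈ t, A w) → t = ∅) ↔ ∀ w ∈ s, ¬ A w :=
  ⟨fun h w hw ha => by simpa using h {w} (by simpa) (by simpa), fun h t ht ha =>
    Set.eq_empty_of_forall_notMem fun w hw => h w (ht hw) (ha w hw)⟩

theorem all_and {W : Type} (s : Set W) (A B : W → Prop) :
    ((∀ w ∈ s, A w) ∧ ∀ w ∈ s, B w) ↔ ∀ w ∈ s, A w ∧ B w :=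
  ⟨fun h w hw => ⟨h.1 w hw, h.2 w hw⟩, fun h => ⟨fun w hw => (h w hw).1, fun w hw => (h w hw).2⟩⟩

def f0 (M : Model S0) (w : M.W) (f : Fn) (x : M.D) : M.D := M.IF w f fun _ => x

theorem sup_chi (M : Model S0) (s : Set M.W) (g : ℕ → M.D) (o : M.D) : M.Sup chi s g ↔ ∀ t ⊆ s,
    (((∀ x y, (∀ w ∈ t, M.sim w x y) ∨ ∀ w ∈ t, ¬ M.sim w x y) ∧
      (∀ x y, ∀ w ∈ t, M.sim w (f0 M w .p (f0 M w .s x)) (f0 M w .p (f0 M w .s y)) →
        M.sim w (f0 M w .p x) (f0 M w .p y)) ∧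
      ∀ x, ∀ w ∈ t, ¬ M.sim w (f0 M w .p (f0 M w .s x)) (f0 M w .p (f0 M w .z o))) ∧
      ∀ u ⊆ t, (∀ x, ∃ y, ∀ w ∈ u, M.sim w (f0 M w .p (f0 M w .c o)) x → M.sim w (f0 M w .d o) y) →
        ∃ y, ∀ w ∈ u, ¬ M.sim w (f0 M w .d o) y) →
    ∃ x y, ∀ w ∈ t, ¬ (M.sim w (f0 M w .c o) x ∧ M.sim w (f0 M w .d o) y) := by
  have e : ∀ w (f : Fn) (h : ar f = 0) (a : Fin (ar f) → M.D), M.IF w f a = f0 M w f o := by
    intro w f h a
    unfold f0
    congr 1
    funext i
    exact (Fin.cast h i).elim0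
  simp only [chi, Rig, Inj, Nz, Fu, Ns, Nf, ng, Model.Sup, tz, tc, td, ts, tp, Model.val,
    all_and, all_sub, all_emp, e _ .z rfl, e _ .c rfl, e _ .d rfl, Function.update_self,
    Function.update_of_ne (show (0 : ℕ) ≠ 1 by decide)]
  rfl

theorem countable_sup (M : Model S0) (hD : Countable M.D) (s : Set M.W) (g : ℕ → M.D) :
    M.Sup chi s g := by
  rw [sup_chi M s g (g 0)]
  rintro t - ⟨⟨h1, h2, h3⟩, h4⟩
  by_contra h5
  push Not at h5
  obtain ⟨w0⟩ := M.neW
  have := M.neD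
  obtain ⟨e, he⟩ := exists_surjective_nat M.D
  let a : ℕ → M.D := fun n => (f0 M w0 .s)^[n] (f0 M w0 .z (g 0))
  have r : ∀ w (f : Fn), S0.rigid f → f0 M w f = f0 M w0 f := fun w f hf => by
    funext x; unfold f0; rw [M.rig f hf w w0]
  have rs := fun w => r w .s (by simp)
  have rp := fun w => r w .p (by simp)
  have rz := fun w => r w .z (by simp)
  simp only [rs, rp, rz] at h2 h3 h4
  have inj : ∀ w ∈ t, ∀ n m, M.sim w (f0 M w0 .p (a n)) (f0 M w0 .p (a m)) → n = m := by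
    intro w hw n
    induction n with
    | zero =>
      intro m h
      cases m with
      | zero => rfl
      | succ m =>
        simp only [a, Function.iterate_succ_apply'] at h
        exact (h3 _ w hw ((M.eqv w).symm h)).elim
    | succ n ih =>
      intro m h
      simp only [a, Function.iterate_succ_apply'] at h
      cases m with
      | zero => exact (h3 _ w hw h).elim
      | succ m =>
        simp only [Function.iterate_succ_apply'] at h
        rw [ih m (h2 _ _ w hw h)]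
  choose W hW hc hd using fun n => h5 (a n) (e n)
  have hp : ∀ n, M.sim (W n) (f0 M w0 .p (f0 M (W n) .c (g 0))) (f0 M w0 .p (a n)) := by
    intro n
    rw [← rp (W n)]
    exact M.cF _ _ _ _ fun _ => hc n
  obtain ⟨y, hy⟩ := h4 (Set.range W) (by rintro _ ⟨n, rfl⟩; exact hW n) (by
    intro x
    by_cases hx : ∃ n, M.sim (W n) (f0 M w0 .p (a n)) x
    · obtain ⟨n, hn⟩ := hx
      refine ⟨e n, ?_⟩
      rintro _ ⟨m, rfl⟩ hm
      have h6 := (M.eqv _).trans ((M.eqv _).symm (hp m)) hm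
      have h7 := ((h1 _ x).resolve_right fun h => h _ (hW n) hn) _ (hW m)
      rw [inj _ (hW m) n m ((M.eqv _).trans h7 ((M.eqv _).symm h6))]
      exact hd m
    · refine ⟨g 0, ?_⟩
      rintro _ ⟨m, rfl⟩ hm
      exact (hx ⟨m, (M.eqv _).trans ((M.eqv _).symm (hp m)) hm⟩).elim)
  obtain ⟨n, rfl⟩ := he y
  exact hy _ ⟨n, rfl⟩ (hd n)

def big : Model S0 where
  W := (ℕ × ℝ) × (ℕ × ℝ)
  D := ℕ × ℝ
  neW := inferInstance
  neD := inferInstance
  IP := fun _ p => p.elim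
  IF := fun w f => match f with
    | .z => fun _ => (0, 0)
    | .s => fun a => ((a ⟨0, Nat.one_pos⟩).1 + 1, 0)
    | .p => fun a => ((a ⟨0, Nat.one_pos⟩).1, 0)
    | .c => fun _ => w.1
    | .d => fun _ => w.2
  rig := by rintro f (rfl | rfl | rfl) w w' <;> rfl
  sim := fun _ x y => x = y
  eqv := fun _ => eq_equivalence
  cP := fun _ p => p.elim
  cF := fun w f a b h => by rw [funext h]

theorem big_not : ¬ big.Sup chi Set.univ (fun _ => (0, 0)) := by
  rw [sup_chi big _ _ (0, 0)]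
  intro h
  refine absurd (h Set.univ subset_rfl ⟨⟨fun x y => by
    by_cases e : x = y
    · exact Or.inl fun _ _ => e
    · exact Or.inr fun _ _ => e, fun x y w _ e => by simpa [f0, big] using e,
      fun x w _ e => by simp [f0, big] at e⟩, fun u _ hu => ?_⟩) ?_
  swap
  · rintro ⟨x, y, h1⟩
    exact h1 (x, y) trivial ⟨rfl, rfl⟩
  · choose Y hY using hu
    by_contra hc
    push Not at hc
    have : Function.Surjective fun n : ℕ => (Y (n, 0) : ℕ × ℝ).2 := by
      intro r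
      obtain ⟨w, hw, e⟩ := hc (0, r)
      refine ⟨w.1.1, ?_⟩
      have h2 : w.2 = Y (w.1.1, 0) := hY (w.1.1, 0) w hw rfl
      have h3 : w.2 = (0, r) := e
      simp only [← h2, h3]
    exact not_countable (α := ℝ) this.countable

end Pool.Agent.H16.InqBQ
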