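import Mathlib

set_option autoImplicit false

namespace Pool.Agent.H16.IntVar

/-- The word `w` is a law of the group `G`. -/
def Law (G : Type) [Group G] (w : FreeGroup ℕ) : Prop := ∀ φ : FreeGroup ℕ →* G, φ w = 1

/-- `K` lies in the variety generated by `G`: every law of `G` is a law of `K`. -/
def InVar (K G : Type) [Group K] [Group G] : Prop := ∀ w, Law G w → Law K w

/-- `H` is an integral of `G`. -/
def IsIntegral' (H G : Type) [Group H] [Group G] : Prop := Nonempty (commutator H ≃* G)

end Pool.Agent.H16.IntVar
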