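import Mathlib
import Pool.Agent.H16.IntVarDefs

set_option autoImplicit false

namespace Pool.Agent.H16.IntVar
open FreeGroup
open scoped commutatorElement

abbrev C2 := Multiplicative (ZMod 2)

theorem i1 : IsIntegral' (DihedralGroup 4) C2 := by
  have e : commutator (DihedralGroup 4) = Subgroup.zpowers (DihedralGroup.r 2) := by
    refine le_antisymm (Subgroup.commutator_le.2 fun a _ b _ => ?_) ?_
    · have : ∀ a b : DihedralGroup 4, ⁅a, b⁆ = 1 ∨ ⁅a, b⁆ = DihedralGroup.r 2 := by decide
      rcases this a b with h | h <;> simp [h]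
    · rw [Subgroup.zpowers_le, show DihedralGroup.r (2 : ZMod 4) = ⁅DihedralGroup.r (1 : ZMod 4), DihedralGroup.sr 0⁆
        by decide]
      exact Subgroup.commutator_mem_commutator trivial trivial
  refine ⟨mulEquivOfPrimeCardEq (p := 2) ?_ (by simp)⟩
  rw [e, Nat.card_zpowers]
  exact orderOf_eq_prime (by decide) (by decide)

theorem i2 (L : Type) [Group L] (h : ∀ x : L, x ^ 2 = 1) : InVar L C2 := by
  intro w hw φ
  let _ : CommGroup L := ⟨fun a b => Commute.of_orderOf_dvd_two (fun g => orderOf_dvd_of_pow_eq_one (h g)) a b⟩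
  let _ : Module (ZMod 2) (Additive L) := AddCommGroup.zmodModule fun x => h x.toMul
  exact (Module.forall_dual_apply_eq_zero_iff (ZMod 2) (Additive.ofMul (φ w))).1 fun χ =>
    hw ((AddMonoidHom.toMultiplicativeRight χ.toAddMonoidHom).comp φ)

theorem i3 (H : Type) [Group H] (h : IsIntegral' H C2) : Law H ⁅⁅of 0, of 1⁆, of 2⁆ := by
  obtain ⟨e⟩ := h
  intro φ
  rw [map_commutatorElement, map_commutatorElement, commutatorElement_eq_one_iff_mul_comm]
  have m : ⁅φ (of 0), φ (of 1)⁆ ∈ commutator H := Subgroup.commutator_mem_commutator trivial trivial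
  generalize ⁅φ (of 0), φ (of 1)⁆ = c at m
  generalize φ (of 2) = z
  by_cases h : c = 1
  · simp [h]
  have a : ∀ x y : C2, x ≠ 1 → y ≠ 1 → x = y := by decide
  have := congrArg Subtype.val (e.injective (a (e ⟨c, m⟩)
    (e ⟨_, (inferInstance : (commutator H).Normal).conj_mem c m z⟩) (by simpa using h) (by simpa using h)))
  exact eq_mul_inv_iff_mul_eq.1 this

theorem main : ∃ (G : Type) (_ : Group G), Finite G ∧ (∃ (H : Type) (_ : Group H), IsIntegral' H G) ∧
    ∃ (K : Type) (_ : Group K), InVar (commutator K) G ∧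
      ∀ (H : Type) [Group H], IsIntegral' H G → ¬ InVar K H := by
  refine ⟨C2, _, inferInstance, ⟨_, _, i1⟩, alternatingGroup (Fin 4), _, i2 _ fun x => ?_, fun H _ h c => ?_⟩
  · revert x
    rw [← alternatingGroup.kleinFour_eq_commutator (by simp),
      ← alternatingGroup.exponent_kleinFour_of_card_eq_four (α := Fin 4) (by simp)]
    exact Monoid.pow_exponent_eq_one
  · have := c _ (i3 H h) (lift fun n => if n = 1 then
      ⟨Equiv.swap 0 1 * Equiv.swap 2 3, Equiv.Perm.mem_alternatingGroup.2 (by decide)⟩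
      else ⟨Equiv.swap 0 1 * Equiv.swap 1 2, Equiv.Perm.mem_alternatingGroup.2 (by decide)⟩)
    simp only [map_commutatorElement, lift_apply_of] at this
    revert this
    decide

end Pool.Agent.H16.IntVar
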