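import Mathlib

set_option autoImplicit false

namespace Pool.Agent.H16.Inters

open Filter

/-- Upper Banach density: limsup over the window length n of the supremum over the position M
of the proportion of the window [M, M+n) occupied by E. -/
noncomputable def upperBanach (E : Set ℕ) : ℝ :=
  limsup (fun n : ℕ => ⨆ M : ℕ, ((E ∩ Set.Ico M (M + n)).ncard : ℝ) / (n : ℝ)) atTop

/-- Upper density of A relative to E. -/
noncomputable def relUpper (E A : Set ℕ) : ℝ :=
  limsup (fun N : ℕ =>
    ((A ∩ E ∩ Set.Icc 1 N).ncard : ℝ) / ((E ∩ Set.Icc 1 N).ncard : ℝ)) atTop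

/-- The difference set A - A inside the integers. -/
def diffSet (A : Set ℕ) : Set ℤ := {z | ∃ a ∈ A, ∃ b ∈ A, z = (a : ℤ) - (b : ℤ)}

/-- R meets A - A for every subset A of E of positive upper density relative to E. -/
def Intersective (E R : Set ℕ) : Prop :=
  ∀ A : Set ℕ, A ⊆ E → 0 < relUpper E A → ∃ r ∈ R, (r : ℤ) ∈ diffSet A

/-- Every block of L consecutive integers meets S, for some L. -/
def Syndetic (S : Set ℤ) : Prop :=
  ∃ L : ℕ, 1 ≤ L ∧ ∀ m : ℤ, ∃ s ∈ S, m ≤ s ∧ s < m + L

end Pool.Agent.H16.Inters
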