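import Mathlib
import Pool.Agent.H16.IntersDefs

set_option autoImplicit false

namespace Pool.Agent.H16.Inters

open Filter Classical

theorem ncard_inter_finset (E : Set ℕ) (s : Finset ℕ) :
    (E ∩ (s : Set ℕ)).ncard = (s.filter (· ∈ E)).card := by
  rw [← Set.ncard_coe_finset]
  congr 1
  ext x
  simp [and_comm]

theorem ncard_Ico (E : Set ℕ) (a b : ℕ) :
    (E ∩ Set.Ico a b).ncard = ((Finset.Ico a b).filter (· ∈ E)).card := by
  rw [← ncard_inter_finset, Finset.coe_Ico]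

theorem ncard_Icc (E : Set ℕ) (a b : ℕ) :
    (E ∩ Set.Icc a b).ncard = ((Finset.Icc a b).filter (· ∈ E)).card := by
  rw [← ncard_inter_finset, Finset.coe_Icc]

theorem ratio_le_one (E : Set ℕ) (n M : ℕ) :
    ((E ∩ Set.Ico M (M + n)).ncard : ℝ) / (n : ℝ) ≤ 1 := by
  rw [ncard_Ico]
  apply div_le_one_of_le₀ _ (by positivity)
  have : ((Finset.Ico M (M + n)).filter (· ∈ E)).card ≤ n := by
    refine (Finset.card_filter_le _ _).trans ?_
    simp
  exact_mod_cast this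

theorem window_small (E : Set ℕ) (h : upperBanach E = 0) (δ : ℝ) (hδ : 0 < δ) :
    ∃ L : ℕ, ∀ n : ℕ, L ≤ n → ∀ M : ℕ,
      (((Finset.Ico M (M + n)).filter (· ∈ E)).card : ℝ) ≤ δ * n := by
  have hb : IsBoundedUnder (· ≤ ·) atTop
      (fun n : ℕ => ⨆ M : ℕ, ((E ∩ Set.Ico M (M + n)).ncard : ℝ) / (n : ℝ)) :=
    isBoundedUnder_of ⟨1, fun n => ciSup_le (fun M => ratio_le_one E n M)⟩
  have h1 : upperBanach E < δ := by rw [h]; exact hδ
  have h2 := eventually_lt_of_limsup_lt h1 hb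
  obtain ⟨L, hL⟩ := eventually_atTop.1 h2
  refine ⟨L + 1, ?_⟩
  intro n hn M
  have h3 := hL n (by omega)
  have h4 : ((E ∩ Set.Ico M (M + n)).ncard : ℝ) / (n : ℝ) ≤
      ⨆ M : ℕ, ((E ∩ Set.Ico M (M + n)).ncard : ℝ) / (n : ℝ) :=
    le_ciSup (f := fun M : ℕ => ((E ∩ Set.Ico M (M + n)).ncard : ℝ) / (n : ℝ))
      ⟨1, by rintro _ ⟨M, rfl⟩; exact ratio_le_one E n M⟩ M
  have hn0 : (0 : ℝ) < n := by exact_mod_cast (show 0 < n by omega)
  have h5 := h4.trans h3.le
  rw [div_le_iff₀ hn0, ncard_Ico] at h5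
  exact h5

noncomputable def EN (E : Set ℕ) (N : ℕ) : Finset ℕ := (Finset.Icc 1 N).filter (· ∈ E)

def hit (E : Set ℕ) (k t x : ℕ) : Prop := ∃ y ∈ E, ∃ r : ℕ, t ≤ r ∧ r ≤ t + k ∧ x = y + r

noncomputable def Bad (E : Set ℕ) (k t N : ℕ) : Finset ℕ := (EN E N).filter (hit E k t)

theorem exists_good (E : Set ℕ) (h : upperBanach E = 0) (k T0 : ℕ) (ε : ℝ) (hε : 0 < ε) :
    ∃ T : ℕ, T0 < T ∧ ∀ N : ℕ, ∃ t ∈ Finset.Ico T (2 * T),
      ((Bad E k t N).card : ℝ) ≤ ε * (EN E N).card := by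
  obtain ⟨L, hL⟩ := window_small E h (ε / (3 * (k + 1))) (by positivity)
  refine ⟨L + T0 + k + 1, by omega, ?_⟩
  set T := L + T0 + k + 1 with hT
  intro N
  have hx : ∀ x : ℕ, (((Finset.Ico T (2 * T)).filter (fun t => hit E k t x)).card : ℝ) ≤ ε * T := by
    intro x
    set W := (Finset.Ico (x - (2 * T + k)) (x - (2 * T + k) + (2 * T + k + 1))).filter (· ∈ E)
      with hW
    have h1 : (Finset.Ico T (2 * T)).filter (fun t => hit E k t x) ⊆
        W.biUnion (fun y => Finset.Icc (x - y - k) (x - y)) := by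
      intro t ht
      rw [Finset.mem_filter, Finset.mem_Ico] at ht
      obtain ⟨⟨t1, t2⟩, y, hy, r, r1, r2, rfl⟩ := ht
      rw [Finset.mem_biUnion]
      refine ⟨y, ?_, ?_⟩
      · rw [hW, Finset.mem_filter, Finset.mem_Ico]
        refine ⟨⟨by omega, by omega⟩, hy⟩
      · rw [Finset.mem_Icc]
        omega
    have h2 : ((Finset.Ico T (2 * T)).filter (fun t => hit E k t x)).card ≤ W.card * (k + 1) := by
      refine (Finset.card_le_card h1).trans ?_
      apply Finset.card_biUnion_le_card_mul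
      intro y _
      rw [Nat.card_Icc]
      omega
    have h3 := hL (2 * T + k + 1) (by omega) (x - (2 * T + k))
    have h4 : (((Finset.Ico T (2 * T)).filter (fun t => hit E k t x)).card : ℝ) ≤
        (W.card : ℝ) * (k + 1) := by exact_mod_cast h2
    have h5 : ((2 * T + k + 1 : ℕ) : ℝ) ≤ 3 * T := by
      have : 2 * T + k + 1 ≤ 3 * T := by omega
      exact_mod_cast this
    have h6 : (W.card : ℝ) ≤ ε / (3 * (k + 1)) * (3 * T) :=
      h3.trans (mul_le_mul_of_nonneg_left h5 (by positivity))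
    calc _ ≤ (W.card : ℝ) * (k + 1) := h4
      _ ≤ ε / (3 * (k + 1)) * (3 * T) * (k + 1) :=
        mul_le_mul_of_nonneg_right h6 (by positivity)
      _ = ε * T := by field_simp
  apply Finset.exists_le_of_sum_le ⟨T, by rw [Finset.mem_Ico]; omega⟩
  calc ∑ t ∈ Finset.Ico T (2 * T), ((Bad E k t N).card : ℝ)
      = ∑ t ∈ Finset.Ico T (2 * T), ∑ x ∈ EN E N, if hit E k t x then (1 : ℝ) else 0 := by
        apply Finset.sum_congr rfl
        intro t _
        rw [Bad, Finset.natCast_card_filter]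
    _ = ∑ x ∈ EN E N, ∑ t ∈ Finset.Ico T (2 * T), if hit E k t x then (1 : ℝ) else 0 :=
        Finset.sum_comm
    _ ≤ ∑ _x ∈ EN E N, ε * T := by
        apply Finset.sum_le_sum
        intro x _
        rw [← Finset.natCast_card_filter]
        exact hx x
    _ = _ := by
        rw [Finset.sum_const, Finset.sum_const, Nat.card_Ico, nsmul_eq_mul, nsmul_eq_mul,
          show 2 * T - T = T by omega]
        ring

theorem exists_good_ultra (E : Set ℕ) (h : upperBanach E = 0) (k T0 : ℕ) (ε : ℝ) (hε : 0 < ε) :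
    ∃ t : ℕ, T0 < t ∧ {N : ℕ | ((Bad E k t N).card : ℝ) ≤ ε * (EN E N).card} ∈ hyperfilter ℕ := by
  obtain ⟨T, hT, hN⟩ := exists_good E h k T0 ε hε
  have : (⋃ t ∈ ((Finset.Ico T (2 * T) : Finset ℕ) : Set ℕ),
      {N : ℕ | ((Bad E k t N).card : ℝ) ≤ ε * (EN E N).card}) ∈ hyperfilter ℕ := by
    apply univ_mem'
    intro N
    obtain ⟨t, ht, h1⟩ := hN N
    simp only [Set.mem_ofPred_eq, Set.mem_iUnion]
    exact ⟨t, ht, h1⟩
  rw [Ultrafilter.finite_biUnion_mem_iff (Finset.finite_toSet _)] at this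
  obtain ⟨t, ht, h1⟩ := this
  refine ⟨t, ?_, h1⟩
  have := (Finset.mem_Ico.1 ht).1
  omega

theorem exists_seq (E : Set ℕ) (h : upperBanach E = 0) :
    ∃ t N : ℕ → ℕ, StrictMono N ∧ (∀ k, N k < t k) ∧
      ∀ j k, k ≤ j → ((Bad E k (t k) (N (j + 1))).card : ℝ) ≤
        (1 / 4 * (1 / 2) ^ k) * (EN E (N (j + 1))).card := by
  let St := {p : ℕ × Set ℕ // p.2 ∈ hyperfilter ℕ}
  have step : ∀ (k : ℕ) (s : St), ∃ s' : St, ∃ t : ℕ, s.1.1 < t ∧ s.1.1 < s'.1.1 ∧
      s'.1.1 ∈ s'.1.2 ∧ s'.1.2 ⊆ s.1.2 ∧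
      s'.1.2 ⊆ {N : ℕ | ((Bad E k t N).card : ℝ) ≤ (1 / 4 * (1 / 2) ^ k) * (EN E N).card} := by
    intro k s
    obtain ⟨t, ht, hG⟩ := exists_good_ultra E h k s.1.1 (1 / 4 * (1 / 2) ^ k) (by positivity)
    have hG' := inter_mem s.2 hG
    have hbig : {N : ℕ | s.1.1 < N} ∈ hyperfilter ℕ := by
      apply hyperfilter_le_cofinite
      rw [Nat.cofinite_eq_atTop]
      exact eventually_gt_atTop _
    obtain ⟨N, hN1, hN2⟩ := (hyperfilter ℕ).nonempty_of_mem (inter_mem hG' hbig)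
    exact ⟨⟨(N, _), hG'⟩, t, ht, hN2, hN1, Set.inter_subset_left, Set.inter_subset_right⟩
  choose F τ hF using step
  let s : ℕ → St := fun n => Nat.rec ⟨(0, Set.univ), univ_mem⟩ (fun k s => F k s) n
  have hs : ∀ k, s (k + 1) = F k (s k) := fun k => rfl
  have hanti : ∀ j k, k ≤ j → (s j).1.2 ⊆ (s k).1.2 := by
    intro j k hkj
    induction j, hkj using Nat.le_induction with
    | base => exact subset_rfl
    | succ j _ ih => exact ((hF j (s j)).2.2.2.1).trans ih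
  refine ⟨fun k => τ k (s k), fun k => (s k).1.1, ?_, fun k => (hF k (s k)).1, ?_⟩
  · apply strictMono_nat_of_lt_succ
    intro k
    exact (hF k (s k)).2.1
  · intro j k hkj
    have h1 : (s (j + 1)).1.1 ∈ (s (j + 1)).1.2 := (hF j (s j)).2.2.1
    have h2 := hanti (j + 1) (k + 1) (by omega) h1
    exact (hF k (s k)).2.2.2.2 h2

theorem core (E : Set ℕ) (hE : E.Infinite) (h : upperBanach E = 0) :
    ∃ t : ℕ → ℕ, (∀ k, 0 < t k) ∧ ∃ A : Set ℕ, A ⊆ E ∧ 0 < relUpper E A ∧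
      ∀ k r : ℕ, t k ≤ r → r ≤ t k + k → (r : ℤ) ∉ diffSet A := by
  obtain ⟨t, N, hN, hNt, hbad⟩ := exists_seq E h
  refine ⟨t, fun k => lt_of_le_of_lt (Nat.zero_le _) (hNt k),
    {x | x ∈ E ∧ ∀ k, ¬ hit E k (t k) x}, fun x hx => hx.1, ?_, ?_⟩
  · set A : Set ℕ := {x | x ∈ E ∧ ∀ k, ¬ hit E k (t k) x} with hA
    have hb : IsBoundedUnder (· ≤ ·) atTop (fun N : ℕ =>
        ((A ∩ E ∩ Set.Icc 1 N).ncard : ℝ) / ((E ∩ Set.Icc 1 N).ncard : ℝ)) := by
      refine isBoundedUnder_of ⟨1, fun n => ?_⟩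
      apply div_le_one_of_le₀ _ (by positivity)
      have : (A ∩ E ∩ Set.Icc 1 n).ncard ≤ (E ∩ Set.Icc 1 n).ncard := by
        apply Set.ncard_le_ncard
        · intro x hx
          exact ⟨hx.1.2, hx.2⟩
        · exact (Set.finite_Icc _ _).inter_of_right _
      exact_mod_cast this
    refine lt_of_lt_of_le (show (0 : ℝ) < 1 / 2 by norm_num) ?_
    apply le_limsup_of_frequently_le _ hb
    rw [frequently_atTop]
    intro a
    obtain ⟨e, he, he0⟩ := hE.exists_gt 0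
    refine ⟨N (a + e + 1), le_trans (by omega : a ≤ a + e + 1) (hN.id_le (a + e + 1)), ?_⟩
    set n := N (a + e + 1) with hn
    have hen : e ≤ n := le_trans (by omega : e ≤ a + e + 1) (hN.id_le (a + e + 1))
    have hpos : 0 < (EN E n).card := Finset.card_pos.2 ⟨e, by
      rw [EN, Finset.mem_filter, Finset.mem_Icc]; exact ⟨⟨he0, hen⟩, he⟩⟩
    have hposr : (0 : ℝ) < (EN E n).card := by exact_mod_cast hpos
    set An := (Finset.Icc 1 n).filter (· ∈ A ∩ E) with hAn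
    have eA : (A ∩ E ∩ Set.Icc 1 n).ncard = An.card := by
      rw [hAn]; convert ncard_Icc (A ∩ E) 1 n
    rw [eA, ncard_Icc]
    change (1 / 2 : ℝ) ≤ _ / ((EN E n).card : ℝ)
    rw [le_div_iff₀ hposr]
    have hsub : EN E n ⊆ An ∪ (Finset.range (a + e + 1)).biUnion (fun k => Bad E k (t k) n) := by
      intro x hx
      have hx' := hx
      rw [EN, Finset.mem_filter] at hx'
      by_cases hxA : x ∈ A
      · exact Finset.mem_union_left _ (Finset.mem_filter.2 ⟨hx'.1, hxA, hx'.2⟩)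
      · apply Finset.mem_union_right
        have : ∃ k, hit E k (t k) x := by
          by_contra hcon
          push Not at hcon
          exact hxA ⟨hx'.2, hcon⟩
        obtain ⟨k, hk⟩ := this
        rw [Finset.mem_biUnion]
        refine ⟨k, ?_, Finset.mem_filter.2 ⟨hx, hk⟩⟩
        rw [Finset.mem_range]
        by_contra hcon
        push Not at hcon
        obtain ⟨y, _, r, r1, _, rfl⟩ := hk
        have h1 := hN.monotone hcon
        have h2 := hNt k
        have h3 := (Finset.mem_Icc.1 hx'.1).2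
        omega
    have h1 : (EN E n).card ≤ An.card + ∑ k ∈ Finset.range (a + e + 1), (Bad E k (t k) n).card :=
      (Finset.card_le_card hsub).trans ((Finset.card_union_le _ _).trans
        (Nat.add_le_add_left Finset.card_biUnion_le _))
    have h2 : ((EN E n).card : ℝ) ≤ An.card +
        ∑ k ∈ Finset.range (a + e + 1), ((Bad E k (t k) n).card : ℝ) := by exact_mod_cast h1
    have h3 : ∑ k ∈ Finset.range (a + e + 1), ((Bad E k (t k) n).card : ℝ) ≤
        ∑ k ∈ Finset.range (a + e + 1), (1 / 4 * (1 / 2) ^ k) * ((EN E n).card : ℝ) := by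
      apply Finset.sum_le_sum
      intro k hk
      exact hbad (a + e) k (by have := Finset.mem_range.1 hk; omega)
    rw [← Finset.sum_mul, ← Finset.mul_sum] at h3
    have h4 := sum_geometric_two_le (a + e + 1)
    have h5 : 1 / 4 * (∑ k ∈ Finset.range (a + e + 1), (1 / 2 : ℝ) ^ k) * ((EN E n).card : ℝ) ≤
        1 / 4 * 2 * ((EN E n).card : ℝ) := by
      apply mul_le_mul_of_nonneg_right _ hposr.le
      linarith
    linarith
  · rintro k r r1 r2 ⟨a, ha, b, hb, hab⟩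
    exact ha.2 k ⟨b, hb.1, r, r1, r2, by omega⟩

theorem thick_intersective (t : ℕ → ℕ) :
    Intersective {n | 1 ≤ n} {r | ∃ k, t k ≤ r ∧ r ≤ t k + k} := by
  intro A hA hpos
  set R : Set ℕ := {r | ∃ k, t k ≤ r ∧ r ≤ t k + k} with hR
  let n : ℕ → ℕ := fun j => Nat.rec 0 (fun _ m => t m + m) j
  have hn : ∀ j, n (j + 1) = t (n j) + n j := fun j => rfl
  have hmono : Monotone n := monotone_nat_of_le_succ (fun j => by rw [hn]; omega)
  have hdiff : ∀ i j, i < j → n j - n i ∈ R := by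
    intro i j hij
    obtain ⟨j', rfl⟩ : ∃ j', j = j' + 1 := ⟨j - 1, by omega⟩
    have h1 : n i ≤ n j' := hmono (by omega)
    refine ⟨n j', ?_, ?_⟩ <;> rw [hn] <;> omega
  by_contra hcon
  push Not at hcon
  set δ := relUpper {n | 1 ≤ n} A with hδ
  have hcb : IsCoboundedUnder (· ≤ ·) atTop (fun N : ℕ =>
      ((A ∩ {n | 1 ≤ n} ∩ Set.Icc 1 N).ncard : ℝ) /
        ((({n | 1 ≤ n} : Set ℕ) ∩ Set.Icc 1 N).ncard : ℝ)) :=
    isCoboundedUnder_le_of_le _ (x := 0) (fun _ => by positivity)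
  have hfr := frequently_lt_of_lt_limsup hcb (show δ / 2 < relUpper {n | 1 ≤ n} A by linarith)
  obtain ⟨K, hK⟩ := exists_nat_gt (4 / δ)
  rw [frequently_atTop] at hfr
  obtain ⟨N, hN1, hN2⟩ := hfr (n K + 1)
  have e1 : (({n | 1 ≤ n} : Set ℕ) ∩ Set.Icc 1 N).ncard = N := by
    rw [Set.inter_eq_right.2 (fun x hx => hx.1), Set.ncard_Icc_nat]
    omega
  set AN := (Finset.Icc 1 N).filter (· ∈ A ∩ {n | 1 ≤ n}) with hAN
  have eA : (A ∩ {n | 1 ≤ n} ∩ Set.Icc 1 N).ncard = AN.card := by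
    rw [hAN]; convert ncard_Icc (A ∩ {n | 1 ≤ n}) 1 N
  rw [e1, eA] at hN2
  have hNr : (0 : ℝ) < N := by exact_mod_cast (show 0 < N by omega)
  rw [lt_div_iff₀ hNr] at hN2
  have hinj : (Finset.range K ×ˢ AN).card ≤ (Finset.Icc 1 (N + n K)).card := by
    apply Finset.card_le_card_of_injOn (fun p => p.2 + n p.1)
    · intro p hp
      rw [Finset.mem_coe, Finset.mem_product, Finset.mem_range, hAN, Finset.mem_filter,
        Finset.mem_Icc] at hp
      have := hmono hp.1.le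
      simp only [Finset.coe_Icc, Set.mem_Icc]
      omega
    · intro p hp q hq hpq
      rw [Finset.mem_coe, Finset.mem_product, Finset.mem_range, hAN, Finset.mem_filter] at hp hq
      simp only at hpq
      rcases lt_trichotomy p.1 q.1 with h | h | h
      · exfalso
        have h1 := hmono h.le
        exact hcon _ (hdiff _ _ h) ⟨p.2, hp.2.2.1, q.2, hq.2.2.1, by omega⟩
      · have : p.2 = q.2 := by rw [h] at hpq; omega
        exact Prod.ext h this
      · exfalso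
        have h1 := hmono h.le
        exact hcon _ (hdiff _ _ h) ⟨q.2, hq.2.2.1, p.2, hp.2.2.1, by omega⟩
  rw [Finset.card_product, Finset.card_range, Nat.card_Icc] at hinj
  have h2 : K * AN.card ≤ 2 * N := by omega
  have h3 : (K : ℝ) * AN.card ≤ 2 * N := by exact_mod_cast h2
  have h4 : 4 < K * δ := by rwa [div_lt_iff₀ hpos] at hK
  have hK0 : (0 : ℝ) < K := lt_trans (by positivity) hK
  have h5 : (K : ℝ) * (δ / 2 * N) < K * AN.card := mul_lt_mul_of_pos_left hN2 hK0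
  nlinarith

theorem not_syndetic (E : Set ℕ) (hE : E.Infinite) (h : upperBanach E = 0) :
    ∃ A : Set ℕ, A ⊆ E ∧ 0 < relUpper E A ∧ ¬ Syndetic (diffSet A) := by
  obtain ⟨t, _, A, hA, hpos, hR⟩ := core E hE h
  refine ⟨A, hA, hpos, ?_⟩
  rintro ⟨L, _, hL⟩
  obtain ⟨s, hs, h1, h2⟩ := hL (t L)
  obtain ⟨r, rfl⟩ : ∃ r : ℕ, s = r := ⟨s.toNat, by omega⟩
  exact hR L r (by omega) (by omega) hs

theorem not_rel_intersective (E : Set ℕ) (hE : E.Infinite) (h : upperBanach E = 0) :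
    ∃ R : Set ℕ, 0 ∉ R ∧ Intersective {n | 1 ≤ n} R ∧ ¬ Intersective E R := by
  obtain ⟨t, ht, A, hA, hpos, hR⟩ := core E hE h
  refine ⟨{r | ∃ k, t k ≤ r ∧ r ≤ t k + k}, ?_, thick_intersective t, ?_⟩
  · rintro ⟨k, h1, _⟩
    have := ht k
    omega
  · intro hI
    obtain ⟨r, ⟨k, h1, h2⟩, h3⟩ := hI A hA hpos
    exact hR k r h1 h2 h3

end Pool.Agent.H16.Inters
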