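import Mathlib

set_option autoImplicit false

namespace Pool.Agent.H16.IrrCover
open Finset

theorem avoid_one (p : ℕ) (hp : 0 < p) (B : ℕ → Finset ℤ) (hB : ∀ e, (B e).card < p) (E : ℕ) :
    ∃ x : ℤ, ∀ e, 1 ≤ e → e ≤ E → ∀ b ∈ B e, ¬ (p : ℤ) ^ e ∣ x - b := by
  induction E with
  | zero => exact ⟨0, fun e h1 h2 => by omega⟩
  | succ E ih =>
    obtain ⟨x, hx⟩ := ih
    have : ∃ t ∈ range p, ∀ b ∈ B (E + 1), ¬ (p : ℤ) ^ (E + 1) ∣ x + t * p ^ E - b := by
      by_contra hc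
      push Not at hc
      choose! f hf using hc
      have := card_le_card_of_injOn (s := range p) (t := B (E + 1)) f (fun t ht => (hf t ht).1) (by
        intro t ht t' ht' h
        have h1 := (hf t ht).2
        have h2 := (hf t' ht').2
        rw [h] at h1
        have h3 := h1.sub h2
        rw [show x + t * p ^ E - f t' - (x + t' * p ^ E - f t') = (p : ℤ) ^ E * (t - t') by ring,
          pow_succ, mul_dvd_mul_iff_left (by positivity)] at h3
        have h4 := mem_range.mp ht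
        have h5 := mem_range.mp ht'
        have := Int.eq_zero_of_abs_lt_dvd h3 (by rw [abs_lt]; omega)
        omega)
      have := hB (E + 1)
      simp at *
      omega
    obtain ⟨t, -, ht⟩ := this
    refine ⟨x + t * p ^ E, fun e h1 h2 b hb h => ?_⟩
    rcases Nat.lt_or_ge E e with h3 | h3
    · obtain rfl : e = E + 1 := by omega
      exact ht b hb h
    · refine hx e h1 h3 b hb ?_
      have := h.sub ((pow_dvd_pow (p : ℤ) h3).mul_left t)
      rwa [show x + t * p ^ E - b - t * p ^ E = x - b by ring] at this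

theorem cop {p q : ℕ} (hp : p.Prime) (hq : q.Prime) (h : p ≠ q) (a b : ℕ) :
    IsCoprime ((p : ℤ) ^ a) ((q : ℤ) ^ b) :=
  (Nat.isCoprime_iff_coprime.mpr ((Nat.coprime_primes hp hq).mpr h)).pow

theorem crt (P : Finset ℕ) (hP : ∀ p ∈ P, p.Prime) (E : ℕ → ℕ) (y : ℕ → ℤ) :
    ∃ x : ℤ, ∀ p ∈ P, (p : ℤ) ^ E p ∣ x - y p := by
  induction P using Finset.induction_on with
  | empty => exact ⟨0, by simp⟩
  | insert q P hq ih =>
    obtain ⟨x, hx⟩ := ih (fun p hp => hP p (mem_insert_of_mem hp))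
    obtain ⟨u, v, huv⟩ : IsCoprime (∏ p ∈ P, (p : ℤ) ^ E p) ((q : ℤ) ^ E q) :=
      IsCoprime.prod_left fun p hp => cop (hP p (mem_insert_of_mem hp)) (hP q (mem_insert_self _ _))
        (by rintro rfl; exact hq hp) _ _
    refine ⟨x + u * (∏ p ∈ P, (p : ℤ) ^ E p) * (y q - x), fun p hp => ?_⟩
    rcases mem_insert.mp hp with rfl | hp
    · exact ⟨v * (x - y p), by linear_combination (y p - x) * huv⟩
    · have := (hx p hp).add (((dvd_prod_of_mem (fun p : ℕ => (p : ℤ) ^ E p) hp).mul_left u).mul_right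
        (y q - x))
      rwa [show x - y p + u * (∏ p ∈ P, (p : ℤ) ^ E p) * (y q - x) =
        x + u * (∏ p ∈ P, (p : ℤ) ^ E p) * (y q - x) - y p by ring] at this

def primes (n : ℕ) : Finset ℕ := (range (n + 1)).filter Nat.Prime

def idx (n : ℕ) (E : ℕ → ℕ) : Finset (Σ _ : ℕ, ℕ × ℕ) :=
  (primes n).sigma fun p => Icc 1 (E p) ×ˢ Ico 1 p

def md (i : Σ _ : ℕ, ℕ × ℕ) : ℕ := i.1 ^ i.2.1 * i.2.2

def top (n : ℕ) (E : ℕ → ℕ) : ℕ := ∏ p ∈ primes n, p ^ E p

def sys (n : ℕ) (E : ℕ → ℕ) : Finset ℕ := insert (top n E) ((idx n E).image md)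

theorem mem_idx {n : ℕ} {E : ℕ → ℕ} {p e d : ℕ} : (⟨p, (e, d)⟩ : Σ _ : ℕ, ℕ × ℕ) ∈ idx n E ↔
    p ≤ n ∧ p.Prime ∧ 1 ≤ e ∧ e ≤ E p ∧ 1 ≤ d ∧ d < p := by
  simp [idx, primes, and_assoc]

theorem md_inj (n : ℕ) (E : ℕ → ℕ) : Set.InjOn md (idx n E) := by
  have key : ∀ p e d p' e' d' : ℕ, p.Prime → p'.Prime → 1 ≤ e' → 1 ≤ d → d < p →
      p ^ e * d = p' ^ e' * d' → p' ≤ p := by
    intro p e d p' e' d' hp hp' he' hd hdp h
    have : p' ∣ p ^ e * d := h ▸ (dvd_pow_self p' (by omega)).mul_right _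
    rcases (Nat.Prime.dvd_mul hp').mp this with h1 | h1
    · exact Nat.le_of_dvd hp.pos (hp'.dvd_of_dvd_pow h1)
    · exact (Nat.le_of_dvd hd h1).trans hdp.le
  have key2 : ∀ p e d e' d' : ℕ, p.Prime → 1 ≤ d → d < p → p ^ e * d = p ^ e' * d' → e' ≤ e := by
    intro p e d e' d' hp hd hdp h
    have h1 : p ^ e' ∣ p ^ e * d := h ▸ dvd_mul_right _ _
    have h2 : Nat.Coprime (p ^ e') d :=
      ((Nat.Prime.coprime_iff_not_dvd hp).mpr (Nat.not_dvd_of_pos_of_lt hd hdp)).pow_left _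
    exact (Nat.pow_dvd_pow_iff_le_right hp.one_lt).mp (h2.dvd_of_dvd_mul_right h1)
  rintro ⟨p, e, d⟩ h1 ⟨p', e', d'⟩ h2 h
  obtain ⟨-, a1, a2, -, a3, a4⟩ := mem_idx.mp h1
  obtain ⟨-, b1, b2, -, b3, b4⟩ := mem_idx.mp h2
  simp only [md] at h
  obtain rfl : p = p' := le_antisymm (key _ _ _ _ _ _ b1 a1 a2 b3 b4 h.symm) (key _ _ _ _ _ _ a1 b1 b2 a3 a4 h)
  obtain rfl : e = e' := le_antisymm (key2 _ _ _ _ _ a1 b3 b4 h.symm) (key2 _ _ _ _ _ a1 a3 a4 h)
  obtain rfl : d = d' := Nat.eq_of_mul_eq_mul_left (pow_pos a1.pos _) h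
  rfl

theorem pow_dvd_top {n : ℕ} {E : ℕ → ℕ} {p e : ℕ} (h1 : p ≤ n) (hp : p.Prime) (he : e ≤ E p) :
    p ^ e ∣ top n E :=
  (pow_dvd_pow p he).trans (dvd_prod_of_mem (fun p => p ^ E p)
    (by simp [primes, h1, hp]))

theorem top_notMem (n : ℕ) (E : ℕ → ℕ) (hn : 3 ≤ n) (hE : ∀ p, n ≤ E p) :
    top n E ∉ (idx n E).image md := by
  intro h
  obtain ⟨⟨p, e, d⟩, hi, h⟩ := mem_image.mp h
  obtain ⟨a0, a1, a2, -, a3, a4⟩ := mem_idx.mp hi
  simp only [md] at h
  by_cases h2 : p = 2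
  · subst h2
    obtain rfl : d = 1 := by omega
    have := pow_dvd_top (E := E) hn Nat.prime_three (e := 1) (by have := hE 3; omega)
    rw [← h, pow_one, mul_one] at this
    have := Nat.prime_three.dvd_of_dvd_pow this
    omega
  · have := pow_dvd_top (E := E) (by omega : 2 ≤ n) Nat.prime_two (hE 2)
    rw [← h] at this
    have h3 : Nat.Coprime (2 ^ n) (p ^ e) :=
      Nat.Coprime.pow _ _ ((Nat.coprime_primes Nat.prime_two a1).mpr (Ne.symm h2))
    have h4 := Nat.le_of_dvd a3 (h3.dvd_of_dvd_mul_left this)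
    have h5 : n < 2 ^ n := Nat.lt_two_pow_self
    omega

theorem covers (n : ℕ) (E : ℕ → ℕ) (hn : 3 ≤ n) (hE : ∀ p, n ≤ E p) :
    ∃ a : ℕ → ℤ, ∀ z : ℤ, ∃ s ∈ sys n E, z ≡ a s [ZMOD s] := by
  classical
  obtain ⟨a, ha0, ha⟩ : ∃ a : ℕ → ℤ, a (top n E) = 0 ∧
      ∀ i ∈ idx n E, a (md i) = (i.1 : ℤ) ^ (i.2.1 - 1) * i.2.2 := by
    refine ⟨fun s => if h : ∃ i ∈ idx n E, md i = s then
      (h.choose.1 : ℤ) ^ (h.choose.2.1 - 1) * h.choose.2.2 else 0, ?_, ?_⟩
    · exact dif_neg fun h => top_notMem n E hn hE (mem_image.mpr h)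
    · intro i hi
      have h : ∃ j ∈ idx n E, md j = md i := ⟨i, hi, rfl⟩
      simp only [dif_pos h]
      rw [md_inj n E h.choose_spec.1 hi h.choose_spec.2]
  refine ⟨a, fun z => ?_⟩
  by_cases hz : ∀ p ∈ primes n, (p : ℤ) ^ E p ∣ z
  · refine ⟨top n E, mem_insert_self _ _, ?_⟩
    rw [ha0, Int.modEq_zero_iff_dvd, top]
    push_cast
    refine Finset.prod_dvd_of_coprime ?_ hz
    intro p hp q hq hpq
    exact cop (mem_filter.mp hp).2 (mem_filter.mp hq).2 hpq _ _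
  have hex : ∃ p, p ∈ primes n ∧ ¬ (p : ℤ) ^ E p ∣ z := by simpa using hz
  obtain ⟨hp1, hp2⟩ := Nat.find_spec hex
  have hmin := fun q => Nat.find_min hex (m := q)
  set p := Nat.find hex
  have hp : p.Prime := (mem_filter.mp hp1).2
  have hpn : p ≤ n := Nat.lt_succ_iff.mp (mem_range.mp (mem_filter.mp hp1).1)
  have hex2 : ∃ e, ¬ (p : ℤ) ^ e ∣ z := ⟨_, hp2⟩
  have he1 := Nat.find_spec hex2
  have he2 : Nat.find hex2 ≤ E p := Nat.find_min' hex2 hp2
  have he3 := fun k => Nat.find_min hex2 (m := k)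
  set e := Nat.find hex2
  obtain ⟨f, hf⟩ : ∃ f, e = f + 1 := Nat.exists_eq_succ_of_ne_zero (by
    intro h0; rw [h0] at he1; simp at he1)
  obtain ⟨w, hw⟩ : (p : ℤ) ^ f ∣ z := not_not.mp (he3 f (by omega))
  have hp0 : (0 : ℤ) < p := by exact_mod_cast hp.pos
  obtain ⟨d, hd⟩ := Int.eq_ofNat_of_zero_le (Int.emod_nonneg w hp0.ne')
  have hdp : d < p := by have := Int.emod_lt_of_pos w hp0; omega
  have hwd : (p : ℤ) ∣ w - d := ⟨w / p, by rw [← hd]; linarith [Int.emod_add_mul_ediv w p]⟩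
  have hd1 : 1 ≤ d := by
    by_contra h0
    obtain rfl : d = 0 := by omega
    apply he1
    rw [hf, hw, pow_succ]
    exact mul_dvd_mul_left _ (by simpa using hwd)
  have hi : (⟨p, (e, d)⟩ : Σ _ : ℕ, ℕ × ℕ) ∈ idx n E := mem_idx.mpr ⟨hpn, hp, by omega, he2, hd1, hdp⟩
  refine ⟨md ⟨p, (e, d)⟩, mem_insert_of_mem (mem_image_of_mem _ hi), ?_⟩
  rw [ha _ hi]
  simp only [md, hf, Nat.add_sub_cancel]
  have hdz : (d : ℤ) ∣ z := by
    rw [← Int.natAbs_dvd_natAbs, Int.natAbs_natCast, Nat.dvd_iff_prime_pow_dvd_dvd]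
    intro q k hq hk
    rcases Nat.eq_zero_or_pos k with rfl | hk0
    · simp
    have h1 : q ^ k ≤ d := Nat.le_of_dvd hd1 hk
    have h2 : q ≤ q ^ k := Nat.le_self_pow hk0.ne' q
    have h3 : k < q ^ k := Nat.lt_pow_self hq.one_lt
    have h4 : (q : ℤ) ^ E q ∣ z := by
      by_contra h5
      exact hmin q (by omega) ⟨by simp [primes, hq]; omega, h5⟩
    have h5 := (pow_dvd_pow (q : ℤ) (show k ≤ E q by have := hE q; omega)).trans h4
    rw [← Int.natAbs_dvd_natAbs, Int.natAbs_pow, Int.natAbs_natCast] at h5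
    exact h5
  refine (Int.modEq_iff_dvd.mpr ?_).symm
  push_cast
  refine IsCoprime.mul_dvd ?_ ?_ (hdz.sub (dvd_mul_left _ _))
  · exact (Nat.isCoprime_iff_coprime.mpr ((Nat.Prime.coprime_iff_not_dvd hp).mpr
      (Nat.not_dvd_of_pos_of_lt hd1 hdp))).pow_left
  · rw [hw, ← mul_sub, pow_succ]
    exact mul_dvd_mul_left _ hwd

theorem not_covers (n : ℕ) (E : ℕ → ℕ) (s₀ : ℕ) (hs : s₀ ∈ sys n E) (a : ℕ → ℤ) :
    ∃ z : ℤ, ∀ s ∈ sys n E, s ≠ s₀ → ¬ z ≡ a s [ZMOD s] := by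
  let B : ℕ → ℕ → Finset ℤ := fun p e =>
    (Ico 1 p).image fun d => a (if p ^ e * d = s₀ then top n E else p ^ e * d)
  have h1 : ∀ p, ∃ x : ℤ, p.Prime → ∀ e, 1 ≤ e → e ≤ E p → ∀ b ∈ B p e, ¬ (p : ℤ) ^ e ∣ x - b := by
    intro p
    by_cases hp : p.Prime
    · obtain ⟨x, hx⟩ := avoid_one p hp.pos (B p) (fun e => card_image_le.trans_lt (by
        simp only [Nat.card_Ico]; have := hp.pos; omega)) (E p)
      exact ⟨x, fun _ => hx⟩
    · exact ⟨0, fun h => absurd h hp⟩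
  choose y hy using h1
  obtain ⟨z, hz⟩ := crt (primes n) (fun p hp => (mem_filter.mp hp).2) E y
  have key : ∀ p e d : ℕ, (⟨p, (e, d)⟩ : Σ _ : ℕ, ℕ × ℕ) ∈ idx n E → ∀ s, p ^ e ∣ s →
      s = (if p ^ e * d = s₀ then top n E else p ^ e * d) → ¬ z ≡ a s [ZMOD s] := by
    intro p e d hi s hd hs h
    obtain ⟨a0, a1, a2, a3, a4, a5⟩ := mem_idx.mp hi
    refine hy p a1 e a2 a3 (a s) (mem_image.mpr ⟨d, mem_Ico.mpr ⟨a4, a5⟩, by rw [← hs]⟩) ?_
    have h2 : (p : ℤ) ^ e ∣ z - a s := (by exact_mod_cast hd : (p : ℤ) ^ e ∣ (s : ℤ)).trans h.symm.dvd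
    have h3 := (pow_dvd_pow (p : ℤ) a3).trans (hz p (by simp [primes, a0, a1]))
    have := h2.sub h3
    rwa [show z - a s - (z - y p) = y p - a s by ring] at this
  refine ⟨z, fun s hs' hne => ?_⟩
  rcases mem_insert.mp hs' with rfl | hs'
  · rcases mem_insert.mp hs with rfl | hs
    · exact absurd rfl hne
    · obtain ⟨⟨p, e, d⟩, hi, h⟩ := mem_image.mp hs
      obtain ⟨a0, a1, a2, a3, a4, a5⟩ := mem_idx.mp hi
      exact key p e d hi _ (pow_dvd_top a0 a1 a3) (if_pos h).symm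
  · obtain ⟨⟨p, e, d⟩, hi, rfl⟩ := mem_image.mp hs'
    exact key p e d hi _ (dvd_mul_right _ _) (if_neg hne).symm

theorem one_lt_mem (n : ℕ) (E : ℕ → ℕ) (hn : 3 ≤ n) (hE : ∀ p, n ≤ E p) : ∀ s ∈ sys n E, 1 < s := by
  intro s hs
  rcases mem_insert.mp hs with rfl | hs
  · have h1 := pow_dvd_top (E := E) (by omega : 2 ≤ n) Nat.prime_two (e := 1) (by have := hE 2; omega)
    have h2 : 0 < top n E := prod_pos fun p hp => pow_pos (mem_filter.mp hp).2.pos _
    have := Nat.le_of_dvd h2 h1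
    omega
  · obtain ⟨⟨p, e, d⟩, hi, rfl⟩ := mem_image.mp hs
    obtain ⟨a0, a1, a2, a3, a4, a5⟩ := mem_idx.mp hi
    have : 1 < p ^ e := Nat.one_lt_pow (by omega) a1.one_lt
    simp only [md]
    nlinarith

theorem card_sys (n : ℕ) (E : ℕ → ℕ) (hn : 3 ≤ n) (hE : ∀ p, n ≤ E p) :
    (sys n E).card = ∑ p ∈ primes n, E p * (p - 1) + 1 := by
  rw [sys, card_insert_of_notMem (top_notMem n E hn hE), card_image_of_injOn (md_inj n E), idx,
    card_sigma]
  simp

theorem mertens_lower (n : ℕ) (hn : 1 ≤ n) :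
    (Real.log n - 1) / 2 ≤ ∑ p ∈ primes n, Real.log p / p := by
  have hn0 : (0 : ℝ) < n := by exact_mod_cast hn
  have hf : (0 : ℝ) < (n.factorial : ℝ) := by exact_mod_cast n.factorial_pos
  have h1 : n * Real.log n - n ≤ Real.log n.factorial := by
    have := Real.log_le_log (by positivity) (Real.pow_div_factorial_le_exp (n : ℝ) hn0.le n)
    rw [Real.log_div (by positivity) hf.ne', Real.log_pow, Real.log_exp] at this
    linarith
  have h2 : Real.log n.factorial ≤ ∑ p ∈ primes n, 2 * n * (Real.log p / p) := by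
    have hpf : n.factorial.primeFactors = primes n := by
      ext p
      simp only [Nat.mem_primeFactors, primes, mem_filter, mem_range, Nat.lt_succ_iff]
      exact ⟨fun h => ⟨h.1.dvd_factorial.mp h.2.1, h.1⟩,
        fun h => ⟨h.2, h.2.dvd_factorial.mpr h.1, n.factorial_ne_zero⟩⟩
    rw [Real.log_nat_eq_sum_factorization, Finsupp.sum, Nat.support_factorization, hpf]
    refine sum_le_sum fun p hp => ?_
    have hp : p.Prime := (mem_filter.mp hp).2
    haveI := Fact.mk hp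
    have h3 : (p - 1) * n.factorial.factorization p ≤ n := by
      rw [Nat.factorization_def _ hp, sub_one_mul_padicValNat_factorial]
      exact Nat.sub_le _ _
    have h4 : p * n.factorial.factorization p ≤ 2 * n := by
      have := hp.two_le
      calc p * n.factorial.factorization p ≤ 2 * (p - 1) * n.factorial.factorization p :=
            Nat.mul_le_mul_right _ (by omega)
        _ ≤ 2 * n := by rw [mul_assoc]; omega
    have h5 : (p : ℝ) * n.factorial.factorization p ≤ 2 * n := by exact_mod_cast h4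
    have hp0 : (0 : ℝ) < p := by exact_mod_cast hp.pos
    have h6 := Real.log_natCast_nonneg p
    rw [← mul_div_assoc, le_div_iff₀ hp0]
    nlinarith
  rw [← mul_sum] at h2
  have h3 : (n : ℝ) * ((Real.log n - 1) / 2) ≤ n * ∑ p ∈ primes n, Real.log p / p := by linarith
  exact le_of_mul_le_mul_left h3 hn0

theorem harm_eq (m : ℕ) : ∑ d ∈ Ico 1 (m + 1), (1 : ℝ) / d = harmonic m := by
  rw [harmonic_eq_sum_Icc]
  push_cast
  simp only [one_div]
  rfl

theorem sum_sys (n : ℕ) (E : ℕ → ℕ) (hn : 3 ≤ n) (hE : ∀ p, n ≤ E p) :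
    (Real.log n - 1) / 2 ≤ ∑ s ∈ sys n E, (1 : ℝ) / s := by
  refine (mertens_lower n (by omega)).trans ?_
  rw [sys, sum_insert (top_notMem n E hn hE), sum_image (md_inj n E), idx, sum_sigma]
  refine le_add_of_nonneg_of_le (by positivity) (sum_le_sum fun p hp => ?_)
  have hp : p.Prime := (mem_filter.mp hp).2
  rw [sum_product]
  refine le_trans ?_ (single_le_sum (f := fun e => ∑ d ∈ Ico 1 p, (1 : ℝ) / (md ⟨p, (e, d)⟩ : ℕ))
    (fun e _ => by positivity) (a := 1) (mem_Icc.mpr ⟨le_rfl, by have := hE p; omega⟩))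
  obtain ⟨m, rfl⟩ : ∃ m, p = m + 1 := ⟨p - 1, by have := hp.pos; omega⟩
  have h1 := log_add_one_le_harmonic m
  rw [← harm_eq] at h1
  refine (div_le_div_of_nonneg_right h1 (by positivity)).trans (le_of_eq ?_)
  rw [sum_div]
  refine sum_congr rfl fun d _ => ?_
  simp only [md, pow_one]
  push_cast
  rw [div_div, mul_comm]

theorem sum_upper (S : Finset ℕ) (hS : ∀ n ∈ S, 1 < n) :
    ∑ s ∈ S, (1 : ℝ) / s ≤ 2 + Real.log S.card := by
  rcases Nat.eq_zero_or_pos S.card with h0 | h0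
  · rw [card_eq_zero.mp h0]; simp
  set k := S.card with hk
  have hk0 : (0 : ℝ) < k := by exact_mod_cast h0
  rw [← sum_filter_add_sum_filter_not S (fun s => s ≤ k)]
  have h1 : ∑ s ∈ S.filter (fun s => s ≤ k), (1 : ℝ) / s ≤ 1 + Real.log k := by
    refine le_trans ?_ (harmonic_le_one_add_log k)
    rw [← harm_eq]
    refine sum_le_sum_of_subset_of_nonneg (fun s hs => ?_) (fun _ _ _ => by positivity)
    obtain ⟨a, b⟩ := mem_filter.mp hs
    have := hS s a
    exact mem_Ico.mpr ⟨by omega, by omega⟩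
  have h2 : ∑ s ∈ S.filter (fun s => ¬ s ≤ k), (1 : ℝ) / s ≤ 1 := by
    refine (sum_le_card_nsmul _ _ (1 / (k : ℝ)) fun s hs => ?_).trans ?_
    · have : k ≤ s := by have := (mem_filter.mp hs).2; omega
      exact one_div_le_one_div_of_le hk0 (by exact_mod_cast this)
    · have : ((S.filter (fun s => ¬ s ≤ k)).card : ℝ) ≤ k := by exact_mod_cast card_filter_le _ _
      rw [nsmul_eq_mul, mul_one_div, div_le_one hk0]
      exact this
  linarith

theorem exists_sys (k : ℕ) (hk : 512 ≤ k) : ∃ n E, 3 ≤ n ∧ (∀ p, n ≤ E p) ∧ (sys n E).card = k ∧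
    Real.log k / 24 ≤ (Real.log n - 1) / 2 := by
  obtain ⟨n, h1, h2⟩ : ∃ n, n ^ 3 ≤ k ∧ k < (n + 1) ^ 3 :=
    ⟨Nat.nthRoot 3 k, Nat.pow_nthRoot_le (by simp), Nat.lt_pow_nthRoot_add_one (by simp) k⟩
  have h8 : 8 ≤ n := by
    by_contra h
    have : (n + 1) ^ 3 ≤ 8 ^ 3 := Nat.pow_le_pow_left (by omega) 3
    omega
  have hb : ∑ p ∈ primes n, n * (p - 1) + 1 ≤ k := by
    have h3 : ∑ p ∈ primes n, n * (p - 1) ≤ (primes n).card * (n * (n - 1)) := by
      refine sum_le_card_nsmul _ _ _ fun p hp => Nat.mul_le_mul_left _ ?_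
      have := mem_range.mp (mem_filter.mp hp).1
      omega
    have h4 : (primes n).card ≤ n := by
      have : primes n ⊆ Icc 1 n := fun p hp => by
        have := mem_range.mp (mem_filter.mp hp).1
        have := (mem_filter.mp hp).2.pos
        exact mem_Icc.mpr ⟨by omega, by omega⟩
      simpa using card_le_card this
    have h5 := Nat.mul_le_mul_right (n * (n - 1)) h4
    obtain ⟨m, rfl⟩ : ∃ m, n = m + 1 := ⟨n - 1, by omega⟩
    simp only [Nat.add_sub_cancel] at *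
    nlinarith
  refine ⟨n, fun p => n + if p = 2 then k - (∑ p ∈ primes n, n * (p - 1) + 1) else 0, by omega,
    fun p => Nat.le_add_right _ _, ?_, ?_⟩
  · rw [card_sys _ _ (by omega) (fun p => Nat.le_add_right _ _)]
    simp only [add_mul, sum_add_distrib, ite_mul, zero_mul, sum_ite_eq']
    rw [if_pos (by simp [primes, Nat.prime_two]; omega)]
    omega
  · have h3 : (8 : ℝ) ≤ n := by exact_mod_cast h8
    have h4 : (k : ℝ) ≤ n ^ 4 := by
      have : (n + 1) ^ 3 ≤ n ^ 4 := by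
        calc (n + 1) ^ 3 ≤ (2 * n) ^ 3 := Nat.pow_le_pow_left (by omega) 3
          _ = 8 * n ^ 3 := by ring
          _ ≤ n * n ^ 3 := Nat.mul_le_mul_right _ h8
          _ = n ^ 4 := by ring
      exact_mod_cast h2.le.trans this
    have h5 := Real.log_le_log (by exact_mod_cast (by omega : 0 < k)) h4
    rw [Real.log_pow] at h5
    have h6 := Real.log_le_log (by norm_num) h3
    rw [show (8 : ℝ) = 2 ^ 3 by norm_num, Real.log_pow] at h6
    have h7 := Real.log_two_gt_d9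
    push_cast at h5 h6
    linarith

end Pool.Agent.H16.IrrCover
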