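import Mathlib

set_option autoImplicit false

namespace Pool.Agent.H16.Iso20

open Polynomial

/-- The polynomial `c₀ + c₁ x + … + c_{n-1} x^{n-1}` of a binary word. -/
noncomputable def toPoly {n : ℕ} (c : Fin n → ZMod 2) : (ZMod 2)[X] :=
  ∑ k : Fin n, C (c k) * X ^ (k : ℕ)

/-- The trinomial `x^n + x^i + 1` over the binary field. -/
noncomputable def tri (n i : ℕ) : (ZMod 2)[X] := X ^ n + X ^ i + 1

/-- The polycyclic code generated by `g`: the words whose class in `F₂[x]/(x^n + x^i + 1)`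
lies in the ideal generated by the class of `g`. -/
def code (n i : ℕ) (g : (ZMod 2)[X]) : Set (Fin n → ZMod 2) :=
  {c | Ideal.Quotient.mk (Ideal.span {tri n i}) (toPoly c) ∈
    Ideal.span {Ideal.Quotient.mk (Ideal.span {tri n i}) g}}

/-- The dual for the standard inner product. -/
def dual {n : ℕ} (K : Set (Fin n → ZMod 2)) : Set (Fin n → ZMod 2) :=
  {u | ∀ c ∈ K, ∑ k, u k * c k = 0}

/-- Some permutation of the coordinates maps the code onto its dual. -/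
def IsoDual {n : ℕ} (K : Set (Fin n → ZMod 2)) : Prop :=
  ∃ σ : Equiv.Perm (Fin n), (fun c => c ∘ σ) '' K = dual K

/-- `x^10 + x^9 + x^7 + x^6 + x^2 + x + 1`. -/
noncomputable def g0 : (ZMod 2)[X] := X ^ 10 + X ^ 9 + X ^ 7 + X ^ 6 + X ^ 2 + X + 1

theorem two_zero : (2 : (ZMod 2)[X]) = 0 := CharTwo.two_eq_zero

theorem g0_dvd : g0 ∣ tri 20 10 := by
  refine ⟨X ^ 10 + X ^ 9 + X ^ 8 + X ^ 4 + X ^ 3 + X + 1, ?_⟩
  unfold g0 tri
  linear_combination (-(1 * X ^ 1 + 1 * X ^ 2 + 1 * X ^ 3 + 1 * X ^ 4 + 1 * X ^ 5 + 1 * X ^ 6 + 1 * X ^ 7 + 1 * X ^ 8 + 2 * X ^ 9 + 3 * X ^ 10 + 2 * X ^ 11 + 1 * X ^ 12 + 1 * X ^ 13 + 1 * X ^ 14 + 1 * X ^ 15 + 1 * X ^ 16 + 1 * X ^ 17 + 1 * X ^ 18 + 1 * X ^ 19)) * two_zero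

theorem g0_monic : g0.Monic := by
  unfold g0
  monicity!

theorem g0_deg : g0.natDegree = 10 := by
  unfold g0
  compute_degree!

theorem g0_sq : g0 ^ 2 ≠ tri 20 10 := by
  intro h
  have h1 : g0 ^ 2 = X ^ 20 + X ^ 18 + X ^ 14 + X ^ 12 + X ^ 4 + X ^ 2 + 1 := by
    unfold g0
    simp only [CharTwo.add_sq]
    ring
  rw [h1] at h
  have h2 := congrArg (fun p => coeff p 2) h
  simp [tri, coeff_X_pow, coeff_one] at h2

def G : Fin 10 → Fin 20 → ZMod 2 :=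
  ![![1,1,1,0,0,0,1,1,0,1,1,0,0,0,0,0,0,0,0,0],
    ![0,1,1,1,0,0,0,1,1,0,1,1,0,0,0,0,0,0,0,0],
    ![0,0,1,1,1,0,0,0,1,1,0,1,1,0,0,0,0,0,0,0],
    ![0,0,0,1,1,1,0,0,0,1,1,0,1,1,0,0,0,0,0,0],
    ![0,0,0,0,1,1,1,0,0,0,1,1,0,1,1,0,0,0,0,0],
    ![0,0,0,0,0,1,1,1,0,0,0,1,1,0,1,1,0,0,0,0],
    ![0,0,0,0,0,0,1,1,1,0,0,0,1,1,0,1,1,0,0,0],
    ![0,0,0,0,0,0,0,1,1,1,0,0,0,1,1,0,1,1,0,0],
    ![0,0,0,0,0,0,0,0,1,1,1,0,0,0,1,1,0,1,1,0],
    ![0,0,0,0,0,0,0,0,0,1,1,1,0,0,0,1,1,0,1,1]]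

def A : Fin 10 → Fin 20 → ZMod 2 :=
  ![![1,0,0,0,0,0,0,0,0,0,0,0,0,0,0,0,0,0,0,0],
    ![1,1,0,0,0,0,0,0,0,0,0,0,0,0,0,0,0,0,0,0],
    ![0,1,1,0,0,0,0,0,0,0,0,0,0,0,0,0,0,0,0,0],
    ![1,0,1,1,0,0,0,0,0,0,0,0,0,0,0,0,0,0,0,0],
    ![1,1,0,1,1,0,0,0,0,0,0,0,0,0,0,0,0,0,0,0],
    ![0,1,1,0,1,1,0,0,0,0,0,0,0,0,0,0,0,0,0,0],
    ![0,0,1,1,0,1,1,0,0,0,0,0,0,0,0,0,0,0,0,0],
    ![0,0,0,1,1,0,1,1,0,0,0,0,0,0,0,0,0,0,0,0],
    ![1,0,0,0,1,1,0,1,1,0,0,0,0,0,0,0,0,0,0,0],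
    ![1,1,0,0,0,1,1,0,1,1,0,0,0,0,0,0,0,0,0,0]]

def B : Fin 20 → Fin 10 → ZMod 2 :=
  ![![0,0,0,0,0,0,0,0,0,0],
    ![0,0,0,0,0,0,0,0,0,0],
    ![0,0,0,0,0,0,0,0,0,0],
    ![0,0,0,0,0,0,0,0,0,0],
    ![0,0,0,0,0,0,0,0,0,0],
    ![0,0,0,0,0,0,0,0,0,0],
    ![0,0,0,0,0,0,0,0,0,0],
    ![0,0,0,0,0,0,0,0,0,0],
    ![0,0,0,0,0,0,0,0,0,0],
    ![0,0,0,0,0,0,0,0,0,0],
    ![1,1,0,1,1,0,0,0,1,1],
    ![0,1,1,0,1,1,0,0,0,1],
    ![0,0,1,1,0,1,1,0,0,0],
    ![0,0,0,1,1,0,1,1,0,0],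
    ![0,0,0,0,1,1,0,1,1,0],
    ![0,0,0,0,0,1,1,0,1,1],
    ![0,0,0,0,0,0,1,1,0,1],
    ![0,0,0,0,0,0,0,1,1,0],
    ![0,0,0,0,0,0,0,0,1,1],
    ![0,0,0,0,0,0,0,0,0,1]]

def sg : Equiv.Perm (Fin 20) := Equiv.addRight 10

theorem sg_sg : ∀ k, sg (sg k) = k := by decide +kernel

theorem orth : ∀ j l, ∑ k, G j (sg k) * G l k = 0 := by decide +kernel

theorem idn : ∀ k l : Fin 20, ∑ j, G j k * A j l + ∑ j, B k j * G j (sg l) =
    if k = l then 1 else 0 := by decide +kernel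

theorem coeff_toPoly {n : ℕ} (c : Fin n → ZMod 2) (k : Fin n) : (toPoly c).coeff k = c k := by
  unfold toPoly
  simp only [finset_sum_coeff, coeff_C_mul, coeff_X_pow, Fin.val_inj]
  rw [Finset.sum_eq_single k] <;> simp +contextual [eq_comm]

theorem toPoly_row (j : Fin 10) : toPoly (G j) = g0 * X ^ (j : ℕ) := by
  unfold toPoly g0
  fin_cases j <;> simp [G, Fin.sum_univ_succ] <;> ring

theorem toPoly_comb (a : Fin 10 → ZMod 2) :
    toPoly (fun k => ∑ j, a j * G j k) = g0 * toPoly a := by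
  have : toPoly (fun k => ∑ j, a j * G j k) = ∑ j, C (a j) * toPoly (G j) := by
    unfold toPoly
    simp only [map_sum, map_mul, Finset.sum_mul, Finset.mul_sum]
    rw [Finset.sum_comm]
    simp only [mul_assoc]
  rw [this]
  simp only [toPoly_row]
  unfold toPoly
  rw [Finset.mul_sum]
  exact Finset.sum_congr rfl fun j _ => by ring

theorem toPoly_deg {n : ℕ} (c : Fin n → ZMod 2) : (toPoly c).degree < n := by
  unfold toPoly
  exact degree_sum_fin_lt c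

theorem mem_code (c : Fin 20 → ZMod 2) :
    c ∈ code 20 10 g0 ↔ ∃ a : Fin 10 → ZMod 2, c = fun k => ∑ j, a j * G j k := by
  have h1 : c ∈ code 20 10 g0 ↔ g0 ∣ toPoly c := by
    unfold code
    rw [Set.mem_setOf_eq, Ideal.mem_span_singleton]
    constructor
    · rintro ⟨q, hq⟩
      obtain ⟨q, rfl⟩ := Ideal.Quotient.mk_surjective q
      rw [← map_mul, Ideal.Quotient.eq, Ideal.mem_span_singleton] at hq
      have := dvd_add (g0_dvd.trans hq) (dvd_mul_right g0 q)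
      simpa using this
    · rintro ⟨q, hq⟩
      exact ⟨_, by rw [hq, map_mul]⟩
  rw [h1]
  constructor
  · rintro ⟨q, hq⟩
    have hd : q.degree < 10 := by
      by_cases h0 : q = 0
      · subst h0; simp only [degree_zero]; exact WithBot.bot_lt_coe 10
      · have h2 := toPoly_deg c
        rw [hq, degree_mul, degree_eq_natDegree g0_monic.ne_zero, g0_deg,
          degree_eq_natDegree h0] at h2
        rw [degree_eq_natDegree h0]
        norm_cast at h2 ⊢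
        omega
    refine ⟨fun j => q.coeff j, ?_⟩
    have h3 : toPoly (fun j : Fin 10 => q.coeff j) = q := by
      ext k
      by_cases hk : k < 10
      · exact coeff_toPoly (fun j : Fin 10 => q.coeff j) ⟨k, hk⟩
      · have h4 : (10 : WithBot ℕ) ≤ k := by norm_cast; omega
        rw [coeff_eq_zero_of_degree_lt ((toPoly_deg _).trans_le h4),
          coeff_eq_zero_of_degree_lt (hd.trans_le h4)]
    funext k
    rw [← coeff_toPoly c k, hq, ← coeff_toPoly (fun k => ∑ j : Fin 10, q.coeff j * G j k) k,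
      toPoly_comb, h3]
  · rintro ⟨a, rfl⟩
    exact ⟨_, toPoly_comb a⟩

theorem mem_dual (u : Fin 20 → ZMod 2) :
    u ∈ dual (code 20 10 g0) ↔ ∀ j, ∑ k, u k * G j k = 0 := by
  constructor
  · intro h j
    refine h _ ((mem_code _).2 ⟨Pi.single j 1, ?_⟩)
    funext k
    rw [Finset.sum_eq_single j] <;> simp +contextual [Pi.single_apply]
  · intro h c hc
    obtain ⟨a, rfl⟩ := (mem_code c).1 hc
    simp only [Finset.mul_sum]
    rw [Finset.sum_comm]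
    refine Finset.sum_eq_zero fun j _ => ?_
    have : ∑ k, u k * (a j * G j k) = a j * ∑ k, u k * G j k := by
      rw [Finset.mul_sum]
      exact Finset.sum_congr rfl fun k _ => by ring
    rw [this, h j, mul_zero]

theorem iso : IsoDual (code 20 10 g0) := by
  refine ⟨sg, ?_⟩
  ext u
  rw [mem_dual]
  constructor
  · rintro ⟨c, hc, rfl⟩ l
    obtain ⟨a, rfl⟩ := (mem_code c).1 hc
    simp only [Function.comp, Finset.sum_mul]
    rw [Finset.sum_comm]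
    refine Finset.sum_eq_zero fun j _ => ?_
    have : ∑ k, a j * G j (sg k) * G l k = a j * ∑ k, G j (sg k) * G l k := by
      rw [Finset.mul_sum]
      exact Finset.sum_congr rfl fun k _ => by ring
    rw [this, orth, mul_zero]
  · intro h
    refine ⟨u ∘ sg, (mem_code _).2 ⟨fun j => ∑ l, A j l * u (sg l), ?_⟩, ?_⟩
    · funext k
      have h1 : ∀ j, ∑ l, G j (sg l) * u (sg l) = 0 := fun j => by
        rw [Equiv.sum_comp sg (fun l => G j l * u l), ← h j]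
        exact Finset.sum_congr rfl fun k _ => by ring
      have h2 : u (sg k) = ∑ l, (if k = l then 1 else 0) * u (sg l) := by simp
      have h3 : ∑ l, (∑ j, B k j * G j (sg l)) * u (sg l) = 0 := by
        simp only [Finset.sum_mul]
        rw [Finset.sum_comm]
        refine Finset.sum_eq_zero fun j _ => ?_
        simp only [mul_assoc]
        rw [← Finset.mul_sum, h1, mul_zero]
      simp only [Function.comp]
      rw [h2]
      simp only [← idn, add_mul, Finset.sum_add_distrib, h3, add_zero]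
      simp only [Finset.sum_mul]
      rw [Finset.sum_comm]
      exact Finset.sum_congr rfl fun j _ => Finset.sum_congr rfl fun l _ => by ring
    · funext k
      simp [sg_sg]

end Pool.Agent.H16.Iso20
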