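import Mathlib

set_option autoImplicit false

namespace Pool.Agent.H16.JG
open Classical Relation

variable {T N : Type}

abbrev Ru (T N : Type) := List (Symbol T N) × List (Symbol T N)

def JS (P : Set (Ru T N)) (x y : List (Symbol T N)) : Prop :=
  ∃ r ∈ P, ∃ (u v u' v' : List (Symbol T N)),
    x = u ++ r.1 ++ v ∧ y = u' ++ r.2 ++ v' ∧ u ++ v = u' ++ v'

def Lg (P : Set (Ru T N)) (S : N) : Set (List T) :=
  {w | ReflTransGen (JS P) [.nonterminal S] (w.map .terminal)}

instance [Finite T] [Finite N] : Finite (Symbol T N) := by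
  refine Finite.of_surjective (Sum.elim Symbol.terminal Symbol.nonterminal : T ⊕ N → _) fun z => ?_
  cases z with
  | terminal a => exact ⟨.inl a, rfl⟩
  | nonterminal a => exact ⟨.inr a, rfl⟩

theorem fin_of_len [Finite T] [Finite N] {P : Set (Ru T N)} (n : ℕ)
    (h : ∀ r ∈ P, r.1.length ≤ n ∧ r.2.length ≤ n) : P.Finite :=
  ((List.finite_length_le _ n).prod (List.finite_length_le _ n)).subset fun r hr => h r hr

def Mono (P : Set (Ru T N)) : Prop :=
  ∀ r ∈ P, r.1 ≠ [] ∧ r.1.length ≤ r.2.length ∧ ∀ a ∈ r.1, ∃ X, a = .nonterminal X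

def pj : Symbol T (Symbol T N) → Symbol T N
  | .terminal a => .terminal a
  | .nonterminal X => X

theorem layer0 [Finite T] [Finite N] {P : Set (Ru T N)} (hP : P.Finite)
    (h : ∀ r ∈ P, r.1 ≠ [] ∧ r.1.length ≤ r.2.length) (S : N) :
    ∃ (N' : Type) (_ : Finite N') (S' : N') (P' : Set (Ru T N')), P'.Finite ∧ Mono P' ∧
      Lg P' S' = Lg P S := by
  obtain ⟨n, hn⟩ := (hP.image fun r => r.2.length).bddAbove
  let P' : Set (Ru T (Symbol T N)) :=
    {r' | ∃ r ∈ P, r'.1 = r.1.map .nonterminal ∧ r'.2.map pj = r.2}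
  have e1 : ∀ x : List (Symbol T N), (x.map .nonterminal).map pj = x := by
    intro x; induction x <;> simp [*, pj]
  have e2 : ∀ w : List T, (w.map .terminal).map pj = (w.map .terminal : List (Symbol T N)) := by
    intro x; induction x <;> simp [*, pj]
  refine ⟨Symbol T N, inferInstance, .nonterminal S, P', fin_of_len n ?_, ?_, ?_⟩
  · rintro r' ⟨r, hr, h1, h2⟩
    have := hn ⟨r, hr, rfl⟩
    have := (h r hr).2
    have := congrArg List.length h2
    simp only [h1, List.length_map] at *
    omega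
  · rintro r' ⟨r, hr, h1, h2⟩
    have := (h r hr).2
    have := congrArg List.length h2
    refine ⟨by simp [h1, (h r hr).1], by simp only [h1, List.length_map] at *; omega, ?_⟩
    intro a ha
    rw [h1] at ha
    obtain ⟨X, _, rfl⟩ := List.mem_map.1 ha
    exact ⟨X, rfl⟩
  · ext w
    constructor
    · intro hw
      have := ReflTransGen.lift (p := JS P) (List.map pj) (by
        rintro _ _ ⟨r', ⟨r, hr, h1, h2⟩, u, v, u', v', rfl, rfl, e⟩
        exact ⟨r, hr, u.map pj, v.map pj, u'.map pj, v'.map pj, by simp only [List.map_append, h1, e1],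
          by simp only [List.map_append, h2], by simp only [← List.map_append, e]⟩) _ _ hw
      rw [Function.onFun, e2] at this
      exact this
    · intro hw
      have key : ∀ α, ReflTransGen (JS P) α (w.map .terminal) →
          ∃ α', α'.map pj = α ∧ ReflTransGen (JS P') α' (w.map .terminal) := by
        intro α hα
        induction hα using ReflTransGen.head_induction_on with
        | refl => exact ⟨_, e2 w, .refl⟩
        | head h1 _ ih =>
          obtain ⟨r, hr, u, v, u', v', rfl, rfl, e⟩ := h1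
          obtain ⟨β, h2, h3⟩ := ih
          obtain ⟨β1, v1, rfl, h4, rfl⟩ := List.map_eq_append_iff.1 h2
          obtain ⟨u1, y1, rfl, rfl, h5⟩ := List.map_eq_append_iff.1 h4
          obtain ⟨u2, v2, h6, rfl, rfl⟩ :=
            List.map_eq_append_iff.1 ((List.map_append.trans e.symm))
          refine ⟨u2 ++ r.1.map .nonterminal ++ v2, by simp only [List.map_append, e1],
            ReflTransGen.head ?_ h3⟩
          exact ⟨(r.1.map .nonterminal, y1), ⟨r, hr, rfl, h5⟩, u2, v2, u1, v1, rfl, rfl, h6.symm⟩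
      obtain ⟨α', h1, h2⟩ := key _ hw
      obtain ⟨a, rfl, h3⟩ := List.map_eq_singleton_iff.1 h1
      cases a with
      | terminal a => cases h3
      | nonterminal X => cases h3; exact h2

theorem uniq_split {α : Type} (p : α → Prop) {u v u1 v1 : List α} {a a1 : α}
    (h : u ++ a :: v = u1 ++ a1 :: v1) (h1 : p a1) (hu : ∀ c ∈ u, ¬ p c) (hv : ∀ c ∈ v, ¬ p c) :
    u = u1 ∧ a = a1 ∧ v = v1 := by
  rcases List.append_eq_append_iff.1 h with ⟨t, e1, e2⟩ | ⟨t, e1, e2⟩
  · cases t with
    | nil => simp at e1 e2; exact ⟨e1.symm, e2⟩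
    | cons b t =>
      simp at e2
      exact (hv a1 (by simp [e2.2]) h1).elim
  · cases t with
    | nil => simp at e1 e2; exact ⟨e1, e2.1.symm, e2.2.symm⟩
    | cons b t =>
      simp at e2
      exact (hu a1 (by simp [e1, e2.1]) h1).elim

theorem overlap {α : Type} {u y v u2 x v2 : List α} (hy : y ≠ []) (hx : x ≠ [])
    (h : u ++ y ++ v = u2 ++ x ++ v2) :
    (∃ m, u = u2 ++ x ++ m ∧ v2 = m ++ y ++ v) ∨ (∃ m, v = m ++ x ++ v2 ∧ u2 = u ++ y ++ m) ∨
    ∃ a X b a2 b2, y = a ++ X :: b ∧ x = a2 ++ X :: b2 ∧ u ++ a = u2 ++ a2 ∧ b ++ v = b2 ++ v2 := by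
  simp only [List.append_assoc] at h
  rcases List.append_eq_append_iff.1 h with ⟨t, e1, e2⟩ | ⟨t, e1, e2⟩
  · subst e1
    rcases List.append_eq_append_iff.1 e2 with ⟨s, e3, e4⟩ | ⟨s, e3, e4⟩
    · exact Or.inr (Or.inl ⟨s, by simp [e4], by simp [e3]⟩)
    · cases s with
      | nil => exact Or.inr (Or.inl ⟨[], by simpa using e4.symm, by simp [e3]⟩)
      | cons X s =>
        obtain ⟨X', x', rfl⟩ := List.exists_cons_of_ne_nil hx
        simp only [List.cons_append, List.cons.injEq] at e4
        obtain ⟨rfl, e4⟩ := e4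
        exact Or.inr (Or.inr ⟨t, X', s, [], x', e3, rfl, by simp, e4.symm⟩)
  · subst e1
    rcases List.append_eq_append_iff.1 e2 with ⟨s, e3, e4⟩ | ⟨s, e3, e4⟩
    · exact Or.inl ⟨s, by simp [e3], by simp [e4]⟩
    · cases s with
      | nil => exact Or.inl ⟨[], by simp [e3], by simpa using e4.symm⟩
      | cons X s =>
        obtain ⟨X', y', rfl⟩ := List.exists_cons_of_ne_nil hy
        simp only [List.cons_append, List.cons.injEq] at e4
        obtain ⟨rfl, e4⟩ := e4
        exact Or.inr (Or.inr ⟨[], X', y', t, s, rfl, e3, by simp, e4⟩)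

def spc (sp : N → Prop) (a : Symbol T N) : Prop := ∃ X, a = .nonterminal X ∧ sp X

def One (sp : N → Prop) (x : List (Symbol T N)) : Prop :=
  x.countP (fun a => decide (spc sp a)) ≤ 1

def Tok (sp : N → Prop) (P : Set (Ru T N)) : Prop :=
  ∀ r ∈ P, (∃ a ∈ r.1, spc sp a) ∧ One sp r.1 ∧ One sp r.2

theorem one_out {sp : N → Prop} {u x v : List (Symbol T N)} (h : One sp (u ++ x ++ v))
    (hx : ∃ a ∈ x, spc sp a) : ∀ a ∈ u ++ v, ¬ spc sp a := by
  obtain ⟨a, ha, ha'⟩ := hx
  have h1 : 0 < x.countP (fun a => decide (spc sp a)) :=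
    List.countP_pos_iff.2 ⟨a, ha, by simpa using ha'⟩
  simp only [One, List.countP_append] at h
  have h2 : (u ++ v).countP (fun a => decide (spc sp a)) = 0 := by
    rw [List.countP_append]; omega
  simpa using List.countP_eq_zero.1 h2

theorem one_in {sp : N → Prop} {u x v : List (Symbol T N)} (h : One sp x)
    (hx : ∀ a ∈ u ++ v, ¬ spc sp a) : One sp (u ++ x ++ v) := by
  have h2 : (u ++ v).countP (fun a => decide (spc sp a)) = 0 :=
    List.countP_eq_zero.2 (by simpa using hx)
  simp only [One, List.countP_append] at h h2 ⊢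
  omega

theorem one_reach {sp : N → Prop} {P : Set (Ru T N)} (hP : Tok sp P) {S : N}
    {α : List (Symbol T N)} (h : ReflTransGen (JS P) [.nonterminal S] α) : One sp α := by
  induction h with
  | refl => exact List.countP_le_length
  | tail _ h ih =>
    obtain ⟨r, hr, u, v, u', v', rfl, rfl, e⟩ := h
    exact one_in (hP r hr).2.2 (e ▸ one_out ih (hP r hr).1)

end Pool.Agent.H16.JG
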