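import Pool.Agent.H16.JG1

set_option autoImplicit false

namespace Pool.Agent.H16.JG
open Classical Relation

variable {T N : Type}

inductive NA (N τ : Type)
  | P (X : N) | Mk (X : N) | B (t : τ) | F

instance {τ : Type} [Finite N] [Finite τ] : Finite (NA N τ) := by
  let f : N ⊕ N ⊕ τ ⊕ Unit → NA N τ := fun z => match z with
    | .inl X => .P X
    | .inr (.inl X) => .Mk X
    | .inr (.inr (.inl t)) => .B t
    | .inr (.inr (.inr _)) => .F
  refine Finite.of_surjective f fun z => ?_
  cases z with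
  | P X => exact ⟨.inl X, rfl⟩
  | Mk X => exact ⟨.inr (.inl X), rfl⟩
  | B t => exact ⟨.inr (.inr (.inl t)), rfl⟩
  | F => exact ⟨.inr (.inr (.inr ())), rfl⟩

variable {P : Set (Ru T N)}

def up : Symbol T N → Symbol T (NA N P)
  | .terminal a => .terminal a
  | .nonterminal X => .nonterminal (.P X)

def dn (S : N) : Symbol T (NA N P) → Symbol T N
  | .terminal a => .terminal a
  | .nonterminal (.P X) => .nonterminal X
  | .nonterminal (.Mk X) => .nonterminal X
  | .nonterminal _ => .nonterminal S

def bb (r : P) : List (Symbol T (NA N P)) :=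
  .nonterminal (.B r) :: List.replicate (r.1.2.length - 1) (.nonterminal .F)

def mk (a : List (Symbol T N)) (X : N) (b : List (Symbol T N)) : List (Symbol T (NA N P)) :=
  a.map up ++ .nonterminal (.Mk X) :: b.map up

inductive RA (P : Set (Ru T N)) : List (Symbol T (NA N P)) → List (Symbol T (NA N P)) → Prop
  | r1 (r : P) (a X b) : r.1.1 = a ++ .nonterminal X :: b → RA P (mk a X b) (bb r)
  | r2 (r : P) : RA P (bb r) (bb r)
  | r3 (r : P) (a X b) : r.1.2 = a ++ .nonterminal X :: b → RA P (bb r) (mk a X b)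
  | r4 (r : P) : RA P (bb r) (r.1.2.map up)
  | r5 (r r' : P) : RA P (bb r ++ r'.1.1.map up) (r.1.2.map up ++ bb r')

def spA : NA N P → Prop
  | .Mk _ => True
  | .B _ => True
  | _ => False

def PA (P : Set (Ru T N)) : Set (Ru T (NA N P)) := {r | RA P r.1 r.2}

theorem dn_up (S : N) (x : List (Symbol T N)) : (x.map (up (P := P))).map (dn S) = x := by
  induction x with
  | nil => rfl
  | cons a x ih => cases a <;> simp_all [up, dn]

theorem dn_mk (S : N) (a X b) : (mk (P := P) a X b).map (dn S) = a ++ .nonterminal X :: b := by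
  simp only [mk, List.map_append, List.map_cons, dn_up, dn]

theorem up_t (w : List T) : (w.map .terminal).map (up (P := P)) = w.map .terminal := by
  induction w <;> simp_all [up]

theorem dn_t (S : N) (w : List T) :
    (w.map .terminal).map (dn (P := P) S) = w.map .terminal := by
  induction w <;> simp_all [dn]

theorem cnt_up (x : List (Symbol T N)) :
    (x.map (up (P := P))).countP (fun a => decide (spc spA a)) = 0 := by
  rw [List.countP_eq_zero]
  intro a ha
  obtain ⟨b, _, rfl⟩ := List.mem_map.1 ha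
  cases b <;> simp [up, spc, spA]

theorem cnt_bb (r : P) : (bb r).countP (fun a => decide (spc spA a)) = 1 := by
  simp [bb, spc, spA, List.countP_replicate]

theorem cnt_mk (a X b) : (mk (P := P) a X b).countP (fun a => decide (spc spA a)) = 1 := by
  simp only [mk, List.countP_append, List.countP_cons, cnt_up]
  simp [spc, spA]

theorem tokA : Tok spA (PA P) := by
  rintro ⟨x, y⟩ h
  have key : x.countP (fun a => decide (spc spA a)) = 1 ∧ One spA y := by
    simp only [PA, Set.mem_ofPred_eq] at h
    cases h <;> simp only [One, List.countP_append, cnt_up, cnt_bb, cnt_mk] <;> simp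
  refine ⟨?_, key.1.le, key.2⟩
  obtain ⟨a, h1, h2⟩ := List.countP_pos_iff.1 (key.1 ▸ Nat.one_pos :
    0 < x.countP (fun a => decide (spc spA a)))
  exact ⟨a, h1, of_decide_eq_true h2⟩

theorem len_bb (hP : Mono P) (r : P) : (bb r).length = r.1.2.length := by
  obtain ⟨h1, h2, _⟩ := hP r.1 r.2
  have := List.length_pos_iff.2 h1
  simp [bb]; omega

theorem len_mk (a X b) : (mk (P := P) a X b).length = (a ++ .nonterminal X :: b).length := by
  simp [mk]

theorem monoA (hP : Mono P) : Mono (PA P) := by
  have hb : ∀ r : P, ∀ a ∈ bb r, ∃ X, a = Symbol.nonterminal X := by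
    intro r a ha
    simp only [bb, List.mem_cons, List.mem_replicate] at ha
    rcases ha with rfl | ⟨_, rfl⟩ <;> exact ⟨_, rfl⟩
  have hu : ∀ x : List (Symbol T N), (∀ a ∈ x, ∃ X, a = Symbol.nonterminal X) →
      ∀ a ∈ x.map (up (P := P)), ∃ X, a = Symbol.nonterminal X := by
    intro x hx a ha
    obtain ⟨b, hb, rfl⟩ := List.mem_map.1 ha
    obtain ⟨X, rfl⟩ := hx b hb
    exact ⟨_, rfl⟩
  rintro ⟨x, y⟩ h
  simp only [PA, Set.mem_ofPred_eq] at h
  cases h with
  | r1 r a X b e =>
    obtain ⟨h1, h2, h3⟩ := hP r.1 r.2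
    refine ⟨by simp [mk], by simp only [len_mk, len_bb hP, ← e]; exact h2, ?_⟩
    intro c hc
    simp only [mk, List.mem_append, List.mem_cons] at hc
    rcases hc with hc | rfl | hc
    · exact hu a (fun c hc => h3 c (by simp [e, hc])) c hc
    · exact ⟨_, rfl⟩
    · exact hu b (fun c hc => h3 c (by simp [e, hc])) c hc
  | r2 r => exact ⟨by simp [bb], le_rfl, hb r⟩
  | r3 r a X b e => exact ⟨by simp [bb], by simp only [len_mk, len_bb hP, ← e]; rfl, hb r⟩
  | r4 r => exact ⟨by simp [bb], by simp [len_bb hP], hb r⟩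
  | r5 r r' =>
    obtain ⟨h1, h2, h3⟩ := hP r'.1 r'.2
    refine ⟨by simp [bb], by simp [len_bb hP, h2], ?_⟩
    intro c hc
    rcases List.mem_append.1 hc with hc | hc
    · exact hb r c hc
    · exact hu _ h3 c hc

theorem finA [Finite T] [Finite N] (hf : P.Finite) (hP : Mono P) : (PA P).Finite := by
  have := hf.to_subtype
  obtain ⟨n, hn⟩ := (hf.image fun r => r.2.length).bddAbove
  have h1 : ∀ r : P, r.1.2.length ≤ n := fun r => hn ⟨r.1, r.2, rfl⟩
  refine fin_of_len (n + n) fun r hr => ?_
  have h2 := (monoA hP r hr).2.1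
  suffices r.2.length ≤ n + n by omega
  obtain ⟨x, y⟩ := r
  simp only [PA, Set.mem_ofPred_eq] at hr
  cases hr with
  | r1 r a X b e => have := h1 r; simp only [len_bb hP]; omega
  | r2 r => have := h1 r; simp only [len_bb hP]; omega
  | r3 r a X b e => have := h1 r; simp only [len_mk, ← e]; omega
  | r4 r => have := h1 r; simp; omega
  | r5 r r' => have := h1 r; have := h1 r'; simp [len_bb hP]; omega

def isB (a : Symbol T (NA N P)) : Prop := ∃ t, a = .nonterminal (.B t)

theorem nb_up (x : List (Symbol T N)) : ∀ a ∈ x.map (up (P := P)), ¬ isB a := by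
  intro a ha
  obtain ⟨b, _, rfl⟩ := List.mem_map.1 ha
  cases b <;> simp [up, isB]

theorem nb_mk (a X b) : ∀ c ∈ mk (P := P) a X b, ¬ isB c := by
  intro c hc
  simp only [mk, List.mem_append, List.mem_cons] at hc
  rcases hc with hc | rfl | hc
  · exact nb_up _ c hc
  · simp [isB]
  · exact nb_up _ c hc

theorem spB (t : P) : spc spA (.nonterminal (.B t) : Symbol T (NA N P)) := ⟨.B t, rfl, trivial⟩

def IA (S : N) (α : List (Symbol T (NA N P))) : Prop :=
  ((∀ a ∈ α, ¬ isB a) ∧ ReflTransGen (JS P) [.nonterminal S] (α.map (dn S))) ∨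
  ∃ (r : P) (u v : List (Symbol T (NA N P))), α = u ++ bb r ++ v ∧
    ∀ u' v', u' ++ v' = (u ++ v).map (dn S) → ReflTransGen (JS P) [.nonterminal S] (u' ++ r.1.2 ++ v')

theorem soundA (S : N) {α : List (Symbol T (NA N P))}
    (h : ReflTransGen (JS (PA P)) [.nonterminal (.Mk S)] α) : IA S α := by
  induction h with
  | refl => exact Or.inl ⟨by simp [isB], .refl⟩
  | tail h0 h ih =>
    have hone := one_reach tokA h0
    obtain ⟨⟨x, y⟩, hr, u1, v1, u2, v2, rfl, rfl, e⟩ := h
    have hout := one_out hone (tokA _ hr).1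
    have hnb : ∀ a ∈ u2 ++ v2, ¬ isB a := by
      rintro a ha ⟨t, rfl⟩
      exact hout _ (e ▸ ha) (spB t)
    have hall : ∀ z, (∀ a ∈ z, ¬ isB a) → ∀ a ∈ u2 ++ z ++ v2, ¬ isB a := by
      intro z hz a ha
      simp only [List.mem_append] at ha hnb
      rcases ha with (ha | ha) | ha
      · exact hnb a (Or.inl ha)
      · exact hz a ha
      · exact hnb a (Or.inr ha)
    have al : ∀ (r : P) t, u1 ++ x ++ v1 = u1 ++ bb r ++ t → ∀ u' v',
        u' ++ v' = (u1 ++ t).map (dn S) →
          ReflTransGen (JS P) [.nonterminal S] (u' ++ r.1.2 ++ v') := by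
      intro r t e1
      rcases ih with ⟨h1, _⟩ | ⟨r0, u, v, e2, h1⟩
      · exact (h1 (.nonterminal (.B r)) (by rw [e1]; simp [bb]) ⟨_, rfl⟩).elim
      · have h2 := one_out (e2 ▸ hone) (x := bb r0) ⟨_, by simp [bb], spB r0⟩
        rw [e1] at e2
        simp only [bb, List.append_assoc, List.cons_append] at e2
        obtain ⟨rfl, e3, e4⟩ := uniq_split isB e2.symm ⟨_, rfl⟩
          (by rintro _ hc ⟨t, rfl⟩; exact h2 _ (List.mem_append_left _ hc) (spB _))
          (by
            rintro _ hc ⟨t, rfl⟩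
            rcases List.mem_append.1 hc with hc | hc
            · simp at hc
            · exact h2 _ (List.mem_append_right _ hc) (spB _))
        cases e3
        rw [List.append_cancel_left e4] at h1
        exact h1
    simp only [PA, Set.mem_ofPred_eq] at hr
    cases hr with
    | r1 r a X b e1 =>
      rcases ih with ⟨h1, h2⟩ | ⟨r0, u, v, e2, h1⟩
      · refine Or.inr ⟨r, u2, v2, rfl, fun u' v' e3 => h2.tail ⟨r.1, r.2, u1.map (dn S),
          v1.map (dn S), u', v', by simp only [List.map_append, dn_mk, e1], rfl, ?_⟩⟩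
        rw [e3, ← e, List.map_append]
      · exfalso
        have : Symbol.nonterminal (NA.B r0) ∈ u1 ++ mk a X b ++ v1 := by
          simp only at e2
          rw [e2]; simp [bb]
        simp only [List.mem_append] at this hout
        rcases this with (h | h) | h
        · exact hout _ (Or.inl h) (spB _)
        · exact nb_mk _ _ _ _ h ⟨_, rfl⟩
        · exact hout _ (Or.inr h) (spB _)
    | r2 r => exact Or.inr ⟨r, u2, v2, rfl, e ▸ al r v1 rfl⟩
    | r3 r a X b e1 =>
      refine Or.inl ⟨hall _ (nb_mk _ _ _), ?_⟩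
      have := al r v1 rfl (u2.map (dn S)) (v2.map (dn S)) (by rw [e, List.map_append])
      simpa only [List.map_append, dn_mk, e1] using this
    | r4 r =>
      refine Or.inl ⟨hall _ (nb_up _), ?_⟩
      have := al r v1 rfl (u2.map (dn S)) (v2.map (dn S)) (by rw [e, List.map_append])
      simpa only [List.map_append, dn_up] using this
    | r5 r r' =>
      have h1 := al r (r'.1.1.map up ++ v1) (by simp)
      refine Or.inr ⟨r', u2 ++ r.1.2.map up, v2, by simp, fun u' v' e3 => ?_⟩
      simp only [List.map_append, dn_up] at h1 e3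
      rcases List.append_eq_append_iff.1 e with ⟨m, rfl, rfl⟩ | ⟨m, rfl, rfl⟩
      · refine (h1 (u1.map (dn S) ++ r'.1.1 ++ m.map (dn S)) (v2.map (dn S)) (by simp)).tail
          ⟨r'.1, r'.2, u1.map (dn S), m.map (dn S) ++ r.1.2 ++ v2.map (dn S), u', v', by simp,
            rfl, by simp [e3]⟩
      · refine (h1 (u2.map (dn S)) (m.map (dn S) ++ r'.1.1 ++ v1.map (dn S)) (by simp)).tail
          ⟨r'.1, r'.2, u2.map (dn S) ++ r.1.2 ++ m.map (dn S), v1.map (dn S), u', v', by simp,
            rfl, by simp [e3]⟩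

theorem compA (hP : Mono P) (w : List T) (β : List (Symbol T N))
    (h : ReflTransGen (JS P) β (w.map .terminal)) : ∀ (r : P) u' v', β = u' ++ r.1.2 ++ v' →
      ∀ u v, u ++ v = u' ++ v' →
        ReflTransGen (JS (PA P)) (u.map up ++ bb r ++ v.map up) (w.map .terminal) := by
  induction h using ReflTransGen.head_induction_on with
  | refl =>
    intro r u' v' e u v e1
    refine .single ⟨(_, _), RA.r4 r, _, _, u'.map up, v'.map up, rfl, ?_,
      by simp only [← List.map_append, e1]⟩
    simp only [← List.map_append, ← e, up_t]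
  | head h1 _ ih =>
    rintro r u' v' rfl u v e1
    obtain ⟨r2, hr2, u2, v2, u3, v3, e2, rfl, e3⟩ := h1
    have ih := ih ⟨r2, hr2⟩ u3 v3 rfl
    obtain ⟨h1, h2, h3⟩ := hP r.1 r.2
    obtain ⟨h4, h5, h6⟩ := hP r2 hr2
    have h7 : r.1.2 ≠ [] := by
      have := List.length_pos_iff.2 h1
      exact List.length_pos_iff.1 (by omega)
    rcases overlap h7 h4 e2 with ⟨m, rfl, rfl⟩ | ⟨m, rfl, rfl⟩ | ⟨a, X, b, a2, b2, e4, e5, e6, e7⟩
    · refine ReflTransGen.head (b := u2.map up ++ bb r ++ (r2.1 ++ m ++ v').map up)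
        ⟨(_, _), RA.r2 r, _, _, u2.map up, (r2.1 ++ m ++ v').map up, rfl, rfl,
        by simp only [← List.map_append, e1, List.append_assoc]⟩ (ReflTransGen.head ?_
          (ih (u2 ++ m ++ r.1.2) v' (by simp [← e3])))
      exact ⟨(_, _), RA.r5 r ⟨r2, hr2⟩, u2.map up, (m ++ v').map up, (u2 ++ m).map up, v'.map up,
        by simp, by simp, by simp⟩
    · refine ReflTransGen.head (b := (u' ++ m).map up ++ bb r ++ (r2.1 ++ v2).map up)
        ⟨(_, _), RA.r2 r, _, _, (u' ++ m).map up, (r2.1 ++ v2).map up, rfl,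
        rfl, by simp only [← List.map_append, e1, List.append_assoc]⟩ (ReflTransGen.head ?_
          (ih (u' ++ r.1.2) (m ++ v2) (by simp [← e3])))
      exact ⟨(_, _), RA.r5 r ⟨r2, hr2⟩, (u' ++ m).map up, v2.map up, u'.map up, (m ++ v2).map up,
        by simp, by simp, by simp⟩
    · obtain ⟨Y, rfl⟩ := h6 X (by simp [e5])
      refine ReflTransGen.head (b := u'.map up ++ mk a Y b ++ v'.map up)
        ⟨(_, _), RA.r3 r a Y b e4, _, _, u'.map up, v'.map up, rfl, rfl,
        by simp only [← List.map_append, e1]⟩ (ReflTransGen.head ?_ (ih u2 v2 e3))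
      refine ⟨(_, _), RA.r1 ⟨r2, hr2⟩ a2 Y b2 e5, u2.map up, v2.map up, _, _, ?_, rfl, rfl⟩
      have e8 := congrArg (List.map (up (P := P))) e6
      have e9 := congrArg (List.map (up (P := P))) e7
      simp only [List.map_append] at e8 e9
      simp only [mk, List.append_assoc, List.cons_append, e9]
      rw [← List.append_assoc, e8, List.append_assoc]

theorem layerA (hP : Mono P) (S : N) : Lg (PA P) (.Mk S) = Lg P S := by
  ext w
  constructor
  · intro h
    rcases soundA S h with ⟨_, h1⟩ | ⟨r, u, v, e, _⟩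
    · rw [dn_t] at h1; exact h1
    · have : Symbol.nonterminal (NA.B r) ∈ (w.map .terminal : List (Symbol T (NA N P))) := by
        rw [e]; simp [bb]
      simp at this
  · intro h
    rcases ReflTransGen.cases_head h with h | ⟨β, ⟨r, hr, u, v, u', v', e, rfl, e1⟩, h2⟩
    · cases w <;> simp at h
    · have h3 := List.length_pos_iff.2 (hP r hr).1
      have h4 := congrArg List.length e
      simp at h4
      have h5 : u = [] := List.length_eq_zero_iff.1 (by omega)
      have h6 : v = [] := List.length_eq_zero_iff.1 (by omega)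
      subst h5 h6
      exact ReflTransGen.head ⟨(_, _), RA.r1 ⟨r, hr⟩ [] S [] (by simpa using e.symm), [], [], [], [],
        rfl, rfl, rfl⟩ (compA hP w _ h2 ⟨r, hr⟩ u' v' rfl [] [] e1)

end Pool.Agent.H16.JG
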