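import Pool.Agent.H16.JG2

set_option autoImplicit false

namespace Pool.Agent.H16.JG
open Classical Relation

variable {T N : Type}

def CSf (r : Ru T N) : Prop :=
  ∃ (α β γ : List (Symbol T N)) (A : N), γ ≠ [] ∧
    r.1 = α ++ [Symbol.nonterminal A] ++ β ∧ r.2 = α ++ γ ++ β

abbrev NB (P : Set (Ru T N)) (n : ℕ) := N ⊕ (P × Fin (n + 1))

variable {P : Set (Ru T N)} {n : ℕ}

def u2 : Symbol T N → Symbol T (NB P n)
  | .terminal a => .terminal a
  | .nonterminal X => .nonterminal (.inl X)

def br (r : P) (j : ℕ) : Symbol T (NB P n) := .nonterminal (.inr (r, Fin.ofNat (n + 1) j))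

def Good (sp : N → Prop) (r : P) (j : ℕ) (a : Symbol T (NB P n)) : Prop :=
  (∃ b, a = u2 b ∧ ¬ spc sp b) ∨ a = br r j

def Valid (sp : N → Prop) (r : P) (z : List (Symbol T (NB P n))) : Prop :=
  z.length = r.1.2.length ∧ (∀ j a, z[j]? = some a → Good sp r j a) ∧ ∃ j, z[j]? = some (br r j)

def PB (sp : N → Prop) (P : Set (Ru T N)) (n : ℕ) : Set (Ru T (NB P n)) :=
  {p | CSf p ∧ ∃ r : P, (p.1 = r.1.1.map u2 ∨ Valid sp r p.1) ∧ (Valid sp r p.2 ∨ p.2 = r.1.2.map u2)}

theorem u2_inj : Function.Injective (u2 : Symbol T N → Symbol T (NB P n)) := by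
  intro a b h
  cases a <;> cases b <;> simp_all [u2]

theorem u2_ne (b : Symbol T N) (r : P) (j : ℕ) : (u2 b : Symbol T (NB P n)) ≠ br r j := by
  cases b <;> simp [u2, br]

theorem u2_t (w : List T) : (w.map .terminal).map (u2 (P := P) (n := n)) = w.map .terminal := by
  induction w <;> simp_all [u2]

def IB (sp : N → Prop) (S : N) (n : ℕ) (α : List (Symbol T (NB P n))) : Prop :=
  (∃ β, α = β.map u2 ∧ ReflTransGen (JS P) [.nonterminal S] β) ∨
  ∃ (r : P) (u v : List (Symbol T N)) (z : List (Symbol T (NB P n))),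
    α = u.map u2 ++ z ++ v.map u2 ∧ Valid sp r z ∧ (∀ a ∈ u ++ v, ¬ spc sp a) ∧
    ∀ u' v', u' ++ v' = u ++ v → ReflTransGen (JS P) [.nonterminal S] (u' ++ r.1.2 ++ v')

theorem align {sp : N → Prop} (hn : ∀ r ∈ P, r.2.length ≤ n) {r r1 : P} {u v : List (Symbol T N)}
    {z z1 u1 v1 : List (Symbol T (NB P n))} (e : u1 ++ z1 ++ v1 = u.map u2 ++ z ++ v.map u2)
    (h : Valid sp r z) (h1 : Valid sp r1 z1) : r1 = r ∧ u1 = u.map u2 ∧ v1 = v.map u2 := by
  obtain ⟨j, hj⟩ := h1.2.2
  have hj' : j < z1.length := by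
    by_contra hc
    rw [List.getElem?_eq_none (by omega)] at hj
    cases hj
  have h2 : (u.map u2 ++ z ++ v.map u2)[u1.length + j]? = some (br r1 j) := by
    rw [← e, List.getElem?_append_left (by simp; omega), List.getElem?_append_right (by omega), ← hj]
    congr 1; omega
  have h3 : ∀ x : List (Symbol T N), ∀ i : ℕ,
      (x.map u2)[i]? ≠ some (br r1 j : Symbol T (NB P n)) := by
    intro x i hi
    obtain ⟨b, _, hb⟩ := List.mem_map.1 (List.mem_of_getElem? hi)
    exact u2_ne _ _ _ hb
  by_cases h4 : u1.length + j < (u.map (u2 (P := P) (n := n)) ++ z).length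
  · rw [List.getElem?_append_left h4] at h2
    by_cases h5 : u1.length + j < (u.map (u2 (P := P) (n := n))).length
    · rw [List.getElem?_append_left h5] at h2
      exact (h3 _ _ h2).elim
    · rw [List.getElem?_append_right (by omega)] at h2
      rcases h.2.1 _ _ h2 with ⟨b, hb, _⟩ | hb
      · exact (u2_ne _ _ _ hb.symm).elim
      · simp only [br, Symbol.nonterminal.injEq, Sum.inr.injEq, Prod.mk.injEq] at hb
        obtain ⟨rfl, hb⟩ := hb
        have h6 := congrArg Fin.val hb
        have h7 := hn r1.1 r1.2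
        have h8 := h.1
        have h9 := h1.1
        simp only [List.length_append] at h4
        simp only [Fin.val_ofNat] at h6
        rw [Nat.mod_eq_of_lt (by omega), Nat.mod_eq_of_lt (by omega)] at h6
        obtain ⟨e1, e2⟩ := List.append_inj e (by simp only [List.length_append]; omega)
        exact ⟨rfl, (List.append_inj e1 (by omega)).1, e2⟩
  · rw [List.getElem?_append_right (by omega)] at h2
    exact (h3 _ _ h2).elim

theorem soundB {sp : N → Prop} (hT : Tok sp P) (hn : ∀ r ∈ P, r.2.length ≤ n) (S : N)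
    {α : List (Symbol T (NB P n))}
    (h : ReflTransGen (JS (PB sp P n)) [.nonterminal (.inl S)] α) : IB sp S n α := by
  induction h with
  | refl => exact Or.inl ⟨[.nonterminal S], rfl, .refl⟩
  | tail h0 h ih =>
    obtain ⟨⟨x, y⟩, ⟨_, r, hx, hy⟩, u1, v1, u3, v3, rfl, rfl, e⟩ := h
    simp only at *
    suffices key : ∃ u v : List (Symbol T N), u1 = u.map u2 ∧ v1 = v.map u2 ∧
        (∀ a ∈ u ++ v, ¬ spc sp a) ∧ ∀ u' v', u' ++ v' = u ++ v →
          ReflTransGen (JS P) [.nonterminal S] (u' ++ r.1.2 ++ v') by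
      obtain ⟨u, v, rfl, rfl, h1, h2⟩ := key
      obtain ⟨u', v', e1, rfl, rfl⟩ := List.map_eq_append_iff.1 (List.map_append.trans e)
      rcases hy with hy | rfl
      · exact Or.inr ⟨r, u', v', y, rfl, hy, e1 ▸ h1, e1 ▸ h2⟩
      · exact Or.inl ⟨u' ++ r.1.2 ++ v', by simp, h2 _ _ e1.symm⟩
    rcases ih with ⟨β, e1, h1⟩ | ⟨r0, u, v, z, e1, h1, h2, h3⟩
    · rcases hx with rfl | hx
      · obtain ⟨β1, v, rfl, e2, rfl⟩ := List.map_eq_append_iff.1 e1.symm
        obtain ⟨u, x', rfl, rfl, e3⟩ := List.map_eq_append_iff.1 e2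
        obtain rfl := (List.map_injective_iff.2 u2_inj) e3
        exact ⟨u, v, rfl, rfl, one_out (one_reach hT h1) (hT _ r.2).1,
          fun u' v' e4 => h1.tail ⟨r.1, r.2, u, v, u', v', rfl, rfl, e4.symm⟩⟩
      · obtain ⟨j, hj⟩ := hx.2.2
        have : br (n := n) r j ∈ β.map u2 := by
          rw [← e1]; simp [List.mem_of_getElem? hj]
        obtain ⟨b, _, hb⟩ := List.mem_map.1 this
        exact (u2_ne _ _ _ hb).elim
    · rcases hx with rfl | hx
      · exfalso
        obtain ⟨a, ha, ha'⟩ := (hT _ r.2).1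
        have : u2 a ∈ u.map u2 ++ z ++ v.map u2 := by
          rw [← e1]; simp only [List.mem_append]
          exact Or.inl (Or.inr (List.mem_map_of_mem ha))
        simp only [List.mem_append, List.mem_map_of_injective u2_inj] at this h2
        rcases this with (h | h) | h
        · exact h2 a (Or.inl h) ha'
        · obtain ⟨j, hj⟩ := List.getElem?_of_mem h
          rcases h1.2.1 _ _ hj with ⟨b, hb, hb'⟩ | hb
          · exact hb' (u2_inj hb ▸ ha')
          · exact u2_ne _ _ _ hb
        · exact h2 a (Or.inr h) ha'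
      · obtain ⟨rfl, rfl, rfl⟩ := align hn e1 h1 hx
        exact ⟨u, v, rfl, rfl, h2, h3⟩

theorem path {sp : N → Prop} {r : P} {z z' : List (Symbol T (NB P n))} (h : Valid sp r z)
    (h' : Valid sp r z') (j : ℕ) (hj : z[j]? = some (br r j)) (hj' : z'[j]? = some (br r j))
    (hz : ∀ a ∈ z, ∃ X, a = .nonterminal X) (u v : List (Symbol T (NB P n))) :
    ReflTransGen (JS (PB sp P n)) (u ++ z ++ v) (u ++ z' ++ v) := by
  have hl : z.length = z'.length := h.1.trans h'.1.symm
  have hg : ∀ t ≤ z.length, ∀ i : ℕ, (z'.take t ++ z.drop t)[i]? = if i < t then z'[i]? else z[i]? := by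
    intro t ht i
    split_ifs with hi
    · rw [List.getElem?_append_left (by simp; omega), List.getElem?_take_of_lt hi]
    · rw [List.getElem?_append_right (by simp; omega), List.getElem?_drop]
      congr 1; simp; omega
  have hv : ∀ t ≤ z.length, Valid sp r (z'.take t ++ z.drop t) := by
    intro t ht
    refine ⟨by rw [← h.1]; simp; omega, fun i a ha => ?_, j, ?_⟩
    · rw [hg t ht] at ha
      split_ifs at ha
      · exact h'.2.1 _ _ ha
      · exact h.2.1 _ _ ha
    · rw [hg t ht]; split_ifs <;> assumption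
  have key : ∀ t ≤ z.length, ReflTransGen (JS (PB sp P n)) (u ++ z ++ v)
      (u ++ (z'.take t ++ z.drop t) ++ v) := by
    intro t
    induction t with
    | zero => intro _; simpa using .refl
    | succ t ih =>
      intro ht
      refine (ih (by omega)).tail ⟨(_, _), ⟨?_, r, Or.inr (hv t (by omega)), Or.inl (hv _ ht)⟩,
        u, v, u, v, rfl, rfl, rfl⟩
      obtain ⟨X, hX⟩ := hz z[t] (List.getElem_mem _)
      refine ⟨z'.take t, z.drop (t + 1), [z'[t]'(by omega)], X, by simp, ?_, ?_⟩
      · simp only [← hX, List.append_assoc, List.singleton_append, List.getElem_cons_drop]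
      · simp only [List.take_append_getElem]
  have := key _ le_rfl
  rw [List.drop_length, hl, List.take_length, List.append_nil] at this
  exact this

theorem one_split {sp : N → Prop} {y : List (Symbol T N)} (h : One sp y) (hy : y ≠ []) :
    ∃ a c b, y = a ++ c :: b ∧ ∀ d ∈ a ++ b, ¬ spc sp d := by
  by_cases h1 : ∃ c ∈ y, spc sp c
  · obtain ⟨c, h1, h2⟩ := h1
    obtain ⟨a, b, rfl⟩ := List.append_of_mem h1
    exact ⟨a, c, b, rfl, one_out (x := [c]) (by simpa using h) ⟨c, by simp, h2⟩⟩
  · obtain ⟨c, b, rfl⟩ := List.exists_cons_of_ne_nil hy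
    exact ⟨[], c, b, rfl, fun d hd hd' => h1 ⟨d, by simp at hd; simp [hd], hd'⟩⟩

theorem valid_mid {sp : N → Prop} (r : P) (a b : List (Symbol T N)) (k : ℕ)
    (h : ∀ d ∈ a ++ b, ¬ spc sp d) (hl : a.length + (k + 1) + b.length = r.1.2.length) :
    Valid sp r (a.map u2 ++ (List.range (k + 1)).map (fun i => br r (a.length + i)) ++ b.map u2 :
      List (Symbol T (NB P n))) ∧
    (a.map u2 ++ (List.range (k + 1)).map (fun i => br r (a.length + i)) ++ b.map u2 :
      List (Symbol T (NB P n)))[a.length]? = some (br r a.length) := by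
  have h0 : (a.map u2 ++ (List.range (k + 1)).map (fun i => br r (a.length + i)) ++ b.map u2 :
      List (Symbol T (NB P n)))[a.length]? = some (br r a.length) := by
    rw [List.getElem?_append_left (by simp), List.getElem?_append_right (by simp)]
    simp
  refine ⟨⟨by simp; omega, fun j c hc => ?_, _, h0⟩, h0⟩
  by_cases h1 : j < a.length
  · rw [List.append_assoc, List.getElem?_append_left (by simpa using h1)] at hc
    obtain ⟨d, hd, rfl⟩ := List.mem_map.1 (List.mem_of_getElem? hc)
    exact Or.inl ⟨d, rfl, h d (by simp [hd])⟩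
  · by_cases h2 : j < a.length + (k + 1)
    · rw [List.getElem?_append_left (by simpa using h2),
        List.getElem?_append_right (by simpa using h1)] at hc
      simp only [List.length_map, List.getElem?_map, Option.map_eq_some_iff] at hc
      obtain ⟨i, hi, rfl⟩ := hc
      rw [List.getElem?_range (by omega)] at hi
      cases hi
      right; congr 1; omega
    · rw [List.getElem?_append_right (by simpa using h2)] at hc
      obtain ⟨d, hd, rfl⟩ := List.mem_map.1 (List.mem_of_getElem? hc)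
      exact Or.inl ⟨d, rfl, h d (by simp [hd])⟩

theorem compB {sp : N → Prop} (hT : Tok sp P) (hM : Mono P) {α β : List (Symbol T N)}
    (h : JS P α β) : ReflTransGen (JS (PB sp P n)) (α.map u2) (β.map u2) := by
  obtain ⟨r0, hr, u, v, u', v', rfl, rfl, e⟩ := h
  let r : P := ⟨r0, hr⟩
  obtain ⟨h1, h2, h3⟩ := hM r0 hr
  obtain ⟨_, h4, h5⟩ := hT r0 hr
  have h6 : r0.2 ≠ [] := by
    have := List.length_pos_iff.2 h1
    exact List.length_pos_iff.1 (by omega)
  obtain ⟨a, c, b, e1, h7⟩ := one_split h4 h1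
  obtain ⟨a', c', b', e2, h8⟩ := one_split h5 h6
  obtain ⟨X, rfl⟩ := h3 c (by simp [e1])
  have l1 := congrArg List.length e1
  have l2 := congrArg List.length e2
  simp only [List.length_append, List.length_cons] at l1 l2
  obtain ⟨v1, g1⟩ := valid_mid (n := n) r a b (r0.2.length - r0.1.length) h7 (by simp only [r]; omega)
  obtain ⟨v2, -⟩ := valid_mid (sp := sp) (n := n) r [] [] (r0.2.length - 1) (by simp)
    (by simp only [r]; simp; omega)
  obtain ⟨v3, g3⟩ := valid_mid (n := n) r a' b' 0 h8 (by simp only [r]; omega)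
  have g2 : ∀ j < r0.2.length, (List.map u2 [] ++ (List.range (r0.2.length - 1 + 1)).map
      (fun i => br r (([] : List (Symbol T N)).length + i)) ++ List.map u2 [] :
      List (Symbol T (NB P n)))[j]? = some (br r j) := by
    intro j hj
    simp only [List.map_nil, List.nil_append, List.append_nil, List.length_nil, Nat.zero_add,
      List.getElem?_map]
    rw [List.getElem?_range (by omega)]; rfl
  have p1 := path v1 v2 _ g1 (g2 _ (by omega)) (by
    intro d hd
    simp only [List.mem_append, List.mem_map] at hd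
    rcases hd with (⟨d, hd, rfl⟩ | ⟨d, hd, rfl⟩) | ⟨d, hd, rfl⟩
    · obtain ⟨Y, rfl⟩ := h3 d (by simp [e1, hd]); exact ⟨_, rfl⟩
    · exact ⟨_, rfl⟩
    · obtain ⟨Y, rfl⟩ := h3 d (by simp [e1, hd]); exact ⟨_, rfl⟩) (u.map u2) (v.map u2)
  have p2 := path v2 v3 _ (g2 _ (by omega)) g3 (by
    intro d hd
    simp only [List.map_nil, List.nil_append, List.append_nil, List.mem_map] at hd
    obtain ⟨d, hd, rfl⟩ := hd
    exact ⟨_, rfl⟩) (u.map u2) (v.map u2)
  refine (ReflTransGen.head ⟨(r0.1.map u2, _), ⟨?_, r, Or.inl rfl, Or.inl v1⟩, _, _, _, _,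
    by simp only [List.map_append], rfl, rfl⟩ (p1.trans p2)).tail
    ⟨(_, r0.2.map u2), ⟨?_, r, Or.inr v3, Or.inr rfl⟩, _, _, u'.map u2, v'.map u2, rfl,
      by simp only [List.map_append], by simp only [← List.map_append, e]⟩
  · exact ⟨a'.map u2, b'.map u2, [u2 c'], _, by simp, rfl, by simp [e2]⟩
  · refine ⟨a.map u2, b.map u2, _, .inl X, ?_, by simp [e1, u2], rfl⟩
    simp

theorem layerB {sp : N → Prop} (hT : Tok sp P) (hM : Mono P) (hn : ∀ r ∈ P, r.2.length ≤ n)
    (S : N) : Lg (PB sp P n) (.inl S) = Lg P S := by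
  ext w
  constructor
  · intro h
    rcases soundB hT hn S h with ⟨β, e, h1⟩ | ⟨r, u, v, z, e, h1, _⟩
    · rw [← u2_t] at e
      obtain rfl := (List.map_injective_iff.2 u2_inj) e
      exact h1
    · obtain ⟨j, hj⟩ := h1.2.2
      have : br r j ∈ (w.map .terminal : List (Symbol T (NB P n))) := by
        rw [e]; simp [List.mem_of_getElem? hj]
      simp [br] at this
  · intro h
    have := ReflTransGen.lift' (p := JS (PB sp P n)) (List.map u2) (fun _ _ h => compB hT hM h) _ _ h
    rw [Function.onFun, u2_t] at this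
    exact this

theorem main [Finite T] [Finite N] (hP : P.Finite)
    (h : ∀ r ∈ P, r.1 ≠ [] ∧ r.1.length ≤ r.2.length) (S : N) :
    ∃ (N' : Type) (_ : Finite N') (S' : N') (P' : Set (Ru T N')), P'.Finite ∧ (∀ r ∈ P', CSf r) ∧
      Lg P' S' = Lg P S := by
  obtain ⟨N0, _, S0, P0, f0, m0, e0⟩ := layer0 hP h S
  have := f0.to_subtype
  have f1 := finA f0 m0
  have := f1.to_subtype
  obtain ⟨n, hn⟩ := (f1.image fun r => r.2.length).bddAbove
  have hn' : ∀ r ∈ PA P0, r.2.length ≤ n := fun r hr => hn ⟨r, hr, rfl⟩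
  refine ⟨_, inferInstance, _, PB spA (PA P0) n, fin_of_len n ?_, fun r hr => hr.1,
    ((layerB tokA (monoA m0) hn' _).trans (layerA m0 S0)).trans e0⟩
  rintro p ⟨_, r, h1, h2⟩
  have h3 := hn' r.1 r.2
  have h4 := (monoA m0 r.1 r.2).2.1
  constructor
  · rcases h1 with h1 | h1
    · rw [h1, List.length_map]; omega
    · rw [h1.1]; exact h3
  · rcases h2 with h1 | h1
    · rw [h1.1]; exact h3
    · rw [h1, List.length_map]; omega

end Pool.Agent.H16.JG
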