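import Mathlib

set_option autoImplicit false

namespace Pool.Agent.H16.Jump

variable {V A T : Type}

/-- Utility of agent `i` when agent `j` sits at node `σ j` and has type `τ j`: the fraction of
agents on adjacent nodes whose type differs from that of `i` (zero if there is none). -/
noncomputable def util (G : SimpleGraph V) (τ : A → T) (σ : A → V) (i : A) : ℚ :=
  (Set.ncard {j | G.Adj (σ i) (σ j) ∧ τ j ≠ τ i} : ℚ) / (Set.ncard {j | G.Adj (σ i) (σ j)} : ℚ)

/-- `σ'` arises from `σ` by an improving jump of one agent to an empty node. -/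
def Step [DecidableEq A] (G : SimpleGraph V) (τ : A → T) (σ σ' : A → V) : Prop :=
  ∃ (i : A) (v : V), (∀ j, σ j ≠ v) ∧ σ' = Function.update σ i v ∧ util G τ σ i < util G τ σ' i

/-- No agent has an improving jump. -/
def Equil [DecidableEq A] (G : SimpleGraph V) (τ : A → T) (σ : A → V) : Prop :=
  ∀ σ', ¬ Step G τ σ σ'

/-- From every assignment some finite sequence of improving jumps ends in an equilibrium. -/
def WeaklyAcyclic [DecidableEq A] (G : SimpleGraph V) (τ : A → T) : Prop :=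
  ∀ σ : A → V, Function.Injective σ →
    ∃ σ', Relation.ReflTransGen (Step G τ) σ σ' ∧ Equil G τ σ'

def par : Fin 22 → Fin 22 := ![0, 0, 1, 1, 2, 0, 0, 0, 5, 1, 4, 0, 11, 3, 1, 9, 6, 6, 1, 14, 7, 18]

/-- The tree: every node other than `0` is joined to its parent. -/
def G0 : SimpleGraph (Fin 22) where
  Adj a b := a ≠ b ∧ (par a = b ∨ par b = a)
  symm := ⟨fun _ _ h => ⟨h.1.symm, h.2.symm⟩⟩
  loopless := ⟨fun _ h => h.1 rfl⟩

instance : DecidableRel G0.Adj := fun a b =>
  inferInstanceAs (Decidable (a ≠ b ∧ (par a = b ∨ par b = a)))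

theorem par_lt : ∀ a : Fin 22, a ≠ 0 → par a < a := by decide +kernel

theorem reach (a : Fin 22) : G0.Reachable a 0 := by
  induction a using WellFoundedLT.induction with
  | _ a ih =>
    by_cases h : a = 0
    · rw [h]
    · have := par_lt a h
      exact (SimpleGraph.Adj.reachable (G := G0) ⟨this.ne', Or.inl rfl⟩).trans (ih _ this)

theorem tree : G0.IsTree := by
  rw [SimpleGraph.isTree_iff_connected_and_card]
  refine ⟨⟨fun a b => (reach a).trans (reach b).symm⟩, ?_⟩
  have h := G0.sum_degrees_eq_twice_card_edges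
  have h2 : ∑ v, G0.degree v = 42 := by decide +kernel
  rw [Nat.card_eq_fintype_card, Nat.card_eq_fintype_card, ← SimpleGraph.edgeFinset_card,
    Fintype.card_fin]
  omega

def ty : Fin 21 → Fin 2 := ![1, 1, 0, 0, 0, 1, 0, 1, 0, 1, 0, 1, 1, 0, 1, 0, 0, 0, 1, 1, 1]

def asg (p q : Fin 22) : Fin 21 → Fin 22 := ![p, q, 3, 4, 5, 6, 7, 8, 9, 10, 11, 12, 13, 14, 15, 16, 17, 18, 19, 20, 21]

def ut (σ : Fin 21 → Fin 22) (i : Fin 21) : ℚ :=
  ((Finset.univ.filter fun j => G0.Adj (σ i) (σ j) ∧ ty j ≠ ty i).card : ℚ) /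
    ((Finset.univ.filter fun j => G0.Adj (σ i) (σ j)).card : ℚ)

theorem util_eq (σ : Fin 21 → Fin 22) (i : Fin 21) : util G0 ty σ i = ut σ i := by
  unfold util ut
  rw [← Set.ncard_coe_finset, ← Set.ncard_coe_finset]
  simp

def L : List (Fin 22 × Fin 22) := [(1, 2), (2, 1), (0, 1), (1, 0), (0, 2), (2, 0)]

theorem closed : ∀ x ∈ L, ∀ v : Fin 22, (∀ j, asg x.1 x.2 j ≠ v) → ∀ i : Fin 21,
    ut (asg x.1 x.2) i < ut (Function.update (asg x.1 x.2) i v) i →
      ∃ y ∈ L, Function.update (asg x.1 x.2) i v = asg y.1 y.2 := by decide +kernel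

theorem moves : ∀ x ∈ L, ∃ v : Fin 22, (∀ j, asg x.1 x.2 j ≠ v) ∧ ∃ i : Fin 21,
    ut (asg x.1 x.2) i < ut (Function.update (asg x.1 x.2) i v) i := by decide +kernel

theorem inj : Function.Injective (asg 1 2) := by decide +kernel

theorem surj : Function.Surjective ty := by decide +kernel

theorem notWA : ¬ WeaklyAcyclic G0 ty := by
  intro h
  obtain ⟨σ, hp, he⟩ := h _ inj
  have : ∃ x ∈ L, σ = asg x.1 x.2 := by
    clear he
    induction hp with
    | refl => exact ⟨(1, 2), by decide, rfl⟩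
    | tail _ hs ih =>
      obtain ⟨x, hx, rfl⟩ := ih
      obtain ⟨i, v, h1, rfl, h2⟩ := hs
      rw [util_eq, util_eq] at h2
      exact closed x hx v h1 i h2
  obtain ⟨x, hx, rfl⟩ := this
  obtain ⟨v, h1, i, h2⟩ := moves x hx
  exact he _ ⟨i, v, h1, rfl, by rw [util_eq, util_eq]; exact h2⟩

end Pool.Agent.H16.Jump
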