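import Mathlib

set_option autoImplicit false

namespace Pool.Agent.H16.KO

/-- The intersection of the kernels of all continuous homomorphisms into some `GL_n(ℂ)`. -/
def KO (G : Type*) [Group G] [TopologicalSpace G] : Subgroup G :=
  ⨅ (n : ℕ) (ρ : G →ₜ* GL (Fin n) ℂ), ρ.toMonoidHom.ker

end Pool.Agent.H16.KO
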