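import Mathlib
import Pool.Agent.H16.KODefs

set_option autoImplicit false

namespace Pool.Agent.H16.KO
open Finsupp

universe u
variable {A : Type u} [AddCommGroup A]

def D (A : Type u) := (A × ℕ →₀ ℤ) × (A × ℕ →₀ ℤ)

noncomputable instance : AddCommGroup (D A) := inferInstanceAs (AddCommGroup (_ × _))
instance : TopologicalSpace (D A) := ⊥
instance : DiscreteTopology (D A) := ⟨rfl⟩

noncomputable def b (x y : D A) : A := linearCombination ℤ Prod.fst (x.1 * y.2)

theorem b1 (x y z : D A) : b (x + y) z = b x z + b y z := by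
  rw [b, b, b, ← map_add, ← add_mul]; rfl
theorem b2 (x y z : D A) : b x (y + z) = b x y + b x z := by
  rw [b, b, b, ← map_add, ← mul_add]; rfl
theorem b3 (x : D A) : b 0 x = 0 := by simpa using b1 0 0 x
theorem b4 (x : D A) : b x 0 = 0 := by simpa using b2 x 0 0

def H (A : Type u) := A × D A

noncomputable instance : Mul (H A) := ⟨fun p q => (p.1 + q.1 + b p.2 q.2, p.2 + q.2)⟩
noncomputable instance : One (H A) := ⟨(0, 0)⟩
noncomputable instance : Inv (H A) := ⟨fun p => (-p.1 + b p.2 p.2, -p.2)⟩

theorem md (p q : H A) : p * q = (p.1 + q.1 + b p.2 q.2, p.2 + q.2) := rfl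

noncomputable instance : Group (H A) := Group.ofLeftAxioms
  (fun p q r => by simp only [md, b1, b2]; congr 1 <;> abel)
  (fun p => by rw [md]; exact Prod.ext (by simp [show (1 : H A) = (0, 0) from rfl, b3]) (zero_add _))
  (fun p => by
    rw [md]
    refine Prod.ext ?_ (neg_add_cancel _)
    have := b1 (-p.2) p.2 p.2
    rw [neg_add_cancel, b3] at this
    show -p.1 + b p.2 p.2 + p.1 + b (-p.2) p.2 = 0
    rw [this]; abel)

theorem ker {n : ℕ} (ρ : H A →* GL (Fin n) ℂ) (a : A) : ρ (a, 0) = 1 := by
  let X : ℕ → H A := fun i => (0, (single (a, i) 1, 0))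
  let Y : ℕ → H A := fun i => (0, (0, single (a, i) 1))
  have e : ∀ i k, X i * Y k = (show H A from (if i = k then a else 0, 0)) * (Y k * X i) := fun i k => by
    simp only [md, X, Y, b3]
    refine Prod.ext ?_ (by simp [add_comm])
    have z : (single (a, i) 1 * single (a, k) 1 : A × ℕ →₀ ℤ) = if i = k then single (a, k) 1 else 0 := by
      classical
      ext q; split_ifs <;> simp only [Finsupp.mul_apply, single_apply] <;> aesop
    simp only [b, z]
    split_ifs <;> simp
  obtain ⟨s, g, h, k, hk, h0⟩ := not_linearIndependent_iff.1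
    (Module.Finite.not_linearIndependent_of_infinite (R := ℂ) fun i => (ρ (X i)).val)
  have : ∑ i ∈ s, g i • ((ρ (X i * Y k)).val - (ρ (Y k * X i)).val) = 0 := by
    simp only [map_mul, Units.val_mul, smul_sub, Finset.sum_sub_distrib, ← smul_mul_assoc,
      ← Finset.sum_mul, h]
    simp only [← mul_smul_comm, ← Finset.mul_sum, h, smul_mul_assoc]
    simp
  rw [Finset.sum_eq_single k (fun i _ c => by
    rw [e, if_neg c, show (show H A from (0, 0)) = 1 from rfl, one_mul, sub_self, smul_zero])
    (fun c => absurd hk c), smul_eq_zero, sub_eq_zero, Units.val_inj, e, if_pos rfl, map_mul] at this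
  simpa [h0] using this

variable [TopologicalSpace A]

instance : TopologicalSpace (H A) := inferInstanceAs (TopologicalSpace (A × D A))

theorem c1 : Continuous fun p : H A => p.1 := continuous_fst
theorem c2 : Continuous fun p : H A => p.2 := continuous_snd

theorem cc {Z : Type u} [TopologicalSpace Z] (f : D A → D A → Z) :
    Continuous fun p : H A × H A => f p.1.2 p.2.2 :=
  (continuous_of_discreteTopology (f := fun q : D A × D A => f q.1 q.2)).comp
    ((c2.comp continuous_fst).prodMk (c2.comp continuous_snd))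

instance [IsTopologicalAddGroup A] : IsTopologicalGroup (H A) where
  continuous_mul := (((c1.comp continuous_fst).add (c1.comp continuous_snd)).add (cc b)).prodMk (cc (· + ·))
  continuous_inv := (c1.neg.add ((continuous_of_discreteTopology (f := fun x => b x x)).comp c2)).prodMk
    ((continuous_of_discreteTopology (f := fun x : D A => -x)).comp c2)

noncomputable def two : GL (Fin 1) ℂ :=
  Units.map (Matrix.scalar (Fin 1)).toMonoidHom (Units.mk0 2 two_ne_zero)

theorem tw (n : ℤ) (h : two ^ n = 1) : n = 0 := by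
  rw [two, ← map_zpow, map_eq_one_iff _ (Units.map_injective fun _ _ h => Matrix.scalar_inj.1 h)] at h
  have := congrArg (fun x : ℂˣ => ‖x.val‖) h
  simpa [zpow_eq_one_iff_right₀] using this

theorem mem (p : H A) : p ∈ KO (H A) ↔ p.2 = 0 := by
  simp only [KO, Subgroup.mem_iInf, MonoidHom.mem_ker]
  refine ⟨fun h => ?_, fun h n ρ => ?_⟩
  · have : ∀ f : D A → ℤ, (∀ x y, f (x + y) = f x + f y) → f p.2 = 0 := fun f hf =>
      tw _ (h 1 ⟨MonoidHom.mk' (fun q => two ^ f q.2) fun q r => by rw [← zpow_add, ← hf]; rfl,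
        (continuous_of_discreteTopology (f := fun x => two ^ f x)).comp c2⟩)
    exact Prod.ext (Finsupp.ext fun i => this (·.1 i) fun _ _ => rfl)
      (Finsupp.ext fun i => this (·.2 i) fun _ _ => rfl)
  · rw [show p = (p.1, 0) from Prod.ext rfl h]
    exact ker _ _

noncomputable def iso : KO (H A) ≃ₜ* Multiplicative A where
  toFun p := Multiplicative.ofAdd p.1.1
  invFun a := ⟨(a.toAdd, 0), (mem _).2 rfl⟩
  left_inv p := Subtype.ext (Prod.ext rfl ((mem _).1 p.2).symm)
  right_inv _ := rfl
  map_mul' p q := by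
    show Multiplicative.ofAdd (p.1.1 + q.1.1 + b p.1.2 q.1.2) = _
    rw [(mem _).1 p.2, b3, add_zero, ofAdd_add]
  continuous_toFun := continuous_ofAdd.comp (c1.comp continuous_subtype_val)
  continuous_invFun := (continuous_toAdd.prodMk continuous_const).subtype_mk _

theorem main [IsTopologicalAddGroup A] [T2Space A] [LocallyCompactSpace A] :
    ∃ (G : Type u) (_ : Group G) (_ : TopologicalSpace G), IsTopologicalGroup G ∧ T2Space G ∧
      LocallyCompactSpace G ∧ Nonempty (KO G ≃ₜ* Multiplicative A) ∧ IsOpen (KO G : Set G) ∧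
      KO G ≤ Subgroup.center G :=
  ⟨H A, inferInstance, inferInstance, inferInstance, inferInstanceAs (T2Space (A × D A)),
    inferInstanceAs (LocallyCompactSpace (A × D A)), ⟨iso⟩, by
      rw [show (KO (H A) : Set (H A)) = (fun p => p.2) ⁻¹' {0} from Set.ext mem]
      exact (isOpen_discrete _).preimage c2, fun p hp => Subgroup.mem_center_iff.2 fun q => by
      rw [md, md, (mem _).1 hp, b3, b4, add_comm q.1, add_comm q.2]⟩

end Pool.Agent.H16.KO
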