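import Pool.Agent.H16.KingDefs

namespace H16.King

abbrev V := Fin (4 * 4)

def walks (nb : V → List V) : ℕ → V → List (List V)
  | 0, v => [[v]]
  | k + 1, v => (nb v).flatMap (fun x => (walks nb k x).map (v :: ·))

lemma mem_walks (nb : V → List V) : ∀ (k : ℕ) (v : V) (l : List V), l ∈ walks nb k v ↔
    ∃ t, l = v :: t ∧ t.length = k ∧ (v :: t).IsChain (fun a b => b ∈ nb a) := by
  intro k
  induction k with
  | zero =>
    intro v l
    simp only [walks, List.mem_singleton, List.length_eq_zero_iff]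
    constructor
    · rintro rfl; exact ⟨[], rfl, rfl, by simp⟩
    · rintro ⟨t, rfl, rfl, -⟩; rfl
  | succ k ih =>
    intro v l
    simp only [walks, List.mem_flatMap, List.mem_map, ih]
    constructor
    · rintro ⟨x, hx, _, ⟨t, rfl, ht, hc⟩, rfl⟩
      exact ⟨x :: t, rfl, by simp [ht], List.isChain_cons_cons.2 ⟨hx, hc⟩⟩
    · rintro ⟨t, rfl, ht, hc⟩
      cases t with
      | nil => simp at ht
      | cons x t =>
        rw [List.isChain_cons_cons] at hc
        exact ⟨x, hc.1, x :: t, ⟨t, rfl, by simpa using ht, hc.2⟩, rfl⟩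

lemma nodup_of (nb : V → List V) (k : ℕ) (N : List V) (hN : N.Nodup)
    (h : ∀ x, (walks nb k x).Nodup) : (N.flatMap (walks nb k)).Nodup := by
  rw [List.nodup_flatMap]
  refine ⟨fun x _ => h x, hN.imp ?_⟩
  intro a b hab l h1 h2
  obtain ⟨t, rfl, -⟩ := (mem_walks nb k a l).1 h1
  obtain ⟨t', e, -⟩ := (mem_walks nb k b _).1 h2
  exact hab (List.cons.inj e).1

lemma nodup_walks (nb : V → List V) (hn : ∀ v, (nb v).Nodup) :
    ∀ (k : ℕ) (v : V), (walks nb k v).Nodup := by
  intro k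
  induction k with
  | zero => intro v; simp [walks]
  | succ k ih =>
    intro v
    have : walks nb (k + 1) v = ((nb v).flatMap (walks nb k)).map (v :: ·) := by
      rw [walks, List.map_flatMap]
    rw [this]
    exact (nodup_of nb k _ (hn v) ih).map (fun a b h => (List.cons.inj h).2)

def ex (l : List V) : ℕ := (l.map fun a => 2 ^ a.val).sum

def gf (B : ℕ) (L : List (List V)) : ℕ := (L.map fun l => B ^ ex l).sum

lemma gf_flat (B : ℕ) (N : List V) (f : V → List (List V)) :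
    gf B (N.flatMap f) = (N.map fun x => gf B (f x)).sum := by
  induction N with
  | nil => rfl
  | cons a N ih => simp only [gf, List.flatMap_cons, List.map_append, List.sum_append,
      List.map_cons, List.sum_cons] at ih ⊢; rw [ih]

lemma gf_cons (B : ℕ) (v : V) (L : List (List V)) :
    gf B (L.map (v :: ·)) = B ^ 2 ^ v.val * gf B L := by
  induction L with
  | nil => rfl
  | cons a L ih => simp only [gf, List.map_cons, List.sum_cons, ex, pow_add, mul_add] at ih ⊢; rw [ih]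

def force {α : Type} (n : ℕ) (f : ℕ → α) : α :=
  match n with
  | 0 => f 0
  | k + 1 => f (k + 1)

lemma force_eq {α : Type} (n : ℕ) (f : ℕ → α) : force n f = f n := by cases n <;> rfl

def forceL {α : Type} : List ℕ → (List ℕ → α) → α
  | [], f => f []
  | a :: l, f => force a fun b => forceL l fun m => f (b :: m)

lemma forceL_eq {α : Type} : ∀ (l : List ℕ) (f : List ℕ → α), forceL l f = f l
  | [], _ => rfl
  | a :: l, f => by rw [forceL, force_eq, forceL_eq l]

def step (nb : V → List V) (b m : ℕ) (g : List ℕ) : List ℕ :=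
  (List.finRange (4 * 4)).map fun v =>
    (((nb v).map fun x => g.getD x.val 0).sum <<< (b * 2 ^ v.val)) % 2 ^ m

def vec (nb : V → List V) (b m : ℕ) : ℕ → List ℕ
  | 0 => (List.finRange (4 * 4)).map fun v => (1 <<< (b * 2 ^ v.val)) % 2 ^ m
  | k + 1 => forceL (vec nb b m k) (step nb b m)

lemma vec_eq (nb : V → List V) (b m : ℕ) : ∀ k, vec nb b m k =
    (List.finRange (4 * 4)).map fun v => gf (2 ^ b) (walks nb k v) % 2 ^ m := by
  intro k
  induction k with
  | zero =>
    apply List.map_congr_left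
    intro v _
    simp [walks, gf, ex, Nat.shiftLeft_eq, pow_mul]
  | succ k ih =>
    rw [vec, forceL_eq, ih]
    apply List.map_congr_left
    intro v _
    have e : walks nb (k + 1) v = ((nb v).flatMap (walks nb k)).map (v :: ·) := by
      rw [walks, List.map_flatMap]
    rw [e, gf_cons, gf_flat, Nat.shiftLeft_eq, pow_mul, mul_comm]
    apply Nat.ModEq.mul_left
    have g : ∀ x : V, ((List.finRange (4 * 4)).map fun v =>
        gf (2 ^ b) (walks nb k v) % 2 ^ m).getD x.val 0 = gf (2 ^ b) (walks nb k x) % 2 ^ m := by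
      intro x
      rw [List.getD_eq_getElem _ _ (by simp)]
      simp only [List.getElem_map, List.getElem_finRange]
      rfl
    simp only [g]
    induction nb v with
    | nil => rfl
    | cons a N ihN => simp only [List.map_cons, List.sum_cons]; exact (Nat.mod_modEq _ _).add ihN

def allW (nb : V → List V) : List (List V) := (List.finRange (4 * 4)).flatMap (walks nb 15)

lemma tot (nb : V → List V) (b m : ℕ) :
    (vec nb b m 15).sum % 2 ^ m = gf (2 ^ b) (allW nb) % 2 ^ m := by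
  rw [vec_eq, allW, gf_flat]
  induction List.finRange (4 * 4) with
  | nil => rfl
  | cons a N ihN => simp only [List.map_cons, List.sum_cons]; exact (Nat.mod_modEq _ _).add ihN

lemma split (B E : ℕ) (hB : 1 ≤ B) (L : List (List V)) : ∃ lo hi, gf B L =
    lo + L.countP (fun l => ex l = E + 1) * B ^ (E + 1) + hi * B ^ (E + 2) ∧
      lo ≤ L.length * B ^ E := by
  induction L with
  | nil => exact ⟨0, 0, by simp [gf], by simp⟩
  | cons a L ih =>
    obtain ⟨lo, hi, h1, h2⟩ := ih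
    have e : gf B (a :: L) = B ^ ex a + gf B L := by simp [gf]
    rcases lt_trichotomy (ex a) (E + 1) with h | h | h
    · refine ⟨lo + B ^ ex a, hi, ?_, ?_⟩
      · rw [e, h1, List.countP_cons_of_neg (by simp; omega)]; ring
      · have := Nat.pow_le_pow_right hB (show ex a ≤ E by omega)
        rw [List.length_cons, add_mul]; omega
    · refine ⟨lo, hi, ?_, ?_⟩
      · rw [e, h1, List.countP_cons_of_pos (by simp [h]), h]; ring
      · rw [List.length_cons, add_mul]; omega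
    · obtain ⟨d, hd⟩ : ∃ d, ex a = E + 2 + d := ⟨ex a - (E + 2), by omega⟩
      refine ⟨lo, hi + B ^ d, ?_, ?_⟩
      · rw [e, h1, List.countP_cons_of_neg (by simp; omega), hd]; ring
      · rw [List.length_cons, add_mul]; omega

lemma extract (B E : ℕ) (L : List (List V)) (h : L.length < B) :
    gf B L % B ^ (E + 2) / B ^ (E + 1) = L.countP (fun l => ex l = E + 1) := by
  obtain ⟨lo, hi, h1, h2⟩ := split B E (by omega) L
  have hc : L.countP (fun l => ex l = E + 1) + 1 ≤ B := by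
    have := List.countP_le_length (p := fun l => decide (ex l = E + 1)) (l := L); omega
  have p : 0 < B ^ E := Nat.pow_pos (by omega)
  have p1 : 0 < B ^ (E + 1) := Nat.pow_pos (by omega)
  have h3 : lo < B ^ (E + 1) := by rw [pow_succ]; nlinarith
  have h4 : lo + L.countP (fun l => ex l = E + 1) * B ^ (E + 1) < B ^ (E + 2) := by
    rw [pow_succ B (E + 1)]; nlinarith
  rw [h1, Nat.add_mul_mod_self_right, Nat.mod_eq_of_lt h4, Nat.add_mul_div_right _ _ p1,
    Nat.div_eq_of_lt h3, zero_add]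

lemma len_walks (nb : V → List V) (hn : ∀ v, (nb v).length ≤ 8) :
    ∀ (k : ℕ) (v : V), (walks nb k v).length ≤ 8 ^ k := by
  intro k
  induction k with
  | zero => intro v; simp [walks]
  | succ k ih =>
    intro v
    rw [walks, List.length_flatMap]
    have := List.sum_le_card_nsmul ((nb v).map fun x => ((walks nb k x).map (v :: ·)).length) (8 ^ k)
      (by intro y hy; obtain ⟨x, -, rfl⟩ := List.mem_map.1 hy; simpa using ih x)
    rw [List.length_map, smul_eq_mul] at this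
    have h2 := Nat.mul_le_mul_right (8 ^ k) (hn v)
    rw [pow_succ]; omega

lemma len_all (nb : V → List V) (hn : ∀ v, (nb v).length ≤ 8) : (allW nb).length < 2 ^ 50 := by
  rw [allW, List.length_flatMap]
  have := List.sum_le_card_nsmul ((List.finRange (4 * 4)).map fun x => (walks nb 15 x).length)
    (8 ^ 15) (by intro y hy; obtain ⟨x, -, rfl⟩ := List.mem_map.1 hy; exact len_walks nb hn 15 x)
  rw [List.length_map, List.length_finRange, smul_eq_mul] at this
  omega

def sd : ℕ → ℕ → ℕ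
  | 0, n => n
  | f + 1, n => n % 2 + sd f (n / 2)

lemma sd_succ : ∀ f n, sd f (n + 1) ≤ sd f n + 1 := by
  intro f
  induction f with
  | zero => intro n; rfl
  | succ f ih =>
    intro n
    simp only [sd]
    rcases Nat.mod_two_eq_zero_or_one n with h | h
    · rw [show (n + 1) / 2 = n / 2 by omega]; omega
    · rw [show (n + 1) / 2 = n / 2 + 1 by omega]; have := ih (n / 2); omega

lemma sd_pow : ∀ a f x, a ≤ f → sd f (2 ^ a + x) ≤ sd f x + 1 := by
  intro a
  induction a with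
  | zero => intro f x _; rw [pow_zero, add_comm]; exact sd_succ f x
  | succ a ih =>
    intro f x h
    obtain ⟨g, rfl⟩ : ∃ g, f = g + 1 := ⟨f - 1, by omega⟩
    simp only [sd]
    rw [show (2 ^ (a + 1) + x) / 2 = 2 ^ a + x / 2 by rw [pow_succ]; omega,
      show (2 ^ (a + 1) + x) % 2 = x % 2 by rw [pow_succ]; omega]
    have := ih g (x / 2) (by omega); omega

lemma sd_ex (l : List V) : sd 17 (ex l) ≤ l.length := by
  induction l with
  | nil => decide
  | cons a l ih =>
    have := sd_pow a.val 17 (ex l) (by have := a.2; omega)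
    simp only [ex, List.map_cons, List.sum_cons, List.length_cons] at this ih ⊢; omega

lemma ex_iff (l : List V) (h : l.length = 16) : ex l = 65534 + 1 ↔ l.Nodup := by
  constructor
  · intro he
    by_contra hn
    obtain ⟨a, ha⟩ := List.exists_duplicate_iff_not_nodup.2 hn
    have hs := List.duplicate_iff_sublist.1 ha
    obtain ⟨t, ht⟩ := hs.exists_perm_append
    have e1 : ex l = 2 ^ (a.val + 1) + ex t := by
      have := (ht.map fun a : V => 2 ^ a.val).sum_eq
      simp only [List.map_append, List.sum_append, List.map_cons, List.sum_cons, List.map_nil,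
        List.sum_nil] at this
      unfold ex; rw [this, pow_succ]; omega
    have e2 := ht.length_eq
    simp only [List.length_append, List.length_cons, List.length_nil] at e2
    have e3 := sd_pow (a.val + 1) 17 (ex t) (by have := a.2; omega)
    have e4 := sd_ex t
    rw [← e1, he, show sd 17 (65534 + 1) = 16 by decide] at e3
    omega
  · intro hn
    have hp : l.Perm (List.finRange (4 * 4)) :=
      (List.subperm_of_subset hn (fun a _ => List.mem_finRange a)).perm_of_length_le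
        (by simp [h])
    have := (hp.map fun a : V => 2 ^ a.val).sum_eq
    unfold ex; rw [this]; decide

lemma card_eq (β γ : Board 4) (nb : V → List V) (hn : ∀ v, (nb v).Nodup)
    (h8 : ∀ v, (nb v).length ≤ 8)
    (h : ∀ a b, b ∈ nb a ↔ Adj (β.symm a) (β.symm b) ∧ Adj (γ.symm a) (γ.symm b)) :
    (Words β 16 ∩ Words γ 16).ncard =
      (vec nb 50 (50 * 65536) 15).sum % 2 ^ (50 * 65536) / 2 ^ (50 * 65535) := by
  rw [tot, pow_mul, pow_mul, extract (2 ^ 50) 65534 _ (len_all nb h8), List.countP_eq_length_filter,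
    allW, ← List.toFinset_card_of_nodup ((nodup_of nb 15 _ (List.nodup_finRange _)
      (nodup_walks nb hn 15)).filter _), ← Set.ncard_coe_finset]
  congr 1
  ext l
  simp only [Words, Set.mem_inter_iff, Set.mem_setOf_eq, List.coe_toFinset, List.mem_filter,
    List.mem_flatMap, List.mem_finRange, true_and, mem_walks, decide_eq_true_eq]
  constructor
  · rintro ⟨⟨h1, h2, h3⟩, -, -, h4⟩
    refine ⟨?_, (ex_iff l h1).2 h2⟩
    cases l with
    | nil => simp at h1
    | cons v t =>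
      refine ⟨v, t, rfl, by simpa using h1, ?_⟩
      rw [List.isChain_iff_getElem] at h3 h4 ⊢
      exact fun i hi => (h _ _).2 ⟨h3 i hi, h4 i hi⟩
  · rintro ⟨⟨v, t, rfl, h1, h2⟩, h3⟩
    have h4 : (v :: t).length = 16 := by simp [h1]
    have h5 := (ex_iff _ h4).1 h3
    exact ⟨⟨h4, h5, h2.imp fun a b k => ((h a b).1 k).1⟩, h4, h5,
      h2.imp fun a b k => ((h a b).1 k).2⟩

def nb0 : V → List V := ![[1, 4, 5], [0, 4, 5], [3, 5, 6, 7], [2, 6, 7], [0, 1, 5, 8, 9], [0, 1, 2, 4, 6, 8, 9, 10], [2, 3, 5, 7, 9, 10, 11], [2, 3, 6, 10, 11], [4, 5, 9, 12, 13], [4, 5, 6, 8, 10, 12, 13, 14], [5, 6, 7, 9, 11, 13, 14, 15], [6, 7, 10, 14, 15], [8, 9, 13], [8, 9, 10, 12, 14], [9, 10, 11, 13, 15], [10, 11, 14]]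
def nb1 : V → List V := ![[1, 4, 5], [0, 2, 4, 5, 6], [1, 3, 5, 6, 7], [2, 6, 7], [0, 1, 5], [0, 1, 2, 4, 6, 8, 9, 10], [1, 2, 3, 5, 7, 9, 10, 11], [2, 3, 6, 10, 11], [5, 9, 12, 13], [5, 6, 8, 10, 12, 13, 14], [5, 6, 7, 9, 11, 13, 14, 15], [6, 7, 10, 14, 15], [8, 9, 13], [8, 9, 10, 12, 14], [9, 10, 11, 13, 15], [10, 11, 14]]
def nb2 : V → List V := ![[1, 4, 5], [0, 4, 5, 6], [3, 6, 7], [2, 6, 7], [0, 1, 5, 8, 9], [0, 1, 4, 6, 8, 9, 10], [1, 2, 3, 5, 7, 9, 10, 11], [2, 3, 6, 10, 11], [4, 5, 9, 12, 13], [4, 5, 6, 8, 10, 12, 13, 14], [5, 6, 7, 9, 11, 13, 14, 15], [6, 7, 10, 14, 15], [8, 9, 13], [8, 9, 10, 12, 14], [9, 10, 11, 13, 15], [10, 11, 14]]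
def nb3 : V → List V := ![[1, 4, 5], [0, 2, 4, 5, 6], [1, 3, 5, 6, 7], [2, 6, 7], [0, 1, 5, 8, 9], [0, 1, 2, 4, 6, 8, 9, 10], [1, 2, 3, 5, 7, 9, 10, 11], [2, 3, 6], [4, 5, 9, 12, 13], [4, 5, 6, 8, 10, 12, 13, 14], [5, 6, 9, 11, 13, 14, 15], [6, 10, 14, 15], [8, 9, 13], [8, 9, 10, 12, 14], [9, 10, 11, 13, 15], [10, 11, 14]]
def nb4 : V → List V := ![[1, 4, 5], [0, 2, 4, 5, 6], [1, 3, 5, 6, 7], [2, 6, 7], [0, 1, 5, 9], [0, 1, 2, 4, 6, 9, 10], [1, 2, 3, 5, 7, 9, 10, 11], [2, 3, 6, 10, 11], [9, 12, 13], [4, 5, 6, 8, 10, 12, 13, 14], [5, 6, 7, 9, 11, 13, 14, 15], [6, 7, 10, 14, 15], [8, 9, 13], [8, 9, 10, 12, 14], [9, 10, 11, 13, 15], [10, 11, 14]]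
def nb5 : V → List V := ![[1, 4, 5], [0, 2, 4, 5, 6], [1, 3, 5, 6, 7], [2, 6, 7], [0, 1, 5, 8, 9], [0, 1, 2, 4, 6, 8, 9, 10], [1, 2, 3, 5, 7, 9, 10, 11], [2, 3, 6, 10, 11], [4, 5, 9, 12, 13], [4, 5, 6, 8, 10, 12, 13, 14], [5, 6, 7, 9, 11, 14, 15], [6, 7, 10, 14, 15], [8, 9, 13], [8, 9, 12], [9, 10, 11, 15], [10, 11, 14]]
def nb6 : V → List V := ![[1, 4, 5], [0, 2, 4, 5, 6], [1, 3, 5, 6, 7], [2, 6, 7], [0, 1, 5, 8, 9], [0, 1, 2, 4, 6, 8, 9, 10], [1, 2, 3, 5, 7, 9, 10], [2, 3, 6, 10], [4, 5, 9, 12, 13], [4, 5, 6, 8, 10, 12, 13, 14], [5, 6, 7, 9, 11, 13, 14, 15], [10, 14, 15], [8, 9, 13], [8, 9, 10, 12, 14], [9, 10, 11, 13, 15], [10, 11, 14]]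
def nb7 : V → List V := ![[1, 4, 5], [0, 2, 4, 5, 6], [1, 3, 5, 6, 7], [2, 6, 7], [0, 1, 5, 8, 9], [0, 1, 2, 4, 6, 8, 9, 10], [1, 2, 3, 5, 7, 9, 10, 11], [2, 3, 6, 10, 11], [4, 5, 9, 12, 13], [4, 5, 6, 8, 10, 12, 13], [5, 6, 7, 9, 11, 13, 14, 15], [6, 7, 10, 14, 15], [8, 9, 13], [8, 9, 10, 12], [10, 11, 15], [10, 11, 14]]
def nbB : V → List V := ![[1, 4, 5], [0, 2, 4, 5, 6], [1, 3, 5, 6, 7], [2, 6, 7], [0, 1, 5, 8, 9], [0, 1, 2, 4, 6], [1, 2, 3, 5, 7, 9, 10, 11], [2, 3, 6, 10, 11], [4, 9, 12, 13], [4, 6, 8, 10, 12, 13, 14], [6, 7, 9, 11, 13, 14, 15], [6, 7, 10, 14, 15], [8, 9, 13], [8, 9, 10, 12, 14], [9, 10, 11, 13, 15], [10, 11, 14]]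

lemma c0 : (vec nb0 50 (50 * 65536) 15).sum % 2 ^ (50 * 65536) / 2 ^ (50 * 65535) = 109844 := by
  decide +kernel
lemma c1 : (vec nb1 50 (50 * 65536) 15).sum % 2 ^ (50 * 65536) / 2 ^ (50 * 65535) = 109844 := by
  decide +kernel
lemma c2 : (vec nb2 50 (50 * 65536) 15).sum % 2 ^ (50 * 65536) / 2 ^ (50 * 65535) = 109844 := by
  decide +kernel
lemma c3 : (vec nb3 50 (50 * 65536) 15).sum % 2 ^ (50 * 65536) / 2 ^ (50 * 65535) = 109844 := by
  decide +kernel
lemma c4 : (vec nb4 50 (50 * 65536) 15).sum % 2 ^ (50 * 65536) / 2 ^ (50 * 65535) = 109844 := by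
  decide +kernel
lemma c5 : (vec nb5 50 (50 * 65536) 15).sum % 2 ^ (50 * 65536) / 2 ^ (50 * 65535) = 109844 := by
  decide +kernel
lemma c6 : (vec nb6 50 (50 * 65536) 15).sum % 2 ^ (50 * 65536) / 2 ^ (50 * 65535) = 109844 := by
  decide +kernel
lemma c7 : (vec nb7 50 (50 * 65536) 15).sum % 2 ^ (50 * 65536) / 2 ^ (50 * 65535) = 109844 := by
  decide +kernel
lemma cB : (vec nbB 50 (50 * 65536) 15).sum % 2 ^ (50 * 65536) / 2 ^ (50 * 65535) = 158224 := by
  decide +kernel

instance {n : ℕ} (c d : Fin n × Fin n) : Decidable (Adj c d) := by unfold Adj; infer_instance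
instance {n : ℕ} (c d : Fin n × Fin n) : Decidable (CornerSide c d) := by
  unfold CornerSide; infer_instance

abbrev B0 : Board 4 := finProdFinEquiv

lemma e0 : (Words B0 16 ∩ Words (swapCells B0 (0, 0) (0, 1)) 16).ncard = 109844 := by
  rw [card_eq _ _ nb0 (by decide +kernel) (by decide +kernel) (by decide +kernel), c0]
lemma e1 : (Words B0 16 ∩ Words (swapCells B0 (0, 0) (1, 0)) 16).ncard = 109844 := by
  rw [card_eq _ _ nb1 (by decide +kernel) (by decide +kernel) (by decide +kernel), c1]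
lemma e2 : (Words B0 16 ∩ Words (swapCells B0 (0, 3) (0, 2)) 16).ncard = 109844 := by
  rw [card_eq _ _ nb2 (by decide +kernel) (by decide +kernel) (by decide +kernel), c2]
lemma e3 : (Words B0 16 ∩ Words (swapCells B0 (0, 3) (1, 3)) 16).ncard = 109844 := by
  rw [card_eq _ _ nb3 (by decide +kernel) (by decide +kernel) (by decide +kernel), c3]
lemma e4 : (Words B0 16 ∩ Words (swapCells B0 (3, 0) (2, 0)) 16).ncard = 109844 := by
  rw [card_eq _ _ nb4 (by decide +kernel) (by decide +kernel) (by decide +kernel), c4]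
lemma e5 : (Words B0 16 ∩ Words (swapCells B0 (3, 0) (3, 1)) 16).ncard = 109844 := by
  rw [card_eq _ _ nb5 (by decide +kernel) (by decide +kernel) (by decide +kernel), c5]
lemma e6 : (Words B0 16 ∩ Words (swapCells B0 (3, 3) (2, 3)) 16).ncard = 109844 := by
  rw [card_eq _ _ nb6 (by decide +kernel) (by decide +kernel) (by decide +kernel), c6]
lemma e7 : (Words B0 16 ∩ Words (swapCells B0 (3, 3) (3, 2)) 16).ncard = 109844 := by
  rw [card_eq _ _ nb7 (by decide +kernel) (by decide +kernel) (by decide +kernel), c7]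
lemma eB : (Words B0 16 ∩ Words (swapCells B0 (0, 1) (1, 1)) 16).ncard = 158224 := by
  rw [card_eq _ _ nbB (by decide +kernel) (by decide +kernel) (by decide +kernel), cB]

lemma cs : ∀ c d : Fin 4 × Fin 4, CornerSide c d →
    (c = (0, 0) ∧ d = (0, 1)) ∨ (c = (0, 0) ∧ d = (1, 0)) ∨ (c = (0, 3) ∧ d = (0, 2)) ∨ (c = (0, 3) ∧ d = (1, 3)) ∨ (c = (3, 0) ∧ d = (2, 0)) ∨ (c = (3, 0) ∧ d = (3, 1)) ∨ (c = (3, 3) ∧ d = (2, 3)) ∨ (c = (3, 3) ∧ d = (3, 2)) := by
  decide +kernel

theorem main : ∃ β γ : Board 4, ¬ Equivalent β γ ∧ ∀ c d, CornerSide c d →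
    (Words β 16 ∩ Words (swapCells β c d) 16).ncard < (Words β 16 ∩ Words γ 16).ncard := by
  refine ⟨B0, swapCells B0 (0, 1) (1, 1), ?_, ?_⟩
  · intro h
    have h1 : [5, 8] ∈ Words B0 2 := by
      refine ⟨rfl, by decide, ?_⟩; decide +kernel
    rw [h 2 le_rfl] at h1
    have := h1.2.2
    revert this
    decide +kernel
  · intro c d h
    rw [eB]
    rcases cs c d h with h | h | h | h | h | h | h | h <;> obtain ⟨rfl, rfl⟩ := h
    · rw [e0]; norm_num
    · rw [e1]; norm_num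
    · rw [e2]; norm_num
    · rw [e3]; norm_num
    · rw [e4]; norm_num
    · rw [e5]; norm_num
    · rw [e6]; norm_num
    · rw [e7]; norm_num

end H16.King
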