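import Mathlib

namespace H16.King

/-- Adjacency of cells in the `n × n` king's graph. -/
def Adj {n : ℕ} (c d : Fin n × Fin n) : Prop :=
  c ≠ d ∧ c.1.val ≤ d.1.val + 1 ∧ d.1.val ≤ c.1.val + 1 ∧ c.2.val ≤ d.2.val + 1 ∧
    d.2.val ≤ c.2.val + 1

/-- A board: a bijection from the cells to the labels. -/
abbrev Board (n : ℕ) := Fin n × Fin n ≃ Fin (n * n)

/-- The `k`-letter words of a board. -/
def Words {n : ℕ} (β : Board n) (k : ℕ) : Set (List (Fin (n * n))) :=
  {l | l.length = k ∧ l.Nodup ∧ l.IsChain (fun a b => Adj (β.symm a) (β.symm b))}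

/-- The same words of every length `≥ 2`. -/
def Equivalent {n : ℕ} (β γ : Board n) : Prop := ∀ k, 2 ≤ k → Words β k = Words γ k

/-- The board obtained by exchanging the labels in the cells `c` and `d`. -/
def swapCells {n : ℕ} (β : Board n) (c d : Fin n × Fin n) : Board n := (Equiv.swap c d).trans β

/-- `c` is a corner cell and `d` is a non-corner boundary cell sharing an edge with it. -/
def CornerSide {n : ℕ} (c d : Fin n × Fin n) : Prop :=
  ((c.1.val = 0 ∨ c.1.val + 1 = n) ∧ (c.2.val = 0 ∨ c.2.val + 1 = n)) ∧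
  ¬ ((d.1.val = 0 ∨ d.1.val + 1 = n) ∧ (d.2.val = 0 ∨ d.2.val + 1 = n)) ∧
  ((c.1 = d.1 ∧ (c.2.val + 1 = d.2.val ∨ d.2.val + 1 = c.2.val)) ∨
    (c.2 = d.2 ∧ (c.1.val + 1 = d.1.val ∨ d.1.val + 1 = c.1.val)))

end H16.King
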