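import Mathlib

set_option autoImplicit false

namespace Pool.Agent.H16.LRC
open Classical Relation

variable {T Q Γ : Type}

abbrev Tr (Q Γ T : Type) := Q × Γ × List Γ × List T × Q

def QS (R : Set (Tr Q Γ T)) (c c' : Q × List Γ × List T) : Prop :=
  ∃ X x o γ, (c.1, X, x, o, c'.1) ∈ R ∧ c.2.1 = X :: γ ∧ c'.2.1 = γ ++ x ∧ c'.2.2 = c.2.2 ++ o

def LStep {N : Type} (P : Set (N × List (Symbol T N) × Finset N × Finset N))
    (α β : List (Symbol T N)) : Prop :=
  ∃ (u v : List (Symbol T N)) (A : N) (x : List (Symbol T N)) (U W : Finset N),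
    α = u ++ [Symbol.nonterminal A] ++ v ∧ β = u ++ x ++ v ∧ (A, x, U, W) ∈ P ∧
    (∀ B ∈ U, Symbol.nonterminal B ∈ u) ∧ (∀ B ∈ W, Symbol.nonterminal B ∉ u)

inductive NT (Q Γ τ : Type)
  | S | M (q : Q) | D (t : τ) | A (x : Γ) (b : Bool) | C (b : Bool)

instance {τ : Type} [Finite Q] [Finite Γ] [Finite τ] : Finite (NT Q Γ τ) := by
  let f : Unit ⊕ Q ⊕ τ ⊕ (Γ × Bool) ⊕ Bool → NT Q Γ τ := fun z => match z with
    | .inl _ => .S
    | .inr (.inl q) => .M q
    | .inr (.inr (.inl t)) => .D t
    | .inr (.inr (.inr (.inl p))) => .A p.1 p.2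
    | .inr (.inr (.inr (.inr b))) => .C b
  refine Finite.of_surjective f fun z => ?_
  cases z with
  | S => exact ⟨.inl (), rfl⟩
  | M q => exact ⟨.inr (.inl q), rfl⟩
  | D t => exact ⟨.inr (.inr (.inl t)), rfl⟩
  | A x b => exact ⟨.inr (.inr (.inr (.inl (x, b)))), rfl⟩
  | C b => exact ⟨.inr (.inr (.inr (.inr b))), rfl⟩

variable (R : Set (Tr Q Γ T))

abbrev Sy := Symbol T (NT Q Γ R)

def blk (o : List T) (x : List Γ) (q : Q) : List (Sy R) :=
  (o.map .terminal ++ x.map fun y => .nonterminal (.A y false)) ++ [.nonterminal (.M q)] ++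
    List.replicate x.length (.nonterminal (.C false))

inductive Ru (q0 qf : Q) (x0 : List Γ) :
    NT Q Γ R → List (Sy R) → (NT Q Γ R → Prop) → (NT Q Γ R → Prop) → Prop
  | st : Ru q0 qf x0 .S (blk R [] x0 q0) (fun _ => False) (fun _ => False)
  | ent (t : R) : Ru q0 qf x0 (.M t.1.1) [.nonterminal (.D t)] (· = .A t.1.2.1 true)
      (fun _ => False)
  | ex (t : R) : Ru q0 qf x0 (.D t) (blk R t.1.2.2.2.1 t.1.2.2.1 t.1.2.2.2.2) (fun _ => False)
      (fun B => ∃ y, B = .A y true)
  | fin : Ru q0 qf x0 (.M qf) [] (fun _ => False) (fun _ => False)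
  | pr (y : Γ) : Ru q0 qf x0 (.A y false) [.nonterminal (.A y true)] (fun _ => False)
      (fun B => ∃ y b, B = .A y b)
  | er (y : Γ) : Ru q0 qf x0 (.A y true) [] (fun _ => False) (fun _ => False)
  | cv (t : R) : Ru q0 qf x0 (.C false) [.nonterminal (.C true)] (· = .D t)
      (fun B => ∃ b, B = .C b)
  | ce : Ru q0 qf x0 (.C true) [] (fun _ => False) (fun B => ∃ t, B = .D t)

def GS (q0 qf : Q) (x0 : List Γ) (α β : List (Sy R)) : Prop :=
  ∃ u v A x U W, α = u ++ [Symbol.nonterminal A] ++ v ∧ β = u ++ x ++ v ∧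
    Ru R q0 qf x0 A x U W ∧ (∀ B, U B → Symbol.nonterminal B ∈ u) ∧
    (∀ B, W B → Symbol.nonterminal B ∉ u)

variable {R}

def qb : List (Sy R) → List (Γ × Bool) := List.filterMap fun
  | .nonterminal (.A y b) => some (y, b)
  | _ => none

def ou : List (Sy R) → List T := List.filterMap fun
  | .terminal a => some a
  | _ => none

def IsL (a : Sy R) : Prop := (∃ c, a = .terminal c) ∨ ∃ y b, a = .nonterminal (.A y b)
def IsR (a : Sy R) : Prop := ∃ b, a = .nonterminal (.C b)

noncomputable def nC (v : List (Sy R)) : ℕ := v.count (.nonterminal (.C false))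

@[simp] theorem qb_append (u v : List (Sy R)) : qb (u ++ v) = qb u ++ qb v :=
  List.filterMap_append
@[simp] theorem ou_append (u v : List (Sy R)) : ou (u ++ v) = ou u ++ ou v :=
  List.filterMap_append
@[simp] theorem qb_nil : qb ([] : List (Sy R)) = [] := rfl
@[simp] theorem ou_nil : ou ([] : List (Sy R)) = [] := rfl
@[simp] theorem qb_A (y : Γ) (b : Bool) (u : List (Sy R)) :
    qb (.nonterminal (.A y b) :: u) = (y, b) :: qb u := rfl
@[simp] theorem qb_t (a : T) (u : List (Sy R)) : qb (.terminal a :: u) = qb u := rfl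
@[simp] theorem ou_A (y : NT Q Γ R) (u : List (Sy R)) : ou (.nonterminal y :: u) = ou u := rfl
@[simp] theorem ou_t (a : T) (u : List (Sy R)) : ou (.terminal a :: u) = a :: ou u := rfl
@[simp] theorem qb_mt (o : List T) : qb (o.map .terminal : List (Sy R)) = [] := by
  induction o <;> simp [*]
@[simp] theorem ou_mt (o : List T) : ou (o.map .terminal : List (Sy R)) = o := by
  induction o <;> simp [*]
@[simp] theorem qb_mA (x : List Γ) :
    qb (x.map fun y => .nonterminal (.A y false) : List (Sy R)) = x.map (·, false) := by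
  induction x <;> simp [*]
@[simp] theorem ou_mA (x : List Γ) :
    ou (x.map fun y => .nonterminal (.A y false) : List (Sy R)) = [] := by
  induction x <;> simp [*]

theorem mem_qb (u : List (Sy R)) (y : Γ) (b : Bool) :
    (y, b) ∈ qb u ↔ .nonterminal (.A y b) ∈ u := by
  simp only [qb, List.mem_filterMap]
  constructor
  · rintro ⟨a, ha, h⟩
    split at h
    · cases h; exact ha
    · cases h
  · intro h; exact ⟨_, h, rfl⟩

theorem split3 {α : Type} {u c v u' v' : List α} {A : α} (h : u ++ c ++ v = u' ++ [A] ++ v') :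
    (∃ u2, u = u' ++ A :: u2 ∧ v' = u2 ++ c ++ v) ∨
    (∃ c1 c2, c = c1 ++ A :: c2 ∧ u' = u ++ c1 ∧ v' = c2 ++ v) ∨
    (∃ v1, v = v1 ++ A :: v' ∧ u' = u ++ c ++ v1) := by
  simp only [List.append_assoc, List.singleton_append] at h
  rcases List.append_eq_append_iff.1 h with ⟨a, e1, h1⟩ | ⟨a, e1, h1⟩
  · clear h
    subst e1
    rcases List.append_eq_append_iff.1 h1 with ⟨b, e2, h2⟩ | ⟨b, e2, h2⟩
    · subst e2
      exact Or.inr (Or.inr ⟨b, h2, by simp⟩)
    · subst e2
      cases b with
      | nil => exact Or.inr (Or.inr ⟨[], by simpa using h2.symm, by simp⟩)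
      | cons b0 b =>
        simp only [List.cons_append, List.cons.injEq] at h2
        obtain ⟨rfl, rfl⟩ := h2
        exact Or.inr (Or.inl ⟨a, b, rfl, rfl, rfl⟩)
  · clear h
    subst e1
    cases a with
    | nil =>
      simp only [List.nil_append] at h1
      cases c with
      | nil => exact Or.inr (Or.inr ⟨[], by simpa using h1.symm, by simp⟩)
      | cons c0 c =>
        simp only [List.cons_append, List.cons.injEq] at h1
        obtain ⟨rfl, rfl⟩ := h1
        exact Or.inr (Or.inl ⟨[], c, rfl, by simp, rfl⟩)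
    | cons a0 a =>
      simp only [List.cons_append, List.cons.injEq] at h1
      obtain ⟨rfl, rfl⟩ := h1
      exact Or.inl ⟨a, rfl, by simp⟩

def Core (q0 qf : Q) (x0 : List Γ) (c : List (Sy R)) (L : List (Γ × Bool)) (w : List T)
    (v : List (Sy R)) : Prop :=
  (∃ q, (c = [.nonterminal (.M q)] ∨ (c = [] ∧ q = qf)) ∧ L.length ≤ nC v ∧
    (L.length = nC v → ReflTransGen (QS R) (q0, x0, []) (q, L.map Prod.fst, w))) ∨
  ∃ t : R, c = [.nonterminal (.D t)] ∧ ∃ er cv : Bool,
    L.length + er.toNat ≤ nC v + cv.toNat ∧ (cv = true → v.head? = some (.nonterminal (.C true))) ∧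
    (er = false → L.head? = some (t.1.2.1, true)) ∧
    (L.length + er.toNat = nC v + cv.toNat → ReflTransGen (QS R) (q0, x0, [])
      (t.1.1, (if er then [t.1.2.1] else []) ++ L.map Prod.fst, w))

def Inv (q0 qf : Q) (x0 : List Γ) (α : List (Sy R)) : Prop :=
  ∃ u c v, α = u ++ c ++ v ∧ (∀ a ∈ u, IsL a) ∧ (∀ a ∈ v, IsR a) ∧
    (∀ p ∈ (qb u).tail, p.2 = false) ∧ Core q0 qf x0 c (qb u) (ou u) v

theorem core_c {q0 qf : Q} {x0 : List Γ} {c : List (Sy R)} {L : List (Γ × Bool)} {w : List T}
    {v : List (Sy R)} (h : Core q0 qf x0 c L w v) :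
    c = [] ∨ (∃ q, c = [.nonterminal (.M q)]) ∨ ∃ t, c = [.nonterminal (.D t)] := by
  rcases h with ⟨q, h | h, _⟩ | ⟨t, h, _⟩
  · exact Or.inr (Or.inl ⟨q, h⟩)
  · exact Or.inl h.1
  · exact Or.inr (Or.inr ⟨t, h⟩)

theorem inv_blk {q0 qf : Q} {x0 : List Γ} (u v : List (Sy R)) (o : List T) (x : List Γ) (q : Q)
    (hu : ∀ a ∈ u, IsL a) (hv : ∀ a ∈ v, IsR a) (hp : ∀ p ∈ qb u, p.2 = false)
    (h1 : (qb u).length ≤ nC v) (h2 : (qb u).length = nC v →
      ReflTransGen (QS R) (q0, x0, []) (q, (qb u).map Prod.fst ++ x, ou u ++ o)) :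
    Inv q0 qf x0 (u ++ blk R o x q ++ v) := by
  refine ⟨u ++ (o.map .terminal ++ x.map fun y => .nonterminal (.A y false)),
    [.nonterminal (.M q)], List.replicate x.length (.nonterminal (.C false)) ++ v,
    by simp [blk], ?_, ?_, ?_, Or.inl ⟨q, Or.inl rfl, ?_, ?_⟩⟩
  · intro a ha
    simp only [List.mem_append, List.mem_map] at ha
    rcases ha with ha | ⟨c, _, rfl⟩ | ⟨c, _, rfl⟩
    · exact hu a ha
    · exact Or.inl ⟨_, rfl⟩
    · exact Or.inr ⟨_, _, rfl⟩
  · intro a ha
    simp only [List.mem_append, List.mem_replicate] at ha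
    rcases ha with ⟨_, rfl⟩ | ha
    · exact ⟨_, rfl⟩
    · exact hv a ha
  · intro p hp'
    have := List.mem_of_mem_tail hp'
    simp only [qb_append, qb_mt, qb_mA, List.nil_append, List.mem_append, List.mem_map] at this
    rcases this with h | ⟨_, _, rfl⟩
    · exact hp p h
    · rfl
  · simp only [nC, List.count_append, List.count_replicate_self] at h1 ⊢
    simp; omega
  · intro h
    simp only [nC, List.count_append, List.count_replicate_self] at h h2
    simp at h
    simpa [Function.comp_def] using h2 (by omega)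

theorem inv_step {q0 qf : Q} {x0 : List Γ} {α β : List (Sy R)} (h : GS R q0 qf x0 α β)
    (hi : Inv q0 qf x0 α) : Inv q0 qf x0 β := by
  obtain ⟨u', v', A, x, U, W, e, rfl, hr, hU, hW⟩ := h
  obtain ⟨u, c, v, rfl, hu, hv, hp, hc⟩ := hi
  rcases split3 e with ⟨u2, rfl, rfl⟩ | ⟨c1, c2, e1, rfl, rfl⟩ | ⟨v1, rfl, rfl⟩
  · have hA := hu (.nonterminal A) (by simp)
    have hu1 : ∀ a ∈ u', IsL a := fun a ha => hu a (by simp [ha])
    have hu2 : ∀ a ∈ u2, IsL a := fun a ha => hu a (by simp [ha])
    cases hr with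
    | pr y =>
      have h0 : qb u' = [] := List.eq_nil_iff_forall_not_mem.2 fun p hp =>
        hW _ ⟨p.1, p.2, rfl⟩ ((mem_qb _ _ _).1 hp)
      refine ⟨u' ++ .nonterminal (.A y true) :: u2, c, v, by simp, ?_, hv, by simpa [h0] using hp, ?_⟩
      · intro a ha
        simp only [List.mem_append, List.mem_cons] at ha
        rcases ha with ha | rfl | ha
        · exact hu1 a ha
        · exact Or.inr ⟨_, _, rfl⟩
        · exact hu2 a ha
      · simp only [qb_append, ou_append, qb_A, ou_A, h0, List.nil_append] at hc ⊢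
        rcases hc with hc | ⟨t, h1, er, cv, h2, h3, h4, h5⟩
        · exact Or.inl hc
        · refine Or.inr ⟨t, h1, er, cv, h2, h3, fun h => ?_, h5⟩
          simpa using h4 h
    | er y =>
      have h0 : qb u' = [] := by
        by_contra h0
        obtain ⟨p, l, e⟩ := List.exists_cons_of_ne_nil h0
        have := hp (y, true) (by simp [e])
        cases this
      refine ⟨u' ++ u2, c, v, by simp, ?_, hv, ?_, ?_⟩
      · intro a ha
        rcases List.mem_append.1 ha with ha | ha
        · exact hu1 a ha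
        · exact hu2 a ha
      · intro p hp'
        apply hp
        simpa [h0] using List.mem_of_mem_tail hp'
      · simp only [qb_append, ou_append, qb_A, ou_A, h0, List.nil_append] at hc ⊢
        rcases hc with ⟨q, h1, h2, h3⟩ | ⟨t, h1, er, cv, h2, h3, h4, h5⟩
        · simp only [List.length_cons] at h2
          exact Or.inl ⟨q, h1, by omega, fun h => by omega⟩
        · simp only [List.length_cons] at h2 h5
          refine Or.inr ⟨t, h1, true, cv, ?_, h3, by simp, fun h => ?_⟩
          · simp only [Bool.toNat_true]; omega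
          · cases er with
            | true => simp only [Bool.toNat_true] at h h2; omega
            | false =>
              have := h4 rfl
              simp only [List.head?_cons, Option.some.injEq, Prod.mk.injEq] at this
              simpa [this.1] using h5 (by simpa using h)
    | _ => simp [IsL] at hA
  · have : c1 = [] ∧ c2 = [] := by
      rcases core_c hc with rfl | ⟨q, rfl⟩ | ⟨q, rfl⟩
      · simp at e1
      · have := congrArg List.length e1
        simp at this
        exact ⟨List.length_eq_zero_iff.1 (by omega), List.length_eq_zero_iff.1 (by omega)⟩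
      · have := congrArg List.length e1
        simp at this
        exact ⟨List.length_eq_zero_iff.1 (by omega), List.length_eq_zero_iff.1 (by omega)⟩
    obtain ⟨rfl, rfl⟩ := this
    simp only [List.nil_append, List.append_nil] at *
    subst e1
    cases hr with
    | ent t =>
      rcases hc with ⟨q, h1 | h1, h2, h3⟩ | ⟨t, h1, _⟩
      · cases h1
        refine ⟨u, _, v, rfl, hu, hv, hp, Or.inr ⟨t, rfl, false, false, h2, by simp, fun _ => ?_,
          by simpa using h3⟩⟩
        have := (mem_qb _ _ _).2 (hU _ rfl)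
        cases e : qb u with
        | nil => simp [e] at this
        | cons p l =>
          rw [e] at this hp
          rcases List.mem_cons.1 this with h | h
          · rw [h]; rfl
          · cases hp _ h
      · cases h1.1
      · cases h1
    | fin =>
      rcases hc with ⟨q, h1 | h1, h2, h3⟩ | ⟨t, h1, _⟩
      · cases h1
        exact ⟨u, [], v, rfl, hu, hv, hp, Or.inl ⟨_, Or.inr ⟨rfl, rfl⟩, h2, h3⟩⟩
      · cases h1.1
      · cases h1
    | ex t =>
      have h0 : ∀ p ∈ qb u, p.2 = false := by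
        rintro ⟨y, b⟩ hy
        cases b with
        | false => rfl
        | true => exact (hW _ ⟨y, rfl⟩ ((mem_qb _ _ _).1 hy)).elim
      rcases hc with ⟨q, h1 | h1, h2, h3⟩ | ⟨t', h1, er, cv, h2, h3, h4, h5⟩
      · cases h1
      · cases h1.1
      · cases h1
        cases er with
        | false => cases h0 _ (List.mem_of_mem_head? (h4 rfl))
        | true =>
          have hcv : cv.toNat ≤ 1 := Bool.toNat_le cv
          simp only [Bool.toNat_true] at h2 h5
          refine inv_blk u v _ _ _ hu hv h0 (by omega) fun h => (h5 (by omega)).tail ?_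
          exact ⟨_, _, _, _, t.2, rfl, rfl, rfl⟩
    | _ => rcases core_c hc with h | ⟨q, h⟩ | ⟨q, h⟩ <;> cases h
  · have hA := hv (.nonterminal A) (by simp)
    have hv1 : ∀ a ∈ v1, IsR a := fun a ha => hv a (by simp [ha])
    have hv2 : ∀ a ∈ v', IsR a := fun a ha => hv a (by simp [ha])
    cases hr with
    | cv t =>
      have h0 : v1 = [] := List.eq_nil_iff_forall_not_mem.2 fun a ha => by
        obtain ⟨b, rfl⟩ := hv1 a ha
        exact hW _ ⟨b, rfl⟩ (by simp [ha])
      subst h0
      refine ⟨u, c, .nonterminal (.C true) :: v', by simp, hu, ?_, hp, ?_⟩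
      · intro a ha
        rcases List.mem_cons.1 ha with rfl | ha
        · exact ⟨_, rfl⟩
        · exact hv2 a ha
      · have hD := hU _ rfl
        rcases hc with ⟨q, h1, h2, h3⟩ | ⟨t', h1, er, cv, h2, h3, h4, h5⟩
        · exfalso
          simp only [List.append_nil, List.mem_append] at hD
          rcases hD with hD | hD
          · have := hu _ hD; simp [IsL] at this
          · rcases h1 with rfl | ⟨rfl, _⟩ <;> simp at hD
        · cases cv with
          | true => simp at h3
          | false =>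
            refine Or.inr ⟨t', h1, er, true, ?_, by simp, h4, fun h => h5 ?_⟩
            · simpa [nC] using h2
            · simpa [nC] using h
    | ce =>
      refine ⟨u, c, v1 ++ v', by simp, hu, ?_, hp, ?_⟩
      · intro a ha
        rcases List.mem_append.1 ha with ha | ha
        · exact hv1 a ha
        · exact hv2 a ha
      · rcases hc with ⟨q, h1, h2, h3⟩ | ⟨t', h1, _⟩
        · refine Or.inl ⟨q, h1, ?_, fun h => h3 ?_⟩
          · simpa [nC] using h2
          · simpa [nC] using h
        · exact (hW _ ⟨t', rfl⟩ (by simp [h1])).elim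
    | _ => simp [IsR] at hA

theorem sound {q0 qf : Q} {x0 : List Γ} (w : List T)
    (h : ReflTransGen (GS R q0 qf x0) [.nonterminal .S] (w.map .terminal)) :
    ReflTransGen (QS R) (q0, x0, []) (qf, [], w) := by
  rcases h.cases_head with h | ⟨β, h1, h2⟩
  · cases w <;> simp at h
  have h3 : Inv q0 qf x0 β := by
    obtain ⟨u', v', A, x, U, W, e, rfl, hr, hU, hW⟩ := h1
    have := congrArg List.length e
    simp at this
    have e1 : u' = [] := List.length_eq_zero_iff.1 (by omega)
    have e2 : v' = [] := List.length_eq_zero_iff.1 (by omega)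
    subst e1 e2
    cases e
    cases hr
    exact inv_blk [] [] [] x0 q0 (by simp) (by simp) (by simp) (by simp) fun _ => .refl
  have h4 : ∀ γ, ReflTransGen (GS R q0 qf x0) β γ → Inv q0 qf x0 γ := by
    intro γ hγ
    induction hγ with
    | refl => exact h3
    | tail _ h ih => exact inv_step h ih
  obtain ⟨u, c, v, e, hu, hv, hp, hc⟩ := h4 _ h2
  have hm : ∀ a ∈ u ++ c ++ v, ∃ b, a = Symbol.terminal b := by
    rw [← e]; intro a ha
    obtain ⟨b, _, rfl⟩ := List.mem_map.1 ha
    exact ⟨b, rfl⟩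
  have hv0 : v = [] := List.eq_nil_iff_forall_not_mem.2 fun a ha => by
    obtain ⟨b, rfl⟩ := hv a ha
    obtain ⟨_, h⟩ := hm _ (List.mem_append_right _ ha)
    cases h
  subst hv0
  rcases hc with ⟨q, rfl | ⟨rfl, rfl⟩, h2, h3⟩ | ⟨t', rfl, _⟩
  · obtain ⟨_, h⟩ := hm (.nonterminal (.M q)) (by simp)
    cases h
  · simp only [List.append_nil] at e
    subst e
    simpa using h3 (by simp [nC])
  · obtain ⟨_, h⟩ := hm (.nonterminal (.D t')) (by simp)
    cases h

theorem first_A (X : Γ) (l : List (Γ × Bool)) : ∀ u : List (Sy R), (∀ a ∈ u, IsL a) →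
    qb u = (X, false) :: l → ∃ u1 u2, u = u1 ++ .nonterminal (.A X false) :: u2 ∧ qb u1 = [] ∧
      qb u2 = l := by
  intro u
  induction u with
  | nil => intro _ h; cases h
  | cons a u ih =>
    intro hu h
    rcases hu a (by simp) with ⟨c, rfl⟩ | ⟨y, b, rfl⟩
    · obtain ⟨u1, u2, rfl, h1, h2⟩ := ih (fun a ha => hu a (by simp [ha])) h
      exact ⟨.terminal c :: u1, u2, rfl, h1, h2⟩
    · simp only [qb_A, List.cons.injEq, Prod.mk.injEq] at h
      obtain ⟨⟨rfl, rfl⟩, h⟩ := h
      exact ⟨[], u, rfl, rfl, h⟩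

theorem all_t : ∀ u : List (Sy R), (∀ a ∈ u, IsL a) → qb u = [] → u = (ou u).map .terminal := by
  intro u
  induction u with
  | nil => intro _ _; rfl
  | cons a u ih =>
    intro hu h
    rcases hu a (by simp) with ⟨c, rfl⟩ | ⟨y, b, rfl⟩
    · rw [ou_t, List.map_cons, ← ih (fun a ha => hu a (by simp [ha])) h]
    · cases h

theorem complete {q0 qf : Q} {x0 : List Γ} (w : List T)
    (h : ReflTransGen (QS R) (q0, x0, []) (qf, [], w)) :
    ReflTransGen (GS R q0 qf x0) [.nonterminal .S] (w.map .terminal) := by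
  have key : ∀ c, ReflTransGen (QS R) (q0, x0, []) c → ∃ u : List (Sy R), (∀ a ∈ u, IsL a) ∧
      qb u = c.2.1.map (·, false) ∧ ou u = c.2.2 ∧
      ReflTransGen (GS R q0 qf x0) [.nonterminal .S]
        (u ++ [.nonterminal (.M c.1)] ++ List.replicate c.2.1.length (.nonterminal (.C false))) := by
    intro c hc
    induction hc with
    | refl =>
      refine ⟨x0.map fun y => .nonterminal (.A y false), ?_, by simp, by simp, .single ?_⟩
      · intro a ha
        obtain ⟨y, _, rfl⟩ := List.mem_map.1 ha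
        exact Or.inr ⟨_, _, rfl⟩
      · exact ⟨[], [], _, _, _, _, rfl, by simp [blk], .st, by simp, by simp⟩
    | @tail c1 c _ hs ih =>
      obtain ⟨q, γ0, w0⟩ := c1
      obtain ⟨q', γ1, w1⟩ := c
      obtain ⟨X, x, o, γ, ht, e1, e2, e3⟩ := hs
      simp only at *
      subst e1 e2 e3
      obtain ⟨u, hu, h1, rfl, h3⟩ := ih
      obtain ⟨u1, u2, rfl, h4, h5⟩ := first_A X _ u hu h1
      have hu1 : ∀ a ∈ u1, IsL a := fun a ha => hu a (by simp [ha])
      have hu2 : ∀ a ∈ u2, IsL a := fun a ha => hu a (by simp [ha])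
      let t : R := ⟨_, ht⟩
      have n1 : ∀ y b, Symbol.nonterminal (NT.A y b) ∉ u1 := fun y b h => by
        have := (mem_qb _ _ _).2 h
        simp [h4] at this
      have n2 : ∀ y, Symbol.nonterminal (NT.A y true) ∉ u2 := fun y h => by
        have := (mem_qb _ _ _).2 h
        simp [h5] at this
      have n3 : ∀ b, Symbol.nonterminal (NT.C b) ∉ u1 ∧ Symbol.nonterminal (NT.C b) ∉ u2 :=
        fun b => ⟨fun h => by simpa [IsL] using hu1 _ h, fun h => by simpa [IsL] using hu2 _ h⟩
      have n4 : ∀ b, Symbol.nonterminal (NT.D b) ∉ u1 ∧ Symbol.nonterminal (NT.D b) ∉ u2 :=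
        fun b => ⟨fun h => by simpa [IsL] using hu1 _ h, fun h => by simpa [IsL] using hu2 _ h⟩
      refine ⟨u1 ++ u2 ++ (o.map .terminal ++ x.map fun y => .nonterminal (.A y false)), ?_,
        by simp [h4, h5], by simp, ?_⟩
      · intro a ha
        simp only [List.mem_append, List.mem_map] at ha
        rcases ha with (ha | ha) | ⟨c, _, rfl⟩ | ⟨c, _, rfl⟩
        · exact hu1 a ha
        · exact hu2 a ha
        · exact Or.inl ⟨_, rfl⟩
        · exact Or.inr ⟨_, _, rfl⟩
      · let Cs : List (Sy R) := List.replicate γ.length (.nonterminal (.C false))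
        refine (((((h3.tail (c := u1 ++ [.nonterminal (.A X true)] ++ (u2 ++
          [.nonterminal (.M q)] ++ .nonterminal (.C false) :: Cs)) ?_).tail
          (c := u1 ++ [.nonterminal (.A X true)] ++ u2 ++
          [.nonterminal (.D t)] ++ .nonterminal (.C false) :: Cs) ?_).tail
          (c := u1 ++ [.nonterminal (.A X true)] ++ u2 ++
          [.nonterminal (.D t)] ++ [.nonterminal (.C true)] ++ Cs) ?_).tail
          (c := u1 ++ [] ++ (u2 ++ [.nonterminal (.D t)] ++ [.nonterminal (.C true)] ++ Cs)) ?_).tail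
          (c := u1 ++ u2 ++ blk R o x q' ++ ([.nonterminal (.C true)] ++ Cs)) ?_).tail ?_
        · refine ⟨_, _, _, _, _, _, by simp [Cs, List.replicate_succ], rfl, .pr X, by simp, ?_⟩
          rintro _ ⟨y, b, rfl⟩; exact n1 y b
        · refine ⟨_, _, _, _, _, _, by simp [t], rfl, .ent t, ?_, by simp⟩
          rintro _ rfl; simp [t]
        · refine ⟨_, _, _, _, _, _, by simp, rfl, .cv t, ?_, ?_⟩
          · rintro _ rfl; simp
          · rintro _ ⟨b, rfl⟩; simp [n3]
        · exact ⟨_, _, _, _, _, _, by simp, rfl, .er X, by simp, by simp⟩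
        · refine ⟨_, _, _, _, _, _, by simp, rfl, .ex t, by simp, ?_⟩
          rintro _ ⟨y, rfl⟩; simp [n1, n2]
        · refine ⟨u1 ++ u2 ++ blk R o x q', Cs, _, _, _, _, by simp, ?_, .ce, by simp, ?_⟩
          · simp [blk, Cs, add_comm]
          · rintro _ ⟨y, rfl⟩; simp [n4, blk]
  obtain ⟨u, hu, h1, h2, h3⟩ := key _ h
  refine h3.tail ⟨u, [], _, _, _, _, by simp, ?_, .fin, by simp, by simp⟩
  simp only at h1 h2
  rw [← h2, ← all_t u hu h1]
  simp

theorem main [Finite Q] [Finite Γ] (hR : R.Finite) (q0 qf : Q) (x0 : List Γ) :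
    ∃ (N : Type) (_ : Finite N) (S : N) (P : Finset (N × List (Symbol T N) × Finset N × Finset N)),
      ∀ w : List T, ReflTransGen (QS R) (q0, x0, []) (qf, [], w) ↔
        ReflTransGen (LStep (↑P)) [.nonterminal S] (w.map .terminal) := by
  have := hR.to_subtype
  have := Fintype.ofFinite (NT Q Γ R)
  have hf : Set.Finite {r : NT Q Γ R × List (Sy R) × Finset (NT Q Γ R) × Finset (NT Q Γ R) |
      Ru R q0 qf x0 r.1 r.2.1 (· ∈ r.2.2.1) (· ∈ r.2.2.2)} := by
    refine (Set.finite_univ.prod (((Set.finite_range fun t : R =>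
      blk R t.1.2.2.2.1 t.1.2.2.1 t.1.2.2.2.2).union (Set.finite_range fun B : NT Q Γ R =>
        [Symbol.nonterminal B])).insert [] |>.insert (blk R [] x0 q0) |>.prod
          Set.finite_univ)).subset ?_
    rintro ⟨A, x, U, W⟩ h
    simp only [Set.mem_ofPred_eq] at h
    generalize (fun B => B ∈ U) = U' at h
    generalize (fun B => B ∈ W) = W' at h
    cases h <;> simp
  refine ⟨NT Q Γ R, inferInstance, .S, hf.toFinset, fun w => ?_⟩
  have : LStep (↑hf.toFinset) = GS R q0 qf x0 := by
    funext α β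
    apply propext
    constructor
    · rintro ⟨u, v, A, x, U, W, h1, h2, h3, h4, h5⟩
      exact ⟨u, v, A, x, _, _, h1, h2, by simpa using h3, h4, h5⟩
    · rintro ⟨u, v, A, x, U, W, h1, h2, h3, h4, h5⟩
      refine ⟨u, v, A, x, Finset.univ.filter U, Finset.univ.filter W, h1, h2, ?_,
        by simpa using h4, by simpa using h5⟩
      simpa using h3
  rw [this]
  exact ⟨complete w, sound w⟩

end Pool.Agent.H16.LRC
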