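import Pool.Agent.H16.LRC1

set_option autoImplicit false

namespace Pool.Agent.H16.LRC
open Classical Relation

variable {T N : Type}

abbrev GR (T N : Type) :=
  List (Symbol T N) × List (Symbol T N) × (Finset N × Finset N) × (Finset N × Finset N)

def Ok (U W : Finset N) (u : List (Symbol T N)) : Prop :=
  (∀ B ∈ U, Symbol.nonterminal B ∈ u) ∧ (∀ B ∈ W, Symbol.nonterminal B ∉ u)

def Gen (P : Set (GR T N)) (α β : List (Symbol T N)) : Prop :=
  ∃ u v r, r ∈ P ∧ α = u ++ r.1 ++ v ∧ β = u ++ r.2.1 ++ v ∧ Ok r.2.2.1.1 r.2.2.1.2 u ∧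
    Ok r.2.2.2.1 r.2.2.2.2 v

inductive QQ (T N : Type) (n : ℕ)
  | L (S : Finset N) | R (l : {l : List (Symbol T N) // l.length ≤ n}) (U W : Finset N) | O | F

instance [Finite T] [Finite N] : Finite (Symbol T N) := by
  refine Finite.of_surjective (Sum.elim Symbol.terminal Symbol.nonterminal : T ⊕ N → _) fun z => ?_
  cases z with
  | terminal a => exact ⟨.inl a, rfl⟩
  | nonterminal a => exact ⟨.inr a, rfl⟩

instance [Finite T] [Finite N] (n : ℕ) : Finite (QQ T N n) := by
  have : Finite {l : List (Symbol T N) // l.length ≤ n} := (List.finite_length_le _ n).to_subtype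
  let f : Finset N ⊕ ({l : List (Symbol T N) // l.length ≤ n} × Finset N × Finset N) ⊕ Bool →
      QQ T N n := fun z => match z with
    | .inl S => .L S
    | .inr (.inl p) => .R p.1 p.2.1 p.2.2
    | .inr (.inr true) => .O
    | .inr (.inr false) => .F
  refine Finite.of_surjective f fun z => ?_
  cases z with
  | L S => exact ⟨.inl S, rfl⟩
  | R l U W => exact ⟨.inr (.inl (l, U, W)), rfl⟩
  | O => exact ⟨.inr (.inr true), rfl⟩
  | F => exact ⟨.inr (.inr false), rfl⟩

inductive TT (P : Set (GR T N)) (n : ℕ) : QQ T N n → Option (Symbol T N) →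
    List (Option (Symbol T N)) → List T → QQ T N n → Prop
  | cl (S S' Y) : (∀ B, B ∈ S' ↔ B ∈ S ∨ Y = .nonterminal B) →
      TT P n (.L S) (some Y) [some Y] [] (.L S')
  | ap (S r Y l) : r ∈ P → r.1 = Y :: l.1 → (∀ B ∈ r.2.2.1.1, B ∈ S) → (∀ B ∈ r.2.2.1.2, B ∉ S) →
      TT P n (.L S) (some Y) (r.2.1.map some) [] (.R l r.2.2.2.1 r.2.2.2.2)
  | mt (l l' Y U W) : l.1 = Y :: l'.1 → TT P n (.R l U W) (some Y) [] [] (.R l' U W)
  | cr (l Y U U' W) : l.1 = [] → (∀ B ∈ U, B ∈ U' ∨ Y = .nonterminal B) →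
      (∀ B ∈ W, Y ≠ .nonterminal B) → TT P n (.R l U W) (some Y) [some Y] [] (.R l U' W)
  | bk (l W) : l.1 = [] → TT P n (.R l ∅ W) none [none] [] (.L ∅)
  | o1 (S a) : TT P n (.L S) (some (.terminal a)) [] [a] .O
  | o2 (a) : TT P n .O (some (.terminal a)) [] [a] .O
  | f1 (S) : TT P n (.L S) none [] [] .F
  | f2 : TT P n .O none [] [] .F

def RR (P : Set (GR T N)) (n : ℕ) : Set (Tr (QQ T N n) (Option (Symbol T N)) T) :=
  {t | TT P n t.1 t.2.1 t.2.2.1 t.2.2.2.1 t.2.2.2.2}

theorem RR_fin [Finite T] [Finite N] {P : Set (GR T N)} (hP : P.Finite) (n : ℕ) :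
    (RR P n).Finite := by
  refine (Set.finite_univ.prod (Set.finite_univ.prod
    (((hP.image fun r => r.2.1.map some).union (List.finite_length_le _ 1)).prod
      ((List.finite_length_le _ 1).prod Set.finite_univ)))).subset ?_
  rintro ⟨q, X, x, o, q'⟩ h
  simp only [RR, Set.mem_ofPred_eq] at h
  cases h with
  | ap S r Y l h => exact ⟨trivial, trivial, Or.inl ⟨r, h, rfl⟩, by simp, trivial⟩
  | _ => simp

def QI (P : Set (GR T N)) (n : ℕ) (s : List (Symbol T N)) :
    QQ T N n → List (Option (Symbol T N)) → List T → Prop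
  | .L S, γ, w => w = [] ∧ ∃ u v, γ = v.map some ++ none :: u.map some ∧
      ReflTransGen (Gen P) s (u ++ v) ∧ ∀ B, B ∈ S ↔ .nonterminal B ∈ u
  | .R l U W, γ, w => w = [] ∧ ∃ u v, γ = v.map some ++ none :: u.map some ∧
      ∀ v', v = l.1 ++ v' → Ok U W v' → ReflTransGen (Gen P) s (u ++ v')
  | .O, γ, w => ∃ u v, γ = v.map some ++ none :: u.map some ∧
      ReflTransGen (Gen P) s (u ++ w.map .terminal ++ v)
  | .F, γ, w => ∃ u, γ = u.map some ∧ ReflTransGen (Gen P) s (u ++ w.map .terminal)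

theorem hd_some {α : Type} {Y : α} {γ : List (Option α)} {u v : List α}
    (h : some Y :: γ = v.map some ++ none :: u.map some) :
    ∃ v1, v = Y :: v1 ∧ γ = v1.map some ++ none :: u.map some := by
  cases v with
  | nil => simp at h
  | cons a v => simp at h; exact ⟨v, by rw [h.1], h.2⟩

theorem hd_none {α : Type} {γ : List (Option α)} {u v : List α}
    (h : none :: γ = v.map some ++ none :: u.map some) : v = [] ∧ γ = u.map some := by
  cases v with
  | nil => simpa using h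
  | cons a v => simp at h

theorem qi_step {P : Set (GR T N)} {n : ℕ} {s : List (Symbol T N)}
    {c c' : QQ T N n × List (Option (Symbol T N)) × List T} (h : QS (RR P n) c c')
    (hc : QI P n s c.1 c.2.1 c.2.2) : QI P n s c'.1 c'.2.1 c'.2.2 := by
  obtain ⟨q, γ0, w⟩ := c
  obtain ⟨q', γ1, w1⟩ := c'
  obtain ⟨X, x, o, γ, ht, e1, e2, e3⟩ := h
  simp only [RR, Set.mem_ofPred_eq] at *
  subst e1 e2 e3
  cases ht with
  | cl S S' Y h =>
    obtain ⟨rfl, u, v, e, h1, h2⟩ := hc
    obtain ⟨v1, rfl, rfl⟩ := hd_some e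
    refine ⟨rfl, u ++ [Y], v1, by simp, by simpa using h1, fun B => ?_⟩
    rw [h, h2]; simp [eq_comm]
  | ap S r Y l h1 h2 h3 h4 =>
    obtain ⟨rfl, u, v, e, h5, h6⟩ := hc
    obtain ⟨v1, rfl, rfl⟩ := hd_some e
    refine ⟨rfl, u ++ r.2.1, v1, by simp, ?_⟩
    rintro v' rfl hv
    exact h5.tail ⟨u, v', r, h1, by simp [h2], rfl,
      ⟨fun B hB => (h6 B).1 (h3 B hB), fun B hB h => h4 B hB ((h6 B).2 h)⟩, hv⟩
  | mt l l' Y U W h =>
    obtain ⟨rfl, u, v, e, h5⟩ := hc
    obtain ⟨v1, rfl, rfl⟩ := hd_some e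
    refine ⟨rfl, u, v1, by simp, ?_⟩
    rintro v' rfl hv
    exact h5 v' (by simp [h]) hv
  | cr l Y U U' W h1 h2 h3 =>
    obtain ⟨rfl, u, v, e, h5⟩ := hc
    obtain ⟨v1, rfl, rfl⟩ := hd_some e
    refine ⟨rfl, u ++ [Y], v1, by simp, ?_⟩
    rintro v' e' hv
    rw [h1, List.nil_append] at e'
    subst e'
    have := h5 (Y :: v1) (by simp [h1]) ⟨fun B hB => ?_, fun B hB h => ?_⟩
    · simpa using this
    · rcases h2 B hB with h | rfl
      · exact List.mem_cons_of_mem _ (hv.1 B h)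
      · simp
    · rcases List.mem_cons.1 h with h | h
      · exact h3 B hB h.symm
      · exact hv.2 B hB h
  | bk l W h1 =>
    obtain ⟨rfl, u, v, e, h5⟩ := hc
    obtain ⟨rfl, rfl⟩ := hd_none e
    refine ⟨rfl, [], u, by simp, ?_, by simp⟩
    simpa using h5 [] (by simp [h1]) ⟨by simp, by simp⟩
  | o1 S a =>
    obtain ⟨rfl, u, v, e, h1, h2⟩ := hc
    obtain ⟨v1, rfl, rfl⟩ := hd_some e
    exact ⟨u, v1, by simp, by simpa using h1⟩
  | o2 a =>
    obtain ⟨u, v, e, h1⟩ := hc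
    obtain ⟨v1, rfl, rfl⟩ := hd_some e
    exact ⟨u, v1, by simp, by simpa using h1⟩
  | f1 S =>
    obtain ⟨rfl, u, v, e, h1, h2⟩ := hc
    obtain ⟨rfl, rfl⟩ := hd_none e
    exact ⟨u, by simp, by simpa using h1⟩
  | f2 =>
    obtain ⟨u, v, e, h1⟩ := hc
    obtain ⟨rfl, rfl⟩ := hd_none e
    exact ⟨u, by simp, by simpa using h1⟩

theorem q_sound {P : Set (GR T N)} {n : ℕ} {s : List (Symbol T N)} {w : List T}
    (h : ReflTransGen (QS (RR P n)) (.L ∅, s.map some ++ [none], []) (.F, [], w)) :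
    ReflTransGen (Gen P) s (w.map .terminal) := by
  have key : ∀ c, ReflTransGen (QS (RR P n)) (.L ∅, s.map some ++ [none], []) c →
      QI P n s c.1 c.2.1 c.2.2 := by
    intro c hc
    induction hc with
    | refl => exact ⟨rfl, [], s, by simp, .refl, by simp⟩
    | tail _ h ih => exact qi_step h ih
  obtain ⟨u, e, h1⟩ := key _ h
  have : u = [] := by simpa using e.symm
  subst this
  exact h1

theorem copyL (P : Set (GR T N)) (n : ℕ) (u : List (Symbol T N)) : ∀ (S : Finset N) γ,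
    ∃ S' : Finset N, (∀ B, B ∈ S' ↔ B ∈ S ∨ .nonterminal B ∈ u) ∧
      ReflTransGen (QS (RR P n)) (.L S, u.map some ++ γ, []) (.L S', γ ++ u.map some, []) := by
  induction u with
  | nil => intro S γ; exact ⟨S, by simp, by simpa using .refl⟩
  | cons Y u ih =>
    intro S γ
    obtain ⟨S1, h1⟩ : ∃ S1 : Finset N, ∀ B, B ∈ S1 ↔ B ∈ S ∨ Y = .nonterminal B := by
      cases Y with
      | terminal a => exact ⟨S, by simp⟩
      | nonterminal A => exact ⟨insert A S, fun B => by simp [or_comm, eq_comm]⟩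
    obtain ⟨S', h2, h3⟩ := ih S1 (γ ++ [some Y])
    refine ⟨S', fun B => by rw [h2, h1]; simp [or_assoc, eq_comm], ReflTransGen.head
      (b := (.L S1, u.map some ++ (γ ++ [some Y]), [])) ?_ (by simpa using h3)⟩
    exact ⟨_, _, _, _, TT.cl S S1 Y h1, rfl, by simp, rfl⟩

theorem matchR (P : Set (GR T N)) (n : ℕ) (U W : Finset N) (l : List (Symbol T N)) :
    ∀ (hl : l.length ≤ n) γ, ReflTransGen (QS (RR P n)) (.R ⟨l, hl⟩ U W, l.map some ++ γ, [])
      (.R ⟨[], by simp⟩ U W, γ, []) := by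
  induction l with
  | nil => intro hl γ; exact .refl
  | cons Y l ih =>
    intro hl γ
    refine ReflTransGen.head ?_ (ih (by simp at hl; omega) γ)
    exact ⟨_, _, _, _, TT.mt _ _ Y U W rfl, rfl, by simp, rfl⟩

theorem copyR (P : Set (GR T N)) (n : ℕ) (W : Finset N) (v : List (Symbol T N)) :
    ∀ (U : Finset N) γ, Ok U W v →
      ReflTransGen (QS (RR P n)) (.R ⟨[], by simp⟩ U W, v.map some ++ γ, [])
        (.R ⟨[], by simp⟩ ∅ W, γ ++ v.map some, []) := by
  induction v with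
  | nil =>
    intro U γ h
    have : U = ∅ := Finset.eq_empty_of_forall_notMem fun B hB => by simpa using h.1 B hB
    subst this
    simpa using .refl
  | cons Y v ih =>
    intro U γ h
    have h3 := ih (U.filter fun B => Y ≠ .nonterminal B) (γ ++ [some Y])
      ⟨fun B hB => by
        obtain ⟨h1, h2⟩ := Finset.mem_filter.1 hB
        rcases List.mem_cons.1 (h.1 B h1) with h | h
        · exact (h2 h.symm).elim
        · exact h, fun B hB h1 => h.2 B hB (List.mem_cons_of_mem _ h1)⟩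
    refine ReflTransGen.head
      (b := (.R ⟨[], Nat.zero_le _⟩ (U.filter fun B => Y ≠ .nonterminal B) W,
        v.map some ++ (γ ++ [some Y]), [])) ?_ (by simpa using h3)
    refine ⟨_, _, _, _, TT.cr _ Y U _ W rfl (fun B hB => ?_) (fun B hB e => h.2 B hB (by simp [e])),
      rfl, by simp, rfl⟩
    by_cases e : Y = .nonterminal B <;> simp [e, hB]

theorem outO (P : Set (GR T N)) (n : ℕ) (w : List T) : ∀ w0 : List T,
    ReflTransGen (QS (RR P n)) (.O, (w.map Symbol.terminal).map some ++ [none], w0)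
      (.F, [], w0 ++ w) := by
  induction w with
  | nil => intro w0; exact .single ⟨_, _, _, _, TT.f2, rfl, rfl, rfl⟩
  | cons a w ih =>
    intro w0
    refine ReflTransGen.head ?_ (by simpa using ih (w0 ++ [a]))
    exact ⟨_, _, _, _, TT.o2 a, rfl, by simp, rfl⟩

theorem q_complete {P : Set (GR T N)} {n : ℕ} (hn : ∀ r ∈ P, r.1 ≠ [] ∧ r.1.length ≤ n)
    {s : List (Symbol T N)} {w : List T} (h : ReflTransGen (Gen P) s (w.map .terminal)) :
    ReflTransGen (QS (RR P n)) (.L ∅, s.map some ++ [none], []) (.F, [], w) := by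
  have key : ∀ α, ReflTransGen (Gen P) s α → ReflTransGen (QS (RR P n))
      (.L ∅, s.map some ++ [none], []) (.L ∅, α.map some ++ [none], []) := by
    intro α hα
    induction hα with
    | refl => exact .refl
    | tail _ h ih =>
      obtain ⟨u, v, r, h1, rfl, rfl, h2, h3⟩ := h
      obtain ⟨h4, h5⟩ := hn r h1
      obtain ⟨Y, l, e⟩ := List.exists_cons_of_ne_nil h4
      have hl : l.length ≤ n := by rw [e] at h5; simp at h5; omega
      obtain ⟨S', h6, h7⟩ := copyL P n u ∅ ((r.1 ++ v).map some ++ [none])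
      have h8 := matchR P n r.2.2.2.1 r.2.2.2.2 l hl
        (v.map some ++ (none :: (u ++ r.2.1).map some))
      have h9 := copyR P n _ v _ (none :: (u ++ r.2.1).map some) h3
      refine ((ih.trans (by simpa using h7)).tail ?_).trans ((h8.trans h9).tail ?_)
      · refine ⟨_, _, _, _, TT.ap S' r Y ⟨l, hl⟩ h1 e (fun B hB => ?_) (fun B hB => ?_),
          by simp only [e]; rfl, by simp, rfl⟩
        · exact (h6 B).2 (Or.inr (h2.1 B hB))
        · rw [h6]; simpa using h2.2 B hB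
      · exact ⟨_, _, _, _, TT.bk _ _ rfl, rfl, by simp, rfl⟩
  refine (key _ h).trans ?_
  cases w with
  | nil => exact .single ⟨_, _, _, _, TT.f1 ∅, rfl, rfl, rfl⟩
  | cons a w =>
    refine ReflTransGen.head ?_ (outO P n w [a])
    exact ⟨_, _, _, _, TT.o1 ∅ a, rfl, by simp, rfl⟩

theorem gen_left [Finite T] [Finite N] {P : Set (GR T N)} (hP : P.Finite)
    (hn : ∀ r ∈ P, r.1 ≠ []) (s : List (Symbol T N)) :
    ∃ (N' : Type) (_ : Finite N') (S : N')
      (P' : Finset (N' × List (Symbol T N') × Finset N' × Finset N')),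
      ∀ w : List T, ReflTransGen (Gen P) s (w.map .terminal) ↔
        ReflTransGen (LStep (↑P')) [.nonterminal S] (w.map .terminal) := by
  obtain ⟨n, hn'⟩ := (hP.image fun r => r.1.length).bddAbove
  obtain ⟨N', h1, S, P', h⟩ := main (RR_fin hP n) (.L ∅) .F (s.map some ++ [none])
  exact ⟨N', h1, S, P', fun w => Iff.trans
    ⟨q_complete fun r hr => ⟨hn r hr, hn' ⟨r, hr, rfl⟩⟩, q_sound⟩ (h w)⟩

end Pool.Agent.H16.LRC
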