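import Mathlib

set_option autoImplicit false

namespace Pool.Agent.H16.LStable

/-- A finite first-order signature; constants are function symbols of arity zero. -/
structure Sig where
  F : Type
  P : Type
  finF : Finite F
  finP : Finite P
  arF : F → ℕ
  arP : P → ℕ

/-- Terms with variables from `V`. -/
inductive Tm (σ : Sig) (V : Type) : Type
  | var : V → Tm σ V
  | app : (f : σ.F) → (Fin (σ.arF f) → Tm σ V) → Tm σ V

/-- Atoms with variables from `V`. -/
structure Atom (σ : Sig) (V : Type) where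
  p : σ.P
  args : Fin (σ.arP p) → Tm σ V

/-- A normal rule `head ← pos, ∼ neg`. -/
structure Rule (σ : Sig) where
  head : Atom σ ℕ
  pos : List (Atom σ ℕ)
  neg : List (Atom σ ℕ)

variable {σ : Sig}

/-- Grounding of a term. -/
def Tm.sub (θ : ℕ → Tm σ Empty) : Tm σ ℕ → Tm σ Empty
  | .var x => θ x
  | .app f a => .app f fun i => (a i).sub θ

/-- Grounding of an atom. -/
def Atom.sub (θ : ℕ → Tm σ Empty) (a : Atom σ ℕ) : Atom σ Empty :=
  ⟨a.p, fun i => (a.args i).sub θ⟩

/-- The variable `x` occurs in the term. -/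
def Tm.Occ (x : ℕ) : Tm σ ℕ → Prop
  | .var y => x = y
  | .app _ a => ∃ i, (a i).Occ x

/-- The function symbol `g` occurs in the term. -/
def Tm.Uses (g : σ.F) : Tm σ ℕ → Prop
  | .var _ => False
  | .app f a => f = g ∨ ∃ i, (a i).Uses g

/-- Every variable in the body of a rule occurs in its head. -/
def IVF (P : List (Rule σ)) : Prop :=
  ∀ r ∈ P, ∀ a ∈ r.pos ++ r.neg, ∀ x, (∃ i, (a.args i).Occ x) → ∃ i, (r.head.args i).Occ x

/-- Every symbol of the signature occurs in the program. -/
def UsesAll (P : List (Rule σ)) : Prop :=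
  (∀ p, ∃ r ∈ P, ∃ a ∈ r.head :: (r.pos ++ r.neg), a.p = p) ∧
    ∀ g, ∃ r ∈ P, ∃ a ∈ r.head :: (r.pos ++ r.neg), ∃ i, (a.args i).Uses g

/-- Three-valued interpretations: `0 < 1 < 2` stand for false, undefined, true. -/
abbrev Interp (σ : Sig) := Atom σ Empty → Fin 3

/-- Value under `M` of the body of the ground instance `r θ` in the reduct by `I`: a remaining
negative literal with `I`-undefined atom is the constant `u`, the others are deleted. -/
def bodyVal (I M : Interp σ) (r : Rule σ) (θ : ℕ → Tm σ Empty) : Fin 3 :=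
  ((r.pos.map fun a => M (Atom.sub θ a)) ++
    (r.neg.map fun b => if I (Atom.sub θ b) = 1 then 1 else 2)).foldr min 2

/-- `M` is a three-valued model of the reduct of `P` by `I`. -/
def RedModel (P : List (Rule σ)) (I M : Interp σ) : Prop :=
  ∀ r ∈ P, ∀ θ : ℕ → Tm σ Empty, (∀ b ∈ r.neg, I (b.sub θ) ≠ 2) →
    bodyVal I M r θ ≤ M (r.head.sub θ)

/-- `I` is the least three-valued model of the reduct of `P` by `I`. -/
def Stable (P : List (Rule σ)) (I : Interp σ) : Prop := IsLeast {M | RedModel P I M} I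

/-- A stable model whose set of undefined atoms is minimal. -/
def IsLStable (P : List (Rule σ)) (I : Interp σ) : Prop :=
  Stable P I ∧ ¬ ∃ J, Stable P J ∧ {a | J a = 1} ⊂ {a | I a = 1}

inductive Pr : Type
  | c | d | e | g | r
  deriving DecidableEq, Fintype

abbrev S : Sig := ⟨Bool, Pr, inferInstance, inferInstance, fun b => if b then 1 else 0, fun _ => 1⟩

def zr {V : Type} : Tm S V := .app false Fin.elim0

def sc {V : Type} (t : Tm S V) : Tm S V := .app true fun _ => t

def at1 {V : Type} (p : Pr) (t : Tm S V) : Atom S V := ⟨p, fun _ => t⟩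

def X : Tm S ℕ := .var 0

def P0 : List (Rule S) :=
  [⟨at1 .c X, [], [at1 .d X]⟩, ⟨at1 .d X, [], [at1 .c X]⟩,
    ⟨at1 .e X, [at1 .c X], []⟩, ⟨at1 .e X, [at1 .e (sc X)], []⟩,
    ⟨at1 .g X, [], [at1 .e X]⟩, ⟨at1 .g X, [at1 .g (sc X)], []⟩,
    ⟨at1 .r X, [], [at1 .r X, at1 .e X]⟩, ⟨at1 .r X, [], [at1 .r X, at1 .g zr]⟩]

theorem ivf : IVF P0 := by
  simp [IVF, P0, at1, X, Tm.Occ, sc, zr]

theorem usesAll : UsesAll P0 := by
  constructor
  · intro p
    cases p <;> simp [P0, at1]
  · intro g
    cases g <;> simp [P0, at1, X, Tm.Uses, sc, zr]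

def num : ℕ → Tm S Empty
  | 0 => zr
  | n + 1 => sc (num n)

def val : Tm S Empty → ℕ
  | .var x => x.elim
  | .app false _ => 0
  | .app true a => val (a ⟨0, by simp⟩) + 1

theorem val_num (n : ℕ) : val (num n) = n := by
  induction n with
  | zero => rfl
  | succ n ih => simp [num, sc, val, ih]

theorem num_val (t : Tm S Empty) : num (val t) = t := by
  induction t with
  | var x => exact x.elim
  | app f a ih =>
    cases f
    · simp only [val, num, zr]
      congr 1
      funext i
      exact i.elim0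
    · simp only [val, num, sc, ih]
      congr 1
      funext i
      congr 1
      exact Subsingleton.elim (α := Fin 1) _ _

theorem atom_eq (a : Atom S Empty) : a = at1 a.p (num (val (a.args 0))) := by
  obtain ⟨p, a⟩ := a
  simp only [at1, num_val]
  congr 1
  funext i
  congr 1
  exact Subsingleton.elim (α := Fin 1) _ _

theorem sub_zr (θ : ℕ → Tm S Empty) : (zr : Tm S ℕ).sub θ = num 0 := by
  simp only [zr, Tm.sub, num]
  congr 1
  funext i
  exact i.elim0

/-- The numeric form of the reduct condition. -/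
def RM (i m : Pr → ℕ → Fin 3) : Prop :=
  ∀ n, (i .d n ≠ 2 → (if i .d n = 1 then 1 else 2) ≤ m .c n) ∧
    (i .c n ≠ 2 → (if i .c n = 1 then 1 else 2) ≤ m .d n) ∧
    m .c n ≤ m .e n ∧ m .e (n + 1) ≤ m .e n ∧
    (i .e n ≠ 2 → (if i .e n = 1 then 1 else 2) ≤ m .g n) ∧ m .g (n + 1) ≤ m .g n ∧
    (i .r n ≠ 2 → i .e n ≠ 2 →
      min (if i .r n = 1 then 1 else 2) (if i .e n = 1 then 1 else 2) ≤ m .r n) ∧
    (i .r n ≠ 2 → i .g 0 ≠ 2 →
      min (if i .r n = 1 then 1 else 2) (if i .g 0 = 1 then 1 else 2) ≤ m .r n)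

def toN (I : Interp S) : Pr → ℕ → Fin 3 := fun p n => I (at1 p (num n))

def ofN (m : Pr → ℕ → Fin 3) : Interp S := fun a => m a.p (val (a.args 0))

theorem toN_ofN (m : Pr → ℕ → Fin 3) : toN (ofN m) = m := by
  funext p n
  simp [toN, ofN, at1, val_num]

theorem ofN_toN (I : Interp S) : ofN (toN I) = I := by
  funext a
  simp only [toN, ofN]
  rw [← atom_eq]

theorem min2 : ∀ x : Fin 3, min x 2 = x := by decide

theorem red_iff (I M : Interp S) : RedModel P0 I M ↔ RM (toN I) (toN M) := by
  have hX : ∀ p (θ : ℕ → Tm S Empty), (at1 p X).sub θ = at1 p (θ 0) := fun _ _ => rfl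
  have hs : ∀ p (θ : ℕ → Tm S Empty), (at1 p (sc X)).sub θ = at1 p (sc (θ 0)) := fun _ _ => rfl
  have hz : ∀ p (θ : ℕ → Tm S Empty), (at1 p zr).sub θ = at1 p (num 0) := fun p θ => by
    simp only [at1, Atom.sub, sub_zr]
  simp only [RedModel, P0, List.forall_mem_cons, bodyVal, List.map_cons, List.map_nil,
    List.nil_append, List.append_nil, List.foldr_cons, List.foldr_nil, hX, hs, hz, min2,
    List.not_mem_nil, IsEmpty.forall_iff, implies_true, and_true, true_imp_iff, and_imp]
  constructor
  · rintro ⟨h1, h2, h3, h4, h5, h6, h7, h8⟩ n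
    exact ⟨h1 fun _ => num n, h2 fun _ => num n, h3 fun _ => num n, h4 fun _ => num n,
      h5 fun _ => num n, h6 fun _ => num n, h7 fun _ => num n, h8 fun _ => num n⟩
  · intro h
    refine ⟨fun θ => ?_, fun θ => ?_, fun θ => ?_, fun θ => ?_, fun θ => ?_, fun θ => ?_,
      fun θ => ?_, fun θ => ?_⟩ <;> rw [← num_val (θ 0)] <;>
      obtain ⟨h1, h2, h3, h4, h5, h6, h7, h8⟩ := h (val (θ 0)) <;> assumption

theorem stable_iff (i : Pr → ℕ → Fin 3) :
    Stable P0 (ofN i) ↔ RM i i ∧ ∀ m, RM i m → ∀ p n, i p n ≤ m p n := by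
  unfold Stable IsLeast
  simp only [Set.mem_ofPred_eq, mem_lowerBounds, red_iff, toN_ofN]
  refine and_congr_right fun _ => ⟨fun h m hm p n => ?_, fun h M hM a => ?_⟩
  · have := h (ofN m) (by rwa [toN_ofN]) (at1 p (num n))
    simpa [ofN, at1, val_num] using this
  · rw [← ofN_toN M]
    exact h _ hM _ _

def J (k : ℕ) : Pr → ℕ → Fin 3
  | .c, n => if n ≤ k then 2 else 0
  | .d, n => if n ≤ k then 0 else 2
  | .e, n => if n ≤ k then 2 else 0
  | .g, _ => 2
  | .r, n => if n ≤ k then 0 else 1

theorem J_stable (k : ℕ) : Stable P0 (ofN (J k)) := by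
  rw [stable_iff]
  constructor
  · intro n
    simp only [J]
    by_cases h : n ≤ k <;> by_cases h' : n + 1 ≤ k <;> simp [h, h']
    omega
  · intro m hm p n
    have hc : ∀ n, n ≤ k → 2 ≤ m .c n := fun n h => by
      simpa [J, h] using (hm n).1
    have hg : ∀ j n, k < n + j → 2 ≤ m .g n := by
      intro j
      induction j with
      | zero =>
        intro n h
        have h' : ¬ n ≤ k := by omega
        simpa [J, h'] using (hm n).2.2.2.2.1
      | succ j ih => exact fun n h => (ih (n + 1) (by omega)).trans (hm n).2.2.2.2.2.1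
    cases p
    · by_cases h : n ≤ k
      · simpa [J, h] using hc n h
      · simp [J, h]
    · by_cases h : n ≤ k
      · simp [J, h]
      · simpa [J, h] using (hm n).2.1
    · by_cases h : n ≤ k
      · simpa [J, h] using (hc n h).trans (hm n).2.2.1
      · simp [J, h]
    · exact hg (k + 1) n (by omega)
    · by_cases h : n ≤ k
      · simp [J, h]
      · simpa [J, h] using (hm n).2.2.2.2.2.2.1

theorem tail_undef (i : Pr → ℕ → Fin 3) (h : Stable P0 (ofN i)) :
    ∃ k, ∀ n, k ≤ n → i .r n = 1 := by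
  rw [stable_iff] at h
  obtain ⟨h1, h2⟩ := h
  have hr : ∀ n, i .r n ≠ 2 := by
    intro n hn
    have := h2 (fun p j => if p = .r ∧ j = n then 0 else i p j) (by
      intro j
      obtain ⟨a1, a2, a3, a4, a5, a6, a7, a8⟩ := h1 j
      simp only [reduceCtorEq, false_and, if_false, true_and]
      refine ⟨a1, a2, a3, a4, a5, a6, ?_, ?_⟩
      · by_cases hj : j = n
        · subst hj
          exact fun h => absurd hn h
        · rw [if_neg hj]
          exact a7
      · by_cases hj : j = n
        · subst hj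
          exact fun h => absurd hn h
        · rw [if_neg hj]
          exact a8) .r n
    simp [hn] at this
  have key : ∀ x y : Fin 3, x ≠ 2 →
      min (if x = 1 then 1 else 2) (if y = 1 then 1 else 2) ≤ x → x = 1 := by decide
  by_cases hg : i .g 0 = 2
  · have he : ∃ k, i .e k = 0 := by
      by_contra hne
      push Not at hne
      have k1 : ∀ x y : Fin 3, x ≠ 0 → (x ≠ 2 → (if x = 1 then 1 else 2) ≤ y) → x ≠ 2 →
          (if x = 1 then 1 else 2) ≤ min y 1 := by decide
      have := h2 (fun p j => if p = .g then min (i p j) 1 else i p j) (by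
        intro j
        obtain ⟨a1, a2, a3, a4, a5, a6, a7, a8⟩ := h1 j
        simp only [reduceCtorEq, if_false, if_true]
        exact ⟨a1, a2, a3, a4, k1 _ _ (hne j) a5, min_le_min_right _ a6, a7, a8⟩) .g 0
      simp [hg] at this
    obtain ⟨k, hk⟩ := he
    have h0 : ∀ n, k ≤ n → i .e n ≤ 0 := by
      intro n hn
      induction n, hn using Nat.le_induction with
      | base => exact hk.le
      | succ n _ ih => exact (h1 n).2.2.2.1.trans ih
    refine ⟨k, fun n hn => key _ _ (hr n) ((h1 n).2.2.2.2.2.2.1 (hr n) fun h => ?_)⟩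
    have := h0 n hn
    rw [h] at this
    exact absurd this (by decide)
  · exact ⟨0, fun n _ => key _ _ (hr n) ((h1 n).2.2.2.2.2.2.2 (hr n) hg)⟩

theorem noL (I : Interp S) : ¬ IsLStable P0 I := by
  rintro ⟨h1, h2⟩
  rw [← ofN_toN I] at h1 h2
  obtain ⟨k, hk⟩ := tail_undef _ h1
  refine h2 ⟨ofN (J k), J_stable k, fun a ha => ?_, fun h => ?_⟩
  · simp only [Set.mem_ofPred_eq, ofN] at ha ⊢
    generalize val (a.args 0) = n at ha ⊢
    generalize a.p = p at ha ⊢
    cases p <;> simp only [J] at ha
    all_goals first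
      | exact absurd ha (by decide)
      | (split_ifs at ha with h <;> first | exact absurd ha (by decide) | exact hk n (by omega))
  · have := h (a := at1 .r (num k)) (by simpa [ofN, at1, val_num] using hk k le_rfl)
    simp [ofN, at1, val_num, J] at this

end Pool.Agent.H16.LStable
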