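import Pool.Agent.H16.MSumDefs
import Pool.Agent.H16.Cap3

set_option autoImplicit false

namespace Pool.Agent.H16.MSum
open Finset Pool.Agent.H11.PT Pool.Agent.H25.CB
open Classical

section
variable {V : Type} [Fintype V] (G : SimpleGraph V)

theorem mE_le (q : ℕ) : mE G ≤ q ↔ ∃ l, Proper G l ∧ ∑ e ∈ G.edgeFinset, l e ≤ q := by
  refine ⟨fun h => ?_, fun ⟨l, h1, h2⟩ => (iInf₂_le l h1).trans (by exact_mod_cast h2)⟩
  by_contra hn
  push Not at hn
  have : ((q + 1 : ℕ) : ℕ∞) ≤ mE G := le_iInf₂ fun l h => by exact_mod_cast hn l h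
  have := this.trans h
  norm_cast at this
  omega

theorem nice_of (h : ∀ u v, G.Adj u v → G.degree u ≠ 1 ∨ G.degree v ≠ 1) : Nice G := by
  refine fun C => ⟨fun f => ?_⟩
  have k : ∀ i j : Fin 2, i ≠ j → G.Adj (f.symm i).1 (f.symm j).1 ∧ G.degree (f.symm i).1 = 1 := by
    intro i j hij
    have a : G.Adj (f.symm i).1 (f.symm j).1 := f.symm.map_adj_iff.2 hij
    refine ⟨a, SimpleGraph.degree_eq_one_iff_existsUnique_adj.2 ⟨_, a, fun w hw => ?_⟩⟩
    have hw' : w ∈ C.supp := C.mem_supp_of_adj_mem_supp (f.symm i).2 hw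
    have b : C.toSimpleGraph.Adj (f.symm i) ⟨w, hw'⟩ := hw
    have c := f.map_adj_iff.2 b
    have d : f ⟨w, hw'⟩ = j := by
      simp only [RelIso.apply_symm_apply, SimpleGraph.top_adj] at c
      omega
    rw [← d]; simp
  have := k 0 1 (by decide)
  have := k 1 0 (by decide)
  have := h _ _ this.1
  tauto

theorem col_eq (l : Sym2 V → ℕ) (v : V) : col G l v = ∑ u ∈ G.neighborFinset v, l s(v, u) := by
  unfold col
  symm
  refine sum_bij (fun u _ => s(v, u)) (fun u hu => by simpa using hu) (fun a _ b _ e => Sym2.congr_right.1 e)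
    (fun e he => ?_) fun _ _ => rfl
  obtain ⟨h1, h2⟩ := (G.mem_incidenceFinset v e).1 he
  obtain ⟨u, rfl⟩ := Sym2.mem_iff_exists.1 h2
  exact ⟨u, by simpa using h1, rfl⟩

theorem col_deg (l : Sym2 V → ℕ) (v : V) (h : ∀ u, G.Adj v u → l s(v, u) = 1) :
    col G l v = G.degree v := by
  rw [col_eq, sum_congr rfl (g := fun _ => 1) fun u hu => h u (by simpa using hu)]
  simp

theorem low (l : Sym2 V → ℕ) (h1 : ∀ e ∈ G.edgeSet, 1 ≤ l e) (I : Finset V)
    (h2 : ∀ u ∈ I, ∀ v ∈ I, ¬ G.Adj u v) (h3 : ∀ v ∈ I, ∃ u, G.Adj v u ∧ l s(v, u) ≠ 1)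
    (h4 : ∑ e ∈ G.edgeFinset, l e ≤ #G.edgeFinset + #I) :
    ∀ u v, G.Adj u v → l s(u, v) ≠ 1 → u ∈ I ∨ v ∈ I := by
  choose! p p1 p2 using h3
  intro u v a b
  have c : #{e ∈ G.edgeFinset | l e ≠ 1} ≤ #I := by
    have : ∑ e ∈ G.edgeFinset, (1 + if l e ≠ 1 then 1 else 0) ≤ ∑ e ∈ G.edgeFinset, l e :=
      sum_le_sum fun e he => by have := h1 e (by simpa using he); split_ifs <;> omega
    rw [sum_add_distrib, ← card_filter] at this
    simp only [sum_const, smul_eq_mul, mul_one] at this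
    omega
  have d : I.image (fun a => s(a, p a)) = {e ∈ G.edgeFinset | l e ≠ 1} := by
    refine eq_of_subset_of_card_le (fun e he => ?_) (c.trans (card_image_of_injOn ?_).ge)
    · obtain ⟨a, ha, rfl⟩ := mem_image.1 he
      simpa using ⟨p1 a ha, p2 a ha⟩
    · intro a ha b hb e
      rcases Sym2.eq_iff.1 e with e | e
      · exact e.1
      · exact absurd (e.2 ▸ p1 a ha) (h2 a ha b hb)
  obtain ⟨w, hw, e⟩ := mem_image.1 (d.ge (show s(u, v) ∈ _ by simpa using ⟨a, b⟩))
  rcases Sym2.eq_iff.1 e with e | e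
  · exact .inl (e.1 ▸ hw)
  · exact .inr (e.1 ▸ hw)

theorem up (I : Finset V) (p : V → V) (h : ∀ a ∈ I, G.Adj a (p a)) :
    ∃ l : Sym2 V → ℕ, (∀ e, 1 ≤ l e) ∧ ∑ e ∈ G.edgeFinset, l e ≤ #G.edgeFinset + #I ∧
      (∀ v, G.degree v ≤ col G l v ∧ col G l v ≤ 2 * G.degree v) ∧
      (∀ v ∉ I, (∀ a ∈ I, p a ≠ v) → col G l v = G.degree v) ∧
      ∀ a ∈ I, G.degree a < col G l a ∧ G.degree (p a) < col G l (p a) := by
  let T := I.image fun a => s(a, p a)
  refine ⟨fun e => 1 + if e ∈ T then 1 else 0, fun e => Nat.le_add_right _ _, ?_, fun v => ?_, fun v h1 h2 => ?_,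
    fun a ha => ?_⟩
  · rw [sum_add_distrib, ← card_filter]
    have : #{e ∈ G.edgeFinset | e ∈ T} ≤ #I :=
      (card_le_card fun e he => (mem_filter.1 he).2).trans card_image_le
    simp only [sum_const, smul_eq_mul, mul_one]
    omega
  · rw [col_eq, sum_add_distrib, ← card_filter]
    have := card_filter_le (G.neighborFinset v) fun u => s(v, u) ∈ T
    simp only [sum_const, smul_eq_mul, mul_one, SimpleGraph.card_neighborFinset_eq_degree] at *
    omega
  · refine col_deg G _ v fun u _ => ?_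
    rw [if_neg]
    intro e
    obtain ⟨a, ha, e⟩ := mem_image.1 e
    rcases Sym2.eq_iff.1 e with e | e
    · exact h1 (e.1 ▸ ha)
    · exact h2 a ha e.2
  · have k : ∀ v u, G.Adj v u → s(v, u) ∈ T →
        G.degree v < col G (fun e => 1 + if e ∈ T then 1 else 0) v := fun v u a b => by
      rw [col_eq, sum_add_distrib, ← card_filter]
      have : 0 < #{u ∈ G.neighborFinset v | s(v, u) ∈ T} := card_pos.2 ⟨u, by simpa using ⟨a, b⟩⟩
      simp only [sum_const, smul_eq_mul, mul_one, SimpleGraph.card_neighborFinset_eq_degree] at *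
      omega
    exact ⟨k _ _ (h a ha) (mem_image_of_mem _ ha),
      k _ _ (h a ha).symm (Sym2.eq_swap ▸ mem_image_of_mem _ ha)⟩
end

theorem two_card (N : ℕ) (G : SimpleGraph (Fin N)) (B : ℕ → ℕ → Bool)
    (h : ∀ u v, G.Adj u v ↔ B u v = true) : 2 * #G.edgeFinset =
      ((List.range N).map fun u => ((List.range N).map fun v => bif B u v then 1 else 0).sum).sum := by
  rw [← G.sum_degrees_eq_twice_card_edges]
  have e : ∀ f : ℕ → ℕ, ((List.range N).map f).sum = ∑ u : Fin N, f u := fun f => by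
    rw [Fin.sum_univ_eq_sum_range]; rfl
  simp only [e]
  refine sum_congr rfl fun u _ => ?_
  rw [← SimpleGraph.card_neighborFinset_eq_degree, SimpleGraph.neighborFinset_eq_filter, card_filter]
  refine sum_congr rfl fun v _ => ?_
  simp only [h]
  cases B u v <;> simp

def rr (φ : F3) : ℕ := 3 * φ.length + 9
def cd (l : Lit) : ℕ := 2 * l.1 + (bif l.2 then 1 else 0)
def ex (φ : F3) (u : ℕ) : ℕ :=
  if u / 7 % rr φ < 3 * φ.length ∧ cd (lit φ (u / 7 % rr φ)) = u / 7 / rr φ then
    7 * (u / 7 % rr φ / 3) + 2 else u + 1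

def A (φ : F3) (u v : ℕ) : Bool := decide (
  (u % 7 = 0 ∧ v % 7 = 0 ∧ u / 7 / rr φ / 2 = v / 7 / rr φ / 2 ∧ ¬ u / 7 / rr φ = v / 7 / rr φ) ∨
    (u % 7 = 0 ∧ v = ex φ u) ∨ (u % 7 = 3 ∧ u / 7 < φ.length ∧ v / 7 = u / 7 ∧ 2 ≤ v % 7))

def NN (φ : F3) : ℕ := 7 * (2 * nv φ * rr φ)
def B (φ : F3) (u v : ℕ) : Bool := decide (¬ u = v) && (A φ u v || A φ v u)

def red (φ : F3) : ℕ × List (ℕ × ℕ) × List Bool :=
  (NN φ, (List.range (NN φ) ×ˢ List.range (NN φ)).filter fun p => A φ p.1 p.2,
    toBits (((List.range (NN φ)).map fun u => ((List.range (NN φ)).map fun v =>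
      bif B φ u v then 1 else 0).sum).sum / 2 + nv φ * rr φ))

theorem red_pt : PT red := by
  have h1 : PT rr := by unfold rr; fun_prop
  have h3 : PT NN := by unfold NN; fun_prop
  unfold red B A ex cd
  fun_prop

theorem hard : HardFor InNP (fun y : ℕ × List (ℕ × ℕ) × List Bool => Nice (gr y.1 y.2.1))
    fun y => mE (gr y.1 y.2.1) ≤ bin y.2.2 := by
  refine hard_SAT3.hardFor.red red red_pt fun φ _ => ?_
  have hB : ∀ u v : Fin (NN φ), (gr (NN φ) (red φ).2.1).Adj u v ↔ B φ u v = true := fun u v => by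
    simp [gr, red, B, Fin.ext_iff]
  show Nice (gr (NN φ) (red φ).2.1) ∧ (_ ↔ mE (gr (NN φ) (red φ).2.1) ≤ bin (red φ).2.2)
  generalize gr (NN φ) (red φ).2.1 = G at *
  rw [mE_le, show bin (red φ).2.2 = #G.edgeFinset + nv φ * rr φ by
    simp only [red, bin, ofDigits_toBits, ← two_card _ G _ hB]; omega, sat_iff]
  obtain ⟨m, hm⟩ : ∃ m, m = φ.length := ⟨_, rfl⟩
  obtain ⟨r, hr⟩ : ∃ r, r = rr φ := ⟨_, rfl⟩
  obtain ⟨n, hn⟩ : ∃ n, n = nv φ := ⟨_, rfl⟩
  have r0 : r = 3 * m + 9 := by rw [hr, hm, rr]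
  have hN : NN φ = 7 * (2 * n * r) := by rw [hr, hn, NN]
  have n0 : 0 < n := hn ▸ Nat.succ_pos _
  have mN : r ≤ 2 * n * r := Nat.le_mul_of_pos_left _ (by omega)
  obtain ⟨bk, hbk⟩ : ∃ bk : ℕ → ℕ, ∀ u, bk u = u / 7 / r := ⟨_, fun _ => rfl⟩
  obtain ⟨ps, hps⟩ : ∃ ps : ℕ → ℕ, ∀ u, ps u = u / 7 % r := ⟨_, fun _ => rfl⟩
  let A' : ℕ → ℕ → Prop := fun u v =>
    (u % 7 = 0 ∧ v % 7 = 0 ∧ bk u / 2 = bk v / 2 ∧ bk u ≠ bk v) ∨
    (u % 7 = 0 ∧ v = ex φ u) ∨ (u % 7 = 3 ∧ u / 7 < m ∧ v / 7 = u / 7 ∧ 2 ≤ v % 7)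
  have hA : ∀ u v : Fin (NN φ), G.Adj u v ↔ u.val ≠ v ∧ (A' u v ∨ A' v u) := fun u v => by
    simp only [hB, B, A, A', hbk, hr, hm, Bool.and_eq_true, Bool.or_eq_true, decide_eq_true_eq]
  have hx : ∀ u, (ps u < 3 * m ∧ cd (lit φ (ps u)) = bk u ∧
      ex φ u = 7 * (ps u / 3) + 2) ∨
      (¬ (ps u < 3 * m ∧ cd (lit φ (ps u)) = bk u) ∧ ex φ u = u + 1) := fun u => by
    unfold ex
    rw [← hr, ← hm, ← hbk, ← hps]
    split_ifs with h
    · exact .inl ⟨h.1, h.2, rfl⟩
    · exact .inr ⟨h, rfl⟩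
  have hcd : ∀ o, cd (lit φ o) < 2 * n := fun o => by
    have := lit_lt φ o
    unfold cd
    cases (lit φ o).2 <;> simp <;> omega
  have dm : ∀ b o, o < r → bk (7 * (b * r + o)) = b ∧ ps (7 * (b * r + o)) = o ∧
      (b < 2 * n → b * r + o < 2 * n * r) := fun b o h => by
    rw [hbk, hps, Nat.mul_div_cancel_left _ (show 0 < 7 by omega)]
    exact ⟨by rw [add_comm, Nat.add_mul_div_right _ _ (by omega), Nat.div_eq_of_lt h, zero_add],
      by rw [add_comm, Nat.add_mul_mod_self_right, Nat.mod_eq_of_lt h], fun hb => by nlinarith⟩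
  have md : ∀ w, bk w * r + ps w = w / 7 ∧ ps w < r ∧ (w / 7 < 2 * n * r → bk w < 2 * n) := fun w => by
    rw [hbk, hps]
    exact ⟨Nat.div_add_mod' _ _, Nat.mod_lt _ (by omega), fun h => Nat.div_lt_of_lt_mul (by
      rwa [mul_comm] at h)⟩
  clear hbk hps hB
  have hdeg : ∀ (v : Fin (NN φ)) (S : Finset ℕ),
      (∀ x, x ∈ S ↔ x < NN φ ∧ v.val ≠ x ∧ (A' v x ∨ A' x v)) → G.degree v = #S := fun v S h => by
    rw [← SimpleGraph.card_neighborFinset_eq_degree, ← card_map Fin.valEmbedding]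
    congr 1
    ext x
    simp only [mem_map, SimpleGraph.mem_neighborFinset, hA, h, Fin.valEmbedding_apply]
    exact ⟨fun ⟨a, h1, h2⟩ => h2 ▸ ⟨a.2, h1⟩, fun h => ⟨⟨x, h.1⟩, h.2, rfl⟩⟩
  have D1 : ∀ v : Fin (NN φ), v.val % 7 = 0 → G.degree v = r + 1 := fun v hv => by
    have := v.2
    have h1 := hx v
    have h2 := md v
    obtain ⟨b, hb⟩ : ∃ b, b / 2 = bk v / 2 ∧ b ≠ bk v :=
      ⟨if bk v % 2 = 0 then bk v + 1 else bk v - 1, by split_ifs <;> omega⟩
    rw [hdeg v (insert (ex φ v) ((range r).image fun o => 7 * (b * r + o))),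
      card_insert_of_notMem, card_image_of_injective, card_range]
    · intro x y e
      simp only at e
      omega
    · simp only [mem_image]
      rintro ⟨o, -, e⟩
      omega
    · intro x
      simp only [mem_insert, mem_image, mem_range, A']
      constructor
      · rintro (rfl | ⟨o, ho, rfl⟩)
        · omega
        · have := dm b o ho
          refine ⟨by omega, fun e => ?_, by omega⟩
          rw [e] at hb
          omega
      · intro h
        have h3 := hx x
        have h4 := md x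
        by_cases e : x = ex φ v
        · exact .inl e
        · exact .inr ⟨ps x, h4.2.1, by rw [show b = bk x by omega]; omega⟩
  have D2 : ∀ v : Fin (NN φ), v.val % 7 = 3 → v.val / 7 < m → G.degree v = 4 := fun v h1 h2 => by
    rw [hdeg v {v.val - 1, v.val + 1, v.val + 2, v.val + 3}]
    · exact card_eq_four.2 ⟨_, _, _, _, by omega, by omega, by omega, by omega, by omega, by omega, rfl⟩
    · intro x
      have := hx x
      simp only [mem_insert, mem_singleton, A']
      omega
  have sl : ∀ o < 3 * m, 7 * (cd (lit φ o) * r + o) < NN φ ∧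
      ex φ (7 * (cd (lit φ o) * r + o)) = 7 * (o / 3) + 2 := fun o ho => by
    have h1 := dm (cd (lit φ o)) o (by omega)
    have h2 := hx (7 * (cd (lit φ o) * r + o))
    have := hcd o
    rw [h1.1, h1.2.1] at h2
    omega
  have D3 : ∀ v : Fin (NN φ), v.val % 7 = 2 → v.val / 7 < m → G.degree v = 4 := fun v h1 h2 => by
    rw [hdeg v (insert (v.val + 1) ((Ico (3 * (v.val / 7)) (3 * (v.val / 7) + 3)).image
      fun o => 7 * (cd (lit φ o) * r + o))), card_insert_of_notMem, card_image_of_injOn]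
    · simp
    · intro x a y b e
      simp only [coe_Ico, Set.mem_Ico] at a b e
      rw [← (dm (cd (lit φ x)) x (by omega)).2.1, ← (dm (cd (lit φ y)) y (by omega)).2.1, e]
    · simp only [mem_image]
      rintro ⟨o, -, e⟩
      omega
    · intro x
      simp only [mem_insert, mem_image, mem_Ico, A']
      constructor
      · rintro (rfl | ⟨o, ho, rfl⟩)
        · omega
        · have := sl o (by omega)
          omega
      · intro h
        have h3 := hx x
        have h4 := md x
        by_cases e : x = v + 1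
        · exact .inl e
        · exact .inr ⟨ps x, by omega, by rw [show cd _ = bk x by omega]; omega⟩
  have D4 : ∀ v : Fin (NN φ), v.val % 7 = 1 ∨ 4 ≤ v.val % 7 → G.degree v ≤ 1 := fun v h => by
    refine card_le_one.2 fun a ha b hb => Fin.ext ?_
    have := hx a; have := hx b
    simp only [SimpleGraph.mem_neighborFinset, hA, A'] at ha hb
    omega
  let I : (ℕ → Bool) → Finset (Fin (NN φ)) := fun σ =>
    {v | v.val % 7 = 0 ∧ bk v = cd (bk v / 2, σ (bk v / 2))}
  have cs : ∀ i b, cd (i, b) / 2 = i := fun i b => by unfold cd; cases b <;> simp <;> omega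
  have hI : ∀ σ, #(I σ) = n * r := fun σ => by
    rw [← card_map Fin.valEmbedding, show (I σ).map Fin.valEmbedding = (range n ×ˢ range r).image
      fun p => 7 * (cd (p.1, σ p.1) * r + p.2) from ?_, card_image_of_injOn]
    · simp
    · rintro ⟨i, o⟩ a ⟨i', o'⟩ b e
      simp only [coe_product, coe_range, Set.mem_prod, Set.mem_Iio] at a b e
      have h1 := dm (cd (i, σ i)) o a.2
      have h2 := dm (cd (i', σ i')) o' b.2
      rw [e] at h1
      have := cs i (σ i); have := cs i' (σ i')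
      exact Prod.ext (by simp only; omega) (by simp only; omega)
    · ext x
      simp only [mem_map, I, mem_filter, mem_univ, true_and, Fin.valEmbedding_apply, mem_image,
        mem_product, mem_range]
      constructor
      · rintro ⟨v, ⟨h1, h2⟩, rfl⟩
        have := v.2
        have := md v
        exact ⟨(bk v / 2, ps v), ⟨by simp only; omega, this.2.1⟩, by
          simp only [← h2]; omega⟩
      · rintro ⟨⟨i, o⟩, ⟨h1, h2⟩, rfl⟩
        have h3 := dm (cd (i, σ i)) o h2
        have := cs i (σ i)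
        simp only at h1
        refine ⟨⟨7 * (cd (i, σ i) * r + o), by omega⟩, ⟨by simp only; omega, ?_⟩, rfl⟩
        simp only [h3.1, this]
  refine ⟨nice_of G fun u v h => ?_, ?_, ?_⟩
  · have := D1 u; have := D1 v; have := D2 u; have := D2 v
    simp only [hA, A'] at h
    omega
  · rintro ⟨σ, h⟩
    have xN : ∀ a : Fin (NN φ), a.val % 7 = 0 → ex φ a < NN φ := fun a h => by
      have := hx a; have := a.2; omega
    obtain ⟨l, l1, l2, l3, l4, l5⟩ := up G (I σ)
      (fun a => if h : a.val % 7 = 0 then ⟨ex φ a, xN a h⟩ else a) fun a ha => by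
        have h1 : a.val % 7 = 0 := (mem_filter.1 ha).2.1
        have := hx a
        rw [dif_pos h1, hA]
        exact ⟨by simp only; omega, .inl (.inr (.inl ⟨h1, rfl⟩))⟩
    have l6 : ∀ v : Fin (NN φ), v ∉ I σ → v.val % 7 = 0 ∨ v.val % 7 = 3 → col G l v = G.degree v :=
      fun v h1 h2 => l4 v h1 fun a ha e => by
        have := hx a
        have h0 := (mem_filter.1 ha).2.1
        rw [dif_pos h0, Fin.ext_iff] at e
        simp only at e
        omega
    refine ⟨l, ⟨fun e _ => l1 e, ?_⟩, by rwa [hI, hn, hr] at l2⟩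
    have k : ∀ u v : Fin (NN φ), u.val ≠ v → A' u v → col G l u ≠ col G l v := by
      intro u v h1 h2
      have a1 := l3 u; have a2 := l3 v
      obtain h2 | h2 | h2 := h2
      · have := D1 u h2.1; have := D1 v h2.2.1
        have e : (u ∈ I σ ∧ v ∉ I σ) ∨ (v ∈ I σ ∧ u ∉ I σ) := by
          simp only [I, mem_filter, mem_univ, true_and, ← h2.2.2.1]
          have := cs (bk u / 2) (σ (bk u / 2))
          omega
        rcases e with e | e
        · have := (l5 u e.1).1; have := l6 v e.2 (.inl h2.2.1); omega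
        · have := (l5 v e.1).1; have := l6 u e.2 (.inl h2.1); omega
      · have := D1 u h2.1; have := D3 v; have := D4 v; have := hx u
        omega
      · have := D2 u h2.1 h2.2.1
        by_cases e : v.val % 7 = 2
        · have := l6 u (fun h => by have := (mem_filter.1 h).2.1; omega) (.inr h2.1)
          have := D3 v e (by omega)
          obtain ⟨i, hi, e'⟩ := h (v / 7) (by omega)
          obtain ⟨s1, s2⟩ := sl (3 * (v / 7) + i) (by omega)
          have h3 := dm (cd (lit φ (3 * (v / 7) + i))) (3 * (v / 7) + i) (by omega)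
          have := (l5 ⟨_, s1⟩ (by
            simp only [I, mem_filter, mem_univ, true_and, h3.1]
            refine ⟨by omega, ?_⟩
            rw [show cd (lit φ (3 * (v / 7) + i)) / 2 = (lit φ (3 * (v / 7) + i)).1 from cs _ _, e'])).2
          rw [dif_pos (by simp), show (⟨_, _⟩ : Fin (NN φ)) = v from Fin.ext (by simp only; omega)] at this
          omega
        · have := D4 v (by omega)
          omega
    intro u v h
    rw [hA] at h
    exact h.2.elim (k u v h.1) fun h' => (k v u h.1.symm h').symm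
  · rintro ⟨l, ⟨l1, l2⟩, l3⟩
    let Sh : Fin (NN φ) → Prop := fun v => ∃ u, G.Adj v u ∧ l s(v, u) ≠ 1
    have sh : ∀ u v, G.Adj u v → G.degree u = G.degree v → Sh u ∨ Sh v := fun u v a b => by
      by_contra hc
      simp only [Sh, not_or, not_exists, not_and, not_not] at hc
      exact l2 u v a (by rw [col_deg G l u hc.1, col_deg G l v hc.2, b])
    let σ : ℕ → Bool := fun i =>
      decide (∀ v : Fin (NN φ), v.val % 7 = 0 → bk v = 2 * i + 1 → Sh v)
    have k := low G l l1 (I σ) (fun u hu v hv a => by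
        simp only [I, mem_filter, mem_univ, true_and] at hu hv
        have := hx u; have := hx v
        have : bk u / 2 = bk v / 2 → bk u = bk v := fun e => by
          rw [hu.2, hv.2, e]
        simp only [hA, A'] at a
        omega)
      (fun v hv => by
        simp only [I, mem_filter, mem_univ, true_and] at hv
        cases e : σ (bk v / 2) <;> simp only [e, cd, cond] at hv
        · simp only [σ, decide_eq_false_iff_not, not_forall] at e
          obtain ⟨w, w1, w2, w3⟩ := e
          exact (sh v w ((hA _ _).2 ⟨fun e => by rw [e] at hv; omega, .inl (.inl (by omega))⟩)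
            (by rw [D1 v hv.1, D1 w w1])).resolve_right w3
        · exact of_decide_eq_true e v hv.1 hv.2)
      (by rwa [hI, hn, hr])
    refine ⟨σ, fun j hj => ?_⟩
    have e := sh ⟨7 * j + 2, by omega⟩ ⟨7 * j + 3, by omega⟩ ((hA _ _).2 (by simp only [A']; omega))
      ((D3 _ (by simp only; omega) (by simp only; omega)).trans
        (D2 _ (by simp only; omega) (by simp only; omega)).symm)
    obtain ⟨u, a, b⟩ | ⟨u, a, b⟩ := e <;> have c := k _ _ a b <;>
      simp only [I, mem_filter, mem_univ, true_and, hA, A'] at c a <;> have h3 := hx u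
    · have h4 := md u
      refine ⟨ps u % 3, by omega, ?_⟩
      rw [show 3 * j + ps u % 3 = ps u by omega]
      have c1 : cd (lit φ (ps u)) = bk u := by omega
      have c2 := (c.resolve_left (by omega)).2
      rw [← c1, cs (lit φ (ps u)).1 (lit φ (ps u)).2] at c2
      revert c2
      unfold cd
      cases σ (lit φ (ps u)).1 <;> cases (lit φ (ps u)).2 <;> simp
    · omega

end Pool.Agent.H16.MSum
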