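import Pool.Agent.H11.GDefs

set_option autoImplicit false

namespace Pool.Agent.H16.MSum

variable {V : Type} [Fintype V]

open Classical in
/-- The colour of a vertex: the sum of the labels of the edges at it. -/
noncomputable def col (G : SimpleGraph V) (l : Sym2 V → ℕ) (v : V) : ℕ :=
  ∑ e ∈ G.incidenceFinset v, l e

/-- A proper labelling by positive integers (only the values on edges matter). -/
def Proper (G : SimpleGraph V) (l : Sym2 V → ℕ) : Prop :=
  (∀ e ∈ G.edgeSet, 1 ≤ l e) ∧ ∀ u v, G.Adj u v → col G l u ≠ col G l v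

open Classical in
/-- The minimum label sum of a proper labelling (infinite if there is none). -/
noncomputable def mE (G : SimpleGraph V) : ℕ∞ :=
  ⨅ (l : Sym2 V → ℕ) (_ : Proper G l), ((∑ e ∈ G.edgeFinset, l e : ℕ) : ℕ∞)

/-- No connected component is isomorphic to `K₂`. -/
def Nice (G : SimpleGraph V) : Prop :=
  ∀ C : G.ConnectedComponent, IsEmpty (C.toSimpleGraph ≃g (⊤ : SimpleGraph (Fin 2)))

end Pool.Agent.H16.MSum
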