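import Mathlib

set_option autoImplicit false

namespace Pool.Agent.H16.Markov

/-- A layered graph with layers `0, …, m` (`m ≥ 1`) and a single vertex in layer `0`. -/
structure Layered where
  m : ℕ
  m_pos : 1 ≤ m
  V : Type
  fin : Finite V
  layer : V → Fin (m + 1)
  onto : Function.Surjective layer
  source : ∀ u v, layer u = 0 → layer v = 0 → u = v
  E : V → V → Prop
  step : ∀ u v, E u v → (layer v : ℕ) = layer u + 1

namespace Layered

variable (G : Layered)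

/-- Directed paths from the source to the last layer, listed layer by layer. -/
def Path := {p : Fin (G.m + 1) → G.V //
  (∀ i, G.layer (p i) = i) ∧ ∀ i : Fin G.m, G.E (p i.castSucc) (p i.succ)}

instance : Finite G.Path := by
  have := G.fin
  unfold Path
  infer_instance

noncomputable instance : Fintype G.Path := Fintype.ofFinite _

/-- The edge set of a path. -/
def edges (p : G.Path) : Set (G.V × G.V) :=
  Set.range fun i : Fin G.m => (p.1 i.castSucc, p.1 i.succ)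

open Classical in
/-- The attacker's payoff: one exactly when the two paths share no edge. -/
noncomputable def u (pd pa : G.Path) : ℝ := if Disjoint (G.edges pd) (G.edges pa) then 1 else 0

/-- Mixed strategies. -/
def Mixed (x : G.Path → ℝ) : Prop := (∀ p, 0 ≤ x p) ∧ ∑ p, x p = 1

/-- Expected payoff of the attacker. -/
noncomputable def EU (xd xa : G.Path → ℝ) : ℝ := ∑ pd, ∑ pa, xd pd * xa pa * G.u pd pa

/-- Nash equilibrium of the zero-sum game. -/
def NE (xd xa : G.Path → ℝ) : Prop :=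
  G.Mixed xd ∧ G.Mixed xa ∧ (∀ x, G.Mixed x → G.EU xd x ≤ G.EU xd xa) ∧
    ∀ x, G.Mixed x → G.EU xd xa ≤ G.EU x xa

/-- Product form: the probability of a path is the product of weights of its edges. Every
Markovian strategy has this form. -/
def ProductForm (x : G.Path → ℝ) : Prop :=
  ∃ q : G.V → G.V → ℝ, ∀ p : G.Path, x p = ∏ i : Fin G.m, q (p.1 i.castSucc) (p.1 i.succ)

end Layered

def lay : Fin 11 → Fin 5 := ![0, 1, 1, 1, 2, 2, 2, 3, 3, 4, 4]

def EL : List (Fin 11 × Fin 11) :=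
  [(0, 1), (0, 2), (0, 3), (1, 4), (1, 5), (2, 6), (3, 4), (4, 7), (4, 8), (5, 7), (6, 7), (6, 8), (7, 9), (7, 10), (8, 10)]

abbrev G0 : Layered where
  m := 4
  m_pos := by norm_num
  V := Fin 11
  fin := inferInstance
  layer := lay
  onto := by decide +kernel
  source := by decide +kernel
  E := fun a b => (a, b) ∈ EL
  step := by decide +kernel

def PL : Fin 11 → Fin 5 → Fin 11 :=
  ![![0, 1, 4, 7, 9],
    ![0, 1, 4, 7, 10],
    ![0, 1, 4, 8, 10],
    ![0, 1, 5, 7, 9],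
    ![0, 1, 5, 7, 10],
    ![0, 2, 6, 7, 9],
    ![0, 2, 6, 7, 10],
    ![0, 2, 6, 8, 10],
    ![0, 3, 4, 7, 9],
    ![0, 3, 4, 7, 10],
    ![0, 3, 4, 8, 10]]

theorem PL_ok : ∀ j, (∀ i, lay (PL j i) = i) ∧
    ∀ i : Fin 4, (PL j i.castSucc, PL j i.succ) ∈ EL := by decide +kernel

def P (j : Fin 11) : G0.Path := ⟨PL j, PL_ok j⟩

set_option synthInstance.maxSize 2000 in
theorem all_paths : ∀ a, lay a = 0 → ∀ b, (a, b) ∈ EL → ∀ c, (b, c) ∈ EL → ∀ d, (c, d) ∈ EL →
    ∀ e, (d, e) ∈ EL → ∃ j, PL j = ![a, b, c, d, e] := by decide +kernel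

theorem PL_inj : Function.Injective PL := by decide +kernel

theorem P_bij : Function.Bijective P := by
  refine ⟨fun i j h => PL_inj (congrArg Subtype.val h), ?_⟩
  rintro ⟨p, h1, h2⟩
  obtain ⟨j, hj⟩ := all_paths (p 0) (h1 0) (p 1) (h2 0) (p 2) (h2 1) (p 3) (h2 2) (p 4) (h2 3)
  refine ⟨j, Subtype.ext ?_⟩
  show PL j = p
  rw [hj]
  funext i
  fin_cases i <;> rfl

def U : Fin 11 → Fin 11 → ℕ :=
  ![![0, 0, 0, 0, 0, 0, 1, 1, 0, 0, 1],
    ![0, 0, 0, 0, 0, 1, 0, 1, 0, 0, 1],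
    ![0, 0, 0, 0, 0, 1, 1, 0, 1, 1, 0],
    ![0, 0, 0, 0, 0, 0, 1, 1, 0, 1, 1],
    ![0, 0, 0, 0, 0, 1, 0, 1, 1, 0, 1],
    ![0, 1, 1, 0, 1, 0, 0, 0, 0, 1, 1],
    ![1, 0, 1, 1, 0, 0, 0, 0, 1, 0, 1],
    ![1, 1, 0, 1, 1, 0, 0, 0, 1, 1, 0],
    ![0, 0, 1, 0, 1, 0, 1, 1, 0, 0, 0],
    ![0, 0, 1, 1, 0, 1, 0, 1, 0, 0, 0],
    ![1, 1, 0, 1, 1, 1, 1, 0, 0, 0, 0]]

theorem U_ok : ∀ i j, U i j = if ∀ k l : Fin 4,
    (PL i k.castSucc, PL i k.succ) ≠ (PL j l.castSucc, PL j l.succ) then 1 else 0 := by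
  decide +kernel

theorem u_eq (i j : Fin 11) : G0.u (P i) (P j) = U i j := by
  rw [U_ok]
  unfold Layered.u Layered.edges
  rw [Set.disjoint_range_iff]
  by_cases h : ∀ k l : Fin 4, (PL i k.castSucc, PL i k.succ) ≠ (PL j l.castSucc, PL j l.succ)
  · rw [if_pos h, if_pos (by exact h)]
    simp
  · rw [if_neg h, if_neg (by exact h)]
    simp

theorem EU_eq (xd xa : G0.Path → ℝ) :
    G0.EU xd xa = ∑ i, ∑ j, xd (P i) * xa (P j) * U i j := by
  unfold Layered.EU
  rw [← P_bij.sum_comp]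
  refine Finset.sum_congr rfl fun i _ => ?_
  rw [← P_bij.sum_comp]
  simp only [u_eq]

noncomputable def ofFin (y : Fin 11 → ℝ) : G0.Path → ℝ :=
  fun p => y ((Equiv.ofBijective P P_bij).symm p)

theorem ofFin_P (y : Fin 11 → ℝ) (i : Fin 11) : ofFin y (P i) = y i := by
  unfold ofFin
  rw [Equiv.ofBijective_symm_apply_apply]

theorem mixed_iff (x : G0.Path → ℝ) :
    G0.Mixed x ↔ (∀ i, 0 ≤ x (P i)) ∧ ∑ i, x (P i) = 1 := by
  unfold Layered.Mixed
  rw [← P_bij.sum_comp, P_bij.2.forall]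

noncomputable def x0 : Fin 11 → ℝ := ![0 / 19, 0 / 19, 1 / 19, 2 / 19, 2 / 19, 2 / 19, 2 / 19, 3 / 19, 2 / 19, 2 / 19, 3 / 19]

theorem noMarkov (xd xa : G0.Path → ℝ) (h : G0.NE xd xa) : ¬ G0.ProductForm xa := by
  obtain ⟨hd, ha, h1, h2⟩ := h
  rw [mixed_iff] at hd ha
  obtain ⟨hd0, hd1⟩ := hd
  obtain ⟨ha0, ha1⟩ := ha
  have hv : 8 / 19 ≤ G0.EU xd xa := by
    refine le_trans ?_ (h1 (ofFin x0) ?_)
    · rw [EU_eq]
      simp only [ofFin_P]
      simp only [Fin.sum_univ_succ, Fin.sum_univ_zero] at hd1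
      simp [Fin.sum_univ_succ, U, x0] at hd1 ⊢
      linarith [hd0 0, hd0 1, hd0 2, hd0 3, hd0 4, hd0 5, hd0 6, hd0 7, hd0 8, hd0 9, hd0 10]
    · rw [mixed_iff]
      simp only [ofFin_P]
      refine ⟨fun i => ?_, ?_⟩
      · fin_cases i <;> simp [x0] <;> norm_num
      · simp [Fin.sum_univ_succ, x0]
        norm_num
  have hr : ∀ i, 8 / 19 ≤ ∑ j, xa (P j) * U i j := by
    intro i
    have := h2 (ofFin (Pi.single i 1)) (by
      rw [mixed_iff]
      simp only [ofFin_P]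
      refine ⟨fun j => ?_, by simp⟩
      rw [Pi.single_apply]
      split_ifs <;> norm_num)
    rw [EU_eq (ofFin _)] at this
    simp only [ofFin_P] at this
    rw [Finset.sum_eq_single i (by simp +contextual [Pi.single_apply]) (by simp)] at this
    simp only [Pi.single_eq_same, one_mul] at this
    linarith
  rintro ⟨q, hq⟩
  have e : xa (P 1) * xa (P 10) = xa (P 2) * xa (P 9) := by
    rw [hq, hq, hq, hq]
    simp [Fin.prod_univ_succ, P, PL]
    ring
  have r0 := hr 0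
  have r1 := hr 1
  have r2 := hr 2
  have r3 := hr 3
  have r4 := hr 4
  have r5 := hr 5
  have r6 := hr 6
  have r7 := hr 7
  have r8 := hr 8
  have r9 := hr 9
  have r10 := hr 10
  simp [Fin.sum_univ_succ, U] at r0 r1 r2 r3 r4 r5 r6 r7 r8 r9 r10 ha1
  have a0 := ha0 0
  have a1 := ha0 1
  have a2 := ha0 2
  have a3 := ha0 3
  have a4 := ha0 4
  have a5 := ha0 5
  have a6 := ha0 6
  have a7 := ha0 7
  have a8 := ha0 8
  have a9 := ha0 9
  have a10 := ha0 10
  have e1 : xa (P 1) = 0 := by linarith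
  have e2 : xa (P 2) = 1 / 19 := by linarith
  have e9 : xa (P 9) = 2 / 19 := by linarith
  rw [e1, e2, e9] at e
  norm_num at e

end Pool.Agent.H16.Markov
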