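import Pool.Agent.H16.MonoDefs

namespace H16.PSys

def QL : Fin 7 → Fin 7 → List (Fin 7) :=
  ![![[0], [0, 1], [0, 2], [0, 3], [0, 4], [0, 1, 5], [0, 2, 6]],
    ![[1, 0], [1], [1, 3, 2], [1, 3], [1, 4], [1, 5], [1, 4, 6]],
    ![[2, 0], [2, 3, 1], [2], [2, 3], [2, 4], [2, 5], [2, 6]],
    ![[3, 0], [3, 1], [3, 2], [3], [3, 0, 4], [3, 5], [3, 5, 6]],
    ![[4, 0], [4, 1], [4, 2], [4, 0, 3], [4], [4, 5], [4, 6]],
    ![[5, 1, 0], [5, 1], [5, 2], [5, 3], [5, 4], [5], [5, 6]],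
    ![[6, 2, 0], [6, 4, 1], [6, 2], [6, 5, 3], [6, 4], [6, 5], [6]]]

instance (u v : Fin 7) (l : List (Fin 7)) : Decidable (IsPath (⊤ : SimpleGraph (Fin 7)) u v l) := by
  unfold IsPath; infer_instance

theorem main2 : ∃ P : Fin 7 → Fin 7 → List (Fin 7), PathSystem ⊤ P ∧ Concat P ∧ DiamTwo P ∧
    MonotoneSys P ∧ ¬ ∃ w : Sym2 (Fin 7) → ℝ,
      (∀ e ∈ (⊤ : SimpleGraph (Fin 7)).edgeSet, 0 < w e) ∧ Induces ⊤ w P := by
  refine ⟨QL, ?_, ?_, ?_, ?_, ?_⟩
  · unfold PathSystem; decide +kernel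
  · unfold Concat; decide +kernel
  · unfold DiamTwo; decide +kernel
  · unfold MonotoneSys; decide +kernel
  · rintro ⟨w, -, h⟩
    have a0 := h 0 5 (by decide) [0, 3, 5] (by decide) (by decide)
    rw [show QL 0 5 = [0, 1, 5] by decide] at a0
    have a1 := h 0 6 (by decide) [0, 4, 6] (by decide) (by decide)
    rw [show QL 0 6 = [0, 2, 6] by decide] at a1
    have a2 := h 3 4 (by decide) [3, 1, 4] (by decide) (by decide)
    rw [show QL 3 4 = [3, 0, 4] by decide] at a2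
    have a3 := h 1 6 (by decide) [1, 5, 6] (by decide) (by decide)
    rw [show QL 1 6 = [1, 4, 6] by decide] at a3
    have a4 := h 3 6 (by decide) [3, 2, 6] (by decide) (by decide)
    rw [show QL 3 6 = [3, 5, 6] by decide] at a4
    have a5 := h 1 2 (by decide) [1, 0, 2] (by decide) (by decide)
    rw [show QL 1 2 = [1, 3, 2] by decide] at a5
    simp only [wt] at a0 a1 a2 a3 a4 a5
    have : w s(3, 0) = w s(0, 3) := by rw [Sym2.eq_swap]
    have : w s(3, 1) = w s(1, 3) := by rw [Sym2.eq_swap]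
    have : w s(3, 2) = w s(2, 3) := by rw [Sym2.eq_swap]
    have : w s(1, 0) = w s(0, 1) := by rw [Sym2.eq_swap]
    linarith

end H16.PSys
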