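import Pool.Agent.H16.PSysDefs

namespace H16.PSys

variable {V : Type}

/-- If `a` is an interior vertex of `P u v`, then `P u v` is `P u a` followed by `P a v`. -/
def Concat (P : V → V → List V) : Prop :=
  ∀ u v, u ≠ v → ∀ a ∈ P u v, a ≠ u → a ≠ v → P u v = P u a ++ (P a v).tail

/-- Every path has at most two edges and some path has exactly two. -/
def DiamTwo (P : V → V → List V) : Prop :=
  (∀ u v, u ≠ v → (P u v).length ≤ 3) ∧ ∃ u v, u ≠ v ∧ (P u v).length = 3

/-- `f(i,j) ≤ f(i,k)` whenever both are defined and `j ≤ k`. -/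
def MonotoneSys [LE V] (P : V → V → List V) : Prop :=
  ∀ i j k x y, i ≠ j → i ≠ k → P i j = [i, x, j] → P i k = [i, y, k] → j ≤ k → x ≤ y

end H16.PSys
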