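import Pool.Agent.H16.PCPN
import Pool.Agent.H23.PR

set_option autoImplicit false

namespace Pool.Agent.H16.OL
open Relation

def z (n : ℕ) : List ℕ := (List.range n).map fun _ => 0
def T (v : List ℕ) : List ℕ := v.flatMap fun l => z 11 ++ [l]
def word (j : ℕ) (v : List ℕ) (p : ℕ) : List ℕ := (T v).drop j ++ z p
def sym (l : ℕ) : ℕ := (Nat.unpair (l - 3)).1
def im (H : List (List ℕ)) (l : ℕ) : List ℕ := ([] :: H).getD (Nat.unpair (l - 3)).2 []

theorem z_eq (n : ℕ) : z n = List.replicate n 0 := by simp [z]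
theorem z_add (m n : ℕ) : z m ++ z n = z (m + n) := by simp [z_eq]
theorem T_cons (l : ℕ) (v : List ℕ) : T (l :: v) = z 11 ++ l :: T v := by simp [T]
theorem T_app (v w : List ℕ) : T (v ++ w) = T v ++ T w := by simp [T]
theorem im0 (H : List (List ℕ)) : im H 0 = [] := by simp [im]

theorem word_cons {j : ℕ} (hj : j < 12) (l : ℕ) (v : List ℕ) (p : ℕ) :
    word j (l :: v) p = z (11 - j) ++ l :: (T v ++ z p) := by
  rw [word, T_cons, List.drop_append_of_le_length (by simp [z]; omega), z_eq 11, List.drop_replicate, ← z_eq]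
  simp

theorem z_word {j : ℕ} (hj : j < 12) {v : List ℕ} (hv : v ≠ []) (p : ℕ) (r : List ℕ) :
    z j ++ (word j v p ++ r) = T v ++ (z p ++ r) := by
  obtain ⟨l, v, rfl⟩ := List.exists_cons_of_ne_nil hv
  rw [word_cons hj, T_cons, ← List.append_assoc, ← List.append_assoc, z_add, Nat.add_sub_cancel' (by omega)]
  simp

theorem lead {m n a b : ℕ} {x y : List ℕ} (ha : a ≠ 0) (hb : b ≠ 0) (e : z m ++ a :: x = z n ++ b :: y) :
    m = n := by
  simp only [z_eq] at e
  induction m generalizing n with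
  | zero => cases n <;> simp_all [List.replicate_succ]
  | succ m ih => cases n with
    | zero => simp_all [List.replicate_succ]
    | succ n => simpa using ih (by simpa [List.replicate_succ] using e)

theorem T_cancel {v1 v y : List ℕ} (h : 2 ∉ v1) (e : T v1 ++ y = T (v ++ [2])) :
    ∃ v', v = v1 ++ v' ∧ y = T (v' ++ [2]) := by
  induction v1 generalizing v with
  | nil => exact ⟨v, rfl, e⟩
  | cons l v1 ih =>
    rcases v with _ | ⟨b, v⟩
    · simp [T_cons] at e h
      exact absurd e.1.symm h.1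
    · simp only [T_cons, List.cons_append, List.append_assoc, List.append_cancel_left_eq, List.cons.injEq] at e
      obtain ⟨v', rfl, h'⟩ := ih (fun k => h (by simp [k])) e.2
      exact ⟨v', by simp [e.1], h'⟩

theorem cut (lo hi : ℕ → ℕ) (u : List ℕ) (h : ∀ y ∈ u, lo y ≤ hi y) (v : List ℕ)
    (h1 : (u.map lo).sum ≤ v.length) (h2 : v.length ≤ (u.map hi).sum) :
    ∃ vs : List (List ℕ), List.Forall₂ (fun y w => lo y ≤ w.length ∧ w.length ≤ hi y) u vs ∧ v = vs.flatten := by
  induction u generalizing v with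
  | nil => exact ⟨[], .nil, by simpa using h2⟩
  | cons y u ih =>
    simp only [List.map_cons, List.sum_cons, List.forall_mem_cons] at h h1 h2
    have := List.sum_le_sum h.2
    obtain ⟨vs, k, e⟩ := ih h.2 (v.drop (max (lo y) (v.length - (u.map hi).sum))) (by simp; omega) (by simp; omega)
    exact ⟨v.take (max (lo y) (v.length - (u.map hi).sum)) :: vs, .cons (by simp; omega) k, by simp [← e]⟩

variable (H G : List (List ℕ))

def C (y : ℕ) (v : List ℕ) (j p : ℕ) : Prop :=
  j = 5 ∨ j = 10 ∨ (j = 11 ∧ (p < 5 ∨ p = 11)) ∨ (j = 6 ∧ p = 6 ∧ v.map sym = im H y) ∨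
    (j = 7 ∧ p = 7 ∧ v.map sym = im G y) ∨ ((j = p ∨ (j = 7 ∧ v.map sym ≠ im G y)) ∧
      ((p = 8 ∧ v.length ≤ (im G y).length) ∨ (p = 9 ∧ (im G y).length ≤ v.length)))

variable (Λ : List ℕ) (K : ℕ)

def P (y : ℕ) (v : List ℕ) (j p : ℕ) : Prop :=
  (v.length ≤ K ∧ ∀ l ∈ v, l ∈ Λ) ∧ j < 12 ∧ p < 12 ∧ v ≠ [] ∧ C H G y v j p

inductive Gen : List ℕ → List ℕ → Prop
  | nil (f : ℕ) : f ∈ [5, 6, 8, 9, 10] → Gen [] (z (11 - f) ++ [2])
  | zero {u r : List ℕ} : Gen u r → Gen (0 :: u) r
  | live {y j p : ℕ} {u v r : List ℕ} : y ∈ Λ → P H G Λ K y v j p → Gen u r → Gen (y :: u) (word j v p ++ r)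

variable {H G Λ K}

theorem gar {u r : List ℕ} (h : Gen H G Λ K u r) :
    (∃ v, (∀ l ∈ v, l ∈ Λ) ∧ v.map sym = u.flatMap (im H) ∧ z 6 ++ r = T (v ++ [2])) ∨
      ∃ p r', (p < 5 ∨ p = 11) ∧ Gen H G Λ K u r' ∧ z 6 ++ r = z p ++ r' := by
  induction h with
  | nil f hf =>
    simp only [List.mem_cons, List.not_mem_nil, or_false] at hf
    rcases hf with rfl | rfl | rfl | rfl | rfl
    · exact .inr ⟨11, _, by simp, .nil 10 (by simp), by decide⟩
    · exact .inl ⟨[], by simp, rfl, by decide⟩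
    · exact .inr ⟨3, _, by simp, .nil 5 (by simp), by decide⟩
    · exact .inr ⟨2, _, by simp, .nil 5 (by simp), by decide⟩
    · exact .inr ⟨1, _, by simp, .nil 5 (by simp), by decide⟩
  | zero _ ih =>
    rcases ih with ⟨v, h1, h2, h3⟩ | ⟨p, r', h1, h2, h3⟩
    · exact .inl ⟨v, h1, by simp [h2, im0], h3⟩
    · exact .inr ⟨p, r', h1, h2.zero, h3⟩
  | @live y j p u v r hy hP hr ih =>
    obtain ⟨a1, a2, a3, a4, a5⟩ := hP
    by_cases e : j = 6
    · subst e
      obtain ⟨rfl, a6⟩ : p = 6 ∧ v.map sym = im H y := by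
        rcases a5 with k | k | k | k | k | k
        all_goals first | omega | exact k.2
      rw [z_word a2 a4]
      rcases ih with ⟨v', h1, h2, h3⟩ | ⟨p, r', h1, h2, h3⟩
      · exact .inl ⟨v ++ v', List.forall_mem_append.mpr ⟨a1.2, h1⟩, by simp [a6, h2], by simp [h3, T_app]⟩
      · exact .inr ⟨11, _, by simp, .live (j := 11) (p := p) hy ⟨a1, by simp, by omega, a4, by simp [C, h1]⟩ h2,
          by rw [z_word (by simp) a4, h3]⟩
    · obtain ⟨l, v, rfl⟩ := List.exists_cons_of_ne_nil a4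
      have : 5 ≤ j := by rcases a5 with k | k | k | k | k | k <;> omega
      obtain ⟨q, g, b1, b2, b3⟩ : ∃ q g, (q < 5 ∨ q = 11) ∧ (g = 5 ∨ g = 10) ∧ 6 + (11 - j) = q + (11 - g) := by
        by_cases j = 5
        · exact ⟨11, 10, by omega, by omega, by omega⟩
        · exact ⟨11 - j, 5, by omega, by omega, by omega⟩
      refine .inr ⟨q, _, b1, .live (j := g) (p := p) hy ⟨a1, by omega, a3, a4, by unfold C; tauto⟩ hr, ?_⟩
      simp only [word_cons a2, word_cons (by omega : g < 12), ← List.append_assoc, z_add, b3]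

theorem zrun {q : ℕ} (hq : q = 8 ∨ q = 9) {u : List ℕ} {vs : List (List ℕ)}
    (h : List.Forall₂ (fun y w => (y = 0 ∧ w = []) ∨ (y ∈ Λ ∧ P H G Λ K y w q q)) u vs) (j : ℕ)
    (hj : j = q ∨ (j = 7 ∧ vs.flatten.map sym ≠ u.flatMap (im G))) :
    ∃ r, Gen H G Λ K u r ∧ z j ++ r = T (vs.flatten ++ [2]) := by
  induction h generalizing j with
  | nil =>
    obtain rfl : j = q := by simpa using hj
    exact ⟨_, .nil j (by simp; omega), by rcases hq with rfl | rfl <;> decide⟩
  | @cons y w u vs a _ ih =>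
    rcases a with ⟨rfl, rfl⟩ | ⟨hy, a1, a2, -, a4, a5⟩
    · obtain ⟨r, h1, h2⟩ := ih j (by simpa [im0] using hj)
      exact ⟨r, h1.zero, by simpa using h2⟩
    by_cases e : j = 7 ∧ w.map sym = im G y
    · obtain ⟨r, h1, h2⟩ := ih 7 (.inr ⟨rfl, fun k => by
        rcases hj with k' | k'
        · omega
        · exact k'.2 (by simp [e.2, ← k])⟩)
      exact ⟨_, .live (j := j) (p := 7) hy ⟨a1, by omega, by omega, a4, by simp [C, e]⟩ h1,
        by rw [z_word (by omega) a4, h2]; simp [T_app]⟩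
    · obtain ⟨r, h1, h2⟩ := ih q (.inl rfl)
      refine ⟨_, .live (j := j) (p := q) hy ⟨a1, by omega, a2, a4, ?_⟩ h1,
        by rw [z_word (by omega) a4, h2]; simp [T_app]⟩
      rcases a5 with k | k | k | k | k | k
      any_goals omega
      exact .inr (.inr (.inr (.inr (.inr ⟨by tauto, k.2⟩))))

theorem parse (hΛ : ∀ l ∈ Λ, 3 ≤ l) {u r : List ℕ} (h : Gen H G Λ K u r) (p : ℕ) (v : List ℕ)
    (hv : ∀ l ∈ v, l ∈ Λ) (e : z p ++ r = T (v ++ [2])) :
    (p = 7 → v.map sym ≠ u.flatMap (im G)) ∧ (p = 8 → v.length ≤ (u.flatMap (im G)).length) ∧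
      (p = 9 → (u.flatMap (im G)).length ≤ v.length) ∧ ¬ (p < 5 ∨ p = 11) := by
  have h0 : ∀ {m a : ℕ} {x : List ℕ}, a ≠ 0 → z m ++ a :: x = T (v ++ [2]) → m = 11 := fun ha k => by
    rcases v with _ | ⟨b, v⟩
    · exact lead ha (by decide) (k.trans (T_cons _ _))
    · exact lead ha (by have := hΛ b (hv b (by simp)); omega) (k.trans (T_cons _ _))
  induction h generalizing p v with
  | nil f hf =>
    rw [← List.append_assoc, z_add] at e
    have := h0 (by decide) e
    simp only [List.mem_cons, List.not_mem_nil, or_false] at hf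
    obtain rfl : v = [] := by
      rcases v with _ | ⟨b, v⟩
      · rfl
      · simp [this, T_cons, T_app] at e
    simp only [List.length_nil, List.flatMap_nil, le_refl, implies_true, true_and]
    omega
  | zero _ ih => simpa [im0] using ih p v hv e h0
  | @live y j q u w r hy hP hr ih =>
    obtain ⟨a1, a2, a3, a4, a5⟩ := hP
    obtain rfl : p = j := by
      obtain ⟨l, w, rfl⟩ := List.exists_cons_of_ne_nil a4
      rw [word_cons a2, List.append_assoc, ← List.append_assoc, z_add] at e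
      have := h0 (by have := hΛ l (a1.2 l (by simp)); omega) e
      omega
    rw [z_word a2 a4] at e
    obtain ⟨v', rfl, e'⟩ := T_cancel (fun k => by have := hΛ 2 (a1.2 2 k); omega) e
    have hv' := (List.forall_mem_append.mp hv).2
    obtain ⟨b1, b2, b3, b4⟩ := ih q v' hv' e' fun ha k => by
      rcases v' with _ | ⟨b, v'⟩
      · exact lead ha (by decide) (k.trans (T_cons _ _))
      · exact lead ha (by have := hΛ b (hv' b (by simp)); omega) (k.trans (T_cons _ _))
    simp only [List.flatMap_cons, List.length_append, List.map_append]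
    rcases a5 with k | k | k | k | k | k
    any_goals omega
    · exact ⟨fun _ c => b1 k.2.1 (by simpa [k.2.2] using c), by omega, by omega, by omega⟩
    · refine ⟨fun c d => ?_, by omega, by omega, by omega⟩
      have := congrArg List.length d
      simp only [List.length_append, List.length_map] at this
      exact (k.1.resolve_left (by omega)).2 (List.append_inj_left d (by simp; omega))

end Pool.Agent.H16.OL
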