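import Pool.Agent.H16.OL1

set_option autoImplicit false

namespace Pool.Agent.H16.OL
open Relation PCPU

def Step (R : List (ℕ × List ℕ)) (w w' : List ℕ) : Prop :=
  ∃ ws : List (List ℕ), List.Forall₂ (fun a w => (a, w) ∈ R) w ws ∧ w' = ws.flatten

def E (R : List (ℕ × List ℕ)) (ω : List ℕ) : Set (ℕ → List ℕ) := {s | s 0 = ω ∧ ∀ n, Step R (s n) (s (n + 1))}

theorem step_nil {R : List (ℕ × List ℕ)} {r : List ℕ} : Step R [] r ↔ r = [] := by simp [Step]

theorem step_cons {R : List (ℕ × List ℕ)} {y : ℕ} {u r : List ℕ} :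
    Step R (y :: u) r ↔ ∃ w r', (y, w) ∈ R ∧ Step R u r' ∧ r = w ++ r' :=
  ⟨fun ⟨_, h, e⟩ => by
    obtain _ | ⟨h1, h2⟩ := h
    exact ⟨_, _, h1, ⟨_, h2, rfl⟩, e⟩, fun ⟨w, _, h1, ⟨ws, h2, e1⟩, e⟩ => ⟨w :: ws, .cons h1 h2, by simp [e, e1]⟩⟩

theorem ext2 {R1 R2 : List (ℕ × List ℕ)} {ω w w' : List ℕ} (e : E R1 ω = E R2 ω) (S : List ℕ → Prop)
    (tot : ∀ w, S w → ∃ w', Step R2 w w' ∧ S w') (h : ReflTransGen (Step R2) ω w) (h' : Step R2 w w')
    (hS : S w') : Step R1 w w' := by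
  have pre : ∀ t : ℕ → List ℕ, t ∈ E R2 w → ∃ s ∈ E R2 ω, ∃ k, ∀ i, s (k + i) = t i := by
    clear h'
    induction h with
    | refl => exact fun t ht => ⟨t, ht, 0, by simp⟩
    | @tail b c _ k ih =>
      intro t ht
      obtain ⟨s, hs, m, hm⟩ := ih (fun n => Nat.casesOn n b t) ⟨rfl, fun n => by
        cases n with
        | zero => exact (show Step R2 b (t 0) by rw [ht.1]; exact k)
        | succ n => exact ht.2 n⟩
      exact ⟨s, hs, m + 1, fun i => by rw [add_right_comm, add_assoc, hm]⟩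
  choose nx h1 h2 using tot
  let f : {w // S w} → {w // S w} := fun a => ⟨nx a.1 a.2, h2 a.1 a.2⟩
  obtain ⟨s, hs, k, hk⟩ := pre (fun n => Nat.casesOn n w fun m => (f^[m] ⟨w', hS⟩).1) ⟨rfl, fun n => by
    cases n with
    | zero => exact h'
    | succ n => simp only [Function.iterate_succ_apply']; exact h1 _ _⟩
  have := (e ▸ hs : s ∈ E R1 ω).2 k
  rwa [hk 1, ← add_zero k, hk 0] at this

variable (H G : List (List ℕ))

def D : List ℕ := (H.flatMap fun w => w) ++ G.flatMap fun w => w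
def Lm : List ℕ := (List.range H.length).flatMap fun i => (D H G).map fun d => Nat.pair d (i + 1) + 3
def Wd (Λ : List ℕ) (k : ℕ) : List (List ℕ) :=
  Nat.rec [[]] (fun _ W => [] :: W.flatMap fun w => Λ.map fun l => l :: w) k
def Cb (y : ℕ) (v : List ℕ) (j p : ℕ) : Bool :=
  !(v == []) && (j == 5 || (j == 10 || ((j == 11 && (Nat.blt p 5 || p == 11)) ||
    ((j == 6 && (p == 6 && v.map sym == im H y)) || ((j == 7 && (p == 7 && v.map sym == im G y)) ||
    ((j == p || (j == 7 && !(v.map sym == im G y))) && ((p == 8 && Nat.ble v.length (im G y).length) ||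
      (p == 9 && Nat.ble (im G y).length v.length))))))))
def R (I : List ℕ) : List (ℕ × List ℕ) :=
  ((Lm H G).flatMap fun l => I.map fun p => (1, 1 :: l :: z p)) ++ ((0, []) ::
    ([5, 6, 8, 9, 10].map fun f => (2, z (11 - f) ++ [2])) ++ (Lm H G).flatMap fun y =>
      (Wd (Lm H G) (D H G).length).flatMap fun v => (List.range 12).flatMap fun j =>
        ((List.range 12).filter fun p => Cb H G y v j p).map fun p => (y, word j v p))
def ax : List ℕ := [1, Nat.pair ((D H G).getD 0 0) 1 + 3, 2]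

theorem R_pr (I : List ℕ) : Primrec fun H => (R H G I, ax H G) := by
  unfold R ax Cb Wd Lm D word T z im sym
  fun_prop

theorem mem_Wd (Λ : List ℕ) (k : ℕ) (v : List ℕ) : v ∈ Wd Λ k ↔ v.length ≤ k ∧ ∀ l ∈ v, l ∈ Λ := by
  induction k generalizing v with
  | zero => rcases v with _ | ⟨a, v⟩ <;> simp [Wd]
  | succ k ih =>
    change v ∈ [] :: (Wd Λ k).flatMap (fun w => Λ.map fun l => l :: w) ↔ _
    rcases v with _ | ⟨a, v⟩
    · simp
    · simp only [List.mem_cons, reduceCtorEq, List.mem_flatMap, List.mem_map, List.cons.injEq, false_or, ih,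
        List.length_cons, forall_eq_or_imp, add_le_add_iff_right]
      exact ⟨fun ⟨_, h, _, h', e, e'⟩ => e ▸ e' ▸ ⟨h.1, h', h.2⟩, fun h => ⟨v, ⟨h.1, h.2.2⟩, a, h.2.1, rfl, rfl⟩⟩

variable {H G}

theorem mem_R {I : List ℕ} {y : ℕ} {w : List ℕ} : (y, w) ∈ R H G I ↔
    (y = 1 ∧ ∃ l ∈ Lm H G, ∃ p ∈ I, w = 1 :: l :: z p) ∨ (y = 0 ∧ w = []) ∨
    (y = 2 ∧ ∃ f ∈ [5, 6, 8, 9, 10], w = z (11 - f) ++ [2]) ∨
    (y ∈ Lm H G ∧ ∃ v j p, P H G (Lm H G) (D H G).length y v j p ∧ w = word j v p) := by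
  have : ∀ y v j p, Cb H G y v j p = true ↔ v ≠ [] ∧ C H G y v j p := by
    intro y v j p
    simp [Cb, C]
  simp only [R, List.mem_append, List.mem_flatMap, List.mem_map, List.mem_cons (b := ((0 : ℕ), ([] : List ℕ))),
    Prod.mk.injEq, List.mem_filter, List.mem_range, this, mem_Wd, P, List.cons_append]
  refine or_congr ?_ (or_congr Iff.rfl (or_congr ?_ ?_))
  · exact ⟨fun ⟨l, a, p, b, c, d⟩ => ⟨c.symm, l, a, p, b, d.symm⟩, fun ⟨c, l, a, p, b, d⟩ => ⟨l, a, p, b, c.symm, d.symm⟩⟩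
  · exact ⟨fun ⟨l, a, c, d⟩ => ⟨c.symm, l, a, d.symm⟩, fun ⟨c, l, a, d⟩ => ⟨l, a, c.symm, d.symm⟩⟩
  · exact ⟨fun ⟨_, a, v, b, j, c, p, d, e, f⟩ => e ▸ ⟨a, v, j, p, ⟨b, c, d.1, d.2⟩, f.symm⟩,
      fun ⟨a, v, j, p, ⟨b, c, d, e⟩, f⟩ => ⟨y, a, v, b, j, c, p, ⟨d, e⟩, rfl, f.symm⟩⟩

theorem mem_Lm {l : ℕ} : l ∈ Lm H G ↔ ∃ i < H.length, ∃ d ∈ D H G, Nat.pair d (i + 1) + 3 = l := by
  simp [Lm]

theorem Lm3 : ∀ l ∈ Lm H G, 3 ≤ l := fun l h => by
  obtain ⟨i, -, d, -, rfl⟩ := mem_Lm.mp h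
  omega

theorem gen_iff {I u : List ℕ} (hu : ∀ y ∈ u, y = 0 ∨ y ∈ Lm H G) (r : List ℕ) :
    Step (R H G I) (u ++ [2]) r ↔ Gen H G (Lm H G) (D H G).length u r := by
  constructor
  · intro h
    induction u generalizing r with
    | nil =>
      obtain ⟨w, _, h1, h2, rfl⟩ := step_cons.mp h
      rw [step_nil.mp h2, List.append_nil]
      rcases mem_R.mp h1 with k | k | ⟨-, f, hf, rfl⟩ | k
      · omega
      · omega
      · exact .nil f hf
      · exact absurd (Lm3 _ k.1) (by omega)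
    | cons y u ih =>
      obtain ⟨w, r', h1, h2, rfl⟩ := step_cons.mp h
      have := ih (fun y k => hu y (by simp [k])) _ h2
      have h3 := (hu y (by simp)).imp_right (Lm3 y)
      rcases mem_R.mp h1 with k | ⟨rfl, rfl⟩ | k | ⟨k, v, j, p, k', rfl⟩
      · omega
      · exact this.zero
      · omega
      · exact .live k k' this
  · intro h
    clear hu
    induction h with
    | nil f hf => exact step_cons.mpr ⟨_, [], mem_R.mpr (.inr (.inr (.inl ⟨rfl, f, hf, rfl⟩))), step_nil.mpr rfl, by simp⟩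
    | zero _ ih => exact step_cons.mpr ⟨[], _, mem_R.mpr (.inr (.inl ⟨rfl, rfl⟩)), ih, rfl⟩
    | live a b _ ih => exact step_cons.mpr ⟨_, _, mem_R.mpr (.inr (.inr (.inr ⟨a, _, _, _, b, rfl⟩))), ih, rfl⟩

theorem step_iff {I u : List ℕ} (hu : ∀ y ∈ u, y = 0 ∨ y ∈ Lm H G) (w : List ℕ) :
    Step (R H G I) (1 :: (u ++ [2])) w ↔ ∃ l ∈ Lm H G, ∃ p ∈ I, ∃ r,
      Gen H G (Lm H G) (D H G).length u r ∧ w = 1 :: l :: (z p ++ r) := by
  rw [step_cons]
  constructor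
  · rintro ⟨w, r, h1, h2, rfl⟩
    rcases mem_R.mp h1 with ⟨-, l, a, p, b, rfl⟩ | k | k | k
    · exact ⟨l, a, p, b, r, (gen_iff hu r).mp h2, rfl⟩
    · omega
    · omega
    · exact absurd (Lm3 _ k.1) (by omega)
  · rintro ⟨l, a, p, b, r, h, rfl⟩
    exact ⟨_, r, mem_R.mpr (.inl ⟨rfl, l, a, p, b, rfl⟩), (gen_iff hu r).mpr h, rfl⟩

theorem mem_word {Λ v : List ℕ} (hv : ∀ l ∈ v, l ∈ Λ) (j p : ℕ) : ∀ y ∈ word j v p, y = 0 ∨ y ∈ Λ := by
  intro y hy
  rcases List.mem_append.mp hy with k | k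
  · obtain ⟨l, a, b⟩ := List.mem_flatMap.mp (List.mem_of_mem_drop k)
    rcases List.mem_append.mp b with b | b
    · exact .inl (List.eq_of_mem_replicate (z_eq _ ▸ b))
    · exact .inr (List.mem_singleton.mp b ▸ hv l a)
  · exact .inl (List.eq_of_mem_replicate (z_eq _ ▸ k))

theorem gen_sh {Λ : List ℕ} {K : ℕ} {u r : List ℕ} (h : Gen H G Λ K u r) :
    ∃ r0, r = r0 ++ [2] ∧ ∀ y ∈ r0, y = 0 ∨ y ∈ Λ := by
  induction h with
  | nil f _ => exact ⟨_, rfl, fun y k => .inl (List.eq_of_mem_replicate (z_eq _ ▸ k))⟩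
  | zero _ ih => exact ih
  | live _ b _ ih =>
    obtain ⟨r0, rfl, k⟩ := ih
    exact ⟨_, (List.append_assoc ..).symm, List.forall_mem_append.mpr ⟨mem_word b.1.2 _ _, k⟩⟩

theorem grow {Λ : List ℕ} {K : ℕ} (hK : 0 < K) (hΛ : ∀ l ∈ Λ, 3 ≤ l) {u : List ℕ} (hu : ∀ y ∈ u, y = 0 ∨ y ∈ Λ)
    (t : List ℕ) (ht : ∀ l ∈ t, l ∈ Λ) (e : t.length = (u.filter (· ≠ 0)).length) :
    ∃ r, Gen H G Λ K u (r ++ [2]) ∧ (∀ y ∈ r, y = 0 ∨ y ∈ Λ) ∧ r.filter (· ≠ 0) = t := by
  induction u generalizing t with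
  | nil => exact ⟨z 6, .nil 5 (by simp), by simp [z], by simpa [z] using e⟩
  | cons y u ih =>
    rw [List.forall_mem_cons] at hu
    rcases hu.1 with rfl | k
    · obtain ⟨r, a, b⟩ := ih hu.2 t ht (by simpa using e)
      exact ⟨r, a.zero, b⟩
    have := hΛ y k
    rw [List.filter_cons_of_pos (by simp; omega)] at e
    obtain _ | ⟨l, t⟩ := t
    · simp at e
    rw [List.forall_mem_cons] at ht
    obtain ⟨r, a, b, c⟩ := ih hu.2 t ht.2 (by simpa using e)
    have := hΛ l ht.1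
    refine ⟨word 5 [l] 0 ++ r, List.append_assoc _ _ _ ▸ .live k ⟨⟨hK, by simp [ht]⟩, by simp [C]⟩ a,
      List.forall_mem_append.mpr ⟨mem_word (by simp [ht]) _ _, b⟩, ?_⟩
    rw [List.filter_append, c, word_cons (by simp)]
    simp [z, T, show l ≠ 0 by omega]

def Sh (H G : List (List ℕ)) (w : List ℕ) : Prop :=
  ∃ u, w = 1 :: (u ++ [2]) ∧ (∀ y ∈ u, y = 0 ∨ y ∈ Lm H G) ∧ u.filter (· ≠ 0) ≠ []

theorem step_sh {I w w' : List ℕ} (h : Sh H G w) (k : Step (R H G I) w w') : Sh H G w' := by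
  obtain ⟨u, rfl, hu, -⟩ := h
  obtain ⟨l, a, p, -, r, c, rfl⟩ := (step_iff hu _).mp k
  obtain ⟨r, rfl, d⟩ := gen_sh c
  have := Lm3 l a
  refine ⟨l :: (z p ++ r), by simp, List.forall_mem_cons.mpr ⟨.inr a, List.forall_mem_append.mpr
    ⟨fun y k => .inl (List.eq_of_mem_replicate (z_eq _ ▸ k)), d⟩⟩, ?_⟩
  rw [List.filter_cons_of_pos (by simp; omega)]
  simp

theorem im_filter (H : List (List ℕ)) (u : List ℕ) : (u.filter (· ≠ 0)).flatMap (im H) = u.flatMap (im H) := by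
  induction u with
  | nil => rfl
  | cons y u ih =>
    by_cases e : y = 0
    · simpa [e, im0] using ih
    · simpa [e] using ih

theorem im_pair (H : List (List ℕ)) (d i : ℕ) : im H (Nat.pair d (i + 1) + 3) = H.getD i [] := by simp [im]

variable (hl : H.length = G.length) (h0 : 0 < G.length) (hH : ∀ w ∈ H, w ≠ []) (hG : ∀ w ∈ G, w ≠ [])

theorem sub_D {w : List ℕ} (h : w ∈ H ∨ w ∈ G) : w.Sublist (D H G) := by
  rcases h with h | h
  · exact (List.sublist_flatten_of_mem (by simpa using h)).trans (List.sublist_append_left ..)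
  · exact (List.sublist_flatten_of_mem (by simpa using h)).trans (List.sublist_append_right ..)

include hl in
theorem im_mem {y : ℕ} (h : y ∈ Lm H G) : im H y ∈ H ∧ im G y ∈ G := by
  obtain ⟨i, hi, d, -, rfl⟩ := mem_Lm.mp h
  simp [im_pair, List.getD, hi, hl ▸ hi]

include h0 hG in
theorem l0 : 0 < (D H G).length ∧ ∀ i < H.length, Nat.pair ((D H G).getD 0 0) (i + 1) + 3 ∈ Lm H G := by
  have : 0 < (D H G).length := (List.length_pos_iff.mpr (hG _ (List.getElem_mem h0))).trans_le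
    (sub_D (.inr (List.getElem_mem h0))).length_le
  exact ⟨this, fun i hi => mem_Lm.mpr ⟨i, hi, _, by simp [List.getD, this], rfl⟩⟩

include hl h0 hG in
theorem ax_sh : Sh H G (ax H G) :=
  ⟨[_], rfl, by simpa using (l0 (H := H) h0 hG).2 0 (by omega), by simp⟩

include hl h0 hG in
theorem rules (I : List ℕ) (a : ℕ) (hI : 0 ∈ I) (h : a ∈ ax H G ∨ ∃ p ∈ R H G I, a ∈ p.2) :
    ∃ w, (a, w) ∈ R H G I := by
  have h1 := (l0 (H := H) h0 hG).2 0 (by omega)
  have : a = 1 ∨ a = 2 ∨ a = 0 ∨ a ∈ Lm H G := by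
    rcases h with h | ⟨⟨y, w⟩, h, k⟩
    · simp only [ax, List.mem_cons, List.not_mem_nil, or_false] at h
      rcases h with rfl | rfl | rfl <;> simp [h1, -List.getD_eq_getElem?_getD]
    rcases mem_R.mp h with ⟨-, l, b, p, -, rfl⟩ | ⟨-, rfl⟩ | ⟨-, f, -, rfl⟩ | ⟨-, v, j, p, b, rfl⟩
    · simp only [List.mem_cons, z_eq, List.mem_replicate] at k
      rcases k with rfl | rfl | ⟨-, rfl⟩ <;> simp [b]
    · simp at k
    · simp only [List.mem_append, List.mem_singleton, z_eq, List.mem_replicate] at k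
      tauto
    · exact .inr (.inr (mem_word b.1.2 _ _ _ k))
  rcases this with rfl | rfl | rfl | k
  · exact ⟨_, mem_R.mpr (.inl ⟨rfl, _, h1, 0, hI, rfl⟩)⟩
  · exact ⟨_, mem_R.mpr (.inr (.inr (.inl ⟨rfl, 5, by simp, rfl⟩)))⟩
  · exact ⟨_, mem_R.mpr (.inr (.inl ⟨rfl, rfl⟩))⟩
  · exact ⟨_, mem_R.mpr (.inr (.inr (.inr ⟨k, [a], 5, 0, ⟨⟨(l0 (H := H) h0 hG).1, by simp [k]⟩, by simp [C]⟩, rfl⟩)))⟩

include hl hH hG in
theorem incl (hs : ¬ Sol H G) {w w' : List ℕ} (h : Sh H G w) (k : Step (R H G [6, 0, 1, 2, 3, 4, 7, 11]) w w') :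
    Step (R H G [0, 1, 2, 3, 4, 7, 11]) w w' := by
  obtain ⟨u, rfl, hu, hu'⟩ := h
  obtain ⟨l, a, p, b, r, c, rfl⟩ := (step_iff hu _).mp k
  rw [step_iff hu]
  rcases List.mem_cons.mp b with rfl | b
  swap
  · exact ⟨l, a, p, b, r, c, rfl⟩
  rcases gar c with ⟨v, h1, h2, h3⟩ | ⟨p, r', h1, h2, h3⟩
  swap
  · exact ⟨l, a, p, by simp; omega, r', h2, by rw [h3]⟩
  have ne : v.map sym ≠ u.flatMap (im G) := fun e => hs <| by
    rw [h2, ← im_filter H, ← im_filter G] at e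
    have : ∀ t : List ℕ, (∀ y ∈ t, y ∈ Lm H G) → ∃ x : List ℕ, x.length = t.length ∧ (∀ i ∈ x, i < H.length) ∧
        F H x = t.flatMap (im H) ∧ F G x = t.flatMap (im G) := fun t ht => by
      induction t with
      | nil => exact ⟨[], by simp [F]⟩
      | cons y t ih =>
        obtain ⟨x, b1, b2, b3, b4⟩ := ih fun y k => ht y (by simp [k])
        obtain ⟨i, hi, d, -, rfl⟩ := mem_Lm.mp (ht y (by simp))
        exact ⟨i :: x, by simp [b1], by simpa [hi] using b2, by simp [F, im_pair, ← b3], by simp [F, im_pair, ← b4]⟩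
    obtain ⟨x, b1, b2, b3, b4⟩ := this (u.filter (· ≠ 0)) fun y k => by
      have := List.mem_filter.mp k
      exact (hu y this.1).resolve_left (by simpa using this.2)
    exact ⟨x, fun k => hu' (List.length_eq_zero_iff.mp (by rw [← b1, k]; rfl)), b2, by rw [b3, b4, e]⟩
  have len : ∀ X : List (List ℕ), (u.flatMap (im X)).length = (u.map fun y => (im X y).length).sum := by
    simp [List.length_flatMap]
  have lv : v.length = (u.map fun y => (im H y).length).sum := by rw [← len, ← h2, List.length_map]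
  have bd : ∀ y ∈ u, ((if y = 0 then 0 else 1) ≤ (im H y).length ∧
      (im H y).length ≤ if y = 0 then 0 else (D H G).length) ∧ (if y = 0 then 0 else 1) ≤ (im G y).length ∧
      (im G y).length ≤ if y = 0 then 0 else (D H G).length := fun y k => by
    rcases hu y k with rfl | k
    · simp [im0]
    · obtain ⟨c1, c2⟩ := im_mem hl k
      have := Lm3 y k
      simp only [if_neg (by omega : y ≠ 0)]
      exact ⟨⟨List.length_pos_iff.mpr (hH _ c1), (sub_D (.inl c1)).length_le⟩,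
        List.length_pos_iff.mpr (hG _ c2), (sub_D (.inr c2)).length_le⟩
  obtain ⟨q, hq, vs, c1, rfl⟩ : ∃ q, (q = 8 ∨ q = 9) ∧ ∃ vs : List (List ℕ), List.Forall₂ (fun y w =>
      (if y = 0 then 0 else 1) ≤ w.length ∧ (w.length ≤ if y = 0 then 0 else (D H G).length) ∧
      ((q = 8 ∧ w.length ≤ (im G y).length) ∨ (q = 9 ∧ (im G y).length ≤ w.length))) u vs ∧ v = vs.flatten := by
    rcases le_total v.length (u.map fun y => (im G y).length).sum with e | e
    · obtain ⟨vs, c1, c2⟩ := cut _ _ u (fun y k => (bd y k).2.1) v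
        (lv ▸ List.sum_le_sum fun y k => (bd y k).1.1) e
      exact ⟨8, by simp, vs, ((List.forall₂_and_left _ _).mpr ⟨bd, c1⟩).imp fun y w k => by omega, c2⟩
    · obtain ⟨vs, c1, c2⟩ := cut _ _ u (fun y k => (bd y k).2.2) v e
        (lv ▸ List.sum_le_sum fun y k => (bd y k).1.2)
      exact ⟨9, by simp, vs, ((List.forall₂_and_left _ _).mpr ⟨bd, c1⟩).imp fun y w k => by omega, c2⟩
  obtain ⟨r', c2, c3⟩ := zrun (H := H) (Λ := Lm H G) (K := (D H G).length) hq (u := u) (vs := vs) (by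
    clear ne lv h2 h3 c k hu' len bd
    induction c1 with
    | nil => exact .nil
    | @cons y w u vs c1 _ ih =>
      simp only [List.flatten_cons, List.forall_mem_append, List.forall_mem_cons] at h1 hu
      refine .cons ?_ (ih hu.2 h1.2)
      rcases hu.1 with rfl | k
      · exact .inl ⟨rfl, by simpa using c1.2.1⟩
      · have := Lm3 y k
        simp only [if_neg (by omega : y ≠ 0)] at c1
        exact .inr ⟨k, ⟨c1.2.1, h1.1⟩, by omega, by omega, List.length_pos_iff.mp c1.1,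
          .inr (.inr (.inr (.inr (.inr ⟨.inl rfl, c1.2.2⟩))))⟩) 7 (.inr ⟨rfl, ne⟩)
  exact ⟨l, a, 7, by simp, r', c2, by rw [h3, c3]⟩

include hl h0 hG in
theorem reach {I : List ℕ} (hI : 0 ∈ I) (l : ℕ) (t : List ℕ) (ht : ∀ y ∈ l :: t, y ∈ Lm H G) (h : t ≠ []) :
    ∃ u, ReflTransGen (Step (R H G I)) (ax H G) (1 :: (u ++ [2])) ∧ (∀ y ∈ u, y = 0 ∨ y ∈ Lm H G) ∧
      u.filter (· ≠ 0) = l :: t := by
  have key : ∀ (l : ℕ) (t u : List ℕ), (∀ y ∈ l :: t, y ∈ Lm H G) → (∀ y ∈ u, y = 0 ∨ y ∈ Lm H G) →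
      t.length = (u.filter (· ≠ 0)).length → ∃ u', Step (R H G I) (1 :: (u ++ [2])) (1 :: (u' ++ [2])) ∧
      (∀ y ∈ u', y = 0 ∨ y ∈ Lm H G) ∧ u'.filter (· ≠ 0) = l :: t := fun l t u ht hu e => by
    rw [List.forall_mem_cons] at ht
    obtain ⟨r, a, b, c⟩ := grow (H := H) (G := G) (l0 (H := H) h0 hG).1 Lm3 hu t ht.2 e
    have := Lm3 l ht.1
    exact ⟨l :: r, (step_iff hu _).mpr ⟨l, ht.1, 0, hI, _, a, by simp [z]⟩,
      List.forall_mem_cons.mpr ⟨.inr ht.1, b⟩, by rw [List.filter_cons_of_pos (by simp; omega), c]⟩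
  induction t generalizing l with
  | nil => exact absurd rfl h
  | cons a t ih =>
    rcases eq_or_ne t [] with rfl | e
    · obtain ⟨u, b⟩ := key l [a] [Nat.pair ((D H G).getD 0 0) 1 + 3] ht
        (by simpa using (l0 (H := H) h0 hG).2 0 (by omega)) (by simp)
      exact ⟨u, .single b.1, b.2⟩
    · obtain ⟨u, b, c, d⟩ := ih a (List.forall_mem_cons.mp ht).2 e
      obtain ⟨u', b'⟩ := key l (a :: t) u ht c (by rw [d])
      exact ⟨u', b.tail b'.1, b'.2⟩

include hl h0 hH in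
theorem urun {u : List ℕ} (hu : ∀ y ∈ u, y = 0 ∨ y ∈ Lm H G) : ∃ v r, Gen H G (Lm H G) (D H G).length u r ∧
    (∀ l ∈ v, l ∈ Lm H G) ∧ v.map sym = u.flatMap (im H) ∧ z 6 ++ r = T (v ++ [2]) := by
  induction u with
  | nil => exact ⟨[], _, .nil 6 (by simp), by simp, rfl, by decide⟩
  | cons y u ih =>
    rw [List.forall_mem_cons] at hu
    obtain ⟨v, r, a, b, c, d⟩ := ih hu.2
    rcases hu.1 with rfl | k
    · exact ⟨v, r, a.zero, b, by simp [c, im0], d⟩
    have k1 := (im_mem hl k).1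
    have k2 : ∀ l ∈ (im H y).map fun d => Nat.pair d (0 + 1) + 3, l ∈ Lm H G :=
      List.forall_mem_map.mpr fun d hd => mem_Lm.mpr ⟨0, by omega, d, (sub_D (.inl k1)).subset hd, rfl⟩
    have k3 : ((im H y).map fun d => Nat.pair d (0 + 1) + 3).map sym = im H y := by simp [Function.comp_def, sym]
    have k4 : ((im H y).map fun d => Nat.pair d (0 + 1) + 3) ≠ [] := by simpa using hH _ k1
    exact ⟨_ ++ v, _, .live (j := 6) (p := 6) k ⟨⟨by simpa using (sub_D (.inl k1)).length_le, k2⟩, by simp, by simp, k4,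
      .inr (.inr (.inr (.inl ⟨rfl, rfl, k3⟩)))⟩ a, List.forall_mem_append.mpr ⟨k2, b⟩,
      by rw [List.map_append, k3, c, List.flatMap_cons], by rw [z_word (by simp) k4, d]; simp [T_app]⟩

include hl h0 hH hG in
theorem main : E (R H G [0, 1, 2, 3, 4, 7, 11]) (ax H G) = E (R H G [6, 0, 1, 2, 3, 4, 7, 11]) (ax H G) ↔
    ¬ Sol H G := by
  have h1 := (l0 (H := H) h0 hG).2
  constructor
  · rintro e ⟨x, x0, hx, k⟩
    obtain ⟨i, x, rfl⟩ := List.exists_cons_of_ne_nil x0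
    have hx' := List.forall_mem_append.mpr ⟨hx, hx⟩
    obtain ⟨u, a, b, c⟩ := reach hl h0 hG (I := [6, 0, 1, 2, 3, 4, 7, 11]) (by simp) _ ((x ++ i :: x).map _)
      (List.forall_mem_map.mpr fun j hj => h1 j (hx' j hj) : ∀ y ∈ (i :: x ++ i :: x).map _, _) (by simp)
    obtain ⟨v, r, d1, d2, d3, d4⟩ := urun hl h0 hH b
    have hS : Sh H G (1 :: (u ++ [2])) := ⟨u, rfl, b, by rw [c]; exact List.cons_ne_nil _ _⟩
    have st := (step_iff (I := [6, 0, 1, 2, 3, 4, 7, 11]) b _).mpr ⟨_, h1 0 (by omega), 6, by simp, r, d1, rfl⟩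
    obtain ⟨l, -, p, hp, r', f1, f2⟩ := (step_iff b _).mp (ext2 e (Sh H G) (fun w hw => by
      obtain ⟨u, rfl, hu, hu'⟩ := id hw
      obtain ⟨v, r, d1, -⟩ := urun hl h0 hH hu
      have st := (step_iff (I := [6, 0, 1, 2, 3, 4, 7, 11]) hu _).mpr ⟨_, h1 0 (by omega), 6, by simp, r, d1, rfl⟩
      exact ⟨_, st, step_sh hw st⟩) a st (step_sh hS st))
    simp only [List.cons.injEq, true_and] at f2
    obtain ⟨g1, -, -, g2⟩ := parse Lm3 f1 p v d2 (f2.2.symm.trans d4)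
    refine g1 (by simp at hp; omega) ?_
    rw [d3, ← im_filter H, ← im_filter G, c]
    simp only [F, List.flatMap_cons] at k
    simp only [List.flatMap_cons, List.flatMap_map, im_pair, List.flatMap_append, ← List.append_assoc, k]
  · intro hs
    ext s
    constructor
    · rintro ⟨a, b⟩
      refine ⟨a, fun n => ?_⟩
      obtain ⟨ws, c, d⟩ := b n
      refine ⟨ws, c.imp fun y w k => mem_R.mpr ((mem_R.mp k).imp_left ?_), d⟩
      exact fun ⟨k1, l, k2, p, k3, k4⟩ => ⟨k1, l, k2, p, List.mem_cons_of_mem _ k3, k4⟩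
    · rintro ⟨a, b⟩
      have : ∀ n, Sh H G (s n) := fun n => by
        induction n with
        | zero => exact a ▸ ax_sh hl h0 hG
        | succ n ih => exact step_sh ih (b n)
      exact ⟨a, fun n => incl hl hH hG hs (this n) (b n)⟩

end Pool.Agent.H16.OL
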