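import Mathlib

set_option autoImplicit false

namespace Pool.Agent.H16.Orph

/-- The word `u` of length `l` has no preimage of length `l + 1` under the range-2 rule `f`. -/
def Orphan {S : Type} (f : S → S → S) {l : ℕ} (u : Fin l → S) : Prop :=
  ¬ ∃ v : Fin (l + 1) → S, ∀ i : Fin l, f (v i.castSucc) (v i.succ) = u i

/-- The automaton has an orphan. -/
def NonSurj {S : Type} (f : S → S → S) : Prop := ∃ (l : ℕ) (u : Fin l → S), Orphan f u

/-- Length of a shortest orphan. -/
noncomputable def minOrph {S : Type} (f : S → S → S) : ℕ :=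
  sInf {l | ∃ u : Fin l → S, Orphan f u}

/-- Proportion of the words of length `l` that are orphans. -/
noncomputable def rho {S : Type} (f : S → S → S) (l : ℕ) : ℝ :=
  (Nat.card {u : Fin l → S // Orphan f u} : ℝ) / (Nat.card S : ℝ) ^ l

end Pool.Agent.H16.Orph
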