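import Mathlib
import Pool.Agent.H16.OrphDefs

set_option autoImplicit false

namespace Pool.Agent.H16.Orph
open Finset

abbrev Z (p : ℕ) : Type := ZMod p × Bool

def val {p : ℕ} (z : Z p) : ZMod p := if z.2 then 0 else z.1

def g {p : ℕ} (a b c : Z p) : Z p := if b.2 then b else (2 * b.1 - val a - val c, false)

def f {p : ℕ} (s t : Z p × Z p) : Z p × Z p := (g s.1 s.2 t.1, g s.2 t.1 t.2)

theorem lin {R : Type} [CommRing R] (D : ℕ → R) (s t : ℕ)
    (h : ∀ j, 1 ≤ j → j < t → D (s + j + 1) = 2 * D (s + j) - D (s + j - 1)) :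
    ∀ j, j ≤ t → D (s + j) = D s + j * (D (s + 1) - D s) := by
  intro j
  induction j using Nat.strong_induction_on with
  | _ j ih =>
    intro hj
    rcases j with _ | _ | j
    · simp
    · simp
    · have h1 := h (j + 1) (by omega) (by omega)
      have h2 := ih (j + 1) (by omega) (by omega)
      have h3 := ih j (by omega) (by omega)
      rw [show s + (j + 1) - 1 = s + j by omega, h2, h3] at h1
      rw [show s + (j + 1 + 1) = s + (j + 1) + 1 by omega, h1]
      push_cast; ring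

theorem solve (p : ℕ) [Fact p.Prime] (L : ℕ) (Y : ℕ → Z p) (h0 : (Y 0).2 = true)
    (hL : ∀ j, L ≤ j → (Y j).2 = true) (hw : ∀ s, ∃ t, 1 ≤ t ∧ t < p ∧ (Y (s + t)).2 = true) :
    ∃ z : ℕ → Z p, ∀ j, j + 1 < L → g (z j) (z (j + 1)) (z (j + 2)) = Y (j + 1) := by
  let ex : (Fin L → ZMod p) → ℕ → Z p := fun x j => (if h : j < L then x ⟨j, h⟩ else 0, (Y j).2)
  let T : (Fin L → ZMod p) → Fin L → ZMod p := fun x j =>
    (g (ex x (j - 1)) (ex x j) (ex x (j + 1))).1
  have hinj : Function.Injective T := by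
    intro x x' h
    let D : ℕ → ZMod p := fun j => val (ex x j) - val (ex x' j)
    have hD0 : ∀ j, (Y j).2 = true → D j = 0 := fun j hj => by simp [D, val, ex, hj]
    have hrec : ∀ j, (Y j).2 = false → D (j + 1) = 2 * D j - D (j - 1) := by
      intro j hj
      have hjL : j < L := by
        by_contra hn
        rw [hL j (by omega)] at hj; cases hj
      have := congrFun h ⟨j, hjL⟩
      simp only [T, g, ex, hj, Bool.false_eq_true, if_false] at this
      have e1 : val (ex x j) = (ex x j).1 := by simp [val, ex, hj]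
      have e2 : val (ex x' j) = (ex x' j).1 := by simp [val, ex, hj]
      simp only [D, e1, e2, ex]
      linear_combination -this
    have hD : ∀ s, D s = 0 := by
      intro s
      induction s with
      | zero => exact hD0 0 h0
      | succ s ih =>
        have hex : ∃ t, 1 ≤ t ∧ t < p ∧ (Y (s + t)).2 = true := hw s
        obtain ⟨t1, t2, t3⟩ := Nat.find_spec hex
        have := lin D s (Nat.find hex) (fun j j1 j2 => hrec _ (by
          have := Nat.find_min hex j2
          cases hh : (Y (s + j)).2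
          · rfl
          · exact absurd ⟨j1, by omega, hh⟩ this)) _ le_rfl
        rw [hD0 _ t3, ih, zero_add, sub_zero] at this
        refine (mul_eq_zero.1 this.symm).resolve_left fun h => ?_
        exact absurd (Nat.le_of_dvd (by omega) ((ZMod.natCast_eq_zero_iff _ _).1 h)) (by omega)
    funext j
    cases hj : (Y j).2
    · have := hD j
      simpa [D, val, ex, hj, sub_eq_zero] using this
    · simpa [T, g, ex, hj] using congrFun h j
  obtain ⟨x, hx⟩ := Finite.injective_iff_surjective.1 hinj fun j => (Y j).1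
  refine ⟨ex x, fun j hj => Prod.ext (congrFun hx ⟨j + 1, hj⟩) ?_⟩
  unfold g
  split_ifs with h
  · rfl
  · exact (Bool.eq_false_iff.2 h).symm

def cell {p l : ℕ} (u : Fin l → Z p × Z p) (j : ℕ) : Z p :=
  if h : 1 ≤ j ∧ (j - 1) / 2 < l then
    (if j % 2 = 1 then (u ⟨(j - 1) / 2, h.2⟩).1 else (u ⟨(j - 1) / 2, h.2⟩).2) else (0, true)

theorem cell_odd {p l : ℕ} (u : Fin l → Z p × Z p) (i : Fin l) : cell u (2 * i + 1) = (u i).1 := by
  have h1 : (2 * (i : ℕ) + 1 - 1) / 2 = i := by omega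
  have h2 : (2 * (i : ℕ) + 1) % 2 = 1 := by omega
  simp [cell, h2]

theorem cell_even {p l : ℕ} (u : Fin l → Z p × Z p) (i : Fin l) :
    cell u (2 * i + 1 + 1) = (u i).2 := by
  have h1 : (2 * (i : ℕ) + 1) / 2 = i := by omega
  have h2 : (2 * (i : ℕ) + 1 + 1) % 2 = 0 := by omega
  simp [cell, h1, h2]

theorem cell_out {p l : ℕ} (u : Fin l → Z p × Z p) (j : ℕ) (h : 2 * l + 1 ≤ j) :
    (cell u j).2 = true := by
  rw [cell, dif_neg (by omega)]

theorem orph_bad (k : ℕ) (hk : 1 ≤ k) [Fact (2 * k + 1).Prime] {l : ℕ}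
    (u : Fin l → Z (2 * k + 1) × Z (2 * k + 1)) (h : Orphan f u) :
    ∃ i, i + k ≤ l ∧ ∀ j : Fin l, i ≤ j → j < i + k → (u j).1.2 = false := by
  by_contra hn
  push Not at hn
  obtain ⟨z, hz⟩ := solve (2 * k + 1) (2 * l + 1) (cell u) (by simp [cell]) (cell_out u)
    fun s => by
      by_cases hi : (s + 1) / 2 + k ≤ l
      · obtain ⟨j, j1, j2, j3⟩ := hn _ hi
        refine ⟨2 * j + 1 - s, by omega, by omega, ?_⟩
        rw [show s + (2 * j + 1 - s) = 2 * j + 1 by omega, cell_odd]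
        simpa using j3
      · exact ⟨2 * k, by omega, by omega, cell_out u _ (by omega)⟩
  refine h ⟨fun i => (z (2 * i), z (2 * i + 1)), fun i => Prod.ext ?_ ?_⟩
  · have := hz (2 * i) (by omega)
    rw [cell_odd] at this
    simpa [f, mul_add] using this
  · have := hz (2 * i + 1) (by omega)
    rw [cell_even] at this
    simpa [f, mul_add] using this

theorem card_win {S : Type} [Fintype S] [DecidableEq S] (A : Finset S)
    (hA : 2 * A.card = Fintype.card S) (l i k : ℕ) (h : i + k ≤ l) :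
    2 ^ k * (Fintype.piFinset fun j : Fin l => if i ≤ j ∧ j < i + k then A else univ).card =
      Fintype.card S ^ l := by
  rw [Fintype.card_piFinset]
  have e : ∏ j : Fin l, (if i ≤ j ∧ j < i + k then 2 else 1) = 2 ^ k := by
    rw [Finset.prod_ite, Finset.prod_const, Finset.prod_const_one, mul_one]
    congr 1
    rw [← Finset.card_map Fin.valEmbedding]
    conv_rhs => rw [show k = (Finset.Ico i (i + k)).card by simp]
    congr 1
    ext x
    simp only [mem_map, mem_filter, mem_univ, true_and, Fin.valEmbedding_apply, mem_Ico]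
    exact ⟨fun ⟨a, h1, h2⟩ => h2 ▸ h1, fun h1 => ⟨⟨x, by omega⟩, h1, rfl⟩⟩
  rw [← e, ← Finset.prod_mul_distrib, Finset.prod_congr rfl (g := fun _ => Fintype.card S)]
  · simp
  · intro j _
    split_ifs
    · exact hA
    · simp

theorem rho_le (k : ℕ) (hk : 1 ≤ k) [Fact (2 * k + 1).Prime] (l : ℕ) :
    rho (f (p := 2 * k + 1)) l ≤ l / 2 ^ k := by
  classical
  let A : Finset (Z (2 * k + 1) × Z (2 * k + 1)) := (univ ×ˢ {false}) ×ˢ univ
  have hA : 2 * A.card = Fintype.card (Z (2 * k + 1) × Z (2 * k + 1)) := by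
    simp [A]; ring
  let B := fun i : ℕ => Fintype.piFinset fun j : Fin l => if i ≤ j ∧ j < i + k then A else univ
  have h1 : (univ.filter fun u : Fin l → Z (2 * k + 1) × Z (2 * k + 1) => Orphan f u) ⊆
      ((range l).filter fun i => i + k ≤ l).biUnion B := by
    intro u hu
    obtain ⟨i, i1, i2⟩ := orph_bad k hk u (mem_filter.1 hu).2
    refine mem_biUnion.2 ⟨i, by simp; omega, Fintype.mem_piFinset.2 fun j => ?_⟩
    split_ifs with hj
    · simp only [A, mem_product, mem_univ, mem_singleton, i2 j hj.1 hj.2, and_self]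
    · simp
  have h2 : 2 ^ k * (univ.filter fun u : Fin l → Z (2 * k + 1) × Z (2 * k + 1) =>
      Orphan f u).card ≤ l * Fintype.card (Z (2 * k + 1) × Z (2 * k + 1)) ^ l := by
    refine (Nat.mul_le_mul_left _ ((card_le_card h1).trans card_biUnion_le)).trans ?_
    rw [Finset.mul_sum, Finset.sum_congr rfl (g := fun _ => Fintype.card _ ^ l)
      fun i hi => card_win A hA l i k (mem_filter.1 hi).2, sum_const, smul_eq_mul]
    exact Nat.mul_le_mul_right _ ((card_filter_le _ _).trans (by simp))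
  unfold rho
  rw [Nat.card_eq_fintype_card, Nat.card_eq_fintype_card, Fintype.card_subtype,
    div_le_div_iff₀ (by have := Fintype.card_pos (α := Z (2 * k + 1) × Z (2 * k + 1)); positivity)
      (by positivity), mul_comm]
  exact_mod_cast h2

def Y0 (p j : ℕ) : Z p := if j = 1 ∨ j = p + 1 then (0, true) else if j = 2 then (1, false) else (0, false)

theorem orph_ex (k : ℕ) (hk : 1 ≤ k) [Fact (2 * k + 1).Prime] :
    Orphan (f (p := 2 * k + 1)) fun i : Fin (k + 1) => (Y0 _ (2 * i + 1), Y0 _ (2 * i + 2)) := by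
  rintro ⟨v, hv⟩
  let z : ℕ → Z (2 * k + 1) := fun j => if h : j / 2 < k + 1 + 1 then
    (if j % 2 = 0 then (v ⟨j / 2, h⟩).1 else (v ⟨j / 2, h⟩).2) else (0, true)
  have z0 : ∀ i : Fin (k + 1 + 1), z (2 * i) = (v i).1 := fun i => by
    have := i.2
    simp [z]; omega
  have z1 : ∀ i : Fin (k + 1 + 1), z (2 * i + 1) = (v i).2 := fun i => by
    have h1 : (2 * (i : ℕ) + 1) / 2 = i := by omega
    have := i.2
    simp [z, h1]; omega
  have hz : ∀ j, j < 2 * k + 2 → g (z j) (z (j + 1)) (z (j + 2)) = Y0 _ (j + 1) := by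
    intro j hj
    have hi : j / 2 < k + 1 := by omega
    have := hv ⟨j / 2, hi⟩
    have a0 := z0 (Fin.castSucc ⟨j / 2, hi⟩)
    have a1 := z1 (Fin.castSucc ⟨j / 2, hi⟩)
    have a2 := z0 (Fin.succ ⟨j / 2, hi⟩)
    have a3 := z1 (Fin.succ ⟨j / 2, hi⟩)
    simp only [Fin.val_castSucc, Fin.val_succ] at a0 a1 a2 a3
    rw [f, ← a0, ← a1, ← a2, ← a3, Prod.mk.injEq] at this
    dsimp only at this
    rcases Nat.even_or_odd' j with ⟨m, rfl | rfl⟩
    · rw [show 2 * m / 2 = m by omega] at this; exact this.1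
    · rw [show (2 * m + 1) / 2 = m by omega] at this; exact this.2
  have hf : ∀ j, j < 2 * k + 2 → (z (j + 1)).2 = (Y0 (2 * k + 1) (j + 1)).2 := by
    intro j hj
    rw [← hz j hj]; unfold g
    split_ifs with h
    · rfl
    · simpa using h
  have hr : ∀ j, 1 ≤ j → j < 2 * k + 1 →
      2 * val (z (j + 1)) - val (z j) - val (z (j + 2)) = (Y0 (2 * k + 1) (j + 1)).1 := by
    intro j j1 j2
    have h1 : (z (j + 1)).2 = false := by
      rw [hf j (by omega), Y0, if_neg (by omega)]; split_ifs <;> rfl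
    rw [← hz j (by omega)]
    simp [g, val, h1]
  have v1 : val (z 1) = 0 := by
    have := hf 0 (by omega)
    simp [Y0] at this; simp [val, this]
  have v2 : val (z (2 + 2 * k)) = 0 := by
    have := hf (2 * k + 1) (by omega)
    simp [Y0] at this; simp [val, show 2 + 2 * k = 2 * k + 1 + 1 by ring, this]
  have r1 := hr 1 le_rfl (by omega)
  rw [Y0, if_neg (by omega), if_pos rfl, v1] at r1
  have := lin (fun j => val (z j)) 2 (2 * k) (fun j j1 j2 => by
    have := hr (j + 1) (by omega) (by omega)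
    rw [Y0, if_neg (by omega), if_neg (by omega)] at this
    rw [show 2 + j + 1 = j + 1 + 2 by ring, show 2 + j - 1 = j + 1 by omega,
      show 2 + j = j + 1 + 1 by ring]
    linear_combination -this) _ le_rfl
  simp only [v2] at this
  have hp : ((2 * k + 1 : ℕ) : ZMod (2 * k + 1)) = 0 := ZMod.natCast_self _
  push_cast at hp this
  norm_num at r1
  apply (one_ne_zero : (1 : ZMod (2 * k + 1)) ≠ 0)
  linear_combination -this + (2 * k) * r1 - (val (z 2) - 1) * hp

theorem poly_bd (P : MvPolynomial (Fin 2) ℝ) : ∃ (C : ℝ) (D : ℕ), 0 ≤ C ∧ ∀ (x : Fin 2 → ℝ) (B : ℝ),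
    1 ≤ B → (∀ i, |x i| ≤ B) → |MvPolynomial.eval x P| ≤ C * B ^ D := by
  induction P using MvPolynomial.induction_on with
  | C a => exact ⟨|a|, 0, abs_nonneg _, fun x B _ _ => by simp⟩
  | add p q hp hq =>
    obtain ⟨C1, D1, a0, a1⟩ := hp
    obtain ⟨C2, D2, b0, b1⟩ := hq
    refine ⟨C1 + C2, D1 + D2, by positivity, fun x B h1 h2 => ?_⟩
    rw [map_add, add_mul]
    refine (abs_add_le _ _).trans (add_le_add ((a1 x B h1 h2).trans ?_) ((b1 x B h1 h2).trans ?_))
    · gcongr; omega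
    · gcongr; omega
  | mul_X p n hp =>
    obtain ⟨C1, D1, a0, a1⟩ := hp
    refine ⟨C1, D1 + 1, a0, fun x B h1 h2 => ?_⟩
    rw [map_mul, abs_mul, MvPolynomial.eval_X, pow_succ, ← mul_assoc]
    exact mul_le_mul (a1 x B h1 h2) (h2 n) (abs_nonneg _) (by positivity)

theorem main : ¬ ∃ P : MvPolynomial (Fin 2) ℝ, ∀ (S : Type) [Finite S] [Nonempty S]
    (F : S → S → S), NonSurj F → ∃ l : ℕ,
      (l : ℝ) ≤ MvPolynomial.eval ![(Nat.card S : ℝ), (minOrph F : ℝ)] P ∧ 1 / 2 < rho F l := by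
  rintro ⟨P, H⟩
  obtain ⟨C, D, hC, hP⟩ := poly_bd P
  have ht := (tendsto_pow_const_div_const_pow_of_one_lt (2 * D) (one_lt_two (α := ℝ))).const_mul
    (C * 36 ^ D)
  rw [mul_zero] at ht
  obtain ⟨K, hK⟩ := Filter.eventually_atTop.1 (ht.eventually (gt_mem_nhds one_half_pos))
  obtain ⟨p, hp1, hp⟩ := Nat.exists_infinite_primes (2 * K + 3)
  obtain ⟨k, rfl⟩ : Odd p := hp.odd_of_ne_two (by omega)
  have : Fact (2 * k + 1).Prime := ⟨hp⟩
  have hk : 1 ≤ k := by omega
  obtain ⟨l, l1, l2⟩ := H _ (f (p := 2 * k + 1)) ⟨_, _, orph_ex k hk⟩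
  have hm : minOrph (f (p := 2 * k + 1)) ≤ k + 1 := Nat.sInf_le ⟨_, orph_ex k hk⟩
  have hk' : (1 : ℝ) ≤ k := by exact_mod_cast hk
  have hm' : (minOrph (f (p := 2 * k + 1)) : ℝ) ≤ k + 1 := by exact_mod_cast hm
  have hb := hP ![(Nat.card (Z (2 * k + 1) × Z (2 * k + 1)) : ℝ),
      (minOrph (f (p := 2 * k + 1)) : ℝ)] (36 * k ^ 2) (by nlinarith) fun i => by
    fin_cases i
    · have e : |2 * (k : ℝ) + 1| = 2 * k + 1 := abs_of_nonneg (by positivity)
      simp [e]; nlinarith
    · simp; nlinarith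
  have h3 := hK k (by omega)
  have h4 := rho_le k hk l
  have h5 : (l : ℝ) / 2 ^ k ≤ C * 36 ^ D * ((k : ℝ) ^ (2 * D) / 2 ^ k) := by
    rw [← mul_div_assoc]
    gcongr
    refine (l1.trans ((le_abs_self _).trans hb)).trans (le_of_eq ?_)
    rw [mul_pow, ← pow_mul]; ring
  linarith

end Pool.Agent.H16.Orph
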