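import Mathlib

set_option autoImplicit false

namespace Pool.Agent.H16.Overlap

open FreeGroup

variable {S : Type}

/-- `w` properly overlaps `w'`: a nonempty word shorter than both ends `w` and begins `w'`. -/
def PO (w w' : List (S × Bool)) : Prop :=
  ∃ x, x ≠ [] ∧ x <:+ w ∧ x <+: w' ∧ x.length < w.length ∧ x.length < w'.length

/-- A symmetric set of nonempty reduced non-self-overlapping words. -/
def Admissible (V : Set (List (S × Bool))) : Prop :=
  ∀ w ∈ V, IsReduced w ∧ w ≠ [] ∧ ¬ PO w w ∧ invRev w ∈ V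

/-- The undirected graph underlying the overlap graph. -/
def OG (V : Set (List (S × Bool))) : SimpleGraph V where
  Adj w w' := w ≠ w' ∧ (PO w.1 w'.1 ∨ PO w'.1 w.1)
  symm := ⟨fun _ _ h => ⟨h.1.symm, h.2.symm⟩⟩
  loopless := ⟨fun _ h => h.1 rfl⟩

/-- The quotient graph on the pairs `{w, w⁻¹}`. -/
def OGbar (V : Set (List (S × Bool))) :
    SimpleGraph {p : Set (List (S × Bool)) // ∃ w ∈ V, p = {w, invRev w}} where
  Adj p q := p ≠ q ∧ ∃ x ∈ p.1, ∃ y ∈ q.1, PO x y ∨ PO y x
  symm := ⟨fun _ _ ⟨h, x, hx, y, hy, h1⟩ => ⟨h.symm, y, hy, x, hx, h1.symm⟩⟩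
  loopless := ⟨fun _ h => h.1 rfl⟩

theorem mem_invRev {w : List (S × Bool)} {x : S × Bool} : x ∈ invRev w ↔ (x.1, !x.2) ∈ w := by
  simp only [invRev, List.mem_reverse, List.mem_map]
  constructor
  · rintro ⟨y, hy, rfl⟩
    simpa using hy
  · exact fun h => ⟨_, h, by simp⟩

theorem red_inv {w : List (S × Bool)} (h : IsReduced w) : IsReduced (invRev w) := by
  unfold FreeGroup.IsReduced invRev at *
  rw [List.isChain_reverse, List.isChain_map]
  exact h.imp fun a b hab h1 => by simp [hab h1.symm]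

theorem suf_inv {x w : List (S × Bool)} (h : x <:+ w) : invRev x <+: invRev w := by
  obtain ⟨p, rfl⟩ := h
  exact ⟨invRev p, by simp⟩

theorem pre_inv {x w : List (S × Bool)} (h : x <+: w) : invRev x <:+ invRev w := by
  obtain ⟨p, rfl⟩ := h
  exact ⟨invRev p, by simp⟩

theorem inv_ne {x : List (S × Bool)} (h : x ≠ []) : invRev x ≠ [] := by
  cases x with
  | nil => exact absurd rfl h
  | cons a x => rw [invRev_cons]; simp [invRev]

theorem PO.inv {w w' : List (S × Bool)} (h : PO w w') : PO (invRev w') (invRev w) := by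
  obtain ⟨x, h0, h1, h2, h3, h4⟩ := h
  exact ⟨invRev x, inv_ne h0, pre_inv h2, suf_inv h1, by simpa using h4, by simpa using h3⟩

abbrev Wd := List (Fin 3 × Bool)

def Good (u : Wd) : Prop :=
  IsReduced u ∧ (∀ x ∈ u, x.1 ≠ 2) ∧ (∃ s, u.head? = some (0, s)) ∧ ∃ s, u.getLast? = some (0, s)

theorem Good.inv {u : Wd} (h : Good u) : Good (invRev u) := by
  obtain ⟨h1, h2, ⟨s, h3⟩, t, h4⟩ := h
  refine ⟨red_inv h1, fun x hx => h2 (x.1, !x.2) (mem_invRev.1 hx), ⟨!t, ?_⟩, !s, ?_⟩
  · simp [invRev, h4]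
  · simp [invRev, h3]

theorem Good.glue {u v : Wd} (h : Good u) (h' : Good v) (b : Bool) : Good (u ++ (1, b) :: v) := by
  obtain ⟨h1, h2, ⟨s, h3⟩, t, h4⟩ := h
  obtain ⟨h5, h6, ⟨s', h7⟩, t', h8⟩ := h'
  refine ⟨?_, ?_, ⟨s, by simp [h3]⟩, t', by simp [List.getLast?_cons, h8]⟩
  · unfold FreeGroup.IsReduced at *
    rw [List.isChain_append, List.isChain_cons]
    simp [h1, h5, h4, h7]
  · intro x hx
    simp only [List.mem_append, List.mem_cons] at hx
    rcases hx with h | rfl | h
    · exact h2 x h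
    · simp
    · exact h6 x h

def Rel (u v : Wd) : Prop := ∃ x, x ≠ [] ∧ x <:+ u ∧ invRev x <:+ v

theorem Rel.symm {u v : Wd} (h : Rel u v) : Rel v u := by
  obtain ⟨x, h0, h1, h2⟩ := h
  exact ⟨invRev x, inv_ne h0, h2, by simpa using h1⟩

theorem Rel.mono {u v u' v' : Wd} (h : Rel u v) (hu : u <:+ u') (hv : v <:+ v') : Rel u' v' := by
  obtain ⟨x, h0, h1, h2⟩ := h
  exact ⟨x, h0, h1.trans hu, h2.trans hv⟩

theorem not_rel {u : Wd} (h : IsReduced u) : ¬ Rel u u := by
  rintro ⟨x, h0, h1, h2⟩
  have h3 : invRev x = x :=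
    (List.suffix_of_suffix_length_le h2 h1 (by simp)).eq_of_length (by simp)
  have h4 : (mk x) ^ 2 = 1 := by
    rw [sq]
    nth_rewrite 1 [← h3]
    rw [← inv_mk, inv_mul_cancel]
  have h5 : mk x = 1 := (pow_eq_one_iff_left two_ne_zero).1 h4
  have h6 := congrArg toWord h5
  have h7 : IsReduced x := List.IsChain.suffix h h1
  rw [toWord_mk, h7.reduce_eq, toWord_one] at h6
  exact h0 h6

theorem family (N : ℕ) :
    ∃ f : ℕ → Wd, (∀ i, Good (f i)) ∧ ∀ i < N, ∀ j < N, i ≠ j → Rel (f i) (f j) := by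
  induction N with
  | zero => exact ⟨fun _ => [(0, true)], fun _ => by simp [Good], by simp⟩
  | succ N ih =>
    obtain ⟨f, hf, hr⟩ := ih
    have key : ∀ k ≤ N, ∃ g : ℕ → Wd, (∀ i, Good (g i)) ∧ (∀ i, f i <:+ g i) ∧
        ∀ i < k, Rel (g N) (g i) := by
      intro k
      induction k with
      | zero => exact fun _ => ⟨f, hf, fun _ => List.suffix_refl _, by simp⟩
      | succ k ih =>
        intro hk
        obtain ⟨g, h1, h2, h3⟩ := ih (by omega)
        let g' : ℕ → Wd := fun i => if i = k then invRev (g N) ++ (1, true) :: g k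
          else if i = N then invRev (g k) ++ (1, false) :: g N else g i
        have hs : ∀ i, g i <:+ g' i := by
          intro i
          simp only [g']
          split_ifs with h h'
          · exact ⟨invRev (g N) ++ [(1, true)], by simp [h]⟩
          · exact ⟨invRev (g k) ++ [(1, false)], by simp [h']⟩
          · exact List.suffix_refl _
        refine ⟨g', fun i => ?_, fun i => (h2 i).trans (hs i), fun i hi => ?_⟩
        · simp only [g']
          split_ifs
          · exact (h1 _).inv.glue (h1 _) _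
          · exact (h1 _).inv.glue (h1 _) _
          · exact h1 _
        · by_cases h : i = k
          · have h4 : N ≠ k := by omega
            refine ⟨g' N, by simp [g', h4], List.suffix_refl _, ?_⟩
            have e : invRev [((1 : Fin 3), false)] = [(1, true)] := rfl
            simp only [g', h4, h, if_true, if_false]
            rw [invRev_append, invRev_cons, invRev_invRev, e]
            simp
          · exact (h3 i (by omega)).mono (hs _) (hs _)
    obtain ⟨g, h1, h2, h3⟩ := key N le_rfl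
    refine ⟨g, h1, fun i hi j hj hij => ?_⟩
    by_cases h4 : i = N
    · exact h4 ▸ h3 j (by omega)
    · by_cases h5 : j = N
      · exact h5 ▸ (h3 i (by omega)).symm
      · exact (hr i (by omega) j (by omega) hij).mono (h2 _) (h2 _)

def V0 : Set Wd := {w | ∃ u, Good u ∧ (w = (2, true) :: u ∨ w = invRev ((2, true) :: u))}

theorem inv_V0 {w : Wd} (h : w ∈ V0) : invRev w ∈ V0 := by
  obtain ⟨u, hu, rfl | rfl⟩ := h
  · exact ⟨u, hu, Or.inr rfl⟩
  · exact ⟨u, hu, Or.inl (by simp only [invRev_invRev])⟩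

theorem noA {w u' : Wd} (h : w ∈ V0) : ¬ PO w ((2, true) :: u') := by
  rintro ⟨x, h0, h1, h2, h3, -⟩
  have hx : ((2 : Fin 3), true) ∈ x := by
    cases x with
    | nil => exact absurd rfl h0
    | cons a x => rw [(List.cons_prefix_cons.1 h2).1]; exact List.mem_cons_self
  obtain ⟨u, hu, rfl | rfl⟩ := h
  · rcases List.suffix_cons_iff.1 h1 with rfl | h4
    · omega
    · exact hu.2.1 _ (h4.subset hx) rfl
  · have := mem_invRev.1 (h1.subset hx)
    simp only [List.mem_cons] at this
    rcases this with h | h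
    · simp at h
    · exact hu.2.1 _ h rfl

theorem head_inv {u : Wd} (hu : Good u) : (invRev ((2, true) :: u)).head? ≠ some (2, true) := by
  obtain ⟨s, hs⟩ := hu.inv.2.2.1
  rw [invRev_cons, List.head?_append, hs]
  simp

theorem edge {w w' : Wd} (h : w ∈ V0) (h' : w' ∈ V0) (hp : PO w w') :
    w.head? = some (2, true) ∧ w'.head? ≠ some (2, true) := by
  constructor
  · obtain ⟨u, hu, rfl | rfl⟩ := h
    · rfl
    · have := hp.inv
      rw [invRev_invRev] at this
      exact absurd this (noA (inv_V0 h'))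
  · obtain ⟨u, hu, rfl | rfl⟩ := h'
    · exact absurd hp (noA h)
    · exact head_inv hu

theorem adm : Admissible V0 := by
  intro w hw
  refine ⟨?_, ?_, fun h => (edge hw hw h).2 (edge hw hw h).1, inv_V0 hw⟩
  · obtain ⟨u, hu, h⟩ := hw
    have : IsReduced (((2 : Fin 3), true) :: u) := by
      obtain ⟨h1, -, ⟨s, h3⟩, -⟩ := hu
      unfold FreeGroup.IsReduced at *
      rw [List.isChain_cons]
      simp [h1, h3]
    rcases h with rfl | rfl
    · exact this
    · exact red_inv this
  · obtain ⟨u, hu, rfl | rfl⟩ := hw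
    · simp
    · exact inv_ne (by simp)

theorem free3 : (OG V0).CliqueFree 3 := by
  refine SimpleGraph.Colorable.cliqueFree (n := 2) ?_ (by norm_num)
  have := (SimpleGraph.Coloring.mk (G := OG V0) (fun w => decide (w.1.head? = some (2, true)))
    (by
      rintro ⟨w, hw⟩ ⟨w', hw'⟩ ⟨-, h | h⟩
      · simp [(edge hw hw' h).1, (edge hw hw' h).2]
      · simp [(edge hw' hw h).1, (edge hw' hw h).2])).colorable
  simpa using this

theorem big (N : ℕ) : ¬ (OGbar V0).CliqueFree N := by
  classical
  obtain ⟨f, hf, hr⟩ := family N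
  let F : ℕ → {p : Set Wd // ∃ w ∈ V0, p = {w, invRev w}} :=
    fun i => ⟨_, (2, true) :: f i, ⟨f i, hf i, Or.inl rfl⟩, rfl⟩
  have hadj : ∀ i < N, ∀ j < N, i ≠ j → (OGbar V0).Adj (F i) (F j) := by
    intro i hi j hj hij
    refine ⟨fun h => ?_, (2, true) :: f i, Or.inl rfl, invRev ((2, true) :: f j), Or.inr rfl,
      Or.inl ?_⟩
    · have h1 : (2, true) :: f i ∈ (F j).1 := h ▸ Or.inl rfl
      rcases h1 with h1 | h1
      · have h2 := hr i hi j hj hij
        rw [(List.cons.inj h1).2] at h2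
        exact not_rel (hf j).1 h2
      · exact head_inv (hf j) (by rw [← Set.mem_singleton_iff.1 h1]; rfl)
    · obtain ⟨x, h0, h1, h2⟩ := hr i hi j hj hij
      have h3 := h1.length_le
      have h4 := h2.length_le
      refine ⟨x, h0, h1.trans (List.suffix_cons _ _), ?_, by simp; omega, by simp at h4 ⊢; omega⟩
      have := suf_inv (h2.trans (List.suffix_cons ((2 : Fin 3), true) _))
      rwa [invRev_invRev] at this
  intro h
  refine h ((Finset.range N).image F) ⟨?_, ?_⟩
  · intro p hp q hq hpq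
    simp only [Finset.coe_image, Finset.coe_range, Set.mem_image, Set.mem_Iio] at hp hq
    obtain ⟨i, hi, rfl⟩ := hp
    obtain ⟨j, hj, rfl⟩ := hq
    exact hadj i hi j hj fun e => hpq (by rw [e])
  · rw [Finset.card_image_of_injOn, Finset.card_range]
    intro i hi j hj e
    by_contra hij
    exact (hadj i (by simpa using hi) j (by simpa using hj) hij).1 e

end Pool.Agent.H16.Overlap
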