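import Mathlib

set_option autoImplicit false

namespace Pool.Agent.H16.Owa

open Classical

variable {n k : ℕ} {C : Fin k → Type}

/-- Satisfaction of voter `v` with the outcome `w`, counted over the issues before `l`. -/
noncomputable def hist (A : ∀ i, Fin n → Set (C i)) (w : ∀ i, C i) (l : ℕ) (v : Fin n) : ℕ :=
  (Finset.univ.filter fun i : Fin k => (i : ℕ) < l ∧ w i ∈ A i v).card

/-- Satisfaction of voter `v` with the whole outcome `w`. -/
noncomputable def sat (A : ∀ i, Fin n → Set (C i)) (w : ∀ i, C i) (v : Fin n) : ℕ :=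
  (Finset.univ.filter fun i : Fin k => w i ∈ A i v).card

/-- The scalar product of `a` with the vector `s` sorted increasingly. -/
noncomputable def owa (a : Fin n → ℝ) (s : Fin n → ℕ) : ℝ := ∑ j, a j * s (Tuple.sort s j)

/-- The score of candidate `c` on issue `i` after the earlier issues were decided as in `w`. -/
noncomputable def score (a : Fin n → ℝ) (A : ∀ i, Fin n → Set (C i)) (w : ∀ i, C i) (i : Fin k)
    (c : C i) : ℝ :=
  owa a fun v => hist A w i v + if c ∈ A i v then 1 else 0

/-- `w` is the outcome of the sequential OWA rule with weights `a`: on every issue the winner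
maximises the score and is the first maximiser in the tie-breaking order. -/
def IsOutcome [∀ i, LinearOrder (C i)] (a : Fin n → ℝ) (A : ∀ i, Fin n → Set (C i))
    (w : ∀ i, C i) : Prop :=
  ∀ i c, score a A w i c ≤ score a A w i (w i) ∧ (score a A w i c = score a A w i (w i) → w i ≤ c)

/-- Free-riding is never harmful under the sequential rule given by the family `α`. -/
def NeverHarmful (α : ∀ n : ℕ, Fin n → ℝ) : Prop :=
  ∀ (n k : ℕ) (C : Fin k → Type) [∀ i, Finite (C i)] [∀ i, LinearOrder (C i)]
    (A A' : ∀ i, Fin n → Set (C i)) (v : Fin n) (i : Fin k) (w w' : ∀ i, C i),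
    (∀ l u, l ≠ i ∨ u ≠ v → A' l u = A l u) → IsOutcome (α n) A w → IsOutcome (α n) A' w' →
    w i ∈ A i v → w i ∉ A' i v → w' i = w i → sat A w v ≤ sat A w' v

/-- Weights `(2, 1)` for two voters and constant weights otherwise. -/
noncomputable def α0 (n : ℕ) (j : Fin n) : ℝ := if n = 2 ∧ (j : ℕ) = 0 then 2 else 1

theorem hist_zero (A : ∀ i, Fin n → Set (C i)) (w : ∀ i, C i) (v : Fin n) : hist A w 0 v = 0 := by
  simp [hist]

theorem hist_succ (A : ∀ i, Fin n → Set (C i)) (w : ∀ i, C i) (l : Fin k) (v : Fin n) :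
    hist A w (l + 1) v = hist A w l v + if w l ∈ A l v then 1 else 0 := by
  unfold hist
  split_ifs with h
  · rw [← Finset.card_insert_of_notMem (a := l) (by simp)]
    congr 1
    ext i
    simp only [Finset.mem_filter, Finset.mem_univ, true_and, Finset.mem_insert]
    constructor
    · rintro ⟨h1, h2⟩
      by_cases h3 : i = l
      · exact Or.inl h3
      · exact Or.inr ⟨by have := Fin.val_ne_of_ne h3; omega, h2⟩
    · rintro (rfl | ⟨h1, h2⟩)
      · exact ⟨by omega, h⟩
      · exact ⟨by omega, h2⟩
  · rw [add_zero]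
    congr 1
    ext i
    simp only [Finset.mem_filter, Finset.mem_univ, true_and]
    constructor
    · rintro ⟨h1, h2⟩
      have h3 : i ≠ l := fun e => h (e ▸ h2)
      exact ⟨by have := Fin.val_ne_of_ne h3; omega, h2⟩
    · rintro ⟨h1, h2⟩
      exact ⟨by omega, h2⟩

theorem hist_k (A : ∀ i, Fin n → Set (C i)) (w : ∀ i, C i) (v : Fin n) :
    hist A w k v = sat A w v := by
  simp [hist, sat]

theorem owa_one (s : Fin n → ℕ) : owa (fun _ => 1) s = ∑ j, (s j : ℝ) := by
  unfold owa
  simp only [one_mul]
  exact Equiv.sum_comp (Tuple.sort s) fun j => (s j : ℝ)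

theorem owa_two (s : Fin 2 → ℕ) (v u : Fin 2) (h : u ≠ v) :
    owa (α0 2) s = ((min (s v) (s u) + s v + s u : ℕ) : ℝ) := by
  unfold owa
  have h1 : s (Tuple.sort s 0) ≤ s (Tuple.sort s 1) := Tuple.monotone_sort s (by decide)
  have h2 : Tuple.sort s 0 ≠ Tuple.sort s 1 := (Tuple.sort s).injective.ne (by decide)
  have h3 : 2 * s (Tuple.sort s 0) + s (Tuple.sort s 1) = min (s v) (s u) + s v + s u := by
    revert h1 h2
    generalize Tuple.sort s 0 = x
    generalize Tuple.sort s 1 = y
    intro h1 h2
    fin_cases x <;> fin_cases y <;> fin_cases u <;> fin_cases v <;> simp_all <;> omega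
  rw [← h3]
  simp [Fin.sum_univ_two, α0]

theorem util_case [∀ i, LinearOrder (C i)] (A A' : ∀ i, Fin n → Set (C i)) (w w' : ∀ i, C i)
    (l : Fin k) (hA : A' l = A l) (h : IsOutcome (fun _ => 1) A w)
    (h' : IsOutcome (fun _ => 1) A' w') : w' l = w l := by
  have e1 := h l (w' l)
  have e2 := h' l (w l)
  simp only [score, owa_one, hA, Nat.cast_add, Finset.sum_add_distrib] at e1 e2
  exact le_antisymm (e2.2 (by linarith [e1.1, e2.1])) (e1.2 (by linarith [e1.1, e2.1]))

theorem two_case [∀ i, LinearOrder (C i)] (A A' : ∀ i, Fin 2 → Set (C i)) (v : Fin 2) (i : Fin k)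
    (w w' : ∀ i, C i) (hA : ∀ l u, l ≠ i ∨ u ≠ v → A' l u = A l u)
    (h : IsOutcome (α0 2) A w) (h' : IsOutcome (α0 2) A' w')
    (h1 : w i ∈ A i v) (h2 : w i ∉ A' i v) (h3 : w' i = w i) : sat A w v ≤ sat A w' v := by
  obtain ⟨u, hu⟩ := exists_ne v
  have key : ∀ l : ℕ, l ≤ k →
      (l ≤ i → hist A' w' l v = hist A w l v ∧ hist A' w' l u = hist A w l u ∧
        hist A w' l v = hist A' w' l v) ∧
      (i < l → hist A w' l v = hist A' w' l v + 1 ∧
        ((hist A' w' l v + 1 = hist A w l v ∧ hist A' w' l u = hist A w l u) ∨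
          (hist A' w' l v = hist A w l v ∧ hist A' w' l u + 1 = hist A w l u))) := by
    intro l
    induction l with
    | zero => simp [hist_zero]
    | succ l ih =>
      intro hl
      obtain ⟨ih1, ih2⟩ := ih (by omega)
      let m : Fin k := ⟨l, by omega⟩
      have s1 := hist_succ A w m v
      have s2 := hist_succ A w m u
      have s3 := hist_succ A' w' m v
      have s4 := hist_succ A' w' m u
      have s5 := hist_succ A w' m v
      have hm : (m : ℕ) = l := rfl
      rw [hm] at s1 s2 s3 s4 s5
      rw [s1, s2, s3, s4, s5]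
      by_cases hi : m = i
      · have hli : l = i := congrArg Fin.val hi
        obtain ⟨a1, a2, a3⟩ := ih1 hli.le
        subst hi
        rw [h3, hA m u (Or.inr hu), if_pos h1, if_neg h2]
        exact ⟨fun hh => by omega, fun _ => by omega⟩
      · have hli : l ≠ i := fun e => hi (Fin.ext e)
        have e1 := h m (w' m)
        have e2 := h' m (w m)
        simp only [score, owa_two _ v u hu, hA m _ (Or.inl hi), hm, Nat.cast_le,
          Nat.cast_inj] at e1 e2
        rw [hA m v (Or.inl hi), hA m u (Or.inl hi)]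
        refine ⟨fun hh => ?_, fun hh => ?_⟩
        · obtain ⟨a1, a2, a3⟩ := ih1 (by omega)
          rw [a1, a2] at e2
          have : w' m = w m :=
            le_antisymm (e2.2 (le_antisymm e2.1 e1.1)) (e1.2 (le_antisymm e1.1 e2.1))
          rw [this]
          omega
        · obtain ⟨a1, a2⟩ := ih2 (by omega)
          have e3 := e1.1
          have e4 := e2.1
          clear e1 e2
          split_ifs at e3 e4 ⊢ <;> omega
  have := (key k le_rfl).2 i.2
  rw [← hist_k, ← hist_k]
  omega

theorem never : NeverHarmful α0 := by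
  intro n k C _ _ A A' v i w w' hA h h' h1 h2 h3
  by_cases hn : n = 2
  · subst hn
    exact two_case A A' v i w w' hA h h' h1 h2 h3
  · have ha : α0 n = fun _ => 1 := by
      funext j
      simp [α0, hn]
    rw [ha] at h h'
    have : w' = w := by
      funext l
      by_cases hl : l = i
      · rw [hl, h3]
      · exact util_case A A' w w' l (funext fun u => hA l u (Or.inl hl)) h h'
    rw [this]

end Pool.Agent.H16.Owa
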