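import Pool.Agent.H16.PCPU

set_option autoImplicit false

namespace Pool.Agent.H16.PCPU
open Relation QueueM

/-- An undecidable family of PCP instances with nonempty images. -/
theorem main2 : ∃ (H : ℕ → List (List ℕ)) (G : List (List ℕ)), Computable H ∧
    (∀ n, (H n).length = G.length ∧ 0 < G.length ∧ (∀ w ∈ H n, w ≠ []) ∧ ∀ w ∈ G, w ≠ []) ∧
    ¬ ComputablePred fun n => Sol (H n) G := by
  classical
  obtain ⟨Y, _, S, f1, f2, c, u, v, hS, h1, h2, h3, h4⟩ := exists_queue
  obtain ⟨e, he⟩ := Countable.exists_injective_nat Y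
  have := hS.to_subtype
  have := Fintype.ofFinite (Option (S ⊕ Unit))
  obtain ⟨ls, hl⟩ : ∃ ls : List (Option (S ⊕ Unit)), ∀ a, a ∈ ls := ⟨Finset.univ.toList, by simp⟩
  have hs : ∀ y : List (Option (S ⊕ Unit)), ∃ x : List ℕ, (∀ i ∈ x, i < ls.length) ∧
      x.map (ls.getD · none) = y := by
    intro y
    induction y with
    | nil => exact ⟨[], by simp, rfl⟩
    | cons a y ih =>
      obtain ⟨x, hx, rfl⟩ := ih
      obtain ⟨i, hi, rfl⟩ := List.getElem_of_mem (hl a)
      exact ⟨i :: x, List.forall_mem_cons.mpr ⟨hi, hx⟩, by simp [List.getD, hi]⟩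
  refine ⟨fun n => ls.map (h e S Unit (u ++ List.replicate n c ++ v)), ls.map (g e S Unit f1 f2),
    comp_map _ _ fun a => ?_, fun n => ⟨by simp, by simpa using List.length_pos_of_mem (hl none), ?_, ?_⟩,
    fun k => h4 (k.of_eq fun n => ⟨fun ⟨x, x0, hx, k⟩ => ?_, fun k => ?_⟩)⟩
  · rcases a with _ | p | z
    · refine (Primrec.list_append.comp (Primrec.const (1 :: 0 :: Rm e u)) (Primrec.list_append.comp
        (comp_rep [e c + 2, 0]) (Primrec.const (Rm e v)))).to_comp.of_eq fun n => ?_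
      simp [h, Rm, List.flatMap_replicate]
    · exact Computable.const _
    · exact Computable.const _
  · refine List.forall_mem_map.mpr ?_
    rintro (_ | ⟨⟨p, _ | ⟨t, q⟩⟩, hp⟩ | z) -
    · simp [h]
    · exact absurd rfl (h1 _ hp).2.1
    · simp [h, Rm]
    · simp [h]
  · refine List.forall_mem_map.mpr ?_
    rintro (_ | ⟨⟨_ | ⟨t, p⟩, q⟩, hp⟩ | z) -
    · simp [g]
    · exact absurd rfl (h1 _ hp).1
    · simp [g, L]
    · simp [g]
  · simp only [List.length_map] at hx
    rw [F_map ls none _ hx, F_map ls none _ hx] at k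
    rcases inv he h1 (h3 n) _ (Or.inl ⟨[], (List.append_nil _).trans k⟩) with ⟨-, j | j⟩ | ⟨w, -, j⟩
    · simp [x0] at j
    · exact j
    · rw [k] at j
      simp at j
  · obtain ⟨y, hy⟩ := run (e := e) (E := Unit) (f1 := f1) (f2 := f2) k
    obtain ⟨w, hw, ew⟩ := hs (y ++ [some (.inr ())])
    refine ⟨w, by rintro rfl; simp at ew, by simpa using hw, ?_⟩
    rw [F_map ls none _ hw, F_map ls none _ hw, ew, last _ hy]

end Pool.Agent.H16.PCPU
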