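import Pool.Agent.H16.QueueM

set_option autoImplicit false

namespace Pool.Agent.H16.PCPU
open Relation QueueM

def cmp (x y : List ℕ) : Prop := x <+: y ∨ y <+: x

theorem cmp_init {x x' y y' : List ℕ} (h : cmp (x ++ x') (y ++ y')) : cmp x y := by
  rcases h with h | h
  · exact List.prefix_or_prefix_of_prefix ((List.prefix_append _ _).trans h) (List.prefix_append _ _)
  · exact List.prefix_or_prefix_of_prefix (List.prefix_append _ _) ((List.prefix_append _ _).trans h)

theorem cmp_cancel {x y y' : List ℕ} (h : cmp (x ++ y) (x ++ y')) : cmp y y' := by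
  simpa [cmp] using h

variable {Y : Type} (e : Y → ℕ)

def L (w : List Y) : List ℕ := w.flatMap fun x => [0, e x + 2]
def Rm (w : List Y) : List ℕ := w.flatMap fun x => [e x + 2, 0]

theorem LR (w : List Y) : 0 :: Rm e w = L e w ++ [0] := by
  induction w with
  | nil => rfl
  | cons x w ih => simpa [L, Rm] using ih

variable (S : Set (List Y × List Y)) (E : Type) (f1 f2 : Y) (w0 : List Y)

def h : Option (S ⊕ E) → List ℕ
  | none => 1 :: 0 :: Rm e w0
  | some (.inl p) => Rm e p.1.2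
  | some (.inr _) => [1]

def g : Option (S ⊕ E) → List ℕ
  | none => [1]
  | some (.inl p) => L e p.1.1
  | some (.inr _) => L e [f1, f2] ++ [0, 1]

variable {e S E f1 f2 w0} (he : Function.Injective e)
  (h1 : ∀ p ∈ S, p.1 ≠ [] ∧ p.2 ≠ [] ∧ p.1.length ≤ 2 ∧ ¬ p.1 <+: [f1, f2])
  (h2 : ∀ p ∈ S, ∀ p' ∈ S, p.1 <+: p'.1 → p = p')
  (h3 : ∀ w, ReflTransGen (qs S) w0 w → 2 ≤ w.length)

include he h1 in
theorem ovf {w : List Y} (hw : 2 ≤ w.length) (a : Option (S ⊕ E))
    (c : cmp (0 :: Rm e w ++ h e S E w0 a) (g e S E f1 f2 a)) :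
    (∃ p : S, a = some (.inl p) ∧ p.1.1 <+: w) ∨ ∃ x, a = some (.inr x) ∧ w = [f1, f2] := by
  rcases w with _ | ⟨x, _ | ⟨y, w⟩⟩
  · simp at hw
  · simp at hw
  rcases a with _ | ⟨⟨p, q⟩, hp⟩ | z
  · simp [cmp, g] at c
  · refine .inl ⟨_, rfl, ?_⟩
    obtain ⟨a1, -, a2, -⟩ := h1 _ hp
    rcases p with _ | ⟨s, _ | ⟨t, _ | _⟩⟩
    · simp at a1
    · simp [cmp, g, L, Rm, he.eq_iff] at c
      simp [c]
    · simp [cmp, g, L, Rm, he.eq_iff] at c
      simp [c]
    · simp at a2
  · refine .inr ⟨_, rfl, ?_⟩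
    rcases w with _ | ⟨z, w⟩
    · simp [cmp, g, h, L, Rm, he.eq_iff] at c
      aesop
    · simp [cmp, g, h, L, Rm] at c

theorem step {u : List (Option (S ⊕ E))} {t : List Y} (p : S)
    (hu : u.flatMap (h e S E w0) = u.flatMap (g e S E f1 f2) ++ 0 :: Rm e (p.1.1 ++ t)) :
    (u ++ [some (Sum.inl p)]).flatMap (h e S E w0) =
      (u ++ [some (Sum.inl p)]).flatMap (g e S E f1 f2) ++ 0 :: Rm e (t ++ p.1.2) := by
  have : 0 :: Rm e (p.1.1 ++ t) = L e p.1.1 ++ 0 :: Rm e t := by
    rw [LR, LR]; simp [L]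
  rw [List.flatMap_append, List.flatMap_append, hu, this]
  simp [h, g, Rm]

theorem last {u : List (Option (S ⊕ E))} (x : E)
    (hu : u.flatMap (h e S E w0) = u.flatMap (g e S E f1 f2) ++ 0 :: Rm e [f1, f2]) :
    (u ++ [some (Sum.inr x)]).flatMap (h e S E w0) = (u ++ [some (Sum.inr x)]).flatMap (g e S E f1 f2) := by
  rw [List.flatMap_append, List.flatMap_append, hu]
  simp [h, g, Rm, L]

include he h1 h3 in
theorem inv (u : List (Option (S ⊕ E))) (c : cmp (u.flatMap (h e S E w0)) (u.flatMap (g e S E f1 f2))) :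
    (u.flatMap (h e S E w0) = u.flatMap (g e S E f1 f2) ∧ (u = [] ∨ ReflTransGen (qs S) w0 [f1, f2])) ∨
      ∃ w, ReflTransGen (qs S) w0 w ∧ u.flatMap (h e S E w0) = u.flatMap (g e S E f1 f2) ++ 0 :: Rm e w := by
  induction u using List.reverseRecOn with
  | nil => simp
  | append_singleton u a ih =>
    have c' := c
    simp only [List.flatMap_append, List.flatMap_singleton] at c'
    rcases ih (cmp_init c') with ⟨e1, -⟩ | ⟨w, hw, e1⟩
    · rw [e1] at c'
      have c2 := cmp_cancel c'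
      rcases a with _ | ⟨⟨p, q⟩, hp⟩ | z
      · exact .inr ⟨w0, .refl, by simp [e1, h, g]⟩
      · obtain ⟨a1, a2, -⟩ := h1 _ hp
        rcases p with _ | ⟨s, p⟩
        · simp at a1
        rcases q with _ | ⟨t, q⟩
        · simp at a2
        simp [cmp, h, g, L, Rm] at c2
      · simp [cmp, h, g, L] at c2
    · rw [e1, List.append_assoc] at c'
      rcases ovf he h1 (h3 w hw) a (cmp_cancel c') with ⟨p, rfl, t, rfl⟩ | ⟨x, rfl, rfl⟩
      · exact .inr ⟨_, hw.tail ⟨p.1, p.2, t, rfl, rfl⟩, step p e1⟩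
      · exact .inl ⟨last x e1, .inr hw⟩

theorem run {w : List Y} (hw : ReflTransGen (qs S) w0 w) : ∃ u : List (Option (S ⊕ E)),
    u.flatMap (h e S E w0) = u.flatMap (g e S E f1 f2) ++ 0 :: Rm e w := by
  induction hw with
  | refl => exact ⟨[none], by simp [h, g]⟩
  | tail _ s ih =>
    obtain ⟨p, hp, t, rfl, rfl⟩ := s
    obtain ⟨u, hu⟩ := ih
    exact ⟨_, step ⟨p, hp⟩ hu⟩

include he h1 h2 h3 in
theorem uniq (u : List (Option (S ⊕ E))) (a b : Option (S ⊕ E))
    (ca : cmp ((u ++ [a]).flatMap (h e S E w0)) ((u ++ [a]).flatMap (g e S E f1 f2)))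
    (cb : cmp ((u ++ [b]).flatMap (h e S E w0)) ((u ++ [b]).flatMap (g e S E f1 f2))) :
    u.flatMap (h e S E w0) = u.flatMap (g e S E f1 f2) ∨ a = b ∨
      (ReflTransGen (qs S) w0 [f1, f2] ∧ Nontrivial E) := by
  simp only [List.flatMap_append, List.flatMap_singleton] at ca cb
  rcases inv he h1 h3 u (cmp_init ca) with ⟨e1, -⟩ | ⟨w, hw, e1⟩
  · exact .inl e1
  rw [e1, List.append_assoc] at ca cb
  right
  rcases ovf he h1 (h3 w hw) a (cmp_cancel ca) with ⟨p, rfl, s⟩ | ⟨x, rfl, s⟩ <;>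
    rcases ovf he h1 (h3 w hw) b (cmp_cancel cb) with ⟨p', rfl, s'⟩ | ⟨x', rfl, s'⟩
  · left
    congr 2
    rcases List.prefix_or_prefix_of_prefix s s' with k | k
    · exact Subtype.ext (h2 _ p.2 _ p'.2 k)
    · exact Subtype.ext (h2 _ p'.2 _ p.2 k).symm
  · exact absurd (s' ▸ s) (h1 _ p.2).2.2.2
  · exact absurd (s ▸ s') (h1 _ p'.2).2.2.2
  · by_cases k : x = x'
    · exact .inl (by rw [k])
    · exact .inr ⟨s ▸ hw, x, x', k⟩

def F (H : List (List ℕ)) (x : List ℕ) : List ℕ := x.flatMap fun i => H.getD i []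

def UEC (H G : List (List ℕ)) : Prop :=
  ∀ u : List ℕ, (∀ i ∈ u, i < H.length) → ∀ a b : ℕ, a < H.length → b < H.length → a ≠ b →
    cmp (F H (u ++ [a])) (F G (u ++ [a])) → cmp (F H (u ++ [b])) (F G (u ++ [b])) → F H u = F G u

def Sol (H G : List (List ℕ)) : Prop := ∃ x : List ℕ, x ≠ [] ∧ (∀ i ∈ x, i < H.length) ∧ F H x = F G x

theorem F_map {A : Type} (ls : List A) (d : A) (k : A → List ℕ) {x : List ℕ} (hx : ∀ i ∈ x, i < ls.length) :
    F (ls.map k) x = (x.map (ls.getD · d)).flatMap k := by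
  rw [F, List.flatMap_map]
  refine List.flatMap_congr fun i hi => ?_
  simp [List.getD, hx i hi]

theorem comp_map {A : Type} (ls : List A) (k : ℕ → A → List ℕ) (hk : ∀ a, Computable fun n => k n a) :
    Computable fun n => ls.map (k n) := by
  induction ls with
  | nil => exact Computable.const _
  | cons a ls ih => exact Computable.list_cons.comp (hk a) ih

theorem comp_rep (l : List ℕ) : Primrec fun n => (List.replicate n l).flatten := by
  refine (Primrec.list_flatten.comp (Primrec.list_map Primrec.list_range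
    (Primrec.const l).to₂)).of_eq fun n => ?_
  simp

theorem main (E : Type) [Finite E] [Nonempty E] : ∃ (H : ℕ → List (List ℕ)) (G : List (List ℕ)) (halt : ℕ → Prop),
    Computable H ∧ ¬ ComputablePred halt ∧ ∀ n, (H n).length = G.length ∧
      (UEC (H n) G ↔ ¬ (halt n ∧ Nontrivial E)) ∧ (Sol (H n) G ↔ halt n) := by
  classical
  obtain ⟨Y, _, S, f1, f2, c, u, v, hS, h1, h2, h3, h4⟩ := exists_queue
  obtain ⟨e, he⟩ := Countable.exists_injective_nat Y
  have := hS.to_subtype
  have := Fintype.ofFinite (Option (S ⊕ E))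
  obtain ⟨ls, hn, hl⟩ : ∃ ls : List (Option (S ⊕ E)), ls.Nodup ∧ ∀ a, a ∈ ls :=
    ⟨Finset.univ.toList, Finset.nodup_toList _, by simp⟩
  have hs : ∀ y : List (Option (S ⊕ E)), ∃ x : List ℕ, (∀ i ∈ x, i < ls.length) ∧ x.map (ls.getD · none) = y := by
    intro y
    induction y with
    | nil => exact ⟨[], by simp, rfl⟩
    | cons a y ih =>
      obtain ⟨x, hx, rfl⟩ := ih
      obtain ⟨i, hi, rfl⟩ := List.getElem_of_mem (hl a)
      exact ⟨i :: x, List.forall_mem_cons.mpr ⟨hi, hx⟩, by simp [List.getD, hi]⟩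
  refine ⟨fun n => ls.map (h e S E (u ++ List.replicate n c ++ v)), ls.map (g e S E f1 f2), _,
    comp_map _ _ fun a => ?_, h4, fun n => ⟨by simp, ⟨fun k ⟨k1, x, x', k2⟩ => ?_, fun k w hw a b ha hb ab ca cb => ?_⟩,
      fun ⟨x, x0, hx, k⟩ => ?_, fun k => ?_⟩⟩
  · rcases a with _ | p | z
    · refine (Primrec.list_append.comp (Primrec.const (1 :: 0 :: Rm e u)) (Primrec.list_append.comp
        (comp_rep [e c + 2, 0]) (Primrec.const (Rm e v)))).to_comp.of_eq fun n => ?_
      simp [h, Rm, List.flatMap_replicate]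
    · exact Computable.const _
    · exact Computable.const _
  · obtain ⟨y, hy⟩ := run (e := e) (E := E) (f1 := f1) (f2 := f2) k1
    obtain ⟨w, hw, rfl⟩ := hs y
    obtain ⟨_ | ⟨a, _ | _⟩, ha, ea⟩ := hs [some (Sum.inr x)] <;> simp only [List.map_cons, List.map_nil, reduceCtorEq,
      List.cons.injEq, and_false, and_true] at ea
    obtain ⟨_ | ⟨b, _ | _⟩, hb, eb⟩ := hs [some (Sum.inr x')] <;> simp only [List.map_cons, List.map_nil, reduceCtorEq,
      List.cons.injEq, and_false, and_true] at eb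
    have := k w (by simpa using hw) a b (by simpa using ha) (by simpa using hb)
      (by rintro rfl; rw [ea] at eb; exact k2 (by simpa using eb)) (by
        rw [F_map ls none _ (List.forall_mem_append.mpr ⟨hw, ha⟩), F_map ls none _ (List.forall_mem_append.mpr ⟨hw, ha⟩),
          List.map_append, List.map_singleton, ea, last x hy]
        exact .inl List.prefix_rfl) (by
        rw [F_map ls none _ (List.forall_mem_append.mpr ⟨hw, hb⟩), F_map ls none _ (List.forall_mem_append.mpr ⟨hw, hb⟩),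
          List.map_append, List.map_singleton, eb, last x' hy]
        exact .inl List.prefix_rfl)
    rw [F_map ls none _ hw, F_map ls none _ hw, hy] at this
    simp at this
  · simp only [List.length_map] at hw ha hb
    have ha' : ∀ i ∈ w ++ [a], i < ls.length := List.forall_mem_append.mpr ⟨hw, by simpa using ha⟩
    have hb' : ∀ i ∈ w ++ [b], i < ls.length := List.forall_mem_append.mpr ⟨hw, by simpa using hb⟩
    rw [F_map ls none _ ha', F_map ls none _ ha', List.map_append, List.map_singleton] at ca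
    rw [F_map ls none _ hb', F_map ls none _ hb', List.map_append, List.map_singleton] at cb
    rw [F_map ls none _ hw, F_map ls none _ hw]
    rcases uniq he h1 h2 (h3 n) _ _ _ ca cb with j | j | j
    · exact j
    · simp only [List.getD, List.getElem?_eq_getElem, ha, hb, Option.getD_some] at j
      exact absurd (hn.getElem_inj_iff.mp j) ab
    · exact absurd j k
  · simp only [List.length_map] at hx
    rw [F_map ls none _ hx, F_map ls none _ hx] at k
    rcases inv he h1 (h3 n) _ (Or.inl ⟨[], (List.append_nil _).trans k⟩) with ⟨-, j | j⟩ | ⟨w, -, j⟩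
    · simp [x0] at j
    · exact j
    · rw [k] at j
      simp at j
  · obtain ⟨y, hy⟩ := run (e := e) (E := E) (f1 := f1) (f2 := f2) k
    obtain ⟨w, hw, ew⟩ := hs (y ++ [some (.inr (Classical.arbitrary E))])
    refine ⟨w, by rintro rfl; simp at ew, by simpa using hw, ?_⟩
    rw [F_map ls none _ hw, F_map ls none _ hw, ew, last _ hy]

end Pool.Agent.H16.PCPU
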