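import Pool.Agent.H16.PSysDefs

namespace H16.PSys

def WM : Fin 7 → Fin 7 → ℤ :=
  ![![0, 40, 0, 0, 0, 0, 48],
    ![40, 0, 0, 14, 38, 44, 0],
    ![0, 0, 0, 19, 0, 42, -8],
    ![0, 14, 19, 0, 0, 0, 0],
    ![0, 38, 0, 0, 0, 18, 35],
    ![0, 44, 42, 0, 18, 0, 0],
    ![48, 0, -8, 0, 35, 0, 0]]

def PL : Fin 7 → Fin 7 → List (Fin 7) :=
  ![![[0], [0, 1], [0, 6, 2], [0, 1, 3], [0, 1, 4], [0, 6, 2, 5], [0, 6]],
    ![[1, 0], [1], [1, 3, 2], [1, 3], [1, 4], [1, 5], [1, 3, 2, 6]],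
    ![[2, 6, 0], [2, 3, 1], [2], [2, 3], [2, 6, 4], [2, 5], [2, 6]],
    ![[3, 1, 0], [3, 1], [3, 2], [3], [3, 2, 6, 4], [3, 1, 5], [3, 2, 6]],
    ![[4, 1, 0], [4, 1], [4, 6, 2], [4, 6, 2, 3], [4], [4, 5], [4, 6]],
    ![[5, 2, 6, 0], [5, 1], [5, 2], [5, 1, 3], [5, 4], [5], [5, 2, 6]],
    ![[6, 0], [6, 2, 3, 1], [6, 2], [6, 2, 3], [6, 4], [6, 2, 5], [6]]]

def G : SimpleGraph (Fin 7) where
  Adj u v := WM u v ≠ 0
  symm := ⟨by decide⟩
  loopless := ⟨by decide⟩

instance : DecidableRel G.Adj := fun u v => inferInstanceAs (Decidable (WM u v ≠ 0))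

noncomputable def w0 : Sym2 (Fin 7) → ℝ :=
  Sym2.lift ⟨fun a b => (WM a b : ℝ), fun a b => by
    have : ∀ a b, WM a b = WM b a := by decide
    simp only [this a b]⟩

def wz : List (Fin 7) → ℤ
  | a :: b :: l => WM a b + wz (b :: l)
  | _ => 0

lemma wt_eq : ∀ l : List (Fin 7), wt w0 l = (wz l : ℝ)
  | [] => by simp [wt, wz]
  | [a] => by simp [wt, wz]
  | a :: b :: l => by
    rw [wt, wz, wt_eq (b :: l)]; simp [w0]

def pths : ℕ → Fin 7 → List (List (Fin 7))
  | 0, u => [[u]]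
  | n + 1, u => [u] :: ((List.finRange 7).filter (fun x => WM u x ≠ 0)).flatMap
      (fun x => ((pths n x).filter (fun l => u ∉ l)).map (u :: ·))

lemma mem_pths : ∀ (n : ℕ) (l : List (Fin 7)) (u : Fin 7), l.length ≤ n → (u :: l).Nodup →
    (u :: l).IsChain G.Adj → u :: l ∈ pths n u := by
  intro n
  induction n with
  | zero =>
    intro l u h _ _
    rw [List.length_eq_zero_iff.1 (Nat.le_zero.1 h)]; simp [pths]
  | succ n ih =>
    intro l u h h1 h2
    cases l with
    | nil => simp [pths]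
    | cons x l =>
      rw [List.nodup_cons] at h1
      rw [List.isChain_cons_cons] at h2
      refine List.mem_cons_of_mem _ (List.mem_flatMap.2 ⟨x, ?_, List.mem_map.2 ⟨x :: l, ?_, rfl⟩⟩)
      · exact List.mem_filter.2 ⟨List.mem_finRange x, decide_eq_true h2.1⟩
      · exact List.mem_filter.2 ⟨ih l x (by simpa using h) h1.2 h2.2, decide_eq_true h1.1⟩

lemma chk : ∀ u v : Fin 7, ∀ l ∈ pths 6 u, l.getLast? = some v → l ≠ PL u v →
    wz (PL u v) < wz l := by decide +kernel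

instance (u v : Fin 7) (l : List (Fin 7)) : Decidable (IsPath G u v l) := by
  unfold IsPath; infer_instance

theorem main : ∃ (H : SimpleGraph (Fin 7)) (P : Fin 7 → Fin 7 → List (Fin 7)),
    H.Connected ∧ PathSystem H P ∧ Consistent P ∧ (∃ w : Sym2 (Fin 7) → ℝ, Induces H w P) ∧
    ¬ ∃ w : Sym2 (Fin 7) → ℝ, (∀ e ∈ H.edgeSet, 0 < w e) ∧ Induces H w P := by
  refine ⟨G, PL, ?_, ?_, ?_, ⟨w0, ?_⟩, ?_⟩
  · have a : ∀ u v, G.Adj u v → G.Reachable u v := fun _ _ h => h.reachable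
    have r1 := a 0 1 (by decide)
    have r6 := a 0 6 (by decide)
    have r : ∀ v, G.Reachable 0 v := by
      intro v
      fin_cases v
      · rfl
      · exact r1
      · exact r6.trans (a 6 2 (by decide))
      · exact r1.trans (a 1 3 (by decide))
      · exact r1.trans (a 1 4 (by decide))
      · exact r1.trans (a 1 5 (by decide))
      · exact r6
    exact ⟨fun u v => (r u).symm.trans (r v)⟩
  · unfold PathSystem; decide +kernel
  · unfold Consistent; decide +kernel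
  · intro u v _ l hl hne
    obtain ⟨h1, h2, h3, h4⟩ := hl
    rw [wt_eq, wt_eq]
    cases l with
    | nil => simp at h3
    | cons a l =>
      obtain rfl : a = u := by simpa using h3
      have hlen : l.length ≤ 6 := by
        have := h1.length_le_card
        simp at this; omega
      exact_mod_cast chk a v _ (mem_pths 6 l a hlen h1 h2) h4 hne
  · rintro ⟨w, hp, h⟩
    have a1 := h 0 5 (by decide) [0, 1, 5] (by decide) (by decide)
    have a2 := h 3 5 (by decide) [3, 2, 5] (by decide) (by decide)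
    have a3 := h 0 4 (by decide) [0, 6, 4] (by decide) (by decide)
    have a4 := h 3 4 (by decide) [3, 1, 4] (by decide) (by decide)
    rw [show PL 0 5 = [0, 6, 2, 5] by decide] at a1
    rw [show PL 3 5 = [3, 1, 5] by decide] at a2
    rw [show PL 0 4 = [0, 1, 4] by decide] at a3
    rw [show PL 3 4 = [3, 2, 6, 4] by decide] at a4
    simp only [wt] at a1 a2 a3 a4
    have p1 := hp s(2, 6) (by rw [SimpleGraph.mem_edgeSet]; decide)
    have p2 := hp s(6, 2) (by rw [SimpleGraph.mem_edgeSet]; decide)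
    linarith

end H16.PSys
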