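import Mathlib

namespace H16.PSys

variable {V : Type}

/-- `l` lists the vertices of a simple `u`-`v` path of `G`. -/
def IsPath (G : SimpleGraph V) (u v : V) (l : List V) : Prop :=
  l.Nodup ∧ l.IsChain G.Adj ∧ l.head? = some u ∧ l.getLast? = some v

/-- The weight of a path: the sum of the weights of its edges. -/
def wt (w : Sym2 V → ℝ) : List V → ℝ
  | a :: b :: l => w s(a, b) + wt w (b :: l)
  | _ => 0

/-- One simple path for every unordered pair of distinct vertices. -/
def PathSystem (G : SimpleGraph V) (P : V → V → List V) : Prop :=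
  ∀ u v, u ≠ v → IsPath G u v (P u v) ∧ P v u = (P u v).reverse

/-- For `x ≠ y` on `P u v`, the path between `x` and `y` is a contiguous part of `P u v`. -/
def Consistent (P : V → V → List V) : Prop :=
  ∀ u v, u ≠ v → ∀ x y, x ≠ y → x ∈ P u v → y ∈ P u v → P x y <:+: P u v ∨ P y x <:+: P u v

/-- `P u v` is the unique simple `u`-`v` path of minimum weight. -/
def Induces (G : SimpleGraph V) (w : Sym2 V → ℝ) (P : V → V → List V) : Prop :=
  ∀ u v, u ≠ v → ∀ l, IsPath G u v l → l ≠ P u v → wt w (P u v) < wt w l

end H16.PSys
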