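import Mathlib

set_option autoImplicit false

namespace Pool.Agent.H16.PairSieve
open Finset

theorem sum_blocks (G : ℕ → ℝ) (M q : ℕ) :
    ∑ i ∈ range (q * M), G i = ∑ r ∈ range M, ∑ t ∈ range q, G (t * M + r) := by
  rw [sum_comm]
  induction q with
  | zero => simp
  | succ q ih => rw [add_mul, one_mul, sum_range_add, ih, sum_range_succ]

theorem win1 (f : ℕ → ℝ) (p M y : ℕ) (hp : 0 < p) (hf : Function.Periodic f p) (hc : Nat.Coprime M p) :
    ∑ t ∈ range p, f (y + t * M) = ∑ r ∈ range p, f r := by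
  have hinj : Set.InjOn (fun t => (y + t * M) % p) (range p) := by
    intro a ha b hb h
    have h1 : a ≡ b [MOD p] :=
      Nat.ModEq.cancel_right_of_coprime hc.symm (Nat.ModEq.add_left_cancel' y h)
    exact Nat.ModEq.eq_of_lt_of_lt h1 (mem_range.mp ha) (mem_range.mp hb)
  have him : (range p).image (fun t => (y + t * M) % p) = range p :=
    eq_of_subset_of_card_le (fun a ha => by
      obtain ⟨t, -, rfl⟩ := mem_image.mp ha
      exact mem_range.mpr (Nat.mod_lt _ hp)) (card_image_of_injOn hinj).ge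
  conv_rhs => rw [← him, sum_image hinj]
  exact sum_congr rfl fun t _ => (hf.map_mod_nat _).symm

theorem win (U : Finset ℕ) (hU : ∀ p ∈ U, p.Prime) (f : ℕ → ℕ → ℝ)
    (hf : ∀ p, Function.Periodic (f p) p) (x : ℕ) :
    ∑ i ∈ range (∏ p ∈ U, p), ∏ p ∈ U, f p (x + i) = ∏ p ∈ U, ∑ r ∈ range p, f p r := by
  induction U using Finset.induction_on with
  | empty => simp
  | insert q U hq ih =>
    have hU' : ∀ p ∈ U, p.Prime := fun p hp => hU p (mem_insert_of_mem hp)
    have hq' := hU q (mem_insert_self _ _)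
    simp only [prod_insert hq]
    rw [sum_blocks, ← ih hU', mul_sum]
    refine sum_congr rfl fun r _ => ?_
    rw [← win1 (f q) q (∏ p ∈ U, p) (x + r) hq'.pos (hf q) (Nat.Coprime.prod_left fun p hp =>
      (Nat.coprime_primes (hU' p hp) hq').mpr (by rintro rfl; exact hq hp)), sum_mul]
    refine sum_congr rfl fun t _ => ?_
    congr 1
    · congr 1; ring
    · refine prod_congr rfl fun p hp => ?_
      obtain ⟨c, hc⟩ := dvd_prod_of_mem (fun p : ℕ => p) hp
      rw [hc, show x + (t * (p * c) + r) = x + r + (t * c) * p by ring]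
      exact (hf p).nat_mul (t * c) (x + r)

theorem win_le (F : ℕ → ℝ) (M : ℕ) (hM : 0 < M) (A : ℝ) (hA : 0 ≤ A)
    (hF : ∀ x, ∑ i ∈ range M, F (x + i) = M * A) (h1 : ∀ n, F n ≤ 1) (N : ℕ) :
    ∀ x, ∑ i ∈ range N, F (x + i) ≤ N * A + M := by
  induction N using Nat.strong_induction_on with
  | _ N ih =>
  intro x
  rcases Nat.lt_or_ge N M with h | h
  · have h2 := sum_le_card_nsmul (range N) (fun i => F (x + i)) 1 fun i _ => h1 _
    have h3 : (N : ℝ) ≤ M := by exact_mod_cast h.le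
    have : 0 ≤ N * A := by positivity
    simp at h2
    linarith
  · obtain ⟨K, rfl⟩ := Nat.exists_eq_add_of_le h
    have := ih K (by omega) (x + M)
    rw [sum_range_add, hF]
    simp only [← add_assoc]
    push_cast
    linarith

noncomputable def g (p : ℕ) : ℝ := 2 / (p - 2)

noncomputable def u (h p n : ℕ) : ℝ := if p ∣ n * (n + h) then -1 else g p

theorem g_bd {p : ℕ} (hp : 5 ≤ p) : 0 ≤ g p ∧ g p ≤ 4 / p ∧ g p * (p - 2) = 2 ∧ g p ≤ 1 := by
  have h : (5 : ℝ) ≤ p := by exact_mod_cast hp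
  have h2 : (0 : ℝ) < p - 2 := by linarith
  refine ⟨by unfold g; positivity, ?_, by unfold g; field_simp, ?_⟩
  · rw [g, div_le_div_iff₀ h2 (by linarith)]; linarith
  · rw [g, div_le_one h2]; linarith

theorem u_per (h p : ℕ) : Function.Periodic (u h p) p := fun n => by
  simp only [u]
  rw [show (n + p) * (n + p + h) = n * (n + h) + p * (2 * n + p + h) by ring]
  simp only [Nat.dvd_add_left (dvd_mul_right p _)]

theorem u_sum {h p : ℕ} (hp : p.Prime) (h5 : 5 ≤ p) (hh : ¬ p ∣ h) :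
    ∑ r ∈ range p, u h p r = 0 ∧ ∑ r ∈ range p, u h p r * u h p r = p * g p := by
  have h0 : h % p ≠ 0 := fun e => hh (Nat.dvd_of_mod_eq_zero e)
  have h1 := Nat.mod_lt h hp.pos
  have hc : #{r ∈ range p | p ∣ r * (r + h)} = 2 := by
    rw [← card_pair (show 0 ≠ p - h % p by omega)]
    congr 1
    ext r
    simp only [mem_filter, mem_range, hp.dvd_mul, mem_insert, mem_singleton]
    have e : p ∣ r + h ↔ p ∣ r + h % p := by
      conv_lhs => rw [← Nat.mod_add_div h p, ← add_assoc, Nat.dvd_add_left (dvd_mul_right p _)]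
    rw [e]
    constructor
    · rintro ⟨h2, h3 | h3⟩
      · exact Or.inl (Nat.eq_zero_of_dvd_of_lt h3 h2)
      · have := Nat.eq_of_dvd_of_lt_two_mul (by omega) h3 (by omega)
        omega
    · rintro (rfl | rfl)
      · exact ⟨hp.pos, Or.inl (dvd_zero _)⟩
      · exact ⟨by omega, Or.inr (by rw [Nat.sub_add_cancel h1.le])⟩
  have hc2 : (#{r ∈ range p | ¬ p ∣ r * (r + h)} : ℝ) = p - 2 := by
    have := card_filter_add_card_filter_not (s := range p) fun r => p ∣ r * (r + h)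
    rw [hc, card_range] at this
    have h := congrArg (Nat.cast (R := ℝ)) this
    push_cast at h
    linarith
  obtain ⟨-, -, h4, -⟩ := g_bd h5
  simp only [u, ite_mul, mul_ite, sum_ite, sum_const, filter_filter, and_self, nsmul_eq_mul, hc, hc2,
    and_not_self, not_and_self, filter_false, card_empty]
  constructor
  · push_cast; linarith
  · push_cast; linear_combination (g p - 1) * h4

def fam (P : Finset ℕ) (Q : ℕ) : Finset (Finset ℕ) := P.powerset.filter fun S => ∏ p ∈ S, p ≤ Q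

theorem cross (h N x Q : ℕ) (P : Finset ℕ) (hP : ∀ p ∈ P, p.Prime ∧ 5 ≤ p ∧ ¬ p ∣ h)
    {S T : Finset ℕ} (hS : S ∈ fam P Q) (hT : T ∈ fam P Q) :
    ∑ i ∈ range N, (∏ p ∈ S, u h p (x + i)) * ∏ p ∈ T, u h p (x + i) ≤
      N * (if S = T then ∏ p ∈ S, g p else 0) + Q ^ 2 := by
  obtain ⟨s1, s2⟩ := mem_filter.mp hS
  obtain ⟨t1, t2⟩ := mem_filter.mp hT
  have hU : ∀ p ∈ S ∪ T, p.Prime ∧ 5 ≤ p ∧ ¬ p ∣ h := fun p hp =>
    hP p (union_subset (mem_powerset.mp s1) (mem_powerset.mp t1) hp)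
  let f : ℕ → ℕ → ℝ := fun p n => (if p ∈ S then u h p n else 1) * if p ∈ T then u h p n else 1
  have hf : ∀ n, (∏ p ∈ S, u h p n) * ∏ p ∈ T, u h p n = ∏ p ∈ S ∪ T, f p n := fun n => by
    simp only [f, prod_mul_distrib, prod_ite_mem, union_inter_cancel_left, union_inter_cancel_right]
  have hM : ((∏ p ∈ S ∪ T, p : ℕ) : ℝ) ≤ Q ^ 2 := by
    have : ∏ p ∈ S ∪ T, p ≤ (∏ p ∈ S, p) * ∏ p ∈ T, p := by
      rw [← prod_union_inter]
      exact Nat.le_mul_of_pos_right _ (prod_pos fun p hp => (hU p (inter_subset_union hp)).1.pos)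
    exact_mod_cast this.trans ((Nat.mul_le_mul s2 t2).trans_eq (sq Q).symm)
  simp only [hf]
  refine (win_le (fun n => ∏ p ∈ S ∪ T, f p n) _ (prod_pos fun p hp => (hU p hp).1.pos) _ ?_
    (fun y => ?_) (fun n => ?_) N x).trans (by linarith)
  · split_ifs with e
    · exact prod_nonneg fun p hp => (g_bd (hU p (mem_union_left _ hp)).2.1).1
    · rfl
  · rw [win _ (fun p hp => (hU p hp).1) f fun p n => by simp only [f, u_per h p n]]
    split_ifs with e
    · subst e
      rw [union_self] at hU ⊢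
      rw [Nat.cast_prod, ← prod_mul_distrib]
      refine prod_congr rfl fun p hp => ?_
      simp only [f, if_pos hp]
      exact (u_sum (hU p hp).1 (hU p hp).2.1 (hU p hp).2.2).2
    · obtain ⟨p, hp⟩ : ∃ p, ¬ (p ∈ S ↔ p ∈ T) := by
        by_contra hc
        push Not at hc
        exact e (Finset.ext hc)
      have hp' : p ∈ S ∪ T := by rw [mem_union]; tauto
      rw [mul_zero]
      refine prod_eq_zero hp' ?_
      rw [← (u_sum (hU p hp').1 (hU p hp').2.1 (hU p hp').2.2).1]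
      refine sum_congr rfl fun r _ => ?_
      by_cases e1 : p ∈ S <;> by_cases e2 : p ∈ T <;> simp_all [f]
  · refine (le_abs_self _).trans ?_
    rw [abs_prod]
    refine prod_le_one (fun _ _ => abs_nonneg _) fun p hp => ?_
    obtain ⟨a, -, -, b⟩ := g_bd (hU p hp).2.1
    have : |u h p n| ≤ 1 := by
      unfold u; split_ifs
      · simp
      · rwa [abs_of_nonneg a]
    simp only [f, abs_mul]
    refine mul_le_one₀ ?_ (abs_nonneg _) ?_ <;> split_ifs <;> simp [this]

theorem sieve (h N x Q : ℕ) (P : Finset ℕ) (hP : ∀ p ∈ P, p.Prime ∧ 5 ≤ p ∧ ¬ p ∣ h) :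
    #{i ∈ range N | ∀ p ∈ P, ¬ p ∣ (x + i) * (x + i + h)} * (∑ S ∈ fam P Q, ∏ p ∈ S, g p) ^ 2 ≤
      N * (∑ S ∈ fam P Q, ∏ p ∈ S, g p) + Q ^ 4 := by
  have hc : (#(fam P Q) : ℝ) ≤ Q := by
    have hS : ∀ S ∈ fam P Q, ∀ p ∈ S, p.Prime := fun S hS p hp =>
      (hP p (mem_powerset.mp (mem_filter.mp hS).1 hp)).1
    have := card_le_card_of_injOn (s := fam P Q) (t := Icc 1 Q) (fun S => ∏ p ∈ S, p)
      (fun S h1 => mem_Icc.mpr ⟨prod_pos fun p hp => (hS S h1 p hp).pos, (mem_filter.mp h1).2⟩)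
      (fun S h1 T h2 e => by
        rw [← Nat.primeFactors_prod (hS S h1), ← Nat.primeFactors_prod (hS T h2)]
        exact congrArg _ e)
    exact_mod_cast (by simpa using this)
  calc _ = ∑ i ∈ range N with ∀ p ∈ P, ¬ p ∣ (x + i) * (x + i + h),
        (∑ S ∈ fam P Q, ∏ p ∈ S, u h p (x + i)) ^ 2 := by
        rw [← nsmul_eq_mul, ← sum_const]
        refine sum_congr rfl fun i hi => congrArg (· ^ 2) (sum_congr rfl fun S hS =>
          prod_congr rfl fun p hp => ?_)
        rw [u, if_neg ((mem_filter.mp hi).2 p (mem_powerset.mp (mem_filter.mp hS).1 hp))]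
    _ ≤ ∑ i ∈ range N, (∑ S ∈ fam P Q, ∏ p ∈ S, u h p (x + i)) ^ 2 :=
        sum_le_sum_of_subset_of_nonneg (filter_subset _ _) fun _ _ _ => sq_nonneg _
    _ = ∑ S ∈ fam P Q, ∑ T ∈ fam P Q, ∑ i ∈ range N,
          (∏ p ∈ S, u h p (x + i)) * ∏ p ∈ T, u h p (x + i) := by
        simp only [sq, sum_mul_sum]
        rw [sum_comm]
        exact sum_congr rfl fun S _ => sum_comm
    _ ≤ ∑ S ∈ fam P Q, ∑ T ∈ fam P Q, (N * (if S = T then ∏ p ∈ S, g p else 0) + (Q : ℝ) ^ 2) :=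
        sum_le_sum fun S hS => sum_le_sum fun T hT => cross h N x Q P hP hS hT
    _ = N * (∑ S ∈ fam P Q, ∏ p ∈ S, g p) + #(fam P Q) * (#(fam P Q) * (Q : ℝ) ^ 2) := by
        simp only [sum_add_distrib, ← mul_sum, sum_ite_eq, sum_const, nsmul_eq_mul]
        rw [sum_congr rfl fun S hS => if_pos hS]
    _ ≤ _ := by
        have : #(fam P Q) * (#(fam P Q) * (Q : ℝ) ^ 2) ≤ Q * (Q * (Q : ℝ) ^ 2) := by gcongr
        linarith

theorem weight (P : Finset ℕ) (a l : ℕ → ℝ) (ha : ∀ p ∈ P, 0 ≤ a p) (hl : ∀ p, 0 ≤ l p) :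
    ∑ S ∈ P.powerset, (∏ p ∈ S, a p) * ∑ p ∈ S, l p ≤ (∏ p ∈ P, (1 + a p)) * ∑ p ∈ P, l p * a p := by
  induction P using Finset.induction_on with
  | empty => simp
  | insert q P hq ih =>
    have ha' : ∀ p ∈ P, 0 ≤ a p := fun p hp => ha p (mem_insert_of_mem hp)
    have h0 := ha q (mem_insert_self _ _)
    have h1 := mul_le_mul_of_nonneg_left (ih ha') (show 0 ≤ 1 + a q by linarith)
    have h2 : 0 ≤ ∏ p ∈ P, (1 + a p) := prod_nonneg fun p hp => by have := ha' p hp; linarith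
    have h3 := hl q
    have h4 : ∑ S ∈ P.powerset, (∏ p ∈ insert q S, a p) * ∑ p ∈ insert q S, l p =
        a q * l q * ∏ p ∈ P, (1 + a p) + a q * ∑ S ∈ P.powerset, (∏ p ∈ S, a p) * ∑ p ∈ S, l p := by
      rw [prod_one_add, mul_sum, mul_sum, ← sum_add_distrib]
      refine sum_congr rfl fun S hS => ?_
      have : q ∉ S := fun e => hq (mem_powerset.mp hS e)
      rw [prod_insert this, sum_insert this]
      ring
    rw [sum_powerset_insert hq, h4, prod_insert hq, sum_insert hq]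
    have h5 : 0 ≤ a q * a q * l q * ∏ p ∈ P, (1 + a p) := by positivity
    linarith

theorem mertens_upper (z : ℕ) (hz : 1 ≤ z) :
    ∑ p ∈ (range (z + 1)).filter Nat.Prime, Real.log p / p ≤ 2 * Real.log z := by
  have hz0 : (0 : ℝ) < z := by exact_mod_cast hz
  have h1 : Real.log z.factorial ≤ z * Real.log z := by
    rw [← Real.log_pow]
    exact Real.log_le_log (by exact_mod_cast z.factorial_pos) (by exact_mod_cast z.factorial_le_pow)
  have hpf : z.factorial.primeFactors = (range (z + 1)).filter Nat.Prime := by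
    ext p
    simp only [Nat.mem_primeFactors, mem_filter, mem_range, Nat.lt_succ_iff]
    exact ⟨fun h => ⟨h.1.dvd_factorial.mp h.2.1, h.1⟩,
      fun h => ⟨h.2, h.2.dvd_factorial.mpr h.1, z.factorial_ne_zero⟩⟩
  rw [Real.log_nat_eq_sum_factorization, Finsupp.sum, Nat.support_factorization, hpf] at h1
  refine le_of_mul_le_mul_left ?_ hz0
  rw [mul_left_comm, mul_sum]
  refine le_trans (sum_le_sum fun p hp => ?_) ((mul_sum _ _ _).ge.trans (mul_le_mul_of_nonneg_left h1 zero_le_two))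
  obtain ⟨h2, hp⟩ := mem_filter.mp hp
  have h3 : z / p ≤ z.factorial.factorization p := by
    have := (Nat.factorization_le_iff_dvd (Nat.factorial_ne_zero _) z.factorial_ne_zero).mpr
      (Nat.factorial_dvd_factorial (Nat.mul_div_le z p)) p
    rw [Nat.factorization_factorial_mul hp] at this
    omega
  have h4 : z ≤ p * (2 * z.factorial.factorization p) := by
    have h5 := Nat.div_pos (Nat.lt_succ_iff.mp (mem_range.mp h2)) hp.pos
    have h6 := Nat.lt_mul_div_succ z hp.pos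
    exact h6.le.trans (Nat.mul_le_mul_left _ (by omega))
  have h5 : (z : ℝ) ≤ p * (2 * z.factorial.factorization p) := by exact_mod_cast h4
  have hp0 : (0 : ℝ) < p := by exact_mod_cast hp.pos
  have h6 := Real.log_natCast_nonneg p
  rw [← mul_div_assoc, div_le_iff₀ hp0]
  nlinarith

def P0 (z : ℕ) : Finset ℕ := (range (z + 1)).filter fun p => p.Prime ∧ 5 ≤ p

theorem markov (z : ℕ) (hz : 2 ≤ z) (P : Finset ℕ) (hP : P ⊆ P0 z) :
    ∏ p ∈ P, (1 + g p) ≤ 2 * ∑ S ∈ fam P (z ^ 16), ∏ p ∈ S, g p := by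
  have h5 : ∀ p ∈ P, 5 ≤ p := fun p hp => (mem_filter.mp (hP hp)).2.2
  have hl : 0 < Real.log z := Real.log_pos (by exact_mod_cast hz)
  have h1 := weight P g (fun p => Real.log p) (fun p hp => (g_bd (h5 p hp)).1) Real.log_natCast_nonneg
  have h2 : ∑ p ∈ P, Real.log p * g p ≤ 8 * Real.log z := by
    have h3 := mertens_upper z (by omega)
    have h4 : ∑ p ∈ P, Real.log p / p ≤ ∑ p ∈ (range (z + 1)).filter Nat.Prime, Real.log p / p :=
      sum_le_sum_of_subset_of_nonneg (fun p hp => mem_filter.mpr ⟨(mem_filter.mp (hP hp)).1,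
        (mem_filter.mp (hP hp)).2.1⟩) fun p _ _ => div_nonneg (Real.log_natCast_nonneg p) p.cast_nonneg
    have h6 : ∑ p ∈ P, Real.log p * g p ≤ 4 * ∑ p ∈ P, Real.log p / p := by
      rw [mul_sum]
      exact sum_le_sum fun p hp => (mul_le_mul_of_nonneg_left (g_bd (h5 p hp)).2.1
        (Real.log_natCast_nonneg p)).trans_eq (by ring)
    linarith
  have hg : ∀ S ∈ P.powerset, 0 ≤ ∏ p ∈ S, g p := fun S hS =>
    prod_nonneg fun p hp => (g_bd (h5 p (mem_powerset.mp hS hp))).1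
  have h3 : (∑ S ∈ P.powerset with ¬ ∏ p ∈ S, p ≤ z ^ 16, ∏ p ∈ S, g p) * (16 * Real.log z) ≤
      ∑ S ∈ P.powerset, (∏ p ∈ S, g p) * ∑ p ∈ S, Real.log p := by
    rw [sum_mul]
    refine (sum_le_sum fun S hS => ?_).trans (sum_le_sum_of_subset_of_nonneg (filter_subset _ _)
      fun S hS _ => mul_nonneg (hg S hS) (sum_nonneg fun p _ => Real.log_natCast_nonneg p))
    obtain ⟨s1, s2⟩ := mem_filter.mp hS
    refine mul_le_mul_of_nonneg_left ?_ (hg S s1)
    rw [← Real.log_prod fun p hp => by have := h5 p (mem_powerset.mp s1 hp); positivity,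
      show 16 * Real.log z = Real.log (z ^ 16) by rw [Real.log_pow]; norm_num]
    exact Real.log_le_log (by positivity) (by rw [← Nat.cast_prod]; exact_mod_cast (not_le.mp s2).le)
  have h4 := sum_filter_add_sum_filter_not P.powerset (fun S => ∏ p ∈ S, p ≤ z ^ 16) fun S => ∏ p ∈ S, g p
  rw [← prod_one_add] at h4
  have h6 : 0 ≤ ∏ p ∈ P, (1 + g p) := prod_nonneg fun p hp => by have := (g_bd (h5 p hp)).1; linarith
  have h7 := mul_le_mul_of_nonneg_left h2 h6
  have h8 : 2 * ∑ S ∈ P.powerset with ¬ ∏ p ∈ S, p ≤ z ^ 16, ∏ p ∈ S, g p ≤ ∏ p ∈ P, (1 + g p) :=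
    le_of_mul_le_mul_right (a := 8 * Real.log z) (by linarith) (by positivity)
  unfold fam
  linarith

theorem euler (z : ℕ) (hz : 3 ≤ z) : Real.log z ^ 2 ≤ 9 * ∏ p ∈ P0 z, (1 + g p) := by
  let f : ℕ →* ℝ := ⟨⟨fun n => (n : ℝ)⁻¹, by simp⟩, fun a b => by simp [mul_comm]⟩
  have h1 := (EulerProduct.summable_and_hasSum_smoothNumbers_prod_primesBelow_geometric (f := f)
    (fun {p} hp => by
      simp only [f, MonoidHom.coe_mk, OneHom.coe_mk, norm_inv, Real.norm_natCast]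
      exact inv_lt_one_of_one_lt₀ (by exact_mod_cast hp.one_lt)) (z + 1)).2
  have h2 := sum_le_hasSum (Icc 1 z) (fun n _ => Set.indicator_nonneg (fun m _ => by
    simp [f]) n) (hasSum_subtype_iff_indicator.mp h1)
  have h3 : Real.log z ≤ ∏ p ∈ (z + 1).primesBelow, (1 - f p)⁻¹ := by
    refine le_trans ?_ h2
    refine (Real.log_le_log (by positivity) (by simp)).trans ((log_add_one_le_harmonic z).trans_eq ?_)
    rw [harmonic_eq_sum_Icc]
    push_cast
    refine sum_congr rfl fun n hn => ?_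
    have := mem_Icc.mp hn
    rw [Set.indicator_of_mem (Nat.mem_smoothNumbers_of_lt (by omega) (by omega))]
    rfl
  have h4 : (z + 1).primesBelow = insert 2 (insert 3 (P0 z)) := by
    ext p
    simp only [Nat.mem_primesBelow, P0, mem_insert, mem_filter, mem_range]
    constructor
    · rintro ⟨a, b⟩
      have := b.two_le
      have : p ≠ 4 := by rintro rfl; norm_num at b
      by_cases c : 5 ≤ p
      · exact Or.inr (Or.inr ⟨a, b, c⟩)
      · omega
    · rintro (rfl | rfl | ⟨a, b, -⟩)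
      · exact ⟨by omega, Nat.prime_two⟩
      · exact ⟨by omega, Nat.prime_three⟩
      · exact ⟨a, b⟩
  rw [h4, prod_insert (by simp [P0]), prod_insert (by simp [P0])] at h3
  have h5 : (∏ p ∈ P0 z, (1 - f p)⁻¹) ^ 2 ≤ ∏ p ∈ P0 z, (1 + g p) := by
    rw [← prod_pow]
    refine prod_le_prod (fun p _ => sq_nonneg _) fun p hp => ?_
    have : (5 : ℝ) ≤ p := by exact_mod_cast (mem_filter.mp hp).2.2
    have e1 : (0 : ℝ) < p - 2 := by linarith
    have e2 : (0 : ℝ) < p - 1 := by linarith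
    have e3 : (1 - f p)⁻¹ = p / (p - 1) := by
      simp only [f, MonoidHom.coe_mk, OneHom.coe_mk]
      field_simp
    rw [e3, g, div_pow, add_div' _ _ _ e1.ne', div_le_div_iff₀ (by positivity) e1]
    nlinarith
  have e2 : (1 - f 2)⁻¹ = 2 := by simp only [f, MonoidHom.coe_mk, OneHom.coe_mk]; norm_num
  have e3 : (1 - f 3)⁻¹ = 3 / 2 := by simp only [f, MonoidHom.coe_mk, OneHom.coe_mk]; norm_num
  rw [e2, e3] at h3
  have h6 := pow_le_pow_left₀ (Real.log_natCast_nonneg z) h3 2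
  rw [mul_pow, mul_pow] at h6
  linarith

theorem avg (z H : ℕ) : ∑ h ∈ Ioc 0 H, ∏ p ∈ P0 z with p ∣ h, (1 + g p) ≤ 3 * H := by
  have h5 : ∀ p ∈ P0 z, p.Prime ∧ 5 ≤ p := fun p hp => (mem_filter.mp hp).2
  have h1 : ∀ h, ∏ p ∈ P0 z with p ∣ h, (1 + g p) =
      ∑ S ∈ (P0 z).powerset, if ∀ p ∈ S, p ∣ h then ∏ p ∈ S, g p else 0 := fun h => by
    rw [prod_one_add, ← sum_filter]
    congr 1
    ext S
    simp only [mem_powerset, mem_filter, subset_iff]
    exact ⟨fun a => ⟨fun p hp => (a hp).1, fun p hp => (a hp).2⟩, fun a p hp => ⟨a.1 hp, a.2 p hp⟩⟩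
  have h2 : ∑ p ∈ P0 z, g p / p ≤ 1 := by
    have h4 : ∀ n : ℕ, ∑ p ∈ range (n + 5) with 5 ≤ p, g p / p ≤ 1 - 2 / (n + 2 : ℝ) := by
      intro n
      induction n with
      | zero => rw [filter_false_of_mem (by simp)]; simp
      | succ n ih =>
        rw [show n + 1 + 5 = n + 5 + 1 from rfl, range_add_one, filter_insert, if_pos (by omega),
          sum_insert (by simp), g]
        push_cast
        have : 2 / (n + 5 - 2 : ℝ) / (n + 5) ≤ 2 / (n + 2) - 2 / (n + 1 + 2) := by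
          rw [div_div, div_sub_div _ _ (by positivity) (by positivity),
            show (n + 5 - 2 : ℝ) = n + 3 by ring, div_le_div_iff₀ (by positivity) (by positivity)]
          nlinarith [n.cast_nonneg (α := ℝ)]
        linarith
    refine (sum_le_sum_of_subset_of_nonneg (fun p hp => ?_) fun p hp _ => ?_).trans
      ((h4 z).trans (sub_le_self _ (by positivity)))
    · have := mem_range.mp (mem_filter.mp hp).1
      exact mem_filter.mpr ⟨mem_range.mpr (by omega), (h5 p hp).2⟩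
    · exact div_nonneg (g_bd (mem_filter.mp hp).2).1 p.cast_nonneg
  have h3 := Real.prod_one_add_le_exp_sum (P0 z) (f := fun p => if 5 ≤ p then g p / p else 0) fun p => by
    split_ifs with e
    · exact div_nonneg (g_bd e).1 p.cast_nonneg
    · rfl
  rw [prod_congr rfl fun p hp => by rw [if_pos (h5 p hp).2],
    sum_congr rfl fun p hp => if_pos (h5 p hp).2, prod_one_add] at h3
  have h4 := h3.trans ((Real.exp_le_exp.mpr h2).trans Real.exp_one_lt_three.le)
  simp only [h1]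
  rw [sum_comm]
  refine le_trans (sum_le_sum fun S hS => ?_) ((sum_mul _ _ _).ge.trans
    (mul_le_mul_of_nonneg_right h4 H.cast_nonneg))
  have h6 : ∀ p ∈ S, p.Prime ∧ 5 ≤ p := fun p hp => h5 p (mem_powerset.mp hS hp)
  rw [← sum_filter, sum_const, nsmul_eq_mul, prod_div_distrib, mul_comm, div_mul_eq_mul_div, mul_div_assoc]
  refine mul_le_mul_of_nonneg_left ?_ (prod_nonneg fun p hp => (g_bd (h6 p hp).2).1)
  rw [← Nat.cast_prod]
  refine le_trans ?_ Nat.cast_div_le
  rw [← Nat.Ioc_filter_dvd_card_eq_div]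
  exact_mod_cast card_le_card (monotone_filter_right _ fun h _ e =>
    prod_primes_dvd _ (fun p hp => (h6 p hp).1.prime) e)

theorem pair1 (z h N x : ℕ) (hz : 3 ≤ z) :
    (#{i ∈ range N | (x + i).Prime ∧ (x + i + h).Prime} : ℝ) ≤
      18 * N / Real.log z ^ 2 * ∏ p ∈ P0 z with p ∣ h, (1 + g p) + (z ^ 64 + z + 1) := by
  let P := (P0 z).filter fun p => ¬ p ∣ h
  have hP : ∀ p ∈ P, p.Prime ∧ 5 ≤ p ∧ ¬ p ∣ h := fun p hp =>
    ⟨(mem_filter.mp (mem_filter.mp hp).1).2.1, (mem_filter.mp (mem_filter.mp hp).1).2.2, (mem_filter.mp hp).2⟩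
  have h1 := sieve h N x (z ^ 16) P hP
  have h2 := markov z (by omega) P (filter_subset _ _)
  have h3 := euler z hz
  rw [← prod_filter_mul_prod_filter_not (P0 z) (fun p => p ∣ h)] at h3
  have hl : 0 < Real.log z := Real.log_pos (by exact_mod_cast (by omega : 1 < z))
  have h4 : 1 ≤ ∑ S ∈ fam P (z ^ 16), ∏ p ∈ S, g p :=
    le_trans (by simp) (single_le_sum (f := fun S => ∏ p ∈ S, g p) (fun S hS => prod_nonneg fun p hp =>
      (g_bd (hP p (mem_powerset.mp (mem_filter.mp hS).1 hp)).2.1).1) (a := ∅)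
      (mem_filter.mpr ⟨by simp, by simpa using Nat.one_le_pow _ _ (by omega)⟩))
  have h5 : 0 ≤ ∏ p ∈ P0 z with p ∣ h, (1 + g p) := prod_nonneg fun p hp => by
    have := (g_bd (mem_filter.mp (mem_filter.mp hp).1).2.2).1
    linarith
  have h6 : #{i ∈ range N | (x + i).Prime ∧ (x + i + h).Prime} ≤
      #{i ∈ range N | ∀ p ∈ P, ¬ p ∣ (x + i) * (x + i + h)} + (z + 1) := by
    rw [← card_range (z + 1)]
    refine (card_le_card fun i hi => ?_).trans (card_union_le _ _)
    obtain ⟨a, b, c⟩ := mem_filter.mp hi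
    rw [mem_union, mem_range, or_iff_not_imp_right]
    refine fun e => mem_filter.mpr ⟨a, fun p hp d => ?_⟩
    have := mem_range.mp (mem_filter.mp (mem_filter.mp hp).1).1
    rcases (hP p hp).1.dvd_mul.mp d with d | d
    · have := (Nat.prime_dvd_prime_iff_eq (hP p hp).1 b).mp d
      omega
    · have := (Nat.prime_dvd_prime_iff_eq (hP p hp).1 c).mp d
      omega
  have h7 : (#{i ∈ range N | (x + i).Prime ∧ (x + i + h).Prime} : ℝ) ≤
      #{i ∈ range N | ∀ p ∈ P, ¬ p ∣ (x + i) * (x + i + h)} + (z + 1) := by exact_mod_cast h6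
  set L := ∑ S ∈ fam P (z ^ 16), ∏ p ∈ S, g p
  set R := ∏ p ∈ P0 z with p ∣ h, (1 + g p)
  set Z := (#{i ∈ range N | ∀ p ∈ P, ¬ p ∣ (x + i) * (x + i + h)} : ℝ)
  have h8 : (N : ℝ) ≤ 18 * N / Real.log z ^ 2 * R * L := by
    rw [div_mul_eq_mul_div, div_mul_eq_mul_div, le_div_iff₀ (by positivity)]
    have := mul_le_mul_of_nonneg_left h2 h5
    nlinarith [N.cast_nonneg (α := ℝ)]
  have h9 : Z ≤ 18 * N / Real.log z ^ 2 * R + z ^ 64 := by
    refine le_of_mul_le_mul_right (h1.trans ?_) (by positivity)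
    push_cast
    have := mul_le_mul_of_nonneg_right h8 (zero_le_one.trans h4)
    have := mul_le_mul_of_nonneg_left (one_le_pow₀ h4 (n := 2)) (show (0 : ℝ) ≤ z ^ 64 by positivity)
    nlinarith
  linarith

theorem pair : ∃ C : ℝ, 0 < C ∧ ∀ k x H : ℕ,
    (∑ h ∈ Ioc 0 H, (#{i ∈ range (2 ^ k) | (x + i).Prime ∧ (x + i + h).Prime} : ℝ)) * k ^ 2 ≤
      C * H * 2 ^ k := by
  refine ⟨10 ^ 8, by norm_num, fun k x H => ?_⟩
  rcases Nat.lt_or_ge k 256 with hk | hk
  · have h1 := sum_le_card_nsmul (Ioc 0 H) (fun h =>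
      (#{i ∈ range (2 ^ k) | (x + i).Prime ∧ (x + i + h).Prime} : ℝ)) (2 ^ k) fun h _ => by
        exact_mod_cast (card_filter_le _ _).trans_eq (card_range _)
    have h2 : (k : ℝ) ^ 2 ≤ 10 ^ 8 := by
      have : (k : ℝ) ≤ 256 := by exact_mod_cast hk.le
      nlinarith [k.cast_nonneg (α := ℝ)]
    rw [Nat.card_Ioc, Nat.sub_zero, nsmul_eq_mul] at h1
    exact (mul_le_mul h1 h2 (by positivity) (by positivity)).trans_eq (by ring)
  have hz : 3 ≤ 2 ^ (k / 128) := le_trans (by norm_num) (Nat.pow_le_pow_right two_pos (show 2 ≤ k / 128 by omega))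
  have h1 := sum_le_sum fun h (_ : h ∈ Ioc 0 H) => pair1 (2 ^ (k / 128)) h (2 ^ k) x hz
  rw [sum_add_distrib, ← mul_sum, sum_const, Nat.card_Ioc, Nat.sub_zero, nsmul_eq_mul] at h1
  have h2 := avg (2 ^ (k / 128)) H
  have h3 : (k : ℝ) ≤ 512 * Real.log (2 ^ (k / 128) : ℕ) := by
    have : (k : ℝ) ≤ 256 * (k / 128 : ℕ) := by exact_mod_cast (by omega : k ≤ 256 * (k / 128))
    rw [Nat.cast_pow, Real.log_pow]
    have e := Real.log_two_gt_d9
    push_cast
    nlinarith [(k / 128 : ℕ).cast_nonneg (α := ℝ)]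
  have h4 : ((2 ^ (k / 128)) ^ 64 + 2 ^ (k / 128) + 1) * k ^ 2 ≤ 192 * 2 ^ k := by
    have e1 : k ≤ 8 * 2 ^ (k / 4) := by have := Nat.lt_two_pow_self (n := k / 4); omega
    have e2 : 2 ^ (k / 128) ≤ (2 ^ (k / 128)) ^ 64 := Nat.le_self_pow (by norm_num) _
    have e3 : (2 ^ (k / 128)) ^ 64 * (2 ^ (k / 4)) ^ 2 ≤ 2 ^ k := by
      rw [← pow_mul, ← pow_mul, ← pow_add]
      exact Nat.pow_le_pow_right two_pos (by omega)
    calc _ ≤ 3 * (2 ^ (k / 128)) ^ 64 * (8 * 2 ^ (k / 4)) ^ 2 :=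
          Nat.mul_le_mul (by omega) (Nat.pow_le_pow_left e1 2)
      _ = 192 * ((2 ^ (k / 128)) ^ 64 * (2 ^ (k / 4)) ^ 2) := by ring
      _ ≤ _ := by omega
  have h5 : ((((2 ^ (k / 128) : ℕ) : ℝ)) ^ 64 + (2 ^ (k / 128) : ℕ) + 1) * k ^ 2 ≤ 192 * 2 ^ k := by
    exact_mod_cast h4
  have hl : 0 < Real.log (2 ^ (k / 128) : ℕ) := Real.log_pos (by exact_mod_cast (by omega))
  have h6 : 18 * ((2 ^ k : ℕ) : ℝ) / Real.log (2 ^ (k / 128) : ℕ) ^ 2 * k ^ 2 ≤ 18 * 512 ^ 2 * 2 ^ k := by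
    rw [div_mul_eq_mul_div, div_le_iff₀ (by positivity)]
    have := pow_le_pow_left₀ k.cast_nonneg h3 2
    push_cast at this ⊢
    nlinarith [show (0 : ℝ) < 2 ^ k by positivity]
  have h7 := mul_le_mul h6 h2 (sum_nonneg fun h _ => prod_nonneg fun p hp => by
    have := (g_bd (mem_filter.mp (mem_filter.mp hp).1).2.2).1
    linarith) (by positivity)
  have h8 := mul_le_mul_of_nonneg_left h5 H.cast_nonneg
  have h9 := mul_le_mul_of_nonneg_right h1 (sq_nonneg (k : ℝ))
  have : (0 : ℝ) ≤ H * 2 ^ k := by positivity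
  nlinarith

end Pool.Agent.H16.PairSieve
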