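import Mathlib

set_option autoImplicit false

namespace Pool.Agent.H16.PatMat

/-- Binary representation, most significant digit first. -/
def bin (i : ℕ) : List ℕ := (Nat.digits 2 i).reverse

/-- Number of (possibly overlapping) occurrences of `w` as a block of consecutive letters
of `l`. -/
def occ (w l : List ℕ) : ℕ := ((Finset.range (l.length + 1)).filter fun p => w <+: l.drop p).card

/-- The matrix `M_n`; the index `i : Fin N` stands for the integer `i + 1`. -/
def M (n : ℕ) : Matrix (Fin (2 ^ 2 ^ n)) (Fin (2 ^ 2 ^ n)) ℤ :=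
  Matrix.of fun i j => (occ (bin (j + 1)) (bin (i + 1)) : ℤ)

/-- The matrix whose only nonzero entry is a one in the last row and first column. -/
def E (n : ℕ) : Matrix (Fin (2 ^ 2 ^ n)) (Fin (2 ^ 2 ^ n)) ℤ :=
  Matrix.of fun i j => if (i : ℕ) + 1 = 2 ^ 2 ^ n ∧ (j : ℕ) + 1 = 1 then 1 else 0

theorem bin_inj {i j : ℕ} (h : bin i = bin j) : i = j :=
  Nat.digits.injective 2 (List.reverse_injective h)

theorem bin_pow (t : ℕ) : bin (2 ^ t) = 1 :: List.replicate t 0 := by
  have := Nat.digits_base_pow_mul (b := 2) (k := t) (m := 1) (by norm_num) (by norm_num)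
  rw [mul_one] at this
  rw [bin, this]
  simp

theorem bin_head (i : ℕ) : ∃ a l, a ≠ 0 ∧ bin (i + 1) = a :: l := by
  have h : Nat.digits 2 (i + 1) ≠ [] := Nat.digits_ne_nil_iff_ne_zero.2 (by omega)
  refine ⟨_, (Nat.digits 2 (i + 1)).dropLast.reverse, Nat.getLast_digit_ne_zero 2 (m := i + 1)
    (by omega), ?_⟩
  unfold bin
  conv_lhs => rw [← List.dropLast_append_getLast h]
  simp

theorem occ_one {w l : List ℕ} (h0 : w <+: l) (h : ∀ p, 0 < p → ¬ w <+: l.drop p) :
    occ w l = 1 := by
  unfold occ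
  rw [Finset.card_eq_one]
  refine ⟨0, ?_⟩
  ext p
  simp only [Finset.mem_filter, Finset.mem_range, Finset.mem_singleton]
  constructor
  · rintro ⟨-, h1⟩
    by_contra h2
    exact h p (by omega) h1
  · rintro rfl
    exact ⟨by omega, h0⟩

theorem occ_ne {w l : List ℕ} (h : occ w l ≠ 0) : ∃ p, w <+: l.drop p := by
  obtain ⟨p, hp⟩ := Finset.card_ne_zero.1 h
  exact ⟨p, (Finset.mem_filter.1 hp).2⟩

theorem not_zero (k t p : ℕ) (hp : 0 < p) :
    ¬ bin (k + 1) <+: (1 :: List.replicate t 0).drop p := by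
  obtain ⟨a, l, ha, hl⟩ := bin_head k
  obtain ⟨p, rfl⟩ : ∃ q, p = q + 1 := ⟨p - 1, by omega⟩
  rw [hl, List.drop_succ_cons, List.drop_replicate]
  intro h
  exact ha (List.eq_of_mem_replicate (h.subset List.mem_cons_self))

variable (N : ℕ)

def L : Matrix (Fin N) (Fin N) (ZMod 2) :=
  Matrix.of fun i j => if i = j then 0 else (occ (bin (j + 1)) (bin (i + 1)) : ZMod 2)

def sz (i : ℕ) : ℕ := (bin (i + 1)).length

theorem sz_pos (i : ℕ) : 0 < sz i := by
  obtain ⟨a, l, -, h⟩ := bin_head i
  simp [sz, h]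

theorem sz_le (i k : ℕ) : sz i ≤ k ↔ i + 1 < 2 ^ k := by
  simp only [sz, bin, List.length_reverse]
  exact Nat.digits_length_le_iff (by norm_num) _

theorem L_occ {i j : Fin N} (h : L N i j ≠ 0) :
    i ≠ j ∧ ∃ p, bin (j + 1) <+: (bin (i + 1)).drop p := by
  simp only [L, Matrix.of_apply] at h
  split_ifs at h with h1
  · exact absurd rfl h
  · exact ⟨h1, occ_ne fun h2 => h (by rw [h2]; rfl)⟩

theorem L_lt {i j : Fin N} (h : L N i j ≠ 0) : sz j < sz i := by
  obtain ⟨h1, p, hp⟩ := L_occ N h
  have h2 := hp.length_le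
  have h3 := sz_pos j
  rw [List.length_drop] at h2
  unfold sz at *
  by_contra h4
  have h5 : p = 0 := by omega
  subst h5
  have := bin_inj (hp.eq_of_length (by simp only [List.drop_zero]; omega))
  exact h1 (Fin.ext (by omega))

theorem pow_le (t : ℕ) : ∀ i j : Fin N, (L N ^ t) i j ≠ 0 → sz j + t ≤ sz i := by
  induction t with
  | zero =>
    intro i j h
    by_cases h1 : i = j
    · rw [h1]; rfl
    · simp [Matrix.one_apply_ne h1] at h
  | succ t ih =>
    intro i j h
    rw [pow_succ', Matrix.mul_apply] at h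
    obtain ⟨k, -, hk⟩ := Finset.exists_ne_zero_of_sum_ne_zero h
    have h1 := L_lt N (left_ne_zero_of_mul hk)
    have h2 := ih k j (right_ne_zero_of_mul hk)
    omega

theorem pow_one' (t : ℕ) : ∀ i j : Fin N, (i : ℕ) + 1 = 2 ^ t → (j : ℕ) = 0 →
    (L N ^ t) i j = 1 := by
  induction t with
  | zero =>
    intro i j h1 h2
    have : i = j := Fin.ext (by omega)
    simp [this]
  | succ t ih =>
    intro i j h1 h2
    have hp : 0 < 2 ^ t := by positivity
    let k0 : Fin N := ⟨2 ^ t - 1, by have := i.2; omega⟩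
    have hk0 : (k0 : ℕ) + 1 = 2 ^ t := by simp only [k0]; omega
    rw [pow_succ', Matrix.mul_apply, Finset.sum_eq_single k0 _ (by simp), ih k0 j hk0 h2]
    · have h3 : i ≠ k0 := fun h => by rw [h] at h1; omega
      simp only [L, Matrix.of_apply, if_neg h3, mul_one]
      rw [occ_one, Nat.cast_one]
      · rw [h1, hk0, bin_pow, bin_pow, List.replicate_succ']
        exact ⟨[0], by simp⟩
      · intro p hp
        rw [h1, bin_pow]
        exact not_zero _ _ p hp
    · intro k _ hk
      by_contra h
      have h3 := L_lt N (left_ne_zero_of_mul h)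
      have h4 := pow_le N t k j (right_ne_zero_of_mul h)
      have h5 := sz_pos j
      obtain ⟨-, p, hp⟩ := L_occ N (left_ne_zero_of_mul h)
      have h6 : sz i = t + 2 := by simp [sz, h1, bin_pow]
      rw [h1, bin_pow] at hp
      rcases Nat.eq_zero_or_pos p with rfl | h7
      · have h8 : bin (2 ^ t) <+: 1 :: List.replicate (t + 1) 0 := by
          rw [bin_pow, List.replicate_succ']
          exact ⟨[0], by simp⟩
        have h9 : (bin (k + 1)).length = (bin (2 ^ t)).length := by
          rw [bin_pow]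
          unfold sz at h3 h4 h5 h6
          simp only [List.length_cons, List.length_replicate]
          omega
        have := bin_inj ((List.prefix_of_prefix_length_le hp h8 h9.le).eq_of_length h9)
        exact hk (Fin.ext (by omega))
      · exact not_zero _ _ p h7 hp

theorem main (n : ℕ) (i j : Fin (2 ^ 2 ^ n)) : (M n ^ 2 ^ n) i j ≡ (1 + E n) i j [ZMOD 2] := by
  have : Nonempty (Fin (2 ^ 2 ^ n)) := ⟨i⟩
  have h1 : (Int.castRingHom (ZMod 2)).mapMatrix (M n) = 1 + L (2 ^ 2 ^ n) := by
    ext a b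
    simp only [M, L, RingHom.mapMatrix_apply, Matrix.map_apply, Matrix.of_apply, Matrix.add_apply,
      eq_intCast, Int.cast_natCast, Matrix.one_apply]
    split_ifs with h
    · subst h
      rw [occ_one (List.prefix_refl _)]
      · simp
      · intro p hp h
        have h2 := h.length_le
        have h3 := sz_pos a
        rw [List.length_drop] at h2
        unfold sz at h3
        omega
    · simp
  have h2 : (Int.castRingHom (ZMod 2)).mapMatrix (E n) = L (2 ^ 2 ^ n) ^ 2 ^ n := by
    ext a b
    simp only [E, RingHom.mapMatrix_apply, Matrix.map_apply, Matrix.of_apply, eq_intCast]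
    split_ifs with h
    · rw [pow_one' _ _ a b h.1 (by omega)]
      simp
    · rw [Int.cast_zero]
      by_contra h3
      have h4 := pow_le _ _ a b (Ne.symm h3)
      have h5 := sz_pos b
      have h6 := (sz_le a (2 ^ n)).not.1 (by omega)
      have h7 : sz a ≤ 2 ^ n + 1 := (sz_le _ _).2 (by have := a.2; rw [pow_succ]; omega)
      have h8 := (sz_le b 1).1 (by omega)
      exact h ⟨by have := a.2; omega, by omega⟩
  have h3 : (Int.castRingHom (ZMod 2)).mapMatrix (M n ^ 2 ^ n) =
      (Int.castRingHom (ZMod 2)).mapMatrix (1 + E n) := by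
    rw [map_pow, map_add, map_one, h1, h2, add_pow_char_pow_of_commute _ _ (Commute.one_left _),
      one_pow]
  exact (ZMod.intCast_eq_intCast_iff _ _ 2).1 (congrFun (congrFun h3 i) j)

end Pool.Agent.H16.PatMat
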