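import Pool.Agent.H16.CFG

set_option autoImplicit false

namespace Pool.Agent.H16.PerUn
open Pool.Agent.H16.CFG

/-- left letter codes: 0, 1 bits, 2 erased -/
def f : Fin 4 → Fin 3 → Fin 3 := ![![0, 1, 1], ![2, 0, 1], ![1, 0, 0], ![0, 0, 1]]
/-- right letter codes -/
def g : Fin 4 → Fin 3 → Fin 3 := ![![2, 0, 1], ![0, 1, 1], ![0, 0, 1], ![1, 0, 0]]

def R : List (ℕ × List (Fin 3 ⊕ ℕ)) :=
  (1, []) :: (List.finRange 4).flatMap fun i => (List.finRange 3).flatMap fun x => (List.finRange 3).flatMap fun y =>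
    List.flatten [[(1, [.inl x, .inr 1])],
    (if f i x = 0 ∧ g i y = 1 then [(0, [.inl x, .inr (i.1 + 2), .inl y]), (i.1 + 2, [.inl x, .inr 1, .inl y])] else []),
    (if f i x = g i y then [(i.1 + 2, [.inl x, .inr (i.1 + 2), .inl y])] else []),
    (if f i x = 2 then [(i.1 + 2, [.inl x, .inr (i.1 + 2)])] else []),
    (if g i y = 2 then [(i.1 + 2, [.inr (i.1 + 2), .inl y])] else [])]

theorem memR (r : ℕ × List (Fin 3 ⊕ ℕ)) : r ∈ R ↔ r = (1, []) ∨ ∃ (i : Fin 4) (x y : Fin 3), r = (1, [.inl x, .inr 1]) ∨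
    ((f i x = 0 ∧ g i y = 1) ∧ (r = (0, [.inl x, .inr (i.1 + 2), .inl y]) ∨ r = (i.1 + 2, [.inl x, .inr 1, .inl y]))) ∨
    (f i x = g i y ∧ r = (i.1 + 2, [.inl x, .inr (i.1 + 2), .inl y])) ∨
    (f i x = 2 ∧ r = (i.1 + 2, [.inl x, .inr (i.1 + 2)])) ∨ (g i y = 2 ∧ r = (i.1 + 2, [.inr (i.1 + 2), .inl y])) := by
  simp only [R, List.mem_cons, List.mem_flatMap, List.mem_finRange, true_and, List.mem_append, List.mem_ite_nil_right,
    List.not_mem_nil, or_false, List.flatten_cons, List.flatten_nil]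

theorem gU (u : List (Fin 3)) : Gn R [.inr 1] u := by
  induction u with
  | nil => exact .one ((memR _).2 (.inl rfl)) .nil
  | cons x u ih => exact .one ((memR _).2 (.inr ⟨0, x, 0, .inl rfl⟩)) (ih.t x)

def ln (h : Fin 3 → Fin 3) (s : List (Fin 3)) : ℕ := s.countP fun x => h x ≠ 2
def on (h : Fin 3 → Fin 3) (s : List (Fin 3)) : ℕ := s.countP fun x => h x = 1

theorem on_le (h : Fin 3 → Fin 3) (s : List (Fin 3)) : on h s ≤ ln h s :=
  List.countP_mono_left fun x _ e => by simp_all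

def Fc (u : List (Fin 3)) : Prop := ∃ v, Gn R [.inr 0] v ∧ v <:+: u

theorem Fc.mono {u u' : List (Fin 3)} (h : Fc u) (e : u <:+: u') : Fc u' := let ⟨v, a, b⟩ := h; ⟨v, a, b.trans e⟩

theorem key (i : Fin 4) (n : ℕ) : ∀ s r : List (Fin 3), s.length + r.length = n → ln (f i) s = ln (g i) r →
    (on (f i) s + 1 ≤ on (g i) r → Gn R [.inr (i.1 + 2)] (s ++ r.reverse) ∨ Fc (s ++ r.reverse)) ∧
    (on (f i) s + 2 ≤ on (g i) r → Fc (s ++ r.reverse)) := by
  induction n using Nat.strong_induction_on with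
  | _ n ih =>
  intro s r hn hl
  rcases r with _ | ⟨y, r⟩
  · simp [on]
  rcases s with _ | ⟨x, s⟩
  · have := on_le (g i) (y :: r)
    have : ln (f i) [] = 0 := rfl
    constructor <;> intro <;> omega
  simp only [List.length_cons] at hn
  by_cases hx : f i x = 2
  · obtain ⟨i1, i2⟩ := ih _ (by simp; omega) s (y :: r) rfl (by simpa [ln, hx] using hl)
    have e : on (f i) (x :: s) = on (f i) s := by simp [on, hx]
    rw [e]
    refine ⟨fun h => (i1 h).imp (fun h => ?_) fun h => h.mono ?_, fun h => (i2 h).mono ?_⟩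
    · exact .one ((memR _).2 (.inr ⟨i, x, y, .inr (.inr (.inr (.inl ⟨hx, rfl⟩)))⟩)) (h.t x)
    all_goals exact (List.suffix_cons _ _).isInfix
  by_cases hy : g i y = 2
  · obtain ⟨i1, i2⟩ := ih _ (by simp; omega) (x :: s) r rfl (by simpa [ln, hy] using hl)
    have e : on (g i) (y :: r) = on (g i) r := by simp [on, hy]
    rw [e, List.reverse_cons, ← List.append_assoc]
    refine ⟨fun h => (i1 h).imp (fun h => ?_) fun h => h.mono ?_, fun h => (i2 h).mono ?_⟩
    · exact .one ((memR _).2 (.inr ⟨i, x, y, .inr (.inr (.inr (.inr ⟨hy, rfl⟩)))⟩)) (h.app (.t y .nil))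
    all_goals exact (List.prefix_append _ _).isInfix
  obtain ⟨i1, i2⟩ := ih _ (by omega) s r rfl (by simpa [ln, hx, hy] using hl)
  have e : x :: s ++ (y :: r).reverse = x :: (s ++ r.reverse ++ [y]) := by simp
  have inf : s ++ r.reverse <:+: x :: (s ++ r.reverse ++ [y]) := ⟨[x], [y], by simp⟩
  rw [e]
  by_cases hxy : f i x = g i y
  · have e : ∀ d, on (f i) (x :: s) + d ≤ on (g i) (y :: r) → on (f i) s + d ≤ on (g i) r := by
      intro d
      simp only [on, List.countP_cons, hxy]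
      omega
    refine ⟨fun h => (i1 (e _ h)).imp (fun h => ?_) fun h => h.mono inf, fun h => (i2 (e _ h)).mono inf⟩
    exact .one ((memR _).2 (.inr ⟨i, x, y, .inr (.inr (.inl ⟨hxy, rfl⟩))⟩)) ((h.app (.t y .nil)).t x)
  by_cases h0 : f i x = 0
  · have h1 : g i y = 1 := by omega
    refine ⟨fun _ => .inl ?_, fun h => ?_⟩
    · exact .one ((memR _).2 (.inr ⟨i, x, y, .inr (.inl ⟨⟨h0, h1⟩, .inr rfl⟩)⟩)) (((gU _).app (.t y .nil)).t x)
    · refine (i1 (by simp [on, h0, h1] at h ⊢; omega)).elim (fun h => ⟨_, ?_, List.infix_refl _⟩) fun h => h.mono inf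
      exact .one ((memR _).2 (.inr ⟨i, x, y, .inr (.inl ⟨⟨h0, h1⟩, .inl rfl⟩)⟩)) ((h.app (.t y .nil)).t x)
  · have h1 : f i x = 1 := by omega
    have h2 : g i y = 0 := by omega
    refine ⟨fun h => .inr ((i2 ?_).mono inf), fun h => (i2 ?_).mono inf⟩ <;> simp [on, h1, h2] at h ⊢ <;> omega

theorem cnt_rep (p : Fin 3 → Bool) (w : List (Fin 3)) (n : ℕ) :
    (List.replicate n w).flatten.countP p = n * w.countP p := by
  induction n with
  | zero => simp
  | succ n ih => rw [List.replicate_succ, List.flatten_cons, List.countP_append, ih]; ring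

theorem slope (w : List (Fin 3)) (i : Fin 4) (h : ln (g i) w * on (f i) w < ln (f i) w * on (g i) w) :
    ∃ n, Fc (List.replicate n w).flatten := by
  refine ⟨2 * ln (g i) w + 2 * ln (f i) w, ?_⟩
  have := (key i _ (List.replicate (2 * ln (g i) w) w).flatten (List.replicate (2 * ln (f i) w) w).flatten.reverse rfl
    (by simp only [ln, List.countP_reverse, cnt_rep]; ring)).2
    (by simp only [on, List.countP_reverse, cnt_rep]; simp only [on] at h; nlinarith)
  rwa [List.reverse_reverse, ← List.flatten_append, ← List.replicate_add] at this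

theorem irr (n : ℕ) : ∀ q r : ℕ, q + r = n → q * q + q * r = r * r → q = 0 ∧ r = 0 := by
  induction n using Nat.strong_induction_on with
  | _ n ih =>
  intro q r hn h
  rcases Nat.eq_zero_or_pos q with rfl | hq
  · simpa using h
  have : q ≤ r := by nlinarith
  obtain ⟨t, rfl⟩ := Nat.exists_eq_add_of_le this
  have := ih (t + q) (by omega) t q rfl (by nlinarith)
  omega

theorem per (w : List (Fin 3)) (hw : w ≠ []) : ∃ n, Fc (List.replicate n w).flatten := by
  by_contra hc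
  have h : ∀ i, ln (f i) w * on (g i) w ≤ ln (g i) w * on (f i) w := fun i => by
    by_contra h; exact hc (slope w i (by omega))
  have c : ∀ p : Fin 3 → Bool, w.countP p = (if p 0 then w.count 0 else 0) + (if p 1 then w.count 1 else 0) +
      (if p 2 then w.count 2 else 0) := by
    intro p
    clear hc h hw
    induction w with
    | nil => simp
    | cons x w ih =>
      rw [List.countP_cons, ih]
      fin_cases x <;> simp <;> split_ifs <;> omega
  have hl : w.length = w.count 0 + w.count 1 + w.count 2 := by simpa using c fun _ => true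
  have hp := List.length_pos_iff.mpr hw
  have h0 := h 0
  have h1 := h 1
  have h2 := h 2
  have h3 := h 3
  simp only [ln, on, c] at h0 h1 h2 h3
  simp [f, g] at h0 h1 h2 h3
  generalize w.count 0 = p at *
  generalize w.count 1 = q at *
  generalize w.count 2 = r at *
  obtain rfl : p = r := by
    rw [hl] at hp
    exact le_antisymm (Nat.le_of_mul_le_mul_left h3 hp) (Nat.le_of_mul_le_mul_left h2 hp)
  have := irr _ q p rfl (by nlinarith)
  omega

noncomputable def al : ℝ := (√5 - 1) / 2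

theorem al2 : al * al = 1 - al := by
  have := Real.mul_self_sqrt (show (0 : ℝ) ≤ 5 by norm_num)
  unfold al; nlinarith

theorem alb : 1 / 2 < al ∧ al < 1 := by
  have := al2
  have : 0 < al := by
    have : (1 : ℝ) < √5 := Real.lt_sqrt_of_sq_lt (by norm_num)
    unfold al; linarith
  constructor <;> nlinarith

noncomputable def lt (t : ℝ) : Fin 3 := if t < 1 - al then 0 else if t < al then 1 else 2
noncomputable def st (t : ℝ) : ℝ := if t < 1 - al then t + al else t + al - 1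
def I (t : ℝ) : Prop := 0 ≤ t ∧ t < 1
noncomputable def Pg (t : ℝ) : ℝ := 1 - t
noncomputable def Ph (t : ℝ) : ℝ := if t < al then t * (1 + al) else t * (1 + al) - 1
noncomputable def Pk (t : ℝ) : ℝ := if t < al then t + 1 - al else t - al
noncomputable def F : Fin 4 → ℝ → ℝ := ![Pg, Ph, id, Pk]
noncomputable def G : Fin 4 → ℝ → ℝ := ![Ph, Pg, Pk, id]
noncomputable def ga : Fin 4 → ℝ := ![al, al, 1 - al, 1 - al]
noncomputable def vl (c : ℝ) : Fin 3 → ℝ := ![-c, 1 - c, 0]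

theorem stI {t : ℝ} (h : I t) : I (st t) := by
  have := alb
  unfold I st at *; split_ifs <;> constructor <;> linarith

theorem pot {t : ℝ} (h : I t) : Pg (st t) = Pg t + vl al (![0, 1, 1] (lt t)) ∧ Ph (st t) = Ph t + vl al (![2, 0, 1] (lt t)) ∧
    st t = t + vl (1 - al) (![1, 0, 0] (lt t)) ∧ Pk (st t) = Pk t + vl (1 - al) (![0, 0, 1] (lt t)) := by
  have := alb
  have := al2
  obtain ⟨h0, h1⟩ := h
  by_cases a : t < 1 - al
  · have a' : t < al := by linarith
    have a'' : ¬ t + al < al := by linarith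
    refine ⟨?_, ?_, ?_, ?_⟩ <;> simp [Pg, Ph, Pk, st, lt, vl, a, a', a''] <;> nlinarith
  have a'' : t + al - 1 < al := by linarith
  by_cases b : t < al
  · refine ⟨?_, ?_, ?_, ?_⟩ <;> simp [Pg, Ph, Pk, st, lt, vl, a, b, a''] <;> nlinarith
  · refine ⟨?_, ?_, ?_, ?_⟩ <;> simp [Pg, Ph, Pk, st, lt, vl, a, b, a''] <;> nlinarith

theorem stF (i : Fin 4) {t : ℝ} (h : I t) : F i (st t) = F i t + vl (ga i) (f i (lt t)) ∧
    G i (st t) = G i t + vl (ga i) (g i (lt t)) := by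
  obtain ⟨a, b, c, d⟩ := pot h
  fin_cases i
  exacts [⟨a, b⟩, ⟨b, a⟩, ⟨c, d⟩, ⟨d, c⟩]

theorem rng {t : ℝ} (h : I t) : (0 ≤ Pg t ∧ Pg t ≤ 1) ∧ (0 ≤ Ph t ∧ Ph t < 1) ∧ 0 ≤ Pk t ∧ Pk t < 1 := by
  have := alb
  have := al2
  obtain ⟨h0, h1⟩ := h
  unfold Pg Ph Pk
  split_ifs <;> refine ⟨⟨?_, ?_⟩, ⟨?_, ?_⟩, ?_, ?_⟩ <;> nlinarith

theorem rngF (i : Fin 4) {t u : ℝ} (h : I t) (h' : I u) : 0 ≤ F i t + G i u ∧ F i t + G i u < 2 := by
  have := rng h
  have := rng h'
  unfold I at *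
  fin_cases i <;> simp [F, G] <;> constructor <;> linarith

def ρ : Fin 3 ⊕ ℕ → ℝ → ℝ → Prop
  | .inl x, a, b => lt a = x ∧ b = st a
  | .inr 0, a, _ => ¬ I a
  | .inr 1, a, b => I a → I b
  | .inr (n + 2), a, b => I a → I b ∧ ∀ i : Fin 4, i.1 = n → 1 ≤ F i a + G i b

theorem hR : ∀ r ∈ R, ∀ a b, Cmp ρ r.2 a b → ρ (.inr r.1) a b := by
  intro r hr a b
  obtain rfl | ⟨i, x, y, rfl | ⟨⟨h0, h1⟩, rfl | rfl⟩ | ⟨h, rfl⟩ | ⟨h, rfl⟩ | ⟨h, rfl⟩⟩ := (memR r).1 hr <;>
    simp only [Cmp, ρ]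
  · rintro rfl; exact id
  · rintro ⟨_, ⟨-, rfl⟩, _, h, rfl⟩ ha; exact h (stI ha)
  · rintro ⟨_, ⟨rfl, rfl⟩, m, h, _, ⟨rfl, rfl⟩, rfl⟩ ha
    obtain ⟨hm, h⟩ := h (stI ha)
    have := h i rfl
    have := (rngF i ha (stI hm)).2
    have := (stF i ha).1
    have := (stF i hm).2
    simp [h0, h1, vl] at *
    linarith
  · rintro ⟨_, ⟨rfl, rfl⟩, m, h, _, ⟨rfl, rfl⟩, rfl⟩ ha
    have hm := h (stI ha)
    refine ⟨stI hm, fun j hj => ?_⟩
    obtain rfl : j = i := Fin.ext hj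
    have := (rngF j (stI ha) hm).1
    have := (stF j ha).1
    have := (stF j hm).2
    simp [h0, h1, vl] at *
    linarith
  · rintro ⟨_, ⟨rfl, rfl⟩, m, h', _, ⟨rfl, rfl⟩, rfl⟩ ha
    obtain ⟨hm, h'⟩ := h' (stI ha)
    refine ⟨stI hm, fun j hj => ?_⟩
    obtain rfl : j = i := Fin.ext hj
    have := h' j rfl
    have := (stF j ha).1
    have := (stF j hm).2
    rw [h] at *
    linarith
  · rintro ⟨_, ⟨rfl, rfl⟩, m, h', rfl⟩ ha
    obtain ⟨hm, h'⟩ := h' (stI ha)
    refine ⟨hm, fun j hj => ?_⟩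
    obtain rfl : j = i := Fin.ext hj
    have := h' j rfl
    have := (stF j ha).1
    simp [h, vl] at *
    linarith
  · rintro ⟨m, h', _, ⟨rfl, rfl⟩, rfl⟩ ha
    obtain ⟨hm, h'⟩ := h' ha
    refine ⟨stI hm, fun j hj => ?_⟩
    obtain rfl : j = i := Fin.ext hj
    have := h' j rfl
    have := (stF j hm).2
    simp [h, vl] at *
    linarith

noncomputable def wd : ℕ → ℝ → List (Fin 3)
  | 0, _ => []
  | n + 1, t => lt t :: wd n (st t)

theorem wd_len (n : ℕ) (t : ℝ) : (wd n t).length = n := by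
  induction n generalizing t <;> simp_all [wd]

theorem wd_cmp (n : ℕ) (t : ℝ) : ∃ u, Cmp ρ ((wd n t).map .inl) t u := by
  induction n generalizing t with
  | zero => exact ⟨t, rfl⟩
  | succ n ih => exact let ⟨u, h⟩ := ih (st t); ⟨u, _, ⟨rfl, rfl⟩, h⟩

theorem avoid (n : ℕ) : ¬ Fc (wd n 0) := by
  rintro ⟨v, hv, p, q, e⟩
  obtain ⟨u, h⟩ := wd_cmp n 0
  rw [← e, List.map_append, List.map_append, cmp_app] at h
  obtain ⟨m, h, -⟩ := h
  obtain ⟨m', h1, h2⟩ := cmp_app.1 h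
  obtain ⟨_, h3, rfl⟩ := (gU p).sound hR _ _ h1
  obtain ⟨_, h4, -⟩ := hv.sound hR _ _ h2
  exact h4 (h3 ⟨le_rfl, one_pos⟩)

end Pool.Agent.H16.PerUn
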