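import Mathlib

set_option autoImplicit false

namespace Pool.Agent.H16.Pir

open Matrix

variable {F : Type} [Field F] {k n : ℕ}

/-- `I` is a recovery set for the `j`-th data symbol: the unit vector `e_j` is a linear
combination of the columns of `G` indexed by `I`. -/
def Recovers (G : Matrix (Fin k) (Fin n) F) (j : Fin k) (I : Set (Fin n)) : Prop :=
  ∃ u : Fin n → F, (∀ i, i ∉ I → u i = 0) ∧ G *ᵥ u = Pi.single j 1

/-- `G` is a `(t_1, …, t_k)`-PIR code: the encoder is one-to-one and the `j`-th data symbol has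
`t j` pairwise disjoint recovery sets. -/
def IsPIR (G : Matrix (Fin k) (Fin n) F) (t : Fin k → ℕ) : Prop :=
  Function.Injective (fun a : Fin k → F => a ᵥ* G) ∧
    ∀ j, ∃ R : Fin (t j) → Set (Fin n),
      Pairwise (fun a b => Disjoint (R a) (R b)) ∧ ∀ a, Recovers G j (R a)

def G0 : Matrix (Fin 5) (Fin 14) (ZMod 2) := Matrix.of
  ![![0, 0, 0, 0, 0, 0, 0, 1, 1, 1, 1, 1, 1, 1],
    ![1, 0, 0, 0, 1, 1, 1, 1, 0, 0, 0, 1, 1, 1],
    ![0, 1, 0, 0, 1, 1, 0, 0, 1, 0, 0, 1, 1, 0],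
    ![0, 0, 1, 0, 1, 0, 1, 0, 0, 1, 0, 1, 0, 1],
    ![0, 0, 0, 1, 0, 1, 1, 0, 0, 0, 1, 0, 1, 1]]

def lab : Fin 5 → Fin 14 → ℕ :=
  ![![0, 1, 2, 3, 4, 5, 6, 0, 1, 2, 3, 4, 5, 6],
    ![0, 1, 1, 2, 1, 3, 4, 7, 2, 4, 4, 3, 2, 3],
    ![1, 0, 1, 2, 1, 3, 4, 2, 7, 3, 4, 4, 2, 3],
    ![1, 1, 0, 2, 1, 3, 4, 2, 4, 7, 3, 3, 4, 2],
    ![1, 1, 2, 0, 3, 1, 4, 2, 4, 3, 7, 4, 3, 2]]

def t0 : Fin 5 → ℕ := ![7, 5, 5, 5, 5]

theorem rec0 : ∀ (j : Fin 5) (a : Fin (t0 j)) (r : Fin 5),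
    ∑ i, G0 r i * (if lab j i = a then 1 else 0) = if r = j then 1 else 0 := by decide +kernel

theorem rec1 (j : Fin 5) (a : Fin (t0 j)) : Recovers G0 j {i | lab j i = a} := by
  refine ⟨fun i => if lab j i = a then 1 else 0, fun i hi => if_neg hi, ?_⟩
  funext r
  rw [Pi.single_apply, ← rec0 j a r]
  rfl

theorem t0_pos : ∀ j, 0 < t0 j := by decide

theorem pir0 : IsPIR G0 t0 := by
  refine ⟨fun a b h => ?_, fun j => ?_⟩
  · funext j
    obtain ⟨u, -, hu⟩ := rec1 j ⟨0, t0_pos j⟩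
    have h1 : ∀ c : Fin 5 → ZMod 2, c j = (c ᵥ* G0) ⬝ᵥ u := fun c => by
      rw [← dotProduct_mulVec, hu]
      simp
    rw [h1 a, h1 b]
    exact congrArg (· ⬝ᵥ u) h
  · refine ⟨fun a : Fin (t0 j) => {i | lab j i = a}, fun a b hab => ?_, rec1 j⟩
    exact Set.disjoint_left.2 fun i h1 h2 => hab (Fin.ext (Eq.trans (Eq.symm h1) h2))

theorem sq2 : ∀ x : ZMod 2, x * x = x := by decide

theorem nopir (G : Matrix (Fin 4) (Fin 7) (ZMod 2)) : ¬ IsPIR G ![3, 3, 3, 3] := by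
  rintro ⟨-, h⟩
  have h3 : ∀ j : Fin 4, ∃ a b : Fin 7 → ZMod 2, G *ᵥ a = 0 ∧ G *ᵥ b = 0 ∧
      G *ᵥ (a * b) = Pi.single j 1 := by
    intro j
    have h' : ∃ R : Fin 3 → Set (Fin 7),
        Pairwise (fun a b => Disjoint (R a) (R b)) ∧ ∀ a, Recovers G j (R a) := by
      have := h j
      fin_cases j <;> exact this
    obtain ⟨R, hd, hr⟩ := h'
    choose u hu hG using hr
    have hz : ∀ a b, a ≠ b → u a * u b = 0 := by
      intro a b hab
      funext i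
      by_cases h1 : i ∈ R a
      · have : i ∉ R b := Set.disjoint_left.1 (hd hab) h1
        simp [hu b i this]
      · simp [hu a i h1]
    refine ⟨u 0 - u 1, u 0 - u 2, by rw [mulVec_sub, hG, hG, sub_self],
      by rw [mulVec_sub, hG, hG, sub_self], ?_⟩
    have : (u 0 - u 1) * (u 0 - u 2) = u 0 := by
      have h00 : u 0 * u 0 = u 0 := funext fun i => sq2 _
      rw [sub_mul, mul_sub, mul_sub, h00, hz 0 2 (by decide), hz 1 0 (by decide),
        hz 1 2 (by decide)]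
      simp
    rw [this, hG]
  have hsurj : LinearMap.range G.mulVecLin = ⊤ := by
    rw [eq_top_iff, ← (Pi.basisFun (ZMod 2) (Fin 4)).span_eq, Submodule.span_le]
    rintro _ ⟨j, rfl⟩
    obtain ⟨a, b, -, -, hab⟩ := h3 j
    exact ⟨a * b, by simpa using hab⟩
  have hk : Module.finrank (ZMod 2) (LinearMap.ker G.mulVecLin) = 3 := by
    have := LinearMap.finrank_range_add_finrank_ker G.mulVecLin
    rw [hsurj] at this
    simp at this
    omega
  let d := Module.finBasisOfFinrankEq (ZMod 2) _ hk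
  let w : Fin 3 → Fin 4 → ZMod 2 :=
    ![G *ᵥ ((d 0).1 * (d 1).1), G *ᵥ ((d 0).1 * (d 2).1), G *ᵥ ((d 1).1 * (d 2).1)]
  have hdd : ∀ i j, G *ᵥ ((d i).1 * (d j).1) ∈ Submodule.span (ZMod 2) (Set.range w) := by
    have hii : ∀ i, G *ᵥ ((d i).1 * (d i).1) ∈ Submodule.span (ZMod 2) (Set.range w) := by
      intro i
      have h00 : (d i).1 * (d i).1 = (d i).1 := funext fun i => sq2 _
      have h0 : G *ᵥ (d i).1 = 0 := (d i).2
      rw [h00, h0]
      exact zero_mem _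
    have h01 : G *ᵥ ((d 0).1 * (d 1).1) ∈ Submodule.span (ZMod 2) (Set.range w) :=
      Submodule.subset_span ⟨0, rfl⟩
    have h02 : G *ᵥ ((d 0).1 * (d 2).1) ∈ Submodule.span (ZMod 2) (Set.range w) :=
      Submodule.subset_span ⟨1, rfl⟩
    have h12 : G *ᵥ ((d 1).1 * (d 2).1) ∈ Submodule.span (ZMod 2) (Set.range w) :=
      Submodule.subset_span ⟨2, rfl⟩
    intro i j
    fin_cases i <;> fin_cases j
    exacts [hii 0, h01, h02, mul_comm (d 0).1 (d 1).1 ▸ h01, hii 1, h12,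
      mul_comm (d 0).1 (d 2).1 ▸ h02, mul_comm (d 1).1 (d 2).1 ▸ h12, hii 2]
  have hab : ∀ a b : LinearMap.ker G.mulVecLin,
      G *ᵥ (a.1 * b.1) ∈ Submodule.span (ZMod 2) (Set.range w) := by
    intro a b
    rw [← d.sum_repr a, ← d.sum_repr b]
    simp only [Submodule.coe_sum, Submodule.coe_smul, Finset.sum_mul, Finset.mul_sum,
      mulVec_sum, smul_mul_assoc, mul_smul_comm, mulVec_smul]
    exact Submodule.sum_mem _ fun i _ => Submodule.smul_mem _ _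
      (Submodule.sum_mem _ fun j _ => Submodule.smul_mem _ _ (hdd _ _))
  have htop : Submodule.span (ZMod 2) (Set.range w) = ⊤ := by
    rw [eq_top_iff, ← (Pi.basisFun (ZMod 2) (Fin 4)).span_eq, Submodule.span_le]
    rintro _ ⟨j, rfl⟩
    obtain ⟨a, b, ha, hb, h1⟩ := h3 j
    have := hab ⟨a, ha⟩ ⟨b, hb⟩
    rw [h1] at this
    simpa using this
  have := finrank_range_le_card (R := ZMod 2) w
  unfold Set.finrank at this
  rw [htop] at this
  simp at this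

end Pool.Agent.H16.Pir
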