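import Mathlib

set_option autoImplicit false

namespace Pool.Agent.H16.Posted

open Classical

/-- A finitely supported distribution on `[0, ∞)`: value `x i` has probability `p i`. -/
structure Dist where
  n : ℕ
  x : Fin n → ℝ
  p : Fin n → ℝ
  x_nonneg : ∀ i, 0 ≤ x i
  p_nonneg : ∀ i, 0 ≤ p i
  sum_p : ∑ i, p i = 1

/-- `o` is a utility-maximising choice of a buyer of type `(v, c)` facing the menu `M` of
lotteries (probability, price); `none` means that she declines. -/
def Best (M : Finset (ℝ × ℝ)) (v c : ℝ) : Option (ℝ × ℝ) → Prop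
  | none => ∀ m ∈ M, v * m.1 - m.2 ≤ c
  | some m => m ∈ M ∧ c ≤ v * m.1 - m.2 ∧ ∀ m' ∈ M, v * m'.1 - m'.2 ≤ v * m.1 - m.2

/-- The payment collected. -/
def pay : Option (ℝ × ℝ) → ℝ
  | none => 0
  | some m => m.2

/-- Expected payment when type `(v, c)` chooses `s v c`. -/
noncomputable def menuRev (F G : Dist) (s : ℝ → ℝ → Option (ℝ × ℝ)) : ℝ :=
  ∑ i, ∑ j, F.p i * G.p j * pay (s (F.x i) (G.x j))

/-- Revenue `P * Pr[v - P ≥ c]` of the posted price `P`. -/
noncomputable def postedRev (F G : Dist) (P : ℝ) : ℝ :=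
  P * ∑ i, ∑ j, F.p i * G.p j * if G.x j ≤ F.x i - P then 1 else 0

theorem exists_best (M : Finset (ℝ × ℝ)) (v c : ℝ) : ∃ o, Best M v c o := by
  by_cases h : ∀ m ∈ M, v * m.1 - m.2 ≤ c
  · exact ⟨none, h⟩
  · push Not at h
    obtain ⟨m, hm, hc⟩ := h
    obtain ⟨m', h1, h2⟩ := M.exists_max_image (fun m => v * m.1 - m.2) ⟨m, hm⟩
    exact ⟨some m', h1, hc.le.trans (h2 m hm), h2⟩

def t (i : ℕ) : ℝ := 4 * 2 ^ i

theorem t_ge (i : ℕ) : 4 ≤ t i := by
  have : (1 : ℝ) ≤ 2 ^ i := one_le_pow₀ (by norm_num)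
  unfold t
  linarith

theorem t_pos (i : ℕ) : 0 < t i := by linarith [t_ge i]

theorem t_lt {i j : ℕ} (h : i < j) : 2 * t i ≤ t j := by
  have : (2 : ℝ) ^ (i + 1) ≤ 2 ^ j := pow_le_pow_right₀ (by norm_num) h
  unfold t
  rw [pow_succ] at this
  linarith

theorem geo (P : ℝ) (n : ℕ) :
    ∑ i ∈ Finset.range n, (if P ≤ 3 * t i then P / t i else 0) ≤ max 0 (6 - 2 * (P / t n)) := by
  induction n with
  | zero => simp
  | succ n ih =>
    have h1 : P / t n = 2 * (P / t (n + 1)) := by
      have := t_pos n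
      unfold t at *
      field_simp
      ring
    rw [Finset.sum_range_succ]
    split_ifs with h
    · have : P / t n ≤ 3 := by rwa [div_le_iff₀ (t_pos n)]
      rw [max_eq_right (by linarith)] at ih
      exact le_max_of_le_right (by linarith)
    · have : 3 ≤ P / t n := by
        rw [le_div_iff₀ (t_pos n)]
        linarith
      rw [max_eq_left (by linarith)] at ih
      exact le_max_of_le_left (by linarith)

variable (k : ℕ)

noncomputable def D : ℝ := (k + 1) ^ 2 * t (k + 1)

theorem D_ge : 1 ≤ D k := by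
  have h1 : (1 : ℝ) ≤ (k + 1) ^ 2 := one_le_pow₀ (by linarith [(Nat.cast_nonneg k : (0 : ℝ) ≤ k)])
  have := t_ge (k + 1)
  unfold D
  nlinarith

theorem D_pos : 0 < D k := by linarith [D_ge k]

noncomputable def a (i : Fin (k + 1)) : ℝ := 1 / (t i * D k ^ (i : ℕ))

noncomputable def b (j : Fin (k + 1)) : ℝ := D k ^ (j : ℕ)

theorem a_pos (i : Fin (k + 1)) : 0 < a k i := by
  have := t_pos i
  have := D_pos k
  unfold a
  positivity

theorem b_pos (i : Fin (k + 1)) : 0 < b k i := pow_pos (D_pos k) _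

theorem sa_pos : 0 < ∑ i, a k i := Finset.sum_pos (fun i _ => a_pos k i) Finset.univ_nonempty

theorem sb_pos : 0 < ∑ i, b k i := Finset.sum_pos (fun i _ => b_pos k i) Finset.univ_nonempty

noncomputable abbrev F0 : Dist where
  n := k + 1
  x := fun i => t i ^ 2
  p := fun i => a k i / ∑ i, a k i
  x_nonneg := fun _ => sq_nonneg _
  p_nonneg := fun i => (div_pos (a_pos k i) (sa_pos k)).le
  sum_p := by rw [← Finset.sum_div, div_self (sa_pos k).ne']

noncomputable abbrev G0 : Dist where
  n := k + 1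
  x := fun i => t i ^ 2 - 2 * t i - 1
  p := fun i => b k i / ∑ i, b k i
  x_nonneg := fun i => by nlinarith [t_ge i]
  p_nonneg := fun i => (div_pos (b_pos k i) (sb_pos k)).le
  sum_p := by rw [← Finset.sum_div, div_self (sb_pos k).ne']

noncomputable def M0 : Finset (ℝ × ℝ) :=
  Finset.univ.image fun i : Fin (k + 1) => (1 - 1 / t i, t i)

noncomputable def K : ℝ := 1 / ((∑ i, a k i) * ∑ i, b k i)

theorem K_pos : 0 < K k := by
  have := sa_pos k
  have := sb_pos k
  unfold K
  positivity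

theorem pp (i j : Fin (k + 1)) : (F0 k).p i * (G0 k).p j = K k * (a k i * b k j) := by
  have := sa_pos k
  have := sb_pos k
  simp only [K]
  field_simp

theorem M0_ok : ∀ m ∈ M0 k, 0 ≤ m.1 ∧ m.1 ≤ 1 := by
  intro m hm
  obtain ⟨i, -, rfl⟩ := Finset.mem_image.1 hm
  have h1 : 0 < 1 / t i := one_div_pos.2 (t_pos i)
  have h2 : 1 / t i ≤ 1 := by
    rw [div_le_one (t_pos i)]
    linarith [t_ge i]
  constructor <;> simp only <;> linarith

theorem pay_nonneg {v c : ℝ} {o : Option (ℝ × ℝ)} (h : Best (M0 k) v c o) : 0 ≤ pay o := by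
  cases o with
  | none => exact le_rfl
  | some m =>
    obtain ⟨i, -, rfl⟩ := Finset.mem_image.1 h.1
    exact (t_pos i).le

theorem pay_diag (i : Fin (k + 1)) {o : Option (ℝ × ℝ)}
    (h : Best (M0 k) (t i ^ 2) (t i ^ 2 - 2 * t i - 1) o) : pay o = t i := by
  have hm : (1 - 1 / t i, t i) ∈ M0 k := Finset.mem_image.2 ⟨i, Finset.mem_univ _, rfl⟩
  have hu : t i ^ 2 * (1 - 1 / t i) - t i = t i ^ 2 - 2 * t i := by
    have := t_pos i
    field_simp
    ring
  cases o with
  | none =>
    have := h _ hm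
    simp only at this
    linarith
  | some m =>
    obtain ⟨j, -, rfl⟩ := Finset.mem_image.1 h.1
    have h1 := h.2.2 _ hm
    simp only at h1
    have h2 : t i ^ 2 * (1 - 1 / t j) - t j = t i ^ 2 - 2 * t i - (t i - t j) ^ 2 / t j := by
      have := t_pos j
      field_simp
      ring
    rw [hu, h2] at h1
    have h3 : (t i - t j) ^ 2 / t j ≤ 0 := by linarith
    rw [div_le_iff₀ (t_pos j), zero_mul] at h3
    have h4 : t i - t j = 0 := pow_eq_zero_iff (two_ne_zero) |>.1 (le_antisymm h3 (sq_nonneg _))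
    show t j = t i
    linarith

theorem menu_ge (s : ℝ → ℝ → Option (ℝ × ℝ)) (hs : ∀ v c, Best (M0 k) v c (s v c)) :
    (k + 1) * K k ≤ menuRev (F0 k) (G0 k) s := by
  unfold menuRev
  have : ∀ i : Fin (k + 1), K k ≤
      ∑ j, (F0 k).p i * (G0 k).p j * pay (s ((F0 k).x i) ((G0 k).x j)) := by
    intro i
    refine le_trans ?_ (Finset.single_le_sum (f := fun j =>
      (F0 k).p i * (G0 k).p j * pay (s ((F0 k).x i) ((G0 k).x j))) (fun j _ =>
        mul_nonneg (mul_nonneg ((F0 k).p_nonneg i) ((G0 k).p_nonneg j)) (pay_nonneg k (hs _ _)))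
      (Finset.mem_univ i))
    rw [pp, pay_diag k i (hs _ _)]
    have := t_pos i
    have := D_pos k
    unfold a b
    apply le_of_eq
    field_simp
  have h := Finset.sum_le_sum fun i (_ : i ∈ Finset.univ) => this i
  simpa using h

theorem term_le (P : ℝ) (hP : 0 ≤ P) (i j : Fin (k + 1)) :
    P * (a k i * b k j * if t j ^ 2 - 2 * t j - 1 ≤ t i ^ 2 - P then 1 else 0) ≤
      (if j = i then (if P ≤ 3 * t i then P / t i else 0) else 0) + 1 / (k + 1) ^ 2 := by
  have hti := t_ge i
  have htj := t_ge j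
  have hD := D_pos k
  have h0 : (0 : ℝ) ≤ 1 / (k + 1) ^ 2 := by positivity
  by_cases h : t j ^ 2 - 2 * t j - 1 ≤ t i ^ 2 - P
  · rw [if_pos h, mul_one]
    rcases lt_trichotomy j i with hji | rfl | hji
    · rw [if_neg hji.ne, zero_add]
      have h1 : P ≤ t i ^ 2 := by nlinarith
      have h2 : D k ^ (j : ℕ) * D k ≤ D k ^ (i : ℕ) := by
        rw [← pow_succ]
        exact pow_le_pow_right₀ (D_ge k) hji
      have h3 : t i ≤ t (k + 1) := by linarith [t_lt i.2]
      have h4 : a k i * b k j ≤ 1 / (t i * D k) := by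
        unfold a b
        rw [div_mul_eq_mul_div, div_le_div_iff₀ (by positivity) (by positivity)]
        nlinarith
      calc P * (a k i * b k j) ≤ t i ^ 2 * (1 / (t i * D k)) :=
            mul_le_mul h1 h4 (mul_pos (a_pos k i) (b_pos k j)).le (sq_nonneg _)
        _ = t i / D k := by field_simp
        _ ≤ t (k + 1) / D k := by gcongr
        _ = 1 / (k + 1) ^ 2 := by
            have := t_pos (k + 1)
            unfold D
            field_simp
    · rw [if_pos rfl, if_pos (by linarith)]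
      have : P * (a k j * b k j) = P / t j := by
        unfold a b
        field_simp
      linarith
    · have := t_lt (show (i : ℕ) < j from hji)
      nlinarith
  · rw [if_neg h, mul_zero, mul_zero]
    have : 0 ≤ P / t i := by positivity
    split_ifs <;> linarith

theorem posted_le (P : ℝ) (hP : 0 ≤ P) : postedRev (F0 k) (G0 k) P ≤ 7 * K k := by
  unfold postedRev
  have hpp := pp k
  simp only at hpp
  simp only [hpp, mul_assoc (K k), ← Finset.mul_sum]
  rw [mul_left_comm, mul_comm 7]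
  refine mul_le_mul_of_nonneg_left ?_ (K_pos k).le
  simp only [Finset.mul_sum]
  refine (Finset.sum_le_sum fun i _ => Finset.sum_le_sum fun j _ => term_le k P hP i j).trans ?_
  simp only [Finset.sum_add_distrib, Finset.sum_ite_eq', Finset.mem_univ, if_true,
    Finset.sum_const, Finset.card_univ, Fintype.card_fin, nsmul_eq_mul]
  rw [Fin.sum_univ_eq_sum_range (fun i => if P ≤ 3 * t i then P / t i else 0)]
  have h1 := geo P (k + 1)
  have h2 : 0 ≤ P / t (k + 1) := div_nonneg hP (t_pos _).le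
  have h3 : max 0 (6 - 2 * (P / t (k + 1))) ≤ 6 := max_le (by norm_num) (by linarith)
  have h4 : ((k + 1 : ℕ) : ℝ) * (((k + 1 : ℕ) : ℝ) * (1 / (k + 1) ^ 2)) = 1 := by
    push_cast
    field_simp
  linarith

end Pool.Agent.H16.Posted
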