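import Pool.Agent.H16.PairSieve

set_option autoImplicit false

namespace Pool.Agent.H16.PrimeRecip
open Finset

def n (A : Finset ℕ) (j u : ℕ) : ℕ := #{a ∈ A | a / 2 ^ j = u}

def d (A : Finset ℕ) (j a : ℕ) : ℕ := #{b ∈ A | a < b ∧ b / 2 ^ j = a / 2 ^ j}

def k (A : Finset ℕ) (J m a : ℕ) : ℕ :=
  Nat.findGreatest (fun j => 2 ^ j ≤ 2 ^ m * n A j (a / 2 ^ j) * j) J

theorem blk (A : Finset ℕ) (hA : ∀ p ∈ A, p.Prime) (k u j : ℕ) :
    ∑ a ∈ A with a / 2 ^ k = u, d A j a ≤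
      ∑ h ∈ Ioc 0 (2 ^ j), #{i ∈ range (2 ^ k) | (2 ^ k * u + i).Prime ∧ (2 ^ k * u + i + h).Prime} := by
  simp only [d]
  rw [← card_sigma, ← card_sigma]
  refine card_le_card_of_injOn (fun x => ⟨x.2 - x.1, x.1 % 2 ^ k⟩) ?_ ?_
  · rintro ⟨a, b⟩ h
    simp only [coe_sigma, Set.mem_sigma_iff, coe_filter, Set.mem_ofPred_eq, mem_coe, mem_Ioc, mem_range] at h ⊢
    obtain ⟨⟨h1, rfl⟩, h2, h3, h4⟩ := h
    rw [Nat.div_add_mod, Nat.add_sub_cancel' h3.le]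
    have e1 := Nat.div_add_mod a (2 ^ j)
    have e2 := Nat.div_add_mod b (2 ^ j)
    have e3 := Nat.mod_lt b (Nat.two_pow_pos j)
    rw [h4] at e2
    exact ⟨⟨by omega, by omega⟩, Nat.mod_lt _ (Nat.two_pow_pos k), hA a h1, hA b h2⟩
  · rintro ⟨a, b⟩ h ⟨a', b'⟩ h' e
    simp only [coe_sigma, Set.mem_sigma_iff, coe_filter, Set.mem_ofPred_eq, Sigma.mk.injEq, heq_eq_eq] at h h' e ⊢
    have e1 := Nat.div_add_mod a (2 ^ k)
    have e2 := Nat.div_add_mod a' (2 ^ k)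
    rw [h.1.2] at e1
    rw [h'.1.2] at e2
    omega

theorem fib (A : Finset ℕ) (J m a0 a : ℕ) :
    (k A J m a, a / 2 ^ k A J m a) = (k A J m a0, a0 / 2 ^ k A J m a0) ↔
      a / 2 ^ k A J m a0 = a0 / 2 ^ k A J m a0 := by
  rw [Prod.mk.injEq]
  refine ⟨fun h => h.1 ▸ h.2, fun h => ?_⟩
  have h1 : ∀ j, k A J m a0 ≤ j → a / 2 ^ j = a0 / 2 ^ j := fun j hj => by
    obtain ⟨c, rfl⟩ := Nat.exists_eq_add_of_le hj
    rw [pow_add, ← Nat.div_div_eq_div_mul, ← Nat.div_div_eq_div_mul, h]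
  have h2 : k A J m a = k A J m a0 := by
    obtain ⟨s1, s2, s3⟩ := Nat.findGreatest_eq_iff.mp (show k A J m a0 = k A J m a0 from rfl)
    refine Nat.findGreatest_eq_iff.mpr ⟨s1, fun e => ?_, fun j e1 e2 => ?_⟩
    · rw [h]; exact s2 e
    · rw [h1 j e1.le]; exact s3 e1 e2
  rw [h2]
  exact ⟨rfl, h⟩

theorem low : ∃ C : ℝ, 0 < C ∧ ∀ A : Finset ℕ, (∀ p ∈ A, p.Prime) → ∀ J m : ℕ,
    ∑ a ∈ A, ∑ j ∈ Ioc 0 (k A J m a / 4 ^ m), (d A j a : ℝ) / 2 ^ j ≤ C / 2 ^ m * #A := by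
  obtain ⟨C, hC, h⟩ := PairSieve.pair
  refine ⟨C, hC, fun A hA J m => ?_⟩
  rw [← sum_fiberwise_of_maps_to (g := fun a => (k A J m a, a / 2 ^ k A J m a))
    fun a ha => mem_image_of_mem _ ha, card_eq_sum_card_image (fun a => (k A J m a, a / 2 ^ k A J m a)) A,
    Nat.cast_sum, mul_sum]
  refine sum_le_sum fun b hb => ?_
  obtain ⟨a0, -, rfl⟩ := mem_image.mp hb
  rw [sum_congr rfl fun a ha => by rw [(Prod.mk.inj (mem_filter.mp ha).2).1]]
  simp only [fib]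
  have h1 := fun e => (Nat.findGreatest_eq_iff.mp (show k A J m a0 = k A J m a0 from rfl)).2.1 e
  set K := k A J m a0
  rcases Nat.eq_zero_or_pos K with e | e
  · simp only [e, Nat.zero_div, Ioc_self, sum_empty, sum_const_zero]
    positivity
  have h2 : (2 : ℝ) ^ K ≤ 2 ^ m * #{a ∈ A | a / 2 ^ K = a0 / 2 ^ K} * K := by exact_mod_cast h1 e.ne'
  have h3 : ∀ j ∈ Ioc 0 (K / 4 ^ m), ∑ a ∈ A with a / 2 ^ K = a0 / 2 ^ K, (d A j a : ℝ) / 2 ^ j ≤
      C * 2 ^ K / K ^ 2 := fun j _ => by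
    rw [← sum_div, div_le_div_iff₀ (by positivity) (by positivity)]
    have h4 := h K (2 ^ K * (a0 / 2 ^ K)) (2 ^ j)
    have h5 := (Nat.cast_le (α := ℝ)).mpr (blk A hA K (a0 / 2 ^ K) j)
    push_cast at h4 h5
    have := mul_le_mul_of_nonneg_right h5 (sq_nonneg (K : ℝ))
    linarith
  rw [sum_comm]
  refine (sum_le_card_nsmul _ _ _ h3).trans ?_
  rw [Nat.card_Ioc, Nat.sub_zero, nsmul_eq_mul]
  refine (mul_le_mul_of_nonneg_right Nat.cast_div_le (by positivity)).trans ?_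
  rw [div_mul_div_comm, div_mul_eq_mul_div, div_le_div_iff₀ (by positivity) (by positivity)]
  have := mul_le_mul_of_nonneg_left h2 (show 0 ≤ K * C * 2 ^ m by positivity)
  push_cast
  rw [show (4 : ℝ) ^ m = 2 ^ m * 2 ^ m by rw [← mul_pow]; norm_num]
  linarith

theorem harm (K m : ℕ) : ∑ j ∈ Ioc (K / 4 ^ m) K, (j : ℝ)⁻¹ ≤ 1 + 2 * m := by
  rcases Nat.eq_zero_or_pos K with e | e
  · simp only [e, Nat.zero_div, Ioc_self, sum_empty]
    positivity
  have h1 := harmonic_le_one_add_log K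
  have h2 := log_add_one_le_harmonic (K / 4 ^ m)
  rw [harmonic_eq_sum_Icc] at h1 h2
  have h3 := sum_Ioc_consecutive (fun j : ℕ => (j : ℝ)⁻¹) (Nat.zero_le (K / 4 ^ m)) (Nat.div_le_self _ _)
  have h4 : Real.log K ≤ m * Real.log 4 + Real.log (K / 4 ^ m + 1 : ℕ) := by
    rw [← Real.log_pow, ← Real.log_mul (by positivity) (by positivity)]
    exact Real.log_le_log (by positivity) (by exact_mod_cast (Nat.lt_mul_div_succ K (by positivity)).le)
  have h5 : Real.log 4 ≤ 2 := by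
    rw [show (4 : ℝ) = 2 ^ 2 by norm_num, Real.log_pow]
    have := Real.log_two_lt_d9
    push_cast
    linarith
  have h6 := mul_le_mul_of_nonneg_left h5 m.cast_nonneg
  push_cast at h1 h2 h4
  simp only [← Icc_add_one_left_eq_Ioc, zero_add] at h3 ⊢
  linarith

theorem split (A : Finset ℕ) (J a : ℕ) (ha : a ∈ A) :
    ∑ j ∈ Ioc 0 J, (d A j a : ℝ) / 2 ^ j ≤ ∑ m ∈ range (J + 1),
      (∑ j ∈ Ioc 0 (k A J m a / 4 ^ m), (d A j a : ℝ) / 2 ^ j + 2 * ((1 + 2 * m) / 2 ^ m)) := by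
  have h1 : ∀ m ∈ range (J + 1), ∑ j ∈ Ioc 0 J, ((if j ∈ Ioc 0 (k A J m a / 4 ^ m) then (d A j a : ℝ) / 2 ^ j else 0) +
      if j ∈ Ioc (k A J m a / 4 ^ m) (k A J m a) then 2 / 2 ^ m * (j : ℝ)⁻¹ else 0) ≤
      ∑ j ∈ Ioc 0 (k A J m a / 4 ^ m), (d A j a : ℝ) / 2 ^ j + 2 * ((1 + 2 * m) / 2 ^ m) := fun m _ => by
    rw [sum_add_distrib, sum_ite_mem, sum_ite_mem, ← mul_sum]
    refine add_le_add (sum_le_sum_of_subset_of_nonneg inter_subset_right fun _ _ _ => by positivity) ?_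
    refine (mul_le_mul_of_nonneg_left ((sum_le_sum_of_subset_of_nonneg inter_subset_right
      fun _ _ _ => by positivity).trans (harm _ m)) (by positivity)).trans_eq (by ring)
  refine le_trans ?_ (sum_le_sum h1)
  rw [sum_comm]
  refine sum_le_sum fun j hj => ?_
  obtain ⟨j0, j1⟩ := mem_Ioc.mp hj
  have hn : 0 < n A j (a / 2 ^ j) := card_pos.mpr ⟨a, mem_filter.mpr ⟨ha, rfl⟩⟩
  have hj' : 2 ^ j ≤ 2 ^ j * n A j (a / 2 ^ j) * j := by
    rw [mul_assoc]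
    exact Nat.le_mul_of_pos_right _ (by positivity)
  have hex : ∃ m, 2 ^ j ≤ 2 ^ m * n A j (a / 2 ^ j) * j := ⟨j, hj'⟩
  have h2 := Nat.find_min' hex hj'
  have h3 : j ≤ k A J (Nat.find hex) a := Nat.le_findGreatest j1 (Nat.find_spec hex)
  refine le_trans ?_ (single_le_sum (a := Nat.find hex) (fun m _ => by positivity) (mem_range.mpr (by omega)))
  by_cases e : j ≤ k A J (Nat.find hex) a / 4 ^ Nat.find hex
  · rw [if_pos (mem_Ioc.mpr ⟨j0, e⟩)]
    exact le_add_of_nonneg_right (by positivity)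
  · rw [if_neg fun h => e (mem_Ioc.mp h).2, if_pos (mem_Ioc.mpr ⟨not_le.mp e, h3⟩), zero_add]
    obtain ⟨m, hm⟩ : ∃ m, Nat.find hex = m + 1 := Nat.exists_eq_succ_of_ne_zero fun h => e (by
      rw [h] at h3 ⊢; simpa using h3)
    have h4 := not_le.mp (Nat.find_min hex (show m < Nat.find hex by omega))
    have h5 : d A j a ≤ n A j (a / 2 ^ j) := card_le_card (monotone_filter_right _ fun b _ hb => hb.2)
    have h6 : (2 : ℝ) ^ m * d A j a * j ≤ 2 ^ j := by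
      exact_mod_cast le_trans (by gcongr) h4.le
    rw [hm, ← div_eq_mul_inv, div_div, div_le_div_iff₀ (by positivity) (by positivity), pow_succ]
    linarith

theorem geo (M : ℕ) : ∑ m ∈ range M, (1 + 2 * m : ℝ) / 2 ^ m = 6 - (4 * M + 6) / 2 ^ M ∧
    ∑ m ∈ range M, (1 : ℝ) / 2 ^ m = 2 - 2 / 2 ^ M := by
  induction M with
  | zero => norm_num
  | succ M ih =>
    rw [sum_range_succ, sum_range_succ, ih.1, ih.2]
    push_cast
    constructor <;> field_simp <;> ring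

theorem tau : ∃ C : ℝ, 0 < C ∧ ∀ A : Finset ℕ, (∀ p ∈ A, p.Prime) → ∀ J : ℕ,
    ∑ a ∈ A, ∑ j ∈ Ioc 0 J, (d A j a : ℝ) / 2 ^ j ≤ C * #A := by
  obtain ⟨C, hC, h⟩ := low
  refine ⟨2 * C + 12, by positivity, fun A hA J => (sum_le_sum (split A J)).trans ?_⟩
  rw [sum_comm]
  simp only [sum_add_distrib, sum_const, nsmul_eq_mul, ← mul_sum]
  refine (add_le_add_left (sum_le_sum fun m _ => h A hA J m) _).trans ?_
  rw [sum_congr rfl fun m _ => show C / 2 ^ m * #A = C * #A * (1 / 2 ^ m) by ring, ← mul_sum,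
    (geo _).1, (geo _).2]
  have : 0 ≤ C * #A * (2 / 2 ^ (J + 1)) := by positivity
  have : (0 : ℝ) ≤ #A * ((4 * (J + 1 : ℕ) + 6) / 2 ^ (J + 1)) := by positivity
  linarith

theorem diag (A : Finset ℕ) (j : ℕ) : ∑ a ∈ A, n A j (a / 2 ^ j) = #A + 2 * ∑ a ∈ A, d A j a := by
  have h1 : ∑ a ∈ A, d A j a = ∑ a ∈ A, #{b ∈ A | b < a ∧ b / 2 ^ j = a / 2 ^ j} := by
    simp only [d, card_filter]
    rw [sum_comm]
    simp only [eq_comm]
  rw [two_mul]
  nth_rw 2 [h1]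
  rw [card_eq_sum_ones, ← sum_add_distrib, ← sum_add_distrib]
  refine sum_congr rfl fun a ha => ?_
  rw [show 1 = ∑ b ∈ A, if a = b then 1 else 0 by simp [ha]]
  simp only [n, d, card_filter, ← sum_add_distrib]
  refine sum_congr rfl fun b _ => ?_
  rcases lt_trichotomy a b with h | rfl | h
  · simp [h, h.ne, h.not_gt]
  · simp
  · simp [h, h.ne', h.not_gt]

theorem shift (A : Finset ℕ) (j : ℕ) : ∑ a ∈ A, n A j (a / 2 ^ j + 1) ≤ ∑ a ∈ A, n A j (a / 2 ^ j) := by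
  have h1 : ∀ (c : ℕ) (F : ℕ → ℕ), ∑ a ∈ A, F (a / 2 ^ j) = ∑ u ∈ range (A.sup id + 1 + c), n A j u * F u :=
    fun c F => by
      rw [← sum_fiberwise_of_maps_to (g := fun a => a / 2 ^ j) (t := range (A.sup id + 1 + c)) fun a ha =>
        mem_range.mpr (by have := le_sup (f := id) ha; have := Nat.div_le_self a (2 ^ j); simp only [id] at *; omega)]
      refine sum_congr rfl fun u _ => ?_
      rw [sum_congr rfl fun a ha => by rw [(mem_filter.mp ha).2], sum_const, smul_eq_mul, n]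
  have h2 := h1 0 (n A j)
  have h3 := h1 1 (n A j)
  rw [sum_range_succ'] at h3
  have h4 := sum_le_sum (s := range (A.sup id + 1)) (f := fun u => 2 * (n A j u * n A j (u + 1)))
    (g := fun u => n A j u * n A j u + n A j (u + 1) * n A j (u + 1)) fun u _ => by
      zify
      nlinarith [sq_nonneg ((n A j u : ℤ) - n A j (u + 1))]
  rw [← mul_sum, sum_add_distrib] at h4
  rw [h1 0 fun u => n A j (u + 1)]
  simp only [add_zero] at *
  omega

theorem main : ∃ c : ℝ, ∀ s : Finset ℕ, s.Nonempty → (∀ p ∈ s, Nat.Prime p) →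
    (∑ p ∈ s, ∑ q ∈ s.filter (fun q => p < q), (1 : ℝ) / ((q : ℝ) - (p : ℝ))) < c * (s.card : ℝ) := by
  obtain ⟨C, hC, h⟩ := tau
  refine ⟨8 * C + 9, fun A h0 hA => ?_⟩
  have h1 : ∀ a ∈ A, ∑ b ∈ A with a < b, (1 : ℝ) / (b - a) ≤
      ∑ j ∈ Ioc 0 (A.sup id), (2 : ℝ) / 2 ^ j * (n A j (a / 2 ^ j) + n A j (a / 2 ^ j + 1) : ℕ) := fun a _ => by
    simp only [n, card_filter, ← sum_add_distrib, Nat.cast_sum, mul_sum]
    rw [sum_comm]
    refine (sum_le_sum fun b hb => ?_).trans (sum_le_sum_of_subset_of_nonneg (filter_subset _ _)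
      fun _ _ _ => by positivity)
    obtain ⟨b1, b2⟩ := mem_filter.mp hb
    obtain ⟨c, rfl⟩ := Nat.exists_eq_add_of_le b2.le
    have c0 : c ≠ 0 := by omega
    have e1 := Nat.log_lt_self 2 c0
    have e2 := le_sup (f := id) b1
    have e3 : c < 2 ^ (Nat.log 2 c + 1) := Nat.lt_pow_succ_log_self one_lt_two c
    have e4 : (2 : ℝ) ^ Nat.log 2 c ≤ c := by exact_mod_cast Nat.pow_log_le_self 2 c0
    refine le_trans ?_ (single_le_sum (a := Nat.log 2 c + 1) (fun _ _ => by positivity)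
      (mem_Ioc.mpr ⟨by omega, by simp only [id] at e2; omega⟩))
    have e5 := Nat.div_le_div_right (c := 2 ^ (Nat.log 2 c + 1)) (Nat.le_add_right a c)
    have e6 := Nat.div_le_div_right (c := 2 ^ (Nat.log 2 c + 1)) (Nat.add_le_add_left e3.le a)
    rw [Nat.add_div_right _ (by positivity)] at e6
    refine le_trans ?_ (le_mul_of_one_le_right (by positivity) (by
      exact_mod_cast (by split_ifs <;> omega)))
    rw [Nat.cast_add, add_sub_cancel_left, div_le_div_iff₀ (by positivity) (by positivity), pow_succ]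
    linarith
  refine (sum_le_sum h1).trans_lt ?_
  rw [sum_comm]
  have h2 : ∀ j ∈ Ioc 0 (A.sup id), ∑ a ∈ A, (2 : ℝ) / 2 ^ j * (n A j (a / 2 ^ j) + n A j (a / 2 ^ j + 1) : ℕ) ≤
      4 * #A * (1 / 2 ^ j) + 8 * ∑ a ∈ A, (d A j a : ℝ) / 2 ^ j := fun j _ => by
    rw [← mul_sum, ← Nat.cast_sum, sum_add_distrib, ← sum_div, ← Nat.cast_sum]
    have e := (Nat.cast_le (α := ℝ)).mpr (Nat.add_le_add_left (shift A j) (∑ a ∈ A, n A j (a / 2 ^ j)))
    refine (mul_le_mul_of_nonneg_left e (by positivity)).trans_eq ?_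
    rw [diag]
    push_cast
    ring
  refine (sum_le_sum h2).trans_lt ?_
  rw [sum_add_distrib, ← mul_sum, ← mul_sum, sum_comm]
  have h3 := h A hA (A.sup id)
  have h4 : ∑ j ∈ Ioc 0 (A.sup id), (1 : ℝ) / 2 ^ j ≤ 2 :=
    (sum_le_sum_of_subset_of_nonneg (fun j hj => mem_range.mpr (Nat.lt_succ_of_le (mem_Ioc.mp hj).2))
      fun _ _ _ => by positivity).trans ((geo _).2.trans_le (sub_le_self _ (by positivity)))
  have h5 : (0 : ℝ) < #A := by exact_mod_cast card_pos.mpr h0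
  nlinarith

end Pool.Agent.H16.PrimeRecip
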