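import Pool.Agent.H16.PseudoDefs

namespace H16.Pseudo

def cov : List (List ℕ) → List ℕ → Bool
  | [], _ => true
  | r :: L, S => r.any (fun u => decide (u ∈ S) && cov L (S.erase u))

lemma cov_of (opt : ℕ × ℕ → List ℕ) (sv : ℕ → ℕ × ℕ → Prop)
    (hf : ∀ u j j', sv u j → sv u j' → j = j') :
    ∀ L : List (ℕ × ℕ), L.Nodup → ∀ S : List ℕ,
      (∀ j ∈ L, ∃ u ∈ opt j, u ∈ S ∧ sv u j) → cov (L.map opt) S = true := by
  intro L
  induction L with
  | nil => intro _ S _; rfl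
  | cons j L ih =>
    intro hn S h
    rw [List.nodup_cons] at hn
    obtain ⟨u, hu, hS, hs⟩ := h j (by simp)
    simp only [List.map_cons, cov, List.any_eq_true, Bool.and_eq_true, decide_eq_true_eq]
    refine ⟨u, hu, hS, ih hn.2 _ ?_⟩
    intro k hk
    obtain ⟨w, hw, hwS, hws⟩ := h k (by simp [hk])
    refine ⟨w, hw, ?_, hws⟩
    have : w ≠ u := by
      rintro rfl
      exact hn.1 (hf _ _ _ hs hws ▸ hk)
    exact (List.mem_erase_of_ne this).2 hwS

def GE : List (ℕ × ℕ) := [(0, 4), (0, 6), (0, 8), (0, 9), (1, 3), (1, 4), (1, 5), (2, 5), (2, 6),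
  (3, 4), (3, 5), (3, 7), (3, 8), (4, 8), (5, 6), (5, 7), (6, 7), (6, 9), (7, 8), (7, 9), (8, 9)]

def ph (x y z b i : ℕ) : ℕ := if i = 0 then x else if i = 1 then y else if i = 2 then z else b + i - 3

lemma gdec : ∀ b0 b2 b3 b4 b5 b6 b7 b8 b9 : Bool, b0 ≠ b2 →
    cov ((GE.filter (fun e => [b0, b0, b2, b3, b4, b5, b6, b7, b8, b9].getD e.1 false ==
      [b0, b0, b2, b3, b4, b5, b6, b7, b8, b9].getD e.2 false)).map (fun e => [e.1, e.2]))
      [3, 4, 5, 6, 7, 8, 9] = false := by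
  decide +kernel

lemma GE_prop : ∀ e ∈ GE, e.1 < e.2 ∧ 3 ≤ e.2 ∧ e.2 < 10 := by decide

lemma gadget (c : ℕ → Bool) (a : ℕ → ℕ) (x y z b : ℕ) (hx : x < 7) (hy : y < 7) (hz : z < 7)
    (hb : 7 ≤ b) (hxy : x ≠ y) (hxz : x ≠ z) (hyz : y ≠ z)
    (hg : ∀ e ∈ GE, c (ph x y z b e.1) = c (ph x y z b e.2) →
      a (ph x y z b e.1) = ph x y z b e.2 ∨ a (ph x y z b e.2) = ph x y z b e.1)
    (h1 : c x = c y) (h2 : c x ≠ c z) : ∃ o ∈ [x, y, z], b ≤ a o ∧ a o < b + 7 := by
  by_contra hn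
  push Not at hn
  have inj : ∀ i j, i < 10 → j < 10 → ph x y z b i = ph x y z b j → i = j := by
    intro i j hi hj h
    unfold ph at h
    split_ifs at h <;> omega
  have hd := gdec (c x) (c z) (c b) (c (b + 1)) (c (b + 2)) (c (b + 3)) (c (b + 4)) (c (b + 5))
    (c (b + 6)) h2
  have hcol : ∀ i, i < 10 → [c x, c x, c z, c b, c (b + 1), c (b + 2), c (b + 3), c (b + 4),
      c (b + 5), c (b + 6)].getD i false = c (ph x y z b i) := by
    intro i hi
    interval_cases i <;> simp [ph, h1]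
  have ht := cov_of (fun e => [e.1, e.2]) (fun u e => e.1 < e.2 ∧ e.2 < 10 ∧
      ((u = e.1 ∧ a (ph x y z b e.1) = ph x y z b e.2) ∨
        (u = e.2 ∧ a (ph x y z b e.2) = ph x y z b e.1)))
    (by
      rintro u ⟨p, q⟩ ⟨p', q'⟩ ⟨k1, k2, k3⟩ ⟨k4, k5, k6⟩
      simp only at k1 k2 k3 k4 k5 k6
      rcases k3 with ⟨rfl, k3⟩ | ⟨rfl, k3⟩ <;> rcases k6 with ⟨rfl, k6⟩ | ⟨rfl, k6⟩ <;>
        have := inj _ _ (by omega) (by omega) (k3.symm.trans k6) <;>
        first | (subst this; rfl) | omega)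
    (GE.filter (fun e => [c x, c x, c z, c b, c (b + 1), c (b + 2), c (b + 3), c (b + 4),
      c (b + 5), c (b + 6)].getD e.1 false == [c x, c x, c z, c b, c (b + 1), c (b + 2), c (b + 3),
      c (b + 4), c (b + 5), c (b + 6)].getD e.2 false))
    (List.Nodup.filter _ (by decide)) [3, 4, 5, 6, 7, 8, 9]
    (by
      intro e he
      rw [List.mem_filter] at he
      obtain ⟨he, hc⟩ := he
      obtain ⟨k1, k2, k3⟩ := GE_prop e he
      rw [hcol _ (by omega), hcol _ k3, beq_iff_eq] at hc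
      rcases hg e he hc with h | h
      · refine ⟨e.1, by simp, ?_, k1, k3, Or.inl ⟨rfl, h⟩⟩
        by_contra hm
        have k4 : e.1 < 3 := by
          simp only [List.mem_cons, List.not_mem_nil, or_false] at hm; omega
        have k5 : ph x y z b e.1 ∈ [x, y, z] := by
          unfold ph; split_ifs <;> first | omega | simp
        have k6 := hn _ k5
        rw [h] at k6
        unfold ph at k6
        split_ifs at k6 <;> omega
      · refine ⟨e.2, by simp, ?_, k1, k3, Or.inr ⟨rfl, h⟩⟩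
        simp only [List.mem_cons, List.not_mem_nil, or_false]; omega)
  rw [hd] at ht
  exact absurd ht (by simp)

def X : List (ℕ × ℕ) := [
  (0,400), (18400,600), (8400,17400), (9000,6600), (9600,2600), (12000,8000), (6000,7600), (10320,837),
  (8952,644), (10624,1228), (6624,1195), (7956,958), (6496,764), (5176,823), (12521,3810), (13648,3380),
  (11698,3630), (13581,2410), (13418,2930), (14533,2580), (15024,2140), (5805,3737), (4629,3302), (6864,3628),
  (4932,2275), (5046,2839), (3864,2444), (3483,2005), (12526,9932), (13534,8557), (12274,9752), (14342,6261),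
  (13810,7557), (14700,6397), (15362,5134), (9246,10759), (8904,11929), (9897,9844), (9735,12206), (9411,11944),
  (9021,13147), (9114,13689), (12896,4627), (13786,3744), (12432,5553), (14500,4233), (14029,4169), (14857,3309),
  (15479,3028), (5034,9797), (4188,8505), (5406,9586), (3612,5980), (3972,7277), (3216,6266), (2646,4890),
  (8334,10638), (8511,11957), (7821,9802), (7665,12080), (8022,11749), (8232,13004), (8100,13525), (5250,4492),
  (4455,3699), (5640,5328), (3705,4041), (4125,3947), (3345,3103), (2790,2874)]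

def C0 : List ((ℕ × ℕ) × (ℕ × ℕ) × (ℕ × ℕ)) := [
  ((0,1),(0,400),(18400,600)), ((0,2),(0,400),(8400,17400)), ((0,3),(0,400),(9000,6600)),
  ((1,2),(18400,600),(8400,17400)), ((1,3),(18400,600),(9000,6600)), ((2,3),(8400,17400),(9000,6600)),
  ((0,4),(0,400),(9600,2600)), ((1,4),(18400,600),(9600,2600)), ((3,4),(9000,6600),(9600,2600)),
  ((1,5),(18400,600),(12000,8000)), ((2,5),(8400,17400),(12000,8000)), ((3,5),(9000,6600),(12000,8000)),
  ((0,6),(0,400),(6000,7600)), ((2,6),(8400,17400),(6000,7600)), ((3,6),(9000,6600),(6000,7600)),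
  ((0,8),(0,400),(8952,644)), ((0,10),(0,400),(6624,1195))]

def C1 : List ((ℕ × ℕ) × (ℕ × ℕ) × (ℕ × ℕ)) := [
  ((0,12),(0,400),(6496,764)), ((0,13),(0,400),(5176,823)), ((1,7),(18400,600),(10320,837)),
  ((1,8),(18400,600),(8952,644)), ((1,9),(18400,600),(10624,1228)), ((4,9),(9600,2600),(10624,1228)),
  ((4,10),(9600,2600),(6624,1195)), ((7,8),(10320,837),(8952,644)), ((7,9),(10320,837),(10624,1228)),
  ((7,11),(10320,837),(7956,958)), ((7,12),(10320,837),(6496,764)), ((8,12),(8952,644),(6496,764)),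
  ((9,10),(10624,1228),(6624,1195)), ((9,11),(10624,1228),(7956,958)), ((10,11),(6624,1195),(7956,958)),
  ((10,13),(6624,1195),(5176,823)), ((11,12),(7956,958),(6496,764))]

def C2 : List ((ℕ × ℕ) × (ℕ × ℕ) × (ℕ × ℕ)) := [
  ((11,13),(7956,958),(5176,823)), ((12,13),(6496,764),(5176,823)), ((1,15),(18400,600),(13648,3380)),
  ((1,17),(18400,600),(13581,2410)), ((1,19),(18400,600),(14533,2580)), ((1,20),(18400,600),(15024,2140)),
  ((3,14),(9000,6600),(12521,3810)), ((3,15),(9000,6600),(13648,3380)), ((3,16),(9000,6600),(11698,3630)),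
  ((4,16),(9600,2600),(11698,3630)), ((4,17),(9600,2600),(13581,2410)), ((14,15),(12521,3810),(13648,3380)),
  ((14,16),(12521,3810),(11698,3630)), ((14,18),(12521,3810),(13418,2930)), ((14,19),(12521,3810),(14533,2580)),
  ((15,19),(13648,3380),(14533,2580)), ((16,17),(11698,3630),(13581,2410))]

def C3 : List ((ℕ × ℕ) × (ℕ × ℕ) × (ℕ × ℕ)) := [
  ((16,18),(11698,3630),(13418,2930)), ((17,18),(13581,2410),(13418,2930)), ((17,20),(13581,2410),(15024,2140)),
  ((18,19),(13418,2930),(14533,2580)), ((18,20),(13418,2930),(15024,2140)), ((19,20),(14533,2580),(15024,2140)),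
  ((0,22),(0,400),(4629,3302)), ((0,24),(0,400),(4932,2275)), ((0,26),(0,400),(3864,2444)),
  ((0,27),(0,400),(3483,2005)), ((3,21),(9000,6600),(5805,3737)), ((3,22),(9000,6600),(4629,3302)),
  ((3,23),(9000,6600),(6864,3628)), ((4,23),(9600,2600),(6864,3628)), ((4,24),(9600,2600),(4932,2275)),
  ((21,22),(5805,3737),(4629,3302)), ((21,23),(5805,3737),(6864,3628))]

def C4 : List ((ℕ × ℕ) × (ℕ × ℕ) × (ℕ × ℕ)) := [
  ((21,25),(5805,3737),(5046,2839)), ((21,26),(5805,3737),(3864,2444)), ((22,26),(4629,3302),(3864,2444)),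
  ((23,24),(6864,3628),(4932,2275)), ((23,25),(6864,3628),(5046,2839)), ((24,25),(4932,2275),(5046,2839)),
  ((24,27),(4932,2275),(3483,2005)), ((25,26),(5046,2839),(3864,2444)), ((25,27),(5046,2839),(3483,2005)),
  ((26,27),(3864,2444),(3483,2005)), ((1,29),(18400,600),(13534,8557)), ((1,31),(18400,600),(14342,6261)),
  ((1,33),(18400,600),(14700,6397)), ((1,34),(18400,600),(15362,5134)), ((2,28),(8400,17400),(12526,9932)),
  ((2,29),(8400,17400),(13534,8557)), ((2,30),(8400,17400),(12274,9752))]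

def C5 : List ((ℕ × ℕ) × (ℕ × ℕ) × (ℕ × ℕ)) := [
  ((5,30),(12000,8000),(12274,9752)), ((5,31),(12000,8000),(14342,6261)), ((28,29),(12526,9932),(13534,8557)),
  ((28,30),(12526,9932),(12274,9752)), ((28,32),(12526,9932),(13810,7557)), ((28,33),(12526,9932),(14700,6397)),
  ((29,33),(13534,8557),(14700,6397)), ((30,31),(12274,9752),(14342,6261)), ((30,32),(12274,9752),(13810,7557)),
  ((31,32),(14342,6261),(13810,7557)), ((31,34),(14342,6261),(15362,5134)), ((32,33),(13810,7557),(14700,6397)),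
  ((32,34),(13810,7557),(15362,5134)), ((33,34),(14700,6397),(15362,5134)), ((2,36),(8400,17400),(8904,11929)),
  ((2,38),(8400,17400),(9735,12206)), ((2,40),(8400,17400),(9021,13147))]

def C6 : List ((ℕ × ℕ) × (ℕ × ℕ) × (ℕ × ℕ)) := [
  ((2,41),(8400,17400),(9114,13689)), ((3,35),(9000,6600),(9246,10759)), ((3,36),(9000,6600),(8904,11929)),
  ((3,37),(9000,6600),(9897,9844)), ((5,37),(12000,8000),(9897,9844)), ((5,38),(12000,8000),(9735,12206)),
  ((35,36),(9246,10759),(8904,11929)), ((35,37),(9246,10759),(9897,9844)), ((35,39),(9246,10759),(9411,11944)),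
  ((35,40),(9246,10759),(9021,13147)), ((36,40),(8904,11929),(9021,13147)), ((37,38),(9897,9844),(9735,12206)),
  ((37,39),(9897,9844),(9411,11944)), ((38,39),(9735,12206),(9411,11944)), ((38,41),(9735,12206),(9114,13689)),
  ((39,40),(9411,11944),(9021,13147)), ((39,41),(9411,11944),(9114,13689))]

def C7 : List ((ℕ × ℕ) × (ℕ × ℕ) × (ℕ × ℕ)) := [
  ((40,41),(9021,13147),(9114,13689)), ((1,43),(18400,600),(13786,3744)), ((1,45),(18400,600),(14500,4233)),
  ((1,47),(18400,600),(14857,3309)), ((1,48),(18400,600),(15479,3028)), ((3,42),(9000,6600),(12896,4627)),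
  ((3,43),(9000,6600),(13786,3744)), ((3,44),(9000,6600),(12432,5553)), ((5,44),(12000,8000),(12432,5553)),
  ((5,45),(12000,8000),(14500,4233)), ((42,43),(12896,4627),(13786,3744)), ((42,44),(12896,4627),(12432,5553)),
  ((42,46),(12896,4627),(14029,4169)), ((42,47),(12896,4627),(14857,3309)), ((43,47),(13786,3744),(14857,3309)),
  ((44,45),(12432,5553),(14500,4233)), ((44,46),(12432,5553),(14029,4169))]

def C8 : List ((ℕ × ℕ) × (ℕ × ℕ) × (ℕ × ℕ)) := [
  ((45,46),(14500,4233),(14029,4169)), ((45,48),(14500,4233),(15479,3028)), ((46,47),(14029,4169),(14857,3309)),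
  ((46,48),(14029,4169),(15479,3028)), ((47,48),(14857,3309),(15479,3028)), ((0,50),(0,400),(4188,8505)),
  ((0,52),(0,400),(3612,5980)), ((0,54),(0,400),(3216,6266)), ((0,55),(0,400),(2646,4890)),
  ((2,49),(8400,17400),(5034,9797)), ((2,50),(8400,17400),(4188,8505)), ((2,51),(8400,17400),(5406,9586)),
  ((6,51),(6000,7600),(5406,9586)), ((6,52),(6000,7600),(3612,5980)), ((49,50),(5034,9797),(4188,8505)),
  ((49,51),(5034,9797),(5406,9586)), ((49,53),(5034,9797),(3972,7277))]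

def C9 : List ((ℕ × ℕ) × (ℕ × ℕ) × (ℕ × ℕ)) := [
  ((49,54),(5034,9797),(3216,6266)), ((50,54),(4188,8505),(3216,6266)), ((51,52),(5406,9586),(3612,5980)),
  ((51,53),(5406,9586),(3972,7277)), ((52,53),(3612,5980),(3972,7277)), ((52,55),(3612,5980),(2646,4890)),
  ((53,54),(3972,7277),(3216,6266)), ((53,55),(3972,7277),(2646,4890)), ((54,55),(3216,6266),(2646,4890)),
  ((2,57),(8400,17400),(8511,11957)), ((2,59),(8400,17400),(7665,12080)), ((2,61),(8400,17400),(8232,13004)),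
  ((2,62),(8400,17400),(8100,13525)), ((3,56),(9000,6600),(8334,10638)), ((3,57),(9000,6600),(8511,11957)),
  ((3,58),(9000,6600),(7821,9802)), ((6,58),(6000,7600),(7821,9802))]

def C10 : List ((ℕ × ℕ) × (ℕ × ℕ) × (ℕ × ℕ)) := [
  ((6,59),(6000,7600),(7665,12080)), ((56,57),(8334,10638),(8511,11957)), ((56,58),(8334,10638),(7821,9802)),
  ((56,60),(8334,10638),(8022,11749)), ((56,61),(8334,10638),(8232,13004)), ((57,61),(8511,11957),(8232,13004)),
  ((58,59),(7821,9802),(7665,12080)), ((58,60),(7821,9802),(8022,11749)), ((59,60),(7665,12080),(8022,11749)),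
  ((59,62),(7665,12080),(8100,13525)), ((60,61),(8022,11749),(8232,13004)), ((60,62),(8022,11749),(8100,13525)),
  ((61,62),(8232,13004),(8100,13525)), ((0,64),(0,400),(4455,3699)), ((0,66),(0,400),(3705,4041)),
  ((0,68),(0,400),(3345,3103)), ((0,69),(0,400),(2790,2874))]

def C11 : List ((ℕ × ℕ) × (ℕ × ℕ) × (ℕ × ℕ)) := [
  ((3,63),(9000,6600),(5250,4492)), ((3,64),(9000,6600),(4455,3699)), ((3,65),(9000,6600),(5640,5328)),
  ((6,65),(6000,7600),(5640,5328)), ((6,66),(6000,7600),(3705,4041)), ((63,64),(5250,4492),(4455,3699)),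
  ((63,65),(5250,4492),(5640,5328)), ((63,67),(5250,4492),(4125,3947)), ((63,68),(5250,4492),(3345,3103)),
  ((64,68),(4455,3699),(3345,3103)), ((65,66),(5640,5328),(3705,4041)), ((65,67),(5640,5328),(4125,3947)),
  ((66,67),(3705,4041),(4125,3947)), ((66,69),(3705,4041),(2790,2874)), ((67,68),(4125,3947),(3345,3103)),
  ((67,69),(4125,3947),(2790,2874)), ((68,69),(3345,3103),(2790,2874))]

def EC : List ((ℕ × ℕ) × (ℕ × ℕ) × (ℕ × ℕ)) :=
  C0 ++ C1 ++ C2 ++ C3 ++ C4 ++ C5 ++ C6 ++ C7 ++ C8 ++ C9 ++ C10 ++ C11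

def E : List (ℕ × ℕ) := EC.map Prod.fst

def pos (i : ℕ) : ℕ × ℕ := X.getD i (0, 0)

def GT (j : ℕ) : ℕ × ℕ × ℕ := [(0,1,4), (1,3,4), (0,3,4), (1,2,5), (2,3,5), (1,3,5), (0,2,6), (2,3,6), (0,3,6)].getD j (0, 1, 2)

def BE : List (ℕ × ℕ) := [(0,1),(0,2),(0,3),(1,2),(1,3),(2,3),(0,4),(1,4),(3,4),(1,5),(2,5),(3,5),
  (0,6),(2,6),(3,6)]

def GLs : List (ℕ × ℕ) := (List.range 9).map (fun j => (j, 100))

def opt (e : ℕ × ℕ) : List ℕ :=
  if e.2 = 100 then [(GT e.1).1, (GT e.1).2.1, (GT e.1).2.2] else [e.1, e.2]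

def act (col : ℕ → Bool) (e : ℕ × ℕ) : Bool :=
  if e.2 = 100 then (col (GT e.1).1 == col (GT e.1).2.1) && (col (GT e.1).1 != col (GT e.1).2.2)
  else col e.1 == col e.2

lemma bdec : ∀ b0 b1 b2 b3 b4 b5 b6 : Bool,
    cov (((BE ++ GLs).filter (act (fun i => [b0, b1, b2, b3, b4, b5, b6].getD i false))).map opt)
      [0, 1, 2, 3, 4, 5, 6] = false := by
  decide +kernel

lemma BE_prop : ∀ e ∈ BE, e.1 < e.2 ∧ e.2 < 7 ∧ e ∈ E := by decide +kernel

lemma GT_prop : ∀ j < 9, (GT j).1 < 7 ∧ (GT j).2.1 < 7 ∧ (GT j).2.2 < 7 ∧ (GT j).1 ≠ (GT j).2.1 ∧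
    (GT j).1 ≠ (GT j).2.2 ∧ (GT j).2.1 ≠ (GT j).2.2 ∧ ∀ e ∈ GE,
      (ph (GT j).1 (GT j).2.1 (GT j).2.2 (7 + 7 * j) e.1,
        ph (GT j).1 (GT j).2.1 (GT j).2.2 (7 + 7 * j) e.2) ∈ E := by decide +kernel

lemma comb (c : ℕ → Bool) (a : ℕ → ℕ)
    (h : ∀ e ∈ E, c e.1 = c e.2 → a e.1 = e.2 ∨ a e.2 = e.1) : False := by
  have hd := bdec (c 0) (c 1) (c 2) (c 3) (c 4) (c 5) (c 6)
  have hcol : ∀ i, i < 7 → [c 0, c 1, c 2, c 3, c 4, c 5, c 6].getD i false = c i := by
    intro i hi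
    interval_cases i <;> simp
  have ht := cov_of opt (fun u e => (e.2 = 100 ∧ 7 + 7 * e.1 ≤ a u ∧ a u < 7 + 7 * e.1 + 7) ∨
      (e.1 < e.2 ∧ e.2 < 7 ∧ ((u = e.1 ∧ a u = e.2) ∨ (u = e.2 ∧ a u = e.1))))
    (by
      rintro u ⟨p, q⟩ ⟨p', q'⟩ k1 k2
      simp only [Prod.mk.injEq] at k1 k2 ⊢
      omega)
    ((BE ++ GLs).filter (act (fun i => [c 0, c 1, c 2, c 3, c 4, c 5, c 6].getD i false)))
    (List.Nodup.filter _ (by decide +kernel)) [0, 1, 2, 3, 4, 5, 6]
    (by
      intro e he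
      rw [List.mem_filter, List.mem_append] at he
      obtain ⟨he | he, hc⟩ := he
      · obtain ⟨k1, k2, k3⟩ := BE_prop e he
        have k4 : e.2 ≠ 100 := by omega
        simp only [act, k4, if_false] at hc
        rw [hcol _ (by omega), hcol _ k2, beq_iff_eq] at hc
        rcases h e k3 hc with h' | h'
        · refine ⟨e.1, by simp [opt, k4], ?_, Or.inr ⟨k1, k2, Or.inl ⟨rfl, h'⟩⟩⟩
          simp only [List.mem_cons, List.not_mem_nil, or_false]; omega
        · refine ⟨e.2, by simp [opt, k4], ?_, Or.inr ⟨k1, k2, Or.inr ⟨rfl, h'⟩⟩⟩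
          simp only [List.mem_cons, List.not_mem_nil, or_false]; omega
      · simp only [GLs, List.mem_map, List.mem_range] at he
        obtain ⟨j, hj, rfl⟩ := he
        obtain ⟨k1, k2, k3, k4, k5, k6, k7⟩ := GT_prop j hj
        simp only [act, if_true] at hc
        rw [hcol _ k1, hcol _ k2, hcol _ k3, Bool.and_eq_true, beq_iff_eq, bne_iff_ne] at hc
        obtain ⟨o, ho, h1, h2⟩ := gadget c a _ _ _ (7 + 7 * j) k1 k2 k3 (by omega) k4 k5 k6
          (fun e he => h _ (k7 e he)) hc.1 hc.2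
        refine ⟨o, by simpa [opt] using ho, ?_, Or.inl ⟨rfl, h1, h2⟩⟩
        simp only [List.mem_cons, List.not_mem_nil, or_false] at ho ⊢
        omega)
  rw [hd] at ht
  exact absurd ht (by simp)

def lf (a b c : ℕ × ℕ) : ℕ := a.1 * b.2 + b.1 * c.2 + c.1 * a.2
def rf (a b c : ℕ × ℕ) : ℕ := a.2 * b.1 + b.2 * c.1 + c.2 * a.1

def cond2 (l1 r1 l2 r2 : ℕ) : Bool :=
  (Nat.ble r1 l1 && Nat.ble r2 l2 && Nat.ble (r1 + r2 + 1) (l1 + l2)) ||
    (Nat.ble l1 r1 && Nat.ble l2 r2 && Nat.ble (l1 + l2 + 1) (r1 + r2))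

def sep (a b x y : ℕ × ℕ) : Bool := cond2 (lf a b x) (rf a b x) (lf a b y) (rf a b y)

def Pc (e : (ℕ × ℕ) × (ℕ × ℕ) × (ℕ × ℕ)) : Bool :=
  EC.all (fun f => sep e.2.1 e.2.2 f.2.1 f.2.2 || sep f.2.1 f.2.2 e.2.1 e.2.2 || e.1 == f.1)

def Qc (e : (ℕ × ℕ) × (ℕ × ℕ) × (ℕ × ℕ)) : Bool :=
  (List.range 70).all (fun w => w == e.1.1 || w == e.1.2 ||
    lf e.2.1 e.2.2 (pos w) != rf e.2.1 e.2.2 (pos w))

lemma p0 : C0.all Pc = true := by decide +kernel
lemma q0 : C0.all Qc = true := by decide +kernel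
lemma p1 : C1.all Pc = true := by decide +kernel
lemma q1 : C1.all Qc = true := by decide +kernel
lemma p2 : C2.all Pc = true := by decide +kernel
lemma q2 : C2.all Qc = true := by decide +kernel
lemma p3 : C3.all Pc = true := by decide +kernel
lemma q3 : C3.all Qc = true := by decide +kernel
lemma p4 : C4.all Pc = true := by decide +kernel
lemma q4 : C4.all Qc = true := by decide +kernel
lemma p5 : C5.all Pc = true := by decide +kernel
lemma q5 : C5.all Qc = true := by decide +kernel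
lemma p6 : C6.all Pc = true := by decide +kernel
lemma q6 : C6.all Qc = true := by decide +kernel
lemma p7 : C7.all Pc = true := by decide +kernel
lemma q7 : C7.all Qc = true := by decide +kernel
lemma p8 : C8.all Pc = true := by decide +kernel
lemma q8 : C8.all Qc = true := by decide +kernel
lemma p9 : C9.all Pc = true := by decide +kernel
lemma q9 : C9.all Qc = true := by decide +kernel
lemma p10 : C10.all Pc = true := by decide +kernel
lemma q10 : C10.all Qc = true := by decide +kernel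
lemma p11 : C11.all Pc = true := by decide +kernel
lemma q11 : C11.all Qc = true := by decide +kernel

lemma chk1 : EC.all Pc = true := by
  simp only [EC, List.all_append, Bool.and_self, p0, p1, p2, p3, p4, p5, p6, p7, p8, p9, p10, p11]

lemma chk2 : EC.all Qc = true := by
  simp only [EC, List.all_append, Bool.and_self, q0, q1, q2, q3, q4, q5, q6, q7, q8, q9, q10, q11]

lemma chk3 : EC.all (fun e => e.2.1 == pos e.1.1 && e.2.2 == pos e.1.2 && decide (e.1.1 < 70) &&
    decide (e.1.2 < 70) && e.1.1 != e.1.2) = true := by decide +kernel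

lemma chk4 : (List.range 70).all (fun u => (List.range 70).all (fun v =>
    u == v || pos u != pos v)) = true := by decide +kernel

noncomputable def pt (a : ℕ × ℕ) : ℝ × ℝ := (a.1, a.2)

noncomputable def seg (a b : ℕ × ℕ) (s : ℝ) : ℝ × ℝ :=
  ((1 - s) * a.1 + s * b.1, (1 - s) * a.2 + s * b.2)

lemma seg_rev (a b : ℕ × ℕ) (s : ℝ) : seg b a s = seg a b (1 - s) := by
  unfold seg; ext <;> simp only <;> ring

lemma sep_ok (a b x y : ℕ × ℕ) (h : sep a b x y = true) (s t : ℝ) (ht : t ∈ Set.Ioo (0 : ℝ) 1) :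
    seg a b s ≠ seg x y t := by
  intro he
  have e1 := congrArg Prod.fst he
  have e2 := congrArg Prod.snd he
  simp only [seg] at e1 e2
  have k : (1 - t) * ((lf a b x : ℝ) - rf a b x) + t * ((lf a b y : ℝ) - rf a b y) = 0 := by
    unfold lf rf; push_cast
    linear_combination ((b.2 : ℝ) - a.2) * e1 - ((b.1 : ℝ) - a.1) * e2
  simp only [sep, cond2, Bool.or_eq_true, Bool.and_eq_true, Nat.ble_eq] at h
  obtain ⟨t0, t1⟩ := ht
  have t2 : 0 < 1 - t := by linarith
  generalize lf a b x = l1 at *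
  generalize rf a b x = r1 at *
  generalize lf a b y = l2 at *
  generalize rf a b y = r2 at *
  rcases h with ⟨⟨h1, h2⟩, h3⟩ | ⟨⟨h1, h2⟩, h3⟩
  · have g1 : (r1 : ℝ) ≤ l1 := by exact_mod_cast h1
    have g2 : (r2 : ℝ) ≤ l2 := by exact_mod_cast h2
    have g3 : (r1 : ℝ) + r2 + 1 ≤ l1 + l2 := by exact_mod_cast h3
    have m1 := mul_nonneg t2.le (sub_nonneg.2 g1)
    have m2 := mul_nonneg t0.le (sub_nonneg.2 g2)
    have z1 : (l1 : ℝ) - r1 = 0 := by
      rcases mul_eq_zero.1 (show (1 - t) * ((l1 : ℝ) - r1) = 0 by linarith) with h | h <;> linarith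
    have z2 : (l2 : ℝ) - r2 = 0 := by
      rcases mul_eq_zero.1 (show t * ((l2 : ℝ) - r2) = 0 by linarith) with h | h <;> linarith
    linarith
  · have g1 : (l1 : ℝ) ≤ r1 := by exact_mod_cast h1
    have g2 : (l2 : ℝ) ≤ r2 := by exact_mod_cast h2
    have g3 : (l1 : ℝ) + l2 + 1 ≤ r1 + r2 := by exact_mod_cast h3
    have m1 := mul_nonpos_of_nonneg_of_nonpos t2.le (sub_nonpos.2 g1)
    have m2 := mul_nonpos_of_nonneg_of_nonpos t0.le (sub_nonpos.2 g2)
    have z1 : (l1 : ℝ) - r1 = 0 := by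
      rcases mul_eq_zero.1 (show (1 - t) * ((l1 : ℝ) - r1) = 0 by linarith) with h | h <;> linarith
    have z2 : (l2 : ℝ) - r2 = 0 := by
      rcases mul_eq_zero.1 (show t * ((l2 : ℝ) - r2) = 0 by linarith) with h | h <;> linarith
    linarith

lemma E_prop (e : ℕ × ℕ) (he : e ∈ E) : (e, pos e.1, pos e.2) ∈ EC ∧ e.1 < 70 ∧ e.2 < 70 ∧
    e.1 ≠ e.2 := by
  obtain ⟨f, hf, rfl⟩ := List.mem_map.1 he
  have := List.all_eq_true.1 chk3 f hf
  simp only [Bool.and_eq_true, beq_iff_eq, decide_eq_true_eq, bne_iff_ne] at this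
  obtain ⟨⟨⟨⟨h1, h2⟩, h3⟩, h4⟩, h5⟩ := this
  refine ⟨?_, h3, h4, h5⟩
  rw [← h1, ← h2]; exact hf

lemma cross (e f : ℕ × ℕ) (he : e ∈ E) (hf : f ∈ E) (hne : e ≠ f) (s t : ℝ)
    (hs : s ∈ Set.Ioo (0 : ℝ) 1) (ht : t ∈ Set.Ioo (0 : ℝ) 1) :
    seg (pos e.1) (pos e.2) s ≠ seg (pos f.1) (pos f.2) t := by
  have := List.all_eq_true.1 (List.all_eq_true.1 chk1 _ (E_prop e he).1) _ (E_prop f hf).1
  simp only [Bool.or_eq_true, beq_iff_eq] at this
  rcases this with (h | h) | h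
  · exact sep_ok _ _ _ _ h s t ht
  · exact (sep_ok _ _ _ _ h t s hs).symm
  · exact absurd h hne

lemma pos_inj (u v : ℕ) (hu : u < 70) (hv : v < 70) (h : pos u = pos v) : u = v := by
  have := List.all_eq_true.1 (List.all_eq_true.1 chk4 u (List.mem_range.2 hu)) v
    (List.mem_range.2 hv)
  simp only [Bool.or_eq_true, beq_iff_eq, bne_iff_ne] at this
  exact this.resolve_right (fun k => k h)

lemma seg_inj (a b : ℕ × ℕ) (h : a ≠ b) : Function.Injective (seg a b) := by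
  intro s t he
  have e1 := congrArg Prod.fst he
  have e2 := congrArg Prod.snd he
  simp only [seg] at e1 e2
  by_contra hst
  have hst' : s - t ≠ 0 := sub_ne_zero.2 hst
  apply h
  have k1 : (s - t) * ((b.1 : ℝ) - a.1) = 0 := by linear_combination e1
  have k2 : (s - t) * ((b.2 : ℝ) - a.2) = 0 := by linear_combination e2
  have k3 := (mul_eq_zero.1 k1).resolve_left hst'
  have k4 := (mul_eq_zero.1 k2).resolve_left hst'
  ext
  · exact_mod_cast (sub_eq_zero.1 k3).symm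
  · exact_mod_cast (sub_eq_zero.1 k4).symm

lemma seg0 (a b : ℕ × ℕ) : seg a b 0 = pt a := by simp [seg, pt]
lemma seg1 (a b : ℕ × ℕ) : seg a b 1 = pt b := by simp [seg, pt]

lemma avoid (e : ℕ × ℕ) (he : e ∈ E) (w : ℕ) (hw : w < 70) (t : ℝ) (ht : t ∈ Set.Ioo (0 : ℝ) 1) :
    seg (pos e.1) (pos e.2) t ≠ pt (pos w) := by
  obtain ⟨k1, k2, k3, k4⟩ := E_prop e he
  have hne : pos e.1 ≠ pos e.2 := fun h => k4 (pos_inj _ _ k2 k3 h)
  have := List.all_eq_true.1 (List.all_eq_true.1 chk2 _ k1) w (List.mem_range.2 hw)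
  simp only [Bool.or_eq_true, beq_iff_eq, bne_iff_ne] at this
  intro h
  rcases this with (h' | h') | h'
  · rw [h', ← seg0 _ (pos e.2)] at h
    exact ht.1.ne' (seg_inj _ _ hne h)
  · rw [h', ← seg1 (pos e.1)] at h
    exact ht.2.ne (seg_inj _ _ hne h)
  · apply h'
    have e1 := congrArg Prod.fst h
    have e2 := congrArg Prod.snd h
    simp only [seg, pt] at e1 e2
    have k : (lf (pos e.1) (pos e.2) (pos w) : ℝ) = rf (pos e.1) (pos e.2) (pos w) := by
      unfold lf rf; push_cast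
      linear_combination (((pos e.2).2 : ℝ) - (pos e.1).2) * e1 -
        (((pos e.2).1 : ℝ) - (pos e.1).1) * e2
    exact_mod_cast k

def G0 : SimpleGraph (Fin 70) := SimpleGraph.fromRel (fun u v => (u.val, v.val) ∈ E)

lemma flip {t : ℝ} (ht : t ∈ Set.Ioo (0 : ℝ) 1) : 1 - t ∈ Set.Ioo (0 : ℝ) 1 :=
  ⟨by linarith [ht.2], by linarith [ht.1]⟩

lemma planar0 : Planar G0 := by
  refine ⟨fun u => pt (pos u), fun u v => seg (pos u) (pos v), ?_, ?_, ?_⟩
  · intro u v h
    have e1 := congrArg Prod.fst h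
    have e2 := congrArg Prod.snd h
    simp only [pt, Nat.cast_inj] at e1 e2
    exact Fin.ext (pos_inj _ _ u.2 v.2 (Prod.ext e1 e2))
  · intro u v h
    rw [G0, SimpleGraph.fromRel_adj] at h
    have hne : pos u ≠ pos v := fun k => h.1 (Fin.ext (pos_inj _ _ u.2 v.2 k))
    refine ⟨?_, (seg_inj _ _ hne).injOn, seg0 _ _, seg1 _ _, fun t => seg_rev _ _ t, ?_⟩
    · apply Continuous.continuousOn; unfold seg; fun_prop
    · intro w t ht
      rcases h.2 with k | k
      · exact avoid _ k w w.2 t ht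
      · simp only; rw [seg_rev]; exact avoid _ k w w.2 _ (flip ht)
  · intro u v x y h1 h2 hne s hs t ht
    rw [G0, SimpleGraph.fromRel_adj] at h1 h2
    have n1 : (u.val, v.val) ≠ (x.val, y.val) := by
      intro k; simp only [Prod.mk.injEq, Fin.val_inj] at k; exact hne (by rw [k.1, k.2])
    have n2 : (u.val, v.val) ≠ (y.val, x.val) := by
      intro k; simp only [Prod.mk.injEq, Fin.val_inj] at k
      exact hne (by rw [k.1, k.2, Sym2.eq_swap])
    have n3 : (v.val, u.val) ≠ (x.val, y.val) := by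
      intro k; simp only [Prod.mk.injEq, Fin.val_inj] at k
      exact hne (by rw [k.1, k.2, Sym2.eq_swap])
    have n4 : (v.val, u.val) ≠ (y.val, x.val) := by
      intro k; simp only [Prod.mk.injEq, Fin.val_inj] at k; exact hne (by rw [k.1, k.2])
    simp only
    rcases h1.2 with k1 | k1 <;> rcases h2.2 with k2 | k2
    · exact cross _ _ k1 k2 n1 s t hs ht
    · rw [seg_rev (pos y)]; exact cross _ _ k1 k2 n2 s _ hs (flip ht)
    · rw [seg_rev (pos v)]; exact cross _ _ k1 k2 n3 _ t (flip hs) ht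
    · rw [seg_rev (pos v), seg_rev (pos y)]; exact cross _ _ k1 k2 n4 _ _ (flip hs) (flip ht)

theorem main : ∃ G : SimpleGraph (Fin 70), MaxPlanar G ∧ ∀ D, IsOrientation G D →
    ∃ v, 2 ≤ {w | D v w}.ncard ∧ 2 ≤ {w | D w v}.ncard := by
  classical
  obtain ⟨G, hG, hmax⟩ := Finite.exists_le_maximal (p := Planar) planar0
  refine ⟨G, ⟨hmax.prop, ?_⟩, ?_⟩
  · intro u v huv hn hp
    have := hmax.2 hp le_sup_left
    exact hn (this (Or.inr ((SimpleGraph.edge_adj _ _ _ _).2 ⟨Or.inl ⟨rfl, rfl⟩, huv⟩)))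
  · intro D hD
    by_contra hn
    push Not at hn
    have one : ∀ (s : Set (Fin 70)), s.ncard ≤ 1 → ∃ a, ∀ w ∈ s, w = a := by
      intro s hs
      rw [Set.ncard_le_one] at hs
      rcases s.eq_empty_or_nonempty with h | ⟨a, ha⟩
      · exact ⟨0, by simp [h]⟩
      · exact ⟨a, fun w hw => hs w hw a ha⟩
    have ch : ∀ v : Fin 70, ∃ (cv : Bool) (av : Fin 70), (cv = true → ∀ w, D v w → w = av) ∧
        (cv = false → ∀ w, D w v → w = av) := by
      intro v
      by_cases h : 2 ≤ {w | D v w}.ncard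
      · obtain ⟨a, ha⟩ := one _ (Nat.lt_succ_iff.1 (hn v h))
        exact ⟨false, a, by simp, fun _ w hw => ha w hw⟩
      · obtain ⟨a, ha⟩ := one {w | D v w} (by omega)
        exact ⟨true, a, fun _ w hw => ha w hw, by simp⟩
    choose C A hC using ch
    apply comb (fun n => if h : n < 70 then C ⟨n, h⟩ else true)
      (fun n => if h : n < 70 then (A ⟨n, h⟩).val else 0)
    intro e he hc
    obtain ⟨-, k2, k3, k4⟩ := E_prop e he
    simp only [k2, k3, dif_pos] at hc ⊢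
    have hadj : G.Adj ⟨e.1, k2⟩ ⟨e.2, k3⟩ := by
      apply hG
      rw [G0, SimpleGraph.fromRel_adj]
      exact ⟨fun k => k4 (congrArg Fin.val k), Or.inl he⟩
    have hor := hD.2 _ _ hadj
    by_cases hd : D ⟨e.1, k2⟩ ⟨e.2, k3⟩
    · cases hcv : C ⟨e.1, k2⟩
      · right; rw [← (hC ⟨e.2, k3⟩).2 (hc ▸ hcv) _ hd]
      · left; rw [← (hC ⟨e.1, k2⟩).1 hcv _ hd]
    · have hd' : D ⟨e.2, k3⟩ ⟨e.1, k2⟩ := by
        by_contra k; exact hd (hor.2 k)
      cases hcv : C ⟨e.1, k2⟩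
      · left; rw [← (hC ⟨e.1, k2⟩).2 hcv _ hd']
      · right; rw [← (hC ⟨e.2, k3⟩).1 (hc ▸ hcv) _ hd']

end H16.Pseudo
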