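import Mathlib

namespace H16.Pseudo

/-- A plane drawing: distinct points for the vertices, a simple arc for every edge, no arc passes
through a vertex in its interior and the interiors of the arcs of different edges are disjoint. -/
def Planar {V : Type} (G : SimpleGraph V) : Prop :=
  ∃ (p : V → ℝ × ℝ) (γ : V → V → ℝ → ℝ × ℝ), Function.Injective p ∧
    (∀ u v, G.Adj u v → ContinuousOn (γ u v) (Set.Icc 0 1) ∧ Set.InjOn (γ u v) (Set.Icc 0 1) ∧
      γ u v 0 = p u ∧ γ u v 1 = p v ∧ (∀ t, γ v u t = γ u v (1 - t)) ∧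
      ∀ w, ∀ t ∈ Set.Ioo (0 : ℝ) 1, γ u v t ≠ p w) ∧
    ∀ u v x y, G.Adj u v → G.Adj x y → s(u, v) ≠ s(x, y) →
      ∀ s ∈ Set.Ioo (0 : ℝ) 1, ∀ t ∈ Set.Ioo (0 : ℝ) 1, γ u v s ≠ γ x y t

/-- Planar, and no edge can be added with the graph staying planar. -/
def MaxPlanar {V : Type} (G : SimpleGraph V) : Prop :=
  Planar G ∧ ∀ u v, u ≠ v → ¬ G.Adj u v → ¬ Planar (G ⊔ SimpleGraph.edge u v)

/-- `D u v` means that the edge `uv` is directed from `u` to `v`. -/
def IsOrientation {V : Type} (G : SimpleGraph V) (D : V → V → Prop) : Prop :=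
  (∀ u v, D u v → G.Adj u v) ∧ ∀ u v, G.Adj u v → (D u v ↔ ¬ D v u)

end H16.Pseudo
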