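import Mathlib

set_option autoImplicit false

namespace Pool.Agent.H16.QuadCF

theorem step (D : ℕ) (m P Q a P' Q' : ℤ) (hm : m ^ 2 < D) (hm' : (D : ℤ) < (m + 1) ^ 2) (hm0 : 0 ≤ m)
    (hQ : 0 < Q) (h1 : a * Q ≤ P + m) (h2 : P + m + 1 ≤ (a + 1) * Q) (h3 : P' = a * Q - P)
    (h4 : Q * Q' = D - P' ^ 2) :
    ⌊((P : ℝ) + √(D : ℝ)) / Q⌋ = a ∧
      (Int.fract (((P : ℝ) + √(D : ℝ)) / Q))⁻¹ = ((P' : ℝ) + √(D : ℝ)) / Q' := by
  have hs : √(D : ℝ) ^ 2 = D := Real.sq_sqrt (by positivity)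
  have hmr : (0 : ℝ) ≤ m := by exact_mod_cast hm0
  have l1 : (m : ℝ) < √(D : ℝ) := Real.lt_sqrt_of_sq_lt (by exact_mod_cast hm)
  have l2 : √(D : ℝ) < m + 1 := by
    rw [Real.sqrt_lt' (by positivity)]; exact_mod_cast hm'
  have hQr : (0 : ℝ) < Q := by exact_mod_cast hQ
  have h1r : (a : ℝ) * Q ≤ P + m := by exact_mod_cast h1
  have h2r : (P : ℝ) + m + 1 ≤ (a + 1) * Q := by exact_mod_cast h2
  have h3r : (P' : ℝ) = a * Q - P := by exact_mod_cast h3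
  have h4r : (Q : ℝ) * Q' = D - P' ^ 2 := by exact_mod_cast h4
  have hf : ⌊((P : ℝ) + √(D : ℝ)) / Q⌋ = a := by
    rw [Int.floor_eq_iff, le_div_iff₀ hQr, div_lt_iff₀ hQr]
    constructor <;> linarith
  refine ⟨hf, ?_⟩
  have hfr : Int.fract (((P : ℝ) + √(D : ℝ)) / Q) = (√(D : ℝ) - P') / Q := by
    rw [Int.fract, hf, h3r]; field_simp; ring
  have hpos : 0 < √(D : ℝ) - P' := by linarith
  have hne : (P' : ℝ) + √(D : ℝ) ≠ 0 := by
    intro h
    have e : √(D : ℝ) = ((-P' : ℤ) : ℝ) := by push_cast; linarith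
    rw [e] at l1 l2
    have a1 : m < -P' := by exact_mod_cast l1
    have a2 : -P' < m + 1 := by exact_mod_cast l2
    omega
  have hQ' : (Q' : ℝ) ≠ 0 := by
    intro h
    rw [h, mul_zero] at h4r
    have : (√(D : ℝ) - P') * (P' + √(D : ℝ)) = 0 := by nlinarith
    rcases mul_eq_zero.mp this with h | h
    · linarith
    · exact hne h
  rw [hfr, inv_div, div_eq_div_iff hpos.ne' hQ']
  nlinarith

end Pool.Agent.H16.QuadCF
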