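import Mathlib

set_option autoImplicit false

namespace Pool.Agent.H16.Quat
open Polynomial Finset

theorem bd (d : ℕ → ℤ) (h : ∀ i, |d i| ≤ 4) (D : ℤ) (h' : ∀ i, |d i| ≤ D) (K : ℕ) :
    15 * |∑ i ∈ range K, d i * 16 ^ i| ≤ D * (16 ^ K - 1) := by
  induction K with
  | zero => simp
  | succ K ih =>
    rw [sum_range_succ, pow_succ]
    have := abs_add_le (∑ i ∈ range K, d i * 16 ^ i) (d K * 16 ^ K)
    rw [abs_mul, abs_of_pos (show (0 : ℤ) < 16 ^ K by positivity)] at this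
    nlinarith [mul_le_mul_of_nonneg_right (h' K) (show (0 : ℤ) ≤ 16 ^ K by positivity)]

theorem uq {x y m : ℤ} (h : m ∣ x - y) (h1 : 2 * |x| < m) (h2 : 2 * |y| < m) : x = y :=
  sub_eq_zero.1 (Int.eq_zero_of_abs_lt_dvd h (by have := abs_sub x y; omega))

theorem tr (d : ℕ → ℤ) {K L : ℕ} (h : K ≤ L) :
    (16 : ℤ) ^ K ∣ ∑ i ∈ range K, d i * 16 ^ i - ∑ i ∈ range L, d i * 16 ^ i := by
  rw [← dvd_neg, neg_sub, ← sum_Ico_eq_sub _ h]
  exact dvd_sum fun i hi => (pow_dvd_pow _ (mem_Ico.1 hi).1).mul_left _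

theorem hQ {P Q : ℤ[X]} {n : ℕ} (h1 : P * Q = X ^ n - 1) (hn : 0 < n) : Q.natDegree ≤ n := by
  have h0 : (X ^ n - 1 : ℤ[X]) ≠ 0 := X_pow_sub_C_ne_zero hn 1
  have := natDegree_le_of_dvd (Dvd.intro_left _ h1) h0
  rwa [← C_1, natDegree_X_pow_sub_C] at this

theorem cb {F P Q : ℤ[X]} {n s : ℕ} (h1 : P * Q = X ^ n - 1) (h2 : expand ℤ s P = F * P) (hn : 0 < n)
    (hs : n < s) (hc : ∀ i, |F.coeff i| ≤ 2) (m : ℕ) : |P.coeff m| ≤ 4 := by
  have e : F * X ^ n - F = expand ℤ s P * Q := by rw [h2, mul_assoc, h1]; ring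
  have a := congrArg (coeff · (m * s)) e
  have b := congrArg (coeff · 0) h1
  simp only [mul_coeff_zero, coeff_sub, coeff_X_pow, if_neg hn.ne, coeff_one_zero, zero_sub] at b
  simp only [coeff_sub, coeff_mul_X_pow'] at a
  rw [coeff_mul, sum_eq_single (m * s, 0)] at a
  · dsimp only at a
    rw [coeff_expand_mul (by omega)] at a
    have c := hc (m * s - n)
    have d := hc (m * s)
    rw [abs_le] at *
    rcases Int.eq_one_or_neg_one_of_mul_eq_neg_one' b with h | h <;> rw [h.2] at a <;> split_ifs at a <;>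
      omega
  · rintro ⟨i, j⟩ h h'
    have h := mem_antidiagonal.1 h
    by_cases c : n < j
    · rw [coeff_eq_zero_of_natDegree_lt ((hQ h1 hn).trans_lt c), mul_zero]
    · rw [coeff_expand (by omega), if_neg, zero_mul]
      intro d
      have := Nat.eq_zero_of_dvd_of_lt ((Nat.dvd_add_right d).1 (h ▸ dvd_mul_left s m))
        (show j < s by omega)
      simp only at h
      exact h' (by simp [← h, this])
  · simp

theorem key (F P Q : ℤ[X]) (n k M : ℕ) (h1 : P * Q = X ^ n - 1) (h2 : expand ℤ (k * n + 1) P = F * P)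
    (h3 : M + n < k * n) (hn : 0 < n) :
    (16 : ℤ) ^ n - 1 ∣ ∑ c ∈ range n, F.coeff ((M + 1) * k * n - n + c) * 16 ^ c +
      (∑ m ∈ range (M + 1), P.coeff m * 16 ^ m) * Q.eval 16 := by
  have e : F * X ^ n - F = expand ℤ (k * n + 1) P * Q := by
    rw [h2, mul_assoc, h1]; ring
  have hQ := hQ h1 hn
  obtain ⟨t, ht⟩ : ∃ t, (M + 1) * k = t + 1 := ⟨(M + 1) * k - 1, by
    have : 0 < k := Nat.pos_of_ne_zero fun e => by simp [e] at h3
    have : 0 < (M + 1) * k := Nat.mul_pos (Nat.succ_pos M) this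
    omega⟩
  have hJ : (M + 1) * k * n = t * n + n := by rw [ht]; ring
  rw [hJ, Nat.add_sub_cancel]
  have o : ∀ a, (16 : ℤ) ^ (a * n) ≡ 1 [ZMOD 16 ^ n - 1] := fun a => by
    rw [mul_comm, pow_mul]
    simpa using (Int.modEq_sub (16 ^ n) 1).pow a
  have a1 : ∑ j ∈ range (t * n + n), (F * X ^ n - F).coeff j * 16 ^ j ≡
      -∑ c ∈ range n, F.coeff (t * n + c) * 16 ^ c [ZMOD 16 ^ n - 1] := by
    simp only [coeff_sub, sub_mul, sum_sub_distrib]
    rw [sum_range_add (fun j => F.coeff j * 16 ^ j), add_comm (t * n), sum_range_add,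
      sum_eq_zero fun j hj => by simp [coeff_mul_X_pow', not_le.2 (mem_range.1 hj)], zero_add,
      ← sub_sub, ← zero_sub]
    refine Int.ModEq.sub ?_ (Int.ModEq.sum fun c _ => ?_)
    · rw [← sum_sub_distrib, Int.modEq_zero_iff_dvd]
      exact dvd_sum fun j _ => ⟨F.coeff j * 16 ^ j, by rw [add_comm n, coeff_mul_X_pow]; ring⟩
    · simpa [pow_add] using ((o t).mul_right (16 ^ c)).mul_left (F.coeff (t * n + c))
  have a2 : ∑ j ∈ range (t * n + n), (expand ℤ (k * n + 1) P * Q).coeff j * 16 ^ j ≡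
      (∑ m ∈ range (M + 1), P.coeff m * 16 ^ m) * Q.eval 16 [ZMOD 16 ^ n - 1] := by
    conv_lhs => rw [P.as_sum_range' (M + 1 + P.natDegree) (by omega)]
    simp only [map_sum, expand_monomial, sum_mul, finsetSum_coeff]
    rw [sum_comm, sum_range_add, sum_eq_zero (s := range P.natDegree) fun m _ => sum_eq_zero fun j hj => by
      rw [← C_mul_X_pow_eq_monomial, mul_assoc, coeff_C_mul, coeff_X_pow_mul', if_neg, mul_zero, zero_mul]
      have := mem_range.1 hj
      nlinarith [Nat.zero_le (m * (k * n))], add_zero]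
    refine Int.ModEq.sum fun m hm => ?_
    rw [← eval_eq_sum_range' ((natDegree_mul_le.trans (add_le_add (natDegree_monomial_le _) hQ)).trans_lt
      (by have := Nat.mul_le_mul_right (k * n + 1) (Nat.lt_succ_iff.1 (mem_range.1 hm)); nlinarith)),
      eval_mul, eval_monomial, show m * (k * n + 1) = m * k * n + m by ring, pow_add]
    simpa using (((o (m * k)).mul_right (16 ^ m)).mul_left (P.coeff m)).mul_right (Q.eval 16)
  rw [e] at a1
  have := (a1.symm.trans a2).dvd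
  rwa [sub_neg_eq_add, add_comm] at this

def f1 (x : ℤ) : ℤ := (x ^ 11 - 1) / (x - 1)
def f2 (x : ℤ) : ℤ := f1 (x ^ 13) / f1 x
def f3 : ℤ := f2 (16 ^ 571) / f2 16
def bm (x m : ℤ) : ℤ := (x + m / 2) % m - m / 2
def w0 (f : ℤ) (n M : ℕ) : ℤ := bm (-(bm f (16 ^ (M + 1)) * ((16 ^ n - 1) / f))) (16 ^ n - 1)

theorem bm_dvd (x m : ℤ) : m ∣ x - bm x m :=
  ⟨(x + m / 2) / m, by have := Int.emod_add_mul_ediv (x + m / 2) m; unfold bm; omega⟩

def Ok (f : ℤ) (n M c : ℕ) : Prop := f ≠ 0 ∧ 2 * |bm f (16 ^ (M + 1))| < 16 ^ (M + 1) ∧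
  2 * |w0 f n M| < 16 ^ n - 1 ∧ 2 * |bm (w0 f n M) (16 ^ c)| < 16 ^ c ∧
    2 * (16 ^ c - 1) < 15 * |bm (w0 f n M) (16 ^ c)|

theorem num : Ok f3 81653 12575 12629 := by
  unfold Ok
  decide +kernel

theorem fin (F P Q : ℤ[X]) (n k M c : ℕ) (h1 : P * Q = X ^ n - 1)
    (h2 : expand ℤ (k * n + 1) P = F * P) (h3 : M + n < k * n) (hn : 0 < n) (hcn : c ≤ n)
    (h : Ok (P.eval 16) n M c) : ∃ i, 2 < |F.coeff i| := by
  by_contra hc
  push Not at hc
  obtain ⟨n0, n1, n2, n3, n4⟩ := h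
  have e4 : Q.eval 16 = (16 ^ n - 1) / P.eval 16 := by
    have := congrArg (eval 16) h1
    simp only [eval_sub, eval_pow, eval_X, eval_one, eval_mul] at this
    rw [← this, Int.mul_ediv_cancel_left _ n0]
  have b1 := cb h1 h2 hn (by omega) hc
  have k1 := key F P Q n k M h1 h2 h3 hn
  have p0 : ∀ K : ℕ, (0 : ℤ) < 16 ^ K := fun K => by positivity
  have t1 : ∑ m ∈ range (M + 1), P.coeff m * 16 ^ m = bm (P.eval 16) (16 ^ (M + 1)) := by
    refine uq ?_ (by have := bd _ b1 4 b1 (M + 1); have := p0 (M + 1); omega) n1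
    have := dvd_add (tr P.coeff (Nat.le_add_left (M + 1) P.natDegree)) (bm_dvd (P.eval 16) (16 ^ (M + 1)))
    rwa [← eval_eq_sum_range' (n := P.natDegree + (M + 1)) (by omega), sub_add_sub_cancel] at this
  have b2 := fun i => (hc ((M + 1) * k * n - n + i)).trans (show (2 : ℤ) ≤ 4 by norm_num)
  rw [t1, e4] at k1
  have t2 := uq (y := w0 (P.eval 16) n M) (by
      have := dvd_add k1 (bm_dvd (-(bm (P.eval 16) (16 ^ (M + 1)) * ((16 ^ n - 1) / P.eval 16)))
        (16 ^ n - 1))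
      rwa [add_sub, add_neg_cancel_right] at this)
    (by have := bd _ b2 2 (fun _ => hc _) n
        have := one_lt_pow₀ (show (1 : ℤ) < 16 by norm_num) hn.ne'
        omega) n2
  have b3 := bd _ b2 2 (fun _ => hc _) c
  have t3 := uq (y := bm (w0 (P.eval 16) n M) (16 ^ c)) (by
      have := dvd_add (tr (fun i => F.coeff ((M + 1) * k * n - n + i)) hcn) (bm_dvd (w0 (P.eval 16) n M) (16 ^ c))
      rwa [t2, sub_add_sub_cancel] at this) (by have := p0 c; omega) n3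
  rw [t3] at b3
  exact absurd n4 (not_lt.2 b3)

theorem ev {n p : ℕ} (hp : p.Prime) (h : ¬ p ∣ n) (x : ℤ) (hx : 1 < x) :
    (cyclotomic (n * p) ℤ).eval x = (cyclotomic n ℤ).eval (x ^ p) / (cyclotomic n ℤ).eval x := by
  have := congrArg (eval x) (cyclotomic_expand_eq_cyclotomic_mul hp h ℤ)
  rw [expand_eval, eval_mul] at this
  rw [this, Int.mul_ediv_cancel _ (cyclotomic_pos' n hx).ne']

theorem main : ∃ k, 2 < |(cyclotomic (11 * 13 * 571 * 163307) ℤ).coeff k| := by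
  have e1 : ∀ x : ℤ, 1 < x → (cyclotomic 11 ℤ).eval x = f1 x := fun x hx => by
    have := ev (n := 1) (p := 11) (by norm_num) (by norm_num) x hx
    simpa [f1] using this
  have e2 : ∀ x : ℤ, 1 < x → (cyclotomic (11 * 13) ℤ).eval x = f2 x := fun x hx => by
    rw [ev (by norm_num) (by norm_num) x hx, e1 x hx, e1 _ (one_lt_pow₀ hx (by norm_num)), f2]
  have e3 : ∀ x : ℤ, 1 < x → (cyclotomic (11 * 13 * 571) ℤ).eval x = f2 (x ^ 571) / f2 x :=
    fun x hx => by
      rw [ev (by norm_num) (by norm_num) x hx, e2 x hx, e2 _ (one_lt_pow₀ hx (by norm_num))]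
  have hh : ∀ n, ∃ Q : ℤ[X], cyclotomic n ℤ * Q = X ^ n - 1 := fun n =>
    (cyclotomic.dvd_X_pow_sub_one n ℤ).imp fun _ h => h.symm
  obtain ⟨Q, h1⟩ := hh (11 * 13 * 571)
  have h2 := cyclotomic_expand_eq_cyclotomic_mul (p := 163307)
    (n := 11 * 13 * 571) (by norm_num) (by norm_num) ℤ
  have h3 := e3 16 (by norm_num)
  generalize cyclotomic (11 * 13 * 571 * 163307) ℤ = F at *
  generalize cyclotomic (11 * 13 * 571) ℤ = P at *
  rw [show 11 * 13 * 571 = 81653 by norm_num] at h1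
  rw [show 163307 = 2 * 81653 + 1 by norm_num] at h2
  exact fin F P Q 81653 2 12575 12629 h1 h2 (by norm_num) (by norm_num) (by norm_num)
    (by rw [h3]; exact num)

end Pool.Agent.H16.Quat
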