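import Pool.Agent.H16.TMHalt

set_option autoImplicit false

namespace Pool.Agent.H16.QueueM
open Turing StateTransition Relation

def qs {X : Type} (R : Set (List X × List X)) (w w' : List X) : Prop :=
  ∃ p ∈ R, ∃ t, w = p.1 ++ t ∧ w' = t ++ p.2

theorem opt {σ : Type} (f : σ → Option σ) (c : σ) :
    Reaches (Option.map f) (some c) none ↔ (eval f c).Dom := by
  constructor
  · intro h
    have : ∀ o, Reaches (Option.map f) o none → ∀ c, o = some c → (eval f c).Dom := fun o h => by
      induction h using ReflTransGen.head_induction_on with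
      | refl => intro c e; cases e
      | head e _ ih =>
        rintro c rfl
        obtain rfl := Option.some.inj e
        rcases e' : f c with _ | c'
        · exact (mem_eval.mpr ⟨.refl, e'⟩).1
        · rw [reaches_eval (ReflTransGen.single (show c' ∈ f c from e'))]
          exact ih c' e'
    exact this _ h c rfl
  · intro h
    obtain ⟨h1, h2⟩ := mem_eval.mp (Part.get_mem h)
    refine ReflTransGen.tail (b := some _) ?_ (congrArg some h2)
    generalize (eval f c).get h = d at h1
    induction h1 with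
    | refl => exact .refl
    | tail _ e ih => exact ih.tail (congrArg some e)

inductive X (Γ Q : Type)
  | st (q : Q) | tp (o : Option Γ) | mk | T (q : Q) (o : Option Γ) | H (b : Bool)

open X

variable {Γ Q : Type}

instance [Fintype Γ] [Fintype Q] : Fintype (X Γ Q) := derive_fintype% _

def cp : X Γ Q → Prop
  | tp _ => True
  | mk => True
  | _ => False

variable [Inhabited Γ] [Inhabited Q] (M : TM0.Machine Γ Q)

def act (a : Γ) : Option (Q × TM0.Stmt Γ) → List (X Γ Q)
  | none => [H false]
  | some (q, .write b) => [st q, tp (some b)]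
  | some (q, .move .right) => [tp (some a), st q]
  | some (q, .move .left) => [mk, T q (some a)]

def ρ : X Γ Q → X Γ Q → Option (List (X Γ Q))
  | st q, tp none => some [st q, tp (some default), tp none]
  | st q, tp (some a) => some (act a (M q a))
  | T q y, tp z => some [tp y, T q z]
  | T q (some c), mk => some [st q, tp (some c)]
  | T q none, mk => some [tp none, st q, tp (some default)]
  | H b, tp (some _) => some [H b]
  | H false, tp none => some [tp none, H true]
  | _, _ => none

def R : Set (List (X Γ Q) × List (X Γ Q)) :=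
  {p | (∃ x, cp x ∧ p = ([x], [x])) ∨ ∃ x y r, ρ M x y = some r ∧ p = ([x, y], r)}

def ω : X Γ Q → ℤ
  | tp none => 1
  | tp (some _) => 0
  | mk => 3
  | T _ none => -1
  | T _ (some _) => -2
  | _ => 1

theorem ρ_spec {x y : X Γ Q} {r : List (X Γ Q)} (h : ρ M x y = some r) :
    ¬ cp x ∧ r ≠ [] ∧ ω x + ω y = (r.map ω).sum ∧ [x, y] ≠ [H true, tp none] := by
  unfold ρ at h
  split at h <;> cases h
  case h_2 q a =>
    rcases M q a with _ | ⟨q', (_ | _) | b⟩ <;> simp [cp, ω, act]
  case h_3 q y z => cases y <;> cases z <;> simp [cp, ω]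
  all_goals simp [cp, ω]

theorem rot (C w : List (X Γ Q)) (hC : ∀ x ∈ C, cp x) : ReflTransGen (qs (R M)) (C ++ w) (w ++ C) := by
  induction C generalizing w with
  | nil => simpa using .refl
  | cons x C ih =>
    refine .head ⟨([x], [x]), .inl ⟨x, hC x (by simp), rfl⟩, C ++ w, rfl, rfl⟩ ?_
    simpa using ih (w ++ [x]) fun y hy => hC y (by simp [hy])

theorem fire {x y : X Γ Q} (r1 r2 t : List (X Γ Q)) (h : ρ M x y = some (r1 ++ r2))
    (ht : ∀ z ∈ t ++ r1, cp z) : TransGen (qs (R M)) (x :: y :: t) (r2 ++ (t ++ r1)) :=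
  .head' ⟨([x, y], r1 ++ r2), .inr ⟨x, y, _, h, rfl⟩, t, rfl, rfl⟩ (by
    simpa using rot M (t ++ r1) r2 ht)

theorem trav (q : Q) (z : Option Γ) (l : List (Option Γ)) : ∀ (y : Option Γ) (D : List (Option Γ)),
    TransGen (qs (R M)) (T q y :: ((l ++ [z]).map tp ++ mk :: D.map tp))
      (T q z :: mk :: (D ++ y :: l).map tp) := by
  induction l with
  | nil =>
    intro y D
    simpa using fire M (x := T q y) (y := tp z) [tp y] [T q z] (mk :: D.map tp) rfl (by
      simp +contextual [cp, or_imp])
  | cons a l ih =>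
    intro y D
    refine (fire M (x := T q y) (y := tp a) [tp y] [T q a] ((l ++ [z]).map tp ++ mk :: D.map tp) rfl (by
      simp only [List.forall_mem_append, List.forall_mem_map, List.forall_mem_cons, cp, implies_true,
        and_self, List.not_mem_nil, false_imp_iff])).trans ?_
    simpa using ih a (D ++ [y])

theorem eat (b : Bool) (D : List (Option Γ)) (l : List Γ) :
    ReflTransGen (qs (R M)) (H b :: (l.map some ++ none :: D).map tp) (H b :: tp none :: D.map tp) := by
  induction l with
  | nil => exact .refl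
  | cons a l ih =>
    refine .trans (fire M (x := H b) (y := tp (some a)) [] [H b] ((l.map some ++ none :: D).map tp)
      (by cases b <;> rfl) (by simp only [List.append_nil, List.forall_mem_map, cp, implies_true])).to_reflTransGen ?_
    simpa using ih

def enc (q : Q) (L R : List Γ) : List (X Γ Q) := st q :: (R.map some ++ none :: L.reverse.map some).map tp

def tr : Option (TM0.Cfg Γ Q) → List (X Γ Q) → Prop
  | none, w => w = [H true, tp none]
  | some c, w => ∃ L R, c.Tape = Tape.mk₂ L R ∧ w = enc c.q L R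

theorem sim1 (q : Q) (L : List Γ) (a : Γ) (R1 : List Γ) :
    ∃ w, tr (TM0.step M ⟨q, Tape.mk₂ L (a :: R1)⟩) w ∧ TransGen (qs (R M)) (enc q L (a :: R1)) w := by
  have h0 : (Tape.mk₂ L (a :: R1)).head = a := by simp [Tape.mk₂]
  have h1 := fun r1 r2 (h : act a (M q a) = r1 ++ r2) (h' : ∀ z ∈ r1, cp z) =>
    fire M (x := st q) (y := tp (some a)) r1 r2 ((R1.map some ++ none :: L.reverse.map some).map tp)
      (congrArg some h) (List.forall_mem_append.mpr ⟨by simp only [List.forall_mem_map, cp, implies_true], h'⟩)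
  simp only [TM0.step, h0]
  rcases e : M q a with _ | ⟨q', (_ | _) | b⟩ <;> rw [e] at h1
  · refine ⟨_, rfl, (h1 [] [H false] rfl (by simp)).trans_left ?_⟩
    rw [List.append_nil]
    refine (eat M false _ R1).trans (.trans (fire M (x := H false) (y := tp none) [tp none] [H true] _ rfl (by
      simp only [List.forall_mem_append, List.forall_mem_map, cp, List.forall_mem_singleton, implies_true,
        and_self])).to_reflTransGen ?_)
    simpa using eat M true [] L.reverse
  · have h2 := h1 [mk] [T q' (some a)] rfl (by simp [cp])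
    rcases L with _ | ⟨c, L⟩
    · refine ⟨_, ⟨[], default :: a :: R1, by simp [Tape.mk₂], rfl⟩, h2.trans ?_⟩
      refine TransGen.trans (by simpa using trav M q' none (R1.map some) (some a) []) ?_
      simpa [enc] using fire M (x := T q' none) (y := mk) [tp none] [st q', tp (some default)]
        ((some a :: R1.map some).map tp) rfl (by
          simp only [List.forall_mem_append, List.forall_mem_map, cp, List.forall_mem_singleton, implies_true,
            and_self])
    · refine ⟨_, ⟨L, c :: a :: R1, by simp [Tape.mk₂], rfl⟩, h2.trans ?_⟩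
      refine TransGen.trans (by
        simpa using trav M q' (some c) (R1.map some ++ none :: L.reverse.map some) (some a) []) ?_
      simpa [enc] using fire M (x := T q' (some c)) (y := mk) [] [st q', tp (some c)]
        ((some a :: (R1.map some ++ none :: L.reverse.map some)).map tp) rfl (by
          simp only [List.append_nil, List.forall_mem_map, cp, implies_true])
  · exact ⟨_, ⟨a :: L, R1, by simp [Tape.mk₂], rfl⟩, by
      simpa [enc] using h1 [tp (some a)] [st q'] rfl (by simp [cp])⟩
  · exact ⟨_, ⟨L, b :: R1, by simp [Tape.mk₂], rfl⟩, by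
      simpa [enc] using h1 [] [st q', tp (some b)] rfl (by simp)⟩

theorem pf : ∀ p ∈ R M, ∀ p' ∈ R M, p.1 <+: p'.1 → p = p' := by
  rintro _ (⟨x, h, rfl⟩ | ⟨x, y, r, h, rfl⟩) _ (⟨x', h', rfl⟩ | ⟨x', y', r', h', rfl⟩) e
  · simp_all
  · obtain rfl : x = x' := by simpa using e
    exact absurd h (ρ_spec M h').1
  · simp at e
  · obtain ⟨rfl, rfl⟩ : x = x' ∧ y = y' := by simpa using e
    rw [Option.some.inj (h.symm.trans h')]

theorem fin_no : ∀ p ∈ R M, ¬ p.1 <+: [H true, tp none] := by
  rintro _ (⟨x, h, rfl⟩ | ⟨x, y, r, h, rfl⟩) e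
  · obtain rfl : x = H true := by simpa using e
    exact h
  · exact (ρ_spec M h).2.2.2 (by simpa using e)

theorem halt_iff (l : List Γ) : ReflTransGen (qs (R M)) (enc default [] l) [H true, tp none] ↔
    (eval (TM0.step M) (TM0.init l)).Dom := by
  classical
  let f : List (X Γ Q) → Option (List (X Γ Q)) := fun w => if h : ∃ w', qs (R M) w w' then some h.choose else none
  have hf : (fun a b => b ∈ f a) = qs (R M) := by
    ext w w'
    simp only [f, Option.mem_def]
    split_ifs with h
    · refine ⟨fun e => Option.some.inj e ▸ h.choose_spec, fun ⟨p, hp, t, e1, e2⟩ => ?_⟩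
      obtain ⟨p', hp', t', e3, e4⟩ := h.choose_spec
      obtain rfl : p = p' := by
        rcases List.prefix_or_prefix_of_prefix ⟨_, e1.symm⟩ ⟨_, e3.symm⟩ with e | e
        · exact pf M _ hp _ hp' e
        · exact (pf M _ hp' _ hp e).symm
      rw [e4, e2, List.append_cancel_left (e1.symm.trans e3)]
    · exact ⟨fun e => (by cases e), fun e => absurd ⟨_, e⟩ h⟩
  have h0 : f [H true, tp none] = none := dif_neg fun ⟨_, p, hp, t, e, _⟩ => fin_no M p hp ⟨t, e.symm⟩
  have hR : Respects (Option.map (TM0.step M)) f tr := by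
    rintro (_ | ⟨q, _⟩) w h
    · exact h ▸ h0
    obtain ⟨L, _ | ⟨a, R1⟩, rfl, rfl⟩ := h <;> simp only [Option.map_some, Reaches₁, hf]
    · obtain ⟨w, h1, h2⟩ := sim1 M q L default []
      have : ListBlank.mk ([] : List Γ) = ListBlank.mk [default] := by
        simpa using (ListBlank.cons_head_tail (ListBlank.mk ([] : List Γ))).symm
      refine ⟨w, by rwa [Tape.mk₂, this], TransGen.trans ?_ h2⟩
      simpa [enc] using fire M (x := st q) (y := tp none) [] [st q, tp (some default), tp none]
        ((L.reverse.map some).map tp) rfl (by simp only [List.append_nil, List.forall_mem_map, cp, implies_true])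
    · exact sim1 M q L a R1
  have hi : tr (some (TM0.init l : TM0.Cfg Γ Q)) (enc default [] l) := ⟨[], l, rfl, rfl⟩
  rw [← opt, ← hf]
  constructor
  · intro h
    obtain ⟨b, -, hb⟩ := tr_eval_rev hR hi (mem_eval.mpr ⟨h, h0⟩)
    obtain ⟨h1, h2⟩ := mem_eval.mp hb
    rwa [Option.map_eq_none_iff.mp h2] at h1
  · intro h
    obtain ⟨b, rfl, hb⟩ := tr_reaches hR hi h
    exact hb

theorem exists_queue : ∃ (Y : Type) (_ : Finite Y) (S : Set (List Y × List Y)) (f1 f2 c : Y) (u v : List Y),
    S.Finite ∧ (∀ p ∈ S, p.1 ≠ [] ∧ p.2 ≠ [] ∧ p.1.length ≤ 2 ∧ ¬ p.1 <+: [f1, f2]) ∧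
    (∀ p ∈ S, ∀ p' ∈ S, p.1 <+: p'.1 → p = p') ∧
    (∀ n w, ReflTransGen (qs S) (u ++ List.replicate n c ++ v) w → 2 ≤ w.length) ∧
    ¬ ComputablePred fun n => ReflTransGen (qs S) (u ++ List.replicate n c ++ v) [f1, f2] := by
  obtain ⟨Γ, Q, _, _, _, _, M, a, b, c, h⟩ := TMHalt.exists_tm
  have := Fintype.ofFinite Γ
  have := Fintype.ofFinite Q
  refine ⟨X Γ Q, inferInstance, R M, H true, tp none, tp (some c), [st default, tp (some a), tp (some b)],
    [tp none], ?_, fun p hp => ?_, pf M, fun n w hw => ?_, fun e => h (e.of_eq fun n => ?_)⟩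
  · refine ((Set.finite_range fun x : X Γ Q => ([x], [x])).union (Set.finite_range
      fun x : X Γ Q × X Γ Q => ([x.1, x.2], (ρ M x.1 x.2).getD []))).subset ?_
    rintro _ (⟨x, -, rfl⟩ | ⟨x, y, r, e, rfl⟩)
    · exact .inl ⟨x, rfl⟩
    · exact .inr ⟨(x, y), by simp [e]⟩
  · have := fin_no M p hp
    obtain ⟨x, -, rfl⟩ | ⟨x, y, r, e, rfl⟩ := hp
    · exact ⟨by simp, by simp, by simp, this⟩
    · exact ⟨by simp, (ρ_spec M e).2.1, by simp, this⟩
  · have h1 : (w.map ω).sum = 2 := by
      induction hw with
      | refl => simp [ω]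
      | tail _ e ih =>
        obtain ⟨_, ⟨x, -, rfl⟩ | ⟨x, y, r, e, rfl⟩, t, rfl, rfl⟩ := e
        · simpa [add_comm] using ih
        · have := (ρ_spec M e).2.2.1
          simp at ih ⊢
          omega
    rcases w with _ | ⟨x, _ | ⟨y, w⟩⟩
    · simp at h1
    · rcases x with _ | (_ | _) | _ | ⟨_, _ | _⟩ | _ <;> simp [ω] at h1
    · simp
  · rw [← halt_iff]
    simp [enc]

end Pool.Agent.H16.QueueM
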