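import Mathlib

set_option autoImplicit false

namespace Pool.Agent.H16.Quintic

theorem int_sqfree (m : ℤ) : ∃ d u : ℤ, u ^ 2 * d = m ∧ Squarefree d := by
  obtain ⟨d, u, h1, h2⟩ := Nat.sq_mul_squarefree m.natAbs
  rcases Int.natAbs_eq m with h | h
  · exact ⟨d, u, by rw [h, ← h1]; push_cast; ring, Int.squarefree_natCast.mpr h2⟩
  · exact ⟨-d, u, by rw [h, ← h1]; push_cast; ring, Int.squarefree_natAbs.mp (by simpa using h2)⟩

/-- a nonzero rational point of `y^2 = x (x^2 + a x + b)` gives a solution of a quartic -/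
theorem toQuartic (a b : ℤ) (X Y : ℚ) (hX : X ≠ 0) (h : Y ^ 2 = X * (X ^ 2 + a * X + b)) :
    ∃ d e u v w : ℤ, Squarefree d ∧ d * e = b ∧ IsCoprime u v ∧ v ≠ 0 ∧ X = d * (u / v) ^ 2 ∧
      w ^ 2 = d * u ^ 4 + a * u ^ 2 * v ^ 2 + e * v ^ 4 := by
  obtain ⟨m, n, hn, hmn, rfl⟩ : ∃ m n : ℤ, 0 < n ∧ IsCoprime m n ∧ X = m / n :=
    ⟨X.num, X.den, by exact_mod_cast X.pos, Int.isCoprime_iff_gcd_eq_one.mpr X.reduced,
      (Rat.num_div_den X).symm⟩
  have hn0 : (n : ℚ) ≠ 0 := by exact_mod_cast hn.ne'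
  have hm0 : m ≠ 0 := by rintro rfl; simp at hX
  have h1 : IsSquare (((n * (m * (m ^ 2 + a * m * n + b * n ^ 2)) : ℤ)) : ℚ) := by
    refine ⟨Y * n ^ 2, ?_⟩
    push_cast
    have : Y * n ^ 2 * (Y * n ^ 2) = Y ^ 2 * n ^ 4 := by ring
    rw [this, h]
    field_simp
  obtain ⟨Z, hZ⟩ := Rat.isSquare_intCast_iff.mp h1
  have hc : IsCoprime n (m * (m ^ 2 + a * m * n + b * n ^ 2)) := by
    refine hmn.symm.mul_right ?_
    have : m ^ 2 + a * m * n + b * n ^ 2 = m ^ 2 + n * (a * m + b * n) := by ring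
    rw [this]
    exact (hmn.symm.pow_right).add_mul_left_right _
  obtain ⟨v, hv⟩ := Int.sq_of_isCoprime hc (c := Z) (by rw [hZ]; ring)
  have hv' : n = v ^ 2 := by
    rcases hv with hv | hv
    · exact hv
    · nlinarith [sq_nonneg v]
  subst hv'
  have hv0 : v ≠ 0 := by rintro rfl; simp at hn
  obtain ⟨d, u, hdu, hd⟩ := int_sqfree m
  subst hdu
  have hu0 : u ≠ 0 := by rintro rfl; simp at hm0
  have hd0 : d ≠ 0 := hd.ne_zero
  have h2 : (u * v) ^ 2 ∣ Z ^ 2 := ⟨d * ((u ^ 2 * d) ^ 2 + a * (u ^ 2 * d) * v ^ 2 + b * (v ^ 2) ^ 2), by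
    rw [sq Z, ← hZ]; ring⟩
  obtain ⟨z, rfl⟩ := (Int.pow_dvd_pow_iff two_ne_zero).mp h2
  have h3 : z ^ 2 = d * ((u ^ 2 * d) ^ 2 + a * (u ^ 2 * d) * v ^ 2 + b * (v ^ 2) ^ 2) := by
    have : (u * v) ^ 2 ≠ 0 := pow_ne_zero _ (mul_ne_zero hu0 hv0)
    apply mul_left_cancel₀ this
    linear_combination -hZ
  obtain ⟨w, rfl⟩ : d ∣ z := (hd.dvd_pow_iff_dvd two_ne_zero).mp ⟨_, h3⟩
  have h4 : d * w ^ 2 = (u ^ 2 * d) ^ 2 + a * (u ^ 2 * d) * v ^ 2 + b * (v ^ 2) ^ 2 := by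
    apply mul_left_cancel₀ hd0
    linear_combination h3
  have hdv : IsCoprime d ((v ^ 2) ^ 2) := (hmn.of_mul_left_right).pow_right
  obtain ⟨e, rfl⟩ : d ∣ b := hdv.dvd_of_dvd_mul_right
    ⟨w ^ 2 - u ^ 4 * d - a * u ^ 2 * v ^ 2, by linear_combination -h4⟩
  refine ⟨d, e, u, v, w, hd, rfl, ?_, hv0, ?_, ?_⟩
  · exact (IsCoprime.pow_iff two_pos two_pos).mp hmn.of_mul_left_left
  · push_cast; field_simp
  · apply mul_left_cancel₀ hd0
    linear_combination h4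

theorem not_both {u v : ℤ} (h : IsCoprime u v) (p : ℕ) (hp : 1 < p) :
    ¬ ((u : ZMod p) = 0 ∧ (v : ZMod p) = 0) := by
  rintro ⟨h1, h2⟩
  obtain ⟨x, y, hxy⟩ := h
  have : Fact (1 < p) := ⟨hp⟩
  have := congrArg (Int.cast : ℤ → ZMod p) hxy
  push_cast at this
  rw [h1, h2] at this
  simp at this

theorem kill3 (d e a u v w : ℤ) (h : IsCoprime u v) (hde : ((d * e : ℤ) : ZMod 3) = 2)
    (ha : (a : ZMod 3) ≠ 0) :
    w ^ 2 ≠ 3 * d * u ^ 4 + 3 * a * u ^ 2 * v ^ 2 + 3 * e * v ^ 4 := by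
  intro hw
  obtain ⟨w, rfl⟩ : (3 : ℤ) ∣ w := Int.prime_three.dvd_of_dvd_pow (n := 2)
    ⟨d * u ^ 4 + a * u ^ 2 * v ^ 2 + e * v ^ 4, by linear_combination hw⟩
  have h2 : 3 * w ^ 2 = d * u ^ 4 + a * u ^ 2 * v ^ 2 + e * v ^ 4 := by linarith
  have h3 := congrArg (Int.cast : ℤ → ZMod 3) h2
  have h4 := not_both h 3 (by norm_num)
  push_cast at h3 hde
  generalize (d : ZMod 3) = d at *
  generalize (e : ZMod 3) = e at *
  generalize (a : ZMod 3) = a at *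
  generalize (u : ZMod 3) = u at *
  generalize (v : ZMod 3) = v at *
  generalize (w : ZMod 3) = w at *
  revert d e a u v w
  decide +kernel

theorem kill11 (d e a u v w : ℤ) (h : IsCoprime u v) (hde : ¬ (11 : ℤ) ∣ d * e)
    (ha : (a : ZMod 11) = 2) :
    w ^ 2 ≠ 11 * d * u ^ 4 + a * u ^ 2 * v ^ 2 + 11 * e * v ^ 4 := by
  intro hw
  have p11 : Prime (11 : ℤ) := Int.prime_iff_natAbs_prime.mpr (by norm_num)
  have h3 := congrArg (Int.cast : ℤ → ZMod 11) hw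
  push_cast at h3
  rw [ha, show (11 : ZMod 11) = 0 from rfl] at h3
  have key : ∀ u v w : ZMod 11, w ^ 2 = 2 * u ^ 2 * v ^ 2 → w = 0 ∧ (u = 0 ∨ v = 0) := by
    decide +kernel
  obtain ⟨k1, k2⟩ := key u v w (by simpa using h3)
  obtain ⟨w, rfl⟩ := (ZMod.intCast_zmod_eq_zero_iff_dvd w 11).mp k1
  rcases k2 with k2 | k2
  · obtain ⟨u, rfl⟩ := (ZMod.intCast_zmod_eq_zero_iff_dvd u 11).mp k2
    have : (11 : ℤ) ∣ e * v ^ 4 :=
      ⟨w ^ 2 - 11 ^ 3 * d * u ^ 4 - a * u ^ 2 * v ^ 2, by push_cast at hw; linarith⟩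
    rcases p11.dvd_or_dvd this with h1 | h1
    · exact hde (h1.mul_left _)
    · exact p11.not_isUnit (h.isUnit_of_dvd' ⟨u, by simp⟩ (p11.dvd_of_dvd_pow h1))
  · obtain ⟨v, rfl⟩ := (ZMod.intCast_zmod_eq_zero_iff_dvd v 11).mp k2
    have : (11 : ℤ) ∣ d * u ^ 4 :=
      ⟨w ^ 2 - 11 ^ 3 * e * v ^ 4 - a * u ^ 2 * v ^ 2, by push_cast at hw; linarith⟩
    rcases p11.dvd_or_dvd this with h1 | h1
    · exact hde (h1.mul_right _)
    · exact p11.not_isUnit (h.isUnit_of_dvd' (p11.dvd_of_dvd_pow h1) ⟨v, by simp⟩)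

theorem half {w k : ℤ} (h : w ^ 2 = 2 * k) : ∃ z, w = 2 * z :=
  Int.prime_two.dvd_of_dvd_pow (n := 2) ⟨k, h⟩

theorem kill2 (d e a u v w : ℤ) (h : IsCoprime u v) (hd : (d : ZMod 8) = 1 ∨ (d : ZMod 8) = 5)
    (he : (e : ZMod 8) = 1 ∨ (e : ZMod 8) = 5) (ha : (a : ZMod 8) = 5) :
    w ^ 2 ≠ 2 * d * u ^ 4 + a * u ^ 2 * v ^ 2 + 32 * e * v ^ 4 := by
  intro hw
  have k1 : ∀ d e u v w : ZMod 8, (d = 1 ∨ d = 5) →
      w ^ 2 ≠ 2 * d * (2 * u + 1) ^ 4 + 5 * (2 * u + 1) ^ 2 * v ^ 2 + 32 * e * v ^ 4 := by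
    decide +kernel
  have k2 : ∀ d e u v w : ZMod 8,
      w ^ 2 ≠ 8 * d * (2 * u + 1) ^ 4 + 5 * (2 * u + 1) ^ 2 * (2 * v + 1) ^ 2 + 8 * e * (2 * v + 1) ^ 4 := by
    decide +kernel
  have k3 : ∀ d e u v w : ZMod 8, (e = 1 ∨ e = 5) →
      w ^ 2 ≠ 32 * d * u ^ 4 + 5 * u ^ 2 * (2 * v + 1) ^ 2 + 2 * e * (2 * v + 1) ^ 4 := by
    decide +kernel
  rcases Int.even_or_odd' u with ⟨u, rfl | rfl⟩
  swap
  · have h3 := congrArg (Int.cast : ℤ → ZMod 8) hw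
    push_cast at h3
    rw [ha] at h3
    exact k1 d e u v w hd h3
  rcases Int.even_or_odd' v with ⟨v, rfl | rfl⟩
  · exact Int.prime_two.not_isUnit (h.isUnit_of_dvd' ⟨u, rfl⟩ ⟨v, rfl⟩)
  obtain ⟨w, rfl⟩ := half (k := d * (2 * u) ^ 4 + 2 * a * u ^ 2 * (2 * v + 1) ^ 2 +
    16 * e * (2 * v + 1) ^ 4) (w := w) (by linear_combination hw)
  have hw2 : w ^ 2 = 8 * d * u ^ 4 + a * u ^ 2 * (2 * v + 1) ^ 2 + 8 * e * (2 * v + 1) ^ 4 := by
    linarith
  rcases Int.even_or_odd' u with ⟨u, rfl | rfl⟩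
  swap
  · have h3 := congrArg (Int.cast : ℤ → ZMod 8) hw2
    push_cast at h3
    rw [ha] at h3
    exact k2 d e u v w h3
  obtain ⟨w, rfl⟩ := half (k := 4 * d * (2 * u) ^ 4 + 2 * a * u ^ 2 * (2 * v + 1) ^ 2 +
    4 * e * (2 * v + 1) ^ 4) (w := w) (by linear_combination hw2)
  have hw3 : w ^ 2 = 32 * d * u ^ 4 + a * u ^ 2 * (2 * v + 1) ^ 2 + 2 * e * (2 * v + 1) ^ 4 := by
    linarith
  have h3 := congrArg (Int.cast : ℤ → ZMod 8) hw3
  push_cast at h3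
  rw [ha] at h3
  exact k3 d e u v w he h3

theorem kill16 (d e a u v w : ℤ) (h : IsCoprime u v) (hd : ((d : ZMod 16) = 15 ∧ (e : ZMod 16) = 7) ∨
    ((d : ZMod 16) = 7 ∧ (e : ZMod 16) = 15)) (ha : (a : ZMod 16) = 6) :
    w ^ 2 ≠ d * u ^ 4 + a * u ^ 2 * v ^ 2 + e * v ^ 4 := by
  intro hw
  have k1 : ∀ u v w : ZMod 16, w ^ 2 ≠ 15 * (2 * u + 1) ^ 4 + 6 * (2 * u + 1) ^ 2 * v ^ 2 + 7 * v ^ 4 ∧
      w ^ 2 ≠ 7 * (2 * u + 1) ^ 4 + 6 * (2 * u + 1) ^ 2 * v ^ 2 + 15 * v ^ 4 ∧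
      w ^ 2 ≠ 15 * v ^ 4 + 6 * v ^ 2 * (2 * u + 1) ^ 2 + 7 * (2 * u + 1) ^ 4 ∧
      w ^ 2 ≠ 7 * v ^ 4 + 6 * v ^ 2 * (2 * u + 1) ^ 2 + 15 * (2 * u + 1) ^ 4 := by
    decide +kernel
  have h3 := congrArg (Int.cast : ℤ → ZMod 16) hw
  rcases Int.even_or_odd' u with ⟨u, rfl | rfl⟩
  · rcases Int.even_or_odd' v with ⟨v, rfl | rfl⟩
    · exact Int.prime_two.not_isUnit (h.isUnit_of_dvd' ⟨u, rfl⟩ ⟨v, rfl⟩)
    · push_cast at h3
      rcases hd with ⟨h1, h2⟩ | ⟨h1, h2⟩ <;> rw [h1, h2, ha] at h3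
      · exact (k1 v (2 * u) w).2.2.1 h3
      · exact (k1 v (2 * u) w).2.2.2 h3
  · push_cast at h3
    rcases hd with ⟨h1, h2⟩ | ⟨h1, h2⟩ <;> rw [h1, h2, ha] at h3
    · exact (k1 u v w).1 h3
    · exact (k1 u v w).2.1 h3

theorem selE (X Y : ℚ) (hX : X ≠ 0) (h : Y ^ 2 = X * (X ^ 2 - 72579 * X + 1125000000)) :
    IsSquare X ∨ IsSquare (1125000000 / X) := by
  obtain ⟨d, e, u, v, w, hd, hde, huv, hv, hXe, hw⟩ :=
    toQuartic (-72579) 1125000000 X Y hX (by rw [h]; push_cast; ring)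
  have hu : (u : ℚ) ≠ 0 := by rintro h0; simp [h0] at hXe; exact hX hXe
  have hv' : (v : ℚ) ≠ 0 := by exact_mod_cast hv
  have h30 : d ∣ 30 := (hd.dvd_pow_iff_dvd (n := 9) (by norm_num)).mp
    (Dvd.dvd.trans ⟨e, hde.symm⟩ (by norm_num))
  have hpos : 0 < d := by
    by_contra hc
    have hd0 : d < 0 := lt_of_le_of_ne (not_lt.mp hc) hd.ne_zero
    have he : e < 0 := by nlinarith
    have : 0 < v ^ 4 := by positivity
    nlinarith [sq_nonneg w, sq_nonneg (u * v), sq_nonneg (u ^ 2)]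
  have hle := Int.le_of_dvd (by norm_num) h30
  have hcases : d = 1 ∨ d = 2 ∨ d = 3 ∨ d = 5 ∨ d = 6 ∨ d = 10 ∨ d = 15 ∨ d = 30 := by
    interval_cases d <;> omega
  rcases hcases with rfl | rfl | rfl | rfl | rfl | rfl | rfl | rfl
  · exact Or.inl ⟨u / v, by rw [hXe]; push_cast; ring⟩
  · exact absurd (by obtain rfl : e = 562500000 := by omega
                     linear_combination hw)
      (kill2 1 17578125 (-72579) u v w huv (by decide) (by decide) (by decide))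
  · exact absurd (by obtain rfl : e = 375000000 := by omega
                     linear_combination hw)
      (kill3 1 125000000 (-24193) u v w huv (by decide) (by decide))
  · exact Or.inr ⟨15000 * v / u, by rw [hXe]; push_cast; field_simp; norm_num⟩
  · exact absurd (by obtain rfl : e = 187500000 := by omega
                     linear_combination hw)
      (kill3 2 62500000 (-24193) u v w huv (by decide) (by decide))
  · exact absurd (by obtain rfl : e = 112500000 := by omega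
                     linear_combination hw)
      (kill2 5 3515625 (-72579) u v w huv (by decide) (by decide) (by decide))
  · exact absurd (by obtain rfl : e = 75000000 := by omega
                     linear_combination hw)
      (kill3 5 25000000 (-24193) u v w huv (by decide) (by decide))
  · exact absurd (by obtain rfl : e = 37500000 := by omega
                     linear_combination hw)
      (kill3 10 12500000 (-24193) u v w huv (by decide) (by decide))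

theorem selE' (X Y : ℚ) (hX : X ≠ 0) (h : Y ^ 2 = X * (X ^ 2 + 145158 * X + 767711241)) :
    IsSquare X ∨ IsSquare (767711241 / X) := by
  obtain ⟨d, e, u, v, w, hd, hde, huv, hv, hXe, hw⟩ :=
    toQuartic 145158 767711241 X Y hX (by rw [h]; push_cast; ring)
  have hu : (u : ℚ) ≠ 0 := by rintro h0; simp [h0] at hXe; exact hX hXe
  have hv' : (v : ℚ) ≠ 0 := by exact_mod_cast hv
  have h30 : d ∣ 2937 := (hd.dvd_pow_iff_dvd (n := 3) (by norm_num)).mp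
    (Dvd.dvd.trans ⟨e, hde.symm⟩ (by norm_num))
  have hm : d.natAbs ∈ Nat.divisors 2937 :=
    Nat.mem_divisors.mpr ⟨Int.natAbs_dvd_natAbs.mpr h30, by norm_num⟩
  rw [show Nat.divisors 2937 = {1, 3, 11, 33, 89, 267, 979, 2937} by decide +kernel] at hm
  simp only [Finset.mem_insert, Finset.mem_singleton] at hm
  have hcases : d = 1 ∨ d = 89 ∨ d = -1 ∨ d = -89 ∨ (d = 3 ∨ d = -3 ∨ d = 267 ∨ d = -267) ∨
      (d = 11 ∨ d = -11 ∨ d = 33 ∨ d = -33 ∨ d = 979 ∨ d = -979 ∨ d = 2937 ∨ d = -2937) := by omega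
  rcases hcases with rfl | rfl | rfl | rfl | hc | hc
  · exact Or.inl ⟨u / v, by rw [hXe]; push_cast; ring⟩
  · exact Or.inr ⟨2937 * v / u, by rw [hXe]; push_cast; field_simp; norm_num⟩
  · obtain rfl : e = -767711241 := by omega
    exact absurd hw (kill16 _ _ _ u v w huv (by decide) (by decide))
  · obtain rfl : e = -8625969 := by omega
    exact absurd hw (kill16 _ _ _ u v w huv (by decide) (by decide))
  · obtain ⟨d1, rfl⟩ : ∃ d1, d = 3 * d1 := ⟨d / 3, by omega⟩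
    obtain ⟨e1, rfl⟩ : ∃ e1, e = 3 * e1 := ⟨e / 3, by rcases hc with h1 | h1 | h1 | h1 <;> rw [h1] at hde <;> omega⟩
    have : d1 * e1 = 85301249 := by linarith
    exact absurd (by linear_combination hw)
      (kill3 d1 e1 48386 u v w huv (by rw [this]; decide) (by decide))
  · obtain ⟨d1, rfl⟩ : ∃ d1, d = 11 * d1 := ⟨d / 11, by omega⟩
    obtain ⟨e1, rfl⟩ : ∃ e1, e = 11 * e1 := ⟨e / 11, by
      rcases hc with h1 | h1 | h1 | h1 | h1 | h1 | h1 | h1 <;> rw [h1] at hde <;> omega⟩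
    have : d1 * e1 = 6344721 := by linarith
    exact absurd hw (kill11 d1 e1 145158 u v w huv (by rw [this]; decide) (by decide))

end Pool.Agent.H16.Quintic
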