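import Mathlib
import Pool.Agent.H16.Quintic1

set_option autoImplicit false

namespace Pool.Agent.H16.Quintic

theorem sq_rat (X : ℚ) (hX : X ≠ 0) (h : IsSquare X) :
    ∃ U V : ℕ, 0 < U ∧ 0 < V ∧ Nat.Coprime U V ∧ X = ((U : ℚ) / V) ^ 2 := by
  obtain ⟨r, rfl⟩ := h
  have hr : r ≠ 0 := by rintro rfl; simp at hX
  refine ⟨r.num.natAbs, r.den, Int.natAbs_pos.mpr (Rat.num_ne_zero.mpr hr), r.pos, r.reduced, ?_⟩
  rw [div_pow, Nat.cast_natAbs, Int.cast_abs, sq_abs, ← div_pow, Rat.num_div_den, sq]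

theorem den_step (U' V' V c : ℕ) (N : ℤ) (hU' : 0 < U') (hV' : 0 < V') (hV : 0 < V)
    (hc : Nat.Coprime U' V')
    (h : ((U' : ℚ) / V') ^ 2 + c / ((U' : ℚ) / V') ^ 2 = N / (V : ℚ) ^ 2) :
    V' ≤ V ∧ (V' = V → U' ^ 2 ∣ c) := by
  have h1 : (U' : ℚ) ≠ 0 := by positivity
  have h2 : (V' : ℚ) ≠ 0 := by positivity
  have h3 : (V : ℚ) ≠ 0 := by positivity
  field_simp at h
  have h4 : ((U' : ℤ) ^ 4 + V' ^ 4 * c) * V ^ 2 = U' ^ 2 * V' ^ 2 * N := by exact_mod_cast h
  have hci : IsCoprime (U' : ℤ) V' := Nat.isCoprime_iff_coprime.mpr hc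
  constructor
  · have : (V' : ℤ) ^ 2 ∣ U' ^ 4 * V ^ 2 := ⟨U' ^ 2 * N - V' ^ 2 * c * V ^ 2, by linear_combination h4⟩
    have h5 := (hci.symm.pow (m := 2) (n := 4)).dvd_of_dvd_mul_left this
    exact Nat.le_of_dvd hV (Int.natCast_dvd_natCast.mp ((Int.pow_dvd_pow_iff two_ne_zero).mp h5))
  · rintro rfl
    have : (U' : ℤ) ^ 2 ∣ V' ^ 6 * c := ⟨V' ^ 2 * N - U' ^ 2 * V' ^ 2, by linear_combination h4⟩
    have h5 := (hci.pow (m := 2) (n := 6)).dvd_of_dvd_mul_left this
    exact_mod_cast h5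

theorem fin_check : (List.range 33542).all (fun U => 1125000000 % (U ^ 2) != 0 ||
    (List.range 300).all (fun V => V == 0 || U == 250 * V ||
      767711241 % (U ^ 2 + 1125000000 / U ^ 2 * V ^ 4 - 72579 * V ^ 2) != 0)) = true := by
  decide +kernel

theorem descent (V : ℕ) : ∀ (U : ℕ) (s : ℚ), 0 < U → 0 < V →
    s ^ 2 = (((U : ℚ) / V) ^ 2) ^ 2 - 72579 * ((U : ℚ) / V) ^ 2 + 1125000000 →
    ((U : ℚ) / V) ^ 2 = 62500 := by
  induction V using Nat.strong_induction_on with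
  | _ V ih =>
  intro U s hU hV hs
  set t : ℚ := (U : ℚ) / V with ht
  have ht0 : t ≠ 0 := by positivity
  -- first step
  obtain ⟨X, hX0, hXs, hX⟩ : ∃ X : ℚ, X ≠ 0 ∧ IsSquare X ∧ X + 767711241 / X = 4 * t ^ 2 - 145158 := by
    have hp : (2 * t ^ 2 - 72579 + 2 * s) * (2 * t ^ 2 - 72579 - 2 * s) = 767711241 := by
      linear_combination -4 * hs
    have h1 : 2 * t ^ 2 - 72579 + 2 * s ≠ 0 := by rintro h0; rw [h0] at hp; norm_num at hp
    have h2 : 2 * t ^ 2 - 72579 - 2 * s ≠ 0 := by rintro h0; rw [h0] at hp; norm_num at hp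
    have h3 : 767711241 / (2 * t ^ 2 - 72579 + 2 * s) = 2 * t ^ 2 - 72579 - 2 * s := by
      rw [div_eq_iff h1]; linear_combination -hp
    have h4 : 767711241 / (2 * t ^ 2 - 72579 - 2 * s) = 2 * t ^ 2 - 72579 + 2 * s := by
      rw [div_eq_iff h2]; linear_combination -hp
    rcases selE' _ (2 * t * (2 * t ^ 2 - 72579 + 2 * s)) h1
      (by linear_combination (2 * t ^ 2 - 72579 + 2 * s) * hp) with h | h
    · exact ⟨_, h1, h, by rw [h3]; ring⟩
    · exact ⟨_, h2, h3 ▸ h, by rw [h4]; ring⟩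
  obtain ⟨U', V', hU', hV', hc', hXe⟩ := sq_rat X hX0 hXs
  set t' : ℚ := (U' : ℚ) / V' with ht'
  have hX' : X ^ 2 + 767711241 = (4 * t ^ 2 - 145158) * X := by
    rw [← hX]; field_simp
  obtain ⟨x, hx0, hxs, hx⟩ : ∃ x : ℚ, x ≠ 0 ∧ IsSquare x ∧ x + 1125000000 / x = X + 72579 := by
    have hp : ((X + 72579) / 2 + t * t') * ((X + 72579) / 2 - t * t') = 1125000000 := by
      linear_combination (1 / 4) * hX' + t ^ 2 * hXe
    have h1 : (X + 72579) / 2 + t * t' ≠ 0 := by rintro h0; rw [h0] at hp; norm_num at hp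
    have h2 : (X + 72579) / 2 - t * t' ≠ 0 := by rintro h0; rw [h0] at hp; norm_num at hp
    have h3 : 1125000000 / ((X + 72579) / 2 + t * t') = (X + 72579) / 2 - t * t' := by
      rw [div_eq_iff h1]; linear_combination -hp
    have h4 : 1125000000 / ((X + 72579) / 2 - t * t') = (X + 72579) / 2 + t * t' := by
      rw [div_eq_iff h2]; linear_combination -hp
    rcases selE _ (t' * ((X + 72579) / 2 + t * t')) h1
      (by linear_combination ((X + 72579) / 2 + t * t') * hp -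
        ((X + 72579) / 2 + t * t') ^ 2 * hXe) with h | h
    · exact ⟨_, h1, h, by rw [h3]; ring⟩
    · exact ⟨_, h2, h3 ▸ h, by rw [h4]; ring⟩
  obtain ⟨U2, V2, hU2, hV2, hc2, hxe⟩ := sq_rat x hx0 hxs
  have hVq : (V : ℚ) ≠ 0 := by positivity
  have hVq' : (V' : ℚ) ≠ 0 := by positivity
  have d1 := den_step U' V' V 767711241 (4 * U ^ 2 - 145158 * V ^ 2) hU' hV' hV hc' (by
    rw [← ht', ← hXe]; push_cast; rw [hX, ht]; field_simp)
  have e2 : ((U2 : ℚ) / V2) ^ 2 + (1125000000 : ℕ) / ((U2 : ℚ) / V2) ^ 2 =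
      ((U' ^ 2 + 72579 * V' ^ 2 : ℤ) : ℚ) / (V' : ℚ) ^ 2 := by
    rw [← hxe]; push_cast; rw [hx, hXe, ht']; field_simp
  have d2 := den_step U2 V2 V' 1125000000 (U' ^ 2 + 72579 * V' ^ 2) hU2 hV2 hV' hc2 e2
  have hx' : x ^ 2 + 1125000000 = (X + 72579) * x := by
    rw [← hx]; field_simp
  have key : x = 62500 := by
    rcases Nat.lt_or_ge V2 V with hlt | hge
    · rw [hxe]
      refine ih V2 hlt U2 (t' * (U2 / V2)) hU2 hV2 ?_
      rw [mul_pow, ← hXe, ← hxe]
      linear_combination -hx'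
    · have q1 : V' = V := by omega
      have q2 : V2 = V' := by omega
      obtain ⟨e, he⟩ := d2.2 q2
      have hdiv := d1.2 q1
      subst q2
      have hU2q : (U2 : ℚ) ≠ 0 := by positivity
      have e3 : U2 ^ 2 + e * V2 ^ 4 = U' ^ 2 + 72579 * V2 ^ 2 := by
        rw [he] at e2
        push_cast at e2
        field_simp at e2
        have : ((U2 : ℚ)) ^ 2 + e * V2 ^ 4 = U' ^ 2 + 72579 * V2 ^ 2 := by linear_combination e2
        exact_mod_cast this
      have he0 : 0 < e := by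
        rcases Nat.eq_zero_or_pos e with rfl | h0
        · simp at he
        · exact h0
      have b1 : U2 < 33542 := by nlinarith
      have b2 : U' ^ 2 ≤ 767711241 := Nat.le_of_dvd (by norm_num) hdiv
      have b3 : V2 < 300 := by
        by_contra hc
        have h1 : 90000 ≤ V2 ^ 2 := by nlinarith
        have h2 : V2 ^ 4 = V2 ^ 2 * V2 ^ 2 := by ring
        have h3 : V2 ^ 4 ≤ e * V2 ^ 4 := Nat.le_mul_of_pos_left _ he0
        nlinarith
      have fc := fin_check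
      rw [List.all_eq_true] at fc
      have fc1 := fc U2 (List.mem_range.mpr b1)
      have m1 : 1125000000 % U2 ^ 2 = 0 := Nat.mod_eq_zero_of_dvd ⟨e, he⟩
      have m2 : 1125000000 / U2 ^ 2 = e := by
        rw [he, Nat.mul_div_cancel_left _ (by positivity)]
      simp only [m1, m2, bne_self_eq_false, Bool.false_or, List.all_eq_true] at fc1
      have fc2 := fc1 V2 (List.mem_range.mpr b3)
      rw [e3, Nat.add_sub_cancel, Nat.mod_eq_zero_of_dvd hdiv] at fc2
      simp only [bne_self_eq_false, Bool.or_false, Bool.or_eq_true, beq_iff_eq] at fc2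
      rcases fc2 with h0 | h0
      · omega
      · rw [hxe, h0]; push_cast; field_simp; norm_num
  rw [key] at hx
  have : X = 7921 := by linarith
  rw [this] at hX
  linarith

/-- the discriminant curve has only the points `r = 0` and `r = ± 12 / 5` -/
theorem disc_curve (r z : ℚ) (hr : r ≠ 0) (h : z ^ 2 = 3125 * r ^ 4 - 72579 * r ^ 2 + 360000) :
    r ^ 2 = 144 / 25 := by
  obtain ⟨U, V, hU, hV, -, he⟩ := sq_rat ((600 / r) ^ 2) (by positivity) ⟨600 / r, sq _⟩
  have := descent V U (600 * z / r ^ 2) hU hV (by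
    rw [← he, div_pow, mul_pow, h]; field_simp; ring)
  rw [← he] at this
  field_simp at this
  linarith

end Pool.Agent.H16.Quintic
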