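import Mathlib
import Pool.Agent.H16.Quintic2

set_option autoImplicit false

namespace Pool.Agent.H16.Quintic

theorem factor (a b c d e T : ℚ) (hab : a ≠ b) (hac : a ≠ c) (had : a ≠ d) (hae : a ≠ e)
    (hbc : b ≠ c) (hbd : b ≠ d) (hbe : b ≠ e) (hcd : c ≠ d) (hce : c ≠ e) (hde : d ≠ e)
    (ha : a ^ 5 - 13 * a ^ 3 + 36 * a = T) (hb : b ^ 5 - 13 * b ^ 3 + 36 * b = T)
    (hc : c ^ 5 - 13 * c ^ 3 + 36 * c = T) (hd : d ^ 5 - 13 * d ^ 3 + 36 * d = T)
    (he : e ^ 5 - 13 * e ^ 3 + 36 * e = T) (x : ℝ) :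
    x ^ 5 - 13 * x ^ 3 + 36 * x - T = (x - a) * (x - b) * (x - c) * (x - d) * (x - e) := by
  have d1 : ∀ y : ℚ, a ≠ y → y ^ 5 - 13 * y ^ 3 + 36 * y = T →
      a ^ 4 + a ^ 3 * y + a ^ 2 * y ^ 2 + a * y ^ 3 + y ^ 4 - 13 * (a ^ 2 + a * y + y ^ 2) + 36 = 0 :=
    fun y h hy => mul_left_cancel₀ (sub_ne_zero.mpr h) (by linear_combination ha - hy)
  have d2 : ∀ y : ℚ, a ≠ y → b ≠ y → y ^ 5 - 13 * y ^ 3 + 36 * y = T →
      a ^ 3 + a ^ 2 * (b + y) + a * (b ^ 2 + b * y + y ^ 2) + (b ^ 3 + b ^ 2 * y + b * y ^ 2 + y ^ 3)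
        - 13 * (a + b + y) = 0 :=
    fun y h h' hy => mul_left_cancel₀ (sub_ne_zero.mpr h')
      (by linear_combination d1 b hab hb - d1 y h hy)
  have d3 : ∀ y : ℚ, a ≠ y → b ≠ y → c ≠ y → y ^ 5 - 13 * y ^ 3 + 36 * y = T →
      a ^ 2 + b ^ 2 + c ^ 2 + y ^ 2 + a * b + a * c + a * y + b * c + b * y + c * y - 13 = 0 :=
    fun y h h' h'' hy => mul_left_cancel₀ (sub_ne_zero.mpr h'')
      (by linear_combination d2 c hac hbc hc - d2 y h h' hy)
  have d4 : a + b + c + d + e = 0 := mul_left_cancel₀ (sub_ne_zero.mpr hde)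
      (by linear_combination d3 d had hbd hcd hd - d3 e hae hbe hce he)
  have q0 := congrArg (Rat.cast : ℚ → ℝ) ha
  have q1 := congrArg (Rat.cast : ℚ → ℝ) (d1 b hab hb)
  have q2 := congrArg (Rat.cast : ℚ → ℝ) (d2 c hac hbc hc)
  have q3 := congrArg (Rat.cast : ℚ → ℝ) (d3 d had hbd hcd hd)
  have q4 := congrArg (Rat.cast : ℚ → ℝ) d4
  push_cast at q0 q1 q2 q3 q4
  linear_combination q0 + (x - a) * q1 + (x - a) * (x - b) * q2 + (x - a) * (x - b) * (x - c) * q3 +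
    (x - a) * (x - b) * (x - c) * (x - d) * q4

theorem disc_eq (a b c d e T : ℝ)
    (h : ∀ x : ℝ, x ^ 5 - 13 * x ^ 3 + 36 * x - T = (x - a) * (x - b) * (x - c) * (x - d) * (x - e)) :
    ((a - b) * (a - c) * (a - d) * (a - e) * (b - c) * (b - d) * (b - e) * (c - d) * (c - e) *
      (d - e)) ^ 2 = 3125 * T ^ 4 - 2612844 * T ^ 2 + 466560000 := by
  have h0 := h 0
  have h1 := h 1
  have h2 := h (-1)
  have h3 := h 2
  have h4 := h (-2)
  have v1 : a + b + c + d + e = 0 := by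
    linear_combination (1 / 24 : ℝ) * (6 * h0 - 4 * h1 - 4 * h2 + h3 + h4)
  have v2 : a * b + a * c + a * d + a * e + b * c + b * d + b * e + c * d + c * e + d * e = -13 := by
    linear_combination (1 / 12 : ℝ) * (2 * h1 - 2 * h2 - h3 + h4)
  have v3 : a * b * c + a * b * d + a * b * e + a * c * d + a * c * e + a * d * e + b * c * d +
      b * c * e + b * d * e + c * d * e = 0 := by
    linear_combination (1 / 2 : ℝ) * (h1 + h2 - 2 * h0) - v1
  have v4 : a * b * c * d + a * b * c * e + a * b * d * e + a * c * d * e + b * c * d * e = 36 := by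
    linear_combination (1 / 2 : ℝ) * (h2 - h1) - v2
  obtain ⟨u, v, hu, hv, hs, hp⟩ : ∃ u v : ℝ, 0 ≤ u ∧ 0 ≤ v ∧ u + v = 39 / 5 ∧ u * v = 36 / 5 := by
    have s1 := Real.sq_sqrt (show (0 : ℝ) ≤ 801 by norm_num)
    have s2 := Real.sqrt_nonneg 801
    refine ⟨(39 + √801) / 10, (39 - √801) / 10, by positivity, ?_, by ring, by linear_combination (-1 / 100 : ℝ) * s1⟩
    have : √801 ≤ 39 := by nlinarith
    linarith
  have nm : ∀ w : ℝ, 0 ≤ w → 5 * w ^ 2 - 39 * w + 36 = 0 →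
      (a ^ 2 - w) * (b ^ 2 - w) * (c ^ 2 - w) * (d ^ 2 - w) * (e ^ 2 - w) =
        T ^ 2 - (398736 - 35244 * w) / 625 := by
    intro w hw hq
    obtain ⟨k, rfl⟩ : ∃ k : ℝ, w = k ^ 2 := ⟨√w, (Real.sq_sqrt hw).symm⟩
    have e1 : (a ^ 2 - k ^ 2) * (b ^ 2 - k ^ 2) * (c ^ 2 - k ^ 2) * (d ^ 2 - k ^ 2) * (e ^ 2 - k ^ 2) =
      ((k - a) * (k - b) * (k - c) * (k - d) * (k - e)) *
        ((-k - a) * (-k - b) * (-k - c) * (-k - d) * (-k - e)) := by ring
    rw [e1, ← h k, ← h (-k)]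
    linear_combination -(k ^ 6 / 5 - 91 / 25 * k ^ 4 + 2296 / 125 * k ^ 2 - 11076 / 625) * hq
  have nu := nm u hu (by linear_combination 5 * u * hs - 5 * hp)
  have nv := nm v hv (by linear_combination 5 * v * hs - 5 * hp)
  have dv : ∀ x : ℝ, 5 * (x ^ 2 - u) * (x ^ 2 - v) = 5 * x ^ 4 - 39 * x ^ 2 + 36 := fun x => by
    linear_combination -5 * x ^ 2 * hs + 5 * hp
  have da : (a - b) * (a - c) * (a - d) * (a - e) = 5 * (a ^ 2 - u) * (a ^ 2 - v) := by
    rw [dv]; linear_combination -4 * a ^ 3 * v1 + 3 * a ^ 2 * v2 - 2 * a * v3 + v4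
  have db : (b - a) * (b - c) * (b - d) * (b - e) = 5 * (b ^ 2 - u) * (b ^ 2 - v) := by
    rw [dv]; linear_combination -4 * b ^ 3 * v1 + 3 * b ^ 2 * v2 - 2 * b * v3 + v4
  have dc : (c - a) * (c - b) * (c - d) * (c - e) = 5 * (c ^ 2 - u) * (c ^ 2 - v) := by
    rw [dv]; linear_combination -4 * c ^ 3 * v1 + 3 * c ^ 2 * v2 - 2 * c * v3 + v4
  have dd : (d - a) * (d - b) * (d - c) * (d - e) = 5 * (d ^ 2 - u) * (d ^ 2 - v) := by
    rw [dv]; linear_combination -4 * d ^ 3 * v1 + 3 * d ^ 2 * v2 - 2 * d * v3 + v4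
  have de : (e - a) * (e - b) * (e - c) * (e - d) = 5 * (e ^ 2 - u) * (e ^ 2 - v) := by
    rw [dv]; linear_combination -4 * e ^ 3 * v1 + 3 * e ^ 2 * v2 - 2 * e * v3 + v4
  calc _ = ((a - b) * (a - c) * (a - d) * (a - e)) * ((b - a) * (b - c) * (b - d) * (b - e)) *
        ((c - a) * (c - b) * (c - d) * (c - e)) * ((d - a) * (d - b) * (d - c) * (d - e)) *
        ((e - a) * (e - b) * (e - c) * (e - d)) := by
        generalize hab : a - b = ab
        generalize hac : a - c = ac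
        generalize had : a - d = ad
        generalize hae : a - e = ae
        generalize hbc : b - c = bc
        generalize hbd : b - d = bd
        generalize hbe : b - e = be
        generalize hcd : c - d = cd
        generalize hce : c - e = ce
        generalize hde : d - e = de
        rw [show b - a = -ab by linarith, show c - a = -ac by linarith, show d - a = -ad by linarith,
          show e - a = -ae by linarith, show c - b = -bc by linarith, show d - b = -bd by linarith,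
          show e - b = -be by linarith, show d - c = -cd by linarith, show e - c = -ce by linarith,
          show e - d = -de by linarith]
        ring
    _ = 3125 * ((a ^ 2 - u) * (b ^ 2 - u) * (c ^ 2 - u) * (d ^ 2 - u) * (e ^ 2 - u)) *
        ((a ^ 2 - v) * (b ^ 2 - v) * (c ^ 2 - v) * (d ^ 2 - v) * (e ^ 2 - v)) := by
        rw [da, db, dc, dd, de]
        generalize a ^ 2 - u = a1
        generalize b ^ 2 - u = b1
        generalize c ^ 2 - u = c1
        generalize d ^ 2 - u = d1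
        generalize e ^ 2 - u = e1
        generalize a ^ 2 - v = a2
        generalize b ^ 2 - v = b2
        generalize c ^ 2 - v = c2
        generalize d ^ 2 - v = d2
        generalize e ^ 2 - v = e2
        ring
    _ = _ := by
        rw [nu, nv]
        linear_combination (5 * 35244 * T ^ 2 - 398736 * 35244 / 125) * hs + 35244 ^ 2 / 125 * hp

theorem no_root (s : ℚ) (T : ℚ) (h : s ^ 5 - 13 * s ^ 3 + 36 * s = T) : T ^ 2 ≠ 5184 / 25 := by
  intro hT
  obtain ⟨m, n, hn, hmn, rfl⟩ : ∃ m n : ℤ, 0 < n ∧ IsCoprime m n ∧ s = m / n :=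
    ⟨s.num, s.den, by exact_mod_cast s.pos, Int.isCoprime_iff_gcd_eq_one.mpr s.reduced,
      (Rat.num_div_den s).symm⟩
  have hn0 : (n : ℚ) ≠ 0 := by exact_mod_cast hn.ne'
  have p5 : Prime (5 : ℤ) := Int.prime_iff_natAbs_prime.mpr (by norm_num)
  obtain ⟨k, hk, hk5⟩ : ∃ k : ℤ, T = k / 5 ∧ ¬ (5 : ℤ) ∣ k := by
    have : (T - 72 / 5) * (T + 72 / 5) = 0 := by linear_combination hT
    rcases mul_eq_zero.mp this with h1 | h1
    · exact ⟨72, by push_cast; linarith, by decide⟩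
    · exact ⟨-72, by push_cast; linarith, by decide⟩
  rw [hk] at h
  field_simp at h
  have h1 : 5 * (m ^ 5 - 13 * m ^ 3 * n ^ 2 + 36 * m * n ^ 4) = k * n ^ 5 := by
    have : (5 : ℚ) * (m ^ 5 - 13 * m ^ 3 * n ^ 2 + 36 * m * n ^ 4) = k * n ^ 5 := by
      linear_combination h
    exact_mod_cast this
  obtain ⟨n, rfl⟩ : (5 : ℤ) ∣ n :=
    p5.dvd_of_dvd_pow ((p5.dvd_or_dvd ⟨_, h1.symm⟩).resolve_left hk5)
  have : (5 : ℤ) ∣ m := p5.dvd_of_dvd_pow (n := 5)
    ⟨65 * m ^ 3 * n ^ 2 - 4500 * m * n ^ 4 + 125 * k * n ^ 5, by linarith⟩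
  exact p5.not_isUnit (hmn.isUnit_of_dvd' this ⟨n, rfl⟩)

theorem no_shift (f : Fin 5 → ℚ) (hf : Function.Injective f) (T : ℚ) (hT : T ≠ 0)
    (h : ∀ i, f i ^ 5 - 13 * f i ^ 3 + 36 * f i = T) : False := by
  have ne : ∀ i j : Fin 5, i ≠ j → f i ≠ f j := fun i j hij h0 => hij (hf h0)
  have h1 := disc_eq (f 0) (f 1) (f 2) (f 3) (f 4) T (factor _ _ _ _ _ T
    (ne 0 1 (by decide)) (ne 0 2 (by decide)) (ne 0 3 (by decide)) (ne 0 4 (by decide))
    (ne 1 2 (by decide)) (ne 1 3 (by decide)) (ne 1 4 (by decide)) (ne 2 3 (by decide))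
    (ne 2 4 (by decide)) (ne 3 4 (by decide)) (h 0) (h 1) (h 2) (h 3) (h 4))
  obtain ⟨z, hz⟩ : ∃ z : ℚ, z ^ 2 = 3125 * T ^ 4 - 2612844 * T ^ 2 + 466560000 :=
    ⟨_, by exact_mod_cast h1⟩
  have h2 := disc_curve (T / 6) (z / 36) (by positivity) (by linear_combination hz / 1296)
  exact no_root (f 0) T (h 0) (by linear_combination 36 * h2)

end Pool.Agent.H16.Quintic
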