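import Mathlib

set_option autoImplicit false

namespace Pool.Agent.H16.Rich
open Finset

/-- The factor of length `n` of the infinite word `u` at position `i`. -/
def fac (u : ℕ → Bool) (i n : ℕ) : List Bool := (List.range n).map fun j => u (i + j)

/-- Exactly `n + 1` distinct factors of each length `n`. -/
def Sturmian (u : ℕ → Bool) : Prop := ∀ n, {w | ∃ i, w = fac u i n}.ncard = n + 1

/-- The sum-mod-2 map. -/
def S (u : ℕ → Bool) : ℕ → Bool := fun n => xor (u n) (u (n + 1))

/-- Every factor `w` has `|w| + 1` distinct palindromic factors (the empty word included). -/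
def Rich (u : ℕ → Bool) : Prop :=
  ∀ i n, {p : List Bool | p <:+: fac u i n ∧ p.reverse = p}.ncard = n + 1

/-- The generalized Thue-Morse word: parity of the digit sum in base `b`. -/
def tm (b : ℕ) : ℕ → Bool := fun n => decide ((Nat.digits b n).sum % 2 = 1)

def pals (w : List Bool) : Finset (List Bool) :=
  ((w.tails.flatMap List.inits).filter fun p => p.reverse = p).toFinset

theorem pals_card (w : List Bool) :
    {p : List Bool | p <:+: w ∧ p.reverse = p}.ncard = #(pals w) := by
  rw [← Set.ncard_coe_finset]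
  congr 1
  ext p
  simp [pals, List.infix_iff_prefix_suffix, and_comm]

def sl : List Bool → List Bool
  | a :: b :: l => xor a b :: sl (b :: l)
  | _ => []

theorem fac_succ (u : ℕ → Bool) (i n : ℕ) : fac u i (n + 1) = u i :: fac u (i + 1) n := by
  simp [fac, List.range_succ_eq_map, Nat.add_assoc, Nat.add_comm 1]

theorem fac_S (u : ℕ → Bool) (i n : ℕ) : fac (S u) i n = sl (fac u i (n + 1)) := by
  induction n generalizing i with
  | zero => rfl
  | succ n ih => rw [fac_succ, ih, fac_succ u i, fac_succ u (i + 1)]; rfl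

theorem fac_iter (k : ℕ) (u : ℕ → Bool) (i n : ℕ) :
    fac (S^[k] u) i n = sl^[k] (fac u i (n + k)) := by
  induction k generalizing n with
  | zero => rfl
  | succ k ih =>
    rw [Function.iterate_succ_apply', Function.iterate_succ_apply', fac_S, ih]
    congr 3
    omega

theorem tm_not : ¬ Rich (S^[9] (tm 6)) := fun h => by
  have := h 17 17
  rw [pals_card, fac_iter] at this
  revert this
  decide +kernel

/-- The lower mechanical word of slope `α`. -/
noncomputable def mech (α : ℝ) : ℕ → Bool := fun n => decide (⌊(n + 1 : ℕ) * α⌋ ≠ ⌊(n : ℕ) * α⌋)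

theorem fin_fac (u : ℕ → Bool) (n : ℕ) : {w | ∃ i, w = fac u i n}.Finite :=
  (List.finite_length_eq Bool n).subset (by rintro _ ⟨i, rfl⟩; simp [fac])

theorem lower (u : ℕ → Bool) (h : ∀ i q, 0 < q → ¬ ∀ t, u (i + t) = u (i + q + t)) (n : ℕ) :
    n + 1 ≤ {w | ∃ i, w = fac u i n}.ncard := by
  induction n with
  | zero => exact (Set.ncard_pos (fin_fac u 0)).2 ⟨_, 0, rfl⟩
  | succ n ih =>
    by_contra h1
    have e : ∀ i, (fac u i (n + 1)).dropLast = fac u i n := fun i => by
      simp [fac, List.range_succ]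
    have im : List.dropLast '' {w | ∃ i, w = fac u i (n + 1)} = {w | ∃ i, w = fac u i n} := by
      ext w
      constructor
      · rintro ⟨_, ⟨i, rfl⟩, rfl⟩; exact ⟨i, e i⟩
      · rintro ⟨i, rfl⟩; exact ⟨_, ⟨i, rfl⟩, e i⟩
    have inj := Set.injOn_of_ncard_image_eq (f := List.dropLast) (le_antisymm
      (Set.ncard_image_le (fin_fac u _)) (by rw [im]; omega)) (fin_fac u (n + 1))
    have step : ∀ i j, fac u i n = fac u j n → u i = u j ∧ fac u (i + 1) n = fac u (j + 1) n :=
      fun i j hij => by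
        have := inj ⟨i, rfl⟩ ⟨j, rfl⟩ (by rw [e, e, hij])
        simpa [fac_succ] using this
    obtain ⟨i, j, hij, h2⟩ := Set.Finite.exists_lt_map_eq_of_forall_mem
      (f := fun i : ℕ => fac u i n) (fun i => by exact ⟨i, rfl⟩) (fin_fac u n)
    obtain ⟨q, rfl⟩ := Nat.exists_eq_add_of_lt hij
    have : ∀ t, fac u (i + t) n = fac u (i + q + 1 + t) n := fun t => by
      induction t with
      | zero => exact h2
      | succ t ih => exact (step _ _ ih).2
    exact h i (q + 1) q.succ_pos fun t => (step _ _ (this t)).1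

theorem floor_step {α : ℝ} (h0 : 0 < α) (h1 : α < 1) (n : ℕ) :
    ⌊(n + 1 : ℕ) * α⌋ = ⌊(n : ℕ) * α⌋ + (mech α n).toNat := by
  have a : ⌊(n : ℕ) * α⌋ ≤ ⌊(n + 1 : ℕ) * α⌋ := Int.floor_le_floor (by push_cast; nlinarith)
  have b : ⌊(n + 1 : ℕ) * α⌋ ≤ ⌊(n : ℕ) * α + 1⌋ := Int.floor_le_floor (by push_cast; nlinarith)
  rw [Int.floor_add_one] at b
  unfold mech
  by_cases e : ⌊(n + 1 : ℕ) * α⌋ = ⌊(n : ℕ) * α⌋
  · rw [decide_eq_false (not_not.2 e)]; simpa using e
  · rw [decide_eq_true e]; simp only [Bool.toNat_true]; omega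

theorem mech_sturm {α : ℝ} (h0 : 0 < α) (h1 : α < 1) (hi : Irrational α) : Sturmian (mech α) := by
  classical
  intro n
  refine le_antisymm ?_ (lower _ (fun i q hq h => ?_) n)
  · let T : ℕ → Finset ℕ := fun i =>
      {j ∈ range n | 1 ≤ Int.fract ((i : ℝ) * α) + Int.fract (((j + 1 : ℕ) : ℝ) * α)}
    have fl : ∀ i j : ℕ, ⌊((i + j : ℕ) : ℝ) * α⌋ = ⌊(i : ℝ) * α⌋ + ⌊(j : ℝ) * α⌋ +
        if 1 ≤ Int.fract ((i : ℝ) * α) + Int.fract ((j : ℝ) * α) then 1 else 0 := fun i j => by
      have a := Int.floor_add_fract ((i : ℝ) * α)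
      have b := Int.floor_add_fract ((j : ℝ) * α)
      have := Int.fract_nonneg ((i : ℝ) * α)
      have := Int.fract_nonneg ((j : ℝ) * α)
      have := Int.fract_lt_one ((i : ℝ) * α)
      have := Int.fract_lt_one ((j : ℝ) * α)
      rw [Int.floor_eq_iff]
      split_ifs <;> push_cast <;> constructor <;> linarith
    have key : ∀ i i', #(T i) = #(T i') → fac (mech α) i n = fac (mech α) i' n := by
      intro i i' h
      have hT : T i = T i' := by
        rcases le_total (Int.fract ((i : ℝ) * α)) (Int.fract ((i' : ℝ) * α)) with e | e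
        · exact eq_of_subset_of_card_le (fun j hj => mem_filter.2
            ⟨(mem_filter.1 hj).1, by linarith [(mem_filter.1 hj).2]⟩) h.ge
        · exact (eq_of_subset_of_card_le (fun j hj => mem_filter.2
            ⟨(mem_filter.1 hj).1, by linarith [(mem_filter.1 hj).2]⟩) h.le).symm
      have d : ∀ j ≤ n, ⌊((i + j : ℕ) : ℝ) * α⌋ - ⌊(i : ℝ) * α⌋ =
          ⌊((i' + j : ℕ) : ℝ) * α⌋ - ⌊(i' : ℝ) * α⌋ := fun j hj => by
        rcases j with _ | j
        · simp
        have : j ∈ T i ↔ j ∈ T i' := by rw [hT]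
        simp only [T, mem_filter, mem_range, show j < n from hj, true_and] at this
        rw [fl i, fl i', if_congr this rfl rfl]
        omega
      refine List.map_congr_left fun j hj => ?_
      have := d j (List.mem_range.1 hj).le
      have := d (j + 1) (List.mem_range.1 hj)
      exact decide_eq_decide.2 (by rw [add_assoc, add_assoc]; omega)
    let g : ℕ → List Bool := fun c => if h : ∃ i, #(T i) = c then fac (mech α) h.choose n else []
    refine le_trans (Set.ncard_le_ncard (t := ((range (n + 1)).image g : Finset _)) ?_) ?_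
    · rintro _ ⟨i, rfl⟩
      have e : ∃ i', #(T i') = #(T i) := ⟨i, rfl⟩
      refine mem_coe.2 (mem_image.2 ⟨#(T i), mem_range.2 (Nat.lt_succ_of_le
        ((card_filter_le _ _).trans (by simp))), ?_⟩)
      simp only [g, dif_pos e]
      exact key _ _ e.choose_spec
    · rw [Set.ncard_coe_finset]
      exact card_image_le.trans (by simp)
  · have a : ∀ t, ⌊((i + q + t : ℕ) : ℝ) * α⌋ - ⌊((i + t : ℕ) : ℝ) * α⌋ =
        ⌊((i + q : ℕ) : ℝ) * α⌋ - ⌊(i : ℝ) * α⌋ := fun t => by
      induction t with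
      | zero => simp
      | succ t ih =>
        rw [← add_assoc, ← add_assoc, floor_step h0 h1, floor_step h0 h1, h t]
        omega
    obtain ⟨c, hc⟩ : ∃ c, c = ⌊((i + q : ℕ) : ℝ) * α⌋ - ⌊(i : ℝ) * α⌋ := ⟨_, rfl⟩
    have b : ∀ m : ℕ, ⌊((i + m * q : ℕ) : ℝ) * α⌋ = ⌊(i : ℝ) * α⌋ + m * c := fun m => by
      induction m with
      | zero => simp
      | succ m ih =>
        have := a (m * q)
        rw [show i + (m + 1) * q = i + q + m * q by ring]
        push_cast at *
        linarith
    have ne : (q : ℝ) * α - c ≠ 0 := sub_ne_zero.2 ((hi.natCast_mul hq.ne').ne_int c)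
    obtain ⟨m, hm⟩ := exists_nat_gt (1 / |(q : ℝ) * α - c|)
    rw [div_lt_iff₀ (abs_pos.2 ne), ← Nat.abs_cast m, ← abs_mul] at hm
    have x1 := Int.floor_le ((i : ℝ) * α)
    have x2 := Int.lt_floor_add_one ((i : ℝ) * α)
    have x3 := Int.floor_le (((i + m * q : ℕ) : ℝ) * α)
    have x4 := Int.lt_floor_add_one (((i + m * q : ℕ) : ℝ) * α)
    rw [b] at x3 x4
    push_cast at x3 x4
    exact absurd hm (not_lt.2 (abs_le.2 ⟨by nlinarith, by nlinarith⟩))

def m2 (n : ℕ) : Bool := decide (Nat.sqrt (2 * (n + 1) ^ 2) ≠ Nat.sqrt (2 * n ^ 2) + 1)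

theorem m2_eq : mech (√2 - 1) = m2 := by
  have : ∀ n : ℕ, ⌊(n : ℝ) * (√2 - 1)⌋ = (Nat.sqrt (2 * n ^ 2) : ℤ) - n := fun n => by
    have e : (n : ℝ) * (√2 - 1) = √((2 * n ^ 2 : ℕ) : ℝ) - n := by
      push_cast
      rw [Real.sqrt_mul (by norm_num), Real.sqrt_sq (by positivity)]
      ring
    rw [e, Int.floor_sub_natCast, ← Real.nat_floor_real_sqrt_eq_nat_sqrt,
      Int.natCast_floor_eq_floor (Real.sqrt_nonneg _)]
  funext n
  unfold mech m2
  rw [this, this]
  exact decide_eq_decide.2 (by omega)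

theorem m2_sturm : Sturmian m2 := by
  have a : (1 : ℝ) < √2 := Real.lt_sqrt_of_sq_lt (by norm_num)
  have b : √2 < (2 : ℝ) := (Real.sqrt_lt' (by norm_num)).2 (by norm_num)
  exact m2_eq ▸ mech_sturm (by linarith) (by linarith) (by simpa using irrational_sqrt_two.sub_natCast 1)

theorem m2_not : ¬ Rich (S^[6] m2) := fun h => by
  have := h 0 13
  rw [pals_card, fac_iter] at this
  revert this
  decide +kernel

end Pool.Agent.H16.Rich
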