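import Mathlib

set_option autoImplicit false

namespace Pool.Agent.H16.Sal

/-- The ordered alphabet a < b < c. -/
inductive L : Type
  | a : L
  | b : L
  | c : L
  deriving DecidableEq

open L

/-- Number of occurrences of `u` as a scattered subword of `w`: `List.sublists w` lists one
sublist for every set of positions of `w`. -/
def occ (w u : List L) : ℕ := (List.sublists w).count u

/-- The pairs of the system R. -/
def Rule (y y' : List L) : Prop :=
  (y = [a, c] ∧ y' = [c, a]) ∨
  (∃ x : List L, y = [a, b] ++ x ++ [b, a] ∧ y' = [b, a] ++ x ++ [a, b]) ∨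
  (∃ x : List L, y = [b, c] ++ x ++ [c, b] ∧ y' = [c, b] ++ x ++ [b, c])

/-- A direct step: one rule, in either direction, applied to a factor. -/
def Step (w w' : List L) : Prop :=
  ∃ x z y y' : List L, (Rule y y' ∨ Rule y' y) ∧ w = x ++ y ++ z ∧ w' = x ++ y' ++ z

/-- `w'` is reached from `w` by exactly `n` direct steps. -/
def Steps : ℕ → List L → List L → Prop
  | 0, w, w' => w = w'
  | n + 1, w, w' => ∃ v, Step w v ∧ Steps n v w'

/-- Reachability by finitely many direct steps. -/
def Reach (w w' : List L) : Prop := ∃ n, Steps n w w'

/-- The least number of direct steps from `w` to `w'`. -/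
noncomputable def dist (w w' : List L) : ℕ := sInf {n | Steps n w w'}

/-- The relation of the Parikh rewriting system. -/
def PRel (w w' : List L) : Prop := Reach w w' ∧ occ w [a, b, c] = occ w' [a, b, c]

/-- Irreducible transformations (their order is `dist w w'`). -/
def Irred (w w' : List L) : Prop :=
  w ≠ w' ∧ PRel w w' ∧
    ¬ ∃ v, v ≠ w ∧ v ≠ w' ∧ PRel w v ∧ PRel v w' ∧ dist w v + dist v w' = dist w w'

/-- Expressible by a chain of irreducible transformations of order `< n`. -/
def Expr (n : ℕ) (w w' : List L) : Prop :=
  Relation.ReflTransGen (fun u v => Irred u v ∧ dist u v < n) w w'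

end Pool.Agent.H16.Sal
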