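import Mathlib
import Pool.Agent.H16.SalDefs

set_option autoImplicit false

namespace Pool.Agent.H16.Sal
open L

theorem occ_eq (w u : List L) : occ w u = (List.sublists' w).count u := by
  unfold occ
  exact (List.sublists_perm_sublists' w).count_eq u

theorem count_map_cons (l m : L) (u : List L) (S : List (List L)) :
    (S.map (List.cons l)).count (m :: u) = if l = m then S.count u else 0 := by
  induction S with
  | nil => simp
  | cons s S ih =>
    simp only [List.map_cons, List.count_cons, ih]
    by_cases h : l = m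
    · subst h; simp
    · simp [h]

theorem occ_cons (l m : L) (w u : List L) :
    occ (l :: w) (m :: u) = occ w (m :: u) + if l = m then occ w u else 0 := by
  rw [occ_eq, occ_eq, occ_eq, List.sublists'_cons, List.count_append, count_map_cons]

theorem occ_nil' (w : List L) : occ w [] = 1 := by
  induction w with
  | nil => simp [occ]
  | cons l w ih =>
    rw [occ_eq] at *
    rw [List.sublists'_cons, List.count_append, ih]
    have : (List.map (List.cons l) w.sublists').count [] = 0 := by
      rw [List.count_eq_zero]; simp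
    omega

theorem occ_nil (m : L) (u : List L) : occ [] (m :: u) = 0 := by simp [occ]

def nb : List L → ℕ
  | [] => 0
  | l :: u => nb u + if l = b then 1 else 0

def s (m : L) (i : ℕ) : List L → ℕ
  | [] => 0
  | l :: u => s m i u + if l = m ∧ nb u = i then 1 else 0

def cn (m : L) : List L → ℕ
  | [] => 0
  | l :: u => cn m u + if l = m then 1 else 0

theorem nb_app (x y : List L) : nb (x ++ y) = nb x + nb y := by
  induction x with
  | nil => simp [nb]
  | cons l x ih => simp only [List.cons_append, nb, ih]; omega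

theorem s_app0 (m : L) (i : ℕ) (x y : List L) (hx : nb x = 0) :
    s m i (x ++ y) = s m i y + if nb y = i then cn m x else 0 := by
  induction x with
  | nil => simp [cn]
  | cons l x ih =>
    simp only [nb] at hx
    have h0 : nb x = 0 := by omega
    simp only [List.cons_append, s, ih h0, nb_app, h0, cn, zero_add]
    by_cases h1 : nb y = i <;> by_cases h2 : l = m <;> simp [h1, h2]; omega

theorem s_congr (m : L) (i : ℕ) (x y y' : List L) (h1 : nb y = nb y') (h2 : s m i y = s m i y') :
    s m i (x ++ y) = s m i (x ++ y') := by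
  induction x with
  | nil => simpa
  | cons l x ih => simp only [List.cons_append, s, ih, nb_app, h1]

theorem form (u : List L) :
    (nb u = 0 → occ u [c] = s c 0 u ∧ occ u [b, c] = 0 ∧ occ u [a, b, c] = 0 ∧
      s a 1 u = 0 ∧ s c 1 u = 0 ∧ s a 2 u = 0) ∧
    (nb u = 1 → occ u [c] = s c 0 u + s c 1 u ∧ occ u [b, c] = s c 0 u ∧
      occ u [a, b, c] = s a 1 u * s c 0 u ∧ s a 2 u = 0) ∧
    (nb u = 2 → occ u [b, c] = 2 * s c 0 u + s c 1 u ∧
      occ u [a, b, c] = s a 2 u * (2 * s c 0 u + s c 1 u) + s a 1 u * s c 0 u) := by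
  induction u with
  | nil => simp [nb, s, occ_nil]
  | cons l u ih =>
    obtain ⟨h0, h1, h2⟩ := ih
    cases l
    · refine ⟨fun h => ?_, fun h => ?_, fun h => ?_⟩
      · simp [nb] at h
        obtain ⟨e1, e2, e3, e4, e5, e6⟩ := h0 h
        simp [occ_cons, s, *]
      · simp [nb] at h
        obtain ⟨e1, e2, e3, e4⟩ := h1 h
        simp [occ_cons, s, *]; ring
      · simp [nb] at h
        obtain ⟨e1, e2⟩ := h2 h
        simp [occ_cons, s, *]; ring
    · refine ⟨fun h => ?_, fun h => ?_, fun h => ?_⟩
      · simp [nb] at h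
      · simp [nb] at h
        obtain ⟨e1, e2, e3, e4, e5, e6⟩ := h0 h
        simp [occ_cons, s, *]
      · simp [nb] at h
        obtain ⟨e1, e2, e3, e4⟩ := h1 h
        simp [occ_cons, s, *]; ring
    · refine ⟨fun h => ?_, fun h => ?_, fun h => ?_⟩
      · simp [nb] at h
        obtain ⟨e1, e2, e3, e4, e5, e6⟩ := h0 h
        simp [occ_cons, occ_nil', s, *]
      · simp [nb] at h
        obtain ⟨e1, e2, e3, e4⟩ := h1 h
        simp [occ_cons, occ_nil', s, *]; ring
      · simp [nb] at h
        obtain ⟨e1, e2⟩ := h2 h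
        simp [occ_cons, s, *]

def J (p : ℕ) (u : List L) : Prop :=
  nb u = 2 ∧ s a 0 u = s a 2 u ∧ s c 0 u = s c 2 u ∧ 2 * s a 0 u + s a 1 u = p ∧
    2 * s c 0 u + s c 1 u = p

theorem rule_inv (p : ℕ) (x z y y' : List L) (h : Rule y y') :
    (J p (x ++ y ++ z) ↔ J p (x ++ y' ++ z)) ∧
    (J p (x ++ y ++ z) → s a 1 (x ++ y ++ z) ≤ s a 1 (x ++ y' ++ z) + 2 ∧
      s a 1 (x ++ y' ++ z) ≤ s a 1 (x ++ y ++ z) + 2) := by
  rcases h with ⟨rfl, rfl⟩ | ⟨t, rfl, rfl⟩ | ⟨t, rfl, rfl⟩
  · have e : ∀ m i, s m i (x ++ [a, c] ++ z) = s m i (x ++ [c, a] ++ z) := by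
      intro m i
      rw [List.append_assoc, List.append_assoc]
      apply s_congr
      · simp [nb]
      · simp only [List.cons_append, List.nil_append, s, nb]; simp; omega
    have e2 : nb (x ++ [a, c] ++ z) = nb (x ++ [c, a] ++ z) := by simp [nb_app, nb]
    unfold J
    rw [e2]; simp only [e]
    exact ⟨trivial, fun _ => ⟨by omega, by omega⟩⟩
  · have e2 : nb (x ++ ([a, b] ++ t ++ [b, a]) ++ z) = nb x + nb t + nb z + 2 := by
      simp [nb_app, nb]; omega
    have e3 : nb (x ++ ([b, a] ++ t ++ [a, b]) ++ z) = nb x + nb t + nb z + 2 := by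
      simp [nb_app, nb]; omega
    by_cases hh : nb x + nb t + nb z = 0
    · have hx : nb x = 0 := by omega
      have ht : nb t = 0 := by omega
      have hz : nb z = 0 := by omega
      unfold J
      rw [e2, e3]
      simp only [List.append_assoc, List.cons_append, List.nil_append, s_app0 _ _ x _ hx, s, nb,
        nb_app, s_app0 _ _ t _ ht, hx, ht, hz]
      simp
      omega
    · unfold J
      rw [e2, e3]
      constructor
      · constructor <;> (intro h; omega)
      · intro h; omega
  · have e2 : nb (x ++ ([b, c] ++ t ++ [c, b]) ++ z) = nb x + nb t + nb z + 2 := by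
      simp [nb_app, nb]; omega
    have e3 : nb (x ++ ([c, b] ++ t ++ [b, c]) ++ z) = nb x + nb t + nb z + 2 := by
      simp [nb_app, nb]; omega
    by_cases hh : nb x + nb t + nb z = 0
    · have hx : nb x = 0 := by omega
      have ht : nb t = 0 := by omega
      have hz : nb z = 0 := by omega
      unfold J
      rw [e2, e3]
      simp only [List.append_assoc, List.cons_append, List.nil_append, s_app0 _ _ x _ hx, s, nb,
        nb_app, s_app0 _ _ t _ ht, hx, ht, hz]
      simp
      omega
    · unfold J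
      rw [e2, e3]
      constructor
      · constructor <;> (intro h; omega)
      · intro h; omega

theorem step_inv (p : ℕ) {u v : List L} (h : Step u v) (hu : J p u) :
    J p v ∧ s a 1 v ≤ s a 1 u + 2 := by
  obtain ⟨x, z, y, y', h | h, rfl, rfl⟩ := h
  · obtain ⟨h1, h2⟩ := rule_inv p x z y y' h
    exact ⟨h1.1 hu, (h2 hu).2⟩
  · obtain ⟨h1, h2⟩ := rule_inv p x z y' y h
    exact ⟨h1.2 hu, (h2 (h1.2 hu)).1⟩

theorem steps_inv (p : ℕ) : ∀ (n : ℕ) {u v : List L}, Steps n u v → J p u →
    J p v ∧ s a 1 v ≤ s a 1 u + 2 * n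
  | 0, u, v, h, hu => by cases h; exact ⟨hu, by omega⟩
  | n + 1, u, v, ⟨t, h1, h2⟩, hu => by
    obtain ⟨a1, a2⟩ := step_inv p h1 hu
    obtain ⟨b1, b2⟩ := steps_inv p n h2 a1
    exact ⟨b1, by omega⟩

theorem prod_eq (p : ℕ) (u : List L) (hu : J p u) :
    2 * occ u [a, b, c] + s a 1 u * s c 1 u = p * p := by
  obtain ⟨h1, h2, h3, h4, h5⟩ := hu
  rw [((form u).2.2 h1).2, ← h2]
  have : p * p = (2 * s a 0 u + s a 1 u) * (2 * s c 0 u + s c 1 u) := by rw [h4, h5]
  rw [this]; ring

theorem steps_trans : ∀ (n m : ℕ) {u v w : List L}, Steps n u v → Steps m v w → Steps (m + n) u w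
  | 0, m, u, v, w, h, h' => by cases h; exact h'
  | n + 1, m, u, v, w, ⟨t, h1, h2⟩, h' => ⟨t, h1, steps_trans n m h2 h'⟩

theorem Reach.trans {u v w : List L} (h : Reach u v) (h' : Reach v w) : Reach u w := by
  obtain ⟨n, h⟩ := h
  obtain ⟨m, h'⟩ := h'
  exact ⟨_, steps_trans n m h h'⟩

theorem Reach.rfl' (u : List L) : Reach u u := ⟨0, rfl⟩

theorem Reach.one {u v : List L} (h : Step u v) : Reach u v := ⟨1, v, h, rfl⟩

theorem Step.symm {u v : List L} (h : Step u v) : Step v u := by
  obtain ⟨x, z, y, y', h, h1, h2⟩ := h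
  exact ⟨x, z, y', y, h.symm, h2, h1⟩

theorem steps_symm : ∀ (n : ℕ) {u v : List L}, Steps n u v → Reach v u
  | 0, u, v, h => by cases h; exact Reach.rfl' _
  | n + 1, u, v, ⟨t, h1, h2⟩ => (steps_symm n h2).trans (Reach.one h1.symm)

theorem Reach.symm {u v : List L} (h : Reach u v) : Reach v u := by
  obtain ⟨n, h⟩ := h
  exact steps_symm n h

open List in
theorem comm1 (x z : List L) (j : ℕ) :
    Reach (x ++ a :: (replicate j c ++ z)) (x ++ (replicate j c ++ a :: z)) := by
  induction j generalizing x with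
  | zero => exact Reach.rfl' _
  | succ j ih =>
    refine Reach.trans (Reach.one ⟨x, replicate j c ++ z, [a, c], [c, a],
      Or.inl (Or.inl ⟨rfl, rfl⟩), by simp [replicate_succ], rfl⟩) ?_
    have := ih (x ++ [c])
    simpa [replicate_succ] using this

open List in
theorem comm (x z : List L) (i j : ℕ) :
    Reach (x ++ (replicate i a ++ (replicate j c ++ z)))
      (x ++ (replicate j c ++ (replicate i a ++ z))) := by
  induction i generalizing x with
  | zero => simpa using Reach.rfl' _
  | succ i ih =>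
    have h1 := ih (x ++ [a])
    have h2 := comm1 x (replicate i a ++ z) j
    refine Reach.trans (by simpa [replicate_succ] using h1) (by simpa [replicate_succ] using h2)

theorem rep_app (k : ℕ) (m : L) (X : List L) :
    List.replicate (k + 1) m ++ X = List.replicate k m ++ m :: X := by
  rw [List.replicate_succ']; simp

open List in
theorem inA (t : List L) (k : ℕ) :
    Reach (replicate k a ++ b :: (t ++ b :: replicate k a))
      (b :: (replicate k a ++ (t ++ (replicate k a ++ [b])))) := by
  induction k generalizing t with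
  | zero => simpa using Reach.rfl' _
  | succ k ih =>
    refine Reach.trans (Reach.one ⟨replicate k a, replicate k a, [a, b] ++ t ++ [b, a],
      [b, a] ++ t ++ [a, b], Or.inl (Or.inr (Or.inl ⟨t, rfl, rfl⟩)), ?_, rfl⟩) ?_
    · rw [rep_app, replicate_succ]
      simp
    · have h1 := ih (a :: (t ++ [a]))
      rw [rep_app k a (t ++ _), replicate_succ]
      simpa using h1

open List in
theorem outC (t : List L) (k : ℕ) :
    Reach (b :: (replicate k c ++ (t ++ (replicate k c ++ [b]))))
      (replicate k c ++ b :: (t ++ b :: replicate k c)) := by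
  induction k generalizing t with
  | zero => simpa using Reach.rfl' _
  | succ k ih =>
    refine Reach.trans ?_ (Reach.one ⟨replicate k c, replicate k c, [b, c] ++ t ++ [c, b],
      [c, b] ++ t ++ [b, c], Or.inl (Or.inr (Or.inr ⟨t, rfl, rfl⟩)), rfl, ?_⟩)
    · have h1 := ih (c :: (t ++ [c]))
      rw [rep_app k c (t ++ _), replicate_succ]
      simpa using h1
    · rw [rep_app, replicate_succ]
      simp

theorem nb_rep (m : L) (hm : m ≠ b) (k : ℕ) : nb (List.replicate k m) = 0 := by
  induction k with
  | zero => rfl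
  | succ k ih => simp [List.replicate_succ, nb, ih, hm]

theorem cn_rep (m m' : L) (k : ℕ) : cn m (List.replicate k m') = if m' = m then k else 0 := by
  induction k with
  | zero => simp [cn]
  | succ k ih =>
    simp only [List.replicate_succ, cn, ih]
    split_ifs <;> rfl

theorem s_rep (m m' : L) (hm : m' ≠ b) (i k : ℕ) :
    s m i (List.replicate k m') = if i = 0 ∧ m' = m then k else 0 := by
  have := s_app0 m i (List.replicate k m') [] (nb_rep m' hm k)
  simp only [List.append_nil, s, nb, cn_rep, zero_add] at this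
  rw [this]
  by_cases h1 : i = 0 <;> by_cases h2 : m' = m <;> simp [h1, h2]
  · omega

open List in
def w0 (k : ℕ) : List L :=
  replicate k a ++ b :: ((a :: replicate (2 * k + 1) c) ++ b :: replicate k a)

open List in
def w1 (k : ℕ) : List L :=
  replicate k c ++ b :: ((replicate (2 * k + 1) a ++ [c]) ++ b :: replicate k c)

open List in
theorem reach01 (k : ℕ) : Reach (w0 k) (w1 k) := by
  refine Reach.trans (inA _ k) (Reach.trans ?_ (outC _ k))
  -- b a^k a c^(2k+1) a^k b  to  b c^k a^(2k+1) c c^k b
  have e1 : b :: (replicate k a ++ (a :: replicate (2 * k + 1) c ++ (replicate k a ++ [b]))) =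
      [b] ++ (replicate (k + 1) a ++ (replicate k c ++
        (replicate (k + 1) c ++ (replicate k a ++ [b])))) := by
    rw [rep_app, show 2 * k + 1 = k + (k + 1) by ring, replicate_add]
    simp only [List.append_assoc, List.cons_append, List.nil_append]
  have e2 : b :: (replicate k c ++ (replicate (2 * k + 1) a ++ [c] ++ (replicate k c ++ [b]))) =
      ([b] ++ replicate k c ++ replicate (k + 1) a) ++ (replicate k a ++
        (replicate (k + 1) c ++ [b])) := by
    rw [show 2 * k + 1 = (k + 1) + k by ring, replicate_add, replicate_succ (n := k) (a := c)]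
    simp only [List.append_assoc, List.cons_append, List.nil_append]
  rw [e1, e2]
  refine Reach.trans (comm _ _ _ _) ?_
  have := (comm ([b] ++ replicate k c ++ replicate (k + 1) a) [b] k (k + 1)).symm
  simpa only [List.append_assoc] using this

theorem w0_facts (k : ℕ) : J (2 * k + 1) (w0 k) ∧ s a 1 (w0 k) = 1 ∧ s c 1 (w0 k) = 2 * k + 1 := by
  have ha := nb_rep a (by decide)
  have hc := nb_rep c (by decide)
  unfold J w0
  simp only [List.cons_append, s_app0 _ _ _ _ (ha k), s, nb, nb_app, ha, hc,
    s_app0 _ _ _ _ (hc (2 * k + 1)), cn_rep, s_rep _ a (by decide)]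
  simp

theorem w1_facts (k : ℕ) : J (2 * k + 1) (w1 k) ∧ s a 1 (w1 k) = 2 * k + 1 ∧ s c 1 (w1 k) = 1 := by
  have ha := nb_rep a (by decide)
  have hc := nb_rep c (by decide)
  unfold J w1
  simp only [List.append_assoc, List.nil_append, List.cons_append, s_app0 _ _ _ _ (hc k), s, nb,
    nb_app, ha, hc, s_app0 _ _ _ _ (ha (2 * k + 1)), cn_rep, s_rep _ c (by decide)]
  simp

theorem dist_spec {u v : List L} (h : Reach u v) : Steps (dist u v) u v := Nat.sInf_mem h

theorem main (N : ℕ) : ∃ n, N ≤ n ∧ ∃ w w', Irred w w' ∧ dist w w' = n ∧ ¬ Expr n w w' := by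
  obtain ⟨p, hp1, hp⟩ := Nat.exists_infinite_primes (2 * N + 3)
  obtain ⟨k, rfl⟩ : Odd p := hp.odd_of_ne_two (by omega)
  set p := 2 * k + 1 with hpk
  let G : List L → Prop := fun u => J p u ∧ 2 * occ u [a, b, c] + p = p * p
  have hG : ∀ u, G u → s a 1 u = 1 ∨ s a 1 u = p := by
    intro u hu
    have h1 := prod_eq p u hu.1
    have h2 := hu.2
    exact hp.eq_one_or_self_of_dvd _ ⟨s c 1 u, by omega⟩
  have hP : ∀ u v, G u → PRel u v → G v := by
    intro u v hu ⟨⟨n, h1⟩, h2⟩
    exact ⟨(steps_inv p n h1 hu.1).1, h2 ▸ hu.2⟩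
  let S : Set ℕ := {n | ∃ u v, G u ∧ G v ∧ s a 1 u = 1 ∧ s a 1 v = p ∧ Reach u v ∧ dist u v = n}
  have hS : S.Nonempty := by
    obtain ⟨a1, a2, a3⟩ := w0_facts k
    obtain ⟨b1, b2, b3⟩ := w1_facts k
    refine ⟨_, w0 k, w1 k, ⟨a1, ?_⟩, ⟨b1, ?_⟩, a2, b2, reach01 k, rfl⟩
    · have := prod_eq p _ a1
      rw [a2, a3, one_mul] at this; exact this
    · have := prod_eq p _ b1
      rw [b2, b3, mul_one] at this; exact this
  obtain ⟨u, v, hu, hv, su, sv, huv, hd⟩ := Nat.sInf_mem hS
  have hmin : ∀ u' v', G u' → G v' → s a 1 u' = 1 → s a 1 v' = p → Reach u' v' →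
      sInf S ≤ dist u' v' := fun u' v' h1 h2 h3 h4 h5 =>
    Nat.sInf_le ⟨u', v', h1, h2, h3, h4, h5, rfl⟩
  refine ⟨sInf S, ?_, u, v, ⟨?_, ⟨huv, ?_⟩, ?_⟩, hd, ?_⟩
  · have := (steps_inv p _ (dist_spec huv) hu.1).2
    omega
  · rintro rfl; omega
  · have h1 := hu.2
    have h2 := hv.2
    omega
  · rintro ⟨t, t1, t2, t3, t4, t5⟩
    have ht := hP u t hu t3
    rcases hG t ht with h | h
    · have := hmin t v ht hv h sv t4.1
      have h0 : dist u t = 0 := by omega
      have := dist_spec t3.1
      rw [h0] at this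
      exact t1 (Eq.symm this)
    · have := hmin u t hu ht su h t3.1
      have h0 : dist t v = 0 := by omega
      have := dist_spec t4.1
      rw [h0] at this
      exact t2 this
  · intro hE
    have key : ∀ t, Relation.ReflTransGen (fun x y => Irred x y ∧ dist x y < sInf S) u t →
        G t ∧ s a 1 t = 1 := by
      intro t ht
      induction ht with
      | refl => exact ⟨hu, su⟩
      | tail _ hxy ih =>
        obtain ⟨⟨-, hxy, -⟩, hlt⟩ := hxy
        have hy := hP _ _ ih.1 hxy
        refine ⟨hy, ?_⟩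
        rcases hG _ hy with h | h
        · exact h
        · have := hmin _ _ ih.1 hy ih.2 h hxy.1
          omega
    have := (key v hE).2
    omega

end Pool.Agent.H16.Sal
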