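import Mathlib

set_option autoImplicit false

namespace Pool.Agent.H16.SatCol

/-- `a` is an `n`-smooth positive integer. -/
def Smooth (n a : ℕ) : Prop := 0 < a ∧ ∀ p : ℕ, p.Prime → p ∣ a → p ≤ n

/-- The group of positive rationals `a / b` with `a`, `b` both `n`-smooth. -/
def K (n : ℕ) : Set ℚ := {x | ∃ a b : ℕ, Smooth n a ∧ Smooth n b ∧ x = (a : ℚ) / b}

/-- `c` (read on `K n` only) is an `n`-satisfactory colouring. -/
def Sat (n : ℕ) (c : ℚ → ℕ) : Prop :=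
  (∀ x ∈ K n, c x ∈ Set.Icc 1 n) ∧ (∀ i : ℕ, i ∈ Set.Icc 1 n → c i = i) ∧
    ∀ x ∈ K n, ∀ i j : ℕ, 1 ≤ i → i < j → j ≤ n → c (i * x) ≠ c (j * x)

/-- The colour class of colour `k`. -/
def cls (n : ℕ) (c : ℚ → ℕ) (k : ℕ) : Set ℚ := {x | x ∈ K n ∧ c x = k}

/-- The part of the induced partition indexed by `i`: all `y` with `y / i ∈ X`. -/
def part (n : ℕ) (X : Set ℚ) (i : ℕ) : Set ℚ := {y | y ∈ K n ∧ y / i ∈ X}

end Pool.Agent.H16.SatCol
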