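import Mathlib
import Pool.Agent.H16.SatColDefs

set_option autoImplicit false

namespace Pool.Agent.H16.SatCol

def L : List ℕ := [0, 4, 1, 2, 3, 5, 2, 3, 5, 0, 4, 1, 1, 0, 3, 5, 2, 4, 5, 2, 4, 1, 0, 3, 3, 5, 0, 4, 1,
  2, 4, 1, 2, 3, 5, 0, 2, 4, 1, 0, 3, 5, 0, 3, 5, 2, 4, 1, 1, 2, 3, 5, 0, 4, 5, 0, 4, 1, 2, 3, 3, 5, 2, 4,
  1, 0, 4, 1, 0, 3, 5, 2]

def g (a : ZMod 6) (b : ZMod 2) (d : ZMod 6) : ℕ := L.getD (a.val * 12 + b.val * 6 + d.val) 0 + 1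

def c (x : ℚ) : ℕ := g (padicValRat 2 x) (padicValRat 3 x) (padicValRat 5 x)

def v (p i : ℕ) : ℕ := if p * p ∣ i then 2 else if p ∣ i then 1 else 0

theorem hv (p : ℕ) [h : Fact p.Prime] (i : ℕ) (h0 : i ≠ 0) (h3 : ¬ p ^ 3 ∣ i) :
    padicValRat p i = v p i := by
  rw [padicValRat.of_nat, Nat.cast_inj, v]
  have a := fun k => padicValNat_dvd_iff_le (p := p) (a := i) (n := k) h0
  have a1 := a 1
  have a2 := a 2
  have a3 := a 3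
  rw [pow_one] at a1
  rw [pow_two] at a2
  split_ifs <;> simp_all <;> omega

instance : Fact (Nat.Prime 5) := ⟨by norm_num⟩

theorem cn (i : ℕ) (h0 : i ≠ 0) (h : ¬ 2 ^ 3 ∣ i ∧ ¬ 3 ^ 3 ∣ i ∧ ¬ 5 ^ 3 ∣ i) (x : ℚ) (hx : x ≠ 0) :
    c (i * x) = g (v 2 i + padicValRat 2 x) (v 3 i + padicValRat 3 x) (v 5 i + padicValRat 5 x) := by
  have : (i : ℚ) ≠ 0 := by exact_mod_cast h0
  simp only [c, padicValRat.mul this hx, hv _ i h0 h.1, hv _ i h0 h.2.1, hv _ i h0 h.2.2]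
  push_cast
  rfl

theorem c1 (i : ℕ) (h0 : i ≠ 0) (h : ¬ 2 ^ 3 ∣ i ∧ ¬ 3 ^ 3 ∣ i ∧ ¬ 5 ^ 3 ∣ i) :
    c i = g (v 2 i) (v 3 i) (v 5 i) := by
  simpa using cn i h0 h 1 one_ne_zero

theorem f1 : ∀ a b d, g a b d ∈ Set.Icc 1 6 := by decide +kernel

theorem f2 : ∀ (a : ZMod 6) (b : ZMod 2) (d : ZMod 6), ∀ j ≤ 6, ∀ i < j, 1 ≤ i →
    g (v 2 i + a) (v 3 i + b) (v 5 i + d) ≠ g (v 2 j + a) (v 3 j + b) (v 5 j + d) := by decide +kernel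

theorem sat : Sat 6 c := by
  refine ⟨fun x _ => f1 _ _ _, fun i hi => ?_, fun x hx i j h1 h2 h3 => ?_⟩
  · obtain ⟨h1, h2⟩ := hi
    rw [c1 i (by omega) (by omega)]
    interval_cases i <;> decide +kernel
  · obtain ⟨a, b, ha, hb, rfl⟩ := hx
    have : (a : ℚ) / b ≠ 0 := by have := ha.1; have := hb.1; positivity
    rw [cn i (by omega) (by omega) _ this, cn j (by omega) (by omega) _ this]
    exact f2 _ _ _ j h3 i h2 h1

theorem mem (a : ℕ) (h : a ∣ 20) : (a : ℚ) ∈ K 6 := by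
  refine ⟨a, 1, ⟨Nat.pos_of_dvd_of_pos h (by norm_num), fun p hp hd => ?_⟩,
    ⟨one_pos, fun p hp hd => absurd (Nat.dvd_one.1 hd) hp.ne_one⟩, by simp⟩
  have h2 := hd.trans h
  have := Nat.le_of_dvd (by norm_num) h2
  interval_cases p <;> first | omega | exact absurd hp (by norm_num)

theorem main : ∃ (n : ℕ) (c : ℚ → ℕ) (k : ℕ), 1 ≤ n ∧ Sat n c ∧ k ∈ Set.Icc 1 n ∧
    part n (cls n c k) '' Set.Icc 1 n ≠ cls n c '' Set.Icc 1 n := by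
  refine ⟨6, c, 1, by norm_num, sat, by simp, fun h => ?_⟩
  obtain ⟨j, -, hj⟩ : part 6 (cls 6 c 1) 2 ∈ cls 6 c '' Set.Icc 1 6 := h ▸ ⟨2, by simp, rfl⟩
  have e : ∀ a : ℕ, a = 1 ∨ a = 10 → c (2 * a : ℕ) = j := fun a ha => by
    have : ((2 * a : ℕ) : ℚ) ∈ part 6 (cls 6 c 1) 2 := by
      refine ⟨mem _ (by rcases ha with rfl | rfl <;> norm_num), ?_⟩
      rw [show ((2 * a : ℕ) : ℚ) / (2 : ℕ) = a by push_cast; ring]
      refine ⟨mem _ (by rcases ha with rfl | rfl <;> norm_num), ?_⟩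
      rw [c1 a (by omega) (by omega)]
      rcases ha with rfl | rfl <;> decide +kernel
    rw [← hj] at this
    exact this.2
  have := (e 1 (Or.inl rfl)).trans (e 10 (Or.inr rfl)).symm
  rw [c1 _ (by omega) (by omega), c1 _ (by omega) (by omega)] at this
  revert this
  decide +kernel

end Pool.Agent.H16.SatCol
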