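import Mathlib

set_option autoImplicit false

namespace Pool.Agent.H16.SatG

/-- A finite normal-form game with players `Fin n`. -/
structure Game where
  n : ℕ
  A : Fin n → Type
  fin : ∀ i, Finite (A i)
  ne : ∀ i, Nonempty (A i)
  r : (i : Fin n) → ((j : Fin n) → A j) → ℝ

namespace Game

variable (G : Game)

/-- Action profiles. -/
abbrev Prof := (j : Fin G.n) → G.A j

/-- Best responses of player `i` to the actions of the other players in `a`. -/
def Best (i : Fin G.n) (a : G.Prof) : Set (G.A i) :=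
  {b | ∀ c : G.A i, G.r i (Function.update a i c) ≤ G.r i (Function.update a i b)}

/-- Player `i` is satisfied at `a`. -/
def Sat (a : G.Prof) (i : Fin G.n) : Prop := a i ∈ G.Best i a

/-- Pure Nash equilibrium. -/
def Nash (a : G.Prof) : Prop := ∀ i, G.Sat a i

/-- The subgame induced on the player set `N`, the other players being fixed at their actions
in `a₀`, has a strict pure Nash equilibrium. -/
def SubStrict (N : Set (Fin G.n)) (a₀ : G.Prof) : Prop :=
  ∃ a : G.Prof, (∀ i, i ∉ N → a i = a₀ i) ∧ ∀ i ∈ N, G.Best i a = {a i}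

/-- Edges of the satisficing graph. -/
def Edge (a a' : G.Prof) : Prop := ∀ i, G.Sat a i → a' i = a i

/-- Generalized weakly acyclic. -/
def GWA : Prop := ∀ a, ∃ a', Relation.ReflTransGen G.Edge a a' ∧ G.Nash a'

end Game

/-- The best-response table of the example. -/
def br (i : Fin 3) (a : Fin 3 → Fin 3) : Fin 3 :=
  ![![![0, 1, 1], ![0, 1, 0], ![0, 1, 2]] (a 1) (a 2),
    ![![1, 1, 1], ![0, 0, 0], ![0, 1, 2]] (a 0) (a 2),
    ![![0, 1, 0], ![0, 1, 1], ![0, 1, 2]] (a 0) (a 1)] i

/-- Three players with three actions each; reward one for the tabulated response. -/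
noncomputable abbrev G0 : Game where
  n := 3
  A := fun _ => Fin 3
  fin := fun _ => inferInstance
  ne := fun _ => inferInstance
  r := fun i a => if a i = br i a then 1 else 0

theorem br_upd : ∀ (i : Fin 3) (a : Fin 3 → Fin 3) (c : Fin 3),
    br i (Function.update a i c) = br i a := by decide +kernel

theorem best0 (i : Fin 3) (a : Fin 3 → Fin 3) : G0.Best i a = {br i a} := by
  ext b
  simp only [Game.Best, Set.mem_ofPred_eq, Function.update_self, br_upd, Set.mem_singleton_iff]
  constructor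
  · intro h
    have := h (br i a)
    by_contra hb
    simp [hb] at this
    linarith
  · intro h c
    simp only [h, if_true]
    split_ifs <;> norm_num

theorem sat0 (i : Fin 3) (a : Fin 3 → Fin 3) : G0.Sat a i ↔ a i = br i a := by
  unfold Game.Sat
  rw [best0]
  rfl

theorem sub0 : ∀ (N : Fin 3 → Bool) (a₀ : Fin 3 → Fin 3), ∃ a : Fin 3 → Fin 3,
    (∀ i, N i = false → a i = a₀ i) ∧ ∀ i, N i = true → br i a = a i := by decide +kernel

/-- The trap. -/
def X : List (Fin 3 × Fin 3 × Fin 3) :=
  [(0, 0, 0), (0, 1, 0), (0, 1, 1), (0, 1, 2), (0, 2, 0), (1, 0, 0), (1, 0, 1), (1, 0, 2), (1, 1, 1), (1, 2, 1), (2, 0, 0), (2, 1, 1)]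

theorem closed0 : ∀ a a' : Fin 3 → Fin 3, (a 0, a 1, a 2) ∈ X →
    (∀ i, a i = br i a → a' i = a i) → (a' 0, a' 1, a' 2) ∈ X := by decide +kernel

theorem nonash0 : ∀ a : Fin 3 → Fin 3, (a 0, a 1, a 2) ∈ X → ¬ ∀ i, a i = br i a := by
  decide +kernel

theorem strict0 (N : Set (Fin 3)) (a₀ : Fin 3 → Fin 3) : G0.SubStrict N a₀ := by
  classical
  obtain ⟨a, h1, h2⟩ := sub0 (fun i => decide (i ∈ N)) a₀
  refine ⟨a, fun i hi => h1 i (by simpa using hi), fun i hi => ?_⟩
  rw [best0, h2 i (by simpa using hi)]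

theorem notGWA : ¬ G0.GWA := by
  intro h
  obtain ⟨a', hp, hn⟩ := h (fun _ => (0 : Fin 3))
  have : (a' 0, a' 1, a' 2) ∈ X := by
    clear hn
    induction hp with
    | refl => decide
    | tail _ he ih => exact closed0 _ _ ih fun i hi => he i ((sat0 i _).2 hi)
  exact nonash0 a' this fun i => (sat0 i a').1 (hn i)

end Pool.Agent.H16.SatG
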