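import Mathlib

set_option autoImplicit false

namespace Pool.Agent.H16.Sigma2
open Finset

noncomputable def s1 (y : ℕ → ℝ) (n : ℕ) : ℝ := ∑ i ∈ range n, y i
noncomputable def s2 (y : ℕ → ℝ) (n : ℕ) : ℝ := ∑ k ∈ range n, s1 y k * y k
noncomputable def p2 (y : ℕ → ℝ) (n : ℕ) : ℝ := ∑ i ∈ range n, y i ^ 2

theorem s1_succ (y : ℕ → ℝ) (n : ℕ) : s1 y (n + 1) = s1 y n + y n := sum_range_succ _ _
theorem s2_succ (y : ℕ → ℝ) (n : ℕ) : s2 y (n + 1) = s2 y n + s1 y n * y n := sum_range_succ _ _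
theorem p2_succ (y : ℕ → ℝ) (n : ℕ) : p2 y (n + 1) = p2 y n + y n ^ 2 := sum_range_succ _ _
theorem s1_zero (y : ℕ → ℝ) : s1 y 0 = 0 := rfl
theorem s2_zero (y : ℕ → ℝ) : s2 y 0 = 0 := rfl
theorem p2_zero (y : ℕ → ℝ) : p2 y 0 = 0 := rfl

theorem sq_eq (y : ℕ → ℝ) (n : ℕ) : s1 y n ^ 2 = 2 * s2 y n + p2 y n := by
  induction n with
  | zero => simp [s1_zero, s2_zero, p2_zero]
  | succ n ih => rw [s1_succ, s2_succ, p2_succ]; linear_combination ih

theorem s1_add (y : ℕ → ℝ) (l r : ℕ) : s1 y (l + r) = s1 y l + s1 (fun i => y (l + i)) r :=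
  sum_range_add _ _ _

theorem p2_add (y : ℕ → ℝ) (l r : ℕ) : p2 y (l + r) = p2 y l + p2 (fun i => y (l + i)) r :=
  sum_range_add _ _ _

theorem s2_add (y : ℕ → ℝ) (l r : ℕ) :
    s2 y (l + r) = s2 y l + s1 y l * s1 (fun i => y (l + i)) r + s2 (fun i => y (l + i)) r := by
  induction r with
  | zero => simp [s1_zero, s2_zero]
  | succ r ih => rw [← add_assoc, s2_succ, s1_succ, s2_succ, s1_add, ih]; ring

theorem s1_nonneg {y : ℕ → ℝ} (hy : ∀ i, 0 < y i) (n : ℕ) : 0 ≤ s1 y n :=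
  sum_nonneg fun i _ => (hy i).le
theorem s2_nonneg {y : ℕ → ℝ} (hy : ∀ i, 0 < y i) (n : ℕ) : 0 ≤ s2 y n :=
  sum_nonneg fun i _ => mul_nonneg (s1_nonneg hy i) (hy i).le
theorem p2_nonneg (y : ℕ → ℝ) (n : ℕ) : 0 ≤ p2 y n := sum_nonneg fun _ _ => sq_nonneg _

theorem s1_congr {y z : ℕ → ℝ} {n : ℕ} (h : ∀ i < n, y i = z i) : s1 y n = s1 z n :=
  sum_congr rfl fun i hi => h i (mem_range.mp hi)
theorem p2_congr {y z : ℕ → ℝ} {n : ℕ} (h : ∀ i < n, y i = z i) : p2 y n = p2 z n :=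
  sum_congr rfl fun i hi => by rw [h i (mem_range.mp hi)]
theorem s2_congr {y z : ℕ → ℝ} {n : ℕ} (h : ∀ i < n, y i = z i) : s2 y n = s2 z n :=
  sum_congr rfl fun i hi => by
    have := mem_range.mp hi
    rw [h i this, s1_congr fun k hk => h k (by omega)]

theorem abel (d g : ℕ → ℝ) (r : ℕ) (hg : ∀ k, k + 1 ≤ r → g (k + 1) ≤ g k)
    (hd : ∀ k, k ≤ r → 0 ≤ s1 d (k + 1)) :
    s1 d (r + 1) * g r ≤ ∑ i ∈ range (r + 1), d i * g i := by
  induction r with
  | zero => simp [s1]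
  | succ r ih =>
    have h1 := ih (fun k hk => hg k (by omega)) (fun k hk => hd k (by omega))
    have h2 := mul_le_mul_of_nonneg_left (hg r le_rfl) (hd r (by omega))
    rw [sum_range_succ, s1_succ]
    linarith

theorem tangent (y d : ℕ → ℝ) (hy : ∀ i, 0 < y i) (n : ℕ) :
    s1 y n + ∑ i ∈ range n, d i * y i ≤ s1 (fun i => y i * Real.exp (d i)) n ∧
    s2 y n + ∑ i ∈ range n, d i * (y i * (s1 y n - y i)) ≤ s2 (fun i => y i * Real.exp (d i)) n := by
  constructor
  · rw [s1, s1, ← sum_add_distrib]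
    refine sum_le_sum fun i _ => ?_
    have := mul_le_mul_of_nonneg_left (Real.add_one_le_exp (d i)) (hy i).le
    linarith
  · induction n with
    | zero => simp [s2_zero]
    | succ n ih =>
      have h1 : s1 y n * y n + ∑ i ∈ range n, d i * y i * y n + d n * (y n * s1 y n) ≤
          s1 (fun i => y i * Real.exp (d i)) n * (y n * Real.exp (d n)) := by
        rw [s1, s1, sum_mul, sum_mul, mul_sum, mul_sum, ← sum_add_distrib, ← sum_add_distrib]
        refine sum_le_sum fun i _ => ?_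
        have := mul_le_mul_of_nonneg_left (Real.add_one_le_exp (d i + d n))
          (mul_pos (hy i) (hy n)).le
        rw [Real.exp_add] at this
        linarith
      have h2 : ∑ i ∈ range n, d i * (y i * (s1 y n + y n - y i)) =
          ∑ i ∈ range n, d i * (y i * (s1 y n - y i)) + ∑ i ∈ range n, d i * y i * y n := by
        rw [← sum_add_distrib]
        exact sum_congr rfl fun i _ => by ring
      rw [s2_succ, s2_succ, sum_range_succ, s1_succ, h2]
      linarith

theorem tail (y z : ℕ → ℝ) (hy : ∀ i, 0 < y i) (hz : ∀ i, 0 < z i) (ha : Antitone y) (r : ℕ)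
    (hp : ∀ k, k ≤ r → ∏ i ∈ range (k + 1), y i < ∏ i ∈ range (k + 1), z i) (a : ℝ) (h0 : 0 ≤ a)
    (h1 : 0 < a + s1 y r) :
    a * s1 y (r + 1) + s2 y (r + 1) < a * s1 z (r + 1) + s2 z (r + 1) := by
  let d : ℕ → ℝ := fun i => Real.log (z i) - Real.log (y i)
  have hzd : z = fun i => y i * Real.exp (d i) := by
    funext i
    simp only [d]
    rw [Real.exp_sub, Real.exp_log (hz i), Real.exp_log (hy i), mul_div_cancel₀ _ (hy i).ne']
  have hd : ∀ k, k ≤ r → 0 < s1 d (k + 1) := by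
    intro k hk
    have := Real.log_lt_log (prod_pos fun i _ => hy i) (hp k hk)
    rw [Real.log_prod (fun i _ => (hy i).ne'), Real.log_prod (fun i _ => (hz i).ne')] at this
    simp only [s1, d, sum_sub_distrib]
    linarith
  obtain ⟨t1, t2⟩ := tangent y d hy (r + 1)
  rw [← hzd] at t1 t2
  have hA := abel d (fun i => y i * (a + s1 y (r + 1) - y i)) r (fun k hk => by
    have e1 : y (k + 1) ≤ y k := ha (by omega)
    have e2 : y k + y (k + 1) ≤ s1 y (r + 1) := by
      obtain ⟨m, rfl⟩ := Nat.exists_eq_add_of_le hk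
      rw [show k + 1 + m + 1 = k + 1 + 1 + m by ring, s1_add, s1_succ, s1_succ]
      have := s1_nonneg hy k
      have := s1_nonneg (y := fun i => y (k + 1 + 1 + i)) (fun i => hy _) m
      linarith
    nlinarith) (fun k hk => (hd k hk).le)
  have h2 : ∑ i ∈ range (r + 1), d i * (y i * (a + s1 y (r + 1) - y i)) =
      a * ∑ i ∈ range (r + 1), d i * y i +
        ∑ i ∈ range (r + 1), d i * (y i * (s1 y (r + 1) - y i)) := by
    rw [mul_sum, ← sum_add_distrib]
    exact sum_congr rfl fun i _ => by ring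
  have h3 : 0 < s1 d (r + 1) * (y r * (a + s1 y (r + 1) - y r)) :=
    mul_pos (hd r le_rfl) (mul_pos (hy r) (by rw [s1_succ]; linarith))
  have h4 := mul_le_mul_of_nonneg_left t1 h0
  linarith

theorem step (y z : ℕ → ℝ) (hy : ∀ i, 0 < y i) (hz : ∀ i, 0 < z i) (ha : Antitone y) (n : ℕ)
    (hn : 2 ≤ n) (hp : ∏ i ∈ range n, y i < ∏ i ∈ range n, z i)
    (hpre : ∀ l < n, s2 y l ≤ s2 z l ∧ s1 y l ≤ s1 z l) : s2 y n < s2 z n := by
  classical
  let P : ℕ → Prop := fun l => ∏ i ∈ range l, z i ≤ ∏ i ∈ range l, y i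
  have h1 : P (Nat.findGreatest P n) := Nat.findGreatest_spec (Nat.zero_le n) (by simp [P])
  have h2 := fun k => Nat.findGreatest_is_greatest (P := P) (n := n) (k := k)
  have h3 := Nat.findGreatest_le (P := P) n
  set l := Nat.findGreatest P n
  have h4 : l ≠ n := fun h => absurd hp (not_lt.mpr (h ▸ h1))
  obtain ⟨r, hr⟩ : ∃ r, n = l + (r + 1) := ⟨n - l - 1, by omega⟩
  obtain ⟨h5, h6⟩ := hpre l (by omega)
  have h7 := tail (fun i => y (l + i)) (fun i => z (l + i)) (fun i => hy _) (fun i => hz _)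
    (fun i j h => ha (by omega)) r (fun k hk => by
      have e1 := not_le.mp (h2 (l + (k + 1)) (by omega) (by omega))
      rw [prod_range_add y l, prod_range_add z l] at e1
      by_contra e2
      have e3 := mul_le_mul h1 (not_lt.mp e2) (prod_pos fun i _ => hz _).le
        (prod_pos fun i _ => hy _).le
      linarith) (s1 z l) (s1_nonneg hz l) (by
      have e1 := s1_add y l r
      have e2 : 0 < s1 y (l + r) := sum_pos (fun i _ => hy i) ⟨0, mem_range.mpr (by omega)⟩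
      linarith)
  rw [hr, s2_add y l, s2_add z l]
  have h8 := mul_le_mul_of_nonneg_right h6 (s1_nonneg (y := fun i => y (l + i)) (fun i => hy _) (r + 1))
  linarith

theorem integral (x : ℕ → ℕ) (hx : ∀ i, 0 < x i) (n : ℕ) : ∃ a b : ℕ,
    (∏ i ∈ range n, x i : ℕ) * s1 (fun i => 1 / (x i : ℝ)) n = a ∧
    (∏ i ∈ range n, x i : ℕ) * s2 (fun i => 1 / (x i : ℝ)) n = b := by
  induction n with
  | zero => exact ⟨0, 0, by simp [s1_zero], by simp [s2_zero]⟩
  | succ n ih =>
    obtain ⟨a, b, h1, h2⟩ := ih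
    have h0 : (x n : ℝ) ≠ 0 := by exact_mod_cast (hx n).ne'
    have h3 : (x n : ℝ) * (1 / x n) = 1 := by field_simp
    refine ⟨x n * a + ∏ i ∈ range n, x i, x n * b + a, ?_, ?_⟩
    · rw [prod_range_succ, s1_succ, Nat.cast_mul, Nat.cast_add, Nat.cast_mul]
      linear_combination (x n : ℝ) * h1 + ((∏ i ∈ range n, x i : ℕ) : ℝ) * h3
    · rw [prod_range_succ, s2_succ, Nat.cast_mul, Nat.cast_add, Nat.cast_mul]
      linear_combination (x n : ℝ) * h2 + h1 +
        ((∏ i ∈ range n, x i : ℕ) : ℝ) * s1 (fun i => 1 / (x i : ℝ)) n * h3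

def VP : ℕ → ℕ × ℕ
  | 0 => (1, 0)
  | k + 1 => ((VP k).1 * (1 + (VP k).2), (VP k).2 * (1 + (VP k).2) + (VP k).1)

def u (k : ℕ) : ℕ := 1 + (VP k).2

theorem u_pos (k : ℕ) : 0 < u k := by unfold u; omega

noncomputable def yu (i : ℕ) : ℝ := 1 / (u i : ℝ)

theorem yu_pos (i : ℕ) : 0 < yu i := by have := u_pos i; unfold yu; positivity

theorem VP_spec (k : ℕ) : (VP k).1 = ∏ i ∈ range k, u i ∧
    ((VP k).1 : ℝ) * s1 yu k = (VP k).2 ∧ ((VP k).1 : ℝ) * (1 - s2 yu k) = 1 := by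
  induction k with
  | zero => simp [VP, s1_zero, s2_zero]
  | succ k ih =>
    obtain ⟨h1, h2, h3⟩ := ih
    have h4 : (1 + ((VP k).2 : ℝ)) * yu k = 1 := by
      simp only [yu, u]; push_cast; field_simp
    refine ⟨by rw [prod_range_succ, ← h1]; rfl, ?_, ?_⟩
    · rw [s1_succ]
      simp only [VP]
      push_cast
      linear_combination (1 + ((VP k).2 : ℝ)) * h2 + ((VP k).1 : ℝ) * h4
    · rw [s2_succ]
      simp only [VP]
      push_cast
      linear_combination (1 + ((VP k).2 : ℝ)) * h3 - h2 - ((VP k).1 : ℝ) * s1 yu k * h4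

theorem V_pos (k : ℕ) : 0 < (VP k).1 := by
  rw [(VP_spec k).1]; exact prod_pos fun i _ => u_pos i

theorem P_ge (k : ℕ) : 3 ≤ (VP (k + 2)).2 := by
  induction k with
  | zero => decide
  | succ k ih =>
    show 3 ≤ (VP (k + 2)).2 * (1 + (VP (k + 2)).2) + (VP (k + 2)).1
    nlinarith

theorem num (v a T p : ℝ) (hv : 4 ≤ v) (ha : 0 < a) (h1 : a ≤ 1 / (v + 1)) (h2 : a ≤ T)
    (h3 : T ≤ 1 / (v - 1)) (h4 : p ≤ a * T) (h5 : p ≤ a ^ 2 + (T - a) ^ 2) : p ≤ (1 / v) ^ 2 := by
  have e1 : (1 / (v - 1)) ^ 2 / 2 ≤ (1 / v) ^ 2 := by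
    have : 0 < v - 1 := by linarith
    have : 0 < v := by linarith
    rw [div_pow, div_pow, div_div, div_le_div_iff₀ (by positivity) (by positivity)]
    nlinarith
  have e2 : (1 / (v + 1)) ^ 2 + (1 / (v - 1) - 1 / (v + 1)) ^ 2 ≤ (1 / v) ^ 2 := by
    have : 0 < v - 1 := by linarith
    have : 0 < v := by linarith
    have : (1 / v) ^ 2 - ((1 / (v + 1)) ^ 2 + (1 / (v - 1) - 1 / (v + 1)) ^ 2) =
        ((2 * v + 1) * (v - 1) ^ 2 - 4 * v ^ 2) / (v ^ 2 * (v + 1) ^ 2 * (v - 1) ^ 2) := by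
      field_simp; ring
    have e3 : 0 ≤ ((2 * v + 1) * (v - 1) ^ 2 - 4 * v ^ 2) / (v ^ 2 * (v + 1) ^ 2 * (v - 1) ^ 2) :=
      div_nonneg (by nlinarith [mul_nonneg (sub_nonneg.mpr hv) (sq_nonneg (v - 1))]) (by positivity)
    linarith
  set a0 := 1 / (v + 1)
  set T0 := 1 / (v - 1)
  rcases le_or_gt (2 * a) T0 with h | h
  · nlinarith
  · nlinarith [mul_nonneg (sub_nonneg.mpr h1) (show 0 ≤ a0 + a - T0 by linarith),
      mul_nonneg (sub_nonneg.mpr h3) (show 0 ≤ T0 + T - 2 * a by linarith)]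

theorem p2_le (x : ℕ → ℕ) (hx : ∀ i, 0 < x i) (hm : Monotone x) (j : ℕ)
    (h : s2 (fun i => 1 / (x i : ℝ)) j < 1) : p2 (fun i => 1 / (x i : ℝ)) j ≤ p2 yu j := by
  classical
  by_cases he : ∃ m, m < j ∧ x m ≠ u m
  swap
  · push Not at he
    exact (p2_congr fun i hi => by rw [he i hi]; rfl).le
  obtain ⟨h1, h2⟩ := Nat.find_spec he
  have h3 := fun k => Nat.find_min he (m := k)
  set m := Nat.find he
  set y : ℕ → ℝ := fun i => 1 / (x i : ℝ) with hy
  have hy0 : ∀ i, 0 < y i := fun i => by have := hx i; simp only [hy]; positivity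
  have hpre : ∀ i < m, y i = yu i := fun i hi => by
    have : x i = u i := by by_contra e; exact h3 i hi ⟨by omega, e⟩
    simp only [hy, this, yu]
  obtain ⟨r, hr⟩ : ∃ r, j = m + (1 + r) := ⟨j - m - 1, by omega⟩
  rw [hr, s2_add y m, s2_congr hpre, s1_congr hpre] at h
  rw [hr, p2_add y m, p2_add yu m, p2_congr hpre, add_le_add_iff_left]
  set t : ℕ → ℝ := fun i => y (m + i) with ht
  have ht0 : ∀ i, 0 < t i := fun i => hy0 _
  have e1 := sq_eq t (1 + r)
  have e2 := s2_nonneg ht0 (1 + r)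
  have e3 : p2 t (1 + r) ≤ t 0 * s1 t (1 + r) := by
    rw [p2, s1, mul_sum]
    refine sum_le_sum fun i _ => ?_
    have : t i ≤ t 0 := one_div_le_one_div_of_le (by exact_mod_cast hx _)
      (by exact_mod_cast hm (by omega))
    have := ht0 i
    nlinarith
  have e4 := s1_add t 1 r
  have e5 := p2_add t 1 r
  have e6 := sq_eq (fun i => t (1 + i)) r
  have e7 := s2_nonneg (y := fun i => t (1 + i)) (fun i => ht0 _) r
  have e8 := s1_nonneg (y := fun i => t (1 + i)) (fun i => ht0 _) r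
  have e9 : s1 t 1 = t 0 := by simp [s1]
  have e10 : p2 t 1 = t 0 ^ 2 := by simp [p2]
  have e11 : p2 t (1 + r) ≤ t 0 ^ 2 + (s1 t (1 + r) - t 0) ^ 2 := by
    rw [e4, e5, e9, e10]; nlinarith
  have e12 : t 0 ≤ s1 t (1 + r) := by linarith
  obtain ⟨-, v2, v3⟩ := VP_spec m
  have v0 : (0 : ℝ) < (VP m).1 := by exact_mod_cast V_pos m
  have v1 : ((VP m).2 : ℝ) * s1 t (1 + r) + (VP m).1 * s2 t (1 + r) < 1 := by
    have := mul_lt_mul_of_pos_left h v0
    rw [← v2]; linarith
  have x0 : (0 : ℝ) < x m := by exact_mod_cast hx m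
  have t0 : t 0 = 1 / (x m : ℝ) := rfl
  have x1 : (VP m).2 < x m := by
    have : ((VP m).2 : ℝ) * t 0 < 1 := by
      have := mul_le_mul_of_nonneg_left e12 (Nat.cast_nonneg (α := ℝ) (VP m).2)
      have := mul_nonneg v0.le e2
      linarith
    rw [t0, mul_one_div, div_lt_one x0] at this
    exact_mod_cast this
  have x2 : t 0 ≤ 1 / ((u m : ℝ) + 1) := by
    rw [t0]
    refine one_div_le_one_div_of_le (by positivity) ?_
    have : u m + 1 ≤ x m := by unfold u at *; omega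
    exact_mod_cast this
  have w1 := p2_add (fun i => yu (m + i)) 1 r
  have w2 : p2 (fun i => yu (m + i)) 1 = (1 / (u m : ℝ)) ^ 2 := by simp [p2, yu]
  have w3 := p2_nonneg (fun i => yu (m + (1 + i))) r
  have a0 := ht0 0
  generalize m = m' at *
  rcases m' with _ | _ | m'
  · have : (u 0 : ℝ) = 1 := by simp [u, VP]
    rw [this] at x2 w2
    simp only [VP] at v1
    push_cast at v1
    nlinarith
  · have : (u (0 + 1) : ℝ) = 2 := by simp [u, VP]
    rw [this] at x2 w2
    simp only [VP] at v1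
    push_cast at v1
    rcases r with _ | r
    · rw [e5, e10, w1, w2, p2_zero, p2_zero]; nlinarith
    · have w4 := p2_add (fun i => yu (0 + 1 + (1 + i))) 1 r
      have w5 : p2 (fun i => yu (0 + 1 + (1 + i))) 1 = (1 / 4) ^ 2 := by simp [p2, yu, u, VP]; norm_num
      have w6 := p2_nonneg (fun i => yu (0 + 1 + (1 + (1 + i)))) r
      rw [add_comm 1 r] at w4
      have : s1 t (1 + (r + 1)) ≤ 15 / 16 := by nlinarith
      nlinarith
  · have hP : (3 : ℝ) ≤ (VP (m' + 2)).2 := by exact_mod_cast P_ge m'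
    have hu : (u (m' + 1 + 1) : ℝ) = 1 + (VP (m' + 2)).2 := by simp [u]
    have := num (u (m' + 1 + 1)) (t 0) (s1 t (1 + r)) (p2 t (1 + r)) (by linarith) a0 x2 e12 (by
      rw [le_div_iff₀ (by linarith), hu]
      have := mul_nonneg v0.le e2
      linarith) e3 e11
    linarith

theorem greedy (x : ℕ → ℕ) (hx : ∀ i, 0 < x i) (hm : Monotone x) (j : ℕ)
    (h : s2 (fun i => 1 / (x i : ℝ)) j < 1) :
    s2 (fun i => 1 / (x i : ℝ)) j ≤ s2 yu j ∧ s1 (fun i => 1 / (x i : ℝ)) j ≤ s1 yu j := by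
  have hy0 : ∀ i, (0 : ℝ) < 1 / (x i : ℝ) := fun i => by have := hx i; positivity
  induction j using Nat.strong_induction_on with
  | _ j ih =>
  have h1 : s2 (fun i => 1 / (x i : ℝ)) j ≤ s2 yu j := by
    rcases Nat.lt_or_ge j 2 with h2 | h2
    · interval_cases j <;> simp [s2, s1]
    rcases le_or_gt (∏ i ∈ range j, x i) (∏ i ∈ range j, u i) with h3 | h3
    · obtain ⟨a, b, -, hb⟩ := integral x hx j
      obtain ⟨v1, -, v3⟩ := VP_spec j
      rw [← v1] at h3
      have e0 : (0 : ℝ) < (∏ i ∈ range j, x i : ℕ) := by exact_mod_cast prod_pos fun i _ => hx i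
      have e1 : b < ∏ i ∈ range j, x i := by
        have := mul_lt_mul_of_pos_left h e0
        rw [hb, mul_one] at this
        exact_mod_cast this
      have e2 : (b : ℝ) + 1 ≤ (∏ i ∈ range j, x i : ℕ) := by exact_mod_cast e1
      have e3 : ((∏ i ∈ range j, x i : ℕ) : ℝ) ≤ (VP j).1 := by exact_mod_cast h3
      have e4 := mul_le_mul_of_nonneg_right e3 (sub_nonneg.mpr h.le)
      have v0 : (0 : ℝ) < (VP j).1 := by exact_mod_cast V_pos j
      refine le_of_mul_le_mul_left ?_ v0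
      linarith
    · refine (step _ _ hy0 yu_pos (fun i k hik => one_div_le_one_div_of_le (by exact_mod_cast hx i)
        (by exact_mod_cast hm hik)) j h2 ?_ fun l hl => ih l hl ?_).le
      · simp only [yu, prod_div_distrib, prod_const_one]
        refine one_div_lt_one_div_of_lt (prod_pos fun i _ => by exact_mod_cast u_pos i) ?_
        exact_mod_cast h3
      · obtain ⟨r, rfl⟩ := Nat.exists_eq_add_of_le hl.le
        rw [s2_add] at h
        have e1 := s2_nonneg (y := fun i => 1 / (x (l + i) : ℝ)) (fun i => hy0 _) r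
        have e2 := mul_nonneg (s1_nonneg hy0 l)
          (s1_nonneg (y := fun i => 1 / (x (l + i) : ℝ)) (fun i => hy0 _) r)
        linarith
  refine ⟨h1, ?_⟩
  have h2 := p2_le x hx hm j h
  refine le_of_sq_le_sq ?_ (s1_nonneg yu_pos j)
  rw [sq_eq, sq_eq]
  linarith

theorem main (x : ℕ → ℕ) (hx : ∀ i, 0 < x i) (hm : Monotone x) (n : ℕ) (hn : 1 ≤ n)
    (h : s2 (fun i => 1 / (x i : ℝ)) (n + 1) = 1) :
    ∏ i ∈ range (n + 1), (x i : ℝ) ≤ (∏ i ∈ range n, (u i : ℝ)) * (u n - 1) := by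
  have hy0 : ∀ i, (0 : ℝ) < 1 / (x i : ℝ) := fun i => by have := hx i; positivity
  by_contra hc
  obtain ⟨v1, v2, v3⟩ := VP_spec n
  have v0 : (0 : ℝ) < (VP n).1 := by exact_mod_cast V_pos n
  have hP : (0 : ℝ) < (VP n).2 := by
    rw [← v2]
    exact mul_pos v0 (sum_pos (fun i _ => yu_pos i) ⟨0, mem_range.mpr (by omega)⟩)
  have hu : (u n : ℝ) - 1 = (VP n).2 := by simp [u]
  let z : ℕ → ℝ := fun i => if i < n then yu i else 1 / (VP n).2
  have hz : ∀ i < n, z i = yu i := fun i hi => if_pos hi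
  have hzn : z n = 1 / (VP n).2 := if_neg (lt_irrefl n)
  have := step _ z hy0 (fun i => by
      simp only [z]; split_ifs
      · exact yu_pos i
      · positivity) (fun i k hik => one_div_le_one_div_of_le (by exact_mod_cast hx i)
        (by exact_mod_cast hm hik)) (n + 1) (by omega) (by
      rw [prod_range_succ z, hzn, prod_congr rfl fun i hi => hz i (mem_range.mp hi)]
      simp only [yu, prod_div_distrib, prod_const_one]
      rw [div_mul_div_comm, one_mul, ← hu]
      refine one_div_lt_one_div_of_lt (mul_pos (prod_pos fun i _ => by exact_mod_cast u_pos i)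
        (hu ▸ hP)) (not_le.mp hc)) (fun l hl => by
      rw [s2_congr (y := z) (z := yu) fun i hi => hz i (by omega),
        s1_congr (y := z) (z := yu) fun i hi => hz i (by omega)]
      refine greedy x hx hm l ?_
      obtain ⟨r, rfl⟩ := Nat.exists_eq_add_of_le (Nat.lt_succ_iff.mp hl)
      rw [s2_succ, s2_add] at h
      have e1 := s2_nonneg (y := fun i => 1 / (x (l + i) : ℝ)) (fun i => hy0 _) r
      have e2 := mul_nonneg (s1_nonneg hy0 l)
        (s1_nonneg (y := fun i => 1 / (x (l + i) : ℝ)) (fun i => hy0 _) r)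
      have e3 : 0 < s1 (fun i => 1 / (x i : ℝ)) (l + r) :=
        sum_pos (fun i _ => hy0 i) ⟨0, mem_range.mpr (by omega)⟩
      have e4 := mul_pos e3 (hy0 (l + r))
      linarith)
  rw [h, s2_succ, s2_congr hz, s1_congr hz, hzn] at this
  have e1 := mul_lt_mul_of_pos_left this v0
  have e2 : ((VP n).1 : ℝ) * (s1 yu n * (1 / (VP n).2)) = 1 := by
    rw [← mul_assoc, v2]; field_simp
  linarith

def sig (x : ℕ → ℕ) (j n : ℕ) : ℕ := ∑ s ∈ powersetCard j (range n), ∏ i ∈ s, x i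

theorem sig_succ (x : ℕ → ℕ) (j n : ℕ) : sig x (j + 1) (n + 1) = sig x (j + 1) n + x n * sig x j n := by
  have hn : ∀ s ∈ powersetCard j (range n), n ∉ s := fun s hs h =>
    notMem_range_self ((mem_powersetCard.mp hs).1 h)
  rw [sig, range_add_one, powersetCard_succ_insert notMem_range_self, sum_union, sum_image, sig, sig,
    mul_sum]
  · exact congrArg _ (sum_congr rfl fun s hs => prod_insert (hn s hs))
  · intro s hs t ht h
    rw [← erase_insert (hn s hs), h, erase_insert (hn t ht)]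
  · rw [disjoint_left]
    intro s hs h
    obtain ⟨t, -, rfl⟩ := mem_image.mp h
    exact notMem_range_self ((mem_powersetCard.mp hs).1 (mem_insert_self _ _))

theorem sig_self (x : ℕ → ℕ) (n : ℕ) : sig x n n = ∏ i ∈ range n, x i := by
  have := powersetCard_self (range n)
  rw [card_range] at this
  rw [sig, this, sum_singleton]

theorem sig_one (x : ℕ → ℕ) (hx : ∀ i, 0 < x i) (n : ℕ) : (sig x n (n + 1) : ℝ) =
    (∏ i ∈ range (n + 1), (x i : ℝ)) * s1 (fun i => 1 / (x i : ℝ)) (n + 1) := by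
  induction n with
  | zero =>
    have : (x 0 : ℝ) ≠ 0 := by exact_mod_cast (hx 0).ne'
    simp [sig, s1, this]
  | succ n ih =>
    have : (x (n + 1) : ℝ) ≠ 0 := by exact_mod_cast (hx _).ne'
    rw [sig_succ, sig_self, prod_range_succ _ (n + 1), s1_succ _ (n + 1)]
    push_cast
    rw [ih]
    field_simp
    ring

theorem sig_two (x : ℕ → ℕ) (hx : ∀ i, 0 < x i) (n : ℕ) : (sig x n (n + 2) : ℝ) =
    (∏ i ∈ range (n + 2), (x i : ℝ)) * s2 (fun i => 1 / (x i : ℝ)) (n + 2) := by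
  induction n with
  | zero =>
    have : (x 0 : ℝ) ≠ 0 := by exact_mod_cast (hx 0).ne'
    have : (x 1 : ℝ) ≠ 0 := by exact_mod_cast (hx 1).ne'
    simp [sig, s1, s2, sum_range_succ, prod_range_succ]
    field_simp
  | succ n ih =>
    have : (x (n + 2) : ℝ) ≠ 0 := by exact_mod_cast (hx _).ne'
    rw [sig_succ, prod_range_succ _ (n + 2), s2_succ _ (n + 2)]
    push_cast
    rw [ih, sig_one x hx]
    field_simp
    ring

theorem v_eq (v : ℕ → ℝ) (h1 : v 1 = 1) (h2 : v 2 = 2) (h : ∀ n, 2 ≤ n → v (n + 1) =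
    1 + (∑ i ∈ range n, 1 / v (i + 1)) /
      (1 - ∑ j ∈ range n, ∑ i ∈ range j, 1 / (v (i + 1) * v (j + 1)))) (k : ℕ) : v (k + 1) = u k := by
  induction k using Nat.strong_induction_on with
  | _ k ih =>
  rcases Nat.lt_or_ge k 2 with hk | hk
  · interval_cases k
    · rw [h1]; simp [u, VP]
    · rw [h2]; simp [u, VP]
  have e1 : ∑ i ∈ range k, 1 / v (i + 1) = s1 yu k :=
    sum_congr rfl fun i hi => by rw [ih i (mem_range.mp hi)]; rfl
  have e2 : ∑ j ∈ range k, ∑ i ∈ range j, 1 / (v (i + 1) * v (j + 1)) = s2 yu k := by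
    refine sum_congr rfl fun j hj => ?_
    have := mem_range.mp hj
    rw [s1, sum_mul]
    refine sum_congr rfl fun i hi => ?_
    rw [ih j this, ih i (this.trans' (mem_range.mp hi)), yu, yu, one_div_mul_one_div]
  obtain ⟨-, v2, v3⟩ := VP_spec k
  have e3 : 1 - s2 yu k ≠ 0 := by intro e; rw [e] at v3; simp at v3
  rw [h k hk, e1, e2, u]
  push_cast
  rw [add_right_inj, div_eq_iff e3, ← v2]
  linear_combination (-s1 yu k) * v3

end Pool.Agent.H16.Sigma2
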