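import Pool.Agent.H16.StarDefs
import Pool.Agent.H16.Pseudo

namespace H16.Star

open H16.Pseudo

lemma planar_of {V : Type} (pos : V → ℕ × ℕ) (G : SimpleGraph V) (h1 : Function.Injective pos)
    (h2 : ∀ u v w, G.Adj u v → w ≠ u → w ≠ v →
      lf (pos u) (pos v) (pos w) ≠ rf (pos u) (pos v) (pos w))
    (h3 : ∀ u v x y, G.Adj u v → G.Adj x y → (u = x ∧ v = y) ∨ (u = y ∧ v = x) ∨
      sep (pos u) (pos v) (pos x) (pos y) = true ∨ sep (pos x) (pos y) (pos u) (pos v) = true) :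
    Planar G := by
  refine ⟨fun u => pt (pos u), fun u v => seg (pos u) (pos v), ?_, ?_, ?_⟩
  · intro u v h
    have e1 := congrArg Prod.fst h
    have e2 := congrArg Prod.snd h
    simp only [pt, Nat.cast_inj] at e1 e2
    exact h1 (Prod.ext e1 e2)
  · intro u v h
    have hne : pos u ≠ pos v := fun k => h.ne (h1 k)
    refine ⟨?_, (seg_inj _ _ hne).injOn, seg0 _ _, seg1 _ _, fun t => seg_rev _ _ t, ?_⟩
    · apply Continuous.continuousOn; unfold seg; fun_prop
    · intro w t ht he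
      simp only at he
      by_cases k1 : w = u
      · rw [k1, ← seg0 _ (pos v)] at he
        exact ht.1.ne' (seg_inj _ _ hne he)
      by_cases k2 : w = v
      · rw [k2, ← seg1 (pos u)] at he
        exact ht.2.ne (seg_inj _ _ hne he)
      apply h2 u v w h k1 k2
      have e1 := congrArg Prod.fst he
      have e2 := congrArg Prod.snd he
      simp only [seg, pt] at e1 e2
      have k : (lf (pos u) (pos v) (pos w) : ℝ) = rf (pos u) (pos v) (pos w) := by
        unfold lf rf; push_cast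
        linear_combination (((pos v).2 : ℝ) - (pos u).2) * e1 - (((pos v).1 : ℝ) - (pos u).1) * e2
      exact_mod_cast k
  · intro u v x y a1 a2 hne s hs t ht
    rcases h3 u v x y a1 a2 with ⟨rfl, rfl⟩ | ⟨rfl, rfl⟩ | h | h
    · exact absurd rfl hne
    · exact absurd Sym2.eq_swap hne
    · exact sep_ok _ _ _ _ h s t ht
    · exact (sep_ok _ _ _ _ h t s hs).symm

def AL : List (Fin 7 × Fin 7) := [(0, 1), (0, 2), (0, 6), (1, 4), (2, 5), (3, 0), (3, 2), (3, 4),
  (4, 0), (4, 5), (4, 6), (5, 0), (5, 3), (6, 1), (6, 3)]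

def A (u v : Fin 7) : Prop := (u, v) ∈ AL

instance : DecidableRel A := fun u v => inferInstanceAs (Decidable ((u, v) ∈ AL))

def ps : Fin 7 → ℕ × ℕ := ![(33, 23), (36, 38), (33, 9), (61, 2), (30, 62), (0, 1), (39, 30)]

lemma planarA : Planar (SimpleGraph.fromRel A) := by
  apply planar_of ps
  · decide +kernel
  · simp only [SimpleGraph.fromRel_adj]; decide +kernel
  · simp only [SimpleGraph.fromRel_adj]; decide +kernel

def dd (k x y : ℕ) : ℕ := if x ≤ y then y - x else y + k - x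

lemma tri (k d x y z : ℕ) (hx : x < k) (hy : y < k) (hz : z < k) (h1 : d ≤ k) (h2 : k < 2 * d)
    (a : d ≤ dd k x y ∨ d ≤ dd k x z) (b : d ≤ dd k y x ∨ d ≤ dd k y z)
    (c : d ≤ dd k z x ∨ d ≤ dd k z y) :
    (d ≤ dd k y x ∧ d ≤ dd k z y ∧ d ≤ dd k x z ∧ dd k x y + dd k y z + dd k z x = k) ∨
    (d ≤ dd k x y ∧ d ≤ dd k y z ∧ d ≤ dd k z x ∧ dd k y x + dd k z y + dd k x z = k) := by
  unfold dd at *
  split_ifs at * <;> omega

lemma ex (k d x y : ℕ) (hx : x < k) (hy : y < k) (h2 : k < 2 * d) (a : d ≤ dd k x y)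
    (b : d ≤ dd k y x) : False := by
  unfold dd at *
  split_ifs at * <;> omega

lemma tr (k d x y z : ℕ) (hx : x < k) (hy : y < k) (hz : z < k) (h2 : k < 2 * d)
    (a : d ≤ dd k y x) (b : d ≤ dd k z y) (c : d ≤ dd k z x) :
    dd k x y + dd k y z = dd k x z := by
  unfold dd at *
  split_ifs at * <;> omega

lemma win (k : ℕ) [NeZero k] (a b : ZMod k) : b = a + ((dd k a.val b.val : ℕ) : ZMod k) := by
  unfold dd
  have ha := ZMod.val_lt a
  split_ifs with h
  · rw [Nat.cast_sub h]; simp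
  · rw [Nat.cast_sub (by omega)]; simp

lemma lower (k d : ℕ) (h0 : 1 ≤ d) (h1 : d ≤ k) (h : KDCol A k d) : 2 * d ≤ k := by
  by_contra hk
  have h2 : k < 2 * d := by omega
  haveI : NeZero k := ⟨by omega⟩
  obtain ⟨c, hc⟩ := h
  have W : ∀ a b e : Fin 7, A a b → A b e → A e a →
      d ≤ dd k (c a).val (c b).val ∨ d ≤ dd k (c a).val (c e).val := by
    intro a b e k1 k2 k3
    by_contra hn
    push Not at hn
    have ma : a ∈ {v | ∃ j : ℕ, j < d ∧ c v = c a + (j : ZMod k)} := ⟨0, by omega, by simp⟩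
    have mb : b ∈ {v | ∃ j : ℕ, j < d ∧ c v = c a + (j : ZMod k)} := ⟨_, hn.1, win k _ _⟩
    have me : e ∈ {v | ∃ j : ℕ, j < d ∧ c v = c a + (j : ZMod k)} := ⟨_, hn.2, win k _ _⟩
    exact hc (c a) a (((Relation.TransGen.single ⟨k1, ma, mb⟩).tail ⟨k2, mb, me⟩).tail
      ⟨k3, me, ma⟩)
  have T : ∀ a b e : Fin 7, A a b → A b e → A e a → _ := fun a b e k1 k2 k3 =>
    tri k d (c a).val (c b).val (c e).val (ZMod.val_lt _) (ZMod.val_lt _) (ZMod.val_lt _) h1 h2
      (W a b e k1 k2 k3) (W b e a k2 k3 k1).symm (W e a b k3 k1 k2)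
  have X : ∀ a b : Fin 7, d ≤ dd k (c a).val (c b).val → d ≤ dd k (c b).val (c a).val → False :=
    fun a b => ex k d _ _ (ZMod.val_lt _) (ZMod.val_lt _) h2
  have R : ∀ a b e : Fin 7, _ := fun a b e =>
    tr k d (c a).val (c b).val (c e).val (ZMod.val_lt _) (ZMod.val_lt _) (ZMod.val_lt _) h2
  have t1 := T 0 6 3 (by decide) (by decide) (by decide)
  have t2 := T 2 5 0 (by decide) (by decide) (by decide)
  have t3 := T 6 1 4 (by decide) (by decide) (by decide)
  have t4 := T 5 3 4 (by decide) (by decide) (by decide)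
  have t5 := T 0 1 4 (by decide) (by decide) (by decide)
  have t6 := T 3 2 5 (by decide) (by decide) (by decide)
  have t7 := T 4 6 3 (by decide) (by decide) (by decide)
  rcases t7 with t7 | t7
  · replace t1 := t1.resolve_right (fun t => X _ _ t.2.1 t7.2.1)
    replace t3 := t3.resolve_right (fun t => X _ _ t.2.2.1 t7.1)
    replace t4 := t4.resolve_right (fun t => X _ _ t.2.1 t7.2.2.1)
    replace t5 := t5.resolve_right (fun t => X _ _ t.2.1 t3.2.1)
    replace t6 := t6.resolve_right (fun t => X _ _ t.2.2.1 t4.1)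
    replace t2 := t2.resolve_right (fun t => X _ _ t.1 t6.2.1)
    have r1 := R 0 6 1 t1.1 t3.1 t5.1
    have r2 := R 3 0 2 t1.2.2.1 t2.2.2.1 t6.1
    have r3 := R 4 5 0 t4.2.2.1 t2.2.1 t5.2.2.1
    have := t1.2.2.2; have := t2.2.2.2; have := t3.2.2.2; have := t4.2.2.2
    have := t5.2.2.2; have := t6.2.2.2; have := t7.2.2.2
    clear t1 t2 t3 t4 t5 t6 t7
    omega
  · replace t1 := t1.resolve_left (fun t => X _ _ t.2.1 t7.2.1)
    replace t3 := t3.resolve_left (fun t => X _ _ t.2.2.1 t7.1)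
    replace t4 := t4.resolve_left (fun t => X _ _ t.2.1 t7.2.2.1)
    replace t5 := t5.resolve_left (fun t => X _ _ t.2.1 t3.2.1)
    replace t6 := t6.resolve_left (fun t => X _ _ t.2.2.1 t4.1)
    replace t2 := t2.resolve_left (fun t => X _ _ t.1 t6.2.1)
    have r1 := R 1 6 0 t3.1 t1.1 t5.1
    have r2 := R 2 0 3 t2.2.2.1 t1.2.2.1 t6.1
    have r3 := R 0 5 4 t2.2.1 t4.2.2.1 t5.2.2.1
    have := t1.2.2.2; have := t2.2.2.2; have := t3.2.2.2; have := t4.2.2.2
    have := t5.2.2.2; have := t6.2.2.2; have := t7.2.2.2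
    clear t1 t2 t3 t4 t5 t6 t7
    omega

def cl : Fin 7 → ZMod 2 := ![1, 1, 0, 1, 0, 0, 0]
def rk : Fin 7 → ℕ := ![1, 2, 3, 0, 4, 5, 6]

lemma upper : KDCol A 2 1 := by
  refine ⟨cl, fun i v hv => ?_⟩
  have key : ∀ a b, A a b → cl a = cl b → rk a < rk b := by decide
  have : ∀ a b, Relation.TransGen (fun a b => A a b ∧
      a ∈ {v | ∃ j : ℕ, j < 1 ∧ cl v = i + (j : ZMod 2)} ∧
      b ∈ {v | ∃ j : ℕ, j < 1 ∧ cl v = i + (j : ZMod 2)}) a b → rk a < rk b := by
    have st : ∀ a b, (A a b ∧ a ∈ {v | ∃ j : ℕ, j < 1 ∧ cl v = i + (j : ZMod 2)} ∧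
        b ∈ {v | ∃ j : ℕ, j < 1 ∧ cl v = i + (j : ZMod 2)}) → rk a < rk b := by
      rintro a b ⟨h, ⟨j, hj, e1⟩, ⟨l, hl, e2⟩⟩
      obtain rfl : j = 0 := by omega
      obtain rfl : l = 0 := by omega
      exact key a b h (e1.trans e2.symm)
    intro a b h
    induction h with
    | single h => exact st _ _ h
    | tail _ h ih => exact ih.trans (st _ _ h)
  exact lt_irrefl _ (this v v hv)

theorem main : ∃ D : Fin 7 → Fin 7 → Prop, (∀ u, ¬ D u u) ∧ (∀ u v, D u v → ¬ D v u) ∧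
    Planar (SimpleGraph.fromRel D) ∧ IsLeast (Ratios D) 2 := by
  refine ⟨A, by decide, by decide, planarA, ⟨2, 1, le_rfl, by norm_num, upper, by norm_num⟩, ?_⟩
  rintro x ⟨k, d, h0, h1, h, rfl⟩
  have := lower k d h0 h1 h
  have hd : (0 : ℚ) < d := by exact_mod_cast h0
  rw [le_div_iff₀ hd]
  exact_mod_cast this

end H16.Star
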