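import Pool.Agent.H16.Star4Defs
import Pool.Agent.H16.Star

namespace H16.Star

open H16.Pseudo

def BL : List (Fin 9 × Fin 9) := [(0,3), (1,6), (1,8), (2,0), (2,4), (2,6), (3,7), (4,0), (4,1),
  (5,7), (6,5), (7,1), (7,2), (7,4), (8,2)]

def B (u v : Fin 9) : Prop := (u, v) ∈ BL

instance : DecidableRel B := fun u v => inferInstanceAs (Decidable ((u, v) ∈ BL))

def qs : Fin 9 → ℕ × ℕ :=
  ![(0, 0), (73, 48), (51, 100), (53, 11), (56, 33), (83, 32), (75, 50), (100, 1), (66, 67)]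

lemma planarB : Planar (SimpleGraph.fromRel B) := by
  apply planar_of qs
  · decide +kernel
  · simp only [SimpleGraph.fromRel_adj]; decide +kernel
  · simp only [SimpleGraph.fromRel_adj]; decide +kernel

def Far (k d x y : ℕ) : Prop := x + d ≤ y ∨ (y < x ∧ x + d ≤ y + k)

lemma far_of (k d x y : ℕ) (h0 : 1 ≤ d) (h : d ≤ dd k x y) : Far k d x y := by
  unfold dd at h; unfold Far
  split_ifs at h <;> omega

def Spread (k d x y z w : ℕ) : Prop :=
  (Far k d x y ∨ Far k d x z ∨ Far k d x w) ∧ (Far k d y z ∨ Far k d y w ∨ Far k d y x) ∧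
  (Far k d z w ∨ Far k d z x ∨ Far k d z y) ∧ (Far k d w x ∨ Far k d w y ∨ Far k d w z)

def Od (k d x y z : ℕ) : Prop :=
  x ≤ y ∧ y ≤ z ∧ x + d ≤ k ∧ y + d ≤ k + x ∧ z + d ≤ k + y ∧ d ≤ z

lemma od (k d a p q : ℕ) (ha : a < k) (hp : p < k) (hq : q < k) (h1 : d ≤ k) (h2 : 2 * k < 3 * d)
    (h : Spread k d 0 a p q) : Od k d p q a ∨ Od k d p a q ∨ Od k d q p a ∨ Od k d q a p ∨
      Od k d a p q ∨ Od k d a q p := by
  unfold Spread Far at h
  unfold Od
  rcases le_total p q with k1 | k1 <;> rcases le_total p a with k2 | k2 <;>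
    rcases le_total q a with k3 | k3
  · left; omega
  · right; left; omega
  · left; omega
  · right; right; right; right; left; omega
  · right; right; left; omega
  · right; left; omega
  · right; right; right; left; omega
  · right; right; right; right; right; omega

def Same (k d a b : ℕ) : Prop :=
  (3 * d ≤ a + 2 * k ∧ a + d ≤ k ∧ 3 * d ≤ b + 2 * k ∧ b + d ≤ k) ∨
  (2 * d ≤ a + k ∧ a + 2 * d ≤ 2 * k ∧ 2 * d ≤ b + k ∧ b + 2 * d ≤ 2 * k) ∨
  (d ≤ a ∧ a + 3 * d ≤ 3 * k ∧ d ≤ b ∧ b + 3 * d ≤ 3 * k)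

lemma same (k d a b p q : ℕ) (ha : a < k) (hb : b < k) (hp : p < k) (hq : q < k) (h1 : d ≤ k)
    (h2 : 2 * k < 3 * d) (h : Spread k d 0 a p q) (h' : Spread k d 0 b p q) : Same k d a b := by
  have o1 := od k d a p q ha hp hq h1 h2 h
  have o2 := od k d b p q hb hp hq h1 h2 h'
  clear h h'
  unfold Od at o1 o2
  unfold Same
  rcases o1 with o1 | o1 | o1 | o1 | o1 | o1 <;> rcases o2 with o2 | o2 | o2 | o2 | o2 | o2 <;>
    omega

lemma fin4 (k d a e b c L : ℕ) (he : e < k) (h2 : 2 * k < 3 * d) (ha : L ≤ a)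
    (hb : L ≤ b) (hc : L ≤ c) (ha' : a + 4 * d ≤ L + 3 * k) (hb' : b + 4 * d ≤ L + 3 * k)
    (hc' : c + 4 * d ≤ L + 3 * k) (ka : a < k) (kb : b < k) (kc : c < k)
    (h : Spread k d a e b c) : False := by
  unfold Spread Far at h
  rcases le_total a b with k1 | k1 <;> rcases le_total a c with k2 | k2 <;>
    rcases le_total b c with k3 | k3 <;> omega

lemma lower4 (k d : ℕ) (h0 : 1 ≤ d) (h1 : d ≤ k) (h : KDCol B k d) : 3 * d ≤ 2 * k := by
  by_contra hk
  have h2 : 2 * k < 3 * d := by omega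
  haveI : NeZero k := ⟨by omega⟩
  obtain ⟨c, hc⟩ := h
  set x : Fin 9 → ℕ := fun v => (c v - c 7).val with hx
  have lt : ∀ v, x v < k := fun v => ZMod.val_lt _
  have x7 : x 7 = 0 := by simp [hx]
  have wn : ∀ a b, c b = c a + ((dd k (x a) (x b) : ℕ) : ZMod k) := by
    intro a b
    have := win k (c a - c 7) (c b - c 7)
    linear_combination this
  have W : ∀ a b e g : Fin 9, B a b → B b e → B e g → B g a →
      Far k d (x a) (x b) ∨ Far k d (x a) (x e) ∨ Far k d (x a) (x g) := by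
    intro a b e g k1 k2 k3 k4
    by_contra hn
    push Not at hn
    have m : ∀ v, ¬ Far k d (x a) (x v) → v ∈ {v | ∃ j : ℕ, j < d ∧ c v = c a + (j : ZMod k)} :=
      fun v hv => ⟨_, lt_of_not_ge (fun t => hv (far_of k d _ _ h0 t)), wn a v⟩
    have ma : a ∈ {v | ∃ j : ℕ, j < d ∧ c v = c a + (j : ZMod k)} := ⟨0, by omega, by simp⟩
    have mb := m b hn.1
    have me := m e hn.2.1
    have mg := m g hn.2.2
    exact hc (c a) a ((((Relation.TransGen.single ⟨k1, ma, mb⟩).tail ⟨k2, mb, me⟩).tail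
      ⟨k3, me, mg⟩).tail ⟨k4, mg, ma⟩)
  have S : ∀ a b e g : Fin 9, B a b → B b e → B e g → B g a →
      Spread k d (x a) (x b) (x e) (x g) := fun a b e g k1 k2 k3 k4 =>
    ⟨W a b e g k1 k2 k3 k4, W b e g a k2 k3 k4 k1, W e g a b k3 k4 k1 k2, W g a b e k4 k1 k2 k3⟩
  have s1 := S 7 2 0 3 (by decide) (by decide) (by decide) (by decide)
  have s2 := S 7 4 0 3 (by decide) (by decide) (by decide) (by decide)
  have s3 := S 7 1 6 5 (by decide) (by decide) (by decide) (by decide)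
  have s4 := S 7 2 6 5 (by decide) (by decide) (by decide) (by decide)
  have s5 := S 1 8 2 4 (by decide) (by decide) (by decide) (by decide)
  rw [x7] at s1 s2 s3 s4
  have t1 := same k d _ _ _ _ (lt _) (lt _) (lt _) (lt _) h1 h2 s1 s2
  have t2 := same k d _ _ _ _ (lt _) (lt _) (lt _) (lt _) h1 h2 s3 s4
  have F := fun L a b e a' b' e' => fin4 k d (x 1) (x 8) (x 2) (x 4) L (lt _) h2 a b e a' b' e'
    (lt _) (lt _) (lt _) s5
  clear s1 s2 s3 s4 s5 S W
  unfold Same at t1 t2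
  rcases t1 with t1 | t1 | t1
  · apply F (3 * d - 2 * k) <;> omega
  · apply F (2 * d - k) <;> omega
  · apply F d <;> omega

def cl4 : Fin 9 → ZMod 3 := ![0, 0, 0, 1, 1, 0, 1, 2, 2]
def rk4 : ZMod 3 → Fin 9 → ℕ := fun i =>
  if i = 0 then ![2, 2, 0, 3, 1, 4, 3, 0, 0] else
  if i = 1 then ![0, 0, 0, 0, 2, 0, 0, 1, 0] else ![5, 2, 4, 0, 0, 0, 0, 1, 3]

lemma upper4 : KDCol B 3 2 := by
  refine ⟨cl4, fun i v hv => ?_⟩
  have key : ∀ (i : ZMod 3) (a b : Fin 9), B a b → cl4 a ≠ i + 2 → cl4 b ≠ i + 2 →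
      rk4 i a < rk4 i b := by decide
  have k2 : ∀ (i y : ZMod 3), (y = i + ((0 : ℕ) : ZMod 3) → y ≠ i + 2) ∧
      (y = i + ((1 : ℕ) : ZMod 3) → y ≠ i + 2) := by decide
  have mm : ∀ a, a ∈ {v | ∃ j : ℕ, j < 2 ∧ cl4 v = i + (j : ZMod 3)} → cl4 a ≠ i + 2 := by
    rintro a ⟨j, hj, e⟩
    interval_cases j
    · exact (k2 i _).1 e
    · exact (k2 i _).2 e
  have : ∀ a b, Relation.TransGen (fun a b => B a b ∧
      a ∈ {v | ∃ j : ℕ, j < 2 ∧ cl4 v = i + (j : ZMod 3)} ∧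
      b ∈ {v | ∃ j : ℕ, j < 2 ∧ cl4 v = i + (j : ZMod 3)}) a b → rk4 i a < rk4 i b := by
    intro a b h
    induction h with
    | single h => exact key i _ _ h.1 (mm _ h.2.1) (mm _ h.2.2)
    | tail _ h ih => exact ih.trans (key i _ _ h.1 (mm _ h.2.1) (mm _ h.2.2))
  exact lt_irrefl _ (this v v hv)

lemma girth4 : IsLeast {m | 1 ≤ m ∧ HasCycle B m} 4 := by
  refine ⟨⟨by norm_num, (![7, 2, 0, 3] : Fin 4 → Fin 9), by decide, by decide⟩, ?_⟩
  rintro m ⟨h1, f, -, hf⟩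
  by_contra hm
  have hm' : m < 4 := by omega
  have n1 : ∀ a, ¬ B a a := by decide
  have n2 : ∀ a b, B a b → ¬ B b a := by decide
  have n3 : ∀ a b e, B a b → B b e → ¬ B e a := by decide
  interval_cases m
  · exact n1 (f 0) (hf 0)
  · exact n2 (f 0) (f 1) (hf 0) (hf 1)
  · exact n3 (f 0) (f 1) (f 2) (hf 0) (hf 1) (hf 2)

theorem main4 : ∃ D : Fin 9 → Fin 9 → Prop, (∀ u, ¬ D u u) ∧ Planar (SimpleGraph.fromRel D) ∧
    IsLeast {m | 1 ≤ m ∧ HasCycle D m} 4 ∧ IsLeast (Ratios D) (3 / 2) := by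
  refine ⟨B, by decide, planarB, girth4,
    ⟨3, 2, by norm_num, by norm_num, upper4, by norm_num⟩, ?_⟩
  rintro x ⟨k, d, h0, h1, h, rfl⟩
  have := lower4 k d h0 h1 h
  have hd : (0 : ℚ) < d := by exact_mod_cast h0
  rw [div_le_div_iff₀ (by norm_num) hd]
  exact_mod_cast (by omega : 3 * d ≤ k * 2)

end H16.Star
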