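import Pool.Agent.H16.StarDefs

namespace H16.Star

/-- `A` has a directed cycle of length `m`: distinct vertices `f i`, `i ∈ ZMod m`, with arcs
`f i → f (i + 1)`. -/
def HasCycle {V : Type} (A : V → V → Prop) (m : ℕ) : Prop :=
  ∃ f : ZMod m → V, Function.Injective f ∧ ∀ i, A (f i) (f (i + 1))

end H16.Star
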