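import Pool.Agent.H16.PseudoDefs

namespace H16.Star

/-- `S` induces a subdigraph without directed cycle (no closed directed walk inside `S`). -/
def AcyclicSet {V : Type} (A : V → V → Prop) (S : Set V) : Prop :=
  ∀ v, ¬ Relation.TransGen (fun a b => A a b ∧ a ∈ S ∧ b ∈ S) v v

/-- An acyclic `(k,d)`-colouring. -/
def KDCol {V : Type} (A : V → V → Prop) (k d : ℕ) : Prop :=
  ∃ c : V → ZMod k, ∀ i : ZMod k, AcyclicSet A {v | ∃ j : ℕ, j < d ∧ c v = i + (j : ZMod k)}

/-- The set whose minimum is the star dichromatic number. -/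
def Ratios {V : Type} (A : V → V → Prop) : Set ℚ :=
  {x | ∃ k d : ℕ, 1 ≤ d ∧ d ≤ k ∧ KDCol A k d ∧ x = (k : ℚ) / d}

end H16.Star
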