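import Pool.Agent.H16.CFG
import Pool.Agent.H16.PCPU

set_option autoImplicit false

namespace Pool.Agent.H16.SubCF
open Relation CFG QueueM

variable {A Y : Type} (dec : A → Option (Bool × Option Y)) (X : A) (l r : Option Y → A) (zs : List (Option Y))

def τ (a : A) : List A :=
  match dec a with
  | none => zs.flatMap fun y => [l y, a, r y]
  | some _ => [a]

def B (n : ℕ) : List A := (fun w => w.flatMap (τ dec l r zs))^[n] [X]

def U (w : List (Option Y)) : List (A ⊕ ℕ) := w.flatMap fun y => [.inl (r y), .inr 1]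
def D (w : List (Option Y)) : List (A ⊕ ℕ) := w.reverse.flatMap fun y => [.inr 1, .inl (l y)]

variable (S : Set (List Y × List Y)) (c : List Y × List Y → ℕ) (f w0 : List Y)

inductive I (A Y P : Type)
  | k0 | k1 | k2 | k3 (y : Option Y) | j0 | j1 (a : A) | c0 | c1 (p : P) | m0 (p : P) | m1 (p : P) (y : Y)

instance {P : Type} [Fintype A] [Fintype Y] [Fintype P] : Fintype (I A Y P) := derive_fintype% _

def F : I A Y S → ℕ × List (A ⊕ ℕ)
  | .k0 => (1, [])
  | .k1 => (1, [.inl X])
  | .k2 => (1, [.inr 1, .inr 1])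
  | .k3 y => (1, [.inl (l y), .inr 1, .inl (r y)])
  | .j0 => (2, [])
  | .j1 a => (2, [.inl a, .inr 2])
  | .c0 => (3, U r (f.map some ++ [none]))
  | .c1 p => (3, U r (p.1.1.map some) ++ [.inr (c p + 4), .inr 1, .inr 3])
  | .m0 p => (c p + 4, U r [none] ++ .inr 2 :: D l (p.1.2.map some ++ [none]))
  | .m1 p y => (c p + 4, U r [some y] ++ .inr (c p + 4) :: D l [some y])

def ρ : A ⊕ ℕ → List (Option Y) → List (Option Y) → Prop
  | .inl a, s, s' => match dec a with
    | none => s = s'
    | some (true, y) => s' = y :: s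
    | some (false, y) => s = y :: s'
  | .inr 0, _, _ => ReflTransGen (qs S) w0 f
  | .inr 1, s, s' => s = s'
  | .inr 2, _, _ => True
  | .inr 3, s, _ => ∀ v z, s = v.map some ++ none :: z → ReflTransGen (qs S) v f
  | .inr (n + 4), s, s' => ∀ p, c p = n → ∃ t z z', s = t.map some ++ none :: z ∧ s' = (t ++ p.2).map some ++ none :: z'

variable {dec X l r zs S c f w0} (hX : dec X = none) (hl : ∀ y, dec (l y) = some (true, y))
  (hr : ∀ y, dec (r y) = some (false, y))

include hr in
theorem cU {w : List (Option Y)} {s : List (A ⊕ ℕ)} {a b : List (Option Y)}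
    (h : Cmp (ρ dec S c f w0) (U r w ++ s) a b) : ∃ z, a = w ++ z ∧ Cmp (ρ dec S c f w0) s z b := by
  induction w generalizing a with
  | nil => exact ⟨a, rfl, h⟩
  | cons y w ih =>
    obtain ⟨m, h1, _, rfl, h2⟩ := h
    obtain ⟨z, rfl, h3⟩ := ih h2
    exact ⟨z, by simpa [ρ, hr] using h1, h3⟩

include hl in
theorem cD {w : List (Option Y)} {s : List (A ⊕ ℕ)} {a b : List (Option Y)}
    (h : Cmp (ρ dec S c f w0) (D l w ++ s) a b) : Cmp (ρ dec S c f w0) s (w ++ a) b := by
  induction w generalizing s with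
  | nil => exact h
  | cons y w ih =>
    obtain ⟨_, rfl, m, h1, h2⟩ := ih (s := .inr 1 :: .inl (l y) :: s) (by simpa [D] using h)
    obtain rfl : m = y :: (w ++ a) := by simpa [ρ, hl] using h1
    exact h2

theorem uniq {v t : List Y} {z z' : List (Option Y)} (e : v.map some ++ none :: z = t.map some ++ none :: z') :
    v = t := by
  induction v generalizing t with
  | nil => cases t <;> simp_all
  | cons a v ih =>
    cases t with
    | nil => simp at e
    | cons b t =>
      simp only [List.map_cons, List.cons_append, List.cons.injEq, Option.some.injEq] at e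
      rw [e.1, ih e.2]

include hX hl hr in
theorem F_sound (hc : Function.Injective c) (i : I A Y S) (a b : List (Option Y))
    (h : Cmp (ρ dec S c f w0) (F X l r S c f i).2 a b) : ρ dec S c f w0 (.inr (F X l r S c f i).1) a b := by
  cases i with
  | k0 => exact h
  | k1 =>
    obtain ⟨m, h1, rfl⟩ := h
    simpa [ρ, hX, F] using h1
  | k2 =>
    obtain ⟨_, rfl, _, rfl, rfl⟩ := h
    rfl
  | k3 y =>
    obtain ⟨m, h1, _, rfl, _, h2, rfl⟩ := h
    simp only [ρ, hl, hr] at h1 h2
    exact List.tail_eq_of_cons_eq (h1.symm.trans h2)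
  | j0 => trivial
  | j1 a => trivial
  | c0 =>
    obtain ⟨z, rfl, -⟩ := cU hr (s := []) (by simpa [F] using h)
    intro v z' e
    rw [uniq (e.symm.trans (List.append_assoc ..))]
  | c1 p =>
    obtain ⟨z, rfl, m, h1, _, rfl, _, h2, -⟩ := cU hr h
    obtain ⟨t, z, z', rfl, rfl⟩ := h1 p rfl
    intro v z'' e
    rw [← List.append_assoc, ← List.map_append] at e
    exact .head ⟨p, p.2, t, (uniq e).symm, rfl⟩ (h2 _ _ rfl)
  | m0 p =>
    obtain ⟨z, rfl, m, -, h1⟩ := cU hr h
    intro p' e
    obtain rfl := hc e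
    have := cD hl (w := p.1.2.map some ++ [none]) (s := []) (by rw [List.append_nil]; exact h1)
    exact ⟨[], z, m, rfl, by simpa using Eq.symm this⟩
  | m1 p y =>
    obtain ⟨z, rfl, m, h2, h1⟩ := cU hr h
    intro p' e
    obtain ⟨t, z, z', rfl, rfl⟩ := h2 p' e
    exact ⟨y :: t, z, z', rfl, (cD hl (w := [some y]) (s := []) h1).symm⟩

include hl hr in
theorem τ_pres {w : List A} {a b : List (Option Y)} (h : Cmp (ρ dec S c f w0) (w.map .inl) a b) :
    Cmp (ρ dec S c f w0) ((w.flatMap (τ dec l r zs)).map .inl) a b := by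
  induction w generalizing a with
  | nil => exact h
  | cons x w ih =>
    obtain ⟨m, h1, h2⟩ := h
    rw [List.flatMap_cons, List.map_append, cmp_app]
    refine ⟨m, ?_, ih h2⟩
    unfold τ
    split
    · next e =>
      obtain rfl : a = m := by simpa [ρ, e] using h1
      clear ih
      induction zs with
      | nil => rfl
      | cons y zs ih' => exact ⟨y :: a, by simp [ρ, hl], y :: a, by simp [ρ, e], a, by simp [ρ, hr], ih'⟩
    · exact ⟨m, h1, rfl⟩

include hl hr in
theorem fac_ok {w : List A} {n : ℕ} {x : A} (h : w <:+: (fun w => w.flatMap (τ dec l r zs))^[n] [x]) :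
    ∃ a b, Cmp (ρ dec S c f w0) (w.map .inl) a b := by
  have : ∃ a b, Cmp (ρ dec S c f w0) (((fun w => w.flatMap (τ dec l r zs))^[n] [x]).map .inl) a b := by
    clear h
    induction n with
    | zero =>
      rcases e : dec x with _ | ⟨_ | _, y⟩
      · exact ⟨[], [], [], by simp [ρ, e], rfl⟩
      · exact ⟨[y], [], [], by simp [ρ, e], rfl⟩
      · exact ⟨[], [y], [y], by simp [ρ, e], rfl⟩
    | succ n ih =>
      obtain ⟨a, b, h⟩ := ih
      exact ⟨a, b, by rw [Function.iterate_succ_apply']; exact τ_pres hl hr h⟩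
  obtain ⟨u, v, e⟩ := h
  simp only [← e, List.map_append, cmp_app] at this
  obtain ⟨_, _, b, ⟨a, -, h⟩, -⟩ := this
  exact ⟨a, b, h⟩

include hX hl hr in
theorem B_succ (n : ℕ) : B dec X l r zs (n + 1) = zs.flatMap fun y => l y :: (B dec X l r zs n ++ [r y]) := by
  induction n with
  | zero => simp [B, τ, hX]
  | succ n ih =>
    rw [B, Function.iterate_succ_apply', ← B]
    conv_lhs => rw [ih]
    simp [List.flatMap_assoc, τ, hl, hr, B, Function.iterate_succ_apply']

variable {R : List (ℕ × List (A ⊕ ℕ))} (hR : ∀ i, F X l r S c f i ∈ R)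

include hR in
theorem gK' {w : List A} (h : Gn R [.inr 1] w) (zs : List (Option Y)) :
    Gn R [.inr 1] (zs.flatMap fun y => l y :: (w ++ [r y])) := by
  induction zs with
  | nil => exact .one (hR .k0) .nil
  | cons y zs ih => exact .one (hR .k2) ((Gn.one (hR (.k3 y)) ((h.app (.t _ .nil)).t _)).app ih)

include hX hl hr hR in
theorem gK (n : ℕ) : Gn R [.inr 1] (B dec X l r zs n) := by
  induction n with
  | zero => exact .one (hR .k1) (.t _ .nil)
  | succ n ih => exact B_succ hX hl hr n ▸ gK' hR ih zs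

include hX hl hr hR in
theorem ctx (hz : ∀ y, y ∈ zs) (w : List (Option Y)) (j : ℕ) : ∃ α β, B dec X l r zs (j + w.length) =
    α ++ B dec X l r zs j ++ β ∧ Gn R (D l w) α ∧ Gn R (U r w) β := by
  induction w generalizing j with
  | nil => exact ⟨[], [], by simp, .nil, .nil⟩
  | cons y w ih =>
    obtain ⟨α, β, e, h1, h2⟩ := ih (j + 1)
    obtain ⟨z1, z2, ez⟩ := List.append_of_mem (hz y)
    have k := gK' hR (gK (zs := zs) hX hl hr hR j)
    refine ⟨_, _, ?_, by simpa [D] using h1.app ((k z1).app (.t (l y) .nil)), ((k z2).app h2).t (r y)⟩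
    rw [List.length_cons, ← add_assoc, add_right_comm, e, B_succ hX hl hr]
    conv_lhs => enter [1, 2, 2]; rw [ez]
    simp

include hR in
theorem gJ (w : List A) : Gn R [.inr 2] w := by
  induction w with
  | nil => exact .one (hR .j0) .nil
  | cons a w ih => exact .one (hR (.j1 a)) (ih.t a)

include hR in
theorem gM (p : S) (t : List Y) (ι : List A) {α β : List A} (h1 : Gn R (U r (t.map some ++ [none])) β)
    (h2 : Gn R (D l ((t ++ p.1.2).map some ++ [none])) α) : Gn R [.inr (c p + 4)] (β ++ (ι ++ α)) := by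
  induction t generalizing α β with
  | nil => exact .one (hR (.m0 p)) (h1.app ((gJ hR ι).app h2))
  | cons y t ih =>
    obtain ⟨β1, β2, rfl, a1, a2⟩ := Gn.split (s := U r [some y]) (s' := U r (t.map some ++ [none])) (by simpa [U] using h1)
    obtain ⟨α1, α2, rfl, b1, b2⟩ := Gn.split (s := D l ((t ++ p.1.2).map some ++ [none])) (s' := D l [some y])
      (by simpa [D] using h2)
    simpa using Gn.one (hR (.m1 p y)) (a1.app ((ih a2 b1).app b2))

variable {y0 y1 : Option Y} {zt : List (Option Y)}

include hX hl hr in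
theorem fac2 {u v : List A} {m n : ℕ} (hu : u <:+: B dec X l r (y0 :: y1 :: zt) m)
    (hv : v <:+: B dec X l r (y0 :: y1 :: zt) n) : ∃ ι k, u ++ (ι ++ v) <:+: B dec X l r (y0 :: y1 :: zt) k := by
  have mono : ∀ m k, B dec X l r (y0 :: y1 :: zt) m <:+: B dec X l r (y0 :: y1 :: zt) (m + k) := fun m k => by
    induction k with
    | zero => rfl
    | succ k ih => exact ih.trans ⟨[l y0], _, by rw [← add_assoc, B_succ hX hl hr]; simp; rfl⟩
  obtain ⟨a, b, e⟩ := hu.trans (mono m n)
  obtain ⟨a', b', e'⟩ := hv.trans (mono n m)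
  refine ⟨b ++ r y0 :: l y1 :: a', m + n + 1, l y0 :: a, b' ++ r y1 :: zt.flatMap fun y =>
    l y :: (B dec X l r (y0 :: y1 :: zt) (m + n) ++ [r y]), ?_⟩
  rw [B_succ hX hl hr, List.flatMap_cons, List.flatMap_cons]
  conv_rhs => enter [1]; rw [← e]
  conv_rhs => enter [2, 1]; rw [add_comm, ← e']
  simp

include hX hl hr hR in
theorem chain (hz : ∀ y, y ∈ y0 :: y1 :: zt) {v : List Y} (h : ReflTransGen (qs S) v f) {α β : List A} {m : ℕ}
    (h1 : Gn R (U r (v.map some ++ [none])) β) (h2 : α ++ β <:+: B dec X l r (y0 :: y1 :: zt) m) :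
    ∃ γ k, Gn R [.inr 3] γ ∧ α ++ γ <:+: B dec X l r (y0 :: y1 :: zt) k := by
  induction h using ReflTransGen.head_induction_on generalizing α β m with
  | refl => exact ⟨β, m, .one (hR .c0) h1, h2⟩
  | head e _ ih =>
    obtain ⟨p, hp, t, rfl, rfl⟩ := e
    obtain ⟨β1, β2, rfl, a1, a2⟩ := Gn.split (s := U r (p.1.map some)) (s' := U r (t.map some ++ [none]))
      (by simpa [U] using h1)
    obtain ⟨α', β', e, b1, b2⟩ := ctx hX hl hr hR hz ((t ++ p.2).map some ++ [none]) 0
    obtain ⟨ι, k, e'⟩ := fac2 hX hl hr h2 (List.infix_refl _)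
    rw [e] at e'
    obtain ⟨γ, k', c1, c2⟩ := ih (α := α ++ (β1 ++ β2) ++ (ι ++ (α' ++ B dec X l r (y0 :: y1 :: zt) 0))) b2
      (by simpa using e')
    exact ⟨_, k', .one (hR (.c1 ⟨p, hp⟩)) (a1.app ((gM hR ⟨p, hp⟩ t ι a2 b1).app
      ((gK (zs := y0 :: y1 :: zt) hX hl hr hR 0).app c1))), by simpa using c2⟩

theorem point (Bn : ℕ → List A) (X a : A) (h : ∀ n, ∃ b t, Bn (n + 1) = a :: (Bn n ++ b :: t)) (h0 : Bn 0 ≠ []) :
    ∃ x : ℤ → A, (∀ (i : ℤ) (n : ℕ), ∃ m, ((List.range n).map fun j : ℕ => x (i + j)) <:+: Bn m) ∧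
      ∀ w m, w <:+: Bn m → ∃ i : ℤ, w = (List.range w.length).map fun j : ℕ => x (i + j) := by
  have len : ∀ n, 2 * n + 1 ≤ (Bn n).length := fun n => by
    induction n with
    | zero => exact List.length_pos_iff.mpr h0
    | succ n ih =>
      obtain ⟨b, t, e⟩ := h n
      simp [e]; omega
  have st : ∀ m k j, j < (Bn m).length → j + k < (Bn (m + k)).length ∧ (Bn (m + k)).getD (j + k) X = (Bn m).getD j X :=
    fun m k j hj => by
      induction k with
      | zero => exact ⟨hj, rfl⟩
      | succ k ih =>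
        obtain ⟨b, t, e⟩ := h (m + k)
        rw [← add_assoc, ← add_assoc, e, List.getD_cons_succ, List.getD_append _ _ _ _ ih.1]
        exact ⟨by simp; omega, ih.2⟩
  have key : ∀ (m j : ℕ) (i : ℤ), j < (Bn m).length → i + m = j →
      (Bn i.natAbs).getD (i + i.natAbs).toNat X = (Bn m).getD j X := fun m j i hj e => by
    have := len i.natAbs
    rw [← (st _ m _ (by omega)).2, ← (st m i.natAbs j hj).2, add_comm m]
    congr 1
    omega
  refine ⟨fun i => (Bn i.natAbs).getD (i + i.natAbs).toNat X, fun i n => ⟨i.natAbs + n, ?_⟩, fun w m ⟨u, v, e⟩ =>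
    ⟨u.length - m, ?_⟩⟩
  · have := len (i.natAbs + n)
    have e : ((List.range n).map fun j : ℕ => (Bn (i + j).natAbs).getD (i + j + (i + j).natAbs).toNat X) =
        ((Bn (i.natAbs + n)).drop (i + (i.natAbs + n : ℕ)).toNat).take n := by
      refine List.ext_getElem (by simp only [List.length_map, List.length_range, List.length_take, List.length_drop]; omega)
        fun j h1 h2 => ?_
      simp only [List.length_map, List.length_range] at h1
      simp only [List.getElem_map, List.getElem_range, List.getElem_take, List.getElem_drop]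
      rw [key (i.natAbs + n) ((i + (i.natAbs + n : ℕ)).toNat + j) _ (by omega) (by omega), List.getD_eq_getElem]
    exact e ▸ (List.take_prefix ..).isInfix.trans (List.drop_suffix ..).isInfix
  · refine List.ext_getElem (by simp) fun j h1 h2 => ?_
    simp only [List.getElem_map, List.getElem_range]
    rw [key m (u.length + j) _ (by simp [← e]; omega) (by push_cast; ring), ← e, List.append_assoc,
      List.getD_append_right _ _ _ _ (by omega), List.getD_append _ _ _ _ (by omega)]
    simp [List.getD, h1]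

theorem main : ∃ (k : ℕ) (τ : Fin k → List (Fin k)), ¬ ComputablePred fun R : List (ℕ × List (Fin k ⊕ ℕ)) =>
    ∃ w ∈ (gram R).language, ∃ x : ℤ → Fin k,
      (∀ (i : ℤ) (n : ℕ), ∃ m a, ((List.range n).map fun j : ℕ => x (i + j)) <:+: (fun u => u.flatMap τ)^[m] [a]) ∧
      ∃ i : ℤ, w = (List.range w.length).map fun j : ℕ => x (i + j) := by
  classical
  obtain ⟨Y, _, S, f1, f2, c0, u, v, hS, -, -, -, h4⟩ := exists_queue
  obtain ⟨k, ⟨e⟩⟩ := Finite.exists_equiv_fin (Option (Bool × Option Y))
  obtain ⟨c, hc⟩ := Countable.exists_injective_nat (List Y × List Y)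
  have := hS.to_subtype
  have := Fintype.ofFinite Y
  have := Fintype.ofFinite S
  let l y := e (some (true, y))
  let r y := e (some (false, y))
  have hX := e.symm_apply_apply none
  have hl : ∀ y, e.symm (l y) = some (true, y) := fun y => e.symm_apply_apply _
  have hr : ∀ y, e.symm (r y) = some (false, y) := fun y => e.symm_apply_apply _
  have hz : ∀ y : Option Y, y ∈ none :: none :: Finset.univ.toList := by simp
  let R n := (0, D l ((u ++ List.replicate n c0 ++ v).map some ++ [none]) ++ [.inr 1, .inr 3]) ::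
    Finset.univ.toList.map (F (e none) l r S c [f1, f2])
  have hR : ∀ n i, F (e none) l r S c [f1, f2] i ∈ R n := fun n i => by simp [R]
  have cR : Computable R := by
    refine Computable.list_cons.comp ((Computable.const 0).pair (Primrec.to_comp ?_)) (Computable.const _)
    refine (Primrec.list_append.comp (Primrec.const (D l (v.map some ++ [none]))) (Primrec.list_append.comp
      (Primrec.list_flatten.comp (Primrec.list_map Primrec.list_range (Primrec.const (D l [some c0])).to₂))
      (Primrec.const (D l (u.map some) ++ [.inr 1, .inr 3])))).of_eq fun n => ?_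
    simp [D, List.flatMap_replicate]
  refine ⟨k, τ e.symm l r (none :: none :: Finset.univ.toList), fun ⟨d, hd⟩ => h4
    (ComputablePred.of_eq ⟨fun n => d (R n), hd.comp cR⟩ fun n => ⟨fun ⟨w, hw, x, h1, i, h2⟩ => ?_, fun h => ?_⟩)⟩
  · obtain ⟨m, a, h3⟩ := h1 i w.length
    rw [← h2] at h3
    obtain ⟨s, s', h5⟩ := fac_ok (S := S) (c := c) (f := [f1, f2]) (w0 := u ++ List.replicate n c0 ++ v) hl hr h3
    refine (((mem_lang w).mp hw).sound (fun p hp a b h => ?_) _ _ h5).choose_spec.1
    rcases List.mem_cons.mp hp with rfl | hp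
    · obtain ⟨_, rfl, _, h7, -⟩ := cD hl h
      exact h7 _ _ (List.append_assoc ..)
    · obtain ⟨i, -, rfl⟩ := List.mem_map.mp hp
      exact F_sound hX hl hr hc i a b h
  · obtain ⟨α, β, e1, b1, b2⟩ := ctx hX hl hr (hR n) hz ((u ++ List.replicate n c0 ++ v).map some ++ [none]) 0
    obtain ⟨γ, m, c1, c2⟩ := chain hX hl hr (hR n) hz h b2 ⟨[], [], by rw [e1, List.nil_append, List.append_nil]⟩
    obtain ⟨x, d1, d2⟩ := point (B e.symm (e none) l r (none :: none :: Finset.univ.toList)) (e none) (l none)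
      (fun n => ⟨r none, _, by rw [B_succ hX hl hr, List.flatMap_cons]; simp; rfl⟩) (by simp [B])
    exact ⟨_, (mem_lang _).mpr (.one (List.mem_cons_self ..) (by
      rw [List.append_assoc α]; exact b1.app ((gK hX hl hr (hR n) 0).app c1))), x, fun i j => (d1 i j).imp fun m k => ⟨_, k⟩, d2 _ m c2⟩

end Pool.Agent.H16.SubCF
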