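import Mathlib

set_option autoImplicit false

namespace Pool.Agent.H16.Sylv

/-- state of the greedy-type recursion -/
def Good (c : ℚ) (u B : ℕ) (L : List ℕ) (D : ℕ) : Prop :=
  L.Pairwise (· < ·) ∧ (∀ x ∈ L, 1 < x) ∧ (∀ x ∈ L, Nat.Coprime x B) ∧
    (L.map (fun x : ℕ => (1 : ℚ) / x)).sum = c - D / (u * L.prod : ℕ) ∧
    ∀ x ∈ L, x * D ≤ u * L.prod

def chk (B C : ℕ) : List ℕ → ℕ → ℕ → Bool
  | [], _, D => D == 1
  | _ :: _, 0, _ => false
  | E :: l, r + 1, D =>
    (r + 1 + E) % D == 0 && decide (E ≤ C) && decide (0 < E) && decide (0 < D) && decide (D ≤ C) &&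
      Nat.gcd ((r + 1 + E) / D) B == 1 &&
      chk B C l ((r + 1) * ((r + 1 + E) / D) % ((E :: l).prod * B)) E

theorem chk_sound (c : ℚ) (u B C : ℕ) (hu : 0 < u) :
    ∀ (l : List ℕ) (R D : ℕ) (L : List ℕ), Good c u B L D → C ≤ u * L.prod →
      u * L.prod ≡ R [MOD (D :: l).prod * B] → chk B C l R D = true →
      ∃ L' : List ℕ, L.length ≤ L'.length ∧ Good c u B L' 1 := by
  intro l
  induction l with
  | nil =>
    intro R D L hG _ _ h
    simp only [chk, beq_iff_eq] at h
    exact ⟨L, le_rfl, h ▸ hG⟩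
  | cons E l ih =>
    intro R D L hG hC hR h
    rcases R with _ | r
    · simp [chk] at h
    simp only [chk, Bool.and_eq_true, beq_iff_eq, decide_eq_true_eq] at h
    obtain ⟨⟨⟨⟨⟨⟨h1, h2⟩, h3⟩, h4⟩, h4'⟩, h5⟩, h6⟩ := h
    set K := u * L.prod with hK
    set M := (E :: l).prod * B with hM
    have hmod : (D :: E :: l).prod * B = D * M := by rw [List.prod_cons, hM, mul_assoc]
    rw [hmod] at hR
    obtain ⟨y, hy⟩ := Nat.dvd_of_mod_eq_zero h1
    have hy' : (r + 1 + E) / D = y := by rw [hy, Nat.mul_div_cancel_left _ h4]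
    rw [hy'] at h5 h6
    have hR2 : K + E ≡ r + 1 + E [MOD D * M] := hR.add_right E
    obtain ⟨x, hx⟩ : D ∣ K + E :=
      ((hR2.of_mul_right M).dvd_iff (dvd_refl D)).mpr ⟨y, hy⟩
    have hxy : x ≡ y [MOD M] := by
      rw [hx, hy] at hR2
      exact Nat.ModEq.mul_left_cancel' h4.ne' hR2
    obtain ⟨g1, g2, g3, g4, g5⟩ := hG
    have hL : 0 < L.prod := List.prod_pos fun a ha => by have := g2 a ha; omega
    have hK0 : 0 < K := Nat.mul_pos hu hL
    have hlt : ∀ z ∈ L, z < x := by
      intro z hz
      have := g5 z hz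
      by_contra hc
      have : x * D ≤ z * D := Nat.mul_le_mul_right _ (by omega)
      nlinarith
    have hx1 : 1 < x := by
      by_contra hc
      have : D * x ≤ D * 1 := Nat.mul_le_mul_left _ (by omega)
      omega
    have hp : u * (L ++ [x]).prod = K * x := by simp [hK, mul_assoc]
    refine (ih _ E (L ++ [x]) ⟨?_, ?_, ?_, ?_, ?_⟩ ?_ ?_ h6).imp
      fun L' h7 => ⟨by have := h7.1; simp at this; omega, h7.2⟩
    · rw [List.pairwise_append]
      refine ⟨g1, by simp, ?_⟩
      intro a ha b hb
      rw [List.mem_singleton] at hb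
      exact hb ▸ hlt a ha
    · intro z hz
      rcases List.mem_append.mp hz with hz | hz
      · exact g2 z hz
      · rw [List.mem_singleton] at hz; omega
    · intro z hz
      rcases List.mem_append.mp hz with hz | hz
      · exact g3 z hz
      · rw [List.mem_singleton] at hz
        subst hz
        have : z ≡ y [MOD B] := hxy.of_mul_left _
        unfold Nat.Coprime
        rw [this.gcd_eq]; exact h5
    · rw [hp, List.map_append, List.sum_append, g4, ← hK]
      have hxq : (K : ℚ) + E = D * x := by exact_mod_cast hx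
      have hKq : (K : ℚ) ≠ 0 := by exact_mod_cast hK0.ne'
      have hx0 : (x : ℚ) ≠ 0 := by exact_mod_cast (by omega : x ≠ 0)
      simp only [List.map_cons, List.map_nil, List.sum_cons, List.sum_nil, add_zero]
      rw [Nat.cast_mul K x]
      generalize K = K' at *
      field_simp
      linear_combination hxq
    · intro z hz
      rw [hp]
      have hz' : z ≤ x := by
        rcases List.mem_append.mp hz with hz | hz
        · exact (hlt z hz).le
        · rw [List.mem_singleton] at hz; omega
      calc z * E ≤ x * K := Nat.mul_le_mul hz' (by omega)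
        _ = K * x := mul_comm _ _
    · rw [hp]; nlinarith
    · rw [hp]
      exact ((hR.of_mul_left D).mul hxy).trans (Nat.mod_modEq _ _).symm

end Pool.Agent.H16.Sylv
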