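import Mathlib

set_option autoImplicit false

namespace Pool.Agent.H16.TLH

open Filter

variable (W : ℕ → Set ℕ)

/-- A tolerance relation: an equivalence relation on indices containing equality of sets. -/
def Tol (E : ℕ → ℕ → Prop) : Prop := Equivalence E ∧ ∀ e e', W e = W e' → E e e'

/-- The initial segment `(μ 0, …, μ (s - 1))`. -/
def seg (μ : ℕ → ℕ) (s : ℕ) : List ℕ := (List.range s).map μ

/-- The family `K` is `E`-learnable by an arbitrary learner. -/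
def Learn (E : ℕ → ℕ → Prop) (K : Set (Set ℕ)) : Prop :=
  ∃ M : List ℕ → ℕ, ∀ e, W e ∈ K → ∀ μ : ℕ → ℕ, Set.range μ = W e →
    ∃ i, (∀ᶠ s in atTop, M (seg μ s) = i) ∧ E i e

/-- A family of nonempty indexed sets. -/
def Fam (K : Set (Set ℕ)) : Prop := ∀ A ∈ K, A.Nonempty ∧ ∃ e, W e = A

/-- Every `E`-learnable family is `F`-learnable. -/
def LearnLe (E F : ℕ → ℕ → Prop) : Prop := ∀ K, Fam W K → Learn W E K → Learn W F K

/-- The strict order. -/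
def LearnLt (E F : ℕ → ℕ → Prop) : Prop := LearnLe W E F ∧ ¬ LearnLe W F E

def N (n a b : ℕ) : Prop := W b ⊆ W a ∧ ∀ x < n, x ∈ W a → x ∈ W b

variable {W}

theorem N.mono {n m a b : ℕ} (h : N W n a b) (hm : m ≤ n) : N W m a b :=
  ⟨h.1, fun x hx => h.2 x (by omega)⟩

theorem seg_congr {f g : ℕ → ℕ} {s : ℕ} (h : ∀ k < s, f k = g k) : seg f s = seg g s :=
  List.map_congr_left fun k hk => h k (List.mem_range.1 hk)

theorem mem_seg {f : ℕ → ℕ} {s x : ℕ} : x ∈ seg f s ↔ ∃ k < s, f k = x := by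
  simp [seg]

theorem telltale {E : ℕ → ℕ → Prop} (hE : Equivalence E) {K : Set (Set ℕ)} (hK : Fam W K)
    (h : Learn W E K) (a : ℕ) (ha : W a ∈ K) : ∃ n, ∀ b, W b ∈ K → N W n a b → E b a := by
  obtain ⟨M, hM⟩ := h
  by_contra hc
  push Not at hc
  have step : ∀ (p : ℕ × {g : ℕ → ℕ // ∀ k, g k ∈ W a}) (y : W a),
      ∃ q : ℕ × {g : ℕ → ℕ // ∀ k, g k ∈ W a}, p.1 < q.1 ∧ (∀ k < p.1, q.2.1 k = p.2.1 k) ∧
        q.2.1 p.1 = y ∧ ¬ E (M (seg q.2.1 q.1)) a := by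
    rintro ⟨s, g, hg⟩ ⟨y, hy⟩
    obtain ⟨b, hb, hN, hne⟩ := hc (∑ k ∈ Finset.range s, g k + y + 1)
    obtain ⟨ν, hν⟩ := (Set.to_countable (W b)).exists_eq_range (hK _ hb).1
    let μ : ℕ → ℕ := fun k => if k < s then g k else if k = s then y else ν (k - (s + 1))
    have hμ : Set.range μ = W b := by
      ext x
      constructor
      · rintro ⟨k, rfl⟩
        simp only [μ]
        split_ifs with h1 h2
        · refine hN.2 _ ?_ (hg k)
          have := Finset.single_le_sum (f := g) (fun _ _ => Nat.zero_le _) (Finset.mem_range.2 h1)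
          omega
        · exact hN.2 _ (by omega) hy
        · rw [hν]
          exact ⟨_, rfl⟩
      · rw [hν]
        rintro ⟨k, rfl⟩
        refine ⟨k + (s + 1), ?_⟩
        simp only [μ]
        rw [if_neg (by omega), if_neg (by omega), Nat.add_sub_cancel]
    obtain ⟨i, hi, hE'⟩ := hM b hb μ hμ
    obtain ⟨s', h1, h2⟩ := (hi.and (eventually_gt_atTop s)).exists
    refine ⟨⟨s', μ, fun k => hN.1 (hμ ▸ ⟨k, rfl⟩)⟩, h2, fun k hk => if_pos hk, by simp [μ], ?_⟩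
    simp only [h1]
    exact fun h => hne (hE.trans (hE.symm hE') h)
  choose st h1 h2 h3 h4 using step
  obtain ⟨ν, hν⟩ := (Set.to_countable (W a)).exists_eq_range (hK _ ha).1
  have hνa : ∀ k, ν k ∈ W a := fun k => hν ▸ ⟨k, rfl⟩
  let p : ℕ → ℕ × {g : ℕ → ℕ // ∀ k, g k ∈ W a} :=
    fun n => Nat.rec ⟨0, ν, hνa⟩ (fun n q => st q ⟨ν n, hνa n⟩) n
  have hp : ∀ n, p (n + 1) = st (p n) ⟨ν n, hνa n⟩ := fun _ => rfl
  have hmono : StrictMono fun n => (p n).1 := strictMono_nat_of_lt_succ fun n => h1 _ _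
  have hag : ∀ m n, m ≤ n → ∀ k < (p m).1, (p n).2.1 k = (p m).2.1 k := by
    intro m n hmn k hk
    induction n, hmn using Nat.le_induction with
    | base => rfl
    | succ n hn ih => rw [hp, h2 _ _ k (hk.trans_le (hmono.monotone hn)), ih]
  let μ : ℕ → ℕ := fun k => (p (k + 1)).2.1 k
  have hμ : ∀ n, ∀ k < (p n).1, μ k = (p n).2.1 k := by
    intro n k hk
    have hk' : k < (p (k + 1)).1 := hmono.id_le (k + 1)
    rcases le_total n (k + 1) with h | h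
    · exact hag _ _ h k hk
    · exact (hag _ _ h k hk').symm
  obtain ⟨i, hi, hE'⟩ := hM a ha μ (by
    ext x
    constructor
    · rintro ⟨k, rfl⟩
      exact (p (k + 1)).2.2 k
    · rw [hν]
      rintro ⟨k, rfl⟩
      exact ⟨(p k).1, by rw [hμ (k + 1) _ (h1 _ _), hp, h3]⟩)
  obtain ⟨s, hs⟩ := eventually_atTop.1 hi
  have := hs (p (s + 1)).1 (le_trans (Nat.le_succ s) (hmono.id_le (s + 1)))
  rw [seg_congr (hμ (s + 1))] at this
  exact h4 (p s) ⟨ν s, hνa s⟩ (by rw [← hp, this]; exact hE')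

theorem learn_of {E : ℕ → ℕ → Prop} (hE : Equivalence E) {K : Set (Set ℕ)}
    (h : ∀ a, W a ∈ K → ∃ n, ∀ b, W b ∈ K → N W n a b → E b a) : Learn W E K := by
  classical
  choose! n hn using h
  let Q : List ℕ → ℕ → Prop := fun σ a =>
    W a ∈ K ∧ (∀ x ∈ σ, x ∈ W a) ∧ ∀ x < n a, x ∈ W a → x ∈ σ
  refine ⟨fun σ => if h : ∃ a, Q σ a then Nat.find h else 0, fun e he μ hμ => ?_⟩
  have hex : ∃ a, W a ∈ K ∧ N W (n a) a e := ⟨e, he, subset_rfl, fun _ _ h => h⟩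
  have hev : ∀ x ∈ W e, ∀ᶠ s in atTop, x ∈ seg μ s := by
    intro x hx
    obtain ⟨k, rfl⟩ : x ∈ Set.range μ := hμ ▸ hx
    exact (eventually_gt_atTop k).mono fun s hs => mem_seg.2 ⟨k, hs, rfl⟩
  have hin : ∀ s, ∀ x ∈ seg μ s, x ∈ W e := by
    intro s x hx
    obtain ⟨k, -, rfl⟩ := mem_seg.1 hx
    exact hμ ▸ ⟨k, rfl⟩
  obtain ⟨h1, h2⟩ := Nat.find_spec hex
  refine ⟨Nat.find hex, ?_, hE.symm (hn _ h1 e he h2)⟩
  have e1 : ∀ᶠ s in atTop, ∀ x ∈ Finset.range (n (Nat.find hex)), x ∈ W e → x ∈ seg μ s := by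
    rw [eventually_all_finset]
    intro x _
    by_cases hx : x ∈ W e
    · exact (hev x hx).mono fun s hs _ => hs
    · exact Eventually.of_forall fun s h => absurd h hx
  have e2 : ∀ᶠ s in atTop, ∀ a ∈ Finset.range (Nat.find hex), ¬ Q (seg μ s) a := by
    rw [eventually_all_finset]
    intro a ha
    have h3 := Nat.find_min hex (Finset.mem_range.1 ha)
    by_cases h4 : W e ⊆ W a
    · exact Eventually.of_forall fun s hq => h3 ⟨hq.1, h4, fun x hx h5 => hin s x (hq.2.2 x hx h5)⟩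
    · obtain ⟨x, h5, h6⟩ := Set.not_subset.1 h4
      exact (hev x h5).mono fun s hs hq => h6 (hq.2.1 x hs)
  filter_upwards [e1, e2] with s h3 h4
  have h5 : Q (seg μ s) (Nat.find hex) :=
    ⟨h1, fun x hx => h2.1 (hin s x hx), fun x hx h6 => h3 x (Finset.mem_range.2 hx) (h2.2 x hx h6)⟩
  rw [dif_pos ⟨_, h5⟩, Nat.find_eq_iff]
  exact ⟨h5, fun a ha => h4 a (Finset.mem_range.2 ha)⟩

theorem le_iff {E F : ℕ → ℕ → Prop} (hE : Tol W E) (hF : Tol W F) :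
    LearnLe W E F ↔ ∀ a, (W a).Nonempty → ∃ n, ∀ b, N W n a b → E b a → F b a := by
  constructor
  · intro h a ha
    have hK : Fam W {A | A.Nonempty ∧ ∃ b, W b = A ∧ E b a} :=
      fun A ⟨h1, b, h2, _⟩ => ⟨h1, b, h2⟩
    have h1 := h _ hK ⟨fun _ => a, fun e ⟨_, b, h2, h3⟩ μ _ =>
      ⟨a, Eventually.of_forall fun _ => rfl, hE.1.trans (hE.1.symm h3) (hE.2 _ _ h2)⟩⟩
    obtain ⟨n, hn⟩ := telltale hF.1 hK h1 a ⟨ha, a, rfl, hE.1.refl a⟩
    obtain ⟨x, hx⟩ := ha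
    exact ⟨n + x + 1, fun b hb hE' =>
      hn b ⟨⟨x, hb.2 x (by omega) hx⟩, b, rfl, hE'⟩ (hb.mono (by omega))⟩
  · intro h K hK hL
    refine learn_of hF.1 fun a ha => ?_
    obtain ⟨n, hn⟩ := telltale hE.1 hK hL a ha
    obtain ⟨m, hm⟩ := h a (hK _ ha).1
    exact ⟨n + m, fun b hb hN => hm b (hN.mono (by omega)) (hn b hb (hN.mono (by omega)))⟩

theorem dense {E F : ℕ → ℕ → Prop} (hE : Tol W E) (hF : Tol W F) (h : LearnLt W E F) :
    ∃ G, Tol W G ∧ LearnLt W E G ∧ LearnLt W G F := by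
  obtain ⟨h1, h2⟩ := h
  rw [le_iff hE hF] at h1
  rw [le_iff hF hE] at h2
  push Not at h2
  obtain ⟨a, ha, h2⟩ := h2
  choose b hb hbF hbE using h2
  have hx : ∀ n, ∃ x, x ∈ W a ∧ x ∉ W (b n) := fun n =>
    Set.not_subset.1 fun h => hbE n (hE.2 _ _ ((hb n).1.antisymm h))
  choose x hxa hxb using hx
  have hxn : ∀ n, n ≤ x n := fun n => not_lt.1 fun h => hxb n ((hb n).2 _ h (hxa n))
  let r : ℕ → ℕ := fun k => Nat.rec 0 (fun _ m => x m + 1) k
  have hr : ∀ k, r (k + 1) = x (r k) + 1 := fun _ => rfl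
  have hmono : StrictMono r := strictMono_nat_of_lt_succ fun k => by
    have := hxn (r k)
    rw [hr]
    omega
  let U : ℕ → ℕ → Prop := fun k c => W c ⊆ W (b (r k)) ∧ ∀ y < r k, y ∈ W a → y ∈ W c
  let V : ℕ → Prop := fun c => ∃ k, U (2 * k) c
  have hU : ∀ k m, U k (b (r m)) → k = m := by
    intro k m hk
    rcases lt_trichotomy k m with h | h | h
    · have : r (k + 1) ≤ r m := hmono.monotone h
      exact absurd (hk.1 ((hb (r m)).2 _ (by rw [hr] at this; omega) (hxa (r k)))) (hxb _)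
    · exact h
    · have : r (m + 1) ≤ r k := hmono.monotone h
      exact absurd (hk.2 _ (by rw [hr] at this; omega) (hxa (r m))) (hxb _)
  have hopen : ∀ c, V c → ∃ n, ∀ d, N W n c d → V d := fun c ⟨k, h3, h4⟩ =>
    ⟨r (2 * k), fun d hd => ⟨k, hd.1.trans h3, fun y hy h5 => hd.2 y hy (h4 y hy h5)⟩⟩
  have hclosed : ∀ c, ¬ V c → W c ≠ W a → ∃ n, ∀ d, N W n c d → ¬ V d := by
    intro c hc hca
    by_cases h3 : W c ⊆ W a
    · obtain ⟨z, hz, hz'⟩ := Set.not_subset.1 fun h => hca (h3.antisymm h)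
      have e1 : ∀ᶠ n in atTop, ∀ k ∈ Finset.range (z + 1), ∀ d, N W n c d → ¬ U (2 * k) d := by
        rw [eventually_all_finset]
        intro k _
        by_cases h4 : W c ⊆ W (b (r (2 * k)))
        · exact Eventually.of_forall fun n d hd hu =>
            hc ⟨k, h4, fun y hy h5 => hd.1 (hu.2 y hy h5)⟩
        · obtain ⟨u, h5, h6⟩ := Set.not_subset.1 h4
          exact (eventually_gt_atTop u).mono fun n hn d hd hu => h6 (hu.1 (hd.2 u hn h5))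
      obtain ⟨n, hn⟩ := e1.exists
      refine ⟨n, fun d hd ⟨k, hk⟩ => ?_⟩
      by_cases h4 : k < z + 1
      · exact hn k (Finset.mem_range.2 h4) d hd hk
      · have : 2 * k ≤ r (2 * k) := hmono.id_le _
        exact hz' (hd.1 (hk.2 z (by omega) hz))
    · obtain ⟨z, hz, hz'⟩ := Set.not_subset.1 h3
      exact ⟨z + 1, fun d hd ⟨k, hk⟩ => hz' ((hb _).1 (hk.1 (hd.2 z (by omega) hz)))⟩
  let Kp : ℕ → Prop := fun p => F p a ∧ (E p a ∨ V p)
  let G : ℕ → ℕ → Prop := fun p q => (Kp p ∧ Kp q) ∨ (¬ Kp p ∧ ¬ Kp q ∧ E p q ∧ F p q)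
  have hKa : Kp a := ⟨hF.1.refl a, Or.inl (hE.1.refl a)⟩
  have hKW : ∀ p q, W p = W q → Kp p → Kp q := by
    rintro p q hpq ⟨h3, h4⟩
    refine ⟨hF.1.trans (hF.2 _ _ hpq.symm) h3, h4.imp (hE.1.trans (hE.2 _ _ hpq.symm)) ?_⟩
    rintro ⟨k, h5⟩
    exact ⟨k, by simpa only [U, hpq] using h5⟩
  have hG : Tol W G := by
    refine ⟨⟨fun p => ?_, ?_, ?_⟩, fun p q hpq => ?_⟩
    · by_cases h : Kp p
      · exact Or.inl ⟨h, h⟩
      · exact Or.inr ⟨h, h, hE.1.refl p, hF.1.refl p⟩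
    · rintro p q (⟨h3, h4⟩ | ⟨h3, h4, h5, h6⟩)
      · exact Or.inl ⟨h4, h3⟩
      · exact Or.inr ⟨h4, h3, hE.1.symm h5, hF.1.symm h6⟩
    · rintro p q s (⟨h3, h4⟩ | ⟨h3, h4, h5, h6⟩) (⟨h7, h8⟩ | ⟨h7, h8, h9, h10⟩)
      · exact Or.inl ⟨h3, h8⟩
      · exact absurd h4 h7
      · exact absurd h7 h4
      · exact Or.inr ⟨h3, h8, hE.1.trans h5 h9, hF.1.trans h6 h10⟩
    · by_cases h : Kp p
      · exact Or.inl ⟨h, hKW _ _ hpq h⟩
      · exact Or.inr ⟨h, fun h' => h (hKW _ _ hpq.symm h'), hE.2 _ _ hpq, hF.2 _ _ hpq⟩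
  refine ⟨G, hG, ⟨(le_iff hE hG).2 fun c hc => ?_, fun h => ?_⟩,
    (le_iff hG hF).2 fun c _ => ⟨0, fun d _ hd => ?_⟩, fun h => ?_⟩
  · obtain ⟨n, hn⟩ := h1 c hc
    by_cases hK : Kp c
    · rcases hK.2 with h3 | h3
      · exact ⟨n, fun d hd h4 => Or.inl
          ⟨⟨hF.1.trans (hn d hd h4) hK.1, Or.inl (hE.1.trans h4 h3)⟩, hK⟩⟩
      · obtain ⟨m, hm⟩ := hopen c h3
        exact ⟨n + m, fun d hd h4 => Or.inl ⟨⟨hF.1.trans (hn d (hd.mono (by omega)) h4) hK.1,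
          Or.inr (hm d (hd.mono (by omega)))⟩, hK⟩⟩
    · by_cases hFa : F c a
      · have h3 : ¬ E c a := fun h => hK ⟨hFa, Or.inl h⟩
        obtain ⟨m, hm⟩ := hclosed c (fun h => hK ⟨hFa, Or.inr h⟩) fun h => h3 (hE.2 _ _ h)
        exact ⟨n + m, fun d hd h4 => Or.inr ⟨fun h5 => h5.2.elim
          (fun h6 => h3 (hE.1.trans (hE.1.symm h4) h6)) (hm d (hd.mono (by omega))), hK, h4,
            hn d (hd.mono (by omega)) h4⟩⟩
      · exact ⟨n, fun d hd h4 => Or.inr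
          ⟨fun h5 => hFa (hF.1.trans (hF.1.symm (hn d hd h4)) h5.1), hK, h4, hn d hd h4⟩⟩
  · obtain ⟨n, hn⟩ := (le_iff hG hE).1 h a ha
    have : 2 * n ≤ r (2 * n) := hmono.id_le _
    exact hbE _ (hn (b (r (2 * n))) ((hb _).mono (by omega))
      (Or.inl ⟨⟨hbF _, Or.inr ⟨n, subset_rfl, (hb _).2⟩⟩, hKa⟩))
  · rcases hd with ⟨h3, h4⟩ | ⟨-, -, -, h3⟩
    · exact hF.1.trans h3.1 (hF.1.symm h4.1)
    · exact h3
  · obtain ⟨n, hn⟩ := (le_iff hF hG).1 h a ha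
    have : 2 * n + 1 ≤ r (2 * n + 1) := hmono.id_le _
    rcases hn (b (r (2 * n + 1))) ((hb _).mono (by omega)) (hbF _) with ⟨h3, -⟩ | ⟨-, h3, -⟩
    · rcases h3.2 with h4 | ⟨k, h4⟩
      · exact hbE _ h4
      · have := hU (2 * k) (2 * n + 1) h4
        omega
    · exact h3 hKa

end Pool.Agent.H16.TLH
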