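import Mathlib

set_option autoImplicit false

namespace Pool.Agent.H16.TMHalt
open Turing StateTransition

theorem trNat_pow (n : ℕ) :
    PartrecToTM2.trNat (2 ^ n) = List.replicate n .bit0 ++ [.bit1] := by
  have h : ∀ n : ℕ, ∃ p : PosNum, (p : ℕ) = 2 ^ n ∧
      PartrecToTM2.trPosNum p = List.replicate n .bit0 ++ [.bit1] := fun n => by
    induction n with
    | zero => exact ⟨1, rfl, rfl⟩
    | succ n ih =>
      obtain ⟨p, h1, h2⟩ := ih
      exact ⟨p.bit0, by rw [PosNum.cast_bit0, h1]; ring, by rw [PartrecToTM2.trPosNum, h2]; rfl⟩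
  obtain ⟨p, h1, h2⟩ := h n
  rw [← h1, PartrecToTM2.trNat, PosNum.of_to_nat]
  exact h2

theorem exists_code : ∃ c : ToPartrec.Code, ¬ ComputablePred fun n : ℕ => (c.eval [2 ^ n]).Dom := by
  let l : ℕ → ℕ := fun m => Nat.find (⟨m, Nat.lt_two_pow_self.le⟩ : ∃ k, m ≤ 2 ^ k)
  have hl : Computable l := Computable.find (P := fun m k => m ≤ 2 ^ k) (PrimrecPred.computablePred
    (Primrec.nat_le.comp Primrec.fst ((Primrec₂.unpaired'.mp Nat.Primrec.pow).comp (Primrec.const 2) Primrec.snd))) _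
  have hf : Partrec fun m => Nat.Partrec.Code.eval (Denumerable.ofNat _ (l m)) 0 :=
    Nat.Partrec.Code.eval_part.comp ((Computable.ofNat _).comp hl) (Computable.const 0)
  obtain ⟨c, hc⟩ := ToPartrec.Code.exists_code (Nat.Partrec'.part_iff₁.mpr hf)
  refine ⟨c, fun ⟨_, h⟩ => ComputablePred.halting_problem 0 ?_⟩
  refine ComputablePred.of_eq ⟨inferInstance, h.comp Computable.encode⟩ fun d => ?_
  have h1 := hc ⟨[2 ^ Encodable.encode d], rfl⟩
  have h2 : l (2 ^ Encodable.encode d) = Encodable.encode d :=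
    (Nat.find_eq_iff _).mpr ⟨le_rfl, fun k hk => not_le.mpr (Nat.pow_lt_pow_right one_lt_two hk)⟩
  simp only [List.Vector.head, h2, Denumerable.ofNat_encode] at h1
  beta_reduce
  rw [h1]
  rfl

theorem restrict {Γ Λ : Type} [Inhabited Γ] [Inhabited Λ] (M : TM0.Machine Γ Λ) (S : Finset Λ)
    (hS : TM0.Supports M S) : ∃ (_ : Inhabited S) (M' : TM0.Machine Γ S), ∀ l : List Γ,
      (eval (TM0.step M') (TM0.init l)).Dom ↔ (eval (TM0.step M) (TM0.init l)).Dom := by
  let : Inhabited S := ⟨⟨default, hS.1⟩⟩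
  let M' : TM0.Machine Γ S := fun q a => (M q.1 a).pmap (fun p hp => (⟨p.1, hp⟩, p.2))
    fun p hp => hS.2 (s := p.2) hp q.2
  refine ⟨inferInstance, M', fun l => (tr_eval_dom (f₁ := TM0.step M') (f₂ := TM0.step M)
    (tr := fun a b => b = ⟨a.q.1, a.Tape⟩) ?_ rfl).symm⟩
  rintro ⟨q, T⟩ _ rfl
  have h : ∀ o, M q.1 T.1 = o → (M' q T.1).map (fun p => (p.1.1, p.2)) = o := fun o e => by
    subst e
    simp only [M', Option.map_pmap]
    exact (Option.pmap_eq_map _ (fun x : Λ × TM0.Stmt Γ => (x.1, x.2)) _ _).trans (by simp)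
  rcases e : M' q T.1 with _ | ⟨q', s⟩
  · have := h _ rfl
    simp only [e, Option.map_none] at this
    simp only [TM0.step, e, ← this, Option.map_none]
  · have := h _ rfl
    simp only [e, Option.map_some] at this
    simp only [TM0.step, e, Option.map_some]
    exact ⟨_, rfl, Relation.TransGen.single (by simp only [TM0.step, ← this, Option.map_some]; rfl)⟩

theorem exists_tm : ∃ (Γ Q : Type) (_ : Finite Γ) (_ : Finite Q) (_ : Inhabited Γ) (_ : Inhabited Q)
    (M : TM0.Machine Γ Q) (a b c : Γ),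
    ¬ ComputablePred fun n => (eval (TM0.step M) (TM0.init (a :: b :: List.replicate n c))).Dom := by
  obtain ⟨c, hc⟩ := exists_code
  let : Inhabited PartrecToTM2.Λ' := ⟨PartrecToTM2.trNormal c .halt⟩
  let : Fintype PartrecToTM2.K' := ⟨{.main, .rev, .aux, .stack}, fun k => by cases k <;> simp⟩
  obtain ⟨I, M, hM⟩ := restrict _ _ (TM1to0.tr_supports _ (TM2to1.tr_supports _ (PartrecToTM2.tr_supports c .halt)))
  let u : PartrecToTM2.Γ' → PartrecToTM2.K' → Option PartrecToTM2.Γ' := fun a =>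
    Function.update (fun _ => none) .main (some a)
  refine ⟨TM2to1.Γ' PartrecToTM2.K' fun _ => PartrecToTM2.Γ', _, inferInstance, inferInstance, inferInstance, I, M,
    (true, u .cons), (false, u .bit1), (false, u .bit0), fun h => hc (h.of_eq fun n => ?_)⟩
  have h1 := TM2to1.tr_eval_dom PartrecToTM2.tr .main (PartrecToTM2.trList [2 ^ n])
  rw [← TM1to0.tr_eval] at h1
  have h2 : TM2.init .main (PartrecToTM2.trList [2 ^ n]) = PartrecToTM2.init c [2 ^ n] := by
    unfold TM2.init PartrecToTM2.init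
    congr 1
    funext k
    cases k <;> rfl
  rw [hM]
  refine Iff.trans (by
    simp only [TM2to1.trInit, PartrecToTM2.trList, trNat_pow, List.reverse_append, List.reverse_replicate,
      List.reverse_cons, List.reverse_nil, List.nil_append, List.cons_append, List.map_cons,
      List.map_replicate, List.headI_cons, List.tail_cons]
    rfl) (h1.trans ?_)
  change (eval _ _).Dom ↔ _
  rw [h2, PartrecToTM2.tr_eval]
  rfl

end Pool.Agent.H16.TMHalt
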