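import Pool.Agent.H16.TdsDefs
import Pool.Agent.H25.CBase

set_option autoImplicit false

namespace Pool.Agent.H16.Tds
open Finset Pool.Agent.H11.PT Pool.Agent.H25.CB

theorem take_ge (l : List ℕ) (hl : l.Pairwise (· ≥ ·)) (d k : ℕ) (h : k ≤ l.countP (d ≤ ·)) :
    k * d ≤ (l.take k).sum := by
  induction l generalizing k with
  | nil => simp at h; simp [h]
  | cons a l ih =>
    rcases k with _ | k
    · simp
    rw [List.pairwise_cons] at hl
    by_cases e : d ≤ a
    · have := ih hl.2 k (by simpa [e] using h)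
      simp only [List.take_succ_cons, List.sum_cons, Nat.succ_mul]
      omega
    · have : l.countP (d ≤ ·) = 0 := List.countP_eq_zero.2 fun x hx => by
        have := hl.1 x hx
        simp; omega
      simp [e, this] at h

open Classical in
theorem subT_eq {V : Type} [Fintype V] (G : SimpleGraph V) (n d D : ℕ) (S : Finset V)
    (h1 : n + 1 ≤ #S) (h2 : ∀ v ∈ S, d ≤ G.degree v) (h3 : ∀ v, G.degree v ≤ D)
    (h4 : Fintype.card V ≤ (n + 1) * d) (h5 : n * D < Fintype.card V) : subT G = n + 1 := by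
  have a : Fintype.card V ≤ ((degSeq G).take (n + 1)).sum := by
    refine h4.trans (take_ge _ (Multiset.pairwise_sort _ _) _ _ (h1.trans ?_))
    rw [← Multiset.coe_countP (p := (d ≤ ·)), Multiset.sort_eq, Multiset.countP_map]
    exact card_le_card (t := {v | d ≤ G.degree v}) fun v hv => by simpa using h2 v hv
  refine le_antisymm (Nat.sInf_le a) (le_csInf ⟨_, a⟩ fun k hk => ?_)
  by_contra e
  have b := List.sum_le_card_nsmul ((degSeq G).take k) D fun x hx => by
    obtain ⟨v, -, rfl⟩ := Multiset.mem_map.1 ((Multiset.mem_sort _).1 (List.mem_of_mem_take hx))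
    exact h3 v
  have c : ((degSeq G).take k).length * D ≤ n * D :=
    Nat.mul_le_mul_right _ ((List.length_take_le _ _).trans (by omega))
  simp only [Set.mem_ofPred_eq, smul_eq_mul] at hk b
  omega

def nn (φ : F3) : ℕ := nv φ + φ.length + 1
def DD (φ : F3) : ℕ := nn φ * (2 * nn φ + φ.length) + 1
def cd (l : Lit) : ℕ := 2 * l.1 + (bif l.2 then 1 else 0)

def A (φ : F3) (u v : ℕ) : Prop := u < 2 * nn φ ∧ (v < 2 * nn φ ∨
  (2 * nn φ ≤ v ∧ v < 2 * nn φ + φ.length ∧ (u = cd (lit φ (3 * (v - 2 * nn φ) + 0)) ∨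
    u = cd (lit φ (3 * (v - 2 * nn φ) + 1)) ∨ u = cd (lit φ (3 * (v - 2 * nn φ) + 2)))) ∨
  (2 * nn φ + φ.length + u / 2 * DD φ ≤ v ∧ v < 2 * nn φ + φ.length + u / 2 * DD φ + DD φ))

instance (φ : F3) (u v : ℕ) : Decidable (A φ u v) := by unfold A; infer_instance

def NN (φ : F3) : ℕ := 2 * nn φ + φ.length + nn φ * DD φ

def red (φ : F3) : ℕ × List (ℕ × ℕ) :=
  (NN φ, (List.range (NN φ) ×ˢ List.range (NN φ)).filter fun p => decide (A φ p.1 p.2))

theorem red_pt : PT red := by
  have h1 : PT nn := by unfold nn; fun_prop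
  have h2 : PT DD := by unfold DD; fun_prop
  have h3 : PT NN := by unfold NN; fun_prop
  unfold red A cd
  fun_prop

theorem adj_iff (φ : F3) (u v : Fin (NN φ)) :
    (gr (NN φ) (red φ).2).Adj u v ↔ u.val ≠ v.val ∧ (A φ u v ∨ A φ v u) := by
  simp [gr, red, Fin.ext_iff]

theorem blk {D i j v : ℕ} (h1 : i * D ≤ v) (h2 : v < j * D + D) : i ≤ j := by
  by_contra e
  have := Nat.mul_le_mul_right D (show j + 1 ≤ i by omega)
  rw [Nat.succ_mul] at this
  omega

theorem hard : HardFor InNP (fun y : ℕ × List (ℕ × ℕ) => ∀ v, ∃ u, (gr y.1 y.2).Adj v u)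
    fun y => gammaT (gr y.1 y.2) = subT (gr y.1 y.2) := by
  classical
  refine hard_SAT3.hardFor.red red red_pt fun φ _ => ?_
  show (∀ v, ∃ u, (gr (NN φ) (red φ).2).Adj v u) ∧
    (_ ↔ gammaT (gr (NN φ) (red φ).2) = subT (gr (NN φ) (red φ).2))
  have hA := adj_iff φ
  generalize gr (NN φ) (red φ).2 = G at *
  have hn : nv φ + φ.length + 1 = nn φ := rfl
  have hv : 0 < nv φ := Nat.succ_pos _
  have hD : DD φ = nn φ * (2 * nn φ + φ.length) + 1 := rfl
  have hN : NN φ = 2 * nn φ + φ.length + nn φ * DD φ := rfl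
  have hcd : ∀ o, cd (lit φ o) < 2 * nn φ ∧ cd (lit φ o) / 2 = (lit φ o).1 := fun o => by
    have := lit_lt φ o
    unfold cd
    cases (lit φ o).2 <;> simp <;> omega
  have hb : ∀ i < nn φ, i * DD φ + DD φ ≤ nn φ * DD φ := fun i hi => by
    have := Nat.mul_le_mul_right (DD φ) (show i + 1 ≤ nn φ from hi)
    rwa [Nat.succ_mul] at this
  have hdeg : ∀ v, G.degree v = #((G.neighborFinset v).map Fin.valEmbedding) := fun v => by simp
  have hs : subT G = nn φ := by
    obtain ⟨n, e⟩ : ∃ n, nn φ = n + 1 := ⟨_, hn.symm⟩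
    rw [e]
    refine subT_eq G n (2 * nn φ - 1 + DD φ) (2 * nn φ + φ.length + DD φ)
      {v | v.val < nn φ} ?_ ?_ ?_ ?_ ?_
    · rw [Fin.card_filter_val_lt]; omega
    · intro v hv
      have h1 : v.val < nn φ := by simpa using hv
      have h2 := hb (v / 2) (by omega)
      rw [hdeg]
      refine le_trans ?_ (card_le_card (s := (range (2 * nn φ)).erase v ∪
        Ico (2 * nn φ + φ.length + v / 2 * DD φ) (2 * nn φ + φ.length + v / 2 * DD φ + DD φ)) ?_)
      · rw [card_union_of_disjoint, card_erase_of_mem (mem_range.2 (by omega))]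
        · simp
        · exact disjoint_left.2 fun x h h' => by
            simp only [mem_erase, mem_range, mem_Ico] at h h'; omega
      · intro x hx
        simp only [mem_union, mem_erase, mem_range, mem_Ico] at hx
        refine mem_map.2 ⟨⟨x, by omega⟩, ?_, rfl⟩
        rw [SimpleGraph.mem_neighborFinset, hA]
        exact ⟨by simp only; omega, Or.inl ⟨by omega, by simp only; omega⟩⟩
    · intro v
      rw [hdeg]
      refine le_trans (card_le_card (t := range (2 * nn φ + φ.length) ∪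
        Ico (2 * nn φ + φ.length + v / 2 * DD φ) (2 * nn φ + φ.length + v / 2 * DD φ + DD φ)) ?_)
        ((card_union_le _ _).trans (by simp))
      intro x hx
      obtain ⟨x, hx', rfl⟩ := mem_map.1 hx
      rw [SimpleGraph.mem_neighborFinset, hA] at hx'
      simp only [mem_union, mem_range, mem_Ico, Fin.valEmbedding_apply, A] at hx' ⊢
      omega
    · rw [Fintype.card_fin, hN, e, show 2 * (n + 1) - 1 = 2 * n + 1 by omega]
      nlinarith
    · rw [Fintype.card_fin, hN, hD, e]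
      nlinarith
  have low : ∀ S : Finset (Fin (NN φ)), (∀ v, ∃ u ∈ S, G.Adj v u) →
      range (nn φ) ⊆ S.image fun u => u.val / 2 := fun S h i hi => by
    have h1 := hb i (mem_range.1 hi)
    obtain ⟨u, hu, h2⟩ := h ⟨2 * nn φ + φ.length + i * DD φ, by omega⟩
    refine mem_image.2 ⟨u, hu, ?_⟩
    simp only [hA, A] at h2
    have := @blk (DD φ) i (u / 2) (i * DD φ) le_rfl (by omega)
    have := @blk (DD φ) (u / 2) i (i * DD φ) (by omega) (by omega)
    omega
  have dom : ∀ (σ : ℕ → Bool) (v : Fin (NN φ)), (2 * nn φ ≤ v.val → v.val < 2 * nn φ + φ.length →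
      ∃ i < 3, σ (lit φ (3 * (v - 2 * nn φ) + i)).1 = (lit φ (3 * (v - 2 * nn φ) + i)).2) →
      ∃ u : Fin (NN φ), (u.val < 2 * nn φ ∧ u.val = cd (u.val / 2, σ (u.val / 2))) ∧ G.Adj v u := by
    intro σ v h
    have k : ∀ i < nn φ, cd (i, σ i) < 2 * nn φ ∧ cd (i, σ i) / 2 = i := fun i hi => by
      unfold cd
      cases σ i <;> simp <;> omega
    have k' : ∀ i < nn φ, cd (i, σ i) ≠ v.val → A φ (cd (i, σ i)) v → ∃ u : Fin (NN φ),
        (u.val < 2 * nn φ ∧ u.val = cd (u.val / 2, σ (u.val / 2))) ∧ G.Adj v u := fun i hi a b =>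
      ⟨⟨cd (i, σ i), by have := k i hi; omega⟩, ⟨(k i hi).1, by simp only [(k i hi).2]⟩,
        (hA _ _).2 ⟨a.symm, Or.inr b⟩⟩
    by_cases h1 : v.val < 2 * nn φ
    · by_cases h2 : v.val / 2 = 0
      · have := k 1 (by omega)
        exact k' 1 (by omega) (by omega) ⟨this.1, Or.inl h1⟩
      · have := k 0 (by omega)
        exact k' 0 (by omega) (by omega) ⟨this.1, Or.inl h1⟩
    by_cases h2 : v.val < 2 * nn φ + φ.length
    · obtain ⟨i, hi, e⟩ := h (by omega) h2
      have h3 := lit_lt φ (3 * (v - 2 * nn φ) + i)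
      have := k _ (show (lit φ (3 * (v - 2 * nn φ) + i)).1 < nn φ by omega)
      refine k' _ (by omega) (by omega) ⟨this.1, Or.inr (Or.inl ⟨by omega, h2, ?_⟩)⟩
      rw [e]
      obtain rfl | rfl | rfl : i = 0 ∨ i = 1 ∨ i = 2 := by omega
      all_goals simp
    · have h3 := Nat.div_add_mod' (v - (2 * nn φ + φ.length)) (DD φ)
      have h4 := Nat.mod_lt (v - (2 * nn φ + φ.length)) (show 0 < DD φ by omega)
      have h5 : (v - (2 * nn φ + φ.length)) / DD φ < nn φ :=
        Nat.div_lt_of_lt_mul (by have := v.2; rw [mul_comm (DD φ)]; omega)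
      have := k _ h5
      exact k' _ h5 (by omega) ⟨this.1, Or.inr (Or.inr (by rw [this.2]; omega))⟩
  refine ⟨fun v => ?_, ?_, ?_⟩
  · exact (dom (fun _ => (lit φ (3 * (v - 2 * nn φ) + 0)).2) v fun _ _ => ⟨0, by omega, rfl⟩).imp
      fun u h => h.2
  · rw [sat_iff, hs]
    rintro ⟨σ, h⟩
    let S : Finset (Fin (NN φ)) := {u | u.val < 2 * nn φ ∧ u.val = cd (u.val / 2, σ (u.val / 2))}
    have h1 : ∀ v, ∃ u ∈ S, G.Adj v u := fun v =>
      (dom σ v fun a b => h _ (by omega)).imp fun u h => ⟨by simpa [S] using h.1, h.2⟩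
    have h2 : #S ≤ #(range (nn φ)) := card_le_card_of_injOn (fun u => u.val / 2)
      (fun u hu => by simp [S] at hu ⊢; omega) fun u hu v hv e => by
        simp only [S, coe_filter, Set.mem_ofPred_eq] at hu hv e
        exact Fin.ext (by rw [hu.2.2, hv.2.2, e])
    refine le_antisymm ((Nat.sInf_le (m := #S) (by exact ⟨S, rfl, h1⟩)).trans (by simpa using h2))
      (le_csInf ⟨_, S, rfl, h1⟩ ?_)
    rintro _ ⟨T, rfl, hT⟩
    simpa using (card_le_card (low T hT)).trans card_image_le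
  · rw [sat_iff, hs]
    intro h
    obtain ⟨S, h1, h2⟩ : nn φ ∈ {k | ∃ S : Finset (Fin (NN φ)), S.card = k ∧ ∀ v, ∃ u ∈ S, G.Adj v u} :=
      h ▸ Nat.sInf_mem (Nat.nonempty_of_pos_sInf (show 0 < gammaT G by omega))
    have inj : Set.InjOn (fun u : Fin (NN φ) => u.val / 2) S := card_image_iff.1
      (le_antisymm card_image_le (by simpa [h1] using card_le_card (low S h2)))
    refine ⟨fun i => decide (∃ u ∈ S, u.val = 2 * i + 1), fun j hj => ?_⟩
    obtain ⟨u, hu, h3⟩ := h2 ⟨2 * nn φ + j, by omega⟩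
    simp only [hA, A, Nat.add_sub_cancel_left] at h3
    obtain ⟨i, hi, e⟩ : ∃ i < 3, u.val = cd (lit φ (3 * j + i)) := by
      obtain h | h | h : u.val = cd (lit φ (3 * j + 0)) ∨ u.val = cd (lit φ (3 * j + 1)) ∨
        u.val = cd (lit φ (3 * j + 2)) := by omega
      all_goals exact ⟨_, by omega, h⟩
    refine ⟨i, hi, ?_⟩
    unfold cd at e
    cases e' : (lit φ (3 * j + i)).2 <;> simp only [e', cond] at e
    · refine decide_eq_false fun ⟨w, hw, e2⟩ => ?_
      have := congrArg Fin.val (inj hu hw (by simp only; omega))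
      omega
    · exact decide_eq_true ⟨u, hu, e⟩

end Pool.Agent.H16.Tds
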