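import Pool.Agent.H11.GDefs

set_option autoImplicit false

namespace Pool.Agent.H16.Tds

variable {V : Type} [Fintype V]

/-- The total domination number. -/
noncomputable def gammaT (G : SimpleGraph V) : ℕ :=
  sInf {k | ∃ S : Finset V, S.card = k ∧ ∀ v, ∃ u ∈ S, G.Adj v u}

open Classical in
/-- The degree sequence in non-increasing order. -/
noncomputable def degSeq (G : SimpleGraph V) : List ℕ :=
  (Finset.univ.val.map fun v => G.degree v).sort (· ≥ ·)

/-- The sub-total domination number. -/
noncomputable def subT (G : SimpleGraph V) : ℕ :=
  sInf {k | Fintype.card V ≤ ((degSeq G).take k).sum}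

end Pool.Agent.H16.Tds
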