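import Pool.Agent.H16.TeamDefs

set_option autoImplicit false

namespace Pool.Agent.H16.Team
open Relation Filter

theorem pave {F : Set (Finset C)} (hF : Winner F) (N : C → C → Prop) (n1 : ∀ p q, N p q → N q p)
    (n2 : ∀ p, ¬ N p p) (n3 : ∀ p, ∃ u v, ∀ q, N p q → q = u ∨ q = v) :
    ∃ P ∈ F, ∃ M : Finset C, Anc P M ∧ ∀ p ∈ M, ∀ q ∈ M, ¬ N p q := by
  obtain ⟨σ, s1, s2⟩ := hF
  have r : ∀ (K : Finset C) (u v : C), ∃ b : C × C, b.1 ≠ b.2 ∧ b.1 ∉ K ∧ b.2 ∉ K ∧
      ∀ q, q = u ∨ q = v → q ∈ K ∨ q = b.1 ∨ q = b.2 := fun K u v => by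
    obtain ⟨y, hy⟩ := Infinite.exists_notMem_finset (insert u (insert v K))
    obtain ⟨z, hz⟩ := Infinite.exists_notMem_finset (insert y K)
    simp only [Finset.mem_insert, not_or] at hy hz
    by_cases h1 : u ∈ K <;> by_cases h2 : v ∈ K
    · exact ⟨(y, z), by grind⟩
    · exact ⟨(y, v), by grind⟩
    · exact ⟨(y, u), by grind⟩
    · by_cases h3 : u = v
      · exact ⟨(y, u), by grind⟩
      · exact ⟨(u, v), by grind⟩
  choose u v huv using n3
  choose r hr using r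
  let ρ := fun l => r (insert (σ l) (mk σ l) ∪ bk l) (u (σ l)) (v (σ l))
  let L : ℕ → List (C × C) := fun t => Nat.rec [] (fun _ l => ρ l :: l) t
  have e : ∀ t, hist (fun t => ρ (L t)) t = L t := fun t => by
    induction t with
    | zero => rfl
    | succ t ih => rw [hist, ih]
  have k : ∀ t, Legal σ (L t) ∧ ∀ p ∈ mk σ (L t), ∀ q, N p q → q ∈ bk (L t) ∧ q ∉ mk σ (L t) := by
    intro t
    induction t with
    | zero => simp [L, Legal, mk]
    | succ t ih =>
      obtain ⟨a1, a2, a3, a4⟩ := hr (insert (σ (L t)) (mk σ (L t)) ∪ bk (L t)) (u (σ (L t)))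
        (v (σ (L t)))
      refine ⟨⟨ih.1, a1, a2, a3⟩, ?_⟩
      have b := s1 _ ih.1
      have c := huv (σ (L t))
      show ∀ p ∈ insert (σ (L t)) (mk σ (L t)), ∀ q, N p q →
        q ∈ insert (ρ (L t)).1 (insert (ρ (L t)).2 (bk (L t))) ∧ q ∉ insert (σ (L t)) (mk σ (L t))
      simp only [Finset.mem_insert, Finset.mem_union, ρ] at *
      grind
  obtain ⟨t, P, h1, h2⟩ := s2 _ fun t => (e t).symm ▸ (k t).1
  exact ⟨P, h1, _, h2, fun p hp q hq h => ((k t).2 p (e t ▸ hp) q h).2 (e t ▸ hq)⟩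

theorem Iso.comp {g h : C → C} (hg : Iso g) (hh : Iso h) : Iso fun p => g (h p) := by
  obtain ⟨s, t, a, b, h1, h2, h3 | h3⟩ := hg <;> obtain ⟨s', t', a', b', h4, h5, h6 | h6⟩ := hh
  · exact ⟨s * s', t * t', s * a' + a, t * b' + b, by grind, by grind, .inl fun p => by grind⟩
  · exact ⟨s * s', t * t', s * a' + a, t * b' + b, by grind, by grind, .inr fun p => by grind⟩
  · exact ⟨s * t', t * s', s * b' + a, t * a' + b, by grind, by grind, .inr fun p => by grind⟩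
  · exact ⟨s * t', t * s', s * b' + a, t * a' + b, by grind, by grind, .inl fun p => by grind⟩

theorem Iso.adj {g : C → C} (hg : Iso g) {p q : C} (h : Adj p q) : Adj (g p) (g q) := by
  obtain ⟨s, t, a, b, rfl | rfl, rfl | rfl, h3 | h3⟩ := hg <;> simp only [Adj, h3] at * <;> omega

/-- a frame -/
def Fr (a b : C) : Prop := Adj a 0 ∧ Adj b 0 ∧ a ≠ b ∧ a ≠ -b

theorem Fr.iso {a b : C} (h : Fr a b) (o : C) : Iso fun p => o + p.1 • a + p.2 • b := by
  obtain ⟨x, y⟩ := a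
  obtain ⟨z, w⟩ := b
  simp only [Fr, Adj, Prod.ext_iff, ne_eq, Prod.fst_neg, Prod.snd_neg, Prod.fst_zero, Prod.snd_zero] at h
  by_cases e : y = 0
  · exact ⟨x, w, o.1, o.2, by omega, by omega, .inl fun p => by
      simp [e, show z = 0 by omega, Prod.ext_iff]; constructor <;> ring⟩
  · exact ⟨z, y, o.1, o.2, by omega, by omega, .inr fun p => by
      simp [show x = 0 by omega, show w = 0 by omega, Prod.ext_iff]; constructor <;> ring⟩

theorem inv {P : Finset C} (hP : Poly P) {α : Type} (φ : C → α)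
    (h : ∀ p ∈ P, ∀ q ∈ P, q = p + (1, 0) ∨ q = p + (0, 1) → φ q = φ p) :
    ∀ p ∈ P, ∀ q ∈ P, φ q = φ p := fun p hp q hq => by
  suffices ∀ q, ReflTransGen (fun x y => Adj x y ∧ y ∈ P) p q → q ∈ P ∧ φ q = φ p from
    (this q (hP.2 p hp q hq)).2
  intro q h'
  induction h' with
  | refl => exact ⟨hp, rfl⟩
  | @tail x y _ a ih =>
    refine ⟨a.2, Eq.trans ?_ ih.2⟩
    have : (y = x + (1, 0) ∨ y = x + (0, 1)) ∨ (x = y + (1, 0) ∨ x = y + (0, 1)) := by
      have := a.1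
      simp only [Adj, Prod.ext_iff, Prod.fst_add, Prod.snd_add] at *
      omega
    exact this.elim (h x ih.1 y a.2) fun e => (h y a.2 x ih.1 e).symm

theorem pave' {F : Set (Finset C)} (hF : Winner F) (hP : ∀ P ∈ F, Poly P) (H V : C → Prop)
    (n3 : ∀ p : C, ¬ (H p ∧ V p ∧ H (p - (1, 0))) ∧ ¬ (H p ∧ V p ∧ V (p - (0, 1))) ∧
      ¬ (H p ∧ H (p - (1, 0)) ∧ V (p - (0, 1))) ∧ ¬ (V p ∧ H (p - (1, 0)) ∧ V (p - (0, 1)))) :
    ∃ P ∈ F, ∃ M : Finset C, Poly M ∧ (∀ E, Anc M E → Anc P E) ∧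
      ∀ p ∈ M, (p + (1, 0) ∈ M → ¬ H p) ∧ (p + (0, 1) ∈ M → ¬ V p) := by
  obtain ⟨P, h1, M, ⟨g, g1, g2⟩, h2⟩ := pave hF (fun p q => (q = p + (1, 0) ∧ H p) ∨
      (p = q + (1, 0) ∧ H q) ∨ (q = p + (0, 1) ∧ V p) ∨ (p = q + (0, 1) ∧ V q)) (by grind)
    (by simp [Prod.ext_iff]) fun p => by
      have := n3 p
      simp only [← sub_eq_iff_eq_add, eq_comm (a := p - _)]
      simp only [sub_eq_iff_eq_add]
      by_cases a : H p <;> by_cases b : V p <;> by_cases c : H (p - (1, 0))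
      all_goals first
        | (refine ⟨p + (1, 0), p + (0, 1), ?_⟩; grind)
        | (refine ⟨p + (1, 0), p - (1, 0), ?_⟩; grind)
        | (refine ⟨p + (1, 0), p - (0, 1), ?_⟩; grind)
        | (refine ⟨p + (0, 1), p - (1, 0), ?_⟩; grind)
        | (refine ⟨p + (0, 1), p - (0, 1), ?_⟩; grind)
        | (refine ⟨p - (1, 0), p - (0, 1), ?_⟩; grind)
  refine ⟨P, h1, P.image g, ⟨(hP P h1).1.image _, ?_⟩, fun E ⟨h, a, b⟩ =>
    ⟨_, a.comp g1, fun p hp => b _ (Finset.mem_image_of_mem _ hp)⟩, fun p hp => ?_⟩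
  · simp only [Finset.forall_mem_image]
    exact fun p hp q hq => ((hP P h1).2 p hp q hq).lift g fun x y h =>
      ⟨g1.adj h.1, Finset.mem_image_of_mem _ h.2⟩
  · have k : ∀ p ∈ P.image g, p ∈ M := Finset.forall_mem_image.2 g2
    exact ⟨fun a b => h2 p (k p hp) _ (k _ a) (.inl ⟨rfl, b⟩),
      fun a b => h2 p (k p hp) _ (k _ a) (.inr (.inr (.inl ⟨rfl, b⟩)))⟩

/-- `E` contains a U with base of `k` cells -/
def HasU (k : ℕ) (E : Finset C) : Prop := ∃ a b o, Fr a b ∧ o + b ∈ E ∧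
  o + ((k : ℤ) - 1) • a + b ∈ E ∧ ∀ i : ℤ, 0 ≤ i → i < k → o + i • a ∈ E

/-- `E` contains a monotone path following `w` on `[-R, R]` -/
def HasM (R : ℕ) (w : ℤ → Bool) (E : Finset C) : Prop := ∃ (a b : C) (f : ℤ → C), Fr a b ∧
  (∀ t : ℤ, -R ≤ t → t < R → f (t + 1) = f t + bif w t then a else b) ∧
    ∀ t : ℤ, -R ≤ t → t ≤ R → f t ∈ E

theorem winM {F : Set (Finset C)} (hF : Winner F) (hP : ∀ P ∈ F, Poly P) (w : ℤ → Bool) :
    ∃ P ∈ F, ∃ R, ∀ E, HasM R w E → Anc P E := by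
  obtain ⟨P, h1, M, m1, m2, m3⟩ := pave' hF hP (fun p => w (p.1 + p.2) = false)
    (fun p => w (p.1 + p.2) = true) fun p => by
      simp only [Prod.fst_sub, Prod.snd_sub, show p.1 - 1 + (p.2 - 0) = p.1 - 0 + (p.2 - 1) by ring]
      grind
  obtain ⟨R, hR⟩ := (M.image fun p => (p.1 + p.2).natAbs).finite_toSet.bddAbove
  have hR : ∀ p ∈ M, (p.1 + p.2).natAbs ≤ R := fun p hp =>
    hR (Finset.mem_coe.2 (Finset.mem_image_of_mem _ hp))
  refine ⟨P, h1, R, fun E ⟨a, b, f, f1, f2, f3⟩ => m2 E ?_⟩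
  obtain ⟨o, ho⟩ := m1.1
  have := inv m1 (fun p => f (p.1 + p.2) - p.1 • a - p.2 • b) (fun p hp q hq e => by
    have a1 := hR p hp
    have a2 := hR q hq
    rcases e with rfl | rfl
    · simp only [Prod.fst_add, Prod.snd_add, add_zero] at *
      rw [add_right_comm, f2 _ (by omega) (by omega), eq_true_of_ne_false ((m3 p hp).1 hq), add_smul]
      simp
    · simp only [Prod.fst_add, Prod.snd_add, add_zero] at *
      rw [← add_assoc, f2 _ (by omega) (by omega), eq_false_of_ne_true ((m3 p hp).2 hq), add_smul]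
      simp only [cond_false, one_smul]
      abel) o ho
  refine ⟨_, f1.iso (f (o.1 + o.2) - o.1 • a - o.2 • b), fun p hp => ?_⟩
  have a1 := hR p hp
  convert f3 (p.1 + p.2) (by omega) (by omega) using 1
  rw [← this p hp]
  abel

theorem winU {F : Set (Finset C)} (hF : Winner F) (hP : ∀ P ∈ F, Poly P) (k : ℕ) (hk : 2 ≤ k) :
    ∃ P ∈ F, ∀ E, HasU k E → Anc P E := by
  have md : ∀ x : ℤ, 0 ≤ x % k ∧ x % k < k ∧ (x % k + 1 < k → (x + 1) % k = x % k + 1) ∧
      (x % k + 1 = k → (x + 1) % k = 0) := fun x => by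
    have a := Int.emod_nonneg x (show (k : ℤ) ≠ 0 by omega)
    refine ⟨a, Int.emod_lt_of_pos _ (by omega), fun h => ?_, fun h => ?_⟩
    · rw [← Int.emod_add_emod, Int.emod_eq_of_lt (by omega) h]
    · rw [← Int.emod_add_emod, h, Int.emod_self]
  obtain ⟨m, hm⟩ : ∃ m : ℤ → ℤ, ∀ x, m x = x % k := ⟨_, fun _ => rfl⟩
  simp only [← hm] at md
  clear hm
  obtain ⟨P, h1, M, m1, m2, m3⟩ := pave' hF hP (fun p => m p.1 + 1 = k)
    (fun p => p.2 % 2 = 1 ∨ (m p.1 ≠ 0 ∧ m p.1 + 1 ≠ k)) fun p => by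
      have := md (p.1 - 1)
      simp only [Prod.fst_sub, Prod.snd_sub, sub_add_cancel, sub_zero] at *
      omega
  refine ⟨P, h1, fun E ⟨a, b, o, f1, f2, f3, f4⟩ => m2 E ?_⟩
  obtain ⟨z, hz⟩ := m1.1
  have i1 := inv m1 (fun p => (p.1 - m p.1, p.2 / 2)) (fun p hp q hq e => by
    have a2 := md p.1
    rcases e with rfl | rfl
    · have := (m3 p hp).1 hq
      exact Prod.ext (show p.1 + 1 - m (p.1 + 1) = p.1 - m p.1 by omega) (by simp)
    · have := (m3 p hp).2 hq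
      exact Prod.ext (by simp) (show (p.2 + 1) / 2 = p.2 / 2 by omega)) z hz
  simp only [Prod.ext_iff] at i1
  generalize z.1 - m z.1 = x at i1
  generalize z.2 / 2 = y at i1
  have i2 := inv m1 (fun p => if m p.1 = 0 then decide (k = 2 ∨ (x + 1, 2 * y) ∈ M) else
      if m p.1 + 1 = k then decide (k = 2 ∨ (x + k - 2, 2 * y) ∈ M) else decide (p.2 = 2 * y)) (fun p hp q hq e => by
    have a1 := m3 p hp
    have a2 := md p.1
    have a3 := i1 p hp
    have a4 := i1 q hq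
    obtain ⟨c, d⟩ := p
    have kk : ∀ c d, (c, d) ∈ M → m c ≠ 0 → m c + 1 ≠ k → ((c, 2 * y) ∈ M ↔ d = 2 * y) := by
      intro c d h h1 h2
      refine ⟨fun h' => ?_, fun e => e ▸ h⟩
      by_contra e
      have := (i1 _ h).2
      obtain rfl : d = 2 * y + 1 := by simp only at this; omega
      exact (m3 _ h').2 (by simpa using h) (.inr ⟨h1, h2⟩)
    rcases e with rfl | rfl
    · have a5 := a1.1 hq
      simp only [Prod.mk_add_mk, add_zero] at hq a2 a3 a4 a5 ⊢
      have k1 := kk c d hp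
      have k2 := kk (c + 1) d hq
      split_ifs
      any_goals omega
      · simp [show k = 2 by omega]
      · rw [show x + k - 2 = c by omega, decide_eq_decide, k1 (by omega) a5]
        omega
      · rw [show x + 1 = c + 1 by omega, decide_eq_decide, k2 (by omega) (by omega)]
        omega
      · rfl
    · have a5 := a1.2 hq
      simp only [Prod.mk_add_mk, add_zero] at hq a2 a3 a4 a5 ⊢
      split_ifs
      any_goals rfl
      omega) z hz
  generalize (if m z.1 = 0 then _ else _) = s at i2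
  have kk : ∀ p ∈ M, ∀ e : ℤ, e = 0 ∨ e = 1 → (m p.1 ≠ 0 → m p.1 + 1 ≠ k → e = 0) →
      o + (p.1 - x) • a + e • b ∈ E := fun p hp e h1 h2 => by
    have a1 := (i1 p hp).1
    have a2 := md p.1
    rcases h1 with rfl | rfl
    · simpa using f4 (p.1 - x) (by omega) (by omega)
    · by_cases h : m p.1 = 0
      · simpa [show p.1 - x = 0 by omega] using f2
      · simpa [show p.1 - x = k - 1 by omega] using f3
  cases s
  · refine ⟨_, (show Fr a (-b) from ⟨f1.1, by simpa [Adj] using f1.2.1, f1.2.2.2, by simpa using f1.2.2.1⟩).iso (o - x • a + (2 * y + 1) • b),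
      fun p hp => ?_⟩
    have := i1 p hp
    have := i2 p hp
    convert kk p hp (2 * y + 1 - p.2) (by omega) (fun h1 h2 => by simp [h1, h2] at this; omega) using 1
    module
  · refine ⟨_, f1.iso (o - x • a - (2 * y) • b), fun p hp => ?_⟩
    have := i1 p hp
    have := i2 p hp
    convert kk p hp (p.2 - 2 * y) (by omega) (fun h1 h2 => by simp [h1, h2] at this; omega) using 1
    module

end Pool.Agent.H16.Team
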