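import Pool.Agent.H16.Team

set_option autoImplicit false

namespace Pool.Agent.H16.Team
open Relation Filter

theorem unit {a : C} (h : Adj a 0) : a = (1, 0) ∨ a = (-1, 0) ∨ a = (0, 1) ∨ a = (0, -1) := by
  simp only [Adj, Prod.ext_iff, Prod.fst_zero, Prod.snd_zero] at h ⊢
  omega

theorem dirs {a b c : C} (ha : Adj a 0) (hb : Adj b 0) (hc : Adj c 0) :
    a ≠ -c → c ≠ a → a ≠ -b → b ≠ a → b ≠ -c → c = b ∧ Fr b (-a) := by
  rcases unit ha with rfl | rfl | rfl | rfl <;> rcases unit hb with rfl | rfl | rfl | rfl <;>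
    rcases unit hc with rfl | rfl | rfl | rfl <;> unfold Fr Adj <;> decide

theorem walk {E : Finset C} {p q : C} (h : ReflTransGen (fun x y => Adj x y ∧ y ∈ E) p q) (hp : p ∈ E) :
    ∃ n, ∃ f : ℕ → C, f 0 = p ∧ f n = q ∧ (∀ i < n, Adj (f i) (f (i + 1))) ∧ ∀ i ≤ n, f i ∈ E := by
  induction h with
  | refl => exact ⟨0, fun _ => p, rfl, rfl, by simp, by simpa⟩
  | @tail x y _ a ih =>
    obtain ⟨n, f, f1, f2, f3, f4⟩ := ih
    refine ⟨n + 1, fun i => if i ≤ n then f i else y, by simp [f1], by simp, fun i hi => ?_, fun i hi => ?_⟩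
    · by_cases e : i < n
      · simp [e.le, show i + 1 ≤ n from e, f3 i e]
      · obtain rfl : i = n := by omega
        simp [f2, a.1]
    · beta_reduce
      split_ifs with e
      exacts [f4 i e, a.2]

theorem geo {E : Finset C} (hE : Poly E) (R : ℕ) {p q : C} (hp : p ∈ E) (hq : q ∈ E)
    (h : 2 * R ≤ (p.1 - q.1).natAbs + (p.2 - q.2).natAbs) :
    (∃ k ∈ Finset.Icc 2 (2 * R), HasU k E) ∨ ∃ w, HasM R w E := by
  classical
  have ex := walk (hE.2 p hp q hq) hp
  obtain ⟨f, f1, f2, f3, f4⟩ := Nat.find_spec ex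
  have mn := fun m => @Nat.find_min' _ _ ex m
  generalize Nat.find ex = n at *
  have l1 : ∀ i ≤ n, (p.1 - (f i).1).natAbs + (p.2 - (f i).2).natAbs ≤ i := fun i hi => by
    induction i with
    | zero => simp [f1]
    | succ i ih =>
      have := ih (by omega)
      have := f3 i hi
      unfold Adj at this
      omega
  have l2 : 2 * R ≤ n := h.trans (f2 ▸ l1 n le_rfl)
  obtain ⟨d, hd⟩ : ∃ d : ℕ → C, ∀ i, f (i + 1) = f i + d i := ⟨fun i => f (i + 1) - f i, by simp⟩
  have d1 : ∀ i < n, Adj (d i) 0 := fun i hi => by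
    have := f3 i hi
    simp only [hd, Adj, Prod.fst_add, Prod.snd_add, Prod.fst_zero, Prod.snd_zero] at this ⊢
    omega
  have d2 : ∀ i, i + 1 < n → d i ≠ -d (i + 1) := fun i hi e => by
    have e' : f (i + 2) = f i := by rw [hd, hd, e]; simp
    have := mn (n - 2) ⟨fun j => if j ≤ i then f j else f (j + 2), by simp [f1], ?_, fun j hj => ?_,
      fun j hj => ?_⟩
    · omega
    · beta_reduce
      split_ifs with c
      · rw [show n - 2 = i by omega, ← e', show i + 2 = n by omega, f2]
      · rw [show n - 2 + 2 = n by omega, f2]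
    · beta_reduce
      rcases lt_trichotomy j i with c | rfl | c
      · rw [if_pos c.le, if_pos (show j + 1 ≤ i from c)]
        exact f3 j (by omega)
      · rw [if_pos le_rfl, if_neg (by omega), ← e']
        exact f3 (j + 2) (by omega)
      · rw [if_neg (by omega), if_neg (by omega)]
        exact f3 (j + 2) (by omega)
    · beta_reduce
      split_ifs
      exacts [f4 j (by omega), f4 _ (by omega)]
  by_cases c : ∃ k, ∃ i, i + k < 2 * R ∧ d i = -d (i + k)
  · left
    obtain ⟨i, c1, c2⟩ := Nat.find_spec c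
    have mk := fun m => @Nat.find_min _ _ c m
    generalize Nat.find c = k at *
    have k0 : k ≠ 0 := fun e => by
      rw [e, add_zero] at c2
      rcases unit (d1 i (by omega)) with g | g | g | g <;> simp [g] at c2
    have k1 : k ≠ 1 := fun e => d2 i (by omega) (e ▸ c2)
    have n1 : ∀ s t, i ≤ s → s ≤ t → t ≤ i + k → t - s < k → d s ≠ -d t := fun s t a b c' e g =>
      mk _ e ⟨s, by omega, by rwa [show s + (t - s) = t by omega]⟩
    have n2 : ∀ j, 0 < j → j < k → d (i + j) = d (i + 1) ∧ Fr (d (i + 1)) (-d i) := fun j a b => by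
      exact dirs (d1 i (by omega)) (d1 _ (by omega)) (d1 _ (by omega))
        (n1 i (i + j) le_rfl (by omega) (by omega) (by omega))
        (c2 ▸ n1 (i + j) (i + k) (by omega) (by omega) le_rfl (by omega))
        (n1 i (i + 1) le_rfl (by omega) (by omega) (by omega))
        (c2 ▸ n1 (i + 1) (i + k) (by omega) (by omega) le_rfl (by omega))
        (n1 (i + 1) (i + j) (by omega) (by omega) (by omega) (by omega))
    have n3 : ∀ j < k, f (i + 1 + j) = f (i + 1) + (j : ℤ) • d (i + 1) := fun j hj => by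
      induction j with
      | zero => simp
      | succ j ih =>
        rw [← add_assoc, hd, ih (by omega), show i + 1 + j = i + (j + 1) by omega,
          (n2 _ (by omega) hj).1]
        push_cast
        module
    refine ⟨k, Finset.mem_Icc.2 ⟨by omega, by omega⟩, _, _, f (i + 1), (n2 1 (by omega) (by omega)).2,
      by simpa [hd] using f4 i (by omega), ?_, fun j a b => ?_⟩
    · have := f4 (i + 1 + (k - 1) + 1) (by omega)
      rwa [hd, n3 _ (by omega), show i + 1 + (k - 1) = i + k by omega, ← neg_neg (d (i + k)), ← c2,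
        Nat.cast_sub (by omega)] at this
    · lift j to ℕ using a
      exact n3 j (by omega) ▸ f4 _ (by omega)
  · right
    obtain ⟨a, b, ab, e⟩ : ∃ a b, Fr a b ∧ ∀ i < 2 * R, d i = a ∨ d i = b := by
      have n1 : ∀ s < 2 * R, ∀ t < 2 * R, d s ≠ -d t := fun s a t b g => c (by
        rcases le_total s t with e | e
        · exact ⟨t - s, s, by omega, by rwa [show s + (t - s) = t by omega]⟩
        · exact ⟨s - t, t, by omega, by rw [show t + (s - t) = s by omega, g, neg_neg]⟩)
      refine ⟨(if ∃ i < 2 * R, d i = (1, 0) then 1 else -1, 0),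
        (0, if ∃ i < 2 * R, d i = (0, 1) then 1 else -1), by split_ifs <;> simp [Fr, Adj],
        fun i hi => ?_⟩
      have g := unit (d1 i (by omega))
      rcases g with g | g | g | g
      · exact .inl (by rw [if_pos ⟨i, hi, g⟩, g])
      · exact .inl (by rw [if_neg fun ⟨j, hj, e⟩ => n1 i hi j hj (by simp [g, e]), g])
      · exact .inr (by rw [if_pos ⟨i, hi, g⟩, g])
      · exact .inr (by rw [if_neg fun ⟨j, hj, e⟩ => n1 i hi j hj (by simp [g, e]), g])
    refine ⟨fun t => decide (d (t + R).toNat = a), a, b, fun t => f (t + R).toNat, ab,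
      fun t h1 h2 => ?_, fun t h1 h2 => f4 _ (by omega)⟩
    simp only [show (t + 1 + R).toNat = (t + R).toNat + 1 by omega, hd]
    by_cases g : d (t + R).toNat = a
    · simp [g]
    · rw [decide_eq_false g, (e _ (by omega)).resolve_left g]
      rfl

theorem main (F : Set (Finset C)) (h1 : F.Infinite) (h2 : ∀ P ∈ F, Poly P)
    (h3 : ∀ P ∈ F, ∀ Q ∈ F, Anc P Q → P = Q) : ¬ Winner F := fun hW => by
  obtain ⟨U, u1, u2⟩ : ∃ U : Ultrafilter (Finset C), F ∈ U ∧ ∀ S : Set (Finset C), S.Finite → Sᶜ ∈ U := by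
    haveI : (cofinite ⊓ 𝓟 F).NeBot := Filter.cofinite_inf_principal_neBot_iff.2 h1
    have := Ultrafilter.of_le (cofinite ⊓ 𝓟 F)
    exact ⟨_, this (mem_inf_of_right (mem_principal_self F)),
      fun S hS => this (mem_inf_of_left hS.compl_mem_cofinite)⟩
  have fin : ∀ P ∈ F, ¬ ∀ᶠ E in U, Anc P E := fun P hP h => by
    obtain ⟨E, a, b, c⟩ := (h.and (Eventually.and (p := (· ∈ F)) u1 (u2 _ (Set.finite_singleton P)))).exists
    exact c (h3 P hP E b a).symm
  have big : ∀ R, ∀ᶠ E in U, ∃ w, HasM R w E := fun R => by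
    have s : {E ∈ F | ∀ p ∈ E, ∀ q ∈ E, (p.1 - q.1).natAbs + (p.2 - q.2).natAbs < 2 * R}.Finite := by
      choose! o ho using fun P hP => (h2 P hP).1
      refine Set.Finite.of_finite_image (f := fun E => E.image (· - o E))
        ((Finset.Icc (-(2 * R : ℤ), -(2 * R : ℤ)) (2 * R, 2 * R)).powerset.finite_toSet.subset ?_) ?_
      · rintro _ ⟨E, hE, rfl⟩
        simp only [Finset.coe_powerset, Set.mem_preimage, Set.mem_powerset_iff, Finset.coe_image]
        rintro _ ⟨p, hp, rfl⟩
        have := hE.2 p hp _ (ho E hE.1)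
        simp only [Finset.coe_Icc, Set.mem_Icc, Prod.le_def, Prod.fst_sub, Prod.snd_sub]
        omega
      · intro P hP Q hQ e
        refine h3 P hP.1 Q hQ.1 ⟨fun p => p - o P + o Q, ⟨1, 1, (o Q - o P).1, (o Q - o P).2, .inl rfl,
          .inl rfl, .inl fun p => by ext <;> simp <;> ring⟩, fun p hp => ?_⟩
        obtain ⟨q, hq, e'⟩ := Finset.mem_image.1 (e.le (Finset.mem_image_of_mem _ hp))
        simpa [← e'] using hq
    have : ∀ᶠ E in U, (∃ k ∈ Finset.Icc 2 (2 * R), HasU k E) ∨ ∃ w, HasM R w E := by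
      filter_upwards [u1, u2 _ s] with E a b
      simp only [Set.mem_compl_iff, Set.mem_setOf_eq, a, true_and, not_forall, not_lt] at b
      obtain ⟨p, hp, q, hq, b⟩ := b
      exact geo (h2 E a) R hp hq b
    refine (Ultrafilter.eventually_or.1 this).resolve_left fun h => ?_
    obtain ⟨k, a, b⟩ := (Ultrafilter.eventually_exists_mem_iff (Finset.Icc 2 (2 * R)).finite_toSet).1 h
    obtain ⟨P, c, d⟩ := winU hW h2 k (Finset.mem_Icc.1 a).1
    exact fin P c (b.mono d)
  have loc : ∀ (R S : ℕ) w w' E, R ≤ S → (∀ t : ℤ, -R ≤ t → t < R → w t = w' t) → HasM S w E →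
      HasM R w' E := fun R S w w' E a b ⟨x, y, f, f1, f2, f3⟩ =>
    ⟨x, y, f, f1, fun t c d => b t c d ▸ f2 t (by omega) (by omega),
      fun t c d => f3 t (by omega) (by omega)⟩
  have big2 : ∀ R, ∃ w, ∀ᶠ E in U, HasM R w E := fun R => by
    have : ∀ᶠ E in U, ∃ T ∈ ((Finset.Icc (-R : ℤ) R).powerset : Set _),
        HasM R (fun t => decide (t ∈ T)) E := (big R).mono fun E ⟨w, h⟩ =>
      ⟨(Finset.Icc (-R : ℤ) R).filter (w · = true),
        Finset.mem_coe.2 (Finset.mem_powerset.2 (Finset.filter_subset _ _)), loc R R w _ E le_rfl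
        (fun t a b => by simp [a, b.le]) h⟩
    obtain ⟨T, -, h⟩ := (Ultrafilter.eventually_exists_mem_iff (Finset.finite_toSet _)).1 this
    exact ⟨_, h⟩
  choose W hW' using big2
  have lim : ∀ t, ∃ b, ∀ᶠ R in hyperfilter ℕ, W R t = b := fun t =>
    Ultrafilter.eventually_exists_iff.1 (Eventually.of_forall fun R => ⟨_, rfl⟩)
  choose w hw using lim
  obtain ⟨P, a, R, b⟩ := winM hW h2 w
  obtain ⟨S, c, d⟩ := (((Finset.Icc (-R : ℤ) R).eventually_all.2 fun t _ => hw t).and
    (Nat.hyperfilter_le_atTop (eventually_ge_atTop R))).exists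
  exact fin P a ((hW' S).mono fun E h => b E (loc R S _ _ E d
    (fun t x y => c t (Finset.mem_Icc.2 ⟨x, y.le⟩)) h))

end Pool.Agent.H16.Team
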