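import Mathlib

set_option autoImplicit false

namespace Pool.Agent.H16.Team

/-- cells of the board -/
abbrev C := ℤ × ℤ

/-- two cells share an edge -/
def Adj (p q : C) : Prop := (p.1 - q.1).natAbs + (p.2 - q.2).natAbs = 1

/-- a finite polyomino -/
def Poly (P : Finset C) : Prop :=
  P.Nonempty ∧ ∀ p ∈ P, ∀ q ∈ P, Relation.ReflTransGen (fun x y => Adj x y ∧ y ∈ P) p q

/-- congruences of the board: translations, rotations, reflections -/
def Iso (g : C → C) : Prop :=
  ∃ s t a b : ℤ, (s = 1 ∨ s = -1) ∧ (t = 1 ∨ t = -1) ∧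
    ((∀ p, g p = (s * p.1 + a, t * p.2 + b)) ∨ ∀ p, g p = (s * p.2 + a, t * p.1 + b))

/-- `Q` contains a congruent copy of `P` -/
def Anc (P Q : Finset C) : Prop := ∃ g, Iso g ∧ ∀ p ∈ P, g p ∈ Q

/-- cells of the maker, who plays `σ`, after the breaker's turns `l` (latest first) -/
def mk (σ : List (C × C) → C) : List (C × C) → Finset C
  | [] => ∅
  | _ :: l => insert (σ l) (mk σ l)

/-- cells of the breaker -/
def bk : List (C × C) → Finset C
  | [] => ∅
  | b :: l => insert b.1 (insert b.2 (bk l))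

/-- each turn of the breaker marks two different unmarked cells -/
def Legal (σ : List (C × C) → C) : List (C × C) → Prop
  | [] => True
  | b :: l => Legal σ l ∧ b.1 ≠ b.2 ∧ b.1 ∉ mk σ (b :: l) ∪ bk l ∧ b.2 ∉ mk σ (b :: l) ∪ bk l

/-- the first `t` turns of the breaker -/
def hist (β : ℕ → C × C) : ℕ → List (C × C)
  | 0 => []
  | t + 1 => β t :: hist β t

/-- the maker has a winning strategy in the weak `(1,2)` game for `F` -/
def Winner (F : Set (Finset C)) : Prop :=
  ∃ σ : List (C × C) → C, (∀ l, Legal σ l → σ l ∉ mk σ l ∪ bk l) ∧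
    ∀ β, (∀ t, Legal σ (hist β t)) → ∃ t, ∃ P ∈ F, Anc P (mk σ (hist β t))

end Pool.Agent.H16.Team
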