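import Pool.Agent.H16.TradeDefs

set_option autoImplicit false

namespace Pool.Agent.H16.Trade
open Matrix Finset

theorem main {n : ℕ} (H : Matrix (Fin n) (Fin n) ℂ) (T : Finset (Fin n × Fin n)) (hH : CH H)
    (hT : IsTrade H T) : n ≤ #T := by
  obtain ⟨H', h1, h2, h3⟩ := hT
  have hn : (n : ℂ) ≠ 0 := by
    rintro e
    obtain rfl : n = 0 := by exact_mod_cast e
    exact h2 (Subsingleton.elim _ _)
  have hc : Hᴴ * H = (n : ℂ) • (1 : Matrix (Fin n) (Fin n) ℂ) := by
    have : H * ((n : ℂ)⁻¹ • Hᴴ) = 1 := by rw [Matrix.mul_smul, hH.2, smul_smul, inv_mul_cancel₀ hn, one_smul]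
    have := mul_eq_one_comm.1 this
    rw [Matrix.smul_mul] at this
    rw [← this, smul_smul, mul_inv_cancel₀ hn, one_smul]
  let A := T.image Prod.fst
  have hA : ∀ k ∉ A, H' k = H k := fun k hk => funext fun j =>
    (h3 k j).2 fun h => hk (mem_image_of_mem _ h)
  let C := (H' - H) * Hᴴ
  have c0 : ∀ i, ∀ k ∉ A, C i k = 0 := fun i k hk => by
    have a := congrFun (congrFun h1.2 i) k
    have b := congrFun (congrFun hH.2 i) k
    simp only [C, Matrix.sub_mul, Matrix.sub_apply, b, ← a]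
    simp [Matrix.mul_apply, hA k hk]
  have c1 : C * H = (n : ℂ) • (H' - H) := by
    rw [Matrix.mul_assoc, hc, Matrix.mul_smul, Matrix.mul_one]
  have key : ∀ i ∈ A, n ≤ #A * #{p ∈ T | p.1 = i} := fun i hi => by
    obtain ⟨j0, h0⟩ : ∃ j0, (i, j0) ∈ T := by simpa [A] using hi
    obtain ⟨j, -, hj⟩ := exists_max_image univ (fun j => ‖(H' - H) i j‖) ⟨j0, mem_univ _⟩
    have p0 : 0 < ‖(H' - H) i j‖ :=
      (norm_pos_iff.2 (sub_ne_zero.2 ((h3 i j0).1 h0))).trans_le (hj j0 (mem_univ _))
    have b1 : ∀ k, ‖C i k‖ ≤ #{p ∈ T | p.1 = i} * ‖(H' - H) i j‖ := fun k => by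
      rw [show C i k = _ from Matrix.mul_apply, ← sum_subset (subset_univ {l | (i, l) ∈ T}) fun l _ hl => by
        simp [(h3 i l).2 (by simpa using hl)]]
      refine (norm_sum_le _ _).trans ((sum_le_card_nsmul _ _ ‖(H' - H) i j‖ fun l _ => ?_).trans ?_)
      · simpa [hH.1] using hj l (mem_univ _)
      · rw [nsmul_eq_mul]
        gcongr
        exact card_le_card_of_injOn (fun l => (i, l)) (fun l hl => by simpa using hl)
          fun a _ b _ e => (Prod.ext_iff.1 e).2
    have b2 : n * ‖(H' - H) i j‖ ≤ #A * (#{p ∈ T | p.1 = i} * ‖(H' - H) i j‖) := by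
      have := congrArg (fun M => ‖M i j‖) c1
      simp only [Matrix.smul_apply, norm_smul, Complex.norm_natCast] at this
      rw [← this, Matrix.mul_apply, ← sum_subset (subset_univ A) fun k _ hk => by simp [c0 i k hk]]
      refine (norm_sum_le _ _).trans ((sum_le_card_nsmul _ _ _ fun k _ => ?_).trans_eq
        (nsmul_eq_mul _ _))
      simpa [hH.1] using b1 k
    rw [← mul_assoc] at b2
    exact_mod_cast le_of_mul_le_mul_right b2 p0
  have hp : 0 < #A := by
    by_contra e
    have : A = ∅ := card_eq_zero.1 (by omega)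
    exact h2 (funext fun k => hA k (by simp [this]))
  have := card_nsmul_le_sum A _ n key
  rw [← mul_sum, ← card_eq_sum_card_image, smul_eq_mul] at this
  exact le_of_mul_le_mul_left this hp

end Pool.Agent.H16.Trade
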