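import Mathlib

set_option autoImplicit false

namespace Pool.Agent.H16.Trade
open Matrix

/-- complex Hadamard matrix of order `n` -/
def CH {n : ℕ} (H : Matrix (Fin n) (Fin n) ℂ) : Prop :=
  (∀ i j, ‖H i j‖ = 1) ∧ H * Hᴴ = (n : ℂ) • (1 : Matrix (Fin n) (Fin n) ℂ)

/-- `T` is a trade in `H` -/
def IsTrade {n : ℕ} (H : Matrix (Fin n) (Fin n) ℂ) (T : Finset (Fin n × Fin n)) : Prop :=
  ∃ H', CH H' ∧ H' ≠ H ∧ ∀ i j, ((i, j) ∈ T → H' i j ≠ H i j) ∧ ((i, j) ∉ T → H' i j = H i j)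

end Pool.Agent.H16.Trade
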