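import Pool.Agent.H16.TutDefs

namespace H16.Tut

abbrev Ed := Fin 6 × Fin 6

def toE (L : List Ed) : Multiset (Sym2 (Fin 6)) := ((L.map fun p => s(p.1, p.2) : List _) : Multiset _)

def get (lab : ℕ) (i : Fin 6) : ℕ := lab / 8 ^ i.val % 8

def nw (lab : ℕ) (e : Ed) (i : Fin 6) : ℕ :=
  if get lab i = get lab e.2 then get lab e.1 else get lab i

def merge (lab : ℕ) (e : Ed) : ℕ :=
  nw lab e 0 + 8 * nw lab e 1 + 64 * nw lab e 2 + 512 * nw lab e 3 + 4096 * nw lab e 4 +
    32768 * nw lab e 5

lemma nw_lt (lab : ℕ) (e : Ed) (i : Fin 6) : nw lab e i < 8 := by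
  unfold nw get; split_ifs <;> exact Nat.mod_lt _ (by norm_num)

lemma get_merge (lab : ℕ) (e : Ed) (i : Fin 6) : get (merge lab e) i = nw lab e i := by
  have h0 := nw_lt lab e 0
  have h1 := nw_lt lab e 1
  have h2 := nw_lt lab e 2
  have h3 := nw_lt lab e 3
  have h4 := nw_lt lab e 4
  have h5 := nw_lt lab e 5
  unfold merge get
  fin_cases i <;> simp <;> omega

def kk (lab : ℕ) : ℕ := ((List.finRange 6).map (get lab)).dedup.length

def force {α : Type} (n : ℕ) (f : ℕ → α) : α :=
  match n with
  | 0 => f 0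
  | k + 1 => f (k + 1)

lemma force_eq {α : Type} (n : ℕ) (f : ℕ → α) : force n f = f n := by cases n <;> rfl

def unit (c : ℕ) : List ℕ := (List.range 98).map (fun i => if i = c then 1 else 0)

def go : List Ed → ℕ → ℕ → List ℕ
  | [], lab, s => force (14 * kk lab + s) unit
  | e :: L, lab, s => List.zipWith (· + ·) (go L lab s)
      (force (merge lab e) fun l => force (s + 1) fun t => go L l t)

lemma go_len : ∀ (L : List Ed) (lab s : ℕ), (go L lab s).length = 98 := by
  intro L
  induction L with
  | nil => intro lab s; simp [go, force_eq, unit]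
  | cons e L ih => intro lab s; simp [go, force_eq, ih]

lemma go_get : ∀ (L : List Ed) (lab s i : ℕ), i < 98 → (go L lab s).getD i 0 =
    (L.sublists'.map fun A => 14 * kk (A.foldl merge lab) + (s + A.length)).count i := by
  intro L
  induction L with
  | nil =>
    intro lab s i hi
    have hl : i < (unit (14 * kk lab + s)).length := by
      unfold unit; rw [List.length_map, List.length_range]; exact hi
    show (force (14 * kk lab + s) unit).getD i 0 = [14 * kk lab + (s + 0)].count i
    rw [force_eq, List.getD_eq_getElem _ _ hl, List.count_singleton]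
    simp only [unit, List.getElem_map, List.getElem_range, add_zero, beq_iff_eq]
    by_cases h : i = 14 * kk lab + s
    · rw [if_pos h, if_pos h.symm]
    · rw [if_neg h, if_neg (fun k => h k.symm)]
  | cons e L ih =>
    intro lab s i hi
    have l1 := go_len L lab s
    have l2 := go_len L (merge lab e) (s + 1)
    have e1 := ih lab s i hi
    have e2 := ih (merge lab e) (s + 1) i hi
    rw [List.getD_eq_getElem _ _ (by omega)] at e1 e2
    rw [List.getD_eq_getElem _ _ (by rw [go_len]; exact hi)]
    simp only [go, force_eq, List.getElem_zipWith, e1, e2, List.sublists'_cons, List.map_append,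
      List.count_append, List.map_map]
    congr 3
    funext A
    simp only [Function.comp, List.foldl_cons, List.length_cons]
    omega

lemma inv : ∀ (A : List Ed) (lab : ℕ) (G : SimpleGraph (Fin 6)),
    (∀ u v, get lab u = get lab v → G.Reachable u v) → (∀ p ∈ A, G.Reachable p.1 p.2) →
    ∀ u v, get (A.foldl merge lab) u = get (A.foldl merge lab) v → G.Reachable u v := by
  intro A
  induction A with
  | nil => intro lab G h _; exact h
  | cons e A ih =>
    intro lab G h hA
    apply ih (merge lab e) G _ (fun p hp => hA p (by simp [hp]))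
    intro u v huv
    have he := hA e (by simp)
    rw [get_merge, get_merge] at huv
    unfold nw at huv
    split_ifs at huv with h1 h2 h2
    · exact h _ _ (h1.trans h2.symm)
    · exact ((h _ _ h1).trans he.symm).trans (h _ _ huv)
    · exact ((h _ _ huv).trans he).trans (h _ _ h2).symm
    · exact h _ _ huv

lemma keep : ∀ (A : List Ed) (lab : ℕ) (u v : Fin 6), get lab u = get lab v →
    get (A.foldl merge lab) u = get (A.foldl merge lab) v := by
  intro A
  induction A with
  | nil => intro lab u v h; exact h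
  | cons e A ih =>
    intro lab u v h
    apply ih
    rw [get_merge, get_merge]; unfold nw; rw [h]

lemma edge : ∀ (A : List Ed) (lab : ℕ), ∀ p ∈ A,
    get (A.foldl merge lab) p.1 = get (A.foldl merge lab) p.2 := by
  intro A
  induction A with
  | nil => intro lab p hp; simp at hp
  | cons e A ih =>
    intro lab p hp
    rcases List.mem_cons.1 hp with rfl | hp
    · apply keep A (merge lab p)
      rw [get_merge, get_merge]; unfold nw; simp
    · exact ih _ p hp

def l0 : ℕ := 181896

lemma adj_iff (A : List Ed) (u v : Fin 6) : (under (toE A)).Adj u v ↔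
    ((u, v) ∈ A ∨ (v, u) ∈ A) ∧ u ≠ v := by
  simp only [under, toE, SimpleGraph.fromEdgeSet_adj, Set.mem_setOf_eq, Multiset.mem_coe,
    List.mem_map, Sym2.eq_iff]
  constructor
  · rintro ⟨⟨p, hp, ⟨rfl, rfl⟩ | ⟨rfl, rfl⟩⟩, h⟩
    · exact ⟨Or.inl hp, h⟩
    · exact ⟨Or.inr hp, h⟩
  · rintro ⟨h | h, h'⟩
    · exact ⟨⟨_, h, Or.inl ⟨rfl, rfl⟩⟩, h'⟩
    · exact ⟨⟨_, h, Or.inr ⟨rfl, rfl⟩⟩, h'⟩

lemma reach (A : List Ed) (u v : Fin 6) : get (A.foldl merge l0) u = get (A.foldl merge l0) v ↔
    (under (toE A)).Reachable u v := by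
  constructor
  · apply inv
    · have : ∀ u v : Fin 6, get l0 u = get l0 v → u = v := by decide
      intro u v h; rw [this u v h]
    · intro p hp
      by_cases h : p.1 = p.2
      · rw [h]
      · exact ((adj_iff A _ _).2 ⟨Or.inl hp, h⟩).reachable
  · rintro ⟨w⟩
    induction w with
    | nil => rfl
    | cons h _ ih =>
      rcases ((adj_iff A _ _).1 h).1 with k | k
      · exact (edge A l0 _ k).trans ih
      · exact (edge A l0 _ k).symm.trans ih

lemma comps (A : List Ed) :
    Nat.card (under (toE A)).ConnectedComponent = kk (A.foldl merge l0) := by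
  set f := get (A.foldl merge l0) with hf
  let g : (under (toE A)).ConnectedComponent → ℕ :=
    SimpleGraph.ConnectedComponent.lift f (fun u v w _ => (reach A u v).2 ⟨w⟩)
  have gi : Function.Injective g := by
    intro a b
    induction a using SimpleGraph.ConnectedComponent.ind
    induction b using SimpleGraph.ConnectedComponent.ind
    intro h
    exact SimpleGraph.ConnectedComponent.sound ((reach A _ _).1 h)
  have gr : Set.range g = (((List.finRange 6).map f).toFinset : Set ℕ) := by
    ext x
    simp only [Set.mem_range, List.coe_toFinset, List.mem_map, List.mem_finRange, true_and,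
      Set.mem_setOf_eq]
    constructor
    · rintro ⟨a, rfl⟩
      induction a using SimpleGraph.ConnectedComponent.ind
      exact ⟨_, rfl⟩
    · rintro ⟨u, rfl⟩
      exact ⟨SimpleGraph.connectedComponentMk _ u, rfl⟩
  rw [← Nat.card_range_of_injective gi, gr, Nat.card_coe_set_eq, Set.ncard_coe_finset,
    List.card_toFinset]
  rfl

lemma kk_le (lab : ℕ) : kk lab ≤ 6 := by
  unfold kk
  exact (List.dedup_sublist _).length_le.trans (by simp)

noncomputable def ph (r c : ℕ) : MvPolynomial (Fin 2) ℤ :=
  (MvPolynomial.X 0 - 1) ^ (r - (6 - c / 14)) * (MvPolynomial.X 1 - 1) ^ (c % 14 - (6 - c / 14))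

def codes (L : List Ed) : List ℕ :=
  L.sublists'.map fun A => 14 * kk (A.foldl merge l0) + (0 + A.length)

lemma tut_eq (L : List Ed) (hL : L.length = 13) :
    tutte (toE L) = ((codes L).map (ph (6 - kk (L.foldl merge l0)))).sum := by
  have hr : ∀ A : List Ed, rk (toE A) = 6 - kk (A.foldl merge l0) := by
    intro A; unfold rk; rw [comps]; simp
  unfold tutte codes
  rw [hr]
  conv_lhs => unfold toE
  rw [Multiset.powerset_coe', List.sublists'_map, Multiset.map_coe, Multiset.sum_coe,
    List.map_map, List.map_map, List.map_map]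
  congr 1
  apply List.map_congr_left
  intro A hA
  have hl : A.length ≤ 13 := hL ▸ (List.mem_sublists'.1 hA).length_le
  have e1 : (14 * kk (A.foldl merge l0) + (0 + A.length)) / 14 = kk (A.foldl merge l0) := by omega
  have e2 : (14 * kk (A.foldl merge l0) + (0 + A.length)) % 14 = A.length := by omega
  simp only [Function.comp, ph, e1, e2]
  have := hr A
  unfold toE at this
  rw [this]
  simp

lemma codes_lt (L : List Ed) (hL : L.length = 13) : ∀ c ∈ codes L, c < 98 := by
  intro c hc
  obtain ⟨A, hA, rfl⟩ := List.mem_map.1 hc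
  have hl : A.length ≤ 13 := hL ▸ (List.mem_sublists'.1 hA).length_le
  have := kk_le (A.foldl merge l0)
  omega

def L1 : List Ed := [(0,1), (0,2), (0,3), (0,3), (0,4), (0,5), (1,2), (1,2), (1,3), (1,3), (2,4),
  (3,5), (4,5)]
def L2 : List Ed := [(0,1), (0,3), (0,4), (0,5), (1,3), (1,4), (1,5), (1,5), (2,3), (2,4), (2,4),
  (4,5), (4,5)]

lemma go_eq : go L1 l0 0 = go L2 l0 0 := by decide +kernel

lemma perm : (codes L1).Perm (codes L2) := by
  rw [List.perm_iff_count]
  intro i
  by_cases hi : i < 98
  · unfold codes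
    rw [← go_get L1 l0 0 i hi, ← go_get L2 l0 0 i hi, go_eq]
  · rw [List.count_eq_zero_of_not_mem (fun h => hi (codes_lt L1 rfl i h)),
      List.count_eq_zero_of_not_mem (fun h => hi (codes_lt L2 rfl i h))]

instance (A : List Ed) : DecidableRel (under (toE A)).Adj := fun u v =>
  decidable_of_iff _ (adj_iff A u v).symm

theorem main : ∃ G H : Multiset (Sym2 (Fin 6)), (under G).Connected ∧ (under H).Connected ∧
    tutte G = tutte H ∧ ThreeConn G ∧ ¬ ThreeConn H := by
  refine ⟨toE L1, toE L2, ?_, ?_, ?_, ⟨by simp, ?_⟩, ?_⟩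
  · exact ⟨fun u v => (reach L1 u v).1 (by revert u v; decide +kernel)⟩
  · exact ⟨fun u v => (reach L2 u v).1 (by revert u v; decide +kernel)⟩
  · rw [tut_eq L1 rfl, tut_eq L2 rfl,
      show kk (L1.foldl merge l0) = kk (L2.foldl merge l0) by decide +kernel]
    exact (perm.map _).sum_eq
  · intro S hS
    have key : ∀ S : Finset (Fin 6), S.card ≤ 2 → (∃ u, u ∉ S) ∧ ∀ u v, u ∉ S → v ∉ S →
        get ((L1.filter fun p => p.1 ∉ S ∧ p.2 ∉ S).foldl merge l0) u =
        get ((L1.filter fun p => p.1 ∉ S ∧ p.2 ∉ S).foldl merge l0) v := by decide +kernel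
    obtain ⟨⟨u0, hu0⟩, h⟩ := key S hS
    haveI : Nonempty ((S : Set (Fin 6))ᶜ : Set (Fin 6)) := ⟨⟨u0, hu0⟩⟩
    refine ⟨?_⟩
    rintro ⟨u, hu⟩ ⟨v, hv⟩
    obtain ⟨w⟩ := (reach _ u v).1 (h u v hu hv)
    induction w with
    | nil => rfl
    | @cons a b c hab _ ih =>
      rw [adj_iff] at hab
      simp only [List.mem_filter, decide_eq_true_eq] at hab
      have hb : b ∉ S := by rcases hab.1 with k | k; exacts [k.2.2, k.2.1]
      refine SimpleGraph.Reachable.trans (SimpleGraph.Adj.reachable ?_) (ih hb hv)
      show (under (toE L1)).Adj a b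
      rw [adj_iff]
      exact ⟨hab.1.imp (·.1) (·.1), hab.2⟩
  · rintro ⟨-, h⟩
    obtain ⟨w⟩ := (h {3, 4} (by decide)).preconnected ⟨2, by decide⟩ ⟨0, by decide⟩
    cases w with
    | cons hab _ =>
      rename_i b _
      obtain ⟨b, hb⟩ := b
      have h1 : (under (toE L2)).Adj 2 b := hab
      rw [adj_iff] at h1
      have h2 : b ∉ ({3, 4} : Finset (Fin 6)) := hb
      have h3 : ∀ b : Fin 6, (((2, b) ∈ L2 ∨ (b, 2) ∈ L2) ∧ 2 ≠ b) →
          b ∈ ({3, 4} : Finset (Fin 6)) := by decide
      exact h2 (h3 b h1)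

end H16.Tut
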