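import Mathlib

namespace H16.Tut

variable {V : Type}

/-- The simple graph underlying a multiset of edges (loops and multiplicities are dropped). -/
def under (A : Multiset (Sym2 V)) : SimpleGraph V := SimpleGraph.fromEdgeSet {e | e ∈ A}

/-- `r(A) = |V| - k(V, A)`. -/
noncomputable def rk (A : Multiset (Sym2 V)) : ℕ :=
  Nat.card V - Nat.card (under A).ConnectedComponent

/-- The Tutte polynomial; `E.powerset` lists the subsets of the edge set with multiplicity. -/
noncomputable def tutte (E : Multiset (Sym2 V)) : MvPolynomial (Fin 2) ℤ :=
  (E.powerset.map fun A => (MvPolynomial.X 0 - 1) ^ (rk E - rk A) *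
    (MvPolynomial.X 1 - 1) ^ (Multiset.card A - rk A)).sum

/-- At least four vertices, and connected after deleting any set of at most two vertices. -/
def ThreeConn (E : Multiset (Sym2 V)) : Prop :=
  4 ≤ Nat.card V ∧ ∀ S : Finset V, S.card ≤ 2 → ((under E).induce ((S : Set V)ᶜ)).Connected

end H16.Tut
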