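import Mathlib

set_option autoImplicit false

namespace Pool.Agent.H16.Tysz
open Matrix Finset

def u {n : ℕ} (a : Option (Fin n)) : Fin n → ℤ := fun j => if a = some j then 1 else 0

def Net {n : ℕ} (v : Fin n → ℤ) : Prop := ∃ a b, v = u a - u b

theorem un {n : ℕ} : u (none : Option (Fin n)) = 0 := by ext; simp [u]

theorem us {n : ℕ} (a : Fin n) : u (some a) = Pi.single a 1 := by
  ext j; simp [u, Pi.single_apply, eq_comm]

theorem ures {n : ℕ} (j : Fin (n + 1)) (a : Option (Fin (n + 1))) :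
    ∃ a', u a ∘ j.succAbove = u a' := by
  rcases a with _ | a
  · exact ⟨none, by ext; simp [u]⟩
  · by_cases h : a = j
    · exact ⟨none, by ext c; simp [u, h, (Fin.succAbove_ne j c).symm]⟩
    · obtain ⟨c, rfl⟩ := Fin.exists_succAbove_eq h
      exact ⟨some c, by ext d; simp [u]⟩

theorem net (n : ℕ) (M : Matrix (Fin n) (Fin n) ℤ) (h : ∀ i, Net (M i)) : |M.det| ≤ 1 := by
  induction n with
  | zero => simp
  | succ n ih =>
    by_cases c : ∀ i, ∑ j, M i j = 0
    · rw [exists_mulVec_eq_zero_iff.1 ⟨fun _ => 1, fun e => by simpa using congrFun e 0, by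
        ext i; simpa [mulVec, dotProduct] using c i⟩]
      simp
    · push Not at c
      obtain ⟨i, hi⟩ := c
      have e : ∑ j, |M i j| = 1 := by
        obtain ⟨a, b, e⟩ := h i
        rw [e] at hi ⊢
        rcases a with _ | a <;> rcases b with _ | b <;> simp_all [u, apply_ite abs]
      rw [det_succ_row M i]
      refine ((abs_sum_le_sum_abs _ _).trans (sum_le_sum fun j _ => ?_)).trans e.le
      rw [abs_mul, abs_mul, abs_neg_one_pow, one_mul]
      refine mul_le_of_le_one_right (abs_nonneg _) (ih _ fun k => ?_)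
      obtain ⟨a, b, e⟩ := h (i.succAbove k)
      obtain ⟨a', ha⟩ := ures j a
      obtain ⟨b', hb⟩ := ures j b
      exact ⟨a', b', by rw [← ha, ← hb]; ext c; simp [e]⟩

theorem two {n : ℕ} (T : Finset (Fin n)) (M : Matrix (Fin n) (Fin n) ℤ)
    (h1 : ∀ k ∈ T, ∃ p q, Net p ∧ Net q ∧ M k = p + q) (h2 : ∀ k ∉ T, Net (M k)) :
    |M.det| ≤ 2 ^ T.card := by
  induction T using Finset.induction_on generalizing M with
  | empty => simpa using net n M fun k => h2 k (by simp)
  | insert k T hk ih =>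
    obtain ⟨p, q, hp, hq, e⟩ := h1 k (mem_insert_self _ _)
    have a : ∀ p, Net p → |(M.updateRow k p).det| ≤ 2 ^ T.card := fun p hp =>
      ih _ (fun j hj => by
        rw [updateRow_ne (ne_of_mem_of_not_mem hj hk)]; exact h1 j (mem_insert_of_mem hj)) fun j hj => by
        by_cases c : j = k
        · rwa [c, updateRow_self]
        · rw [updateRow_ne c]; exact h2 j (by simp [c, hj])
    rw [← updateRow_eq_self M k, e, det_updateRow_add, card_insert_of_notMem hk, pow_succ]
    linarith [abs_add_le (M.updateRow k p).det (M.updateRow k q).det, a p hp, a q hq]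

theorem core {n : ℕ} (x : Fin n → ℤ) (i0 : Fin n) (h0 : x i0 = 1) : ∃ y : Fin n → ℤ,
    (∀ i, |y i| ≤ 2 ^ (n - 1)) ∧ y i0 = 1 ∧
      ∀ p q, Net p → Net q → (p + q) ⬝ᵥ x = 0 → (p + q) ⬝ᵥ y = 0 := by
  let G : Matrix (Fin n) (Fin n) ℤ → Finset (Fin n) → Prop := fun M T => i0 ∉ T ∧ M i0 = u (some i0) ∧
    (∀ k ∈ T, M k ⬝ᵥ x = 0 ∧ ∃ p q, Net p ∧ Net q ∧ M k = p + q) ∧ (∀ k ∉ T, Net (M k)) ∧ M.det ≠ 0
  have nu : ∀ a : Fin n, Net (Pi.single a 1) := fun a => ⟨some a, none, by rw [un, us, sub_zero]⟩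
  have o : ∀ a : Fin n, (1 : Matrix (Fin n) (Fin n) ℤ) a = Pi.single a 1 := fun a => by
    ext j; simp [one_apply, Pi.single_apply, eq_comm]
  obtain ⟨T, ⟨M, g1, g2, g3, g4, g5⟩, hT⟩ := Set.exists_max_image {T | ∃ M, G M T} card (Set.toFinite _)
    ⟨∅, 1, by simp, by rw [o, us], by simp, fun k _ => o k ▸ nu k, by simp⟩
  let w : Fin n → ℤ := fun k => if k ∈ T ∨ k = i0 then 0 else -((M *ᵥ x) k / M.det)
  let y := x + M.adjugate *ᵥ w
  have c1 : M *ᵥ y = M *ᵥ x + M.det • w := by
    rw [mulVec_add, mulVec_mulVec, mul_adjugate, smul_mulVec, one_mulVec]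
  have c2 : M.adjugate *ᵥ (M *ᵥ y) = M.det • y := by
    rw [mulVec_mulVec, adjugate_mul, smul_mulVec, one_mulVec]
  have r0 : ∀ v, (M *ᵥ v) i0 = v i0 := fun v => by
    show M i0 ⬝ᵥ v = _
    rw [g2, us, single_one_dotProduct]
  have y0 : (M *ᵥ y) i0 = 1 := by rw [c1]; simp [w, r0, h0]
  have d0 : 0 < |M.det| := abs_pos.2 g5
  refine ⟨y, fun i => ?_, r0 y ▸ y0, fun p q hp hq h => ?_⟩
  · have a : |M.det| * |y i| ≤ ∑ k ∈ Tᶜ, |M.det| * 2 ^ T.card := by
      rw [← abs_mul, ← smul_eq_mul, ← Pi.smul_apply, ← c2, mulVec, dotProduct,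
        ← sum_subset (subset_univ Tᶜ) fun k _ hk => by
          have hk : k ∈ T := by simpa using hk
          rw [c1]; simp [w, hk, show (M *ᵥ x) k = 0 from (g3 k hk).1]]
      refine (abs_sum_le_sum_abs _ _).trans (sum_le_sum fun k hk => ?_)
      have hk : k ∉ T := by simpa using hk
      rw [abs_mul, mul_comm]
      refine mul_le_mul ?_ ?_ (abs_nonneg _) d0.le
      · by_cases c : k = i0
        · rw [c, y0]; exact d0
        · have a := Int.emod_nonneg ((M *ᵥ x) k) g5
          have b := Int.emod_lt_abs ((M *ᵥ x) k) g5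
          rw [c1, show (M *ᵥ x + M.det • w) k = (M *ᵥ x) k % M.det by
            simp [w, hk, c, Int.emod_def, sub_eq_add_neg], abs_of_nonneg a]
          exact b.le
      · rw [adjugate_apply]
        refine two T _ (fun j hj => ?_) fun j hj => ?_
        · rw [updateRow_ne (ne_of_mem_of_not_mem hj hk)]; exact (g3 j hj).2
        · by_cases c : j = k
          · rw [c, updateRow_self]; exact nu i
          · rw [updateRow_ne c]; exact g4 j hj
    have b : T.card + Tᶜ.card = n := by rw [card_add_card_compl, Fintype.card_fin]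
    obtain ⟨t, ht⟩ : ∃ t, Tᶜ.card = t + 1 := ⟨_, (Nat.succ_pred_eq_of_pos
      (card_pos.2 ⟨i0, by simpa using g1⟩)).symm⟩
    rw [sum_const, ht, nsmul_eq_mul, mul_left_comm] at a
    rw [show n - 1 = t + T.card by omega, pow_add]
    refine (le_of_mul_le_mul_left a d0).trans (mul_le_mul_of_nonneg_right ?_ (by positivity))
    exact_mod_cast t.lt_two_pow_self
  · rw [dotProduct_add, h, zero_add, dotProduct_mulVec, ← mulVec_transpose, adjugate_transpose,
      ← cramer_eq_adjugate_mulVec]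
    refine sum_eq_zero fun k _ => ?_
    by_cases c : k ∈ T ∨ k = i0
    · simp [w, c]
    · rw [cramer_transpose_apply]
      push Not at c
      refine mul_eq_zero_of_left (by_contra fun d => ?_) _
      have := hT (insert k T) ⟨_, by simp [g1, c.2.symm], by rwa [updateRow_ne c.2.symm], fun j hj => by
        by_cases e : j = k
        · rw [e, updateRow_self]; exact ⟨h, p, q, hp, hq, rfl⟩
        · rw [updateRow_ne e]; exact g3 j (by simpa [e] using hj), fun j hj => by
        rw [mem_insert, not_or] at hj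
        rw [updateRow_ne hj.1]; exact g4 j hj.2, d⟩
      rw [card_insert_of_notMem c.1] at this
      omega

theorem main (n : ℕ) (x : Fin n → ℤ) : ∃ y : Fin n → ℤ, (∀ i, |y i| ≤ 2 ^ (n - 1)) ∧
    (∀ i, x i = 1 → y i = 1) ∧ ∀ i j k, x k = x i + x j → y k = y i + y j := by
  by_cases c : ∃ i, x i = 1
  · obtain ⟨i0, h0⟩ := c
    obtain ⟨y, h1, h2, h3⟩ := core x i0 h0
    refine ⟨y, h1, fun i hi => ?_, fun i j k h => ?_⟩
    · have := h3 _ _ ⟨some i, some i0, rfl⟩ ⟨none, none, rfl⟩ (by simp [us, hi, h0])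
      simp [us] at this
      omega
    · have := h3 _ _ ⟨some i, some k, rfl⟩ ⟨some j, none, rfl⟩ (by simp [us, un, h])
      simp [us, un] at this
      omega
  · exact ⟨0, by simp, fun i hi => absurd ⟨i, hi⟩ c, by simp⟩

end Pool.Agent.H16.Tysz
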