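import Pool.Agent.H16.VHullDefs

set_option autoImplicit false

namespace Pool.Agent.H16.VHull
open Set

theorem mem_hull {n : ℕ} (S : Set (E n)) (x : E n) :
    x ∈ hull S ↔ ∀ u : E n, u ≠ 0 → ∃ s ∈ S, inner ℝ u s = inner ℝ u x := by
  constructor
  · rintro ⟨B, hB, hx⟩ u hu
    obtain ⟨s, hs, e⟩ := (hB _ (finrank_span_singleton hu)).le (mem_image_of_mem _ hx)
    simp only [Submodule.starProjection_singleton] at e
    have := smul_left_injective ℝ hu e
    exact ⟨s, hs, (div_left_inj' (by simpa using hu)).1 this⟩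
  · intro h
    refine ⟨insert x S, fun L hL => ?_, mem_insert _ _⟩
    obtain ⟨u, hu, rfl⟩ : ∃ u : E n, u ≠ 0 ∧ L = Submodule.span ℝ {u} := by
      obtain ⟨⟨u, h1⟩, h2, h3⟩ := finrank_eq_one_iff'.1 hL
      refine ⟨u, fun e => h2 (Subtype.ext e), le_antisymm (fun w hw => ?_) (by simpa using h1)⟩
      obtain ⟨c, e⟩ := h3 ⟨w, hw⟩
      exact Submodule.mem_span_singleton.2 ⟨c, congrArg Subtype.val e⟩
    obtain ⟨s, hs, e⟩ := h u hu
    rw [image_insert_eq, insert_eq_of_mem]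
    exact ⟨s, hs, by simp only [Submodule.starProjection_singleton, e]⟩

theorem ivt {n : ℕ} (u y z : E n) (c : ℝ) (h : (inner ℝ u y - c) * (inner ℝ u z - c) ≤ 0) :
    ∃ s ∈ segment ℝ y z, inner ℝ u s = c := by
  have : c ∈ segment ℝ (inner ℝ u y) (inner ℝ u z) := by
    rw [segment_eq_uIcc, mem_uIcc]
    rcases mul_nonpos_iff.1 h with h | h
    · exact .inr ⟨by linarith [h.2], by linarith [h.1]⟩
    · exact .inl ⟨by linarith [h.1], by linarith [h.2]⟩
  obtain ⟨a, b, h1, h2, h3, h4⟩ := this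
  exact ⟨_, ⟨a, b, h1, h2, h3, rfl⟩, by simpa [inner_add_right, inner_smul_right] using h4⟩

noncomputable def e {n : ℕ} (i : Fin n) (c : ℝ) : E n := EuclideanSpace.single i c

noncomputable def p (m : ℕ) : Fin (m + 3) → E (m + 3) :=
  Fin.cons (e 0 1) (Fin.cons (e 1 2) (Fin.cons (e 2 1) fun j => e j.succ.succ.succ 1))
noncomputable def q (m : ℕ) : Fin (m + 3) → E (m + 3) :=
  Fin.cons (e 1 1) (Fin.cons (e 2 2) (Fin.cons (e 0 (-1)) fun j => e j.succ.succ.succ 1))
noncomputable def a (m : ℕ) : Fin (m + 4) → E (m + 3) :=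
  Fin.cons 0 (Fin.cons (e 0 1) (Fin.cons (e 2 2) (Fin.cons (e 0 (-1)) fun j => e j.succ.succ.succ 1)))
noncomputable def u (m : ℕ) : Fin (m + 2) → E (m + 3) :=
  Fin.cons (e 0 2 + e 1 2 + e 2 (3 / 4)) (Fin.cons (e 0 (-2) + e 1 (3 / 4) + e 2 2)
    fun j => e j.succ.succ.succ 2)

theorem main (m : ℕ) : ∃ A : Fin (m + 3) → Set (E (m + 3)), (∀ i, (A i).Nonempty ∧ Convex ℝ (A i)) ∧
    Pairwise (Function.onFun Disjoint A) ∧
    ¬ ∃ C : Fin (m + 3) → Set (E (m + 3)), (∀ i, Convex ℝ (C i)) ∧ hull (⋃ i, A i) = ⋃ i, C i := by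
  have ie : ∀ (v : E (m + 3)) i c, inner ℝ v (e i c) = c * v i := fun v i c => by
    simp [e, EuclideanSpace.inner_single_right]
  have n2 : (2 : Fin (m + 3)).val = 2 := rfl
  have n3 : ∀ i : ℕ, (i + 1 + 1 + 1 = 2) = False := fun i => by simp
  have ea : ∀ (i j : Fin (m + 3)) c, e i c j = if j.val = i.val then c else 0 := fun i j c => by
    simp [e, Fin.ext_iff]
  refine ⟨fun i => segment ℝ (p m i) (q m i), fun i => ⟨⟨_, left_mem_segment _ _ _⟩, convex_segment _ _⟩,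
    ?_, ?_⟩
  · have k : ∀ i j, ∀ s t s' t' : ℝ, 0 ≤ s → 0 ≤ t → s + t = 1 → 0 ≤ s' → 0 ≤ t' → s' + t' = 1 →
        (∀ l, s * p m i l + t * q m i l = s' * p m j l + t' * q m j l) → i = j := by
      simp only [Fin.forall_fin_succ, p, q, Fin.cons_zero, Fin.cons_succ, ea, n2, Fin.val_succ,
        Fin.val_zero, Fin.val_one, Fin.ext_iff]
      norm_num
      refine ⟨⟨?_, ?_, ?_⟩, ⟨?_, ?_, ?_⟩, ⟨?_, ?_, ?_⟩, fun i => ⟨?_, ?_, ?_, fun j s t s' t' _ _ h
        _ _ _ h' => ?_⟩⟩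
      rotate_right
      · by_contra e
        have := h' i
        simp only [if_true, if_neg e] at this
        linarith
      all_goals intros; exfalso; linarith
    intro i j h
    refine disjoint_left.2 ?_
    rintro _ ⟨s, t, h1, h2, h3, rfl⟩ ⟨s', t', h4, h5, h6, h7⟩
    exact h (k i j s t s' t' h1 h2 h3 h4 h5 h6 fun l => by simpa using congrArg (· l) h7.symm)
  · rintro ⟨C, c1, c2⟩
    have g : ∀ k i, 0 < (inner ℝ (u m k) (p m i) - 1) * (inner ℝ (u m k) (q m i) - 1) := by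
      simp only [Fin.forall_fin_succ, p, q, u, Fin.cons_zero, Fin.cons_succ, ie, PiLp.add_apply, ea,
        n2, Fin.val_succ, Fin.val_zero, Fin.val_one, n3]
      norm_num
      intro i j
      split_ifs <;> norm_num
    have g2 : ∀ i j, (∀ k, 0 < (inner ℝ (u m k) (a m i) - 1) * (inner ℝ (u m k) (a m j) - 1)) →
        i = j := by
      simp only [Fin.forall_fin_succ, a, u, Fin.cons_zero, Fin.cons_succ, ie, PiLp.add_apply, ea,
        n2, Fin.val_succ, Fin.val_zero, Fin.val_one, Fin.ext_iff, inner_zero_right, n3]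
      norm_num
      refine ⟨fun i => ⟨i, by simp⟩, fun i => ⟨⟨i, by simp⟩, fun j h => ?_⟩⟩
      by_contra e
      have := h i
      norm_num [Ne.symm e] at this
    have g3 : ∀ i, a m i ∈ hull (⋃ i, segment ℝ (p m i) (q m i)) := by
      have s : ∀ x ∈ ⋃ i, segment ℝ (p m i) (q m i), x ∈ hull (⋃ i, segment ℝ (p m i) (q m i)) :=
        fun x hx => (mem_hull _ _).2 fun _ _ => ⟨x, hx, rfl⟩
      refine Fin.forall_fin_succ.2 ⟨(mem_hull _ _).2 fun v _ => ?_, Fin.forall_fin_succ.2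
        ⟨s _ (mem_iUnion.2 ⟨0, left_mem_segment _ _ _⟩), fun i =>
          s _ (mem_iUnion.2 ⟨i.succ, ?_⟩)⟩⟩
      · have : ∃ i, (inner ℝ v (p m i) - 0) * (inner ℝ v (q m i) - 0) ≤ 0 := by
          by_contra h
          simp only [not_exists, not_le, Fin.forall_fin_succ, p, q, Fin.cons_zero, Fin.cons_succ,
            ie] at h
          obtain ⟨h1, h2, h3, -⟩ := h
          nlinarith [mul_pos h1 (mul_pos h2 h3), sq_nonneg (v 0 * v 1 * v 2)]
        obtain ⟨i, h⟩ := this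
        obtain ⟨s, h1, h2⟩ := ivt _ _ _ _ h
        exact ⟨s, mem_iUnion.2 ⟨i, h1⟩, by simp [h2, a]⟩
      · exact right_mem_segment _ _ _
    choose f hf using fun i => mem_iUnion.1 (c2.le (g3 i))
    obtain ⟨i, j, h1, h2⟩ := Fintype.exists_ne_map_eq_of_card_lt f (by simp)
    refine h1 (g2 i j fun k => not_le.1 fun h => ?_)
    obtain ⟨s, h3, h4⟩ := ivt _ _ _ _ h
    have := c2.ge (mem_iUnion.2 ⟨_, (c1 _).segment_subset (hf i) (h2 ▸ hf j) h3⟩)
    obtain ⟨_, ⟨_, ⟨l, rfl⟩, s, t, b1, b2, b3, rfl⟩, b4⟩ := (mem_hull _ _).1 this (u m k)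
      fun e => by simp [e] at h4
    have := g k l
    simp only [inner_add_right, inner_smul_right, h4] at b4
    generalize inner ℝ (u m k) (p m l) = x at *
    generalize inner ℝ (u m k) (q m l) = y at *
    obtain rfl : t = 1 - s := by linarith
    rcases mul_pos_iff.1 this with b | b <;> rcases le_total x y with c | c <;>
      nlinarith [b.1, b.2, mul_nonneg b1 (sub_nonneg.2 c), mul_nonneg b2 (sub_nonneg.2 c)]

end Pool.Agent.H16.VHull
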