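import Mathlib

set_option autoImplicit false

namespace Pool.Agent.H16.VHull

abbrev E (n : ℕ) := EuclideanSpace ℝ (Fin n)

/-- `A` and `B` have the same image under every orthogonal projection onto a line through `0`. -/
def PEquiv {n : ℕ} (A B : Set (E n)) : Prop :=
  ∀ L : Submodule ℝ (E n), Module.finrank ℝ L = 1 → L.starProjection '' A = L.starProjection '' B

/-- the visual hull -/
def hull {n : ℕ} (S : Set (E n)) : Set (E n) := ⋃₀ {B | PEquiv B S}

end Pool.Agent.H16.VHull
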