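import Mathlib

set_option autoImplicit false

namespace Pool.Agent.H16.Xor
open MeasureTheory Filter Topology

/-- The full shift on two letters (with the product sigma-algebra, which is the Borel one). -/
abbrev X : Type := ℤ → Bool

/-- The shift. -/
def shift (x : X) : X := fun i => x (i + 1)

/-- The two-neighbour XOR cellular automaton. -/
def F (x : X) : X := fun i => xor (x i) (x (i + 1))

/-- The cylinder set of the word `w` at position `0`. -/
def cyl (w : List Bool) : Set X := {x | ∀ i : Fin w.length, x (i : ℕ) = w.get i}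

/-- Shift-invariant probability measures. -/
def Good (μ : Measure X) : Prop := IsProbabilityMeasure μ ∧ μ.map shift = μ

/-- Computable measures: an algorithm maps `(w, k)` to a rational, written `(a - b) / (c + 1)`,
within `2 ^ (-k)` of the measure of the cylinder of `w`. -/
def CompMeas (ν : Measure X) : Prop :=
  ∃ f : List Bool × ℕ → ℕ × ℕ × ℕ, Computable f ∧ ∀ w k,
    |(((f (w, k)).1 : ℝ) - (f (w, k)).2.1) / ((f (w, k)).2.2 + 1) - ν.real (cyl w)| ≤ 1 / 2 ^ k

/-- `ν` is a weak-star limit point of the sequence of push-forwards of `μ` under iterates of `F`. -/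
def LimitPt (μ ν : Measure X) : Prop :=
  ∃ φ : ℕ → ℕ, StrictMono φ ∧
    ∀ w, Tendsto (fun j => (μ.map F^[φ j]).real (cyl w)) atTop (𝓝 (ν.real (cyl w)))

/-- The limit language of `μ`. -/
def LimLang (μ : Measure X) (w : List Bool) : Prop :=
  ¬ Tendsto (fun n => (μ.map F^[n]).real (cyl w)) atTop (𝓝 0)

end Pool.Agent.H16.Xor
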