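import Mathlib
import Pool.Agent.H16.XorDefs

set_option autoImplicit false

namespace Pool.Agent.H16.Xor
open Finset

def sh (t : ℕ) (x : X) : X := fun i => x (i + t)
def S (x : X) : X := fun i => decide (i % 2 = 0) && x (i / 2)
def Db (x : X) : X := fun i => x ((i + 1) / 2)
def u : X := fun i => decide (i % 3 ≠ 2)
def c : ℕ → X
  | 0 => u
  | j + 1 => S (c j)

theorem sh_sh (a b : ℕ) (x : X) : sh a (sh b x) = sh (a + b) x := by
  funext i; simp [sh, add_assoc]

theorem sh_zero (x : X) : sh 0 x = x := by funext i; simp [sh]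

theorem F_sh (a : ℕ) (x : X) : F (sh a x) = sh a (F x) := by
  funext i; simp [sh, F, add_right_comm]

theorem Fn_sh (n a : ℕ) (x : X) : F^[n] (sh a x) = sh a (F^[n] x) := by
  induction n with
  | zero => rfl
  | succ n ih => rw [Function.iterate_succ_apply', ih, F_sh, Function.iterate_succ_apply']

theorem F_S (x : X) : F (S x) = Db x := by
  funext i
  rcases Int.emod_two_eq_zero_or_one i with h | h
  · have a1 : (i + 1) % 2 = 1 := by omega
    have a2 : (i + 1) / 2 = i / 2 := by omega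
    simp [F, S, Db, h, a1, a2]
  · have a1 : (i + 1) % 2 = 0 := by omega
    simp [F, S, Db, h, a1]

theorem F_Db (x : X) : F (Db x) = S (F x) := by
  funext i
  rcases Int.emod_two_eq_zero_or_one i with h | h
  · have a1 : (i + 1 + 1) / 2 = i / 2 + 1 := by omega
    have a2 : (i + 1) / 2 = i / 2 := by omega
    simp [F, S, Db, h, a1, a2]
  · have a1 : (i + 1 + 1) / 2 = (i + 1) / 2 := by omega
    simp [F, S, Db, h, a1]

theorem Fn_S (t : ℕ) (x : X) : F^[2 * t] (S x) = S (F^[t] x) := by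
  induction t with
  | zero => rfl
  | succ t ih =>
    rw [show 2 * (t + 1) = 2 * t + 1 + 1 by ring, Function.iterate_succ_apply',
      Function.iterate_succ_apply', ih, F_S, F_Db, Function.iterate_succ_apply']

theorem Fn_S' (t : ℕ) (x : X) : F^[2 * t + 1] (S x) = Db (F^[t] x) := by
  rw [Function.iterate_succ_apply', Fn_S, F_S]

theorem S_sh (a : ℕ) (x : X) : S (sh a x) = sh (2 * a) (S x) := by
  funext i
  have a1 : (i + 2 * (a : ℤ)) % 2 = i % 2 := by omega
  have a2 : (i + 2 * (a : ℤ)) / 2 = i / 2 + a := by omega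
  simp [S, sh, a1, a2]

theorem F_u : F u = sh 2 u := by
  funext i
  simp only [F, u, sh]
  rw [Bool.eq_iff_iff]
  simp only [Bool.xor_iff_ne, ne_eq, decide_eq_decide, decide_eq_true_eq]
  push_cast
  omega

theorem c_time (j : ℕ) : F^[2 ^ j] (c j) = sh (2 * 2 ^ j) (c j) := by
  induction j with
  | zero => exact F_u
  | succ j ih => rw [c, pow_succ', Fn_S, ih, S_sh]

theorem c_per (j : ℕ) : sh (3 * 2 ^ j) (c j) = c j := by
  induction j with
  | zero => funext i; simp [sh, c, u]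
  | succ j ih => rw [c, show 3 * 2 ^ (j + 1) = 2 * (3 * 2 ^ j) by ring, ← S_sh, ih]

theorem Fc_per (j n : ℕ) : sh (3 * 2 ^ j) (F^[n] (c j)) = F^[n] (c j) := by rw [← Fn_sh, c_per]

theorem c_time' (j m : ℕ) : F^[2 ^ j * m] (c j) = sh (2 * 2 ^ j * m) (c j) := by
  induction m with
  | zero => simp [sh_zero]
  | succ m ih =>
    rw [mul_add, mul_one, Function.iterate_add_apply, c_time, Fn_sh, ih, sh_sh]
    congr 1; ring

open Classical in
noncomputable def cnt (P : ℕ) (y : X) (A : Set X) : ℕ := ∑ t ∈ range P, if sh t y ∈ A then 1 else 0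

theorem cnt_le (P : ℕ) (y : X) (A : Set X) : cnt P y A ≤ P := by
  unfold cnt
  refine (Finset.sum_le_sum (g := fun _ => 1) fun t _ => by split_ifs <;> omega).trans (by simp)

theorem cnt_sh {P : ℕ} {y : X} (h : sh P y = y) (a : ℕ) (A : Set X) :
    cnt P (sh a y) A = cnt P y A := by
  classical
  induction a with
  | zero => rw [sh_zero]
  | succ a ih =>
    rw [← ih]
    unfold cnt
    have h1 := Finset.sum_range_succ' (fun t => if sh t (sh a y) ∈ A then 1 else 0) P
    have h2 := Finset.sum_range_succ (fun t => if sh t (sh a y) ∈ A then 1 else 0) P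
    have h3 : sh P (sh a y) = sh 0 (sh a y) := by
      rw [sh_zero, sh_sh, add_comm, ← sh_sh, h]
    simp only [h3] at h2
    have h4 : ∀ t, sh t (sh (a + 1) y) = sh (t + 1) (sh a y) := fun t => by
      rw [sh_sh, sh_sh]; congr 1; ring
    simp only [h4]
    omega

theorem cnt_mod (j n : ℕ) (A : Set X) :
    cnt (3 * 2 ^ j) (F^[n] (c j)) A = cnt (3 * 2 ^ j) (F^[n % 2 ^ j] (c j)) A := by
  conv_lhs => rw [← Nat.mod_add_div n (2 ^ j), Function.iterate_add_apply, c_time', Fn_sh]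
  exact cnt_sh (Fc_per _ _) _ _

def cB (j n : ℕ) : Bool := n % 2 ^ j == 0 && !(n / 2 ^ j % 3 == 2)

theorem c_nat (j n : ℕ) : c j n = cB j n := by
  induction j generalizing n with
  | zero =>
    simp only [c, u, cB]
    rw [Bool.eq_iff_iff]; simp; omega
  | succ j ih =>
    have a1 : (n : ℤ) / 2 = ((n / 2 : ℕ) : ℤ) := by simp
    simp only [c, S, a1, ih, cB]
    rw [pow_succ', Nat.mod_mul, ← Nat.div_div_eq_div_mul, Bool.eq_iff_iff]
    simp only [Bool.and_eq_true, decide_eq_true_eq, beq_iff_eq]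
    constructor
    · rintro ⟨h1, h2, h3⟩; exact ⟨by omega, h3⟩
    · rintro ⟨h1, h2⟩; exact ⟨by omega, by omega, h2⟩

def Occ (j : ℕ) (x : X) : Prop := ∃ t : ℤ, ∀ i : ℕ, i ≤ 3 * 2 ^ j → x (i + t) = c j i

theorem c_zero (j : ℕ) : c j 0 = true := by simpa [cB] using c_nat j 0

theorem c_pow (j : ℕ) : c j (2 ^ j : ℕ) = true := by rw [c_nat]; simp [cB]

theorem S_odd (x : X) (i : ℤ) (h : i % 2 = 1) : S x i = false := by simp [S, h]

theorem Db_nb (x : X) (i : ℤ) : Db x i = Db x (i + 1) ∨ Db x i = Db x (i - 1) := by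
  rcases Int.emod_two_eq_zero_or_one i with h | h
  · right; simp only [Db]; congr 1; omega
  · left; simp only [Db]; congr 1; omega

theorem occ_S {j : ℕ} {x : X} (h : Occ (j + 1) (S x)) : Occ j x := by
  obtain ⟨t, h⟩ := h
  have h0 := h 0 (by omega)
  simp only [Nat.cast_zero, zero_add, c_zero, S, Bool.and_eq_true, decide_eq_true_eq] at h0
  refine ⟨t / 2, fun i hi => ?_⟩
  have := h (2 * i) (by rw [pow_succ]; omega)
  have a1 : (((2 * i : ℕ) : ℤ) + t) % 2 = 0 := by push_cast; omega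
  have a2 : (((2 * i : ℕ) : ℤ) + t) / 2 = i + t / 2 := by push_cast; omega
  have a3 : ((2 * i : ℕ) : ℤ) % 2 = 0 := by push_cast; omega
  have a4 : ((2 * i : ℕ) : ℤ) / 2 = i := by push_cast; omega
  simpa only [c, S, a1, a2, a3, a4, decide_true, Bool.true_and] using this

theorem not_occ_Db (j : ℕ) (x : X) : ¬ Occ j (Db x) := by
  rintro ⟨t, h⟩
  cases j with
  | zero =>
    have h1 := h 1 (by omega); have h2 := h 2 (by omega); have h3 := h 3 (by omega)
    have := Db_nb x (2 + t)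
    rw [show 2 + t + 1 = ((3 : ℕ) : ℤ) + t by push_cast; ring,
      show 2 + t - 1 = ((1 : ℕ) : ℤ) + t by push_cast; ring, h1, h3,
      show 2 + t = ((2 : ℕ) : ℤ) + t by push_cast; ring, h2] at this
    revert this; decide
  | succ j =>
    have hp : 0 < 2 ^ j := by positivity
    have e : 2 ^ (j + 1) = 2 * 2 ^ j := by ring
    have h1 := h (2 ^ (j + 1) - 1) (by omega)
    have h2 := h (2 ^ (j + 1)) (by omega)
    have h3 := h (2 ^ (j + 1) + 1) (by omega)
    rw [c_pow] at h2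
    rw [c, S_odd _ _ (by rw [e]; omega)] at h1 h3
    have := Db_nb x ((2 ^ (j + 1) : ℕ) + t)
    rw [show ((2 ^ (j + 1) : ℕ) : ℤ) + t + 1 = ((2 ^ (j + 1) + 1 : ℕ) : ℤ) + t by omega,
      show ((2 ^ (j + 1) : ℕ) : ℤ) + t - 1 = ((2 ^ (j + 1) - 1 : ℕ) : ℤ) + t by omega,
      h1, h2, h3] at this
    simp at this

theorem not_occ (J j n : ℕ) (h : J ≠ j) : ¬ Occ j (F^[n] (c J)) := by
  induction J generalizing j n with
  | zero =>
    obtain ⟨j, rfl⟩ := Nat.exists_eq_succ_of_ne_zero h.symm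
    have := c_time' 0 n
    rw [pow_zero, one_mul] at this
    rw [this]
    rintro ⟨t, ht⟩
    have hp : 0 < 2 ^ (j + 1) := by positivity
    have h1 := ht 1 (by omega); have h3 := ht 3 (by omega)
    rw [c, c, S_odd _ _ (by norm_num)] at h1 h3
    simp only [sh, u, decide_eq_false_iff_not, not_not] at h1 h3
    omega
  | succ J ih =>
    rcases Nat.even_or_odd' n with ⟨m, rfl | rfl⟩
    · rw [c, Fn_S]
      cases j with
      | zero =>
        rintro ⟨t, ht⟩
        have h0 := ht 0 (by omega); have h1 := ht 1 (by omega)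
        simp [S, c, u] at h0 h1
        omega
      | succ j => exact fun ho => ih j m (by omega) (occ_S ho)
    · rw [c, Fn_S']; exact not_occ_Db _ _

def Wd (j : ℕ) : List Bool := (List.range (3 * 2 ^ j + 1)).map (cB j)

theorem mem_cyl (w : List Bool) (x : X) : x ∈ cyl w ↔ ∀ i < w.length, x i = w.getD i false := by
  constructor
  · intro h i hi
    simpa [hi] using h ⟨i, hi⟩
  · intro h i
    simpa using h i i.2

theorem mem_Wd (j : ℕ) (x : X) : x ∈ cyl (Wd j) ↔ ∀ i : ℕ, i ≤ 3 * 2 ^ j → x i = c j i := by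
  rw [mem_cyl]
  simp only [Wd, List.length_map, List.length_range, Nat.lt_succ_iff]
  refine forall_congr' fun i => imp_congr_right fun hi => ?_
  rw [c_nat, List.getD_eq_getElem _ _ (by simp; omega)]
  simp

theorem cnt_Wd_ne (J j n : ℕ) (h : J ≠ j) (P : ℕ) : cnt P (F^[n] (c J)) (cyl (Wd j)) = 0 := by
  refine Finset.sum_eq_zero fun t _ => if_neg fun ht => not_occ J j n h ⟨t, ?_⟩
  exact (mem_Wd _ _).1 ht

theorem cnt_Wd (j m : ℕ) : 1 ≤ cnt (3 * 2 ^ j) (F^[2 ^ j * m] (c j)) (cyl (Wd j)) := by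
  classical
  rw [cnt_mod, Nat.mul_mod_right]
  refine le_trans ?_ (Finset.single_le_sum (f := fun t => if sh t (c j) ∈ cyl (Wd j) then 1 else 0)
    (fun _ _ => Nat.zero_le _) (a := 0) (by simp))
  rw [sh_zero, if_pos ((mem_Wd _ _).2 fun _ _ => rfl)]

theorem sum_two (g : ℕ → ℕ) (P : ℕ) :
    ∑ i ∈ range (2 * P), g i = ∑ a ∈ range P, g (2 * a) + ∑ a ∈ range P, g (2 * a + 1) := by
  induction P with
  | zero => simp
  | succ P ih =>
    rw [show 2 * (P + 1) = 2 * P + 1 + 1 by ring]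
    simp only [sum_range_succ, ih]; ring

theorem mem_one (x : X) : x ∈ cyl [true] ↔ x 0 = true := by simp [mem_cyl]

theorem cnt_S (P : ℕ) (y : X) : cnt (2 * P) (S y) (cyl [true]) = cnt P y (cyl [true]) := by
  unfold cnt
  rw [sum_two]
  simp [mem_one, sh, S]

theorem cnt_Db {P : ℕ} {y : X} (h : sh P y = y) :
    cnt (2 * P) (Db y) (cyl [true]) = 2 * cnt P y (cyl [true]) := by
  have := cnt_sh h 1 (cyl [true])
  unfold cnt at *
  rw [sum_two, two_mul]
  nth_rewrite 2 [← this]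
  have a1 : ∀ a : ℕ, (2 * (a : ℤ) + 1) / 2 = a := fun a => by omega
  have a2 : ∀ a : ℕ, (2 * (a : ℤ) + 1 + 1) / 2 = a + 1 := fun a => by omega
  simp [mem_one, sh, Db, a1, a2]

def r : ℕ → (ℕ → Bool) → ℕ
  | 0, _ => 0
  | k + 1, b => 2 * r k (fun i => b (i + 1)) + (b 0).toNat

theorem r_lt (k : ℕ) (b : ℕ → Bool) : r k b < 2 ^ k := by
  induction k generalizing b with
  | zero => simp [r]
  | succ k ih =>
    have := ih fun i => b (i + 1)
    have := Bool.toNat_le (b 0)
    rw [r, pow_succ]; omega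

theorem r_mod (k j : ℕ) (h : k ≤ j) (b : ℕ → Bool) : r j b % 2 ^ k = r k b := by
  induction k generalizing b j with
  | zero => simp [r, Nat.mod_one]
  | succ k ih =>
    obtain ⟨j, rfl⟩ := Nat.exists_eq_succ_of_ne_zero (show j ≠ 0 by omega)
    have := Bool.toNat_le (b 0)
    rw [r, r, pow_succ', Nat.mod_mul, ← ih j (by omega) fun i => b (i + 1)]
    have a1 : (2 * r j (fun i => b (i + 1)) + (b 0).toNat) / 2 = r j fun i => b (i + 1) := by omega
    rw [a1]; omega

noncomputable def N (k : ℕ) (b : ℕ → Bool) : ℕ := cnt (3 * 2 ^ k) (F^[r k b] (c k)) (cyl [true])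

theorem N_zero (b : ℕ → Bool) : N 0 b = 2 := by
  simp [N, cnt, r, mem_one, sh, c, u, sum_range_succ]

theorem N_succ (k : ℕ) (b : ℕ → Bool) :
    N (k + 1) b = (if b 0 then 2 else 1) * N k fun i => b (i + 1) := by
  unfold N
  rw [r, c, show 3 * 2 ^ (k + 1) = 2 * (3 * 2 ^ k) by ring]
  cases b 0
  · simp [Fn_S, cnt_S]
  · simp only [Bool.toNat_true, Fn_S', cnt_Db (Fc_per _ _), if_true]

end Pool.Agent.H16.Xor
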