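import Mathlib
import Pool.Agent.H16.Xor1
import Pool.Agent.H23.PR

set_option autoImplicit false

namespace Pool.Agent.H16.Xor
open Finset MeasureTheory Filter Topology

theorem meas_sh (t : ℕ) : Measurable (sh t) :=
  measurable_pi_lambda _ fun _ => measurable_pi_apply _

theorem meas_F : Measurable F :=
  measurable_pi_lambda _ fun i => by
    have h : Measurable fun x : X => (x i, x (i + 1)) :=
      (measurable_pi_apply i).prodMk (measurable_pi_apply (i + 1))
    exact (measurable_of_finite fun p : Bool × Bool => xor p.1 p.2).comp h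

theorem meas_cyl (w : List Bool) : MeasurableSet (cyl w) := by
  have : cyl w = ⋂ i : Fin w.length, (fun x : X => x (i : ℕ)) ⁻¹' {w.get i} := by
    ext x; simp [cyl]
  rw [this]
  exact MeasurableSet.iInter fun i => measurable_pi_apply _ (measurableSet_singleton _)

noncomputable def M (s : ℕ → ℕ) (y : ℕ → X) : Measure X :=
  Measure.sum fun k => ((2 ^ (k + 1) * (3 * 2 ^ s k) : ℕ) : ENNReal)⁻¹ •
    ∑ t ∈ range (3 * 2 ^ s k), Measure.dirac (sh t (y k))

theorem M_apply (s : ℕ → ℕ) (y : ℕ → X) {A : Set X} (hA : MeasurableSet A) :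
    M s y A = ∑' k, ((2 ^ (k + 1) * (3 * 2 ^ s k) : ℕ) : ENNReal)⁻¹ *
      (cnt (3 * 2 ^ s k) (y k) A : ℕ) := by
  classical
  unfold M
  rw [Measure.sum_apply _ hA]
  refine tsum_congr fun k => ?_
  rw [Measure.smul_apply, smul_eq_mul, Measure.finsetSum_apply]
  congr 1
  unfold cnt
  push_cast
  refine Finset.sum_congr rfl fun t _ => ?_
  rw [Measure.dirac_apply' _ hA, Set.indicator_apply]
  split_ifs <;> rfl

noncomputable def tm (s : ℕ → ℕ) (y : ℕ → X) (A : Set X) (k : ℕ) : ℝ :=
  (cnt (3 * 2 ^ s k) (y k) A : ℝ) / ((2 ^ (k + 1) * (3 * 2 ^ s k) : ℕ) : ℝ)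

theorem M_real (s : ℕ → ℕ) (y : ℕ → X) {A : Set X} (hA : MeasurableSet A) :
    (M s y).real A = ∑' k, tm s y A k := by
  rw [Measure.real, M_apply s y hA, ENNReal.tsum_toReal_eq fun k =>
    ENNReal.mul_ne_top (ENNReal.inv_ne_top.2 (by positivity)) (ENNReal.natCast_ne_top _)]
  refine tsum_congr fun k => ?_
  rw [ENNReal.toReal_mul, ENNReal.toReal_inv, ENNReal.toReal_natCast, ENNReal.toReal_natCast, tm,
    div_eq_inv_mul]

theorem tm_nonneg (s : ℕ → ℕ) (y : ℕ → X) (A : Set X) (k : ℕ) : 0 ≤ tm s y A k := by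
  unfold tm; positivity

theorem tm_le (s : ℕ → ℕ) (y : ℕ → X) (A : Set X) (k : ℕ) : tm s y A k ≤ 1 / 2 / 2 ^ k := by
  unfold tm
  have h : (cnt (3 * 2 ^ s k) (y k) A : ℝ) ≤ ((3 * 2 ^ s k : ℕ) : ℝ) := by
    exact_mod_cast cnt_le _ _ _
  rw [div_le_iff₀ (by positivity)]
  refine h.trans (le_of_eq ?_)
  push_cast; field_simp; ring

theorem tm_summable (s : ℕ → ℕ) (y : ℕ → X) (A : Set X) : Summable (tm s y A) :=
  Summable.of_nonneg_of_le (tm_nonneg s y A) (tm_le s y A) (summable_geometric_two' 1)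

theorem M_map (s : ℕ → ℕ) (y : ℕ → X) {G : X → X} (hG : Measurable G)
    (hc : ∀ t x, G (sh t x) = sh t (G x)) : (M s y).map G = M s fun k => G (y k) := by
  ext A hA
  rw [Measure.map_apply hG hA, M_apply _ _ (hG hA), M_apply _ _ hA]
  have : ∀ P x, cnt P x (G ⁻¹' A) = cnt P (G x) A := fun P x =>
    Finset.sum_congr rfl fun t _ => by rw [← hc]; rfl
  simp only [this]

theorem M_good (s : ℕ → ℕ) (y : ℕ → X) (hy : ∀ k, sh (3 * 2 ^ s k) (y k) = y k) :
    Good (M s y) := by
  constructor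
  · have h : (M s y).real Set.univ = 1 := by
      rw [M_real _ _ MeasurableSet.univ, ← tsum_geometric_two' 1]
      refine tsum_congr fun k => ?_
      simp only [tm, cnt, Set.mem_univ, if_true, sum_const, card_range, smul_eq_mul, mul_one]
      push_cast; field_simp; ring
    exact ⟨(ENNReal.toReal_eq_one_iff _).1 h⟩
  · have : shift = sh 1 := by funext x i; simp [shift, sh]
    rw [this, M_map s y (meas_sh 1) fun t x => by rw [sh_sh, sh_sh, add_comm]]
    ext A hA
    rw [M_apply _ _ hA, M_apply _ _ hA]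
    simp only [cnt_sh (hy _)]

theorem M_iter (s : ℕ → ℕ) (y : ℕ → X) (n : ℕ) :
    (M s y).map F^[n] = M s fun k => F^[n] (y k) :=
  M_map s y (meas_F.iterate n) fun t x => Fn_sh n t x

def cntB (w : List Bool) (j : ℕ) : ℕ :=
  ((List.range (3 * 2 ^ j)).filter fun t =>
    (List.range w.length).all fun i => cB j (i + t) == w.getD i false).length

theorem cntB_eq (w : List Bool) (j : ℕ) : cnt (3 * 2 ^ j) (c j) (cyl w) = cntB w j := by
  unfold cnt cntB
  generalize 3 * 2 ^ j = P
  induction P with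
  | zero => simp
  | succ P ih =>
    rw [sum_range_succ, ih, List.range_succ, List.filter_append, List.length_append]
    congr 1
    have : sh P (c j) ∈ cyl w ↔
        ((List.range w.length).all fun i => cB j (i + P) == w.getD i false) = true := by
      simp only [mem_cyl, sh, List.all_eq_true, List.mem_range, beq_iff_eq, ← c_nat]
      push_cast; rfl
    by_cases h : sh P (c j) ∈ cyl w
    · rw [if_pos h, List.filter_cons, if_pos (this.1 h)]; rfl
    · rw [if_neg h, List.filter_cons, if_neg (fun k => h (this.2 k))]; rfl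

def ap (s : ℕ → ℕ) (w : List Bool) (m : ℕ) : ℕ × ℕ :=
  Nat.rec (0, 1) (fun k q => (q.1 * (2 ^ (k + 1) * (3 * 2 ^ s k)) + cntB w (s k) * q.2,
    q.2 * (2 ^ (k + 1) * (3 * 2 ^ s k)))) m

theorem ap_spec (s : ℕ → ℕ) (w : List Bool) (m : ℕ) : 0 < (ap s w m).2 ∧
    ((ap s w m).1 : ℝ) / (ap s w m).2 = ∑ k ∈ range m, tm s (fun k => c (s k)) (cyl w) k := by
  induction m with
  | zero => simp [ap]
  | succ m ih =>
    have e : ap s w (m + 1) = ((ap s w m).1 * (2 ^ (m + 1) * (3 * 2 ^ s m)) +
      cntB w (s m) * (ap s w m).2, (ap s w m).2 * (2 ^ (m + 1) * (3 * 2 ^ s m))) := rfl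
    obtain ⟨h1, h2⟩ := ih
    rw [e, sum_range_succ, ← h2, tm, cntB_eq]
    refine ⟨by positivity, ?_⟩
    push_cast; field_simp

theorem M_comp (s : ℕ → ℕ) (hs : Primrec s) : CompMeas (M s fun k => c (s k)) := by
  have hp : Primrec fun p : List Bool × ℕ => ap s p.1 p.2 := by
    unfold ap cntB cB; fun_prop
  refine ⟨fun p => ((ap s p.1 p.2).1, 0, (ap s p.1 p.2).2 - 1),
    Primrec.to_comp (by fun_prop), fun w m => ?_⟩
  obtain ⟨h1, h2⟩ := ap_spec s w m
  have e : (((ap s w m).2 - 1 : ℕ) : ℝ) + 1 = (ap s w m).2 := by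
    rw [Nat.cast_sub h1]; simp
  simp only [Nat.cast_zero, sub_zero]
  rw [e, h2, M_real _ _ (meas_cyl w), ← (tm_summable _ _ _).sum_add_tsum_nat_add m,
    sub_add_cancel_left, abs_neg, abs_of_nonneg (tsum_nonneg fun _ => tm_nonneg _ _ _ _),
    ← tsum_geometric_two' (1 / 2 ^ m)]
  refine Summable.tsum_le_tsum (fun k => (tm_le _ _ _ _).trans (le_of_eq ?_))
    ((summable_nat_add_iff m).2 (tm_summable _ _ _)) (summable_geometric_two' _)
  field_simp; ring

noncomputable def nu (b : ℕ → Bool) : Measure X := M id fun k => F^[r k b] (c k)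

theorem nu_limit (b : ℕ → Bool) : LimitPt (M id c) (nu b) := by
  refine ⟨fun j => r j b + 2 ^ j, strictMono_nat_of_lt_succ fun j => ?_, fun w => ?_⟩
  · have := r_lt j b
    rw [pow_succ]; omega
  · simp only [M_iter, nu, M_real _ _ (meas_cyl w)]
    refine tendsto_tsum_of_dominated_convergence (summable_geometric_two' 1) (fun k => ?_)
      (Eventually.of_forall fun j k => ?_)
    · refine tendsto_const_nhds.congr' ((eventually_ge_atTop k).mono fun j hj => ?_)
      simp only [tm, id]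
      rw [cnt_mod k (r j b + 2 ^ j)]
      obtain ⟨d, rfl⟩ := Nat.exists_eq_add_of_le hj
      rw [pow_add 2 k d, Nat.add_mul_mod_self_left, r_mod _ _ hj]
    · rw [Real.norm_of_nonneg (tm_nonneg _ _ _ _)]; exact tm_le _ _ _ _

noncomputable def Dn (b : ℕ → Bool) : ℝ := (nu b).real (cyl [true])

theorem Dn_rec (b : ℕ → Bool) :
    Dn b = 1 / 3 + (if b 0 then 2 else 1) / 4 * Dn fun i => b (i + 1) := by
  unfold Dn nu
  rw [M_real _ _ (meas_cyl _), M_real _ _ (meas_cyl _), (tm_summable _ _ _).tsum_eq_zero_add,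
    ← tsum_mul_left]
  congr 1
  · have := N_zero b
    unfold N at this
    simp only [tm, id, this]; norm_num
  · refine tsum_congr fun k => ?_
    have := N_succ k b
    unfold N at this
    simp only [tm, id, this]
    push_cast; field_simp; ring

theorem Dn_bd (b : ℕ → Bool) : 5 / 12 ≤ Dn b ∧ Dn b ≤ 3 / 4 := by
  have h0 : ∀ b, 0 ≤ Dn b ∧ Dn b ≤ 1 := fun b => by
    have : IsProbabilityMeasure (nu b) :=
      (M_good id (fun k => F^[r k b] (c k)) fun k => Fc_per _ _).1
    exact ⟨measureReal_nonneg, measureReal_le_one⟩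
  have h1 : ∀ b, 1 / 3 ≤ Dn b ∧ Dn b ≤ 5 / 6 := fun b => by
    have := h0 fun i => b (i + 1)
    rw [Dn_rec]; split_ifs <;> constructor <;> linarith
  have := h1 fun i => b (i + 1)
  rw [Dn_rec]; split_ifs <;> constructor <;> linarith

theorem Dn_inj (b b' : ℕ → Bool) (h : Dn b = Dn b') : b = b' := by
  funext i
  induction i generalizing b b' with
  | zero =>
    have h1 := Dn_bd fun i => b (i + 1)
    have h2 := Dn_bd fun i => b' (i + 1)
    rw [Dn_rec b, Dn_rec b'] at h
    cases hb : b 0 <;> cases hb' : b' 0 <;> simp [hb, hb'] at h ⊢ <;> linarith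
  | succ i ih =>
    refine ih (fun i => b (i + 1)) (fun i => b' (i + 1)) ?_
    have h1 := Dn_bd fun i => b (i + 1)
    have h2 := Dn_bd fun i => b' (i + 1)
    rw [Dn_rec b, Dn_rec b'] at h
    cases hb : b 0 <;> cases hb' : b' 0 <;> simp [hb, hb'] at h ⊢ <;> linarith

theorem ex_noncomp : ∃ b, ¬ CompMeas (nu b) := by
  by_contra H
  push Not at H
  choose f hf hf2 using H
  let g : (ℕ → Bool) → {f : ℕ → ℕ // Computable f} := fun b =>
    ⟨fun k => Encodable.encode (f b ([true], k)),
      Computable.encode.comp ((hf b).comp ((Computable.const _).pair Computable.id))⟩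
  have hg : Function.Injective g := by
    intro b b' h
    have e : ∀ k, f b ([true], k) = f b' ([true], k) := fun k =>
      Encodable.encode_injective (congrFun (congrArg Subtype.val h) k)
    apply Dn_inj
    refine eq_of_forall_dist_le fun ε hε => ?_
    obtain ⟨k, hk⟩ := exists_pow_lt_of_lt_one (half_pos hε) (show (1 / 2 : ℝ) < 1 by norm_num)
    have h1 := hf2 b [true] k
    have h2 := hf2 b' [true] k
    rw [e] at h1
    rw [one_div_pow] at hk
    rw [Real.dist_eq, abs_le] at *
    unfold Dn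
    constructor <;> linarith [h1.1, h1.2, h2.1, h2.2]
  have := hg.countable
  obtain ⟨e, he⟩ := exists_surjective_nat (ℕ → Bool)
  obtain ⟨n, hn⟩ := he fun i => !e i i
  have := congrFun hn n
  simp at this

theorem q1 : ∃ μ : Measure X, Good μ ∧ CompMeas μ ∧ ∃ ν, Good ν ∧ LimitPt μ ν ∧ ¬ CompMeas ν := by
  obtain ⟨b, hb⟩ := ex_noncomp
  exact ⟨M id c, M_good id c c_per, M_comp id Primrec.id, nu b,
    M_good id _ fun k => Fc_per _ _, nu_limit b, hb⟩

theorem lang_iff (s : ℕ → ℕ) (j : ℕ) : LimLang (M s fun k => c (s k)) (Wd j) ↔ ∃ k, s k = j := by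
  unfold LimLang
  simp only [M_iter, M_real _ _ (meas_cyl _)]
  constructor
  · intro h
    by_contra hn
    push Not at hn
    apply h
    simp [tm, cnt_Wd_ne _ _ _ (hn _)]
  · rintro ⟨k, rfl⟩ h
    have h2 := h.comp (tendsto_id.const_mul_atTop' (r := 2 ^ s k) (by positivity))
    have h3 : (1 : ℝ) / ((2 ^ (k + 1) * (3 * 2 ^ s k) : ℕ) : ℝ) ≤ 0 := by
      refine ge_of_tendsto' h2 fun m => ?_
      refine le_trans ?_ ((tm_summable _ _ _).le_tsum k fun _ _ => tm_nonneg _ _ _ _)
      unfold tm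
      gcongr
      exact_mod_cast cnt_Wd _ _
    exact absurd h3 (not_le.2 (by positivity))

open Nat.Partrec in
def sK (k : ℕ) : ℕ :=
  bif (Code.evaln k.unpair.2 (Denumerable.ofNat Code k.unpair.1) 0).isSome then k.unpair.1 + 1 else 0

open Nat.Partrec in
theorem q2 : ∃ μ : Measure X, Good μ ∧ CompMeas μ ∧ ¬ ComputablePred (LimLang μ) := by
  refine ⟨M sK fun k => c (sK k), M_good _ _ fun k => c_per _,
    M_comp sK (by unfold sK; fun_prop), fun h => ComputablePred.halting_problem 0 ?_⟩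
  obtain ⟨f, hf, e⟩ := ComputablePred.computable_iff.1 h
  have hW : Primrec fun d : Code => Wd (Encodable.encode d + 1) := by
    unfold Wd cB; fun_prop
  refine ComputablePred.computable_iff.2 ⟨fun d => f (Wd (Encodable.encode d + 1)),
    hf.comp hW.to_comp, funext fun d => propext ?_⟩
  rw [← congrFun e, lang_iff]
  constructor
  · intro hd
    obtain ⟨n, hn⟩ := Code.evaln_complete.1 (Part.get_mem hd)
    refine ⟨Nat.pair (Encodable.encode d) n, ?_⟩
    simp [sK, Option.mem_def.1 hn]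
  · rintro ⟨k, hk⟩
    unfold sK at hk
    cases h1 : Code.evaln k.unpair.2 (Denumerable.ofNat Code k.unpair.1) 0 with
    | none => simp [h1] at hk
    | some v =>
      simp only [h1, Option.isSome_some, cond_true, Nat.add_right_cancel_iff] at hk
      rw [hk, Denumerable.ofNat_encode] at h1
      exact Part.dom_iff_mem.2 ⟨v, Code.evaln_sound h1⟩

end Pool.Agent.H16.Xor
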