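import Mathlib

set_option autoImplicit false

namespace Pool.Agent.H16.YBE8

variable {X X' : Type}

def r12 (r : X × X → X × X) (t : X × X × X) : X × X × X := ((r (t.1, t.2.1)).1, (r (t.1, t.2.1)).2, t.2.2)

def r23 (r : X × X → X × X) (t : X × X × X) : X × X × X := (t.1, r t.2)

/-- Involutive non-degenerate set-theoretic solution of the Yang-Baxter equation. -/
def IsSol (r : X × X → X × X) : Prop :=
  Nonempty X ∧ (∀ p, r (r p) = p) ∧ (∀ t, r12 r (r23 r (r12 r t)) = r23 r (r12 r (r23 r t))) ∧
    (∀ x, Function.Bijective fun y => (r (x, y)).1) ∧ ∀ y, Function.Bijective fun x => (r (x, y)).2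

def IsHom (r : X × X → X × X) (r' : X' × X' → X' × X') (f : X → X') : Prop :=
  ∀ p, Prod.map f f (r p) = r' (Prod.map f f p)

def Simple (r : X × X → X × X) : Prop :=
  Nontrivial X ∧ ∀ (X' : Type) (r' : X' × X' → X' × X') (f : X → X'), IsSol r' → IsHom r r' f →
    Function.Surjective f → Function.Bijective f ∨ Nat.card X' = 1

/-- The permutation group generated by the maps `y ↦ (r (x, y)).1`. -/
def PermGroup (r : X × X → X × X) : Subgroup (Equiv.Perm X) :=
  Subgroup.closure {g | ∃ x, ∀ y, g y = (r (x, y)).1}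

end Pool.Agent.H16.YBE8
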