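import Mathlib
import Pool.Agent.H16.YBE8Defs

set_option autoImplicit false

namespace Pool.Agent.H16.YBE8

abbrev X := Fin 2 × Fin 4

def ix (x : X) : ℕ := 4 * x.1.val + x.2.val

def look (L : List (List ℕ)) (x y : X) : X :=
  (Fin.ofNat 2 ((L.getD (ix x) []).getD (ix y) 0 / 4), Fin.ofNat 4 ((L.getD (ix x) []).getD (ix y) 0))

def s : X → X → X := look [[6, 4, 5, 7, 3, 0, 1, 2], [0, 2, 1, 3, 6, 7, 4, 5], [0, 2, 1, 3, 4, 5, 6, 7],
  [3, 1, 2, 0, 4, 5, 6, 7], [5, 6, 7, 4, 1, 2, 0, 3], [0, 1, 2, 3, 5, 4, 6, 7], [1, 0, 3, 2, 4, 5, 7, 6],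
  [0, 1, 2, 3, 4, 5, 7, 6]]

def t : X → X → X := look [[1, 6, 0, 0, 3, 5, 0, 0], [6, 2, 2, 1, 0, 1, 4, 1], [7, 1, 1, 2, 5, 2, 3, 2],
  [0, 3, 3, 4, 7, 3, 2, 3], [5, 4, 4, 3, 6, 4, 1, 4], [2, 7, 5, 5, 4, 0, 5, 5], [4, 0, 6, 6, 1, 6, 7, 7],
  [3, 5, 7, 7, 2, 7, 6, 6]]

def r (p : X × X) : X × X := (s p.1 p.2, t p.1 p.2)

def rk (a b : X) : ℕ := [9, 0, 1, 2, 2, 2, 2, 2, 1, 9, 2, 2, 2, 2, 1, 2, 2, 2, 9, 3, 2, 3, 1, 2, 2, 1, 2, 9,
  2, 3, 2, 2, 1, 2, 3, 2, 9, 2, 2, 2, 2, 2, 3, 3, 2, 9, 1, 2, 2, 2, 2, 1, 1, 1, 9, 1, 2, 2, 2, 2, 2, 2, 1,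
  9].getD (8 * ix a + ix b) 9

theorem sol : IsSol r := by
  refine ⟨⟨0⟩, ?_, ?_, ?_, ?_⟩ <;> decide +kernel

def E (a b c d : X) : Prop := ∃ u, (c = s u a ∧ d = s u b) ∨ (c = s a u ∧ d = s b u)

instance (a b c d : X) : Decidable (E a b c d) := by unfold E; infer_instance

theorem f1 : ∀ a b, rk a b < 9 → (a = (0, 0) ∧ b = (0, 1)) ∨ ∃ c d, rk c d < rk a b ∧ E a b c d := by
  decide +kernel

theorem f2 : ∀ a b, a ≠ b → rk a b < 9 := by decide +kernel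

theorem f3 : ∀ a, a = (0, 0) ∨ a = (0, 1) ∨ E (0, 0) (0, 1) (0, 0) a ∨
    ∃ c d, E (0, 0) (0, 1) c d ∧ E c d (0, 0) a := by decide +kernel

theorem f4 : ∀ x p q, (s x p).1 = (s x q).1 ↔ p.1 = q.1 := by decide +kernel

theorem simple : Simple r := by
  refine ⟨inferInstance, fun X' r' f _ hf hs => ?_⟩
  by_cases hi : Function.Injective f
  · exact Or.inl ⟨hi, hs⟩
  have k : ∀ a b c d, f a = f b → E a b c d → f c = f d := by
    rintro a b c d h ⟨u, ⟨rfl, rfl⟩ | ⟨rfl, rfl⟩⟩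
    · have := (hf (u, a)).trans ((by simp [h] : r' _ = r' _).trans (hf (u, b)).symm)
      exact congrArg Prod.fst this
    · have := (hf (a, u)).trans ((by simp [h] : r' _ = r' _).trans (hf (b, u)).symm)
      exact congrArg Prod.fst this
  have k1 : ∀ n a b, rk a b = n → rk a b < 9 → f a = f b → f (0, 0) = f (0, 1) := by
    intro n
    induction n using Nat.strong_induction_on with
    | _ n ih =>
      intro a b e h1 h2
      rcases f1 a b h1 with ⟨rfl, rfl⟩ | ⟨c, d, h3, h4⟩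
      · exact h2
      · exact ih _ (e ▸ h3) c d rfl (h3.trans h1) (k _ _ _ _ h2 h4)
  obtain ⟨a, b, h1, h2⟩ := Function.not_injective_iff.1 hi
  have k2 := k1 _ a b rfl (f2 a b h2) h1
  refine Or.inr (Nat.card_eq_one_iff_exists.2 ⟨f (0, 0), fun y => ?_⟩)
  obtain ⟨a, rfl⟩ := hs y
  rcases f3 a with rfl | rfl | h | ⟨c, d, h, h'⟩
  · rfl
  · exact k2.symm
  · exact (k _ _ _ _ k2 h).symm
  · exact (k _ _ _ _ (k _ _ _ _ k2 h) h').symm

theorem blocks (g : Equiv.Perm X) (hg : g ∈ PermGroup r) (y : Fin 2) :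
    ∃ y', g '' {p | p.1 = y} = {p | p.1 = y'} := by
  have : ∀ p q, (g p).1 = (g q).1 ↔ p.1 = q.1 := by
    induction hg using Subgroup.closure_induction with
    | mem g h => obtain ⟨x, h⟩ := h; intro p q; rw [h, h]; exact f4 x p q
    | one => simp
    | mul g h _ _ h1 h2 => intro p q; exact (h1 _ _).trans (h2 _ _)
    | inv g _ h => intro p q; rw [← h]; simp
  refine ⟨(g (y, 0)).1, Set.ext fun q => ⟨?_, fun h => ⟨g.symm q, ?_, by simp⟩⟩⟩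
  · rintro ⟨p, hp, rfl⟩
    exact (this _ _).2 hp
  · exact (this _ (y, 0)).1 (by simpa using h)

end Pool.Agent.H16.YBE8
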