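import Pool.Agent.H16.ZigDefs

namespace H16.Zig

open Complex

noncomputable def f (z : Circle) : ℂ := (z : ℂ) + (z : ℂ) ^ 3 / 10

noncomputable def om : ℂ := ⟨-1 / 2, √3 / 2⟩

lemma om_eq : om ^ 2 + om + 1 = 0 := by
  have h : √3 * √3 = (3 : ℝ) := Real.mul_self_sqrt (by norm_num)
  apply Complex.ext
  · simp [om, pow_two]; nlinarith
  · simp [om, pow_two]; ring

lemma om_norm : ‖om‖ = 1 := by
  have h3 : om ^ 3 = 1 := by linear_combination (om - 1) * om_eq
  have : ‖om‖ ^ 3 = 1 := by rw [← norm_pow, h3, norm_one]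
  exact (pow_eq_one_iff_of_nonneg (norm_nonneg _) (by norm_num)).1 this

noncomputable def w : Circle := ⟨om, by simpa [Submonoid.unitSphere] using om_norm⟩

lemma w_coe : (w : ℂ) = om := rfl

lemma key (z u : Circle) : normSq (f z - f u) = 3 ↔ (u = w * z ∨ u = w * w * z) := by
  have hz : (z : ℂ).re ^ 2 + (z : ℂ).im ^ 2 = 1 := by
    have := Circle.normSq_coe z; rw [normSq_apply] at this; nlinarith
  have hu : (u : ℂ).re ^ 2 + (u : ℂ).im ^ 2 = 1 := by
    have := Circle.normSq_coe u; rw [normSq_apply] at this; nlinarith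
  set a := (z : ℂ).re with ha
  set b := (z : ℂ).im with hb
  set c := (u : ℂ).re with hc
  set e := (u : ℂ).im with he
  set y : ℝ := 1 + 2 * (a * c + b * e) with hy
  set r : ℝ := a * c - b * e with hr
  have h1 : (z : ℂ) ^ 2 + z * u + (u : ℂ) ^ 2 = z * u * (y : ℂ) := by
    apply Complex.ext
    · simp only [pow_two, add_re, mul_re, mul_im, ofReal_re, ofReal_im, ← ha, ← hb, ← hc, ← he, hy]
      linear_combination (-(c ^ 2) + e ^ 2) * hz + (-(a ^ 2) + b ^ 2) * hu
    · simp only [pow_two, add_im, mul_re, mul_im, ofReal_re, ofReal_im, ← ha, ← hb, ← hc, ← he, hy]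
      linear_combination (-2 * c * e) * hz + (-2 * a * b) * hu
  have h2 : f z - f u = ((z : ℂ) - u) * (1 + z * u * (y : ℂ) / 10) := by
    rw [← h1]; unfold f; ring
  have h3 : normSq ((z : ℂ) - u) = 3 - y := by
    rw [normSq_apply]; simp only [sub_re, sub_im, ← ha, ← hb, ← hc, ← he, hy]; nlinarith
  have h4 : normSq (1 + (z : ℂ) * u * (y : ℂ) / 10) = 1 + y * r / 5 + y ^ 2 / 100 := by
    have e1 : (1 + (z : ℂ) * u * (y : ℂ) / 10).re = 1 + r * y / 10 := by
      simp [← ha, ← hb, ← hc, ← he, hr]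
    have e2 : (1 + (z : ℂ) * u * (y : ℂ) / 10).im = (a * e + b * c) * y / 10 := by
      simp [← ha, ← hb, ← hc, ← he]
    rw [normSq_apply, e1, e2, hr]
    linear_combination (y ^ 2 / 100 * (c ^ 2 + e ^ 2)) * hz + (y ^ 2 / 100) * hu
  have hy1 : -1 ≤ y := by nlinarith [sq_nonneg (a + c), sq_nonneg (b + e)]
  have hy2 : y ≤ 3 := by nlinarith [sq_nonneg (a - c), sq_nonneg (b - e)]
  have hr2 : r ≤ 1 := by nlinarith [sq_nonneg (a - c), sq_nonneg (b + e)]
  have hlt : (3 - y) * (r / 5 + y / 100) - 1 < 0 := by nlinarith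
  have h5 : normSq (f z - f u) = 3 ↔ y = 0 := by
    rw [h2, normSq_mul, h3, h4]
    constructor
    · intro h
      have : y * ((3 - y) * (r / 5 + y / 100) - 1) = 0 := by linear_combination h
      rcases mul_eq_zero.1 this with h | h
      · exact h
      · exact absurd h hlt.ne
    · intro h; rw [h]; norm_num
  have hz0 : (z : ℂ) ≠ 0 := Circle.coe_ne_zero z
  have hu0 : (u : ℂ) ≠ 0 := Circle.coe_ne_zero u
  have h6 : ((u : ℂ) - om * z) * ((u : ℂ) - om * om * z) = z * u * (y : ℂ) := by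
    rw [← h1]; linear_combination ((om - 1) * (z : ℂ) ^ 2 - z * u) * om_eq
  rw [h5]
  constructor
  · intro h
    rw [h] at h6
    simp only [ofReal_zero, mul_zero] at h6
    rcases mul_eq_zero.1 h6 with h | h
    · left; apply Circle.ext; simp only [Circle.coe_mul, w_coe]; linear_combination h
    · right; apply Circle.ext; simp only [Circle.coe_mul, w_coe]; linear_combination h
  · intro h
    have : (z : ℂ) * u * (y : ℂ) = 0 := by
      rw [← h6]
      rcases h with h | h <;> rw [h] <;> simp [w_coe]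
    have h7 : (y : ℂ) = 0 := by
      rcases mul_eq_zero.1 this with h | h
      · exact absurd h (mul_ne_zero hz0 hu0)
      · exact h
    exact_mod_cast h7

lemma w3 : w * w * w = 1 := by
  apply Circle.ext; simp only [Circle.coe_mul, w_coe, Circle.coe_one]
  linear_combination (om - 1) * om_eq

lemma nbr {E : Type} [MetricSpace E] (α β : ℂ → E) (d : ℝ)
    (hd : ∀ s t, dist (α s) (β t) = d ↔ normSq (s - t) = 3)
    (hc : α = β ∨ ∀ s t, α s ≠ β t) (z : Circle) (q : E) :
    Adj (Set.range (α ∘ f)) (Set.range (β ∘ f)) d (α (f z)) q ↔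
      (q = β (f (w * z)) ∨ q = β (f (w * w * z))) := by
  constructor
  · rintro ⟨h1, h2⟩
    have hq : q ∈ Set.range (β ∘ f) := by
      rcases h2 with h2 | ⟨⟨u, hu⟩, h2⟩
      · exact h2.2
      · rcases hc with hc | hc
        · rw [← hc]; exact h2
        · exact absurd hu.symm (hc _ _)
    obtain ⟨u, rfl⟩ := hq
    have := (key z u).1 ((hd _ _).1 h1)
    rcases this with h | h <;> simp [h]
  · intro h
    rcases h with rfl | rfl
    · exact ⟨(hd _ _).2 ((key _ _).2 (Or.inl rfl)), Or.inl ⟨⟨z, rfl⟩, ⟨_, rfl⟩⟩⟩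
    · exact ⟨(hd _ _).2 ((key _ _).2 (Or.inr rfl)), Or.inl ⟨⟨z, rfl⟩, ⟨_, rfl⟩⟩⟩

lemma adj_swap {E : Type} [MetricSpace E] (A B : Set E) (d : ℝ) : Adj A B d = Adj B A d := by
  funext p q; unfold Adj; apply propext; tauto

lemma gen {E : Type} [MetricSpace E] (α β : ℂ → E) (d : ℝ)
    (hd : ∀ s t, dist (α s) (β t) = d ↔ normSq (s - t) = 3)
    (hc : α = β ∨ ∀ s t, α s ≠ β t) (ia : Function.Injective α) (ib : Function.Injective β) :
    (∀ p ∈ Set.range (α ∘ f) ∪ Set.range (β ∘ f),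
      {q | Adj (Set.range (α ∘ f)) (Set.range (β ∘ f)) d p q}.ncard = 2) ∧
    (∀ p ∈ Set.range (α ∘ f) ∪ Set.range (β ∘ f),
      {q | Relation.ReflTransGen (Adj (Set.range (α ∘ f)) (Set.range (β ∘ f)) d) p q}.Finite) := by
  have hd' : ∀ s t, dist (β s) (α t) = d ↔ normSq (s - t) = 3 := by
    intro s t; rw [dist_comm, hd, ← normSq_neg, neg_sub]
  have hc' : β = α ∨ ∀ s t, β s ≠ α t := by
    rcases hc with h | h
    · exact Or.inl h.symm
    · exact Or.inr fun s t => (h t s).symm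
  have n1 := nbr α β d hd hc
  have n2 := nbr β α d hd' hc'
  rw [adj_swap] at n2
  have hne : ∀ z : Circle, f (w * z) ≠ f (w * w * z) := by
    intro z h
    have := (key (w * z) (w * w * z)).2 (Or.inl (by rw [mul_assoc]))
    rw [h] at this; simp at this
  constructor
  · rintro p (⟨z, rfl⟩ | ⟨z, rfl⟩)
    · rw [Set.ncard_eq_two]
      exact ⟨_, _, fun h => hne z (ib h), by ext q; exact n1 z q⟩
    · rw [Set.ncard_eq_two]
      exact ⟨_, _, fun h => hne z (ia h), by ext q; exact n2 z q⟩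
  · have fin : ∀ z : Circle, ((α ∘ f) '' {z, w * z, w * w * z} ∪
        (β ∘ f) '' {z, w * z, w * w * z}).Finite := fun z =>
      ((Set.toFinite _).image _).union ((Set.toFinite _).image _)
    have cl : ∀ z u : Circle, u ∈ ({z, w * z, w * w * z} : Set Circle) →
        w * u ∈ ({z, w * z, w * w * z} : Set Circle) := by
      intro z u hu
      simp only [Set.mem_insert_iff, Set.mem_singleton_iff] at hu ⊢
      rcases hu with rfl | rfl | rfl
      · exact Or.inr (Or.inl rfl)
      · exact Or.inr (Or.inr (by rw [mul_assoc]))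
      · left; rw [← mul_assoc, ← mul_assoc, w3, one_mul]
    have step : ∀ (z : Circle) (p : E), p ∈ ((α ∘ f) '' {z, w * z, w * w * z} ∪
        (β ∘ f) '' {z, w * z, w * w * z}) → ∀ q,
        Relation.ReflTransGen (Adj (Set.range (α ∘ f)) (Set.range (β ∘ f)) d) p q →
        q ∈ ((α ∘ f) '' {z, w * z, w * w * z} ∪ (β ∘ f) '' {z, w * z, w * w * z}) := by
      intro z p hp q h
      induction h with
      | refl => exact hp
      | tail _ h2 ih =>
        rcases ih with ⟨u, hu, rfl⟩ | ⟨u, hu, rfl⟩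
        · rcases (n1 u _).1 h2 with h | h
          · exact Or.inr ⟨_, cl z u hu, h.symm⟩
          · exact Or.inr ⟨_, cl z _ (cl z u hu), by rw [h, mul_assoc]; rfl⟩
        · rcases (n2 u _).1 h2 with h | h
          · exact Or.inl ⟨_, cl z u hu, h.symm⟩
          · exact Or.inl ⟨_, cl z _ (cl z u hu), by rw [h, mul_assoc]; rfl⟩
    rintro p (⟨z, rfl⟩ | ⟨z, rfl⟩)
    · exact (fin z).subset fun q hq => step z _ (Or.inl ⟨z, by simp, rfl⟩) q hq
    · exact (fin z).subset fun q hq => step z _ (Or.inr ⟨z, by simp, rfl⟩) q hq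

lemma f_inj : Function.Injective f := by
  intro z u h
  have h2 : ((z : ℂ) - u) * (10 + ((z : ℂ) ^ 2 + z * u + (u : ℂ) ^ 2)) = 0 := by
    unfold f at h; linear_combination 10 * h
  rcases mul_eq_zero.1 h2 with h3 | h3
  · exact Circle.ext (by linear_combination h3)
  · exfalso
    have h4 : (z : ℂ) ^ 2 + z * u + (u : ℂ) ^ 2 = -10 := by linear_combination h3
    have h5 : ‖(z : ℂ) ^ 2 + z * u + (u : ℂ) ^ 2‖ ≤ 3 := by
      have := norm_add₃_le (a := (z : ℂ) ^ 2) (b := (z : ℂ) * u) (c := (u : ℂ) ^ 2)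
      simp only [norm_pow, norm_mul, Circle.norm_coe] at this
      linarith
    rw [h4] at h5
    norm_num at h5

lemma f_cont : Continuous f := by
  unfold f; fun_prop

noncomputable def P2 (s : ℂ) : EuclideanSpace ℝ (Fin 2) := !₂[s.re, s.im]
noncomputable def P3 (h : ℝ) (s : ℂ) : EuclideanSpace ℝ (Fin 3) := !₂[s.re, s.im, h]

noncomputable def ci : Circle := ⟨I, by simp [Submonoid.unitSphere]⟩
lemma f1 : f 1 = 11 / 10 := by simp [f]; norm_num
lemma f2 : f (-1) = -11 / 10 := by simp [f]; norm_num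
lemma f3 : f ci = 9 / 10 * I := by
  have : (ci : ℂ) = I := rfl
  simp only [f, this, I_pow_three]; ring
lemma f4 : f (-ci) = -9 / 10 * I := by
  have : ((-ci : Circle) : ℂ) = -I := by simp; rfl
  simp only [f, this]; rw [neg_pow, I_pow_three]; ring

lemma sq2 (s : ℂ) (c : EuclideanSpace ℝ (Fin 2)) :
    dist (P2 s) c ^ 2 = (s.re - c 0) ^ 2 + (s.im - c 1) ^ 2 := by
  rw [EuclideanSpace.dist_eq, Real.sq_sqrt (by positivity)]
  simp [P2, Fin.sum_univ_two, Real.dist_eq, sq_abs]

lemma sq3 (h : ℝ) (s : ℂ) (c : EuclideanSpace ℝ (Fin 3)) :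
    dist (P3 h s) c ^ 2 = (s.re - c 0) ^ 2 + (s.im - c 1) ^ 2 + (h - c 2) ^ 2 := by
  rw [EuclideanSpace.dist_eq, Real.sq_sqrt (by positivity)]
  simp [P3, Fin.sum_univ_three, Real.dist_eq, sq_abs]

lemma nc2 : ¬ EuclideanGeometry.Cospherical (Set.range (P2 ∘ f)) := by
  rintro ⟨c, r, h⟩
  have a1 := sq2 (f 1) c
  have a2 := sq2 (f (-1)) c
  have a3 := sq2 (f ci) c
  have a4 := sq2 (f (-ci)) c
  have hh : ∀ z, dist (P2 (f z)) c = r := fun z => h _ ⟨z, rfl⟩
  rw [hh] at a1 a2 a3 a4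
  rw [f1] at a1; rw [f2] at a2; rw [f3] at a3; rw [f4] at a4
  norm_num at a1 a2 a3 a4
  nlinarith

lemma nc3 (t : ℝ) : ¬ EuclideanGeometry.Cospherical (Set.range (P3 t ∘ f)) := by
  rintro ⟨c, r, h⟩
  have a1 := sq3 t (f 1) c
  have a2 := sq3 t (f (-1)) c
  have a3 := sq3 t (f ci) c
  have a4 := sq3 t (f (-ci)) c
  have hh : ∀ z, dist (P3 t (f z)) c = r := fun z => h _ ⟨z, rfl⟩
  rw [hh] at a1 a2 a3 a4
  rw [f1] at a1; rw [f2] at a2; rw [f3] at a3; rw [f4] at a4
  norm_num at a1 a2 a3 a4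
  nlinarith

lemma c2 : Continuous P2 := by unfold P2; fun_prop
lemma c3 (t : ℝ) : Continuous (P3 t) := by unfold P3; fun_prop

theorem main :
    (∃ (A B : Set (EuclideanSpace ℝ (Fin 3))) (d : ℝ), Hyp A B d ∧ Disjoint A B ∧
      ¬ EuclideanGeometry.Cospherical A ∧ ¬ EuclideanGeometry.Cospherical B) ∧
    (∃ (A : Set (EuclideanSpace ℝ (Fin 2))) (d : ℝ), Hyp A A d ∧
      ¬ EuclideanGeometry.Cospherical A) := by
  constructor
  · have hne : ∀ s t, P3 0 s ≠ P3 1 t := by
      intro s t h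
      have := congrArg (fun x => x 2) h
      simp [P3] at this
    have inj : ∀ h, Function.Injective (P3 h) := by
      intro h s t hst
      have h0 := congrArg (fun x => x 0) hst
      have h1 := congrArg (fun x => x 1) hst
      simp [P3] at h0 h1
      exact Complex.ext h0 h1
    have hd : ∀ s t, dist (P3 0 s) (P3 1 t) = 2 ↔ normSq (s - t) = 3 := by
      intro s t
      have e := sq3 0 s (P3 1 t)
      have e0 : P3 1 t 0 = t.re := by simp [P3]
      have e1 : P3 1 t 1 = t.im := by simp [P3]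
      have e2 : P3 1 t 2 = 1 := by simp [P3]
      rw [e0, e1, e2] at e
      rw [normSq_apply, sub_re, sub_im]
      constructor
      · intro h; rw [h] at e; nlinarith
      · intro h
        have : dist (P3 0 s) (P3 1 t) ^ 2 = 2 ^ 2 := by nlinarith
        exact (pow_left_inj₀ dist_nonneg (by norm_num) (by norm_num)).1 this
    have g := gen (P3 0) (P3 1) 2 hd (Or.inr hne) (inj 0) (inj 1)
    refine ⟨Set.range (P3 0 ∘ f), Set.range (P3 1 ∘ f), 2,
      ⟨⟨_, (c3 0).comp f_cont, (inj 0).comp f_inj, rfl⟩,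
        ⟨_, (c3 1).comp f_cont, (inj 1).comp f_inj, rfl⟩, ?_, by norm_num, g.1, g.2⟩,
      ?_, nc3 0, nc3 1⟩
    · refine ⟨1, !₂[0, 0, 1], one_ne_zero, ?_⟩
      rw [← Set.range_comp]
      congr 1
      funext z
      ext i
      fin_cases i <;> simp [P3]
    · rw [Set.disjoint_left]
      rintro p ⟨s, rfl⟩ ⟨t, ht⟩
      exact hne _ _ ht.symm
  · have inj : Function.Injective P2 := by
      intro s t hst
      have h0 := congrArg (fun x => x 0) hst
      have h1 := congrArg (fun x => x 1) hst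
      simp [P2] at h0 h1
      exact Complex.ext h0 h1
    have h3 : √3 ^ 2 = (3 : ℝ) := Real.sq_sqrt (by norm_num)
    have hd : ∀ s t, dist (P2 s) (P2 t) = √3 ↔ normSq (s - t) = 3 := by
      intro s t
      have e := sq2 s (P2 t)
      have e0 : P2 t 0 = t.re := by simp [P2]
      have e1 : P2 t 1 = t.im := by simp [P2]
      rw [e0, e1] at e
      rw [normSq_apply, sub_re, sub_im]
      constructor
      · intro h; rw [h] at e; nlinarith
      · intro h
        have : dist (P2 s) (P2 t) ^ 2 = √3 ^ 2 := by nlinarith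
        exact (pow_left_inj₀ dist_nonneg (by positivity) (by norm_num)).1 this
    have g := gen P2 P2 (√3) hd (Or.inl rfl) inj inj
    refine ⟨Set.range (P2 ∘ f), √3,
      ⟨⟨_, c2.comp f_cont, inj.comp f_inj, rfl⟩, ⟨_, c2.comp f_cont, inj.comp f_inj, rfl⟩,
        ?_, by positivity, g.1, g.2⟩, nc2⟩
    exact ⟨1, 0, one_ne_zero, by simp⟩

end H16.Zig
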