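import Mathlib

namespace H16.Zig

/-- A simple closed curve: the image of an injective continuous map from the circle
(in particular a closed locus). -/
def SimpleClosed {E : Type} [TopologicalSpace E] (A : Set E) : Prop :=
  ∃ γ : Circle → E, Continuous γ ∧ Function.Injective γ ∧ A = Set.range γ

/-- `B = {l • x + v : x ∈ A}` for some real `l ≠ 0` and some vector `v`. -/
def Homothetic {n : ℕ} (A B : Set (EuclideanSpace ℝ (Fin n))) : Prop :=
  ∃ (l : ℝ) (v : EuclideanSpace ℝ (Fin n)), l ≠ 0 ∧ B = (fun x => l • x + v) '' A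

/-- Adjacency in `G_d`: one point in `A`, the other in `B`, at distance `d`. -/
def Adj {E : Type} [MetricSpace E] (A B : Set E) (d : ℝ) (p q : E) : Prop :=
  dist p q = d ∧ ((p ∈ A ∧ q ∈ B) ∨ (p ∈ B ∧ q ∈ A))

/-- All hypotheses of Q1. -/
def Hyp {n : ℕ} (A B : Set (EuclideanSpace ℝ (Fin n))) (d : ℝ) : Prop :=
  SimpleClosed A ∧ SimpleClosed B ∧ Homothetic A B ∧ 0 < d ∧
  (∀ p ∈ A ∪ B, {q | Adj A B d p q}.ncard = 2) ∧
  (∀ p ∈ A ∪ B, {q | Relation.ReflTransGen (Adj A B d) p q}.Finite)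

end H16.Zig
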